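import Pool.Agent.P.MP_5f84aa_co.G.If

/-! Toolbox 1: coordinates of a bar, germs, lexicographic order. -/

namespace Pool.Agent.P.MP_5f84aa_co.G

open Filter Topology Set

@[simp] theorem sg_true : sg true = 1 := rfl
@[simp] theorem sg_false : sg false = -1 := rfl
@[simp] theorem sg_not (b : Bool) : sg (!b) = -sg b := by cases b <;> simp
@[simp] theorem sg_mul_self (b : Bool) : sg b * sg b = 1 := by cases b <;> simp
@[simp] theorem abs_sg (b : Bool) : |sg b| = 1 := by cases b <;> simp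
theorem sg_ne (b : Bool) : sg b ≠ 0 := by cases b <;> simp

/-- two signs with the same positive product are equal -/
theorem sg_eq {a b : Bool} {h : ℝ} (ha : 0 < sg a * h) (hb : 0 < sg b * h) : a = b := by
  cases a <;> cases b <;> simp at ha hb ⊢ <;> linarith

theorem abs_of_sg {a : Bool} {h : ℝ} (ha : 0 ≤ sg a * h) : |h| = sg a * h := by
  cases a
  · simp at ha ⊢; exact ha
  · simp at ha ⊢; exact ha

theorem pt_ext {u v : Pt} (h0 : u 0 = v 0) (h1 : u 1 = v 1) : u = v := by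
  funext i; fin_cases i <;> assumption

namespace Bar

variable (t : Bar)

theorem lp_apply (v : Pt) : t.lp v = (t.d 0 * v 0 + t.d 1 * v 1) / t.n2 := rfl
theorem lh_apply (v : Pt) : t.lh v = t.d 0 * v 1 - t.d 1 * v 0 := rfl

@[simp] theorem lh_d : t.lh t.d = 0 := by rw [lh_apply]; ring
@[simp] theorem lp_nv : t.lp t.nv = 0 := by rw [lp_apply]; simp [nv]; left; ring

theorem lh_swap (w : Bar) : t.lh w.d = -w.lh t.d := by simp only [lh_apply]; ring

variable {t}

theorem n2_pos (h : t.d ≠ 0) : 0 < t.n2 := by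
  unfold n2
  by_contra hc
  apply h
  have h0 := sq_nonneg (t.d 0)
  have h1 := sq_nonneg (t.d 1)
  have e0 : t.d 0 ^ 2 = 0 := by linarith
  have e1 : t.d 1 ^ 2 = 0 := by linarith
  exact pt_ext (by simpa using e0) (by simpa using e1)

theorem lp_d (h : t.d ≠ 0) : t.lp t.d = 1 := by
  have := (n2_pos h).ne'
  rw [lp_apply, div_eq_one_iff_eq this, n2]; ring

theorem lh_nv (h : t.d ≠ 0) : t.lh t.nv = 1 := by
  have := (n2_pos h).ne'
  rw [lh_apply]; simp only [nv, Matrix.cons_val_zero, Matrix.cons_val_one]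
  field_simp; rw [n2]; ring

/-- every vector in the frame of the bar -/
theorem vec_eq (h : t.d ≠ 0) (v : Pt) : t.lp v • t.d + t.lh v • t.nv = v := by
  have := (n2_pos h).ne'
  apply pt_ext <;>
  · simp only [lp_apply, lh_apply, nv, Pi.add_apply, Pi.smul_apply, smul_eq_mul,
      Matrix.cons_val_zero, Matrix.cons_val_one]
    field_simp; rw [n2]; ring

theorem vec_ext (h : t.d ≠ 0) {u v : Pt} (hp : t.lp u = t.lp v) (hh : t.lh u = t.lh v) : u = v := by
  rw [← vec_eq h u, ← vec_eq h v, hp, hh]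

/-- a vector parallel to the bar -/
theorem eq_smul_of_lh (h : t.d ≠ 0) {v : Pt} (hv : t.lh v = 0) : v = t.lp v • t.d := by
  have := vec_eq h v
  rw [hv, zero_smul, add_zero] at this
  exact this.symm

variable (t)

theorem pos_add (q v : Pt) : t.pos (q + v) = t.pos q + t.lp v := by
  rw [pos, pos, ← map_add]; congr 1; abel
theorem ht_add (q v : Pt) : t.ht (q + v) = t.ht q + t.lh v := by
  rw [ht, ht, ← map_add]; congr 1; abel
theorem pos_sub (q p : Pt) : t.pos q - t.pos p = t.lp (q - p) := by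
  rw [pos, pos, ← map_sub]; congr 1; abel
theorem ht_sub (q p : Pt) : t.ht q - t.ht p = t.lh (q - p) := by
  rw [ht, ht, ← map_sub]; congr 1; abel
@[simp] theorem pos_o : t.pos t.o = 0 := by simp [pos]
@[simp] theorem ht_o : t.ht t.o = 0 := by simp [ht]

theorem pos_comb {a b : ℝ} (h : a + b = 1) (x y : Pt) :
    t.pos (a • x + b • y) = a * t.pos x + b * t.pos y := by
  obtain rfl : a = 1 - b := by linarith
  simp only [pos, map_sub, map_add, map_smul, smul_eq_mul]; ring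
theorem ht_comb {a b : ℝ} (h : a + b = 1) (x y : Pt) :
    t.ht (a • x + b • y) = a * t.ht x + b * t.ht y := by
  obtain rfl : a = 1 - b := by linarith
  simp only [ht, map_sub, map_add, map_smul, smul_eq_mul]; ring

@[fun_prop] theorem continuous_pos : Continuous t.pos :=
  t.lp.continuous_of_finiteDimensional.comp (continuous_id.sub continuous_const)
@[fun_prop] theorem continuous_ht : Continuous t.ht :=
  t.lh.continuous_of_finiteDimensional.comp (continuous_id.sub continuous_const)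
theorem continuous_pt : Continuous fun p : ℝ × ℝ => t.pt p.1 p.2 := by unfold pt; fun_prop

/-- coordinates of another bar `w` at a point given in the coordinates of `t` -/
theorem pos_pt' (w : Bar) (x y : ℝ) : w.pos (t.pt x y) = w.pos t.o + x * w.lp t.d + y * w.lp t.nv := by
  simp only [pt, pos_add, map_smul, smul_eq_mul]
theorem ht_pt' (w : Bar) (x y : ℝ) : w.ht (t.pt x y) = w.ht t.o + x * w.lh t.d + y * w.lh t.nv := by
  simp only [pt, ht_add, map_smul, smul_eq_mul]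

theorem pt_comb {a b : ℝ} (h : a + b = 1) (x y x' y' : ℝ) :
    a • t.pt x y + b • t.pt x' y' = t.pt (a * x + b * x') (a * y + b * y') := by
  obtain rfl : a = 1 - b := by linarith
  simp only [pt]; module

variable {t}

theorem pos_pt (h : t.d ≠ 0) (x y : ℝ) : t.pos (t.pt x y) = x := by simp [pos_pt', lp_d h]
theorem ht_pt (h : t.d ≠ 0) (x y : ℝ) : t.ht (t.pt x y) = y := by simp [ht_pt', lh_nv h]
theorem pt_pos_ht (h : t.d ≠ 0) (q : Pt) : t.pt (t.pos q) (t.ht q) = q := by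
  rw [pt, pos, ht, add_assoc, vec_eq h]; abel

/-- a point is determined by its coordinates -/
theorem ext_pt (h : t.d ≠ 0) {p q : Pt} (hp : t.pos p = t.pos q) (hh : t.ht p = t.ht q) : p = q := by
  rw [← pt_pos_ht h p, ← pt_pos_ht h q, hp, hh]

theorem Rg.rc {x : ℝ} (h : t.Rg x) : t.Rc x := ⟨h.1.le, fun e => (h.2 e).le⟩
theorem In.cl {q : Pt} (h : t.In q) : t.Cl q := ⟨h.1, h.2.rc⟩
theorem Ob.isIn {γ : ℝ} (hγ : 0 < γ) {q : Pt} (h : t.Ob γ q) : t.In q :=
  ⟨h.2.1, by linarith [h.2.2.1], fun _ => by linarith [h.2.2.2]⟩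
theorem in_pt (h : t.d ≠ 0) {x : ℝ} : t.In (t.pt x 0) ↔ t.Rg x := by simp [In, pos_pt h, ht_pt h]
theorem cl_pt (h : t.d ≠ 0) {x y : ℝ} : t.Cl (t.pt x y) ↔ y = 0 ∧ t.Rc x := by
  simp [Cl, pos_pt h, ht_pt h]
theorem In.eq_pt (h : t.d ≠ 0) {q : Pt} (hq : t.ht q = 0) : q = t.pt (t.pos q) 0 := by
  rw [← hq, pt_pos_ht h]

theorem Rg.between {x y z : ℝ} (hx : t.Rg x) (hz : t.Rg z) (h1 : x ≤ y) (h2 : y ≤ z) : t.Rg y :=
  ⟨by linarith [hx.1], fun e => by linarith [hz.2 e]⟩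

variable (t)

theorem isOpen_Rg : IsOpen {x | t.Rg x} := by
  cases h : t.ray
  · have : {x | t.Rg x} = Ioo 0 1 := by ext x; simp [Rg, h]
    rw [this]; exact isOpen_Ioo
  · have : {x | t.Rg x} = Ioi 0 := by ext x; simp [Rg, h]
    rw [this]; exact isOpen_Ioi

theorem isClosed_Rc : IsClosed {x | t.Rc x} := by
  cases h : t.ray
  · have : {x | t.Rc x} = Icc 0 1 := by ext x; simp [Rc, h]
    rw [this]; exact isClosed_Icc
  · have : {x | t.Rc x} = Ici 0 := by ext x; simp [Rc, h]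
    rw [this]; exact isClosed_Ici

theorem isClosed_Cl : IsClosed {q | t.Cl q} :=
  (isClosed_eq t.continuous_ht continuous_const).inter (t.isClosed_Rc.preimage t.continuous_pos)

theorem isClosed_Ob (γ : ℝ) : IsClosed {q | t.Ob γ q} := by
  refine IsClosed.inter isClosed_const (IsClosed.inter (isClosed_eq t.continuous_ht continuous_const)
    (IsClosed.inter (isClosed_le continuous_const t.continuous_pos)
      (isClosed_le t.continuous_pos continuous_const)))

theorem convex_Rg : Convex ℝ {x | t.Rg x} := by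
  rw [convex_iff_ordConnected]
  exact ⟨fun x hx z hz y hy => Rg.between hx hz hy.1 hy.2⟩

theorem convex_Rc : Convex ℝ {x | t.Rc x} := by
  rw [convex_iff_ordConnected]
  exact ⟨fun x hx z hz y hy => ⟨hx.1.trans hy.1, fun e => hy.2.trans (hz.2 e)⟩⟩

theorem convex_In : Convex ℝ {q | t.In q} := by
  intro x hx y hy a b ha hb hab
  refine ⟨by rw [ht_comb _ hab, hx.1, hy.1]; ring, ?_⟩
  rw [pos_comb _ hab]
  exact t.convex_Rg hx.2 hy.2 ha hb hab

theorem convex_Cl : Convex ℝ {q | t.Cl q} := by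
  intro x hx y hy a b ha hb hab
  refine ⟨by rw [ht_comb _ hab, hx.1, hy.1]; ring, ?_⟩
  rw [pos_comb _ hab]
  exact t.convex_Rc hx.2 hy.2 ha hb hab

variable {t}

theorem isCompact_Ob (h : t.d ≠ 0) (γ : ℝ) : IsCompact {q | t.Ob γ q} := by
  refine ((isCompact_Icc (a := γ) (b := 1 - γ)).image
    (f := fun x => t.pt x 0) (by unfold pt; fun_prop)).of_isClosed_subset (t.isClosed_Ob γ) ?_
  intro q hq
  exact ⟨t.pos q, hq.2.2, (In.eq_pt h hq.2.1).symm⟩

/-! ### germs -/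

theorem pos_gp (h : t.d ≠ 0) (σ : Bool) (x κ ε : ℝ) : t.pos (t.gp σ x κ ε) = x + ε * κ := pos_pt h _ _
theorem ht_gp (h : t.d ≠ 0) (σ : Bool) (x κ ε : ℝ) : t.ht (t.gp σ x κ ε) = sg σ * ε := ht_pt h _ _

variable (t)

theorem gp_eq (σ : Bool) (x κ ε : ℝ) :
    t.gp σ x κ ε = t.pt x 0 + ε • (κ • t.d + sg σ • t.nv) := by
  simp only [gp, pt]; module

theorem pos_gp' (w : Bar) (σ : Bool) (x κ ε : ℝ) :
    w.pos (t.gp σ x κ ε) = w.pos (t.pt x 0) + ε * (κ * w.lp t.d + sg σ * w.lp t.nv) := by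
  simp only [gp_eq, pos_add, map_smul, map_add, smul_eq_mul]
theorem ht_gp' (w : Bar) (σ : Bool) (x κ ε : ℝ) :
    w.ht (t.gp σ x κ ε) = w.ht (t.pt x 0) + ε * (κ * w.lh t.d + sg σ * w.lh t.nv) := by
  simp only [gp_eq, ht_add, map_smul, map_add, smul_eq_mul]

theorem continuous_gp (σ : Bool) (x κ : ℝ) : Continuous (t.gp σ x κ) := by
  unfold gp pt; fun_prop

theorem tendsto_gp (σ : Bool) (x κ : ℝ) : Tendsto (t.gp σ x κ) (𝓝[>] 0) (𝓝 (t.pt x 0)) := by
  have := (t.continuous_gp σ x κ).tendsto 0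
  rw [show t.gp σ x κ 0 = t.pt x 0 by simp [gp]] at this
  exact this.mono_left nhdsWithin_le_nhds

end Bar

/-! ### small parameters and the lexicographic order -/

theorem ev_pos : ∀ᶠ ε in 𝓝[>] (0 : ℝ), 0 < ε := self_mem_nhdsWithin

theorem ev_lt {δ : ℝ} (h : 0 < δ) : ∀ᶠ ε in 𝓝[>] (0 : ℝ), ε < δ :=
  (eventually_lt_nhds h).filter_mono nhdsWithin_le_nhds

theorem lex_lt {x κ y μ : ℝ} : toLex (x, κ) < toLex (y, μ) ↔ x < y ∨ x = y ∧ κ < μ :=
  Prod.Lex.toLex_lt_toLex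
theorem lex_le {x κ y μ : ℝ} : toLex (x, κ) ≤ toLex (y, μ) ↔ x < y ∨ x = y ∧ κ ≤ μ :=
  Prod.Lex.toLex_le_toLex
theorem lex_eq {x κ y μ : ℝ} : toLex (x, κ) = toLex (y, μ) ↔ x = y ∧ κ = μ := by simp

theorem ev_lt_of_lex {x κ y μ : ℝ} (h : toLex (x, κ) < toLex (y, μ)) :
    ∀ᶠ ε in 𝓝[>] (0 : ℝ), x + ε * κ < y + ε * μ := by
  rcases lex_lt.1 h with h | ⟨rfl, h⟩
  · have : ∀ᶠ ε in 𝓝 (0 : ℝ), x + ε * κ < y + ε * μ :=
      ContinuousAt.eventually_lt (by fun_prop) (by fun_prop) (by simpa using h)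
    exact this.filter_mono nhdsWithin_le_nhds
  · filter_upwards [ev_pos] with ε hε
    nlinarith

theorem lex_lt_iff_ev {x κ y μ : ℝ} :
    toLex (x, κ) < toLex (y, μ) ↔ ∀ᶠ ε in 𝓝[>] (0 : ℝ), x + ε * κ < y + ε * μ := by
  refine ⟨ev_lt_of_lex, fun h => ?_⟩
  by_contra hc
  rcases (not_lt.1 hc).lt_or_eq with h' | h'
  · obtain ⟨ε, h1, h2⟩ := (h.and (ev_lt_of_lex h')).exists
    linarith
  · obtain ⟨rfl, rfl⟩ := lex_eq.1 h'
    obtain ⟨ε, h1⟩ := h.exists
    linarith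

theorem lex_le_iff_ev {x κ y μ : ℝ} :
    toLex (x, κ) ≤ toLex (y, μ) ↔ ∀ᶠ ε in 𝓝[>] (0 : ℝ), x + ε * κ ≤ y + ε * μ := by
  constructor
  · intro h
    rcases h.lt_or_eq with h | h
    · exact (ev_lt_of_lex h).mono fun _ => le_of_lt
    · obtain ⟨rfl, rfl⟩ := lex_eq.1 h
      exact Eventually.of_forall fun _ => le_rfl
  · intro h
    by_contra hc
    obtain ⟨ε, h1, h2⟩ := (h.and (ev_lt_of_lex (not_le.1 hc))).exists
    linarith

/-- an affine function of a small parameter has an eventual sign -/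
theorem ev_sign (a b : ℝ) : (∀ᶠ ε in 𝓝[>] (0 : ℝ), 0 < a + ε * b) ∨ (a = 0 ∧ b = 0) ∨
    ∀ᶠ ε in 𝓝[>] (0 : ℝ), a + ε * b < 0 := by
  rcases lt_trichotomy (toLex ((0 : ℝ), (0 : ℝ))) (toLex (a, b)) with h | h | h
  · left; simpa using ev_lt_of_lex h
  · right; left; simpa [eq_comm] using lex_eq.1 h
  · right; right; simpa using ev_lt_of_lex h

theorem ev_zero {a b : ℝ} (h : ∃ᶠ ε in 𝓝[>] (0 : ℝ), a + ε * b = 0) : a = 0 ∧ b = 0 := by
  rcases ev_sign a b with h' | h' | h'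
  · obtain ⟨ε, h1, h2⟩ := (h.and_eventually h').exists; linarith
  · exact h'
  · obtain ⟨ε, h1, h2⟩ := (h.and_eventually h').exists; linarith

end Pool.Agent.P.MP_5f84aa_co.G
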