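import Pool.Agent.P.MP_5f84aa_co.G.Bas

/-! Toolbox 2: ends, keys, systems, pieces, the map. -/

namespace Pool.Agent.P.MP_5f84aa_co.G

open Filter Topology Set

/-! ### ends -/

@[simp] theorem ep_false (s : Bar) : ep (s, false) = s.o := rfl
@[simp] theorem ep_true (s : Bar) : ep (s, true) = s.o + s.d := rfl
@[simp] theorem ed_false (s : Bar) : ed (s, false) = s.d := rfl
@[simp] theorem ed_true (s : Bar) : ed (s, true) = -s.d := rfl

theorem ed_eq (j : En) : ed j = sg (!j.2) • j.1.d := by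
  obtain ⟨s, _ | _⟩ := j <;> simp

theorem ht_ep (j : En) : j.1.ht (ep j) = 0 := by
  obtain ⟨s, _ | _⟩ := j <;> simp [Bar.ht_add]

theorem pos_ep {j : En} (h : j.1.d ≠ 0) : j.1.pos (ep j) = if j.2 then 1 else 0 := by
  obtain ⟨s, _ | _⟩ := j <;> simp [Bar.pos_add, Bar.lp_d h]

theorem lh_ed (j : En) : j.1.lh (ed j) = 0 := by simp [ed_eq]

theorem lp_ed {j : En} (h : j.1.d ≠ 0) : j.1.lp (ed j) = sg (!j.2) := by simp [ed_eq, Bar.lp_d h]

theorem ed_ne {j : En} (h : j.1.d ≠ 0) : ed j ≠ 0 := by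
  rw [ed_eq]; exact smul_ne_zero (sg_ne _) h

theorem ep_eq_pt (j : En) : ep j = j.1.pt (if j.2 then 1 else 0) 0 := by
  obtain ⟨s, _ | _⟩ := j <;> simp [Bar.pt]

/-- the points of the stem, seen from an end -/
theorem ep_add_ed (j : En) (a : ℝ) : ep j + a • ed j = j.1.pt (if j.2 then 1 - a else a) 0 := by
  obtain ⟨s, _ | _⟩ := j <;> simp [Bar.pt]
  module

theorem ep_other (s : Bar) (e : Bool) : ep (s, !e) = ep (s, e) + ed (s, e) := by
  cases e <;> simp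

theorem cl_ep {j : En} (h : j.1.d ≠ 0) : j.1.Cl (ep j) := by
  refine ⟨ht_ep j, ?_⟩
  rw [pos_ep h]; cases j.2 <;> simp [Bar.Rc]

theorem in_ep_add {j : En} (h : j.1.d ≠ 0) {a : ℝ} (h0 : 0 < a) (h1 : a < 1) :
    j.1.In (ep j + a • ed j) := by
  rw [ep_add_ed, Bar.in_pt h]
  cases j.2
  · exact ⟨by simpa, fun _ => by simpa⟩
  · exact ⟨by simpa, fun _ => by simpa⟩

/-- a point of a closed bar is in the open bar or an end -/
theorem Bar.Cl.cases {t : Bar} (h : t.d ≠ 0) {q : Pt} (hq : t.Cl q) :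
    t.In q ∨ q = ep (t, false) ∨ (t.ray = false ∧ q = ep (t, true)) := by
  rcases hq.2.1.eq_or_lt with h0 | h0
  · right; left
    exact Bar.ext_pt h (by simp [← h0]) (by simp [hq.1])
  · cases hr : t.ray
    · rcases (hq.2.2 hr).eq_or_lt with h1 | h1
      · right; right
        exact ⟨rfl, Bar.ext_pt h (by rw [h1, pos_ep (j := (t, true)) h]; simp)
          (by rw [hq.1, ht_ep (t, true)])⟩
      · exact .inl ⟨hq.1, h0, fun _ => h1⟩
    · exact .inl ⟨hq.1, h0, fun e => by simp [hr] at e⟩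

namespace Bar

variable {t : Bar} {j k : En}

theorem sd_true : t.sd j = true ↔ 0 < t.lh (ed j) := by simp [sd]
theorem sd_false : t.sd j = false ↔ t.lh (ed j) ≤ 0 := by simp [sd]

theorem sg_sd (t : Bar) (j : En) : sg (t.sd j) * t.lh (ed j) = |t.lh (ed j)| := by
  cases h : t.sd j
  · rw [abs_of_nonpos (sd_false.1 h)]; simp
  · rw [abs_of_pos (sd_true.1 h)]; simp

theorem key_lt : t.key j < t.key k ↔ t.pos (ep j) < t.pos (ep k) ∨ t.pos (ep j) = t.pos (ep k) ∧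
    (t.sd j = false ∧ t.sd k = true ∨ t.sd j = t.sd k ∧ t.sl j < t.sl k) := by
  simp only [key, Prod.Lex.toLex_lt_toLex, Bool.lt_iff]

theorem key_le : t.key j ≤ t.key k ↔ t.pos (ep j) < t.pos (ep k) ∨ t.pos (ep j) = t.pos (ep k) ∧
    (t.sd j = false ∧ t.sd k = true ∨ t.sd j = t.sd k ∧ t.sl j ≤ t.sl k) := by
  simp only [key, Prod.Lex.toLex_le_toLex, Bool.lt_iff]

theorem key_eq : t.key j = t.key k ↔
    t.pos (ep j) = t.pos (ep k) ∧ t.sd j = t.sd k ∧ t.sl j = t.sl k := by simp [key]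

theorem key_lt_of_pos (h : t.pos (ep j) < t.pos (ep k)) : t.key j < t.key k := key_lt.2 (.inl h)

theorem pos_le_of_key (h : t.key j ≤ t.key k) : t.pos (ep j) ≤ t.pos (ep k) := by
  rcases key_le.1 h with h | h
  · exact h.le
  · exact h.1.le

theorem key_lt_k2 (h : t.sd j = t.sd k) : t.key j < t.key k ↔ t.k2 j < t.k2 k := by
  rw [key_lt, k2, k2, lex_lt]; cases hk : t.sd k <;> simp [h, hk]

theorem key_le_k2 (h : t.sd j = t.sd k) : t.key j ≤ t.key k ↔ t.k2 j ≤ t.k2 k := by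
  rw [← not_lt, ← not_lt, key_lt_k2 h.symm]

/-- the germ of an end runs on its stem -/
theorem gp_end (h : t.d ≠ 0) (h0 : t.ht (ep j) = 0) (h1 : t.lh (ed j) ≠ 0) (ε : ℝ) :
    t.gp (t.sd j) (t.pos (ep j)) (t.sl j) ε = ep j + (ε / |t.lh (ed j)|) • ed j := by
  have h2 : |t.lh (ed j)| ≠ 0 := abs_ne_zero.2 h1
  apply ext_pt h
  · rw [pos_gp h, pos_add, map_smul, sl, smul_eq_mul]; field_simp
  · rw [ht_gp h, ht_add, map_smul, h0, smul_eq_mul, zero_add]
    have := t.sg_sd j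
    have h3 := sg_mul_self (t.sd j)
    field_simp
    linear_combination (-ε * sg (t.sd j)) * this + (ε * t.lh (ed j)) * h3

end Bar

/-! ### rays -/

@[simp] theorem ry_ray (R : ℝ) (i : Fin 3) : (ry R i).ray = true := by fin_cases i <;> rfl

theorem ry_ne (R : ℝ) (i : Fin 3) : (ry R i).d ≠ 0 := by
  fin_cases i <;> simp [ry]

theorem ry_inj (R : ℝ) : Function.Injective (ry R) := by
  intro i k h
  have h0 := congrArg (fun t => t.d 0) h
  fin_cases i <;> fin_cases k <;> simp [ry] at h0 ⊢ <;> norm_num at h0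

theorem ht_ry0 (R : ℝ) (q : Pt) : (ry R 0).ht q = q 1 + R := by
  simp [ry, Bar.ht, Bar.lh_apply, Matrix.vecHead, Matrix.vecTail]
theorem ht_ry1 (R : ℝ) (q : Pt) : (ry R 1).ht q = 2 * R - q 0 - q 1 := by
  simp [ry, Bar.ht, Bar.lh_apply, Matrix.vecHead, Matrix.vecTail]; ring
theorem ht_ry2 (R : ℝ) (q : Pt) : (ry R 2).ht q = q 0 + R := by
  simp [ry, Bar.ht, Bar.lh_apply, Matrix.vecHead, Matrix.vecTail]
theorem pos_ry0 (R : ℝ) (q : Pt) : (ry R 0).pos q = q 0 + R := by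
  simp [ry, Bar.pos, Bar.lp_apply, Bar.n2, Matrix.vecHead, Matrix.vecTail]
theorem pos_ry1 (R : ℝ) (q : Pt) : (ry R 1).pos q = (4 * R - q 0 + q 1) / 2 := by
  simp [ry, Bar.pos, Bar.lp_apply, Bar.n2, Matrix.vecHead, Matrix.vecTail]; ring
theorem pos_ry2 (R : ℝ) (q : Pt) : (ry R 2).pos q = 3 * R - q 1 := by
  simp [ry, Bar.pos, Bar.lp_apply, Bar.n2, Matrix.vecHead, Matrix.vecTail]
theorem ht_ry_sum (R : ℝ) (q : Pt) : (ry R 0).ht q + (ry R 1).ht q + (ry R 2).ht q = 4 * R := by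
  rw [ht_ry0, ht_ry1, ht_ry2]; ring
theorem in_ry {R : ℝ} {i : Fin 3} {q : Pt} : (ry R i).In q ↔ (ry R i).ht q = 0 ∧ 0 < (ry R i).pos q := by
  simp [Bar.In, Bar.Rg]
theorem cl_ry {R : ℝ} {i : Fin 3} {q : Pt} : (ry R i).Cl q ↔ (ry R i).ht q = 0 ∧ 0 ≤ (ry R i).pos q := by
  simp [Bar.Cl, Bar.Rc]

/-! ### finiteness -/

variable {R : ℝ} {E : Finset Bar}

theorem finite_ends (E : Finset Bar) : {j | IsEnd E j}.Finite :=
  (E.finite_toSet.prod (Set.toFinite (univ : Set Bool))).subset fun _ h => ⟨h.1, trivial⟩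

theorem finite_on (E : Finset Bar) (t : Bar) : {j | On E t j}.Finite :=
  (finite_ends E).subset fun _ h => h.1

instance : Finite (JJ E) := by
  have : {f : Option En | ∀ j, f = some j → IsEnd E j}.Finite := by
    refine (((finite_ends E).image some).insert none).subset ?_
    rintro (_ | j) h
    · exact .inl rfl
    · exact .inr ⟨j, h j rfl, rfl⟩
  exact this.to_subtype

instance : Finite (VV R E) := by
  have : {c : Set Pt | ∃ f : JJ E, c = LL R E f.1 ∨ c = RR R E f.1 ∨ c = XX R E f.1}.Finite := by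
    refine ((finite_range fun f : JJ E => LL R E f.1).union ((finite_range fun f : JJ E => RR R E f.1).union
      (finite_range fun f : JJ E => XX R E f.1))).subset ?_
    rintro c ⟨f, h | h | h⟩
    · exact .inl ⟨f, h.symm⟩
    · exact .inr (.inl ⟨f, h.symm⟩)
    · exact .inr (.inr ⟨f, h.symm⟩)
  exact this.to_subtype

theorem isOpen_off (E : Finset Bar) : IsOpen {x | Off E x} := by
  have : {x | Off E x} = ⋂ w ∈ E, {x | w.Cl x}ᶜ := by ext x; simp [Off]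
  rw [this]
  exact isOpen_biInter_finset fun w _ => w.isClosed_Cl.isOpen_compl

theorem Vis.symm {x y : Pt} (h : Vis E x y) : Vis E y x := by
  unfold Vis; rw [segment_symm]; exact h
theorem Vis.left {x y : Pt} (h : Vis E x y) : Off E x := h x (left_mem_segment _ _ _)
theorem Vis.right {x y : Pt} (h : Vis E x y) : Off E y := h y (right_mem_segment _ _ _)
theorem Off.vis {x : Pt} (h : Off E x) : Vis E x x := by
  intro z hz; rw [segment_same] at hz; exact hz ▸ h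

theorem isEnd_false {s : Bar} (h : s ∈ E) : IsEnd E (s, false) := ⟨h, fun e => by simp at e⟩
theorem isEnd_true {s : Bar} (h : s ∈ E) (hr : s.ray = false) : IsEnd E (s, true) := ⟨h, fun _ => hr⟩
theorem isEnd_of_seg {s : Bar} (h : s ∈ E) (hr : s.ray = false) (e : Bool) : IsEnd E (s, e) :=
  ⟨h, fun _ => hr⟩

/-! ### systems -/

theorem Pre.not_in_ep (H : Pre R E) {j : En} (hj : IsEnd E j) : ¬ j.1.In (ep j) := by
  intro h
  have h2 := h.2
  rw [pos_ep (H.ne _ hj.1)] at h2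
  cases h3 : j.2
  · simp [h3, Bar.Rg] at h2
  · simp [h3, Bar.Rg, hj.2 h3] at h2

theorem Pre.cl_cases (H : Pre R E) {w : Bar} (hw : w ∈ E) {q : Pt} (hq : w.Cl q) :
    w.In q ∨ ∃ e, IsEnd E (w, e) ∧ q = ep (w, e) := by
  rcases hq.cases (H.ne w hw) with h | h | h
  · exact .inl h
  · exact .inr ⟨false, isEnd_false hw, h⟩
  · exact .inr ⟨true, isEnd_true hw h.1, h.2⟩

/-- an end lands transversally -/
theorem Pre.lh_ne (H : Pre R E) {t : Bar} (ht : t ∈ E) {j : En} (hj : On E t j) : t.lh (ed j) ≠ 0 := by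
  intro h0
  have hc : ContinuousAt (fun a : ℝ => t.pos (ep j) + a * t.lp (ed j)) 0 := by fun_prop
  have h1 : ∀ᶠ a in 𝓝 (0 : ℝ), t.Rg (t.pos (ep j) + a * t.lp (ed j)) :=
    hc.eventually (t.isOpen_Rg.mem_nhds (by simpa using hj.2.2))
  obtain ⟨a, ha, ha0, ha1⟩ := ((h1.filter_mono nhdsWithin_le_nhds).and (ev_pos.and (ev_lt one_pos))).exists
  have h2 : t.In (ep j + a • ed j) :=
    ⟨by simp [Bar.ht_add, h0, hj.2.1], by simpa [Bar.pos_add] using ha⟩
  have h3 := H.disj _ ht _ hj.1.1 _ h2 (in_ep_add (H.ne _ hj.1.1) ha0 ha1)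
  exact H.not_in_ep hj.1 (h3 ▸ hj.2)

theorem Pre.lh_d_ne (H : Pre R E) {t : Bar} (ht : t ∈ E) {j : En} (hj : On E t j) : t.lh j.1.d ≠ 0 := by
  have := H.lh_ne ht hj
  rw [ed_eq, map_smul] at this
  exact right_ne_zero_of_smul this

theorem Pre.sg_sd_pos (H : Pre R E) {t : Bar} (ht : t ∈ E) {j : En} (hj : On E t j) :
    0 < sg (t.sd j) * t.lh (ed j) := by
  rw [Bar.sg_sd]; exact abs_pos.2 (H.lh_ne ht hj)

theorem Pre.gp_end (H : Pre R E) {t : Bar} (ht : t ∈ E) {j : En} (hj : On E t j) (ε : ℝ) :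
    t.gp (t.sd j) (t.pos (ep j)) (t.sl j) ε = ep j + (ε / |t.lh (ed j)|) • ed j :=
  Bar.gp_end (H.ne t ht) hj.2.1 (H.lh_ne ht hj) ε

/-- different ends on a bar have different keys -/
theorem Pre.key_inj (H : Pre R E) {t : Bar} (ht : t ∈ E) {j k : En} (hj : On E t j) (hk : On E t k)
    (h : t.key j = t.key k) : j = k := by
  obtain ⟨h1, h2, h3⟩ := Bar.key_eq.1 h
  have pj := abs_pos.2 (H.lh_ne ht hj)
  have pk := abs_pos.2 (H.lh_ne ht hk)
  obtain ⟨ε, h0, hj1, hk1⟩ := (ev_pos.and ((ev_lt pj).and (ev_lt pk))).exists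
  have e : ep j + (ε / |t.lh (ed j)|) • ed j = ep k + (ε / |t.lh (ed k)|) • ed k := by
    rw [← H.gp_end ht hj, ← H.gp_end ht hk, h1, h2, h3]
  have a := in_ep_add (H.ne _ hj.1.1) (div_pos h0 pj) ((div_lt_one pj).2 hj1)
  have b := in_ep_add (H.ne _ hk.1.1) (div_pos h0 pk) ((div_lt_one pk).2 hk1)
  have e1 : j.1 = k.1 := H.disj _ hj.1.1 _ hk.1.1 _ a (e ▸ b)
  have e2 : ep j = ep k := Bar.ext_pt (H.ne t ht) h1 (hj.2.1.trans hk.2.1.symm)
  have e3 := pos_ep (H.ne _ hj.1.1)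
  have e4 := pos_ep (H.ne _ hk.1.1)
  rw [e2, e1, e4] at e3
  refine Prod.ext e1 ?_
  cases hj2 : j.2 <;> cases hk2 : k.2 <;> simp [hj2, hk2] at e3 ⊢

theorem Pre.k2_inj (H : Pre R E) {t : Bar} (ht : t ∈ E) {j k : En} (hj : On E t j) (hk : On E t k)
    (hs : t.sd j = t.sd k) (h : t.k2 j = t.k2 k) : j = k :=
  H.key_inj ht hj hk (le_antisymm ((Bar.key_le_k2 hs).2 h.le) ((Bar.key_le_k2 hs.symm).2 h.ge))

/-- the two ends of a bar do not land on the same bar -/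
theorem Pre.not_on_both (H : Pre R E) {t s : Bar} (ht : t ∈ E) {e : Bool} (h1 : On E t (s, e))
    (h2 : On E t (s, !e)) : False := by
  apply H.lh_ne ht h1
  have := h2.2.1
  rw [ep_other, Bar.ht_add, h1.2.1, zero_add] at this
  exact this

theorem Sys.bar_spec (H : Sys R E) {j : En} (hj : IsEnd E j) : bar E j ∈ E ∧ (bar E j).In (ep j) :=
  Classical.epsilon_spec (H.ends j hj)
theorem Sys.bar_mem (H : Sys R E) {j : En} (hj : IsEnd E j) : bar E j ∈ E := (H.bar_spec hj).1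
theorem Sys.on_bar (H : Sys R E) {j : En} (hj : IsEnd E j) : On E (bar E j) j := ⟨hj, (H.bar_spec hj).2⟩
theorem Sys.bar_ne0 (H : Sys R E) {j : En} (hj : IsEnd E j) : (bar E j).d ≠ 0 := H.ne _ (H.bar_mem hj)
theorem Sys.bar_eq (H : Sys R E) {t : Bar} (ht : t ∈ E) {j : En} (hj : On E t j) : bar E j = t :=
  H.disj _ (H.bar_mem hj.1) _ ht _ (H.on_bar hj.1).2 hj.2
theorem Sys.stem_ne (H : Sys R E) {j : En} (hj : IsEnd E j) : j.1 ≠ bar E j := fun h =>
  H.not_in_ep hj (h ▸ (H.on_bar hj).2)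
theorem Sys.bars_ne (H : Sys R E) {j k : En} (hj : IsEnd E j) (hk : IsEnd E k) (hne : j ≠ k)
    (h : j.1 = k.1) : bar E j ≠ bar E k := by
  intro hb
  obtain ⟨s, e⟩ := j
  obtain ⟨s', e'⟩ := k
  obtain rfl : s = s' := h
  obtain rfl : e' = !e := by cases e <;> cases e' <;> simp at hne ⊢
  exact H.not_on_both (H.bar_mem hj) (H.on_bar hj) (hb ▸ H.on_bar hk)

/-- a point of a closed bar lies on an open bar -/
theorem Sys.cl_in (H : Sys R E) {w : Bar} (hw : w ∈ E) {q : Pt} (hq : w.Cl q) : ∃ t ∈ E, t.In q := by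
  rcases H.cl_cases hw hq with h | ⟨e, he, rfl⟩
  · exact ⟨w, hw, h⟩
  · exact H.ends _ he

theorem Sys.off_iff (H : Sys R E) {q : Pt} : Off E q ↔ ∀ t ∈ E, ¬ t.In q :=
  ⟨fun h t ht hq => h t ht hq.cl, fun h _ hw hq => let ⟨t, ht, h'⟩ := H.cl_in hw hq; h t ht h'⟩

/-- the closed bars through a point of an open bar -/
theorem Pre.cl_of_in (H : Pre R E) {t w : Bar} (ht : t ∈ E) (hw : w ∈ E) {q : Pt} (hq : t.In q)
    (hc : w.Cl q) : w = t ∨ ∃ e, On E t (w, e) ∧ q = ep (w, e) := by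
  rcases H.cl_cases hw hc with h | ⟨e, he, rfl⟩
  · exact .inl (H.disj _ hw _ ht _ h hq)
  · exact .inr ⟨e, ⟨he, hq⟩, rfl⟩

/-! ### pieces -/

theorem Sys.mem_Dlt (H : Sys R E) {t : Bar} (ht : t ∈ E) {j k : En} (hj : On E t j) :
    k ∈ Dlt E j ↔ On E t k ∧ t.key k < t.key j := by simp only [Dlt, H.bar_eq ht hj, mem_ofPred_eq]
theorem Sys.mem_Dle (H : Sys R E) {t : Bar} (ht : t ∈ E) {j k : En} (hj : On E t j) :
    k ∈ Dle E j ↔ On E t k ∧ t.key k ≤ t.key j := by simp only [Dle, H.bar_eq ht hj, mem_ofPred_eq]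
@[simp] theorem Dend_false (s : Bar) : Dend E s false = ∅ := by simp [Dend]
@[simp] theorem Dend_true (s : Bar) : Dend E s true = {k | On E s k} := by simp [Dend]
theorem not_mem_Dlt (j : En) : j ∉ Dlt E j := fun h => lt_irrefl _ h.2
theorem Sys.mem_Dle_self (H : Sys R E) {j : En} (hj : IsEnd E j) : j ∈ Dle E j := ⟨H.on_bar hj, le_rfl⟩
theorem Dlt_subset (j : En) : Dlt E j ⊆ Dle E j := fun _ h => ⟨h.1, h.2.le⟩
theorem Sys.mem_Dle_iff (H : Sys R E) {j k : En} (hj : IsEnd E j) : k ∈ Dle E j ↔ k ∈ Dlt E j ∨ k = j := by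
  constructor
  · intro h
    rcases h.2.lt_or_eq with h' | h'
    · exact .inl ⟨h.1, h'⟩
    · exact .inr (H.key_inj (H.bar_mem hj) h.1 (H.on_bar hj) h')
  · rintro (h | rfl)
    · exact Dlt_subset _ h
    · exact H.mem_Dle_self hj

theorem Sys.pc_Dlt (H : Sys R E) {j : En} (hj : IsEnd E j) : Pc E (bar E j) (Dlt E j) :=
  ⟨H.bar_mem hj, fun _ h => h.1, fun _ h _ hk hle => ⟨hk, hle.trans_lt h.2⟩⟩
theorem Sys.pc_Dle (H : Sys R E) {j : En} (hj : IsEnd E j) : Pc E (bar E j) (Dle E j) :=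
  ⟨H.bar_mem hj, fun _ h => h.1, fun _ h _ hk hle => ⟨hk, hle.trans h.2⟩⟩
theorem pc_Dend {s : Bar} (hs : s ∈ E) (e : Bool) : Pc E s (Dend E s e) :=
  ⟨hs, fun _ h => h.1, fun _ h _ hk _ => ⟨hk, h.2⟩⟩
theorem pc_empty {s : Bar} (hs : s ∈ E) : Pc E s ∅ := ⟨hs, by simp, by simp⟩
theorem pc_le {t : Bar} (ht : t ∈ E) (x : ℝ) : Pc E t {j | On E t j ∧ t.pos (ep j) ≤ x} :=
  ⟨ht, fun _ h => h.1, fun _ h _ hk hle => ⟨hk, (Bar.pos_le_of_key hle).trans h.2⟩⟩
theorem pc_lt {t : Bar} (ht : t ∈ E) (x : ℝ) : Pc E t {j | On E t j ∧ t.pos (ep j) < x} :=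
  ⟨ht, fun _ h => h.1, fun _ h _ hk hle => ⟨hk, (Bar.pos_le_of_key hle).trans_lt h.2⟩⟩
theorem fit_le {t : Bar} {x : ℝ} (hx : t.Rg x) : Fit E t {j | On E t j ∧ t.pos (ep j) ≤ x} x :=
  ⟨hx, fun _ hj => ⟨fun h => h.2, fun h => (lt_of_not_ge fun h' => h ⟨hj, h'⟩).le⟩⟩
theorem fit_lt {t : Bar} {x : ℝ} (hx : t.Rg x) : Fit E t {j | On E t j ∧ t.pos (ep j) < x} x :=
  ⟨hx, fun _ hj => ⟨fun h => h.2.le, fun h => le_of_not_gt fun h' => h ⟨hj, h'⟩⟩⟩

theorem Pc.key_lt {t : Bar} {D : Set En} (h : Pc E t D) {j k : En} (hj : j ∈ D) (hk : On E t k)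
    (hn : k ∉ D) : t.key j < t.key k := lt_of_not_ge fun h' => hn (h.2.2 j hj k hk h')

/-- pieces of a bar are ordered by inclusion -/
theorem Pc.total {t : Bar} {D D' : Set En} (h : Pc E t D) (h' : Pc E t D') : D ⊆ D' ∨ D' ⊆ D := by
  by_contra hc
  push Not at hc
  obtain ⟨⟨j, hj, hj'⟩, k, hk, hk'⟩ := And.intro (not_subset.1 hc.1) (not_subset.1 hc.2)
  exact lt_asymm (h.key_lt hj (h'.2.1 k hk) hk') (h'.key_lt hk (h.2.1 j hj) hj')

theorem fit_Dlt (H : Sys R E) {j : En} (hj : IsEnd E j) :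
    Fit E (bar E j) (Dlt E j) ((bar E j).pos (ep j)) :=
  ⟨(H.on_bar hj).2.2, fun _ hk => ⟨fun h => Bar.pos_le_of_key h.2.le,
    fun h => Bar.pos_le_of_key (le_of_not_gt fun h' => h ⟨hk, h'⟩)⟩⟩
theorem fit_Dle (H : Sys R E) {j : En} (hj : IsEnd E j) :
    Fit E (bar E j) (Dle E j) ((bar E j).pos (ep j)) :=
  ⟨(H.on_bar hj).2.2, fun _ hk => ⟨fun h => Bar.pos_le_of_key h.2,
    fun h => Bar.pos_le_of_key (lt_of_not_ge fun h' => h ⟨hk, h'⟩).le⟩⟩

/-- the lower boundary of a piece -/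
theorem Sys.lo (H : Sys R E) {t : Bar} {D : Set En} (h : Pc E t D) :
    D = ∅ ∨ ∃ k ∈ D, On E t k ∧ D = Dle E k := by
  rcases D.eq_empty_or_nonempty with h0 | h0
  · exact .inl h0
  · obtain ⟨k, hk, hm⟩ := exists_max_image D t.key ((finite_on E t).subset h.2.1) h0
    refine .inr ⟨k, hk, h.2.1 k hk, ?_⟩
    ext i
    rw [H.mem_Dle h.1 (h.2.1 k hk)]
    exact ⟨fun hi => ⟨h.2.1 i hi, hm i hi⟩, fun hi => h.2.2 k hk i hi.1 hi.2⟩

/-- the upper boundary of a piece -/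
theorem Sys.hi (H : Sys R E) {t : Bar} {D : Set En} (h : Pc E t D) :
    D = Dend E t true ∨ ∃ k ∉ D, On E t k ∧ D = Dlt E k := by
  rcases {k | On E t k ∧ k ∉ D}.eq_empty_or_nonempty with h0 | h0
  · left
    ext i
    rw [Dend_true]
    refine ⟨h.2.1 i, fun hi => by_contra fun hc => ?_⟩
    exact (h0 ▸ (⟨hi, hc⟩ : i ∈ {k | On E t k ∧ k ∉ D}) : i ∈ (∅ : Set En))
  · obtain ⟨k, hk, hm⟩ := exists_min_image _ t.key ((finite_on E t).subset fun _ h => h.1) h0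
    refine .inr ⟨k, hk.2, hk.1, ?_⟩
    ext i
    rw [H.mem_Dlt h.1 hk.1]
    exact ⟨fun hi => ⟨h.2.1 i hi, h.key_lt hi hk.1 hk.2⟩,
      fun hi => by_contra fun hc => not_le.2 hi.2 (hm i ⟨hi.1, hc⟩)⟩

theorem Sys.Dlt_inj (H : Sys R E) {t : Bar} (ht : t ∈ E) {j k : En} (hj : On E t j) (hk : On E t k)
    (h : Dlt E j = Dlt E k) : j = k := by
  apply H.key_inj ht hj hk
  rcases lt_trichotomy (t.key j) (t.key k) with h1 | h1 | h1
  · exact absurd (h ▸ (H.mem_Dlt ht hk).2 ⟨hj, h1⟩) (not_mem_Dlt j)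
  · exact h1
  · exact absurd (h ▸ (H.mem_Dlt ht hj).2 ⟨hk, h1⟩) (not_mem_Dlt k)

theorem Sys.Dle_inj (H : Sys R E) {t : Bar} (ht : t ∈ E) {j k : En} (hj : On E t j) (hk : On E t k)
    (h : Dle E j = Dle E k) : j = k :=
  H.key_inj ht hj hk (le_antisymm ((H.mem_Dle ht hk).1 (h ▸ H.mem_Dle_self hj.1)).2
    ((H.mem_Dle ht hj).1 (h ▸ H.mem_Dle_self hk.1)).2)

/-- the cell on a side depends only on the ends of that side -/
theorem Ce_congr {t : Bar} {σ : Bool} {D D' : Set En}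
    (h : ∀ j, On E t j → t.sd j = σ → (j ∈ D ↔ j ∈ D')) : Ce E t σ D = Ce E t σ D' := by
  have : ∀ x κ, Sep E t σ D x κ ↔ Sep E t σ D' x κ := fun x κ =>
    and_congr_right fun _ => forall_congr' fun j => forall_congr' fun hj => forall_congr' fun hs => by
      rw [h j hj hs]
  simp only [Ce, this]

theorem Sys.cX_eq (H : Sys R E) {j : En} (hj : IsEnd E j) :
    cX E j = Ce E (bar E j) (!(bar E j).sd j) (Dle E j) := by
  apply Ce_congr
  intro k _ hs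
  rw [H.mem_Dle_iff hj, or_iff_left]
  rintro rfl
  simp at hs

theorem Sys.cL_eq (H : Sys R E) {t : Bar} (ht : t ∈ E) {j : En} (hj : On E t j) :
    cL E j = Ce E t (t.sd j) (Dlt E j) := by rw [cL, H.bar_eq ht hj]
theorem Sys.cR_eq (H : Sys R E) {t : Bar} (ht : t ∈ E) {j : En} (hj : On E t j) :
    cR E j = Ce E t (t.sd j) (Dle E j) := by rw [cR, H.bar_eq ht hj]
theorem Sys.cX_eq_lt (H : Sys R E) {t : Bar} (ht : t ∈ E) {j : En} (hj : On E t j) :
    cX E j = Ce E t (!t.sd j) (Dlt E j) := by rw [cX, H.bar_eq ht hj]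
theorem Sys.cX_eq_le (H : Sys R E) {t : Bar} (ht : t ∈ E) {j : En} (hj : On E t j) :
    cX E j = Ce E t (!t.sd j) (Dle E j) := by rw [H.cX_eq hj.1, H.bar_eq ht hj]

theorem Pair.symm {u v : Set Pt} {t : Bar} {D : Set En} (h : Pair E u v t D) : Pair E v u t D :=
  Or.symm (h.imp And.symm And.symm)
theorem pair_iff {u v : Set Pt} {t : Bar} {D : Set En} :
    Pair E u v t D ↔ ∃ σ, u = Ce E t σ D ∧ v = Ce E t (!σ) D := by simp [Pair, or_comm]
theorem pair_self (t : Bar) (σ : Bool) (D : Set En) : Pair E (Ce E t σ D) (Ce E t (!σ) D) t D :=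
  pair_iff.2 ⟨σ, rfl, rfl⟩
theorem pair_LX (j : En) : Pair E (cL E j) (cX E j) (bar E j) (Dlt E j) := pair_self _ _ _
theorem Sys.pair_RX (H : Sys R E) {j : En} (hj : IsEnd E j) :
    Pair E (cR E j) (cX E j) (bar E j) (Dle E j) := H.cX_eq hj ▸ pair_self _ _ _

theorem Rung.Dend {s : Bar} (h : Rung E s) (e : Bool) : Dend E s e = ∅ :=
  eq_empty_of_forall_notMem fun k hk => h.2.2 k hk.1

/-! ### the map -/

@[simp] theorem fc_val {j : En} (h : IsEnd E j) : (fc h).1 = some j := rfl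
@[simp] theorem mp_inf : (mp R E).inf.1 = none := rfl
theorem JJ.cases (R : ℝ) (f : JJ E) : f = (mp R E).inf ∨ ∃ j, ∃ h : IsEnd E j, f = fc h := by
  obtain ⟨_ | j, h⟩ := f
  · exact .inl rfl
  · exact .inr ⟨j, h j rfl, rfl⟩
theorem fc_ne_inf {j : En} (h : IsEnd E j) : fc h ≠ (mp R E).inf := fun e => nomatch congrArg Subtype.val e
theorem fc_inj {j k : En} {h : IsEnd E j} {h' : IsEnd E k} : fc h = fc h' ↔ j = k := by
  simp [Subtype.ext_iff]
@[simp] theorem mp_L_fc {j : En} (h : IsEnd E j) : ((mp R E).L (fc h)).1 = cL E j := rfl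
@[simp] theorem mp_R_fc {j : En} (h : IsEnd E j) : ((mp R E).R (fc h)).1 = cR E j := rfl
@[simp] theorem mp_X_fc {j : En} (h : IsEnd E j) : ((mp R E).X (fc h)).1 = cX E j := rfl
@[simp] theorem mp_stem_fc {j : En} (h : IsEnd E j) : (mp R E).stem (fc h) = j.1 := rfl
@[simp] theorem mp_bar_fc {j : En} (h : IsEnd E j) : (mp R E).bar (fc h) = bar E j := rfl
@[simp] theorem mp_L_inf : ((mp R E).L (mp R E).inf).1 = hh R E 0 := rfl
@[simp] theorem mp_R_inf : ((mp R E).R (mp R E).inf).1 = hh R E 1 := rfl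
@[simp] theorem mp_X_inf : ((mp R E).X (mp R E).inf).1 = hh R E 2 := rfl
theorem has_fc {j : En} (h : IsEnd E j) (v : VV R E) :
    (mp R E).has (fc h) v ↔ v.1 = cL E j ∨ v.1 = cR E j ∨ v.1 = cX E j := by
  simp [Map.has, Subtype.ext_iff]
theorem cor_fc {j : En} (h : IsEnd E j) (v : VV R E) :
    (mp R E).cor (fc h) v ↔ v.1 = cL E j ∨ v.1 = cR E j := by
  simp [Map.cor, Subtype.ext_iff]
theorem has_inf (v : VV R E) : (mp R E).has (mp R E).inf v ↔ ∃ i, v.1 = hh R E i := by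
  simp [Map.has, Subtype.ext_iff, Fin.exists_fin_succ]
theorem inc_some (j : En) (t : Bar) (D : Set En) : Inc R E (some j) t D ↔
    (t = j.1 ∧ D = Dend E t j.2) ∨ (t = bar E j ∧ (D = Dlt E j ∨ D = Dle E j)) := Iff.rfl
theorem inc_none (t : Bar) (D : Set En) : Inc R E none t D ↔ ∃ i, t = ry R i ∧ D = Dend E t true := Iff.rfl
theorem exists_has (v : VV R E) : ∃ f, (mp R E).has f v := by
  obtain ⟨c, f, h⟩ := v
  exact ⟨f, by simpa [Map.has, Subtype.ext_iff, mp] using h⟩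

end Pool.Agent.P.MP_5f84aa_co.G
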