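import Pool.Agent.P.MP_5f84aa_co.G.Bas2

/-! Toolbox 3: transversal crossings, generic functionals, separating germs. -/

namespace Pool.Agent.P.MP_5f84aa_co.G

open Filter Topology Set

variable {R : ℝ} {E : Finset Bar}

/-- a transversal crossing of an open bar is stable -/
theorem Bar.cross (w : Bar) {p q z : Pt} (hz : z ∈ segment ℝ p q) (hw : w.In z)
    (h : w.ht p * w.ht q < 0) :
    ∀ᶠ P in 𝓝 (p, q), ∃ y ∈ segment ℝ P.1 P.2, w.In y := by
  have hne : w.ht p - w.ht q ≠ 0 := fun e => by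
    have : w.ht p = w.ht q := by linarith
    rw [this] at h; nlinarith [mul_self_nonneg (w.ht q)]
  let θ : Pt × Pt → ℝ := fun P => w.ht P.1 / (w.ht P.1 - w.ht P.2)
  have cθ : ContinuousAt θ (p, q) := ContinuousAt.div (by fun_prop) (by fun_prop) hne
  obtain ⟨a, b, ha, hb, hab, rfl⟩ := hz
  have h0 := hw.1
  rw [w.ht_comb hab] at h0
  have hb' : θ (p, q) = b := by
    simp only [θ]; rw [div_eq_iff hne]; obtain rfl : a = 1 - b := by linarith
    linarith
  have c1 : ContinuousAt (fun P : Pt × Pt => (1 - θ P) * w.pos P.1 + θ P * w.pos P.2) (p, q) :=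
    ((continuousAt_const.sub cθ).mul (by fun_prop)).add (cθ.mul (by fun_prop))
  have e1 : ∀ᶠ P in 𝓝 (p, q), w.Rg ((1 - θ P) * w.pos P.1 + θ P * w.pos P.2) := by
    apply c1.eventually (w.isOpen_Rg.mem_nhds _)
    have := hw.2
    rw [w.pos_comb hab] at this
    simpa only [hb', show 1 - b = a by linarith, mem_ofPred_eq] using this
  have e2 : ∀ᶠ P : Pt × Pt in 𝓝 (p, q), w.ht P.1 * w.ht P.2 < 0 :=
    ContinuousAt.eventually_lt (by fun_prop) continuousAt_const h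
  filter_upwards [e1, e2] with P h1 h2
  have hne' : w.ht P.1 - w.ht P.2 ≠ 0 := fun e => by
    have : w.ht P.1 = w.ht P.2 := by linarith
    rw [this] at h2; nlinarith [mul_self_nonneg (w.ht P.2)]
  have hsq : 0 < (w.ht P.1 - w.ht P.2) ^ 2 := by positivity
  have t0 : 0 ≤ θ P := by
    have : θ P = (w.ht P.1 ^ 2 - w.ht P.1 * w.ht P.2) / (w.ht P.1 - w.ht P.2) ^ 2 := by
      simp only [θ]; field_simp
    rw [this]; exact div_nonneg (by nlinarith [sq_nonneg (w.ht P.1)]) hsq.le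
  have t1 : 0 ≤ 1 - θ P := by
    have : 1 - θ P = (w.ht P.2 ^ 2 - w.ht P.1 * w.ht P.2) / (w.ht P.1 - w.ht P.2) ^ 2 := by
      simp only [θ]; field_simp; ring
    rw [this]; exact div_nonneg (by nlinarith [sq_nonneg (w.ht P.2)]) hsq.le
  refine ⟨(1 - θ P) • P.1 + θ P • P.2, ⟨_, _, t1, t0, by ring, rfl⟩, ?_, ?_⟩
  · rw [w.ht_comb (by ring)]; simp only [θ]; field_simp; ring
  · rwa [w.pos_comb (by ring)]

/-- between a point of the open bar and a point of its line outside the open bar lies an end -/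
theorem Pre.end_between (H : Pre R E) {t : Bar} (ht : t ∈ E) {p q : Pt} (hp : t.In p)
    (hq : t.ht q = 0) (hn : ¬ t.In q) : ∃ e, IsEnd E (t, e) ∧ ep (t, e) ∈ segment ℝ p q := by
  have h0 := H.ne t ht
  have key : ∀ x : ℝ, x ∈ segment ℝ (t.pos p) (t.pos q) → t.pt x 0 ∈ segment ℝ p q := by
    rintro x ⟨a, b, ha, hb, hab, rfl⟩
    refine ⟨a, b, ha, hb, hab, Bar.ext_pt h0 ?_ ?_⟩
    · rw [t.pos_comb hab, Bar.pos_pt h0]; rfl
    · rw [t.ht_comb hab, Bar.ht_pt h0, hp.1, hq]; ring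
  by_cases h1 : t.pos q ≤ 0
  · refine ⟨false, isEnd_false ht, ?_⟩
    rw [ep_eq_pt]
    apply key
    rw [segment_symm, segment_eq_Icc (h1.trans hp.2.1.le)]
    exact ⟨h1, hp.2.1.le⟩
  · have hr : t.ray = false := by
      by_contra hc
      exact hn ⟨hq, not_le.1 h1, fun e => absurd e hc⟩
    have h2 : 1 ≤ t.pos q := not_lt.1 fun h => hn ⟨hq, not_le.1 h1, fun _ => h⟩
    refine ⟨true, isEnd_true ht hr, ?_⟩
    rw [ep_eq_pt]
    apply key
    rw [segment_eq_Icc ((hp.2.2 hr).le.trans h2)]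
    exact ⟨(hp.2.2 hr).le, h2⟩

/-- a number between two finite sets -/
theorem exists_between_fin {A B : Set ℝ} (hA : A.Finite) (hB : B.Finite)
    (h : ∀ a ∈ A, ∀ b ∈ B, a < b) : ∃ κ, (∀ a ∈ A, a < κ) ∧ ∀ b ∈ B, κ < b := by
  rcases A.eq_empty_or_nonempty with rfl | hA0
  · obtain ⟨m, hm⟩ := hB.bddBelow
    exact ⟨m - 1, by simp, fun b hb => by linarith [hm hb]⟩
  rcases B.eq_empty_or_nonempty with rfl | hB0
  · obtain ⟨m, hm⟩ := hA.bddAbove
    exact ⟨m + 1, fun a ha => by linarith [hm ha], by simp⟩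
  obtain ⟨a, ha, ha'⟩ := exists_max_image A id hA hA0
  obtain ⟨b, hb, hb'⟩ := exists_min_image B id hB hB0
  have := h a ha b hb
  exact ⟨(a + b) / 2, fun x hx => by linarith [show x ≤ a from ha' x hx],
    fun x hx => by linarith [show b ≤ x from hb' x hx]⟩

/-- just after and just before a position no end lands -/
theorem ev_no_end (E : Finset Bar) (t : Bar) (x c : ℝ) :
    ∀ᶠ a in 𝓝[>] (0 : ℝ), ∀ j, On E t j →
      (x < t.pos (ep j) → x + a * c < t.pos (ep j)) ∧ (t.pos (ep j) < x → t.pos (ep j) < x + a * c) := by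
  refine (eventually_all_finite (finite_on E t)).2 fun j _ => Eventually.and ?_ ?_
  · by_cases h : x < t.pos (ep j)
    · filter_upwards [ev_lt_of_lex (κ := c) (μ := 0) (lex_lt.2 (.inl h))] with a ha _
      simpa using ha
    · exact Eventually.of_forall fun _ h' => absurd h' h
  · by_cases h : t.pos (ep j) < x
    · filter_upwards [ev_lt_of_lex (κ := 0) (μ := c) (lex_lt.2 (.inl h))] with a ha _
      simpa using ha
    · exact Eventually.of_forall fun _ h' => absurd h' h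

theorem Bar.ev_rg {t : Bar} {x : ℝ} (hx : t.Rg x) (c : ℝ) : ∀ᶠ a in 𝓝[>] (0 : ℝ), t.Rg (x + a * c) := by
  have hc : ContinuousAt (fun a : ℝ => x + a * c) 0 := by fun_prop
  exact (hc.eventually (t.isOpen_Rg.mem_nhds (by simpa using hx))).filter_mono nhdsWithin_le_nhds

/-- rescaling of the small parameter -/
theorem ev_scale {c : ℝ} (hc : 0 < c) {P : ℝ → Prop} (h : ∀ᶠ ε in 𝓝[>] (0 : ℝ), P ε) :
    ∀ᶠ ε in 𝓝[>] (0 : ℝ), P (ε * c) := by
  have : Tendsto (fun ε : ℝ => ε * c) (𝓝[>] 0) (𝓝[>] 0) := by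
    refine tendsto_nhdsWithin_iff.2 ⟨?_, ev_pos.mono fun ε hε => mul_pos hε hc⟩
    have : Tendsto (fun ε : ℝ => ε * c) (𝓝 0) (𝓝 (0 * c)) := tendsto_id.mul_const c
    rw [zero_mul] at this
    exact this.mono_left nhdsWithin_le_nhds
  exact this.eventually h

/-- a ray `p + ε v` which is not parallel to `t` and starts on the line of `t` is a germ -/
theorem Bar.gp_dir {t : Bar} (h : t.d ≠ 0) {p v : Pt} (hp : t.ht p = 0) {σ : Bool}
    (hv : 0 < sg σ * t.lh v) (ε : ℝ) :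
    p + ε • v = t.gp σ (t.pos p) (t.lp v / (sg σ * t.lh v)) (ε * (sg σ * t.lh v)) := by
  have h1 := hv.ne'
  apply Bar.ext_pt h
  · rw [Bar.pos_gp h, Bar.pos_add, map_smul, smul_eq_mul, mul_assoc, mul_div_cancel₀ _ h1]
  · rw [Bar.ht_gp h, Bar.ht_add, map_smul, hp, smul_eq_mul, zero_add]
    linear_combination (-ε * t.lh v) * sg_mul_self σ

/-- at a given foot only finitely many slopes are blocked -/
theorem finite_blk (hE : ∀ w ∈ E, w.d ≠ 0) {t : Bar} (ht : t.d ≠ 0) (σ : Bool) (x : ℝ) :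
    {κ | Blk E t σ x κ}.Finite := by
  refine ((E.finite_toSet.image fun w : Bar => -(sg σ * w.lh t.nv) / w.lh t.d)).subset ?_
  rintro κ ⟨w, hw, h⟩
  have h1 := (ev_zero (h.mono fun ε hε => (t.ht_gp' w σ x κ ε).symm.trans hε.1).frequently).2
  refine ⟨w, hw, ?_⟩
  have h2 : w.lh t.d ≠ 0 := by
    intro h0
    rw [h0, mul_zero, zero_add] at h1
    have h3 : w.lh t.nv = 0 := (mul_eq_zero.1 h1).resolve_left (sg_ne σ)
    have h4 : w.lh w.nv = 0 := by
      rw [← Bar.vec_eq ht w.nv]; simp [h0, h3]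
    rw [Bar.lh_nv (hE w hw)] at h4
    exact one_ne_zero h4
  simp only
  field_simp
  linarith

/-- a free germ is a separating germ of a piece -/
theorem sep_of_not_blk (hB : BLK) (H : Sys R E) {t : Bar} (ht : t ∈ E) {σ : Bool} {x κ : ℝ}
    (hx : t.Rg x) (h : ¬ Blk E t σ x κ) : ∃ D, Pc E t D ∧ Fit E t D x ∧ Sep E t σ D x κ := by
  have hk : ∀ j, t.key j < toLex (x, toLex (σ, κ)) ↔ t.pos (ep j) < x ∨ t.pos (ep j) = x ∧
      (t.sd j < σ ∨ t.sd j = σ ∧ t.sl j < κ) := fun j => by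
    simp only [Bar.key, Prod.Lex.toLex_lt_toLex]
  refine ⟨{j | On E t j ∧ t.key j < toLex (x, toLex (σ, κ))},
    ⟨ht, fun _ h => h.1, fun _ h _ hk hle => ⟨hk, hle.trans_lt h.2⟩⟩, ⟨hx, fun j hj => ⟨fun h => ?_, fun h => ?_⟩⟩,
    hx, fun j hj hs => ?_⟩
  · rcases (hk j).1 h.2 with h | h
    · exact h.le
    · exact h.1.le
  · exact le_of_not_gt fun h' => h ⟨hj, (hk j).2 (.inl h')⟩
  · have e : t.key j < toLex (x, toLex (σ, κ)) ↔ t.k2 j < toLex (x, κ) := by
      rw [hk, Bar.k2, lex_lt]; simp [hs]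
    refine ⟨fun h => e.1 h.2, fun h' => lt_of_le_of_ne (le_of_not_gt fun h'' => h' ⟨hj, e.2 h''⟩) ?_⟩
    intro e'
    exact h ((hB R E H t ht σ x κ hx).2 ⟨j, hj, hs, e'.symm⟩)

/-- the germs next to a stem -/
theorem Sys.sep_near (H : Sys R E) {t : Bar} (ht : t ∈ E) {j : En} (hj : On E t j) :
    ∀ᶠ η in 𝓝[>] (0 : ℝ), Sep E t (t.sd j) (Dlt E j) (t.pos (ep j)) (t.sl j - η) ∧
      Sep E t (t.sd j) (Dle E j) (t.pos (ep j)) (t.sl j + η) := by
  have a1 : ∀ᶠ η in 𝓝[>] (0 : ℝ), ∀ k ∈ {k | On E t k}, (t.sl k < t.sl j → t.sl k < t.sl j - η) ∧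
      (t.sl j < t.sl k → t.sl j + η < t.sl k) := by
    refine (eventually_all_finite (finite_on E t)).2 fun k _ => Eventually.and ?_ ?_
    · by_cases h : t.sl k < t.sl j
      · filter_upwards [ev_lt (sub_pos.2 h)] with η h1 _; linarith
      · exact Eventually.of_forall fun _ h' => absurd h' h
    · by_cases h : t.sl j < t.sl k
      · filter_upwards [ev_lt (sub_pos.2 h)] with η h1 _; linarith
      · exact Eventually.of_forall fun _ h' => absurd h' h
  filter_upwards [a1, ev_pos] with η h h0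
  refine ⟨⟨hj.2.2, fun k hk hs => ⟨fun hm => ?_, fun hm => ?_⟩⟩, hj.2.2, fun k hk hs => ⟨fun hm => ?_, fun hm => ?_⟩⟩
  · have := (Bar.key_lt_k2 hs).1 ((H.mem_Dlt ht hj).1 hm).2
    exact lex_lt.2 ((lex_lt.1 this).imp_right fun h' => ⟨h'.1, (h k hk).1 h'.2⟩)
  · have := (Bar.key_le_k2 hs.symm).1 (le_of_not_gt fun h' => hm ((H.mem_Dlt ht hj).2 ⟨hk, h'⟩))
    exact lex_lt.2 ((lex_le.1 this).imp_right fun h' => ⟨h'.1, by linarith [h'.2]⟩)
  · have := (Bar.key_le_k2 hs).1 ((H.mem_Dle ht hj).1 hm).2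
    exact lex_lt.2 ((lex_le.1 this).imp_right fun h' => ⟨h'.1, by linarith [h'.2]⟩)
  · have := (Bar.key_lt_k2 hs.symm).1 (lt_of_not_ge fun h' => hm ((H.mem_Dle ht hj).2 ⟨hk, h'⟩))
    exact lex_lt.2 ((lex_lt.1 this).imp_right fun h' => ⟨h'.1, (h k hk).2 h'.2⟩)

/-- the functional `a x + b y` -/
def fn (a b : ℝ) : Pt →ₗ[ℝ] ℝ where
  toFun v := a * v 0 + b * v 1
  map_add' u v := by simp only [Pi.add_apply]; ring
  map_smul' c v := by simp only [Pi.smul_apply, smul_eq_mul, RingHom.id_apply]; ring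

@[simp] theorem fn_apply (a b : ℝ) (v : Pt) : fn a b v = a * v 0 + b * v 1 := rfl

/-- a pencil of functionals has only finitely many non generic members -/
theorem finite_not_gen (hE : ∀ w ∈ E, w.d ≠ 0) (φ ψ : Pt →ₗ[ℝ] ℝ)
    (h : ∀ v, φ v = 0 → ψ v = 0 → v = 0) : {s : ℝ | ¬ Gen E (φ + s • ψ)}.Finite := by
  refine ((E.finite_toSet.image fun w : Bar => -φ w.d / ψ w.d)).subset ?_
  intro s hs
  simp only [Gen, mem_ofPred_eq, not_forall, not_not] at hs
  obtain ⟨w, hw, h0⟩ := hs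
  simp only [LinearMap.add_apply, LinearMap.smul_apply, smul_eq_mul] at h0
  have h1 : ψ w.d ≠ 0 := fun e => hE w hw (h _ (by simpa [e] using h0) e)
  refine ⟨w, hw, ?_⟩
  simp only
  field_simp
  linarith

theorem exists_gen (hE : ∀ w ∈ E, w.d ≠ 0) : ∃ s : ℝ, 0 < s ∧ s < 1 ∧ Gen E (fn s 1) := by
  have h := finite_not_gen hE (fn 0 1) (fn 1 0) fun v h1 h0 =>
    pt_ext (by simpa using h0) (by simpa using h1)
  obtain ⟨s, hs, hs'⟩ := (Ioo_infinite (zero_lt_one' ℝ)).exists_notMem_finite h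
  refine ⟨s, hs.1, hs.2, fun t ht => ?_⟩
  have := not_not.1 hs' t ht
  simpa [add_comm] using this

/-- a functional along a bar -/
theorem Bar.fn_sub {t : Bar} (h : t.d ≠ 0) (φ : Pt →ₗ[ℝ] ℝ) {p q : Pt} (hp : t.ht p = t.ht q) :
    φ p - φ q = (t.pos p - t.pos q) * φ t.d := by
  have : t.lh (p - q) = 0 := by rw [← t.ht_sub, hp, sub_self]
  rw [← map_sub, Bar.eq_smul_of_lh h this, map_smul, t.pos_sub, smul_eq_mul]

/-- signs on the closure of a cell -/
theorem closure_sign {t : Bar} {σ : Bool} {c : Set Pt} (h : ∀ z ∈ c, 0 < sg σ * t.ht z) {q : Pt}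
    (hq : q ∈ closure c) : 0 ≤ sg σ * t.ht q :=
  closure_minimal (t := {z | 0 ≤ sg σ * t.ht z}) (fun z hz => (h z hz).le)
    (isClosed_le continuous_const (by fun_prop)) hq

/-- the closed bar of a segment lies in the closed triangle -/
theorem Pre.cl_tri (H : Pre R E) {t : Bar} (ht : t ∈ E) (hr : t.ray = false) {q : Pt} (hq : t.Cl q)
    (i : Fin 3) : 0 ≤ (ry R i).ht q := by
  have key : ∀ e, 0 ≤ (ry R i).ht (ep (t, e)) := fun e => by
    by_contra hc
    have h1 := ev_lt_of_lex (κ := (ry R i).lh (ed (t, e))) (μ := 0) (lex_lt.2 (.inl (not_le.1 hc)))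
    obtain ⟨a, h1, h2, h3⟩ := (h1.and (ev_pos.and (ev_lt one_pos))).exists
    have := H.inner t ht hr _ (in_ep_add (j := (t, e)) (H.ne t ht) h2 h3) i
    rw [Bar.ht_add, map_smul, smul_eq_mul] at this
    linarith
  rcases H.cl_cases ht hq with h | ⟨e, _, rfl⟩
  · exact (H.inner t ht hr q h i).le
  · exact key e

end Pool.Agent.P.MP_5f84aa_co.G
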