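import Pool.Agent.P.MP_5f84aa_co.G.Map

/-!
The geometric layer: bars (open segments and three rays), cells (classes of visibility), germs, slots.
Every bar `t` carries affine coordinates `(t.pos, t.ht)`: the bar is `ht = 0`, `0 < pos < 1`.
-/

namespace Pool.Agent.P.MP_5f84aa_co.G

open Filter Topology Set

noncomputable section

/-- the sign of a side -/
def sg (b : Bool) : ℝ := if b then 1 else -1

/-- the segment from `o` to `o + d`, or the ray from `o` in the direction `d` -/
structure Bar where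
  o : Pt
  d : Pt
  ray : Bool

instance : Inhabited Bar := ⟨⟨0, 0, false⟩⟩

namespace Bar

variable (t : Bar)

/-- the square of the length -/
def n2 : ℝ := t.d 0 ^ 2 + t.d 1 ^ 2

/-- the component along the bar -/
def lp : Pt →ₗ[ℝ] ℝ where
  toFun v := (t.d 0 * v 0 + t.d 1 * v 1) / t.n2
  map_add' u v := by simp only [Pi.add_apply]; ring
  map_smul' a v := by simp only [Pi.smul_apply, smul_eq_mul, RingHom.id_apply]; ring

/-- the component across the bar, positive on the left -/
def lh : Pt →ₗ[ℝ] ℝ where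
  toFun v := t.d 0 * v 1 - t.d 1 * v 0
  map_add' u v := by simp only [Pi.add_apply]; ring
  map_smul' a v := by simp only [Pi.smul_apply, smul_eq_mul, RingHom.id_apply]; ring

def pos (q : Pt) : ℝ := t.lp (q - t.o)

def ht (q : Pt) : ℝ := t.lh (q - t.o)

/-- the normal vector of height one -/
def nv : Pt := ![-t.d 1 / t.n2, t.d 0 / t.n2]

/-- the point with given coordinates -/
def pt (x y : ℝ) : Pt := t.o + x • t.d + y • t.nv

/-- the positions of the open bar -/
def Rg (x : ℝ) : Prop := 0 < x ∧ (t.ray = false → x < 1)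

/-- the positions of the closed bar -/
def Rc (x : ℝ) : Prop := 0 ≤ x ∧ (t.ray = false → x ≤ 1)

/-- the open bar -/
def In (q : Pt) : Prop := t.ht q = 0 ∧ t.Rg (t.pos q)

/-- the closed bar -/
def Cl (q : Pt) : Prop := t.ht q = 0 ∧ t.Rc (t.pos q)

/-- the obstacle: the bar shortened at both ends (rays are no obstacles) -/
def Ob (γ : ℝ) (q : Pt) : Prop := t.ray = false ∧ t.ht q = 0 ∧ γ ≤ t.pos q ∧ t.pos q ≤ 1 - γ

/-- the point at height `ε` of the germ on the side `σ` with foot `x` and slope `κ` -/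
def gp (σ : Bool) (x κ ε : ℝ) : Pt := t.pt (x + ε * κ) (sg σ * ε)

end Bar

/-- ends of bars: `false` is the origin, `true` the other end -/
abbrev En : Type := Bar × Bool

/-- the point of an end -/
def ep (j : En) : Pt := if j.2 then j.1.o + j.1.d else j.1.o

/-- the direction from an end into its bar -/
def ed (j : En) : Pt := if j.2 then -j.1.d else j.1.d

/-- the side of `t` on which the end `j` lands -/
def Bar.sd (t : Bar) (j : En) : Bool := open Classical in decide (0 < t.lh (ed j))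

/-- the slope of the end `j` -/
def Bar.sl (t : Bar) (j : En) : ℝ := t.lp (ed j) / |t.lh (ed j)|

/-- the order of the ends on one side of `t` -/
def Bar.k2 (t : Bar) (j : En) : ℝ ×ₗ ℝ := toLex (t.pos (ep j), t.sl j)

/-- the order of all the ends on `t` -/
def Bar.key (t : Bar) (j : En) : ℝ ×ₗ Bool ×ₗ ℝ := toLex (t.pos (ep j), toLex (t.sd j, t.sl j))

/-- the three rays -/
def ry (R : ℝ) : Fin 3 → Bar :=
  ![⟨![-R, -R], ![1, 0], true⟩, ⟨![3 * R, -R], ![-1, 1], true⟩, ⟨![-R, 3 * R], ![0, -1], true⟩]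

/-- the open triangle -/
def Tri (R : ℝ) (q : Pt) : Prop := ∀ i, 0 < (ry R i).ht q

section

variable (R : ℝ) (E : Finset Bar)

def IsEnd (j : En) : Prop := j.1 ∈ E ∧ (j.2 = true → j.1.ray = false)

/-- the end `j` lands on `t` -/
def On (t : Bar) (j : En) : Prop := IsEnd E j ∧ t.In (ep j)

/-- the bar on which `j` lands -/
def bar (j : En) : Bar := Classical.epsilon fun t => t ∈ E ∧ t.In (ep j)

/-- disjoint open bars in the triangle, and the three rays -/
structure Pre : Prop where
  pos : 0 < R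
  ne : ∀ t ∈ E, t.d ≠ 0
  disj : ∀ t ∈ E, ∀ w ∈ E, ∀ q, t.In q → w.In q → t = w
  ry_mem : ∀ i, ry R i ∈ E
  rays : ∀ t ∈ E, t.ray = true → ∃ i, t = ry R i
  inner : ∀ t ∈ E, t.ray = false → ∀ q, t.In q → Tri R q

/-- every end lands on an open bar -/
structure Sys : Prop extends Pre R E where
  ends : ∀ j, IsEnd E j → ∃ t ∈ E, t.In (ep j)

def Off (x : Pt) : Prop := ∀ w ∈ E, ¬ w.Cl x

def Vis (x y : Pt) : Prop := ∀ z ∈ segment ℝ x y, Off E z

def IsCell (c : Set Pt) : Prop := ∃ x, Off E x ∧ c = {y | Vis E x y}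

/-- the germ runs on a bar -/
def Blk (t : Bar) (σ : Bool) (x κ : ℝ) : Prop := ∃ w ∈ E, ∀ᶠ ε in 𝓝[>] 0, w.Cl (t.gp σ x κ ε)

/-- the cell of a germ -/
def gc (t : Bar) (σ : Bool) (x κ : ℝ) : Set Pt := {z | ∀ᶠ ε in 𝓝[>] 0, Vis E (t.gp σ x κ ε) z}

/-- the germ lies after the ends of `D` and before the other ends on the side `σ` of `t` -/
def Sep (t : Bar) (σ : Bool) (D : Set En) (x κ : ℝ) : Prop :=
  t.Rg x ∧ ∀ j, On E t j → t.sd j = σ →
    (j ∈ D → t.k2 j < toLex (x, κ)) ∧ (j ∉ D → toLex (x, κ) < t.k2 j)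

/-- the cell on the side `σ` of the piece of `t` after the ends of `D` -/
def Ce (t : Bar) (σ : Bool) (D : Set En) : Set Pt :=
  {z | ∃ x κ, Sep E t σ D x κ ∧ z ∈ gc E t σ x κ}

/-- pieces: initial sets of ends on a bar -/
def Pc (t : Bar) (D : Set En) : Prop :=
  t ∈ E ∧ (∀ j ∈ D, On E t j) ∧ ∀ j ∈ D, ∀ k, On E t k → t.key k ≤ t.key j → k ∈ D

/-- the positions of a piece -/
def Fit (t : Bar) (D : Set En) (x : ℝ) : Prop :=
  t.Rg x ∧ ∀ j, On E t j → (j ∈ D → t.pos (ep j) ≤ x) ∧ (j ∉ D → x ≤ t.pos (ep j))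

/-- the piece before the end `j` -/
def Dlt (j : En) : Set En := {k | On E (bar E j) k ∧ (bar E j).key k < (bar E j).key j}

/-- the piece after the end `j` -/
def Dle (j : En) : Set En := {k | On E (bar E j) k ∧ (bar E j).key k ≤ (bar E j).key j}

/-- the first (`e = false`) and the last piece of a bar -/
def Dend (s : Bar) (e : Bool) : Set En := {k | On E s k ∧ e = true}

/-- the outer cells -/
def hh (i : Fin 3) : Set Pt := Ce E (ry R i) false ∅

/-- the cell before the stem -/
def cL (j : En) : Set Pt := Ce E (bar E j) ((bar E j).sd j) (Dlt E j)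

/-- the cell after the stem -/
def cR (j : En) : Set Pt := Ce E (bar E j) ((bar E j).sd j) (Dle E j)

/-- the cell on the other side of the bar -/
def cX (j : En) : Set Pt := Ce E (bar E j) (!(bar E j).sd j) (Dlt E j)

def LL (f : Option En) : Set Pt := f.elim (hh R E 0) (cL E)

def RR (f : Option En) : Set Pt := f.elim (hh R E 1) (cR E)

def XX (f : Option En) : Set Pt := f.elim (hh R E 2) (cX E)

/-- the faces -/
abbrev JJ : Type := {f : Option En // ∀ j, f = some j → IsEnd E j}

/-- the cells -/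
abbrev VV : Type := {c : Set Pt // ∃ f : JJ E, c = LL R E f.1 ∨ c = RR R E f.1 ∨ c = XX R E f.1}

/-- the two cells of a piece -/
def Pair (u v : Set Pt) (t : Bar) (D : Set En) : Prop :=
  (u = Ce E t true D ∧ v = Ce E t false D) ∨ (u = Ce E t false D ∧ v = Ce E t true D)

/-- the three pieces of a face -/
def Inc (f : Option En) (t : Bar) (D : Set En) : Prop :=
  f.elim (∃ i, t = ry R i ∧ D = Dend E t true) fun j =>
    (t = j.1 ∧ D = Dend E t j.2) ∨ (t = bar E j ∧ (D = Dlt E j ∨ D = Dle E j))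

/-- the map of a system -/
def mp : Map (VV R E) (JJ E) Bar where
  L f := ⟨LL R E f.1, f, .inl rfl⟩
  R f := ⟨RR R E f.1, f, .inr (.inl rfl)⟩
  X f := ⟨XX R E f.1, f, .inr (.inr rfl)⟩
  stem f := f.1.elim default Prod.fst
  bar f := f.1.elim default (bar E)
  inf := ⟨none, fun _ h => nomatch h⟩
  ln u v := Classical.epsilon fun t => ∃ D, Pc E t D ∧ Pair E u.1 v.1 t D

/-- the face of an end -/
def fc {E : Finset Bar} {j : En} (h : IsEnd E j) : JJ E := ⟨some j, fun _ e => Option.some.inj e ▸ h⟩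

/-- a rung: no end lands on it -/
def Rung (s : Bar) : Prop := s ∈ E ∧ s.ray = false ∧ ∀ k, ¬ On E s k

/-- functionals which are constant on no bar -/
def Gen (φ : Pt →ₗ[ℝ] ℝ) : Prop := ∀ t ∈ E, φ t.d ≠ 0

/-- `x` sees `q` among the obstacles -/
def Sees (γ : ℝ) (x q : Pt) : Prop := ∀ z ∈ openSegment ℝ x q, ∀ w ∈ E, ¬ w.Ob γ z

/-- the end points which lie on no open bar -/
def Bad : Set Pt := {p | (∃ j, IsEnd E j ∧ ep j = p) ∧ ∀ t ∈ E, ¬ t.In p}

end

/-- faces with a common edge -/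
def Map.FAdj {V J Sg : Type} (m : Map V J Sg) (a b : J) : Prop :=
  ∃ u v, u ≠ v ∧ m.has a u ∧ m.has a v ∧ m.has b u ∧ m.has b v

end

end Pool.Agent.P.MP_5f84aa_co.G
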