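import Pool.Agent.P.MP_5f84aa_co.G.Bas3

/-! The blocked germs along a bar are those of the ends. -/

namespace Pool.Agent.P.MP_5f84aa_co.G

open Filter Topology Set

theorem t_BLK : BLK := by
  intro R E H t ht σ x κ hx
  have h0 := H.ne t ht
  constructor
  · rintro ⟨w, hw, h⟩
    have hw0 := H.ne w hw
    have hc : w.Cl (t.pt x 0) := w.isClosed_Cl.mem_of_tendsto (t.tendsto_gp σ x κ) h
    obtain ⟨ε, hε, h1⟩ := (ev_pos.and h).exists
    rcases H.cl_of_in ht hw ((Bar.in_pt h0).2 hx) hc with rfl | ⟨e, hj, he⟩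
    · exact absurd ((Bar.ht_gp h0 σ x κ ε).symm.trans h1.1) (mul_ne_zero (sg_ne σ) hε.ne')
    rw [Bar.gp_eq, he] at h1
    obtain ⟨u, hu⟩ : ∃ u, u = κ • t.d + sg σ • t.nv := ⟨_, rfl⟩
    rw [← hu] at h1
    have a1 : w.lh u = 0 := by
      have := h1.1
      rw [Bar.ht_add, ht_ep (w, e), zero_add, map_smul, smul_eq_mul] at this
      exact (mul_eq_zero.1 this).resolve_left hε.ne'
    obtain ⟨c, a2⟩ : ∃ c : ℝ, u = c • ed (w, e) := ⟨w.lp u * sg (!e), by
      rw [ed_eq, smul_smul, mul_assoc, sg_mul_self, mul_one]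
      exact Bar.eq_smul_of_lh hw0 a1⟩
    have a3 : sg σ = c * t.lh (ed (w, e)) := by
      have := congrArg t.lh (hu.symm.trans a2)
      simpa [Bar.lh_nv h0] using this
    have a4 : κ = c * t.lp (ed (w, e)) := by
      have := congrArg t.lp (hu.symm.trans a2)
      simpa [Bar.lp_d h0] using this
    have a5 : 0 ≤ ε * c := by
      rw [a2, smul_smul, ep_add_ed, Bar.cl_pt hw0] at h1
      cases e
      · simpa using h1.2.1
      · simpa using h1.2.2 (hj.1.2 rfl)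
    have a6 : 0 < c := lt_of_le_of_ne (nonneg_of_mul_nonneg_right a5 hε)
      fun e0 => sg_ne σ (by rw [a3, ← e0, zero_mul])
    have a7 : c * (sg σ * t.lh (ed (w, e))) = 1 := by
      rw [mul_left_comm, ← a3, sg_mul_self]
    have a8 : 0 < sg σ * t.lh (ed (w, e)) := (mul_pos_iff_of_pos_left a6).1 (a7 ▸ one_pos)
    refine ⟨(w, e), hj, sg_eq (H.sg_sd_pos ht hj) a8, lex_eq.2 ⟨by rw [← he, Bar.pos_pt h0], ?_⟩⟩
    rw [Bar.sl, abs_of_sg a8.le, div_eq_iff a8.ne', a4]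
    linear_combination (-t.lp (ed (w, e))) * a7
  · rintro ⟨j, hj, rfl, h⟩
    obtain ⟨rfl, rfl⟩ := lex_eq.1 h
    have pj := abs_pos.2 (H.lh_ne ht hj)
    refine ⟨j.1, hj.1.1, ?_⟩
    filter_upwards [ev_pos, ev_lt pj] with ε h1 h2
    rw [H.gp_end ht hj]
    exact (in_ep_add (H.ne _ hj.1.1) (div_pos h1 pj) ((div_lt_one pj).2 h2)).cl

end Pool.Agent.P.MP_5f84aa_co.G
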