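import Pool.Agent.P.MP_5f84aa_co.G.Bas3

/-! The cells of a piece. -/

namespace Pool.Agent.P.MP_5f84aa_co.G

open Filter Topology Set

namespace TCELL

variable {R : ℝ} {E : Finset Bar}

theorem exists_fit (H : Sys R E) {t : Bar} {D : Set En} (h : Pc E t D) : ∃ x, Fit E t D x := by
  rcases H.lo h with h1 | ⟨k, _, hk, h1⟩
  · rcases H.hi h with h2 | ⟨k, _, hk, h2⟩
    · refine ⟨1 / 2, ⟨by norm_num, fun _ => by norm_num⟩, fun j hj => ?_⟩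
      have : j ∈ D := by rw [h2, Dend_true]; exact hj
      rw [h1] at this
      exact absurd this (notMem_empty j)
    · have := fit_Dlt H hk.1
      rw [H.bar_eq h.1 hk, ← h2] at this
      exact ⟨_, this⟩
  · have := fit_Dle H hk.1
    rw [H.bar_eq h.1 hk, ← h1] at this
    exact ⟨_, this⟩

theorem exists_sep {t : Bar} {D : Set En} (h : Pc E t D) (σ : Bool) {x : ℝ} (hx : Fit E t D x) :
    ∃ κ, Sep E t σ D x κ := by
  obtain ⟨κ, h1, h2⟩ := exists_between_fin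
    (A := t.sl '' {j | On E t j ∧ t.sd j = σ ∧ j ∈ D ∧ t.pos (ep j) = x})
    (B := t.sl '' {j | On E t j ∧ t.sd j = σ ∧ j ∉ D ∧ t.pos (ep j) = x})
    (((finite_on E t).subset fun _ h => h.1).image _)
    (((finite_on E t).subset fun _ h => h.1).image _) (by
      rintro _ ⟨j, hj, rfl⟩ _ ⟨k, hk, rfl⟩
      have := (Bar.key_lt_k2 (hj.2.1.trans hk.2.1.symm)).1 (h.key_lt hj.2.2.1 hk.1 hk.2.2.1)
      rcases lex_lt.1 this with h' | h'
      · rw [hj.2.2.2, hk.2.2.2] at h'; exact absurd h' (lt_irrefl _)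
      · exact h'.2)
  refine ⟨κ, hx.1, fun j hj hs => ⟨fun hm => ?_, fun hm => ?_⟩⟩
  · rcases ((hx.2 j hj).1 hm).lt_or_eq with h' | h'
    · exact lex_lt.2 (.inl h')
    · exact lex_lt.2 (.inr ⟨h', h1 _ ⟨j, ⟨hj, hs, hm, h'⟩, rfl⟩⟩)
  · rcases ((hx.2 j hj).2 hm).lt_or_eq with h' | h'
    · exact lex_lt.2 (.inl h')
    · exact lex_lt.2 (.inr ⟨h', h2 _ ⟨j, ⟨hj, hs, hm, h'.symm⟩, rfl⟩⟩)

theorem fst_le {x κ y μ : ℝ} (h : toLex (x, κ) ≤ toLex (y, μ)) : x ≤ y := by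
  rcases lex_le.1 h with h | h
  · exact h.le
  · exact h.1.le

theorem not_blk (hBLK : BLK) (H : Sys R E) {t : Bar} (ht : t ∈ E) {σ : Bool} {D : Set En}
    {x κ x' κ' y μ : ℝ} (h : Sep E t σ D x κ) (h' : Sep E t σ D x' κ')
    (h1 : toLex (x, κ) ≤ toLex (y, μ)) (h2 : toLex (y, μ) ≤ toLex (x', κ')) : ¬ Blk E t σ y μ := by
  intro hb
  obtain ⟨j, hj, hs, e⟩ := (hBLK R E H t ht σ y μ (h.1.between h'.1 (fst_le h1) (fst_le h2))).1 hb
  by_cases hm : j ∈ D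
  · exact absurd ((h.2 j hj hs).1 hm) (not_lt.2 (e ▸ h1))
  · exact absurd ((h'.2 j hj hs).2 hm) (not_lt.2 (e ▸ h2))

theorem gc_eq_le (hVIS : VIS) (hWALK : WALK) (hBLK : BLK) (hGERM : GERM) (H : Sys R E) {t : Bar}
    (ht : t ∈ E) {σ : Bool} {D : Set En} {x κ x' κ' : ℝ} (h : Sep E t σ D x κ)
    (h' : Sep E t σ D x' κ') (hle : toLex (x, κ) ≤ toLex (x', κ')) :
    gc E t σ x κ = gc E t σ x' κ' := by
  have h0 := H.ne t ht
  obtain ⟨c1, e1⟩ := hGERM R E H t σ x κ h0 (not_blk hBLK H ht h h le_rfl le_rfl)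
  obtain ⟨c2, e2⟩ := hGERM R E H t σ x' κ' h0 (not_blk hBLK H ht h' h' le_rfl le_rfl)
  have e3 := hWALK E t σ x κ x' κ' h0 H.ne hle fun y μ h1 h2 => not_blk hBLK H ht h h' h1 h2
  obtain ⟨ε, a1, a2, a3⟩ := (e1.and (e2.and e3)).exists
  obtain ⟨-, -, -, -, b1, b2⟩ := (hVIS R E H).2 _ c1
  exact b2 _ c2 _ ((b1 _ a1 _).1 a3) a2

theorem gc_eq (hVIS : VIS) (hWALK : WALK) (hBLK : BLK) (hGERM : GERM) (H : Sys R E) {t : Bar}
    (ht : t ∈ E) {σ : Bool} {D : Set En} {x κ x' κ' : ℝ} (h : Sep E t σ D x κ)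
    (h' : Sep E t σ D x' κ') : gc E t σ x κ = gc E t σ x' κ' := by
  rcases le_total (toLex (x, κ)) (toLex (x', κ')) with hle | hle
  · exact gc_eq_le hVIS hWALK hBLK hGERM H ht h h' hle
  · exact (gc_eq_le hVIS hWALK hBLK hGERM H ht h' h hle).symm

theorem ce_eq (hVIS : VIS) (hWALK : WALK) (hBLK : BLK) (hGERM : GERM) (H : Sys R E) {t : Bar}
    (ht : t ∈ E) {σ : Bool} {D : Set En} {x κ : ℝ} (h : Sep E t σ D x κ) :
    Ce E t σ D = gc E t σ x κ := by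
  ext z
  constructor
  · rintro ⟨x', κ', h', hz⟩
    rwa [gc_eq hVIS hWALK hBLK hGERM H ht h h']
  · exact fun hz => ⟨x, κ, h, hz⟩

/-- a germ does not see the other side of its bar -/
theorem not_neg {t : Bar} (ht : t ∈ E) (h0 : t.d ≠ 0) {σ : Bool} {x κ : ℝ} (hx : t.Rg x) {z : Pt}
    (hz : z ∈ gc E t σ x κ) : 0 ≤ sg σ * t.ht z := by
  by_contra hc
  have hh : 0 < -(sg σ * t.ht z) := by linarith [not_le.1 hc]
  set h := -(sg σ * t.ht z) with hdef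
  have c1 : ContinuousAt (fun ε : ℝ => (1 - ε / (ε + h)) * (x + ε * κ) + ε / (ε + h) * t.pos z) 0 := by
    have : ContinuousAt (fun ε : ℝ => ε / (ε + h)) 0 :=
      ContinuousAt.div (by fun_prop) (by fun_prop) (by simpa using hh.ne')
    exact ((continuousAt_const.sub this).mul (by fun_prop)).add (this.mul continuousAt_const)
  have e1 : ∀ᶠ ε in 𝓝 (0 : ℝ), t.Rg ((1 - ε / (ε + h)) * (x + ε * κ) + ε / (ε + h) * t.pos z) :=
    c1.eventually (t.isOpen_Rg.mem_nhds (by simpa using hx))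
  have hz' : ∀ᶠ ε in 𝓝[>] (0 : ℝ), Vis E (t.gp σ x κ ε) z := hz
  obtain ⟨ε, a1, a2, a3⟩ := ((e1.filter_mono nhdsWithin_le_nhds).and (hz'.and ev_pos)).exists
  have hs : 0 < ε + h := by linarith
  have b1 : 0 ≤ ε / (ε + h) := by positivity
  have b2 : 0 ≤ 1 - ε / (ε + h) := by
    rw [sub_nonneg, div_le_one hs]; linarith
  have b3 : (1 - ε / (ε + h)) + ε / (ε + h) = 1 := by ring
  refine a2 _ ⟨_, _, b2, b1, b3, rfl⟩ t ht (Bar.In.cl ⟨?_, ?_⟩)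
  · rw [t.ht_comb b3, Bar.ht_gp h0]
    have e : t.ht z = -(sg σ * h) := by
      rw [hdef]; linear_combination (-t.ht z) * sg_mul_self σ
    rw [e]
    field_simp
    ring
  · rw [t.pos_comb b3, Bar.pos_gp h0]
    exact a1

theorem pos_of_open {t : Bar} (h0 : t.d ≠ 0) {σ : Bool} {c : Set Pt} (hc : IsOpen c)
    (h : ∀ z ∈ c, 0 ≤ sg σ * t.ht z) {z : Pt} (hz : z ∈ c) : 0 < sg σ * t.ht z := by
  have c1 : ContinuousAt (fun δ : ℝ => z + (-(δ * sg σ)) • t.nv) 0 := by fun_prop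
  have e1 : ∀ᶠ δ in 𝓝 (0 : ℝ), z + (-(δ * sg σ)) • t.nv ∈ c :=
    c1.eventually (hc.mem_nhds (by simpa using hz))
  obtain ⟨δ, a1, a2⟩ := ((e1.filter_mono nhdsWithin_le_nhds).and ev_pos).exists
  have := h _ a1
  rw [Bar.ht_add, map_smul, Bar.lh_nv h0, smul_eq_mul] at this
  have e : sg σ * (t.ht z + -(δ * sg σ) * 1) = sg σ * t.ht z - δ := by
    linear_combination (-δ) * sg_mul_self σ
  linarith

end TCELL

open TCELL in
theorem t_CELL (hVIS : VIS) (hWALK : WALK) (hBLK : BLK) (hGERM : GERM) : CELL := by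
  intro R E H t D hD σ
  have ht := hD.1
  have h0 := H.ne t ht
  have key : ∀ x κ, Sep E t σ D x κ → Ce E t σ D = gc E t σ x κ ∧ IsCell E (gc E t σ x κ) ∧
      ∀ᶠ ε in 𝓝[>] 0, t.gp σ x κ ε ∈ Ce E t σ D := fun x κ h => by
    have e := ce_eq hVIS hWALK hBLK hGERM H ht h
    obtain ⟨c1, e1⟩ := hGERM R E H t σ x κ h0 (not_blk hBLK H ht h h le_rfl le_rfl)
    exact ⟨e, c1, e ▸ e1⟩
  obtain ⟨x₀, hx₀⟩ := exists_fit H hD
  obtain ⟨κ₀, hκ₀⟩ := exists_sep hD σ hx₀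
  obtain ⟨e₀, c₀, -⟩ := key x₀ κ₀ hκ₀
  refine ⟨e₀ ▸ c₀, ⟨x₀, hx₀⟩, fun x hx => ?_, fun x κ h => ⟨(key x κ h).1, (key x κ h).2.2⟩, ?_⟩
  · obtain ⟨κ, hκ⟩ := exists_sep hD σ hx
    exact ⟨⟨κ, hκ⟩, mem_closure_of_tendsto (t.tendsto_gp σ x κ) (key x κ hκ).2.2⟩
  · rw [e₀]
    exact fun z hz => pos_of_open h0 ((hVIS R E H).2 _ c₀).1 (fun w hw => not_neg ht h0 hx₀.1 hw) hz

end Pool.Agent.P.MP_5f84aa_co.G
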