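import Pool.Agent.P.MP_5f84aa_co.G.Bas3

/-! A bounded cell has a corner above each of its points. -/

namespace Pool.Agent.P.MP_5f84aa_co.G

open Filter Topology Set

namespace TCLIMB

variable {R : ℝ} {E : Finset Bar}

theorem dir (H : Pre R E) {φ : Pt →ₗ[ℝ] ℝ} (hφ : Gen E φ) :
    ∃ v, 0 < φ v ∧ ∀ w ∈ E, w.lh v ≠ 0 := by
  have ht := H.ry_mem 0
  generalize ry R 0 = t at ht
  have ha := hφ t ht
  have e1 : ∀ᶠ s in 𝓝[>] (0 : ℝ), 0 < φ t.d * φ t.d + s * φ t.nv := by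
    simpa using ev_lt_of_lex (κ := 0) (μ := φ t.nv) (lex_lt.2 (.inl (mul_self_pos.2 ha)))
  have e2 : ∀ᶠ s in 𝓝[>] (0 : ℝ), ∀ w ∈ E, φ t.d * w.lh t.d + s * w.lh t.nv ≠ 0 := by
    refine (eventually_all_finset E).2 fun w hw => ?_
    rcases ev_sign (φ t.d * w.lh t.d) (w.lh t.nv) with h | h | h
    · exact h.mono fun _ h => h.ne'
    · have h4 : w.lh w.nv = 0 := by
        rw [← Bar.vec_eq (H.ne t ht) w.nv]; simp [(mul_eq_zero.1 h.1).resolve_left ha, h.2]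
      rw [Bar.lh_nv (H.ne w hw)] at h4
      exact absurd h4 one_ne_zero
    · exact h.mono fun _ h => h.ne
  obtain ⟨s, h1, h2⟩ := (e1.and e2).exists
  exact ⟨φ t.d • t.d + s • t.nv, by simpa using h1, fun w hw => by simpa using h2 w hw⟩

theorem hit (hV : VIS) (hO : OUT) (H : Sys R E) {c : Set Pt} (hc : IsCell E c)
    (hn : ∀ i, c ≠ hh R E i) {x v : Pt} (hx : x ∈ c) (hv : ∀ w ∈ E, w.lh v ≠ 0) :
    ∃ a : ℝ, 0 < a ∧ (∃ t ∈ E, t.In (x + a • v)) ∧ ∀ b : ℝ, 0 ≤ b → b < a → x + b • v ∈ c := by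
  obtain ⟨-, -, -, c4, c5, -⟩ := (hV R E H).2 c hc
  have key : ∀ a : ℝ, 0 ≤ a → (∀ b : ℝ, 0 < b → b ≤ a → Off E (x + b • v)) → x + a • v ∈ c := by
    intro a ha h
    refine (c5 x hx _).1 ?_
    rintro _ ⟨p, q, hp, hq, hpq, rfl⟩
    obtain rfl : p = 1 - q := by linarith
    rw [show (1 - q) • x + q • (x + a • v) = x + (q * a) • v by module]
    rcases (mul_nonneg hq ha).eq_or_lt with h0 | h0
    · simpa [← h0] using c4 x hx
    · exact h _ h0 (by nlinarith)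
  have fin : {a : ℝ | 0 < a ∧ ¬ Off E (x + a • v)}.Finite := by
    refine (E.finite_toSet.image fun w : Bar => -w.ht x / w.lh v).subset fun a ha => ?_
    obtain ⟨w, hw, h⟩ : ∃ w ∈ E, w.Cl (x + a • v) := by simpa [Off] using ha.2
    have h1 := h.1
    rw [Bar.ht_add, map_smul, smul_eq_mul] at h1
    exact ⟨w, hw, by rw [div_eq_iff (hv w hw)]; linarith⟩
  have ne : {a : ℝ | 0 < a ∧ ¬ Off E (x + a • v)}.Nonempty := by
    by_contra h
    have h1 : ∀ a : ℝ, 0 ≤ a → Tri R (x + a • v) := fun a ha =>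
      (hO R E H).2.2.2 c hc hn _ (key a ha fun b hb _ => by_contra fun h' => h ⟨b, hb, h'⟩)
    obtain ⟨i, hi⟩ : ∃ i, (ry R i).lh v ≤ 0 := by
      by_contra h2
      push Not at h2
      have := ht_ry_sum R (x + v)
      simp only [Bar.ht_add] at this
      linarith [ht_ry_sum R x, h2 0, h2 1, h2 2]
    have h3 := hi.lt_of_ne (hv _ (H.ry_mem i))
    have h4 := h1 (-(ry R i).ht x / (ry R i).lh v)
      (div_nonneg_of_nonpos (by simpa using ((hO R E H).2.2.2 c hc hn x hx i).le) hi) i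
    rw [Bar.ht_add, map_smul, smul_eq_mul, div_mul_cancel₀ _ h3.ne] at h4
    linarith
  obtain ⟨a, ha, hm⟩ := exists_min_image _ id fin ne
  refine ⟨a, ha.1, ?_, fun b hb hba => key b hb fun b' h0 h1 => by_contra fun h' => ?_⟩
  · simpa [H.off_iff] using ha.2
  · exact absurd (hm b' ⟨h0, h'⟩) (not_le.2 (h1.trans_lt hba))

theorem stem (hS : STEM) (H : Sys R E) {t : Bar} {e : Bool} (h : IsEnd E (t, e)) (σ : Bool) :
    Ce E t σ (Dend E t e) = cL E (t, e) ∨ Ce E t σ (Dend E t e) = cR E (t, e) := by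
  rcases hS R E H _ h with h | h <;> cases σ <;> simp [h.1, h.2]

end TCLIMB

open TCLIMB in
theorem t_CLIMB (hVIS : VIS) (hBLK : BLK) (hGERM : GERM) (hCELL : CELL) (hSTEM : STEM) (hOUT : OUT)
    (hRUN : RUN) : CLIMB := by
  intro R E H φ hφ c hc hn x hx
  obtain ⟨v, h1, h2⟩ := dir H.toPre hφ
  obtain ⟨a, ha, ⟨t, ht, hy⟩, hb⟩ := hit hVIS hOUT H hc hn hx h2
  obtain ⟨-, -, -, c4, -, c6⟩ := (hVIS R E H).2 c hc
  have h0 := H.ne t ht
  obtain ⟨σ, hσ⟩ : ∃ σ, 0 < sg σ * t.lh (-v) := by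
    rcases (h2 t ht).lt_or_gt with h | h
    exacts [⟨true, by simpa using h⟩, ⟨false, by simpa using h⟩]
  have e1 : ∀ᶠ ε in 𝓝[>] (0 : ℝ), x + a • v + ε • (-v) ∈ c := by
    filter_upwards [ev_pos, ev_lt ha] with ε e0 e1
    rw [show x + a • v + ε • (-v) = x + (a - ε) • v by module]
    exact hb _ (by linarith) (by linarith)
  simp only [Bar.gp_dir h0 hy.1 hσ] at e1
  have e2 := ev_scale (inv_pos.2 hσ) e1
  simp only [inv_mul_cancel_right₀ hσ.ne'] at e2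
  obtain ⟨D, hD, hF, hS⟩ := sep_of_not_blk hBLK H ht hy.2 (σ := σ) (by
    rintro ⟨w, hw, h⟩
    obtain ⟨ε, h3, h4⟩ := (h.and e2).exists
    exact c4 _ h4 w hw h3)
  obtain ⟨k1, -, -, k4, -⟩ := hCELL R E H t D hD σ
  obtain ⟨ε, h3, h4⟩ := (e2.and (k4 _ _ hS).2).exists
  obtain rfl := c6 _ k1 _ h3 h4
  have lt : φ x < φ (x + a • v) := by simpa using mul_pos ha h1
  have up : ∀ q, t.ht q = 0 → 0 ≤ (t.pos q - t.pos (x + a • v)) * φ t.d → φ x < φ q :=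
    fun q hq h => by linarith [Bar.fn_sub h0 φ (hq.trans hy.1.symm)]
  rcases (hφ t ht).lt_or_gt with hd | hd
  · rcases (hRUN R E H t D hD σ).2 with ⟨j, hj, -, hm, e⟩ | ⟨-, e⟩
    · exact ⟨j, hj.1, .inr e, up _ hj.2.1
        (mul_nonneg_of_nonpos_of_nonpos (sub_nonpos.2 ((hF.2 j hj).1 hm)) hd.le)⟩
    · exact ⟨_, isEnd_false ht, e ▸ stem hSTEM H (isEnd_false ht) σ, up _ (ht_ep (t, false))
        (mul_nonneg_of_nonpos_of_nonpos (by simpa using hy.2.1.le) hd.le)⟩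
  · rcases (hRUN R E H t D hD σ).1 with ⟨j, hj, -, hm, e⟩ | ⟨-, e⟩
    · exact ⟨j, hj.1, .inl e, up _ hj.2.1 (mul_nonneg (sub_nonneg.2 ((hF.2 j hj).2 hm)) hd.le)⟩
    · cases hr : t.ray
      · refine ⟨_, isEnd_true ht hr, e ▸ stem hSTEM H (isEnd_true ht hr) σ, up _ (ht_ep (t, true))
          (mul_nonneg (sub_nonneg.2 ?_) hd.le)⟩
        rw [pos_ep (j := (t, true)) h0]
        exact (hy.2.2 hr).le
      · obtain ⟨i, rfl⟩ := H.rays t ht hr
        cases σ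
        · exact absurd ((hOUT R E H).1 i D) (hn i)
        · exact absurd (e.trans ((hOUT R E H).2.1 i)) (hn _)

end Pool.Agent.P.MP_5f84aa_co.G
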