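import Pool.Agent.P.MP_5f84aa_co.G.Bas3

/-! The faces of the map of a system are connected. -/

namespace Pool.Agent.P.MP_5f84aa_co.G

open Filter Topology Set Relation

namespace TCONN

variable {R : ℝ} {E : Finset Bar} {t : Bar}

theorem adj (hF : FACE) (H : Sys R E) {D : Set En} (hD : Pc E t D) {f g : JJ E}
    (hf : Inc R E f.1 t D) (hg : Inc R E g.1 t D) : (mp R E).FAdj f g := by
  obtain ⟨-, -, h3, h4, -⟩ := hF R E H
  obtain ⟨u, v, huv, hu, hv⟩ := (h4 t D hD).2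
  have a := (h3 f u v huv.1).2 ⟨t, D, hf, .inl ⟨hu, hv⟩⟩
  have b := (h3 g u v huv.1).2 ⟨t, D, hg, .inl ⟨hu, hv⟩⟩
  exact ⟨u, v, huv.1, a.1, a.2, b.1, b.2⟩

theorem symm {f g : JJ E} (h : ReflTransGen (mp R E).FAdj f g) : ReflTransGen (mp R E).FAdj g f := by
  induction h with
  | refl => exact .refl
  | tail _ h ih =>
    obtain ⟨u, v, h0, h1, h2, h3, h4⟩ := h
    exact .head ⟨u, v, h0, h3, h4, h1, h2⟩ ih

theorem along (hF : FACE) (H : Sys R E) (ht : t ∈ E) (n : ℕ) : ∀ D : Set En, D.ncard = n →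
    Pc E t D → ∀ f : JJ E, Inc R E f.1 t D →
      ReflTransGen (mp R E).FAdj f (fc (isEnd_false ht)) := by
  induction n using Nat.strong_induction_on with
  | _ n ih =>
    intro D hn hD f hf
    rcases H.lo hD with rfl | ⟨k, hk, ho, rfl⟩
    · exact .single (adj hF H hD hf (.inl ⟨rfl, (Dend_false t).symm⟩))
    · have e := H.bar_eq ht ho
      refine .head (adj hF H hD hf (g := fc ho.1) (.inr ⟨e.symm, .inr rfl⟩))
        (ih _ ?_ (Dlt E k) rfl (e ▸ H.pc_Dlt ho.1) _ (.inr ⟨e.symm, .inl rfl⟩))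
      rw [← hn]
      exact ncard_lt_ncard ((ssubset_iff_of_subset (Dlt_subset k)).2 ⟨k, hk, not_mem_Dlt k⟩)
        ((finite_on E t).subset hD.2.1)

/-- all the faces along `t` are joined to infinity -/
def Good (R : ℝ) (E : Finset Bar) (t : Bar) : Prop :=
  ∀ D (f : JJ E), Pc E t D → Inc R E f.1 t D → ReflTransGen (mp R E).FAdj f (mp R E).inf

theorem good_of (hF : FACE) (H : Sys R E) {D : Set En} (hD : Pc E t D) {f : JJ E}
    (hf : Inc R E f.1 t D) (h : ReflTransGen (mp R E).FAdj f (mp R E).inf) : Good R E t :=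
  fun D' g hD' hg =>
    ((along hF H hD.1 _ D' rfl hD' g hg).trans (symm (along hF H hD.1 _ D rfl hD f hf))).trans h

theorem good_ray (hF : FACE) (H : Sys R E) (ht : t ∈ E) (hr : t.ray = true) : Good R E t := by
  obtain ⟨i, hi⟩ := H.rays t ht hr
  exact good_of hF H (pc_Dend ht true) (f := (mp R E).inf) ⟨i, hi, rfl⟩ .refl

theorem lt_top {φ : Pt →ₗ[ℝ] ℝ} (h0 : t.d ≠ 0) (hφ : φ t.d ≠ 0) (hr : t.ray = false) {q : Pt}
    (hq : t.In q) : φ q < max (φ t.o) (φ (t.o + t.d)) := by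
  have e := Bar.fn_sub h0 φ (p := q) (q := t.o) (by rw [hq.1, Bar.ht_o])
  rw [Bar.pos_o, sub_zero] at e
  have h1 := hq.2.1
  have h2 := hq.2.2 hr
  rw [map_add, lt_max_iff]
  rcases hφ.lt_or_gt with h | h
  · left; nlinarith
  · right; nlinarith

theorem good (hF : FACE) (H : Sys R E) (ht : t ∈ E) : Good R E t := by
  obtain ⟨s, -, -, hφ⟩ := exists_gen (E := E) H.ne
  by_contra hc
  obtain ⟨w, hw, hm⟩ := exists_max_image {w | w ∈ E ∧ ¬ Good R E w}
    (fun w => max (fn s 1 w.o) (fn s 1 (w.o + w.d))) (E.finite_toSet.subset fun _ h => h.1)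
    ⟨t, ht, hc⟩
  have ray : ∀ w ∈ E, ¬ Good R E w → w.ray = false := fun w h1 h2 =>
    Bool.eq_false_iff.2 fun h => h2 (good_ray hF H h1 h)
  obtain ⟨e, he⟩ : ∃ e, fn s 1 (ep (w, e)) = max (fn s 1 w.o) (fn s 1 (w.o + w.d)) := by
    rcases max_choice (fn s 1 w.o) (fn s 1 (w.o + w.d)) with h | h
    · exact ⟨false, h.symm⟩
    · exact ⟨true, h.symm⟩
  have hj := isEnd_of_seg hw.1 (ray w hw.1 hw.2) e
  have hb : ¬ Good R E (bar E (w, e)) := fun h =>
    hw.2 (good_of hF H (pc_Dend hw.1 e) (f := fc hj) (.inl ⟨rfl, rfl⟩)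
      (h _ (fc hj) (H.pc_Dlt hj) (.inr ⟨rfl, .inl rfl⟩)))
  have h1 := lt_top (H.bar_ne0 hj) (hφ _ (H.bar_mem hj)) (ray _ (H.bar_mem hj) hb) (H.on_bar hj).2
  exact absurd (he ▸ h1) (not_lt.2 (hm _ ⟨H.bar_mem hj, hb⟩))

end TCONN

theorem t_CONN (hFACE : FACE) (hOUT : OUT) : CONN := by
  have _ := hOUT
  intro R E H f
  rcases JJ.cases R f with rfl | ⟨j, hj, rfl⟩
  · exact .refl
  · exact TCONN.good hFACE H hj.1 _ _ (pc_Dend hj.1 j.2) (.inl ⟨rfl, rfl⟩)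

end Pool.Agent.P.MP_5f84aa_co.G
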