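import Pool.Agent.P.MP_5f84aa_co.G.Bas3

/-! Removal of rungs. -/

namespace Pool.Agent.P.MP_5f84aa_co.G

open Filter Topology Set

namespace TCUT

variable {R : ℝ} {E E' : Finset Bar}

theorem on_iff (h : E' ⊆ E) {t : Bar} {j : En} : On E' t j ↔ On E t j ∧ j.1 ∈ E' :=
  ⟨fun a => ⟨⟨⟨h a.1.1, a.1.2⟩, a.2⟩, a.1.1⟩, fun a => ⟨⟨a.2, a.1.1.2⟩, a.1.2⟩⟩

theorem vis (h : E' ⊆ E) {x y : Pt} (a : Vis E x y) : Vis E' x y :=
  fun z hz w hw => a z hz w (h hw)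

theorem ce (h : E' ⊆ E) (t : Bar) (σ : Bool) (D : Set En) :
    Ce E t σ D ⊆ Ce E' t σ {j ∈ D | j.1 ∈ E'} := by
  rintro z ⟨x, κ, h1, h2⟩
  simp only [gc, mem_ofPred_eq] at h2
  refine ⟨x, κ, ⟨h1.1, fun j hj e => ?_⟩, h2.mono fun _ => vis h⟩
  obtain ⟨a, b⟩ := h1.2 j ((on_iff h).1 hj).1 e
  exact ⟨fun c => a c.1, fun c => b fun d => c ⟨d, hj.1.1⟩⟩

theorem bar_mem (H : Sys R E) (hr : ∀ s ∈ E, s ∉ E' → Rung E s) {j : En} (hj : IsEnd E j) :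
    bar E j ∈ E' := by_contra fun c => (hr _ (H.bar_mem hj) c).2.2 j (H.on_bar hj)

theorem sys (H : Sys R E) (h : E' ⊆ E) (hr : ∀ s ∈ E, s ∉ E' → Rung E s) : Sys R E' where
  pos := H.pos
  ne t ht := H.ne t (h ht)
  disj t ht w hw := H.disj t (h ht) w (h hw)
  ry_mem i := by_contra fun c => by simpa using (hr _ (H.ry_mem i) c).2.1
  rays t ht := H.rays t (h ht)
  inner t ht := H.inner t (h ht)
  ends j hj := ⟨_, bar_mem H hr ⟨h hj.1, hj.2⟩, (H.on_bar ⟨h hj.1, hj.2⟩).2⟩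

end TCUT

open TCUT in
theorem t_CUT (hVIS : VIS) (hCELL : CELL) : CUT := by
  intro R E E' H h hr
  have H' := sys H h hr
  refine ⟨H', fun t D hD ht => ⟨⟨ht, fun j hj => (on_iff h).2 ⟨hD.2.1 j hj.1, hj.2⟩,
    fun j hj k hk e => ⟨hD.2.2 j hj.1 k ((on_iff h).1 hk).1 e, hk.1.1⟩⟩, fun σ => ce h t σ D⟩,
    fun j hj => ?_, fun s hs hs' => ?_⟩
  · have hj' : IsEnd E j := ⟨h hj.1, hj.2⟩
    have e := H'.bar_eq (bar_mem H hr hj') ⟨hj, (H.on_bar hj').2⟩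
    refine ⟨e, (ce h _ _ _).trans (le_of_eq ?_), (ce h _ _ _).trans (le_of_eq ?_)⟩
    · rw [cL, e]
      exact Ce_congr fun k _ _ => by simp only [Dlt, e, on_iff h, mem_ofPred_eq]; tauto
    · rw [cR, e]
      exact Ce_congr fun k _ _ => by simp only [Dle, e, on_iff h, mem_ofPred_eq]; tauto
  · obtain ⟨-, -, r2⟩ := hr s hs hs'
    have hx : s.Rg (1 / 2) := ⟨by norm_num, fun _ => by norm_num⟩
    have hz : Off E' (s.pt (1 / 2) 0) := H'.off_iff.2 fun t ht c =>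
      hs' (H.disj t (h ht) s hs _ c ((Bar.in_pt (H.ne s hs)).2 hx) ▸ ht)
    have hc : IsCell E' {y | Vis E' (s.pt (1 / 2) 0) y} := ⟨_, hz, rfl⟩
    refine ⟨_, hc, fun σ y hy => ?_⟩
    obtain ⟨c1, -, -, c2, -⟩ := hCELL R E H s ∅ (pc_empty hs) σ
    obtain ⟨ε, h1, h2⟩ := ((c2 (1 / 2) 0 ⟨hx, fun j hj => absurd hj (r2 j)⟩).2.and
      ((s.tendsto_gp σ _ 0).eventually (((hVIS R E' H').2 _ hc).1.mem_nhds hz.vis))).exists
    exact (hVIS R E' H').1 _ _ _ h2 (vis h ((((hVIS R E H).2 _ c1).2.2.2.2.1 _ h1 y).2 hy))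

end Pool.Agent.P.MP_5f84aa_co.G
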