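import Pool.Agent.P.MP_5f84aa_co.G.Bas3

/-! Unions of cells joined by rungs. -/

namespace Pool.Agent.P.MP_5f84aa_co.G

open Filter Topology Set

namespace TMERGE

variable {R : ℝ} {E : Finset Bar}

/-- the rungs of `ρ` -/
def Rem (R : ℝ) (ρ : Set (JJ E)) (s : Bar) : Prop :=
  ∃ k ∈ ρ, ∃ k', (mp R E).far k k' ∧ ∃ e, Rung E s ∧ k.1 = some (s, e) ∧ k'.1 = some (s, !e)

/-- `c` is the cell of `E'` that contains `u` -/
def Sub (E' : Finset Bar) (u : VV R E) (c : Set Pt) : Prop := IsCell E' c ∧ u.1 ⊆ c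

theorem cor_rung (hSTEM : STEM) (H : Sys R E) {s : Bar} {e : Bool} {k : JJ E} (hs : Rung E s)
    (hk : k.1 = some (s, e)) (v : VV R E) : (mp R E).cor k v ↔ ∃ σ, v.1 = Ce E s σ ∅ := by
  have h : IsEnd E (s, e) := k.2 _ hk
  obtain rfl : k = fc h := Subtype.ext hk
  have hp := hSTEM R E H _ h
  rw [hs.Dend] at hp
  rw [cor_fc, Bool.exists_bool]
  rcases hp with ⟨h1, h2⟩ | ⟨h1, h2⟩
  · rw [h1, h2, or_comm]
  · rw [h1, h2]

theorem exists_sub (hFACE : FACE) (H : Sys R E) {E' : Finset Bar} (h : E' ⊆ E) (v : VV R E) :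
    ∃ c, Sub E' v c := by
  obtain ⟨x, hx, e⟩ := (hFACE R E H).2.2.2.2.2.2 v
  exact ⟨_, ⟨x, fun w hw => hx w (h hw), rfl⟩, fun y hy z hz w hw => (e.le hy) z hz w (h hw)⟩

theorem sub_uniq (hVIS : VIS) (hFACE : FACE) (H : Sys R E) {E' : Finset Bar} (H' : Sys R E')
    {v : VV R E} {c c' : Set Pt} (h : Sub E' v c) (h' : Sub E' v c') : c = c' := by
  obtain ⟨x, hx⟩ := ((hVIS R E H).2 _ ((hFACE R E H).2.2.2.2.2.2 v)).2.2.1
  exact ((hVIS R E' H').2 c h.1).2.2.2.2.2 c' h'.1 x (h.2 hx) (h'.2 hx)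

end TMERGE

open TMERGE in
theorem t_MERGE (hVIS : VIS) (hCELL : CELL) (hSTEM : STEM) (hUNIQ : UNIQ) (hFACE : FACE)
    (hFAR : FAR) (hSIDE : SIDE) (hCUT : CUT) : MERGE := by
  classical
  intro R E H ρ
  obtain ⟨E', hE⟩ : ∃ E' : Finset Bar, ∀ s, s ∈ E' ↔ s ∈ E ∧ ¬ Rem R ρ s :=
    ⟨E.filter fun s => ¬ Rem R ρ s, fun s => Finset.mem_filter⟩
  have sub : E' ⊆ E := fun s hs => ((hE s).1 hs).1
  have rem : ∀ s ∈ E, s ∉ E' → Rem R ρ s := fun s hs h => by_contra fun hc => h ((hE s).2 ⟨hs, hc⟩)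
  obtain ⟨H', c2, c3, c4⟩ := hCUT R E E' H sub fun s hs h => by
    obtain ⟨_, -, _, -, _, h, -⟩ := rem s hs h
    exact h
  have uq : ∀ {v : VV R E} {c c' : Set Pt}, Sub E' v c → Sub E' v c' → c = c' :=
    sub_uniq hVIS hFACE H H'
  have sym : ∀ {u v}, (mp R E).RC ρ u v → (mp R E).RC ρ v u := fun {u v} h => by
    induction h with
    | refl => exact .refl
    | tail _ h ih =>
      obtain ⟨j, hj, j', h1, h2, h3⟩ := h
      exact .head ⟨j, hj, j', h1, h3, h2⟩ ih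
  have rc : ∀ {u v c}, (mp R E).RC ρ u v → Sub E' u c → Sub E' v c := fun {u v c} h hu => by
    induction h with
    | refl => exact hu
    | tail _ h ih =>
      obtain ⟨k, hk, k', h1, h2, h3⟩ := h
      obtain ⟨s, e, hs, e1, e2⟩ := (hFAR R E H k k').1 h1
      obtain ⟨c0, hc, hc'⟩ := c4 s hs.1 fun h => ((hE s).1 h).2 ⟨k, hk, k', h1, e, hs, e1, e2⟩
      obtain ⟨σ, h2⟩ := (cor_rung hSTEM H hs e1 _).1 h2
      obtain ⟨τ, h3⟩ := (cor_rung hSTEM H hs e1 _).1 h3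
      rw [uq ih ⟨hc, h2 ▸ hc' σ⟩]
      exact ⟨hc, h3 ▸ hc' τ⟩
  have piece : ∀ {u v}, (mp R E).Adj u v →
      (∃ j ∈ ρ, ∃ j', (mp R E).far j j' ∧ (mp R E).cor j u ∧ (mp R E).cor j v) ∨
      ∃ D σ, Pc E' ((mp R E).ln u v) D ∧ Sub E' u (Ce E' ((mp R E).ln u v) σ D) ∧
        Sub E' v (Ce E' ((mp R E).ln u v) (!σ) D) := fun {u v} h => by
    obtain ⟨t, D, hp, hq⟩ := ((hFACE R E H).2.2.2.2.1 u v).1 h
    rw [(hFACE R E H).2.2.2.2.2.1 u v t D hp hq]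
    obtain ⟨σ, h1, h2⟩ := pair_iff.1 hq
    by_cases ht : t ∈ E'
    · obtain ⟨a, b⟩ := c2 t D hp ht
      exact .inr ⟨_, σ, a, ⟨(hCELL R E' H' t _ a _).1, h1 ▸ b _⟩,
        (hCELL R E' H' t _ a _).1, h2 ▸ b _⟩
    · obtain ⟨k, hk, k', hf, e, hs, e1, -⟩ := rem t hp.1 ht
      obtain rfl : D = ∅ := eq_empty_of_forall_notMem fun j hj => hs.2.2 j (hp.2.1 j hj)
      exact .inl ⟨k, hk, k', hf, (cor_rung hSTEM H hs e1 _).2 ⟨_, h1⟩,
        (cor_rung hSTEM H hs e1 _).2 ⟨_, h2⟩⟩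
  refine ⟨fun v u => ?_, fun u u' v v' hu hv ha ha' hn => ?_, fun u v h ha => ?_⟩
  · obtain ⟨c, hc⟩ := exists_sub hFACE H sub v
    refine (ncard_le_ncard_of_injOn (fun j : JJ E => j.1.getD default) ?_ ?_
      ((finite_ends E').subset fun _ h => h.1)).trans (hSIDE R E' H' c u)
    · rintro f ⟨h0, h1, ⟨w, hw, h2⟩, h3⟩
      obtain ⟨⟨s, e⟩, h, rfl⟩ := (JJ.cases R f).resolve_left h0
      have hs : IsEnd E' (s, e) := ⟨by_contra fun hn => by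
        obtain ⟨k, hk, k', hf, e', -, e1, e2⟩ := rem s h.1 hn
        refine h1 ⟨k, hk, k', hf, ?_⟩
        simp only [Subtype.ext_iff, e1, e2, fc_val]
        cases e <;> cases e' <;> simp, h.2⟩
      obtain ⟨a1, a2, a3⟩ := c3 _ hs
      exact ⟨hs, ((cor_fc h w).1 h2).imp
        (fun e => uq (rc hw hc) ⟨(hCELL R E' H' _ _ (H'.pc_Dlt hs) _).1, e.le.trans a2⟩)
        fun e => uq (rc hw hc) ⟨(hCELL R E' H' _ _ (H'.pc_Dle hs) _).1, e.le.trans a3⟩,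
        h3.imp_right fun e => a1.trans e⟩
    · intro f hf g hg e
      obtain ⟨j, h, rfl⟩ := (JJ.cases R f).resolve_left hf.1
      obtain ⟨k, h', rfl⟩ := (JJ.cases R g).resolve_left hg.1
      exact fc_inj.2 e
  · obtain ⟨D, σ, p, a, b⟩ := (piece ha).resolve_left fun h => hn (.single h)
    obtain ⟨D', σ', p', a', b'⟩ := (piece ha').resolve_left fun h =>
      hn ((hu.tail h).trans (sym hv))
    exact (hUNIQ R E' H' _ _ _ _ _ _ p p' (pair_self _ σ D)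
      (pair_iff.2 ⟨σ', uq (rc hu a) a', uq (rc hv b) b'⟩)).1
  · refine (piece ha).resolve_right fun ⟨D, σ, p, a, b⟩ => ?_
    obtain ⟨z, hz⟩ := ((hVIS R E' H').2 _ a.1).2.2.1
    have h1 := (hCELL R E' H' _ _ p σ).2.2.2.2 z hz
    have h2 := (hCELL R E' H' _ _ p (!σ)).2.2.2.2 z (uq (rc h a) b ▸ hz)
    simpa using sg_eq h1 h2

end Pool.Agent.P.MP_5f84aa_co.G
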