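import Pool.Agent.P.MP_5f84aa_co.G.Map2
import Pool.Agent.P.MP_5f84aa_co.G.TMERGE
import Pool.Agent.P.MP_5f84aa_co.G.TCUT

/-! The contraction of rungs. -/

namespace Pool.Agent.P.MP_5f84aa_co.G

open Filter Topology Set

/-- removal of rungs is a contraction of the map -/
def CONTR : Prop := ∀ R E, Sys R E → ∀ ρ : Set (JJ E), ∃ E', Sys R E' ∧
  ∃ π ι, (mp R E).Contr ρ (mp R E') π ι

namespace TCONTR

open TMERGE

variable {R : ℝ} {E E' : Finset Bar}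

/-- a segment which avoids the remaining bars joins cells of a chain of rungs -/
theorem chain (hVIS : VIS) (hPERT : PERT) (H : Sys R E) (H' : Sys R E')
    (hr : ∀ s ∈ E, s ∉ E' → Rung E s) {r : Set Pt → Set Pt → Prop}
    (hs : ∀ s ∈ E, s ∉ E' → ∀ σ, r (Ce E s σ ∅) (Ce E s (!σ) ∅)) (hC : CELL) (n : ℕ) :
    ∀ x y, Vis E' x y → {s | s ∈ E ∧ ∃ z ∈ segment ℝ x y, s.Cl z}.ncard ≤ n →
      ∀ u v, IsCell E u → IsCell E v → x ∈ u → y ∈ v → Relation.ReflTransGen r u v := by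
  have fin : ∀ x y : Pt, {s | s ∈ E ∧ ∃ z ∈ segment ℝ x y, s.Cl z}.Finite := fun x y =>
    E.finite_toSet.subset fun _ h => h.1
  have base : ∀ x y, Vis E x y → ∀ u v, IsCell E u → IsCell E v → x ∈ u → y ∈ v → u = v :=
    fun x y h u v hu hv hx hy => ((hVIS R E H).2 u hu).2.2.2.2.2 v hv y
      ((((hVIS R E H).2 u hu).2.2.2.2.1 x hx y).1 h) hy
  induction n with
  | zero =>
    intro x y _ hn u v hu hv hx hy
    rw [base x y (fun z hz w hw hc => ?_) u v hu hv hx hy]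
    have := (ncard_eq_zero (fin x y)).1 (Nat.le_zero.1 hn)
    exact (this ▸ (⟨hw, z, hz, hc⟩ : w ∈ {s | s ∈ E ∧ ∃ z ∈ segment ℝ x y, s.Cl z}) : w ∈ (∅ : Set Bar))
  | succ n ih =>
    intro x y hv' hn u v hu hv hx hy
    by_cases h0 : Vis E x y
    · rw [base x y h0 u v hu hv hx hy]
    simp only [Vis, Off, not_forall, not_not] at h0
    obtain ⟨z, hz, s, hs1, hc⟩ := h0
    have hs2 : s ∉ E' := fun h => hv' z hz s h hc
    have rg := hr s hs1 hs2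
    have ends : ∀ e, ep (s, e) ∉ segment ℝ x y := fun e h =>
      hv' _ h _ (TCUT.bar_mem H hr (isEnd_of_seg hs1 rg.2.1 e)) (H.on_bar (isEnd_of_seg hs1 rg.2.1 e)).2.cl
    have hin : s.In z := (H.cl_cases hs1 hc).resolve_right fun ⟨e, _, h⟩ => ends e (h ▸ hz)
    have ox := ((hVIS R E H).2 u hu).2.2.2.1 x hx
    have oy := ((hVIS R E H).2 v hv).2.2.2.1 y hy
    have hx0 : s.ht x ≠ 0 := fun h => by
      obtain ⟨e, -, he⟩ := H.end_between hs1 hin h fun h' => ox s hs1 h'.cl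
      exact ends e ((convex_segment x y).segment_subset hz (left_mem_segment _ _ _) he)
    have hy0 : s.ht y ≠ 0 := fun h => by
      obtain ⟨e, -, he⟩ := H.end_between hs1 hin h fun h' => oy s hs1 h'.cl
      exact ends e ((convex_segment x y).segment_subset hz (right_mem_segment _ _ _) he)
    obtain ⟨σ, hσ⟩ : ∃ σ, 0 < sg σ * s.ht x := by
      rcases hx0.lt_or_gt with h | h
      · exact ⟨false, by simpa using h⟩
      · exact ⟨true, by simpa using h⟩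
    have hσ' : 0 < sg (!σ) * s.ht y := by
      obtain ⟨a, b, ha, hb, hab, rfl⟩ := hz
      have h1 := hin.1
      rw [s.ht_comb hab] at h1
      have h2 : a * (sg σ * s.ht x) + b * (sg σ * s.ht y) = 0 := by linear_combination sg σ * h1
      have h3 : sg σ * s.ht y ≠ 0 := mul_ne_zero (sg_ne σ) hy0
      rw [sg_not, neg_mul, neg_pos]
      rcases h3.lt_or_gt with h | h
      · exact h
      · have := mul_nonneg ha hσ.le
        have := mul_nonneg hb h.le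
        have a0 : a = 0 := by nlinarith
        have b0 : b = 0 := by nlinarith
        linarith
    have half : ∀ τ p, 0 < sg τ * s.ht p → ∃ q ∈ segment ℝ z p, q ∈ Ce E s τ ∅ ∧
        ∀ w ∈ segment ℝ p q, ¬ s.Cl w := fun τ p hp => by
      have h1 := (hPERT R E H s ∅ (s.pos z) (pc_empty hs1) ⟨hin.2, fun j hj => absurd hj (rg.2.2 j)⟩
        (fun j hj => absurd hj (rg.2.2 j)) τ).1
      rw [← Bar.In.eq_pt (H.ne s hs1) hin.1] at h1
      have h2 : Tendsto (fun a : ℝ => (1 - a) • z + a • p) (𝓝[>] 0) (𝓝 z) := by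
        have : ContinuousAt (fun a : ℝ => (1 - a) • z + a • p) 0 := by fun_prop
        simpa using this.tendsto.mono_left nhdsWithin_le_nhds
      obtain ⟨a, h3, h4, h5⟩ := ((h2.eventually h1).and (ev_pos.and (ev_lt one_pos))).exists
      have h6 : 0 < sg τ * s.ht ((1 - a) • z + a • p) := by
        rw [s.ht_comb (by ring), hin.1]; nlinarith [mul_pos h4 hp]
      refine ⟨_, ⟨_, _, by linarith, h4.le, by ring, rfl⟩, h3 h6, ?_⟩
      rintro _ ⟨c, d, hc, hd, hcd, rfl⟩ h7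
      have h8 := h7.1
      rw [s.ht_comb hcd] at h8
      have h9 : c * (sg τ * s.ht p) + d * (sg τ * s.ht ((1 - a) • z + a • p)) = 0 := by
        linear_combination sg τ * h8
      have := mul_nonneg hc hp.le
      have := mul_nonneg hd h6.le
      have a0 : c = 0 := by nlinarith
      have b0 : d = 0 := by nlinarith
      linarith
    have step : ∀ τ p, p ∈ segment ℝ x y → 0 < sg τ * s.ht p → ∃ q ∈ Ce E s τ ∅,
        Vis E' p q ∧ {s | s ∈ E ∧ ∃ z ∈ segment ℝ p q, s.Cl z}.ncard ≤ n := fun τ p hp h => by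
      obtain ⟨q, q1, q2, q3⟩ := half τ p h
      have sub : segment ℝ p q ⊆ segment ℝ x y := (convex_segment x y).segment_subset hp
        ((convex_segment x y).segment_subset hz hp q1)
      refine ⟨q, q2, fun w hw => hv' w (sub hw), Nat.le_of_lt_succ (lt_of_lt_of_le
        (ncard_lt_ncard (ssubset_def ▸ And.intro
          (fun t h => ⟨h.1, h.2.imp fun w h => ⟨sub h.1, h.2⟩⟩) fun h' => ?_) (fin x y)) hn)⟩
      obtain ⟨-, w, h2, h3⟩ := h' (⟨hs1, z, hz, hc⟩ : s ∈ {s | s ∈ E ∧ ∃ z ∈ segment ℝ x y, s.Cl z})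
      exact q3 w h2 h3
    obtain ⟨q, q1, q2, q3⟩ := step σ x (left_mem_segment _ _ _) hσ
    obtain ⟨q', q1', q2', q3'⟩ := step (!σ) y (right_mem_segment _ _ _) hσ'
    rw [segment_symm] at q3'
    exact ((ih x q q2 q3 u _ hu (hC R E H s ∅ (pc_empty hs1) σ).1 hx q1).tail (hs s hs1 hs2 σ)).trans
      (ih q' y q2'.symm q3' _ v (hC R E H s ∅ (pc_empty hs1) (!σ)).1 hv q1' hy)

end TCONTR

open TMERGE TCONTR in
theorem t_CONTR (hVIS : VIS) (hCELL : CELL) (hSTEM : STEM) (hFACE : FACE)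
    (hFAR : FAR) (hCUT : CUT) (hPERT : PERT) : CONTR := by
  classical
  intro R E H ρ
  obtain ⟨E', hE⟩ : ∃ E' : Finset Bar, ∀ s, s ∈ E' ↔ s ∈ E ∧ ¬ Rem R ρ s :=
    ⟨E.filter fun s => ¬ Rem R ρ s, fun s => Finset.mem_filter⟩
  have sub : E' ⊆ E := fun s hs => ((hE s).1 hs).1
  have rem : ∀ s ∈ E, s ∉ E' → Rem R ρ s := fun s hs h => by_contra fun hc => h ((hE s).2 ⟨hs, hc⟩)
  have hr : ∀ s ∈ E, s ∉ E' → Rung E s := fun s hs h => by
    obtain ⟨_, -, _, -, _, h, -⟩ := rem s hs h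
    exact h
  obtain ⟨H', c2, c3, c4⟩ := hCUT R E E' H sub hr
  have uq : ∀ {v : VV R E} {c c' : Set Pt}, Sub E' v c → Sub E' v c' → c = c' :=
    sub_uniq hVIS hFACE H H'
  obtain ⟨-, -, -, f4, f5, f6, f7⟩ := hFACE R E H
  obtain ⟨-, -, -, g4, g5, g6, g7⟩ := hFACE R E' H'
  have pv : ∀ t D, Pc E' t D → ∀ σ, ∃ v' : VV R E', v'.1 = Ce E' t σ D := fun t D h σ => by
    obtain ⟨u, v, -, h1, h2⟩ := (g4 t D h).2
    cases σ
    · exact ⟨v, h2⟩
    · exact ⟨u, h1⟩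
  have pcs : ∀ {t D σ} {v : VV R E}, Pc E t D → v.1 = Ce E t σ D → t ∈ E' →
      Sub E' v (Ce E' t σ {j ∈ D | j.1 ∈ E'}) := fun {t D σ v} h e ht =>
    ⟨(hCELL R E' H' t _ (c2 t D h ht).1 σ).1, e ▸ (c2 t D h ht).2 σ⟩
  have ex : ∀ v : VV R E, ∃ v' : VV R E', Sub E' v v'.1 := fun v => by
    obtain ⟨f, hf⟩ := exists_has v
    have : ∃ t D σ, Pc E t D ∧ t ∈ E' ∧ v.1 = Ce E t σ D := by
      rcases JJ.cases R f with rfl | ⟨j, hj, rfl⟩
      · obtain ⟨i, hi⟩ := (has_inf v).1 hf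
        exact ⟨_, _, _, pc_empty (H.ry_mem i), H'.ry_mem i, hi⟩
      · rcases (has_fc hj v).1 hf with e | e | e
        · exact ⟨_, _, _, H.pc_Dlt hj, TCUT.bar_mem H hr hj, e⟩
        · exact ⟨_, _, _, H.pc_Dle hj, TCUT.bar_mem H hr hj, e⟩
        · exact ⟨_, _, _, H.pc_Dlt hj, TCUT.bar_mem H hr hj, e⟩
    obtain ⟨t, D, σ, h1, h2, h3⟩ := this
    obtain ⟨v', hv'⟩ := pv t _ (c2 t D h1 h2).1 σ
    exact ⟨v', hv' ▸ pcs h1 h3 h2⟩
  choose π hπ using ex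
  have pe : ∀ {v : VV R E} {v' : VV R E'}, v.1 ⊆ v'.1 → v' = π v := fun {v v'} h =>
    Subtype.ext (uq ⟨g7 v', h⟩ (hπ v))
  let ι : JJ E' → JJ E := fun f => ⟨f.1, fun j h => ⟨sub (f.2 j h).1, (f.2 j h).2⟩⟩
  have hh' : ∀ i, hh R E i ⊆ hh R E' i := fun i => by simpa [hh] using TCUT.ce sub (ry R i) false ∅
  have hL : ∀ j, (mp R E').L j = π ((mp R E).L (ι j)) := fun f => pe (by
    rcases JJ.cases R f with rfl | ⟨j, hj, rfl⟩
    · exact hh' 0
    · exact (c3 j hj).2.1)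
  have hR : ∀ j, (mp R E').R j = π ((mp R E).R (ι j)) := fun f => pe (by
    rcases JJ.cases R f with rfl | ⟨j, hj, rfl⟩
    · exact hh' 1
    · exact (c3 j hj).2.2)
  have hX : ∀ j, (mp R E').X j = π ((mp R E).X (ι j)) := fun f => pe (by
    rcases JJ.cases R f with rfl | ⟨j, hj, rfl⟩
    · exact hh' 2
    · refine (TCUT.ce sub _ _ _).trans (le_of_eq ?_)
      have e := (c3 j hj).1
      change _ = cX E' j
      rw [cX, e]
      exact Ce_congr fun k _ _ => by simp only [Dlt, e, TCUT.on_iff sub, mem_ofPred_eq]; tauto)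
  refine ⟨E', H', π, ι, fun v' => ?_, fun u v => ⟨fun h => ?_, fun h => ?_⟩,
    fun f g h => Subtype.ext (congrArg Subtype.val h :), fun f => ⟨?_, fun h => ?_⟩, rfl, hL, hR, hX,
    fun _ => rfl, fun f => ?_, fun u v h hne => ?_⟩
  · obtain ⟨f, h | h | h⟩ := exists_has v'
    · exact ⟨_, (h.trans (hL f)).symm⟩
    · exact ⟨_, (h.trans (hR f)).symm⟩
    · exact ⟨_, (h.trans (hX f)).symm⟩
  · obtain ⟨x, hx⟩ := ((hVIS R E H).2 _ (f7 u)).2.2.1
    obtain ⟨y, hy⟩ := ((hVIS R E H).2 _ (f7 v)).2.2.1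
    have hv : Vis E' x y := (((hVIS R E' H').2 _ (g7 (π u))).2.2.2.2.1 x ((hπ u).2 hx) y).2
      (h ▸ (hπ v).2 hy)
    have key := chain hVIS hPERT H H' hr (r := fun a b => ∃ a' b' : VV R E, a'.1 = a ∧ b'.1 = b ∧
      ∃ j ∈ ρ, ∃ j', (mp R E).far j j' ∧ (mp R E).cor j a' ∧ (mp R E).cor j b') (fun s hs hs' σ => by
        obtain ⟨k, hk, k', hf, e, h1, e1, -⟩ := rem s hs hs'
        obtain ⟨a, b, -, h2, h3⟩ := (f4 s ∅ (pc_empty hs)).2
        cases σ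
        · exact ⟨b, a, h3, h2, k, hk, k', hf, (cor_rung hSTEM H h1 e1 _).2 ⟨_, h3⟩,
            (cor_rung hSTEM H h1 e1 _).2 ⟨_, h2⟩⟩
        · exact ⟨a, b, h2, h3, k, hk, k', hf, (cor_rung hSTEM H h1 e1 _).2 ⟨_, h2⟩,
            (cor_rung hSTEM H h1 e1 _).2 ⟨_, h3⟩⟩) hCELL _ x y hv le_rfl _ _ (f7 u) (f7 v) hx hy
    have : ∀ b, Relation.ReflTransGen (fun a b => ∃ a' b' : VV R E, a'.1 = a ∧ b'.1 = b ∧
        ∃ j ∈ ρ, ∃ j', (mp R E).far j j' ∧ (mp R E).cor j a' ∧ (mp R E).cor j b') u.1 b →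
        ∀ v : VV R E, v.1 = b → (mp R E).RC ρ u v := fun b hb => by
      induction hb with
      | refl => intro v e; rw [Subtype.ext e]; exact .refl
      | tail _ h ih =>
        intro v e
        obtain ⟨a', b', e1, e2, h⟩ := h
        rw [show v = b' from Subtype.ext (e.trans e2.symm)]
        exact (ih a' e1).tail h
    exact this _ key v rfl
  · induction h with
    | refl => rfl
    | tail _ h ih =>
      obtain ⟨k, hk, k', h1, h2, h3⟩ := h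
      obtain ⟨s, e, hs, e1, e2⟩ := (hFAR R E H k k').1 h1
      obtain ⟨c0, hc, hc'⟩ := c4 s hs.1 fun h => ((hE s).1 h).2 ⟨k, hk, k', h1, e, hs, e1, e2⟩
      obtain ⟨σ, h2⟩ := (cor_rung hSTEM H hs e1 _).1 h2
      obtain ⟨τ, h3⟩ := (cor_rung hSTEM H hs e1 _).1 h3
      rw [ih]
      exact Subtype.ext ((uq (hπ _) ⟨hc, h2 ▸ hc' σ⟩).trans (uq ⟨hc, h3 ▸ hc' τ⟩ (hπ _)))
  · rintro ⟨f', rfl⟩ ⟨k, hk, k', hf, h⟩
    obtain ⟨s, e, hs, e1, e2⟩ := (hFAR R E H k k').1 hf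
    have : s ∈ E' := by
      rcases h with h | h
      · exact (f'.2 _ ((congrArg Subtype.val h).trans e1)).1
      · exact (f'.2 _ ((congrArg Subtype.val h).trans e2)).1
    exact ((hE s).1 this).2 ⟨k, hk, k', hf, e, hs, e1, e2⟩
  · refine ⟨⟨f.1, fun j hj => ⟨by_contra fun hn => ?_, (f.2 j hj).2⟩⟩, rfl⟩
    obtain ⟨k, hk, k', hf, e', -, e1, e2⟩ := rem _ (f.2 j hj).1 hn
    refine h ⟨k, hk, k', hf, ?_⟩
    obtain ⟨s, e⟩ := j
    simp only [Subtype.ext_iff, e1, e2, hj]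
    cases e <;> cases e' <;> simp
  · rcases JJ.cases R f with rfl | ⟨j, hj, rfl⟩
    · rfl
    · exact (c3 j hj).1
  · obtain ⟨t, D, hp, hq⟩ := (f5 u v).1 h
    rw [f6 u v t D hp hq]
    obtain ⟨σ, h1, h2⟩ := pair_iff.1 hq
    have ht : t ∈ E' := by
      by_contra ht
      obtain rfl : D = ∅ := eq_empty_of_forall_notMem fun j hj => (hr t hp.1 ht).2.2 j (hp.2.1 j hj)
      obtain ⟨c0, hc, hc'⟩ := c4 t hp.1 ht
      exact hne (Subtype.ext ((uq (hπ _) ⟨hc, h1 ▸ hc' _⟩).trans (uq ⟨hc, h2 ▸ hc' _⟩ (hπ _))))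
    have pr : Pair E' (π u).1 (π v).1 t {j ∈ D | j.1 ∈ E'} :=
      pair_iff.2 ⟨σ, uq (hπ u) (pcs hp h1 ht), uq (hπ v) (pcs hp h2 ht)⟩
    exact ⟨(g5 _ _).2 ⟨_, _, (c2 t D hp ht).1, pr⟩, g6 _ _ _ _ (c2 t D hp ht).1 pr⟩

end Pool.Agent.P.MP_5f84aa_co.G
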