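import Pool.Agent.P.MP_5f84aa_co.G.Bas3

/-! The convex corner at the highest point. -/

namespace Pool.Agent.P.MP_5f84aa_co.G

open Filter Topology Set

namespace TCORNER

variable {R : ℝ} {E : Finset Bar} {t : Bar} {x : ℝ} {P : Set En → Prop} {j : En}

theorem up (H : Sys R E) (ht : t ∈ E) (hP : ∀ D y, Pc E t D → P D → Fit E t D y → y ≤ x)
    (hj : On E t j) (hx : t.pos (ep j) = x) (h : P (Dlt E j) ∨ P (Dle E j)) :
    ∃ k, On E t k ∧ t.pos (ep k) = x ∧ P (Dlt E k) ∧ ¬ P (Dle E k) := by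
  have B : ∀ k, On E t k → t.pos (ep k) = x → P (Dle E k) →
      ∃ l, (On E t l ∧ t.pos (ep l) = x ∧ P (Dlt E l)) ∧ t.key k < t.key l := fun k hk e h => by
    have h1 := H.pc_Dle hk.1
    have h2 := fit_Dle H hk.1
    rw [H.bar_eq ht hk] at h1 h2
    rw [e] at h2
    rcases H.hi h1 with h3 | ⟨l, l1, l2, l3⟩
    · obtain ⟨a, a1, a2⟩ := ((Bar.ev_rg h2.1 1).and self_mem_nhdsWithin).exists
      have a3 : 0 < a := a2
      have := hP _ _ h1 h ⟨a1, fun i hi => ⟨fun hd => by linarith [(h2.2 i hi).1 hd],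
        fun hd => absurd (by rw [h3]; exact ⟨hi, rfl⟩) hd⟩⟩
      linarith
    · have h4 := H.pc_Dlt l2.1
      have h5 := fit_Dlt H l2.1
      rw [H.bar_eq ht l2] at h4 h5
      exact ⟨l, ⟨l2, le_antisymm (hP _ _ h4 (l3 ▸ h) h5) ((h2.2 l l2).2 l1), l3 ▸ h⟩,
        h1.key_lt (H.mem_Dle_self hk.1) l2 l1⟩
  obtain ⟨k, hk, hm⟩ := exists_max_image {k | On E t k ∧ t.pos (ep k) = x ∧ P (Dlt E k)} t.key
    ((finite_on E t).subset fun _ h => h.1)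
    (h.elim (fun h => ⟨j, hj, hx, h⟩) fun h => (B j hj hx h).imp fun _ h => h.1)
  refine ⟨k, hk.1, hk.2.1, hk.2.2, fun h => ?_⟩
  obtain ⟨l, l1, l2⟩ := B k hk.1 hk.2.1 h
  exact (hm l l1).not_gt l2

theorem down (H : Sys R E) (ht : t ∈ E) (hP : ∀ D y, Pc E t D → P D → Fit E t D y → x ≤ y)
    (hj : On E t j) (hx : t.pos (ep j) = x) (h : P (Dlt E j) ∨ P (Dle E j)) :
    ∃ k, On E t k ∧ t.pos (ep k) = x ∧ P (Dle E k) ∧ ¬ P (Dlt E k) := by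
  have B : ∀ k, On E t k → t.pos (ep k) = x → P (Dlt E k) →
      ∃ l, (On E t l ∧ t.pos (ep l) = x ∧ P (Dle E l)) ∧ t.key l < t.key k := fun k hk e h => by
    have h1 := H.pc_Dlt hk.1
    have h2 := fit_Dlt H hk.1
    rw [H.bar_eq ht hk] at h1 h2
    rw [e] at h2
    rcases H.lo h1 with h3 | ⟨l, l1, l2, l3⟩
    · obtain ⟨a, a1, a2⟩ := ((Bar.ev_rg h2.1 (-1)).and self_mem_nhdsWithin).exists
      have a3 : 0 < a := a2
      have := hP _ _ h1 h ⟨a1, fun i hi => ⟨fun hd => absurd (h3 ▸ hd) (notMem_empty i),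
        fun hd => by linarith [(h2.2 i hi).2 hd]⟩⟩
      linarith
    · have h4 := H.pc_Dle l2.1
      have h5 := fit_Dle H l2.1
      rw [H.bar_eq ht l2] at h4 h5
      exact ⟨l, ⟨l2, le_antisymm ((h2.2 l l2).1 l1) (hP _ _ h4 (l3 ▸ h) h5), l3 ▸ h⟩,
        h1.key_lt l1 hk (not_mem_Dlt k)⟩
  obtain ⟨k, hk, hm⟩ := exists_min_image {k | On E t k ∧ t.pos (ep k) = x ∧ P (Dle E k)} t.key
    ((finite_on E t).subset fun _ h => h.1)
    (h.elim (fun h => (B j hj hx h).imp fun _ h => h.1) fun h => ⟨j, hj, hx, h⟩)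
  refine ⟨k, hk.1, hk.2.1, hk.2.2, fun h => ?_⟩
  obtain ⟨l, l1, l2⟩ := B k hk.1 hk.2.1 h
  exact (hm l l1).not_gt l2

theorem side (σ τ : Bool) : σ = τ ∨ σ = !τ := by cases σ <;> cases τ <;> simp

end TCORNER

open TCORNER in
theorem t_CORNER (hVIS : VIS) (hCELL : CELL) (hCLIMB : CLIMB) : CORNER := by
  intro R E H φ hφ K ⟨c, hc⟩ hK
  obtain ⟨z, hz⟩ := ((hVIS R E H).2 c (hK c hc).1).2.2.1
  obtain ⟨j, ⟨j1, j2⟩, hm⟩ := exists_max_image {j | IsEnd E j ∧ (cL E j ∈ K ∨ cR E j ∈ K)}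
    (fun j => φ (ep j)) ((finite_ends E).subset fun _ h => h.1) (by
      obtain ⟨j, h1, h2, -⟩ := hCLIMB R E H φ hφ c (hK c hc).1 (hK c hc).2 z hz
      exact ⟨j, h1, h2.imp (fun e => by rwa [← e]) fun e => by rwa [← e]⟩)
  have top : ∀ c ∈ K, ∀ x ∈ c, φ x < φ (ep j) := fun c hc x hx => by
    obtain ⟨k, h1, h2, h3⟩ := hCLIMB R E H φ hφ c (hK c hc).1 (hK c hc).2 x hx
    exact h3.trans_le (hm k ⟨h1, h2.imp (fun e => by rwa [← e]) fun e => by rwa [← e]⟩)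
  have ht := H.bar_mem j1
  have hj := H.on_bar j1
  have hd := H.ne _ ht
  have h0 : (∃ σ, Ce E (bar E j) σ (Dlt E j) ∈ K) ∨ ∃ σ, Ce E (bar E j) σ (Dle E j) ∈ K :=
    j2.imp (⟨_, ·⟩) (⟨_, ·⟩)
  generalize bar E j = t at ht hj hd h0
  have A : ∀ D y, Pc E t D → (∃ σ, Ce E t σ D ∈ K) → Fit E t D y →
      (y - t.pos (ep j)) * φ t.d ≤ 0 := fun D y hD ⟨σ, h⟩ hy => by
    have h1 : φ (t.pt y 0) ≤ φ (ep j) := closure_minimal (t := {x | φ x ≤ φ (ep j)})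
      (fun x hx => (top _ h x hx).le)
      (isClosed_le φ.continuous_of_finiteDimensional continuous_const)
      ((hCELL R E H t D hD σ).2.2.1 y hy).2
    have h2 := Bar.fn_sub hd φ (p := t.pt y 0) (q := ep j) (by rw [Bar.ht_pt hd, hj.2.1])
    rw [Bar.pos_pt hd] at h2
    linarith
  have val : ∀ k, On E t k → t.pos (ep k) = t.pos (ep j) → φ (ep k) = φ (ep j) := fun k hk e => by
    rw [← sub_eq_zero, Bar.fn_sub hd φ (hk.2.1.trans hj.2.1.symm), e, sub_self, zero_mul]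
  rcases (hφ t ht).lt_or_gt with h | h
  · obtain ⟨k, k1, k2, ⟨σ, k3⟩, k4⟩ := down (P := fun D => ∃ σ, Ce E t σ D ∈ K) H ht
      (fun D y h1 h2 h3 => by nlinarith [A D y h1 h2 h3]) hj rfl h0
    have hX : cX E k ∉ K := fun e => k4 ⟨_, H.cX_eq_lt ht k1 ▸ e⟩
    refine ⟨k, k1.1, hX, .inr ⟨?_, fun e => k4 ⟨_, H.cL_eq ht k1 ▸ e⟩⟩, val k k1 k2 ▸ top⟩
    rcases side σ (t.sd k) with rfl | rfl
    · rwa [H.cR_eq ht k1]
    · exact absurd (H.cX_eq_le ht k1 ▸ k3) hX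
  · obtain ⟨k, k1, k2, ⟨σ, k3⟩, k4⟩ := up (P := fun D => ∃ σ, Ce E t σ D ∈ K) H ht
      (fun D y h1 h2 h3 => by nlinarith [A D y h1 h2 h3]) hj rfl h0
    have hX : cX E k ∉ K := fun e => k4 ⟨_, H.cX_eq_le ht k1 ▸ e⟩
    refine ⟨k, k1.1, hX, .inl ⟨?_, fun e => k4 ⟨_, H.cR_eq ht k1 ▸ e⟩⟩, val k k1 k2 ▸ top⟩
    rcases side σ (t.sd k) with rfl | rfl
    · rwa [H.cL_eq ht k1]
    · exact absurd (H.cX_eq_lt ht k1 ▸ k3) hX

end Pool.Agent.P.MP_5f84aa_co.G
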