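import Pool.Agent.P.MP_5f84aa_co.G.Bas3

/-! The number of faces and of cells. -/

namespace Pool.Agent.P.MP_5f84aa_co.G

open Filter Topology Set

namespace TCOUNT

variable {R : ℝ} {E : Finset Bar} {φ : Pt →ₗ[ℝ] ℝ}

theorem card_seg (H : Sys R E) : {s | s ∈ E ∧ s.ray = false}.ncard + 3 = E.card := by
  have h1 : (E : Set Bar) = {s | s ∈ E ∧ s.ray = false} ∪ range (ry R) := by
    ext s
    constructor
    · intro hs
      cases hr : s.ray
      · exact .inl ⟨hs, hr⟩
      · obtain ⟨i, rfl⟩ := H.rays s hs hr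
        exact .inr ⟨i, rfl⟩
    · rintro (h | ⟨i, rfl⟩)
      exacts [h.1, H.ry_mem i]
  have h2 : (range (ry R)).ncard = 3 := by
    rw [← image_univ, ncard_image_of_injective _ (ry_inj R), ncard_univ]; simp
  rw [← ncard_coe_finset, h1, ncard_union_eq _ (E.finite_toSet.subset fun _ h => h.1), h2]
  rw [disjoint_left]
  rintro _ h ⟨i, rfl⟩
  simpa using h.2

theorem card_JJ (E : Finset Bar) :
    Nat.card (JJ E) = E.card + {s | s ∈ E ∧ s.ray = false}.ncard + 1 := by
  have hS : {s | s ∈ E ∧ s.ray = false}.Finite := E.finite_toSet.subset fun _ h => h.1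
  have h1 : {f : Option En | ∀ j, f = some j → IsEnd E j} = insert none (some '' {j | IsEnd E j}) := by
    ext (_ | j)
    · simp
    · simpa only [mem_insert_iff, reduceCtorEq, false_or, (Option.some_injective _).mem_set_image]
        using ⟨fun h => h j rfl, fun h _ e => Option.some.inj e ▸ h⟩
  have h2 : {j | IsEnd E j} = (fun s => (s, false)) '' (E : Set Bar) ∪
      (fun s => (s, true)) '' {s | s ∈ E ∧ s.ray = false} := by
    ext ⟨s, _ | _⟩ <;> simp [IsEnd]
  have h3 : Nat.card (JJ E) = {f : Option En | ∀ j, f = some j → IsEnd E j}.ncard := rfl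
  rw [h3, h1, ncard_insert_of_notMem (by simp) ((finite_ends E).image _),
    ncard_image_of_injective _ (Option.some_injective _), h2,
    ncard_union_eq _ (E.finite_toSet.image _) (hS.image _),
    ncard_image_of_injective _ fun _ _ e => congrArg Prod.fst e,
    ncard_image_of_injective _ fun _ _ e => congrArg Prod.fst e, ncard_coe_finset]
  rw [disjoint_left]
  rintro _ ⟨s, -, rfl⟩ ⟨s', -, e⟩
  simp at e

open Classical in
/-- the cell below an upper end -/
noncomputable def top (E : Finset Bar) (φ : Pt →ₗ[ℝ] ℝ) (j : En) : Set Pt :=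
  if 0 < φ (bar E j).d then cL E j else cR E j

theorem top_spec (hCELL : CELL) (H : Sys R E) {j : En} (hj : IsEnd E j) :
    IsCell E (top E φ j) ∧ ep j ∈ closure (top E φ j) ∧
      ∀ z ∈ top E φ j, 0 < sg ((bar E j).sd j) * (bar E j).ht z := by
  have e := Bar.In.eq_pt (H.bar_ne0 hj) (H.on_bar hj).2.1
  unfold top
  split_ifs
  · obtain ⟨h1, -, h2, -, h3⟩ := hCELL R E H _ _ (H.pc_Dlt hj) ((bar E j).sd j)
    exact ⟨h1, e ▸ (h2 _ (fit_Dlt H hj)).2, h3⟩
  · obtain ⟨h1, -, h2, -, h3⟩ := hCELL R E H _ _ (H.pc_Dle hj) ((bar E j).sd j)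
    exact ⟨h1, e ▸ (h2 _ (fit_Dle H hj)).2, h3⟩

theorem top_le (hCELL : CELL) (hSECT : SECT) (H : Sys R E) (hφ : Gen E φ) {j : En}
    (hj : IsEnd E j) (hu : φ (ed j) < 0) {z : Pt} (hz : z ∈ closure (top E φ j)) :
    φ z ≤ φ (ep j) ∧ (φ z = φ (ep j) → z = ep j) := by
  have h1 := closure_sign (top_spec hCELL H hj).2.2 hz
  have hS := hSECT R E H j hj
  have h0 := H.bar_ne0 hj
  have hd := hφ _ (H.bar_mem hj)
  have hg := H.gp_end (H.bar_mem hj) (H.on_bar hj)
  have hp := abs_pos.2 (H.lh_ne (H.bar_mem hj) (H.on_bar hj))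
  unfold top at hz
  generalize bar E j = t at *
  have h2 : (t.pos z - t.pos (ep j) - t.sl j * |t.ht z|) * φ t.d ≤ 0 := by
    refine closure_minimal
      (t := {z | (t.pos z - t.pos (ep j) - t.sl j * |t.ht z|) * φ t.d ≤ 0}) (fun y hy => ?_)
      (isClosed_le (by fun_prop) continuous_const) hz
    split_ifs at hy with c
    · exact mul_nonpos_of_nonpos_of_nonneg (by linarith [(hS y).1 hy]) c.le
    · exact mul_nonpos_of_nonneg_of_nonpos (by linarith [(hS y).2 hy]) (not_lt.1 c)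
  have h3 : z = ep j + (|t.ht z| / |t.lh (ed j)|) • ed j +
      (t.pos z - t.pos (ep j) - t.sl j * |t.ht z|) • t.d := by
    rw [← hg]
    apply Bar.ext_pt h0
    · rw [Bar.pos_add, Bar.pos_gp h0, map_smul, Bar.lp_d h0, smul_eq_mul]; ring
    · rw [Bar.ht_add, Bar.ht_gp h0, map_smul, Bar.lh_d, smul_zero, add_zero, abs_of_sg h1,
        ← mul_assoc, sg_mul_self, one_mul]
  have h4 := congrArg φ h3
  rw [map_add, map_add, map_smul, map_smul, smul_eq_mul, smul_eq_mul] at h4
  have h5 : 0 ≤ |t.ht z| / |t.lh (ed j)| := by positivity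
  have h6 := mul_nonpos_of_nonneg_of_nonpos h5 hu.le
  refine ⟨by linarith, fun e => ?_⟩
  have h7 := (mul_eq_zero.1 (by linarith : |t.ht z| / |t.lh (ed j)| * φ (ed j) = 0)).resolve_right
    hu.ne
  have h8 := (mul_eq_zero.1 (by linarith :
    (t.pos z - t.pos (ep j) - t.sl j * |t.ht z|) * φ t.d = 0)).resolve_right hd
  rw [h7, h8, zero_smul, zero_smul, add_zero, add_zero] at h3
  exact h3

theorem top_inj (hVIS : VIS) (hCELL : CELL) (hSECT : SECT) (hSEP : SEP) (H : Sys R E)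
    (hφ : Gen E φ) {j k : En} (hj : IsEnd E j) (hk : IsEnd E k) (hu : φ (ed j) < 0)
    (hv : φ (ed k) < 0) (e : top E φ j = top E φ k) : j = k := by
  obtain ⟨a1, a2, a3⟩ := top_spec (φ := φ) hCELL H hj
  obtain ⟨-, b2, b3⟩ := top_spec (φ := φ) hCELL H hk
  have c1 := top_le hCELL hSECT H hφ hj hu (e ▸ b2)
  have c2 := top_le hCELL hSECT H hφ hk hv (e ▸ a2)
  have e1 : ep k = ep j := c1.2 (le_antisymm c1.1 c2.1)
  have ht := H.bar_mem hj
  have oj := H.on_bar hj
  have ok : On E (bar E j) k := ⟨hk, e1 ▸ oj.2⟩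
  have e2 : bar E k = bar E j := H.bar_eq ht ok
  obtain ⟨z, hz⟩ := ((hVIS R E H).2 _ a1).2.2.1
  have e3 : (bar E j).sd j = (bar E j).sd k := sg_eq (a3 z hz) (e2 ▸ b3 z (e ▸ hz))
  have pj := H.pc_Dlt hj
  have pk := e2 ▸ H.pc_Dlt hk
  have qj := H.pc_Dle hj
  have qk := e2 ▸ H.pc_Dle hk
  unfold top cL cR at e
  rw [e2, ← e3] at e
  refine H.key_inj ht oj ok ?_
  rcases lt_trichotomy ((bar E j).key j) ((bar E j).key k) with c | c | c
  · split_ifs at e
    · exact absurd e (hSEP R E H _ _ _ j pj pk oj (not_mem_Dlt j) ((H.mem_Dlt ht ok).2 ⟨oj, c⟩))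
    · exact absurd (e3 ▸ e) (hSEP R E H _ _ _ k qj qk ok (fun h => not_le.2 c h.2)
        (H.mem_Dle_self hk))
  · exact c
  · split_ifs at e
    · exact absurd (e3 ▸ e.symm) (hSEP R E H _ _ _ k pk pj ok (not_mem_Dlt k) ⟨ok, c⟩)
    · exact absurd e.symm (hSEP R E H _ _ _ j qk qj oj
        (fun h => not_le.2 c ((H.mem_Dle ht ok).1 h).2) (H.mem_Dle_self hj))

theorem unb (hCELL : CELL) (H : Sys R E) (i : Fin 3) (h : 0 < φ (ry R i).d) (σ : Bool) (M : ℝ) :
    ∃ z ∈ closure (Ce E (ry R i) σ (Dend E (ry R i) true)), M < φ z := by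
  obtain ⟨-, ⟨x, hx⟩, h2, -⟩ := hCELL R E H _ _ (pc_Dend (H.ry_mem i) true) σ
  have h1 := le_max_left x ((M + 1 - φ (ry R i).o) / φ (ry R i).d)
  have h3 := (div_le_iff₀ h).1 (le_max_right x ((M + 1 - φ (ry R i).o) / φ (ry R i).d))
  refine ⟨_, (h2 _ ⟨⟨hx.1.1.trans_le h1, fun e => by simp at e⟩, fun j hj =>
    ⟨fun hm => ((hx.2 j hj).1 hm).trans h1, fun hm => absurd ⟨hj, rfl⟩ hm⟩⟩).2, ?_⟩
  simp only [Bar.pt, zero_smul, add_zero, map_add, map_smul, smul_eq_mul]
  linarith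

theorem hh_inj (hVIS : VIS) (hCELL : CELL) (hOUT : OUT) (H : Sys R E) :
    Function.Injective (hh R E) := by
  have key : ∀ i, hh R E i ≠ hh R E (i + 1) := fun i e => by
    obtain ⟨h1, -, -, -, h2⟩ := hCELL R E H _ _ (pc_empty (H.ry_mem i)) false
    obtain ⟨-, -, -, -, h3⟩ := hCELL R E H _ _ (pc_Dend (H.ry_mem i) true) true
    obtain ⟨z, hz⟩ := ((hVIS R E H).2 _ h1).2.2.1
    have h4 : z ∈ Ce E (ry R i) true (Dend E (ry R i) true) := by
      rw [(hOUT R E H).2.1 i, ← e]; exact hz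
    exact absurd (sg_eq (h2 z hz) (h3 z h4)) (by simp)
  intro i k e
  have : ∀ i k : Fin 3, i = k ∨ k = i + 1 ∨ i = k + 1 := by decide
  rcases this i k with c | rfl | rfl
  exacts [c, absurd e (key _), absurd e.symm (key _)]

end TCOUNT

open TCOUNT in
theorem t_COUNT (hVIS : VIS) (hCELL : CELL) (hSECT : SECT) (hSEP : SEP) (hOUT : OUT) : COUNT := by
  classical
  intro R E H
  have h1 := card_seg H
  refine ⟨by rw [card_JJ]; omega, ?_⟩
  obtain ⟨s, s0, s1, hφ⟩ := exists_gen H.ne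
  have hb : ∀ (i : Fin 3) (M : ℝ), ∃ z ∈ closure (hh R E i), M < fn s 1 z := fun i M => by
    have a0 : 0 < fn s 1 (ry R 0).d := by simpa [ry] using s0
    have a1 : 0 < fn s 1 (ry R 1).d := by simpa [ry] using s1
    fin_cases i
    · exact (hOUT R E H).1 0 _ ▸ unb hCELL H 0 a0 false M
    · exact (hOUT R E H).1 1 _ ▸ unb hCELL H 1 a1 false M
    · exact (hOUT R E H).2.1 1 ▸ unb hCELL H 1 a1 true M
  let U := {j : En // IsEnd E j ∧ fn s 1 (ed j) < 0}
  have : Finite U := ((finite_ends E).subset fun _ h => h.1).to_subtype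
  let f : Option {t | t ∈ E ∧ t.ray = false} → U := fun o => o.elim
    ⟨(ry R 2, false), isEnd_false (H.ry_mem 2), by simp [ry]⟩
    fun t => ⟨(t.1, decide (0 < fn s 1 t.1.d)), isEnd_of_seg t.2.1 t.2.2 _, by
      rcases (hφ _ t.2.1).lt_or_gt with c | c
      · rw [decide_eq_false (not_lt.2 c.le)]; exact c
      · rw [decide_eq_true c, ed_true, map_neg]; linarith⟩
  have hf : Function.Injective f := by
    rintro (_ | t) (_ | t') e <;> have e' := congrArg (fun u : U => u.1.1) e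
    · rfl
    · exact absurd t'.2.2 (by rw [show t'.1 = ry R 2 from e'.symm]; simp)
    · exact absurd t.2.2 (by rw [show t.1 = ry R 2 from e']; simp)
    · exact congrArg some (Subtype.ext e')
  let g : U ⊕ Fin 3 → VV R E := Sum.elim
    (fun j => ⟨top E (fn s 1) j.1, fc j.2.1, by
      unfold top
      split_ifs
      exacts [.inl rfl, .inr (.inl rfl)]⟩)
    fun i => ⟨hh R E i, (mp R E).inf, by
      fin_cases i
      exacts [.inl rfl, .inr (.inl rfl), .inr (.inr rfl)]⟩
  have hne : ∀ (j : U) (i : Fin 3), top E (fn s 1) j.1 ≠ hh R E i := fun j i e => by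
    obtain ⟨z, hz, c⟩ := hb i (fn s 1 (ep j.1))
    exact not_le.2 c (top_le hCELL hSECT H hφ j.2.1 j.2.2 (e ▸ hz)).1
  have hg : Function.Injective g := by
    rintro (j | i) (k | l) e <;> have e' := congrArg Subtype.val e
    · exact congrArg _ (Subtype.ext (top_inj hVIS hCELL hSECT hSEP H hφ j.2.1 k.2.1 j.2.2 k.2.2 e'))
    · exact absurd e' (hne j l)
    · exact absurd e'.symm (hne k i)
    · exact congrArg _ (hh_inj hVIS hCELL hOUT H e')
  have : Finite {t | t ∈ E ∧ t.ray = false} := (E.finite_toSet.subset fun _ h => h.1).to_subtype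
  have c1 := Nat.card_le_card_of_injective f hf
  have c2 := Nat.card_le_card_of_injective g hg
  rw [Finite.card_option, Nat.card_coe_set_eq] at c1
  rw [Nat.card_sum, Nat.card_eq_fintype_card (α := Fin 3), Fintype.card_fin] at c2
  omega

end Pool.Agent.P.MP_5f84aa_co.G
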