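import Pool.Agent.P.MP_5f84aa_co.G.Bas3

/-! A connected closed surface with many vertices is a sphere. -/

namespace Pool.Agent.P.MP_5f84aa_co.G

open Finset Matrix Module

namespace TEULER

theorem rk {m n : Type} [Fintype m] [Fintype n] (M : Matrix m n (ZMod 2)) (a : n)
    (h : ∀ x, M *ᵥ x = 0 → ∀ b, x b = x a) : Fintype.card n ≤ M.rank + 1 := by
  have h1 := LinearMap.finrank_range_add_finrank_ker M.mulVecLin
  have h2 := LinearMap.finrank_le_finrank_of_injective
    (f := (LinearMap.proj a : (n → ZMod 2) →ₗ[ZMod 2] ZMod 2).comp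
      (LinearMap.ker M.mulVecLin).subtype) fun x y e =>
    Subtype.ext (funext fun b => (h _ x.2 b).trans (Eq.trans e (h _ y.2 b).symm))
  rw [finrank_fintype_fun_eq_card] at h1
  rw [finrank_self] at h2
  unfold Matrix.rank
  omega

theorem nc {α : Type} [Fintype α] (P : α → Prop) [DecidablePred P] :
    {a | P a}.ncard = #(univ.filter P) := by
  rw [← Set.ncard_coe_finset]
  congr 1
  ext
  simp

theorem two (a b : ZMod 2) (h : a + b = 0) : a = b := by
  revert a b
  decide

variable {V J : Type} [DecidableEq V]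

theorem tri {t : Finset V} (h : #t = 3) (g : V → ZMod 2) :
    ∑ s ∈ powersetCard 2 t, ∑ u ∈ s, g u = 0 := by
  rw [sum_comm' (t' := t) (s' := fun u => (t.powersetCard 2).filter ({u} ⊆ ·)) fun s u => by
    simp only [mem_filter, mem_powersetCard, singleton_subset_iff]
    exact ⟨fun k => ⟨k, k.1.1 k.2⟩, fun k => k.1⟩]
  refine sum_eq_zero fun u hu => ?_
  rw [sum_const, card_filter_powersetCard_subset _ _ _ (by simpa) (by simp), h, card_singleton]
  exact CharTwo.two_nsmul _

variable [Fintype J] (T : J → Finset V)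

/-- the edges -/
def Ed : Finset (Finset V) := univ.biUnion fun j => powersetCard 2 (T j)

theorem mem_Ed {s : Finset V} : s ∈ Ed T ↔ ∃ j, s ⊆ T j ∧ #s = 2 := by simp [Ed]

theorem fil (j : J) : (Ed T).filter (· ⊆ T j) = powersetCard 2 (T j) := by
  ext s
  rw [mem_filter, mem_Ed, mem_powersetCard]
  exact ⟨fun ⟨⟨_, h⟩, k⟩ => ⟨k, h.2⟩, fun h => ⟨⟨j, h⟩, h.1⟩⟩

theorem key (hT : ∀ j, #(T j) = 3) (h2 : ∀ s ∈ Ed T, #{j | s ⊆ T j} = 2) (j0 : J)
    (hc : ∀ j, Relation.ReflTransGen (fun a b => ∃ s ∈ Ed T, s ⊆ T a ∧ s ⊆ T b) j j0)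
    {W : Type} [Fintype W] [DecidableEq W] (p : J → V → W)
    (hp : ∀ s ∈ Ed T, ∀ a b, s ⊆ T a → s ⊆ T b → ∀ u ∈ s, p a u = p b u)
    (hs : ∀ w, ∃ j, ∃ u ∈ T j, p j u = w) :
    2 * Fintype.card W ≤ Fintype.card J + 4 ∧ (Fintype.card J + 4 ≤ 2 * Fintype.card W →
      ∀ c : Ed T → ZMod 2, (∀ (f : Ed T → J) w,
        ∑ e, (∑ u ∈ e.1, if p (f e) u = w then 1 else 0) * c e = 0) →
      ∃ g : J → ZMod 2, ∀ e, ∑ j, (if e.1 ⊆ T j then 1 else 0) * g j = c e) := by
  classical
  choose f hf using fun e : Ed T => (mem_Ed T).1 e.2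
  let A : Matrix (Ed T) J (ZMod 2) := fun e j => if e.1 ⊆ T j then 1 else 0
  let B : Matrix W (Ed T) (ZMod 2) := fun w e => ∑ u ∈ e.1, if p (f e) u = w then 1 else 0
  have hA := rk A j0 fun x hx b => by
    induction hc b using Relation.ReflTransGen.head_induction_on with
    | refl => rfl
    | @head a b h _ ih =>
      obtain ⟨s, h1, h3, h4⟩ := h
      rcases eq_or_ne a b with rfl | h5
      · exact ih
      have h6 : (∑ j, (if s ⊆ T j then 1 else 0) * x j) = 0 := congrFun hx ⟨s, h1⟩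
      simp only [ite_mul, one_mul, zero_mul, ← sum_filter] at h6
      rw [← eq_of_subset_of_card_le (s := {a, b}) (t := {j | s ⊆ T j}) (by simp [insert_subset_iff, h3, h4])
        (by rw [h2 s h1, card_pair h5]), sum_pair h5] at h6
      exact (two _ _ h6).trans ih
  obtain ⟨u0, hu0⟩ := card_pos.1 (show 0 < #(T j0) by rw [hT]; norm_num)
  have hB := rk Bᵀ (p j0 u0) fun x hx w => by
    have k1 : ∀ j, ∀ u ∈ T j, ∀ v ∈ T j, x (p j u) = x (p j v) := fun j u hu v hv => by
      rcases eq_or_ne u v with rfl | h5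
      · rfl
      have h0 : {u, v} ⊆ T j := by simp [insert_subset_iff, hu, hv]
      have h1 : {u, v} ∈ Ed T := (mem_Ed T).2 ⟨j, h0, card_pair h5⟩
      have h6 : (∑ w, (∑ y ∈ {u, v}, if p (f ⟨_, h1⟩) y = w then 1 else 0) * x w) = 0 :=
        congrFun hx ⟨_, h1⟩
      simp only [sum_pair h5, add_mul, sum_add_distrib, ite_mul, one_mul, zero_mul, sum_ite_eq,
        mem_univ, if_true] at h6
      rw [hp _ h1 _ j (hf ⟨_, h1⟩).1 h0 u (by simp), hp _ h1 _ j (hf ⟨_, h1⟩).1 h0 v (by simp)] at h6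
      exact two _ _ h6
    obtain ⟨j, u, hu, rfl⟩ := hs w
    induction hc j using Relation.ReflTransGen.head_induction_on generalizing u with
    | refl => exact k1 _ _ hu _ hu0
    | @head a b h _ ih =>
      obtain ⟨s, h1, h3, h4⟩ := h
      obtain ⟨_, -, h5⟩ := (mem_Ed T).1 h1
      obtain ⟨v, hv⟩ := card_pos.1 (show 0 < #s by omega)
      rw [k1 _ _ hu _ (h3 hv), hp s h1 a b h3 h4 v hv]
      exact ih v (h4 hv)
  have hAB : LinearMap.range A.mulVecLin ≤ LinearMap.ker B.mulVecLin := by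
    have : B * A = 0 := by
      ext w j
      rw [Matrix.zero_apply, ← tri (hT j) fun u => if p j u = w then 1 else 0, ← fil, sum_filter,
        ← sum_coe_sort, mul_apply]
      refine sum_congr rfl fun e _ => ?_
      simp only [A, B]
      split_ifs with h
      · rw [mul_one]
        exact sum_congr rfl fun u hu => by rw [hp _ e.2 _ j (hf e).1 h u hu]
      · exact mul_zero _
    rw [LinearMap.range_le_ker_iff, ← mulVecLin_mul, this, mulVecLin_zero]
  have hE : #(Ed T) * 2 = #(univ : Finset J) * 3 :=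
    card_mul_eq_card_mul (fun s j => s ⊆ T j) h2 fun j _ => by
      rw [bipartiteBelow, fil, card_powersetCard, hT]; rfl
  have h1 := LinearMap.finrank_range_add_finrank_ker B.mulVecLin
  have h3 := Submodule.finrank_mono hAB
  rw [finrank_fintype_fun_eq_card, Fintype.card_coe] at h1
  rw [rank_transpose] at hB
  rw [card_univ] at hE
  unfold Matrix.rank at hA hB
  refine ⟨by omega, fun h c h' => ?_⟩
  have h4 : c ∈ LinearMap.range A.mulVecLin := by
    rw [Submodule.eq_of_le_of_finrank_le hAB (by omega)]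
    exact funext (h' f)
  obtain ⟨g, hg⟩ := h4
  exact ⟨g, congrFun hg⟩

end TEULER

open TEULER

theorem t_EULER : EULER := by
  intro V J Sg _ _ m hn h2 hv hc hJ
  classical
  let T : J → Finset V := fun j => {m.L j, m.R j, m.X j}
  have hm : ∀ j u, m.has j u ↔ u ∈ T j := fun j u => by simp [T, Map.has]
  have hT : ∀ j, #(T j) = 3 := fun j => card_eq_three.2 ⟨_, _, _, (hn j).1, (hn j).2.1, (hn j).2.2, rfl⟩
  have hE : ∀ u v, m.Adj u v → {u, v} ∈ Ed T := fun u v ⟨h, j, a, b⟩ =>
    (mem_Ed T).2 ⟨j, by simp only [insert_subset_iff, singleton_subset_iff, ← hm, a, b, and_self],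
      card_pair h⟩
  have h3 : ∀ s ∈ Ed T, #{j | s ⊆ T j} = 2 := fun s hs => by
    obtain ⟨j, h, k⟩ := (mem_Ed T).1 hs
    obtain ⟨u, v, k', rfl⟩ := card_eq_two.1 k
    simp only [insert_subset_iff, singleton_subset_iff, ← hm] at h ⊢
    exact (nc _).symm.trans (h2 u v ⟨k', j, h⟩)
  have K := @key V J _ _ T hT h3 m.inf fun j => Relation.ReflTransGen.mono
    (fun a b ⟨u, v, h, a1, a2, b1, b2⟩ => ⟨_, hE u v ⟨h, a, a1, a2⟩, by
      simp only [insert_subset_iff, singleton_subset_iff, ← hm, a1, a2, b1, b2, and_self]⟩) _ _ (hc j)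
  obtain ⟨K1, K2⟩ := K (fun _ u => u) (fun _ _ _ _ _ _ _ _ => rfl) fun w =>
    (hv w).imp fun j h => ⟨w, (hm _ _).1 h, rfl⟩
  refine ⟨by omega, fun F f1 f2 f3 => ?_, fun v j j' a b => ?_⟩
  · obtain ⟨g, hg⟩ := K2 hJ (fun e => if ∃ u v, F u v ∧ e.1 = {u, v} then 1 else 0) fun _ w => by
      simp only [sum_ite_eq', ite_mul, one_mul, zero_mul, ← ite_and, sum_boole]
      rw [ZMod.natCast_eq_zero_iff_even, ← card_bij (s := univ.filter (F w))
        (fun v hv => ⟨_, hE w v (f2 _ _ (mem_filter.1 hv).2)⟩) ?_ ?_ ?_, ← nc]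
      · exact f3 w
      · exact fun v hv => mem_filter.2 ⟨mem_univ _, by simp, w, v, (mem_filter.1 hv).2, rfl⟩
      · intro v hv v' hv' e
        have e0 : ({w, v} : Finset V) = {w, v'} := Subtype.ext_iff.1 e
        have e1 : v ∈ ({w, v'} : Finset V) := e0 ▸ by simp
        have e2 := (f2 _ _ (mem_filter.1 hv).2).1
        simpa [e2.symm] using e1
      · rintro ⟨s, hs⟩ h
        obtain ⟨-, h1, u, v, h4, rfl⟩ := mem_filter.1 h
        rcases mem_insert.1 h1 with rfl | h1
        · exact ⟨v, by simpa, rfl⟩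
        · obtain rfl := mem_singleton.1 h1
          exact ⟨u, by simpa using f1 _ _ h4, Subtype.ext (pair_comm _ _)⟩
    refine ⟨{j | g j = 1}, fun u v h => ?_⟩
    have h4 := hg ⟨_, hE u v h⟩
    have h5 : ∀ a : ZMod 2, a = if a = 1 then 1 else 0 := by decide
    have h6 : (∃ u' v', F u' v' ∧ ({u, v} : Finset V) = {u', v'}) ↔ F u v := by
      refine ⟨fun ⟨u', v', a, b⟩ => ?_, fun a => ⟨u, v, a, rfl⟩⟩
      rcases Set.pair_eq_pair_iff.1 (by simpa using congrArg SetLike.coe b : ({u, v} : Set V) = {u', v'})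
        with ⟨rfl, rfl⟩ | ⟨rfl, rfl⟩
      exacts [a, f1 _ _ a]
    rw [sum_congr rfl fun j _ => by rw [h5 (g j)]] at h4
    simp only [h6, insert_subset_iff, singleton_subset_iff, ← hm, ite_mul, one_mul, zero_mul,
      ← ite_and, sum_boole, and_comm (b := g _ = 1)] at h4
    have h7 : #{j | g j = 1 ∧ m.has j u ∧ m.has j v} ≤ 2 :=
      (card_le_card (monotone_filter_right _ fun _ _ k => k.2)).trans
        ((nc _).symm.trans (h2 u v h)).le
    rw [nc]
    simp only [Set.mem_ofPred_eq]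
    generalize #{j | g j = 1 ∧ m.has j u ∧ m.has j v} = n at h4 h7
    split_ifs at h4 with h8
    · have := ZMod.natCast_eq_one_iff_odd.1 h4
      simp only [h8, true_iff]
      obtain ⟨k, rfl⟩ := this
      omega
    · simp only [h8, false_iff]
      rintro rfl
      simp at h4
  · by_contra hS
    set r : J → J → Prop := fun a b => m.has a v ∧ m.has b v ∧ ∃ w, w ≠ v ∧ m.has a w ∧ m.has b w
    have := (K (fun k u => if u = v ∧ Relation.ReflTransGen r j k then none else some u)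
      (fun s hs a b ha hb u hu => ?_) fun w => ?_).1
    · rw [Fintype.card_option] at this
      omega
    · refine if_congr (and_congr_right ?_) rfl rfl
      rintro rfl
      obtain ⟨_, -, k⟩ := (mem_Ed T).1 hs
      obtain ⟨w, hw, k⟩ := exists_mem_ne (show 1 < #s by omega) u
      simp only [r, hm]
      exact ⟨fun h => h.tail ⟨ha hu, hb hu, w, k, ha hw, hb hw⟩,
        fun h => h.tail ⟨hb hu, ha hu, w, k, hb hw, ha hw⟩⟩
    · rcases w with _ | w
      · exact ⟨j, v, (hm _ _).1 a, if_pos ⟨rfl, .refl⟩⟩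
      rcases eq_or_ne w v with rfl | h
      · exact ⟨j', w, (hm _ _).1 b, if_neg fun k => hS k.2⟩
      · exact (hv w).imp fun k hk => ⟨w, (hm _ _).1 hk, if_neg fun k => h k.1⟩

end Pool.Agent.P.MP_5f84aa_co.G
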