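import Pool.Agent.P.MP_5f84aa_co.G.Bas3

/-! The far ends of rungs. -/

namespace Pool.Agent.P.MP_5f84aa_co.G

open Filter Topology Set

theorem t_FAR (hSTEM : STEM) (hUNIQ : UNIQ) (hFACE : FACE) : FAR := by
  intro R E H f f'
  constructor
  · rintro ⟨h1, h2, h3, h4⟩
    obtain ⟨⟨s, e⟩, hj, rfl⟩ := (JJ.cases R f).resolve_left h2
    obtain ⟨⟨s', e'⟩, hk, rfl⟩ := (JJ.cases R f').resolve_left h3
    have n0 : cL E (s, e) ≠ cR E (s, e) := fun c =>
      ((hFACE R E H).1 (fc hj)).1 (Subtype.ext c)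
    have a1 := (cor_fc hk _).1 ((h4 _).1 (.inl rfl))
    have a2 := (cor_fc hk _).1 ((h4 _).1 (.inr rfl))
    rw [mp_L_fc] at a1
    rw [mp_R_fc] at a2
    have p := hSTEM R E H _ hk
    have p' : Pair E (cL E (s, e)) (cR E (s, e)) s' (Dend E s' e') := by
      rcases a1 with a1 | a1 <;> rcases a2 with a2 | a2
      · exact absurd (a1.trans a2.symm) n0
      · rwa [a1, a2]
      · rw [a1, a2]; exact p.symm
      · exact absurd (a1.trans a2.symm) n0
    obtain ⟨rfl, c⟩ : s = s' ∧ _ :=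
      hUNIQ R E H _ _ _ _ _ _ (pc_Dend hj.1 e) (pc_Dend hk.1 e') (hSTEM R E H _ hj) p'
    have ne : e ≠ e' := fun c => h1 (by subst c; rfl)
    refine ⟨s, e, ⟨hj.1, ?_, fun k hk' => ?_⟩, rfl, by rw [fc_val, Bool.eq_not_of_ne ne.symm]⟩
    · cases e
      · exact hk.2 (Bool.eq_not_of_ne ne.symm)
      · exact hj.2 rfl
    · cases e <;> cases e' <;> simp only [Dend_true, Dend_false, ne_eq, not_true] at c ne
      · exact (c ▸ hk' : k ∈ (∅ : Set En))
      · exact (c ▸ hk' : k ∈ (∅ : Set En))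
  · rintro ⟨s, e, hs, h1, h2⟩
    have hj := f.2 _ h1
    have hk := f'.2 _ h2
    obtain rfl : f = fc hj := Subtype.ext h1
    obtain rfl : f' = fc hk := Subtype.ext h2
    refine ⟨fun c => by simpa using fc_inj.1 c, fc_ne_inf _, fc_ne_inf _, fun v => ?_⟩
    have p := hSTEM R E H _ hj
    have p' := hSTEM R E H _ hk
    rw [hs.Dend] at p p'
    rw [cor_fc, cor_fc]
    rcases p with ⟨a, b⟩ | ⟨a, b⟩ <;> rcases p' with ⟨a', b'⟩ | ⟨a', b'⟩ <;>
      simp only [a, b, a', b', or_comm]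

end Pool.Agent.P.MP_5f84aa_co.G
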