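import Pool.Agent.P.MP_5f84aa_co.G.Bas3

/-! The cell of a free germ. -/

namespace Pool.Agent.P.MP_5f84aa_co.G

open Filter Topology Set

namespace TGERM

theorem gp_comb (t : Bar) (σ : Bool) (x κ : ℝ) {a b : ℝ} (h : a + b = 1) (e e' : ℝ) :
    a • t.gp σ x κ e + b • t.gp σ x κ e' = t.gp σ x κ (a * e + b * e') := by
  unfold Bar.gp
  rw [t.pt_comb h]
  congr 1
  · linear_combination x * h
  · ring

theorem convex_cl (t w : Bar) (σ : Bool) (x κ : ℝ) : Convex ℝ {e : ℝ | w.Cl (t.gp σ x κ e)} := by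
  intro e he e' he' a b ha hb hab
  have := w.convex_Cl he he' ha hb hab
  rw [gp_comb t σ x κ hab] at this
  exact this

theorem ev_of_freq {t w : Bar} {σ : Bool} {x κ : ℝ}
    (h : ∃ᶠ ε in 𝓝[>] (0 : ℝ), w.Cl (t.gp σ x κ ε)) :
    ∀ᶠ ε in 𝓝[>] (0 : ℝ), w.Cl (t.gp σ x κ ε) := by
  obtain ⟨e0, h0, hp⟩ := (h.and_eventually ev_pos).exists
  filter_upwards [ev_pos, ev_lt hp] with ε h1 h2
  obtain ⟨e1, h3, h4⟩ := (h.and_eventually (ev_lt h1)).exists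
  exact (convex_cl t w σ x κ).ordConnected.out h3 h0 ⟨h4.le, h2.le⟩

end TGERM

theorem t_GERM (hVIS : VIS) : GERM := by
  intro R E H t σ x κ _ hb
  have h1 : ∀ᶠ ε in 𝓝[>] (0 : ℝ), Off E (t.gp σ x κ ε) := by
    refine (eventually_all_finset E).2 fun w hw => ?_
    by_contra hc
    exact hb ⟨w, hw, TGERM.ev_of_freq hc⟩
  obtain ⟨δ, hδ, hsub⟩ := mem_nhdsGT_iff_exists_Ioo_subset.1 h1
  have hδ0 : (0 : ℝ) < δ := hδ
  have hv : ∀ e ∈ Ioo 0 δ, ∀ e' ∈ Ioo 0 δ, Vis E (t.gp σ x κ e) (t.gp σ x κ e') := by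
    rintro e he e' he' z ⟨a, b, ha, hb, hab, rfl⟩
    rw [TGERM.gp_comb t σ x κ hab]
    exact hsub (convex_Ioo 0 δ he he' ha hb hab)
  have hI : ∀ᶠ ε in 𝓝[>] (0 : ℝ), ε ∈ Ioo 0 δ := Ioo_mem_nhdsGT hδ0
  have h0 : δ / 2 ∈ Ioo 0 δ := ⟨by linarith, by linarith⟩
  have tr := (hVIS R E H).1
  have hg : gc E t σ x κ = {z | Vis E (t.gp σ x κ (δ / 2)) z} := by
    ext z
    constructor
    · intro hz
      have hz' : ∀ᶠ ε in 𝓝[>] (0 : ℝ), Vis E (t.gp σ x κ ε) z := hz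
      obtain ⟨e, h2, h3⟩ := (hz'.and hI).exists
      exact tr _ _ _ (hv _ h0 _ h3) h2
    · intro hz
      exact hI.mono fun e he => tr _ _ _ (hv _ he _ h0) hz
  refine ⟨⟨_, hsub h0, hg⟩, hI.mono fun e he => ?_⟩
  rw [hg]
  exact hv _ h0 _ he

end Pool.Agent.P.MP_5f84aa_co.G
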