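import Pool.Agent.P.MP_5f84aa_co.G.Bas3

namespace Pool.Agent.P.MP_5f84aa_co.G

open Filter Topology Set

namespace THOLE

theorem two {J : Type} [Finite J] {S : Set J} (h : ¬ 3 ≤ S.ncard) (g : J → Pt) :
    ∃ p q, ∀ j ∈ S, g j = p ∨ g j = q := by
  have h3 : ∀ a ∈ S, ∀ b ∈ S, ∀ c ∈ S, a ≠ b → a ≠ c → b = c := fun a ha b hb c hc h1 h2 => by
    by_contra h4
    exact h ((Set.two_lt_ncard_iff (toFinite S)).2 ⟨a, b, c, ha, hb, hc, h1, h2, h4⟩)
  rcases S.eq_empty_or_nonempty with rfl | ⟨a, ha⟩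
  · exact ⟨0, 0, by simp⟩
  by_cases hb : ∃ b ∈ S, a ≠ b
  · obtain ⟨b, hb, hab⟩ := hb
    refine ⟨g a, g b, fun j hj => ?_⟩
    by_cases e : a = j
    · exact .inl (e ▸ rfl)
    · exact .inr (h3 a ha b hb j hj hab e ▸ rfl)
  · push Not at hb
    exact ⟨g a, g a, fun j hj => .inl (hb j hj ▸ rfl)⟩

theorem level (p q : Pt) : ∃ a b : ℝ, 0 < a ^ 2 + b ^ 2 ∧ fn a b q = fn a b p := by
  by_cases h : p = q
  · exact ⟨1, 0, by norm_num, by rw [h]⟩
  · refine ⟨q 1 - p 1, p 0 - q 0, ?_, by simp only [fn_apply]; ring⟩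
    by_contra hc
    have h0 := sq_nonneg (q 1 - p 1)
    have h1 := sq_nonneg (p 0 - q 0)
    have e0 : (q 1 - p 1) ^ 2 = 0 := by linarith
    have e1 : (p 0 - q 0) ^ 2 = 0 := by linarith
    exact h (pt_ext (by linarith [pow_eq_zero_iff two_ne_zero |>.1 e1])
      (by linarith [pow_eq_zero_iff two_ne_zero |>.1 e0]))

theorem above {c : Set Pt} (ho : IsOpen c) (hn : c.Nonempty) (p q : Pt) :
    ∃ a b : ℝ, 0 < a ^ 2 + b ^ 2 ∧ ∃ z ∈ c, fn a b p < fn a b z ∧ fn a b q < fn a b z := by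
  obtain ⟨a, b, hab, e⟩ := level p q
  obtain ⟨z, hz⟩ := hn
  rcases lt_trichotomy (fn a b p) (fn a b z) with h | h | h
  · exact ⟨a, b, hab, z, hz, h, e ▸ h⟩
  · have hc : ContinuousAt (fun ε : ℝ => z + ε • (![a, b] : Pt)) 0 := by fun_prop
    have h1 : ∀ᶠ ε in 𝓝[>] (0 : ℝ), z + ε • (![a, b] : Pt) ∈ c :=
      (hc.eventually (ho.mem_nhds (by simpa using hz))).filter_mono nhdsWithin_le_nhds
    obtain ⟨ε, h1, h2⟩ := (h1.and ev_pos).exists
    have h3 : fn a b p < fn a b (z + ε • (![a, b] : Pt)) := by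
      rw [map_add, map_smul, h]
      simp only [fn_apply, Matrix.cons_val_zero, Matrix.cons_val_one, smul_eq_mul]
      nlinarith [mul_pos h2 hab]
    exact ⟨a, b, hab, _, h1, h3, e ▸ h3⟩
  · simp only [fn_apply] at e h
    refine ⟨-a, -b, by simpa using hab, z, hz, ?_, ?_⟩ <;> simp only [fn_apply] <;> linarith

theorem gen {E : Finset Bar} (hE : ∀ w ∈ E, w.d ≠ 0) {c : Set Pt} (ho : IsOpen c)
    (hn : c.Nonempty) (p q : Pt) : ∃ φ, Gen E φ ∧ ∃ z ∈ c, φ p < φ z ∧ φ q < φ z := by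
  obtain ⟨a, b, hab, z, hz, h1, h2⟩ := above ho hn p q
  have hf := finite_not_gen hE (fn a b) (fn (-b) a) fun v e0 e1 => by
    simp only [fn_apply] at e0 e1
    refine pt_ext (mul_left_cancel₀ hab.ne' ?_) (mul_left_cancel₀ hab.ne' ?_)
    · simp only [Pi.zero_apply, mul_zero]; linear_combination a * e0 - b * e1
    · simp only [Pi.zero_apply, mul_zero]; linear_combination b * e0 + a * e1
  have ev : ∀ r, fn a b r < fn a b z → ∀ᶠ s in 𝓝 (0 : ℝ),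
      fn a b r + s * fn (-b) a r < fn a b z + s * fn (-b) a z := fun r hr =>
    ContinuousAt.eventually_lt (by fun_prop) (by fun_prop) (by simpa only [zero_mul, add_zero])
  obtain ⟨s, hs, hs'⟩ := (infinite_of_mem_nhds (0 : ℝ) ((ev p h1).and (ev q h2))).exists_notMem_finite hf
  exact ⟨_, not_not.1 hs', z, hz, hs.1, hs.2⟩

end THOLE

open THOLE in
theorem t_HOLE (hVIS : VIS) (hFACE : FACE) (hCORNER : CORNER) : HOLE := by
  intro R E H K hK hinf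
  by_contra hc
  obtain ⟨p, q, hpq⟩ := two hc fun f => f.1.elim 0 ep
  have cell := (hFACE R E H).2.2.2.2.2.2
  obtain ⟨v, hv⟩ := hK
  obtain ⟨ho, -, hn, -⟩ := (hVIS R E H).2 v.1 (cell v)
  obtain ⟨φ, hφ, z, hz, h1, h2⟩ := gen H.ne ho hn p q
  obtain ⟨j, hj, hX, hLR, hlt⟩ := hCORNER R E H φ hφ (Subtype.val '' K) ⟨_, v, hv, rfl⟩ (by
    rintro _ ⟨w, hw, rfl⟩
    exact ⟨cell w, fun i e => hinf w hw ((has_inf w).2 ⟨i, e⟩)⟩)
  have hm : ∀ w : VV R E, w.1 ∈ Subtype.val '' K ↔ w ∈ K := fun w =>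
    Subtype.val_injective.mem_set_image
  have hcv : (mp R E).cvx K (fc hj) := by
    simp only [Map.cvx, ← hm]
    exact ⟨hX, hLR⟩
  have h3 := hlt _ ⟨v, hv, rfl⟩ z hz
  rcases hpq _ hcv with e | e
  · exact lt_asymm h1 (e ▸ h3)
  · exact lt_asymm h2 (e ▸ h3)

end Pool.Agent.P.MP_5f84aa_co.G
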