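import Pool.Agent.P.MP_5f84aa_co.G.Bas3

/-! A light near a bar sees the whole bar; a light in a cell sees its boundary. -/

namespace Pool.Agent.P.MP_5f84aa_co.G

open Filter Topology Set

theorem t_HUG (hVIS : VIS) : HUG := by
  intro R E H γ hγ
  refine ⟨fun w hw z hz => ?_, fun c hc x hx q hq y hy w hw ho => ?_⟩
  · have hU : IsOpen {y | ∀ v ∈ E, v ≠ w → ¬ v.Ob γ y} := by
      have : {y | ∀ v ∈ E, v ≠ w → ¬ v.Ob γ y} = ⋂ v ∈ E, ⋂ _ : v ≠ w, {y | v.Ob γ y}ᶜ := by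
        ext y; simp
      rw [this]
      exact isOpen_biInter_finset fun v _ =>
        isOpen_iInter_of_finite fun _ => (v.isClosed_Ob γ).isOpen_compl
    have := ((Bar.isCompact_Ob (H.ne w hw) γ).prod
      (isCompact_Icc (a := (0 : ℝ)) (b := 1))).eventually_forall_of_forall_eventually (x₀ := z)
      (P := fun x P => ∀ v ∈ E, v ≠ w → ¬ v.Ob γ ((1 - P.2) • x + P.2 • P.1)) fun P hP => by
        have hc : Continuous fun Q : Pt × Pt × ℝ => (1 - Q.2.2) • Q.1 + Q.2.2 • Q.2.1 := by fun_prop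
        refine (hU.preimage hc).mem_nhds fun v hv hne ho => hne (H.disj v hv w hw _ (ho.isIn hγ) ?_)
        exact w.convex_In hz (Bar.Ob.isIn hγ hP.1) (sub_nonneg.2 hP.2.2) hP.2.1 (sub_add_cancel _ _)
    filter_upwards [this] with x hx h0 q hq y hy v hv ho
    rw [openSegment_eq_image] at hy
    obtain ⟨θ, hθ, rfl⟩ := hy
    refine hx (q, θ) ⟨hq, hθ.1.le, hθ.2.le⟩ v hv ?_ ho
    rintro rfl
    have h1 := ho.2.1
    rw [v.ht_comb (sub_add_cancel _ _), hq.2.1, mul_zero, add_zero] at h1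
    exact mul_ne_zero (sub_pos.2 hθ.2).ne' h0 h1
  · obtain ⟨h1, h2, -, h3, -⟩ := (hVIS R E H).2 c hc
    exact h3 y (interior_subset (h2.openSegment_interior_closure_subset_interior
      (h1.interior_eq.symm ▸ hx) hq hy)) w hw (ho.isIn hγ).cl

end Pool.Agent.P.MP_5f84aa_co.G
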