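import Pool.Agent.P.MP_5f84aa_co.G.Bas3

/-! The light at an end. -/

namespace Pool.Agent.P.MP_5f84aa_co.G

open Filter Topology Set

namespace TLAMP

variable {R : ℝ} {E : Finset Bar}

theorem stem (hC : CELL) (hS : STEM) (H : Sys R E) {s : Bar} {e : Bool} (h : IsEnd E (s, e))
    (σ : Bool) : ep (s, e) ∈ closure (Ce E s σ (Dend E s e)) ∧
      ∀ z ∈ Ce E s σ (Dend E s e), (bar E (s, e)).ht z ≠ 0 := by
  have key : ∀ D, Pc E (bar E (s, e)) D → Fit E (bar E (s, e)) D ((bar E (s, e)).pos (ep (s, e))) →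
      ∀ σ, ep (s, e) ∈ closure (Ce E (bar E (s, e)) σ D) ∧
        ∀ z ∈ Ce E (bar E (s, e)) σ D, (bar E (s, e)).ht z ≠ 0 := fun D h1 h2 σ => by
    obtain ⟨-, -, k3, -, k5⟩ := hC R E H _ D h1 σ
    refine ⟨?_, fun z hz e => by simpa [e] using k5 z hz⟩
    rw [Bar.In.eq_pt (H.bar_ne0 h) (H.on_bar h).2.1]
    exact (k3 _ h2).2
  have hL := key _ (H.pc_Dlt h) (fit_Dlt H h) ((bar E (s, e)).sd (s, e))
  have hR := key _ (H.pc_Dle h) (fit_Dle H h) ((bar E (s, e)).sd (s, e))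
  rcases hS R E H _ h with h | h <;> cases σ
  exacts [h.2 ▸ hR, h.1 ▸ hL, h.1 ▸ hL, h.2 ▸ hR]

theorem foot {s : Bar} {e : Bool} (h : IsEnd E (s, e)) {γ : ℝ} (hγ : 0 < γ) (h0 : s.d ≠ 0) :
    ∀ᶠ a in 𝓝[>] (0 : ℝ), Fit E s (Dend E s e) (if e then 1 - a else a) ∧
      (∀ k, On E s k → s.pos (ep k) ≠ if e then 1 - a else a) ∧
      ¬ s.Ob γ (s.pt (if e then 1 - a else a) 0) := by
  filter_upwards [ev_pos, ev_lt one_pos, ev_lt hγ, ev_no_end E s 0 1, ev_no_end E s 1 (-1)]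
    with a a0 a1 a2 a3 a4
  cases e
  · have : ∀ k, On E s k → a < s.pos (ep k) := fun k hk => by simpa using (a3 k hk).1 hk.2.2.1
    refine ⟨⟨⟨a0, fun _ => a1⟩, fun k hk => ⟨by simp, fun _ => (this k hk).le⟩⟩,
      fun k hk => (this k hk).ne', fun h => ?_⟩
    have := h.2.2.1
    rw [Bar.pos_pt h0] at this
    exact not_le.2 a2 this
  · have : ∀ k, On E s k → s.pos (ep k) < 1 - a := fun k hk => by
      linarith [(a4 k hk).2 (hk.2.2.2 (h.2 rfl))]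
    refine ⟨⟨⟨sub_pos.2 a1, fun _ => sub_lt_self _ a0⟩,
      fun k hk => ⟨fun _ => (this k hk).le, fun h => absurd ⟨hk, rfl⟩ h⟩⟩,
      fun k hk => (this k hk).ne, fun h => ?_⟩
    have := h.2.2.2
    rw [Bar.pos_pt h0] at this
    exact not_lt.2 this (sub_lt_sub_left a2 1)

end TLAMP

open TLAMP in
theorem t_LAMP (hVIS : VIS) (hCELL : CELL) (hSTEM : STEM) (hHUG : HUG) (hPERT : PERT)
    (hLINE : LINE) : LAMP := by
  rintro R E H γ η hγ hη ⟨s, e⟩ hj τ hτ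
  have hs : s ∈ E := hj.1
  have h0 := H.ne s hs
  obtain ⟨u1, u2⟩ := hHUG R E H γ hγ
  have tn : Tendsto (fun a : ℝ => ep (s, e) + a • ed (s, e)) (𝓝[>] 0) (𝓝 (ep (s, e))) :=
    (Continuous.tendsto' (by fun_prop) 0 _ (by simp)).mono_left nhdsWithin_le_nhds
  obtain ⟨a, ⟨f1, f2, f3⟩, f4, a0, a1⟩ := ((foot hj hγ h0).and ((tn.eventually
    (u1 _ (H.bar_mem hj) _ (H.on_bar hj).2).eventually_nhds).and (ev_pos.and (ev_lt one_pos)))).exists
  have f5 := u1 s hs _ (in_ep_add (j := (s, e)) h0 a0 a1)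
  rw [ep_add_ed] at f4 f5
  have f6 : ∀ᶠ x in 𝓝 (s.pt (if e then 1 - a else a) 0), ∀ w ∈ E, w ≠ s → w ≠ bar E (s, e) →
      ∀ q ∈ closure (Ce E s τ (Dend E s e)), w.Ob γ q →
        (Rung E s → w = bar E (s, !e) → η ≤ |w.pos q - w.pos (ep (s, !e))|) → Sees E γ x q := by
    refine (eventually_all_finset E).2 fun w hw => ?_
    by_cases n1 : w = s
    · exact Eventually.of_forall fun _ h => absurd n1 h
    by_cases n2 : w = bar E (s, e)
    · exact Eventually.of_forall fun _ _ h => absurd n2 h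
    refine ((hPERT R E H s _ _ (pc_Dend hs e) f1 f2 τ).2 γ hγ f3
      (closure (Ce E s τ (Dend E s e)) ∩ ({q | w.Ob γ q} ∩
        {q | Rung E s → w = bar E (s, !e) → η ≤ |w.pos q - w.pos (ep (s, !e))|}))
      (((Bar.isCompact_Ob (H.ne w hw) γ).inter_right ?_).inter_left isClosed_closure)
      inter_subset_left ?_).mono fun x h _ _ q q1 q2 q3 => h q ⟨q1, q2, q3⟩
    · simp only [ofPred_forall]
      exact isClosed_iInter fun _ => isClosed_iInter fun _ =>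
        isClosed_le continuous_const (by fun_prop)
    · rintro q ⟨q1, q2, q3⟩ h
      have q4 := Bar.Ob.isIn hγ q2
      rcases hLINE R E H _ hj τ q q1 h with h | rfl | ⟨r1, r2, rfl⟩
      · exact n1 (H.disj _ hw _ hs _ q4 h)
      · exact n2 (H.bar_eq hw ⟨hj, q4⟩).symm
      · have := q3 (hτ.resolve_right fun ⟨k, k1, k2⟩ => r2 k k1 k2)
          (H.bar_eq hw ⟨isEnd_of_seg hs r1 _, q4⟩).symm
        exact not_le.2 hη (by simpa using this)
  obtain ⟨c1, -, c3, -, c5⟩ := hCELL R E H s _ (pc_Dend hs e) (!τ)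
  obtain ⟨x, hx, g4, g5, g6⟩ :=
    ((mem_closure_iff_frequently.1 (c3 _ f1).2).and_eventually (f4.and (f5.and f6))).exists
  have k : ∀ q, s.Ob γ q ∨ (bar E (s, e)).Ob γ q → Sees E γ x q := fun q h =>
    h.elim (g5 (fun e => by simpa [e] using c5 x hx) q) (g4 ((stem hCELL hSTEM H hj _).2 x hx) q)
  refine ⟨x, hx, k, fun w hw q q1 q2 => ?_⟩
  by_cases n1 : w = s
  · exact .inl (k q (.inl (n1 ▸ q2)))
  by_cases n2 : w = bar E (s, e)
  · exact .inl (k q (.inr (n2 ▸ q2)))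
  by_cases n3 : Rung E s → w = bar E (s, !e) → η ≤ |w.pos q - w.pos (ep (s, !e))|
  · exact .inl (g6 w hw n1 n2 q q1 q2 n3)
  push Not at n3
  obtain ⟨r1, r2, r3⟩ := n3
  by_cases n4 : w.pos q = w.pos (ep (s, !e))
  · have hj' := isEnd_of_seg hs r1.2.1 (!e)
    obtain rfl := Bar.ext_pt (H.ne w hw) n4 (q2.2.1.trans (r2 ▸ (H.on_bar hj').2.1.symm))
    refine .inl (u2 _ c1 x hx _ ?_)
    rw [r1.Dend, ← r1.Dend (!e)]
    exact (stem hCELL hSTEM H hj' _).1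
  · exact .inr ⟨r1, r2, n4, r3⟩

end Pool.Agent.P.MP_5f84aa_co.G
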