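import Pool.Agent.P.MP_5f84aa_co.G.TLIGHTA

/-! From a combinatorial lighting to lights. -/

namespace Pool.Agent.P.MP_5f84aa_co.G

open Filter Topology Set

namespace TLIGHT

variable {R : ℝ} {E : Finset Bar} {j : En}

/-- the other end -/
def ot (j : En) : En := (j.1, !j.2)

theorem ot_inj {j k : En} (h : ot j = ot k) : j = k := by
  obtain ⟨s, e⟩ := j
  obtain ⟨s', e'⟩ := k
  simpa [ot] using h

theorem cor_iff (hSTEM : STEM) (H : Sys R E) (hj : IsEnd E j) (c : Set Pt) :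
    (c = cL E j ∨ c = cR E j) ↔ ∃ σ, c = Ce E j.1 σ (Dend E j.1 j.2) := by
  rcases hSTEM R E H j hj with ⟨h1, h2⟩ | ⟨h1, h2⟩ <;> simp [h1, h2, or_comm]

theorem cor_ot (hSTEM : STEM) (H : Sys R E) (h : Rung E j.1) (c : Set Pt) :
    (c = cL E j ∨ c = cR E j) ↔ (c = cL E (ot j) ∨ c = cR E (ot j)) := by
  rw [cor_iff hSTEM H (j := j) (isEnd_of_seg h.1 h.2.1 _),
    cor_iff hSTEM H (j := ot j) (isEnd_of_seg h.1 h.2.1 _), h.Dend]
  exact exists_congr fun σ => by rw [show Dend E (ot j).1 (ot j).2 = ∅ from h.Dend _]; rfl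

/-- the shadow of the light at `j` -/
def Fail (E : Finset Bar) (η : ℝ) (j : En) (w : Bar) (q : Pt) : Prop :=
  Rung E j.1 ∧ w = bar E (ot j) ∧ w.pos q ≠ w.pos (ep (ot j)) ∧ |w.pos q - w.pos (ep (ot j))| < η

theorem lamp (hVIS : VIS) (hCELL : CELL) (hSTEM : STEM) (hOUT : OUT) (hHUG : HUG) (hLAMP : LAMP)
    (H : Sys R E) {γ η : ℝ} (hγ : 0 < γ) (hη : 0 < η) (hj : IsEnd E j) {c₀ : Set Pt}
    (hc : c₀ = cL E j ∨ c₀ = cR E j) (P : Prop) : ∃ x, Off E x ∧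
      (∀ q, j.1.Ob γ q ∨ (bar E j).Ob γ q → Sees E γ x q) ∧
      ∀ c, c = cL E j ∨ c = cR E j → ∀ w ∈ E, ∀ q ∈ closure c, w.Ob γ q →
        Sees E γ x q ∨ Fail E η j w q ∧ (c = c₀ ↔ ¬ P) := by
  have pc := pc_Dend hj.1 j.2
  obtain ⟨ρ, hρ⟩ := (cor_iff hSTEM H hj _).1 hc
  have : ∃ τ, (Rung E j.1 ∨ ∃ k, On E j.1 k ∧ j.1.sd k = τ) ∧
      (Rung E j.1 → (Ce E j.1 τ (Dend E j.1 j.2) = c₀ ↔ ¬ P)) := by
    by_cases hr : Rung E j.1
    · by_cases hP : P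
      · refine ⟨!ρ, .inl hr, fun _ => iff_of_false (fun e => ?_) (not_not.2 hP)⟩
        simpa using side_eq hCELL H pc pc (e.trans hρ)
      · exact ⟨ρ, .inl hr, fun _ => iff_of_true hρ.symm hP⟩
    · have : ∃ k, On E j.1 k := by
        by_contra hn
        cases h : j.1.ray
        · exact hr ⟨hj.1, h, fun k hk => hn ⟨k, hk⟩⟩
        · obtain ⟨i, hi⟩ := H.rays _ hj.1 h
          exact hn ⟨_, hi ▸ (hOUT R E H).2.2.1 i⟩
      obtain ⟨k, hk⟩ := this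
      exact ⟨_, .inr ⟨k, hk, rfl⟩, fun h => absurd h hr⟩
  obtain ⟨τ, h1, h2⟩ := this
  obtain ⟨x, hx, h3, h4⟩ := hLAMP R E H γ η hγ hη j hj τ h1
  have cell := (hCELL R E H _ _ pc (!τ)).1
  refine ⟨x, ((hVIS R E H).2 _ cell).2.2.2.1 x hx, h3, fun c hc w hw q hq ho => ?_⟩
  obtain ⟨σ, rfl⟩ := (cor_iff hSTEM H hj _).1 hc
  by_cases e : σ = τ
  · subst e
    exact (h4 w hw q hq ho).imp_right fun h => ⟨h, h2 h.1⟩
  · obtain rfl : σ = !τ := by cases σ <;> cases τ <;> simp at e ⊢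
    exact .inl ((hHUG R E H γ hγ).2 _ cell x hx q hq)

variable (R E) in
/-- the cell has a light -/
def Lit (M : Finset (JJ E)) (F : Finset (VV R E)) (c : Set Pt) : Prop :=
  ∃ v : VV R E, v.1 = c ∧ (v ∈ F ∨ ∃ g ∈ M, (mp R E).cor g v)

variable (R E) in
/-- the shadow is moved to the other half of the rung -/
def Mv (M : Finset (JJ E)) (F : Finset (VV R E)) (c : Set Pt) (j : En) : Prop :=
  (∃ k, IsEnd E k ∧ ep k = ep (ot j) ∧ (cX E (ot j) = cL E k ∨ cX E (ot j) = cR E k) ∧ cX E k = c) ∧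
    Lit R E M F (cX E (ot j))

/-- no point is dark -/
theorem dark (hCELL : CELL) (hSTEM : STEM) (hSEP : SEP) (hUNIQ : UNIQ) (hFACE : FACE) (hFAR : FAR)
    (H : Sys R E) {M : Finset (JJ E)} {F : Finset (VV R E)} {sh : JJ E → VV R E}
    (C : (mp R E).Cover M F sh) {η : ℝ} {w : Bar} (hw : w ∈ E) (hη : ∀ j k, On E w j → On E w k →
      |w.pos (ep j) - w.pos (ep k)| < 2 * η → w.pos (ep j) = w.pos (ep k)) {q : Pt} {D : Set En}
    (hD : D = {k | On E w k ∧ w.pos (ep k) ≤ w.pos q})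
    (N1 : ∀ v ∈ F, ∀ σ, v.1 ≠ Ce E w σ D)
    (N2 : ∀ f ∈ M, (mp R E).stem f ≠ w ∧ (mp R E).bar f ≠ w)
    (N3 : ∀ j (hj : IsEnd E j), fc hj ∈ M → ∀ σ, Ce E w σ D = cL E j ∨ Ce E w σ D = cR E j →
      Fail E η j w q ∧ (Ce E w σ D = (sh (fc hj)).1 ↔ ¬ Mv R E M F (sh (fc hj)).1 j)) : False := by
  have pc : Pc E w D := hD ▸ pc_le hw _
  have isfc : ∀ g ∈ M, ∃ j, ∃ hj : IsEnd E j, g = fc hj := fun g hg =>
    (JJ.cases R g).resolve_left fun e => C.fin (e ▸ hg)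
  -- geometry of a failing light
  have A : ∀ j (hj : IsEnd E j), fc hj ∈ M → ∀ σ, Ce E w σ D = cL E j ∨ Ce E w σ D = cR E j →
      w.sd (ot j) = σ ∧ Nr E w D (w.pos (ep (ot j))) (ot j) ∧
        At E w D (w.pos (ep (ot j))) (decide (w.pos (ep (ot j)) < w.pos q)) := by
    intro j hj hM σ hc
    obtain ⟨⟨h1, h2, h3, h4⟩, -⟩ := N3 j hj hM σ hc
    have ho : On E w (ot j) := h2 ▸ H.on_bar (isEnd_of_seg h1.1 h1.2.1 _)
    have hc' := (cor_ot hSTEM H h1 _).1 hc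
    have hs : w.sd (ot j) = σ := by
      rcases hc' with e | e
      · exact (side_eq hCELL H pc (pcl H hw ho) (e.trans (H.cL_eq hw ho))).symm
      · exact (side_eq hCELL H pc (pcr H hw ho) (e.trans (H.cR_eq hw ho))).symm
    exact ⟨hs, ⟨ho, rfl, hs ▸ hc'⟩, hD ▸ at_near hw hη ho h3 h4⟩
  have same : ∀ j (hj : IsEnd E j), fc hj ∈ M → ∀ σ, Ce E w σ D = cL E j ∨ Ce E w σ D = cR E j →
      ∀ i (hi : IsEnd E i), fc hi ∈ M → ∀ τ, Ce E w τ D = cL E i ∨ Ce E w τ D = cR E i →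
      w.pos (ep (ot i)) = w.pos (ep (ot j)) := by
    intro j hj hM σ hc i hi hM' τ hc'
    have h1 := (N3 j hj hM σ hc).1.2.2.2
    have h2 := (N3 i hi hM' τ hc').1.2.2.2
    apply hη _ _ (A i hi hM' τ hc').2.1.1 (A j hj hM σ hc).2.1.1
    rw [abs_lt] at h1 h2 ⊢
    constructor <;> linarith [h1.1, h1.2, h2.1, h2.2]
  have uniq : ∀ j (hj : IsEnd E j), fc hj ∈ M → ∀ σ, Ce E w σ D = cL E j ∨ Ce E w σ D = cR E j →
      ∀ i (hi : IsEnd E i), fc hi ∈ M → Ce E w σ D = cL E i ∨ Ce E w σ D = cR E i → i = j := by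
    intro j hj hM σ hc i hi hM' hc'
    obtain ⟨a1, a2, a3⟩ := A j hj hM σ hc
    obtain ⟨b1, b2, -⟩ := A i hi hM' σ hc'
    rw [same j hj hM σ hc i hi hM' σ hc'] at b2
    exact ot_inj (nr_eq hSEP H a3 b2 a2 (b1.trans a1.symm))
  have shc : ∀ j (hj : IsEnd E j), fc hj ∈ M → (sh (fc hj)).1 = cL E j ∨ (sh (fc hj)).1 = cR E j :=
    fun j hj hM => (cor_fc hj _).1 (C.sh_cor _ hM)
  -- a moved light
  have B : ∀ j (hj : IsEnd E j), fc hj ∈ M → ∀ σ, Ce E w σ D = cL E j ∨ Ce E w σ D = cR E j →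
      Mv R E M F (sh (fc hj)).1 j → σ = decide (w.pos (ep (ot j)) < w.pos q) ∧
        ∃ k, On E w k ∧ w.pos (ep k) = w.pos (ep (ot j)) ∧ w.sd k = !σ ∧
          (cX E (ot j) = cL E k ∨ cX E (ot j) = cR E k) ∧ cX E k = (sh (fc hj)).1 := by
    intro j hj hM σ hc hm
    obtain ⟨a1, a2, a3⟩ := A j hj hM σ hc
    obtain ⟨h1, h2⟩ := N3 j hj hM σ hc
    obtain ⟨k, hk, e, h3, h4⟩ := hm.1
    have ho : On E w k := ⟨hk, e ▸ a2.1.2⟩
    have := moved hCELL hSEP hUNIQ H a3 a2 ho (by rw [e]) h3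
      (h4 ▸ (cor_ot hSTEM H h1.1 _).1 (shc j hj hM)) (by
        rw [h4, a1]; exact fun e' => h2.1 e'.symm hm)
    exact ⟨a1 ▸ this.1, k, ho, by rw [e], a1 ▸ this.2, h3, h4⟩
  have nomv : ∀ j (hj : IsEnd E j), fc hj ∈ M → ∀ σ, Ce E w σ D = cL E j ∨ Ce E w σ D = cR E j →
      Ce E w σ D = (sh (fc hj)).1 ∧ ¬ Mv R E M F (sh (fc hj)).1 j := by
    intro j hj hM σ hc
    suffices h : ¬ Mv R E M F (sh (fc hj)).1 j from ⟨(N3 j hj hM σ hc).2.2 h, h⟩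
    intro hm
    obtain ⟨a1, a2, a3⟩ := A j hj hM σ hc
    obtain ⟨b1, k, hk, b2, b3, b4, b5⟩ := B j hj hM σ hc hm
    have e := opp H a3 a2.1 rfl (.inl (a1.trans b1))
    rw [a1] at e
    obtain ⟨v, hv, hF | ⟨g, hg, hgv⟩⟩ := hm.2
    · exact N1 v hF _ (hv.trans e.symm)
    obtain ⟨i, hi, rfl⟩ := isfc g hg
    have hc' : Ce E w (!σ) D = cL E i ∨ Ce E w (!σ) D = cR E i := by
      rw [e, ← hv]; exact (cor_fc hi v).1 hgv
    obtain ⟨c1, c2, -⟩ := A i hi hg _ hc'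
    have c3 := same j hj hM σ hc i hi hg _ hc'
    rw [c3] at c2
    have c4 : ot i = k := nr_eq hSEP H a3 c2 ⟨hk, b2, by rw [b3, e]; exact b4⟩ (c1.trans b3.symm)
    have hm' : Mv R E M F (sh (fc hi)).1 i := by
      by_contra hn
      refine hn ⟨⟨ot j, a2.1.1, ?_, ?_, ?_⟩, ?_⟩
      · exact Bar.ext_pt (H.ne w hw) c3.symm (a2.1.2.1.trans c2.1.2.1.symm)
      · rw [c4, b5]; exact (cor_ot hSTEM H (N3 j hj hM σ hc).1.1 _).1 (shc j hj hM)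
      · rw [← e]; exact (N3 i hi hg _ hc').2.2 hn
      · rw [c4, b5]; exact ⟨_, rfl, .inr ⟨_, hM, C.sh_cor _ hM⟩⟩
    have := (B i hi hg _ hc' hm').1
    rw [c3, ← b1] at this
    simp at this
  have far : ∀ j (hj : IsEnd E j) (h : Rung E j.1),
      (mp R E).far (fc hj) (fc (j := ot j) (isEnd_of_seg h.1 h.2.1 _)) := fun j hj h =>
    (hFAR R E H _ _).2 ⟨j.1, j.2, h, rfl, rfl⟩
  -- a cell of the piece is lit from its side only through a light whose declared shadow is elsewhere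
  have LF : ∀ (u v : VV R E) σ, u.1 = Ce E w σ D → (mp R E).ln u v = w → (mp R E).LitFrom M F sh u v →
      ∃ j, ∃ hj : IsEnd E j, fc hj ∈ M ∧ (Ce E w σ D = cL E j ∨ Ce E w σ D = cR E j) ∧
        cX E (ot j) ≠ v.1 := by
    rintro u v σ hu hl (h | ⟨g, hg, h⟩ | ⟨g, hg, h1, h2⟩ | ⟨g, hg, g', hg', h1, h2, h3⟩)
    · exact absurd hu (N1 u h σ)
    · rw [hl] at h
      exact (h.elim (N2 g hg).1 (N2 g hg).2).elim
    · obtain ⟨j, hj, rfl⟩ := isfc g hg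
      have hc := hu ▸ (cor_fc hj u).1 h1
      refine ⟨j, hj, hg, hc, fun e => h2 _ (far j hj (N3 j hj hg σ hc).1.1) ?_ (Subtype.ext e)⟩
      exact Subtype.ext ((nomv j hj hg σ hc).1.symm.trans hu.symm)
    · obtain ⟨j, hj, rfl⟩ := isfc g hg
      obtain ⟨i, hi, rfl⟩ := isfc g' hg'
      exact absurd (fc_inj.2 (uniq i hi hg' σ (hu ▸ (cor_fc hi u).1 h3) j hj hg
        (hu ▸ (cor_fc hj u).1 h2))) h1
  -- no tie on the wrong side
  have good : ∀ j (hj : IsEnd E j), fc hj ∈ M → ∀ σ, Ce E w σ D = cL E j ∨ Ce E w σ D = cR E j →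
      σ = decide (w.pos (ep (ot j)) < w.pos q) ∨
        ∀ k, On E w k → w.pos (ep k) = w.pos (ep (ot j)) → w.sd k = σ := by
    intro j hj hM σ hc
    obtain ⟨a1, a2, a3⟩ := A j hj hM σ hc
    obtain ⟨b1, b2⟩ := nomv j hj hM σ hc
    by_contra hn
    push Not at hn
    obtain ⟨n1, k, hk, n2, n3⟩ := hn
    obtain ⟨i, hi, c1, c2, c3⟩ := tie hSEP H a3 a2 (a1 ▸ n1) hk n2 (a1 ▸ n3)
    have nl : ¬ Lit R E M F (cX E (ot j)) := fun h => b2 ⟨⟨i, hi.1,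
      Bar.ext_pt (H.ne w hw) c1 (hi.2.1.trans a2.1.2.1.symm), c2, by rw [c3, a1, b1]⟩, h⟩
    have ho := a2.1.1
    have pr : ∃ D', Pc E w D' ∧ Pair E (sh (fc hj)).1 ((mp R E).X (fc ho)).1 w D' := by
      have := a2.2.2
      rw [a1, b1] at this
      rcases this with e | e
      · exact ⟨_, pcl H hw a2.1, e ▸ H.bar_eq hw a2.1 ▸ pair_LX (ot j)⟩
      · exact ⟨_, pcr H hw a2.1, e ▸ H.bar_eq hw a2.1 ▸ H.pair_RX ho⟩
    obtain ⟨D', p1, p2⟩ := pr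
    obtain ⟨-, -, -, -, f5, f6, -⟩ := hFACE R E H
    rcases C.lit _ _ ((f5 _ _).2 ⟨w, D', p1, p2⟩) with h | h | h
    · obtain ⟨l, hl, hM', d1, d2⟩ := LF _ _ σ b1.symm (f6 _ _ _ _ p1 p2) h
      exact d2 (by rw [uniq j hj hM σ hc l hl hM' d1]; rfl)
    · rcases h with h | ⟨g, hg, h⟩ | ⟨g, hg, h, -⟩ | ⟨g, hg, -, -, -, h, -⟩
      · exact nl ⟨_, rfl, .inl h⟩
      · rw [f6 _ _ _ _ p1 p2.symm] at h
        exact h.elim (N2 g hg).1 (N2 g hg).2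
      · exact nl ⟨_, rfl, .inr ⟨g, hg, h⟩⟩
      · exact nl ⟨_, rfl, .inr ⟨g, hg, h⟩⟩
    · exact nl ⟨_, rfl, .inr h.2⟩
  have X : ∀ j (hj : IsEnd E j), fc hj ∈ M → ∀ σ, Ce E w σ D = cL E j ∨ Ce E w σ D = cR E j →
      Ce E w (!σ) D = cX E (ot j) := by
    intro j hj hM σ hc
    obtain ⟨a1, a2, a3⟩ := A j hj hM σ hc
    have := opp H a3 a2.1 rfl (by rw [a1]; exact good j hj hM σ hc)
    rwa [a1] at this
  obtain ⟨-, -, -, f4, -, f6, -⟩ := hFACE R E H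
  obtain ⟨u, v, adj, hu, hv⟩ := (f4 w D pc).2
  have pr : Pair E u.1 v.1 w D := .inl ⟨hu, hv⟩
  rcases C.lit u v adj with h | h | ⟨⟨g, hg, h1⟩, g', hg', h2⟩
  · obtain ⟨j, hj, hM, h1, h2⟩ := LF u v true hu (f6 _ _ _ _ pc pr) h
    exact h2 ((X j hj hM true h1).symm.trans hv.symm)
  · obtain ⟨j, hj, hM, h1, h2⟩ := LF v u false hv (f6 _ _ _ _ pc pr.symm) h
    exact h2 ((X j hj hM false h1).symm.trans hu.symm)
  · obtain ⟨j, hj, rfl⟩ := isfc g hg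
    obtain ⟨i, hi, rfl⟩ := isfc g' hg'
    have c1 := hu ▸ (cor_fc hj u).1 h1
    have c2 := hv ▸ (cor_fc hi v).1 h2
    have e := same j hj hg _ c1 i hi hg' _ c2
    obtain ⟨a1, a2, -⟩ := A j hj hg _ c1
    obtain ⟨b1, b2, -⟩ := A i hi hg' _ c2
    rcases good j hj hg _ c1 with d1 | d1
    · rcases good i hi hg' _ c2 with d2 | d2
      · rw [e, ← d1] at d2; simp at d2
      · have := d2 _ a2.1 e.symm; rw [a1] at this; simp at this
    · have := d1 _ b2.1 e; rw [b1] at this; simp at this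

end TLIGHT

open TLIGHT in
theorem t_LIGHT (hVIS : VIS) (hCELL : CELL) (hSTEM : STEM) (hSEP : SEP) (hUNIQ : UNIQ) (hOUT : OUT)
    (hFACE : FACE) (hFAR : FAR) (hHUG : HUG) (hLAMP : LAMP) : LIGHT := by
  classical
  intro R E H γ hγ M F sh C
  obtain ⟨η, hη, hη'⟩ := exists_eta E
  have L1 : ∀ f : JJ E, ∃ x, f ∈ M → Off E x ∧ ∀ j (hj : IsEnd E j), f = fc hj →
      (∀ q, j.1.Ob γ q ∨ (bar E j).Ob γ q → Sees E γ x q) ∧
      ∀ c, c = cL E j ∨ c = cR E j → ∀ w ∈ E, ∀ q ∈ closure c, w.Ob γ q →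
        Sees E γ x q ∨ Fail E η j w q ∧ (c = (sh f).1 ↔ ¬ Mv R E M F (sh f).1 j) := by
    intro f
    by_cases hf : f ∈ M
    · obtain ⟨j, hj, rfl⟩ := (JJ.cases R f).resolve_left fun e => C.fin (e ▸ hf)
      obtain ⟨x, h1, h2⟩ := lamp hVIS hCELL hSTEM hOUT hHUG hLAMP H hγ hη hj
        ((cor_fc hj _).1 (C.sh_cor _ hf)) (Mv R E M F (sh (fc hj)).1 j)
      refine ⟨x, fun _ => ⟨h1, fun i hi e => ?_⟩⟩
      obtain rfl := fc_inj.1 e
      exact h2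
    · exact ⟨0, fun h => absurd h hf⟩
  choose x hx using L1
  have cell := (hFACE R E H).2.2.2.2.2.2
  choose z hz using fun v : VV R E => ((hVIS R E H).2 _ (cell v)).2.2.1
  refine ⟨M.image x ∪ F.image z, (Finset.card_union_le _ _).trans
    (add_le_add Finset.card_image_le Finset.card_image_le), fun p hp => ?_, fun w hw q hq => ?_⟩
  · rcases Finset.mem_union.1 hp with h | h
    · obtain ⟨f, hf, rfl⟩ := Finset.mem_image.1 h
      exact (hx f hf).1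
    · obtain ⟨v, -, rfl⟩ := Finset.mem_image.1 h
      exact ((hVIS R E H).2 _ (cell v)).2.2.2.1 _ (hz v)
  by_contra hn
  push Not at hn
  have nM : ∀ f ∈ M, ¬ Sees E γ (x f) q := fun f hf =>
    hn _ (Finset.mem_union_left _ (Finset.mem_image_of_mem _ hf))
  have hin := hq.isIn hγ
  have cl : ∀ σ, q ∈ closure (Ce E w σ {k | On E w k ∧ w.pos (ep k) ≤ w.pos q}) := fun σ => by
    have := ((hCELL R E H w _ (pc_le hw (w.pos q)) σ).2.2.1 _ (fit_le hin.2)).2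
    rwa [← Bar.In.eq_pt (H.ne w hw) hin.1] at this
  refine dark hCELL hSTEM hSEP hUNIQ hFACE hFAR H C hw (hη' w hw) (q := q) rfl (fun v hv σ e => ?_)
    (fun f hf => ?_) fun j hj hM σ hc => ?_
  · exact hn _ (Finset.mem_union_right _ (Finset.mem_image_of_mem _ hv))
      ((hHUG R E H γ hγ).2 _ (cell v) _ (hz v) q (e ▸ cl σ))
  · obtain ⟨j, hj, rfl⟩ := (JJ.cases R f).resolve_left fun e => C.fin (e ▸ hf)
    have h := ((hx _ hf).2 j hj rfl).1 q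
    exact ⟨fun e => nM _ hf (h (.inl ((show j.1 = w from e) ▸ hq))),
      fun e => nM _ hf (h (.inr ((show bar E j = w from e) ▸ hq)))⟩
  · exact (((hx _ hM).2 j hj rfl).2 _ hc w hw q (cl σ) hq).resolve_left (nM _ hM)

end Pool.Agent.P.MP_5f84aa_co.G
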