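import Pool.Agent.P.MP_5f84aa_co.G.Bas3

/-! The trace of a cell on the line of a stem. -/

namespace Pool.Agent.P.MP_5f84aa_co.G

open Filter Topology Set

namespace TLINE

variable {R : ℝ} {E : Finset Bar} {s : Bar} {τ : Bool} {q : Pt}

/-- the cells at an end do not pass the bar of the end -/
theorem stop (hCELL : CELL) (hSTEM : STEM) (H : Sys R E) {e : Bool} (hj : IsEnd E (s, e))
    (hq : q ∈ closure (Ce E s τ (Dend E s e))) (h0 : s.ht q = 0) :
    0 ≤ if e then 1 - s.pos q else s.pos q := by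
  obtain ⟨σ, e1, e2⟩ := pair_iff.1 (hSTEM R E H _ hj)
  have h1 : 0 ≤ sg ((bar E (s, e)).sd (s, e)) * (bar E (s, e)).ht q := by
    by_cases h : τ = σ
    · exact closure_sign (hCELL R E H _ _ (H.pc_Dlt hj) _).2.2.2.2 (e1.symm ▸ h ▸ hq :
        q ∈ closure (cL E (s, e)))
    · exact closure_sign (hCELL R E H _ _ (H.pc_Dle hj) _).2.2.2.2
        (e2.symm ▸ Bool.eq_not_iff.2 h ▸ hq : q ∈ closure (cR E (s, e)))
  have h2 : q = ep (s, e) + (if e then 1 - s.pos q else s.pos q) • ed (s, e) := by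
    rw [ep_add_ed]
    refine (Bar.In.eq_pt (H.ne s hj.1) h0).trans ?_
    cases e <;> simp
  have h3 := H.sg_sd_pos (H.bar_mem hj) (H.on_bar hj)
  rw [h2, Bar.ht_add, (H.on_bar hj).2.1, zero_add, map_smul, smul_eq_mul, mul_left_comm] at h1
  exact nonneg_of_mul_nonneg_left h1 h3

theorem left (hSECT : SECT) (H : Sys R E) (hs : s ∈ E) {k : En} (hk : On E s k)
    (hq : q ∈ closure (cL E k)) (h0 : s.ht q = 0) : s.pos q ≤ s.pos (ep k) := by
  have : s.pos q - s.pos (ep k) ≤ s.sl k * |s.ht q| :=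
    closure_minimal (t := {z | s.pos z - s.pos (ep k) ≤ s.sl k * |s.ht z|})
      (fun z hz => (H.bar_eq hs hk ▸ (hSECT R E H k hk.1 z).1 hz).le)
      (isClosed_le (by fun_prop) (by fun_prop)) hq
  rw [h0, abs_zero, mul_zero] at this
  linarith

theorem right (hSECT : SECT) (H : Sys R E) (hs : s ∈ E) {k : En} (hk : On E s k)
    (hq : q ∈ closure (cR E k)) (h0 : s.ht q = 0) : s.pos (ep k) ≤ s.pos q := by
  have : s.sl k * |s.ht q| ≤ s.pos q - s.pos (ep k) :=
    closure_minimal (t := {z | s.sl k * |s.ht z| ≤ s.pos z - s.pos (ep k)})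
      (fun z hz => (H.bar_eq hs hk ▸ (hSECT R E H k hk.1 z).2 hz).le)
      (isClosed_le (by fun_prop) (by fun_prop)) hq
  rw [h0, abs_zero, mul_zero] at this
  linarith

end TLINE

open TLINE in
theorem t_LINE (hCELL : CELL) (hSTEM : STEM) (hSECT : SECT) (hRUN : RUN) : LINE := by
  rintro R E H ⟨s, e⟩ hj τ q hq h0
  have hs : s ∈ E := hj.1
  have hd := H.ne s hs
  have h1 := stop hCELL hSTEM H hj hq h0
  obtain ⟨r1, r2⟩ := hRUN R E H s _ (pc_Dend hs e) τ
  dsimp only at hq h0 ⊢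
  cases e
  · simp only [Bool.false_eq_true, if_false] at h1
    rcases r1 with ⟨k, hk, -, -, e⟩ | ⟨hk, e⟩
    · have h2 := left hSECT H hs hk (e ▸ hq) h0
      rcases h1.eq_or_lt with h | h
      · exact .inr (.inl (Bar.ext_pt hd (by simp [← h]) (by simp [h0])))
      · exact .inl ⟨h0, h, fun hr => h2.trans_lt (hk.2.2.2 hr)⟩
    · have h2 : s.Cl q := ⟨h0, h1, fun hr => by
        simpa using stop hCELL hSTEM H (isEnd_true hs hr) (e ▸ hq) h0⟩
      refine (h2.cases hd).imp_right (Or.imp_right fun h => ⟨h.1, fun k hk' ht => ?_, h.2⟩)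
      simpa using hk k hk' ht
  · have hr := hj.2 rfl
    simp only [if_true, sub_nonneg] at h1
    rcases r2 with ⟨k, hk, -, -, e⟩ | ⟨hk, e⟩
    · have h2 := hk.2.2.1.trans_le (right hSECT H hs hk (e ▸ hq) h0)
      rcases Bar.Cl.cases hd ⟨h0, h2.le, fun _ => h1⟩ with h | h | h
      · exact .inl h
      · simp [h] at h2
      · exact .inr (.inl h.2)
    · have h2 : s.Cl q := ⟨h0, by
        simpa using stop hCELL hSTEM H (isEnd_false hs) (e ▸ hq) h0, fun _ => h1⟩
      rcases h2.cases hd with h | h | h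
      · exact .inl h
      · exact .inr (.inr ⟨hr, fun k hk' ht => hk k hk' ht ⟨hk', rfl⟩, h⟩)
      · exact .inr (.inl h.2)

end Pool.Agent.P.MP_5f84aa_co.G
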