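import Pool.Agent.P.MP_5f84aa_co.G.Bas3

/-! The map of a system satisfies the axioms of an abstract map. -/

namespace Pool.Agent.P.MP_5f84aa_co.G

open Filter Topology Set

theorem t_OK (hSTEM : STEM) (hUNIQ : UNIQ) (hFACE : FACE) (hFAR : FAR) (hCONN : CONN)
    (hCOUNT : COUNT) (hEULER : EULER) (hHOLE : HOLE) (hMERGE : MERGE) : OK := by
  intro R E H
  obtain ⟨F1, F2, F3, F4, F5, F6, -⟩ := hFACE R E H
  obtain ⟨C1, C2⟩ := hCOUNT R E H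
  have two : ∀ u v, (mp R E).Adj u v → {j | (mp R E).has j u ∧ (mp R E).has j v}.ncard = 2 := by
    intro u v h
    obtain ⟨t, D, hD, hp⟩ := (F5 u v).1 h
    rw [← (F4 t D hD).1]
    congr 1
    ext f
    rw [mem_ofPred_eq, F3 f u v h.1]
    refine ⟨fun ⟨t', D', hi, hp'⟩ => ?_, fun hi => ⟨t, D, hi, hp⟩⟩
    obtain ⟨rfl, rfl⟩ := hUNIQ R E H _ _ _ _ _ _ hD (F2 f t' D' hi) hp hp'
    exact hi
  let _ := Fintype.ofFinite (VV R E)
  let _ := Fintype.ofFinite (JJ E)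
  simp only [Nat.card_eq_fintype_card] at C1 C2 ⊢
  obtain ⟨U1, U2, U3⟩ := hEULER _ _ _ (mp R E) F1 two exists_has (hCONN R E H) (by omega)
  have ne : ∀ f : JJ E, f ≠ (mp R E).inf → ∃ j, ∃ h : IsEnd E j, f = fc h := fun f hf =>
    (JJ.cases R f).resolve_left hf
  refine ⟨⟨fun j => (F1 j).1, fun j => (F1 j).2.1, fun j => (F1 j).2.2, two, fun u v => ?_,
    fun f hf => ?_, fun f hf => ?_, fun f hf => ?_, fun f hf => ?_, fun f f' h hf hf' hs => ?_,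
    fun f f' h u v huv hl => ?_, U2, U3, hHOLE R E H, fun v u hv => ?_,
    fun ρ => (hMERGE R E H ρ).1, fun ρ => (hMERGE R E H ρ).2.1, fun ρ => (hMERGE R E H ρ).2.2⟩,
    by omega, by omega⟩
  · exact congrArg Classical.epsilon (funext fun t => propext
      ⟨fun ⟨D, h1, h2⟩ => ⟨D, h1, h2.symm⟩, fun ⟨D, h1, h2⟩ => ⟨D, h1, h2.symm⟩⟩)
  · obtain ⟨j, h, rfl⟩ := ne f hf
    exact F6 _ _ _ _ (pc_Dend h.1 j.2) (hSTEM R E H j h)
  · obtain ⟨j, h, rfl⟩ := ne f hf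
    exact F6 _ _ _ _ (H.pc_Dlt h) (pair_LX j)
  · obtain ⟨j, h, rfl⟩ := ne f hf
    exact F6 _ _ _ _ (H.pc_Dle h) (H.pair_RX h)
  · obtain ⟨j, h, rfl⟩ := ne f hf
    exact H.stem_ne h
  · obtain ⟨j, hj, rfl⟩ := ne f hf
    obtain ⟨k, hk, rfl⟩ := ne f' hf'
    exact H.bars_ne hj hk (fun e => h (fc_inj.2 e)) hs
  · obtain ⟨s, e, hr, h1, -⟩ := (hFAR R E H f f').1 h
    obtain ⟨j, hj, rfl⟩ := ne f h.2.1
    obtain rfl : j = (s, e) := Option.some.inj h1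
    obtain ⟨t, D, hD, hp⟩ := (F5 u v).1 huv
    obtain rfl : t = s := (F6 u v t D hD hp).symm.trans hl
    obtain rfl : D = ∅ := eq_empty_of_forall_notMem fun k hk => hr.2.2 k (hD.2.1 k hk)
    have hs := hSTEM R E H _ hj
    rw [hr.Dend] at hs
    rw [cor_fc, cor_fc]
    rcases hs with ⟨a, b⟩ | ⟨a, b⟩ <;> rcases hp with ⟨c, d⟩ | ⟨c, d⟩ <;> simp [a, b, c, d]
  · refine le_trans (ncard_le_ncard (fun j hj => ?_)) ((hMERGE R E H ∅).1 v u)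
    refine ⟨fun e => hv (e ▸ hj.1.imp_right .inl), fun ⟨_, h, _⟩ => h, ⟨v, .refl, hj.1⟩, hj.2⟩

end Pool.Agent.P.MP_5f84aa_co.G
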