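import Pool.Agent.P.MP_5f84aa_co.G.Bas3

/-! The outer cells. -/

namespace Pool.Agent.P.MP_5f84aa_co.G

open Filter Topology Set

namespace TOUT

variable {R : ℝ} {E : Finset Bar}

theorem tri (i k : Fin 3) : i = k ∨ i = k + 1 ∨ i = k + 2 := by revert i k; decide

theorem a12 (i : Fin 3) : i + 1 + 2 = i := by revert i; decide

theorem a11 (i : Fin 3) : i + 1 + 1 = i + 2 := by revert i; decide

theorem rel (R : ℝ) (i : Fin 3) :
    ∃ c : ℝ, ∀ q, (ry R (i + 2)).ht q = (ry R i).pos q + (ry R i).ht q * c := by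
  rcases tri i 0 with rfl | rfl | rfl
  · exact ⟨0, fun q => by
      change (ry R 2).ht q = (ry R 0).pos q + (ry R 0).ht q * 0
      rw [ht_ry2, pos_ry0]; ring⟩
  · exact ⟨-1 / 2, fun q => by
      change (ry R 0).ht q = (ry R 1).pos q + (ry R 1).ht q * (-1 / 2)
      rw [ht_ry0, pos_ry1, ht_ry1]; ring⟩
  · exact ⟨-1, fun q => by
      change (ry R 1).ht q = (ry R 2).pos q + (ry R 2).ht q * (-1)
      rw [ht_ry1, pos_ry2, ht_ry2]; ring⟩

theorem tot (R : ℝ) (i : Fin 3) (q : Pt) :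
    (ry R i).ht q + (ry R (i + 1)).ht q + (ry R (i + 2)).ht q = 4 * R := by
  have := ht_ry_sum R q
  rcases tri i 0 with rfl | rfl | rfl
  · exact this
  · change (ry R 1).ht q + (ry R 2).ht q + (ry R 0).ht q = 4 * R
    linarith
  · change (ry R 2).ht q + (ry R 0).ht q + (ry R 1).ht q = 4 * R
    linarith

theorem line {i : Fin 3} {q : Pt} (h : (ry R i).ht q = 0) :
    (ry R (i + 2)).ht q = (ry R i).pos q := by
  obtain ⟨c, hc⟩ := rel R i
  rw [hc, h, zero_mul, add_zero]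

theorem org (R : ℝ) (i : Fin 3) :
    (ry R (i + 2)).ht (ry R i).o = 0 ∧ (ry R (i + 1)).ht (ry R i).o = 4 * R := by
  have h1 : (ry R (i + 2)).ht (ry R i).o = 0 := by rw [line (Bar.ht_o _), Bar.pos_o]
  have h2 := tot R i (ry R i).o
  rw [Bar.ht_o, h1] at h2
  exact ⟨h1, by linarith⟩

/-- no end lands on the outer side of a ray -/
theorem side (H : Sys R E) (i : Fin 3) {j : En} (hj : On E (ry R i) j) :
    (ry R i).sd j ≠ false := by
  rw [Ne, Bar.sd_false, not_le]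
  have h1 := in_ep_add (H.ne _ hj.1.1) one_half_pos one_half_lt_one
  have h2 : 0 < (ry R i).ht (ep j + (1 / 2 : ℝ) • ed j) := by
    cases hr : j.1.ray
    · exact H.inner _ hj.1.1 hr _ h1 i
    · obtain ⟨k, hk⟩ := H.rays _ hj.1.1 hr
      have h3 : ep j = (ry R k).o := by
        have : j.2 = false := by
          by_contra hc
          rw [hj.1.2 (by simpa using hc)] at hr
          exact absurd hr (by simp)
        rw [ep, this, hk]; simp
      have h4 := in_ry.1 (h3 ▸ hj.2)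
      rw [hk, in_ry] at h1
      rcases tri i k with rfl | rfl | rfl
      · simp at h4
      · linarith [h4.1, (org R k).2, H.pos]
      · rw [line h1.1]; exact h1.2
  rw [Bar.ht_add, hj.2.1, map_smul, smul_eq_mul] at h2
  linarith

/-- the outer sectors -/
def W (R : ℝ) (i : Fin 3) (z : Pt) : Prop := (ry R i).ht z < 0 ∧ 0 < (ry R (i + 2)).ht z

theorem off (H : Sys R E) {i : Fin 3} {z : Pt} (h : W R i z) : Off E z := fun w hw hc => by
  cases hr : w.ray
  · linarith [H.cl_tri hw hr hc i, h.1]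
  · obtain ⟨k, rfl⟩ := H.rays _ hw hr
    rw [cl_ry] at hc
    rcases tri i k with rfl | rfl | rfl
    · linarith [h.1, hc.1]
    · have := h.2
      rw [a12] at this
      linarith [hc.1]
    · linarith [h.1, hc.2, line hc.1]

theorem vis (H : Sys R E) {i : Fin 3} {x y : Pt} (hx : W R i x) (hy : W R i y) : Vis E x y := by
  rintro _ ⟨a, b, ha, hb, hab, rfl⟩
  refine off H (i := i) ⟨?_, ?_⟩
  · rw [Bar.ht_comb _ hab]
    exact convex_Iio (𝕜 := ℝ) (0 : ℝ) hx.1 hy.1 ha hb hab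
  · rw [Bar.ht_comb _ hab]
    exact convex_Ioi (𝕜 := ℝ) (0 : ℝ) hx.2 hy.2 ha hb hab

theorem sub (hVIS : VIS) (hCELL : CELL) (H : Sys R E) {i : Fin 3} {z : Pt} (h : W R i z) :
    z ∈ hh R E i := by
  obtain ⟨h1, -, -, h2, -⟩ := hCELL R E H _ _ (pc_empty (H.ry_mem i)) false
  obtain ⟨c, hc⟩ := rel R i
  have h3 := (h2 1 0 ⟨⟨one_pos, by simp⟩, fun j hj hs => absurd hs (side H i hj)⟩).2
  obtain ⟨ε, e1, e2, e3⟩ := (h3.and (ev_pos.and (ev_lt_of_lex (x := 0) (κ := c) (y := 1) (μ := 0)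
    (lex_lt.2 (.inl one_pos))))).exists
  refine (((hVIS R E H).2 _ h1).2.2.2.2.1 _ e1 z).1 (vis H ⟨?_, ?_⟩ h)
  · rw [Bar.ht_gp (ry_ne R i), sg_false]; linarith
  · rw [hc, Bar.ht_gp (ry_ne R i), Bar.pos_gp (ry_ne R i), sg_false]; linarith

end TOUT

open TOUT in
theorem t_OUT (hVIS : VIS) (hCELL : CELL) : OUT := by
  intro R E H
  have cell : ∀ i, IsCell E (hh R E i) := fun i =>
    (hCELL R E H _ _ (pc_empty (H.ry_mem i)) false).1
  refine ⟨fun i D => Ce_congr fun j hj hs => absurd hs (side H i hj), fun i => ?_,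
    fun i => ⟨isEnd_false (H.ry_mem _), ?_⟩, fun c hc hne z hz => ?_⟩
  · obtain ⟨h1, -, -, h2, -⟩ := hCELL R E H _ _ (pc_Dend (H.ry_mem i) true) true
    obtain ⟨c, hc⟩ := rel R i
    obtain ⟨m, hm⟩ := ((finite_on E (ry R i)).image fun j => (ry R i).pos (ep j)).bddAbove
    have hR := H.pos
    have a1 := le_max_left m (4 * R)
    have a2 := le_max_right m (4 * R)
    have h3 := (h2 (max m (4 * R) + 1) 0 ⟨⟨by linarith, by simp⟩, fun j hj _ =>
      ⟨fun _ => lex_lt.2 (.inl (by linarith [hm ⟨j, hj, rfl⟩])),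
        fun hn => absurd ⟨hj, rfl⟩ hn⟩⟩).2
    obtain ⟨ε, e1, e2, e3⟩ := (h3.and (ev_pos.and (ev_lt_of_lex (x := 0) (κ := 0) (y := 1)
      (μ := c) (lex_lt.2 (.inl one_pos))))).exists
    refine ((hVIS R E H).2 _ h1).2.2.2.2.2 _ (cell _) _ e1 (sub hVIS hCELL H ⟨?_, ?_⟩)
    · have := tot R i ((ry R i).gp true (max m (4 * R) + 1) 0 ε)
      rw [hc, Bar.ht_gp (ry_ne R i), Bar.pos_gp (ry_ne R i), sg_true] at this
      linarith
    · rw [a12, Bar.ht_gp (ry_ne R i), sg_true]; linarith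
  · obtain ⟨h1, h2⟩ := org R (i + 1)
    rw [a12] at h1
    rw [a11, line h1] at h2
    exact in_ry.2 ⟨h1, by rw [ep_false, h2]; linarith [H.pos]⟩
  · obtain ⟨-, -, -, h1, -, h2⟩ := (hVIS R E H).2 c hc
    have key : ∀ i, 0 < (ry R (i + 2)).ht z → 0 < (ry R i).ht z := fun i h => by
      rcases lt_trichotomy ((ry R i).ht z) 0 with h3 | h3 | h3
      · exact absurd (h2 _ (cell i) z hz (sub hVIS hCELL H ⟨h3, h⟩)) (hne i)
      · exact absurd (cl_ry.2 ⟨h3, (line h3 ▸ h).le⟩) (h1 z hz _ (H.ry_mem i))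
      · exact h3
    intro i
    by_contra hn
    have k1 := key (i + 1)
    have k2 := key (i + 1 + 1)
    rw [a12] at k1 k2
    rw [a11] at k2
    have h4 : ¬ 0 < (ry R (i + 2)).ht z := fun h => hn (key i h)
    have h5 : ¬ 0 < (ry R (i + 1)).ht z := fun h => h4 (k2 h)
    have := tot R i z
    linarith [H.pos, not_lt.1 hn, not_lt.1 h4, not_lt.1 h5]

end Pool.Agent.P.MP_5f84aa_co.G
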