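import Pool.Agent.P.MP_5f84aa_co.G.Bas3

/-! Half discs, and lights in a gap. -/

namespace Pool.Agent.P.MP_5f84aa_co.G

open Filter Topology Set

namespace TPERT

variable {R : ℝ} {E : Finset Bar}

theorem half (hVIS : VIS) (hCELL : CELL) (H : Sys R E) {s : Bar} {D : Set En} {x₀ : ℝ}
    (hD : Pc E s D) (hx : Fit E s D x₀) (hn : ∀ j, On E s j → s.pos (ep j) ≠ x₀) (τ : Bool) :
    ∀ᶠ z in 𝓝 (s.pt x₀ 0), 0 < sg τ * s.ht z → z ∈ Ce E s τ D := by
  have h0 := H.ne s hD.1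
  have h1 : ∀ᶠ z in 𝓝 (s.pt x₀ 0), ∀ w ∈ E, w ≠ s → ¬ w.Cl z := by
    refine (eventually_all_finset E).2 fun w hw => ?_
    by_cases e : w = s
    · exact Eventually.of_forall fun _ h => absurd e h
    · have h2 : ¬ w.Cl (s.pt x₀ 0) := fun c => by
        rcases H.cl_of_in hD.1 hw ((Bar.in_pt h0).2 hx.1) c with h | ⟨b, h, h'⟩
        · exact e h
        · exact hn _ h (by rw [← h', Bar.pos_pt h0])
      filter_upwards [w.isClosed_Cl.isOpen_compl.mem_nhds h2] with z hz _ using hz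
  obtain ⟨ε, hε, h2⟩ := Metric.eventually_nhds_iff_ball.1 h1
  obtain ⟨c1, -, c3, c4, c5⟩ := hCELL R E H s D hD τ
  obtain ⟨κ, hκ⟩ := (c3 x₀ hx).1
  obtain ⟨a, a1, a2⟩ := ((c4 x₀ κ hκ).2.and
    ((s.tendsto_gp τ x₀ κ).eventually (Metric.ball_mem_nhds _ hε))).exists
  filter_upwards [Metric.ball_mem_nhds _ hε] with z hz hs
  refine (((hVIS R E H).2 _ c1).2.2.2.2.1 _ a1 z).1 fun y hy w hw c => ?_
  by_cases e : w = s
  · subst e
    have h3 := c5 _ a1
    obtain ⟨u, v, hu, hv, huv, rfl⟩ := hy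
    have h4 := c.1
    rw [w.ht_comb huv] at h4
    have h5 : u * (sg τ * w.ht (w.gp τ x₀ κ a)) + v * (sg τ * w.ht z) = 0 := by
      linear_combination sg τ * h4
    rcases hu.eq_or_lt with rfl | hu'
    · rw [zero_add] at huv
      rw [huv] at h5
      linarith
    · nlinarith [mul_pos hu' h3, mul_nonneg hv hs.le]
  · exact h2 y ((convex_ball _ _).segment_subset a2 hz hy) w hw e c

end TPERT

theorem t_PERT (hVIS : VIS) (hCELL : CELL) (hHUG : HUG) : PERT := by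
  intro R E H s D x₀ hD hx hn τ
  have h0 := H.ne s hD.1
  have h1 := TPERT.half hVIS hCELL H hD hx hn τ
  refine ⟨h1, fun γ hγ ho Q hQ hc hq => ?_⟩
  obtain ⟨c1, -, -, -, c5⟩ := hCELL R E H s D hD τ
  set p := s.pt x₀ 0 with hp
  have h2 : ∀ᶠ z in 𝓝 p, ∀ w ∈ E, ¬ w.Ob γ z := by
    refine (eventually_all_finset E).2 fun w hw => (w.isClosed_Ob γ).isOpen_compl.mem_nhds ?_
    intro c
    obtain rfl := H.disj _ hw _ hD.1 _ (Bar.Ob.isIn hγ c) ((Bar.in_pt h0).2 hx.1)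
    exact ho c
  obtain ⟨ε, hε, h3⟩ := Metric.eventually_nhds_iff_ball.1 (h1.and h2)
  have h4 : ∀ᶠ θ in 𝓝 (0 : ℝ), ∀ q ∈ Q, (1 - θ) • p + θ • q ∈ Metric.ball p ε := by
    refine hQ.eventually_forall_of_forall_eventually fun q _ => ?_
    have : ContinuousAt (fun z : ℝ × Pt => (1 - z.1) • p + z.1 • z.2) (0, q) := by fun_prop
    exact this.eventually (Metric.isOpen_ball.mem_nhds (by simpa using hε))
  obtain ⟨θ, t1, t2⟩ := ((h4.filter_mono nhdsWithin_le_nhds).and ev_pos).exists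
  have h5 : ∀ᶠ x in 𝓝 p, ∀ q ∈ Q, (1 - θ) • x + θ • q ∈ Metric.ball p ε ∧
      0 < sg τ * s.ht ((1 - θ) • x + θ • q) := by
    refine hQ.eventually_forall_of_forall_eventually fun q hqQ => ?_
    have a : ContinuousAt (fun z : Pt × Pt => (1 - θ) • z.1 + θ • z.2) (p, q) := by fun_prop
    refine (a.eventually (Metric.isOpen_ball.mem_nhds (t1 q hqQ))).and
      (ContinuousAt.eventually_lt continuousAt_const (by fun_prop) ?_)
    have b := lt_of_le_of_ne (closure_sign c5 (hc hqQ)) (mul_ne_zero (sg_ne τ) (hq q hqQ)).symm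
    change 0 < sg τ * s.ht ((1 - θ) • p + θ • q)
    rw [s.ht_comb (by ring), hp, Bar.ht_pt h0]
    nlinarith [mul_pos t2 b]
  filter_upwards [h5, Metric.ball_mem_nhds p hε] with x hx1 hx2 q hqQ z hz
  obtain ⟨b1, b2⟩ := hx1 q hqQ
  rcases openSegment_subset_union x q ⟨θ, AffineMap.lineMap_apply_module x q θ⟩ hz with rfl | h | h
  · exact (h3 _ b1).2
  · exact (h3 _ ((convex_ball _ _).openSegment_subset hx2 b1 h)).2
  · exact (hHUG R E H γ hγ).2 _ c1 _ ((h3 _ b1).1 b2) q (hc hqQ) z h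

end Pool.Agent.P.MP_5f84aa_co.G
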