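import Pool.Agent.P.MP_5f84aa_co.G.Bas3

namespace Pool.Agent.P.MP_5f84aa_co.G

open Set Filter Topology

namespace TSECT

variable {R : ℝ} {E : Finset Bar} {t : Bar} {j : En}

theorem dec (H : Pre R E) (ht : t ∈ E) (hj : On E t j) {z : Pt} (hz : 0 ≤ sg (t.sd j) * t.ht z) :
    z = ep j + (|t.ht z| / |t.lh (ed j)|) • ed j +
      (t.pos z - t.pos (ep j) - t.sl j * |t.ht z|) • t.d := by
  have h0 := H.ne t ht
  rw [← H.gp_end ht hj]
  apply Bar.ext_pt h0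
  · rw [Bar.pos_add, Bar.pos_gp h0, map_smul, Bar.lp_d h0, smul_eq_mul]; ring
  · rw [Bar.ht_add, Bar.ht_gp h0, map_smul, Bar.lh_d, abs_of_sg hz, ← mul_assoc, sg_mul_self]; simp

theorem ht_stem (H : Pre R E) (ht : t ∈ E) (hj : On E t j) {z : Pt} (hz : 0 ≤ sg (t.sd j) * t.ht z) :
    j.1.ht z = (t.pos z - t.pos (ep j) - t.sl j * |t.ht z|) * j.1.lh t.d := by
  conv_lhs => rw [dec H ht hj hz]
  simp [Bar.ht_add, ht_ep, lh_ed]

end TSECT

theorem t_SECT (hCELL : CELL) (hSTEM : STEM) : SECT := by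
  intro R E H j hj z
  have ht := H.bar_mem hj
  have ho := H.on_bar hj
  have h0 := H.ne _ ht
  obtain ⟨τ, e1, e2⟩ := pair_iff.1 (hSTEM R E H j hj)
  obtain ⟨η, ⟨s1, s2⟩, hη⟩ := ((H.sep_near ht ho).and ev_pos).exists
  obtain ⟨-, -, -, a1, a2⟩ := hCELL R E H _ _ (H.pc_Dlt hj) ((bar E j).sd j)
  obtain ⟨-, -, -, b1, b2⟩ := hCELL R E H _ _ (H.pc_Dle hj) ((bar E j).sd j)
  have c1 := (hCELL R E H _ _ (pc_Dend hj.1 j.2) τ).2.2.2.2
  have c2 := (hCELL R E H _ _ (pc_Dend hj.1 j.2) (!τ)).2.2.2.2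
  rw [← e1] at c1
  rw [← e2] at c2
  constructor
  · intro hz
    obtain ⟨ε, h1, h2⟩ := ((a1 _ _ s1).2.and ev_pos).exists
    have d1 := c1 _ h1
    have d2 := c1 _ hz
    rw [TSECT.ht_stem H.toPre ht ho (a2 _ h1).le, Bar.pos_gp h0, Bar.ht_gp h0, abs_mul, abs_sg,
      abs_of_pos h2] at d1
    rw [TSECT.ht_stem H.toPre ht ho (a2 _ hz).le] at d2
    have d3 : sg τ * j.1.lh (bar E j).d < 0 := by
      by_contra hc
      nlinarith [mul_nonneg (mul_pos h2 hη).le (not_lt.1 hc)]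
    by_contra hc
    nlinarith [mul_nonneg (sub_nonneg.2 (not_lt.1 hc)) (neg_pos.2 d3).le]
  · intro hz
    obtain ⟨ε, h1, h2⟩ := ((b1 _ _ s2).2.and ev_pos).exists
    have d1 := c2 _ h1
    have d2 := c2 _ hz
    rw [TSECT.ht_stem H.toPre ht ho (b2 _ h1).le, Bar.pos_gp h0, Bar.ht_gp h0, abs_mul, abs_sg,
      abs_of_pos h2] at d1
    rw [TSECT.ht_stem H.toPre ht ho (b2 _ hz).le] at d2
    have d3 : 0 < sg (!τ) * j.1.lh (bar E j).d := by
      by_contra hc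
      nlinarith [mul_nonneg (mul_pos h2 hη).le (neg_nonneg.2 (not_lt.1 hc))]
    by_contra hc
    nlinarith [mul_nonneg (sub_nonneg.2 (not_lt.1 hc)) d3.le]

end Pool.Agent.P.MP_5f84aa_co.G
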