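import Pool.Agent.P.MP_5f84aa_co.G.Bas3

namespace Pool.Agent.P.MP_5f84aa_co.G

open Set Filter Topology

theorem t_SEP (hVIS : VIS) (hCELL : CELL) : SEP := by
  intro R E H t D D' j h h' hj hn hm e
  obtain ⟨cell, ⟨y, hy⟩, a1, a2, -⟩ := hCELL R E H t D h (t.sd j)
  obtain ⟨-, ⟨y', hy'⟩, b1, b2, -⟩ := hCELL R E H t D' h' (t.sd j)
  obtain ⟨μ, hμ⟩ := (a1 y hy).1
  obtain ⟨μ', hμ'⟩ := (b1 y' hy').1
  have p := abs_pos.2 (H.lh_ne h.1 hj)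
  obtain ⟨ε, c1, c2, c3, c4, c5, c6⟩ := ((a2 y μ hμ).2.and ((b2 y' μ' hμ').2.and
    ((ev_lt_of_lex ((hμ.2 j hj rfl).2 hn)).and ((ev_lt_of_lex ((hμ'.2 j hj rfl).1 hm)).and
      (ev_pos.and (ev_lt p)))))).exists
  obtain ⟨-, hc, -, ho, -⟩ := (hVIS R E H).2 _ cell
  have : t.pos (ep j) + ε * t.sl j ∈ segment ℝ (y + ε * μ) (y' + ε * μ') := by
    rw [segment_eq_Icc (c3.trans c4).le]; exact ⟨c3.le, c4.le⟩
  obtain ⟨a, b, ha, hb, hab, h3⟩ := this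
  have h4 := hc c1 (e ▸ c2) ha hb hab
  simp only [Bar.gp, Bar.pt_comb _ hab] at h4
  rw [show a * (y + ε * μ) + b * (y' + ε * μ') = t.pos (ep j) + ε * t.sl j from h3, ← add_mul, hab,
    one_mul] at h4
  have h5 := in_ep_add (H.ne _ hj.1.1) (div_pos c5 p) ((div_lt_one p).2 c6)
  rw [← H.gp_end h.1 hj] at h5
  exact ho _ h4 _ hj.1.1 h5.cl

end Pool.Agent.P.MP_5f84aa_co.G
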