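import Pool.Agent.P.MP_5f84aa_co.G.Bas3

/-! A cell has at most two corners on a bar. -/

namespace Pool.Agent.P.MP_5f84aa_co.G

open Filter Topology Set

namespace TSIDE

theorem two {α : Type} {s a b : Set α} (h : s ⊆ a ∪ b) (ha : a.Subsingleton)
    (hb : b.Subsingleton) : s.ncard ≤ 2 :=
  (ncard_le_ncard h (ha.finite.union hb.finite)).trans ((ncard_union_le a b).trans
    (add_le_add ((ncard_le_one ha.finite).2 fun _ h1 _ h2 => ha h1 h2)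
      ((ncard_le_one hb.finite).2 fun _ h1 _ h2 => hb h1 h2)))

end TSIDE

theorem t_SIDE (hVIS : VIS) (hCELL : CELL) (hSTEM : STEM) (hSEP : SEP) : SIDE := by
  intro R E H c u
  have sep : ∀ {s s' : Bool} {D D' : Set En} {j : En}, Pc E u D → Pc E u D' → On E u j → j ∉ D →
      j ∈ D' → c = Ce E u s D → c = Ce E u s' D' → s = u.sd j ∨ s' = u.sd j → False := by
    intro s s' D D' j h1 h2 h3 h4 h5 e1 e2 h6
    obtain ⟨z, hz⟩ := ((hVIS R E H).2 _ (hCELL R E H u D h1 s).1).2.2.1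
    have e : s = s' := sg_eq ((hCELL R E H u D h1 s).2.2.2.2 z hz)
      ((hCELL R E H u D' h2 s').2.2.2.2 z (e2 ▸ e1 ▸ hz))
    subst e
    rw [or_self] at h6
    subst h6
    exact hSEP R E H u D D' j h1 h2 h3 h4 h5 (e1.symm.trans e2)
  have ple : ∀ {j}, u ∈ E → On E u j → Pc E u (Dle E j) := fun hu hj =>
    H.bar_eq hu hj ▸ H.pc_Dle hj.1
  have plt : ∀ {j}, u ∈ E → On E u j → Pc E u (Dlt E j) := fun hu hj =>
    H.bar_eq hu hj ▸ H.pc_Dlt hj.1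
  refine TSIDE.two
    (a := {j | u ∈ E ∧ ((j = (u, false) ∧ ∃ s, c = Ce E u s (Dend E u false)) ∨
      (On E u j ∧ c = Ce E u (u.sd j) (Dle E j)))})
    (b := {j | u ∈ E ∧ ((j = (u, true) ∧ ∃ s, c = Ce E u s (Dend E u true)) ∨
      (On E u j ∧ c = Ce E u (u.sd j) (Dlt E j)))}) ?_ ?_ ?_
  · rintro ⟨s, e⟩ ⟨hj, hc, rfl | rfl⟩
    · obtain ⟨σ, e1, e2⟩ := pair_iff.1 (hSTEM R E H _ hj)
      have h : ∃ τ, c = Ce E s τ (Dend E s e) :=
        hc.elim (fun h => ⟨_, h.trans e1⟩) fun h => ⟨_, h.trans e2⟩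
      cases e
      · exact .inl ⟨hj.1, .inl ⟨rfl, h⟩⟩
      · exact .inr ⟨hj.1, .inl ⟨rfl, h⟩⟩
    · rcases hc with h | h
      · exact .inr ⟨H.bar_mem hj, .inr ⟨H.on_bar hj, h⟩⟩
      · exact .inl ⟨H.bar_mem hj, .inr ⟨H.on_bar hj, h⟩⟩
  · rintro j ⟨hu, ⟨rfl, s, hj⟩ | ⟨hj, ej⟩⟩ k ⟨-, ⟨rfl, s', hk⟩ | ⟨hk, ek⟩⟩
    · rfl
    · exact (sep (pc_Dend hu _) (ple hu hk) hk (by simp) (H.mem_Dle_self hk.1) hj ek
        (.inr rfl)).elim
    · exact (sep (pc_Dend hu _) (ple hu hj) hj (by simp) (H.mem_Dle_self hj.1) hk ej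
        (.inr rfl)).elim
    · rcases lt_trichotomy (u.key j) (u.key k) with h | h | h
      · exact (sep (ple hu hj) (ple hu hk) hk (fun m => not_le.2 h ((H.mem_Dle hu hj).1 m).2)
          (H.mem_Dle_self hk.1) ej ek (.inr rfl)).elim
      · exact H.key_inj hu hj hk h
      · exact (sep (ple hu hk) (ple hu hj) hj (fun m => not_le.2 h ((H.mem_Dle hu hk).1 m).2)
          (H.mem_Dle_self hj.1) ek ej (.inr rfl)).elim
  · rintro j ⟨hu, ⟨rfl, s, hj⟩ | ⟨hj, ej⟩⟩ k ⟨-, ⟨rfl, s', hk⟩ | ⟨hk, ek⟩⟩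
    · rfl
    · exact (sep (plt hu hk) (pc_Dend hu _) hk (not_mem_Dlt k) ⟨hk, rfl⟩ ek hj (.inl rfl)).elim
    · exact (sep (plt hu hj) (pc_Dend hu _) hj (not_mem_Dlt j) ⟨hj, rfl⟩ ej hk (.inl rfl)).elim
    · rcases lt_trichotomy (u.key j) (u.key k) with h | h | h
      · exact (sep (plt hu hj) (plt hu hk) hj (not_mem_Dlt j) ((H.mem_Dlt hu hk).2 ⟨hj, h⟩) ej ek
          (.inl rfl)).elim
      · exact H.key_inj hu hj hk h
      · exact (sep (plt hu hk) (plt hu hj) hk (not_mem_Dlt k) ((H.mem_Dlt hu hj).2 ⟨hk, h⟩) ek ej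
          (.inl rfl)).elim

end Pool.Agent.P.MP_5f84aa_co.G
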