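import Pool.Agent.P.MP_5f84aa_co.G.Bas3

/-! The cells at an end are the cells of the first piece of the stem. -/

namespace Pool.Agent.P.MP_5f84aa_co.G

open Filter Topology Set

namespace TSTEM

variable {R : ℝ} {E : Finset Bar}

theorem one (hVIS : VIS) (hWALK : WALK) (hBLK : BLK) (hCELL : CELL) (H : Sys R E) {j : En}
    (hj : IsEnd E j) (τ : Bool) : ∃ K : ℝ, ∀ κ m : ℝ, K < sg (!j.2) * κ → 0 < m → ∀ c, IsCell E c →
      (∀ᶠ ε in 𝓝[>] 0, j.1.gp τ (j.1.pos (ep j)) κ (ε * m) ∈ c) →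
      c = Ce E j.1 τ (Dend E j.1 j.2) := by
  obtain ⟨s, e⟩ := j
  have hs : s ∈ E := hj.1
  have h0 := H.ne s hs
  obtain ⟨K, hK⟩ := ((finite_blk H.ne h0 τ (s.pos (ep (s, e)))).image (sg (!e) * ·)).bddAbove
  refine ⟨K, fun κ m hκ hm c hc hev => ?_⟩
  have hb : ∀ μ, sg (!e) * κ ≤ sg (!e) * μ → ¬ Blk E s τ (s.pos (ep (s, e))) μ := fun μ h1 h2 =>
    (hK ⟨μ, h2, rfl⟩).not_gt (hκ.trans_le h1)
  obtain ⟨a, ⟨a0, a1⟩, ha⟩ := ((ev_pos.and (ev_lt one_pos)).and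
    (ev_no_end E s (s.pos (ep (s, e))) (sg (!e)))).exists
  have key : Sep E s τ (Dend E s e) (s.pos (ep (s, e)) + a * sg (!e)) 0 ∧ ∀ᶠ ε in 𝓝[>] 0,
      Vis E (s.gp τ (s.pos (ep (s, e))) κ ε) (s.gp τ (s.pos (ep (s, e)) + a * sg (!e)) 0 ε) := by
    rw [pos_ep (j := (s, e)) h0] at ha hb ⊢
    cases e
    · simp only [Bool.not_false, sg_true, mul_one, one_mul, Bool.false_eq_true, if_false,
        zero_add] at ha hb ⊢
      refine ⟨⟨⟨a0, fun _ => a1⟩, fun k hk _ => ⟨fun h => absurd h.2 (by simp), fun _ =>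
        lex_lt.2 (.inl ((ha k hk).1 hk.2.2.1))⟩⟩,
        hWALK E s τ _ _ _ _ h0 H.ne (lex_le.2 (.inl a0)) fun y μ h1 h2 h3 => ?_⟩
      rcases lex_le.1 h1 with h1 | ⟨rfl, h6⟩
      · have h4 : y ≤ a := (lex_le.1 h2).elim le_of_lt fun h => h.1.le
        obtain ⟨k, hk, -, h5⟩ := (hBLK R E H s hs τ y μ ⟨h1, fun _ => by linarith⟩).1 h3
        linarith [(lex_eq.1 h5).1, (ha k hk).1 hk.2.2.1]
      · exact hb μ h6 h3
    · have hr := hj.2 rfl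
      simp only [Bool.not_true, sg_false, mul_neg, neg_mul, mul_one, one_mul, if_true,
        neg_le_neg_iff] at ha hb ⊢
      refine ⟨⟨⟨by linarith, fun _ => by linarith⟩, fun k hk _ => ⟨fun _ =>
        lex_lt.2 (.inl ((ha k hk).2 (hk.2.2.2 hr))), fun h => absurd ⟨hk, rfl⟩ h⟩⟩,
        (hWALK E s τ _ _ _ _ h0 H.ne (lex_le.2 (.inl (by linarith))) fun y μ h1 h2 h3 => ?_).mono
          fun _ => Vis.symm⟩
      rcases lex_le.1 h2 with h2 | ⟨rfl, h6⟩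
      · have h4 : 1 + -a ≤ y := (lex_le.1 h1).elim le_of_lt fun h => h.1.le
        obtain ⟨k, hk, -, h5⟩ := (hBLK R E H s hs τ y μ ⟨by linarith, fun _ => h2⟩).1 h3
        linarith [(lex_eq.1 h5).1, (ha k hk).2 (hk.2.2.2 hr)]
      · exact hb μ h6 h3
  obtain ⟨c1, -, -, c2, -⟩ := hCELL R E H s _ (pc_Dend hs e) τ
  obtain ⟨ε, ⟨h1, h2⟩, h3⟩ := ((ev_scale hm (key.2.and (c2 _ _ key.1).2)).and hev).exists
  obtain ⟨-, -, -, -, v1, v2⟩ := (hVIS R E H).2 c hc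
  exact v2 _ c1 _ ((v1 _ h3 _).1 h1) h2

theorem two (hVIS : VIS) (hWALK : WALK) (hBLK : BLK) (hCELL : CELL) (H : Sys R E) {j : En}
    (hj : IsEnd E j) (τ : Bool) (ω : ℝ) (h : 0 < sg τ * (ω * j.1.lh (bar E j).d)) (c : Set Pt)
    (hc : IsCell E c) (hev : ∀ᶠ η in 𝓝[>] (0 : ℝ), ∀ᶠ ε in 𝓝[>] 0, (bar E j).gp ((bar E j).sd j)
      ((bar E j).pos (ep j)) ((bar E j).sl j + η * ω) ε ∈ c) :
    c = Ce E j.1 τ (Dend E j.1 j.2) := by
  obtain ⟨K, hK⟩ := one hVIS hWALK hBLK hCELL H hj τ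
  have ht := H.bar_mem hj
  have ho := H.on_bar hj
  generalize bar E j = t at *
  have h0 := H.ne _ hj.1
  have h1 : 0 < 1 / |t.lh (ed j)| := one_div_pos.2 (abs_pos.2 (H.lh_ne ht ho))
  obtain ⟨η, ⟨η0, h2⟩, h3⟩ := ((ev_pos.and (ev_lt_of_lex (κ := K * (sg τ * (ω * j.1.lh t.d)))
    (μ := sg (!j.2) * (ω * j.1.lp t.d)) (lex_lt.2 (.inl h1)))).and hev).exists
  set v := (1 / |t.lh (ed j)|) • ed j + (η * ω) • t.d with hv
  have h4 : sg τ * j.1.lh v = η * (sg τ * (ω * j.1.lh t.d)) := by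
    rw [hv, map_add, map_smul, map_smul, lh_ed, smul_zero, zero_add, smul_eq_mul]
    ring
  have h5 : 0 < sg τ * j.1.lh v := h4 ▸ mul_pos η0 h
  refine hK (j.1.lp v / (sg τ * j.1.lh v)) _ ?_ h5 c hc (h3.mono fun ε h6 => ?_)
  · have : sg (!j.2) * sg (!j.2) = 1 := by cases j.2 <;> simp
    rw [← mul_div_assoc, lt_div_iff₀ h5, h4, hv, map_add, map_smul, map_smul, lp_ed h0, smul_eq_mul,
      smul_eq_mul]
    linear_combination h2 - (1 / |t.lh (ed j)|) * this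
  · rw [← Bar.gp_dir h0 (ht_ep j) h5]
    convert h6 using 1
    rw [hv, smul_add, smul_smul, mul_one_div, ← add_assoc, ← H.gp_end ht ho, Bar.gp_eq, Bar.gp_eq]
    module

end TSTEM

open TSTEM

theorem t_STEM (hVIS : VIS) (hWALK : WALK) (hBLK : BLK) (_hGERM : GERM) (hCELL : CELL) : STEM := by
  intro R E H j hj
  have ht := H.bar_mem hj
  have ho := H.on_bar hj
  have h1 : j.1.lh (bar E j).d ≠ 0 := by
    rw [Bar.lh_swap, neg_ne_zero]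
    exact H.lh_d_ne ht ho
  obtain ⟨τ, h2⟩ : ∃ τ, 0 < sg τ * (-1 * j.1.lh (bar E j).d) := by
    rcases h1.lt_or_gt with h | h
    exacts [⟨true, by simpa⟩, ⟨false, by simpa⟩]
  obtain ⟨a1, -, -, a2, -⟩ := hCELL R E H _ _ (H.pc_Dlt hj) ((bar E j).sd j)
  obtain ⟨b1, -, -, b2, -⟩ := hCELL R E H _ _ (H.pc_Dle hj) ((bar E j).sd j)
  have h3 := H.sep_near ht ho
  refine pair_iff.2 ⟨τ, two hVIS hWALK hBLK hCELL H hj τ _ h2 _ a1 (h3.mono fun η h => ?_),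
    two hVIS hWALK hBLK hCELL H hj (!τ) 1 ?_ _ b1 (h3.mono fun η h => ?_)⟩
  · rw [mul_neg_one, ← sub_eq_add_neg]
    exact (a2 _ _ h.1).2
  · cases τ <;> simpa using h2
  · rw [mul_one]
    exact (b2 _ _ h.2).2

end Pool.Agent.P.MP_5f84aa_co.G
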