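import Pool.Agent.P.MP_5f84aa_co.G.Bas3

/-! One bad end point is removed: the bar is prolonged up to the first transversal bar. -/

namespace Pool.Agent.P.MP_5f84aa_co.G

open Filter Topology Set

namespace TSTEP

/-- the boundary of the triangle is covered by the open rays -/
theorem bdry {R : ℝ} (hR : 0 < R) {q : Pt} (h : ∀ i, 0 ≤ (ry R i).ht q) (hn : ¬ Tri R q) :
    ∃ i, (ry R i).In q := by
  have h0 := h 0
  have h1 := h 1
  have h2 := h 2
  by_contra hc
  apply hn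
  have c0 : ¬ (ry R 0).In q := fun e => hc ⟨0, e⟩
  have c1 : ¬ (ry R 1).In q := fun e => hc ⟨1, e⟩
  have c2 : ¬ (ry R 2).In q := fun e => hc ⟨2, e⟩
  rw [in_ry, ht_ry0, pos_ry0] at c0
  rw [in_ry, ht_ry1, pos_ry1] at c1
  rw [in_ry, ht_ry2, pos_ry2] at c2
  rw [ht_ry0] at h0
  rw [ht_ry1] at h1
  rw [ht_ry2] at h2
  have e0 : 0 < q 1 + R := by
    by_contra a
    have a1 : q 1 + R = 0 := by linarith
    have a2 : q 0 + R = 0 := by
      by_contra b
      exact c0 ⟨a1, lt_of_le_of_ne h2 (Ne.symm b)⟩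
    exact c2 ⟨a2, by linarith⟩
  have e1 : 0 < 2 * R - q 0 - q 1 := by
    by_contra a
    exact c1 ⟨by linarith, by linarith⟩
  have e2 : 0 < q 0 + R := by
    by_contra a
    exact c2 ⟨by linarith, by linarith⟩
  intro i
  fin_cases i
  · exact (ht_ry0 R q).symm ▸ e0
  · exact (ht_ry1 R q).symm ▸ e1
  · exact (ht_ry2 R q).symm ▸ e2

/-- a half line leaves the triangle -/
theorem leave {R : ℝ} {p v : Pt} (hv : v ≠ 0) : ∃ a : ℝ, 0 ≤ a ∧ ¬ Tri R (p + a • v) := by
  by_contra hc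
  have hT : ∀ a : ℝ, 0 ≤ a → Tri R (p + a • v) := fun a ha => by
    by_contra h
    exact hc ⟨a, ha, h⟩
  have key : ∀ i, 0 ≤ (ry R i).lh v := fun i => by
    by_contra h
    have h' : (ry R i).lh v < 0 := not_le.1 h
    have h0 := hT 0 le_rfl i
    rw [zero_smul, add_zero] at h0
    have h1 := hT ((ry R i).ht p / -(ry R i).lh v) (div_nonneg h0.le (by linarith)) i
    rw [Bar.ht_add, map_smul, smul_eq_mul, div_neg, neg_mul, div_mul_cancel₀ _ h'.ne] at h1
    linarith
  have k0 := key 0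
  have k1 := key 1
  have k2 := key 2
  have a0 := (ry R 0).ht_add 0 v
  have a1 := (ry R 1).ht_add 0 v
  have a2 := (ry R 2).ht_add 0 v
  rw [ht_ry0, ht_ry0, zero_add] at a0
  rw [ht_ry1, ht_ry1, zero_add] at a1
  rw [ht_ry2, ht_ry2, zero_add] at a2
  simp only [Pi.zero_apply] at a0 a1 a2
  exact hv (pt_ext (by simp only [Pi.zero_apply]; linarith) (by simp only [Pi.zero_apply]; linarith))

/-- on the way out a ray is crossed -/
theorem exit {R : ℝ} (hR : 0 < R) {p v : Pt} (hp : Tri R p) {a : ℝ} (ha : 0 ≤ a)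
    (hn : ¬ Tri R (p + a • v)) :
    ∃ b : ℝ, 0 < b ∧ b ≤ a ∧ ∃ i, (ry R i).lh v ≠ 0 ∧ (ry R i).In (p + b • v) := by
  let f : ℝ → ℝ := fun b =>
    min ((ry R 0).ht (p + b • v)) (min ((ry R 1).ht (p + b • v)) ((ry R 2).ht (p + b • v)))
  have hf : Continuous f := by fun_prop
  have hT : ∀ b, 0 < f b ↔ Tri R (p + b • v) := fun b => by
    simp only [f, lt_min_iff, Tri, Fin.forall_fin_succ, IsEmpty.forall_iff, and_true]
    rfl
  have f0 : 0 < f 0 := (hT 0).2 (by simpa using hp)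
  have fa : f a ≤ 0 := not_lt.1 fun h => hn ((hT a).1 h)
  obtain ⟨b, hb, e⟩ := intermediate_value_Icc' ha hf.continuousOn ⟨fa, f0.le⟩
  have hb0 : 0 < b := by
    rcases hb.1.eq_or_lt with h | h
    · rw [← h] at e; linarith
    · exact h
  have hge : ∀ i, 0 ≤ (ry R i).ht (p + b • v) := by
    have := e.ge
    simp only [f, le_min_iff] at this
    intro i
    fin_cases i
    · exact this.1
    · exact this.2.1
    · exact this.2.2
  obtain ⟨i, hi⟩ := bdry hR hge fun h => ((hT b).2 h).ne' e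
  refine ⟨b, hb0, hb.2, i, fun h => ?_, hi⟩
  have h1 := hi.1
  rw [Bar.ht_add, map_smul, h, smul_zero, add_zero] at h1
  exact (hp i).ne' h1

/-- the points of an open segment -/
theorem in_iff {t : Bar} (h : t.d ≠ 0) (hr : t.ray = false) {q : Pt} :
    t.In q ↔ ∃ x : ℝ, 0 < x ∧ x < 1 ∧ q = t.o + x • t.d := by
  constructor
  · intro hq
    refine ⟨t.pos q, hq.2.1, hq.2.2 hr, ?_⟩
    have := Bar.In.eq_pt h hq.1
    rwa [Bar.pt, zero_smul, add_zero] at this
  · rintro ⟨x, h0, h1, rfl⟩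
    have : t.In (t.pt x 0) := (Bar.in_pt h).2 ⟨h0, fun _ => h1⟩
    rwa [Bar.pt, zero_smul, add_zero] at this

/-- the points of the stem of an end -/
theorem in_stem {j : En} (h : j.1.d ≠ 0) (hr : j.1.ray = false) {q : Pt} :
    j.1.In q ↔ ∃ b : ℝ, -1 < b ∧ b < 0 ∧ q = ep j + b • -ed j := by
  constructor
  · intro hq
    obtain ⟨x, h0, h1, rfl⟩ := (in_iff h hr).1 hq
    obtain ⟨s, _ | _⟩ := j
    · exact ⟨-x, by linarith, by linarith, by simp⟩
    · refine ⟨x - 1, by linarith, by linarith, ?_⟩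
      simp only [ep_true, ed_true]
      module
  · rintro ⟨b, h0, h1, rfl⟩
    have := in_ep_add h (a := -b) (by linarith) (by linarith)
    rwa [neg_smul, ← smul_neg] at this

/-- the prolonged bar -/
noncomputable def nb (p v : Pt) (a : ℝ) : Bar := ⟨p - v, (1 + a) • v, false⟩

theorem nb_ne {p v : Pt} {a : ℝ} (hv : v ≠ 0) (ha : 0 < a) : (nb p v a).d ≠ 0 :=
  smul_ne_zero (by linarith) hv

theorem in_nb {p v : Pt} {a : ℝ} (hv : v ≠ 0) (ha : 0 < a) {q : Pt} :
    (nb p v a).In q ↔ ∃ b : ℝ, -1 < b ∧ b < a ∧ q = p + b • v := by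
  have h1 : 0 < 1 + a := by linarith
  rw [in_iff (nb_ne hv ha) rfl]
  constructor
  · rintro ⟨x, h0, hx, rfl⟩
    refine ⟨x * (1 + a) - 1, by nlinarith, by nlinarith, ?_⟩
    simp only [nb]
    module
  · rintro ⟨b, h0, hb, rfl⟩
    refine ⟨(1 + b) / (1 + a), div_pos (by linarith) h1, (div_lt_one h1).2 (by linarith), ?_⟩
    simp only [nb, smul_smul, div_mul_cancel₀ _ h1.ne']
    module

/-- an open bar meets a line in an interval -/
theorem in_between {w : Bar} {p v : Pt} {x y z : ℝ} (hx : w.In (p + x • v)) (hz : w.In (p + z • v))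
    (h1 : x ≤ y) (h2 : y ≤ z) : w.In (p + y • v) := by
  obtain ⟨a, b, ha, hb, hab, rfl⟩ : y ∈ segment ℝ x z := by
    rw [segment_eq_Icc (h1.trans h2)]; exact ⟨h1, h2⟩
  have := w.convex_In hx hz ha hb hab
  have e : a • (p + x • v) + b • (p + z • v) = p + (a • x + b • z) • v := by
    obtain rfl : a = 1 - b := by linarith
    simp only [smul_eq_mul]
    module
  rwa [mem_ofPred_eq, e] at this

/-- a parallel bar which meets the line lies on it -/
theorem on_line {w : Bar} (hw : w.d ≠ 0) {p v : Pt} (hv : v ≠ 0) (hl : w.lh v = 0) {b : ℝ}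
    (hb : w.In (p + b • v)) {q : Pt} (hq : w.In q) : ∃ c : ℝ, q = p + c • v := by
  have e1 := Bar.eq_smul_of_lh hw hl
  have e2 := Bar.eq_smul_of_lh hw (v := q - (p + b • v)) (by rw [← Bar.ht_sub, hq.1, hb.1, sub_zero])
  have hm : w.lp v ≠ 0 := fun h => hv (by rw [e1, h, zero_smul])
  refine ⟨b + w.lp (q - (p + b • v)) / w.lp v, ?_⟩
  have e3 : (w.lp (q - (p + b • v)) / w.lp v) • v = q - (p + b • v) := by
    conv_lhs => rw [e1]
    rw [← e1, e2, ← e2]
    calc (w.lp (q - (p + b • v)) / w.lp v) • v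
        = (w.lp (q - (p + b • v)) / w.lp v) • (w.lp v • w.d) := by rw [← e1]
      _ = q - (p + b • v) := by rw [smul_smul, div_mul_cancel₀ _ hm, ← e2]
  rw [add_smul, e3]
  abel

/-- the first transversal bar on the half line -/
theorem first {R : ℝ} {E : Finset Bar} (H : Pre R E) {p v : Pt} (hp : Tri R p) (hv : v ≠ 0) :
    ∃ a : ℝ, (0 < a ∧ ∃ w ∈ E, w.lh v ≠ 0 ∧ w.In (p + a • v)) ∧
      ∀ b : ℝ, 0 < b → b < a → ∀ w ∈ E, w.In (p + b • v) → w.lh v = 0 := by
  have hfin : {a : ℝ | 0 < a ∧ ∃ w ∈ E, w.lh v ≠ 0 ∧ w.In (p + a • v)}.Finite := by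
    refine (E.finite_toSet.image fun w => -w.ht p / w.lh v).subset ?_
    rintro a ⟨-, w, hw, hl, hin⟩
    refine ⟨w, hw, ?_⟩
    have h1 := hin.1
    rw [Bar.ht_add, map_smul, smul_eq_mul] at h1
    rw [div_eq_iff hl]
    linarith
  have hne : {a : ℝ | 0 < a ∧ ∃ w ∈ E, w.lh v ≠ 0 ∧ w.In (p + a • v)}.Nonempty := by
    obtain ⟨a, ha, hn⟩ := leave (R := R) (p := p) hv
    obtain ⟨b, hb, -, i, hi⟩ := exit H.pos hp ha hn
    exact ⟨b, hb, _, H.ry_mem i, hi⟩
  obtain ⟨a, ha, hmin⟩ := exists_min_image _ id hfin hne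
  refine ⟨a, ha, fun b hb hba w hw hin => ?_⟩
  by_contra hl
  exact hba.not_ge (hmin b ⟨hb, w, hw, hl, hin⟩)

end TSTEP

open TSTEP

theorem t_STEP : STEP := by
  classical
  rintro R E H p ⟨⟨j, hj, rfl⟩, hbad⟩
  have hs := H.ne _ hj.1
  -- the stem is a segment
  have hr : j.1.ray = false := by
    by_contra hc
    obtain ⟨i, hi⟩ := H.rays _ hj.1 (by simpa using hc)
    have h2 : j.2 = false := by
      by_contra h
      exact hc (hj.2 (by simpa using h))
    have e : ep j = (ry R i).o := by rw [ep, h2, hi]; rfl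
    have hR := H.pos
    rw [e] at hbad
    fin_cases i
    · refine hbad _ (H.ry_mem 2) (in_ry.2 ?_)
      rw [ht_ry2, pos_ry2]
      simp [ry]
      linarith
    · refine hbad _ (H.ry_mem 0) (in_ry.2 ?_)
      rw [ht_ry0, pos_ry0]
      simp [ry]
      linarith
    · refine hbad _ (H.ry_mem 1) (in_ry.2 ?_)
      rw [ht_ry1, pos_ry1]
      simp [ry]
      constructor <;> linarith
  have hp : Tri R (ep j) := by
    by_contra hn
    obtain ⟨i, hi⟩ := bdry H.pos (H.cl_tri hj.1 hr (cl_ep hs)) hn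
    exact hbad _ (H.ry_mem i) hi
  obtain ⟨v, hvd⟩ : ∃ v, v = -ed j := ⟨_, rfl⟩
  have hv : v ≠ 0 := by rw [hvd]; exact neg_ne_zero.2 (ed_ne hs)
  have hstem : ∀ q, j.1.In q ↔ ∃ b : ℝ, -1 < b ∧ b < 0 ∧ q = ep j + b • v := fun q => by
    rw [hvd]; exact in_stem hs hr
  have hother : ep j - v = ep (j.1, !j.2) := by rw [hvd, ep_other, sub_neg_eq_add]
  generalize hpj : ep j = p at hbad hp hstem hother
  obtain ⟨a, ⟨ha, w1, hw1, hl1, hin1⟩, hmin⟩ := first H hp hv
  have hnb := fun q => in_nb (p := p) (q := q) hv ha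
  have hsub : ∀ q, j.1.In q → (nb p v a).In q := fun q hq => by
    obtain ⟨b, h0, h1, e⟩ := (hstem q).1 hq
    exact (hnb q).2 ⟨b, h0, by linarith, e⟩
  have htri : ∀ q, (nb p v a).In q → Tri R q := fun q hq => by
    obtain ⟨b, h0, h1, rfl⟩ := (hnb q).1 hq
    rcases lt_or_ge b 0 with h | h
    · exact H.inner _ hj.1 hr _ ((hstem _).2 ⟨b, h0, h, rfl⟩)
    · by_contra hn
      obtain ⟨c, hc, hcb, i, hi, hin⟩ := exit H.pos hp h hn
      exact hi (hmin c hc (hcb.trans_lt h1) _ (H.ry_mem i) hin)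
  -- a bar which meets the new one lies inside it
  have hmeet : ∀ w ∈ E, ∀ q, w.In q → (nb p v a).In q →
      w.ray = false ∧ ∀ q, w.In q → (nb p v a).In q := fun w hw q hq hq' => by
    refine ⟨?_, ?_⟩
    · by_contra hc
      obtain ⟨i, rfl⟩ := H.rays _ hw (by simpa using hc)
      exact (htri q hq' i).ne' hq.1
    obtain ⟨b, h0, h1, rfl⟩ := (hnb q).1 hq'
    rcases lt_trichotomy b 0 with h | rfl | h
    · obtain rfl := H.disj _ hj.1 _ hw _ ((hstem _).2 ⟨b, h0, h, rfl⟩) hq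
      exact hsub
    · exact absurd (by simpa using hq) (hbad w hw)
    · have hl := hmin b h h1 w hw hq
      intro x hx
      obtain ⟨c, rfl⟩ := on_line (H.ne w hw) hv hl hq hx
      refine (hnb _).2 ⟨c, ?_, ?_, rfl⟩
      · by_contra hc
        have := in_between (y := 0) hx hq (by linarith) h.le
        exact hbad w hw (by simpa using this)
      · by_contra hc
        have := in_between (y := a) hq hx h1.le (not_lt.1 hc)
        exact hl1 (H.disj _ hw _ hw1 _ this hin1 ▸ hl)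
  let F := E.filter fun w => ¬ (w.ray = false ∧ ∀ q, w.In q → (nb p v a).In q)
  have hF : ∀ w, w ∈ F ↔ w ∈ E ∧ ¬ (w.ray = false ∧ ∀ q, w.In q → (nb p v a).In q) := fun w =>
    Finset.mem_filter
  have hcov : ∀ w ∈ E, ∃ w' ∈ insert (nb p v a) F, w'.ray = w.ray ∧ ∀ q, w.In q → w'.In q :=
    fun w hw => by
    by_cases h : w.ray = false ∧ ∀ q, w.In q → (nb p v a).In q
    · exact ⟨_, Finset.mem_insert_self _ _, h.1.symm, h.2⟩
    · exact ⟨w, Finset.mem_insert_of_mem ((hF w).2 ⟨hw, h⟩), rfl, fun _ h => h⟩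
  refine ⟨insert (nb p v a) F, ⟨H.pos, ?_, ?_, ?_, ?_, ?_⟩, ?_, ?_, ?_⟩
  · intro t ht
    rcases Finset.mem_insert.1 ht with rfl | ht
    · exact nb_ne hv ha
    · exact H.ne t ((hF t).1 ht).1
  · intro t ht w hw q h1 h2
    rcases Finset.mem_insert.1 ht with rfl | ht <;> rcases Finset.mem_insert.1 hw with rfl | hw
    · rfl
    · exact absurd (hmeet _ ((hF _).1 hw).1 q h2 h1) ((hF _).1 hw).2
    · exact absurd (hmeet _ ((hF _).1 ht).1 q h1 h2) ((hF _).1 ht).2
    · exact H.disj _ ((hF _).1 ht).1 _ ((hF _).1 hw).1 q h1 h2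
  · exact fun i => Finset.mem_insert_of_mem ((hF _).2 ⟨H.ry_mem i, fun h => by simpa using h.1⟩)
  · intro t ht hray
    rcases Finset.mem_insert.1 ht with rfl | ht
    · simp [nb] at hray
    · exact H.rays t ((hF t).1 ht).1 hray
  · intro t ht hray
    rcases Finset.mem_insert.1 ht with rfl | ht
    · exact htri
    · exact H.inner t ((hF t).1 ht).1 hray
  · refine (Finset.card_insert_le _ _).trans (Finset.card_lt_card ⟨Finset.filter_subset _ _, fun h => ?_⟩)
    exact ((hF _).1 (h hj.1)).2 ⟨hr, hsub⟩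
  · rintro x ⟨⟨k, hk, rfl⟩, hx⟩
    have hno : ∀ t ∈ E, ¬ t.In (ep k) := fun t ht hin => by
      obtain ⟨w', hw', -, h⟩ := hcov t ht
      exact hx w' hw' (h _ hin)
    refine ⟨⟨?_, hno⟩, fun h => hx _ (Finset.mem_insert_self _ _) ((hnb _).2 ⟨0, by linarith, ha, ?_⟩)⟩
    · rcases Finset.mem_insert.1 hk.1 with h | h
      · obtain ⟨t, _ | _⟩ := k
        · obtain rfl : t = nb p v a := h
          exact ⟨_, isEnd_of_seg hj.1 hr (!j.2), hother.symm⟩
        · obtain rfl : t = nb p v a := h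
          refine absurd ?_ (hno w1 hw1)
          have : ep (nb p v a, true) = p + a • v := by
            simp only [ep_true, nb]
            module
          rwa [this]
      · exact ⟨k, ⟨((hF _).1 h).1, hk.2⟩, rfl⟩
    · rw [zero_smul, add_zero]; exact h
  · intro w hw hray
    obtain ⟨w', hw', e, h⟩ := hcov w hw
    exact ⟨w', hw', e.trans hray, h⟩

end Pool.Agent.P.MP_5f84aa_co.G
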