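import Pool.Agent.P.MP_5f84aa_co.G.Bas3

/-! A system around the given segments. -/

namespace Pool.Agent.P.MP_5f84aa_co.G

open Filter Topology Set

namespace TSYS

theorem fin (E : Finset Bar) : (Bad E).Finite :=
  ((finite_ends E).image ep).subset fun _ h => h.1

theorem ext (hSTEP : STEP) (R : ℝ) (k : ℕ) : ∀ E, Pre R E → (Bad E).ncard = k →
    ∃ E', Sys R E' ∧ E'.card ≤ E.card ∧
      ∀ w ∈ E, w.ray = false → ∃ w' ∈ E', w'.ray = false ∧ ∀ q, w.In q → w'.In q := by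
  induction k using Nat.strong_induction_on with
  | _ k ih =>
    rintro E H rfl
    rcases (Bad E).eq_empty_or_nonempty with h | ⟨p, hp⟩
    · refine ⟨E, ⟨H, fun j hj => ?_⟩, le_rfl, fun w hw h => ⟨w, hw, h, fun _ => id⟩⟩
      by_contra h1
      have : ep j ∈ Bad E := ⟨⟨j, hj, rfl⟩, fun t ht h2 => h1 ⟨t, ht, h2⟩⟩
      rw [h] at this
      exact this
    · obtain ⟨E', h1, h2, h3, h4⟩ := hSTEP R E H p hp
      obtain ⟨E'', g1, g2, g3⟩ := ih _ ((ncard_le_ncard h3 (fin E).sdiff).trans_lt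
        (ncard_sdiff_singleton_lt_of_mem hp (fin E))) E' h1 rfl
      refine ⟨E'', g1, g2.trans h2, fun w hw h => ?_⟩
      obtain ⟨w', a1, a2, a3⟩ := h4 w hw h
      obtain ⟨w'', b1, b2, b3⟩ := g3 w' a1 a2
      exact ⟨w'', b1, b2, fun q hq => b3 q (a3 q hq)⟩

theorem ev {x : ℝ} (h0 : 0 < x) (h1 : x < 1) : ∀ᶠ γ in 𝓝[>] (0 : ℝ), γ ≤ x ∧ x ≤ 1 - γ := by
  filter_upwards [Ioo_mem_nhdsGT h0, Ioo_mem_nhdsGT (sub_pos.2 h1)] with γ a b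
  exact ⟨a.2.le, by linarith [b.2]⟩

end TSYS

theorem t_SYS (hSYS0 : SYS0) (hSTEP : STEP) : SYS := by
  intro n a b h
  obtain ⟨R, E₀, h1, h2, h3⟩ := hSYS0 n a b h
  obtain ⟨E, g1, g2, g3⟩ := TSYS.ext hSTEP R _ E₀ h1 rfl
  have key : ∀ i, ∀ᶠ γ in 𝓝[>] (0 : ℝ), ∃ w ∈ E, ∀ q ∈ segment ℝ (a i) (b i), w.Ob γ q := fun i => by
    obtain ⟨w₀, a1, a2, a3⟩ := h3 i
    obtain ⟨w, b1, b2, b3⟩ := g3 w₀ a1 a2
    have c1 := (b3 _ (a3 _ (left_mem_segment _ _ _))).2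
    have c2 := (b3 _ (a3 _ (right_mem_segment _ _ _))).2
    filter_upwards [TSYS.ev c1.1 (c1.2 b2), TSYS.ev c2.1 (c2.2 b2)] with γ e1 e2
    refine ⟨w, b1, fun q hq => ⟨b2, (b3 q (a3 q hq)).1, ?_⟩⟩
    obtain ⟨s, t, hs, ht, hst, rfl⟩ := hq
    rw [w.pos_comb hst]
    exact (convex_Icc γ (1 - γ)) e1 e2 hs ht hst
  obtain ⟨γ, e1, e2⟩ := ((eventually_all.2 key).and self_mem_nhdsWithin).exists
  exact ⟨R, E, g1, g2.trans h2, γ, e2, e1⟩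

end Pool.Agent.P.MP_5f84aa_co.G
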