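import Pool.Agent.P.MP_5f84aa_co.G.Bas3

/-! Disjoint open bars around the given segments. -/

namespace Pool.Agent.P.MP_5f84aa_co.G

open Filter Topology Set

namespace TSYS0

theorem line {a e : Pt} {s : ℝ} {U : Set Pt} (he : e ≠ 0) (hs : 0 ≤ s) (hU : IsOpen U)
    (h : ∀ t ∈ Icc 0 s, a + t • e ∈ U) : ∃ w : Bar, w.ray = false ∧ w.d ≠ 0 ∧
      (∀ t ∈ Icc 0 s, w.In (a + t • e)) ∧ ∀ q, w.In q → q ∈ U := by
  have ho : IsOpen ((fun t : ℝ => a + t • e) ⁻¹' U) := hU.preimage (by fun_prop)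
  obtain ⟨x, hx, h1⟩ := Metric.isOpen_iff.1 ho 0 (h 0 ⟨le_rfl, hs⟩)
  obtain ⟨y, hy, h2⟩ := Metric.isOpen_iff.1 ho s (h s ⟨hs, le_rfl⟩)
  obtain ⟨μ, m0, m1, m2⟩ : ∃ μ, 0 < μ ∧ μ ≤ x ∧ μ ≤ y :=
    ⟨_, lt_min hx hy, min_le_left _ _, min_le_right _ _⟩
  have hp : 0 < s + 2 * μ := by linarith
  have hd : (⟨a - μ • e, (s + 2 * μ) • e, false⟩ : Bar).d ≠ 0 := smul_ne_zero hp.ne' he
  have e1 : ∀ x, (⟨a - μ • e, (s + 2 * μ) • e, false⟩ : Bar).pt x 0 =
      a + (x * (s + 2 * μ) - μ) • e := fun x => by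
    simp only [Bar.pt]
    module
  refine ⟨_, rfl, hd, fun t ht => ?_, fun q hq => ?_⟩
  · have := (Bar.in_pt hd (x := (t + μ) / (s + 2 * μ))).2
      ⟨div_pos (by linarith [ht.1]) hp, fun _ => (div_lt_one hp).2 (by linarith [ht.2])⟩
    rwa [e1, div_mul_cancel₀ _ hp.ne', add_sub_cancel_right] at this
  · rw [Bar.In.eq_pt hd hq.1, e1]
    have h3 := mul_pos hq.2.1 hp
    have h4 := mul_lt_of_lt_one_left hp (hq.2.2 rfl)
    generalize Bar.pos _ q * (s + 2 * μ) = t at h3 h4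
    rcases lt_or_ge (t - μ) 0 with c | c
    · exact h1 (by rw [mem_ball_iff_norm, Real.norm_eq_abs, abs_lt]; constructor <;> linarith)
    rcases le_or_gt (t - μ) s with c' | c'
    · exact h _ ⟨c, c'⟩
    · exact h2 (by rw [mem_ball_iff_norm, Real.norm_eq_abs, abs_lt]; constructor <;> linarith)

theorem seg {a b : Pt} {U : Set Pt} (hU : IsOpen U) (h : segment ℝ a b ⊆ U) :
    ∃ w : Bar, w.ray = false ∧ w.d ≠ 0 ∧ (∀ q ∈ segment ℝ a b, w.In q) ∧ ∀ q, w.In q → q ∈ U := by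
  rcases eq_or_ne b a with rfl | e
  · obtain ⟨w, h1, h2, h3, h4⟩ := line (a := b) (e := ![1, 0]) (by simp) le_rfl hU fun t ht => by
      rw [le_antisymm ht.2 ht.1, zero_smul, add_zero]
      exact h (left_mem_segment _ _ _)
    refine ⟨w, h1, h2, fun q hq => ?_, h4⟩
    rw [segment_same, mem_singleton_iff] at hq
    simpa [hq] using h3 0 ⟨le_rfl, le_rfl⟩
  · rw [segment_eq_image'] at h ⊢
    obtain ⟨w, h1, h2, h3, h4⟩ := line (sub_ne_zero.2 e) zero_le_one hU fun t ht => h ⟨t, ht, rfl⟩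
    exact ⟨w, h1, h2, by rintro _ ⟨t, ht, rfl⟩; exact h3 t ht, h4⟩

theorem tri {R : ℝ} {q : Pt} (h : ‖q‖ < R) : Tri R q := by
  have h0 := abs_lt.1 ((norm_le_pi_norm q 0).trans_lt h)
  have h1 := abs_lt.1 ((norm_le_pi_norm q 1).trans_lt h)
  intro i
  fin_cases i
  · exact (ht_ry0 R q).symm ▸ by linarith [h1.1]
  · exact (ht_ry1 R q).symm ▸ by linarith [h0.2, h1.2]
  · exact (ht_ry2 R q).symm ▸ by linarith [h0.1]

theorem rays {R : ℝ} {q : Pt} {i k : Fin 3} (h : (ry R i).In q) (h' : (ry R k).In q) :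
    i = k := by
  rw [in_ry] at h h'
  obtain ⟨h1, h2⟩ := h
  obtain ⟨h3, h4⟩ := h'
  fin_cases i <;> fin_cases k <;> simp only [Fin.zero_eta, Fin.mk_one, Fin.reduceFinMk, ht_ry0,
    ht_ry1, ht_ry2, pos_ry0, pos_ry1, pos_ry2] at h1 h2 h3 h4 ⊢ <;> linarith

end TSYS0

theorem t_SYS0 : SYS0 := by
  classical
  intro n a b hd
  have hc : ∀ i, IsCompact (segment ℝ (a i) (b i)) := fun i => by
    rw [segment_eq_image']
    exact isCompact_Icc.image (by fun_prop)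
  obtain ⟨R, hR, hb⟩ := (isCompact_iUnion hc).isBounded.subset_ball_lt 0 0
  have key : ∀ i j, ∃ V W : Set Pt, IsOpen V ∧ IsOpen W ∧ segment ℝ (a i) (b i) ⊆ V ∧
      segment ℝ (a j) (b j) ⊆ W ∧ (i ≠ j → Disjoint V W) := fun i j => by
    by_cases e : i = j
    · exact ⟨univ, univ, isOpen_univ, isOpen_univ, subset_univ _, subset_univ _, absurd e⟩
    · obtain ⟨V, W, h1, h2, h3, h4, h5⟩ :=
        SeparatedNhds.of_isCompact_isCompact (hc i) (hc j) (hd e)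
      exact ⟨V, W, h1, h2, h3, h4, fun _ => h5⟩
  choose V W v1 w1 v2 w2 vw using key
  choose w h1 h2 h3 h4 using fun i => TSYS0.seg (a := a i) (b := b i)
    (U := Metric.ball 0 R ∩ ⋂ j, V i j ∩ W j i)
    (Metric.isOpen_ball.inter (isOpen_iInter_of_finite fun j => (v1 i j).inter (w1 j i)))
    (subset_inter ((subset_iUnion _ i).trans hb)
      (subset_iInter fun j => subset_inter (v2 i j) (w2 j i)))
  have ht : ∀ i q, (w i).In q → Tri R q := fun i q hq =>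
    TSYS0.tri (mem_ball_zero_iff.1 (h4 i q hq).1)
  have mem : ∀ t, t ∈ Finset.univ.image w ∪ Finset.univ.image (ry R) ↔
      (∃ i, w i = t) ∨ ∃ i, ry R i = t := fun t => by simp
  refine ⟨R, Finset.univ.image w ∪ Finset.univ.image (ry R), ⟨hR, fun t h => ?_,
    fun t h u h' q c c' => ?_, fun i => (mem _).2 (.inr ⟨i, rfl⟩), fun t h c => ?_,
    fun t h c q c' => ?_⟩, ?_, fun i => ⟨w i, (mem _).2 (.inl ⟨i, rfl⟩), h1 i, h3 i⟩⟩
  · rcases (mem _).1 h with ⟨i, rfl⟩ | ⟨i, rfl⟩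
    exacts [h2 i, ry_ne R i]
  · rcases (mem _).1 h with ⟨i, rfl⟩ | ⟨i, rfl⟩ <;> rcases (mem _).1 h' with ⟨j, rfl⟩ | ⟨j, rfl⟩
    · by_contra e
      exact Set.disjoint_left.1 (vw i j fun e' => e (e' ▸ rfl)) (mem_iInter.1 (h4 i q c).2 j).1
        (mem_iInter.1 (h4 j q c').2 i).2
    · exact absurd c'.1 (ht i q c j).ne'
    · exact absurd c.1 (ht j q c' i).ne'
    · rw [TSYS0.rays c c']
  · rcases (mem _).1 h with ⟨i, rfl⟩ | ⟨i, rfl⟩
    exacts [absurd ((h1 i).symm.trans c) (by simp), ⟨i, rfl⟩]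
  · rcases (mem _).1 h with ⟨i, rfl⟩ | ⟨i, rfl⟩
    exacts [ht i q c', by simp at c]
  · exact (Finset.card_union_le _ _).trans (add_le_add (Finset.card_image_le.trans (by simp))
      (Finset.card_image_le.trans (by simp)))

end Pool.Agent.P.MP_5f84aa_co.G
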