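import Pool.Agent.P.MP_5f84aa_co.G.Bas3

namespace Pool.Agent.P.MP_5f84aa_co.G

open Filter Topology Set

namespace TUNIQ

theorem ht_zero {t : Bar} {σ : Bool} {u v : Set Pt} (hu : ∀ z ∈ u, 0 < sg σ * t.ht z)
    (hv : ∀ z ∈ v, 0 < sg (!σ) * t.ht z) {q : Pt} (h1 : q ∈ closure u) (h2 : q ∈ closure v) :
    t.ht q = 0 := by
  have a := closure_sign hu h1
  have b := closure_sign hv h2
  rw [sg_not] at b
  have : sg σ * t.ht q = 0 := by linarith
  exact (mul_eq_zero.1 this).resolve_left (sg_ne σ)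

theorem ht_ne {t w : Bar} (h : t.d ≠ 0) (hw : w.lh t.d ≠ 0) {p z : Pt} (hp : t.ht p = 0)
    (hz : t.ht z = 0) (hz' : w.ht z = 0) (hne : p ≠ z) : w.ht p ≠ 0 := by
  intro h0
  have e := Bar.fn_sub h w.lh (hp.trans hz.symm)
  rw [← map_sub, ← w.ht_sub, h0, hz', sub_self] at e
  have : t.pos p - t.pos z = 0 := (mul_eq_zero.1 e.symm).resolve_right hw
  exact hne (Bar.ext_pt h (by linarith) (hp.trans hz.symm))

end TUNIQ

theorem t_UNIQ (hVIS : VIS) (hCELL : CELL) (hSEP : SEP) : UNIQ := by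
  intro R E H u v t D t' D' hD hD' hp hp'
  obtain ⟨σ, hu, hv⟩ := pair_iff.1 hp
  obtain ⟨σ', hu', hv'⟩ := pair_iff.1 hp'
  obtain ⟨cu, ⟨x, hx⟩, clu, -, su⟩ := hCELL R E H t D hD σ
  obtain ⟨-, -, clv, -, sv⟩ := hCELL R E H t D hD (!σ)
  obtain ⟨-, ⟨x', hx'⟩, clu', -, su'⟩ := hCELL R E H t' D' hD' σ'
  obtain ⟨-, -, clv', -, sv'⟩ := hCELL R E H t' D' hD' (!σ')
  rw [← hu] at cu clu su
  rw [← hv] at clv sv
  rw [← hu'] at clu' su'
  rw [← hv'] at clv' sv'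
  have t0 := H.ne t hD.1
  have t0' := H.ne t' hD'.1
  obtain ⟨-, cvx, ⟨z0, hz0⟩, off, -⟩ := (hVIS R E H).2 u cu
  have hin : t.In (t.pt x 0) := (Bar.in_pt t0).2 hx.1
  have hin' : t'.In (t'.pt x' 0) := (Bar.in_pt t0').2 hx'.1
  have e1 : t'.ht (t.pt x 0) = 0 := TUNIQ.ht_zero su' sv' (clu x hx).2 (clv x hx).2
  have e2 : t.ht (t'.pt x' 0) = 0 := TUNIQ.ht_zero su sv (clu' x' hx').2 (clv' x' hx').2
  have key : t = t' := by
    by_cases hc : t.In (t'.pt x' 0)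
    · exact H.disj _ hD.1 _ hD'.1 _ hc hin'
    exfalso
    obtain ⟨e, he, hs⟩ := H.end_between hD.1 hin e2 hc
    have hw := H.bar_mem he
    have hon := H.on_bar he
    have hl : (bar E (t, e)).lh t.d ≠ 0 := H.lh_d_ne hw hon
    have hz : t.ht (ep (t, e)) = 0 := ht_ep (t, e)
    have n1 : (bar E (t, e)).ht (t.pt x 0) ≠ 0 :=
      TUNIQ.ht_ne t0 hl hin.1 hz hon.2.1 fun h => H.not_in_ep he (h ▸ hin)
    have n2 : (bar E (t, e)).ht (t'.pt x' 0) ≠ 0 := by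
      refine TUNIQ.ht_ne t0 hl e2 hz hon.2.1 fun h => n1 ?_
      rw [H.disj _ hw _ hD'.1 _ hon.2 (h ▸ hin')]
      exact e1
    have hneg : (bar E (t, e)).ht (t.pt x 0) * (bar E (t, e)).ht (t'.pt x' 0) < 0 := by
      obtain ⟨a, b, ha, hb, hab, hz'⟩ := hs
      have h0 := hon.2.1
      rw [← hz', Bar.ht_comb _ hab] at h0
      refine lt_of_le_of_ne ?_ (mul_ne_zero n1 n2)
      have p1 := mul_nonneg ha (mul_self_nonneg ((bar E (t, e)).ht (t.pt x 0)))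
      have p2 := mul_nonneg hb (mul_self_nonneg ((bar E (t, e)).ht (t'.pt x' 0)))
      generalize (bar E (t, e)).ht (t.pt x 0) = A at *
      generalize (bar E (t, e)).ht (t'.pt x' 0) = B at *
      have : A * B = -(a * (A * A)) - b * (B * B) := by
        linear_combination (A + B) * h0 - A * B * hab
      linarith
    have hcl : (t.pt x 0, t'.pt x' 0) ∈ closure (u ×ˢ u) := by
      rw [closure_prod_eq]; exact ⟨(clu x hx).2, (clu' x' hx').2⟩
    obtain ⟨P, hP, y, hy, hy'⟩ := ((mem_closure_iff_frequently.1 hcl).and_eventually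
      ((bar E (t, e)).cross hs hon.2 hneg)).exists
    exact off y (cvx.segment_subset hP.1 hP.2 hy) _ hw hy'.cl
  subst key
  obtain rfl : σ = σ' := sg_eq (su z0 hz0) (su' z0 hz0)
  have hall : ∀ τ, Ce E t τ D = Ce E t τ D' := fun τ => by
    by_cases h : τ = σ
    · rw [h, ← hu, ← hu']
    · rw [Bool.eq_not_iff.2 h, ← hv, ← hv']
  refine ⟨rfl, Set.ext fun j => ⟨fun h => ?_, fun h => ?_⟩⟩
  · by_contra hn
    exact hSEP R E H t D' D j hD' hD (hD.2.1 j h) hn h (hall _).symm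
  · by_contra hn
    exact hSEP R E H t D D' j hD hD' (hD'.2.1 j h) hn h (hall _)

end Pool.Agent.P.MP_5f84aa_co.G
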