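import Pool.Agent.P.MP_5f84aa_co.G.Bas3

/-! Visibility is an equivalence relation with open convex classes. -/

namespace Pool.Agent.P.MP_5f84aa_co.G

open Filter Topology Set

namespace TVIS

variable {R : ℝ} {E : Finset Bar} {x y z : Pt}

theorem open_vis (E : Finset Bar) (x : Pt) : IsOpen {y | Vis E x y} := by
  have e : ∀ y, Vis E x y ↔ ∀ s ∈ Icc (0 : ℝ) 1, Off E ((1 - s) • x + s • y) := fun y => by
    simp only [Vis, segment_eq_image, forall_mem_image]
  refine isOpen_iff_mem_nhds.2 fun y hy => ?_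
  have := (isCompact_Icc (a := (0 : ℝ)) (b := 1)).eventually_forall_of_forall_eventually (x₀ := y)
    (P := fun y s => Off E ((1 - s) • x + s • y)) fun s hs => by
      have hc : Continuous fun P : Pt × ℝ => (1 - P.2) • x + P.2 • P.1 := by fun_prop
      exact ((isOpen_off E).preimage hc).mem_nhds ((e y).1 hy s hs)
  exact this.mono fun w hw => (e w).2 hw

theorem ev_not_vis' (hx : Off E x) (hy : Off E y) (hz : z ∈ segment ℝ x y) {t : Bar} (ht : t ∈ E)
    (hi : t.In z) (h0 : t.ht x ≠ 0) : ∀ᶠ w in 𝓝 y, ¬ Vis E x w := by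
  have hs : t.ht x * t.ht y < 0 := by
    obtain ⟨a, b, ha, hb, hab, rfl⟩ := hz
    have h1 := hi.1
    rw [t.ht_comb hab] at h1
    have ha' : 0 < a := ha.lt_of_ne fun e => by
      obtain rfl : b = 1 := by linarith
      rw [← e, zero_smul, one_smul, zero_add] at hi
      exact hy t ht hi.cl
    have hb' : 0 < b := hb.lt_of_ne fun e => by
      obtain rfl : a = 1 := by linarith
      rw [← e, zero_smul, one_smul, add_zero] at hi
      exact hx t ht hi.cl
    have h2 : 0 < a * t.ht x ^ 2 := by positivity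
    have h3 : b * (t.ht x * t.ht y) < 0 := by linear_combination t.ht x * h1 + h2
    exact neg_of_mul_neg_right h3 hb'.le
  have hc : Continuous fun w : Pt => (x, w) := by fun_prop
  filter_upwards [hc.continuousAt.eventually (t.cross hz hi hs)] with w hw hv
  obtain ⟨q, hq, hq'⟩ := hw
  exact hv q hq t ht hq'.cl

theorem ev_not_vis (H : Sys R E) (hx : Off E x) (hy : Off E y) (h : ¬ Vis E x y) :
    ∀ᶠ w in 𝓝 y, ¬ Vis E x w := by
  simp only [Vis, H.off_iff, not_forall, not_not] at h
  obtain ⟨z, hz, t, ht, hi⟩ := h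
  by_cases h0 : t.ht x = 0
  · obtain ⟨e, he, hm⟩ := H.end_between ht hi h0 fun h => hx t ht h.cl
    have hb := H.on_bar he
    refine ev_not_vis' hx hy ((convex_segment x y).segment_subset hz (left_mem_segment _ _ _) hm)
      (H.bar_mem he) hb.2 fun h1 => ?_
    have e1 : t.lh (x - ep (t, e)) = 0 := by rw [← t.ht_sub, h0, ht_ep (t, e), sub_self]
    have e2 : (bar E (t, e)).lh (x - ep (t, e)) = 0 := by
      rw [← Bar.ht_sub, h1, hb.2.1, sub_self]
    have e3 := Bar.eq_smul_of_lh (H.ne t ht) e1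
    rw [e3, map_smul, smul_eq_mul] at e2
    rw [(mul_eq_zero.1 e2).resolve_right (H.lh_d_ne (H.bar_mem he) hb), zero_smul,
      sub_eq_zero] at e3
    exact hx _ (H.bar_mem he) (e3 ▸ hb.2.cl)
  · exact ev_not_vis' hx hy hz ht hi h0

theorem trans (H : Sys R E) (h1 : Vis E x y) (h2 : Vis E y z) : Vis E x z := by
  have hB : IsOpen {w | Off E w ∧ ¬ Vis E x w} := isOpen_iff_mem_nhds.2 fun w hw =>
    Filter.inter_mem ((isOpen_off E).mem_nhds hw.1) (ev_not_vis H h1.left hw.1 hw.2)
  refine (convex_segment y z).isPreconnected.subset_left_of_subset_union (open_vis E x) hB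
    (disjoint_left.2 fun w h h' => h'.2 h) (fun w hw => ?_) ⟨y, left_mem_segment _ _ _, h1⟩
    (right_mem_segment _ _ _)
  by_cases h : Vis E x w
  · exact .inl h
  · exact .inr ⟨h2 w hw, h⟩

end TVIS

theorem t_VIS : VIS := by
  intro R E H
  refine ⟨fun _ _ _ => TVIS.trans H, ?_⟩
  have key : ∀ x y z, Vis E x y → (Vis E y z ↔ Vis E x z) := fun x y z h =>
    ⟨TVIS.trans H h, TVIS.trans H h.symm⟩
  rintro _ ⟨x, hx, rfl⟩
  refine ⟨TVIS.open_vis E x, convex_iff_segment_subset.2 fun y hy z hz w hw => ?_, ⟨x, hx.vis⟩,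
    fun _ h => Vis.right h, fun y hy z => key x y z hy, ?_⟩
  · refine TVIS.trans H hy fun q hq => (key x y z hy).2 hz q ?_
    exact (convex_segment y z).segment_subset (left_mem_segment _ _ _) hw hq
  · rintro _ ⟨x', -, rfl⟩ y hy hy'
    ext z
    exact (key x y z hy).symm.trans (key x' y z hy')

end Pool.Agent.P.MP_5f84aa_co.G
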