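import Pool.Agent.P.MP_5f84aa_co.G.Bas3

/-! Germs along a line see each other when no germ between them is blocked. -/

namespace Pool.Agent.P.MP_5f84aa_co.G

open Filter Topology Set

namespace TWALK

theorem ev_rc (w : Bar) (a b : ℝ) : (∀ᶠ ε in 𝓝[>] (0 : ℝ), w.Rc (a + ε * b)) ∨
    ∀ᶠ ε in 𝓝[>] (0 : ℝ), ¬ w.Rc (a + ε * b) := by
  rcases le_or_gt (toLex ((0 : ℝ), (0 : ℝ))) (toLex (a, b)) with h | h
  swap
  · exact .inr ((ev_lt_of_lex h).mono fun ε h1 h2 => by linarith [h2.1])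
  have h0 := lex_le_iff_ev.1 h
  cases hr : w.ray
  · rcases le_or_gt (toLex (a, b)) (toLex ((1 : ℝ), (0 : ℝ))) with h' | h'
    · exact .inl ((h0.and (lex_le_iff_ev.1 h')).mono fun ε h1 =>
        ⟨by linarith [h1.1], fun _ => by linarith [h1.2]⟩)
    · exact .inr ((ev_lt_of_lex h').mono fun ε h1 h2 => by linarith [h2.2 hr])
  · exact .inl (h0.mono fun ε h1 => ⟨by linarith, fun e => by simp [hr] at e⟩)

theorem lh_nv_ne {t w : Bar} (ht : t.d ≠ 0) (hw : w.d ≠ 0) (h : w.lh t.d = 0) : w.lh t.nv ≠ 0 := by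
  intro h'
  have := congrArg w.lh (Bar.vec_eq ht w.nv)
  rw [map_add, map_smul, map_smul, h, h', Bar.lh_nv hw] at this
  simp at this

theorem one {t w : Bar} {σ : Bool} {x κ x' κ' : ℝ} (ht : t.d ≠ 0) (hw : w.d ≠ 0)
    (h : ∀ y μ, toLex (x, κ) ≤ toLex (y, μ) → toLex (y, μ) ≤ toLex (x', κ') →
      ¬ ∀ᶠ ε in 𝓝[>] 0, w.Cl (t.gp σ y μ ε)) :
    ∀ᶠ ε in 𝓝[>] (0 : ℝ), ∀ u, x + ε * κ ≤ u → u ≤ x' + ε * κ' → ¬ w.Cl (t.pt u (sg σ * ε)) := by
  by_cases h0 : w.lh t.d = 0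
  · have h1 := mul_ne_zero (sg_ne σ) (lh_nv_ne ht hw h0)
    have h2 : ∀ᶠ ε in 𝓝[>] (0 : ℝ), w.ht t.o + ε * (sg σ * w.lh t.nv) ≠ 0 :=
      not_frequently.1 fun k => h1 (ev_zero k).2
    filter_upwards [h2] with ε h2 u _ _ k
    have := k.1
    rw [Bar.ht_pt', h0] at this
    exact h2 (by linarith)
  obtain ⟨y, hy⟩ : ∃ y, w.ht t.o + y * w.lh t.d = 0 := ⟨-w.ht t.o / w.lh t.d, by field_simp; ring⟩
  obtain ⟨μ, hμ⟩ : ∃ μ, μ * w.lh t.d + sg σ * w.lh t.nv = 0 :=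
    ⟨-(sg σ * w.lh t.nv) / w.lh t.d, by field_simp; ring⟩
  have e : ∀ ε u, w.Cl (t.pt u (sg σ * ε)) → u = y + ε * μ := fun ε u k => by
    have := k.1
    rw [Bar.ht_pt'] at this
    exact mul_right_cancel₀ h0 (by linear_combination this - hy - ε * hμ)
  rcases lt_or_ge (toLex (y, μ)) (toLex (x, κ)) with h1 | h1
  · filter_upwards [ev_lt_of_lex h1] with ε h2 u h3 _ k
    linarith [e ε u k]
  rcases lt_or_ge (toLex (x', κ')) (toLex (y, μ)) with h2 | h2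
  · filter_upwards [ev_lt_of_lex h2] with ε h3 u _ h4 k
    linarith [e ε u k]
  rcases ev_rc w (w.pos (t.pt y 0)) (μ * w.lp t.d + sg σ * w.lp t.nv) with h3 | h3
  · refine absurd (h3.mono fun ε k => ⟨?_, by rwa [Bar.pos_gp']⟩) (h y μ h1 h2)
    rw [Bar.ht_gp', hμ, Bar.ht_pt']
    linarith
  · filter_upwards [h3] with ε h4 u _ _ k
    have := k.2
    rw [e ε u k] at this
    exact h4 (Bar.pos_gp' t w σ y μ ε ▸ this)

end TWALK

theorem t_WALK : WALK := by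
  intro E t σ x κ x' κ' ht hE hle h
  have h1 := (eventually_all_finset E).2 fun w hw =>
    TWALK.one (σ := σ) ht (hE w hw) fun y μ a b k => h y μ a b ⟨w, hw, k⟩
  filter_upwards [h1, lex_le_iff_ev.1 hle] with ε h2 h3
  rintro _ ⟨a, b, ha, hb, hab, rfl⟩ w hw
  rw [Bar.gp, Bar.gp, Bar.pt_comb _ hab, ← add_mul, hab, one_mul]
  obtain rfl : a = 1 - b := by linarith
  exact h2 w hw _ (by nlinarith) (by nlinarith)

end Pool.Agent.P.MP_5f84aa_co.G
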