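import Pool.Agent.P.MP_5f84aa_co.G.TGLUE
import Pool.Agent.P.MP_5f84aa_co.G.TLIGHT
import Pool.Agent.P.MP_5f84aa_co.G.TBLK
import Pool.Agent.P.MP_5f84aa_co.G.TCELL
import Pool.Agent.P.MP_5f84aa_co.G.TCLIMB
import Pool.Agent.P.MP_5f84aa_co.G.TCONN
import Pool.Agent.P.MP_5f84aa_co.G.TCORNER
import Pool.Agent.P.MP_5f84aa_co.G.TCOUNT
import Pool.Agent.P.MP_5f84aa_co.G.TCUT
import Pool.Agent.P.MP_5f84aa_co.G.TEULER
import Pool.Agent.P.MP_5f84aa_co.G.TFACE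
import Pool.Agent.P.MP_5f84aa_co.G.TFAR
import Pool.Agent.P.MP_5f84aa_co.G.TGERM
import Pool.Agent.P.MP_5f84aa_co.G.THOLE
import Pool.Agent.P.MP_5f84aa_co.G.THUG
import Pool.Agent.P.MP_5f84aa_co.G.TLAMP
import Pool.Agent.P.MP_5f84aa_co.G.TLINE
import Pool.Agent.P.MP_5f84aa_co.G.TMERGE
import Pool.Agent.P.MP_5f84aa_co.G.TOK
import Pool.Agent.P.MP_5f84aa_co.G.TOUT
import Pool.Agent.P.MP_5f84aa_co.G.TPERT
import Pool.Agent.P.MP_5f84aa_co.G.TRUN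
import Pool.Agent.P.MP_5f84aa_co.G.TSECT
import Pool.Agent.P.MP_5f84aa_co.G.TSEP
import Pool.Agent.P.MP_5f84aa_co.G.TSIDE
import Pool.Agent.P.MP_5f84aa_co.G.TSTEM
import Pool.Agent.P.MP_5f84aa_co.G.TSTEP
import Pool.Agent.P.MP_5f84aa_co.G.TSYS
import Pool.Agent.P.MP_5f84aa_co.G.TSYS0
import Pool.Agent.P.MP_5f84aa_co.G.TUNIQ
import Pool.Agent.P.MP_5f84aa_co.G.TVIS
import Pool.Agent.P.MP_5f84aa_co.G.TWALK
import Pool.Agent.P.MP_5f84aa_co.G.TCNT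
import Pool.Agent.P.MP_5f84aa_co.G.TCONTR

/-! The geometric layer is proved. -/

namespace Pool.Agent.P.MP_5f84aa_co.G

theorem a_SYS : SYS := t_SYS t_SYS0 t_STEP
theorem a_GERM : GERM := t_GERM t_VIS
theorem a_CELL : CELL := t_CELL t_VIS t_WALK t_BLK a_GERM
theorem a_STEM : STEM := t_STEM t_VIS t_WALK t_BLK a_GERM a_CELL
theorem a_SECT : SECT := t_SECT a_CELL a_STEM
theorem a_SEP : SEP := t_SEP t_VIS a_CELL
theorem a_UNIQ : UNIQ := t_UNIQ t_VIS a_CELL a_SEP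
theorem a_OUT : OUT := t_OUT t_VIS a_CELL
theorem a_FACE : FACE := t_FACE a_CELL a_STEM a_SEP a_UNIQ a_OUT
theorem a_FAR : FAR := t_FAR a_STEM a_UNIQ a_FACE
theorem a_CONN : CONN := t_CONN a_FACE a_OUT
theorem a_COUNT : COUNT := t_COUNT t_VIS a_CELL a_SECT a_SEP a_OUT
theorem a_CLIMB : CLIMB := t_CLIMB t_VIS t_BLK a_GERM a_CELL a_STEM a_OUT t_RUN
theorem a_CORNER : CORNER := t_CORNER t_VIS a_CELL a_CLIMB
theorem a_HOLE : HOLE := t_HOLE t_VIS a_FACE a_CORNER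
theorem a_SIDE : SIDE := t_SIDE t_VIS a_CELL a_STEM a_SEP
theorem a_CUT : CUT := t_CUT t_VIS a_CELL
theorem a_MERGE : MERGE := t_MERGE t_VIS a_CELL a_STEM a_UNIQ a_FACE a_FAR a_SIDE a_CUT
theorem a_OK : OK := t_OK a_STEM a_UNIQ a_FACE a_FAR a_CONN a_COUNT t_EULER a_HOLE a_MERGE
theorem a_HUG : HUG := t_HUG t_VIS
theorem a_PERT : PERT := t_PERT t_VIS a_CELL a_HUG
theorem a_LINE : LINE := t_LINE a_CELL a_STEM a_SECT t_RUN
theorem a_LAMP : LAMP := t_LAMP t_VIS a_CELL a_STEM a_HUG a_PERT a_LINE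
theorem a_LIGHT : LIGHT := t_LIGHT t_VIS a_CELL a_STEM a_SEP a_UNIQ a_OUT a_FACE a_FAR a_HUG a_LAMP
theorem a_CNT : CNT := t_CNT t_VIS a_CELL a_STEM a_SECT a_SEP a_FACE a_CLIMB a_COUNT a_OK
theorem a_CONTR : CONTR := t_CONTR t_VIS a_CELL a_STEM a_FACE a_FAR a_CUT a_PERT

theorem s_geo : S_GEO := t_GLUE a_SYS a_OK a_LIGHT

theorem ok2 {R : ℝ} {E : Finset Bar} (H : Sys R E) : (mp R E).Ok2 := by
  refine ⟨(a_OK R E H).1, a_CNT R E H, fun ρ => ?_⟩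
  obtain ⟨E', H', π, ι, h⟩ := a_CONTR R E H ρ
  exact ⟨_, _, Fintype.ofFinite _, Fintype.ofFinite _, _, π, ι, (a_OK R E' H').1, a_CNT R E' H', h⟩

theorem s_geo2 : S_GEO2 := by
  intro n a b h
  obtain ⟨R, E, H, hc, γ, hγ, hw⟩ := a_SYS n a b h
  have h2 := (a_OK R E H).2.1
  let i1 : Fintype (VV R E) := Fintype.ofFinite _
  let i2 : Fintype (JJ E) := Fintype.ofFinite _
  refine ⟨VV R E, JJ E, Bar, i1, i2, mp R E, ok2 H, ?_, fun M F sh C => ?_⟩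
  · rw [← Nat.card_eq_fintype_card]; omega
  · obtain ⟨S, s1, s2, s3⟩ := a_LIGHT R E H γ hγ M F sh C
    refine ⟨S, s1, fun x hx i hi => ?_, fun i q hq => ?_⟩
    · obtain ⟨w, hw1, hw2⟩ := hw i
      exact s2 x hx w hw1 ((hw2 x hi).isIn hγ).cl
    · obtain ⟨w, hw1, hw2⟩ := hw i
      obtain ⟨x, hx, hs⟩ := s3 w hw1 q (hw2 q hq)
      refine ⟨x, hx, fun j => Set.disjoint_left.2 fun z hz hz' => ?_⟩
      obtain ⟨w', hw1', hw2'⟩ := hw j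
      exact hs z hz w' hw1' (hw2' z hz')

end Pool.Agent.P.MP_5f84aa_co.G
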