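import Pool.Agent.P.MP_5f84aa_co.G.Map2

/-! The interface with the sides of the bars, closed under the contraction of rungs. -/

namespace Pool.Agent.P.MP_5f84aa_co.G

variable {V J Sg : Type}

namespace Map

/-- the sides of the bars -/
structure Ext (m : Map V J Sg) : Prop where
  opp : ∀ j x y w, j ≠ m.inf → m.cor j x → m.cor j y → x ≠ y → m.Adj x w → m.ln x w = m.bar j →
    m.Adj y w → m.ln y w = m.bar j
  no2 : ∀ j k, j ≠ m.inf → k ≠ m.inf → m.stem j = m.bar k → m.bar j ≠ m.stem k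
  sides : ∃ sd : V → Sg → Bool, (∀ u v, m.Adj u v → sd u (m.ln u v) ≠ sd v (m.ln u v)) ∧
    (∀ j, j ≠ m.inf → sd (m.L j) (m.bar j) = sd (m.R j) (m.bar j)) ∧
    ∀ u u' v v', m.Adj u u' → m.Adj v v' → m.ln v v' = m.ln u u' →
      sd u (m.ln u u') ≠ sd v (m.ln u u') → m.Adj u v → m.ln u v = m.ln u u'

/-- all the local facts -/
structure Ok' (m : Map V J Sg) : Prop extends m.Ok, m.Cnt, m.Ext

/-- the map lies in a class of maps with `Ok'` which is closed under the contraction of rungs -/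
def Ok3 (m : Map V J Sg) : Prop := ∃ P : ∀ V J : Type, Map V J Sg → Prop, P V J m ∧
  ∀ (V₁ J₁ : Type) (m₁ : Map V₁ J₁ Sg), P V₁ J₁ m₁ → m₁.Ok' ∧ ∀ ρ : Set J₁,
    ∃ (V' J' : Type) (_ : Fintype V') (_ : Fintype J') (m' : Map V' J' Sg) (π : V₁ → V')
      (ι : J' → J₁), P V' J' m' ∧ m₁.Contr ρ m' π ι

theorem Ok3.ok {m : Map V J Sg} (h : m.Ok3) : m.Ok' := by
  obtain ⟨P, h1, h2⟩ := h
  exact (h2 _ _ _ h1).1

theorem Ok3.contr {m : Map V J Sg} (h : m.Ok3) (ρ : Set J) :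
    ∃ (V' J' : Type) (_ : Fintype V') (_ : Fintype J') (m' : Map V' J' Sg) (π : V → V')
      (ι : J' → J), m'.Ok3 ∧ m.Contr ρ m' π ι := by
  obtain ⟨P, h1, h2⟩ := h
  obtain ⟨V', J', i1, i2, m', π, ι, h3, h4⟩ := (h2 _ _ _ h1).2 ρ
  exact ⟨V', J', i1, i2, m', π, ι, ⟨P, h3, h2⟩, h4⟩

theorem Ok3.ok2 {m : Map V J Sg} (h : m.Ok3) : m.Ok2 := by
  refine ⟨h.ok.toOk, h.ok.toCnt, fun ρ => ?_⟩
  obtain ⟨V', J', i1, i2, m', π, ι, h3, h4⟩ := h.contr ρ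
  exact ⟨V', J', i1, i2, m', π, ι, h3.ok.toOk, h3.ok.toCnt, h4⟩

end Map

/-- The geometric layer, third form. -/
def S_GEO3 : Prop := ∀ (n : ℕ) (a b : Fin n → Pt),
  (Pairwise fun i j => Disjoint (segment ℝ (a i) (b i)) (segment ℝ (a j) (b j))) →
  ∃ (V J Sg : Type) (_ : Fintype V) (_ : Fintype J) (m : Map V J Sg), m.Ok3 ∧
    Fintype.card V ≤ n + 4 ∧
    ∀ M F sh, m.Cover M F sh → ∃ S : Finset Pt, S.card ≤ M.card + F.card ∧
      (∀ x ∈ S, ∀ i, x ∉ segment ℝ (a i) (b i)) ∧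
      ∀ i, ∀ q ∈ segment ℝ (a i) (b i), ∃ x ∈ S, ∀ j,
        Disjoint (openSegment ℝ x q) (segment ℝ (a j) (b j))

/-- The combinatorial layer, third form. -/
def S_COMB3 : Prop := ∃ δ : ℝ, 0 < δ ∧ ∃ C : ℝ,
  ∀ (V J Sg : Type) [Fintype V] [Fintype J] (m : Map V J Sg), m.Ok3 →
    ∃ M F sh, m.Cover M F sh ∧ ((M.card : ℝ) + F.card) ≤ (1 / 2 - δ) * Fintype.card V + C

end Pool.Agent.P.MP_5f84aa_co.G
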