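import Pool.Agent.P.MP_5f84aa_co.G.Geo
import Pool.Agent.P.MP_5f84aa_co.G.Map3

/-! The sides of the bars. -/

namespace Pool.Agent.P.MP_5f84aa_co.G

open Filter Topology Set

variable {R : ℝ} {E : Finset Bar}

namespace Geo3

theorem neg_of_seg {b : Bar} {p q z : Pt} (hs : z ∈ segment ℝ p q) (h0 : b.ht z = 0)
    (n1 : b.ht p ≠ 0) (n2 : b.ht q ≠ 0) : b.ht p * b.ht q < 0 := by
  obtain ⟨a, c, ha, hc, hac, rfl⟩ := hs
  rw [Bar.ht_comb _ hac] at h0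
  refine lt_of_le_of_ne ?_ (mul_ne_zero n1 n2)
  have p1 := mul_nonneg ha (mul_self_nonneg (b.ht p))
  have p2 := mul_nonneg hc (mul_self_nonneg (b.ht q))
  generalize b.ht p = A at *
  generalize b.ht q = B at *
  have : A * B = -(a * (A * A)) - c * (B * B) := by
    linear_combination (A + B) * h0 - A * B * hac
  linarith

theorem zero_of_signs {b : Bar} {p q : Pt} {σ : Bool} (h1 : 0 ≤ sg σ * b.ht p)
    (h2 : 0 ≤ sg (!σ) * b.ht q) : ∃ z ∈ segment ℝ p q, b.ht z = 0 := by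
  have hc : IsPreconnected (segment ℝ p q) := (convex_segment p q).isPreconnected
  rw [sg_not] at h2
  obtain ⟨z, hz, e⟩ := hc.intermediate_value₂ (right_mem_segment ℝ p q) (left_mem_segment ℝ p q)
    (f := fun z => sg σ * b.ht z) (g := fun _ => 0) (by fun_prop) (by fun_prop) (by linarith) h1
  exact ⟨z, hz, (mul_eq_zero.1 e).resolve_left (sg_ne σ)⟩

/-- two cells on opposite sides of a bar can only meet along this bar -/
theorem line (H : Sys R E) {t s : Bar} {D D' F : Set En} {σ τ : Bool} (hD : Pc E t D)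
    (hD' : Pc E t D') (hF : Pc E s F) (e1 : Ce E t σ D = Ce E s τ F)
    (e2 : Ce E t (!σ) D' = Ce E s (!τ) F) : s = t := by
  obtain ⟨-, ⟨x, hx⟩, clu, -, su⟩ := a_CELL R E H t D hD σ
  obtain ⟨cv, ⟨x', hx'⟩, clv, -, sv⟩ := a_CELL R E H t D' hD' (!σ)
  obtain ⟨-, ⟨y, hy⟩, clu', -, su'⟩ := a_CELL R E H s F hF τ
  obtain ⟨-, -, clv', -, sv'⟩ := a_CELL R E H s F hF (!τ)
  rw [← e1] at clu' su'
  rw [← e2] at clv' sv'
  have t0 := H.ne t hD.1
  have s0 := H.ne s hF.1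
  obtain ⟨-, cvx, -, off, -⟩ := (t_VIS R E H).2 _ cv
  have hin : t.In (t.pt x 0) := (Bar.in_pt t0).2 hx.1
  have hin' : t.In (t.pt x' 0) := (Bar.in_pt t0).2 hx'.1
  have hq : s.In (s.pt y 0) := (Bar.in_pt s0).2 hy.1
  have e0 : t.ht (s.pt y 0) = 0 := TUNIQ.ht_zero su sv (clu' y hy).2 (clv' y hy).2
  by_cases hc : t.In (s.pt y 0)
  · exact H.disj _ hF.1 _ hD.1 _ hq hc
  exfalso
  obtain ⟨e, he, hs⟩ := H.end_between hD.1 hin' e0 hc
  have hw := H.bar_mem he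
  have hon := H.on_bar he
  have hl : (bar E (t, e)).lh t.d ≠ 0 := H.lh_d_ne hw hon
  have hz : t.ht (ep (t, e)) = 0 := ht_ep (t, e)
  have n1 : ∀ p, t.In p → (bar E (t, e)).ht p ≠ 0 := fun p hp =>
    TUNIQ.ht_ne t0 hl hp.1 hz hon.2.1 fun h => H.not_in_ep he (h ▸ hp)
  by_cases h : s.pt y 0 = ep (t, e)
  · have hb : bar E (t, e) = s := H.disj _ hw _ hF.1 _ hon.2 (h ▸ hq)
    obtain ⟨z, z1, z2⟩ := zero_of_signs (closure_sign su' (clu x hx).2)
      (closure_sign sv' (clv x' hx').2)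
    exact n1 z (t.convex_In.segment_subset hin hin' z1) (hb ▸ z2)
  have n2 := TUNIQ.ht_ne t0 hl e0 hz hon.2.1 h
  have hneg := neg_of_seg hs hon.2.1 (n1 _ hin') n2
  have hcl : (t.pt x' 0, s.pt y 0) ∈ closure (Ce E t (!σ) D' ×ˢ Ce E t (!σ) D') := by
    rw [closure_prod_eq]; exact ⟨(clv x' hx').2, (clv' y hy).2⟩
  obtain ⟨P, hP, z, hz1, hz2⟩ := ((mem_closure_iff_frequently.1 hcl).and_eventually
    ((bar E (t, e)).cross hs hon.2 hneg)).exists
  exact off z (cvx.segment_subset hP.1 hP.2 hz1) _ hw hz2.cl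

open Classical in
/-- the side of a bar on which a cell lies -/
noncomputable def sd (u : VV R E) (t : Bar) : Bool := decide (∀ z ∈ u.1, 0 < t.ht z)

theorem sd_eq (H : Sys R E) {u : VV R E} {t : Bar} {D : Set En} {σ : Bool} (hD : Pc E t D)
    (e : u.1 = Ce E t σ D) : sd u t = σ := by
  obtain ⟨c, -, -, -, s⟩ := a_CELL R E H t D hD σ
  obtain ⟨z, hz⟩ := ((t_VIS R E H).2 _ c).2.2.1
  rw [← e] at s hz
  cases σ
  · simp only [sd, decide_eq_false_iff_not]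
    intro h
    have := s z hz
    have := h z hz
    simp only [sg] at *
    norm_num at *
    linarith
  · simp only [sd, decide_eq_true_eq]
    intro y hy
    simpa [sg] using s y hy

theorem adj (H : Sys R E) {u v : VV R E} (h : (mp R E).Adj u v) : ∃ D, Pc E ((mp R E).ln u v) D ∧
    u.1 = Ce E ((mp R E).ln u v) (sd u ((mp R E).ln u v)) D ∧
    v.1 = Ce E ((mp R E).ln u v) (!sd u ((mp R E).ln u v)) D := by
  obtain ⟨-, -, -, -, f5, f6, -⟩ := a_FACE R E H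
  obtain ⟨t, D, hD, hp⟩ := (f5 u v).1 h
  rw [f6 u v t D hD hp]
  obtain ⟨σ, e1, e2⟩ := pair_iff.1 hp
  rw [sd_eq H hD e1]
  exact ⟨D, hD, e1, e2⟩

theorem sides (H : Sys R E) : (∀ u v, (mp R E).Adj u v →
      sd u ((mp R E).ln u v) ≠ sd v ((mp R E).ln u v)) ∧
    (∀ j, j ≠ (mp R E).inf →
      sd ((mp R E).L j) ((mp R E).bar j) = sd ((mp R E).R j) ((mp R E).bar j)) ∧
    ∀ u u' v v', (mp R E).Adj u u' → (mp R E).Adj v v' → (mp R E).ln v v' = (mp R E).ln u u' →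
      sd u ((mp R E).ln u u') ≠ sd v ((mp R E).ln u u') → (mp R E).Adj u v →
      (mp R E).ln u v = (mp R E).ln u u' := by
  refine ⟨fun u v h => ?_, fun j hj => ?_, fun u u' v v' h1 h2 e hne h3 => ?_⟩
  · obtain ⟨D, hD, -, e2⟩ := adj H h
    rw [sd_eq H hD e2]
    simp
  · rcases JJ.cases R j with rfl | ⟨k, hk, rfl⟩
    · exact absurd rfl hj
    · exact (sd_eq H (H.pc_Dlt hk) rfl).trans (sd_eq H (H.pc_Dle hk) rfl).symm
  · obtain ⟨D, hD, e1, -⟩ := adj H h1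
    obtain ⟨D', hD', e2, -⟩ := adj H h2
    obtain ⟨F, hF, e3, e4⟩ := adj H h3
    rw [e] at hD' e2
    rw [Bool.eq_not_iff.2 hne.symm] at e2
    exact line H hD hD' hF (e1.symm.trans e3) (e2.symm.trans e4)

end Geo3

theorem a_ext (H : Sys R E) : (mp R E).Ext := by
  obtain ⟨s1, s2, s3⟩ := Geo3.sides H
  have O := (a_OK R E H).1
  refine ⟨fun j x y w hj hx hy _ h1 e h2 => ?_, fun j k hj hk e1 e2 => ?_, _, s1, s2, s3⟩
  · have e0 : Geo3.sd x ((mp R E).bar j) = Geo3.sd y ((mp R E).bar j) := by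
      rcases hx with rfl | rfl <;> rcases hy with rfl | rfl <;> simp [s2 j hj]
    have ay : (mp R E).Adj y ((mp R E).X j) ∧ (mp R E).ln y ((mp R E).X j) = (mp R E).bar j := by
      rcases hy with rfl | rfl
      · exact ⟨⟨O.neLX j, j, .inl rfl, .inr (.inr rfl)⟩, O.lnLX j hj⟩
      · exact ⟨⟨O.neRX j, j, .inr (.inl rfl), .inr (.inr rfl)⟩, O.lnRX j hj⟩
    have aw : (mp R E).Adj w x := ⟨h1.1.symm, h1.2.imp fun _ h => h.symm⟩
    have n := s1 x w h1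
    rw [e, e0] at n
    rw [← ay.2] at n ⊢
    exact s3 y _ w x ay.1 aw (by rw [O.ln_symm, e, ay.2]) n h2
  · rcases JJ.cases R j with rfl | ⟨j, hj', rfl⟩
    · exact hj rfl
    rcases JJ.cases R k with rfl | ⟨k, hk', rfl⟩
    · exact hk rfl
    simp only [mp_stem_fc, mp_bar_fc] at e1 e2
    have o1 := H.on_bar hj'
    have o2 := H.on_bar hk'
    refine TUNIQ.ht_ne (H.ne _ hj'.1) (H.lh_d_ne (H.bar_mem hj') o1) (p := ep k) (e1 ▸ o2.2.1)
      (ht_ep j) o1.2.1 (fun h => H.not_in_ep hj' ?_) (e2 ▸ ht_ep k)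
    rw [← h, e1]
    exact o2.2

theorem ok3 (H : Sys R E) : (mp R E).Ok3 := by
  refine ⟨fun V J m => ∃ R E, Sys R E ∧ ∃ (e1 : V = VV R E) (e2 : J = JJ E), HEq m (mp R E),
    ⟨R, E, H, rfl, rfl, HEq.rfl⟩, ?_⟩
  rintro _ _ m ⟨R, E, H, rfl, rfl, h⟩
  obtain rfl := eq_of_heq h
  refine ⟨⟨(a_OK R E H).1, a_CNT R E H, a_ext H⟩, fun ρ => ?_⟩
  obtain ⟨E', H', π, ι, h⟩ := a_CONTR R E H ρ
  exact ⟨_, _, Fintype.ofFinite _, Fintype.ofFinite _, _, π, ι, ⟨R, E', H', rfl, rfl, HEq.rfl⟩, h⟩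

theorem s_geo3 : S_GEO3 := by
  intro n a b h
  obtain ⟨R, E, H, hc, γ, hγ, hw⟩ := a_SYS n a b h
  have h2 := (a_OK R E H).2.1
  let i1 : Fintype (VV R E) := Fintype.ofFinite _
  let i2 : Fintype (JJ E) := Fintype.ofFinite _
  refine ⟨VV R E, JJ E, Bar, i1, i2, mp R E, ok3 H, ?_, fun M F sh C => ?_⟩
  · rw [← Nat.card_eq_fintype_card]; omega
  · obtain ⟨S, s1, s2, s3⟩ := a_LIGHT R E H γ hγ M F sh C
    refine ⟨S, s1, fun x hx i hi => ?_, fun i q hq => ?_⟩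
    · obtain ⟨w, hw1, hw2⟩ := hw i
      exact s2 x hx w hw1 ((hw2 x hi).isIn hγ).cl
    · obtain ⟨w, hw1, hw2⟩ := hw i
      obtain ⟨x, hx, hs⟩ := s3 w hw1 q (hw2 q hq)
      refine ⟨x, hx, fun j => Set.disjoint_left.2 fun z hz hz' => ?_⟩
      obtain ⟨w', hw1', hw2'⟩ := hw j
      exact hs z hz w' hw1' (hw2' z hz')

end Pool.Agent.P.MP_5f84aa_co.G
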