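import Pool.Agent.P.MP_5f84aa_co.G.RBas
import Pool.Agent.P.MP_5f84aa_co.G.TEULER

/-! The Euler formula for a set of cells. -/

namespace Pool.Agent.P.MP_5f84aa_co.G

open Finset Matrix Module TEULER

namespace Map

variable {V J Sg : Type} {m : Map V J Sg}

/-- at least two cells of the face lie in `K` -/
def Two (m : Map V J Sg) (K : Set V) (j : J) : Prop :=
  (m.L j ∈ K ∧ m.R j ∈ K) ∨ (m.L j ∈ K ∧ m.X j ∈ K) ∨ (m.R j ∈ K ∧ m.X j ∈ K)

/-- the graph of the pieces -/
def TG (m : Map V J Sg) : SimpleGraph V where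
  Adj := m.Adj
  symm := ⟨fun _ _ => Adj.symm⟩
  loopless := ⟨fun _ a => a.1 rfl⟩

/-- the number of components of a set of cells -/
noncomputable def cc (m : Map V J Sg) (K : Set V) : ℕ := Nat.card (m.TG.induce K).ConnectedComponent

theorem rk' {a b : Type} [Fintype a] [Fintype b] (M : Matrix a b (ZMod 2)) {c : Type} [Fintype c]
    (f : c → b) (h : ∀ x, M *ᵥ x = 0 → (∀ i, x (f i) = 0) → x = 0) :
    Fintype.card b ≤ M.rank + Fintype.card c := by
  have h1 := LinearMap.finrank_range_add_finrank_ker M.mulVecLin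
  have h2 := LinearMap.finrank_le_finrank_of_injective
    (f := (LinearMap.funLeft (ZMod 2) (ZMod 2) f).comp (LinearMap.ker M.mulVecLin).subtype)
    ((injective_iff_map_eq_zero _).2 fun x e => Subtype.ext (h _ x.2 (congrFun e)))
  rw [finrank_fintype_fun_eq_card] at h1 h2
  unfold Matrix.rank
  omega

theorem Ok.chi_ge (h : m.Ok) [Fintype V] [Fintype J] (fc : ∀ v, ∃ j, m.has j v) (K : Set V)
    {P Q : Type} [Fintype P] [Fintype Q] (b : P → K)
    (hb : ∀ x : K → ZMod 2, (∀ u v : K, m.Adj u v → x u = x v) → (∀ i, x (b i) = 0) → x = 0)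
    (q : V → Option Q) (hq : ∀ u v, u ∉ K → v ∉ K → m.Adj u v → q u = q v)
    (nq : ∀ u, u ∉ K → q u ≠ none) (sq : ∀ w, ∃ u, u ∉ K ∧ q u = some w) :
    2 * K.ncard + 2 * Fintype.card Q ≤ {j | m.Two K j}.ncard + 2 * Fintype.card P + 2 := by
  classical
  let T : J → Finset V := fun j => {m.L j, m.R j, m.X j}
  have hm : ∀ j u, m.has j u ↔ u ∈ T j := fun j u => by simp [T, Map.has]
  have hT : ∀ j, #(T j) = 3 := fun j => card_eq_three.2 ⟨_, _, _, h.neLR j, h.neLX j, h.neRX j, rfl⟩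
  have hE : ∀ u v, m.Adj u v → {u, v} ∈ Ed T := fun u v ⟨h, j, a, b⟩ =>
    (mem_Ed T).2 ⟨j, by simp only [insert_subset_iff, singleton_subset_iff, ← hm, a, b, and_self],
      card_pair h⟩
  have h3 : ∀ s ∈ Ed T, #{j | s ⊆ T j} = 2 := fun s hs => by
    obtain ⟨j, h', k⟩ := (mem_Ed T).1 hs
    obtain ⟨u, v, k', rfl⟩ := card_eq_two.1 k
    simp only [insert_subset_iff, singleton_subset_iff, ← hm] at h' ⊢
    exact (TEULER.nc _).symm.trans (h.two u v ⟨k', j, h'⟩)
  let S := {j // ∀ u ∈ T j, u ∈ K}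
  obtain ⟨c, c1, c2⟩ : ∃ c : J → S ⊕ Q, (∀ j : S, c j = .inl j) ∧
      ∀ j u, u ∈ T j → u ∉ K → ∀ w, q u = some w → c j = .inr w := by
    have : ∀ j, ∃ z : S ⊕ Q, (∀ s : ∀ u ∈ T j, u ∈ K, z = .inl ⟨j, s⟩) ∧
        ∀ u, u ∈ T j → u ∉ K → ∀ w, q u = some w → z = .inr w := by
      intro j
      by_cases s : ∀ u ∈ T j, u ∈ K
      · exact ⟨.inl ⟨j, s⟩, fun _ => rfl, fun u a n => absurd (s u a) n⟩
      · obtain ⟨u, a, n⟩ : ∃ u ∈ T j, u ∉ K := by simpa using s
        obtain ⟨w, hw⟩ := Option.ne_none_iff_exists'.1 (nq u n)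
        refine ⟨.inr w, fun t => absurd t s, fun v a' n' w' e => ?_⟩
        by_cases d : u = v
        · subst d
          rw [Option.some.inj (hw.symm.trans e)]
        · rw [Option.some.inj (hw.symm.trans
            ((hq u v n n' ⟨d, j, (hm _ _).2 a, (hm _ _).2 a'⟩).trans e))]
    choose c hc using this
    exact ⟨c, fun j => (hc j).1 j.2, fun j => (hc j).2⟩
  have c3 : ∀ j j' u, u ∈ T j → u ∈ T j' → u ∉ K → c j = c j' := fun j j' u a a' n => by
    obtain ⟨w, hw⟩ := Option.ne_none_iff_exists'.1 (nq u n)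
    rw [c2 j u a n w hw, c2 j' u a' n w hw]
  have iS : DecidableEq (S ⊕ Q) := Classical.decEq _
  let E := (Ed T).filter fun s => ∀ u ∈ s, u ∈ K
  let A : Matrix E (S ⊕ Q) (ZMod 2) := fun e w => ∑ j with e.1 ⊆ T j, if c j = w then 1 else 0
  let B : Matrix K E (ZMod 2) := fun u e => if u.1 ∈ e.1 then 1 else 0
  have hA := rk A (c m.inf) fun x hx w => by
    have : ∀ j, x (c j) = x (c m.inf) := fun j => by
      refine h.conn_faces (F := {j | x (c j) = x (c m.inf)}) (j := m.inf) ?_ rfl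
      rintro u v ⟨d, i, i', o, o', e, e'⟩
      apply e'
      refine Eq.trans ?_ e
      by_cases hu : u ∈ K
      · by_cases hv : v ∈ K
        · have ii : i ≠ i' := fun n => e' (n ▸ e)
          have h1 := hE u v (o.adj d)
          have h6 : (∑ w, (∑ j with {u, v} ⊆ T j, if c j = w then 1 else 0) * x w) = 0 :=
            congrFun hx ⟨{u, v}, mem_filter.2 ⟨h1, by simp [hu, hv]⟩⟩
          rw [← eq_of_subset_of_card_le (s := {i, i'}) (t := {j | {u, v} ⊆ T j})
            (by simp [insert_subset_iff, ← hm, o.1, o.2, o'.1, o'.2])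
            (by rw [h3 _ h1, card_pair ii])] at h6
          simp only [sum_pair ii, add_mul, sum_add_distrib, ite_mul, one_mul, zero_mul, sum_ite_eq,
            mem_univ, if_true] at h6
          exact (TEULER.two _ _ h6).symm
        · rw [c3 i' i v ((hm _ _).1 o'.2) ((hm _ _).1 o.2) hv]
      · rw [c3 i' i u ((hm _ _).1 o'.1) ((hm _ _).1 o.1) hu]
    rcases w with j | w
    · rw [← c1 j, this]
    · obtain ⟨u, n, e⟩ := sq w
      obtain ⟨j, a⟩ := fc u
      rw [← c2 j u ((hm _ _).1 a) n w e, this]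
  have hB := rk' Bᵀ b fun x hx => hb x fun u v a => by
    have h6 : (∑ w : K, (if w.1 ∈ ({u.1, v.1} : Finset V) then 1 else 0) * x w) = 0 :=
      congrFun hx ⟨{u.1, v.1}, mem_filter.2 ⟨hE _ _ a, by simp⟩⟩
    have d : u ≠ v := fun e => a.1 (congrArg _ e)
    simp only [ite_mul, one_mul, zero_mul, ← sum_filter] at h6
    rw [show (univ.filter fun w : K => w.1 ∈ ({u.1, v.1} : Finset V)) = {u, v} by
      ext w; simp [Subtype.ext_iff], sum_pair d] at h6
    exact TEULER.two _ _ h6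
  have hAB : B * A = 0 := by
    ext u w
    rw [Matrix.zero_apply, mul_apply]
    have e1 : ∑ e : E, B u e * A e w = ∑ s ∈ Ed T, (if u.1 ∈ s then 1 else 0) *
        ∑ j with s ⊆ T j, if c j = w then (1 : ZMod 2) else 0 := by
      rw [sum_coe_sort E fun s => (if u.1 ∈ s then 1 else 0) *
        ∑ j with s ⊆ T j, if c j = w then (1 : ZMod 2) else 0]
      refine sum_subset (filter_subset _ _) fun s hs n => ?_
      obtain ⟨v, a, n'⟩ : ∃ v ∈ s, v ∉ K := by simpa [E, hs] using n
      obtain ⟨i, i', ii, e⟩ := card_eq_two.1 (h3 s hs)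
      have a1 : s ⊆ T i := by simpa using (e ▸ by simp : i ∈ univ.filter fun j => s ⊆ T j)
      have a2 : s ⊆ T i' := by simpa using (e ▸ by simp : i' ∈ univ.filter fun j => s ⊆ T j)
      rw [e, sum_pair ii, c3 i i' v (a1 a) (a2 a) n', CharTwo.add_self_eq_zero, mul_zero]
    rw [e1]
    simp only [mul_sum, sum_filter]
    rw [sum_comm]
    refine sum_eq_zero fun j _ => ?_
    by_cases e : c j = w
    · refine Eq.trans ?_ (tri (hT j) fun v => if v = u.1 then 1 else 0)
      rw [← fil, sum_filter]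
      refine sum_congr rfl fun s _ => ?_
      by_cases a : s ⊆ T j <;> simp [a, e]
    · simp [e]
  have h1 := Matrix.rank_add_rank_le_card_of_mul_eq_zero hAB
  have hE2 : #E * 2 = ∑ j, #(E.filter (· ⊆ T j)) := by
    refine Eq.trans ?_ (sum_card_bipartiteAbove_eq_sum_card_bipartiteBelow (s := E) (t := univ)
      (r := fun s j => s ⊆ T j))
    exact (sum_const_nat fun s hs => h3 s (mem_filter.1 hs).1).symm
  have hj : ∀ j, #(E.filter (· ⊆ T j)) = (if m.Two K j then 1 else 0) +
      2 * if ∀ u ∈ T j, u ∈ K then 1 else 0 := by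
    intro j
    have : E.filter (· ⊆ T j) = powersetCard 2 ((T j).filter (· ∈ K)) := by
      ext s
      simp only [E, mem_filter, mem_Ed, mem_powersetCard, subset_iff]
      exact ⟨fun ⟨⟨⟨_, _, a⟩, b⟩, d⟩ => ⟨fun x hx => ⟨d hx, b x hx⟩, a⟩,
        fun ⟨a, b⟩ => ⟨⟨⟨j, fun x hx => (a hx).1, b⟩, fun x hx => (a hx).2⟩, fun x hx => (a hx).1⟩⟩
    rw [this, card_powersetCard]
    have a1 := h.neLR j; have a2 := h.neLX j; have a3 := h.neRX j
    by_cases b1 : m.L j ∈ K <;> by_cases b2 : m.R j ∈ K <;> by_cases b3 : m.X j ∈ K <;>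
      simp [T, Two, filter_insert, filter_singleton, *]
  simp only [hj, sum_add_distrib, ← mul_sum, sum_boole, Nat.cast_id] at hE2
  rw [rank_transpose] at hB
  rw [Fintype.card_sum, Fintype.card_subtype] at hA
  rw [Fintype.card_coe] at h1
  rw [TEULER.nc, ← Set.fintypeCard_eq_ncard]
  have hE3 : #E * 2 = #(univ.filter (m.Two K)) + 2 * #{x | ∀ u ∈ T x, u ∈ K} := by
    convert hE2
  omega

theorem Ok.chi_cc (h : m.Ok) [Finite V] [Finite J] (fc : ∀ v, ∃ j, m.has j v) (K : Set V) :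
    2 * K.ncard + 2 * m.cc Kᶜ ≤ {j | m.Two K j}.ncard + 2 * m.cc K + 2 := by
  classical
  have := Fintype.ofFinite V
  have := Fintype.ofFinite J
  have := Fintype.ofFinite (m.TG.induce K).ConnectedComponent
  have := Fintype.ofFinite (m.TG.induce Kᶜ).ConnectedComponent
  simp only [cc, Nat.card_eq_fintype_card]
  refine h.chi_ge fc K (fun i => Quot.out i) (fun x a b => funext fun u => ?_)
    (fun u => if n : u ∈ K then none else some ((m.TG.induce Kᶜ).connectedComponentMk ⟨u, n⟩))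
    (fun u v n n' a => ?_) (fun u n => by simp [n]) fun w => ?_
  · have r : (m.TG.induce K).Reachable (Quot.out ((m.TG.induce K).connectedComponentMk u)) u :=
      SimpleGraph.ConnectedComponent.exact (Quot.out_eq _)
    have k : ∀ {u v}, (m.TG.induce K).Walk u v → x u = x v := fun p => by
      induction p with
      | nil => rfl
      | cons e _ ih => exact (a _ _ e).trans ih
    exact r.elim fun p => (k p).symm.trans (b _)
  · simp only [n, n', dif_neg, not_false_eq_true, Option.some.injEq]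
    exact SimpleGraph.ConnectedComponent.connectedComponentMk_eq_of_adj a
  · induction w using SimpleGraph.ConnectedComponent.ind with
    | _ u => exact ⟨u.1, u.2, dif_neg u.2⟩

/-- Euler: the number of faces with at least two cells in `K` -/
theorem Ok.chi (h : m.Ok) (c : m.Cnt) [Finite V] [Finite J] (K : Set V) :
    {j | m.Two K j}.ncard + 2 * m.cc K + 2 = 2 * K.ncard + 2 * m.cc Kᶜ := by
  have a := h.chi_cc c.face K
  have b := h.chi_cc c.face Kᶜ
  have e := c.euler
  have e1 := Set.ncard_add_ncard_compl K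
  have e2 := Set.ncard_add_ncard_compl {j | m.Two K j}
  rw [show {j | m.Two K j}ᶜ = {j | m.Two Kᶜ j} by
    ext j; simp only [Two, Set.mem_compl_iff, Set.mem_ofPred_eq]; tauto] at e2
  rw [compl_compl] at b
  omega

/-- the junctions with a corner in `K` -/
theorem Ok.chi_inc (h : m.Ok) (c : m.Cnt) [Finite V] [Finite J] (K : Set V) :
    {j | m.L j ∈ K ∨ m.R j ∈ K}.ncard + 2 * m.cc K + 2 =
      2 * K.ncard + {j | m.cvx K j}.ncard + 2 * m.cc Kᶜ := by
  have a := h.chi c K
  rw [show {j | m.L j ∈ K ∨ m.R j ∈ K} = {j | m.Two K j} ∪ {j | m.cvx K j} by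
    ext j; simp only [Two, cvx, Set.mem_union, Set.mem_ofPred_eq]; tauto,
    Set.ncard_union_eq (Set.disjoint_left.2 fun j => by
      simp only [Two, cvx, Set.mem_ofPred_eq]; tauto)]
  omega

/-- the junctions with both corners in `K` -/
theorem Ok.chi_edg (h : m.Ok) (c : m.Cnt) [Finite V] [Finite J] (K : Set V) :
    {j | m.L j ∈ K ∧ m.R j ∈ K}.ncard + {j | m.cvx Kᶜ j}.ncard + 2 * m.cc K + 2 =
      2 * K.ncard + 2 * m.cc Kᶜ := by
  have a := h.chi c K
  rw [show {j | m.Two K j} = {j | m.L j ∈ K ∧ m.R j ∈ K} ∪ {j | m.cvx Kᶜ j} by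
    ext j; simp only [Two, cvx, Set.mem_union, Set.mem_ofPred_eq, Set.mem_compl_iff]; tauto,
    Set.ncard_union_eq (Set.disjoint_left.2 fun j => by
      simp only [cvx, Set.mem_ofPred_eq, Set.mem_compl_iff]; tauto)] at a
  omega

end Map

end Pool.Agent.P.MP_5f84aa_co.G
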