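import Pool.Agent.P.MP_5f84aa_co.G.HLH

/-! A connected lit set: every odd component of its complement saves one half. -/

namespace Pool.Agent.P.MP_5f84aa_co.G

namespace Map

variable {V J Sg : Type} {m : Map V J Sg}

/-- `K` is a union of components of `U` -/
def Cls (m : Map V J Sg) (U K : Finset V) : Prop :=
  K ⊆ U ∧ ∀ u ∈ K, ∀ v, m.Adj u v → v ∈ U → v ∈ K

theorem Ok.coCon_cls (h : m.Ok) {U K : Finset V} (b : ∀ v ∈ U, m.Bd v) (c : m.CoCon U)
    (k : m.Cls U K) : m.CoCon K := by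
  intro A iA cl v hv
  have li : m.L m.inf ∉ U := fun q => b _ q (.inl rfl)
  have a1 := c {v | v ∈ A ∧ v ∉ U} ⟨iA, li⟩
    fun u hu w a n => ⟨cl u hu.1 w a fun q => n (k.1 q), n⟩
  have : v ∈ {v | v ∈ A ∨ v ∈ K} := h.conn (fun u hu w a => by
    by_cases q : w ∈ K
    · exact .inr q
    rcases hu with hu | hu
    · exact .inl (cl u hu w a q)
    · exact .inl (a1 w fun n => q (k.2 u hu w a n)).1) ⟨_, .inl iA⟩
  exact this.resolve_right hv

theorem Ok.lh_family (h : m.Ok) [Finite V] [Finite J] (fc : ∀ v, ∃ j, m.has j v) {U : Finset V}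
    (b : ∀ v ∈ U, m.Bd v) (c : m.CoCon U) (𝒦 : Finset (Finset V)) {U₀ : Finset V} (k₀ : m.Cls U U₀)
    (k : ∀ K ∈ 𝒦, K ⊆ U₀ ∧ m.Cls U K ∧ Odd K.card)
    (d : ∀ K ∈ 𝒦, ∀ K' ∈ 𝒦, K ≠ K' → Disjoint K K') :
    ∃ M F sh, m.HGood U₀ (m.Ins U₀) M F sh ∧ 2 * (M.card + F.card) + 𝒦.card ≤ U₀.card := by
  classical
  induction 𝒦 using Finset.induction_on generalizing U₀ with
  | empty => simpa using h.lh fc (fun v a => b v (k₀.1 a)) (h.coCon_cls b c k₀)
  | insert K 𝒦 n ih =>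
    obtain ⟨k1, k2, k3⟩ := k K (Finset.mem_insert_self _ _)
    obtain ⟨M, F, sh, g, cd⟩ := h.lh fc (fun v a => b v (k2.1 a)) (h.coCon_cls b c k2)
    obtain ⟨M', F', sh', g', cd'⟩ := ih (U₀ := U₀ \ K)
      ⟨Finset.sdiff_subset.trans k₀.1, fun u hu v a q => Finset.mem_sdiff.2
        ⟨k₀.2 u (Finset.mem_sdiff.1 hu).1 v a q, fun e => (Finset.mem_sdiff.1 hu).2
          (k2.2 v e u a.symm (k₀.1 (Finset.mem_sdiff.1 hu).1))⟩⟩
      (fun K' a => ⟨Finset.subset_sdiff.2 ⟨(k K' (Finset.mem_insert_of_mem a)).1,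
        d K' (Finset.mem_insert_of_mem a) K (Finset.mem_insert_self _ _) fun e => n (e ▸ a)⟩,
        (k K' (Finset.mem_insert_of_mem a)).2⟩)
      fun K' a K'' a' => d K' (Finset.mem_insert_of_mem a) K'' (Finset.mem_insert_of_mem a')
    refine ⟨M ∪ M', F ∪ F', _, (g.union g' fun v a b => (Finset.mem_sdiff.1 b).2 a).weak
      (Finset.union_subset k1 Finset.sdiff_subset) fun u v w => ?_, ?_⟩
    · by_cases q : u ∈ K
      · exact .inl ⟨w.1, q, k2.2 u q v w.1 (k₀.1 w.2.2)⟩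
      · exact .inr ⟨w.1, Finset.mem_sdiff.2 ⟨w.2.1, q⟩, Finset.mem_sdiff.2
          ⟨w.2.2, fun e => q (k2.2 v e u w.1.symm (k₀.1 w.2.1))⟩⟩
    · have := Finset.card_union_le M M'
      have := Finset.card_union_le F F'
      have := Finset.card_sdiff_add_card_eq_card k1
      obtain ⟨r, hr⟩ := k3
      rw [Finset.card_insert_of_notMem n]
      omega

/-- Cells outside `U` are lit by singles `F₀` and by the junctions `M₀`, whose shadows fall outside `U`;
the complement of `U` is connected.  Then every odd union of components of `U` saves one half. -/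
theorem Ok.lh_cover (h : m.Ok) [Finite V] [Finite J] (fc : ∀ v, ∃ j, m.has j v) {U : Finset V}
    (b : ∀ v ∈ U, m.Bd v) (c : m.CoCon U) (M₀ : Finset J) (F₀ : Finset V) (i : m.inf ∉ M₀)
    (o : ∀ j ∈ M₀, ∀ v, m.cor j v → v ∉ U) (l : ∀ v, v ∉ U → v ∈ F₀ ∨ ∃ j ∈ M₀, m.cor j v)
    (r : ∀ j ∈ M₀, ∀ j', m.far j j' → m.X j' ∉ U) (𝒦 : Finset (Finset V))
    (k : ∀ K ∈ 𝒦, m.Cls U K ∧ Odd K.card) (d : ∀ K ∈ 𝒦, ∀ K' ∈ 𝒦, K ≠ K' → Disjoint K K') :
    ∃ M F sh, m.Cover M F sh ∧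
      2 * (M.card + F.card) + 𝒦.card ≤ 2 * (M₀.card + F₀.card) + U.card := by
  classical
  obtain ⟨M, F, sh, g, cd⟩ := h.lh_family fc b c 𝒦 (U₀ := U) ⟨subset_rfl, fun _ _ _ _ => id⟩
    (fun K a => ⟨(k K a).1.1, k K a⟩) d
  have sub : M₀ ⊆ M ∪ M₀ := Finset.subset_union_right
  have key : ∀ u v, u ∉ U → m.Lit (M ∪ M₀) (F ∪ F₀) (fun j => if j ∈ M then sh j else m.L j) u v := by
    intro u v n
    rcases l u n with a | ⟨j, a, q⟩
    · exact lit_sing (Finset.mem_union_right _ a)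
    by_cases e : ∃ j', m.far j j' ∧ m.X j' = v
    · obtain ⟨j', f, rfl⟩ := e
      rcases l _ (r j a j' f) with a' | ⟨i, a', q'⟩
      · exact (lit_sing (Finset.mem_union_right _ a')).symm
      · exact .inr (.inr ⟨⟨j, sub a, q⟩, i, sub a', q'⟩)
    · exact lit_cor (sub a) q fun j' f _ n => e ⟨j', f, n⟩
  refine ⟨M ∪ M₀, F ∪ F₀, fun j => if j ∈ M then sh j else m.L j, ⟨by simp [g.fin, i], fun j a => ?_,
    fun u v a => ?_⟩, ?_⟩
  · by_cases q : j ∈ M
    · simpa [q] using g.sh_cor j q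
    · simp [q, cor]
  · by_cases q : u ∈ U
    · by_cases q' : v ∈ U
      · exact (g.lit u v ⟨a, q, q'⟩).mono Finset.subset_union_left Finset.subset_union_left
          fun j a => if_pos a
      · exact (key v u q').symm
    · exact key u v q
  · have := Finset.card_union_le M M₀
    have := Finset.card_union_le F F₀
    omega

end Map

end Pool.Agent.P.MP_5f84aa_co.G
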