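import Pool.Agent.P.MP_5f84aa_co.G.RBas

/-! The dual form of the Jordan property: a set of pieces that is even on faces is a cut. -/

namespace Pool.Agent.P.MP_5f84aa_co.G

namespace Map

variable {V J Sg : Type} {m : Map V J Sg}

/-- an even number of the three pieces of the face `j` lies in `ρ` -/
def Ev (m : Map V J Sg) (ρ : V → V → Prop) (j : J) : Prop :=
  ρ (m.L j) (m.R j) ↔ ¬ (ρ (m.L j) (m.X j) ↔ ρ (m.R j) (m.X j))

theorem ev_iff {ρ : V → V → Prop} (sρ : ∀ u v, ρ u v → ρ v u) {j : J} {x y z : V}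
    (f : m.Fc j x y z) : m.Ev ρ j ↔ (ρ x y ↔ ¬ (ρ x z ↔ ρ y z)) := by
  obtain ⟨⟨rfl, rfl⟩ | ⟨rfl, rfl⟩, rfl⟩ := f
  · rfl
  · have := sρ (m.L j) (m.R j)
    have := sρ (m.R j) (m.L j)
    unfold Ev
    tauto

namespace HCut

open Classical in
/-- the three pieces of a face -/
noncomputable def ed (m : Map V J Sg) (j : J) : Finset (Sym2 V) :=
  {s(m.L j, m.R j), s(m.L j, m.X j), s(m.R j, m.X j)}

theorem mem_ed (h : m.Ok) {j : J} {u v : V} : s(u, v) ∈ ed m j ↔ u ≠ v ∧ m.On j u v := by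
  have a := h.neLR j; have b := h.neLX j; have c := h.neRX j
  simp only [ed, Finset.mem_insert, Finset.mem_singleton, Sym2.eq_iff, On, has]
  grind

open Classical in
/-- the indicator of a symmetric relation -/
noncomputable def ind (ρ : V → V → Prop) (s : Sym2 V) : ZMod 2 :=
  if ∃ u v, s = s(u, v) ∧ ρ u v then 1 else 0

open Classical in
theorem ind_mk {ρ : V → V → Prop} (sρ : ∀ u v, ρ u v → ρ v u) (u v : V) :
    ind ρ s(u, v) = if ρ u v then 1 else 0 := by
  unfold ind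
  congr 1
  refine propext ⟨?_, fun r => ⟨u, v, rfl, r⟩⟩
  rintro ⟨a, b, e, r⟩
  rcases Sym2.eq_iff.1 e with ⟨rfl, rfl⟩ | ⟨rfl, rfl⟩
  exacts [r, sρ _ _ r]

theorem sum_ed (h : m.Ok) {ρ : V → V → Prop} (sρ : ∀ u v, ρ u v → ρ v u) {j : J}
    (e : m.Ev ρ j) : ∑ s ∈ ed m j, ind ρ s = 0 := by
  classical
  have a := h.neLR j; have b := h.neLX j; have c := h.neRX j
  unfold ed
  rw [Finset.sum_insert, Finset.sum_insert, Finset.sum_singleton, ind_mk sρ, ind_mk sρ, ind_mk sρ]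
  · unfold Ev at e
    by_cases h1 : ρ (m.L j) (m.R j) <;> by_cases h2 : ρ (m.L j) (m.X j) <;>
      by_cases h3 : ρ (m.R j) (m.X j) <;> simp_all <;> decide
  · simp only [Finset.mem_singleton, Sym2.eq_iff]; grind
  · simp only [Finset.mem_insert, Finset.mem_singleton, Sym2.eq_iff]; grind

theorem z2 (a : ZMod 2) : a = 0 ∨ a = 1 := by revert a; decide

/-- a cycle of walls meets `ρ` in an even number of pieces -/
theorem cyc (h : m.Ok) [Fintype V] [Finite J] {W ρ : V → V → Prop} {o : J}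
    (aW : ∀ u v, W u v → m.Adj u v) (sρ : ∀ u v, ρ u v → ρ v u)
    (H : ∀ F : Set J, o ∈ F → (∀ u v, m.Spl F u v → W u v) → ∀ j, j ∉ F → m.Ev ρ j)
    (e : Sym2 V → ZMod 2) (sup : ∀ a b, e s(a, b) ≠ 0 → W a b)
    (dg : ∀ a, ∑ b, e s(a, b) = 0) : ∑ s, e s * ind ρ s = 0 := by
  classical
  have := Fintype.ofFinite J
  obtain ⟨F, hF⟩ := h.jordan (fun u v => e s(u, v) ≠ 0) (fun u v r => by rwa [Sym2.eq_swap])
    (fun u v r => aW _ _ (sup _ _ r)) fun u => by
      have e1 := dg u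
      have e2 : ∑ b, e s(u, b) = ((Finset.univ.filter fun b => e s(u, b) ≠ 0).card : ZMod 2) := by
        rw [Finset.card_filter, Nat.cast_sum]
        refine Finset.sum_congr rfl fun b _ => ?_
        rcases z2 (e s(u, b)) with r | r <;> simp [r]
      rw [e2, ZMod.natCast_eq_zero_iff_even] at e1
      rwa [← Set.ncard_coe_finset, Finset.coe_filter_univ] at e1
  -- the number of faces of a set on a piece
  have two : ∀ (G : Set J) u v, m.Adj u v → ∃ j j', j ≠ j' ∧ m.On j u v ∧ m.On j' u v ∧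
      (∑ i, if i ∈ G ∧ s(u, v) ∈ ed m i then (1 : ZMod 2) else 0) =
        (if j ∈ G then 1 else 0) + (if j' ∈ G then 1 else 0) ∧
      ({i | i ∈ G ∧ m.has i u ∧ m.has i v}.ncard = 1 ↔ ¬ (j ∈ G ↔ j' ∈ G)) := by
    intro G u v a
    obtain ⟨d, j, o1⟩ := id a
    obtain ⟨j', d', o2, t⟩ := h.other o1 d
    have q : ∀ i, m.has i u ∧ m.has i v ↔ i = j ∨ i = j' :=
      fun i => ⟨t i, by rintro (rfl | rfl) <;> assumption⟩
    refine ⟨j, j', d'.symm, o1, o2, ?_, ?_⟩
    · rw [← Finset.sum_subset (Finset.subset_univ {j, j'}), Finset.sum_pair d'.symm]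
      · simp [mem_ed h, d, show m.On j u v from o1, o2]
      · intro i _ hi
        rw [if_neg]
        rintro ⟨-, r⟩
        exact hi (by simpa using t i ((mem_ed h).1 r).2)
    · simp only [q]
      by_cases c : j ∈ G <;> by_cases c' : j' ∈ G
      · rw [show {i | i ∈ G ∧ (i = j ∨ i = j')} = {j, j'} by ext; grind, Set.ncard_pair d'.symm]
        simp [c, c']
      · rw [show {i | i ∈ G ∧ (i = j ∨ i = j')} = {j} by ext; grind]
        simp [c, c']
      · rw [show {i | i ∈ G ∧ (i = j ∨ i = j')} = {j'} by ext; grind]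
        simp [c, c']
      · rw [show {i | i ∈ G ∧ (i = j ∨ i = j')} = ∅ by ext; grind]
        simp [c, c']
  obtain ⟨G, oG, hG⟩ : ∃ G : Set J, o ∉ G ∧ ∀ u v j j', u ≠ v → j ≠ j' → m.On j u v → m.On j' u v →
      (e s(u, v) ≠ 0 ↔ ¬ (j ∈ G ↔ j' ∈ G)) := by
    have k : ∀ u v j j', u ≠ v → j ≠ j' → m.On j u v → m.On j' u v →
        (e s(u, v) ≠ 0 ↔ ¬ (j ∈ F ↔ j' ∈ F)) := by
      intro u v j j' d d' a b
      obtain ⟨i, i', n, c, c', -, r⟩ := two F u v (a.adj d)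
      rw [hF u v (a.adj d), r]
      rcases h.two_faces d c c' a n with rfl | rfl <;> rcases h.two_faces d c c' b n with rfl | rfl <;>
        tauto
    by_cases i : o ∈ F
    · exact ⟨Fᶜ, fun n => n i, fun u v j j' d d' a b => by
        rw [k u v j j' d d' a b, Set.mem_compl_iff, Set.mem_compl_iff]; tauto⟩
    · exact ⟨F, i, k⟩
  have ev : ∀ j ∈ G, m.Ev ρ j := fun j hj => H Gᶜ oG (by
    rintro u v ⟨d, i, i', a, b, c, c'⟩
    refine sup _ _ ((hG u v i i' d (fun n => c' (n ▸ c)) a b).2 ?_)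
    simp only [Set.mem_compl_iff] at c c'
    tauto) j fun n => n hj
  have es : ∀ s, e s = ∑ i, if i ∈ G ∧ s ∈ ed m i then (1 : ZMod 2) else 0 := by
    intro s
    induction s using Sym2.ind with
    | _ u v =>
      by_cases a : m.Adj u v
      · obtain ⟨j, j', n, c, c', r, -⟩ := two G u v a
        have := hG u v j j' a.1 n c c'
        rw [r]
        rcases z2 (e s(u, v)) with q | q <;> by_cases c : j ∈ G <;> by_cases c' : j' ∈ G <;>
          simp_all <;> decide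
      · rw [Finset.sum_eq_zero fun i _ => if_neg fun r =>
          a (((mem_ed h).1 r.2).2.adj ((mem_ed h).1 r.2).1)]
        by_contra n
        exact a (aW _ _ (sup _ _ n))
  simp only [es, Finset.sum_mul]
  rw [Finset.sum_comm]
  refine Finset.sum_eq_zero fun j _ => ?_
  by_cases c : j ∈ G
  · refine Eq.trans ?_ (sum_ed h sρ (ev j c))
    simp [c]
  · simp [c]

open Classical in
/-- a chain of walls from `u` to `v` with the parity `c` -/
def Rch [Fintype V] (W ρ : V → V → Prop) (u v : V) (c : ZMod 2) : Prop :=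
  ∃ e : Sym2 V → ZMod 2, (∀ a b, e s(a, b) ≠ 0 → W a b) ∧
    (∀ a, ∑ b, e s(a, b) = (if a = u then 1 else 0) + (if a = v then 1 else 0)) ∧
    ∑ s, e s * ind ρ s = c

theorem aa (a : ZMod 2) : a + a = 0 := by revert a; decide

section
variable [Fintype V] {W ρ : V → V → Prop} {u v w : V} {c c' : ZMod 2}

theorem Rch.refl (u : V) : Rch W ρ u u 0 :=
  ⟨fun _ => 0, fun _ _ n => absurd rfl n, fun a => by simp [aa], by simp⟩

theorem Rch.symm (r : Rch W ρ u v c) : Rch W ρ v u c := by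
  obtain ⟨e, a, b, d⟩ := r
  exact ⟨e, a, fun x => by rw [b, add_comm], d⟩

theorem Rch.trans (r : Rch W ρ u v c) (r' : Rch W ρ v w c') : Rch W ρ u w (c + c') := by
  obtain ⟨e, a, b, d⟩ := r
  obtain ⟨e', a', b', d'⟩ := r'
  classical
  refine ⟨fun s => e s + e' s, fun x y n => ?_, fun x => ?_, ?_⟩
  · by_cases q : e s(x, y) = 0
    · exact a' x y fun q' => n (by simp [q, q'])
    · exact a x y q
  · rw [Finset.sum_add_distrib, b, b', add_assoc, ← add_assoc (ite (x = v) _ _), aa, zero_add]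
  · simp only [add_mul, Finset.sum_add_distrib, d, d']

theorem Rch.step (sW : ∀ u v, W u v → W v u) (d : u ≠ v) (r : W u v) :
    Rch W ρ u v (ind ρ s(u, v)) := by
  classical
  refine ⟨fun s => if s = s(u, v) then 1 else 0, fun a b n => ?_, fun a => ?_, by simp⟩
  · have : s(a, b) = s(u, v) := by_contra fun q => n (if_neg q)
    rcases Sym2.eq_iff.1 this with ⟨rfl, rfl⟩ | ⟨rfl, rfl⟩
    exacts [r, sW _ _ r]
  · simp only [Sym2.eq_iff]
    by_cases h1 : a = u
    · subst h1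
      simp [d]
    · by_cases h2 : a = v
      · subst h2
        simp [h1]
      · simp [h1, h2]
end

end HCut

open HCut in
/-- dual Jordan property -/
theorem Ok.cut (h : m.Ok) [Finite V] [Finite J] {W ρ : V → V → Prop} {o : J}
    (sW : ∀ u v, W u v → W v u) (aW : ∀ u v, W u v → m.Adj u v) (sρ : ∀ u v, ρ u v → ρ v u)
    (H : ∀ F : Set J, o ∈ F → (∀ u v, m.Spl F u v → W u v) → ∀ j, j ∉ F → m.Ev ρ j) :
    ∃ Z : Set V, ∀ u v, W u v → (ρ u v ↔ ¬ (u ∈ Z ↔ v ∈ Z)) := by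
  classical
  have := Fintype.ofFinite V
  have zero : ∀ u c, Rch W ρ u u c → c = 0 := by
    rintro u c ⟨e, a, b, rfl⟩
    exact cyc h aW sρ H e a fun x => by rw [b, aa]
  let s : Setoid V := ⟨fun u v => ∃ c, Rch W ρ u v c, fun u => ⟨0, .refl u⟩,
    fun ⟨c, r⟩ => ⟨c, r.symm⟩, fun ⟨_, r⟩ ⟨_, r'⟩ => ⟨_, r.trans r'⟩⟩
  refine ⟨{v | Rch W ρ (Quotient.mk s v).out v 1}, fun u v w => ?_⟩
  have st : Rch W ρ u v _ := Rch.step sW (aW u v w).1 w
  have e : Quotient.mk s v = Quotient.mk s u := Quotient.sound ⟨_, st.symm⟩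
  obtain ⟨c, r⟩ : ∃ c, Rch W ρ (Quotient.mk s u).out u c := Quotient.mk_out (s := s) u
  have un : ∀ {a b c c'}, Rch W ρ a b c → (Rch W ρ a b c' ↔ c' = c) := by
    intro a b c c' r
    refine ⟨fun r' => ?_, fun q => q ▸ r⟩
    have := zero _ _ (r.trans r'.symm)
    rcases z2 c with rfl | rfl <;> rcases z2 c' with rfl | rfl <;> simp_all
  simp only [Set.mem_setOf_eq, e]
  rw [un r, un (r.trans st), ind_mk sρ]
  rcases z2 c with rfl | rfl <;> by_cases q : ρ u v <;> simp [q]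

/-- a nonempty set of pieces on one line between bounded cells is odd on two faces -/
theorem Ok.two_odd (h : m.Ok) [Finite V] [Finite J] {ρ : V → V → Prop} {t : Sg} {a b : V}
    (sρ : ∀ u v, ρ u v → ρ v u) (l : ∀ u v, ρ u v → m.Adj u v ∧ m.ln u v = t ∧ m.Bd u)
    (r : ρ a b) : ∃ g g', g ≠ g' ∧ ¬ m.Ev ρ g ∧ ¬ m.Ev ρ g' := by
  by_contra hn
  obtain ⟨o, ho⟩ : ∃ o, ∀ j, j ≠ o → m.Ev ρ j := by
    by_cases c : ∃ g, ¬ m.Ev ρ g
    · obtain ⟨g, hg⟩ := c
      exact ⟨g, fun j d => by_contra fun n => hn ⟨j, g, d, n, hg⟩⟩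
    · exact ⟨m.inf, fun j _ => by_contra fun n => c ⟨j, n⟩⟩
  obtain ⟨Z, hZ⟩ := h.cut (W := m.Adj) (ρ := ρ) (o := o) (fun _ _ => Adj.symm) (fun _ _ => id) sρ
    fun F oF _ j hj => ho j fun e => hj (e ▸ oF)
  have key : ∀ K : Set V, (∀ u v, m.Adj u v → (ρ u v ↔ ¬ (u ∈ K ↔ v ∈ K))) → m.L m.inf ∉ K → False := by
    intro K hK n
    have ne : K.Nonempty := by
      have := (hK a b (l a b r).1).1 r
      by_cases c : a ∈ K
      exacts [⟨a, c⟩, ⟨b, by tauto⟩]
    have bd : ∀ v ∈ K, m.Bd v := by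
      intro v hv c
      have d : v ≠ m.L m.inf := fun e => n (e ▸ hv)
      have := (hK v _ ⟨d, m.inf, c, .inl rfl⟩).2 (by tauto)
      exact (l _ _ this).2.2 c
    obtain ⟨j, _, _, -, -, -, H⟩ := h.hole3 ne bd
    obtain ⟨z, p, f, e, hz, hp, hf⟩ := H j (.inl rfl)
    obtain ⟨l1, l2, -, l3⟩ := h.lines e ((bd z hz).ne_inf e.has1)
    have r1 := (hK z p (h.adj12 e)).2 (by tauto)
    have r2 := (hK z f (h.adj13 e)).2 (by tauto)
    exact l3 (l1.symm.trans ((l _ _ r1).2.1.trans ((l _ _ r2).2.1.symm.trans l2)))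
  by_cases c : m.L m.inf ∈ Z
  · exact key Zᶜ (fun u v q => by rw [hZ u v q, Set.mem_compl_iff, Set.mem_compl_iff]; tauto)
      fun n => n c
  · exact key Z hZ c

end Map

end Pool.Agent.P.MP_5f84aa_co.G
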