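import Pool.Agent.P.MP_5f84aa_co.G.HCut

/-! Walls and runs: a set of unlit cells with connected open faces costs at most one half. -/

namespace Pool.Agent.P.MP_5f84aa_co.G

namespace Map

variable {V J Sg : Type} (m : Map V J Sg)

/-- the piece between `u` and `v` is lit -/
def Lit (M : Finset J) (F : Finset V) (sh : J → V) (u v : V) : Prop :=
  m.LitFrom M F sh u v ∨ m.LitFrom M F sh v u ∨ ((∃ j ∈ M, m.cor j u) ∧ ∃ k ∈ M, m.cor k v)

/-- all three pieces of the face are walls -/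
def Sol (W : V → V → Prop) (j : J) : Prop := ∀ u v, u ≠ v → m.On j u v → W u v

/-- unlit cells `U` and walls `W` -/
structure HSt (U : Finset V) (W : V → V → Prop) : Prop where
  bd : ∀ u ∈ U, m.Bd u
  sym : ∀ u v, W u v → W v u
  adj : ∀ u v, W u v → m.Adj u v
  mem : ∀ u v, W u v → u ∈ U
  con : ∀ F : Set J, m.inf ∈ F → (∀ u v, m.Spl F u v → W u v) → ∀ j, ¬ m.Sol W j → j ∈ F
  rg : ∀ j j', m.far j j' → m.L j ∈ U → m.R j ∈ U → W (m.L j) (m.R j)

/-- lights inside `U` that see all the walls -/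
structure HGood (U : Finset V) (W : V → V → Prop) (M : Finset J) (F : Finset V) (sh : J → V) :
    Prop where
  fin : m.inf ∉ M
  sh_cor : ∀ j ∈ M, m.cor j (sh j)
  inM : ∀ j ∈ M, ∀ v, m.cor j v → v ∈ U
  inF : ∀ v ∈ F, v ∈ U
  lit : ∀ u v, W u v → m.Lit M F sh u v

/-- a step along a run of walls -/
def RStep (W : V → V → Prop) (p q : V × V) : Prop :=
  q = (p.2, p.1) ∨ (q.2 = p.2 ∧ q.1 ≠ p.1 ∧ W q.1 q.2 ∧ m.ln q.1 q.2 = m.ln p.1 p.2 ∧
    ∃ j, m.Tri j p.1 q.1 p.2)

/-- the run of the wall `a b` -/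
def Run (W : V → V → Prop) (a b u v : V) : Prop :=
  Relation.ReflTransGen (m.RStep W) (a, b) (u, v)

/-- the run has an open face -/
def Att (W : V → V → Prop) (a b : V) : Prop :=
  ∃ u v j, m.Run W a b u v ∧ m.On j u v ∧ ¬ m.Sol W j

/-- a cell in an open face -/
def Bdy (W : V → V → Prop) (x : V) : Prop := ∃ j, m.has j x ∧ ¬ m.Sol W j

/-- a reduction -/
def HRed [DecidableEq V] (U : Finset V) (W : V → V → Prop) : Prop :=
  ∃ (D : Finset V) (W' : V → V → Prop) (M : Finset J) (F : Finset V) (sh : J → V),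
    D ⊆ U ∧ D.Nonempty ∧ m.HSt (U \ D) W' ∧ m.HGood D (fun u v => W u v ∧ ¬ W' u v) M F sh ∧
    2 * (M.card + F.card) ≤ D.card

variable {m} {M M' : Finset J} {F F' : Finset V} {sh sh' : J → V} {u v a b c d x y z w : V}
  {U : Finset V} {W : V → V → Prop} {j j' k k' g : J}

theorem Lit.symm (l : m.Lit M F sh u v) : m.Lit M F sh v u := by
  rcases l with l | l | l
  exacts [.inr (.inl l), .inl l, .inr (.inr l.symm)]

theorem LitFrom.mono (l : m.LitFrom M F sh u v) (hM : M ⊆ M') (hF : F ⊆ F')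
    (hs : ∀ j ∈ M, sh' j = sh j) : m.LitFrom M' F' sh' u v := by
  rcases l with l | ⟨j, a, l⟩ | ⟨j, a, l, r⟩ | ⟨j, a, k, b, l⟩
  · exact .inl (hF l)
  · exact .inr (.inl ⟨j, hM a, l⟩)
  · exact .inr (.inr (.inl ⟨j, hM a, l, fun j' f e => r j' f (hs j a ▸ e)⟩))
  · exact .inr (.inr (.inr ⟨j, hM a, k, hM b, l⟩))

theorem Lit.mono (l : m.Lit M F sh u v) (hM : M ⊆ M') (hF : F ⊆ F')
    (hs : ∀ j ∈ M, sh' j = sh j) : m.Lit M' F' sh' u v := by
  rcases l with l | l | ⟨⟨j, a, l⟩, k, b, r⟩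
  · exact .inl (l.mono hM hF hs)
  · exact .inr (.inl (l.mono hM hF hs))
  · exact .inr (.inr ⟨⟨j, hM a, l⟩, k, hM b, r⟩)

theorem lit_hug (a : j ∈ M) (l : m.hug j (m.ln u v)) : m.Lit M F sh u v :=
  .inl (.inr (.inl ⟨j, a, l⟩))

theorem lit_cor (a : j ∈ M) (c : m.cor j u) (s : ∀ j', m.far j j' → sh j = u → m.X j' ≠ v) :
    m.Lit M F sh u v := .inl (.inr (.inr (.inl ⟨j, a, c, s⟩)))

theorem lit_sing (a : u ∈ F) : m.Lit M F sh u v := .inl (.inl a)

/-- two families of lights in disjoint sets -/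
theorem HGood.union [DecidableEq V] [DecidableEq J] {U' : Finset V} {W' : V → V → Prop}
    (g : m.HGood U W M F sh) (g' : m.HGood U' W' M' F' sh') (d : ∀ v ∈ U, v ∉ U') :
    m.HGood (U ∪ U') (fun u v => W u v ∨ W' u v) (M ∪ M') (F ∪ F')
      (fun j => if j ∈ M then sh j else sh' j) where
  fin := by simp [g.fin, g'.fin]
  sh_cor j hj := by
    by_cases c : j ∈ M
    · simpa [c] using g.sh_cor j c
    · simpa [c] using g'.sh_cor j (by simpa [c] using hj)
  inM j hj v c := by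
    rcases Finset.mem_union.1 hj with a | a
    exacts [Finset.mem_union_left _ (g.inM j a v c), Finset.mem_union_right _ (g'.inM j a v c)]
  inF v hv := by
    rcases Finset.mem_union.1 hv with a | a
    exacts [Finset.mem_union_left _ (g.inF v a), Finset.mem_union_right _ (g'.inF v a)]
  lit u v r := by
    rcases r with r | r
    · exact (g.lit u v r).mono Finset.subset_union_left Finset.subset_union_left fun j a => if_pos a
    · exact (g'.lit u v r).mono Finset.subset_union_right Finset.subset_union_right fun j a =>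
        if_neg fun c => d _ (g.inM j c _ (.inl rfl)) (g'.inM j a _ (.inl rfl))

theorem HGood.weak {U' : Finset V} {W' : V → V → Prop} (g : m.HGood U W M F sh) (s : U ⊆ U')
    (r : ∀ u v, W' u v → W u v) : m.HGood U' W' M F sh :=
  ⟨g.fin, g.sh_cor, fun j a v c => s (g.inM j a v c), fun v a => s (g.inF v a),
    fun u v a => g.lit u v (r u v a)⟩

/-! ### Runs -/

theorem Run.refl (W : V → V → Prop) (a b : V) : m.Run W a b a b := Relation.ReflTransGen.refl
theorem Run.swap (r : m.Run W a b u v) : m.Run W a b v u := r.tail (.inl rfl)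
theorem Run.trans (r : m.Run W a b u v) (r' : m.Run W u v x y) : m.Run W a b x y :=
  Relation.ReflTransGen.trans r r'

theorem Run.ind {P : V → V → Prop} (r : m.Run W a b u v) (h0 : P a b)
    (h1 : ∀ x y, m.Run W a b x y → P x y → P y x)
    (h2 : ∀ x x' y j, m.Run W a b x y → P x y → x' ≠ x → W x' y → m.ln x' y = m.ln x y →
      m.Tri j x x' y → P x' y) : P u v := by
  have : ∀ q, Relation.ReflTransGen (m.RStep W) (a, b) q → P q.1 q.2 := by
    intro q r
    induction r with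
    | refl => exact h0
    | @tail p q r s ih =>
      obtain ⟨x, y⟩ := p
      obtain ⟨x', y'⟩ := q
      rcases s with s | ⟨s1, s2, s3, s4, j, s5⟩
      · obtain ⟨rfl, rfl⟩ := Prod.mk.inj s
        exact h1 _ _ r ih
      · obtain rfl : y' = y := s1
        exact h2 _ _ _ j r ih s2 s3 s4 s5
  exact this _ r

theorem Run.step (r : m.Run W a b x y) (n : z ≠ x) (w : W z y) (l : m.ln z y = m.ln x y)
    (t : m.Tri j x z y) : m.Run W a b z y := r.tail (.inr ⟨rfl, n, w, l, j, t⟩)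

namespace HSt

variable (h : m.Ok) (s : m.HSt U W)
include h s

theorem run_w (r : m.Run W a b u v) (w : W a b) : W u v ∧ m.ln u v = m.ln a b :=
  r.ind (P := fun u v => W u v ∧ m.ln u v = m.ln a b) ⟨w, rfl⟩
    (fun x y _ p => ⟨s.sym _ _ p.1, (h.ln_symm _ _).trans p.2⟩)
    fun _ _ _ _ _ p _ q l _ => ⟨q, l.trans p.2⟩

theorem run_symm (r : m.Run W a b u v) (w : W a b) : m.Run W u v a b :=
  r.ind (P := fun u v => m.Run W u v a b) (.refl _ _ _)
    (fun x y _ p => (Run.refl W y x).swap.trans p)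
    fun _ _ _ _ r p n _ l t => ((Run.refl W _ _).step n.symm (s.run_w h r w).1 l.symm
      ⟨t.2.1, t.1, t.2.2⟩).trans p

omit h in
theorem sol_of (f : m.Fc j x y z) (a : W x y) (b : W x z) (c : W y z) : m.Sol W j := by
  have := s.sym _ _ a; have := s.sym _ _ b; have := s.sym _ _ c
  intro u v d ⟨o1, o2⟩
  rcases f.has_iff.1 o1 with rfl | rfl | rfl <;> rcases f.has_iff.1 o2 with rfl | rfl | rfl <;>
    first | assumption | exact absurd rfl d

omit h in
theorem mem2 (w : W u v) : v ∈ U := s.mem _ _ (s.sym _ _ w)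

omit h in
theorem open_of (a : m.On j u v) (d : u ≠ v) (n : ¬ W u v) : ¬ m.Sol W j := fun q => n (q u v d a)

/-- the general form of a reduction -/
theorem red [DecidableEq V] {D : Finset V} {ρ : V → V → Prop} (sub : D ⊆ U) (ne : D.Nonempty)
    (cd : 2 * (M.card + F.card) ≤ D.card) (sρ : ∀ u v, ρ u v → ρ v u)
    (nρ : ∀ u v, ρ u v → u ≠ v) (rr : ∀ j j', m.far j j' → ρ (m.L j) (m.R j) → m.L j ∈ D ∨ m.R j ∈ D)
    (ch : ∀ G : Set J, (∀ j, ¬ m.Sol W j → j ∈ G) →
      (∀ d ∈ D, ∀ j j', m.has j d → m.has j' d → j ∈ G → j' ∈ G) →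
      (∀ u v j j', ρ u v → m.On j u v → m.On j' u v → j ∈ G → j' ∈ G) →
      (∀ d ∈ D, ∃ j ∈ G, m.has j d) ∧ ∀ u v j, ρ u v → m.On j u v → j ∈ G)
    (fin : m.inf ∉ M) (sc : ∀ j ∈ M, m.cor j (sh j)) (inM : ∀ j ∈ M, ∀ v, m.cor j v → v ∈ D)
    (inF : ∀ v ∈ F, v ∈ D) (lit : ∀ u v, W u v → (u ∈ D ∨ ρ u v) → m.Lit M F sh u v) :
    m.HRed U W := by
  refine ⟨D, fun u v => W u v ∧ u ∉ D ∧ v ∉ D ∧ ¬ ρ u v, M, F, sh, sub, ne,
    ⟨fun u a => s.bd u (Finset.mem_sdiff.1 a).1,
      fun u v a => ⟨s.sym _ _ a.1, a.2.2.1, a.2.1, fun n => a.2.2.2 (sρ _ _ n)⟩,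
      fun u v a => s.adj _ _ a.1, fun u v a => Finset.mem_sdiff.2 ⟨s.mem _ _ a.1, a.2.1⟩, ?_, ?_⟩,
    ⟨fin, sc, inM, inF, ?_⟩, cd⟩
  · intro G iG sp j op
    have o1 := s.con G iG fun u v q => (sp u v q).1
    have o2 : ∀ d ∈ D, ∀ j j', m.has j d → m.has j' d → j ∈ G → j' ∈ G :=
      fun d a j j' b c e => h.lk0 (fun w q => (sp _ _ q).2.1 a) b c e
    obtain ⟨c1, c2⟩ := ch G o1 o2 fun u v j j' r b c e => by_contra fun n =>
      (sp u v ⟨nρ u v r, j, j', b, c, e, n⟩).2.2.2 r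
    by_contra n
    refine op fun u v d o => ⟨by_contra fun q => n (o1 j fun t => q (t u v d o)), fun a => ?_,
      fun a => ?_, fun r => n (c2 u v j r o)⟩
    · obtain ⟨i, iG, b⟩ := c1 u a
      exact n (o2 u a i j b o.1 iG)
    · obtain ⟨i, iG, b⟩ := c1 v a
      exact n (o2 v a i j b o.2 iG)
  · intro j j' f a b
    obtain ⟨a1, a2⟩ := Finset.mem_sdiff.1 a
    obtain ⟨b1, b2⟩ := Finset.mem_sdiff.1 b
    exact ⟨s.rg j j' f a1 b1, a2, b2, fun r => (rr j j' f r).elim a2 b2⟩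
  · rintro u v ⟨w, n⟩
    by_cases a : u ∈ D
    · exact lit u v w (.inl a)
    by_cases b : v ∈ D
    · exact (lit v u (s.sym _ _ w) (.inl b)).symm
    exact lit u v w (.inr (by_contra fun r => n ⟨w, a, b, r⟩))

/-- a reduction that opens no run -/
theorem red0 [DecidableEq V] {D : Finset V} (sub : D ⊆ U) (ne : D.Nonempty)
    (cd : 2 * (M.card + F.card) ≤ D.card)
    (ch : ∀ G : Set J, (∀ j, ¬ m.Sol W j → j ∈ G) →
      (∀ d ∈ D, ∀ j j', m.has j d → m.has j' d → j ∈ G → j' ∈ G) → ∀ d ∈ D, ∃ j ∈ G, m.has j d)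
    (fin : m.inf ∉ M) (sc : ∀ j ∈ M, m.cor j (sh j)) (inM : ∀ j ∈ M, ∀ v, m.cor j v → v ∈ D)
    (inF : ∀ v ∈ F, v ∈ D) (lit : ∀ u v, W u v → u ∈ D → m.Lit M F sh u v) :
    m.HRed U W :=
  s.red h (ρ := fun _ _ => False) sub ne cd (fun _ _ => id) (fun _ _ => False.elim)
    (fun _ _ _ => False.elim) (fun G a b _ => ⟨ch G a b, fun _ _ _ => False.elim⟩) fin sc inM inF
    fun u v w q => lit u v w (q.resolve_right id)

omit h s in
/-- the faces of a run are connected -/
theorem run_faces {G : Set J}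
    (c : ∀ u v j j', m.Run W a b u v → m.On j u v → m.On j' u v → j ∈ G → j' ∈ G)
    (b0 : ∀ j, m.On j a b → j ∈ G) (r : m.Run W a b u v) : ∀ j, m.On j u v → j ∈ G :=
  r.ind (P := fun u v => ∀ j, m.On j u v → j ∈ G) b0 (fun _ _ _ p j o => p j o.symm)
    fun _ _ _ i r p n w l t j o => c _ _ i j (r.step n w l t) ⟨t.2.1, t.2.2⟩ o (p i ⟨t.1, t.2.2⟩)

theorem run_faces' {G : Set J} (w : W a b)
    (c : ∀ u v j j', m.Run W a b u v → m.On j u v → m.On j' u v → j ∈ G → j' ∈ G)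
    (r0 : m.Run W a b x y) (o : m.On k x y) (kG : k ∈ G) (r : m.Run W a b u v) :
    ∀ j, m.On j u v → j ∈ G :=
  run_faces (a := x) (b := y) (fun u v j j' q => c u v j j' (r0.trans q))
    (fun j q => c x y k j r0 o q kG) ((s.run_symm h r0 w).trans r)

/-- a run with a rung has only one piece -/
theorem run_rung (w : W a b) (f : m.far j j') (r : m.Run W a b (m.L j) (m.R j)) :
    m.cor j a ∧ m.cor j b :=
  h.rung j j' f a b (s.adj _ _ w) ((s.run_w h r w).2.symm.trans (h.lnLR j f.2.1))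

variable [DecidableEq V]

theorem mv0 (hx : x ∈ U) (f : m.has j x) (n : ∀ w, ¬ W x w) : m.HRed U W := by
  refine s.red0 h (D := {x}) (M := ∅) (F := ∅) (sh := m.L) (by simpa) (by simp) (by simp)
    (fun G o _ d hd => ?_) (by simp) (by simp) (by simp) (by simp) fun u v w a => ?_
  · obtain rfl : d = x := by simpa using hd
    obtain ⟨y, _, -, e, -, t⟩ := h.two_more f
    exact ⟨j, o j (s.open_of ⟨t.1, t.2.1⟩ e.symm (n y)), f⟩
  · obtain rfl : u = x := by simpa using a
    exact absurd w (n v)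

omit s [DecidableEq V] in
theorem lit_pair (f : m.Fc k x y z) (a : k ∈ M) (e : sh k = x) (sf : ∀ k', m.far k k' → ¬ W x (m.X k'))
    (w : W u v) (c : u = x ∨ u = y) : m.Lit M F sh u v := by
  rcases c with rfl | rfl
  · exact lit_cor a f.cor1 fun j' q _ n => sf j' q (n ▸ w)
  · exact lit_cor a f.cor2 fun _ _ n => absurd (e.symm.trans n) (h.fc_ne f).1

theorem mvPa (f : m.Fc k x y z) (hx : x ∈ U) (hy : y ∈ U) (sf : ∀ k', m.far k k' → ¬ W x (m.X k'))
    (bd : m.Bdy W x ∨ m.Bdy W y) : m.HRed U W := by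
  refine s.red0 h (D := {x, y}) (M := {k}) (F := ∅) (sh := fun _ => x)
    (by simp [Finset.insert_subset_iff, hx, hy]) (by simp) (by simp [Finset.card_pair (h.fc_ne f).1])
    (fun G o c d hd => ⟨k, ?_, ?_⟩) (by simpa using ((s.bd x hx).ne_inf f.has1).symm)
    (by simpa using f.cor1) (by simpa using fun v => f.cor_iff.1) (by simp)
    fun u v w a => lit_pair h f (by simp) rfl sf w (by simpa using a)
  · rcases bd with ⟨j, a, b⟩ | ⟨j, a, b⟩
    exacts [c x (by simp) j k a f.has1 (o j b), c y (by simp) j k a f.has2 (o j b)]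
  · rcases (by simpa using hd : d = x ∨ d = y) with rfl | rfl
    exacts [f.has1, f.has2]

theorem mvPb (f : m.Fc k x y z) (hx : x ∈ U) (hy : y ∈ U) (sf : ∀ k', m.far k k' → ¬ W x (m.X k'))
    (w : W a b) (o : m.On k a b) (att : m.Att W a b) : m.HRed U W := by
  have ki := (s.bd x hx).ne_inf f.has1
  have ab := (s.adj _ _ w).1
  have c1 : m.cor k a ∨ m.cor k b := by
    rcases f.has_iff.1 o.1 with rfl | rfl | rfl
    exacts [.inl f.cor1, .inl f.cor2, .inr (f.cor_iff.2 (by have := f.has_iff.1 o.2; grind))]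
  have hg : m.hug k (m.ln a b) := by
    rcases c1 with c | c
    exacts [h.hug_of_cor c o.2 ab ki, h.ln_symm a b ▸ h.hug_of_cor c o.1 ab.symm ki]
  refine s.red h (D := {x, y}) (ρ := m.Run W a b) (M := {k}) (F := ∅) (sh := fun _ => x)
    (by simp [Finset.insert_subset_iff, hx, hy]) (by simp) (by simp [Finset.card_pair (h.fc_ne f).1])
    (fun _ _ => Run.swap) (fun u v r => (s.adj _ _ (s.run_w h r w).1).1) (fun j j' q r => ?_)
    (fun G op c cr => ?_) (by simpa using ki.symm)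
    (by simpa using f.cor1) (by simpa using fun v => f.cor_iff.1) (by simp) fun u v q r => ?_
  · obtain ⟨e1, e2⟩ := s.run_rung h w q r
    simp only [Finset.mem_insert, Finset.mem_singleton, ← f.cor_iff]
    rcases c1 with c | c
    · rcases e1 with rfl | rfl
      exacts [.inl c, .inr c]
    · rcases e2 with rfl | rfl
      exacts [.inl c, .inr c]
  · obtain ⟨u0, v0, i, r0, o0, n0⟩ := att
    have all := fun u v => s.run_faces' h (u := u) (v := v) w cr r0 o0 (op i n0)
    refine ⟨fun d hd => ⟨k, all a b (.refl _ _ _) k o, ?_⟩, fun u v j r q => all u v r j q⟩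
    rcases (by simpa using hd : d = x ∨ d = y) with rfl | rfl
    exacts [f.has1, f.has2]
  · rcases r with r | r
    · exact lit_pair h f (by simp) rfl sf q (by simpa using r)
    · exact lit_hug (j := k) (by simp) ((s.run_w h r w).2 ▸ hg)

theorem mvL (w : W x y) (o : ∀ v, W x v → v = y) : m.HRed U W := by
  obtain ⟨d, j, f⟩ := s.adj _ _ w
  obtain ⟨z, zx, zy, t⟩ := h.third f d
  refine s.red0 h (D := {x, y}) (M := ∅) (F := {y}) (sh := m.L)
    (by simp [Finset.insert_subset_iff, s.mem _ _ w, s.mem2 w]) (by simp)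
    (by simp [Finset.card_pair d])
    (fun G op _ e he => ⟨j, op j (s.open_of ⟨t.1, t.2.2⟩ zx.symm fun n => zy (o z n)), ?_⟩)
    (by simp) (by simp) (by simp) (by simp) fun u v q a => ?_
  · rcases (by simpa using he : e = x ∨ e = y) with rfl | rfl
    exacts [f.1, f.2]
  · rcases (by simpa using a : u = x ∨ u = y) with rfl | rfl
    · exact (lit_sing (by simp [o v q])).symm
    · exact lit_sing (by simp)

theorem mvR (f : m.Fc k y z x) (r : m.far k k') (hx : x ∈ U) (hz : z ∈ U) (w : W y (m.X k'))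
    (o : ∀ v, W x v → m.ln x v = m.bar k) (bd : m.Bdy W x) : m.HRed U W := by
  have f' := (h.far_ge r f.ge).fc
  obtain ⟨n1, n2, n3⟩ := h.fc_ne f
  obtain ⟨-, n4, n5⟩ := h.fc_ne f'
  have n6 : x ≠ m.X k' := f.2 ▸ h.far_X r
  refine s.red0 h (D := {x, y, z, m.X k'}) (M := {k}) (F := {m.X k'}) (sh := fun _ => y)
    (by simp [Finset.insert_subset_iff, s.mem _ _ w, s.mem2 w, hx, hz]) (by simp)
    (by rw [Finset.card_eq_four.2 ⟨x, y, z, m.X k', n2.symm, n3.symm, n6, n1, n4, n5, rfl⟩]; simp)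
    (fun G op c e he => ?_) (by simpa using r.2.1.symm) (by simpa using f.cor1)
    (fun j hj v q => by
      obtain rfl : j = k := by simpa using hj
      rcases f.cor_iff.1 q with rfl | rfl <;> simp) (by simp) fun u v q a => ?_
  · obtain ⟨i, a, b⟩ := bd
    have kG := c x (by simp) i k a f.has3 (op i b)
    rcases (by simpa using he : e = x ∨ e = y ∨ e = z ∨ e = m.X k') with rfl | rfl | rfl | rfl
    exacts [⟨k, kG, f.has3⟩, ⟨k, kG, f.has1⟩, ⟨k, kG, f.has2⟩,
      ⟨k', c y (by simp) k k' f.has1 f'.has1 kG, f'.has3⟩]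
  · rcases (by simpa using a : u = x ∨ u = y ∨ u = z ∨ u = m.X k') with rfl | rfl | rfl | rfl
    · exact lit_hug (j := k) (by simp) (.inr (o v q).symm)
    · by_cases e : v = m.X k'
      · exact (lit_sing (by simp [e])).symm
      · exact lit_cor (j := k) (by simp) f.cor1 fun j' q _ n => e (h.far_unique r q ▸ n.symm)
    · exact lit_cor (j := k) (by simp) f.cor2 fun _ _ n => absurd n n1
    · exact lit_sing (by simp)

theorem mvQ {p q e : V} (f : m.Fc k x y z) (r : m.far k k') (hy : y ∈ U) (w : W x (m.X k'))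
    (fg : m.Fc g p q e) (rg : m.Run W x (m.X k') p q) (n1 : ¬ m.cor g x) (n2 : ¬ m.cor g y)
    (bd : m.Bdy W x) : m.HRed U W := by
  classical
  have f' := (h.far_ge r f.ge).fc
  obtain ⟨wg, lg⟩ := s.run_w h rg w
  have gi := (s.bd p (s.mem _ _ wg)).ne_inf fg.has1
  have l1 := (h.lines f' r.2.2.1).2.1
  have l2 : m.stem g = m.ln x (m.X k') := (h.lines fg gi).1.symm.trans lg
  have ng : ∀ g', ¬ m.far g g' := fun g' t => h.far_not_bar t r.2.2.1 (l2.trans l1)
  have kg : k ≠ g := fun t => n1 (t ▸ f.cor1)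
  rw [fg.cor_iff] at n1 n2
  push Not at n1 n2
  refine s.red h (D := {x, y, p, q}) (ρ := m.Run W x (m.X k')) (M := {k, g}) (F := ∅)
    (sh := fun j => if j = k then x else p)
    (by simp [Finset.insert_subset_iff, s.mem _ _ w, s.mem _ _ wg, s.mem2 wg, hy]) (by simp)
    (by rw [Finset.card_eq_four.2 ⟨x, y, p, q, (h.fc_ne f).1, n1.1, n1.2, n2.1, n2.2,
      (h.fc_ne fg).1, rfl⟩, Finset.card_pair kg]; simp)
    (fun _ _ => Run.swap) (fun u v r => (s.adj _ _ (s.run_w h r w).1).1) (fun j j' t r => ?_)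
    (fun G op c cr => ?_) (by simp [r.2.1.symm, gi.symm]) (fun j hj => ?_) (fun j hj v t => ?_)
    (by simp) fun u v t a => ?_
  · rcases (s.run_rung h w t r).1 with rfl | rfl <;> simp
  · obtain ⟨i, a, b⟩ := bd
    have kG := c x (by simp) i k a f.has1 (op i b)
    have kG' := c x (by simp) i k' a f'.has1 (op i b)
    have all := fun u v => s.run_faces' h (u := u) (v := v) w cr (.refl _ _ _) ⟨f'.has1, f'.has3⟩ kG'
    have gG := all p q rg g fg.on
    refine ⟨fun d hd => ?_, fun u v j r q => all u v r j q⟩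
    rcases (by simpa using hd : d = x ∨ d = y ∨ d = p ∨ d = q) with rfl | rfl | rfl | rfl
    exacts [⟨k, kG, f.has1⟩, ⟨k, kG, f.has2⟩, ⟨g, gG, fg.has1⟩, ⟨g, gG, fg.has2⟩]
  · rcases (by simpa using hj : j = k ∨ j = g) with rfl | rfl
    · simpa using f.cor1
    · simpa [kg.symm] using fg.cor1
  · rcases (by simpa using hj : j = k ∨ j = g) with rfl | rfl
    · rcases f.cor_iff.1 t with rfl | rfl <;> simp
    · rcases fg.cor_iff.1 t with rfl | rfl <;> simp
  · rcases a with a | a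
    · rcases (by simpa using a : u = x ∨ u = y ∨ u = p ∨ u = q) with rfl | rfl | rfl | rfl
      · by_cases e : v = m.X k'
        · exact lit_hug (j := g) (by simp) (.inl (e ▸ l2))
        · exact lit_cor (j := k) (by simp) f.cor1 fun j' q _ n => e (h.far_unique r q ▸ n.symm)
      · exact lit_cor (j := k) (by simp) f.cor2 fun _ _ n => absurd (by simpa using n) (h.fc_ne f).1
      · exact lit_cor (j := g) (by simp) fg.cor1 fun j' q => absurd q (ng j')
      · exact lit_cor (j := g) (by simp) fg.cor2 fun j' q => absurd q (ng j')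
    · exact lit_hug (j := g) (by simp) (.inl (l2.trans (s.run_w h a w).2.symm))

/-! ### A state without reduction is empty -/

section Stuck

variable (n : ¬ m.HRed U W)
include n

theorem unsafe_of (f : m.Fc k x y z) (hx : x ∈ U) (hy : y ∈ U)
    (H : ∀ x y, m.Fc k x y z → x ∈ U → y ∈ U → (∀ k', m.far k k' → ¬ W x (m.X k')) → m.HRed U W) :
    ∃ k', m.far k k' ∧ W x (m.X k') ∧ W y (m.X k') ∧ W x y := by
  have a : ∀ x y, m.Fc k x y z → x ∈ U → y ∈ U → ∃ k', m.far k k' ∧ W x (m.X k') :=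
    fun x y f hx hy => by_contra fun c => n (H x y f hx hy fun k' r w => c ⟨k', r, w⟩)
  obtain ⟨k', r, w⟩ := a x y f hx hy
  obtain ⟨k'', r', w'⟩ := a y x f.symm hy hx
  refine ⟨k', r, w, h.far_unique r r' ▸ w', ?_⟩
  obtain ⟨⟨rfl, rfl⟩ | ⟨rfl, rfl⟩, -⟩ := f
  exacts [s.rg k k' r hx hy, s.sym _ _ (s.rg k k' r hy hx)]

theorem st1 (f : m.Fc k x y z) (hx : x ∈ U) (hy : y ∈ U) (bd : m.Bdy W x) :
    ∃ k', m.far k k' ∧ W x (m.X k') ∧ W y (m.X k') ∧ W x y :=
  s.unsafe_of h n f hx hy fun x' y' f' a b c => s.mvPa h f' a b c <| by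
    rcases f'.cor_iff.1 f.cor1 with rfl | rfl
    exacts [.inl bd, .inr bd]

theorem st2 (f : m.Fc k x y z) (hx : x ∈ U) (hy : y ∈ U) (w : W a b) (o : m.On k a b)
    (att : m.Att W a b) : ∃ k', m.far k k' ∧ W x (m.X k') ∧ W y (m.X k') ∧ W x y :=
  s.unsafe_of h n f hx hy fun _ _ f' c d e => s.mvPb h f' c d e w o att

omit n [DecidableEq V] in
theorem att_of (w : W a b) (att : m.Att W a b) (r : m.Run W a b u v) : m.Att W u v := by
  obtain ⟨x, y, j, r', o⟩ := att
  exact ⟨x, y, j, (s.run_symm h r w).trans r', o⟩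

omit n [DecidableEq V] in
/-- the two pieces on the bar of a solid face lie in the same runs -/
theorem run_bar (f : m.Fc j x y z) (so : m.Sol W j) : m.Run W a b x z ↔ m.Run W a b y z := by
  have key : ∀ x y, m.Fc j x y z → m.Run W a b x z → m.Run W a b y z := fun x y f r => by
    obtain ⟨n1, n2, n3⟩ := h.fc_ne f
    have w := so y z n3 ⟨f.has2, f.has3⟩
    obtain ⟨-, l1, l2, -⟩ := h.lines f ((s.bd y (s.mem _ _ w)).ne_inf f.has2)
    exact r.step n1.symm w (l2.trans l1.symm) f.tri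
  exact ⟨key x y f, key y x f.symm⟩

/-- the stem of a solid face is in no attached run -/
theorem st3 (w : W a b) (att : m.Att W a b) (f : m.Fc j x y z) (so : m.Sol W j) :
    ¬ m.Run W a b x y := fun r => by
  obtain ⟨w1, l1⟩ := s.run_w h r w
  obtain ⟨j', q, w2, w3, -⟩ := s.st2 h n f (s.mem _ _ w1) (s.mem2 w1) w1 f.on (s.att_of h w att r)
  have f' := (h.far_ge q f.ge).fc
  have so' := s.sol_of f' w1 w2 w3
  obtain ⟨u, v, i, r', o, op⟩ := att
  obtain ⟨w4, l4⟩ := s.run_w h r' w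
  obtain ⟨c1, c2⟩ := h.rung j j' q u v (s.adj _ _ w4)
    (l4.trans (l1.symm.trans (h.lines f q.2.1).1))
  rcases h.two_faces (s.adj _ _ w4).1 ⟨c1.has, c2.has⟩
    ⟨((q.2.2.2 u).1 c1).has, ((q.2.2.2 v).1 c2).has⟩ o q.1 with rfl | rfl
  exacts [op so, op so']

/-- an attached run cuts the walls -/
theorem st4 [Finite V] [Finite J] (w : W a b) (att : m.Att W a b) :
    ∃ Z : Set V, ∀ u v, W u v → (m.Run W a b u v ↔ ¬ (u ∈ Z ↔ v ∈ Z)) := by
  refine h.cut (o := m.inf) s.sym s.adj (fun _ _ => Run.swap) fun G iG sp j hj => ?_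
  have so : m.Sol W j := by_contra fun c => hj (s.con G iG sp j c)
  have := s.st3 h n w att (fc_self j) so
  have := s.run_bar h (a := a) (b := b) (fc_self j) so
  unfold Ev
  tauto

theorem stuck [Finite V] [Finite J] (fc : ∀ v, ∃ j, m.has j v) (hx : x ∈ U) : False := by
  -- an attached wall
  have ex : ∃ a b, W a b ∧ m.Att W a b := by
    by_contra c
    have so : ∀ u v j, W u v → m.On j u v → m.Sol W j := fun u v j w o =>
      by_contra fun q => c ⟨u, v, w, u, v, j, .refl _ _ _, o, q⟩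
    obtain ⟨i, hi⟩ := fc x
    obtain ⟨y, w⟩ : ∃ y, W x y := by_contra fun q => n (s.mv0 h hx hi fun y w => q ⟨y, w⟩)
    obtain ⟨-, j, o⟩ := s.adj _ _ w
    refine h.conn_faces (F := {j | ¬ m.Sol W j}) (j := m.inf) (j' := j) ?_ ?_ (so x y j w o)
    · rintro u v ⟨d, i, i', o, o', c1, c2⟩
      exact c1 (so u v i (not_not.1 c2 u v d o') o)
    · exact fun q => s.bd _ (s.mem _ _ (q _ _ (h.neLR _) (fc_self _).on)) (.inl rfl)
  let P : ℕ → Prop := fun c => ∃ a b, ∃ Z : Set V, W a b ∧ m.Att W a b ∧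
    (∀ u v, W u v → (m.Run W a b u v ↔ ¬ (u ∈ Z ↔ v ∈ Z))) ∧ Z.ncard = c
  have exP : ∃ c, P c := by
    obtain ⟨a, b, w, att⟩ := ex
    obtain ⟨Z, hZ⟩ := s.st4 h n w att
    exact ⟨_, a, b, Z, w, att, hZ, rfl⟩
  classical
  obtain ⟨a, b, Z, w, att, hZ, cZ⟩ := Nat.find_spec exP
  clear hx
  obtain ⟨x, y, i, r0, o0, op0, xZ⟩ : ∃ x y i, m.Run W a b x y ∧ m.On i x y ∧ ¬ m.Sol W i ∧ x ∈ Z := by
    obtain ⟨u, v, i, r, o, op⟩ := att
    have := (hZ u v (s.run_w h r w).1).1 r
    by_cases c : u ∈ Z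
    exacts [⟨u, v, i, r, o, op, c⟩, ⟨v, u, i, r.swap, o.symm, op, by tauto⟩]
  obtain ⟨w0, l0⟩ := s.run_w h r0 w
  have hx := s.mem _ _ w0
  have bd : m.Bdy W x := ⟨i, o0.1, op0⟩
  -- no other attached run lies in `Z`
  have c1 : ∀ c d, W c d → m.Att W c d → c ∈ Z → m.Run W a b c d := by
    intro c d w' att' cZ'
    by_contra nr
    have dis : ∀ u v, m.Run W a b u v → ¬ m.Run W c d u v := fun u v r r' =>
      nr (r.trans (s.run_symm h r' w'))
    obtain ⟨Y, hY, xY⟩ : ∃ Y : Set V, (∀ u v, W u v → (m.Run W c d u v ↔ ¬ (u ∈ Y ↔ v ∈ Y))) ∧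
        x ∉ Y := by
      obtain ⟨Y, hY⟩ := s.st4 h n w' att'
      by_cases e : x ∈ Y
      · exact ⟨Yᶜ, fun u v q => by rw [hY u v q, Set.mem_compl_iff, Set.mem_compl_iff]; tauto,
          fun q => q e⟩
      · exact ⟨Y, hY, e⟩
    have i1 : ∀ u v, m.Run W c d u v → u ∈ Z ∧ v ∈ Z := fun u v r =>
      r.ind (P := fun u v => u ∈ Z ∧ v ∈ Z) ⟨cZ', by have := hZ c d w'; tauto⟩ (fun _ _ _ p => p.symm)
        fun x1 x2 y1 j r p e q l t => ⟨by
          have := hZ _ _ q
          have := dis x2 y1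
          have := r.step e q l t
          tauto, p.2⟩
    have i2 : ∀ u v, m.Run W a b u v → u ∉ Y ∧ v ∉ Y := fun u v r =>
      ((s.run_symm h r0 w).trans r).ind (P := fun u v => u ∉ Y ∧ v ∉ Y)
        ⟨xY, by have := hY x y w0; have := dis x y r0; tauto⟩ (fun _ _ _ p => p.symm)
        fun x1 x2 y1 j r p e q l t => ⟨by
          have := hY _ _ q
          have := dis _ _ (r0.trans (r.step e q l t))
          tauto, p.2⟩
    refine Nat.find_min exP (m := (Z ∩ Y).ncard) (cZ ▸ Set.ncard_lt_ncard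
      ⟨Set.inter_subset_left, fun q => xY (q xZ).2⟩ (Set.toFinite _)) ⟨c, d, Z ∩ Y, w', att', ?_, rfl⟩
    intro u v q
    have := hZ u v q; have := hY u v q; have := i1 u v; have := i2 u v; have := dis u v
    simp only [Set.mem_inter_iff]
    tauto
  -- all walls of `x` lie in the run
  have c2 : ∀ v, W x v → m.Run W a b x v := by
    have op : ∀ j, ¬ m.Sol W j → ∀ v, m.On j x v → W x v → m.Run W a b x v := fun j q v o t =>
      c1 x v t ⟨x, v, j, .refl _ _ _, o, q⟩ xZ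
    intro v t
    obtain ⟨-, j, o⟩ := s.adj _ _ t
    refine h.lk0 (F := {j | ∀ v, m.On j x v → W x v → m.Run W a b x v}) (v := x) ?_ o0.1 o.1
      (op i op0) v o t
    rintro u ⟨d, j1, j2, o1, o2, e1, e2⟩
    have so : m.Sol W j2 := by_contra fun q => e2 (op j2 q)
    have ru := e1 u o1 (so x u d o2)
    obtain ⟨z, zx, zu, t⟩ := h.third o2 d
    have nz : ¬ m.Run W a b x z := fun q => e2 fun v o' t' => by
      rcases (h.tri_has t d zx.symm zu.symm).1 o'.2 with rfl | rfl | rfl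
      exacts [absurd rfl (s.adj _ _ t').1, ru, q]
    rcases h.tri_cases t d zx.symm zu.symm with f | f | f
    · exact s.st3 h n w att f so ru
    · exact nz ((s.run_bar h f so).1 ru.swap).swap
    · have hz := s.mem2 (so x z zx.symm ⟨t.1, t.2.2⟩)
      obtain ⟨k', q, w1, w2, -⟩ := s.st1 h n f.symm hx hz bd
      have f' := (h.far_ge q f.symm.ge).fc
      have l1 := (h.lines f' q.2.2.1).2.1
      have na : ¬ m.Att W x (m.X k') := fun at' => h.far_bar q <|
        (h.lines f.symm q.2.1).2.1.symm.trans ((s.run_w h ru w).2.trans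
          ((s.run_w h (c1 _ _ w1 at' xZ) w).2.symm.trans l1))
      have od : ∀ g, ¬ m.Ev (m.Run W x (m.X k')) g →
          m.Run W x (m.X k') (m.L g) (m.R g) ∧ m.stem g = m.bar k' := by
        intro g ev
        have so : m.Sol W g := by_contra fun c => ev <| by
          have a1 : ¬ m.Run W x (m.X k') (m.L g) (m.R g) :=
            fun r => na ⟨_, _, g, r, (fc_self g).on, c⟩
          have a2 : ¬ m.Run W x (m.X k') (m.L g) (m.X g) :=
            fun r => na ⟨_, _, g, r, ⟨(fc_self g).has1, (fc_self g).has3⟩, c⟩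
          have a3 : ¬ m.Run W x (m.X k') (m.R g) (m.X g) :=
            fun r => na ⟨_, _, g, r, ⟨(fc_self g).has2, (fc_self g).has3⟩, c⟩
          unfold Ev
          tauto
        have r : m.Run W x (m.X k') (m.L g) (m.R g) := by
          have := s.run_bar h (a := x) (b := m.X k') (fc_self g) so
          unfold Ev at ev
          tauto
        obtain ⟨w3, l3⟩ := s.run_w h r w1
        exact ⟨r, (h.lnLR g ((s.bd _ (s.mem _ _ w3)).ne_inf (.inl rfl))).symm.trans (l3.trans l1)⟩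
      obtain ⟨g, ev, ng⟩ : ∃ g, ¬ m.Ev (m.Run W x (m.X k')) g ∧ ¬ m.cor g z := by
        obtain ⟨g, g', d, e1, e2⟩ := h.two_odd (ρ := m.Run W x (m.X k')) (fun _ _ => Run.swap)
          (fun u v r => ⟨s.adj _ _ (s.run_w h r w1).1, (s.run_w h r w1).2,
            s.bd _ (s.mem _ _ (s.run_w h r w1).1)⟩) (.refl _ _ _)
        by_contra c
        push Not at c
        rcases h.side2 (s.bd z hz) (c g e1) (c g' e2) f'.cor2 (.inl (od g e1).2) (.inl (od g' e2).2)
          (.inr rfl) d with rfl | rfl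
        exacts [h.stem_ne _ q.2.2.1 (od _ e1).2, h.stem_ne _ q.2.2.1 (od _ e2).2]
      obtain ⟨rg, sg⟩ := od g ev
      by_cases cg : m.cor g x
      · obtain ⟨p, fp⟩ := cg.ge
        have w3 := (s.run_w h rg w1).1
        have hp : p ∈ U := by
          rcases fp.fc.cor2 with rfl | rfl
          exacts [s.mem _ _ w3, s.mem2 w3]
        obtain ⟨g', q', -⟩ := s.st1 h n fp.fc hx hp bd
        exact h.far_not_bar q' q.2.2.1 sg
      · exact n (s.mvQ h f.symm q hz w1 (fc_self g) rg cg ng bd)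
  have lx : ∀ v, W x v → m.ln x v = m.ln x y := fun v t => (s.run_w h (c2 v t) w).2.trans l0.symm
  have att0 := s.att_of h w att r0
  by_cases lf : ∀ v, W x v → v = y
  · exact n (s.mvL h w0 lf)
  push Not at lf
  obtain ⟨y', w', ny⟩ := lf
  have key := ((s.run_symm h r0 w).trans (c2 y' w')).ind
    (P := fun u v => (u = x ∧ v = y) ∨ (u = y ∧ v = x)) (.inl ⟨rfl, rfl⟩) (fun _ _ _ p => by tauto) ?_
  · rcases key with ⟨-, e⟩ | ⟨e, -⟩
    exacts [ny e, (s.adj _ _ w0).1 e]
  intro u u' v j _ p d q l t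
  exfalso
  have uv : u ≠ v := by
    have := (s.adj _ _ w0).1
    rcases p with ⟨rfl, rfl⟩ | ⟨rfl, rfl⟩
    exacts [this, this.symm]
  have ji := (s.bd _ (s.mem _ _ q)).ne_inf t.2.1
  have f : m.Fc j u u' v := by
    rcases h.tri_cases t d.symm uv (s.adj _ _ q).1 with f | f | f
    · exact f
    · obtain ⟨l1, -, l2, l3⟩ := h.lines f ji
      exact absurd (l1.symm.trans (l.trans ((h.ln_symm _ _).trans l2))) l3
    · obtain ⟨l1, l2, -, l3⟩ := h.lines f ji
      exact absurd (l1.symm.trans ((h.ln_symm _ _).trans (l.symm.trans ((h.ln_symm _ _).trans l2)))) l3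
  obtain ⟨l1, l2, -, l3⟩ := h.lines f ji
  rcases p with ⟨rfl, rfl⟩ | ⟨rfl, rfl⟩
  · obtain ⟨-, -, -, -, w3⟩ := s.st1 h n f hx (s.mem _ _ q) bd
    exact l3 (l1.symm.trans ((lx _ w3).trans l2))
  · obtain ⟨k', r, w3, -⟩ := s.st2 h n f (s.mem2 w0) (s.mem _ _ q) w0 ⟨t.2.2, t.1⟩ att0
    exact n (s.mvR h f r hx (s.mem _ _ q) w3
      (fun v t => (lx v t).trans ((h.ln_symm _ _).trans l2)) bd)

end Stuck

end HSt

/-- walls with connected open faces are lit by half as many lights as there are cells -/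
theorem Ok.lh_state (h : m.Ok) [Finite V] [Finite J] (fc : ∀ v, ∃ j, m.has j v) (s : m.HSt U W) :
    ∃ M F sh, m.HGood U W M F sh ∧ 2 * (M.card + F.card) ≤ U.card := by
  classical
  induction hn : U.card using Nat.strong_induction_on generalizing U W with
  | _ c ih =>
    subst hn
    rcases U.eq_empty_or_nonempty with rfl | ⟨x, hx⟩
    · exact ⟨∅, ∅, m.L, ⟨by simp, by simp, by simp, by simp, fun u v w => by simpa using s.mem u v w⟩,
        by simp⟩
    obtain ⟨D, W', M, F, sh, sub, ne, s', g, cd⟩ : m.HRed U W :=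
      by_contra fun n => s.stuck h n fc hx
    have c1 := Finset.card_sdiff_add_card_eq_card sub
    have c2 := ne.card_pos
    obtain ⟨M', F', sh', g', cd'⟩ := ih _ (by omega) s' rfl
    refine ⟨M ∪ M', F ∪ F', _, (g.union g' fun v a b => (Finset.mem_sdiff.1 b).2 a).weak
      (Finset.union_subset sub Finset.sdiff_subset) fun u v w => by tauto, ?_⟩
    have := Finset.card_union_le M M'
    have := Finset.card_union_le F F'
    omega

/-- the pieces inside a set -/
def Ins (m : Map V J Sg) (K : Finset V) (u v : V) : Prop := m.Adj u v ∧ u ∈ K ∧ v ∈ K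

/-- the complement of `K` is connected -/
def CoCon (m : Map V J Sg) (K : Finset V) : Prop :=
  ∀ A : Set V, m.L m.inf ∈ A → (∀ u ∈ A, ∀ v, m.Adj u v → v ∉ K → v ∈ A) → ∀ v, v ∉ K → v ∈ A

theorem Ok.hst (h : m.Ok) {K : Finset V} (b : ∀ v ∈ K, m.Bd v) (c : m.CoCon K) :
    m.HSt K (m.Ins K) where
  bd := b
  sym _ _ w := ⟨w.1.symm, w.2.2, w.2.1⟩
  adj _ _ w := w.1
  mem _ _ w := w.2.1
  rg j _ _ a b := ⟨h.adj12 (fc_self j), a, b⟩
  con G iG sp j op := by
    have lk : ∀ v, v ∉ K → ∀ i i', m.has i v → m.has i' v → i ∈ G → i' ∈ G :=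
      fun v n i i' a a' e => h.lk0 (fun w q => n (sp v w q).2.1) a a' e
    have li : m.L m.inf ∉ K := fun q => b _ q (.inl rfl)
    have := c {v | v ∉ K ∧ ∀ i, m.has i v → i ∈ G} ⟨li, fun i a => lk _ li _ i (.inl rfl) a iG⟩
      fun u ⟨_, a⟩ v ⟨_, i, o1, o2⟩ n => ⟨n, fun i' q => lk v n i i' o2 q (a i o1)⟩
    by_contra n
    exact op fun u v d o => ⟨o.adj d, by_contra fun q => n ((this u q).2 j o.1),
      by_contra fun q => n ((this v q).2 j o.2)⟩

/-- LH: a set of bounded cells with connected complement costs at most one half -/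
theorem Ok.lh (h : m.Ok) [Finite V] [Finite J] (fc : ∀ v, ∃ j, m.has j v) {K : Finset V}
    (b : ∀ v ∈ K, m.Bd v) (c : m.CoCon K) :
    ∃ M F sh, m.HGood K (m.Ins K) M F sh ∧ 2 * (M.card + F.card) ≤ K.card :=
  h.lh_state fc (h.hst b c)

end Map

end Pool.Agent.P.MP_5f84aa_co.G
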