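import Pool.Agent.P.MP_5f84aa_co.G.HCov

/-! Lit rungs with unlit flats: the link between the two flats is a bridge of the unlit set. -/

namespace Pool.Agent.P.MP_5f84aa_co.G

namespace Map

variable {V J Sg : Type} {m : Map V J Sg}

/-- `u` and `v` are the two flats of a lit rung -/
def Lk (m : Map V J Sg) (M₀ : Finset J) (u v : V) : Prop :=
  ∃ j ∈ M₀, ∃ j', m.far j j' ∧ ((m.X j = u ∧ m.X j' = v) ∨ (m.X j = v ∧ m.X j' = u))

/-- `u` and `v` lie on a lit rung -/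
def Fp (m : Map V J Sg) (M₀ : Finset J) (u v : V) : Prop :=
  ∃ j ∈ M₀, ∃ j', m.far j j' ∧ m.cor j u ∧ m.cor j v

/-- adjacency after the flip of the lit rungs -/
def Adj' (m : Map V J Sg) (M₀ : Finset J) (u v : V) : Prop :=
  (m.Adj u v ∧ ¬ m.Fp M₀ u v) ∨ m.Lk M₀ u v

/-- the complement of `U` is connected after the flip -/
def CoCon' (m : Map V J Sg) (M₀ : Finset J) (U : Finset V) : Prop :=
  ∀ A : Set V, m.L m.inf ∈ A → (∀ u ∈ A, ∀ v, m.Adj' M₀ u v → v ∉ U → v ∈ A) → ∀ v, v ∉ U → v ∈ A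

/-- `K` is a union of components of `U` after the flip -/
def Cls' (m : Map V J Sg) (M₀ : Finset J) (U K : Finset V) : Prop :=
  K ⊆ U ∧ ∀ u ∈ K, ∀ v, m.Adj' M₀ u v → v ∈ U → v ∈ K

variable {M₀ : Finset J} {U : Finset V} {u v : V} {j j' : J}

theorem Adj'.symm (a : m.Adj' M₀ u v) : m.Adj' M₀ v u := by
  rcases a with ⟨a, n⟩ | ⟨j, a, j', f, e⟩
  · exact .inl ⟨a.symm, fun ⟨j, a, j', f, c, c'⟩ => n ⟨j, a, j', f, c', c⟩⟩
  · exact .inr ⟨j, a, j', f, e.symm⟩

theorem adj'_of (o : ∀ j ∈ M₀, ∀ v, m.cor j v → v ∉ U) (a : m.Adj u v) (hu : u ∈ U) :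
    m.Adj' M₀ u v := .inl ⟨a, fun ⟨j, a, _, _, c, _⟩ => o j a u c hu⟩

/-- a link inside `U` is a bridge -/
theorem Ok.link_cut (h : m.Ok) [Finite V] [Finite J] (b : ∀ v ∈ U, m.Bd v)
    (o : ∀ j ∈ M₀, ∀ v, m.cor j v → v ∉ U)
    (mt : ∀ j ∈ M₀, ∀ k ∈ M₀, ∀ v, m.cor j v → m.cor k v → j = k) (c : m.CoCon' M₀ U)
    (a : j ∈ M₀) (f : m.far j j') (x : m.X j ∈ U) (x' : m.X j' ∈ U) :
    ∃ Z : Set V, m.X j ∈ Z ∧ m.X j' ∉ Z ∧ ∀ u ∈ U, ∀ v ∈ U, m.Adj' M₀ u v →
      (u ∈ Z ↔ v ∈ Z) ∨ (u = m.X j ∧ v = m.X j') ∨ (u = m.X j' ∧ v = m.X j) := by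
  classical
  let lk : J → J → Prop := fun k k' => k ∈ M₀ ∧ m.far k k' ∧ m.X k ∈ U ∧ m.X k' ∈ U
  let P : V → V → Prop := fun u v => ∃ k k', lk k k' ∧ u = m.L k ∧ (v = m.X k ∨ v = m.X k')
  let W : V → V → Prop := fun u v => (m.Adj u v ∧ u ∈ U ∧ v ∈ U) ∨ P u v ∨ P v u
  let ρ : V → V → Prop := fun u v => (u = m.L j ∧ v = m.X j) ∨ (v = m.L j ∧ u = m.X j)
  have fc' : ∀ {k k'}, m.far k k' → m.Fc k' (m.L k) (m.R k) (m.X k') :=
    fun r => (h.far_ge r (fc_self _)).fc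
  have aP : ∀ u v, P u v → m.Adj u v ∧ u ∉ U ∧ v ∈ U := by
    rintro u v ⟨k, k', ⟨a, r, y, y'⟩, rfl, rfl | rfl⟩
    exacts [⟨h.adj13 (fc_self k), o k a _ (.inl rfl), y⟩, ⟨h.adj13 (fc' r), o k a _ (.inl rfl), y'⟩]
  have lj : lk j j' := ⟨a, f, x, x'⟩
  have nL : m.L j ∉ U := o j a _ (.inl rfl)
  obtain ⟨Z, hZ⟩ := h.cut (W := W) (ρ := ρ) (o := m.inf)
    (fun u v w => by
      rcases w with ⟨a, b, c⟩ | w | w
      exacts [.inl ⟨a.symm, c, b⟩, .inr (.inr w), .inr (.inl w)])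
    (fun u v w => by
      rcases w with w | w | w
      exacts [w.1, (aP _ _ w).1, (aP _ _ w).1.symm])
    (fun u v r => r.symm) fun F iF sp i hi => by
      let mn : V → J → Prop := fun v i =>
        m.has i v ∧ ¬ ∃ k k', lk k k' ∧ v = m.L k ∧ (i = k ∨ i = k')
      have wP : ∀ v w, v ∉ U → m.Spl F v w → P v w := fun v w n s => by
        rcases sp v w s with q | q | q
        exacts [absurd q.2.1 n, q, absurd (aP _ _ q).2.2 n]
      have loc : ∀ v, v ∉ U → ∀ i i', mn v i → mn v i' → i ∈ F → i' ∈ F := by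
        intro v n i i' q q' e
        by_cases t : ∃ k k', lk k k' ∧ v = m.L k
        swap
        · exact h.lk0 (fun w s => by
            obtain ⟨k, k', l, e, -⟩ := wP v w n s
            exact t ⟨k, k', l, e⟩) q.1 q'.1 e
        obtain ⟨k, k', l, rfl⟩ := t
        have f1 := fc_self (m := m) k
        have f2 := fc' l.2.1
        obtain ⟨n1, n2, n3⟩ := h.fc_ne f1
        have n4 := h.far_X l.2.1
        obtain ⟨g, gk, og, -⟩ := h.other (j := k) ⟨f1.has1, f1.has3⟩ n2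
        have gk' : g ≠ k' := by
          rintro rfl
          rcases f2.has_iff.1 og.2 with e | e | e
          exacts [n2 e.symm, n3 e.symm, n4 e]
        let G : Set J := {i | if i = k ∨ i = k' then g ∈ F else i ∈ F}
        have gG : ∀ i, ¬ (i = k ∨ i = k') → (i ∈ G ↔ i ∈ F) := fun i e => by simp only [G, Set.mem_ofPred_eq, if_neg e]
        have gG' : ∀ i, i = k ∨ i = k' → (i ∈ G ↔ g ∈ F) := fun i e => by simp only [G, Set.mem_ofPred_eq, if_pos e]
        have := h.lk1 (F := G) (m.X k') (fun w e s => ?_) q.1 q'.1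
          ((gG i fun t => q.2 ⟨k, k', l, rfl, t⟩).2 e)
        · exact (gG i' fun t => q'.2 ⟨k, k', l, rfl, t⟩).1 this
        by_cases e1 : w = m.R k
        · subst e1
          exact (h.spl_iff n1 f1.on f2.on l.2.1.1).1 s ((gG' k (.inl rfl)).trans (gG' k' (.inr rfl)).symm)
        by_cases e2 : w = m.X k
        · subst e2
          exact (h.spl_iff n2 ⟨f1.has1, f1.has3⟩ og gk.symm).1 s
            ((gG' k (.inl rfl)).trans (gG g (by tauto)).symm)
        obtain ⟨d, i1, i2, o1, o2, c1, c2⟩ := s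
        have nn : ∀ i, m.On i (m.L k) w → ¬ (i = k ∨ i = k') := by
          rintro i oi (rfl | rfl)
          · rcases f1.has_iff.1 oi.2 with t | t | t
            exacts [d t.symm, e1 t, e2 t]
          · rcases f2.has_iff.1 oi.2 with t | t | t
            exacts [d t.symm, e1 t, e t]
        obtain ⟨k2, k2', l2, e3, e4⟩ := wP _ w n
          ⟨d, i1, i2, o1, o2, (gG i1 (nn i1 o1)).1 c1, fun t => c2 ((gG i2 (nn i2 o2)).2 t)⟩
        obtain rfl := mt k l.1 k2 l2.1 _ (.inl rfl) (.inl e3)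
        obtain rfl := h.far_unique l.2.1 l2.2.1
        exact e4.elim e2 e
      have m1 : ∀ u v i, u ≠ v → v ∉ U → ¬ m.Fp M₀ u v → m.On i u v → mn u i := by
        rintro u v i d n nf oi
        refine ⟨oi.1, ?_⟩
        rintro ⟨k, k', l, rfl, rfl | rfl⟩
        · rcases oi.2 with t | t | t
          exacts [d t.symm, nf ⟨_, l.1, k', l.2.1, .inl rfl, .inr t⟩, n (t ▸ l.2.2.1)]
        · rcases (fc' l.2.1).has_iff.1 oi.2 with t | t | t
          exacts [d t.symm, nf ⟨k, l.1, _, l.2.1, .inl rfl, .inr t⟩, n (t ▸ l.2.2.2)]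
      have m2 : ∀ i, mn (m.X i) i := fun i => ⟨.inr (.inr rfl), by
        rintro ⟨k, k', l, e, rfl | rfl⟩
        exacts [h.neLX _ e.symm, (h.fc_ne (fc' l.2.1)).2.1 e.symm]⟩
      have li : m.L m.inf ∉ U := fun q => b _ q (.inl rfl)
      have all := c {v | v ∉ U ∧ ∀ i, mn v i → i ∈ F}
        ⟨li, fun i q => loc _ li m.inf i ⟨.inl rfl, by
          rintro ⟨k, k', l, -, e | e⟩
          exacts [l.2.1.2.1 e.symm, l.2.1.2.2.1 e.symm]⟩ q iF⟩ (by
        rintro u ⟨nu, hu⟩ v (⟨⟨d, i, oi⟩, nf⟩ | ⟨k, a, k', r, e⟩) nv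
        · refine ⟨nv, fun i' q => loc v nv i i' (m1 v u i d.symm nu ?_ (On.symm oi)) q
            (hu i (m1 u v i d nv nf oi))⟩
          exact fun ⟨j, a, j', f, c, c'⟩ => nf ⟨j, a, j', f, c', c⟩
        · have ns : ¬ m.Spl F (m.L k) (m.R k) := fun s =>
            o k a _ (.inr rfl) (aP _ _ (wP _ _ (o k a _ (.inl rfl)) s)).2.2
          have := (h.spl_iff (h.neLR k) (fc_self k).on (fc' r).on r.1).not.1 ns
          rcases e with ⟨rfl, rfl⟩ | ⟨rfl, rfl⟩
          · exact ⟨nv, fun i' q => loc _ nv k' i' (m2 _) q (by have := hu k (m2 _); tauto)⟩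
          · exact ⟨nv, fun i' q => loc _ nv k i' (m2 _) q (by have := hu k' (m2 _); tauto)⟩)
      have no : ¬ m.On i (m.L j) (m.X j) := fun oi => hi <| by
        by_cases e : i = j
        · refine (all (m.R j) (o j a _ (.inr rfl))).2 i ⟨e ▸ .inr (.inl rfl), ?_⟩
          rintro ⟨k, k', l, e', -⟩
          obtain rfl := mt j a k l.1 _ (.inr rfl) (.inl e')
          exact h.neLR _ e'.symm
        refine (all (m.L j) nL).2 i ⟨oi.1, ?_⟩
        rintro ⟨k, k', l, e', t⟩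
        obtain rfl := mt j a k l.1 _ (.inl rfl) (.inl e')
        rcases t with t | rfl
        · exact e t
        rcases (fc' l.2.1).has_iff.1 oi.2 with t | t | t
        exacts [h.neLX _ t.symm, h.neRX _ t.symm, h.far_X l.2.1 t]
      have nr : ∀ u v, m.On i u v → ¬ ρ u v := by
        rintro u v oi (⟨rfl, rfl⟩ | ⟨rfl, rfl⟩)
        exacts [no oi, no oi.symm]
      have f1 := fc_self (m := m) i
      have := nr _ _ f1.on
      have := nr _ _ ⟨f1.has1, f1.has3⟩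
      have := nr _ _ ⟨f1.has2, f1.has3⟩
      unfold Ev
      tauto
  have n4 := h.far_X f
  have z1 := (hZ (m.L j) (m.X j) (.inr (.inl ⟨j, j', lj, rfl, .inl rfl⟩))).1 (.inl ⟨rfl, rfl⟩)
  have nρ : ∀ k v, k ∈ M₀ → ρ (m.L k) v → k = j ∧ v = m.X j := by
    rintro k v ak (⟨e, e'⟩ | ⟨-, e⟩)
    · exact ⟨mt k ak j a _ (.inl rfl) (.inl e), e'⟩
    · exact absurd (e ▸ x) (o k ak _ (.inl rfl))
  have z2 := (hZ (m.L j) (m.X j') (.inr (.inl ⟨j, j', lj, rfl, .inr rfl⟩))).not.1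
    fun r => n4 (nρ j _ a r).2.symm
  have key : ∀ u ∈ U, ∀ v ∈ U, m.Adj' M₀ u v →
      (u ∈ Z ↔ v ∈ Z) ∨ (u = m.X j ∧ v = m.X j') ∨ (u = m.X j' ∧ v = m.X j) := by
    rintro u hu v hv (⟨q, -⟩ | ⟨k, ak, k', r, e⟩)
    · refine .inl (not_not.1 ((hZ u v (.inl ⟨q, hu, hv⟩)).not.1 ?_))
      rintro (⟨rfl, -⟩ | ⟨rfl, -⟩)
      exacts [nL hu, nL hv]
    by_cases t : k = j
    · subst t
      obtain rfl := h.far_unique f r
      tauto
    have l : lk k k' := ⟨ak, r, by rcases e with ⟨rfl, -⟩ | ⟨rfl, -⟩ <;> assumption,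
      by rcases e with ⟨-, rfl⟩ | ⟨-, rfl⟩ <;> assumption⟩
    have y1 := (hZ (m.L k) (m.X k) (.inr (.inl ⟨k, k', l, rfl, .inl rfl⟩))).not.1
      fun r => t (nρ k _ ak r).1
    have y2 := (hZ (m.L k) (m.X k') (.inr (.inl ⟨k, k', l, rfl, .inr rfl⟩))).not.1
      fun r => t (nρ k _ ak r).1
    rcases e with ⟨rfl, rfl⟩ | ⟨rfl, rfl⟩ <;> tauto
  by_cases e : m.X j ∈ Z
  · exact ⟨Z, e, by tauto, key⟩
  · exact ⟨Zᶜ, e, by simp only [Set.mem_compl_iff]; tauto, fun u hu v hv q => by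
      simp only [Set.mem_compl_iff]
      have := key u hu v hv q
      tauto⟩

/-- the case without links -/
theorem Ok.lh_link0 (h : m.Ok) [Finite V] [Finite J] (fc : ∀ v, ∃ j, m.has j v)
    (b : ∀ v ∈ U, m.Bd v) (c : m.CoCon' M₀ U) (F₀ : Finset V) (i : m.inf ∉ M₀)
    (o : ∀ j ∈ M₀, ∀ v, m.cor j v → v ∉ U) (l : ∀ v, v ∉ U → v ∈ F₀ ∨ ∃ j ∈ M₀, m.cor j v)
    (r : ∀ j ∈ M₀, ∀ j', m.far j j' → m.X j ∈ U → m.X j' ∉ U) (𝒦 : Finset (Finset V))
    (k : ∀ K ∈ 𝒦, m.Cls' M₀ U K ∧ Odd K.card) (d : ∀ K ∈ 𝒦, ∀ K' ∈ 𝒦, K ≠ K' → Disjoint K K') :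
    ∃ M F sh, m.Cover M F sh ∧
      2 * (M.card + F.card) + 𝒦.card ≤ 2 * (M₀.card + F₀.card) + U.card := by
  classical
  have : ∀ j, ∃ j₁, (∀ v, m.cor j₁ v ↔ m.cor j v) ∧ (j ≠ m.inf → j₁ ≠ m.inf) ∧
      (j ∈ M₀ → ∀ j', m.far j₁ j' → m.X j' ∉ U) := fun j => by
    by_cases e : ∃ j', m.far j j' ∧ m.X j' ∈ U
    · obtain ⟨j', f, e⟩ := e
      exact ⟨j', fun v => (f.2.2.2 v).symm, fun _ => f.2.2.1,
        fun a j'' f' q => r j a j' f (h.far_unique f.symm f' ▸ q) e⟩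
    · exact ⟨j, fun _ => Iff.rfl, id, fun _ j' f q => e ⟨j', f, q⟩⟩
  choose φ p1 p2 p3 using this
  have cc : m.CoCon U := fun A iA cl => c A iA <| by
    rintro u hu v (q | ⟨j, a, j', f, e⟩) n
    · exact cl u hu v q.1 n
    have a1 := h.adj13 (fc_self j)
    have a2 := h.adj13 (h.far_ge f (fc_self j)).fc
    have nL := o j a _ (.inl rfl)
    rcases e with ⟨rfl, rfl⟩ | ⟨rfl, rfl⟩
    exacts [cl _ (cl _ hu _ a1.symm nL) _ a2 n, cl _ (cl _ hu _ a2.symm nL) _ a1 n]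
  obtain ⟨M, F, sh, g, cd⟩ := h.lh_cover fc b cc (M₀.image φ) F₀
    (by
      simp only [Finset.mem_image, not_exists, not_and]
      exact fun j a => p2 j fun e => i (e ▸ a))
    (by
      simp only [Finset.mem_image]
      rintro _ ⟨j, a, rfl⟩ v q
      exact o j a v ((p1 j v).1 q))
    (fun v n => (l v n).imp id fun ⟨j, a, q⟩ => ⟨φ j, Finset.mem_image_of_mem _ a, (p1 j v).2 q⟩)
    (by
      simp only [Finset.mem_image]
      rintro _ ⟨j, a, rfl⟩
      exact p3 j a) 𝒦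
    (fun K a => ⟨⟨(k K a).1.1, fun u hu v q => (k K a).1.2 u hu v (adj'_of o q ((k K a).1.1 hu))⟩,
      (k K a).2⟩) d
  refine ⟨M, F, sh, g, ?_⟩
  have := Finset.card_image_le (s := M₀) (f := φ)
  omega

/-- LH with links.  The cells outside `U` are lit by singles `F₀` and by a matching `M₀` of junctions;
after the flip of the lit rungs the complement of `U` is connected.  Then every odd union of
components of `U` (after the flip) saves one half. -/
theorem Ok.lh_link (h : m.Ok) [Finite V] [Finite J] (fc : ∀ v, ∃ j, m.has j v)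
    (i : m.inf ∉ M₀) (mt : ∀ j ∈ M₀, ∀ k ∈ M₀, ∀ v, m.cor j v → m.cor k v → j = k)
    (b : ∀ v ∈ U, m.Bd v) (c : m.CoCon' M₀ U) (F₀ : Finset V)
    (o : ∀ j ∈ M₀, ∀ v, m.cor j v → v ∉ U) (l : ∀ v, v ∉ U → v ∈ F₀ ∨ ∃ j ∈ M₀, m.cor j v)
    (𝒦 : Finset (Finset V))
    (k : ∀ K ∈ 𝒦, m.Cls' M₀ U K ∧ Odd K.card) (d : ∀ K ∈ 𝒦, ∀ K' ∈ 𝒦, K ≠ K' → Disjoint K K') :
    ∃ M F sh, m.Cover M F sh ∧
      2 * (M.card + F.card) + 𝒦.card ≤ 2 * (M₀.card + F₀.card) + U.card := by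
  classical
  induction hn : U.card using Nat.strong_induction_on generalizing U F₀ 𝒦 with
  | _ n ih =>
  subst hn
  by_cases e : ∀ j ∈ M₀, ∀ j', m.far j j' → m.X j ∈ U → m.X j' ∉ U
  · exact h.lh_link0 fc b c F₀ i o l e 𝒦 k d
  push Not at e
  obtain ⟨j, a, j', f, x, x'⟩ := e
  obtain ⟨Z, z, z', hZ⟩ := h.link_cut b o mt c a f x x'
  have n4 := h.far_X f
  have lk : m.Adj' M₀ (m.X j) (m.X j') := .inr ⟨j, a, j', f, .inl ⟨rfl, rfl⟩⟩
  -- the closed set that contains the link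
  obtain ⟨K, kc, xK, dK, cK⟩ : ∃ K, m.Cls' M₀ U K ∧ m.X j ∈ K ∧
      (∀ K' ∈ 𝒦.erase K, Disjoint K K') ∧
      (𝒦.card ≤ (𝒦.erase K).card ∨ (Odd K.card ∧ 𝒦.card ≤ (𝒦.erase K).card + 1)) := by
    by_cases e : ∃ K ∈ 𝒦, m.X j ∈ K
    · obtain ⟨K, q, e⟩ := e
      exact ⟨K, (k K q).1, e, fun K' t => d K q K' (Finset.mem_of_mem_erase t)
        (Finset.ne_of_mem_erase t).symm, .inr ⟨(k K q).2, (Finset.card_erase_add_one q).ge⟩⟩
    · push Not at e
      obtain ⟨K, hK⟩ : ∃ K : Finset V, ∀ v, v ∈ K ↔ v ∈ U ∧ ∀ K ∈ 𝒦, v ∉ K :=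
        ⟨U.filter _, fun v => Finset.mem_filter⟩
      have xK := (hK _).2 ⟨x, e⟩
      refine ⟨K, ⟨fun v q => ((hK v).1 q).1, fun u hu v q hv => (hK v).2 ⟨hv, fun K t s => ?_⟩⟩,
        xK, fun K' t => Finset.disjoint_left.2 fun v hv =>
          ((hK v).1 hv).2 K' (Finset.mem_of_mem_erase t), .inl ?_⟩
      · obtain ⟨h1, h2⟩ := (hK u).1 hu
        exact h2 K t ((k K t).1.2 v s u q.symm h1)
      · rw [Finset.erase_eq_of_notMem fun t => e _ t xK]
  have xK' := kc.2 _ xK _ lk x'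
  set A := K.filter (· ∈ Z) with hA
  set B := K.filter (· ∉ Z) with hB
  have cAB : A.card + B.card = K.card := Finset.card_filter_add_card_filter_not _
  have step : ∀ y, (y = m.X j ∨ y = m.X j') → ∀ 𝒩 : Finset (Finset V),
      (∀ N ∈ 𝒩, (N = A.erase y ∨ N = B.erase y) ∧ Odd N.card) →
      𝒦.card + 1 ≤ (𝒦.erase K).card + 𝒩.card → ∃ M F sh, m.Cover M F sh ∧
      2 * (M.card + F.card) + 𝒦.card ≤ 2 * (M₀.card + F₀.card) + U.card := by
    intro y hy 𝒩 hN cN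
    have yU : y ∈ U := by rcases hy with rfl | rfl <;> assumption
    have yK : y ∈ K := by rcases hy with rfl | rfl <;> assumption
    have sN : ∀ N ∈ 𝒩, N ⊆ K := fun N t => by
      rcases (hN N t).1 with rfl | rfl <;>
        exact (Finset.erase_subset _ _).trans (Finset.filter_subset _ _)
    have dj : Disjoint (𝒦.erase K) 𝒩 := Finset.disjoint_left.2 fun N t t' => by
      obtain ⟨v, hv⟩ := Finset.card_pos.1 (hN N t').2.pos
      exact Finset.disjoint_left.1 (dK N t) (sN N t' hv) hv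
    have c1 := Finset.card_erase_add_one yU
    refine (ih _ (by omega) (U := U.erase y)
      (fun v q => b v (Finset.mem_of_mem_erase q)) (fun S iS cl v hv => ?_) (insert y F₀)
      (fun j a v q t => o j a v q (Finset.mem_of_mem_erase t))
      (fun v hv => by
        by_cases t : v = y
        · exact .inl (t ▸ Finset.mem_insert_self _ _)
        · exact (l v fun q => hv (Finset.mem_erase.2 ⟨t, q⟩)).imp Finset.mem_insert_of_mem id)
      (𝒦.erase K ∪ 𝒩) (fun N t => ?_) (fun N t N' t' ne => ?_) rfl).elim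
      fun M ⟨F, sh, g, cd⟩ => ⟨M, F, sh, g, by
        have := Finset.card_insert_le y F₀
        rw [Finset.card_union_of_disjoint dj] at cd
        omega⟩
    · have c0 := c S iS fun u hu w q n => cl u hu w q fun t => n (Finset.mem_of_mem_erase t)
      by_cases t : v = y
      · have nL := o j a _ (.inl rfl)
        refine cl _ (c0 _ nL) v (adj'_of o ?_ (t ▸ yU)).symm hv
        rcases hy with rfl | rfl <;> subst t
        exacts [(h.adj13 (fc_self j)).symm, (h.adj13 (h.far_ge f (fc_self j)).fc).symm]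
      · exact c0 v fun q => hv (Finset.mem_erase.2 ⟨t, q⟩)
    · rcases Finset.mem_union.1 t with t | t
      · obtain ⟨⟨k1, k2⟩, k3⟩ := k N (Finset.mem_of_mem_erase t)
        exact ⟨⟨fun v hv => Finset.mem_erase.2 ⟨fun e => Finset.disjoint_left.1 (dK N t) yK (e ▸ hv),
          k1 hv⟩, fun u hu v q hv => k2 u hu v q (Finset.mem_of_mem_erase hv)⟩, k3⟩
      obtain ⟨e, od⟩ := hN N t
      refine ⟨⟨fun v hv => Finset.mem_erase.2 ⟨?_, kc.1 (sN N t hv)⟩, fun u hu v q hv => ?_⟩, od⟩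
      · rcases e with rfl | rfl <;> exact Finset.ne_of_mem_erase hv
      obtain ⟨vy, vU⟩ := Finset.mem_erase.1 hv
      have uK := sN N t hu
      have vK := kc.2 u uK v q vU
      have uy : u ≠ y := by rcases e with rfl | rfl <;> exact Finset.ne_of_mem_erase hu
      have zz : u ∈ Z ↔ v ∈ Z := by
        rcases hZ u (kc.1 uK) v vU q with t | ⟨rfl, rfl⟩ | ⟨rfl, rfl⟩
        exacts [t, hy.elim (absurd ·.symm uy) (absurd ·.symm vy), hy.elim (absurd ·.symm vy) (absurd ·.symm uy)]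
      rcases e with rfl | rfl
      · exact Finset.mem_erase.2 ⟨vy, Finset.mem_filter.2
          ⟨vK, zz.1 (Finset.mem_filter.1 (Finset.mem_of_mem_erase hu)).2⟩⟩
      · exact Finset.mem_erase.2 ⟨vy, Finset.mem_filter.2
          ⟨vK, fun t => (Finset.mem_filter.1 (Finset.mem_of_mem_erase hu)).2 (zz.2 t)⟩⟩
    · have dAB : Disjoint (A.erase y) (B.erase y) := Finset.disjoint_left.2 fun v q q' =>
        (Finset.mem_filter.1 (Finset.mem_of_mem_erase q')).2
          (Finset.mem_filter.1 (Finset.mem_of_mem_erase q)).2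
      rcases Finset.mem_union.1 t with t | t <;> rcases Finset.mem_union.1 t' with t' | t'
      · exact d N (Finset.mem_of_mem_erase t) N' (Finset.mem_of_mem_erase t') ne
      · exact ((dK N t).mono_left (sN N' t')).symm
      · exact (dK N' t').mono_left (sN N t)
      · rcases (hN N t).1 with rfl | rfl <;> rcases (hN N' t').1 with rfl | rfl
        exacts [absurd rfl ne, dAB, dAB.symm, absurd rfl ne]
  have xA : m.X j ∈ A := Finset.mem_filter.2 ⟨xK, z⟩
  have xB : m.X j' ∈ B := Finset.mem_filter.2 ⟨xK', z'⟩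
  have nA : m.X j' ∉ A := fun q => z' (Finset.mem_filter.1 q).2
  have nB : m.X j ∉ B := fun q => (Finset.mem_filter.1 q).2 z
  have eA := Finset.card_erase_add_one xA
  have eB := Finset.card_erase_add_one xB
  have eA' := congrArg Finset.card (Finset.erase_eq_of_notMem nA)
  have eB' := congrArg Finset.card (Finset.erase_eq_of_notMem nB)
  have two : ∀ y, Odd (A.erase y).card → (A.erase y) ≠ (B.erase y) := fun y od e => by
    obtain ⟨v, hv⟩ := Finset.card_pos.1 od.pos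
    have hv' : v ∈ B.erase y := e ▸ hv
    exact (Finset.mem_filter.1 (Finset.mem_of_mem_erase hv')).2
      (Finset.mem_filter.1 (Finset.mem_of_mem_erase hv)).2
  rcases Nat.even_or_odd A.card with ⟨p, hp⟩ | ⟨p, hp⟩ <;>
    rcases Nat.even_or_odd B.card with ⟨q, hq⟩ | ⟨q, hq⟩
  · refine step _ (.inl rfl) {A.erase (m.X j)} (by simpa using ⟨p - 1, by omega⟩) ?_
    rcases cK with t | ⟨⟨r, _⟩, _⟩ <;> simp only [Finset.card_singleton] <;> omega
  · have o1 : Odd (A.erase (m.X j)).card := ⟨p - 1, by omega⟩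
    have o2 : Odd (B.erase (m.X j)).card := ⟨q, by omega⟩
    refine step _ (.inl rfl) {A.erase (m.X j), B.erase (m.X j)} (by simp [o1, o2]) ?_
    rw [Finset.card_pair (two _ o1)]
    omega
  · have o1 : Odd (A.erase (m.X j')).card := ⟨p, by omega⟩
    have o2 : Odd (B.erase (m.X j')).card := ⟨q - 1, by omega⟩
    refine step _ (.inr rfl) {A.erase (m.X j'), B.erase (m.X j')} (by simp [o1, o2]) ?_
    rw [Finset.card_pair (two _ o1)]
    omega
  · refine step _ (.inr rfl) {A.erase (m.X j')} (by simpa using ⟨p, by omega⟩) ?_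
    rcases cK with t | ⟨⟨r, _⟩, _⟩ <;> simp only [Finset.card_singleton] <;> omega

end Map

end Pool.Agent.P.MP_5f84aa_co.G
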