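import Mathlib

/-! Independent sets in 3-degenerate graphs:
`14 |s| ≤ 38 |I| + (degree sum) + 6 (number of 4-cliques)`. -/

namespace Pool.Agent.P.MP_5f84aa_co.G
open Finset

section
variable {V : Type*} [DecidableEq V] (G : SimpleGraph V) [DecidableRel G.Adj]

/-- number of neighbours of `v` inside `s` -/
def ilDeg (s : Finset V) (v : V) : ℕ := (s.filter (G.Adj v)).card

/-- number of ordered adjacent pairs in `A × B` -/
def ilE (A B : Finset V) : ℕ := ∑ v ∈ A, ilDeg G B v

/-- number of 4-cliques inside `s` -/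
def ilK (s : Finset V) : ℕ :=
  ((s.powersetCard 4).filter (fun t => ∀ x ∈ t, ∀ y ∈ t, x ≠ y → G.Adj x y)).card

omit [DecidableEq V] in
lemma ilE_symm (A B : Finset V) : ilE G A B = ilE G B A := by
  unfold ilE ilDeg
  simp only [Finset.card_filter]
  rw [Finset.sum_comm]
  refine sum_congr rfl fun x _ => sum_congr rfl fun y _ => ?_
  simp [G.adj_comm]

lemma ilDeg_split {R s : Finset V} (h : R ⊆ s) (v : V) :
    ilDeg G s v = ilDeg G R v + ilDeg G (s \ R) v := by
  unfold ilDeg
  simp only [Finset.card_filter]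
  rw [← Finset.sum_sdiff h, add_comm]

lemma ilE_split_left {R s : Finset V} (h : R ⊆ s) (B : Finset V) :
    ilE G s B = ilE G R B + ilE G (s \ R) B := by
  unfold ilE
  rw [← Finset.sum_sdiff h, add_comm]

lemma ilE_split_right {R s : Finset V} (h : R ⊆ s) (A : Finset V) :
    ilE G A s = ilE G A R + ilE G A (s \ R) := by
  rw [ilE_symm G A s, ilE_split_left G h, ilE_symm G R A, ilE_symm G (s \ R) A]

lemma ilE_key {R s : Finset V} (h : R ⊆ s) :
    ilE G s s + ilE G R R = ilE G (s \ R) (s \ R) + 2 * ilE G R s := by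
  have h1 := ilE_split_left G h s
  have h2 := ilE_split_right G h R
  have h3 := ilE_split_right G h (s \ R)
  have h4 := ilE_symm G R (s \ R)
  omega

lemma ilE_even (R : Finset V) : ∃ k, ilE G R R = 2 * k := by
  induction R using Finset.induction_on with
  | empty => exact ⟨0, by simp [ilE]⟩
  | insert a R ha ih =>
    obtain ⟨k, hk⟩ := ih
    have h := ilE_key G (R := {a}) (s := insert a R) (by simp)
    have h0 : ilE G {a} {a} = 0 := by simp [ilE, ilDeg]
    have h1 : insert a R \ {a} = R := by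
      ext x
      simp only [mem_sdiff, mem_insert, mem_singleton]
      constructor
      · rintro ⟨h | h, h'⟩
        · exact absurd h h'
        · exact h
      · intro hx
        exact ⟨Or.inr hx, fun e => ha (e ▸ hx)⟩
    rw [h1] at h
    exact ⟨k + ilE G {a} (insert a R), by omega⟩

lemma ilK_mono {R s : Finset V} (h : R ⊆ s) : ilK G R ≤ ilK G s := by
  unfold ilK
  exact card_le_card (filter_subset_filter _ (powersetCard_mono h))

lemma ilK_drop {R s : Finset V} (h : R ⊆ s) (hc : R.card = 4)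
    (hk : ∀ x ∈ R, ∀ y ∈ R, x ≠ y → G.Adj x y) : ilK G (s \ R) + 1 ≤ ilK G s := by
  unfold ilK
  apply Nat.succ_le_of_lt
  apply card_lt_card
  refine ⟨filter_subset_filter _ (powersetCard_mono sdiff_subset), fun hsub => ?_⟩
  have hR : R ∈ (s.powersetCard 4).filter (fun t => ∀ x ∈ t, ∀ y ∈ t, x ≠ y → G.Adj x y) := by
    simp only [mem_filter, mem_powersetCard]
    exact ⟨⟨h, hc⟩, hk⟩
  have h2 := hsub hR
  simp only [mem_filter, mem_powersetCard] at h2
  obtain ⟨x, hx⟩ : R.Nonempty := by rw [← card_pos]; omega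
  have := h2.1.1 hx
  simp only [mem_sdiff] at this
  exact this.2 hx

/-- the conclusion of the lemma for the set `s` -/
def ilGood (s : Finset V) : Prop :=
  ∃ I ⊆ s, (∀ x ∈ I, ∀ y ∈ I, ¬ G.Adj x y) ∧
    14 * s.card ≤ 38 * I.card + ilE G s s + 6 * ilK G s

lemma il_step {R s J : Finset V} (h : R ⊆ s) (hJ : J ⊆ R)
    (hi : ∀ x ∈ J, ∀ y ∈ J, ¬ G.Adj x y) (hn : ∀ x ∈ J, ∀ y ∈ s, G.Adj x y → y ∈ R)
    (hc : 14 * R.card + ilE G R R + 6 * ilK G (s \ R) ≤
      38 * J.card + 2 * ilE G R s + 6 * ilK G s)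
    (ih : ilGood G (s \ R)) : ilGood G s := by
  obtain ⟨I, hI, hind, hle⟩ := ih
  have hd : Disjoint J I := by
    rw [disjoint_left]
    intro x hx hx'
    exact (mem_sdiff.mp (hI hx')).2 (hJ hx)
  refine ⟨J ∪ I, union_subset (hJ.trans h) (hI.trans sdiff_subset), ?_, ?_⟩
  · intro x hx y hy hxy
    rcases mem_union.mp hx with hx | hx <;> rcases mem_union.mp hy with hy | hy
    · exact hi x hx y hy hxy
    · exact (mem_sdiff.mp (hI hy)).2 (hn x hx y (mem_sdiff.mp (hI hy)).1 hxy)
    · exact (mem_sdiff.mp (hI hx)).2 (hn y hy x (mem_sdiff.mp (hI hx)).1 hxy.symm)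
    · exact hind x hx y hy hxy
  · rw [card_union_of_disjoint hd]
    have h1 := card_sdiff_add_card_eq_card h
    have h2 := ilE_key G h
    omega

lemma il_low {R s : Finset V} (h : R ⊆ s) {d : ℕ} (hd : ∀ v ∈ s, d ≤ ilDeg G s v) :
    d * R.card ≤ ilE G R s ∧ ilE G R R ≤ ilE G R s := by
  refine ⟨?_, by have := ilE_split_right G h R; omega⟩
  unfold ilE
  rw [mul_comm, ← smul_eq_mul, ← sum_const]
  exact sum_le_sum fun v hv => hd v (h hv)

/-- closed neighbourhood inside `s` -/
def ilN (s : Finset V) (p : V) : Finset V := insert p (s.filter (G.Adj p))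

lemma ilN_card (s : Finset V) (p : V) : (ilN G s p).card = ilDeg G s p + 1 := by
  unfold ilN ilDeg
  rw [card_insert_of_notMem (by simp)]

lemma ilN_sub {s : Finset V} {p : V} (hp : p ∈ s) : ilN G s p ⊆ s := by
  unfold ilN
  exact insert_subset hp (filter_subset _ _)

lemma ilN_mem {s : Finset V} {p y : V} (hy : y ∈ s) (h : G.Adj p y) : y ∈ ilN G s p := by
  unfold ilN
  simp [hy, h]

lemma il_one {s : Finset V} {p : V} (hp : p ∈ s)
    (hc : 14 * (ilN G s p).card + ilE G (ilN G s p) (ilN G s p) + 6 * ilK G (s \ ilN G s p) ≤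
      38 + 2 * ilE G (ilN G s p) s + 6 * ilK G s)
    (ih : ∀ R ⊆ s, R.Nonempty → ilGood G (s \ R)) : ilGood G s := by
  refine il_step G (J := {p}) (ilN_sub G hp) (by simp [ilN]) (by simp) ?_ (by simpa using hc)
    (ih _ (ilN_sub G hp) ⟨p, by simp [ilN]⟩)
  intro x hx y hy hxy
  rw [mem_singleton] at hx
  subst hx
  exact ilN_mem G hy hxy

lemma il_two {s : Finset V} {a b : V} (ha : a ∈ s) (hb : b ∈ s) (hne : a ≠ b)
    (hab : ¬ G.Adj a b) (hd : ∀ v ∈ s, 3 ≤ ilDeg G s v)
    (hc : (ilN G s a ∪ ilN G s b).card ≤ 7)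
    (ih : ∀ R ⊆ s, R.Nonempty → ilGood G (s \ R)) : ilGood G s := by
  have hR : ilN G s a ∪ ilN G s b ⊆ s := union_subset (ilN_sub G ha) (ilN_sub G hb)
  refine il_step G (J := {a, b}) hR ?_ ?_ ?_ ?_ (ih _ hR ⟨a, by simp [ilN]⟩)
  · intro x hx
    simp only [mem_insert, mem_singleton] at hx
    rcases hx with rfl | rfl <;> simp [ilN]
  · intro x hx y hy
    simp only [mem_insert, mem_singleton] at hx hy
    rcases hx with rfl | rfl <;> rcases hy with rfl | rfl
    · simp
    · exact hab
    · exact fun h => hab h.symm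
    · simp
  · intro x hx y hy hxy
    simp only [mem_insert, mem_singleton] at hx
    rcases hx with rfl | rfl
    · exact mem_union_left _ (ilN_mem G hy hxy)
    · exact mem_union_right _ (ilN_mem G hy hxy)
  · rw [card_pair hne]
    obtain ⟨h1, h2⟩ := il_low G hR hd
    obtain ⟨k, hk⟩ := ilE_even G (ilN G s a ∪ ilN G s b)
    have h3 := ilK_mono G (sdiff_subset (s := s) (t := ilN G s a ∪ ilN G s b))
    omega

lemma il_three {s : Finset V} {p a b c : V} (hp : p ∈ s) (hN : s.filter (G.Adj p) = {a, b, c})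
    (hab : a ≠ b) (hac : a ≠ c) (hbc : b ≠ c) (hn : ¬ G.Adj a b)
    (hd : ∀ v ∈ s, 3 ≤ ilDeg G s v)
    (ih : ∀ R ⊆ s, R.Nonempty → ilGood G (s \ R)) : ilGood G s := by
  have ha' : a ∈ s.filter (G.Adj p) := by rw [hN]; simp
  have hb' : b ∈ s.filter (G.Adj p) := by rw [hN]; simp
  have hc' : c ∈ s.filter (G.Adj p) := by rw [hN]; simp
  obtain ⟨ha, hpa⟩ := mem_filter.mp ha'
  obtain ⟨hb, hpb⟩ := mem_filter.mp hb'
  obtain ⟨hc, hpc⟩ := mem_filter.mp hc'
  have hR : ilN G s p = {p, a, b, c} := by unfold ilN; rw [hN]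
  have n1 : p ∉ ({a, b, c} : Finset V) := by simp [hpa.ne, hpb.ne, hpc.ne]
  have n2 : a ∉ ({b, c} : Finset V) := by simp [hab, hac]
  have n3 : b ∉ ({c} : Finset V) := by simp [hbc]
  have hE : ilE G (ilN G s p) s =
      ilDeg G s p + (ilDeg G s a + (ilDeg G s b + ilDeg G s c)) := by
    rw [hR]; unfold ilE
    rw [sum_insert n1, sum_insert n2, sum_insert n3, sum_singleton]
  have hn' : ¬ G.Adj b a := fun h => hn h.symm
  have hD : ilE G (ilN G s p) (ilN G s p) =
      6 + 2 * ((if G.Adj a c then 1 else 0) + (if G.Adj b c then 1 else 0)) := by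
    rw [hR]; unfold ilE ilDeg
    simp only [card_filter, sum_insert n1, sum_insert n2, sum_insert n3, sum_singleton]
    simp only [G.adj_comm c a, G.adj_comm c b, hpa, hpb, hpc, hpa.symm, hpb.symm, hpc.symm,
      hn, hn', G.irrefl, if_true, if_false]
    omega
  have hcard : (ilN G s p).card = 4 := by
    rw [hR, card_insert_of_notMem n1, card_insert_of_notMem n2, card_insert_of_notMem n3,
      card_singleton]
  have hK := ilK_mono G (sdiff_subset (s := s) (t := ilN G s p))
  have d0 := hd p hp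
  have d1 := hd a ha
  have d2 := hd b hb
  have d3 := hd c hc
  have hU := card_union_add_card_inter (ilN G s a) (ilN G s b)
  rw [ilN_card, ilN_card] at hU
  have m1 : p ∈ ilN G s a ∩ ilN G s b :=
    mem_inter.mpr ⟨ilN_mem G hp hpa.symm, ilN_mem G hp hpb.symm⟩
  have c1 : 1 ≤ (ilN G s a ∩ ilN G s b).card := card_pos.mpr ⟨p, m1⟩
  by_cases h7 : (ilN G s a ∪ ilN G s b).card ≤ 7
  · exact il_two G ha hb hab hn hd h7 ih
  refine il_one G hp ?_ ih
  rw [hE, hD, hcard]
  by_cases h1 : G.Adj a c <;> by_cases h2 : G.Adj b c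
  · have c2 : 2 ≤ (ilN G s a ∩ ilN G s b).card := by
      rw [← card_pair hpc.ne]
      apply card_le_card
      intro x hx
      simp only [mem_insert, mem_singleton] at hx
      rcases hx with rfl | rfl
      · exact m1
      · exact mem_inter.mpr ⟨ilN_mem G hc h1, ilN_mem G hc h2⟩
    simp only [h1, h2, if_true]
    omega
  · simp only [h1, h2, if_true, if_false]
    omega
  · simp only [h1, h2, if_true, if_false]
    omega
  · simp only [h1, h2, if_false]
    omega

/-- In a 3-degenerate vertex set `s` there is an independent set `I` with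
`14 |s| ≤ 38 |I| + (degree sum inside s) + 6 (number of 4-cliques inside s)`. -/
theorem ilem (s : Finset V)
    (hdeg : ∀ t ⊆ s, t.Nonempty → ∃ v ∈ t, ilDeg G t v ≤ 3) : ilGood G s := by
  induction s using Finset.strongInduction with
  | H s ihs =>
  rcases s.eq_empty_or_nonempty with rfl | hne
  · exact ⟨∅, by simp, by simp, by simp⟩
  have ih : ∀ R ⊆ s, R.Nonempty → ilGood G (s \ R) := fun R hR hRn =>
    ihs _ (sdiff_ssubset hR hRn) fun t ht => hdeg t (ht.trans sdiff_subset)
  obtain ⟨p, hp, hmin⟩ := exists_min_image s (ilDeg G s) hne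
  obtain ⟨v, hv, hv3⟩ := hdeg s Subset.rfl hne
  have hp3 : ilDeg G s p ≤ 3 := (hmin v hv).trans hv3
  obtain ⟨h1, h2⟩ := il_low G (ilN_sub G hp) hmin
  have hK := ilK_mono G (sdiff_subset (s := s) (t := ilN G s p))
  have hc := ilN_card G s p
  by_cases h3 : ilDeg G s p = 3
  · have hd : ∀ v ∈ s, 3 ≤ ilDeg G s v := fun v hv => h3 ▸ hmin v hv
    obtain ⟨a, b, c, hab, hac, hbc, hN⟩ :=
      card_eq_three.mp (show (s.filter (G.Adj p)).card = 3 from h3)
    by_cases e1 : G.Adj a b
    · by_cases e2 : G.Adj a c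
      · by_cases e3 : G.Adj b c
        · have ha' : a ∈ s.filter (G.Adj p) := by rw [hN]; simp
          have hb' : b ∈ s.filter (G.Adj p) := by rw [hN]; simp
          have hc' : c ∈ s.filter (G.Adj p) := by rw [hN]; simp
          have hpa := (mem_filter.mp ha').2
          have hpb := (mem_filter.mp hb').2
          have hpc := (mem_filter.mp hc').2
          have hk := ilK_drop G (ilN_sub G hp) (by omega) (by
            unfold ilN
            rw [hN]
            intro x hx y hy hxy
            simp only [mem_insert, mem_singleton] at hx hy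
            rcases hx with rfl | rfl | rfl | rfl <;> rcases hy with rfl | rfl | rfl | rfl <;>
              first | exact absurd rfl hxy | assumption | (apply SimpleGraph.Adj.symm; assumption))
          refine il_one G hp ?_ ih
          rw [h3] at h1 hc
          omega
        · exact il_three G (a := b) (b := c) (c := a) hp
            (by rw [hN]; ext x; simp only [mem_insert, mem_singleton]; tauto) hbc hab.symm
            hac.symm e3 hd ih
      · exact il_three G (a := a) (b := c) (c := b) hp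
          (by rw [hN]; ext x; simp only [mem_insert, mem_singleton]; tauto) hac hab
          hbc.symm e2 hd ih
    · exact il_three G hp hN hab hac hbc e1 hd ih
  · refine il_one G hp ?_ ih
    have : ilDeg G s p = 0 ∨ ilDeg G s p = 1 ∨ ilDeg G s p = 2 := by omega
    rcases this with h | h | h <;> rw [h] at h1 hc <;> omega

end

end Pool.Agent.P.MP_5f84aa_co.G
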