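import Pool.Agent.P.MP_5f84aa_co.G.Defs

/-! Statements of the geometric layer. -/

namespace Pool.Agent.P.MP_5f84aa_co.G

open Filter Topology Set

/-! ### Existence of a system -/

/-- disjoint open bars around the given segments -/
def SYS0 : Prop := ∀ (n : ℕ) (a b : Fin n → Pt),
  (Pairwise fun i j => Disjoint (segment ℝ (a i) (b i)) (segment ℝ (a j) (b j))) →
  ∃ R E, Pre R E ∧ E.card ≤ n + 3 ∧
    ∀ i, ∃ w ∈ E, w.ray = false ∧ ∀ q ∈ segment ℝ (a i) (b i), w.In q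

/-- one extension step -/
def STEP : Prop := ∀ R E, Pre R E → ∀ p ∈ Bad E, ∃ E', Pre R E' ∧ E'.card ≤ E.card ∧
  Bad E' ⊆ Bad E \ {p} ∧ ∀ w ∈ E, w.ray = false → ∃ w' ∈ E', w'.ray = false ∧ ∀ q, w.In q → w'.In q

/-- a system around the given segments -/
def SYS : Prop := ∀ (n : ℕ) (a b : Fin n → Pt),
  (Pairwise fun i j => Disjoint (segment ℝ (a i) (b i)) (segment ℝ (a j) (b j))) →
  ∃ R E, Sys R E ∧ E.card ≤ n + 3 ∧ ∃ γ : ℝ, 0 < γ ∧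
    ∀ i, ∃ w ∈ E, ∀ q ∈ segment ℝ (a i) (b i), w.Ob γ q

/-! ### Cells -/

/-- visibility is transitive, and its classes are open and convex -/
def VIS : Prop := ∀ R E, Sys R E → (∀ x y z, Vis E x y → Vis E y z → Vis E x z) ∧
  ∀ c, IsCell E c → IsOpen c ∧ Convex ℝ c ∧ c.Nonempty ∧ (∀ x ∈ c, Off E x) ∧
    (∀ x ∈ c, ∀ y, Vis E x y ↔ y ∈ c) ∧ ∀ c', IsCell E c' → ∀ x ∈ c, x ∈ c' → c = c'

/-- germs along a line -/
def WALK : Prop := ∀ (E : Finset Bar) (t : Bar) (σ : Bool) (x κ x' κ' : ℝ), t.d ≠ 0 →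
  (∀ w ∈ E, w.d ≠ 0) → toLex (x, κ) ≤ toLex (x', κ') →
  (∀ y μ, toLex (x, κ) ≤ toLex (y, μ) → toLex (y, μ) ≤ toLex (x', κ') → ¬ Blk E t σ y μ) →
  ∀ᶠ ε in 𝓝[>] 0, Vis E (t.gp σ x κ ε) (t.gp σ x' κ' ε)

/-- the blocked germs along a bar are those of the ends -/
def BLK : Prop := ∀ R E, Sys R E → ∀ t ∈ E, ∀ (σ : Bool) (x κ : ℝ), t.Rg x →
  (Blk E t σ x κ ↔ ∃ j, On E t j ∧ t.sd j = σ ∧ t.k2 j = toLex (x, κ))

/-- the cell of a free germ -/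
def GERM : Prop := ∀ R E, Sys R E → ∀ (t : Bar) (σ : Bool) (x κ : ℝ), t.d ≠ 0 → ¬ Blk E t σ x κ →
  IsCell E (gc E t σ x κ) ∧ ∀ᶠ ε in 𝓝[>] 0, t.gp σ x κ ε ∈ gc E t σ x κ

/-- the cells of a piece -/
def CELL : Prop := ∀ R E, Sys R E → ∀ t D, Pc E t D → ∀ σ,
  IsCell E (Ce E t σ D) ∧ (∃ x, Fit E t D x) ∧
  (∀ x, Fit E t D x → (∃ κ, Sep E t σ D x κ) ∧ t.pt x 0 ∈ closure (Ce E t σ D)) ∧
  (∀ x κ, Sep E t σ D x κ → Ce E t σ D = gc E t σ x κ ∧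
    ∀ᶠ ε in 𝓝[>] 0, t.gp σ x κ ε ∈ Ce E t σ D) ∧
  ∀ z ∈ Ce E t σ D, 0 < sg σ * t.ht z

/-- the cells at an end are the cells of the first piece of the stem -/
def STEM : Prop := ∀ R E, Sys R E → ∀ j, IsEnd E j →
  Pair E (cL E j) (cR E j) j.1 (Dend E j.1 j.2)

/-- the cells at an end lie in sectors -/
def SECT : Prop := ∀ R E, Sys R E → ∀ j, IsEnd E j → ∀ z,
  (z ∈ cL E j → (bar E j).pos z - (bar E j).pos (ep j) < (bar E j).sl j * |(bar E j).ht z|) ∧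
  (z ∈ cR E j → (bar E j).sl j * |(bar E j).ht z| < (bar E j).pos z - (bar E j).pos (ep j))

/-- an end separates the cells before it from the cells after it -/
def SEP : Prop := ∀ R E, Sys R E → ∀ t D D' j, Pc E t D → Pc E t D' → On E t j → j ∉ D → j ∈ D' →
  Ce E t (t.sd j) D ≠ Ce E t (t.sd j) D'

/-- two cells have at most one common piece -/
def UNIQ : Prop := ∀ R E, Sys R E → ∀ u v t D t' D', Pc E t D → Pc E t' D' → Pair E u v t D →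
  Pair E u v t' D' → t = t' ∧ D = D'

/-- the outer cells -/
def OUT : Prop := ∀ R E, Sys R E →
  (∀ i D, Ce E (ry R i) false D = hh R E i) ∧
  (∀ i, Ce E (ry R i) true (Dend E (ry R i) true) = hh R E (i + 1)) ∧
  (∀ i, On E (ry R i) (ry R (i + 1), false)) ∧
  ∀ c, IsCell E c → (∀ i, c ≠ hh R E i) → ∀ z ∈ c, Tri R z

/-- a cell follows a bar up to an end -/
def RUN : Prop := ∀ R E, Sys R E → ∀ t D, Pc E t D → ∀ σ,
  ((∃ j, On E t j ∧ t.sd j = σ ∧ j ∉ D ∧ Ce E t σ D = cL E j) ∨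
    ((∀ j, On E t j → t.sd j = σ → j ∈ D) ∧ Ce E t σ D = Ce E t σ (Dend E t true))) ∧
  ((∃ j, On E t j ∧ t.sd j = σ ∧ j ∈ D ∧ Ce E t σ D = cR E j) ∨
    ((∀ j, On E t j → t.sd j = σ → j ∉ D) ∧ Ce E t σ D = Ce E t σ (Dend E t false)))

/-! ### The map -/

/-- faces and pieces -/
def FACE : Prop := ∀ R E, Sys R E →
  (∀ f, (mp R E).L f ≠ (mp R E).R f ∧ (mp R E).L f ≠ (mp R E).X f ∧ (mp R E).R f ≠ (mp R E).X f) ∧
  (∀ (f : JJ E) t D, Inc R E f.1 t D → Pc E t D) ∧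
  (∀ (f : JJ E) (u v : VV R E), u ≠ v →
    ((mp R E).has f u ∧ (mp R E).has f v ↔ ∃ t D, Inc R E f.1 t D ∧ Pair E u.1 v.1 t D)) ∧
  (∀ t D, Pc E t D → {f : JJ E | Inc R E f.1 t D}.ncard = 2 ∧
    ∃ u v : VV R E, (mp R E).Adj u v ∧ u.1 = Ce E t true D ∧ v.1 = Ce E t false D) ∧
  (∀ u v, (mp R E).Adj u v ↔ ∃ t D, Pc E t D ∧ Pair E u.1 v.1 t D) ∧
  (∀ (u v : VV R E) t D, Pc E t D → Pair E u.1 v.1 t D → (mp R E).ln u v = t) ∧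
  ∀ v : VV R E, IsCell E v.1

/-- rungs -/
def FAR : Prop := ∀ R E, Sys R E → ∀ f f' : JJ E,
  (mp R E).far f f' ↔ ∃ s e, Rung E s ∧ f.1 = some (s, e) ∧ f'.1 = some (s, !e)

/-- the faces are connected -/
def CONN : Prop := ∀ R E, Sys R E → ∀ f, Relation.ReflTransGen (mp R E).FAdj f (mp R E).inf

/-- the number of cells -/
def COUNT : Prop := ∀ R E, Sys R E → Nat.card (JJ E) + 2 = 2 * E.card ∧ E.card + 1 ≤ Nat.card (VV R E)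

/-- a connected closed surface with many vertices is a sphere -/
def EULER : Prop := ∀ (V J Sg : Type) [Fintype V] [Fintype J] (m : Map V J Sg),
  (∀ j, m.L j ≠ m.R j ∧ m.L j ≠ m.X j ∧ m.R j ≠ m.X j) →
  (∀ u v, m.Adj u v → {j | m.has j u ∧ m.has j v}.ncard = 2) → (∀ v, ∃ j, m.has j v) →
  (∀ j, Relation.ReflTransGen m.FAdj j m.inf) → Fintype.card J + 4 ≤ 2 * Fintype.card V →
  Fintype.card J + 4 = 2 * Fintype.card V ∧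
  (∀ F : V → V → Prop, (∀ u v, F u v → F v u) → (∀ u v, F u v → m.Adj u v) →
    (∀ u, Even {v | F u v}.ncard) →
    ∃ G : Set J, ∀ u v, m.Adj u v → (F u v ↔ {j | j ∈ G ∧ m.has j u ∧ m.has j v}.ncard = 1)) ∧
  ∀ v j j', m.has j v → m.has j' v → Relation.ReflTransGen
    (fun a b => m.has a v ∧ m.has b v ∧ ∃ w, w ≠ v ∧ m.has a w ∧ m.has b w) j j'

/-- a bounded cell has a corner above each of its points -/
def CLIMB : Prop := ∀ R E, Sys R E → ∀ φ, Gen E φ → ∀ c, IsCell E c → (∀ i, c ≠ hh R E i) →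
  ∀ x ∈ c, ∃ j, IsEnd E j ∧ (c = cL E j ∨ c = cR E j) ∧ φ x < φ (ep j)

/-- a set of bounded cells has a convex corner at its highest point -/
def CORNER : Prop := ∀ R E, Sys R E → ∀ φ, Gen E φ → ∀ K : Set (Set Pt), K.Nonempty →
  (∀ c ∈ K, IsCell E c ∧ ∀ i, c ≠ hh R E i) → ∃ j, IsEnd E j ∧ cX E j ∉ K ∧
    ((cL E j ∈ K ∧ cR E j ∉ K) ∨ (cR E j ∈ K ∧ cL E j ∉ K)) ∧ ∀ c ∈ K, ∀ x ∈ c, φ x < φ (ep j)

/-- three convex corners -/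
def HOLE : Prop := ∀ R E, Sys R E → ∀ K : Set (VV R E), K.Nonempty →
  (∀ v ∈ K, ¬ (mp R E).has (mp R E).inf v) → 3 ≤ {j | (mp R E).cvx K j}.ncard

/-- a cell has at most two corners on a bar -/
def SIDE : Prop := ∀ R E, Sys R E → ∀ (c : Set Pt) (u : Bar),
  {j | IsEnd E j ∧ (c = cL E j ∨ c = cR E j) ∧ (j.1 = u ∨ bar E j = u)}.ncard ≤ 2

/-- removal of rungs -/
def CUT : Prop := ∀ R (E E' : Finset Bar), Sys R E → E' ⊆ E → (∀ s ∈ E, s ∉ E' → Rung E s) →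
  Sys R E' ∧
  (∀ t D, Pc E t D → t ∈ E' → Pc E' t {j ∈ D | j.1 ∈ E'} ∧
    ∀ σ, Ce E t σ D ⊆ Ce E' t σ {j ∈ D | j.1 ∈ E'}) ∧
  (∀ j, IsEnd E' j → bar E' j = bar E j ∧ cL E j ⊆ cL E' j ∧ cR E j ⊆ cR E' j) ∧
  ∀ s ∈ E, s ∉ E' → ∃ c, IsCell E' c ∧ ∀ σ, Ce E s σ ∅ ⊆ c

/-- unions of cells joined by rungs -/
def MERGE : Prop := ∀ R E, Sys R E → ∀ ρ : Set (JJ E),
  (∀ v u, {j | j ≠ (mp R E).inf ∧ ¬ (mp R E).Rg ρ j ∧ (∃ w, (mp R E).RC ρ v w ∧ (mp R E).cor j w) ∧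
    ((mp R E).stem j = u ∨ (mp R E).bar j = u)}.ncard ≤ 2) ∧
  (∀ u u' v v', (mp R E).RC ρ u u' → (mp R E).RC ρ v v' → (mp R E).Adj u v → (mp R E).Adj u' v' →
    ¬ (mp R E).RC ρ u v → (mp R E).ln u v = (mp R E).ln u' v') ∧
  ∀ u v, (mp R E).RC ρ u v → (mp R E).Adj u v →
    ∃ j ∈ ρ, ∃ j', (mp R E).far j j' ∧ (mp R E).cor j u ∧ (mp R E).cor j v

/-- the map of a system -/
def OK : Prop := ∀ R E, Sys R E → (mp R E).Ok ∧ Nat.card (VV R E) = E.card + 1 ∧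
  Nat.card (JJ E) ≤ 2 * Nat.card (VV R E)

/-! ### Lights -/

/-- a light near a bar sees the whole bar; a light in a cell sees its boundary -/
def HUG : Prop := ∀ R E, Sys R E → ∀ γ : ℝ, 0 < γ →
  (∀ w ∈ E, ∀ z, w.In z → ∀ᶠ x in 𝓝 z, w.ht x ≠ 0 → ∀ q, w.Ob γ q → Sees E γ x q) ∧
  ∀ c, IsCell E c → ∀ x ∈ c, ∀ q ∈ closure c, Sees E γ x q

/-- half discs, and lights in a gap -/
def PERT : Prop := ∀ R E, Sys R E → ∀ s D x₀, Pc E s D → Fit E s D x₀ →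
  (∀ j, On E s j → s.pos (ep j) ≠ x₀) → ∀ τ,
  (∀ᶠ z in 𝓝 (s.pt x₀ 0), 0 < sg τ * s.ht z → z ∈ Ce E s τ D) ∧
  ∀ γ : ℝ, 0 < γ → ¬ s.Ob γ (s.pt x₀ 0) → ∀ Q : Set Pt, IsCompact Q → Q ⊆ closure (Ce E s τ D) →
    (∀ q ∈ Q, s.ht q ≠ 0) → ∀ᶠ x in 𝓝 (s.pt x₀ 0), ∀ q ∈ Q, Sees E γ x q

/-- the trace of a cell on the line of a stem -/
def LINE : Prop := ∀ R E, Sys R E → ∀ j, IsEnd E j → ∀ τ, ∀ q ∈ closure (Ce E j.1 τ (Dend E j.1 j.2)),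
  j.1.ht q = 0 → j.1.In q ∨ q = ep j ∨
    (j.1.ray = false ∧ (∀ k, On E j.1 k → j.1.sd k ≠ τ) ∧ q = ep (j.1, !j.2))

/-- the light at an end, with the shadow on the side `τ` of the stem -/
def LAMP : Prop := ∀ R E, Sys R E → ∀ γ η : ℝ, 0 < γ → 0 < η → ∀ j, IsEnd E j → ∀ τ,
  (Rung E j.1 ∨ ∃ k, On E j.1 k ∧ j.1.sd k = τ) → ∃ x ∈ Ce E j.1 (!τ) (Dend E j.1 j.2),
    (∀ q, j.1.Ob γ q ∨ (bar E j).Ob γ q → Sees E γ x q) ∧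
    ∀ w ∈ E, ∀ q ∈ closure (Ce E j.1 τ (Dend E j.1 j.2)), w.Ob γ q → Sees E γ x q ∨
      (Rung E j.1 ∧ w = bar E (j.1, !j.2) ∧ w.pos q ≠ w.pos (ep (j.1, !j.2)) ∧
        |w.pos q - w.pos (ep (j.1, !j.2))| < η)

/-- a combinatorial lighting gives lights -/
def LIGHT : Prop := ∀ R E, Sys R E → ∀ γ : ℝ, 0 < γ → ∀ M F sh, (mp R E).Cover M F sh →
  ∃ S : Finset Pt, S.card ≤ M.card + F.card ∧ (∀ x ∈ S, Off E x) ∧
    ∀ w ∈ E, ∀ q, w.Ob γ q → ∃ x ∈ S, Sees E γ x q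

end Pool.Agent.P.MP_5f84aa_co.G
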