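import Pool.Agent.P.MP_5f84aa_co.G.PD

/-! Tools for the local lemma, part A: the order on a line, segments, walks along a line. -/

namespace Pool.Agent.P.MP_5f84aa_co.G

namespace Map

variable {V J Sg : Type} (m : Map V J Sg)

/-- the cell `z` has a piece on the line `t` at the face `j` -/
def Tc (j : J) (z : V) (t : Sg) : Prop := ∃ u, z ≠ u ∧ m.On j z u ∧ m.ln z u = t

/-- the faces on a line are ordered -/
structure Ord (ps : J → Sg → ℤ) : Prop where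
  step : ∀ u v j j', u ≠ v → m.On j u v → m.On j' u v → j ≠ j' → j ≠ m.inf → j' ≠ m.inf →
    ps j' (m.ln u v) = ps j (m.ln u v) + 1 ∨ ps j (m.ln u v) = ps j' (m.ln u v) + 1
  inj : ∀ t j j', j ≠ m.inf → j' ≠ m.inf → m.hug j t → m.hug j' t → ps j t = ps j' t → j = j'
  ext : ∀ j k k', j ≠ m.inf → k ≠ m.inf → k' ≠ m.inf → m.hug k (m.stem j) → m.hug k' (m.stem j) →
    ps k (m.stem j) < ps j (m.stem j) → ¬ ps j (m.stem j) < ps k' (m.stem j)
  cvx : ∀ z t j i k, j ≠ m.inf → i ≠ m.inf → k ≠ m.inf → m.Tc j z t → m.Tc k z t → m.hug i t →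
    ps j t < ps i t → ps i t < ps k t → m.X i = z

/-- `i` lies strictly between `j` and `k` on the line `t` -/
def Bt (ps : J → Sg → ℤ) (t : Sg) (j i k : J) : Prop :=
  (ps j t < ps i t ∧ ps i t < ps k t) ∨ (ps k t < ps i t ∧ ps i t < ps j t)

/-- `i` lies between `j` and `k` on the line `t` -/
def Bw (ps : J → Sg → ℤ) (t : Sg) (j i k : J) : Prop :=
  (ps j t ≤ ps i t ∧ ps i t ≤ ps k t) ∨ (ps k t ≤ ps i t ∧ ps i t ≤ ps j t)

/-- the pieces of the line `t` between the faces `j` and `k` -/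
def Sgm (ps : J → Sg → ℤ) (t : Sg) (j k : J) (u v : V) : Prop :=
  m.Adj u v ∧ m.ln u v = t ∧ ∀ i, m.On i u v → i ≠ m.inf ∧ Bw ps t j i k

/-- a segment of walls on the line `t` from the face `j` to the face `k`: the faces between are solid -/
structure Wk (ps : J → Sg → ℤ) (W : V → V → Prop) (t : Sg) (j k : J) : Prop where
  ne : j ≠ k
  i1 : j ≠ m.inf
  i2 : k ≠ m.inf
  h1 : m.hug j t
  h2 : m.hug k t
  sol : ∀ i, i ≠ m.inf → m.hug i t → Bt ps t j i k → m.Sol W i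
  p1 : ∃ u v, W u v ∧ m.On j u v ∧ m.Sgm ps t j k u v
  p2 : ∃ u v, W u v ∧ m.On k u v ∧ m.Sgm ps t j k u v

variable {m} {ps : J → Sg → ℤ} {t : Sg} {W : V → V → Prop} {U : Finset V}
  {a b u v w x y z : V} {i j j' k k' : J}

theorem Bt.symm (b : Bt ps t j i k) : Bt ps t k i j := Or.symm b
theorem Bw.symm (b : Bw ps t j i k) : Bw ps t k i j := Or.symm b
theorem Bt.bw (b : Bt ps t j i k) : Bw ps t j i k := by unfold Bt at b; unfold Bw; omega
theorem Bw.left (ps : J → Sg → ℤ) (t : Sg) (j k : J) : Bw ps t j j k := by unfold Bw; omega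
theorem Bw.right (ps : J → Sg → ℤ) (t : Sg) (j k : J) : Bw ps t j k k := by unfold Bw; omega

theorem Sgm.symm (h : m.Ok) (a : m.Sgm ps t j k u v) : m.Sgm ps t j k v u :=
  ⟨a.1.symm, (h.ln_symm _ _).trans a.2.1, fun i o => a.2.2 i o.symm⟩

theorem Sgm.rev (a : m.Sgm ps t j k u v) : m.Sgm ps t k j u v :=
  ⟨a.1, a.2.1, fun i o => ⟨(a.2.2 i o).1, (a.2.2 i o).2.symm⟩⟩

theorem Wk.rev (a : m.Wk ps W t j k) : m.Wk ps W t k j :=
  ⟨a.ne.symm, a.i2, a.i1, a.h2, a.h1, fun i c d e => a.sol i c d e.symm,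
    let ⟨u, v, w, c, d⟩ := a.p2; ⟨u, v, w, c, d.rev⟩, let ⟨u, v, w, c, d⟩ := a.p1; ⟨u, v, w, c, d.rev⟩⟩

/-- a face hugs the lines of its pieces -/
theorem Ok.hug_on (h : m.Ok) (ji : j ≠ m.inf) (o : m.On j u v) (d : u ≠ v) : m.hug j (m.ln u v) := by
  rcases o.1 with e | e | e
  exacts [h.hug_of_cor (.inl e) o.2 d ji, h.hug_of_cor (.inr e) o.2 d ji,
    h.ln_symm u v ▸ h.hug_of_cor (by
      rcases o.2 with e' | e' | e'
      exacts [.inl e', .inr e', absurd (e.trans e'.symm) d]) o.1 d.symm ji]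

theorem Ok.Tc.hug (h : m.Ok) (ji : j ≠ m.inf) (c : m.Tc j z t) : m.hug j t :=
  let ⟨_, d, o, l⟩ := c; l ▸ h.hug_on ji o d

theorem Ok.tc_cor (h : m.Ok) (ji : j ≠ m.inf) (c : m.cor j z) (g : m.hug j t) : m.Tc j z t := by
  obtain ⟨y, f⟩ := c.ge
  obtain ⟨l1, l2, -, -⟩ := h.lines f ji
  rcases g with rfl | rfl
  exacts [⟨y, (h.fc_ne f).1, f.fc.on, l1⟩, ⟨_, (h.fc_ne f).2.1, ⟨f.fc.has1, f.fc.has3⟩, l2⟩]

theorem Ok.tc_bar (h : m.Ok) (ji : j ≠ m.inf) (c : m.has j z) : m.Tc j z (m.bar j) := by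
  rcases c with rfl | rfl | rfl
  exacts [h.tc_cor ji (.inl rfl) (.inr rfl), h.tc_cor ji (.inr rfl) (.inr rfl),
    ⟨_, (h.neLX j).symm, ⟨.inr (.inr rfl), .inl rfl⟩, (h.ln_symm _ _).trans (h.lnLX j ji)⟩]

/-- a piece of a face lies on the stem or on the bar -/
theorem Ok.piece (h : m.Ok) (ji : j ≠ m.inf) (o : m.On j u v) (d : u ≠ v) :
    (m.GE j u v ∧ m.ln u v = m.stem j) ∨
      ((∃ w, m.Fc j u w v) ∨ ∃ w, m.Fc j v w u) ∧ m.ln u v = m.bar j := by
  obtain ⟨w, a, b, t⟩ := h.third o d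
  rcases h.tri_cases t d a.symm b.symm with f | f | f
  exacts [.inl ⟨f.ge, (h.lines f ji).1⟩,
    .inr ⟨.inr ⟨_, f⟩, (h.ln_symm _ _).trans (h.lines f ji).2.1⟩,
    .inr ⟨.inl ⟨_, f.symm⟩, (h.lines f ji).2.2.1⟩]

namespace Ord

variable (h : m.Ok) (r : m.Ord ps)
include h r

omit h in
theorem bt_of (a : j ≠ m.inf) (b : i ≠ m.inf) (c : k ≠ m.inf) (g : m.hug j t) (g' : m.hug i t)
    (g'' : m.hug k t) (w : Bw ps t j i k) (d : i ≠ j) (d' : i ≠ k) : Bt ps t j i k := by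
  have := mt (r.inj t i j b a g' g) d
  have := mt (r.inj t i k b c g' g'') d'
  unfold Bw at w
  unfold Bt
  omega

omit h in
/-- the end of a line is not between two faces -/
theorem bar_of_bt (a : j ≠ m.inf) (b : i ≠ m.inf) (c : k ≠ m.inf) (g : m.hug j t) (g' : m.hug i t)
    (g'' : m.hug k t) (w : Bt ps t j i k) : m.bar i = t := g'.resolve_left fun e => by
  subst e
  rcases w with w | w
  exacts [r.ext i j k b a c g g'' w.1 w.2, r.ext i k j b c a g'' g w.1 w.2]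

omit h in
/-- a cell is flat between two of its faces on a line -/
theorem flat (a : j ≠ m.inf) (b : i ≠ m.inf) (c : k ≠ m.inf) (g : m.Tc j z t) (g' : m.hug i t)
    (g'' : m.Tc k z t) (w : Bt ps t j i k) : m.X i = z := by
  rcases w with w | w
  exacts [r.cvx z t j i k a b c g g'' g' w.1 w.2, r.cvx z t k i j c b a g'' g g' w.1 w.2]

/-- the faces before and after a landing -/
theorem land (f : m.Fc i x y z) (bz : m.Bd z) (o : m.On j x z) (o' : m.On k y z) (d : j ≠ i)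
    (d' : k ≠ i) : (ps j (m.bar i) + 1 = ps i (m.bar i) ∧ ps i (m.bar i) + 1 = ps k (m.bar i)) ∨
      (ps k (m.bar i) + 1 = ps i (m.bar i) ∧ ps i (m.bar i) + 1 = ps j (m.bar i)) := by
  obtain ⟨n1, n2, n3⟩ := h.fc_ne f
  have ii := bz.ne_inf f.has3
  have ji := bz.ne_inf o.2
  have ki := bz.ne_inf o'.2
  obtain ⟨-, l1, l2, -⟩ := h.lines f ii
  have e1 := r.step x z j i n2 o ⟨f.has1, f.has3⟩ d ji ii
  have e2 := r.step y z k i n3 o' ⟨f.has2, f.has3⟩ d' ki ii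
  have e3 := mt (r.inj _ j k ji ki (l1 ▸ h.hug_on ji o n2) (l2 ▸ h.hug_on ki o' n3)) fun e =>
    d (h.tri_unique bz n2.symm n3.symm n1 ⟨o.2, o.1, e ▸ o'.1⟩ ⟨f.has3, f.has1, f.has2⟩)
  rw [l1] at e1
  rw [l2] at e2
  omega

/-- a segment is even on the faces of bounded cells except its ends -/
theorem ev_sgm (bd : ∀ v, m.has i v → m.Bd v) (a : j ≠ m.inf) (c : k ≠ m.inf) (g : m.hug j t)
    (g' : m.hug k t) (d : i ≠ j) (d' : i ≠ k) : m.Ev (m.Sgm ps t j k) i := by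
  have f := fc_self (m := m) i
  have ii := (bd _ f.has1).ne_inf f.has1
  obtain ⟨n1, n2, n3⟩ := h.fc_ne f
  obtain ⟨l0, l1, l2, l3⟩ := h.lines f ii
  have s0 : ¬ m.Sgm ps t j k (m.L i) (m.R i) := fun s => l3 ((l0.symm.trans s.2.1).trans
    (r.bar_of_bt a ii c g (.inl (l0.symm.trans s.2.1)) g' (r.bt_of a ii c g
      (.inl (l0.symm.trans s.2.1)) g' (s.2.2 i f.on).2 d d')).symm)
  have key : ∀ x y, m.Fc i x y (m.X i) → m.Sgm ps t j k x (m.X i) → m.Sgm ps t j k y (m.X i) := by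
    intro x y f s
    obtain ⟨n1, n2, n3⟩ := h.fc_ne f
    obtain ⟨-, l1, l2, -⟩ := h.lines f ii
    have e : m.bar i = t := l1.symm.trans s.2.1
    have bt := r.bt_of a ii c g (.inr e) g' (s.2.2 i ⟨f.has1, f.has3⟩).2 d d'
    refine ⟨h.adj23 f, l2.trans e, fun i' o => ⟨(bd _ f.has3).ne_inf o.2, ?_⟩⟩
    by_cases q : i' = i
    · exact q ▸ bt.bw
    have := r.step y _ i' i n3 o ⟨f.has2, f.has3⟩ q ((bd _ f.has3).ne_inf o.2) ii
    rw [l2, e] at this
    unfold Bt at bt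
    unfold Bw
    omega
  have := key _ _ f
  have := key _ _ f.symm
  unfold Ev
  tauto

end Ord

namespace HSt

variable (h : m.Ok) (r : m.Ord ps) (s : m.HSt U W)
include h s

omit h in
theorem bd1 (w : W u v) : m.Bd u := s.bd _ (s.mem _ _ w)
omit h in
theorem bd2 (w : W u v) : m.Bd v := s.bd _ (s.mem2 w)
omit h in
theorem ne (w : W u v) : u ≠ v := (s.adj _ _ w).1

theorem sol_w (so : m.Sol W j) (f : m.Fc j x y z) : W x y ∧ W x z ∧ W y z :=
  let ⟨a, b, c⟩ := h.fc_ne f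
  ⟨so _ _ a f.on, so _ _ b ⟨f.has1, f.has3⟩, so _ _ c ⟨f.has2, f.has3⟩⟩

theorem sol_mem (so : m.Sol W j) (a : m.has j v) : v ∈ U := by
  obtain ⟨x, y, -, d, -, t⟩ := h.two_more a
  exact s.mem _ _ (so v x d.symm ⟨t.1, t.2.1⟩)

theorem sol_inf (so : m.Sol W j) : j ≠ m.inf :=
  (s.bd _ (s.sol_mem h so (.inl rfl))).ne_inf (.inl rfl)

/-- a set of pieces that is even on the solid faces is a cut -/
theorem cut [Finite V] [Finite J] {ρ : V → V → Prop} (sρ : ∀ u v, ρ u v → ρ v u)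
    (ev : ∀ j, m.Sol W j → m.Ev ρ j) : ∃ Z : Set V, ∀ u v, W u v → (ρ u v ↔ ¬ (u ∈ Z ↔ v ∈ Z)) :=
  h.cut (o := m.inf) s.sym s.adj sρ fun G iG sp j hj =>
    ev j (by_contra fun c => hj (s.con G iG sp j c))

include r

/-- a segment between two open faces is a cut -/
theorem cut_sgm [Finite V] [Finite J] (a : j ≠ m.inf) (c : k ≠ m.inf) (g : m.hug j t)
    (g' : m.hug k t) (oj : ¬ m.Sol W j) (ok : ¬ m.Sol W k) :
    ∃ Z : Set V, ∀ u v, W u v → (m.Sgm ps t j k u v ↔ ¬ (u ∈ Z ↔ v ∈ Z)) :=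
  s.cut h (fun _ _ => Sgm.symm h) fun i so => r.ev_sgm h (fun v b => s.bd _ (s.sol_mem h so b)) a c g g'
    (fun e => oj (e ▸ so)) fun e => ok (e ▸ so)

omit s in
/-- the two faces of a piece of a segment -/
theorem _root_.Pool.Agent.P.MP_5f84aa_co.G.Map.Sgm.two (a : m.Sgm ps t j k u v) (o : m.On i u v) :
    ∃ i', i' ≠ i ∧ m.On i' u v ∧ (∀ n, m.On n u v → n = i ∨ n = i') ∧ m.hug i t ∧ m.hug i' t ∧
      (ps i' t = ps i t + 1 ∨ ps i t = ps i' t + 1) := by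
  obtain ⟨i', d, o', q⟩ := h.other o a.1.1
  have c := (a.2.2 i o).1
  have c' := (a.2.2 i' o').1
  exact ⟨i', d, o', q, a.2.1 ▸ h.hug_on c o a.1.1, a.2.1 ▸ h.hug_on c' o' a.1.1,
    a.2.1 ▸ r.step u v i i' a.1.1 o o' d.symm c c'⟩

/-- only one piece of a segment lies on its first face -/
theorem wk_first (a : m.Wk ps W t j k) (w : W u v) (o : m.On j u v) (b : m.Sgm ps t j k u v)
    (o' : m.On j x y) (b' : m.Sgm ps t j k x y) : (x = u ∧ y = v) ∨ (x = v ∧ y = u) := by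
  obtain ⟨i, d, p, -, -, g, e⟩ := b.two h r o
  obtain ⟨i', d', p', -, -, g', e'⟩ := b'.two h r o'
  have e1 := (b.2.2 i p).2
  have e2 := (b'.2.2 i' p').2
  have e3 := mt (r.inj t j k a.i1 a.i2 a.h1 a.h2) a.ne
  obtain rfl := r.inj t i i' (b.2.2 i p).1 (b'.2.2 i' p').1 g g' (by unfold Bw at e1 e2; omega)
  have uv := s.ne w
  have key : ∀ z, m.has j z → m.has i z → z = u ∨ z = v := fun z c c' => by_contra fun n =>
    d (h.tri_unique (s.bd1 w) uv (fun e => n (.inl e.symm)) (fun e => n (.inr e.symm))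
      ⟨p.1, p.2, c'⟩ ⟨o.1, o.2, c⟩)
  have := key x o'.1 p'.1
  have := key y o'.2 p'.2
  have := b'.1.1
  grind

/-- the pieces of a segment are walls -/
theorem wk_w (a : m.Wk ps W t j k) (b : m.Sgm ps t j k u v) : W u v := by
  obtain ⟨-, i, o⟩ := b.1
  obtain ⟨i', d, o', -, g, g', -⟩ := b.two h r o
  have key : ∀ i, m.On i u v → m.hug i t → i ≠ j → i ≠ k → W u v := fun i o g c c' =>
    a.sol i (b.2.2 i o).1 g (r.bt_of a.i1 (b.2.2 i o).1 a.i2 a.h1 g a.h2 (b.2.2 i o).2 c c') u v b.1.1 o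
  have oj : W u v ∨ m.On j u v := by
    by_cases c : i = j
    · exact .inr (c ▸ o)
    by_cases c' : i' = j
    · exact .inr (c' ▸ o')
    by_cases e : i = k
    exacts [.inl (key i' o' g' c' (e ▸ d)), .inl (key i o g c e)]
  refine oj.elim id fun oj => ?_
  obtain ⟨x, y, w, p, q⟩ := a.p1
  rcases s.wk_first h r a w p q oj b with ⟨rfl, rfl⟩ | ⟨rfl, rfl⟩
  exacts [w, s.sym _ _ w]

/-- the step over a landing inside a segment -/
theorem wk_land (a : m.Wk ps W t j k) (f : m.Fc i x y z) (e : m.bar i = t) (ii : i ≠ m.inf)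
    (b : Bt ps t j i k) : m.Sgm ps t j k x z := by
  have so := a.sol i ii (.inr e) b
  have w := (s.sol_w h so f).2.1
  have l := (h.lines f ii).2.1.trans e
  refine ⟨h.adj13 f, l, fun n o => ⟨(s.bd1 w).ne_inf o.1, ?_⟩⟩
  by_cases q : n = i
  · exact q ▸ b.bw
  have := r.step x z n i (s.ne w) o ⟨f.has1, f.has3⟩ q ((s.bd1 w).ne_inf o.1) ii
  rw [l] at this
  unfold Bt at b
  unfold Bw
  omega

/-- induction along a segment -/
theorem wk_ind (a : m.Wk ps W t j k) {P : V → V → Prop} (sy : ∀ u v, P u v → P v u)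
    (p0 : ∀ u v, m.On j u v → m.Sgm ps t j k u v → P u v)
    (st : ∀ i x y z, m.Fc i x y z → m.bar i = t → Bt ps t j i k → m.Sol W i → P x z → P y z)
    (b : m.Sgm ps t j k u v) : P u v := by
  have key : ∀ n : ℕ, ∀ u v i, m.Sgm ps t j k u v → m.On i u v → (ps i t - ps j t).natAbs ≤ n →
      P u v := by
    intro n
    induction n with
    | zero =>
      intro u v i b o e
      obtain ⟨-, -, -, -, g, -⟩ := b.two h r o
      exact p0 u v (r.inj t i j (b.2.2 i o).1 a.i1 g a.h1 (by omega) ▸ o) b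
    | succ n ih =>
      intro u v i b o e
      obtain ⟨i', d, o', -, g, g', q⟩ := b.two h r o
      by_cases c : (ps i t - ps j t).natAbs ≤ n
      · exact ih u v i b o c
      by_cases c' : (ps i' t - ps j t).natAbs ≤ n
      · exact ih u v i' b o' c'
      have e1 := (b.2.2 i o).2
      have e2 := (b.2.2 i' o').2
      have ii := (b.2.2 i o).1
      have bt : Bt ps t j i k := by unfold Bw at e1 e2; unfold Bt; omega
      have br := r.bar_of_bt a.i1 ii a.i2 a.h1 g a.h2 bt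
      have so := a.sol i ii g bt
      have fin : ∀ u v, m.On i' u v → ∀ w, m.Fc i u w v → P u v := fun u v o' w f => by
        have b' := s.wk_land h r a f.symm br ii bt
        obtain ⟨n', d', p, -⟩ := b'.two h r ⟨f.has2, f.has3⟩
        have := r.land h f (s.bd2 (s.sol_w h so f).2.1) o' p d d'
        rw [br] at this
        exact st i w u v f.symm br bt so (ih w v n' b' p (by unfold Bt at bt; omega))
      rcases h.piece ii o b.1.1 with ⟨-, l⟩ | ⟨⟨w, f⟩ | ⟨w, f⟩, -⟩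
      · exact absurd ((l.symm.trans b.2.1).trans br.symm) (h.stem_ne i ii)
      · exact fin u v o' w f
      · exact sy _ _ (fin v u o'.symm w f)
  obtain ⟨-, i, o⟩ := b.1
  exact key _ u v i b o le_rfl

/-- a segment of walls lies in one run -/
theorem wk_run (a : m.Wk ps W t j k) (b : m.Sgm ps t j k u v) (b' : m.Sgm ps t j k x y) :
    m.Run W u v x y := by
  obtain ⟨p, q, w, o, c⟩ := a.p1
  have key : ∀ u v, m.Sgm ps t j k u v → m.Run W p q u v := fun u v b =>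
    s.wk_ind h r a (P := m.Run W p q) (fun _ _ => Run.swap) (fun u v o' b => by
      rcases s.wk_first h r a w o c o' b with ⟨rfl, rfl⟩ | ⟨rfl, rfl⟩
      exacts [.refl _ _ _, (Run.refl _ _ _).swap])
      (fun i x y z f _ _ so => (s.run_bar h f so).1) b
  exact (s.run_symm h (key u v b) w).trans (key x y b')

/-- a segment that starts at an open face is attached -/
theorem wk_att (a : m.Wk ps W t j k) (op : ¬ m.Sol W j) (b : m.Sgm ps t j k u v) : m.Att W u v :=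
  let ⟨p, q, _, o, c⟩ := a.p1; ⟨p, q, j, s.wk_run h r a b c, o, op⟩

/-- one wall is a segment -/
theorem wk_one (w : W u v) (o : m.On j u v) (o' : m.On k u v) (d : j ≠ k) :
    m.Wk ps W (m.ln u v) j k ∧ m.Sgm ps (m.ln u v) j k u v := by
  have ji := (s.bd1 w).ne_inf o.1
  have ki := (s.bd1 w).ne_inf o'.1
  have e := r.step u v j k (s.ne w) o o' d ji ki
  have b : m.Sgm ps (m.ln u v) j k u v := ⟨s.adj _ _ w, rfl, fun i p => by
    rcases h.two_faces (s.ne w) o o' p d with rfl | rfl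
    exacts [⟨ji, .left _ _ _ _⟩, ⟨ki, .right _ _ _ _⟩]⟩
  exact ⟨⟨d, ji, ki, h.hug_on ji o (s.ne w), h.hug_on ki o' (s.ne w),
    fun i _ _ q => by unfold Bt at q; omega, ⟨u, v, w, o, b⟩, u, v, w, o', b⟩, b⟩

omit h r s in
theorem _root_.Pool.Agent.P.MP_5f84aa_co.G.Map.Sgm.mono (a : m.Sgm ps t j i u v)
    (b : Bw ps t j i k) : m.Sgm ps t j k u v :=
  ⟨a.1, a.2.1, fun n o => ⟨(a.2.2 n o).1, by have := (a.2.2 n o).2; unfold Bw at *; omega⟩⟩

omit h s in
/-- two segments that follow each other -/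
theorem _root_.Pool.Agent.P.MP_5f84aa_co.G.Map.Wk.trans (a : m.Wk ps W t j i) (a' : m.Wk ps W t i k)
    (b : Bt ps t j i k) (so : m.Sol W i) : m.Wk ps W t j k := by
  refine ⟨fun e => by subst e; unfold Bt at b; omega, a.i1, a'.i2, a.h1, a'.h2, fun n c g q => ?_,
    let ⟨u, v, w, o, c⟩ := a.p1; ⟨u, v, w, o, c.mono b.bw⟩,
    let ⟨u, v, w, o, c⟩ := a'.p2; ⟨u, v, w, o, (c.rev.mono b.symm.bw).rev⟩⟩
  by_cases e : n = i
  · exact e ▸ so
  have := mt (r.inj t n i c a.i2 g a.h2) e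
  by_cases e' : Bt ps t j n i
  exacts [a.sol n c g e', a'.sol n c g (by unfold Bt at *; omega)]

/-- the first part of a segment -/
theorem wk_sub (a : m.Wk ps W t j k) (ii : i ≠ m.inf) (g : m.hug i t) (b : Bt ps t j i k) :
    m.Wk ps W t j i := by
  have br := r.bar_of_bt a.i1 ii a.i2 a.h1 g a.h2 b
  have so := a.sol i ii g b
  have f := fc_self (m := m) i
  refine ⟨fun e => by subst e; unfold Bt at b; omega, a.i1, ii, a.h1, g,
    fun n c g' q => a.sol n c g' (by unfold Bt at *; omega), ?_, ?_⟩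
  · obtain ⟨u, v, w, o, c⟩ := a.p1
    obtain ⟨n, d, o', q, -, -, e⟩ := c.two h r o
    refine ⟨u, v, w, o, c.1, c.2.1, fun n' p => ⟨(c.2.2 n' p).1, ?_⟩⟩
    have := (c.2.2 n o').2
    rcases q n' p with rfl | rfl <;> unfold Bt at b <;> unfold Bw at * <;> omega
  · have c1 := s.wk_land h r a f br ii b
    have c2 := s.wk_land h r a f.symm br ii b
    obtain ⟨n1, d1, o1, q1, -⟩ := c1.two h r ⟨f.has1, f.has3⟩
    obtain ⟨n2, d2, o2, q2, -⟩ := c2.two h r ⟨f.has2, f.has3⟩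
    have e := r.land h f (s.bd2 (s.sol_w h so f).2.1) o1 o2 d1 d2
    rw [br] at e
    by_cases e' : Bw ps t j n1 i
    · refine ⟨_, _, (s.sol_w h so f).2.1, ⟨f.has1, f.has3⟩, c1.1, c1.2.1, fun n p => ⟨(c1.2.2 n p).1, ?_⟩⟩
      rcases q1 n p with rfl | rfl
      exacts [.right _ _ _ _, e']
    · refine ⟨_, _, (s.sol_w h so f).2.2, ⟨f.has2, f.has3⟩, c2.1, c2.2.1, fun n p => ⟨(c2.2.2 n p).1, ?_⟩⟩
      rcases q2 n p with rfl | rfl
      · exact .right _ _ _ _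
      · unfold Bt at b; unfold Bw at *; omega

/-- a segment is continued over a solid landing -/
theorem wk_ext (a : m.Wk ps W t j k) (so : m.Sol W k) (f : m.Fc k x y z) (b : m.Sgm ps t j k x z) :
    ∃ k', m.Wk ps W t j k' ∧ m.Wk ps W t k k' ∧ Bt ps t j k k' ∧ m.On k' y z ∧
      m.Sgm ps t k k' y z := by
  obtain ⟨w0, w1, w2⟩ := s.sol_w h so f
  obtain ⟨-, l1, l2, -⟩ := h.lines f a.i2
  obtain ⟨n, d, o, -, -, -, -⟩ := b.two h r ⟨f.has1, f.has3⟩
  obtain ⟨k', d', o', -⟩ := h.other (j := k) ⟨f.has2, f.has3⟩ (s.ne w2)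
  obtain ⟨c, c'⟩ := s.wk_one h r w2 ⟨f.has2, f.has3⟩ o' d'.symm
  have e := r.land h f (s.bd2 w1) o o' d d'
  have l : m.bar k = t := l1.symm.trans b.2.1
  rw [l2, l] at c c'
  rw [l] at e
  have e1 := (b.2.2 n o).2
  have bt : Bt ps t j k k' := by unfold Bw at e1; unfold Bt; omega
  exact ⟨k', a.trans r c bt so, c, bt, o', c'⟩

/-- the last piece of a segment -/
theorem wk_last (a : m.Wk ps W t j k) (e : m.bar k = t) : ∃ x y, m.Fc k x y (m.X k) ∧
    m.Sgm ps t j k x (m.X k) := by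
  obtain ⟨u, v, w, o, b⟩ := a.p2
  rcases h.piece a.i2 o b.1.1 with ⟨-, l⟩ | ⟨⟨y, f⟩ | ⟨y, f⟩, -⟩
  · exact absurd ((l.symm.trans b.2.1).trans e.symm) (h.stem_ne k a.i2)
  · exact ⟨u, y, f.2 ▸ f, f.2 ▸ b⟩
  · exact ⟨v, y, f.2 ▸ f, f.2 ▸ b.symm h⟩

/-- the longest segment with a property that passes some landings -/
theorem wk_max [Finite J] (w : W u v) (o : m.On j u v) (P : J → Prop)
    (p0 : ∀ k, k ≠ j → m.On k u v → P k) :
    ∃ k, m.Wk ps W (m.ln u v) j k ∧ m.Sgm ps (m.ln u v) j k u v ∧ P k ∧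
      ∀ k', m.Wk ps W (m.ln u v) j k' → Bt ps (m.ln u v) j k k' → ¬ P k' := by
  obtain ⟨k₀, d, o', -⟩ := h.other o (s.ne w)
  obtain ⟨c, c'⟩ := s.wk_one h r w o o' d.symm
  obtain ⟨k, ⟨a, b, p⟩, mx⟩ := Set.exists_max_image
    {k | m.Wk ps W (m.ln u v) j k ∧ m.Sgm ps (m.ln u v) j k u v ∧ P k}
    (fun k => (ps k (m.ln u v) - ps j (m.ln u v)).natAbs) (Set.toFinite _) ⟨k₀, c, c', p0 _ d o'⟩
  refine ⟨k, a, b, p, fun k' a' bt p' => ?_⟩
  have := mx k' ⟨a', b.mono bt.bw, p'⟩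
  unfold Bt at bt
  omega

/-- the walk along a line up to an open face or to the solid end of the line -/
theorem ray [Finite J] (w : W u v) (o : m.On j u v) :
    ∃ e, m.Wk ps W (m.ln u v) j e ∧ m.Sgm ps (m.ln u v) j e u v ∧
      (¬ m.Sol W e ∨ m.stem e = m.ln u v) := by
  obtain ⟨k, a, b, -, mx⟩ := s.wk_max h r w o (fun _ => True) (by simp)
  refine ⟨k, a, b, by_contra fun n => ?_⟩
  obtain ⟨n1, n2⟩ := not_or.1 n
  obtain ⟨x, y, f, c⟩ := s.wk_last h r a (a.h2.resolve_left n2)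
  obtain ⟨k', a', -, bt, -⟩ := s.wk_ext h r a (not_not.1 n1) f c
  exact mx k' a' bt trivial

/-- the walk along the side of a cell up to an open face or to the next corner -/
theorem next [Finite J] (w : W z u) (o : m.On j z u) :
    ∃ k, m.Wk ps W (m.ln z u) j k ∧ m.Sgm ps (m.ln z u) j k z u ∧ m.Tc k z (m.ln z u) ∧
      (¬ m.Sol W k ∨ m.cor k z) := by
  obtain ⟨k, a, b, p, mx⟩ := s.wk_max h r w o (fun k => m.Tc k z (m.ln z u))
    fun k _ o' => ⟨u, s.ne w, o', rfl⟩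
  refine ⟨k, a, b, p, by_contra fun n => ?_⟩
  obtain ⟨n1, n2⟩ := not_or.1 n
  obtain ⟨u', d, o', l⟩ := p
  rcases h.piece a.i2 o' d with ⟨g, -⟩ | ⟨⟨y, f⟩ | ⟨y, f⟩, l'⟩
  · exact n2 g.fc.cor1
  · exact n2 f.cor1
  · obtain ⟨x, y', f', c⟩ := s.wk_last h r a (l'.symm.trans l)
    rw [f.2] at f' c
    obtain ⟨k', a', -, bt, o'', c'⟩ := s.wk_ext h r a (not_not.1 n1) f' c
    exact mx k' a' bt ⟨y', c'.1.1.symm, o''.symm, (h.ln_symm _ _).trans c'.2.1⟩

/-- a cell that touches both ends of a segment carries all its pieces -/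
theorem wk_row (a : m.Wk ps W t j k) (c : ∃ u, m.On j z u ∧ m.Sgm ps t j k z u) (c' : m.Tc k z t)
    (b : m.Sgm ps t j k x y) : x = z ∨ y = z := by
  obtain ⟨u, o, c⟩ := c
  refine s.wk_ind h r a (P := fun x y => x = z ∨ y = z) (fun _ _ => Or.symm) (fun x y o' b => ?_)
    (fun i x y z' f e bt so _ => .inr ?_) b
  · have := s.wk_first h r a (s.wk_w h r a c) o c o' b
    tauto
  · exact f.2.symm.trans (r.flat a.i1 (s.sol_inf h so) a.i2 ⟨u, c.1.1, o, c.2.1⟩ (.inr e) c' bt)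

end HSt

end Map

end Pool.Agent.P.MP_5f84aa_co.G
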