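import Pool.Agent.P.MP_5f84aa_co.G.PD

/-! The parity frame, part H: a footprint with steps along lines, free lines, a static near set. -/

namespace Pool.Agent.P.MP_5f84aa_co.G

variable {V J Sg : Type}

namespace Map

variable (m : Map V J Sg)

/-- a step through a wall or along a run that is not free -/
def Sp (T : Set Sg) (W : V → V → Prop) (x u : V) : Prop :=
  W x u ∨ ∃ y v, W x y ∧ m.ln x y ∉ T ∧ m.Run W x y u v

/-- the cells that are joined to a cell on an attached run by at most `d` steps -/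
def Fe (T : Set Sg) (W : V → V → Prop) : ℕ → V → Prop
  | 0, u => ∃ v, W u v ∧ m.Att W u v
  | d + 1, u => Fe T W d u ∨ ∃ x, Fe T W d x ∧ m.Sp T W x u

/-- the footprint -/
def Fp (d : ℕ) (T : Set Sg) (W Q : V → V → Prop) (u : V) : Prop := m.Fe T W d u ∨ ∃ v, W u v ∧ Q u v

/-- the cost of the walls off the free lines -/
noncomputable def costT (T : Set Sg) (W : V → V → Prop) : ℕ := m.cost fun u v => W u v ∧ m.ln u v ∉ T

/-- a macro: cells `D` of the footprint `P` are removed, pieces `ρ` on free lines or on lines of the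
footprint are opened, `r` lights are used -/
structure Mc [DecidableEq V] (P : V → Prop) (T : Set Sg) (U : Finset V) (W : V → V → Prop)
    (D : Finset V) (ρ : V → V → Prop) (r : ℕ) : Prop where
  ft : ∀ x ∈ D, P x
  ln : ∀ p q, W p q → ρ p q → m.ln p q ∈ T ∨ ∃ u, P u ∧ m.OnL u (m.ln p q)
  st : m.HSt (U \ D) (Del W D ρ)
  cs : m.costT T (Gone W D ρ) ≤ r

/-- a tight state that is confined at the zone with the pieces `Q`, the centre `c` and the condition
of life `al`; `T` are the free lines, `N` is a set that contains the footprint -/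
structure Cn [DecidableEq V] (d : ℕ) (T : Set Sg) (N : V → Prop) (U : Finset V)
    (W Q : V → V → Prop) (al : (V → V → Prop) → Prop) (c : V) (μ : V → ℕ) : Prop where
  st : m.HSt U W
  alive : al W
  conn : ∀ K ⊆ U, Cld W K → K.Nonempty → K = U
  touch : ∀ a b, W a b → m.Att W a b → ∃ u v w, m.Run W a b u v ∧ Q u w ∧ W u w
  nf : ∀ a b, W a b → m.Att W a b → m.ln a b ∉ T
  nq : ∀ a b, Q a b → m.ln a b ∉ T
  rg : ∀ j j', m.far j j' → m.stem j ∉ T
  near : ∀ u, m.Fp d T W Q u → N u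
  one : ∀ u, m.Fp d T W Q u → μ u = 1
  even : Even (∑ u ∈ U, μ u)
  dead : ∀ D ρ r 𝒦, m.Mc (m.Fp d T W Q) T U W D ρ r → Fam (U \ D) (Del W D ρ) μ 𝒦 →
    D.card + 𝒦.card ≤ 2 * r
  live : ∀ D ρ r 𝒦, m.Mc (m.Fp d T W Q) T U W D ρ r → al (Del W D ρ) →
    (D.Nonempty ∨ ∃ u v, W u v ∧ ρ u v) →
    Fam (U \ D) (Del W D ρ) (fun u => μ u + if u = c then 1 else 0) 𝒦 → D.card + 𝒦.card < 2 * r

variable {m} {T : Set Sg} {U D D' : Finset V} {W Q ρ ρ' : V → V → Prop} {d e r : ℕ} {u v x : V}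

theorem Fe.mono (f : m.Fe T W d u) (l : d ≤ e) : m.Fe T W e u := by
  induction l with
  | refl => exact f
  | step _ ih => exact .inl ih

theorem Fe.wall (f : m.Fe T W d u) (w : W u v) : m.Fe T W (d + 1) v := .inr ⟨u, f, .inl w⟩

theorem Fe.run {y : V} (f : m.Fe T W d x) (w : W x y) (n : m.ln x y ∉ T) (r : m.Run W x y u v) :
    m.Fe T W (d + 1) u := .inr ⟨x, f, .inr ⟨y, v, w, n, r⟩⟩

theorem Fd.fe (f : m.Fd W d u) : m.Fe T W d u := by
  induction d generalizing u with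
  | zero => exact f
  | succ d ih => exact f.elim (fun q => .inl (ih q)) fun ⟨_, q, w⟩ => (ih q).wall w

theorem costT_le [Finite V] : m.costT T W ≤ m.cost W := cost_mono fun _ _ a => a.1

theorem del_del [DecidableEq V] :
    Del (Del W D ρ) D' ρ' = Del W (D ∪ D') fun u v => ρ u v ∨ ρ' u v := by
  ext u v
  simp only [Del, Finset.mem_union]
  tauto

namespace HSt

variable (h : m.Ok) (s : m.HSt U W)
include h s

theorem sp_mem (p : m.Sp T W x u) : u ∈ U := by
  rcases p with w | ⟨y, v, w, -, r⟩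
  exacts [s.mem2 w, s.mem _ _ (s.run_w h r w).1]

theorem fe_mem (f : m.Fe T W d u) : u ∈ U := by
  induction d with
  | zero => exact let ⟨_, w, _⟩ := f; s.mem _ _ w
  | succ d ih => exact f.elim ih fun ⟨_, _, w⟩ => s.sp_mem h w

variable [DecidableEq V] [Finite V]

/-- one more step costs one light -/
theorem sp_step (s' : m.HSt (U \ D) (Del W D ρ)) (c : m.cost (Gone W D ρ) ≤ r) (xD : x ∈ D)
    (p : m.Sp T W x u) : ∃ ρ', m.HSt (U \ insert u D) (Del W (insert u D) ρ') ∧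
      m.cost (Gone W (insert u D) ρ') ≤ r + 1 ∧
      ∀ p q, ρ' p q → ρ p q ∨ (m.OnL x (m.ln p q) ∧ m.ln p q ∉ T) := by
  have e : U \ insert u D = (U \ D) \ {u} := by ext; simp; tauto
  have e' : insert u D = D ∪ {u} := by ext; simp
  have op : ∀ j y, W x y → m.On j x y → ¬ m.Sol (Del W D ρ) j := fun j y w o q =>
    (q x y (s.adj _ _ w).1 o).2.1 xD
  rcases p with w | ⟨y, v, w, n, q⟩
  · obtain ⟨-, j, o⟩ := s.adj _ _ w
    refine ⟨fun a b => ρ a b ∨ No a b, ?_, ?_, fun p q a => .inl (a.resolve_right id)⟩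
    · rw [e, e', ← del_del]
      exact s'.del_bdy h (by simpa using ⟨j, o.2, op j u w o⟩)
    · refine (cost_union (W₁ := Gone W D ρ) (W₂ := fun a b => a = u ∨ b = u) fun a b g => ?_).trans
        (Nat.add_le_add c (cost_cell u fun _ _ => id))
      simp only [gone_iff, Finset.mem_insert, No] at g ⊢
      tauto
  · have w' := (s.run_w h q w).1
    refine ⟨fun a b => ρ a b ∨ m.Run W x y a b, ?_, ?_, fun p q a => a.imp_right fun a =>
      (s.run_w h a w).2 ▸ ⟨(s.adj _ _ w).onL, n⟩⟩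
    · rw [e, e', ← del_del]
      refine s'.del h (fun _ _ => Run.swap) (fun a b t => (s.adj _ _ (s.run_w h t w).1).1)
        (fun j j' f t => ?_) fun G o1 _ o3 => ?_
      · rcases (s.run_rung h w' f ((s.run_symm h q w).trans t)).1 with rfl | rfl <;> simp
      · obtain ⟨-, j, o⟩ := s.adj _ _ w
        have all := fun a b => s.run_faces' h (u := a) (v := b) w o3 (.refl _ _ _) o (o1 j (op j y w o))
        obtain ⟨-, i, o'⟩ := s.adj _ _ w'
        exact ⟨by simpa using ⟨i, all u v q i o', o'.1⟩, fun a b j t o => all a b t j o⟩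
    · have c' := s.cost_sgl h w'
      rw [s.run_eq h w q] at c'
      refine (cost_union (W₁ := Gone W D ρ) (W₂ := Gone W {u} (m.Run W x y)) fun a b g => ?_).trans
        (Nat.add_le_add c c')
      simp only [gone_iff, Finset.mem_insert, Finset.mem_singleton] at g ⊢
      tauto

/-- the way from an attached run to a cell -/
theorem fe_path (nf : ∀ a b, W a b → m.Att W a b → m.ln a b ∉ T) (f : m.Fe T W d u) :
    ∃ D ρ, u ∈ D ∧ (∀ v ∈ D, m.Fe T W d v) ∧ m.HSt (U \ D) (Del W D ρ) ∧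
      m.cost (Gone W D ρ) ≤ d + 1 ∧
      ∀ p q, ρ p q → m.ln p q ∉ T ∧ ∃ x, m.Fe T W d x ∧ m.OnL x (m.ln p q) := by
  induction d generalizing u with
  | zero =>
    obtain ⟨y, w, t⟩ := id f
    exact ⟨{u}, _, by simp, by simpa using f, s.del_sgl h w t, s.cost_sgl h w, fun p q r =>
      (s.run_w h r w).2 ▸ ⟨nf u y w t, u, f, (s.adj _ _ w).onL⟩⟩
  | succ d ih =>
    rcases id f with f' | ⟨x, f', p⟩
    · obtain ⟨D, ρ, a1, a2, a3, a4, a5⟩ := ih f'
      exact ⟨D, ρ, a1, fun v q => .inl (a2 v q), a3, by omega, fun p q r =>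
        let ⟨b, x, c, e⟩ := a5 p q r; ⟨b, x, .inl c, e⟩⟩
    · obtain ⟨D, ρ, a1, a2, a3, a4, a5⟩ := ih f'
      obtain ⟨ρ', b1, b2, b3⟩ := s.sp_step h a3 a4 a1 p
      refine ⟨_, ρ', by simp, fun v q => ?_, b1, b2, fun p q r => ?_⟩
      · rcases Finset.mem_insert.1 q with rfl | q
        exacts [f, .inl (a2 v q)]
      · rcases b3 p q r with r | r
        · exact let ⟨b, x, c, e⟩ := a5 p q r; ⟨b, x, .inl c, e⟩
        · exact ⟨r.2, x, .inl f', r.1⟩

end HSt

end Map

namespace ZS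

open Map

/-- a path of at most `d` steps through light cells: neighbours, or cells on a line that is not free -/
def Nq (z : ZS V Sg) (m : Map V J Sg) (x : V) : ℕ → V → Prop
  | 0, u => u = x ∧ z.ω u = 1
  | d + 1, u => Nq z m x d u ∨
      ∃ y, Nq z m x d y ∧ z.ω u = 1 ∧ (m.Adj y u ∨ ∃ t ∉ z.T, m.OnL y t ∧ m.OnL u t)

/-- hubs are heavy, and the zones are far from each other -/
structure Far2 (z : ZS V Sg) (m : Map V J Sg) (d : ℕ) : Prop where
  hub : ∀ v, z.ω v = 1 ∨ 2 * d + 3 ≤ z.ω v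
  far : ∀ c ∈ z.I, ∀ c' ∈ z.I, ∀ p p', z.In c p → z.In c' p' → z.Nq m p (d + 2) p' → c = c'

/-- the static near set of a zone -/
def Nz (z : ZS V Sg) (m : Map V J Sg) (d : ℕ) (c u : V) : Prop := ∃ p, z.In c p ∧ z.Nq m p (d + 1) u

variable {z : ZS V Sg} {m : Map V J Sg} {A U D : Finset V} {W ρ : V → V → Prop}
  {a b c c' u v x y : V} {t : Sg} {d e : ℕ}

theorem Nq.mono (f : z.Nq m x d u) (l : d ≤ e) : z.Nq m x e u := by
  induction l with
  | refl => exact f
  | step _ ih => exact .inl ih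

theorem nq_refl (l : z.ω u = 1) (d : ℕ) : z.Nq m u d u := Nq.mono (d := 0) ⟨rfl, l⟩ d.zero_le

theorem Nq.light (f : z.Nq m x d u) : z.ω u = 1 := by
  induction d with
  | zero => exact f.2
  | succ d ih => exact f.elim ih fun ⟨_, _, l, _⟩ => l

theorem Nq.line (f : z.Nq m x d u) (l : z.ω v = 1) (n : t ∉ z.T) (a : m.OnL u t) (b : m.OnL v t) :
    z.Nq m x (d + 1) v := .inr ⟨u, f, l, .inr ⟨t, n, a, b⟩⟩

theorem Far2.far0 (fa : z.Far2 m d) (o : z.Ok m) : z.Far m 0 := by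
  refine ⟨fun v => (fa.hub v).imp_right (by omega), ?_⟩
  rintro c cI c' cI' p x u p' t t' i i' ⟨rfl, l⟩ n n' a1 a2 a3 a4
  exact fa.far c cI c' cI' p p' i i' ((((nq_refl (o.lt c cI p i) 0).line l n a1 a2).line
    (o.lt c' cI' p' i') n' a3 a4).mono (by omega))

namespace Min

variable [DecidableEq V] [Finite V] [Finite J] (h : m.Ok) (o : z.Ok m) (n : z.Min m A U W)
  (fa : z.Far2 m d)
include h o n fa

/-- the cells near the attached runs are light and near the zone -/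
theorem deep2 (cA : c ∈ A)
    (tc : ∀ a b, W a b → m.Att W a b → ∃ u v x, m.Run W a b u v ∧ z.Q c u x ∧ W u x) (l : e ≤ d)
    (f : m.Fe z.T W e u) : z.Nz m e c u := by
  have s := n.st
  have cI := n.sub c cA
  induction e generalizing u with
  | zero =>
    obtain ⟨v, w, t⟩ := f
    obtain ⟨p, q, x, r, i, -⟩ := tc u v w t
    exact ⟨p, ⟨x, i⟩, (nq_refl (o.lt c cI p ⟨x, i⟩) 0).line (n.light h o (fa.far0 o) w t)
      (n.not_free h o w t) (s.run_onL h w r) (s.adj _ _ w).onL⟩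
  | succ e ih =>
    have ih' := fun u f => ih (u := u) (by omega) f
    rcases id f with f' | ⟨x, f', sp⟩
    · obtain ⟨p, a1, a2⟩ := ih' u f'
      exact ⟨p, a1, .inl a2⟩
    obtain ⟨p, a1, a2⟩ := ih' x f'
    refine ⟨p, a1, .inr ⟨x, a2, (fa.hub u).resolve_right fun hu => ?_, ?_⟩⟩
    swap
    · rcases sp with w | ⟨y, v, w, nt, r⟩
      exacts [.inl (s.adj _ _ w), .inr ⟨_, nt, (s.adj _ _ w).onL, s.run_onL h w r⟩]
    obtain ⟨D, ρ, b1, b2, b3, b4, b5⟩ := s.fe_path h (fun a b => n.not_free h o) f'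
    obtain ⟨ρ', c1, c2, c3⟩ := s.sp_step h b3 b4 b1 sp
    have uD : u ∉ D := fun q => by
      obtain ⟨_, -, r⟩ := ih' u (b2 u q)
      have := r.light
      omega
    have key : ∀ c' ∈ A.erase c, ∀ p q y, z.Q c' p q → m.Fe z.T W e y → ¬ m.OnL y (m.ln p q) :=
      fun c' g p q y i f a => by
        obtain ⟨q1, q2⟩ := Finset.mem_erase.1 g
        obtain ⟨p₀, a1, a2⟩ := ih' y f
        exact q1 (fa.far c cI c' (n.sub _ q2) p₀ p a1 ⟨q, i⟩ ((a2.line (o.lt c' (n.sub _ q2) p ⟨q, i⟩)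
          (o.nf c' (n.sub _ q2) _ _ i) a (o.adj c' (n.sub _ q2) _ _ i).onL).mono (by omega))).symm
    have nin : ∀ c' ∈ A.erase c, ∀ v, z.In c' v → v ∉ insert u D := fun c' q v ⟨v', i⟩ g => by
      have q2 := (Finset.mem_erase.1 q).2
      rcases Finset.mem_insert.1 g with rfl | g
      · have := o.lt c' (n.sub _ q2) v ⟨v', i⟩
        omega
      · exact key c' q v v' v i (b2 v g) (o.adj c' (n.sub _ q2) _ _ i).onL
    have := n.cnt0 h o (r := e + 1 + 1) (A' := A.erase c)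
      (Finset.insert_subset (s.sp_mem h sp) fun v q => s.fe_mem h (b2 v q)) c1 (fun _ _ => Del.w)
      (A.erase_subset c) (fun c' q => (n.al c' (Finset.mem_erase.1 q).2).del o
        (fun u v p _ => ⟨nin c' q u ⟨v, p⟩, nin c' q v ⟨u, o.sym _ _ _ p⟩⟩) fun u v p _ r => by
          rcases c3 u v r with r | r
          · obtain ⟨-, y, f, a⟩ := b5 u v r
            exact key c' q u v y p f a
          · exact key c' q u v x p f' r.1)
      (.inr (.inl (by simp))) (cst_le.trans c2)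
    have e0 := Finset.card_erase_add_one cA
    have e1 : z.wt (insert u D) = z.ω u + z.wt D := Finset.sum_insert uD
    have e2 := card_le_wt o D
    have e3 := Finset.card_pos.2 ⟨x, b1⟩
    omega

/-- a minimal counterexample is confined -/
theorem conf2 (fc : ∀ v, ∃ j, m.has j v) :
    ∃ c ∈ z.I, m.Cn d z.T (z.Nz m d c) U W (z.Q c) (z.al c) c (z.mu (A.erase c)) := by
  obtain ⟨c, cA, tc⟩ := n.one h o (fa.far0 o) fc
  have cI := n.sub c cA
  have s := n.st
  have ft : ∀ u, m.Fp d z.T W (z.Q c) u → u ∈ U ∧ z.Nz m d c u := by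
    rintro u (f | ⟨v, w, p⟩)
    · exact ⟨s.fe_mem h f, n.deep2 h o fa cA tc le_rfl f⟩
    · exact ⟨s.mem _ _ w, u, ⟨v, p⟩, nq_refl (o.lt c cI u ⟨v, p⟩) _⟩
  have lt : ∀ u, m.Fp d z.T W (z.Q c) u → z.ω u = 1 := fun u f =>
    let ⟨_, _, _, r⟩ := ft u f; r.light
  have far : ∀ c' ∈ A, ∀ p' q' u, z.Q c' p' q' → m.Fp d z.T W (z.Q c) u → m.OnL u (m.ln p' q') →
      c = c' := fun c' cA' p' q' u p f l => by
    obtain ⟨-, p₀, i, r⟩ := ft u f
    exact fa.far c cI c' (n.sub _ cA') p₀ p' i ⟨q', p⟩ (r.line (o.lt c' (n.sub _ cA') p' ⟨q', p⟩)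
      (o.nf c' (n.sub _ cA') _ _ p) l (o.adj c' (n.sub _ cA') _ _ p).onL)
  have nin : ∀ c' ∈ A.erase c, ∀ u, z.In c' u → ¬ m.Fp d z.T W (z.Q c) u := fun c' q u ⟨v, p⟩ f =>
    (Finset.mem_erase.1 q).1 (far c' (Finset.mem_erase.1 q).2 u v u p f
      (o.adj c' (n.sub _ (Finset.mem_erase.1 q).2) _ _ p).onL).symm
  have surv : ∀ D ρ r, m.Mc (m.Fp d z.T W (z.Q c)) z.T U W D ρ r → ∀ c' ∈ A.erase c,
      z.Al (Del W D ρ) c' :=
    fun D ρ r M c' q => (n.al c' (Finset.mem_erase.1 q).2).del o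
      (fun u v p _ => ⟨fun d => nin c' q u ⟨v, p⟩ (M.ft u d),
        fun d => nin c' q v ⟨u, o.sym _ _ _ p⟩ (M.ft v d)⟩) fun u v p w r => by
        rcases M.ln u v w r with g | ⟨x, f, l⟩
        · exact o.nf c' (n.sub _ (Finset.mem_erase.1 q).2) u v p g
        · exact (Finset.mem_erase.1 q).1 (far c' (Finset.mem_erase.1 q).2 u v x p f l).symm
  have e0 := Finset.card_erase_add_one cA
  refine ⟨c, cI, s, n.al c cA, fun K a b c => n.conn h o a b c, tc, fun a b => n.not_free h o,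
    o.nf c cI, o.rg, fun u f => (ft u f).2,
    fun u f => mu_one (lt u f) fun q => ?_, ?_, fun D ρ r 𝒦 M F => ?_,
    fun D ρ r 𝒦 M av ne F => ?_⟩
  · have q' := (Finset.mem_erase.1 q).2
    obtain ⟨v, p, -⟩ := o.ctr u (n.sub u q') W (n.al u q')
    exact nin u q u ⟨v, p⟩ f
  · have := n.exact cA
    change Even (z.pw _ U)
    rw [pw_eq, Finset.inter_eq_left.2 ((A.erase_subset c).trans (n.subU o)), Nat.even_iff]
    omega
  · have := n.cnt h o 𝒦 (fun d q => (ft d (M.ft d q)).1) M.st (fun _ _ => Del.w) (A.erase_subset c)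
      (surv D ρ r M) (.inl fun e => by simpa using e.ge cA) M.cs F.odd F.dis
    have := card_le_wt o D
    omega
  · have := n.cnt h o 𝒦 (fun d q => (ft d (M.ft d q)).1) M.st (fun _ _ => Del.w) subset_rfl
      (fun c' q => by
        by_cases e : c' = c
        · exact e ▸ av
        · exact surv D ρ r M c' (Finset.mem_erase.2 ⟨e, q⟩))
      (.inr (ne.imp_right fun ⟨u, v, w, r⟩ => ⟨u, v, w, fun d => d.2.2.2 r⟩)) M.cs
      (fun K q => by
        obtain ⟨a1, a2, a3⟩ := F.odd K q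
        refine ⟨a1, a2, ?_⟩
        rwa [show z.pw A K = _ from Finset.sum_congr rfl fun u _ => show z.mu A u =
          z.mu (A.erase c) u + if u = c then 1 else 0 by by_cases e : u = c <;> simp [mu, e, cA]]) F.dis
    have := card_le_wt o D
    omega

end Min

/-- The parity frame: if no state is confined at a zone, every living zone saves one half. -/
theorem claim_of_loc2 [DecidableEq V] [Finite V] [Finite J] (h : m.Ok) (fc : ∀ v, ∃ j, m.has j v)
    (o : z.Ok m) (fa : z.Far2 m d)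
    (loc : ∀ c ∈ z.I, ∀ U W μ, (∀ v, z.ω v ≠ 1 → μ v ≠ 1) →
      ¬ m.Cn d z.T (z.Nz m d c) U W (z.Q c) (z.al c) c μ)
    (s : m.HSt U W) (sub : ∀ c ∈ A, c ∈ z.I) (al : ∀ c ∈ A, z.Al W c) :
    2 * z.cst m W + A.card ≤ z.wt U :=
  claim (fun _ _ _ n => let ⟨c, cI, q⟩ := n.conf2 h o fa fc; loc c cI _ _ _ (fun v a => by
    have := (fa.hub v).resolve_left a
    simp only [mu]
    omega) q) s sub al

end ZS

end Pool.Agent.P.MP_5f84aa_co.G
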