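import Pool.Agent.P.MP_5f84aa_co.G.LA
import Pool.Agent.P.MP_5f84aa_co.G.PH

/-! Tools for the local lemma, part B: a state confined at a living pair, plans of lights. -/

namespace Pool.Agent.P.MP_5f84aa_co.G

namespace Map

variable {V J Sg : Type} (m : Map V J Sg)

/-- the faces that are reached if the cells `D` are removed and the pieces of `H` may be opened -/
inductive Rc (W : V → V → Prop) (D : Finset V) (H : V → V → Prop) : J → Prop
  | op {j : J} : ¬ m.Sol W j → Rc W D H j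
  | cell {j j' : J} {d : V} : Rc W D H j → d ∈ D → m.has j d → m.has j' d → Rc W D H j'
  | line {j j' : J} {u v : V} : Rc W D H j → W u v → H u v → m.On j u v → m.On j' u v → Rc W D H j'

/-- the pieces that are opened -/
def Opd (W : V → V → Prop) (D : Finset V) (H : V → V → Prop) (u v : V) : Prop :=
  W u v ∧ H u v ∧ ∃ j, m.On j u v ∧ m.Rc W D H j

/-- the pieces on free lines and on the lines of the junctions `M`, except those of `E` -/
def Hgd (T : Set Sg) (M : Finset J) (E : V → V → Prop) (u v : V) : Prop :=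
  (m.ln u v ∈ T ∨ ∃ k ∈ M, m.hug k (m.ln u v)) ∧ ¬ E u v ∧ ¬ E v u

/-- the two pieces of the living pair -/
def Pr (a x y u v : V) : Prop := u = a ∧ (v = x ∨ v = y)

/-- a plan: lights at the junctions `M` and in the cells `F` remove the cells `D` -/
structure Pl (T : Set Sg) (W : V → V → Prop) (M : Finset J) (F D : Finset V) (sh : J → V)
    (E : V → V → Prop) : Prop where
  cor : ∀ k ∈ M, m.cor k (sh k) ∧ ∃ d ∈ D, m.cor k d
  cov : ∀ d ∈ D, d ∈ F ∨ ∃ k ∈ M, m.cor k d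
  shd : ∀ k ∈ M, ∀ j, m.far k j → sh k ∈ D → W (sh k) (m.X j) → m.bar j ∈ T ∨ m.X j ∈ D ∨
    (∃ k' ∈ M, m.hug k' (m.bar j)) ∨ sh k ∈ F ∨ ∃ k' ∈ M, k ≠ k' ∧ m.cor k' (sh k)
  near : ∀ d ∈ D, m.Fe T W 8 d
  rch : ∀ d ∈ D, ∃ j, m.has j d ∧ m.Rc W D (m.Hgd T M E) j

/-- after the removal of `D` and `ρ` every closed set is even -/
structure Neu [DecidableEq V] (U : Finset V) (W : V → V → Prop) (μ : V → ℕ) (D : Finset V)
    (ρ : V → V → Prop) : Prop where
  st : m.HSt (U \ D) (Del W D ρ)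
  sub : D ⊆ U
  one : ∀ d ∈ D, μ d = 1
  ev : ∀ K ⊆ U \ D, Cld (Del W D ρ) K → Even (∑ u ∈ K, μ u)

/-- after the removal of `D` and `ρ` there are no two disjoint odd closed sets -/
structure Df1 [DecidableEq V] (U : Finset V) (W : V → V → Prop) (μ : V → ℕ) (D : Finset V)
    (ρ : V → V → Prop) : Prop where
  st : m.HSt (U \ D) (Del W D ρ)
  ev : ∀ K ⊆ U \ D, ∀ K' ⊆ U \ D, Disjoint K K' → Cld (Del W D ρ) K → Cld (Del W D ρ) K' →
    Odd (∑ u ∈ K, μ u) → Even (∑ u ∈ K', μ u)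

/-- a tight state that is confined at the living pair `x`, `y` of partners of `a` -/
structure Loc [DecidableEq V] (T : Set Sg) (N : V → Prop) (U : Finset V) (W : V → V → Prop)
    (μ : V → ℕ) (a x y : V) : Prop where
  st : m.HSt U W
  wx : W a x
  wy : W a y
  ne : x ≠ y
  gx : ∃ j, m.GE j a x
  gy : ∃ j, m.GE j a y
  conn : ∀ K ⊆ U, Cld W K → K.Nonempty → K = U
  nf : ∀ a b, W a b → m.Att W a b → m.ln a b ∉ T
  rg : ∀ j j', m.far j j' → m.stem j ∉ T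
  fa : m.Fe T W 1 a
  near : ∀ u, m.Fe T W 8 u → N u
  one : ∀ u, m.Fe T W 8 u → μ u = 1
  even : Even (∑ u ∈ U, μ u)
  dead : ∀ D ρ r 𝒦, m.Mc (m.Fe T W 8) T U W D ρ r → Fam (U \ D) (Del W D ρ) μ 𝒦 →
    D.card + 𝒦.card ≤ 2 * r
  live : ∀ D ρ r 𝒦, m.Mc (m.Fe T W 8) T U W D ρ r → Del W D ρ a x → Del W D ρ a y →
    (D.Nonempty ∨ ∃ u v, W u v ∧ ρ u v) →
    Fam (U \ D) (Del W D ρ) (fun u => μ u + if u = a then 1 else 0) 𝒦 → D.card + 𝒦.card < 2 * r

variable {m} {T : Set Sg} {N : V → Prop} {U D D' D₀ F K : Finset V} {W H E ρ ρ' Q : V → V → Prop}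
  {μ : V → ℕ} {M : Finset J} {sh : J → V} {ps : J → Sg → ℤ} {t : Sg} {Z : Set V}
  {a b p q p' q' u v w x y z X X' : V} {i j j' k k' : J}

theorem Cn.loc [DecidableEq V] {al : (V → V → Prop) → Prop} (h : m.Ok)
    (c : m.Cn 8 T N U W Q al a μ) (hQ : ∀ u v, Q u v → u = a ∨ v = a) (wx : W a x) (wy : W a y)
    (ne : x ≠ y) (gx : ∃ j, m.GE j a x) (gy : ∃ j, m.GE j a y)
    (hal : ∀ W', (∀ u v, W' u v → W u v) → W' a x → W' a y → al W') : m.Loc T N U W μ a x y := by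
  have mc : ∀ {D ρ r}, m.Mc (m.Fe T W 8) T U W D ρ r → m.Mc (m.Fp 8 T W Q) T U W D ρ r := fun g =>
    ⟨fun x q => .inl (g.ft x q), fun p q w r => (g.ln p q w r).imp_right fun ⟨u, a, b⟩ => ⟨u, .inl a, b⟩,
      g.st, g.cs⟩
  refine ⟨c.st, wx, wy, ne, gx, gy, c.conn, c.nf, c.rg, ?_, fun u f => c.near u (.inl f),
    fun u f => c.one u (.inl f), c.even, fun D ρ r 𝒦 g => c.dead D ρ r 𝒦 (mc g),
    fun D ρ r 𝒦 g b1 b2 => c.live D ρ r 𝒦 (mc g) (hal _ (fun _ _ => Del.w) b1 b2)⟩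
  obtain ⟨u, v, o⟩ := c.st.exists_out h wx
  obtain ⟨p, q, w, r, e, b⟩ := c.touch u v o.1 o.att
  have f : m.Fe T W 0 p := ⟨q, (c.st.run_w h r o.1).1, c.st.att_of h o.1 o.att r⟩
  rcases hQ p w e with rfl | rfl
  exacts [f.mono (by omega), f.wall b]

theorem Loc.swap [DecidableEq V] (L : m.Loc T N U W μ a x y) : m.Loc T N U W μ a y x :=
  ⟨L.st, L.wy, L.wx, L.ne.symm, L.gy, L.gx, L.conn, L.nf, L.rg, L.fa, L.near, L.one, L.even, L.dead,
    fun D ρ r 𝒦 g b1 b2 => L.live D ρ r 𝒦 g b2 b1⟩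

/-! ### Reached faces -/

theorem Hgd.symm (h : m.Ok) (g : m.Hgd T M E u v) : m.Hgd T M E v u :=
  ⟨h.ln_symm u v ▸ g.1, g.2.2, g.2.1⟩

theorem Hgd.of (c : k ∈ M) (g : m.hug k t) (l : m.ln u v = t) (e : ¬ E u v) (e' : ¬ E v u) :
    m.Hgd T M E u v := ⟨.inr ⟨k, c, l ▸ g⟩, e, e'⟩

theorem Hgd.no (c : k ∈ M) (g : m.hug k t) (l : m.ln u v = t) : m.Hgd T M No u v := .of c g l id id

theorem Rc.bdy (b : m.Bdy W u) : ∃ j, m.has j u ∧ m.Rc W D H j := let ⟨j, a, o⟩ := b; ⟨j, a, .op o⟩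

/-- every face of a removed ring cell is reached -/
theorem Rc.of_bdy (b : m.Bdy W u) (c : u ∈ D) (a : m.has j u) : m.Rc W D H j :=
  let ⟨_, e, o⟩ := b; (Rc.op o).cell c e a

theorem Rc.piece (g : m.Rc W D H j) (w : W u v) (c : H u v ∨ u ∈ D ∨ v ∈ D) (o : m.On j u v)
    (o' : m.On j' u v) : m.Rc W D H j' := by
  rcases c with c | c | c
  exacts [g.line w c o o', g.cell c o.1 o'.1, g.cell c o.2 o'.2]

namespace HSt

variable (h : m.Ok) (s : m.HSt U W)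
include h s

/-- the faces of a segment are reached from its first face -/
theorem rc_wk (r : m.Ord ps) (a : m.Wk ps W t j k) (g : m.Rc W D H j)
    (c : ∀ u v, m.Sgm ps t j k u v → H u v ∨ u ∈ D ∨ v ∈ D) (b : m.Sgm ps t j k u v) :
    ∀ i, m.On i u v → m.Rc W D H i :=
  s.wk_ind h r a (P := fun u v => ∀ i, m.On i u v → m.Rc W D H i) (fun _ _ p i o => p i o.symm)
    (fun u v o b _ o' => g.piece (s.wk_w h r a b) (c u v b) o o')
    (fun i _ _ _ f e bt so p _ o => (p i ⟨f.has1, f.has3⟩).piece (s.sol_w h so f).2.2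
      (c _ _ (s.wk_land h r a f.symm e (s.sol_inf h so) bt)) ⟨f.has2, f.has3⟩ o) b

theorem rc_end (r : m.Ord ps) (a : m.Wk ps W t j k) (g : m.Rc W D H j)
    (c : ∀ u v, m.Sgm ps t j k u v → H u v ∨ u ∈ D ∨ v ∈ D) : m.Rc W D H k :=
  let ⟨_, _, _, o, b⟩ := a.p2; s.rc_wk h r a g c b k o

/-- the pieces of a segment disappear -/
theorem op_wk (r : m.Ord ps) (a : m.Wk ps W t j k) (g : m.Rc W D H j)
    (c : ∀ u v, m.Sgm ps t j k u v → H u v ∨ u ∈ D ∨ v ∈ D) (b : m.Sgm ps t j k u v) :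
    u ∈ D ∨ v ∈ D ∨ m.Opd W D H u v := by
  obtain ⟨-, i, o⟩ := b.1
  rcases c u v b with e | e | e
  exacts [.inr (.inr ⟨s.wk_w h r a b, e, i, o, s.rc_wk h r a g c b i o⟩), .inl e, .inr (.inl e)]

/-- the faces of a run are reached from one of them -/
theorem rc_run (w : W a b) (o : m.On j a b) (g : m.Rc W D H j)
    (c : ∀ u v, m.Run W a b u v → H u v ∨ u ∈ D ∨ v ∈ D) (r : m.Run W a b u v) :
    ∀ i, m.On i u v → m.Rc W D H i :=
  s.run_faces' h (G := {i | m.Rc W D H i}) w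
    (fun u v _ _ r o o' g => Rc.piece g (s.run_w h r w).1 (c u v r) o o') (.refl _ _ _) o g r

/-- a segment that starts with a piece off `E` and whose pieces of `E` are last pieces of the line:
all faces but these ends are reached -/
theorem rc_live (r : m.Ord ps) (a : m.Wk ps W t j k) (g : m.Rc W D (m.Hgd T M E) j) (c : k' ∈ M)
    (g' : m.hug k' t) (e : ∀ u v, E u v → ∃ n, m.GE n u v)
    (e0 : ∀ u v, m.On j u v → m.Sgm ps t j k u v → ¬ E u v) (ii : i ≠ m.inf) (gi : m.hug i t)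
    (b : Bw ps t j i k) (br : m.bar i = t) : m.Rc W D (m.Hgd T M E) i := by
  by_cases e1 : i = j
  · exact e1 ▸ g
  have a' : m.Wk ps W t j i := by
    by_cases e2 : i = k
    exacts [e2 ▸ a, s.wk_sub h r a ii gi (r.bt_of a.i1 ii a.i2 a.h1 gi a.h2 b e1 e2)]
  have key : ∀ u v, m.Sgm ps t j i u v → ¬ E u v := fun u v q z => by
    obtain ⟨n, f⟩ := e u v z
    have ni := (q.2.2 n f.fc.on).1
    have l := (h.lines f ni).1.symm.trans q.2.1
    by_cases c1 : n = j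
    · exact e0 u v (c1 ▸ f.fc.on) (q.mono b) z
    by_cases c2 : n = i
    · exact h.stem_ne i ii ((c2 ▸ l).trans br.symm)
    exact h.stem_ne n ni (l.trans (r.bar_of_bt a'.i1 ni ii a'.h1 (.inl l) gi
      (r.bt_of a'.i1 ni ii a'.h1 (.inl l) gi (q.2.2 n f.fc.on).2 c1 c2)).symm)
  exact s.rc_end h r a' g fun u v q => .inl (.of c g' q.2.1 (key u v q) (key v u (q.symm h)))

variable [DecidableEq V]

/-- the state after a plan -/
theorem del_op (sH : ∀ u v, H u v → H v u)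
    (rr : ∀ j j', m.far j j' → H (m.L j) (m.R j) → m.L j ∈ D ∨ m.R j ∈ D)
    (rc : ∀ d ∈ D, ∃ j, m.has j d ∧ m.Rc W D H j) : m.HSt (U \ D) (Del W D (m.Opd W D H)) := by
  refine s.del h (fun u v ⟨w, c, j, o, g⟩ => ⟨s.sym _ _ w, sH _ _ c, j, o.symm, g⟩)
    (fun u v o => s.ne o.1) (fun j j' f o => rr j j' f o.2.1) fun G o1 o2 o3 => ?_
  have key : ∀ j, m.Rc W D H j → j ∈ G := fun j g => by
    induction g with
    | op c => exact o1 _ c
    | cell _ c e e' ih => exact o2 _ c _ _ e e' ih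
    | line g w c o o' ih => exact o3 _ _ _ _ ⟨w, c, _, o, g⟩ o o' ih
  exact ⟨fun d c => let ⟨j, e, g⟩ := rc d c; ⟨j, key j g, e⟩,
    fun u v j ⟨w, c, i, o, g⟩ o' => key j (g.line w c o o')⟩

/-- a plan is a macro -/
theorem mc [Finite V] (rg : ∀ j j', m.far j j' → m.stem j ∉ T) (pl : m.Pl T W M F D sh E) :
    m.Mc (m.Fe T W 8) T U W D (m.Opd W D (m.Hgd T M E)) (M.card + F.card) := by
  have ki : ∀ k ∈ M, k ≠ m.inf := fun k c =>
    let ⟨d, e, f⟩ := (pl.cor k c).2; (s.bd d (s.fe_mem h (pl.near d e))).ne_inf f.has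
  refine ⟨pl.near, fun p q _ o => o.2.1.1.imp_right fun g => ?_,
    s.del_op h (fun _ _ => Hgd.symm h) (fun j j' f g => ?_) pl.rch, ?_⟩
  · obtain ⟨k, c, g⟩ := g
    obtain ⟨d, e, f⟩ := (pl.cor k c).2
    obtain ⟨u, n, o, l⟩ := h.tc_cor (ki k c) f g
    exact ⟨d, pl.near d e, u, o.adj n, l⟩
  · rw [Hgd, h.lnLR j f.2.1] at g
    rcases g.1 with g | ⟨k, c, g | g⟩
    · exact absurd g (rg j j' f)
    · obtain ⟨d, e, q⟩ := (pl.cor k c).2
      obtain ⟨c1, c2⟩ := h.rung j j' f _ _ (h.adj12 (fc_self k)) ((h.lnLR k (ki k c)).trans g)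
      rcases q with rfl | rfl
      · rcases c1 with q | q
        exacts [.inl (q ▸ e), .inr (q ▸ e)]
      · rcases c2 with q | q
        exacts [.inl (q ▸ e), .inr (q ▸ e)]
    · exact absurd g.symm (h.far_not_bar f (ki k c))
  · have key : ∀ u v, W u v → m.ln u v ∉ T → u ∈ D → m.Lit M F sh u v := fun u v w n c => by
      rcases pl.cov u c with e | ⟨k, e, f⟩
      · exact lit_sing e
      by_cases g : ∃ j, m.far k j ∧ sh k = u ∧ m.X j = v
      swap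
      · exact lit_cor e f fun j a b c => g ⟨j, a, b, c⟩
      obtain ⟨j, g, rfl, rfl⟩ := g
      have l : m.ln (sh k) (m.X j) = m.bar j := by
        rcases (g.2.2.2 _).1 f with q | q
        exacts [q ▸ h.lnLX j g.2.2.1, q ▸ h.lnRX j g.2.2.1]
      rcases pl.shd k e j g c w with q | q | ⟨k', q, q'⟩ | q | ⟨k', q, q1, q2⟩
      · exact absurd (l ▸ q) n
      · rcases pl.cov _ q with q | q
        exacts [(lit_sing q).symm, .inr (.inr ⟨⟨k, e, f⟩, q⟩)]
      · exact lit_hug q (l ▸ q')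
      · exact lit_sing q
      · exact .inl (.inr (.inr (.inr ⟨k, e, k', q, q1, f, q2⟩)))
    refine Lts.cost_le (sh := sh) ⟨fun c => ki _ c rfl, fun k c => (pl.cor k c).1, ?_⟩
    rintro u v ⟨g, n⟩
    obtain ⟨w, g | g | g⟩ := gone_iff.1 g
    · exact key u v w n g
    · exact (key v u (s.sym _ _ w) (h.ln_symm u v ▸ n) g).symm
    · obtain ⟨k, c, g⟩ := g.2.1.1.resolve_left n
      exact lit_hug c g

end HSt

/-! ### Standard plans -/

/-- one light at `k` removes both corners; the shadow is in `p` -/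
theorem Pl.one [DecidableEq V] (f : m.Fc k p q X) (np : m.Fe T W 8 p) (nq : m.Fe T W 8 q)
    (sf : ∀ j, m.far k j → W p (m.X j) → m.bar j ∈ T) (rc : m.Rc W {p, q} (m.Hgd T {k} E) k) :
    m.Pl T W {k} ∅ {p, q} (fun _ => p) E :=
  ⟨by simpa using ⟨f.cor1, .inl f.cor1⟩, by simpa using ⟨f.cor1, f.cor2⟩,
    by simpa using fun j a w => .inl (sf j a w), by simpa using ⟨np, nq⟩,
    by simpa using ⟨⟨k, f.has1, rc⟩, k, f.has2, rc⟩⟩

/-- one light at `k` removes only the corner `q` -/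
theorem Pl.half (h : m.Ok) (f : m.Fc k p q X) (nq : m.Fe T W 8 q)
    (rc : m.Rc W {q} (m.Hgd T {k} E) k) : m.Pl T W {k} ∅ {q} (fun _ => p) E :=
  ⟨by simpa using ⟨f.cor1, f.cor2⟩, by simpa using f.cor2,
    by simpa using fun _ _ e => absurd e (h.fc_ne f).1, by simpa using nq,
    by simpa using ⟨k, f.has2, rc⟩⟩

/-- one light in the ring cell `q` -/
theorem Pl.sing (nq : m.Fe T W 8 q) (b : m.Bdy W q) : m.Pl T W ∅ {q} {q} (fun _ => q) E :=
  ⟨by simp, by simp, by simp, by simpa using nq, by simpa using Rc.bdy b⟩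

/-- two lights remove four cells; the shadows are in `p` and `p'` -/
theorem Pl.two [DecidableEq V] [DecidableEq J] (f : m.Fc k p q X) (f' : m.Fc k' p' q' X') (d : k ≠ k')
    (np : m.Fe T W 8 p) (nq : m.Fe T W 8 q) (np' : m.Fe T W 8 p') (nq' : m.Fe T W 8 q')
    (sf : ∀ j, m.far k j → W p (m.X j) → m.bar j ∈ T ∨ m.X j = p' ∨ m.X j = q' ∨ m.hug k' (m.bar j) ∨
      p = p' ∨ p = q')
    (sf' : ∀ j, m.far k' j → W p' (m.X j) → m.bar j ∈ T ∨ m.X j = p ∨ m.X j = q ∨ m.hug k (m.bar j) ∨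
      p' = p ∨ p' = q)
    (rc : m.Rc W {p, q, p', q'} (m.Hgd T {k, k'} E) k) (rc' : m.Rc W {p, q, p', q'} (m.Hgd T {k, k'} E) k') :
    m.Pl T W {k, k'} ∅ {p, q, p', q'} (fun j => if j = k then p else p') E := by
  have c1 := f.cor1; have c2 := f.cor2; have c3 := f'.cor1; have c4 := f'.cor2
  have := d.symm
  refine ⟨by simp [*], by simp [*], fun i c j a _ => ?_, by simp [*],
    by simpa using ⟨⟨k, f.has1, rc⟩, ⟨k, f.has2, rc⟩, ⟨k', f'.has1, rc'⟩, k', f'.has2, rc'⟩⟩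
  rcases (by simpa using c : i = k ∨ i = k') with rfl | rfl
  · simp only [if_true]
    intro w
    rcases sf j a w with e | e | e | e | e | e <;> simp [*]
  · simp only [if_neg this]
    intro w
    rcases sf' j a w with e | e | e | e | e | e <;> simp [*]

/-- a light at `k` removes both corners, a light in `w` removes `w` -/
theorem Pl.oneS [DecidableEq V] (f : m.Fc k p q X) (np : m.Fe T W 8 p) (nq : m.Fe T W 8 q)
    (nw : m.Fe T W 8 w) (sf : ∀ j, m.far k j → W p (m.X j) → m.bar j ∈ T ∨ m.X j = w)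
    (rc : m.Rc W {p, q, w} (m.Hgd T {k} E) k)
    (rc' : ∃ j, m.has j w ∧ m.Rc W {p, q, w} (m.Hgd T {k} E) j) :
    m.Pl T W {k} {w} {p, q, w} (fun _ => p) E :=
  ⟨by simpa using ⟨f.cor1, .inl f.cor1⟩, by simp [f.cor1, f.cor2],
    by simpa using fun j a w => (sf j a w).imp_right fun e => .inl (.inr (.inr e)),
    by simpa using ⟨np, nq, nw⟩, by simpa using ⟨⟨k, f.has1, rc⟩, ⟨k, f.has2, rc⟩, rc'⟩⟩

theorem card_four [DecidableEq V] (a1 : p ≠ q) (a2 : p ≠ p') (a3 : p ≠ q') (a4 : q ≠ p') (a5 : q ≠ q')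
    (a6 : p' ≠ q') : ({p, q, p', q'} : Finset V).card = 4 := by
  rw [Finset.card_insert_of_notMem (by simp [*]), Finset.card_insert_of_notMem (by simp [*]),
    Finset.card_pair a6]

/-! ### Closed sets -/

section Cl

variable [DecidableEq V]

/-- a cell without walls -/
theorem Neu.frees (n : m.Neu U W μ D ρ) (vU : v ∈ U) (vD : v ∉ D) (e : μ v = 1)
    (c : ∀ w, W v w → w ∈ D ∨ ρ v w) : False := by
  have := n.ev {v} (by simp [vU, vD]) fun u w d a => by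
    obtain rfl : u = v := by simpa using a
    exact ((c w d.1).elim d.2.2.1 d.2.2.2).elim
  simp [e] at this

open Classical in
/-- one side of a cut -/
theorem cld_side (st : m.HSt (U \ D) (Del W D ρ)) (sub : D₀ ⊆ D)
    (c : ∀ u v, Del W D₀ No u v → (ρ' u v ↔ ¬ (u ∈ Z ↔ v ∈ Z)))
    (o : ∀ u v, W u v → ρ' u v → u ∈ D ∨ v ∈ D ∨ ρ u v) :
    Cld (Del W D ρ) ((U \ D).filter (· ∈ Z)) := fun u v w a =>
  Finset.mem_filter.2 ⟨st.mem2 w, by
    have := c u v ⟨w.1, fun e => w.2.1 (sub e), fun e => w.2.2.1 (sub e), id⟩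
    have := o u v w.1
    have := (Finset.mem_filter.1 a).2
    have := w.2
    tauto⟩

open Classical in
theorem Neu.side (n : m.Neu U W μ D ρ) (sub : D₀ ⊆ D)
    (c : ∀ u v, Del W D₀ No u v → (ρ' u v ↔ ¬ (u ∈ Z ↔ v ∈ Z)))
    (o : ∀ u v, W u v → ρ' u v → u ∈ D ∨ v ∈ D ∨ ρ u v) :
    Even (∑ u ∈ U.filter (· ∈ Z), μ u + (D.filter (· ∈ Z)).card) := by
  have e1 := n.ev _ (Finset.filter_subset _ _) (cld_side n.st sub c o)
  have e2 : ∑ u ∈ (U \ D).filter (· ∈ Z), μ u + ∑ u ∈ D.filter (· ∈ Z), μ u =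
      ∑ u ∈ U.filter (· ∈ Z), μ u := by
    rw [← Finset.sum_sdiff (Finset.filter_subset_filter (· ∈ Z) n.sub)]
    congr 2
    ext u
    simp only [Finset.mem_filter, Finset.mem_sdiff]
    tauto
  rw [Finset.sum_congr rfl fun u a => n.one u (Finset.mem_filter.1 a).1] at e2
  simp only [Finset.sum_const, smul_eq_mul, mul_one] at e2
  rw [Nat.even_iff] at *
  omega

open Classical in
/-- two neutral macros that open the same cut remove the same number of cells of a side mod 2 -/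
theorem Neu.switch {ρ₁ ρ₂ : V → V → Prop} {D₁ D₂ : Finset V} (n₁ : m.Neu U W μ D₁ ρ₁)
    (n₂ : m.Neu U W μ D₂ ρ₂) (s₁ : D₀ ⊆ D₁) (s₂ : D₀ ⊆ D₂)
    (c : ∀ u v, Del W D₀ No u v → (ρ' u v ↔ ¬ (u ∈ Z ↔ v ∈ Z)))
    (o₁ : ∀ u v, W u v → ρ' u v → u ∈ D₁ ∨ v ∈ D₁ ∨ ρ₁ u v)
    (o₂ : ∀ u v, W u v → ρ' u v → u ∈ D₂ ∨ v ∈ D₂ ∨ ρ₂ u v) :
    Even ((D₁.filter (· ∈ Z)).card + (D₂.filter (· ∈ Z)).card) := by
  have := n₁.side s₁ c o₁
  have := n₂.side s₂ c o₂
  rw [Nat.even_iff] at *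
  omega

/-- the switch: the two macros differ in one cell, so these cells lie on the same side -/
theorem Neu.switch1 {ρ₁ ρ₂ : V → V → Prop} {D₁ D₂ : Finset V} (n₁ : m.Neu U W μ D₁ ρ₁)
    (n₂ : m.Neu U W μ D₂ ρ₂) (s : D₀ ⊆ D) (pD : p ∉ D) (pD' : p' ∉ D)
    (e₁ : ∀ u, u ∈ D₁ ↔ u = p ∨ u ∈ D) (e₂ : ∀ u, u ∈ D₂ ↔ u = p' ∨ u ∈ D)
    (c : ∀ u v, Del W D₀ No u v → (ρ' u v ↔ ¬ (u ∈ Z ↔ v ∈ Z)))
    (o₁ : ∀ u v, W u v → ρ' u v → u ∈ D₁ ∨ v ∈ D₁ ∨ ρ₁ u v)
    (o₂ : ∀ u v, W u v → ρ' u v → u ∈ D₂ ∨ v ∈ D₂ ∨ ρ₂ u v) : p ∈ Z ↔ p' ∈ Z := by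
  classical
  obtain rfl : D₁ = insert p D := by ext; simp [e₁]
  obtain rfl : D₂ = insert p' D := by ext; simp [e₂]
  have := n₁.switch n₂ (s.trans (Finset.subset_insert _ _)) (s.trans (Finset.subset_insert _ _)) c o₁ o₂
  rw [Finset.filter_insert, Finset.filter_insert, Nat.even_iff] at this
  have a1 := Finset.card_insert_of_notMem (s := D.filter (· ∈ Z)) (a := p) (by simp [pD])
  have a2 := Finset.card_insert_of_notMem (s := D.filter (· ∈ Z)) (a := p') (by simp [pD'])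
  by_cases b1 : p ∈ Z <;> by_cases b2 : p' ∈ Z <;> simp only [b1, b2, if_true, if_false] at this ⊢ <;>
    (try convert rfl) <;> (try simp only [iff_false, false_iff, not_true]) <;> omega

end Cl

namespace Loc

variable [DecidableEq V] (L : m.Loc T N U W μ a x y) (h : m.Ok)
include L

theorem na : m.Fe T W 8 a := L.fa.mono (by omega)
theorem n1 (w : W a u) : m.Fe T W 8 u := (L.fa.wall w).mono (by omega)
theorem n2 (w : W a u) (w' : W u v) : m.Fe T W 8 v := ((L.fa.wall w).wall w').mono (by omega)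
theorem n3 (w : W a u) (w' : W u v) (w'' : W v z) : m.Fe T W 8 z :=
  (((L.fa.wall w).wall w').wall w'').mono (by omega)
omit L [DecidableEq V] in
theorem f0 (w : W u v) (t : m.Att W u v) : m.Fe T W 0 u := ⟨v, w, t⟩

include h

theorem b0 (b : m.Bdy W u) (w : W u v) : m.Fe T W 0 u := let ⟨_, o⟩ := L.st.bdy_out h b w; ⟨_, o.1, o.att⟩
theorem b1 (b : m.Bdy W u) (w : W u v) : m.Fe T W 8 u := (L.b0 h b w).mono (by omega)
theorem b2 (b : m.Bdy W u) (w : W u v) : m.Fe T W 8 v := ((L.b0 h b w).wall w).mono (by omega)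
theorem b3 (b : m.Bdy W u) (w : W u v) (w' : W v z) : m.Fe T W 8 z :=
  (((L.b0 h b w).wall w).wall w').mono (by omega)
theorem b4 {z' : V} (b : m.Bdy W u) (w : W u v) (w' : W v z) (w'' : W z z') : m.Fe T W 8 z' :=
  ((((L.b0 h b w).wall w).wall w').wall w'').mono (by omega)

variable [Finite V]

/-- a neutral plan leaves only even closed sets -/
theorem neu (pl : m.Pl T W M F D sh E) (c : 2 * (M.card + F.card) ≤ D.card) :
    m.Neu U W μ D (m.Opd W D (m.Hgd T M E)) := by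
  have g := L.st.mc h L.rg pl
  refine ⟨g.st, fun d e => L.st.fe_mem h (pl.near d e), fun d e => L.one d (pl.near d e),
    fun K a b => Nat.not_odd_iff_even.1 fun o => ?_⟩
  have := L.dead _ _ _ {K} g ⟨by simpa using ⟨a, b, o⟩, by simp⟩
  rw [Finset.card_singleton] at this
  omega

/-- a plan that loses one half leaves no two odd closed sets -/
theorem df1 (pl : m.Pl T W M F D sh E) (c : 2 * (M.card + F.card) ≤ D.card + 1) :
    m.Df1 U W μ D (m.Opd W D (m.Hgd T M E)) := by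
  have g := L.st.mc h L.rg pl
  refine ⟨g.st, fun K a K' a' d b b' o => Nat.not_odd_iff_even.1 fun o' => ?_⟩
  have ne : K ≠ K' := by
    rintro rfl
    rw [Finset.disjoint_self_iff_empty] at d
    simp [d] at o
  have := L.dead _ _ _ {K, K'} g ⟨by simpa using ⟨⟨a, b, o⟩, a', b', o'⟩, by
    simpa [ne, ne.symm] using ⟨d, d.symm⟩⟩
  rw [Finset.card_pair ne] at this
  omega

/-- (F1) a neutral plan does not spare the living pair -/
theorem f1 (pl : m.Pl T W M F D sh (Pr a x y)) (c : 2 * (M.card + F.card) ≤ D.card)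
    (ne : D.Nonempty) (aD : a ∉ D) (xD : x ∉ D) (yD : y ∉ D) : False := by
  have := L.live _ _ _ ∅ (L.st.mc h L.rg pl) ⟨L.wx, aD, xD, fun o => o.2.1.2.1 ⟨rfl, .inl rfl⟩⟩
    ⟨L.wy, aD, yD, fun o => o.2.1.2.1 ⟨rfl, .inr rfl⟩⟩ (.inl ne) ⟨by simp, by simp⟩
  rw [Finset.card_empty] at this
  omega

/-- (F2) after a plan that loses one half and spares the living pair, the closed sets without `a` are
even and those with `a` are odd -/
theorem f2 (pl : m.Pl T W M F D sh (Pr a x y)) (c : 2 * (M.card + F.card) ≤ D.card + 1)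
    (ne : D.Nonempty) (aD : a ∉ D) (xD : x ∉ D) (yD : y ∉ D) (a1 : K ⊆ U \ D)
    (a2 : Cld (Del W D (m.Opd W D (m.Hgd T M (Pr a x y)))) K) : Odd (∑ u ∈ K, μ u) ↔ a ∈ K := by
  have e : ¬ Odd (∑ u ∈ K, (μ u + if u = a then 1 else 0)) := fun o => by
    have := L.live _ _ _ {K} (L.st.mc h L.rg pl) ⟨L.wx, aD, xD, fun o => o.2.1.2.1 ⟨rfl, .inl rfl⟩⟩
      ⟨L.wy, aD, yD, fun o => o.2.1.2.1 ⟨rfl, .inr rfl⟩⟩ (.inl ne) ⟨by simpa using ⟨a1, a2, o⟩, by simp⟩
    rw [Finset.card_singleton] at this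
    omega
  rw [Finset.sum_add_distrib, Finset.sum_ite_eq'] at e
  by_cases q : a ∈ K <;> simp only [q, if_true, if_false, Nat.odd_iff] at e ⊢ <;>
    (try simp only [iff_true, iff_false]) <;> omega

/-- one neutral light -/
theorem neu1 (f : m.Fc k p q X) (np : m.Fe T W 8 p) (nq : m.Fe T W 8 q)
    (sf : ∀ j, m.far k j → ¬ W p (m.X j)) (rc : m.Rc W {p, q} (m.Hgd T {k} No) k) :
    m.Neu U W μ {p, q} (m.Opd W {p, q} (m.Hgd T {k} No)) :=
  L.neu h (.one f np nq (fun j a w => absurd w (sf j a)) rc) (by simp [Finset.card_pair (h.fc_ne f).1])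

/-- two neutral lights -/
theorem neu2 [DecidableEq J] (f : m.Fc k p q X) (f' : m.Fc k' p' q' X') (d1 : p ≠ p') (d2 : p ≠ q')
    (d3 : q ≠ p') (d4 : q ≠ q')
    (np : m.Fe T W 8 p) (nq : m.Fe T W 8 q) (np' : m.Fe T W 8 p') (nq' : m.Fe T W 8 q')
    (sf : ∀ j, m.far k j → W p (m.X j) → m.bar j ∈ T ∨ m.X j = p' ∨ m.X j = q' ∨ m.hug k' (m.bar j))
    (sf' : ∀ j, m.far k' j → W p' (m.X j) → m.bar j ∈ T ∨ m.X j = p ∨ m.X j = q ∨ m.hug k (m.bar j))
    (rc : m.Rc W {p, q, p', q'} (m.Hgd T {k, k'} No) k)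
    (rc' : m.Rc W {p, q, p', q'} (m.Hgd T {k, k'} No) k') :
    m.Neu U W μ {p, q, p', q'} (m.Opd W {p, q, p', q'} (m.Hgd T {k, k'} No)) := by
  have d : k ≠ k' := by
    rintro rfl
    rcases f'.cor_iff.1 f.cor1 with e | e
    exacts [d1 e, d2 e]
  refine L.neu h (.two f f' d np nq np' nq' (fun j a w => by have := sf j a w; tauto)
    (fun j a w => by have := sf' j a w; tauto) rc rc') ?_
  rw [card_four (h.fc_ne f).1 d1 d2 d3 d4 (h.fc_ne f').1, Finset.card_pair d]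
  simp

/-- (F1) for one light -/
theorem f1one (f : m.Fc k p q X) (np : m.Fe T W 8 p) (nq : m.Fe T W 8 q)
    (sf : ∀ j, m.far k j → ¬ W p (m.X j)) (rc : m.Rc W {p, q} (m.Hgd T {k} (Pr a x y)) k) :
    (p = a ∨ p = x ∨ p = y) ∨ q = a ∨ q = x ∨ q = y := by
  by_contra n
  simp only [not_or] at n
  exact L.f1 h (.one f np nq (fun j a w => absurd w (sf j a)) rc)
    (by simp [Finset.card_pair (h.fc_ne f).1]) (by simp) (by simp [Ne.symm n.1.1, Ne.symm n.2.1])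
    (by simp [Ne.symm n.1.2.1, Ne.symm n.2.2.1]) (by simp [Ne.symm n.1.2.2, Ne.symm n.2.2.2])

end Loc

end Map

end Pool.Agent.P.MP_5f84aa_co.G
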