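import Pool.Agent.P.MP_5f84aa_co.G.LZ

/-! The centre without rungs: no segment of walls is a cut, no cell is a cut vertex. -/

namespace Pool.Agent.P.MP_5f84aa_co.G

namespace Map

variable {V J Sg : Type} {m : Map V J Sg} {ps : J → Sg → ℤ} {t : Sg} {T : Set Sg} {C C' : Ctx V Sg}
  {W : V → V → Prop} {U : Finset V} {Z : Set V} {a b c p q u v w x y z e : V} {i j k k' : J}

theorem wB_outc [DecidableEq V] {μ : V → ℕ} (n : x ∈ Z) : wB μ (U.erase x) Zᶜ = wB μ U Zᶜ :=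
  wB_out fun q => q n

/-- a cell with one solid arc has at most two outer walls -/
theorem HSt.out3 (h : m.Ok) (s : m.HSt U W) (se : m.Sect W v) (o1 : m.Out W v a) (o2 : m.Out W v b)
    (o3 : m.Out W v c) : a = b ∨ a = c ∨ b = c := by
  obtain ⟨wa, i, oi, op⟩ := o1
  obtain ⟨i', d, oi', -⟩ := h.other oi (s.ne wa)
  let R : V × J → V × J → Prop := fun p q => m.Sol W p.2 ∧ m.On p.2 v p.1 ∧ p.1 ≠ v ∧
    m.has p.2 q.1 ∧ q.1 ≠ v ∧ q.1 ≠ p.1 ∧ m.On q.2 v q.1 ∧ q.2 ≠ p.2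
  have ru : Relator.RightUnique R := by
    rintro ⟨p, j⟩ ⟨q, k⟩ ⟨q', k'⟩ ⟨-, a1, a2, a3, a4, a5, a6, a7⟩ ⟨-, -, -, b3, b4, b5, b6, b7⟩
    obtain rfl : q' = q := by
      have := (h.tri_has (w := q') ⟨a1.1, a1.2, a3⟩ a2.symm a4.symm a5.symm).1 b3
      tauto
    rcases h.two_faces a4.symm ⟨a1.1, a3⟩ a6 b6 a7.symm with e | e
    exacts [absurd e b7, Prod.ext rfl e.symm]
  have on : ∀ q, Relation.ReflTransGen R (a, i') q → m.On q.2 v q.1 := fun q r => by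
    rcases r.cases_tail with rfl | ⟨p, -, e⟩
    exacts [oi', e.2.2.2.2.2.2.1]
  have all : ∀ w, W v w → ∃ j, Relation.ReflTransGen R (a, i') (w, j) := fun w ww =>
    se (fun w => ∃ j, Relation.ReflTransGen R (a, i') (w, j)) (by
      rintro n u w so t d1 d2 d3 ⟨j, r⟩
      by_cases e : n = j
      · subst e
        obtain ⟨k, e, o, -⟩ := h.other (j := n) ⟨t.1, t.2.2⟩ d2.symm
        exact ⟨k, r.tail ⟨so, ⟨t.1, t.2.1⟩, d1, t.2.2, d2, d3.symm, o, e⟩⟩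
      rcases r.cases_tail with e' | ⟨⟨p, k⟩, r', -, a1, a2, a3, -, a5, a6, a7⟩
      · obtain ⟨rfl, rfl⟩ := Prod.mk.inj e'
        rcases h.two_faces d1.symm oi oi' ⟨t.1, t.2.1⟩ d.symm with rfl | rfl
        exacts [absurd so op, absurd rfl e]
      · rcases h.two_faces d1.symm a6 ⟨a1.1, a3⟩ ⟨t.1, t.2.1⟩ a7 with rfl | rfl
        · exact absurd rfl e
        · obtain rfl : w = p := by
            have := (h.tri_has (w := w) ⟨a1.1, a1.2, a3⟩ a2.symm d1.symm a5.symm).1 t.2.2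
            have := d3.symm
            tauto
          exact ⟨_, r'⟩) a w wa ww ⟨i', .refl⟩
  have fin : ∀ w j, m.Out W v w → Relation.ReflTransGen R (a, i') (w, j) → a = w ∨ ¬ m.Sol W j := by
    rintro w j ⟨ww, n, o, on'⟩ r
    rcases r.cases_tail with e' | ⟨⟨p, k⟩, -, so, a1, -, a3, -, -, a6, a7⟩
    · exact .inl (Prod.mk.inj e').1.symm
    · rcases h.two_faces (s.ne ww) a6 ⟨a1.1, a3⟩ o a7 with rfl | rfl
      exacts [.inr on', absurd so on']
  obtain ⟨j, r⟩ := all b o2.1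
  obtain ⟨k, r'⟩ := all c o3.1
  refine (fin b j o2 r).imp_right fun n => (fin c k o3 r').imp_right fun n' => ?_
  rcases Relation.ReflTransGen.total_of_right_unique ru r r' with q | q <;>
    rcases q.cases_head with e | ⟨_, e, -⟩
  exacts [(Prod.mk.inj e).1, absurd e.1 n, (Prod.mk.inj e).1.symm, absurd e.1 n']

namespace Lz

variable [Finite V] [DecidableEq V] (L : m.Lz ps T C C' U W x a y)
include L

/-- a safe pair on a segment from an open face: the closed sets that avoid it are even -/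
theorem evS (g : m.Wk ps W t j k) (op : ¬ m.Sol W j) (f : m.Fc i p q e) (o : m.On i u v)
    (b : m.Sgm ps t j k u v) (pU : p ∈ U) (qU : q ∈ U) (np : C.N p) (nq : C.N q)
    (sf : m.Safe (Cn.FrT m T) W i) (B : Set V)
    (cl : ∀ u v, Rm (Rm (m.Os ps W t j k) p) q u v → u ∈ B → v ∈ B) :
    wB C.μ ((U.erase p).erase q) B % 2 = 0 :=
  (L.dead.pairS L.ok L.ord g op f o b pU qU np nq sf).evB le_rfl (L.dal _) B cl

/-- a safe pair at a boundary cell: the closed sets that avoid it are even -/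
theorem ev0 (f : m.Fc i p q e) (w : W p q) (np : C.N p) (nq : C.N q) (b : m.Bdy W p ∨ m.Bdy W q)
    (sf : m.Safe (Cn.FrT m T) W i) (B : Set V) (cl : ∀ u v, Rm (Rm W p) q u v → u ∈ B → v ∈ B) :
    wB C.μ ((U.erase p).erase q) B % 2 = 0 :=
  (L.dead.pair' L.ok f (L.st.mem _ _ w) (L.st.mem2 w) np nq b sf).evB le_rfl (L.dal _) B cl

/-- a safe landing inside a segment -/
theorem evL (g : m.Wk ps W t j k) (op : ¬ m.Sol W j) (f : m.Fc i p q e) (l : m.bar i = t)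
    (bt : Bt ps t j i k) (so : m.Sol W i) (sf : m.Safe (Cn.FrT m T) W i) (B : Set V) (pB : p ∉ B)
    (qB : q ∉ B) (cl : ∀ u v, m.Os ps W t j k u v → u ∈ B → v ∈ B) : wB C.μ U B % 2 = 0 := by
  have ii := L.st.sol_inf L.ok so
  have b := L.st.wk_land L.ok L.ord g f l ii bt
  have b' := L.st.wk_land L.ok L.ord g f.symm l ii bt
  have w := (L.st.sol_w L.ok so f).1
  have := L.evS g op f ⟨f.has1, f.has3⟩ b (L.st.mem _ _ w) (L.st.mem2 w) (L.n_sgm g op b)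
    (L.n_sgm g op b') sf B fun u v r => cl u v r.1.1
  rwa [wB_out qB, wB_out pB] at this

end Lz

namespace Gz

variable [Finite V] [DecidableEq V] (L : m.Gz ps T C C' U W x a y)
include L

/-- a cut that contains no wall of the zone -/
theorem c1 (g : m.Wk ps W t j k) (op : ¬ m.Sol W j)
    (hZ : ∀ u v, W u v → (m.Sgm ps t j k u v ↔ ¬ (u ∈ Z ↔ v ∈ Z))) (aZ : a ∈ Z)
    (n1 : ¬ m.Sgm ps t j k a x) (n2 : ¬ m.Sgm ps t j k a y) : False := by
  have h := L.ok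
  have r := L.ord
  have s := L.toLz.st
  have cl : ∀ u v, m.Os ps W t j k u v → u ∈ Zᶜ → v ∈ Zᶜ := fun u v w => by
    have := hZ u v w.1; have := w.2; simp only [Set.mem_compl_iff]; tauto
  have sp : ∀ u v, m.Sgm ps t j k u v → ¬ (u ∈ Z ↔ v ∈ Z) := fun u v b =>
    (hZ u v (s.wk_w h r g b)).1 b
  have xZ : x ∈ Z := by have := hZ a x L.wx; tauto
  have yZ : y ∈ Z := by have := hZ a y L.wy; tauto
  obtain ⟨u, v, w, o, b, uZ, vZ⟩ : ∃ u v, W u v ∧ m.On j u v ∧ m.Sgm ps t j k u v ∧ u ∉ Z ∧ v ∈ Z := by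
    obtain ⟨u, v, w, o, b⟩ := g.p1
    have := sp u v b
    by_cases c : u ∈ Z
    exacts [⟨v, u, s.sym _ _ w, o.symm, b.symm h, by tauto, c⟩, ⟨u, v, w, o, b, c, by tauto⟩]
  have e1 := L.toLz.f2S g op b (by rintro (rfl | rfl | rfl) <;> contradiction) n1 n2 Zᶜ (fun n => n aZ)
    fun p q w => cl p q w.1
  have e2 := wB_in (μ := C.μ) (B := Zᶜ) (s.mem _ _ w) uZ
  have e3 := L.toLz.one (L.toLz.n_sgm g op b)
  have row : ∀ p q, m.Sgm ps t j k p q → p ∈ Z → InZ x a y p := fun p q c pZ => by_contra fun n => by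
    have := L.toLz.f2S g op c n n1 n2 Zᶜ (fun n => n aZ) fun p q w => cl p q w.1
    rw [wB_outc pZ] at this
    omega
  have one : ∀ p q, m.Sgm ps t j k p q → (p ∈ Z → p = v) ∧ (q ∈ Z → q = v) := fun p q c =>
    s.wk_ind h r g (P := fun p q => (p ∈ Z → p = v) ∧ (q ∈ Z → q = v)) (fun _ _ => And.symm)
      (fun p q o' c => by
        rcases s.wk_first h r g w o b o' c with ⟨rfl, rfl⟩ | ⟨rfl, rfl⟩ <;> tauto)
      (fun i p q e f l bt so ih => ⟨fun qZ => by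
        have c1 := s.wk_land h r g f l (s.sol_inf h so) bt
        have c2 := s.wk_land h r g f.symm l (s.sol_inf h so) bt
        have pZ : p ∈ Z := by have := sp _ _ c1; have := sp _ _ c2; tauto
        have := L.toLz.evL g op f l bt so (L.safe_z f (row _ _ c1 pZ) (row _ _ c2 qZ)) Zᶜ
          (fun n => n pZ) (fun n => n qZ) cl
        omega, ih.2⟩) c
  have fin : ∀ z, m.GP a z → W a z → C.N z → z ∈ Z → v = a ∨ v = z → False := by
    rintro z ⟨i, f⟩ w' nz zZ c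
    have bv : m.Bdy W v := ⟨j, o.2, op⟩
    have := L.toLz.ev0 f w' L.na nz (c.imp (fun e : v = a => e ▸ bv) fun e : v = z => e ▸ bv)
       (L.safe_a f nz) Zᶜ
      fun p q w pZ qZ => by
        have := (one p q ((hZ p q w.1.1).2 fun e => pZ (e.2 qZ))).2 qZ
        have := w.1.2.2
        have := w.2.2
        grind
    rw [wB_outc zZ, wB_outc aZ] at this
    omega
  rcases row v u (b.symm h) vZ with c | c | c
  exacts [fin x L.gx L.wx L.nx xZ (.inr c), fin x L.gx L.wx L.nx xZ (.inl c),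
    fin y L.gy L.wy L.ny yZ (.inr c)]

/-- a cut that starts with the wall `a x` -/
theorem c2 (g : m.Wk ps W t j k) (op : ¬ m.Sol W j)
    (hZ : ∀ u v, W u v → (m.Sgm ps t j k u v ↔ ¬ (u ∈ Z ↔ v ∈ Z))) (aZ : a ∈ Z)
    (b : m.Sgm ps t j k a x) (f : m.GE j a x) : False := by
  have h := L.ok
  have r := L.ord
  have s := L.toLz.st
  have cl : ∀ u v, m.Os ps W t j k u v → u ∈ Zᶜ → v ∈ Zᶜ := fun u v w => by
    have := hZ u v w.1; have := w.2; simp only [Set.mem_compl_iff]; tauto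
  have cl' : ∀ u v, m.Os ps W t j k u v → u ∈ Z → v ∈ Z := fun u v w => by
    have := hZ u v w.1; have := w.2; tauto
  have sp : ∀ u v, m.Sgm ps t j k u v → ¬ (u ∈ Z ↔ v ∈ Z) := fun u v b =>
    (hZ u v (s.wk_w h r g b)).1 b
  have xZ : x ∉ Z := by have := sp a x b; tauto
  have ev := fun B (cl : ∀ u v, m.Os ps W t j k u v → u ∈ B → v ∈ B) => L.toLz.evS g op f f.fc.on b
    L.toLz.aU L.toLz.xU L.na L.nx (L.safe_a f L.nx) B fun u v w => cl u v w.1.1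
  have e1 := ev Z cl'
  have e2 := ev Zᶜ cl
  have e3 := wB_in (μ := C.μ) L.toLz.aU aZ
  have e4 := wB_in (μ := C.μ) (B := Zᶜ) (Finset.mem_erase.2 ⟨L.toLz.ax.symm, L.toLz.xU⟩) xZ
  have e5 := L.toLz.one L.na
  have e6 := L.toLz.one L.nx
  rw [wB_out xZ] at e1
  rw [wB_outc aZ] at e4
  have one : ∀ p q, m.Sgm ps t j k p q → (p ∈ Z → p = a) ∧ (q ∈ Z → q = a) := fun p q c =>
    s.wk_ind h r g (P := fun p q => (p ∈ Z → p = a) ∧ (q ∈ Z → q = a)) (fun _ _ => And.symm)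
      (fun p q o' c => by
        rcases s.wk_first h r g L.wx f.fc.on b o' c with ⟨rfl, rfl⟩ | ⟨rfl, rfl⟩ <;> tauto)
      (fun i p q e f l bt so ih => ⟨fun qZ => by
        have c1 := s.wk_land h r g f l (s.sol_inf h so) bt
        have c2 := s.wk_land h r g f.symm l (s.sol_inf h so) bt
        have pZ : p ∈ Z := by have := sp _ _ c1; have := sp _ _ c2; tauto
        have := L.toLz.evL g op f l bt so (L.safe_a (ih.1 pZ ▸ f) (L.toLz.n_sgm g op c2)) Zᶜ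
          (fun n => n pZ) (fun n => n qZ) cl
        omega, ih.2⟩) c
  by_cases c : m.Sgm ps t j k a y
  · have row := s.wk_ind h r g
      (P := fun p q => (p ∉ Z → p = x ∨ m.Rn x p) ∧ (q ∉ Z → q = x ∨ m.Rn x q)) (fun _ _ => And.symm)
      (fun p q o' c => by
        rcases s.wk_first h r g L.wx f.fc.on b o' c with ⟨rfl, rfl⟩ | ⟨rfl, rfl⟩ <;> tauto)
      (fun i p q e f l bt so ih => ⟨fun qZ => by
        have c1 := s.wk_land h r g f l (s.sol_inf h so) bt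
        have c2 := s.wk_land h r g f.symm l (s.sol_inf h so) bt
        have pZ : p ∉ Z := by have := sp _ _ c1; have := sp _ _ c2; tauto
        by_cases n : ∃ k', m.far i k'
        · obtain ⟨k', n⟩ := n
          have rn : m.Rn p q := ⟨i, k', n, f.ge⟩
          rcases ih.1 pZ with rfl | e
          exacts [.inr rn, .inl (L.rn_uniq (L.toLz.n_sgm g op c1) (L.toLz.n_sgm g op c2) L.nx rn
            e.symm).symm]
        · have := L.toLz.evL g op f l bt so (safe_of_not fun k' e => n ⟨k', e⟩) Z pZ qZ cl'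
          omega, ih.2⟩) c
    rcases row.2 (by have := sp a y c; tauto) with e | e
    exacts [L.ne e.symm, L.no_rn e]
  · have yZ : y ∈ Z := cl' a y ⟨L.wy, c⟩ aZ
    obtain ⟨i, f'⟩ := L.gy
    have := L.toLz.ev0 f' L.wy L.na L.ny (.inl ⟨j, f.fc.has1, op⟩) (L.safe_a f' L.ny) Zᶜ
      fun p q w pZ qZ => w.1.2.2 ((one p q ((hZ p q w.1.1).2 fun e => pZ (e.2 qZ))).2 qZ)
    rw [wB_outc yZ, wB_outc aZ] at this
    omega

/-- a cut that contains the wall `a x` -/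
theorem c3 (g : m.Wk ps W t j k) (op : ¬ m.Sol W j) (op' : ¬ m.Sol W k)
    (hZ : ∀ u v, W u v → (m.Sgm ps t j k u v ↔ ¬ (u ∈ Z ↔ v ∈ Z))) (aZ : a ∈ Z)
    (b : m.Sgm ps t j k a x) : False := by
  obtain ⟨i, f⟩ := L.gx
  obtain ⟨ii, bw⟩ := b.2.2 i f.fc.on
  have l := (L.ok.lines f ii).1.symm.trans b.2.1
  by_cases c : i = j
  · exact L.c2 g op hZ aZ b (c ▸ f)
  by_cases c' : i = k
  · exact L.c2 g.rev op' (fun u v w => ⟨fun q => (hZ u v w).1 q.rev, fun q => ((hZ u v w).2 q).rev⟩) aZ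
      b.rev (c' ▸ f)
  exact L.ok.stem_ne i ii (l.trans (L.ord.bar_of_bt g.i1 ii g.i2 g.h1 (.inl l) g.h2
    (L.ord.bt_of g.i1 ii g.i2 g.h1 (.inl l) g.h2 bw c c')).symm)

variable [Finite J]

/-- no segment of walls joins two open faces -/
theorem nocut (g : m.Wk ps W t j k) : m.Sol W j ∨ m.Sol W k := by
  by_contra n
  obtain ⟨op, op'⟩ := not_or.1 n
  obtain ⟨Z, hZ⟩ := L.toLz.st.cut_sgm L.ok L.ord g.i1 g.i2 g.h1 g.h2 op op'
  wlog aZ : a ∈ Z generalizing Z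
  · exact this Zᶜ (fun u v w => by rw [hZ u v w, Set.mem_compl_iff, Set.mem_compl_iff]; tauto) aZ
  by_cases n1 : m.Sgm ps t j k a x
  · exact L.c3 g op op' hZ aZ n1
  by_cases n2 : m.Sgm ps t j k a y
  exacts [L.symm.c3 g op op' hZ aZ n2, L.c1 g op hZ aZ n1 n2]

/-- the walk from an open face ends at the solid end of the line -/
theorem ray (w : W u v) (o : m.On j u v) (op : ¬ m.Sol W j) :
    ∃ e, m.Wk ps W (m.ln u v) j e ∧ m.Sgm ps (m.ln u v) j e u v ∧ m.Sol W e ∧ m.stem e = m.ln u v := by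
  obtain ⟨e, g, b, c⟩ := L.toLz.st.ray L.ok L.ord w o
  have so := (L.nocut g).resolve_left op
  exact ⟨e, g, b, so, c.resolve_left fun n => n so⟩

/-- a branch at a cut vertex contains the end of a segment -/
theorem branch (cl : ∀ u v, W u v → u ≠ z → v ≠ z → u ∈ Z → v ∈ Z) (wu : W z u) (uZ : u ∈ Z)
    (wv : W z v) (vZ : v ∉ Z) : m.Bdy W z ∧ ((∃ c, c ≠ z ∧ c ∈ Z ∧ InZ x a y c) ∨
      (InZ x a y z ∧ ∃ i p e, m.Fc i z p e ∧ W z p ∧ p ∈ Z ∧ m.Safe (Cn.FrT m T) W i)) := by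
  have h := L.ok
  have r := L.ord
  have s := L.toLz.st
  obtain ⟨u, w, uZ, j, o, op⟩ : ∃ u, W z u ∧ u ∈ Z ∧ ∃ j, m.On j z u ∧ ¬ m.Sol W j := by
    by_contra n
    push Not at n
    have key : ∀ j c, m.Sol W j → m.On j z c → c ≠ z → c ∈ Z → ∀ c', m.has j c' → c' ≠ z → c' ∈ Z :=
      fun j c so o d cZ c' o' d' => by
        by_cases e : c = c'
        exacts [e ▸ cZ, cl c c' (so c c' e ⟨o.2, o'⟩) d d' cZ]
    obtain ⟨d, j, o⟩ := s.adj _ _ wu
    obtain ⟨d', j', o'⟩ := s.adj _ _ wv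
    obtain ⟨so, c, oc, dc, cZ⟩ := h.lk0 (F := {j | m.Sol W j ∧ ∃ c, m.On j z c ∧ c ≠ z ∧ c ∈ Z})
      (v := z) (by
        rintro w ⟨d, j1, j2, o1, o2, ⟨so, c, oc, dc, cZ⟩, e⟩
        have wZ := key j1 c so oc dc cZ w o1.2 d.symm
        exact e ⟨n w (so z w d o1) wZ j2 o2, w, o2, d.symm, wZ⟩) o.1 o'.1
      ⟨n u wu uZ j o, u, o, d.symm, uZ⟩
    exact vZ (key j' c so oc dc cZ v o'.2 d'.symm)
  refine ⟨⟨j, o.1, op⟩, ?_⟩
  obtain ⟨i, g, b, so, l⟩ := L.ray w o op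
  have all : ∀ p q, m.Sgm ps (m.ln z u) j i p q → (p = z ∨ p ∈ Z) ∧ (q = z ∨ q ∈ Z) := fun p q c =>
    s.wk_ind h r g (P := fun p q => (p = z ∨ p ∈ Z) ∧ (q = z ∨ q ∈ Z)) (fun _ _ => And.symm)
      (fun p q o' c => by
        rcases s.wk_first h r g w o b o' c with ⟨rfl, rfl⟩ | ⟨rfl, rfl⟩ <;> tauto)
      (fun n p q e f _ _ so ih => ⟨by
        obtain ⟨w1, w2, w3⟩ := s.sol_w h so f
        have := cl p q w1
        have := cl e q (s.sym _ _ w3)
        have := s.ne w2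
        grind, ih.2⟩) c
  have f := fc_self (m := m) i
  have c := HSt.wk_stem h g l
  have w' := s.wk_w h r g c
  have sf : m.Safe (Cn.FrT m T) W i := s.safe_end h r g op f so c
  have a1 := all _ _ c
  have ne := s.ne w'
  by_contra n
  obtain ⟨n1, n2⟩ := not_or.1 n
  have n3 : ∀ c, c = z ∨ c ∈ Z → InZ x a y c → c = z := fun c p q => by_contra fun d =>
    n1 ⟨c, d, p.resolve_left d, q⟩
  rcases L.toLz.f1S g op f f.on c (s.mem _ _ w') (s.mem2 w') (L.toLz.n_sgm g op c)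
    (L.toLz.n_sgm g op (c.symm h)) sf with (q | q) | q | q
  · obtain e := n3 _ a1.1 q
    exact n2 ⟨e ▸ q, i, _, _, e ▸ f, e ▸ w', a1.2.resolve_left fun e' => ne (e.trans e'.symm), sf⟩
  · obtain e := n3 _ a1.2 q
    exact n2 ⟨e ▸ q, i, _, _, e ▸ f.symm, e ▸ s.sym _ _ w',
      a1.1.resolve_left fun e' => ne (e'.trans e.symm), sf⟩
  · exact L.toLz.ax ((n3 _ (all _ _ q).1 (.inr (.inl rfl))).trans (n3 _ (all _ _ q).2 (.inl rfl)).symm)
  · exact L.toLz.ay ((n3 _ (all _ _ q).1 (.inr (.inl rfl))).trans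
      (n3 _ (all _ _ q).2 (.inr (.inr rfl))).symm)

/-- there is no cut vertex -/
theorem nocv (cl : ∀ u v, W u v → u ≠ z → v ≠ z → u ∈ Z → v ∈ Z) (wu : W z u) (uZ : u ∈ Z)
    (wv : W z v) : v ∈ Z := by
  by_contra vZ
  have s := L.toLz.st
  have cl' : ∀ u v, W u v → u ≠ z → v ≠ z → u ∈ Zᶜ → v ∈ Zᶜ :=
    fun u v w a b c d => c (cl v u (s.sym _ _ w) b a d)
  have sw : ∀ (Z : Set V) i p e i' q e', (∀ u v, W u v → u ≠ z → v ≠ z → u ∈ Z → v ∈ Z) →
      m.Bdy W z → m.Fc i z p e → m.Fc i' z q e' → W z p → W z q → m.Safe (Cn.FrT m T) W i →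
      m.Safe (Cn.FrT m T) W i' → p ∈ Z → q ∉ Z → False :=
    fun Z i p e i' q e' cl bz f f' w w' sf sf' pZ qZ => L.dead.switch L.ok L.dal Z cl bz f f' sf sf'
      (s.mem _ _ w) (s.mem2 w) (s.mem2 w') (L.toLz.n_bdy bz w).1 (L.toLz.n_bdy bz w).2
      (L.toLz.n_bdy bz w').2 pZ qZ
  obtain ⟨jx, fx⟩ := L.gx
  obtain ⟨jy, fy⟩ := L.gy
  have sx : m.Safe (Cn.FrT m T) W jx := L.safe_a fx L.nx
  have sy : m.Safe (Cn.FrT m T) W jy := L.safe_a fy L.ny
  have wx := L.wx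
  have wy := L.wy
  have xy := L.ne
  by_cases za : z = a
  · subst za
    wlog xZ : x ∉ Z generalizing Z u v
    · exact this cl' wv vZ wu (fun n => n uZ) (by simpa using cl) fun n => n (not_not.1 xZ)
    obtain ⟨bz, ⟨c, d, cZ, rfl | rfl | rfl⟩ | ⟨-, i, p, e, f, w, pZ, sf⟩⟩ := L.branch cl wu uZ wv vZ
    exacts [xZ cZ, d rfl, sw Z _ _ _ _ _ _ cl bz fy fx wy wx sy sx cZ xZ,
      sw Z _ _ _ _ _ _ cl bz f fx w wx sf sx pZ xZ]
  · wlog aZ : a ∉ Z generalizing Z u v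
    · exact this cl' wv vZ wu (fun n => n uZ) (by simpa using cl) fun n => n (not_not.1 aZ)
    obtain ⟨bz, ⟨c, d, cZ, rfl | rfl | rfl⟩ | ⟨rfl | rfl | rfl, i, p, e, f, w, pZ, sf⟩⟩ :=
      L.branch cl wu uZ wv vZ
    exacts [aZ (cl _ _ (s.sym _ _ wx) d (Ne.symm za) cZ), aZ cZ,
      aZ (cl _ _ (s.sym _ _ wy) d (Ne.symm za) cZ),
      sw Z _ _ _ _ _ _ cl bz f fx.fc.symm w (s.sym _ _ wx) sf sx pZ aZ, za rfl,
      sw Z _ _ _ _ _ _ cl bz f fy.fc.symm w (s.sym _ _ wy) sf sy pZ aZ]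

/-- every cell has one solid arc -/
theorem sect (z : V) : m.Sect W z := by_contra fun n =>
  let ⟨_, _, cl, ⟨_, wu, uZ⟩, _, wv, vZ⟩ := L.toLz.st.not_sect L.ok n
  vZ (L.nocv cl wu uZ wv)

/-- every cell has at most two outer walls -/
theorem out3 (o1 : m.Out W v p) (o2 : m.Out W v q) (o3 : m.Out W v c) : p = q ∨ p = c ∨ q = c :=
  L.toLz.st.out3 L.ok (L.sect v) o1 o2 o3

end Gz

namespace Loc

variable [Finite V] [Finite J] [DecidableEq V] {N : V → Prop} {μ : V → ℕ} (h : m.Ok) (r : m.Ord ps)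
  (L : m.Loc T N U W μ a x y)
  (ss : ∀ u u' w j j', N u → N u' → N w → m.far j j' → m.GE j u u' → m.GP u w →
    w = u' ∨ w = m.X j ∨ w = m.X j') (s0 : ∀ u, N u → ¬ m.Rn a u) (good : ¬ m.Bad a x y)
include h r L ss s0 good

theorem nocut (g : m.Wk ps W t j k) : m.Sol W j ∨ m.Sol W k := (L.gz h r ss s0 good).nocut g

theorem ray0 (w : W u v) (o : m.On j u v) (op : ¬ m.Sol W j) :
    ∃ e, m.Wk ps W (m.ln u v) j e ∧ m.Sgm ps (m.ln u v) j e u v ∧ m.Sol W e ∧ m.stem e = m.ln u v :=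
  (L.gz h r ss s0 good).ray w o op

theorem sect (z : V) : m.Sect W z := (L.gz h r ss s0 good).sect z

theorem out3 (o1 : m.Out W v p) (o2 : m.Out W v q) (o3 : m.Out W v c) : p = q ∨ p = c ∨ q = c :=
  (L.gz h r ss s0 good).out3 o1 o2 o3

end Loc

namespace GG

variable [Finite V] [Finite J] [DecidableEq V] {N P : V → Prop} {μ : V → ℕ}
  (G : m.GG ps T N U W μ a P)
include G

omit [Finite J] in
theorem gz (g : m.Gd W a P x y) : m.Gz ps T (G.loc g).Cd (G.loc g).Cl U W x a y :=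
  (G.loc g).gz G.ok G.ord G.ss G.s0 g.nb

theorem nocut (g : m.Wk ps W t j k) : m.Sol W j ∨ m.Sol W k :=
  let ⟨_, _, d⟩ := G.good; (G.gz d).nocut g

theorem ray0 (w : W u v) (o : m.On j u v) (op : ¬ m.Sol W j) :
    ∃ e, m.Wk ps W (m.ln u v) j e ∧ m.Sgm ps (m.ln u v) j e u v ∧ m.Sol W e ∧ m.stem e = m.ln u v :=
  let ⟨_, _, d⟩ := G.good; (G.gz d).ray w o op

theorem sect (z : V) : m.Sect W z := let ⟨_, _, d⟩ := G.good; (G.gz d).sect z

theorem out3 (o1 : m.Out W v p) (o2 : m.Out W v q) (o3 : m.Out W v c) : p = q ∨ p = c ∨ q = c :=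
  G.st.out3 G.ok (G.sect v) o1 o2 o3

end GG

end Map

end Pool.Agent.P.MP_5f84aa_co.G
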