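import Pool.Agent.P.MP_5f84aa_co.G.PG3

/-! Type GG: the static structure of bad pairs of partners. -/

namespace Pool.Agent.P.MP_5f84aa_co.G

variable {V J Sg : Type}

namespace Map

variable {m : Map V J Sg} {a b c c' p q q' u v w y y' r r' : V} {j j' k : J}

theorem Bad.symm (t : m.Bad a p q) : m.Bad a q p := by
  rcases t with ⟨j, j', r, f⟩ | ⟨c, u, v, w, t, a1, a2, a3⟩
  exacts [.inl ⟨j, j', r, f.symm⟩, .inr ⟨c, u, v, w, t, a1, a3, a2⟩]

theorem in4_rot (i : In4 c u v w p) : In4 c v w u p :=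
  i.imp_right fun i => i.elim (fun e => .inr (.inr e)) fun i => i.imp_right .inl

namespace Ok

variable (h : m.Ok)
include h

theorem k4_ne (t : m.K4 c u v w) : c ≠ u ∧ c ≠ v ∧ c ≠ w ∧ u ≠ v ∧ v ≠ w ∧ u ≠ w := by
  obtain ⟨⟨_, f1⟩, ⟨_, f2⟩, _, f3⟩ := t
  have := h.fc_ne f1; have := h.fc_ne f2; have := h.fc_ne f3
  grind

/-- the faces at the centre of a pinwheel triangle -/
theorem k4_face (t : m.K4 c u v w) (a : m.has k c) :
    m.Fc k c u v ∨ m.Fc k c v w ∨ m.Fc k c w u := by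
  obtain ⟨n1, n2, n3, n4, n5, n6⟩ := h.k4_ne t
  obtain ⟨⟨_, f1⟩, ⟨_, f2⟩, _, f3⟩ := t
  rcases (h.deg3 n1 n2 n3 n4 n5 n6 f1.tri f2.tri f3.tri).1 k a with rfl | rfl | rfl
  exacts [.inl f1, .inr (.inl f2), .inr (.inr f3)]

theorem k4_fc (t : m.K4 c u v w) (f : m.Fc k c p q) :
    (p = u ∧ q = v) ∨ (p = v ∧ q = w) ∨ (p = w ∧ q = u) := by
  have n := (h.fc_ne f).1
  rcases h.k4_face t f.has1 with g | g | g
  exacts [.inl (f.unique g n), .inr (.inl (f.unique g n)), .inr (.inr (f.unique g n))]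

theorem k4_flat (t : m.K4 c u v w) : m.X k ≠ c := fun e => by
  have := h.k4_ne t
  rcases h.k4_face t (k := k) (.inr (.inr e.symm)) with g | g | g <;> have := g.X_eq <;> grind

theorem k4_uniq (t : m.K4 c a y r) (t' : m.K4 c a y' r') : y = y' ∧ r = r' := by
  have := h.k4_ne t
  obtain ⟨⟨_, f1⟩, -, _, f3⟩ := t'
  have := h.k4_fc t f1; have := h.k4_fc t f3
  grind

theorem k4_rung (t : m.K4 c u v w) (f : m.far j j') : ¬ m.cor j c := fun a => by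
  obtain ⟨p, g⟩ := a.ge
  have := h.k4_ne t
  have := h.k4_fc t g.fc; have := h.k4_fc t (h.far_ge f g).fc; have := h.far_X f
  grind

/-- the normal form of a bad pair -/
theorem bad_norm (e : m.X k = a) (t : m.Bad a p q) : (∃ j j2, m.far j j2 ∧ m.Fc j p q a) ∨
    ∃ c y r, m.K4 c a y r ∧ In4 c a y r p ∧ In4 c a y r q := by
  refine t.imp_right fun ⟨c, u, v, w, t, a1, a2, a3⟩ => ?_
  rcases a1 with rfl | rfl | rfl | rfl
  · exact absurd e (h.k4_flat t)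
  · exact ⟨c, v, w, t, a2, a3⟩
  · exact ⟨c, w, u, t.rot, in4_rot a2, in4_rot a3⟩
  · exact ⟨c, u, v, t.rot.rot, in4_rot (in4_rot a2), in4_rot (in4_rot a3)⟩

/-- the second face on the piece between two partners -/
theorem phi_eq (g : m.GP a p) (o : m.On j a p) (o' : m.On j' a p) (n : m.X j = a ∨ m.X j = p)
    (n' : m.X j' = a ∨ m.X j' = p) : j = j' := by
  obtain ⟨k, g⟩ := g
  obtain ⟨n1, n2, n3⟩ := h.fc_ne g.fc
  have key : ∀ {j}, m.X j = a ∨ m.X j = p → k ≠ j := by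
    rintro j n rfl
    exact n.elim n2.symm n3.symm
  exact ((h.two_faces n1 g.fc.on o o' (key n)).resolve_left (key n').symm).symm

theorem rung_uniq (g : m.GP a p) (f : m.Fc j p q a) (f' : m.Fc j' p q' a) : q = q' := by
  obtain rfl := h.phi_eq g ⟨f.has3, f.has1⟩ ⟨f'.has3, f'.has1⟩ (.inl f.2) (.inl f'.2)
  exact (f.unique f' (h.fc_ne f).1).1

omit h in
/-- the second face of a partner in a pinwheel cluster -/
theorem k4_phi (t : m.K4 c a y r) (i : In4 c a y r p) (n : p ≠ a) :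
    (∃ f, m.Fc f c r a ∧ (p = c ∨ p = r)) ∨ ∃ f, m.Fc f c a y ∧ p = y := by
  obtain ⟨⟨_, f1⟩, -, _, f3⟩ := t
  rcases i with e | e | e | e
  exacts [.inl ⟨_, f3, .inl e⟩, absurd e n, .inr ⟨_, f1, e⟩, .inl ⟨_, f3, .inr e⟩]

theorem rung_k4 (g : m.GP a p) (d : m.far j j') (f : m.Fc j p q a) (t : m.K4 c a y r)
    (i : In4 c a y r p) : False := by
  have n := (h.fc_ne f).2.1
  rcases k4_phi t i n with ⟨l, f', e⟩ | ⟨l, f', rfl⟩
  · obtain rfl : j = l := h.phi_eq g ⟨f.has3, f.has1⟩ ⟨f'.has3, f'.has_iff.2 (by tauto)⟩ (.inl f.2)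
      (.inl f'.2)
    exact h.k4_rung t d f'.cor1
  · obtain rfl : j = l := h.phi_eq g ⟨f.has3, f.has1⟩ ⟨f'.has2, f'.has3⟩ (.inl f.2) (.inr f'.2)
    exact n (f'.2.symm.trans f.2)

theorem k4_same (g : m.GP a p) (t : m.K4 c a y r) (t' : m.K4 c' a y' r') (i : In4 c a y r p)
    (i' : In4 c' a y' r' p) : c = c' := by
  have n : p ≠ a := let ⟨_, g⟩ := g; (h.fc_ne g.fc).1.symm
  have key : ∀ {c c' y y' r r'}, m.K4 c a y r → m.K4 c' a y' r' → c' ≠ r := by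
    rintro c c' y y' r r' t t' rfl
    obtain ⟨_, f⟩ := t.2.1
    exact h.k4_flat t' f.2
  have k1 := key t t'
  have k2 := key t' t
  rcases k4_phi t i n with ⟨l, f, e⟩ | ⟨l, f, rfl⟩ <;>
    rcases k4_phi t' i' n with ⟨l', f', e'⟩ | ⟨l', f', e'⟩
  · obtain rfl : l = l' := h.phi_eq g ⟨f.has3, f.has_iff.2 (by tauto)⟩
      ⟨f'.has3, f'.has_iff.2 (by tauto)⟩ (.inl f.2) (.inl f'.2)
    exact (f'.cor_iff.1 f.cor1).resolve_right k2
  · obtain rfl : l = l' := h.phi_eq g ⟨f.has3, f.has_iff.2 (by tauto)⟩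
      ⟨f'.has2, e' ▸ f'.has3⟩ (.inl f.2) (.inr (e' ▸ f'.2))
    exact absurd (e'.trans (f'.2.symm.trans f.2)) n
  · obtain rfl : l = l' := h.phi_eq g ⟨f.has2, f.has3⟩ ⟨f'.has3, f'.has_iff.2 (by tauto)⟩
      (.inr f.2) (.inl f'.2)
    exact absurd (f.2.symm.trans f'.2) n
  · obtain rfl : l = l' := h.phi_eq g ⟨f.has2, f.has3⟩ ⟨f'.has2, e' ▸ f'.has3⟩ (.inr f.2)
      (.inr (e' ▸ f'.2))
    exact (f'.cor_iff.1 f.cor1).resolve_right (h.fc_ne f).1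

theorem bad_trans (e : m.X k = a) (g : m.GP a p) (t : m.Bad a p q) (t' : m.Bad a p q') :
    q = q' ∨ m.Bad a q q' := by
  rcases h.bad_norm e t with ⟨j, j2, d, f⟩ | ⟨c, y, r, t, i1, i2⟩ <;>
    rcases h.bad_norm e t' with ⟨j', j2', d', f'⟩ | ⟨c', y', r', t', i1', i2'⟩
  · exact .inl (h.rung_uniq g f f')
  · exact (h.rung_k4 g d f t' i1').elim
  · exact (h.rung_k4 g d' f' t i1).elim
  · obtain rfl := h.k4_same g t t' i1 i1'
    obtain ⟨rfl, rfl⟩ := h.k4_uniq t t'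
    exact .inr (.inr ⟨c, a, y, r, t, .inr (.inl rfl), i2, i2'⟩)

/-- all good pairs contain `b` -/
theorem star {P : V → Prop} {u₀ u₁ : V} (e : m.X k = a) (hP : ∀ v, P v → m.GP a v)
    (cov : ∀ p q, P p → P q → p ≠ q → ¬ m.Bad a p q → p = b ∨ q = b) (p0 : P u₀) (p1 : P u₁)
    (n0 : u₀ ≠ b) (n1 : u₁ ≠ b) (n : u₀ ≠ u₁) (gd : ¬ m.Bad a b u₀) :
    (∀ u, P u → u ≠ b → ¬ m.Bad a b u) ∧
    ((∃ u u' j j', m.far j j' ∧ m.Fc j u u' a ∧ P u ∧ P u' ∧ u ≠ b ∧ u' ≠ b ∧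
      ∀ p, P p → p = b ∨ p = u ∨ p = u') ∨
    ∃ c y r, m.K4 c a y r ∧ ¬ In4 c a y r b ∧ (P y ∨ P r) ∧
      ∀ p, P p → p = b ∨ p = c ∨ p = y ∨ p = r) := by
  have bd : ∀ p q, P p → P q → p ≠ q → p ≠ b → q ≠ b → m.Bad a p q := fun p q a1 a2 a3 a4 a5 =>
    by_contra fun t => (cov p q a1 a2 a3 t).elim a4 a5
  have na : ∀ p, P p → p ≠ a := fun p q => let ⟨_, g⟩ := hP p q; (h.fc_ne g.fc).1.symm
  refine ⟨fun u pu nu t => ?_, ?_⟩
  · by_cases c : u = u₀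
    · exact gd (c ▸ t)
    · exact (h.bad_trans e (hP u pu) t.symm (bd u u₀ pu p0 c nu n0)).elim n0.symm gd
  rcases h.bad_norm e (bd _ _ p0 p1 n n0 n1) with ⟨j, j', d, f⟩ | ⟨c, y, r, t, i0, i1⟩
  · refine .inl ⟨u₀, u₁, j, j', d, f, p0, p1, n0, n1, fun p pp => ?_⟩
    by_contra c
    push Not at c
    rcases h.bad_norm e (bd _ _ p0 pp c.2.1.symm n0 c.1) with ⟨i, i', d', f'⟩ | ⟨c', y, r, t, i0, -⟩
    exacts [c.2.2 (h.rung_uniq (hP _ p0) f' f), h.rung_k4 (hP _ p0) d f t i0]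
  · refine .inr ⟨c, y, r, t, fun q => gd (.inr ⟨c, a, y, r, t, .inr (.inl rfl), q, i0⟩), ?_,
      fun p pp => ?_⟩
    · have := na _ p0; have := na _ p1
      unfold In4 at i0 i1
      grind
    · by_cases c1 : p = b
      · exact .inl c1
      have i : In4 c a y r p := by
        by_cases c2 : p = u₀
        · exact c2 ▸ i0
        rcases h.bad_norm e (bd _ _ p0 pp (Ne.symm c2) n0 c1) with
          ⟨i, i', d', f'⟩ | ⟨c', y', r', t', i0', i1'⟩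
        · exact (h.rung_k4 (hP _ p0) d' f' t i0).elim
        · obtain rfl := h.k4_same (hP _ p0) t t' i0 i0'
          obtain ⟨rfl, rfl⟩ := h.k4_uniq t t'
          exact i1'
      have := na _ pp
      unfold In4 at i
      tauto

end Ok

end Map

end Pool.Agent.P.MP_5f84aa_co.G
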