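import Pool.Agent.P.MP_5f84aa_co.G.LQ
import Pool.Agent.P.MP_5f84aa_co.G.LG0

/-! Type GG: the door lemma. -/

namespace Pool.Agent.P.MP_5f84aa_co.G

namespace Map

variable {V J Sg : Type} (m : Map V J Sg)

/-- a door: the rung between `v` and `d` has two solid ends -/
structure Door (W : V → V → Prop) (j j' : J) (v d X X' : V) : Prop where
  r : m.far j j'
  f : m.Fc j v d X
  f' : m.Fc j' v d X'
  so : m.Sol W j
  so' : m.Sol W j'

/-- a door of the ring cell `v` off the living pair -/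
structure Dr [DecidableEq V] (ps : J → Sg → ℤ) (T : Set Sg) (N : V → Prop) (U : Finset V)
    (W : V → V → Prop) (μ : V → ℕ) (a x y : V) (j j' : J) (v d X X' : V) : Prop where
  ok : m.Ok
  L : m.Loc T N U W μ a x y
  ord : m.Ord ps
  nc : ∀ t j k, m.Wk ps W t j k → m.Sol W j ∨ m.Sol W k
  se : m.Sect W v
  ss : ∀ u u' w j j', N u → N u' → N w → m.far j j' → m.GE j u u' → m.GP u w →
    w = u' ∨ w = m.X j ∨ w = m.X j'
  s0 : ∀ u, N u → ¬ m.Rn a u
  va : v ≠ a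
  vx : v ≠ x
  vy : v ≠ y
  bv : m.Bdy W v
  dr : m.Door W j j' v d X X'

/-- the configuration that remains: `v` has the corner `c` with `X`, and `d` is a triangle -/
structure Dal (ps : J → Sg → ℤ) (W : V → V → Prop) (j' c f o o' : J) (v d X : V) : Prop where
  gc : m.GE c v X
  sc : m.Sol W c
  gf : m.GE f d X
  sf : m.Sol W f
  bf : m.bar f = m.bar j'
  s0 : m.Sid ps W v (m.bar c) c o
  op : ¬ m.Sol W o
  s2 : m.Sid ps W v (m.bar j') j' o'
  op' : ¬ m.Sol W o'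
  sd : m.Sid ps W d (m.bar j') j' f
  wk : m.Wk ps W (m.bar j') o' f
  bt : Bt ps (m.bar j') o' j' f
  cv : ∀ u, W v u → u = X ∨ u = d ∨ m.Sgm ps (m.bar j') j' o' v u ∨ m.Sgm ps (m.bar c) c o v u
  cd : ∀ u, m.Adj d u → u = X ∨ u = v ∨ m.Sgm ps (m.bar j') j' f d u
  nb : ¬ m.Bdy W d

variable {m} {ps : J → Sg → ℤ} {T : Set Sg} {N : V → Prop} {U : Finset V} {W : V → V → Prop}
  {μ : V → ℕ} {t : Sg} {a d p q s s' u v w x y z X X' : V} {c e f i j j' k k' n o o' : J}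

theorem Door.symm (D : m.Door W j j' v d X X') : m.Door W j' j v d X' X :=
  ⟨D.r.symm, D.f', D.f, D.so', D.so⟩

theorem Door.flip (D : m.Door W j j' v d X X') : m.Door W j j' d v X X' :=
  ⟨D.r, D.f.symm, D.f'.symm, D.so, D.so'⟩

/-- a property that passes all the faces of a cell -/
theorem Ok.adj_cl (h : m.Ok) (S : V → Prop)
    (cl : ∀ j u w, m.Tri j z u w → u ≠ z → w ≠ z → u ≠ w → S u → S w) (a : m.Adj z u) (su : S u)
    (b : m.Adj z w) : S w := by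
  have key : ∀ j, m.has j z → ∀ x, m.has j x → x ≠ z → S x → ∀ y, m.has j y → y ≠ z → S y :=
    fun j a x hx d sx y hy d' => by
      by_cases e : x = y
      exacts [e ▸ sx, cl j x y ⟨a, hx, hy⟩ d d' e sx]
  obtain ⟨d, j, o⟩ := a
  obtain ⟨d', k, o'⟩ := b
  have := h.lk0 (F := {j | m.has j z → ∀ y, m.has j y → y ≠ z → S y}) (v := z) ?_ o.1 o'.1
    fun _ => key j o.1 u o.2 d.symm su
  · exact this o'.1 w o'.2 d'.symm
  rintro x ⟨n, i, i', p, p', c, c'⟩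
  exact c' fun _ => key i' p'.1 x p'.2 n.symm (c p.1 x p.2 n.symm)

namespace HSt

variable (h : m.Ok) (st : m.HSt U W) (g : m.Ord ps)
include h st g

omit st in
theorem sgm_sol (a : m.Wk ps W t j k) (b : m.Sgm ps t j k u v) (o : m.On i u v) :
    i = j ∨ i = k ∨ (m.Sol W i ∧ m.hug i t ∧ Bt ps t j i k) := by
  obtain ⟨ni, bw⟩ := b.2.2 i o
  have c : m.hug i t := b.2.1 ▸ h.hug_on ni o b.1.1
  by_contra q
  simp only [not_or] at q
  have bt := g.bt_of a.i1 ni a.i2 a.h1 c a.h2 bw q.1 q.2.1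
  exact q.2.2 ⟨a.sol i ni c bt, c, bt⟩

/-- a run passes a solid landing -/
theorem pass (nc : ∀ t j k, m.Wk ps W t j k → m.Sol W j ∨ m.Sol W k) (f : m.Fc j p q X)
    (so : m.Sol W j) (a : m.Wk ps W (m.bar j) j o) (b : m.Sgm ps (m.bar j) j o p X)
    (op : ¬ m.Sol W o) (a' : m.Wk ps W (m.bar j) j k) (b' : m.Sgm ps (m.bar j) j k q X) :
    m.Wk ps W (m.bar j) o k ∧ Bt ps (m.bar j) o j k ∧ m.Sol W k := by
  obtain ⟨n1, d1, o1, -⟩ := b.two h g ⟨f.has1, f.has3⟩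
  obtain ⟨n2, d2, o2, -⟩ := b'.two h g ⟨f.has2, f.has3⟩
  have e := g.land h f (st.bd2 (st.sol_w h so f).2.1) o1 o2 d1 d2
  have e1 := (b.2.2 n1 o1).2
  have e2 := (b'.2.2 n2 o2).2
  have bt : Bt ps (m.bar j) o j k := by unfold Bw at e1 e2; unfold Bt; omega
  exact ⟨a.rev.trans g a' bt so, bt, (nc _ _ _ (a.rev.trans g a' bt so)).resolve_left op⟩

/-- the walk from a solid corner along the bar -/
theorem nxt_bar [Finite J] (f : m.Fc j p q X) (so : m.Sol W j) : ∃ k, m.Sid ps W p (m.bar j) j k ∧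
    m.Sgm ps (m.bar j) j k p X ∧ (¬ m.Sol W k ∨ ∃ w, m.GE k p w ∧ m.Sol W k) := by
  obtain ⟨k, a, b, c⟩ := st.nxt h g (st.sol_w h so f).2.1 (j := j) ⟨f.has1, f.has3⟩
  rw [(h.lines f (st.sol_inf h so)).2.1] at a b
  refine ⟨k, a, b, ?_⟩
  by_cases s : m.Sol W k
  exacts [.inr (let ⟨w, e⟩ := (c.resolve_left (not_not.2 s)).ge; ⟨w, e, s⟩), .inl s]

omit st g in
theorem sid_fst (a : m.Sid ps W p (m.bar j) j k) (f : m.Fc j p q X) :
    m.Sgm ps (m.bar j) j k p X :=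
  sid_cor h a f.cor1 ⟨f.has1, f.has3⟩ (h.fc_ne f).2.1 (h.lines f a.wk.i1).2.1

/-- the walls of a cell with a door and one more corner -/
theorem door_cl (D : m.Door W j j' v d X X') (gc : m.GE c v X) (a : m.Sid ps W v (m.bar j') j' k)
    (a' : m.Sid ps W v (m.bar c) c k') (tr : m.Tri n v u w) (d1 : w ≠ v) (d2 : u ≠ w)
    (e : n = k → n = c) (e' : n = k' → n = j')
    (b : u = X ∨ u = d ∨ m.Sgm ps (m.bar j') j' k v u ∨ m.Sgm ps (m.bar c) c k' v u) :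
    w = X ∨ w = d ∨ m.Sgm ps (m.bar j') j' k v w ∨ m.Sgm ps (m.bar c) c k' v w := by
  have b1 := sid_fst h a D.f'
  have b2 := sid_fst h a' gc.fc
  have key : n = j ∨ n = j' ∨ n = c → w = X ∨ w = d ∨ m.Sgm ps (m.bar j') j' k v w ∨
      m.Sgm ps (m.bar c) c k' v w := by
    rintro (rfl | rfl | rfl)
    · have := D.f.has_iff.1 tr.2.2; tauto
    · have := D.f'.has_iff.1 tr.2.2; grind
    · have := gc.fc.has_iff.1 tr.2.2; grind
  obtain ⟨n1, n2, n3⟩ := h.fc_ne D.f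
  rcases b with rfl | rfl | b | b
  · have := h.two_faces n2 ⟨D.f.has1, D.f.has3⟩ gc.fc.on ⟨tr.1, tr.2.1⟩
      fun q => n3 ((q ▸ gc).fc.unique D.f n2).1.symm
    tauto
  · have := h.two_faces n1 D.f.on D.f'.on ⟨tr.1, tr.2.1⟩ D.r.1
    tauto
  · have := st.sid_step h g a b tr d1 d2
    tauto
  · have := st.sid_step h g a' b tr d1 d2
    tauto

/-- a triangle with a door -/
theorem door_tri (D : m.Door W j j' v d X X') (gc : m.GE c v X) (sc : m.Sol W c)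
    (a : m.Sid ps W v (m.bar j') j' c) :
    (∀ u, m.Adj v u → u = X ∨ u = d ∨ m.Sgm ps (m.bar j') j' c v u) ∧ ¬ m.Bdy W v := by
  obtain ⟨n1, n2, n3⟩ := h.fc_ne D.f
  have ci := a.wk.i2
  have e : m.bar c = m.bar j' := a.wk.h2.resolve_left fun q => h.far_bar D.r
    (((h.lines D.f D.r.2.1).2.1.symm.trans (h.lines gc.fc ci).1).trans q)
  have a' : m.Sid ps W v (m.bar c) c j' := e ▸ st.sid_rev h g a
  have cv : ∀ u, m.Adj v u → u = X ∨ u = d ∨ m.Sgm ps (m.bar j') j' c v u := fun u b => by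
    have := h.adj_cl (fun u => u = X ∨ u = d ∨ m.Sgm ps (m.bar j') j' c v u ∨
      m.Sgm ps (m.bar c) c j' v u) (fun n u w tr _ d1 d2 => st.door_cl h g D gc a a' tr d1 d2 id id)
      (h.adj13 D.f) (.inl rfl) b
    exact this.imp_right (.imp_right fun q => q.elim id fun q => e ▸ q.rev)
  refine ⟨cv, fun ⟨n, b, op⟩ => op ?_⟩
  obtain ⟨u, _, -, d1, -, tr⟩ := h.two_more b
  rcases cv u (On.adj ⟨tr.1, tr.2.1⟩ d1.symm) with rfl | rfl | q
  · rcases h.two_faces n2 ⟨D.f.has1, D.f.has3⟩ gc.fc.on ⟨tr.1, tr.2.1⟩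
      fun q => n3 ((q ▸ gc).fc.unique D.f n2).1.symm with rfl | rfl
    exacts [D.so, sc]
  · rcases h.two_faces n1 D.f.on D.f'.on ⟨tr.1, tr.2.1⟩ D.r.1 with rfl | rfl
    exacts [D.so, D.so']
  · rcases sgm_sol h g a.wk q ⟨tr.1, tr.2.1⟩ with rfl | rfl | q
    exacts [D.so', sc, q.1]

end HSt

namespace Dr

variable [DecidableEq V] (G : m.Dr ps T N U W μ a x y j j' v d X X')
include G

theorem symm : m.Dr ps T N U W μ a x y j' j v d X' X :=
  ⟨G.ok, G.L, G.ord, G.nc, G.se, G.ss, G.s0, G.va, G.vx, G.vy, G.bv, G.dr.symm⟩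

theorem swap : m.Dr ps T N U W μ a y x j j' v d X X' :=
  ⟨G.ok, G.L.swap, G.ord, G.nc, G.se, G.ss, G.s0, G.va, G.vy, G.vx, G.bv, G.dr⟩

theorem wd : W v d := (G.L.st.sol_w G.ok G.dr.so G.dr.f).1
theorem wX : W v X := (G.L.st.sol_w G.ok G.dr.so G.dr.f).2.1
theorem wdX : W d X := (G.L.st.sol_w G.ok G.dr.so G.dr.f).2.2
theorem XX : X ≠ X' := G.dr.f.2 ▸ G.dr.f'.2 ▸ G.ok.far_X G.dr.r
theorem lX : m.ln v X = m.bar j := (G.ok.lines G.dr.f G.dr.r.2.1).2.1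
theorem ldX : m.ln d X = m.bar j := (G.ok.lines G.dr.f G.dr.r.2.1).2.2.1
theorem nv : m.Fe T W 8 v := G.L.b1 G.ok G.bv G.wd
theorem n1 (w : W v u) : m.Fe T W 8 u := G.L.b2 G.ok G.bv w
theorem n2 (b : W v u) (c : W u w) : m.Fe T W 8 w := G.L.b3 G.ok G.bv b c

/-- the other end of the door does not hug the bar of this end -/
theorem nhug : ¬ m.hug j' (m.bar j) := fun q =>
  q.elim (G.ok.far_not_bar G.dr.r.symm G.dr.r.2.1) (G.ok.far_bar G.dr.r.symm)

/-- the solid corners of `v` -/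
theorem cor_v (e : m.GE k v w) (so : m.Sol W k) : k = j ∨ k = j' ∨ w = X ∨ w = X' := by
  have b := (G.L.st.sol_w G.ok so e.fc).1
  rcases G.ss v d w j j' (G.L.near _ G.nv) (G.L.near _ (G.n1 G.wd)) (G.L.near _ (G.n1 b)) G.dr.r
    G.dr.f.ge ⟨k, e⟩ with rfl | q | q
  · have := G.ok.two_faces (G.L.st.ne b) G.dr.f.on G.dr.f'.on e.fc.on G.dr.r.1
    tauto
  exacts [.inr (.inr (.inl (q.trans G.dr.f.2))), .inr (.inr (.inr (q.trans G.dr.f'.2)))]

/-- the partners of `d` -/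
theorem par_d (e : m.GP d w) (b : m.Fe T W 8 w) : w = v ∨ w = X ∨ w = X' :=
  G.dr.f.2 ▸ G.dr.f'.2 ▸ G.ss d v w j j' (G.L.near _ (G.n1 G.wd)) (G.L.near _ G.nv) (G.L.near _ b)
    G.dr.r G.dr.f.ge.symm e

theorem d_ne : d ≠ a := fun e =>
  G.s0 v (G.L.near _ G.nv) ⟨j, j', G.dr.r, e ▸ G.dr.f.ge.symm⟩

/-- a corner of `a` is no end of a rung -/
theorem nr_a (e : m.GE k a w) (b : m.Fe T W 8 w) (i : J) : ¬ m.far k i := fun r =>
  G.s0 w (G.L.near _ b) ⟨k, i, r, e⟩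

/-- (NR) a flat of the door that is a partner of `v` has no rung -/
theorem nr_X (gc : m.GE c v X) (e : m.GE k X w) (b : m.Fe T W 8 w) (d : w ≠ v) (i : J) :
    ¬ m.far k i := fun r => by
  obtain ⟨n1, n2, n3⟩ := G.ok.fc_ne G.dr.f
  have key : ∀ k, m.GE k X w → v ≠ m.X k := fun k e q => by
    rcases G.ok.two_faces n2 ⟨G.dr.f.has1, G.dr.f.has3⟩ gc.fc.on (k := k) ⟨q ▸ e.fc.has3, e.fc.has1⟩
      fun q => n3 ((q ▸ gc).fc.unique G.dr.f n2).1.symm with rfl | rfl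
    · exact (G.dr.f.cor_iff.1 e.fc.cor1).elim n2.symm n3.symm
    · exact (G.ok.fc_ne gc.fc).2.1 q
  rcases G.ss X w v k i (G.L.near _ (G.n1 G.wX)) (G.L.near _ b) (G.L.near _ G.nv) r e ⟨c, gc.symm⟩
    with q | q | q
  exacts [d q.symm, key k e q, key i (G.ok.far_ge r e) q]

variable [Finite V] [Finite J]

omit [Finite J] in
/-- the extra corner has a partner in the living pair -/
theorem extra (gc : m.GE c v X) : X = a ∨ X = x ∨ X = y := by
  have := G.L.f1one G.ok gc.fc G.nv (G.n1 G.wX) (fun i r => absurd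
    ((G.ok.lines gc.fc r.2.1).1.symm.trans G.lX) (G.ok.far_not_bar r G.dr.r.2.1))
    (.of_bdy G.bv (by simp) gc.fc.has1)
  have := G.va; have := G.vx; have := G.vy
  tauto

omit [Finite V] in
/-- the run along `v` passes the door and reaches a solid corner of `d` -/
theorem run (a : m.Sid ps W v (m.bar j) j o) (op : ¬ m.Sol W o) : ∃ f, m.Sid ps W d (m.bar j) j f ∧
    m.Wk ps W (m.bar j) o f ∧ Bt ps (m.bar j) o j f ∧ m.Sol W f ∧
      (m.GE f d X ∨ (m.GE f d X' ∧ m.bar f = m.bar j)) := by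
  obtain ⟨f, b1, b2, b3⟩ := G.L.st.nxt_bar G.ok G.ord G.dr.f.symm G.dr.so
  obtain ⟨c1, c2, c3⟩ := G.L.st.pass G.ok G.ord G.nc G.dr.f G.dr.so a.wk
    (HSt.sid_fst G.ok a G.dr.f) op b1.wk b2
  obtain ⟨w, e, -⟩ := b3.resolve_left (not_not.2 c3)
  refine ⟨f, b1, c1, c2, c3, ?_⟩
  rcases G.par_d ⟨f, e⟩ (G.n2 G.wd (G.L.st.sol_w G.ok c3 e.fc).1) with rfl | rfl | rfl
  · rcases G.ok.two_faces (G.L.st.ne G.wd) G.dr.f.on G.dr.f'.on e.fc.on.symm G.dr.r.1 with rfl | rfl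
    exacts [absurd rfl b1.wk.ne, absurd b1.wk.h2 G.nhug]
  · exact .inl e
  · exact .inr ⟨e, b1.wk.h2.resolve_left fun q => G.ok.far_bar G.dr.r
      (q.symm.trans ((G.ok.lines e.fc b1.wk.i2).1.symm.trans G.symm.ldX))⟩

omit [Finite V] in
/-- the walk along `v` from the door -/
theorem opn (n : ∀ c, m.GE c v X → ¬ m.Sol W c) : ∃ o, m.Sid ps W v (m.bar j) j o ∧
    (¬ m.Sol W o ∨ (m.GE o v X' ∧ m.Sol W o)) := by
  obtain ⟨o, b1, -, b3⟩ := G.L.st.nxt_bar G.ok G.ord G.dr.f G.dr.so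
  refine ⟨o, b1, b3.imp_right fun ⟨w, e, so⟩ => ⟨?_, so⟩⟩
  rcases G.cor_v e so with rfl | rfl | rfl | rfl
  exacts [absurd rfl b1.wk.ne, absurd b1.wk.h2 G.nhug, absurd so (n _ e), e]

omit [Finite J] in
/-- two lights free the cell `v` -/
theorem two (b : m.Sid ps W v (m.bar j') j' o') (op : ¬ m.Sol W o') (gf : m.GE f d X')
    (gk : m.GE k X w) (e1 : w ≠ d) (e2 : w ≠ X') (e3 : w ≠ v) (nw : m.Fe T W 8 w)
    (sf : ∀ i, ¬ m.far k i) (cv : ∀ u, W v u → u = X ∨ u = d ∨ m.Sgm ps (m.bar j') j' o' v u ∨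
      ∃ t n o, m.hug k t ∧ m.Wk ps W t n o ∧ ¬ m.Sol W o ∧ m.Sgm ps t n o v u) : False := by
  classical
  have st := G.L.st
  obtain ⟨n1, n2, n3⟩ := G.ok.fc_ne G.dr.f
  have n4 := (G.ok.fc_ne G.dr.f').2.1
  have l : m.stem f = m.bar j' :=
    (G.ok.lines gf.fc ((st.bd2 G.wd).ne_inf gf.fc.has1)).1.symm.trans G.symm.ldX
  have c : ∀ k' t n o, k' = k ∨ k' = f → m.hug k' t → ∀ u z, m.Sgm ps t n o u z →
      m.Hgd T {k, f} No u z ∨ u ∈ ({X, w, d, X'} : Finset V) ∨ z ∈ ({X, w, d, X'} : Finset V) :=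
    fun k' t n o e q u z s => .inl (.no (k := k') (by simpa using e) q s.2.1)
  have r1 := st.rc_end G.ok G.ord b.wk.rev (.op op) (c f _ _ _ (.inr rfl) (.inl l))
  have r2 := r1.cell (d := d) (by simp) G.dr.f'.has2 G.dr.f.has2
  refine (G.L.neu2 G.ok gk.fc gf.fc n3.symm G.XX e1 e2 (G.n1 G.wX) nw (G.n1 G.wd) (G.n1 G.symm.wX)
    (fun i r => absurd r (sf i)) (fun i r => absurd l (G.ok.far_not_bar r G.dr.r.2.2.1))
    (r2.cell (by simp) G.dr.f.has3 gk.fc.has1) (r1.cell (by simp) G.dr.f'.has2 gf.fc.has1)).frees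
    (st.mem _ _ G.wd) (by simp [n1, n2, n4, e3.symm]) (G.L.one _ G.nv) fun u wu => ?_
  rcases cv u wu with rfl | rfl | q | ⟨t, n, o, q1, q2, q3, q⟩
  · exact .inl (by simp)
  · exact .inl (by simp)
  · exact (st.op_wk G.ok G.ord b.wk.rev (.op op) (c f _ _ _ (.inr rfl) (.inl l))
      q.rev).resolve_left (by simp [n1, n2, n4, e3.symm])
  · exact (st.op_wk G.ok G.ord q2.rev (.op q3) (c k _ _ _ (.inl rfl) q1)
      q.rev).resolve_left (by simp [n1, n2, n4, e3.symm])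

omit [Finite V] [Finite J] in
/-- the walls of `v` if there is no extra corner -/
theorem cov0 (b : m.Sid ps W v (m.bar j) j o) (op : ¬ m.Sol W o) (b' : m.Sid ps W v (m.bar j') j' o')
    (op' : ¬ m.Sol W o') (wu : W v u) :
    u = d ∨ m.Sgm ps (m.bar j) j o v u ∨ m.Sgm ps (m.bar j') j' o' v u := by
  have b1 := HSt.sid_fst G.ok b G.dr.f
  have b2 := HSt.sid_fst G.ok b' G.dr.f'
  refine G.se (fun u => u = d ∨ m.Sgm ps (m.bar j) j o v u ∨ m.Sgm ps (m.bar j') j' o' v u)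
    (fun n u w so tr _ d1 d2 q => ?_) d u G.wd wu (.inl rfl)
  have key : n = j ∨ n = j' →
      w = d ∨ m.Sgm ps (m.bar j) j o v w ∨ m.Sgm ps (m.bar j') j' o' v w := by
    rintro (rfl | rfl)
    · have := G.dr.f.has_iff.1 tr.2.2; grind
    · have := G.dr.f'.has_iff.1 tr.2.2; grind
  rcases q with rfl | q | q
  · exact key (G.ok.two_faces (G.L.st.ne G.wd) G.dr.f.on G.dr.f'.on ⟨tr.1, tr.2.1⟩ G.dr.r.1)
  · have := G.L.st.sid_step G.ok G.ord b q tr d1 d2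
    grind
  · have := G.L.st.sid_step G.ok G.ord b' q tr d1 d2
    grind

omit [Finite J] in
/-- one corner of `d` on both lines -/
theorem d0a (b : m.Sid ps W v (m.bar j) j o) (op : ¬ m.Sol W o) (b' : m.Sid ps W v (m.bar j') j' o')
    (op' : ¬ m.Sol W o') (gf : m.GE f d X') (e : m.bar f = m.bar j) : False := by
  have st := G.L.st
  obtain ⟨n1, n4, -⟩ := G.ok.fc_ne G.dr.f'
  have l : m.stem f = m.bar j' :=
    (G.ok.lines gf.fc ((st.bd2 G.wd).ne_inf gf.fc.has1)).1.symm.trans G.symm.ldX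
  have c : ∀ t n o, m.hug f t → ∀ u z, m.Sgm ps t n o u z →
      m.Hgd T {f} No u z ∨ u ∈ ({d, X'} : Finset V) ∨ z ∈ ({d, X'} : Finset V) :=
    fun t n o q u z s => .inl (.no (k := f) (by simp) q s.2.1)
  have r1 := st.rc_end G.ok G.ord b'.wk.rev (.op op') (c _ _ _ (.inl l))
  refine (G.L.neu1 G.ok gf.fc (G.n1 G.wd) (G.n1 G.symm.wX)
    (fun i r => absurd l (G.ok.far_not_bar r G.dr.r.2.2.1))
    (r1.cell (by simp) G.dr.f'.has2 gf.fc.has1)).frees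
    (st.mem _ _ G.wd) (by simp [n1, n4]) (G.L.one _ G.nv) fun u wu => ?_
  rcases G.cov0 b op b' op' wu with rfl | q | q
  · exact .inl (by simp)
  · exact (st.op_wk G.ok G.ord b.wk.rev (.op op) (c _ _ _ (.inr e)) q.rev).resolve_left
      (by simp [n1, n4])
  · exact (st.op_wk G.ok G.ord b'.wk.rev (.op op') (c _ _ _ (.inl l)) q.rev).resolve_left
      (by simp [n1, n4])

omit [Finite J] in
/-- the run ends at the corner of `d` and `X` -/
theorem d0z (b : m.Sid ps W v (m.bar j) j o) (op : ¬ m.Sol W o) (gf : m.GE f d X) :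
    (d = a ∨ d = x ∨ d = y) ∨ X = a ∨ X = x ∨ X = y := by
  have st := G.L.st
  have l : m.stem f = m.bar j :=
    (G.ok.lines gf.fc ((st.bd2 G.wd).ne_inf gf.fc.has1)).1.symm.trans G.ldX
  refine G.L.f1one G.ok gf.fc (G.n1 G.wd) (G.n1 G.wX)
    (fun i r => absurd l (G.ok.far_not_bar r G.dr.r.2.1)) (Rc.cell (st.rc_end G.ok G.ord b.wk.rev
      (.op op) fun u z q => .inl (.of (k := f) (by simp) (.inl l) q.2.1 ?_ ?_)) (d := d) (by simp)
      G.dr.f.has2 gf.fc.has1) <;>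
  · have := st.sid_row G.ok G.ord b q.rev
    have := G.va; have := G.vx; have := G.vy
    unfold Pr
    grind

omit [Finite J] in
/-- both runs end at corners of `d` -/
theorem d0b (b : m.Sid ps W v (m.bar j) j o) (op : ¬ m.Sol W o) (b' : m.Sid ps W v (m.bar j') j' o')
    (op' : ¬ m.Sol W o') (ge : m.GE e d X) (gf : m.GE f d X') (z : X = a ∨ (X = x ∧ X' ≠ a)) :
    False := by
  have st := G.L.st
  have h := G.ok
  obtain ⟨n1, n2, n3⟩ := h.fc_ne G.dr.f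
  obtain ⟨-, n4, n5⟩ := h.fc_ne G.dr.f'
  have b1 := HSt.sid_fst h b G.dr.f
  obtain ⟨k, dk, ok, -⟩ := h.other (j := j) ⟨G.dr.f.has1, G.dr.f.has3⟩ n2
  rcases HSt.sgm_sol h G.ord b.wk b1 ok with q | rfl | ⟨so, hk, bt⟩
  · exact dk q
  · have row : ∀ u, W v u → u = X ∨ u = d ∨ m.Sgm ps (m.bar j') j' o' v u ∨ ∃ t n o,
        False ∧ m.Wk ps W t n o ∧ ¬ m.Sol W o ∧ m.Sgm ps t n o v u := fun u wu => by
      rcases G.cov0 b op b' op' wu with q | q | q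
      · exact .inr (.inl q)
      · exact .inl ((st.sid_row h G.ord (z := X) ⟨b.wk, ⟨v, ⟨G.dr.f.has3, G.dr.f.has1⟩, b1.symm h⟩,
          v, n2.symm, ok.symm, (h.ln_symm _ _).trans G.lX⟩ q).resolve_left n2)
      · exact .inr (.inr (.inl q))
    have fin : ∀ k w, m.GE k X w → w ≠ d → w ≠ X' → w ≠ v → m.Fe T W 8 w → (∀ i, ¬ m.far k i) →
        False := fun k w gk e1 e2 e3 nw sf => G.two b' op' gf gk e1 e2 e3 nw sf fun u wu =>
      (row u wu).imp_right (.imp_right (.imp_right fun ⟨_, _, _, q, _⟩ => q.elim))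
    obtain ⟨kx, gx⟩ := G.L.gx
    obtain ⟨ky, gy⟩ := G.L.gy
    rcases z with rfl | ⟨rfl, z⟩
    · by_cases c1 : x ≠ d ∧ x ≠ X'
      · exact fin kx x gx c1.1 c1.2 G.vx.symm (G.L.n1 G.L.wx) (G.nr_a gx (G.L.n1 G.L.wx))
      by_cases c2 : y ≠ d ∧ y ≠ X'
      · exact fin ky y gy c2.1 c2.2 G.vy.symm (G.L.n1 G.L.wy) (G.nr_a gy (G.L.n1 G.L.wy))
      have w : W X X' := by
        have := G.L.ne; have := G.L.wx; have := G.L.wy
        grind
      have ou : ∀ i, m.has i v → m.Ou W (E3 d X X') i := fun i q =>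
        .bdy h G.bv q (E3.off n1 n2 n4)
      exact st.tri2 h G.wdX w (st.sym _ _ G.symm.wdX) ge.fc ⟨G.dr.f.has2, G.dr.f.has3⟩
        (fun q => n2 ((q ▸ ge).fc.unique G.dr.f.symm n3).1.symm) (ou _ G.dr.f.has1) gf.fc
        ⟨G.dr.f'.has2, G.dr.f'.has3⟩ (fun q => n4 ((q ▸ gf).fc.unique G.dr.f'.symm n5).1.symm)
        (ou _ G.dr.f'.has1)
    · exact fin kx a gx.symm G.d_ne.symm z.symm G.va.symm G.L.na
        (G.nr_a gx (G.L.n1 G.L.wx))
  · obtain ⟨xk, bk⟩ := HSt.sid_flat G.ord b (st.sol_inf h so) hk bt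
    obtain ⟨w, gk⟩ : ∃ w, m.GE k X w :=
      cor.ge (ok.2.elim .inl (.elim · .inr fun q => absurd (q.trans xk).symm n2))
    have ww := (st.sol_w h so gk.fc).1
    have nw := G.n2 G.wX ww
    have e1 : w ≠ d := by
      rintro rfl
      rcases h.two_faces n1 G.dr.f.on G.dr.f'.on ⟨ok.1, gk.fc.has2⟩ G.dr.r.1 with rfl | rfl
      exacts [dk rfl, n4 (xk.symm.trans G.dr.f'.2)]
    have e3 : w ≠ v := xk ▸ (h.fc_ne gk.fc).2.2
    refine G.two b' op' gf gk e1 ?_ e3 nw (fun i r => ?_) fun u wu => ?_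
    · rintro rfl
      exact h.far_bar G.dr.r (bk.symm.trans ((xk ▸ (h.lines gk.fc (st.sol_inf h so)).2.2.1).symm.trans
        ((h.ln_symm _ _).trans G.symm.lX)))
    · rcases z with rfl | ⟨rfl, -⟩
      · exact G.nr_a gk nw i r
      have s := fun p np => G.ss X w p k i (G.L.near _ (G.n1 G.wX)) (G.L.near _ nw) (G.L.near _ np) r gk
      have s1 := s a G.L.na (G.L.gx.imp fun _ => GE.symm)
      have s2 := s d (G.n1 G.wd) ⟨e, ge.symm⟩
      have s3 : a ≠ w := by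
        rintro rfl
        exact G.nr_a gk.symm (G.n1 G.wX) i r
      have := G.va; have := G.d_ne
      grind
    · rcases G.cov0 b op b' op' wu with q | q | q
      exacts [.inr (.inl q), .inr (.inr (.inr ⟨_, _, _, hk, b.wk, op, q⟩)), .inr (.inr (.inl q))]

/-- (D0) a door without extra corners -/
theorem door0 (n : ∀ c, m.GE c v X → ¬ m.Sol W c) (n' : ∀ c, m.GE c v X' → ¬ m.Sol W c) : False := by
  obtain ⟨o, b, op⟩ := G.opn n
  obtain ⟨o', b', op'⟩ := G.symm.opn n'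
  replace op := op.resolve_right fun q => n' _ q.1 q.2
  replace op' := op'.resolve_right fun q => n _ q.1 q.2
  obtain ⟨e, -, -, -, -, ge | ge⟩ := G.run b op
  swap
  · exact G.d0a b op b' op' ge.1 ge.2
  obtain ⟨f, -, -, -, -, gf | gf⟩ := G.symm.run b' op'
  swap
  · exact G.symm.d0a b' op' b op gf.1 gf.2
  by_cases c : X' = a
  · exact G.symm.d0b b' op' b op gf ge (.inl c)
  by_cases c' : X = a
  · exact G.d0b b op b' op' ge gf (.inl c')
  have key : ¬ m.GP d a := fun q => by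
    have := G.par_d q G.L.na
    have := G.va
    grind
  rcases G.d0z b op ge with (q | rfl | rfl) | q | q | q
  exacts [G.d_ne q, key (G.L.gx.imp fun _ => GE.symm), key (G.L.gy.imp fun _ => GE.symm), c' q,
    G.d0b b op b' op' ge gf (.inr ⟨q, c⟩), G.swap.d0b b op b' op' ge gf (.inr ⟨q, c⟩)]

/-- (D1) a door with one extra corner -/
theorem door1 (gc : m.GE c v X) (sc : m.Sol W c) (n' : ∀ c, m.GE c v X' → ¬ m.Sol W c) :
    ∃ f o o', m.Dal ps W j' c f o o' v d X := by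
  have st := G.L.st
  have h := G.ok
  obtain ⟨n1, n2, n3⟩ := h.fc_ne G.dr.f
  obtain ⟨-, n4, n5⟩ := h.fc_ne G.dr.f'
  have ci := st.sol_inf h sc
  have jc : j ≠ c := fun q => n3 ((q ▸ gc).fc.unique G.dr.f n2).1.symm
  have lc : m.stem c = m.bar j := (h.lines gc.fc ci).1.symm.trans G.lX
  have nt := fun q => (st.door_tri h G.ord G.dr gc sc q).2 G.bv
  obtain ⟨o', b', op'⟩ := G.symm.opn n'
  replace op' := op'.resolve_right fun q => by
    rcases h.two_faces n2 ⟨G.dr.f.has1, G.dr.f.has3⟩ gc.fc.on q.1.fc.on jc with rfl | rfl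
    exacts [G.symm.nhug b'.wk.h2, nt b']
  obtain ⟨o, b, b1, op⟩ := st.nxt_bar h G.ord gc.fc sc
  replace op := op.resolve_right fun ⟨w, e, so⟩ => by
    have nj : o ≠ j := by
      rintro rfl
      exact b.wk.h2.elim (h.far_not_bar G.dr.r ci) fun q => h.stem_ne c ci (lc.trans q)
    rcases G.cor_v e so with rfl | rfl | rfl | rfl
    · exact nj rfl
    · exact nt (st.sid_rev h G.ord (b.wk.h2.resolve_left (h.far_not_bar G.dr.r.symm ci) ▸ b))
    · exact (h.two_faces n2 ⟨G.dr.f.has1, G.dr.f.has3⟩ gc.fc.on e.fc.on jc).elim nj b.wk.ne.symm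
    · exact n' _ e so
  have cv : ∀ u, W v u → u = X ∨ u = d ∨ m.Sgm ps (m.bar j') j' o' v u ∨
      m.Sgm ps (m.bar c) c o v u := fun u wu =>
    G.se _ (fun n u w so tr _ d1 d2 => st.door_cl h G.ord G.dr gc b' b tr d1 d2
      (fun q => absurd (q ▸ so) op') fun q => absurd (q ▸ so) op) X u G.wX wu (.inl rfl)
  obtain ⟨f, c1, c2, c3, sf, gf | gf⟩ := G.symm.run b' op'
  swap
  · obtain ⟨cd, nb⟩ := st.door_tri h G.ord G.dr.flip gf.1 sf c1
    exact ⟨f, o, o', gc, sc, gf.1, sf, gf.2, b, op, b', op', c1, c2, c3, cv, cd, nb⟩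
  obtain ⟨e, a1, a2, a3⟩ := st.nxt_bar h G.ord gc.fc.symm sc
  obtain ⟨w, ge, se⟩ := a3.resolve_left
    (not_not.2 (st.pass h G.ord G.nc gc.fc sc b.wk b1 op a1.wk a2).2.2)
  have ww := (st.sol_w h se ge.fc).1
  have ne : m.ln X w ≠ m.bar j := fun q => by
    have q' := ((h.lines ge.fc a1.wk.i2).1.symm.trans q).trans lc.symm
    exact a1.wk.h2.elim (fun p => h.stem_ne c ci (q'.symm.trans p))
      (h.bars_ne e c a1.wk.ne.symm a1.wk.i2 ci q')
  have e3 : w ≠ v := by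
    rintro rfl
    exact ne ((h.ln_symm _ _).trans G.lX)
  refine (G.two b' op' gf ge ?_ ?_ e3 (G.n2 G.wX ww) (G.nr_X gc ge (G.n2 G.wX ww) e3) fun u wu =>
    (cv u wu).imp_right (.imp_right (.imp_right fun q => ⟨_, _, _, a1.wk.h2, b.wk, op, q⟩))).elim
  · rintro rfl
    exact ne ((h.ln_symm _ _).trans G.ldX)
  · rintro rfl
    have q := st.tri1 h G.symm.wdX (st.sym _ _ ww) (st.sym _ _ G.wdX) gf.fc
      ⟨G.dr.f'.has2, G.dr.f'.has3⟩ (fun q => n4 ((q ▸ gf).fc.unique G.dr.f'.symm n5).1.symm)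
      (.bdy h G.bv G.dr.f'.has1 (E3.off n1 n4 n2))
    obtain ⟨-, l1, l2, -⟩ := h.lines gf.fc c1.wk.i2
    rw [q] at l1 l2
    exact ne ((h.ln_symm _ _).trans (l2.trans (l1.symm.trans G.ldX)))

/-- the door lemma -/
theorem door : (∃ c f o o', (X = a ∨ X = x ∨ X = y) ∧ m.Dal ps W j' c f o o' v d X ∧
      ∀ k w, m.GE k v w → m.Sol W k → k = j ∨ k = j' ∨ k = c) ∨
    (∃ c f o o', (X' = a ∨ X' = x ∨ X' = y) ∧ m.Dal ps W j c f o o' v d X' ∧
      ∀ k w, m.GE k v w → m.Sol W k → k = j ∨ k = j' ∨ k = c) ∨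
    ∃ c c', m.GE c v X ∧ m.Sol W c ∧ (X = a ∨ X = x ∨ X = y) ∧
      m.GE c' v X' ∧ m.Sol W c' ∧ (X' = a ∨ X' = x ∨ X' = y) := by
  have key : ∀ {j j' X X' c}, m.Dr ps T N U W μ a x y j j' v d X X' → m.GE c v X → m.Sol W c →
      (∀ c, m.GE c v X' → ¬ m.Sol W c) → ∃ c f o o', (X = a ∨ X = x ∨ X = y) ∧
        m.Dal ps W j' c f o o' v d X ∧ ∀ k w, m.GE k v w → m.Sol W k → k = j ∨ k = j' ∨ k = c := by
    intro j j' X X' c G gc sc n'
    obtain ⟨f, o, o', D⟩ := G.door1 gc sc n'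
    refine ⟨c, f, o, o', G.extra gc, D, fun k w e so => ?_⟩
    obtain ⟨n1, n2, n3⟩ := G.ok.fc_ne G.dr.f
    rcases G.cor_v e so with q | q | rfl | rfl
    · exact .inl q
    · exact .inr (.inl q)
    · exact (G.ok.two_faces n2 ⟨G.dr.f.has1, G.dr.f.has3⟩ gc.fc.on e.fc.on
        fun q => n3 ((q ▸ gc).fc.unique G.dr.f n2).1.symm).imp_right .inr
    · exact absurd so (n' _ e)
  by_cases c1 : ∃ c, m.GE c v X ∧ m.Sol W c <;> by_cases c2 : ∃ c, m.GE c v X' ∧ m.Sol W c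
  · obtain ⟨c, g1, s1⟩ := c1
    obtain ⟨c', g2, s2⟩ := c2
    exact .inr (.inr ⟨c, c', g1, s1, G.extra g1, g2, s2, G.symm.extra g2⟩)
  · obtain ⟨c, g1, s1⟩ := c1
    exact .inl (key G g1 s1 fun c g s => c2 ⟨c, g, s⟩)
  · obtain ⟨c, g1, s1⟩ := c2
    obtain ⟨c, f, o, o', z, D, q⟩ := key G.symm g1 s1 fun c g s => c1 ⟨c, g, s⟩
    exact .inr (.inl ⟨c, f, o, o', z, D, fun k w e so => by have := q k w e so; tauto⟩)
  · exact (G.door0 (fun c g s => c1 ⟨c, g, s⟩) fun c g s => c2 ⟨c, g, s⟩).elim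

end Dr

end Map

end Pool.Agent.P.MP_5f84aa_co.G
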