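import Pool.Agent.P.MP_5f84aa_co.G.LB

/-! Tools for the local lemma, part Q: short cycles of walls, the walls of a ring cell, rotation. -/

namespace Pool.Agent.P.MP_5f84aa_co.G

/-- rotation: an injective step on a finite set is onto -/
theorem rot {α : Type} [Finite α] (C : α → Prop) (R : α → α → Prop)
    (ex : ∀ a, C a → ∃ b, C b ∧ R a b) (inj : ∀ a a' b, C a → C a' → R a b → R a' b → a = a')
    {b : α} (c : C b) : ∃ a, C a ∧ R a b := by
  choose f f1 f2 using ex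
  obtain ⟨a, e⟩ := Finite.injective_iff_surjective.1 (show Function.Injective
    (fun a : {a // C a} => (⟨f a.1 a.2, f1 a.1 a.2⟩ : {a // C a})) from fun a a' e =>
      Subtype.ext (inj _ _ _ a.2 a'.2 (f2 _ a.2)
        ((show f a'.1 a'.2 = f a.1 a.2 from (Subtype.ext_iff.1 e).symm) ▸ f2 _ a'.2))) ⟨b, c⟩
  exact ⟨a.1, a.2, (show f a.1 a.2 = b from Subtype.ext_iff.1 e) ▸ f2 _ a.2⟩

variable {V J Sg : Type}

theorem E3.rot {a b c u v : V} : E3 b c a u v ↔ E3 a b c u v := by unfold E3; tauto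
theorem E3.swap {a b c u v : V} : E3 b a c u v ↔ E3 a b c u v := by
  simp only [E3, Sym2.eq_iff]; tauto
theorem E3.off {a b c u : V} (h1 : u ≠ a) (h2 : u ≠ b) (h3 : u ≠ c) (v : V) : ¬ E3 a b c u v := by
  simp only [E3, Sym2.eq_iff]; tauto
theorem E4.off {a b c d u : V} (h1 : u ≠ a) (h2 : u ≠ b) (h3 : u ≠ c) (h4 : u ≠ d) (v : V) :
    ¬ E4 a b c d u v := by
  simp only [E4, Sym2.eq_iff]; tauto

namespace Map

variable (m : Map V J Sg)

/-- the face `j` lies on the open side of the cycle `E` -/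
def Ou (W E : V → V → Prop) (j : J) : Prop :=
  ∀ F, m.Side E F → (∀ i ∈ F, m.Sol W i) → j ∉ F

/-- the walls of `v` are connected through solid faces -/
def Sect (W : V → V → Prop) (v : V) : Prop := ∀ S : V → Prop,
  (∀ j u w, m.Sol W j → m.Tri j v u w → u ≠ v → w ≠ v → u ≠ w → S u → S w) →
  ∀ u w, W v u → W v w → S u → S w

/-- a segment of walls along a side of the cell `z` -/
structure Sid (ps : J → Sg → ℤ) (W : V → V → Prop) (z : V) (t : Sg) (j k : J) : Prop where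
  wk : m.Wk ps W t j k
  fst : ∃ u, m.On j z u ∧ m.Sgm ps t j k z u
  lst : m.Tc k z t

variable {m} {ps : J → Sg → ℤ} {t t' t'' : Sg} {W E E' : V → V → Prop} {U : Finset V}
  {a b c d p q r s s' u u' v v' w x y z : V} {i i' j j' k k' n : J}

theorem Ou.op (o : ¬ m.Sol W j) : m.Ou W E j := fun _ _ a b => o (a j b)

theorem Ou.congr (o : m.Ou W E j) (e : ∀ u v, E' u v ↔ E u v) : m.Ou W E' j :=
  fun F a => o F (a.congr e)

theorem Ou.rot (o : m.Ou W (E3 a b c) j) : m.Ou W (E3 b c a) j := o.congr fun _ _ => E3.rot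
theorem Ou.swap (o : m.Ou W (E3 a b c) j) : m.Ou W (E3 b a c) j := o.congr fun _ _ => E3.swap

/-- through a piece off the cycle -/
theorem Ou.piece (o : m.Ou W E j) (a : m.On j u v) (b : m.On j' u v) (d : u ≠ v) (n : ¬ E u v) :
    m.Ou W E j' := fun F s so c => o F s so (s.same n d b a c)

/-- through a cell off the cycle -/
theorem Ou.cell (h : m.Ok) (o : m.Ou W E j) (a : m.has j v) (b : m.has j' v) (n : ∀ w, ¬ E v w) :
    m.Ou W E j' := fun F s so c => o F s so ((h.sd_iff s n a).1 ⟨j', c, b⟩)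

/-- the faces of a ring cell off the cycle -/
theorem Ou.bdy (h : m.Ok) (bv : m.Bdy W v) (b : m.has j v) (n : ∀ w, ¬ E v w) : m.Ou W E j :=
  let ⟨_, a, o⟩ := bv; (Ou.op o).cell h a b n

namespace HSt

variable (h : m.Ok) (st : m.HSt U W)
include h st

/-- along a segment off the cycle -/
theorem ou_wk (r : m.Ord ps) (a : m.Wk ps W t j k) (o : m.Ou W E j)
    (n : ∀ u v, m.Sgm ps t j k u v → ¬ E u v) : m.Ou W E k := by
  obtain ⟨u, v, -, c, b⟩ := a.p2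
  exact st.wk_ind h r a (P := fun u v => ∀ i, m.On i u v → m.Ou W E i) (fun _ _ p i o => p i o.symm)
    (fun u v c b _ o' => o.piece c o' b.1.1 (n u v b))
    (fun i _ _ _ f e bt so p _ o => (p i ⟨f.has1, f.has3⟩).piece ⟨f.has2, f.has3⟩ o (h.fc_ne f).2.2
      (n _ _ (st.wk_land h r a f.symm e (st.sol_inf h so) bt))) b k c

omit h in
/-- the bounded side of a cycle of walls is solid -/
theorem side_sol {F : Set J} (a : m.Side E F) (iF : m.inf ∉ F) (w : ∀ u v, E u v → W u v) :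
    ∀ j ∈ F, m.Sol W j := fun j c => by_contra fun o =>
  st.con Fᶜ iF (fun u v q => w u v ((a u v).1 (spl_compl.1 q))) j o c

omit st in
/-- the second face on a piece of the cycle -/
theorem inner {F : Set J} (a : m.Side E F) (so : ∀ j ∈ F, m.Sol W j) (e : E u v) (o : m.On j u v)
    (o' : m.On j' u v) (d : j' ≠ j) (ou : m.Ou W E j') : j ∈ F := by_contra fun n =>
  d (h.side_one a e o' o (iff_of_false (ou F a so) n))

omit h in
theorem e3_w (w1 : W p q) (w2 : W q r) (w3 : W r p) : ∀ u v, E3 p q r u v → W u v := by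
  have := st.sym _ _ w1; have := st.sym _ _ w2; have := st.sym _ _ w3
  simp only [E3, Sym2.eq_iff]
  grind

/-- (TRI) an inner face of a triangle of walls with two corners on the triangle is the triangle -/
theorem tri1 (w1 : W p q) (w2 : W q r) (w3 : W r p) (f : m.Fc j p q s) (o : m.On j' p q) (d : j' ≠ j)
    (ou : m.Ou W (E3 p q r) j') : s = r := by
  obtain ⟨F, a, iF⟩ := h.side3 (st.adj _ _ w1) (st.adj _ _ w2) (st.adj _ _ w3)
  have jF := inner h a (st.side_sol a iF (st.e3_w w1 w2 w3)) (.inl rfl) f.on o d ou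
  obtain ⟨n1, n2, n3⟩ := h.fc_ne f
  by_cases c : ∃ i, m.Tri i p q r
  · obtain ⟨i, c⟩ := c
    have pq := st.ne w1
    have e : i ∈ F := by
      by_contra n
      have b : ∀ x y, E3 p q r x y → m.On i x y → ∀ k, m.On k x y → k ≠ i → k ∈ F := fun x y e o k o' d =>
        by_contra fun n' => d (h.side_one a e o' o (iff_of_false n' n))
      refine iF (h.conn_faces (F := F ∪ {i}) (j := i) (j' := m.inf) ?_ (.inr rfl) |>.resolve_right
        fun e => st.bd1 w1 (e ▸ c.1))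
      rintro x y ⟨xy, k, k', o1, o2, kF, kF'⟩
      have ki : k' ≠ i := fun e => kF' (.inr e)
      have on : ∀ x y, E3 p q r x y → m.On i x y := by
        have := c.1; have := c.2.1; have := c.2.2
        simp only [E3, Sym2.eq_iff, On]
        grind
      by_cases e : E3 p q r x y
      · exact kF' (.inl (b x y e (on x y e) k' o2 ki))
      rcases kF with kF | kF
      · exact e ((a x y).1 ⟨xy, k, k', o1, o2, kF, fun q => kF' (.inl q)⟩)
      · obtain rfl : k = i := kF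
        have := (h.tri_has c pq (st.ne w3).symm (st.ne w2)).1 o1.1
        have := (h.tri_has c pq (st.ne w3).symm (st.ne w2)).1 o1.2
        apply e
        simp only [E3, Sym2.eq_iff]
        grind
    obtain rfl := h.side_one a (.inl rfl) ⟨c.1, c.2.1⟩ f.on (iff_of_true e jF)
    have := f.has_iff.1 c.2.2
    have := st.ne w2
    have := st.ne w3
    grind
  · obtain ⟨z, z1, z2, -, g⟩ := h.q3k a iF (fun i q => c ⟨i, q⟩) (.inl rfl) jF f.on
    rcases g with g | g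
    · exact absurd (f.2.symm.trans g.2) n3.symm
    · exact absurd (f.2.symm.trans g.2) n2.symm

/-- (TRI) two such faces are impossible -/
theorem tri2 (w1 : W p q) (w2 : W q r) (w3 : W r p) (f : m.Fc j p q s) (o : m.On j' p q) (d : j' ≠ j)
    (ou : m.Ou W (E3 p q r) j') (f' : m.Fc k p r s') (o' : m.On k' p r) (d' : k' ≠ k)
    (ou' : m.Ou W (E3 p q r) k') : False := by
  obtain rfl := st.tri1 h w1 w2 w3 f o d ou
  obtain rfl := st.tri1 h (st.sym _ _ w3) (st.sym _ _ w2) (st.sym _ _ w1) f' o' d' ou'.rot.rot.swap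
  obtain rfl := h.tri_unique (st.bd1 w1) (st.ne w1) (st.ne w3).symm (st.ne w2) f.tri
    ⟨f'.has1, f'.has3, f'.has2⟩
  exact st.ne w2 (f'.2.symm.trans f.2)

/-- (QUAD) a quadrilateral of walls without chords has at most one inner face with two corners on it -/
theorem quad (w1 : W a b) (w2 : W b c) (w3 : W c d) (w4 : W d a) (ac : a ≠ c) (bd : b ≠ d)
    (n1 : ¬ W a c) (n2 : ¬ W b d) (e : E4 a b c d u v) (f : m.Fc j u v s) (o : m.On j' u v)
    (dj : j' ≠ j) (ou : m.Ou W (E4 a b c d) j') (e' : E4 a b c d u' v') (f' : m.Fc k u' v' s')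
    (o' : m.On k' u' v') (dk : k' ≠ k) (ou' : m.Ou W (E4 a b c d) k') : j = k := by
  obtain ⟨F, sd, iF⟩ := h.side4 (st.adj _ _ w1) (st.adj _ _ w2) (st.adj _ _ w3) (st.adj _ _ w4) ac bd
  have so := st.side_sol sd iF (E := E4 a b c d) (by
    have := st.sym _ _ w1; have := st.sym _ _ w2; have := st.sym _ _ w3; have := st.sym _ _ w4
    simp only [E4, Sym2.eq_iff]
    grind)
  have jF := inner h sd so e f.on o dj ou
  have kF := inner h sd so e' f'.on o' dk ou'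
  have hE : ∀ u v, E4 a b c d u v → u ∈ ({a, b, c, d} : Set V) := fun u v => by
    simp only [E4, Sym2.eq_iff, Set.mem_insert_iff, Set.mem_singleton_iff]; grind
  rcases h.q4 sd ac bd with ⟨w, a1, a2, a3, a4, a5⟩ | ⟨i, iF, -, -, t, -⟩ | ⟨i, iF, -, -, t, -⟩
  rotate_left
  · exact absurd (so i iF a c ac ⟨t.1, t.2.2⟩) n1
  · exact absurd (so i iF b d bd ⟨t.2.1, t.2.2⟩) n2
  obtain ⟨j₁, j₂, j₃, b1, b2, b3, H⟩ := h.hole_cl (h.cl_side sd hE) ⟨w, by simp [*], a5⟩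
    fun v hv => h.bd_side sd iF (fun w n => hv.1 (hE _ _ n)) hv.2
  have H' : ∀ i, i = j₁ ∨ i = j₂ ∨ i = j₃ → i ∈ F ∧ ∃ z o g, m.Fc i z o g ∧ E4 a b c d o g := by
    intro i hi
    obtain ⟨z, o, g, e, hz, ho, hg⟩ := H i hi
    have iF := (h.sd_iff sd (fun w n => hz.1 (hE _ _ n)) e.has1).1 hz.2
    have w := (st.sol_w h (so i iF) e).2.2
    refine ⟨iF, z, o, g, e, ?_⟩
    have := st.ne w
    have := st.sym _ _ w
    simp only [E4, Sym2.eq_iff, Set.mem_insert_iff, Set.mem_singleton_iff] at ho hg ⊢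
    grind
  have key : ∀ i i' x y x' y', i ∈ F → i' ∈ F → E4 a b c d x y → m.On i x y → m.On i' x' y' →
      s(x, y) = s(x', y') → i = i' := fun i i' x y x' y' c c' e o o' q => by
    refine h.side_one sd e o ?_ (iff_of_true c c')
    rcases Sym2.eq_iff.1 q with ⟨rfl, rfl⟩ | ⟨rfl, rfl⟩
    exacts [o', o'.symm]
  have nc : ∀ i z o g j u v s, i ∈ F → j ∈ F → m.Fc i z o g → E4 a b c d o g → m.Fc j u v s →
      s(o, g) ≠ s(u, v) := fun i z o g j u v s c c' f e f' q => by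
    obtain rfl := key i j o g u v c c' e ⟨f.has2, f.has3⟩ f'.on q
    obtain ⟨-, n2, n3⟩ := h.fc_ne f'
    have := f.2.symm.trans f'.2
    rcases Sym2.eq_iff.1 q with ⟨-, rfl⟩ | ⟨-, rfl⟩
    exacts [n3 this, n2 this]
  obtain ⟨f1, z1, o1, g1, c1, e1⟩ := H' j₁ (by simp)
  obtain ⟨f2, z2, o2, g2, c2, e2⟩ := H' j₂ (by simp)
  obtain ⟨f3, z3, o3, g3, c3, e3⟩ := H' j₃ (by simp)
  refine key j k u v u' v' jF kF e f.on f'.on ?_
  have n12 := mt (key _ _ _ _ _ _ f1 f2 e1 ⟨c1.has2, c1.has3⟩ ⟨c2.has2, c2.has3⟩) b1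
  have n13 := mt (key _ _ _ _ _ _ f1 f3 e1 ⟨c1.has2, c1.has3⟩ ⟨c3.has2, c3.has3⟩) b2
  have n23 := mt (key _ _ _ _ _ _ f2 f3 e2 ⟨c2.has2, c2.has3⟩ ⟨c3.has2, c3.has3⟩) b3
  have := nc _ _ _ _ _ _ _ _ f1 jF c1 e1 f
  have := nc _ _ _ _ _ _ _ _ f2 jF c2 e2 f
  have := nc _ _ _ _ _ _ _ _ f3 jF c3 e3 f
  have := nc _ _ _ _ _ _ _ _ f1 kF c1 e1 f'
  have := nc _ _ _ _ _ _ _ _ f2 kF c2 e2 f'
  have := nc _ _ _ _ _ _ _ _ f3 kF c3 e3 f'
  simp only [E4] at e e' e1 e2 e3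
  generalize s(o1, g1) = p1 at *; generalize s(o2, g2) = p2 at *; generalize s(o3, g3) = p3 at *
  generalize s(u, v) = p at *; generalize s(u', v') = p' at *
  grind

/-- the second line at a solid corner -/
theorem turn (so : m.Sol W k) (c : m.cor k z) (g : m.hug k t) :
    ∃ w, W z w ∧ m.On k z w ∧ m.ln z w ≠ t ∧ m.hug k (m.ln z w) := by
  obtain ⟨y, f⟩ := c.ge
  obtain ⟨w1, w2, -⟩ := st.sol_w h so f
  obtain ⟨l1, l2, -, l3⟩ := h.lines f (st.sol_inf h so)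
  rcases g with rfl | rfl
  exacts [⟨_, w2, ⟨f.fc.has1, f.fc.has3⟩, l2 ▸ l3.symm, .inr l2.symm⟩,
    ⟨_, w1, f.fc.on, l1 ▸ l3, .inl l1.symm⟩]

omit st in
/-- a cell has one piece on a line at its corner -/
theorem cor_piece (ji : j ≠ m.inf) (c : m.cor j z) (o : m.On j z u) (o' : m.On j z w) (d : z ≠ u)
    (d' : z ≠ w) (l : m.ln z u = m.ln z w) : u = w := by
  obtain ⟨y, f⟩ := c.ge
  obtain ⟨l1, l2, -, l3⟩ := h.lines f ji
  have := f.fc.has_iff.1 o.2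
  have := f.fc.has_iff.1 o'.2
  grind

omit h st in
theorem _root_.Pool.Agent.P.MP_5f84aa_co.G.Map.Sid.tc (a : m.Sid ps W z t j k) : m.Tc j z t :=
  let ⟨u, o, b⟩ := a.fst; ⟨u, b.1.1, o, b.2.1⟩

variable (g : m.Ord ps)
include g

theorem sid_row (a : m.Sid ps W z t j k) (b : m.Sgm ps t j k x y) : x = z ∨ y = z :=
  st.wk_row h g a.wk a.fst a.lst b

theorem sid_rev (a : m.Sid ps W z t j k) : m.Sid ps W z t k j := by
  obtain ⟨x, y, -, o, b⟩ := a.wk.p2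
  rcases st.sid_row h g a b with rfl | rfl
  exacts [⟨a.wk.rev, ⟨_, o, b.rev⟩, a.tc⟩, ⟨a.wk.rev, ⟨_, o.symm, (b.symm h).rev⟩, a.tc⟩]

/-- the walk along the side of a cell -/
theorem nxt [Finite J] (w : W z u) (o : m.On j z u) :
    ∃ k, m.Sid ps W z (m.ln z u) j k ∧ m.Sgm ps (m.ln z u) j k z u ∧ (¬ m.Sol W k ∨ m.cor k z) :=
  let ⟨k, a, b, c, d⟩ := st.next h g w o; ⟨k, ⟨a, ⟨u, o, b⟩, c⟩, b, d⟩

omit h st in
/-- `z` is flat inside its segment -/
theorem sid_flat (a : m.Sid ps W z t j k) (ni : n ≠ m.inf) (c : m.hug n t) (b : Bt ps t j n k) :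
    m.X n = z ∧ m.bar n = t :=
  ⟨g.flat a.wk.i1 ni a.wk.i2 a.tc c a.lst b, g.bar_of_bt a.wk.i1 ni a.wk.i2 a.wk.h1 c a.wk.h2 b⟩

/-- the step over a face at a cell that carries a segment -/
theorem sid_step (a : m.Sid ps W z t j k) (b : m.Sgm ps t j k z u) (f : m.Tri n z u w) (d : w ≠ z)
    (d' : u ≠ w) : (m.Fc n u w z ∧ m.Sgm ps t j k z w) ∨ n = j ∨ n = k := by
  by_contra q
  obtain ⟨q1, q⟩ := not_or.1 q
  obtain ⟨q2, q3⟩ := not_or.1 q
  obtain ⟨ni, bw⟩ := b.2.2 n ⟨f.1, f.2.1⟩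
  have c : m.hug n t := b.2.1 ▸ h.hug_on ni ⟨f.1, f.2.1⟩ b.1.1
  have bt := g.bt_of a.wk.i1 ni a.wk.i2 a.wk.h1 c a.wk.h2 bw q2 q3
  obtain ⟨e, br⟩ := sid_flat g a ni c bt
  rcases h.tri_cases f b.1.1 d.symm d' with f | f | f
  · exact d (f.2.symm.trans e)
  · exact q1 ⟨f, (st.wk_land h g a.wk f.symm br ni bt).symm h⟩
  · exact b.1.1 (e.symm.trans f.2)

omit st g in
/-- the piece on the line at a corner belongs to the segment -/
theorem sid_cor (a : m.Sid ps W z t j k) (c : m.cor j z) (o : m.On j z w) (d : z ≠ w)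
    (l : m.ln z w = t) : m.Sgm ps t j k z w :=
  let ⟨_, o', b⟩ := a.fst
  cor_piece h a.wk.i1 c o' o b.1.1 d (b.2.1.trans l.symm) ▸ b

/-- a closed chain of segments carries all the walls of a cell with one solid arc -/
theorem cover (se : m.Sect W z) (A : Sg → J → J → Prop)
    (sid : ∀ t j k, A t j k → m.Sid ps W z t j k)
    (cl : ∀ t j k, A t j k → ∀ n, n = j ∨ n = k → m.Sol W n →
      m.cor n z ∧ ∃ t' k', t' ≠ t ∧ (A t' n k' ∨ A t' k' n))
    (ne : A t j k) (w : W z u) : ∃ t j k, A t j k ∧ m.Sgm ps t j k z u := by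
  obtain ⟨v, -, b⟩ := (sid _ _ _ ne).fst
  refine se (fun u => ∃ t j k, A t j k ∧ m.Sgm ps t j k z u) ?_ v u
    (st.wk_w h g (sid _ _ _ ne).wk b) w ⟨_, _, _, ne, b⟩
  rintro n u w so f d1 d2 d3 ⟨t, j, k, a, b⟩
  rcases st.sid_step h g (sid _ _ _ a) b f d2 d3 with q | q
  · exact ⟨_, _, _, a, q.2⟩
  obtain ⟨c, t', k', d, a'⟩ := cl _ _ _ a n q so
  have ni := st.sol_inf h so
  have key : m.hug n t' → m.ln z w = t' := fun e => by
    obtain ⟨x, n1, o, l⟩ := h.tc_cor ni c e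
    rcases (h.tri_has f d1.symm d2.symm d3).1 o.2 with rfl | rfl | rfl
    exacts [absurd rfl n1, absurd (l.symm.trans b.2.1) d, l]
  rcases a' with a' | a'
  · exact ⟨_, _, _, a', sid_cor h (sid _ _ _ a') c ⟨f.1, f.2.2⟩ d2.symm (key (sid _ _ _ a').wk.h1)⟩
  · exact ⟨_, _, _, a', (sid_cor h (st.sid_rev h g (sid _ _ _ a')) c ⟨f.1, f.2.2⟩ d2.symm
      (key (sid _ _ _ a').wk.h2)).rev⟩

/-- no solid corner -/
theorem cover0 (se : m.Sect W z) (a : m.Sid ps W z t i i') (oi : ¬ m.Sol W i) (oi' : ¬ m.Sol W i')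
    (w : W z u) : m.Sgm ps t i i' z u := by
  obtain ⟨_, _, _, ⟨rfl, rfl, rfl⟩, b⟩ := st.cover h g se (fun a b c => a = t ∧ b = i ∧ c = i')
    (by rintro _ _ _ ⟨rfl, rfl, rfl⟩; exact a)
    (by rintro _ _ _ ⟨rfl, rfl, rfl⟩ n (rfl | rfl) so <;> contradiction) ⟨rfl, rfl, rfl⟩ w
  exact b

/-- one solid corner `k` -/
theorem cover1 (se : m.Sect W z) (a : m.Sid ps W z t i k) (a' : m.Sid ps W z t' k i')
    (oi : ¬ m.Sol W i) (oi' : ¬ m.Sol W i') (c : m.cor k z) (d : t ≠ t') (w : W z u) :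
    m.Sgm ps t i k z u ∨ m.Sgm ps t' k i' z u := by
  obtain ⟨_, _, _, ⟨rfl, rfl, rfl⟩ | ⟨rfl, rfl, rfl⟩, b⟩ := st.cover h g se
    (fun a b c => (a = t ∧ b = i ∧ c = k) ∨ (a = t' ∧ b = k ∧ c = i'))
    (by rintro _ _ _ (⟨rfl, rfl, rfl⟩ | ⟨rfl, rfl, rfl⟩) <;> assumption)
    (by
      rintro _ _ _ (⟨rfl, rfl, rfl⟩ | ⟨rfl, rfl, rfl⟩) n (rfl | rfl) so
      exacts [absurd so oi, ⟨c, _, _, d.symm, .inl (.inr ⟨rfl, rfl, rfl⟩)⟩,
        ⟨c, _, _, d, .inr (.inl ⟨rfl, rfl, rfl⟩)⟩, absurd so oi']) (.inl ⟨rfl, rfl, rfl⟩) w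
  exacts [.inl b, .inr b]

/-- two solid corners `k`, `k'` -/
theorem cover2 (se : m.Sect W z) (a : m.Sid ps W z t i k) (a' : m.Sid ps W z t' k k')
    (a'' : m.Sid ps W z t'' k' i') (oi : ¬ m.Sol W i) (oi' : ¬ m.Sol W i') (c : m.cor k z)
    (c' : m.cor k' z) (d : t ≠ t') (d' : t' ≠ t'') (w : W z u) :
    m.Sgm ps t i k z u ∨ m.Sgm ps t' k k' z u ∨ m.Sgm ps t'' k' i' z u := by
  obtain ⟨_, _, _, ⟨rfl, rfl, rfl⟩ | ⟨rfl, rfl, rfl⟩ | ⟨rfl, rfl, rfl⟩, b⟩ := st.cover h g se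
    (fun a b c => (a = t ∧ b = i ∧ c = k) ∨ (a = t' ∧ b = k ∧ c = k') ∨ (a = t'' ∧ b = k' ∧ c = i'))
    (by rintro _ _ _ (⟨rfl, rfl, rfl⟩ | ⟨rfl, rfl, rfl⟩ | ⟨rfl, rfl, rfl⟩) <;> assumption)
    (by
      rintro _ _ _ (⟨rfl, rfl, rfl⟩ | ⟨rfl, rfl, rfl⟩ | ⟨rfl, rfl, rfl⟩) n (rfl | rfl) so
      exacts [absurd so oi, ⟨c, _, _, d.symm, .inl (.inr (.inl ⟨rfl, rfl, rfl⟩))⟩,
        ⟨c, _, _, d, .inr (.inl ⟨rfl, rfl, rfl⟩)⟩,
        ⟨c', _, _, d'.symm, .inl (.inr (.inr ⟨rfl, rfl, rfl⟩))⟩,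
        ⟨c', _, _, d', .inr (.inr (.inl ⟨rfl, rfl, rfl⟩))⟩, absurd so oi']) (.inl ⟨rfl, rfl, rfl⟩) w
  exacts [.inl b, .inr (.inl b), .inr (.inr b)]

omit g in
/-- an interior cell has one solid arc -/
theorem sect_int (b : ¬ m.Bdy W z) : m.Sect W z := fun S cl u w wu ww su => by
  have so : ∀ j, m.has j z → m.Sol W j := fun j a => by_contra fun n => b ⟨j, a, n⟩
  have key : ∀ j, m.has j z → ∀ x, m.has j x → x ≠ z → S x → ∀ y, m.has j y → y ≠ z → S y :=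
    fun j a x hx d sx y hy d' => by
      by_cases e : x = y
      exacts [e ▸ sx, cl j x y (so j a) ⟨a, hx, hy⟩ d d' e sx]
  obtain ⟨d, j, o⟩ := st.adj _ _ wu
  obtain ⟨d', k, o'⟩ := st.adj _ _ ww
  have := h.lk0 (F := {j | m.has j z → ∀ y, m.has j y → y ≠ z → S y}) (v := z) ?_ o.1 o'.1
    fun _ => key j o.1 u o.2 d.symm su
  · exact this o'.1 w o'.2 d'.symm
  rintro x ⟨n, i, i', p, p', c, c'⟩
  exact c' fun _ => key i' p'.1 x p'.2 n.symm (c p.1 x p.2 n.symm)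

omit g in
/-- a cell with two solid arcs cuts the walls -/
theorem not_sect [Finite V] [Finite J] (n : ¬ m.Sect W z) : ∃ Z : Set V, z ∉ Z ∧
    (∀ u v, W u v → u ≠ z → v ≠ z → u ∈ Z → v ∈ Z) ∧ (∃ u, W z u ∧ u ∈ Z) ∧ ∃ w, W z w ∧ w ∉ Z := by
  unfold Sect at n
  push Not at n
  obtain ⟨S, cl, u, w, wu, ww, su, sw⟩ := n
  obtain ⟨Z, hZ⟩ := st.cut h (ρ := fun p q => (p = z ∧ q ≠ z ∧ S q) ∨ (q = z ∧ p ≠ z ∧ S p))
    (fun _ _ => Or.symm) fun j so => by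
      have f := fc_self (m := m) j
      obtain ⟨n1, n2, n3⟩ := h.fc_ne f
      have c := fun u w => cl j u w so
      have t1 := f.has1; have t2 := f.has2; have t3 := f.has3
      unfold Ev
      by_cases e1 : m.L j = z
      · have := c _ _ ⟨e1 ▸ t1, t2, t3⟩ (e1 ▸ n1.symm) (e1 ▸ n2.symm) n3
        have := c _ _ ⟨e1 ▸ t1, t3, t2⟩ (e1 ▸ n2.symm) (e1 ▸ n1.symm) n3.symm
        grind
      by_cases e2 : m.R j = z
      · have := c _ _ ⟨e2 ▸ t2, t1, t3⟩ e1 (e2 ▸ n3.symm) n2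
        have := c _ _ ⟨e2 ▸ t2, t3, t1⟩ (e2 ▸ n3.symm) e1 n2.symm
        grind
      by_cases e3 : m.X j = z
      · have := c _ _ ⟨e3 ▸ t3, t1, t2⟩ e1 e2 n1
        have := c _ _ ⟨e3 ▸ t3, t2, t1⟩ e2 e1 n1.symm
        grind
      grind
  have a1 := hZ z u wu
  have a2 := hZ z w ww
  have := (st.ne wu).symm
  have := (st.ne ww).symm
  by_cases e : z ∈ Z
  · refine ⟨Zᶜ, fun q => q e, fun p q w d d' => ?_, ⟨u, wu, by grind⟩, w, ww, by grind⟩
    have := hZ p q w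
    simp only [Set.mem_compl_iff]
    tauto
  · refine ⟨Z, e, fun p q w d d' => ?_, ⟨u, wu, by grind⟩, w, ww, by grind⟩
    have := hZ p q w
    tauto

end HSt

end Map

end Pool.Agent.P.MP_5f84aa_co.G
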