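import Pool.Agent.P.MP_5f84aa_co.G.LG0
import Pool.Agent.P.MP_5f84aa_co.G.LQ

/-! Type GG: rotation of corners, three corners, the context. -/

namespace Pool.Agent.P.MP_5f84aa_co.G

namespace Map

variable {V J Sg : Type} {m : Map V J Sg} {ps : J → Sg → ℤ} {t : Sg}
  {a b c p q s u v w x y z : V} {i j j' k k' : J}

namespace Ok

variable (h : m.Ok)
include h

/-- rotation: a set of corners that is closed under the passage over the flat piece -/
theorem rot_cor [Finite J] {C : Set J} (ne : C.Nonempty)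
    (c : ∀ j ∈ C, m.cor j z ∧ ∃ j' ∈ C, m.GE j' z (m.X j)) (a : m.has k z) : k ∈ C := by
  choose! cr f fC fg using c
  have zx : ∀ j ∈ C, z ≠ m.X j := fun j q => (h.fc_ne (fg j q)).1
  have fn : ∀ j ∈ C, f j ≠ j := fun j q e => (h.fc_ne (fg j q)).2.2 (by rw [e])
  have on : ∀ j ∈ C, m.On j z (m.X j) := fun j q => ⟨(cr j q).has, .inr (.inr rfl)⟩
  have inj : Set.InjOn f C := fun i p j q e => by
    have e' : m.X i = m.X j := ((fg i p).fc.unique (e ▸ (fg j q).fc) (zx i p)).1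
    rcases h.two_faces (zx i p) (on i p) (fg i p).fc.on (e' ▸ on j q) (fn i p).symm with r | r
    exacts [r.symm, absurd (e ▸ r.symm) (fn j q)]
  have sur : Set.SurjOn f C C :=
    ((Set.toFinite C).injOn_iff_bijOn_of_mapsTo fC |>.1 inj).surjOn
  obtain ⟨j, jC⟩ := ne
  refine h.lk0 (F := C) (fun w ⟨d, i, i', o, o', iC, iC'⟩ => iC' ?_) (cr j jC).has a jC
  obtain ⟨n, nC, rfl⟩ := sur iC
  have nn : f n ≠ i' := fun e => iC' (e ▸ iC)
  rcases (fg n nC).fc.has_iff.1 o.2 with rfl | rfl | rfl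
  · exact absurd rfl d
  · rcases h.two_faces d o o' (on n nC) nn with e | e
    exacts [absurd e.symm (fn n nC), e ▸ nC]
  · rcases h.two_faces d o o' (fg _ iC).fc.on nn with e | e
    exacts [absurd e (fn _ iC), e ▸ fC _ iC]

/-- three corners that lie pairwise on three lines are all the corners -/
theorem tri_close [Finite J] {k₁ k₂ k₃ : J} {t₁ t₂ t₃ : Sg} (bz : m.Bd z) (c1 : m.cor k₁ z)
    (c2 : m.cor k₂ z) (c3 : m.cor k₃ z) (d12 : k₁ ≠ k₂) (d13 : k₁ ≠ k₃) (d23 : k₂ ≠ k₃)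
    (e12 : t₁ ≠ t₂) (e13 : t₁ ≠ t₃) (e23 : t₂ ≠ t₃) (h12 : m.hug k₁ t₂) (h13 : m.hug k₁ t₃)
    (h21 : m.hug k₂ t₁) (h23 : m.hug k₂ t₃) (h31 : m.hug k₃ t₁) (h32 : m.hug k₃ t₂)
    (a : m.has k z) : k = k₁ ∨ k = k₂ ∨ k = k₃ ∨
      (m.X k = z ∧ (m.bar k = t₁ ∨ m.bar k = t₂ ∨ m.bar k = t₃)) := by
  refine h.lk0 (F := {k | k = k₁ ∨ k = k₂ ∨ k = k₃ ∨
    (m.X k = z ∧ (m.bar k = t₁ ∨ m.bar k = t₂ ∨ m.bar k = t₃))})
    (fun w ⟨d, i, i', o, o', iC, iC'⟩ => iC' ?_) c1.has a (.inl rfl)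
  have g := h.hug_on (bz.ne_inf o.1) o d
  have g' := h.hug_on (bz.ne_inf o'.1) o' d
  have l : m.ln z w = t₁ ∨ m.ln z w = t₂ ∨ m.ln z w = t₃ := by
    rcases iC with rfl | rfl | rfl | ⟨e, q⟩
    · unfold hug at *; grind
    · unfold hug at *; grind
    · unfold hug at *; grind
    · rcases h.piece (bz.ne_inf o.1) o d with ⟨f, -⟩ | ⟨-, l⟩
      exacts [absurd e.symm (h.fc_ne f).2.1, l ▸ q]
  rcases o'.1 with e | e | e
  rotate_left 2
  · rcases h.piece (bz.ne_inf o'.1) o' d with ⟨f, -⟩ | ⟨-, l'⟩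
    exacts [absurd e (h.fc_ne f).2.1, .inr (.inr (.inr ⟨e.symm, l' ▸ l⟩))]
  all_goals
    have c : m.cor i' z := by simp [cor, e]
    rcases l with l | l | l <;> rw [l] at g'
    · have := h.side2 bz c2 c3 c h21 h31 g' d23
      simp only [Set.mem_ofPred_eq]; tauto
    · have := h.side2 bz c1 c3 c h12 h32 g' d13
      simp only [Set.mem_ofPred_eq]; tauto
    · have := h.side2 bz c1 c2 c h13 h23 g' d12
      simp only [Set.mem_ofPred_eq]; tauto

end Ok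

/-- the hypotheses of the local lemma at a centre without rungs -/
structure GG [DecidableEq V] (m : Map V J Sg) (ps : J → Sg → ℤ) (T : Set Sg) (N : V → Prop)
    (U : Finset V) (W : V → V → Prop) (μ : V → ℕ) (a : V) (P : V → Prop) : Prop where
  ok : m.Ok
  ext : m.Ext
  ord : m.Ord ps
  cn : m.Cn 8 T N U W (Star a P) (m.Alv a P) a μ
  ss : ∀ u u' w j j', N u → N u' → N w → m.far j j' → m.GE j u u' → m.GP u w →
    w = u' ∨ w = m.X j ∨ w = m.X j'
  s0 : ∀ u, N u → ¬ m.Rn a u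
  wf : ∃ k, m.X k = a
  pg : ∀ v, P v → m.GP a v
  gp : ∀ v, N v → m.GP a v → P v

/-- a living good pair -/
structure Gd (m : Map V J Sg) (W : V → V → Prop) (a : V) (P : V → Prop) (x y : V) : Prop where
  ne : x ≠ y
  nb : ¬ m.Bad a x y
  px : P x
  py : P y
  wx : W a x
  wy : W a y

variable {T : Set Sg} {N P : V → Prop} {U : Finset V} {W : V → V → Prop} {μ : V → ℕ}

theorem Gd.symm (g : m.Gd W a P x y) : m.Gd W a P y x :=
  ⟨g.ne.symm, fun e => g.nb e.symm, g.py, g.px, g.wy, g.wx⟩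

namespace GG

variable [DecidableEq V] (G : m.GG ps T N U W μ a P)
include G

theorem st : m.HSt U W := G.cn.st

theorem good : ∃ x y, m.Gd W a P x y :=
  let ⟨x, y, a1, a2, a3, a4, a5, a6⟩ := G.cn.alive; ⟨x, y, a1, a2, a3, a4, a5, a6⟩

theorem loc (g : m.Gd W a P x y) : m.Loc T N U W μ a x y :=
  G.cn.loc G.ok (fun _ _ q => q.imp And.left And.left) g.wx g.wy g.ne (G.pg _ g.px) (G.pg _ g.py)
    fun _ _ w w' => ⟨x, y, g.ne, g.nb, g.px, g.py, w, w'⟩

theorem ne_a (e : P p) : p ≠ a := let ⟨_, g⟩ := G.pg p e; (G.ok.fc_ne g).1.symm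

end GG

end Map

end Pool.Agent.P.MP_5f84aa_co.G
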