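import Pool.Agent.P.MP_5f84aa_co.G.LG2a
import Pool.Agent.P.MP_5f84aa_co.G.LGc

/-! Type GG with the centre on the ring, part b: a ray enters the centre or one of its partners. -/

namespace Pool.Agent.P.MP_5f84aa_co.G

namespace Map

variable {V J Sg : Type}

/-- no cut run, no cut cell, and the centre lies on the ring -/
structure GB [DecidableEq V] (m : Map V J Sg) (ps : J → Sg → ℤ) (T : Set Sg) (N : V → Prop)
    (U : Finset V) (W : V → V → Prop) (μ : V → ℕ) (a : V) (P : V → Prop) : Prop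
    extends m.GG ps T N U W μ a P where
  nc : ∀ t j k, m.Wk ps W t j k → m.Sol W j ∨ m.Sol W k
  cv : ∀ v, m.Sect W v
  ba : m.Bdy W a

variable {m : Map V J Sg} {ps : J → Sg → ℤ} {t : Sg} {T : Set Sg} {N P : V → Prop} {U : Finset V}
  {W : V → V → Prop} {μ : V → ℕ} {a p q u v w x y z X : V} {e i j k o : J}

theorem mem4a [DecidableEq V] (u : V) :
    u ∈ ({x, w, a, y} : Finset V) ↔ u = w ∨ u ∈ ({x, a, y} : Finset V) := by simp; tauto

theorem mem4b [DecidableEq V] (u : V) :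
    u ∈ ({y, w, a, x} : Finset V) ↔ u = w ∨ u ∈ ({x, a, y} : Finset V) := by simp; tauto

namespace GB

variable [DecidableEq V] [Finite V] [Finite J] (G : m.GB ps T N U W μ a P)
include G

omit [Finite V] in
theorem ray (w : W u v) (on : m.On o u v) (op : ¬ m.Sol W o) :
    ∃ e, m.Ray ps W (m.ln u v) o e ∧ m.Sgm ps (m.ln u v) o e u v :=
  let ⟨e, a, b, c⟩ := G.st.ray G.ok G.ord w on
  have so := (G.nc _ _ _ a).resolve_left op
  ⟨e, ⟨a, op, so, c.resolve_left (not_not.2 so)⟩, b⟩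

omit [Finite V] in
/-- a side from an open face to a landing lies on a ray that passes the landing -/
theorem lpas (c : m.Sid ps W v t o k) (op : ¬ m.Sol W o) (f : m.Fc k v z X) (br : m.bar k = t) :
    ∃ e, m.Ray ps W t o e ∧ m.Pas ps t o e k v z X := by
  obtain ⟨u, on, b⟩ := c.fst
  obtain ⟨e, R, b'⟩ := G.ray (G.st.wk_w G.ok G.ord c.wk b) on op
  rw [b.2.1] at R b'
  exact ⟨e, R, (HSt.wk_le G.ok G.ord c.wk R.wk R.st b b').resolve_left
    (fun d => G.ok.stem_ne k c.wk.i2 ((d ▸ R.st).trans br.symm)), f, br,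
    G.st.sid_lbar G.ok G.ord c f br⟩

omit [Finite V] in
/-- the first corner behind an open face -/
theorem first (w : W v u) (on : m.On o v u) (op : ¬ m.Sol W o) :
    ∃ k, m.Sid ps W v (m.ln v u) o k ∧ m.Sol W k ∧ m.cor k v :=
  let ⟨k, a, _, c⟩ := G.st.nxt G.ok G.ord w on
  have so := (G.nc _ _ _ a.wk).resolve_left op
  ⟨k, a, so, c.resolve_left (not_not.2 so)⟩

/-- (A1) no ray passes a landing into the centre -/
theorem a1 (R : m.Ray ps W t o e) (q : m.Pas ps t o e k p a X) : False := by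
  obtain ⟨x, y, g⟩ := G.good
  have L := G.loc g
  have h := G.ok
  have r := G.ord
  have s := G.st
  obtain ⟨i, w, gi, si, c, ⟨u, b⟩, -⟩ := s.nxt_cor h r R.wk R.so R.st q
  have pa := (h.fc_ne q.fc).1
  have aw := (h.fc_ne gi).1
  obtain ⟨Z, hZ, z⟩ := s.beyond h r R.wk R.op q (D := {a}) (s.del_bdy h (by simpa using G.ba))
    (by simp) (by simpa using pa) (fun _ _ _ d => by simpa using d)
  have n1 := L.n1 (s.sol_w h (HSt.pas_sol R.wk q) q.fc.symm).1
  have n2 := L.n1 (s.sol_w h si gi).1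
  exact z w u b aw.symm (s.sw h r
    (L.nm1 h q.fc.symm L.na n1 (fun j c => G.s0 p (L.near _ n1) ⟨k, j, c, q.fc.symm.ge⟩) G.ba)
    (L.nm1 h gi L.na n2 (fun j c => G.s0 w (L.near _ n2) ⟨i, j, c, gi⟩) G.ba)
    (Finset.mem_singleton_self _) (Finset.mem_singleton_self _) (.inr q.br) c.wk.h2
    (s.pas_wk h r R.wk q).1 R.op (D := {a}) subset_rfl (by simpa using pa) (by simpa using aw.symm)
    (by simp [or_comm]) (by simp [or_comm]) hZ)

/-- the centre lies on a ray from the first piece on -/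
theorem aon (R : m.Ray ps W t o e) (b : m.Sgm ps t o e a w) :
    ∃ u, m.On o a u ∧ m.Sgm ps t o e a u :=
  (G.st.back G.ok G.ord R.wk b).resolve_right fun ⟨_, _, _, q⟩ => G.a1 R q

variable (g : m.Gd W a P x y)
include g

omit [Finite V] [Finite J] in
/-- (Sx) a rung at `x` has the flat cell `a` -/
theorem sx (f : m.GE i x w) (xw : W x w) (r : m.far i j) (d : m.X i ≠ a) : m.X j = a := by
  have L := G.loc g
  obtain ⟨k, c⟩ := L.gx
  rcases G.ss x w a i j (L.near _ (L.n1 L.wx)) (L.near _ (L.n2 L.wx xw)) (L.near _ L.na) r f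
    ⟨k, c.symm⟩ with e | e | e
  exacts [absurd ⟨i, j, r, e ▸ f.symm⟩ (G.s0 x (L.near _ (L.n1 L.wx))), absurd e.symm d, e.symm]

omit [Finite J] in
theorem two (f : m.Fc i x w X) (so : m.Sol W i) (d : w ≠ a) (d' : w ≠ y)
    (sf : X ≠ a ∨ ∀ j, ¬ m.far i j) : ∃ M, i ∈ M ∧ m.Nm T U W μ {x, w, a, y} M := by
  classical
  have xw := (G.st.sol_w G.ok so f).1
  exact (G.loc g).nm2 G.ok G.s0 G.ba f xw d d' fun j r =>
    G.sx g f.ge xw r (f.2 ▸ sf.resolve_right fun n => n j r)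

/-- (A2) a ray passes a landing into the partner `x` -/
theorem a2 (R : m.Ray ps W t o e) (q : m.Pas ps t o e k p x X) (l : m.ln a x ≠ t) (pa : p ≠ a)
    (py : p ≠ y) (al : X = y → ¬ m.GE e x y) : False := by
  have L := G.loc g
  have h := G.ok
  have r := G.ord
  have s := G.st
  obtain ⟨a1, a2⟩ := s.pas_wk h r R.wk q
  have Xa : X ≠ a := fun c => l ((h.ln_symm _ _).trans (c ▸ (h.lines q.fc q.ni).2.2.1.trans q.br))
  have na : ∀ w, ¬ m.Sgm ps t k e a w := fun w b => by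
    obtain ⟨u, on, b'⟩ := G.aon R (b.tail q.bt.bw)
    obtain ⟨-, i, o1⟩ := b.1
    obtain ⟨i', -, o2, -, -, -, d⟩ := b.two h r o1
    have key : ∀ n, m.On n a w → Bt ps t o k n → False := fun n c bt =>
      Xa (q.fc.2.symm.trans (r.flat R.wk.i1 q.ni (b.2.2 n c).1 (b'.tc on) (.inr q.br) (b.tc c) bt))
    have := mt (key i o1) id
    have := mt (key i' o2) id
    have := (b.2.2 i o1).2
    have := (b.2.2 i' o2).2
    have := q.bt
    unfold Bt Bw at *
    omega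
  obtain ⟨κ, gκ⟩ := L.gx
  obtain ⟨px, -, xX⟩ := h.fc_ne q.fc
  obtain ⟨Z, hZ, z⟩ := s.beyond h r R.wk R.op q (D := {a, x}) (s.del_pair0 h gκ (.inl G.ba))
    (by simp) (by simp [pa, px]) fun u w b d => by
      rcases (by simpa using d : u = a ∨ u = x) with rfl | d
      exacts [absurd b (na w), d]
  obtain ⟨M, iM, n⟩ := G.two g q.fc.symm (HSt.pas_sol R.wk q) pa py (.inl Xa)
  have fin : ∀ {D M' w u i}, m.Nm T U W μ D M' → i ∈ M' → m.hug i t → m.Sgm ps t k e w u → w ≠ x →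
      w ≠ y → (∀ u, u ∈ D ↔ u = w ∨ u ∈ ({x, a, y} : Finset V)) → False :=
    fun {_ _ w _ _} n' c g' b d d' e' => z _ _ b d (s.sw h r n n' iM c (.inr q.br) g' a1 R.op
      (D := {x, a, y}) (by simp [Finset.insert_subset_iff]) (by simp [pa, px, py])
      (by simp [d, d', show w ≠ a from fun c => na _ (c ▸ b)]) mem4a e' hZ)
  have nf : ∀ j, ¬ m.far e j := fun j c => h.far_not_bar c q.ni (R.st.trans q.br.symm)
  have us : ∀ {k' i c w}, m.Wk ps W t k' e → Bw ps t k k' e → (i = e ∨ m.Pas ps t k' e i c w (m.X i)) →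
      m.X i ≠ a ∨ ∀ j, ¬ m.far i j := fun _ b c => by
    rcases c with rfl | c
    exacts [.inr nf, .inl fun d => na _ (((d ▸ c.sg.mono c.bt.bw).tail b).symm h)]
  obtain ⟨i, w, gi, si, c, ⟨u, b⟩, hi⟩ := s.nxt_cor h r R.wk R.so R.st q
  have wx := (h.fc_ne gi).1.symm
  by_cases wy : w = y
  swap
  · obtain ⟨M', c', n'⟩ := G.two g gi si (fun c => na _ (c ▸ b)) wy (us a2 (.left _ _ _ _) hi)
    exact fin n' c' c.wk.h2 b wx wy mem4a
  subst wy
  rcases hi with rfl | q'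
  · rcases s.back h r a2 b with ⟨u', on, b'⟩ | ⟨i', p', X', q'⟩
    · rcases s.wk_first h r a2 (s.wk_w h r a2 (s.pas_next h r R.wk q)) ⟨q.fc.has2, q.fc.has3⟩
        (s.pas_next h r R.wk q) on b' with ⟨c, -⟩ | ⟨c, -⟩
      exacts [wx c, al c.symm gi]
    · obtain rfl : X' = x := q'.fc.2.symm.trans (HSt.sid_flat r c q'.ni (.inr q'.br) q'.bt).1
      have b' := q'.sg.mono q'.bt.bw
      obtain ⟨M', c', n'⟩ := G.two g.symm q'.fc.symm (HSt.pas_sol a2 q') (fun c => na _ (c ▸ b'))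
        b'.1.1 (.inl (s.ne L.wx).symm)
      exact fin n' c' (.inr q'.br) b' b'.1.1 (h.fc_ne q'.fc).1 mem4b
  · obtain ⟨i', w', gi', si', c', ⟨u', b'⟩, hi'⟩ := s.nxt_cor h r a2 R.so R.st q'
    have b2 := b'.tail q'.bt.bw
    have d : w' ≠ x := by
      rintro rfl
      have fr := h.far_of_fc (s.bd2 L.wx) c'.wk.ne gi gi'.symm
      rcases c'.wk.h2 with e' | e'
      exacts [h.stem_ne i q'.ni (((h.far_stem fr).trans e').trans q'.br.symm),
        h.far_bar fr (q'.br.trans e'.symm)]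
    obtain ⟨M', c2, n'⟩ := G.two g.symm gi' si' (fun c => na _ (c ▸ b2)) d
      (us (s.pas_wk h r a2 q').2 q'.bt.bw hi')
    exact fin n' c2 c'.wk.h2 b2 d (h.fc_ne gi').1.symm mem4b

/-- a ray passes a landing into the partner `x`: the cases that remain -/
theorem px (R : m.Ray ps W t o e) (q : m.Pas ps t o e k p x X) :
    (m.ln a x = t ∧ m.Sid ps W a t o e ∧ X = a) ∨ p = a ∨ p = y ∨ (X = y ∧ m.GE e x y) := by
  by_cases l : m.ln a x = t
  swap
  · by_contra n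
    simp only [not_or, not_and] at n
    exact G.a2 g R q l n.2.1 n.2.2.1 n.2.2.2
  have h := G.ok
  have r := G.ord
  have s := G.st
  obtain ⟨κ, gκ⟩ := (G.loc g).gx
  have bx := s.bd2 g.wx
  have st := (h.lines gκ (bx.ne_inf gκ.fc.has2)).1.symm.trans l
  obtain ⟨i, w, gi, si, c, ⟨u, b⟩, hi⟩ := s.nxt_cor h r R.wk R.so R.st q
  obtain rfl : κ = i := (h.side2 bx q.fc.cor2 gi.fc.cor1 gκ.fc.cor2 (.inr q.br) c.wk.h2 (.inl st)
    c.wk.ne).resolve_left fun d => h.stem_ne k q.ni ((d ▸ st).trans q.br.symm)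
  obtain rfl : κ = e := hi.resolve_right fun q' => h.stem_ne κ q'.ni (st.trans q'.br.symm)
  obtain rfl := (gi.fc.unique gκ.symm.fc (h.fc_ne gi).1).1
  have c' : m.Sid ps W w t o κ := ⟨R.wk, G.aon R (b.tail q.bt.bw), x, s.ne g.wx, gκ.fc.on, l⟩
  exact .inl ⟨l, c', q.fc.2.symm.trans (HSt.sid_flat r c' q.ni (.inr q.br) q.bt).1⟩

/-- (L-END) the ray along the first side of `v` passes the corner with the partner `x` -/
theorem lend (c : m.Sid ps W v t o k) (op : ¬ m.Sol W o) (f : m.Fc k v x X) (br : m.bar k = t)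
    (va : v ≠ a) (vy : v ≠ y) : (m.ln a x = t ∧ X = a ∧ ∀ u, m.Sgm ps t o k v u → u = a) ∨
      (X = y ∧ ∃ e, m.GE e x y ∧ m.Sol W e ∧ m.stem e = t) := by
  obtain ⟨e, R, q⟩ := G.lpas c op f br
  rcases G.px g R q with ⟨l, c', d⟩ | d | d | ⟨d, d'⟩
  exacts [.inl ⟨l, d, fun u b => G.st.sid_two G.ok G.ord c' (b.mono q.bt.bw) va⟩, absurd d va,
    absurd d vy, .inr ⟨d, e, d', R.so, R.st⟩]

omit g in
theorem lend_a (c : m.Sid ps W v t o k) (op : ¬ m.Sol W o) (f : m.Fc k v a X) : m.bar k ≠ t :=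
  fun br => let ⟨_, R, q⟩ := G.lpas c op f br; G.a1 R q

/-- (R-END) the ray along the first side of `v` ends at the corner with the partner `x` -/
theorem rend (c : m.Sid ps W v t o k) (op : ¬ m.Sol W o) (so : m.Sol W k) (f : m.Fc k v x X)
    (st : m.stem k = t) (va : v ≠ a) (vy : v ≠ y) :
    (m.Bdy W x ∧ ∀ u, m.Sgm ps t o k v u → u = x) ∨
      ∃ i w, m.Fc i w x v ∧ m.Sol W i ∧ m.Sgm ps t o k v w ∧ (w = a ∨ w = y) := by
  have h := G.ok
  have r := G.ord
  have s := G.st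
  have b := (s.sid_lstem h r c f st).symm h
  rcases s.back h r c.wk b with ⟨u, on, b'⟩ | ⟨i, w, X', q⟩
  · exact .inl ⟨⟨o, on.1, op⟩, fun u' b2 =>
      s.sid_two h r ⟨c.wk, ⟨u, on, b'⟩, b.tc f.on.symm⟩ b2 (h.fc_ne f).1⟩
  · obtain rfl : X' = v := q.fc.2.symm.trans (HSt.sid_flat r c q.ni (.inr q.br) q.bt).1
    refine .inr ⟨i, w, q.fc, HSt.pas_sol c.wk q, (q.sg.mono q.bt.bw).symm h, ?_⟩
    rcases G.px g ⟨c.wk, op, so, st⟩ q with ⟨-, -, d⟩ | d | d | ⟨d, -⟩
    exacts [absurd d va, .inl d, .inr d, absurd d vy]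

end GB

end Map

end Pool.Agent.P.MP_5f84aa_co.G
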