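import Pool.Agent.P.MP_5f84aa_co.G.LG1
import Pool.Agent.P.MP_5f84aa_co.G.LG2b

/-! Type GG with the centre on the ring, part d: no ring cell off the living pair has a door. -/

namespace Pool.Agent.P.MP_5f84aa_co.G

namespace Map

variable {V J Sg : Type} {m : Map V J Sg} {ps : J → Sg → ℤ} {t : Sg} {T : Set Sg} {N P : V → Prop}
  {U : Finset V} {W : V → V → Prop} {μ : V → ℕ} {a d u v w x y X X' : V} {c c' f j j' o o' : J}

/-- a quadrilateral with a door -/
theorem HSt.door_quad (h : m.Ok) (st : m.HSt U W) (g : m.Ord ps) (D : m.Door W j j' v d X X')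
    (gc : m.GE c v X) (sc : m.Sol W c) (gc' : m.GE c' v X') (sc' : m.Sol W c')
    (b : m.Sid ps W v (m.bar c) c c') (e : m.bar c' = m.bar c) : ¬ m.Bdy W v := by
  obtain ⟨n1, n2, n3⟩ := h.fc_ne D.f
  obtain ⟨-, n4, n5⟩ := h.fc_ne D.f'
  have b1 := HSt.sid_fst h b gc.fc
  have b2 := st.sid_lbar h g b gc'.fc e
  have fc : ∀ n u, m.On n v u → u = X ∨ u = d ∨ u = X' → n = j ∨ n = j' ∨ n = c ∨ n = c' := by
    rintro n u on (rfl | rfl | rfl)
    · have := h.two_faces n2 ⟨D.f.has1, D.f.has3⟩ gc.fc.on on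
        fun q => n3 ((q ▸ gc).fc.unique D.f n2).1.symm
      tauto
    · have := h.two_faces n1 D.f.on D.f'.on on D.r.1
      tauto
    · have := h.two_faces n4 ⟨D.f'.has1, D.f'.has3⟩ gc'.fc.on on
        fun q => n5 ((q ▸ gc').fc.unique D.f' n4).1.symm
      tauto
  rintro ⟨n, q, op⟩
  obtain ⟨u, _, -, d1, -, tr⟩ := h.two_more q
  have := h.adj_cl (fun u => (u = X ∨ u = d ∨ u = X') ∨ m.Sgm ps (m.bar c) c c' v u)
    (fun n u w tr _ d1 d2 q => by
      have key : n = j ∨ n = j' ∨ n = c ∨ n = c' →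
          (w = X ∨ w = d ∨ w = X') ∨ m.Sgm ps (m.bar c) c c' v w := by
        rintro (rfl | rfl | rfl | rfl)
        · have := D.f.has_iff.1 tr.2.2; tauto
        · have := D.f'.has_iff.1 tr.2.2; tauto
        · have := gc.fc.has_iff.1 tr.2.2; grind
        · have := gc'.fc.has_iff.1 tr.2.2; grind
      rcases q with q | q
      · exact key (fc n u ⟨tr.1, tr.2.1⟩ q)
      · have := st.sid_step h g b q tr d1 d2
        tauto) (h.adj13 D.f) (.inl (.inl rfl)) (On.adj ⟨tr.1, tr.2.1⟩ d1.symm)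
  rcases this with q | q
  · rcases fc n u ⟨tr.1, tr.2.1⟩ q with rfl | rfl | rfl | rfl
    exacts [op D.so, op D.so', op sc, op sc']
  · rcases HSt.sgm_sol h g b.wk q ⟨tr.1, tr.2.1⟩ with rfl | rfl | q
    exacts [op sc, op sc', op q.1]

namespace Dr

variable [DecidableEq V] [Finite J] (G : m.Dr ps T N U W μ a x y j j' v d X X')
include G

/-- (D2) the side behind an extra corner reaches an open face -/
theorem d2 (gc : m.GE c v X) (sc : m.Sol W c) (gc' : m.GE c' v X') (sc' : m.Sol W c') :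
    ∃ o, m.Sid ps W v (m.bar c) o c ∧ ¬ m.Sol W o := by
  have st := G.L.st
  have h := G.ok
  obtain ⟨n1, n2, n3⟩ := h.fc_ne G.dr.f
  obtain ⟨-, n4, n5⟩ := h.fc_ne G.dr.f'
  have ci := st.sol_inf h sc
  have jc : j ≠ c := fun q => n3 ((q ▸ gc).fc.unique G.dr.f n2).1.symm
  have jc' : j' ≠ c' := fun q => n5 ((q ▸ gc').fc.unique G.dr.f' n4).1.symm
  have lc : m.stem c = m.bar j := (h.lines gc.fc ci).1.symm.trans G.lX
  have lc' : m.stem c' = m.bar j' := (h.lines gc'.fc (st.sol_inf h sc')).1.symm.trans G.symm.lX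
  have nb : m.bar c ≠ m.bar j' := fun q => by
    rcases h.side2 (st.bd1 G.wd) G.dr.f'.cor1 gc'.fc.cor1 gc.fc.cor1 (.inr rfl) (.inl lc') (.inr q) jc'
      with rfl | rfl
    exacts [n3 (gc.fc.unique G.dr.f' n2).1.symm, G.XX (gc.fc.unique gc'.fc n2).1]
  obtain ⟨o, b, -, op⟩ := st.nxt_bar h G.ord gc.fc sc
  refine ⟨o, st.sid_rev h G.ord b, op.resolve_right fun ⟨w, e, so⟩ => ?_⟩
  have nj : o ≠ j := by
    rintro rfl
    exact b.wk.h2.elim (h.far_not_bar G.dr.r ci) fun q => h.stem_ne c ci (lc.trans q)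
  have nj' : o ≠ j' := by
    rintro rfl
    exact b.wk.h2.elim (h.far_not_bar G.dr.r.symm ci) nb.symm
  rcases G.cor_v e so with q | q | rfl | rfl
  · exact nj q
  · exact nj' q
  · exact (h.two_faces n2 ⟨G.dr.f.has1, G.dr.f.has3⟩ gc.fc.on e.fc.on jc).elim nj b.wk.ne.symm
  · obtain rfl := (h.two_faces n4 ⟨G.dr.f'.has1, G.dr.f'.has3⟩ gc'.fc.on e.fc.on jc').resolve_left nj'
    exact st.door_quad h G.ord G.dr gc sc gc' sc' b
      (b.wk.h2.resolve_left fun q => nb (q.symm.trans lc')) G.bv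

/-- the triangle `d` has no partner but `v` and `X` -/
theorem dal_par (D : m.Dal ps W j' c f o o' v d X) (e : m.GP d w) (b : m.Fe T W 8 w) :
    w = v ∨ w = X := by
  rcases G.par_d e b with q | q | rfl
  · exact .inl q
  · exact .inr q
  obtain ⟨k, e⟩ := e
  have bd := G.L.st.bd2 G.wd
  have n := (G.ok.fc_ne e.fc).1
  rcases G.ok.side2 bd G.dr.f'.cor2 D.gf.fc.cor1 e.fc.cor1 (.inr rfl) (.inr D.bf)
    (.inl ((G.ok.lines e.fc (bd.ne_inf e.fc.has1)).1.symm.trans G.symm.ldX)) D.sd.wk.ne with rfl | rfl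
  exacts [.inl (e.fc.unique G.dr.f'.symm n).1, .inr (e.fc.unique D.gf.fc n).1]

end Dr

namespace GB

variable [DecidableEq V] [Finite V] [Finite J] (G : m.GB ps T N U W μ a P) (g : m.Gd W a P x y)
include G g

/-- (D-alpha) at the partner `x` -/
theorem dal (B : m.Dr ps T N U W μ a x y j j' v d x X') (D : m.Dal ps W j' c f o o' v d x) :
    False := by
  have h := G.ok
  have r := G.ord
  have s := G.st
  obtain ⟨n1, n2, n3⟩ := h.fc_ne B.dr.f
  have ax := s.ne g.wx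
  have dy : d ≠ y := by
    rintro rfl
    exact (B.dal_par D (B.L.gy.imp fun _ => GE.symm) B.L.na).elim B.va.symm ax
  have lc : m.stem c = m.bar j := (h.lines D.gc.fc D.s0.wk.i1).1.symm.trans B.lX
  have lf : m.stem f = m.bar j := (h.lines D.gf.fc D.wk.i2).1.symm.trans B.ldX
  obtain ⟨e, R, q⟩ := G.lpas (s.sid_rev h r D.s2) D.op' B.dr.f' rfl
  have bt := (HSt.wk_le h r D.wk R.wk R.st (q.sg.mono D.bt.bw) (q.sg.mono q.bt.bw)).resolve_left
    fun p => h.stem_ne f D.wk.i2 ((p ▸ R.st).trans D.bf.symm)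
  rcases G.px g R ⟨bt, D.gf.fc, D.bf, (s.sid_lbar h r D.sd D.gf.fc D.bf).tail D.bt.bw⟩ with
    ⟨-, b, -⟩ | p | p | ⟨-, ge⟩
  · obtain ⟨M, -, n⟩ := G.two g D.gc.symm.fc D.sc B.va B.vy
      (.inr fun i p => h.far_not_bar p B.dr.r.2.1 lc)
    refine n.neu.frees (s.mem2 B.wd) (by simp [n3, n1.symm, B.d_ne, dy]) (B.L.one _ (B.n1 B.wd))
      fun u wu => .inl ?_
    rcases D.cd u (s.adj _ _ wu) with rfl | rfl | p
    · simp
    · simp
    · simp [s.sid_two h r b ((p.tail D.bt.bw).mono bt.bw) B.d_ne]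
  · exact B.d_ne p
  · exact dy p
  rcases G.lend g (s.sid_rev h r D.s0) D.op D.gc.fc rfl B.va B.vy with ⟨-, -, p⟩ | ⟨-, e', ge', so, l⟩
  · obtain ⟨M, fM, n⟩ := G.two g D.gf.symm.fc D.sf B.d_ne dy
      (.inr fun i p => h.far_not_bar p B.dr.r.2.1 lf)
    have vD : v ∉ ({x, d, a, y} : Finset V) := by simp [n1, n2, B.va, B.vy]
    refine n.neu.frees (s.mem _ _ B.wd) vD (B.L.one _ B.nv) fun u wu => ?_
    rcases D.cv u wu with rfl | rfl | q | q
    · exact .inl (by simp)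
    · exact .inl (by simp)
    · exact (s.gone h r n fM (.inr D.bf) D.s2.wk.rev (.inl D.op') q.rev).resolve_left vD
    · exact .inl (by simp [p u q.rev])
  · refine h.bars_ne c f ?_ D.s0.wk.i1 D.wk.i2 (lc.trans lf.symm) (l.symm.trans ?_)
    · rintro rfl
      exact n1 (D.gc.symm.fc.unique D.gf.symm.fc n2.symm).1
    · exact (((h.lines ge'.fc (s.sol_inf h so)).1.symm.trans (h.lines ge.fc R.wk.i2).1).trans
        R.st).trans D.bf.symm

/-- (D2) two extra corners with the partners `x` and `y` -/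
theorem dtwo (B : m.Dr ps T N U W μ a x y j j' v d x y) (gc : m.GE c v x) (sc : m.Sol W c)
    (gc' : m.GE c' v y) (sc' : m.Sol W c') : False := by
  have h := G.ok
  have key : ∀ {x y j j' c c'}, m.Gd W a P x y → m.Dr ps T N U W μ a x y j j' v d x y →
      m.GE c v x → m.Sol W c → m.GE c' v y → m.Sol W c' →
      m.X c = a ∧ ∃ o, m.On o v a ∧ ¬ m.Sol W o := by
    intro x y j j' c c' g B gc sc gc' sc'
    obtain ⟨o, b, op⟩ := B.d2 gc sc gc' sc'
    obtain ⟨-, n4, n5⟩ := h.fc_ne B.dr.f'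
    rcases G.lend g b op gc.fc rfl B.va B.vy with ⟨-, p, q⟩ | ⟨p, -⟩
    · obtain ⟨u, on, b'⟩ := b.fst
      exact ⟨p, o, q u b' ▸ on, op⟩
    · rcases h.two_faces n4 ⟨B.dr.f'.has1, B.dr.f'.has3⟩ gc'.fc.on (k := c)
        ⟨gc.fc.has1, p ▸ gc.fc.has3⟩ fun q => n5 ((q ▸ gc').fc.unique B.dr.f' n4).1.symm with rfl | rfl
      exacts [absurd (gc.fc.unique B.dr.f' B.vx).1.symm (h.fc_ne B.dr.f).2.2,
        absurd (gc.fc.unique gc'.fc B.vx).1 g.ne]
  obtain ⟨e, o, on, op⟩ := key g B gc sc gc' sc'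
  obtain ⟨e', -⟩ := key g.symm B.symm.swap gc' sc' gc sc
  rcases h.two_faces B.va ⟨gc.fc.has1, e ▸ gc.fc.has3⟩ ⟨gc'.fc.has1, e' ▸ gc'.fc.has3⟩ on
    fun q => g.ne (gc.fc.unique (q ▸ gc').fc B.vx).1 with rfl | rfl
  exacts [op sc, op sc']

/-- no ring cell off the living pair has a door -/
theorem door (va : v ≠ a) (vx : v ≠ x) (vy : v ≠ y) (bv : m.Bdy W v)
    (dr : m.Door W j j' v d X X') : False := by
  have B : m.Dr ps T N U W μ a x y j j' v d X X' :=
    ⟨G.ok, G.loc g, G.ord, G.nc, G.cv v, G.ss, G.s0, va, vx, vy, bv, dr⟩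
  have key : ∀ {j j' X X' c f o o'}, m.Dr ps T N U W μ a x y j j' v d X X' →
      (X = a ∨ X = x ∨ X = y) → m.Dal ps W j' c f o o' v d X → False := by
    rintro j j' X X' c f o o' B (rfl | rfl | rfl) D
    exacts [G.lend_a (G.st.sid_rev G.ok G.ord D.s0) D.op D.gc.fc rfl, G.dal g B D,
      G.dal g.symm B.swap D]
  rcases B.door with ⟨c, f, o, o', z, D, -⟩ | ⟨c, f, o, o', z, D, -⟩ | ⟨c, c', gc, sc, z, gc', sc', z'⟩
  · exact key B z D
  · exact key B.symm z D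
  obtain ⟨o, b, op⟩ := B.d2 gc sc gc' sc'
  obtain ⟨o', b', op'⟩ := B.symm.d2 gc' sc' gc sc
  have := B.XX
  rcases z with rfl | rfl | rfl
  · exact G.lend_a b op gc.fc rfl
  · rcases z' with rfl | rfl | rfl
    exacts [G.lend_a b' op' gc'.fc rfl, this rfl, G.dtwo g B gc sc gc' sc']
  · rcases z' with rfl | rfl | rfl
    exacts [G.lend_a b' op' gc'.fc rfl, G.dtwo g.symm B.swap gc sc gc' sc', this rfl]

end GB

end Map

end Pool.Agent.P.MP_5f84aa_co.G
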