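import Pool.Agent.P.MP_5f84aa_co.G.LG2b

/-! Type GG with the centre on the ring, the end: the ring consists of the three cells of the zone. -/

namespace Pool.Agent.P.MP_5f84aa_co.G

namespace Map

variable {V J Sg : Type} {m : Map V J Sg} {ps : J → Sg → ℤ} {T : Set Sg} {N P : V → Prop}
  {U : Finset V} {W : V → V → Prop} {μ : V → ℕ} {a u v x y X : V} {k : J}

namespace GB

variable [DecidableEq V] [Finite V] [Finite J] (G : m.GB ps T N U W μ a P)
include G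

/-- a cell with an outer wall has a second one -/
theorem out2 (o : m.Out W v u) : ∃ w, w ≠ u ∧ m.Out W v w := by
  obtain ⟨w, j, on, op⟩ := o
  obtain ⟨j', d, on', -⟩ := G.ok.other on (G.st.ne w)
  have so := (G.nc _ _ _ (G.st.wk_one G.ok G.ord w on on' d.symm).1).resolve_left op
  obtain ⟨c, e, n, i, i', o1, o2, q1, q2⟩ :=
    G.ok.lk2 (F := {j | m.Sol W j}) ⟨G.st.ne w, j', j, on', on, so, op⟩
  exact ⟨c, e, q1 v c n o1, i', o2, q2⟩

omit [Finite V] [Finite J] in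
/-- a ring of three cells has no solid corner of two of its cells -/
theorem tri0 (o1 : m.Out W a x) (o2 : m.Out W a y) (o3 : m.Out W x y) (f : m.Fc k a x X)
    (so : m.Sol W k) : False := by
  have h := G.ok
  have s := G.st
  obtain ⟨w1, i1, a1, b1⟩ := o1
  obtain ⟨w2, i2, a2, b2⟩ := o2
  obtain ⟨w3, i3, a3, b3⟩ := o3
  obtain rfl : X = y := s.tri1 h w1 w3 (s.sym _ _ w2) f a1 (fun e => b1 (e ▸ so)) (Ou.op b1)
  obtain ⟨g, b⟩ := s.wk_one h G.ord w3 a3 ⟨f.has2, f.has3⟩ fun e => b3 (e ▸ so)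
  obtain ⟨k', g', g'', -, o, -⟩ := s.wk_ext h G.ord g so f.symm b
  rcases h.two_faces (s.ne w2) ⟨f.has1, f.has3⟩ o a2 g''.ne with rfl | rfl
  exacts [b2 so, (G.nc _ _ _ g').elim b3 b2]

theorem fin (ring : ∀ x y v u, m.Gd W a P x y → v ≠ a → v ≠ x → v ≠ y → m.Bdy W v → W v u → False) :
    False := by
  obtain ⟨x, y, g⟩ := G.good
  have s := G.st
  have key : ∀ u v, m.Out W u v → v = a ∨ v = x ∨ v = y := fun u v o => by_contra fun n => by
    simp only [not_or] at n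
    exact ring x y v u g n.1 n.2.1 n.2.2 (s.out_symm o).bdy (s.sym _ _ o.1)
  obtain ⟨c, oc⟩ := s.bdy_out G.ok G.ba g.wx
  obtain ⟨c', d, oc'⟩ := G.out2 oc
  obtain ⟨ox, oy⟩ : m.Out W a x ∧ m.Out W a y := by
    have := key _ _ oc
    have := key _ _ oc'
    have := s.ne oc.1
    have := s.ne oc'.1
    grind
  have oxy : m.Out W x y := by
    obtain ⟨z, d, o⟩ := G.out2 (s.out_symm ox)
    have := key _ _ o
    have := s.ne o.1
    grind
  obtain ⟨w, j, on, op⟩ := id ox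
  obtain ⟨k, -, so, q, f⟩ : ∃ k, _ ∧ m.Sol W k ∧ ∃ q, m.GE k a q :=
    let ⟨k, a1, a2, a3⟩ := G.first w on op; ⟨k, a1, a2, a3.ge⟩
  have wq := (s.sol_w G.ok so f).1
  have pq : P q := G.gp q ((G.loc g).near _ ((G.loc g).n1 wq)) ⟨k, f⟩
  by_cases qx : q = x
  · exact G.tri0 ox oy oxy (qx ▸ f) so
  by_cases qy : q = y
  · exact G.tri0 oy ox (s.out_symm oxy) (qy ▸ f) so
  obtain ⟨k₀, e⟩ := G.wf
  by_cases b : m.Bad a q x
  · have b' : ¬ m.Bad a q y := fun b' => (G.ok.bad_trans e ⟨k, f⟩ b b').elim g.ne g.nb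
    exact ring q y x a ⟨qy, b', pq, g.py, wq, g.wy⟩ (s.ne g.wx).symm (Ne.symm qx) g.ne
      (s.out_symm ox).bdy (s.sym _ _ g.wx)
  · exact ring q x y a ⟨qx, b, pq, g.px, wq, g.wx⟩ (s.ne g.wy).symm (Ne.symm qy) g.ne.symm
      (s.out_symm oy).bdy (s.sym _ _ g.wy)

end GB

end Map

end Pool.Agent.P.MP_5f84aa_co.G
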