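import Pool.Agent.P.MP_5f84aa_co.G.LG2c
import Pool.Agent.P.MP_5f84aa_co.G.LG2d
import Pool.Agent.P.MP_5f84aa_co.G.LG2z
import Pool.Agent.P.MP_5f84aa_co.G.LC

/-! Type GG: the centre does not lie on the ring. -/

namespace Pool.Agent.P.MP_5f84aa_co.G

namespace Map

variable {V J Sg : Type} {m : Map V J Sg} {ps : J → Sg → ℤ} {T : Set Sg} {N P : V → Prop}
  {U : Finset V} {W : V → V → Prop} {μ : V → ℕ} {a : V}

theorem GG.lg2 [DecidableEq V] [Finite V] [Finite J] (G : m.GG ps T N U W μ a P) : ¬ m.Bdy W a :=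
  fun ba =>
  have B : m.GB ps T N U W μ a P := ⟨G, fun _ _ _ => G.nocut, G.sect, ba⟩
  B.fin fun _ _ _ _ g va vx vy bv w => B.nodoor g va vx vy bv w fun _ _ _ r f so so' =>
    B.door g va vx vy bv ⟨r, f, G.ok.far_ge r f, so, so'⟩

end Map

end Pool.Agent.P.MP_5f84aa_co.G
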