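import Pool.Agent.P.MP_5f84aa_co.G.LQ
import Pool.Agent.P.MP_5f84aa_co.G.LG0

/-! Type GG with the centre on the ring, part a: rays, landings that are passed, neutral plans. -/

namespace Pool.Agent.P.MP_5f84aa_co.G

namespace Map

variable {V J Sg : Type} (m : Map V J Sg)

/-- a segment from the open face `o` to the solid end `e` of the line -/
structure Ray (ps : J → Sg → ℤ) (W : V → V → Prop) (t : Sg) (o e : J) : Prop where
  wk : m.Wk ps W t o e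
  op : ¬ m.Sol W o
  so : m.Sol W e
  st : m.stem e = t

/-- the way from `j` to `e` passes the landing `k` from `p` to `z`; the flat cell is `X` -/
structure Pas (ps : J → Sg → ℤ) (t : Sg) (j e k : J) (p z X : V) : Prop where
  bt : Bt ps t j k e
  fc : m.Fc k p z X
  br : m.bar k = t
  sg : m.Sgm ps t j k p X

/-- a neutral plan with the lights `M` that removes `D` -/
structure Nm [DecidableEq V] (T : Set Sg) (U : Finset V) (W : V → V → Prop) (μ : V → ℕ)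
    (D : Finset V) (M : Finset J) : Prop where
  neu : m.Neu U W μ D (m.Opd W D (m.Hgd T M No))
  rch : ∀ d ∈ D, ∃ j, m.has j d ∧ m.Rc W D (m.Hgd T M No) j

variable {m} {ps : J → Sg → ℤ} {t t' : Sg} {W E : V → V → Prop} {U D D' D₀ : Finset V}
  {T : Set Sg} {μ : V → ℕ} {M M' : Finset J} {N : V → Prop}
  {a c p p' q u v w x y z X Y : V} {e i j k k' n o : J}

/-- two segments that follow each other have no common piece -/
theorem Sgm.disj (h : m.Ok) (r : m.Ord ps) (b : Bt ps t j k e) (c : m.Sgm ps t j k u v)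
    (c' : m.Sgm ps t k e u v) : False := by
  obtain ⟨-, i, o⟩ := c.1
  obtain ⟨i', -, o', -, -, -, q⟩ := c.two h r o
  have := (c.2.2 i o).2
  have := (c.2.2 i' o').2
  have := (c'.2.2 i o).2
  have := (c'.2.2 i' o').2
  unfold Bt at b
  unfold Bw at *
  omega

theorem Sgm.tail (c : m.Sgm ps t k e u v) (b : Bw ps t j k e) : m.Sgm ps t j e u v :=
  (c.rev.mono b.symm).rev

theorem Sgm.tc (c : m.Sgm ps t j k u v) (o : m.On i u v) : m.Tc i u t := ⟨v, c.1.1, o, c.2.1⟩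

theorem Pas.tail (q : m.Pas ps t k e i p z X) (b : Bt ps t j k e) : m.Pas ps t j e i p z X :=
  ⟨by have := q.bt; unfold Bt at *; omega, q.fc, q.br,
    q.sg.tail (by have := q.bt; unfold Bt Bw at *; omega)⟩

/-- two faces do not lie on the same two lines -/
theorem Ok.two_hug (h : m.Ok) (x : m.Ext) (ji : j ≠ m.inf) (ki : k ≠ m.inf) (d : t ≠ t') (a1 : m.hug j t)
    (a2 : m.hug j t') (b1 : m.hug k t) (b2 : m.hug k t') : j = k := by
  by_contra n
  have := h.bars_ne j k n ji ki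
  have := x.no2 j k ji ki
  have := x.no2 k j ki ji
  unfold hug at *
  grind

namespace HSt

variable (h : m.Ok) (r : m.Ord ps) (s : m.HSt U W)
include h r s

/-- induction along a segment, from its first face on -/
theorem wk_ind2 (a : m.Wk ps W t j k) {P : V → V → Prop} (sy : ∀ u v, P u v → P v u)
    (p0 : ∀ u v, m.On j u v → m.Sgm ps t j k u v → P u v)
    (st : ∀ i x y z, m.Pas ps t j k i x y z → m.Sol W i → P x z → P y z)
    (b : m.Sgm ps t j k u v) : P u v := by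
  have key : ∀ n : ℕ, ∀ u v i, m.Sgm ps t j k u v → m.On i u v → (ps i t - ps j t).natAbs ≤ n →
      P u v := by
    intro n
    induction n with
    | zero =>
      intro u v i b o e
      obtain ⟨-, -, -, -, g, -⟩ := b.two h r o
      exact p0 u v (r.inj t i j (b.2.2 i o).1 a.i1 g a.h1 (by omega) ▸ o) b
    | succ n ih =>
      intro u v i b o e
      obtain ⟨i', d, o', -, g, g', q⟩ := b.two h r o
      by_cases c : (ps i t - ps j t).natAbs ≤ n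
      · exact ih u v i b o c
      by_cases c' : (ps i' t - ps j t).natAbs ≤ n
      · exact ih u v i' b o' c'
      have e1 := (b.2.2 i o).2
      have e2 := (b.2.2 i' o').2
      have ii := (b.2.2 i o).1
      have bt : Bt ps t j i k := by unfold Bw at e1 e2; unfold Bt; omega
      have br := r.bar_of_bt a.i1 ii a.i2 a.h1 g a.h2 bt
      have so := a.sol i ii g bt
      have fin : ∀ u v, m.On i' u v → ∀ w, m.Fc i u w v → P u v := fun u v o' w f => by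
        have b' := s.wk_land h r a f.symm br ii bt
        obtain ⟨n', d', p, p', -⟩ := b'.two h r ⟨f.has2, f.has3⟩
        have := r.land h f (s.bd2 (s.sol_w h so f).2.1) o' p d d'
        rw [br] at this
        refine st i w u v ⟨bt, f.symm, br, b'.1, b'.2.1, fun l o => ⟨(b'.2.2 l o).1, ?_⟩⟩ so
          (ih w v n' b' p (by unfold Bt at bt; omega))
        rcases p' l o with rfl | rfl
        · exact .right _ _ _ _
        · unfold Bt at bt; unfold Bw; omega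
      rcases h.piece ii o b.1.1 with ⟨-, l⟩ | ⟨⟨w, f⟩ | ⟨w, f⟩, -⟩
      · exact absurd ((l.symm.trans b.2.1).trans br.symm) (h.stem_ne i ii)
      · exact fin u v o' w f
      · exact sy _ _ (fin v u o'.symm w f)
  obtain ⟨-, i, o⟩ := b.1
  exact key _ u v i b o le_rfl

omit h r s in
theorem _root_.Pool.Agent.P.MP_5f84aa_co.G.Map.Pas.ni (q : m.Pas ps t j e k p z X) : k ≠ m.inf :=
  (q.sg.2.2 k ⟨q.fc.has1, q.fc.has3⟩).1

omit h r s in
theorem pas_sol (a : m.Wk ps W t j e) (q : m.Pas ps t j e k p z X) : m.Sol W k :=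
  a.sol k q.ni (.inr q.br) q.bt

theorem pas_wk (a : m.Wk ps W t j e) (q : m.Pas ps t j e k p z X) :
    m.Wk ps W t j k ∧ m.Wk ps W t k e :=
  ⟨s.wk_sub h r a q.ni (.inr q.br) q.bt, (s.wk_sub h r a.rev q.ni (.inr q.br) q.bt.symm).rev⟩

/-- the piece behind a landing -/
theorem pas_next (a : m.Wk ps W t j e) (q : m.Pas ps t j e k p z X) : m.Sgm ps t k e z X := by
  have b := s.wk_land h r a q.fc.symm q.br q.ni q.bt
  refine ⟨b.1, b.2.1, fun n o => ⟨(b.2.2 n o).1, ?_⟩⟩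
  by_cases c : n = k
  · exact c ▸ .left _ _ _ _
  obtain ⟨n', d, o', -⟩ := q.sg.two h r ⟨q.fc.has1, q.fc.has3⟩
  have := r.land h q.fc (s.bd2 (s.wk_w h r a b)) o' o d c
  rw [q.br] at this
  have := (q.sg.2.2 n' o').2
  have := (b.2.2 n o).2
  have := q.bt
  unfold Bt Bw at *
  omega

/-- a face inside a segment is passed -/
theorem pas_of (a : m.Wk ps W t j e) (ki : k ≠ m.inf) (g : m.hug k t) (b : Bt ps t j k e) :
    ∃ p z, m.Pas ps t j e k p z (m.X k) :=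
  have br := r.bar_of_bt a.i1 ki a.i2 a.h1 g a.h2 b
  let ⟨p, z, f, c⟩ := s.wk_last h r (s.wk_sub h r a ki g b) br
  ⟨p, z, b, f, br, c⟩

omit s in
/-- a segment does not pass the end of the line -/
theorem wk_le (a : m.Wk ps W t j k) (a' : m.Wk ps W t j e) (st : m.stem e = t)
    (b : m.Sgm ps t j k u v) (b' : m.Sgm ps t j e u v) : k = e ∨ Bt ps t j k e := by
  obtain ⟨-, i, o⟩ := b.1
  obtain ⟨i', -, o', -, -, -, q⟩ := b.two h r o
  have := (b.2.2 i o).2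
  have := (b.2.2 i' o').2
  have := (b'.2.2 i o).2
  have := (b'.2.2 i' o').2
  have := mt (r.bar_of_bt a.i1 a'.i2 a.i2 a.h1 a'.h2 a.h2) fun c => h.stem_ne e a'.i2 (st.trans c.symm)
  have := r.inj t k e a.i2 a'.i2 a.h2 a'.h2
  by_cases c : ps k t = ps e t
  · exact .inl (this c)
  · unfold Bt Bw at *
    omega

/-- a cell on a segment lies on the first piece or it enters at a landing -/
theorem back (a : m.Wk ps W t j e) (b : m.Sgm ps t j e z w) :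
    (∃ u, m.On j z u ∧ m.Sgm ps t j e z u) ∨ ∃ k p X, m.Pas ps t j e k p z X :=
  (s.wk_ind2 h r a (P := fun z w =>
      ((∃ u, m.On j z u ∧ m.Sgm ps t j e z u) ∨ ∃ k p X, m.Pas ps t j e k p z X) ∧
      ((∃ u, m.On j w u ∧ m.Sgm ps t j e w u) ∨ ∃ k p X, m.Pas ps t j e k p w X))
    (fun _ _ => And.symm) (fun u v o b => ⟨.inl ⟨v, o, b⟩, .inl ⟨u, o.symm, b.symm h⟩⟩)
    (fun i x _ z q _ p => ⟨.inr ⟨i, x, z, q⟩, p.2⟩) b).1

/-- the next corner of the cell that enters at a landing -/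
theorem nxt_cor [Finite J] (a : m.Wk ps W t j e) (so : m.Sol W e) (st : m.stem e = t)
    (q : m.Pas ps t j e k p z X) : ∃ i w, m.GE i z w ∧ m.Sol W i ∧ m.Sid ps W z t k i ∧
      (∃ u, m.Sgm ps t k e w u) ∧ (i = e ∨ m.Pas ps t k e i z w (m.X i)) := by
  have b := s.pas_next h r a q
  have a2 := (s.pas_wk h r a q).2
  obtain ⟨i, c, b', d⟩ := s.nxt h r (s.wk_w h r a2 b) ⟨q.fc.has2, q.fc.has3⟩
  rw [b.2.1] at c b'
  rcases wk_le h r c.wk a2 st b' b with rfl | bt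
  · obtain ⟨w, g⟩ := (d.resolve_left (not_not.2 so)).ge
    have l := (h.lines g a.i2).1.trans st
    exact ⟨i, w, g, so, c, ⟨z, ((sid_cor h (s.sid_rev h r c) g.fc.cor1 g.fc.on (h.fc_ne g).1 l).rev).symm h⟩,
      .inl rfl⟩
  · have si := a2.sol i c.wk.i2 c.wk.h2 bt
    obtain ⟨w, g⟩ := (d.resolve_left (not_not.2 si)).ge
    have br := r.bar_of_bt a2.i1 c.wk.i2 a2.i2 a2.h1 c.wk.h2 a2.h2 bt
    exact ⟨i, w, g, si, c, ⟨_, s.wk_land h r a2 g.fc.symm br c.wk.i2 bt⟩, .inr ⟨bt, g, br,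
      (sid_cor h (s.sid_rev h r c) g.fc.cor1 ⟨g.fc.has1, g.fc.has3⟩ (h.fc_ne g).2.1
        ((h.lines g c.wk.i2).2.1.trans br)).rev⟩⟩

/-- the cells behind a landing are cut off from the cell before it -/
theorem beyond [Finite V] [Finite J] [DecidableEq V] (a : m.Wk ps W t o e) (op : ¬ m.Sol W o)
    (q : m.Pas ps t o e k p z X) (s' : m.HSt (U \ D) (Del W D No)) (zD : z ∈ D) (pD : p ∉ D)
    (c : ∀ u w, m.Sgm ps t k e u w → u ∈ D → u = z) :
    ∃ Z : Set V, (∀ u v, Del W D No u v → (m.Sgm ps t o k u v ↔ ¬ (u ∈ Z ↔ v ∈ Z))) ∧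
      ∀ u w, m.Sgm ps t k e u w → u ≠ z → ¬ (p ∈ Z ↔ u ∈ Z) := by
  obtain ⟨a1, a2⟩ := s.pas_wk h r a q
  obtain ⟨n1, n2, n3⟩ := h.fc_ne q.fc
  obtain ⟨Z, hZ⟩ := s'.cut_sgm h r a.i1 q.ni a.h1 (.inr q.br) (fun c => op fun u v d o => (c u v d o).1)
    fun c => (c z X n3 ⟨q.fc.has2, q.fc.has3⟩).2.1 zD
  have b := s.pas_next h r a q
  have e0 := (hZ p X ⟨s.wk_w h r a1 q.sg, pD, fun d => n3 (c _ _ (b.symm h) d).symm, id⟩).1 q.sg
  refine ⟨Z, hZ, fun u w b' => (s.wk_ind2 h r a2 (P := fun u w => (u ≠ z → ¬ (p ∈ Z ↔ u ∈ Z)) ∧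
    (w ≠ z → ¬ (p ∈ Z ↔ w ∈ Z))) (fun _ _ => And.symm) (fun u w o b' => ?_)
    (fun i x y w q' so g => ⟨fun d => ?_, g.2⟩) b').1⟩
  · rcases s.wk_first h r a2 (s.wk_w h r a2 b) ⟨q.fc.has2, q.fc.has3⟩ b o b' with ⟨rfl, rfl⟩ | ⟨rfl, rfl⟩
    exacts [⟨fun d => absurd rfl d, fun _ => e0⟩, ⟨fun _ => e0, fun d => absurd rfl d⟩]
  · obtain ⟨w1, -, w3⟩ := s.sol_w h so q'.fc
    have b1 := q'.sg.mono q'.bt.bw
    have b2 := (s.pas_next h r a2 q').tail q'.bt.bw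
    by_cases d' : w = z
    · have d1 : x ≠ z := d' ▸ (h.fc_ne q'.fc).2.1
      have := hZ x y ⟨w1, mt (c _ _ b1) d1, mt (c _ _ b2) d, id⟩
      have := g.1 d1
      have : ¬ m.Sgm ps t o k x y := fun c => h.stem_ne i q'.ni
        (((h.lines q'.fc q'.ni).1.symm.trans c.2.1).trans q'.br.symm)
      tauto
    · have := hZ y w ⟨w3, mt (c _ _ b2) d, mt (c _ _ (b2.symm h)) d', id⟩
      have := g.2 d'
      have : ¬ m.Sgm ps t o k y w := fun c => c.disj h r q.bt b2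
      tauto

/-- the face before the last piece of a segment that meets a cycle only there -/
theorem ou_last (a : m.Wk ps W t o k) (op : ¬ m.Sol W o)
    (c : ∀ u w, m.Sgm ps t o k u w → E u w → m.On k u w) (b : m.Sgm ps t o k u w) :
    ∃ i, i ≠ k ∧ m.On i u w ∧ m.Ou W E i :=
  s.wk_ind2 h r a (P := fun u w => ∃ i, i ≠ k ∧ m.On i u w ∧ m.Ou W E i)
    (fun _ _ ⟨i, d, o, g⟩ => ⟨i, d, o.symm, g⟩) (fun _ _ o _ => ⟨_, a.ne, o, .op op⟩)
    (fun i x y z q _ ⟨n, _, o, g⟩ => ⟨i, fun e => by have := q.bt; unfold Bt at this; subst e; omega,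
      ⟨q.fc.has2, q.fc.has3⟩, g.piece o ⟨q.fc.has1, q.fc.has3⟩ q.sg.1.1 fun e => by
        have := (q.sg.2.2 k (c _ _ (q.sg.mono q.bt.bw) e)).2
        have := q.bt
        unfold Bt Bw at *
        omega⟩) b

omit s in
/-- a corner of a cell does not lie inside its side -/
theorem sid_out (a : m.Sid ps W v t o k) (op : ¬ m.Sol W o) (c : m.cor i v) (so : m.Sol W i)
    (on : m.On i v w) (b : m.Sgm ps t o k v w) : i = k := by
  by_contra d
  obtain ⟨ii, bw⟩ := b.2.2 i on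
  have g : m.hug i t := b.2.1 ▸ h.hug_on ii on b.1.1
  have := (sid_flat r a ii g (r.bt_of a.wk.i1 ii a.wk.i2 a.wk.h1 g a.wk.h2 bw
    (fun e => op (e ▸ so)) d)).1
  obtain ⟨y, f⟩ := c.ge
  exact (h.fc_ne f).2.1 this.symm

/-- a side that comes from an open face does not go on to a solid corner -/
theorem no_end (a : m.Sid ps W v t o k) (op : ¬ m.Sol W o) (c : m.cor k v) (a' : m.Sid ps W v t k i)
    (so : m.Sol W i) (c' : m.cor i v) : False := by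
  have a2 := s.sid_rev h r a
  obtain ⟨u, on, b⟩ := a2.fst
  have b' := sid_cor h a' c on b.1.1 b.2.1
  obtain ⟨i', -, o', -, -, -, q⟩ := b.two h r on
  have := (b.2.2 i' o').2
  have := (b'.2.2 i' o').2
  have := mt (r.inj t o i a.wk.i1 a'.wk.i2 a.wk.h1 a'.wk.h2) fun e => op (e ▸ so)
  have := mt (a'.wk.sol o a.wk.i1 a.wk.h1) op
  have := mt (sid_flat r a2 a'.wk.i2 a'.wk.h2) fun e =>
    let ⟨_, f⟩ := c'.ge; (h.fc_ne f).2.1 e.1.symm
  unfold Bt Bw at *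
  omega

/-- one wall is a side -/
theorem sid_one (w : W u v) (o : m.On j u v) (o' : m.On k u v) (d : j ≠ k) :
    m.Sid ps W u (m.ln u v) j k :=
  let ⟨a, b⟩ := s.wk_one h r w o o' d; ⟨a, ⟨v, o, b⟩, b.tc o'⟩

/-- two cells carry the segment -/
theorem sid_two (a : m.Sid ps W z t j k) (b : m.Sgm ps t j k v u) (d : v ≠ z) : u = z :=
  (s.sid_row h r a b).resolve_left d

/-- the piece on the stem at the last corner of a side -/
theorem sid_lstem (a : m.Sid ps W v t o k) (f : m.Fc k v z X) (st : m.stem k = t) :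
    m.Sgm ps t o k v z :=
  (sid_cor h (s.sid_rev h r a) f.cor1 f.on (h.fc_ne f).1 ((h.lines f a.wk.i2).1.trans st)).rev

/-- the piece on the bar at the last corner of a side -/
theorem sid_lbar (a : m.Sid ps W v t o k) (f : m.Fc k v z X) (st : m.bar k = t) :
    m.Sgm ps t o k v X :=
  (sid_cor h (s.sid_rev h r a) f.cor1 ⟨f.has1, f.has3⟩ (h.fc_ne f).2.1
    ((h.lines f a.wk.i2).2.1.trans st)).rev

/-- a triangle of walls at the end of a side that comes from an open face -/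
theorem tri_end (a : m.Sid ps W v t o k) (op : ¬ m.Sol W o) (f : m.Fc k v z X) (st : m.stem k = t)
    (w1 : W z y) (w2 : W y v) (n : ¬ m.Sgm ps t o k v y) : X = y := by
  have b := s.sid_lstem h r a f st
  obtain ⟨i, d, on, g⟩ := s.ou_last h r (E := E3 v z y) a.wk op (fun u w c e => by
    have := s.sid_row h r a c
    have := c.symm h
    have := f.on
    have := f.on.symm
    have := s.ne w2
    have := b.1.1
    simp only [E3, Sym2.eq_iff] at e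
    grind) b
  exact s.tri1 h (s.wk_w h r a.wk b) w1 w2 f on d g

/-- the pieces on the lines of the lights disappear -/
theorem gone [DecidableEq V] (n : m.Nm T U W μ D M) (c : i ∈ M) (g : m.hug i t) (a : m.Wk ps W t j k)
    (o : ¬ m.Sol W j ∨ ∃ d ∈ D, m.has j d) (b : m.Sgm ps t j k u v) :
    u ∈ D ∨ v ∈ D ∨ m.Opd W D (m.Hgd T M No) u v :=
  s.op_wk h r a (o.elim .op fun ⟨d, e, f⟩ => let ⟨_, p, q⟩ := n.rch d e; q.cell e p f)
    (fun _ _ b => .inl (.no c g b.2.1)) b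

/-- three solid corners -/
theorem cover3 {t₁ t₂ t₃ : Sg} {k₁ k₂ k₃ : J} (se : m.Sect W z) (a : m.Sid ps W z t i k₁)
    (a1 : m.Sid ps W z t₁ k₁ k₂) (a2 : m.Sid ps W z t₂ k₂ k₃) (a3 : m.Sid ps W z t₃ k₃ j)
    (oi : ¬ m.Sol W i) (oj : ¬ m.Sol W j) (c1 : m.cor k₁ z) (c2 : m.cor k₂ z) (c3 : m.cor k₃ z)
    (d1 : t ≠ t₁) (d2 : t₁ ≠ t₂) (d3 : t₂ ≠ t₃) (w : W z u) : m.Sgm ps t i k₁ z u ∨
      m.Sgm ps t₁ k₁ k₂ z u ∨ m.Sgm ps t₂ k₂ k₃ z u ∨ m.Sgm ps t₃ k₃ j z u := by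
  obtain ⟨_, _, _, ⟨rfl, rfl, rfl⟩ | ⟨rfl, rfl, rfl⟩ | ⟨rfl, rfl, rfl⟩ | ⟨rfl, rfl, rfl⟩, b⟩ :=
    s.cover h r se (fun a b c => (a = t ∧ b = i ∧ c = k₁) ∨ (a = t₁ ∧ b = k₁ ∧ c = k₂) ∨
      (a = t₂ ∧ b = k₂ ∧ c = k₃) ∨ (a = t₃ ∧ b = k₃ ∧ c = j))
    (by rintro _ _ _ (⟨rfl, rfl, rfl⟩ | ⟨rfl, rfl, rfl⟩ | ⟨rfl, rfl, rfl⟩ | ⟨rfl, rfl, rfl⟩) <;> assumption)
    (by
      rintro _ _ _ (⟨rfl, rfl, rfl⟩ | ⟨rfl, rfl, rfl⟩ | ⟨rfl, rfl, rfl⟩ | ⟨rfl, rfl, rfl⟩) n (rfl | rfl) so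
      exacts [absurd so oi, ⟨c1, _, _, d1.symm, .inl (.inr (.inl ⟨rfl, rfl, rfl⟩))⟩,
        ⟨c1, _, _, d1, .inr (.inl ⟨rfl, rfl, rfl⟩)⟩,
        ⟨c2, _, _, d2.symm, .inl (.inr (.inr (.inl ⟨rfl, rfl, rfl⟩)))⟩,
        ⟨c2, _, _, d2, .inr (.inr (.inl ⟨rfl, rfl, rfl⟩))⟩,
        ⟨c3, _, _, d3.symm, .inl (.inr (.inr (.inr ⟨rfl, rfl, rfl⟩)))⟩,
        ⟨c3, _, _, d3, .inr (.inr (.inr (.inl ⟨rfl, rfl, rfl⟩)))⟩, absurd so oj])
    (.inl ⟨rfl, rfl, rfl⟩) w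
  exacts [.inl b, .inr (.inl b), .inr (.inr (.inl b)), .inr (.inr (.inr b))]

/-- two neutral plans that differ in one cell and open the same segment -/
theorem sw [DecidableEq V] {D₁ D₂ : Finset V} {Z : Set V} (n₁ : m.Nm T U W μ D₁ M)
    (n₂ : m.Nm T U W μ D₂ M') (c₁ : i ∈ M) (c₂ : j ∈ M') (g₁ : m.hug i t) (g₂ : m.hug j t)
    (a : m.Wk ps W t o k) (op : ¬ m.Sol W o) (sb : D₀ ⊆ D) (pD : p ∉ D) (pD' : p' ∉ D)
    (e₁ : ∀ u, u ∈ D₁ ↔ u = p ∨ u ∈ D) (e₂ : ∀ u, u ∈ D₂ ↔ u = p' ∨ u ∈ D)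
    (c : ∀ u v, Del W D₀ No u v → (m.Sgm ps t o k u v ↔ ¬ (u ∈ Z ↔ v ∈ Z))) : p ∈ Z ↔ p' ∈ Z :=
  n₁.neu.switch1 n₂.neu sb pD pD' e₁ e₂ c (fun _ _ _ => s.gone h r n₁ c₁ g₁ a (.inl op))
    fun _ _ _ => s.gone h r n₂ c₂ g₂ a (.inl op)

end HSt

namespace Loc

variable [DecidableEq V] [DecidableEq J] [Finite V] (L : m.Loc T N U W μ a x y) (h : m.Ok)
include L h

omit [DecidableEq J] in
/-- one light at a ring cell -/
theorem nm1 (f : m.Fc k p q X) (np : m.Fe T W 8 p) (nq : m.Fe T W 8 q) (sf : ∀ j, ¬ m.far k j)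
    (b : m.Bdy W p) : m.Nm T U W μ {p, q} {k} :=
  have rc : m.Rc W {p, q} (m.Hgd T {k} No) k := .of_bdy b (by simp) f.has1
  ⟨L.neu1 h f np nq (fun j c => absurd c (sf j)) rc, by simpa using ⟨⟨k, f.has1, rc⟩, k, f.has2, rc⟩⟩

/-- a light at a corner of `x` and a light between `a` and `y` -/
theorem nm2 (s0 : ∀ u, N u → ¬ m.Rn a u) (ba : m.Bdy W a) (f : m.Fc i x w X) (xw : W x w)
    (d : w ≠ a) (d' : w ≠ y) (sf : ∀ j, m.far i j → m.X j = a) :
    ∃ M, i ∈ M ∧ m.Nm T U W μ {x, w, a, y} M := by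
  obtain ⟨k, g⟩ := L.gy
  obtain ⟨k', g'⟩ := L.gx
  have r1 : m.Rc W {x, w, a, y} (m.Hgd T {i, k} No) k := .of_bdy ba (by simp) g.fc.has1
  have r2 : m.Rc W {x, w, a, y} (m.Hgd T {i, k} No) i :=
    (Rc.of_bdy ba (by simp) g'.fc.has1).cell (by simp) g'.fc.has2 f.has1
  exact ⟨{i, k}, by simp, L.neu2 h f g.fc (L.st.ne L.wx).symm L.ne d d' (L.n1 L.wx) (L.n2 L.wx xw) L.na
    (L.n1 L.wy) (fun j c _ => .inr (.inl (sf j c)))
    (fun j c => absurd ⟨k, j, c, g⟩ (s0 y (L.near _ (L.n1 L.wy)))) r2 r1,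
    by simpa using ⟨⟨i, f.has1, r2⟩, ⟨i, f.has2, r2⟩, ⟨k, g.fc.has1, r1⟩, k, g.fc.has2, r1⟩⟩

end Loc

end Map

end Pool.Agent.P.MP_5f84aa_co.G
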