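import Pool.Agent.P.MP_5f84aa_co.G.LG2b

/-! Type GG with the centre on the ring, part c: a ring cell off the zone without a door. -/

namespace Pool.Agent.P.MP_5f84aa_co.G

namespace Map

variable {V J Sg : Type} {m : Map V J Sg} {ps : J → Sg → ℤ} {t t₁ t₂ : Sg} {T : Set Sg}
  {N P : V → Prop} {U D : Finset V} {M : Finset J} {W : V → V → Prop} {μ : V → ℕ}
  {a p q u v w x y z z' X X' : V} {e i j k k' o o' κ : J}

namespace GB

variable [DecidableEq V] [Finite V] [Finite J] (G : m.GB ps T N U W μ a P)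
include G

omit [Finite V] [Finite J] in
/-- the two partners at the stem ends of the first and the last side are not joined by a wall -/
theorem r2w (c0 : m.Sid ps W v t o k) (c1 : m.Sid ps W v t₁ k k') (op : ¬ m.Sol W o)
    (f : m.Fc k v z X) (f' : m.Fc k' v z' X') (so' : m.Sol W k') (st : m.stem k = t)
    (st' : m.stem k' ≠ t₁) (d1 : t ≠ t₁) : ¬ W z z' := fun w => by
  have h := G.ok
  have r := G.ord
  have s := G.st
  obtain rfl := s.tri_end h r c0 op f st w (s.sym _ _ (s.sol_w h so' f').1) fun b =>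
    c1.wk.ne (HSt.sid_out h r c0 op f'.cor1 so' f'.on b).symm
  exact st' ((h.lines f' c1.wk.i2).1.symm.trans ((h.lines f c1.wk.i1).2.1.trans
    (c1.wk.h1.resolve_left fun e => d1 (st.symm.trans e))))

variable (g : m.Gd W a P x y) (va : v ≠ a) (vx : v ≠ x) (vy : v ≠ y) (bv : m.Bdy W v)
include g

omit [Finite V] [Finite J] in
theorem ka : ∃ κ, m.GE κ a x ∧ (∀ j, ¬ m.far κ j) ∧ m.stem κ = m.ln a x :=
  have L := G.loc g
  let ⟨κ, c⟩ := L.gx
  ⟨κ, c, fun j r => G.s0 x (L.near _ (L.n1 L.wx)) ⟨κ, j, r, c⟩,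
    (G.ok.lines c ((G.st.bd1 L.wx).ne_inf c.fc.has1)).1.symm⟩

include bv

omit [Finite V] [Finite J] in
theorem fr (n : m.Nm T U W μ D M) (vD : v ∉ D) (w0 : W v u)
    (c : ∀ w, W v w → w ∈ D ∨ m.Opd W D (m.Hgd T M No) v w) : False :=
  n.neu.frees (G.st.mem _ _ w0) vD ((G.loc g).one _ ((G.loc g).b1 G.ok bv w0)) c

include va vx vy

omit [Finite V] [Finite J] in
/-- the triangle `a x y` seen from a face at `v` on the piece `a x` -/
theorem tri_a (f : m.Fc k v x a) (xy : W x y) (c : m.GE κ a x) : m.X κ = y :=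
  G.st.tri1 G.ok g.wx xy (G.st.sym _ _ g.wy) c ⟨f.has3, f.has2⟩
    (fun e => (G.ok.fc_ne c).2.1 (e ▸ f.2).symm) (.bdy G.ok bv f.has1 (E3.off va vx vy))

omit [Finite V] [Finite J] in
/-- the triangle `a x y` seen from a face at `v` on the piece `x y` -/
theorem tri_y (f : m.Fc k v x y) (so : m.Sol W k) (c : m.GE e x y) : m.X e = a :=
  G.st.tri1 G.ok (G.st.sol_w G.ok so f).2.2 (G.st.sym _ _ g.wy) g.wx c ⟨f.has2, f.has3⟩
    (fun e => (G.ok.fc_ne c).2.2 (e ▸ f.2).symm) (.bdy G.ok bv f.has1 (E3.off vx vy va))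

/-- one corner -/
theorem r1 (c0 : m.Sid ps W v t o k) (c1 : m.Sid ps W v t₁ o' k) (op : ¬ m.Sol W o)
    (op' : ¬ m.Sol W o') (f : m.Fc k v x X) (so : m.Sol W k) (st : m.stem k = t)
    (br : m.bar k = t₁) : False := by
  have L := G.loc g
  have h := G.ok
  have r := G.ord
  have s := G.st
  have d : t ≠ t₁ := st ▸ br ▸ h.stem_ne k c0.wk.i2
  have cov := fun u w => s.cover1 h r (u := u) (G.cv v) c0 (s.sid_rev h r c1) op op' f.cor1 d w
  have lX := (h.lines f c0.wk.i2).2.1.trans br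
  have w0 := (s.sol_w h so f).1
  obtain ⟨κ, gκ, nf, -⟩ := G.ka g
  rcases G.lend g c1 op' f br va vy with ⟨-, e1, a1⟩ | ⟨e1, e, ge, se, st'⟩ <;>
    obtain rfl := e1.symm <;>
    rcases G.rend g c0 op so f st va vy with ⟨bx, a0⟩ | ⟨i, w, fi, si, b, e2 | e2⟩
  · exact G.fr g bv (L.nm1 h gκ L.na (L.n1 L.wx) nf G.ba) (by simp [va, vx]) w0 fun u w =>
      .inl ((cov u w).elim (fun b => by simp [a0 u b]) fun b => by simp [a1 u b.rev])
  · exact d (b.2.1.symm.trans (e2 ▸ lX))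
  · obtain rfl := e2.symm
    have := G.tri_a g va vx vy bv f (s.sym _ _ (s.sol_w h si fi).1) gκ
    exact g.nb (.inr ⟨x, v, a, y, ⟨⟨k, f.symm⟩, ⟨κ, this ▸ gκ.symm.fc⟩, i, fi.symm⟩, by simp [In4],
      by simp [In4], by simp [In4]⟩)
  · have n := L.nm1 h ge (L.n1 L.wx) (L.n1 L.wy)
      (fun j c => h.far_not_bar c c0.wk.i2 (st'.trans br.symm)) bx
    have vD : v ∉ ({x, y} : Finset V) := by simp [vx, vy]
    exact G.fr g bv n vD w0 fun u w => (cov u w).elim (fun b => .inl (by simp [a0 u b])) fun b =>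
      (s.gone h r n (Finset.mem_singleton_self _) (.inl st') c1.wk (.inl op') b.rev).resolve_left vD
  · obtain rfl := e2.symm
    have := G.tri_y g va vx vy bv f so ge
    exact g.nb (.inr ⟨x, v, y, a, ⟨⟨k, f.symm⟩, ⟨e, this ▸ ge.fc⟩, i, fi.symm⟩, by simp [In4],
      by simp [In4], by simp [In4]⟩)
  · exact d (b.2.1.symm.trans (e2 ▸ lX))

/-- two corners, the ray along the first side passes the first corner -/
theorem r2l (c0 : m.Sid ps W v t o k) (c1 : m.Sid ps W v t₁ k k') (c2 : m.Sid ps W v t₂ o' k')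
    (op : ¬ m.Sol W o) (op' : ¬ m.Sol W o') (f : m.Fc k v x X) (f' : m.Fc k' v z X')
    (so : m.Sol W k) (so' : m.Sol W k') (br : m.bar k = t) (d1 : t ≠ t₁) (d2 : t₁ ≠ t₂)
    (hz : z = a ∨ z = y) : False := by
  have L := G.loc g
  have h := G.ok
  have r := G.ord
  have s := G.st
  have st : m.stem k = t₁ := c1.wk.h1.resolve_right fun e => d1 (br.symm.trans e)
  have d0 : t ≠ t₂ := fun e => c1.wk.ne (h.two_hug G.ext c1.wk.i1 c1.wk.i2 d1 c0.wk.h2 c1.wk.h1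
    (e ▸ c2.wk.h2) c1.wk.h2)
  have lx := (h.lines f c1.wk.i1).1.trans st
  have lX := (h.lines f c1.wk.i1).2.1.trans br
  obtain ⟨l1, l2, l3, -⟩ := h.lines f' c1.wk.i2
  have nX : X ≠ z := fun e => c1.wk.ne
    (HSt.sid_out h r c0 op f'.cor1 so' (e ▸ f'.on) (s.sid_lbar h r c0 f br)).symm
  have w0 := (s.sol_w h so f).1
  obtain ⟨κ, gκ, nf, sκ⟩ := G.ka g
  rcases G.lend g c0 op f br va vy with ⟨l, e1, a1⟩ | ⟨e1, e, ge, se, st'⟩ <;> obtain rfl := e1.symm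
  · obtain rfl := (hz.resolve_left nX.symm).symm
    rcases c2.wk.h2 with st' | br'
    swap
    · rcases G.lend g.symm c2 op' f' br' va vx with ⟨-, e2, -⟩ | ⟨e2, -⟩
      exacts [d0 (lX.symm.trans ((e2 ▸ l2).trans br')), d2 (lx.symm.trans ((e2 ▸ l2).trans br'))]
    have br' : m.bar k' = t₁ := c1.wk.h2.resolve_left fun e => d2 (e.symm.trans st')
    rcases G.rend g.symm c2 op' so' f' st' va vx with ⟨-, a2⟩ | ⟨i, w, -, -, b, e2 | e2⟩
    rotate_left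
    · exact d0 (lX.symm.trans (e2 ▸ b.2.1))
    · exact d2 (lx.symm.trans (e2 ▸ b.2.1))
    by_cases e2 : X' = x
    · obtain rfl := e2.symm
      have := G.tri_a g va vx vy bv f (s.sym _ _ (s.sol_w h so' f').2.2) gκ
      have κi := (s.bd1 L.wx).ne_inf gκ.fc.has1
      obtain rfl := h.two_hug G.ext κi c1.wk.i1 d1 (.inl (sκ.trans l))
        (.inr ((this ▸ (h.lines gκ κi).2.2.1).symm.trans ((h.ln_symm _ _).trans (l3.trans br'))))
        c0.wk.h2 c1.wk.h1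
      exact s.ne L.wy (f.2.symm.trans this)
    rcases s.back h r c1.wk.rev ((HSt.sid_cor h c1 f.cor1 f.on vx lx).symm h).rev with
      ⟨u, on, -⟩ | ⟨i, q, X'', Q⟩
    · rcases f'.has_iff.1 on.1 with e3 | e3 | e3
      exacts [vx e3.symm, g.ne e3, e2 e3.symm]
    obtain rfl : X'' = v :=
      Q.fc.2.symm.trans (HSt.sid_flat r (s.sid_rev h r c1) Q.ni (.inr Q.br) Q.bt).1
    have lq := (h.ln_symm _ _).trans Q.sg.2.1
    obtain ⟨M, iM, n⟩ := G.two g Q.fc.symm (HSt.pas_sol c1.wk.rev Q)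
      (fun e => d1 (lX.symm.trans (e ▸ lq))) (fun e => d2 (lq.symm.trans ((e ▸ l1).trans st'))) (.inl va)
    have vD : X'' ∉ ({x, q, a, y} : Finset V) := by simp [va, vx, vy, Q.sg.1.1.symm]
    refine G.fr g bv n vD w0 fun u w => ?_
    rcases s.cover2 h r (G.cv _) c0 c1 (s.sid_rev h r c2) op op' f.cor1 f'.cor1 d1 d2 w with b | b | b
    · exact .inl (by simp [a1 u b])
    · exact (s.gone h r n iM (.inr Q.br) c1.wk (.inr ⟨x, by simp, f.has2⟩) b).resolve_left vD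
    · exact .inl (by simp [a2 u b.rev])
  · obtain rfl := (hz.resolve_right nX.symm).symm
    obtain rfl := (s.tri_end h r c2 op' f' (c2.wk.h2.resolve_right (G.lend_a c2 op' f')) L.wx
      (s.sym _ _ w0) fun b => d2 (lx.symm.trans b.2.1)).symm
    have := G.tri_y g va vx vy bv f so ge
    rcases h.two_faces (s.ne L.wx) ⟨f'.has2, f'.has3⟩ ⟨this ▸ ge.fc.has3, ge.fc.has1⟩ gκ.fc.on
      (fun e' => s.ne L.wx ((e' ▸ this).symm.trans f'.2)) with rfl | rfl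
    exacts [(h.fc_ne gκ).2.2 f'.2.symm, (h.fc_ne gκ).2.1 this.symm]

/-- the walls of `v` go to the zone and the corner between `a` and `x` is solid -/
theorem r2f (c0 : m.Sid ps W v t o k) (op : ¬ m.Sol W o) (f : m.Fc k v x a) (st : m.stem k = t)
    (xy : ¬ W x y) (cov : ∀ u, W v u → u = x ∨ u = a ∨ u = y) (c : m.GE κ a x) (so : m.Sol W κ) :
    False := by
  have L := G.loc g
  have h := G.ok
  have r := G.ord
  have s := G.st
  have κi := s.sol_inf h so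
  obtain ⟨l1, -, l3, l4⟩ := h.lines c κi
  have b := s.sid_lstem h r c0 f st
  obtain ⟨i, c1, -, d⟩ := s.nxt h r (s.sol_w h so c).2.2 ⟨c.fc.has2, c.fc.has3⟩
  rw [l3] at c1
  by_cases si : m.Sol W i
  swap
  · obtain ⟨e, R, q⟩ := G.lpas (s.sid_rev h r c1) si c.symm rfl
    exact G.a1 R q
  obtain ⟨w, gi⟩ := (d.resolve_left (not_not.2 si)).ge
  have ik : i ≠ k := by
    rintro rfl
    obtain rfl := h.two_hug G.ext κi c1.wk.i2 l4 (.inl rfl) (.inr rfl)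
      (.inr (((h.lines f c1.wk.i2).2.2.1.symm.trans (h.ln_symm _ _)).trans l1)) c1.wk.h2
    exact c1.wk.ne rfl
  have wa : w ≠ a := by
    rintro rfl
    exact G.s0 x (L.near _ (L.n1 L.wx)) ⟨κ, i, h.far_of_fc (s.bd1 L.wx) c1.wk.ne c gi.symm, c⟩
  have wv : w ≠ v := by
    rintro rfl
    exact ik (HSt.sid_out h r c0 op gi.fc.cor2 si gi.symm.fc.on b)
  obtain ⟨M, -, n⟩ := G.two g gi si wa (fun e => xy (e ▸ (s.sol_w h si gi).1)) (.inl fun e => by
    rcases h.two_faces (s.ne L.wx) c.fc.on ⟨f.has3, f.has2⟩ ⟨e ▸ gi.fc.has3, gi.fc.has1⟩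
      (fun e' => (h.fc_ne c).2.1 (e' ▸ f.2).symm) with e' | e'
    exacts [c1.wk.ne e'.symm, ik e'])
  exact G.fr g bv n (by simp [va, vx, vy, wv.symm]) (s.wk_w h r c0.wk b) fun u w => .inl (by
    rcases cov u w with e | e | e <;> simp [e])

/-- two corners, both rays end there -/
theorem r2r (c0 : m.Sid ps W v t o k) (c1 : m.Sid ps W v t₁ k k') (c2 : m.Sid ps W v t₂ o' k')
    (op : ¬ m.Sol W o) (op' : ¬ m.Sol W o') (f : m.Fc k v x X) (f' : m.Fc k' v y X')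
    (so : m.Sol W k) (so' : m.Sol W k') (st : m.stem k = t) (st' : m.stem k' = t₂) (d1 : t ≠ t₁)
    (d2 : t₁ ≠ t₂) (xy : ¬ W x y) : False := by
  have L := G.loc g
  have h := G.ok
  have r := G.ord
  have s := G.st
  have br : m.bar k = t₁ := c1.wk.h1.resolve_left fun e => d1 (st.symm.trans e)
  have br' : m.bar k' = t₁ := c1.wk.h2.resolve_left fun e => d2 (e.symm.trans st')
  have d0 : t ≠ t₂ := fun e => c1.wk.ne (h.two_hug G.ext c1.wk.i1 c1.wk.i2 d1 c0.wk.h2 c1.wk.h1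
    (e ▸ c2.wk.h2) c1.wk.h2)
  have b := s.sid_lstem h r c0 f st
  have b' := s.sid_lstem h r c2 f' st'
  have w0 := (s.sol_w h so f).1
  have w1 := (s.sol_w h so' f').1
  have lX := (h.lines f c1.wk.i1).2.1.trans br
  have lX' := (h.lines f' c1.wk.i2).2.1.trans br'
  have n0 : ¬ m.Sgm ps t o k v y := fun c => d0 (c.2.1.symm.trans b'.2.1)
  have n2 : ¬ m.Sgm ps t₂ o' k' v x := fun c => d0 (b.2.1.symm.trans c.2.1)
  have wa : W v a := by_contra fun n => by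
    obtain ⟨i, d, on, ou⟩ := s.ou_last h r (E := E4 v x a y) c0.wk op (fun u w c e => by
      have := s.sid_row h r c0 c
      have := c.symm h
      have := f.on
      have := f.on.symm
      simp only [E4, Sym2.eq_iff] at e
      grind) b
    obtain ⟨i', d', on', ou'⟩ := s.ou_last h r (E := E4 v x a y) c2.wk op' (fun u w c e => by
      have := s.sid_row h r c2 c
      have := c.symm h
      have := f'.on
      have := f'.on.symm
      simp only [E4, Sym2.eq_iff] at e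
      grind) b'
    exact c1.wk.ne (s.quad h w0 (s.sym _ _ L.wx) L.wy (s.sym _ _ w1) va g.ne n xy (.inl rfl) f on d ou
      (.inr (.inr (.inr Sym2.eq_swap))) f' on' d' ou')
  have e1 := s.tri_end h r c0 op f st (s.sym _ _ L.wx) (s.sym _ _ wa)
  have e2 := s.tri_end h r c2 op' f' st' (s.sym _ _ L.wy) (s.sym _ _ wa)
  have la : m.ln v a = t₁ := by
    by_cases c : m.Sgm ps t o k v a
    exacts [e2 (fun c' => d0 (c.2.1.symm.trans c'.2.1)) ▸ lX', e1 c ▸ lX]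
  obtain rfl := (e1 fun c => d1 (c.2.1.symm.trans la)).symm
  obtain rfl := (e2 fun c => d2 (la.symm.trans c.2.1)).symm
  rcases G.rend g c0 op so f st va vy with ⟨-, a0⟩ | ⟨i, w, -, -, c, e | e⟩
  rotate_left
  · exact d1 ((e ▸ c.2.1).symm.trans la)
  · exact n0 (e ▸ c)
  rcases G.rend g.symm c2 op' so' f' st' va vx with ⟨-, a2⟩ | ⟨i, w, -, -, c, e | e⟩
  rotate_left
  · exact d2 (la.symm.trans (e ▸ c.2.1))
  · exact n2 (e ▸ c)
  have ca : m.Sid ps W a t₁ k k' := ⟨c1.wk, ⟨v, ⟨f.has3, f.has1⟩,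
    (HSt.sid_cor h c1 f.cor1 ⟨f.has1, f.has3⟩ va la).symm h⟩,
    v, va.symm, ⟨f'.has3, f'.has1⟩, (h.ln_symm _ _).trans la⟩
  have cov : ∀ u, W v u → u = x ∨ u = a ∨ u = y := fun u w =>
    (s.cover2 h r (G.cv _) c0 c1 (s.sid_rev h r c2) op op' f.cor1 f'.cor1 d1 d2 w).imp (a0 u)
      (Or.imp (fun b => s.sid_two h r ca b va) fun b => a2 u b.rev)
  obtain ⟨κ, gκ, -, sκ⟩ := G.ka g
  obtain ⟨κ', gκ', -, sκ'⟩ := G.ka g.symm
  by_cases c : m.Sol W κ
  · exact G.r2f g va vx vy bv c0 op f st xy cov gκ c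
  obtain ⟨i, ci, si, cc⟩ := G.first L.wx gκ.fc.on c
  have l : m.ln a y = m.ln a x := by
    rw [h.ln_symm a y, h.ln_symm a x, (h.lines f c1.wk.i1).2.2.1, (h.lines f' c1.wk.i2).2.2.1, br, br']
  rcases h.side2 (s.bd1 L.wx) gκ.fc.cor1 cc gκ'.fc.cor1 ci.wk.h1 ci.wk.h2 (.inl (sκ'.trans l)) ci.wk.ne
    with rfl | rfl
  · exact g.ne (gκ.fc.unique gκ'.fc (s.ne L.wx)).1
  · exact G.r2f g.symm va vy vx bv c2 op' f' st' (fun w => xy (s.sym _ _ w))
      (fun u w => by have := cov u w; tauto) gκ' si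

omit vx bv in
/-- all cells of the zone are partners at solid corners: the first corner is no landing -/
theorem r3x (c : m.Sid ps W v t o k) (op : ¬ m.Sol W o) (f : m.Fc k v x X)
    (ha : ∃ i, i ≠ k ∧ m.GE i v a ∧ m.Sol W i) (hy : ∃ i, i ≠ k ∧ m.GE i v y ∧ m.Sol W i) :
    X = a := by
  have h := G.ok
  have r := G.ord
  have s := G.st
  obtain ⟨i, d, gi, si⟩ := ha
  obtain ⟨i', d', gi', si'⟩ := hy
  have n := mt (HSt.sid_out h r c op gi.fc.cor1 si gi.fc.on) d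
  refine s.tri_end h r c op f (c.wk.h2.resolve_right fun br => ?_) (s.sym _ _ g.wx)
    (s.sym _ _ (s.sol_w h si gi).1) n
  have b := s.sid_lbar h r c f br
  rcases G.lend g c op f br va vy with ⟨-, e, -⟩ | ⟨e, -⟩
  exacts [n (e ▸ b), d' (HSt.sid_out h r c op gi'.fc.cor1 si' gi'.fc.on (e ▸ b))]

omit va vx vy bv in
theorem r3a (c : m.Sid ps W v t o k) (op : ¬ m.Sol W o) (f : m.Fc k v a X)
    (hx : ∃ i, i ≠ k ∧ m.GE i v x ∧ m.Sol W i) : X = x :=
  let ⟨_, d, gi, si⟩ := hx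
  G.st.tri_end G.ok G.ord c op f (c.wk.h2.resolve_right (G.lend_a c op f)) g.wx
    (G.st.sym _ _ (G.st.sol_w G.ok si gi).1)
    (mt (HSt.sid_out G.ok G.ord c op gi.fc.cor1 si gi.fc.on) d)

omit va vx vy [Finite J] in
/-- (F1) the partner at a solid corner of a ring cell without a door lies in the zone -/
theorem par (nd : ∀ j j' z, m.far j j' → m.GE j v z → m.Sol W j → ¬ m.Sol W j') (f : m.GE k v z)
    (so : m.Sol W k) : (v = a ∨ v = x ∨ v = y) ∨ z = a ∨ z = x ∨ z = y := by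
  have L := G.loc g
  have h := G.ok
  have w := (G.st.sol_w h so f).1
  by_cases c : ∀ j, m.far k j → ¬ W v (m.X j)
  · exact L.f1one h f (L.b1 h bv w) (L.b2 h bv w) c (.of_bdy bv (by simp) f.fc.has1)
  push Not at c
  obtain ⟨j, r, w'⟩ := c
  exact (L.f1one h f.symm (L.b2 h bv w) (L.b1 h bv w) (fun j' r' w2 => nd k j z r f so
    (G.st.sol_of (h.far_ge r f) w w' (h.far_unique r r' ▸ w2))) (.of_bdy bv (by simp) f.fc.has1)).symm

theorem r1' (c0 : m.Sid ps W v t o k) (c1 : m.Sid ps W v t₁ o' k) (op : ¬ m.Sol W o)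
    (op' : ¬ m.Sol W o') (f : m.GE k v z) (so : m.Sol W k) (st : m.stem k = t) (br : m.bar k = t₁)
    (hz : z = a ∨ z = x ∨ z = y) : False := by
  rcases hz with rfl | rfl | rfl
  exacts [G.lend_a c1 op' f br, G.r1 g va vx vy bv c0 c1 op op' f so st br,
    G.r1 g.symm va vy vx bv c0 c1 op op' f so st br]

theorem r2' (c0 : m.Sid ps W v t o k) (c1 : m.Sid ps W v t₁ k k') (c2 : m.Sid ps W v t₂ o' k')
    (op : ¬ m.Sol W o) (op' : ¬ m.Sol W o') (f : m.GE k v z) (f' : m.GE k' v z')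
    (so : m.Sol W k) (so' : m.Sol W k') (br : m.bar k = t) (d1 : t ≠ t₁) (d2 : t₁ ≠ t₂) (d : z ≠ z')
    (hz : z = a ∨ z = x ∨ z = y) (hz' : z' = a ∨ z' = x ∨ z' = y) : False := by
  rcases hz with rfl | rfl | rfl
  exacts [G.lend_a c0 op f br,
    G.r2l g va vx vy bv c0 c1 c2 op op' f f' so so' br d1 d2 (by grind),
    G.r2l g.symm va vy vx bv c0 c1 c2 op op' f f' so so' br d1 d2 (by grind)]

omit bv in
theorem r3' {k₁ k₂ k₃ : J} {z₁ z₂ z₃ : V} (c0 : m.Sid ps W v t o k₁) (c3 : m.Sid ps W v t₁ o' k₃)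
    (op : ¬ m.Sol W o) (op' : ¬ m.Sol W o') (f1 : m.GE k₁ v z₁) (f2 : m.GE k₂ v z₂)
    (f3 : m.GE k₃ v z₃) (s1 : m.Sol W k₁) (s2 : m.Sol W k₂) (s3 : m.Sol W k₃) (d12 : k₁ ≠ k₂)
    (d13 : k₁ ≠ k₃) (d23 : k₂ ≠ k₃) (e12 : z₁ ≠ z₂) (e13 : z₁ ≠ z₃) (e23 : z₂ ≠ z₃)
    (h1 : z₁ = a ∨ z₁ = x ∨ z₁ = y) (h2 : z₂ = a ∨ z₂ = x ∨ z₂ = y) (h3 : z₃ = a ∨ z₃ = x ∨ z₃ = y) :
    False := by
  have key : ∀ {t o k z k' z' k'' z''}, m.Sid ps W v t o k → ¬ m.Sol W o → m.GE k v z →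
      m.GE k' v z' → m.GE k'' v z'' → m.Sol W k' → m.Sol W k'' → k' ≠ k → k'' ≠ k → z ≠ z' → z ≠ z'' →
      z' ≠ z'' → (z = a ∨ z = x ∨ z = y) → (z' = a ∨ z' = x ∨ z' = y) → (z'' = a ∨ z'' = x ∨ z'' = y) →
      z ≠ a ∧ m.X k = a := by
    intro t o k z k' z' k'' z'' c op f f' f'' s' s'' d' d'' e1 e2 e3 h h' h''
    have ex : ∀ u, u = z' ∨ u = z'' → ∃ i, i ≠ k ∧ m.GE i v u ∧ m.Sol W i := by
      rintro u (rfl | rfl)
      exacts [⟨_, d', f', s'⟩, ⟨_, d'', f'', s''⟩]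
    have ax := G.st.ne g.wx
    have ay := G.st.ne g.wy
    have xy := g.ne
    rcases h with rfl | rfl | rfl
    · exact absurd ((G.r3a g c op f (ex _ (by grind))).symm.trans
        (G.r3a g.symm c op f (ex _ (by grind)))) g.ne
    · exact ⟨ax.symm, G.r3x g va vy c op f (ex _ (by grind)) (ex _ (by grind))⟩
    · exact ⟨ay.symm, G.r3x g.symm va vx c op f (ex _ (by grind)) (ex _ (by grind))⟩
  obtain ⟨n1, a1⟩ := key c0 op f1 f2 f3 s2 s3 d12.symm d13.symm e12 e13 e23 h1 h2 h3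
  obtain ⟨n3, a3⟩ := key c3 op' f3 f2 f1 s2 s1 d23 d13 e23.symm e13.symm e12.symm h3 h2 h1
  obtain rfl : z₂ = a := by grind
  rcases G.ok.two_faces va ⟨f1.fc.has1, a1 ▸ f1.fc.has3⟩ ⟨f3.fc.has1, a3 ▸ f3.fc.has3⟩ f2.fc.on d13
    with e | e
  exacts [d12 e.symm, d23 e]

/-- a ring cell off the zone has a door -/
theorem nodoor (w : W v u) (nd : ∀ j j' z, m.far j j' → m.GE j v z → m.Sol W j → ¬ m.Sol W j') :
    False := by
  have h := G.ok
  have r := G.ord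
  have s := G.st
  have hz : ∀ {k z}, m.GE k v z → m.Sol W k → z = a ∨ z = x ∨ z = y := fun f so =>
    (G.par g bv nd f so).resolve_left (by simp [va, vx, vy])
  have hu : ∀ {k k' z z'}, m.GE k v z → m.GE k' v z' → m.Sol W k → m.Sol W k' → k ≠ k' → z ≠ z' :=
    fun f f' so so' d e => nd _ _ _ (h.far_of_fc (s.bd1 w) d f (e ▸ f')) f so so'
  have nx : ∀ {k t}, m.Sol W k → m.cor k v → m.hug k t → ∃ t' k', t ≠ t' ∧ m.Sid ps W v t' k k' ∧
      (¬ m.Sol W k' ∨ (m.Sol W k' ∧ m.cor k' v)) := fun so c g => by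
    obtain ⟨u, w, on, l, -⟩ := s.turn h so c g
    obtain ⟨k', c', -, d⟩ := s.nxt h r w on
    exact ⟨_, k', l.symm, c', by tauto⟩
  obtain ⟨u, w', o, on, op⟩ := s.bdy_out h bv w
  obtain ⟨k₁, c0, s1, a1⟩ := G.first w' on op
  generalize m.ln v u = t at c0
  obtain ⟨z₁, f1⟩ := a1.ge
  obtain ⟨t₁, k₂, d1, c1, op' | ⟨s2, a2⟩⟩ := nx s1 a1 c0.wk.h2
  · rcases c0.wk.h2 with e | e <;> rcases c1.wk.h1 with e' | e'
    exacts [d1 (e.symm.trans e'),
      G.r1' g va vx vy bv c0 (s.sid_rev h r c1) op op' f1 s1 e e' (hz f1 s1),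
      G.r1' g va vx vy bv (s.sid_rev h r c1) c0 op' op f1 s1 e' e (hz f1 s1), d1 (e.symm.trans e')]
  obtain ⟨z₂, f2⟩ := a2.ge
  have e12 := hu f1 f2 s1 s2 c1.wk.ne
  obtain ⟨t₂, k₃, d2, c2, op' | ⟨s3, a3⟩⟩ := nx s2 a2 c1.wk.h2
  · have c2' := s.sid_rev h r c2
    have c1' := s.sid_rev h r c1
    rcases c0.wk.h2 with e | e
    swap
    · exact G.r2' g va vx vy bv c0 c1 c2' op op' f1 f2 s1 s2 e d1 d2 e12 (hz f1 s1) (hz f2 s2)
    rcases c2.wk.h1 with e' | e'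
    swap
    · exact G.r2' g va vx vy bv c2' c1' c0 op' op f2 f1 s2 s1 e' d2.symm d1.symm e12.symm (hz f2 s2)
        (hz f1 s1)
    have n := G.r2w c0 c1 op f1 f2 s2 e (e' ▸ d2.symm) d1
    have := g.wx
    have := g.wy
    have := s.sym _ _ g.wx
    have := s.sym _ _ g.wy
    have := hz f1 s1
    have := hz f2 s2
    rcases (by grind : (z₁ = x ∧ z₂ = y) ∨ (z₁ = y ∧ z₂ = x)) with ⟨rfl, rfl⟩ | ⟨rfl, rfl⟩
    exacts [G.r2r g va vx vy bv c0 c1 c2' op op' f1 f2 s1 s2 e e' d1 d2 n,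
      G.r2r g.symm va vy vx bv c0 c1 c2' op op' f1 f2 s1 s2 e e' d1 d2 n]
  obtain ⟨z₃, f3⟩ := a3.ge
  have d13 : k₁ ≠ k₃ := fun e => c1.wk.ne (h.two_hug G.ext c1.wk.i1 c1.wk.i2 d2 c1.wk.h1
    (e ▸ c2.wk.h2) c1.wk.h2 c2.wk.h1)
  have e13 := hu f1 f3 s1 s3 d13
  have e23 := hu f2 f3 s2 s3 c2.wk.ne
  obtain ⟨t₃, k₄, d3, c3, op' | ⟨s4, a4⟩⟩ := nx s3 a3 c2.wk.h2
  · exact G.r3' g va vx vy c0 (s.sid_rev h r c3) op op' f1 f2 f3 s1 s2 s3 c1.wk.ne d13 c2.wk.ne e12 e13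
      e23 (hz f1 s1) (hz f2 s2) (hz f3 s3)
  obtain ⟨z₄, f4⟩ := a4.ge
  have d24 : k₂ ≠ k₄ := fun e => c2.wk.ne (h.two_hug G.ext c2.wk.i1 c2.wk.i2 d3 c2.wk.h1
    (e ▸ c3.wk.h2) c2.wk.h2 c3.wk.h1)
  obtain rfl : k₁ = k₄ := by_contra fun d => by
    have := hu f1 f4 s1 s4 d
    have := hu f2 f4 s2 s4 d24
    have := hu f3 f4 s3 s4 c3.wk.ne
    have := hz f1 s1
    have := hz f2 s2
    have := hz f3 s3
    have := hz f4 s4
    grind
  have d4 : t₃ ≠ t₁ := fun e => (h.side2 (s.bd1 w) a1 a2 a3 c1.wk.h1 c1.wk.h2 (e ▸ c3.wk.h1)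
    c1.wk.ne).elim d13.symm c2.wk.ne.symm
  obtain rfl : t₃ = t := by
    have := c0.wk.h2
    have := c1.wk.h1
    have := c3.wk.h2
    unfold hug at *
    grind
  exact s.no_end h r c0 op a1 (s.sid_rev h r c3) s3 a3

end GB

end Map

end Pool.Agent.P.MP_5f84aa_co.G
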