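import Pool.Agent.P.MP_5f84aa_co.G.LG3d

/-! Type GG, interior centre: the rotation round `b`. -/

namespace Pool.Agent.P.MP_5f84aa_co.G

namespace Map

variable {V J Sg : Type} {m : Map V J Sg} {ps : J → Sg → ℤ} {t : Sg} {T : Set Sg} {N P : V → Prop}
  {U D : Finset V} {W : V → V → Prop} {μ : V → ℕ} {M : Finset J}
  {a b b' c p q r u v w x y z X X' : V} {e i j j' k k' n o : J}

namespace G3

variable [DecidableEq V] [Finite V] [Finite J] (G : m.G3 ps T N U W μ a P)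
include G

/-- the run contains no corner of `a` -/
theorem caseB (S : m.Str W a P b) (E : m.Ent ps W P b v o k) (s : m.Wk ps W (m.bar k) o e)
    (se : m.stem e = m.bar k) (bt : Bt ps (m.bar k) o k e)
    (na : ∀ n, m.cor n a → m.hug n (m.bar k) → ¬ Bw ps (m.bar k) o n e) :
    ∃ o', m.Ent ps W P b (m.X k) o' e := by
  have h := G.ok
  have st := G.st
  have r := G.ord
  have ki := E.sid.wk.i2
  have hk := E.sid.wk.h2
  have bv := E.sid.bdy E.op
  obtain ⟨k1, k2, k3, k4⟩ := h.lines E.g ki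
  obtain ⟨wb, -, -⟩ := st.sol_w h E.so E.g
  have so := (G.nc _ _ _ s).resolve_left E.op
  have sfe : m.Sfe W e := h.sf_of_land ki se
  have ke : k ≠ e := fun q => k4 (q ▸ se)
  have hb : ∀ i, i ≠ m.inf → m.hug i (m.bar k) → Bw ps (m.bar k) o i e → i ≠ o → m.Sfe W i →
      i = k ∨ (i = e ∧ m.cor e b) := fun i ii hi bw d sf => by
    have key : ∀ i, i ≠ m.inf → m.hug i (m.bar k) → Bw ps (m.bar k) o i e → i ≠ o → m.Sfe W i →
        m.cor i b := fun i ii hi bw d sf =>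
      (G.hasb S s E.op se ki rfl bt (fun p q c => by
        obtain ⟨n, g⟩ := G.pg p q
        obtain ⟨ni, bw⟩ := c.2.2 n g.fc.on
        exact na n g.fc.cor1 (.inl ((h.lines g ni).1.symm.trans c.2.1)) bw) ii hi bw d sf).resolve_left
        fun c => na i c hi bw
    have ce := key e s.i2 s.h2 (.right _ _ _ _) s.ne.symm sfe
    exact (h.side2 (st.bd1 wb) E.g.fc.cor1 ce (key i ii hi bw d sf) hk s.h2 hi ke).imp_right
      fun q => ⟨q, ce⟩
  have ce := ((hb e s.i2 s.h2 (.right _ _ _ _) s.ne.symm sfe).resolve_left ke.symm).2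
  have sb : ∀ n, m.cor n b → m.hug n (m.bar k) → n = k ∨ n = e := fun n c g =>
    h.side2 (st.bd1 wb) E.g.fc.cor1 ce c hk s.h2 g ke
  obtain ⟨c, oc, bc⟩ := E.sid.fst
  have wc := st.sym _ _ (st.wk_w h r E.sid.wk bc)
  have lc : m.ln c v = m.bar k := (h.ln_symm _ _).trans bc.2.1
  have rc : m.Bdy W c := ⟨o, oc.2, E.op⟩
  have nc := G.ring0 rc wc
  have ca := G.ring_ne rc
  have cv := st.ne wc
  have cb : c ≠ b := fun q => k4 (k1.symm.trans (q ▸ lc))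
  obtain ⟨i, sc, b1, c1⟩ := st.nxt h r wc oc.symm
  rw [lc] at sc b1
  have si := (G.nc _ _ _ sc.wk).resolve_left E.op
  have ii := sc.wk.i2
  obtain ⟨p, f⟩ := (c1.resolve_left (not_not.2 si)).ge
  have bw := HSt.bw_end h r s se sc.wk ((bc.mono bt.bw).symm h) b1
  have ik : i ≠ k := by
    rintro rfl
    exact (E.g.fc.cor_iff.1 f.fc.cor1).elim cb cv
  obtain ⟨w1, w2, w3⟩ := st.sol_w h si f
  by_cases ie : i = e
  · subst ie
    obtain rfl : p = b := ((f.fc.cor_iff.1 ce).resolve_left cb.symm).symm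
    obtain rfl : m.X k = c := (HSt.sid_flat r sc ki hk bt).1
    have ok : m.On k (m.X k) p := ⟨E.g.fc.has3, E.g.fc.has1⟩
    by_cases pc : P (m.X k)
    · exfalso
      have xa := st.tri1 h (st.sym _ _ w1) (st.sym _ _ (G.wall pc)) (G.wall S.pb) f.symm ok.symm ik.symm
        (Ou.bdy h bv E.g.fc.has2 (E3.off (st.ne wb).symm cv.symm (G.ring_ne bv)))
      have f' : m.Fc i (m.X k) p a := xa ▸ f.fc
      have gp := G.pg _ pc
      rcases S.sh with ⟨u1, u2, j, j', fr, f1, p1, p2, n1, n2, al⟩ | ⟨c, y, z, K, -, n1, n2, n3, -, al⟩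
      · rcases al _ pc with q | q | q
        exacts [cb q, n2 (h.rung_uniq gp (q ▸ f1) f'), n1 (h.rung_uniq gp (q ▸ f1.symm) f')]
      obtain ⟨⟨i1, f1⟩, -, i3, f3⟩ := id K
      have e3 : m.has i3 (m.X k) → False := fun q => by
        obtain rfl := h.phi_eq gp ⟨f'.has3, f'.has1⟩ ⟨f3.has3, q⟩ (.inl f'.2) (.inl f3.2)
        exact (f3.cor_iff.1 f'.cor2).elim n1 n3
      rcases al _ pc with q | q | q | q
      · exact cb q
      · exact e3 (q ▸ f3.has1)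
      · obtain rfl := h.phi_eq gp ⟨f'.has3, f'.has1⟩ ⟨f1.has2, q ▸ f1.has3⟩ (.inl f'.2)
          (.inr (q ▸ f1.2))
        exact (h.fc_ne f1).2.2 (f'.2.symm.trans f1.2)
      · exact e3 (q ▸ f3.has2)
    obtain ⟨n, sn, -, c2⟩ := st.nxt h r w2 ⟨f.fc.has1, f.fc.has3⟩
    rw [(h.lines f ii).2.1] at sn
    refine ⟨n, f.symm, si, sfe, fun so' => ?_, st.sid_rev h r sn, pc⟩
    obtain ⟨w, g⟩ := (c2.resolve_left (not_not.2 so')).ge
    have wp : w ≠ p := fun q => h.far_not_bar (h.far_of_fc (st.bd1 wc) sn.wk.ne f (q ▸ g)) ki se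
    refine wp (S.uniq (G.cov1 rc pc g so' fun n' fr _ => ?_))
    have g' := h.far_ge fr g
    have key : ∀ n w, m.GE n (m.X k) w → m.X n ≠ p := fun n w g q => by
      rcases h.two_faces cb ok f.fc.on ⟨g.fc.has1, q ▸ g.fc.has3⟩ ik.symm with rfl | rfl
      exacts [cb q, (h.fc_ne f).2.2 q.symm]
    rcases G.half fr g g' so' nc (by omega) f si with q | q | q
    exacts [wp q.symm, key _ _ g q.symm, key _ _ g' q.symm]
  exfalso
  have bi := r.bt_of s.i1 ii s.i2 s.h1 sc.wk.h2 s.h2 bw sc.wk.ne.symm ie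
  have bri := r.bar_of_bt s.i1 ii s.i2 s.h1 sc.wk.h2 s.h2 bi
  obtain ⟨i', fr, si'⟩ : ∃ i', m.far i i' ∧ m.Sol W i' := by
    by_contra q
    exact (hb i ii sc.wk.h2 bw sc.wk.ne.symm fun j a b => q ⟨j, a, b⟩).elim ik fun q => ie q.1
  have f' := h.far_ge fr f
  obtain ⟨l1, l2, l3, l4⟩ := h.lines f ii
  have pv : p ≠ v := fun q => l4 (l1.symm.trans ((q ▸ lc).trans bri.symm))
  have pb : p ≠ b := fun q => (sb i (q ▸ f.fc.cor2) sc.wk.h2).elim ik ie
  have b2 := HSt.sid_cor h (st.sid_rev h r sc) f.fc.cor1 ⟨f.fc.has1, f.fc.has3⟩ (st.ne w2) (l2.trans bri)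
  obtain ⟨n, sn, b3, c3⟩ := st.nxt h r w3 ⟨f.fc.has2, f.fc.has3⟩
  rw [l3, bri] at sn b3
  obtain ⟨bn, s'⟩ := st.wk_join h r sc.wk si f b2.rev sn.wk b3
  have son := (G.nc _ _ _ s').resolve_left E.op
  obtain ⟨w, g⟩ := (c3.resolve_left (not_not.2 son)).ge
  have ne' := hb n s'.i2 s'.h2 (HSt.bw_end h r s se s' (b1.mono bw) (b1.mono bn.bw)) s'.ne.symm
    fun n' fr' _ => by
      rcases G.one_rung fr f.symm si (nc.wall w1) (by omega) g son fr' with rfl | rfl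
      · exact sn.wk.ne rfl
      · exact s'.h2.elim (h.far_not_bar fr.symm ki) fun q => h.far_bar fr (bri.trans q.symm)
  obtain rfl : n = e := (ne'.resolve_left (by
    rintro rfl
    exact (E.g.fc.cor_iff.1 g.fc.cor1).elim pb pv)).1
  obtain rfl : w = b := ((g.fc.cor_iff.1 ce).resolve_left pb.symm).symm
  have xb : m.X i = w := by
    rcases G.half fr f.symm f'.symm si (nc.wall w1) (by omega) g son with q | q | q
    · exact absurd q.symm cb
    · exact q.symm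
    · exact absurd (bri.trans (se.symm.trans ((h.lines g s.i2).1.symm.trans
        (q ▸ (h.lines f' fr.2.2.1).2.2.1)))) (h.far_bar fr)
  have nb : ∀ n', m.GE n' c (m.X i) → ¬ m.Sol W n' := fun n' g' so' => by
    rcases sb n' (xb ▸ g'.fc.cor2) (.inl ((h.lines g' (st.sol_inf h so')).1.symm.trans (l2.trans bri)))
      with rfl | rfl
    exacts [(E.g.fc.cor_iff.1 g'.fc.cor1).elim cb cv,
      (g.fc.cor_iff.1 g'.fc.cor1).elim (st.ne w1) cb]
  obtain ⟨u, pu, ub, uc⟩ := S.mate c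
  have gd := S.gd u pu ub
  by_cases pc : P c
  swap
  · exact G.d0 _ _ c p _ _ i i' gd ca cb uc.symm rc fr f f' si si' nb
      fun _ => G.no_extra S rc pc fr f f' si (xb ▸ (h.far_X fr).symm)
  obtain ⟨j, gj⟩ := G.pg c pc
  have xa : m.X i' = a := by
    rcases G.half fr f f' si nc (by omega) gj.symm (G.sa gj.fc.has1) with q | q | q
    exacts [(G.norung (q ▸ f.fc.cor2) fr).elim, absurd (xb.symm.trans q.symm) (G.ne_a S.pb), q.symm]
  obtain ⟨n', g', bn', -⟩ := G.d1 _ _ c p a _ i' i j gd ca cb uc.symm rc fr.symm (xa ▸ f'.fc) f si' si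
    gj.symm (G.sa gj.fc.has1) nb
  rcases h.side2 (st.bd2 w1) f.fc.cor2 g.fc.cor1 g'.fc.cor1 sc.wk.h2 s.h2 (.inr (bn'.trans bri)) ie
    with rfl | rfl
  exacts [ca (f.symm.fc.unique g' (st.ne w1).symm).1,
    G.ne_a S.pb (g.fc.unique g' (h.fc_ne g).1).1]

/-- the next entry -/
theorem step (S : m.Str W a P b) (E : m.Ent ps W P b v o k) :
    ∃ o' e, m.Ent ps W P b (m.X k) o' e := by
  have h := G.ok
  have st := G.st
  have r := G.ord
  obtain ⟨k1, k2, k3, k4⟩ := h.lines E.g E.sid.wk.i2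
  obtain ⟨-, w2, w3⟩ := st.sol_w h E.so E.g
  obtain ⟨e, s, b1, c⟩ := st.ray h r w2 ⟨E.g.fc.has1, E.g.fc.has3⟩
  rw [k2] at s b1 c
  obtain ⟨bt, s'⟩ := st.wk_join h r E.sid.wk E.so E.g.symm (HSt.sid_cor h (st.sid_rev h r E.sid)
    E.g.fc.cor2 ⟨E.g.fc.has2, E.g.fc.has3⟩ (st.ne w3) k3).rev s b1
  have se := c.resolve_left (not_not.2 ((G.nc _ _ _ s').resolve_left E.op))
  refine (G.caseB S E s' se bt fun n c hn bw => ?_).imp fun _ q => ⟨e, q⟩
  obtain ⟨ge, i, u, g, ub, bi, bt'⟩ := G.caseA S E.g rfl E.sid E.op s' se bt c hn bw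
  exact G.winA S E s' se ge g ub bi bt'

omit [DecidableEq V] G in
theorem _root_.Pool.Agent.P.MP_5f84aa_co.G.Map.Ok.ring2 (h : m.Ok) (st : m.HSt U W) (r : m.Ord ps)
    (nc : ∀ t j k, m.Wk ps W t j k → m.Sol W j ∨ m.Sol W k) (ou : m.Out W c u) :
    ∃ w, w ≠ u ∧ m.Out W c w := by
  obtain ⟨w, j, oj, op⟩ := ou
  obtain ⟨j', d, oj', -⟩ := h.other oj (st.ne w)
  have so := (nc _ _ _ (st.wk_one h r w oj oj' d.symm).1).resolve_left op
  obtain ⟨w', d', n, i, i', o1, o2, c1, c2⟩ := h.lk2 (F := {j | ¬ m.Sol W j})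
    ⟨st.ne w, j, j', oj, oj', op, not_not.2 so⟩
  exact ⟨w', d', not_not.1 c2 c w' n o2, i, o1, c1⟩

/-- a ring cell off the star -/
theorem ring_off : ∃ v c, m.Out W v c ∧ ¬ P v := by
  have h := G.ok
  have st := G.st
  by_contra q
  have al : ∀ v c, m.Out W v c → P v := fun v c o => by_contra fun n => q ⟨v, c, o, n⟩
  obtain ⟨x, y, gd⟩ := G.good
  obtain ⟨v, c, ou⟩ := st.exists_out h gd.wx
  obtain ⟨k, wf⟩ := G.wf
  obtain ⟨j, g⟩ := G.pg v (al v c ou)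
  refine (h.rot_cor (z := a) (C := {j | ∃ p q, m.GE j a p ∧ m.Out W p q})
    ⟨j, v, c, g, ou⟩ ?_ (k := k) (.inr (.inr wf.symm))).elim
    fun p ⟨_, g', _⟩ => (h.fc_ne g').2.1 wf.symm
  rintro j ⟨c, c1, g, o1⟩
  refine ⟨g.fc.cor1, ?_⟩
  obtain ⟨c2, d, o2⟩ := h.ring2 st G.ord G.nc o1
  have key : ∀ c', m.Out W c c' → m.X j = c' → ∃ j' ∈ {j | ∃ p q, m.GE j a p ∧ m.Out W p q},
      m.GE j' a (m.X j) := fun c' o e =>
    let ⟨j', g'⟩ := G.pg c' (al _ _ (st.out_symm o)); ⟨j', ⟨c', c, g', st.out_symm o⟩, e ▸ g'⟩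
  have wc := G.wall (al _ _ o1)
  have ac := st.ne wc
  obtain ⟨i, di, oi, -⟩ := h.other g.fc.on ac
  have tr : ∀ c', m.Out W c c' → m.X j = c' ∨ ∃ F, m.Side (E3 a c c') F ∧ (∀ n ∈ F, m.Sol W n) ∧
      i ∈ F := fun c' o => by
    refine (em _).imp_right fun n => by_contra fun q => n ?_
    exact st.tri1 h wc o.1 (st.sym _ _ (G.wall (al _ _ (st.out_symm o)))) g oi di
      fun F a b c => q ⟨F, a, b, c⟩
  rcases tr c1 o1 with e | ⟨F1, s1, t1, i1⟩
  · exact key _ o1 e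
  rcases tr c2 o2 with e | ⟨F2, s2, t2, i2⟩
  · exact key _ o2 e
  exfalso
  have one : ∀ c1 c2 F2, c2 ≠ c1 → m.Out W c c1 → m.Side (E3 a c c2) F2 →
      (∀ n ∈ F2, m.Sol W n) → ∀ n, m.On n c c1 → n ∉ F2 := by
    rintro c1 c2 F2 d ⟨w, n0, on0, op⟩ s2 t2 n on q
    refine op (t2 _ (s2.same ?_ (st.ne w) on on0 q))
    have := st.ne w
    have := G.ring_ne (st.out_symm ⟨w, n0, on0, op⟩).bdy
    simp only [E3, Sym2.eq_iff]
    grind
  obtain ⟨-, n0, on0, op⟩ := id o1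
  refine op (t1 _ (h.lk1 (F := F1 ∩ F2) a ?_ oi.2 on0.1 ⟨i1, i2⟩).1)
  rintro w wa ⟨d', n, n', on, on', ⟨q1, q2⟩, q⟩
  by_cases e1 : w = c1
  · exact one c1 c2 F2 d o1 s2 t2 n (e1 ▸ on) q2
  by_cases e2 : w = c2
  · exact one c2 c1 F1 d.symm o2 s1 t1 n (e2 ▸ on) q1
  refine q ⟨s1.same ?_ d' on on' q1, s2.same ?_ d' on on' q2⟩ <;> simp only [E3, Sym2.eq_iff] <;> grind

/-- the first entry -/
theorem start : ∃ b v o k, m.Str W a P b ∧ m.Ent ps W P b v o k := by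
  have h := G.ok
  have st := G.st
  have r := G.ord
  obtain ⟨v, c, ou, np⟩ := G.ring_off
  have bv := ou.bdy
  obtain ⟨w0, o, oo, op⟩ := ou
  have nv := G.ring0 bv w0
  by_cases ex : ∃ k b, m.GE k v b ∧ m.Sol W k ∧ m.Sfe W k
  swap
  · exfalso
    obtain ⟨x, y, gd⟩ := G.good
    obtain ⟨k, sd, -, c1⟩ := st.nxt h r w0 oo
    have so := (G.nc _ _ _ sd.wk).resolve_left op
    obtain ⟨p, f⟩ := (c1.resolve_left (not_not.2 so)).ge
    obtain ⟨j, fr, sj⟩ : ∃ j, m.far k j ∧ m.Sol W j := by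
      by_contra q
      exact ex ⟨k, p, f, so, fun j a b => q ⟨j, a, b⟩⟩
    have f' := h.far_ge fr f
    have key : ∀ n w, w ≠ p → m.GE n v w → ¬ m.Sol W n := fun n w d g sn =>
      ex ⟨n, w, g, sn, fun n' q _ => by
        rcases G.one_rung fr f so nv (by omega) g sn q with rfl | rfl
        exacts [d (g.fc.unique f (h.fc_ne g).1).1, d (g.fc.unique f' (h.fc_ne g).1).1]⟩
    exact G.d0 x y v p _ _ k j gd (G.ring_ne bv) (fun e => np (e ▸ gd.px)) (fun e => np (e ▸ gd.py)) bv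
      fr f f' so sj (fun n => key n _ (h.fc_ne f).2.2.symm) fun n => key n _ (h.fc_ne f').2.2.symm
  obtain ⟨k, b, g, so, sf⟩ := ex
  have S := G.str (G.cov1 bv np g so sf)
  have ki := st.sol_inf h so
  obtain ⟨w1, w2, -⟩ := st.sol_w h so g
  obtain ⟨l1, l2, -, l4⟩ := h.lines g ki
  obtain ⟨n, sd, -, c2⟩ := st.nxt h r w2 ⟨g.fc.has1, g.fc.has3⟩
  rw [l2] at sd
  refine ⟨b, v, n, k, S, g.symm, so, sf, fun sn => ?_, st.sid_rev h r sd, np⟩
  obtain ⟨p, f⟩ := (c2.resolve_left (not_not.2 sn)).ge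
  have pb : p ≠ b := fun e => sf n (h.far_of_fc (st.bd1 w1) sd.wk.ne g (e ▸ f)) sn
  obtain ⟨j, fr, sj⟩ : ∃ j, m.far n j ∧ m.Sol W j := by
    by_contra q
    exact pb (S.uniq (G.cov1 bv np f sn fun j a b => q ⟨j, a, b⟩))
  have f' := h.far_ge fr f
  have bn := sd.wk.h2.resolve_left (h.far_not_bar fr ki)
  obtain ⟨a1, a2, -, a4⟩ := h.lines f fr.2.1
  obtain ⟨a5, a6, -, a8⟩ := h.lines f' fr.2.2.1
  rcases G.half fr f f' sn nv (by omega) g so with e | e | e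
  · exact pb e.symm
  · exact l4 (l1.symm.trans ((e ▸ a2).trans bn))
  have bj : m.bar j = m.stem k := a6.symm.trans (e ▸ l1)
  have kj : k ≠ j := fun q => (h.fc_ne g).2.2 (q ▸ e)
  have oi := (st.bd1 w0).ne_inf oo.1
  rcases h.tri_close (t₁ := m.stem n) (t₂ := m.stem k) (t₃ := m.bar k) (st.bd1 w1) g.fc.cor1 f.fc.cor1
    f'.fc.cor1 sd.wk.ne kj fr.1 (bj ▸ h.far_not_bar fr fr.2.2.1) (h.far_not_bar fr ki) l4 (.inl rfl)
    (.inr rfl) (.inl rfl) (.inr bn) (.inl (h.far_stem fr).symm) (.inr bj) oo.1 with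
    rfl | rfl | rfl | ⟨xv, q⟩
  exacts [op so, op sn, op sj, by
    have key : ∀ t j k, m.Sid ps W v t j k → m.cor j v → m.cor k v → m.Sol W j → m.Sol W k →
        m.bar o ≠ t := fun t j k s c c' s1 s2 e => by
      have tc : m.Tc o v t := e ▸ h.tc_bar oi oo.1
      have d1 := mt (r.inj t o j oi s.wk.i1 (.inr e) s.wk.h1) fun q => op (q ▸ s1)
      have d2 := mt (r.inj t o k oi s.wk.i2 (.inr e) s.wk.h2) fun q => op (q ▸ s2)
      have d3 := mt (r.inj t j k s.wk.i1 s.wk.i2 s.wk.h1 s.wk.h2) s.wk.ne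
      have x1 : ¬ Bt ps t j o k := fun q => op (s.wk.sol o oi (.inr e) q)
      have x2 : ¬ Bt ps t o j k := fun q => let ⟨_, g⟩ := c.ge
        (h.fc_ne g).2.1 (r.flat oi s.wk.i1 s.wk.i2 tc s.wk.h1 s.lst q).symm
      have x3 : ¬ Bt ps t o k j := fun q => let ⟨_, g⟩ := c'.ge
        (h.fc_ne g).2.1 (r.flat oi s.wk.i2 s.wk.i1 tc s.wk.h2 s.tc q).symm
      unfold Bt at *
      omega
    rcases q with q | q | q
    · exact h.far_not_bar fr oi q.symm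
    · exact key _ _ _ (st.sid_uni h r w1 g.fc.on ⟨f'.fc.has1, e ▸ f'.fc.has3⟩ kj) g.fc.cor1 f'.fc.cor1
        so sj (q.trans l1.symm)
    · exact key _ _ _ sd g.fc.cor1 f.fc.cor1 so sn q]

/-- type GG with an interior centre -/
theorem lg3 : False := by
  obtain ⟨b, v, o, k, S, E⟩ := G.start
  obtain ⟨j, g⟩ := G.pg b S.pb
  obtain ⟨v', o', E'⟩ := G.ok.rot_cor (z := b) (C := {k | ∃ v o, m.Ent ps W P b v o k}) ⟨k, v, o, E⟩
    (fun k ⟨v, o, E⟩ => ⟨E.g.fc.cor1, let ⟨o', e, E'⟩ := G.step S E; ⟨e, ⟨_, o', E'⟩, E'.g⟩⟩)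
    g.fc.has2
  exact G.ring_ne (E'.sid.bdy E'.op) (E'.g.fc.unique g.symm (G.ok.fc_ne E'.g).1).1

end G3

end Map

end Pool.Agent.P.MP_5f84aa_co.G
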