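import Pool.Agent.P.MP_5f84aa_co.G.LGc

/-! Type GG, interior centre, part a: tools. -/

namespace Pool.Agent.P.MP_5f84aa_co.G

namespace Map

variable {V J Sg : Type} {m : Map V J Sg} {ps : J → Sg → ℤ} {t : Sg} {T : Set Sg} {N P : V → Prop}
  {U D : Finset V} {W : V → V → Prop} {μ : V → ℕ} {M : Finset J}
  {a b c p q u v w x y z X X' : V} {e i j j' k k' n o : J}

/-- the shadow of a light at `k` is harmless -/
def Sfe (m : Map V J Sg) (W : V → V → Prop) (k : J) : Prop := ∀ k', m.far k k' → ¬ m.Sol W k'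

theorem Ok.sf_of_land (h : m.Ok) (ki : k ≠ m.inf) (e : m.stem j = m.bar k) : m.Sfe W j :=
  fun _ f => absurd e (h.far_not_bar f ki)

namespace HSt

variable (h : m.Ok) (s : m.HSt U W)
include h s

theorem sf_or (so : m.Sol W k) (f : m.Fc k p q z) (sf : m.Sfe W k) :
    (∀ j, m.far k j → ¬ W p (m.X j)) ∨ ∀ j, m.far k j → ¬ W q (m.X j) := by
  by_contra n
  push Not at n
  obtain ⟨⟨j, r, w⟩, j', r', w'⟩ := n
  obtain rfl := h.far_unique r r'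
  exact sf _ r (s.sol_of (h.far_ge r f.ge).fc (s.sol_w h so f).1 w w')

variable (g : m.Ord ps)
include g

/-- the first part of a segment, up to a face -/
theorem wk_to (a : m.Wk ps W t o e) (ii : i ≠ m.inf) (c : m.hug i t) (b : Bw ps t o i e) (d : i ≠ o) :
    m.Wk ps W t o i := by
  by_cases q : i = e
  exacts [q ▸ a, s.wk_sub h g a ii c (g.bt_of a.i1 ii a.i2 a.h1 c a.h2 b d q)]

/-- two segments that meet at a landing -/
theorem wk_join (a : m.Wk ps W t o k) (so : m.Sol W k) (f : m.Fc k x y z) (b : m.Sgm ps t o k x z)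
    (a' : m.Wk ps W t k e) (b' : m.Sgm ps t k e y z) : Bt ps t o k e ∧ m.Wk ps W t o e := by
  obtain ⟨k', -, -, bt, o', -⟩ := s.wk_ext h g a so f b
  have e1 := (b'.2.2 k' o').2
  have bt' : Bt ps t o k e := by unfold Bt at *; unfold Bw at e1; omega
  exact ⟨bt', a.trans g a' bt' so⟩

omit s g in
/-- the last piece of a segment that ends with the stem -/
theorem wk_stem' (a : m.Wk ps W t o e) (f : m.Fc e x y z) (c : m.stem e = t) : m.Sgm ps t o e x y := by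
  obtain ⟨u, v, -, q, b⟩ := a.p2
  rcases h.piece a.i2 q b.1.1 with ⟨f', -⟩ | ⟨-, l⟩
  · have := f.cor_iff.1 f'.fc.cor1
    have := f.cor_iff.1 f'.fc.cor2
    have := b.1.1
    have := b.symm h
    grind
  · exact absurd (c.trans (b.2.1.symm.trans l)) (h.stem_ne e a.i2)

omit s in
/-- two segments with a common piece -/
theorem bw_or (b : m.Sgm ps t o e u v) (b' : m.Sgm ps t o i u v) :
    Bw ps t o i e ∨ Bt ps t o e i := by
  obtain ⟨-, n, q⟩ := b.1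
  obtain ⟨n', -, q', -, -, -, d⟩ := b.two h g q
  have := (b.2.2 n q).2
  have := (b.2.2 n' q').2
  have := (b'.2.2 n q).2
  have := (b'.2.2 n' q').2
  unfold Bw Bt at *
  omega

omit s in
/-- nothing lies beyond the end of a line -/
theorem bw_end (a : m.Wk ps W t o e) (c : m.stem e = t) (a' : m.Wk ps W t o i)
    (b : m.Sgm ps t o e u v) (b' : m.Sgm ps t o i u v) : Bw ps t o i e :=
  (bw_or h g b b').resolve_right fun q => h.stem_ne e a.i2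
    (c.trans (g.bar_of_bt a.i1 a.i2 a'.i2 a.h1 a.h2 a'.h2 q).symm)

/-- the cells of the last face of a segment that starts at an open face -/
theorem seg_near (a : m.Wk ps W t o i) (op : ¬ m.Sol W o) (so : m.Sol W i) (c : m.has i u) :
    m.Fe T W 1 u := by
  obtain ⟨p, q, w, o', b⟩ := a.p2
  have f : m.Fe T W 0 p := ⟨q, w, s.wk_att h g a op b⟩
  by_cases e : p = u
  exacts [e ▸ .inl f, f.wall (so p u e ⟨o'.1, c⟩)]

theorem seg_rc (a : m.Wk ps W t o e) (op : ¬ m.Sol W o) (c : k ∈ M) (l : m.hug k t) :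
    m.Rc W D (m.Hgd T M No) e :=
  s.rc_end h g a (.op op) fun _ _ b => .inl (.no c l b.2.1)

theorem seg_gone (a : m.Wk ps W t o e) (op : ¬ m.Sol W o) (c : k ∈ M) (l : m.hug k t)
    (b : m.Sgm ps t o e u v) : u ∈ D ∨ v ∈ D ∨ m.Opd W D (m.Hgd T M No) u v :=
  s.op_wk h g a (.op op) (fun _ _ b => .inl (.no c l b.2.1)) b

/-- three solid corners -/
theorem cov4 {t₁ t₂ t₃ : Sg} {k₁ k₂ k₃ : J} (se : m.Sect W z) (a : m.Sid ps W z t i k₁)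
    (a₁ : m.Sid ps W z t₁ k₁ k₂) (a₂ : m.Sid ps W z t₂ k₂ k₃) (a₃ : m.Sid ps W z t₃ k₃ o)
    (oi : ¬ m.Sol W i) (oo : ¬ m.Sol W o) (c₁ : m.cor k₁ z) (c₂ : m.cor k₂ z) (c₃ : m.cor k₃ z)
    (d₁ : t ≠ t₁) (d₂ : t₁ ≠ t₂) (d₃ : t₂ ≠ t₃) (w : W z u) :
    m.Sgm ps t i k₁ z u ∨ m.Sgm ps t₁ k₁ k₂ z u ∨ m.Sgm ps t₂ k₂ k₃ z u ∨ m.Sgm ps t₃ k₃ o z u := by
  obtain ⟨_, _, _, ⟨rfl, rfl, rfl⟩ | ⟨rfl, rfl, rfl⟩ | ⟨rfl, rfl, rfl⟩ | ⟨rfl, rfl, rfl⟩, b⟩ :=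
    s.cover h g se (fun a b c => (a = t ∧ b = i ∧ c = k₁) ∨ (a = t₁ ∧ b = k₁ ∧ c = k₂) ∨
      (a = t₂ ∧ b = k₂ ∧ c = k₃) ∨ (a = t₃ ∧ b = k₃ ∧ c = o))
    (by rintro _ _ _ (⟨rfl, rfl, rfl⟩ | ⟨rfl, rfl, rfl⟩ | ⟨rfl, rfl, rfl⟩ | ⟨rfl, rfl, rfl⟩) <;>
      assumption)
    (by
      rintro _ _ _ (⟨rfl, rfl, rfl⟩ | ⟨rfl, rfl, rfl⟩ | ⟨rfl, rfl, rfl⟩ | ⟨rfl, rfl, rfl⟩) n
        (rfl | rfl) so
      exacts [absurd so oi, ⟨c₁, _, _, d₁.symm, .inl (.inr (.inl ⟨rfl, rfl, rfl⟩))⟩,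
        ⟨c₁, _, _, d₁, .inr (.inl ⟨rfl, rfl, rfl⟩)⟩,
        ⟨c₂, _, _, d₂.symm, .inl (.inr (.inr (.inl ⟨rfl, rfl, rfl⟩)))⟩,
        ⟨c₂, _, _, d₂, .inr (.inr (.inl ⟨rfl, rfl, rfl⟩))⟩,
        ⟨c₃, _, _, d₃.symm, .inl (.inr (.inr (.inr ⟨rfl, rfl, rfl⟩)))⟩,
        ⟨c₃, _, _, d₃, .inr (.inr (.inr (.inl ⟨rfl, rfl, rfl⟩)))⟩, absurd so oo])
    (.inl ⟨rfl, rfl, rfl⟩) w
  exacts [.inl b, .inr (.inl b), .inr (.inr (.inl b)), .inr (.inr (.inr b))]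

/-- a segment that is one piece -/
theorem sgm_uni (w : W z u) (a : m.On j z u) (a' : m.On k z u) (d : j ≠ k)
    (b : m.Sgm ps (m.ln z u) j k z v) : v = u := by
  obtain ⟨c, c'⟩ := s.wk_one h g w a a' d
  have := s.wk_row h g c ⟨z, a.symm, c'.symm h⟩ ⟨z, (s.ne w).symm, a'.symm, h.ln_symm _ _⟩ b
  exact this.resolve_left (s.ne w)

theorem sid_uni (w : W z u) (a : m.On j z u) (a' : m.On k z u) (d : j ≠ k) :
    m.Sid ps W z (m.ln z u) j k :=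
  let ⟨c, c'⟩ := s.wk_one h g w a a' d; ⟨c, ⟨u, a, c'⟩, u, s.ne w, a', rfl⟩

end HSt

end Map

end Pool.Agent.P.MP_5f84aa_co.G
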