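import Pool.Agent.P.MP_5f84aa_co.G.LG3a

/-! Type GG, interior centre, part b: the context, the star, the lights that spare the zone. -/

namespace Pool.Agent.P.MP_5f84aa_co.G

namespace Map

variable {V J Sg : Type}

/-- the door lemma without an extra corner -/
def Door0 (m : Map V J Sg) (W : V → V → Prop) (a : V) (P : V → Prop) : Prop :=
  ∀ x y v h X X' j j', m.Gd W a P x y → v ≠ a → v ≠ x → v ≠ y → m.Bdy W v → m.far j j' →
    m.Fc j v h X → m.Fc j' v h X' → m.Sol W j → m.Sol W j' → (∀ c, m.GE c v X → ¬ m.Sol W c) →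
    (∀ c, m.GE c v X' → ¬ m.Sol W c) → False

/-- the door lemma with one extra corner -/
def Door1 (m : Map V J Sg) (W : V → V → Prop) (a : V) (P : V → Prop) : Prop :=
  ∀ x y v h X X' j j' c, m.Gd W a P x y → v ≠ a → v ≠ x → v ≠ y → m.Bdy W v → m.far j j' →
    m.Fc j v h X → m.Fc j' v h X' → m.Sol W j → m.Sol W j' → m.GE c v X → m.Sol W c →
    (∀ c, m.GE c v X' → ¬ m.Sol W c) → ∃ f, m.GE f h X ∧ m.bar f = m.bar j' ∧ m.Sol W f

/-- the context: no cut run, no cut cell, an interior centre -/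
structure G3 [DecidableEq V] (m : Map V J Sg) (ps : J → Sg → ℤ) (T : Set Sg) (N : V → Prop)
    (U : Finset V) (W : V → V → Prop) (μ : V → ℕ) (a : V) (P : V → Prop) : Prop
    extends m.GG ps T N U W μ a P where
  nc : ∀ t j k, m.Wk ps W t j k → m.Sol W j ∨ m.Sol W k
  cv : ∀ v, m.Sect W v
  int : ¬ m.Bdy W a
  d0 : m.Door0 W a P
  d1 : m.Door1 W a P

/-- `b` lies in every good pair -/
def Cov (m : Map V J Sg) (W : V → V → Prop) (a : V) (P : V → Prop) (b : V) : Prop :=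
  ∀ x y, m.Gd W a P x y → b = x ∨ b = y

/-- the star: the partners are `b` and one class -/
structure Str (m : Map V J Sg) (W : V → V → Prop) (a : V) (P : V → Prop) (b : V) : Prop where
  pb : P b
  cov : m.Cov W a P b
  gd : ∀ u, P u → u ≠ b → m.Gd W a P b u
  mate : ∀ u, ∃ u', P u' ∧ u' ≠ b ∧ u' ≠ u
  sh : (∃ u u' j j', m.far j j' ∧ m.Fc j u u' a ∧ P u ∧ P u' ∧ u ≠ b ∧ u' ≠ b ∧
      ∀ p, P p → p = b ∨ p = u ∨ p = u') ∨
    ∃ c y r, m.K4 c a y r ∧ P c ∧ b ≠ c ∧ b ≠ y ∧ b ≠ r ∧ (P y ∨ P r) ∧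
      ∀ p, P p → p = b ∨ p = c ∨ p = y ∨ p = r

variable {m : Map V J Sg} {ps : J → Sg → ℤ} {t : Sg} {T : Set Sg} {N P : V → Prop}
  {U D : Finset V} {W : V → V → Prop} {μ : V → ℕ} {M : Finset J}
  {a b b' c p q r u v w x y z X X' : V} {e i j j' k k' n o : J}

theorem Str.uniq (S : m.Str W a P b) (c : m.Cov W a P b') : b' = b := by
  obtain ⟨u, pu, ub, u'⟩ := S.mate b'
  exact (c b u (S.gd u pu ub)).resolve_right u'.symm

namespace G3

variable [DecidableEq V] (G : m.G3 ps T N U W μ a P)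
include G

theorem sa (c : m.has j a) : m.Sol W j := by_contra fun n => G.int ⟨j, c, n⟩

theorem wall (e : P p) : W a p :=
  let ⟨_, g⟩ := G.pg p e; (G.st.sol_w G.ok (G.sa g.fc.has1) g).1

theorem fa : m.Fe T W 1 a := let ⟨_, _, g⟩ := G.good; (G.loc g).fa

theorem near {d : ℕ} (f : m.Fe T W d u) (l : d ≤ 8) : N u := G.cn.near u (.inl (f.mono l))

theorem ba : m.Bd a := let ⟨_, _, g⟩ := G.good; G.st.bd1 g.wx

theorem pa (g : m.GE k a p) : P p :=
  G.gp p (G.near (G.fa.wall (G.st.sol_w G.ok (G.sa g.fc.has1) g).1) (by omega)) ⟨k, g⟩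

theorem norung (c : m.cor k a) (r : m.far k k') : False :=
  let ⟨p, g⟩ := c.ge
  G.s0 p (G.near (G.fa.wall (G.st.sol_w G.ok (G.sa g.fc.has1) g).1) (by omega)) ⟨k, k', r, g⟩

theorem kap (g : m.GE k a p) (g' : m.GE k' a p) : k = k' := by_contra fun n =>
  G.norung g.fc.cor1 (G.ok.far_of_fc G.ba n g g')

theorem ring0 (b : m.Bdy W u) (w : W u v) : m.Fe T W 0 u :=
  let ⟨_, _, g⟩ := G.good; (G.loc g).b0 G.ok b w

theorem ring_ne (b : m.Bdy W u) : u ≠ a := fun e => G.int (e ▸ b)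

/-- a further corner of a half of a rung -/
theorem half {d : ℕ} (r : m.far j j') (f : m.Fc j u v X) (f' : m.Fc j' u v X') (so : m.Sol W j)
    (nu : m.Fe T W d u) (l : d ≤ 7) (g : m.GE k u w) (sk : m.Sol W k) : w = v ∨ w = X ∨ w = X' := by
  have := G.ss u v w j j' (G.near nu (by omega))
    (G.near (nu.wall (G.st.sol_w G.ok so f).1) (by omega))
    (G.near (nu.wall (G.st.sol_w G.ok sk g).1) (by omega)) r f.ge ⟨k, g⟩
  rwa [f.2, f'.2] at this

/-- a half of a rung has no second rung -/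
theorem one_rung {d : ℕ} (r : m.far j j') (f : m.Fc j u v X) (so : m.Sol W j)
    (nu : m.Fe T W d u) (l : d ≤ 7) (g : m.GE k u w) (sk : m.Sol W k) (r' : m.far k k') :
    k = j ∨ k = j' := by
  have h := G.ok
  have f' := h.far_ge r f.ge
  have g' := h.far_ge r' g
  have d := (h.fc_ne g).1
  rcases G.half r f f' so nu l g sk with rfl | rfl | rfl
  · exact h.two_faces d f.on f'.fc.on g.fc.on r.1
  · rcases h.two_faces d g.fc.on g'.fc.on ⟨f.has1, f.has3⟩ r'.1 with rfl | rfl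
    exacts [absurd f.2.symm (h.fc_ne g).2.2, absurd f.2.symm (h.fc_ne g').2.2]
  · rcases h.two_faces d g.fc.on g'.fc.on ⟨f'.fc.has1, f'.fc.has3⟩ r'.1 with rfl | rfl
    exacts [absurd rfl (h.fc_ne g).2.2, absurd rfl (h.fc_ne g').2.2]

theorem three [Finite J] : ∃ p q r, P p ∧ P q ∧ P r ∧ p ≠ q ∧ p ≠ r ∧ q ≠ r := by
  obtain ⟨i, j, k, a1, a2, a3, c1, c2, c3⟩ := G.ok.corners3 G.ba
  obtain ⟨p, g1⟩ := c1.ge
  obtain ⟨q, g2⟩ := c2.ge
  obtain ⟨r, g3⟩ := c3.ge
  exact ⟨p, q, r, G.pa g1, G.pa g2, G.pa g3, fun e => a1 (G.kap g1 (e ▸ g2)),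
    fun e => a2 (G.kap g1 (e ▸ g3)), fun e => a3 (G.kap g2 (e ▸ g3))⟩

theorem str [Finite J] (c : m.Cov W a P b) : m.Str W a P b := by
  obtain ⟨x, y, g⟩ := G.good
  obtain ⟨k, wf⟩ := G.wf
  obtain ⟨u, g⟩ : ∃ u, m.Gd W a P b u := by
    rcases c x y g with rfl | rfl
    exacts [⟨_, g⟩, ⟨_, g.symm⟩]
  have mate : ∀ u, ∃ u', P u' ∧ u' ≠ b ∧ u' ≠ u := fun u => by
    obtain ⟨p, q, r, a1, a2, a3, a4, a5, a6⟩ := G.three
    grind
  obtain ⟨u', p', n1, n2⟩ := mate u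
  obtain ⟨e1, e2⟩ := G.ok.star (b := b) wf G.pg (fun p q a1 a2 a3 a4 =>
    (c p q ⟨a3, a4, a1, a2, G.wall a1, G.wall a2⟩).imp Eq.symm Eq.symm) g.py p' g.ne.symm n1 n2.symm g.nb
  refine ⟨g.px, c, fun u pu ub => ⟨ub.symm, e1 u pu ub, g.px, pu, g.wx, G.wall pu⟩, mate,
    e2.imp_right ?_⟩
  rintro ⟨c, y, r, K, n, e3, e4⟩
  obtain ⟨i, f⟩ := K.1
  unfold In4 at n
  exact ⟨c, y, r, K, G.pa f.symm.ge, by tauto, by tauto, by tauto, e3, e4⟩

variable [Finite V]

/-- a safe corner of a ring cell -/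
theorem cov0 (g : m.Gd W a P x y) (bv : m.Bdy W v) (f : m.Fc k v w z) (so : m.Sol W k)
    (sf : m.Sfe W k) : (v = a ∨ v = x ∨ v = y) ∨ w = a ∨ w = x ∨ w = y := by
  have w1 := (G.st.sol_w G.ok so f).1
  have n1 := (G.ring0 bv w1).mono (e := 8) (by omega)
  have n2 := ((G.ring0 bv w1).wall w1).mono (e := 8) (by omega)
  rcases G.st.sf_or G.ok so f sf with s | s
  · exact (G.loc g).f1one G.ok f n1 n2 s (.of_bdy bv (by simp) f.has1)
  · exact ((G.loc g).f1one G.ok f.symm n2 n1 s (.of_bdy bv (by simp) f.has1)).symm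

theorem cov1 (bv : m.Bdy W v) (nv : ¬ P v) (f : m.Fc k v w z) (so : m.Sol W k) (sf : m.Sfe W k) :
    m.Cov W a P w := fun x y g => by
  rcases G.cov0 g bv f so sf with (e | e | e) | e | e
  · exact absurd e (G.ring_ne bv)
  · exact absurd (e ▸ g.px) nv
  · exact absurd (e ▸ g.py) nv
  · exact absurd (G.pa (e ▸ f.symm.ge)) nv
  · exact e

/-- a safe face at the end of a segment that starts at an open face -/
theorem segF (g : m.Gd W a P x y) (s : m.Wk ps W t o i) (op : ¬ m.Sol W o) (f : m.Fc i p q z)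
    (sf : m.Sfe W i) (nx : ¬ m.Sgm ps t o i a x) (ny : ¬ m.Sgm ps t o i a y) :
    (p = a ∨ p = x ∨ p = y) ∨ q = a ∨ q = x ∨ q = y := by
  have so := (G.nc _ _ _ s).resolve_left op
  have n1 := (G.st.seg_near (T := T) G.ok G.ord s op so f.has1).mono (e := 8) (by omega)
  have n2 := (G.st.seg_near (T := T) G.ok G.ord s op so f.has2).mono (e := 8) (by omega)
  have key : ∀ u v, m.Sgm ps t o i u v → ¬ Pr a x y u v := by
    rintro _ _ b ⟨rfl, rfl | rfl⟩
    exacts [nx b, ny b]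
  have rc : ∀ D, m.Rc W D (m.Hgd T {i} (Pr a x y)) i := fun D =>
    G.st.rc_end G.ok G.ord s (.op op) fun u v b =>
      .inl (.of (by simp) s.h2 b.2.1 (key u v b) (key v u (b.symm G.ok)))
  rcases G.st.sf_or G.ok so f sf with s | s
  · exact (G.loc g).f1one G.ok f n1 n2 s (rc _)
  · exact ((G.loc g).f1one G.ok f.symm n2 n1 s (rc _)).symm

/-- a safe light on an attached segment without pieces of the zone contains `a` or `b` -/
theorem hasb (S : m.Str W a P b) (s : m.Wk ps W t o e) (op : ¬ m.Sol W o) (se : m.stem e = t)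
    (ki : k ≠ m.inf) (bk : m.bar k = t) (bt : Bt ps t o k e)
    (np : ∀ p, P p → ¬ m.Sgm ps t o e a p) (ii : i ≠ m.inf) (hi : m.hug i t) (bw : Bw ps t o i e)
    (d : i ≠ o) (sf : m.Sfe W i) : m.cor i a ∨ m.cor i b := by
  have h := G.ok
  have st := G.st
  have r := G.ord
  have key : ∀ i p q z u, i ≠ m.inf → m.hug i t → Bw ps t o i e → i ≠ o → m.Sfe W i → m.Fc i p q z →
      P u → u ≠ b → (p = a ∨ p = b ∨ p = u) ∨ q = a ∨ q = b ∨ q = u :=
    fun i p q z u ii hi bw d sf f pu ub => G.segF (S.gd u pu ub) (st.wk_to h r s ii hi bw d) op f sf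
      (fun c => np _ S.pb (c.mono bw)) fun c => np _ pu (c.mono bw)
  have land : ∀ i p q z, i ≠ m.inf → m.bar i = t → Bw ps t o i e → i ≠ o → m.Fc i p q z →
      m.Sgm ps t o e p z := fun i p q z ii c bw d f => st.wk_land h r s f c ii
    (r.bt_of s.i1 ii s.i2 s.h1 (.inr c) s.h2 bw d fun q => h.stem_ne e s.i2 (se.trans (q ▸ c).symm))
  have fin : ∀ i p q z, i ≠ m.inf → m.stem i = t → Bw ps t o i e → i ≠ o → m.Fc i p q z →
      m.Sgm ps t o e p q ∧ i = e := fun i p q z ii c bw d f => by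
    obtain rfl : i = e := by_contra fun q => h.stem_ne i ii (c.trans (r.bar_of_bt s.i1 ii s.i2 s.h1
      (.inl c) s.h2 (r.bt_of s.i1 ii s.i2 s.h1 (.inl c) s.h2 bw d q)).symm)
    exact ⟨HSt.wk_stem' h s f c, rfl⟩
  by_contra q
  obtain ⟨qa, qb⟩ := not_or.1 q
  have all : ∀ u, P u → u ≠ b → m.cor i u := fun u pu ub => by
    have := key i _ _ _ u ii hi bw d sf (fc_self i) pu ub
    unfold cor at *
    grind
  rcases S.sh with ⟨u, u', j, j', fr, f, pu, pu', ub, ub', -⟩ | ⟨c, y, z, K, pc, n1, n2, n3, e, -⟩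
  · have g := h.ge_of_cor (all u pu ub) (all u' pu' ub') (h.fc_ne f).1
    rcases h.two_faces (h.fc_ne f).1 f.on (h.far_ge fr f.ge).fc.on g.fc.on fr.1 with rfl | rfl
    · exact np u pu ((land i _ _ _ ii (hi.resolve_left fun c => h.far_not_bar fr ki (c.trans bk.symm))
        bw d f).symm h)
    · exact sf _ fr.symm (G.sa f.has3)
  obtain ⟨m1, m2, m3, m4, m5, m6⟩ := h.k4_ne K
  have sf' : ∀ i, m.cor i c → m.Sfe W i := fun i q i' fr => absurd q (h.k4_rung K fr)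
  have ci := all c pc n1.symm
  obtain ⟨⟨i1, f1⟩, ⟨i2, f2⟩, i3, f3⟩ := id K
  have s1 := G.sa f1.has2
  have s3 := G.sa f3.has3
  have j1 := st.sol_inf h s1
  have j3 := st.sol_inf h s3
  have bc := st.bd1 (st.sol_w h s1 f1).1
  have j2 := bc.ne_inf f2.has1
  by_cases py : P y
  · have g := h.ge_of_cor ci (all y py n2.symm) m2
    have e := h.k4_fc K g
    obtain rfl : i = i2 := h.tri_unique bc m2 m3 m5 (by
      have : m.X i = z := by grind
      exact this ▸ g.fc.tri) f2.tri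
    rcases hi with hi | hi
    · have b := (fin i _ _ _ ii hi bw d f2).1
      have l : m.bar i1 = t := (h.lines f1 j1).2.1.symm.trans b.2.1
      exact np y py (land i1 _ _ _ j1 l (b.2.2 i1 ⟨f1.has1, f1.has3⟩).2 (fun e => op (e ▸ s1)) f1.symm)
    · have b := land i _ _ _ ii hi bw d f2
      have := key i3 _ _ _ y j3 (b.2.1 ▸ h.hug_on j3 f3.on m3) (b.2.2 i3 f3.on).2
        (fun e => op (e ▸ s3)) (sf' _ f3.cor1) f3 py n2.symm
      grind
  · have pr := e.resolve_left py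
    have g := h.ge_of_cor ci (all z pr n3.symm) m3
    have e := h.k4_fc K g
    obtain rfl : i = i3 := h.tri_unique bc m3 m1 m6.symm (by
      have : m.X i = a := by grind
      exact this ▸ g.fc.tri) f3.tri
    rcases hi with hi | hi
    · obtain ⟨b, rfl⟩ := fin i _ _ _ ii hi bw d f3
      have o2 : m.On i2 c z := ⟨f2.has1, f2.has3⟩
      have d2 : i2 ≠ i := fun e => m6 ((e ▸ f2 : m.Fc i c y z).2.symm.trans f3.2).symm
      by_cases d' : i2 = o
      · have := r.step c z i2 i m3 o2 f3.on d2 j2 ii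
        rw [b.2.1, d'] at this
        unfold Bt at bt
        omega
      have := key i2 _ _ _ z j2 (b.2.1 ▸ h.hug_on j2 o2 m3) (b.2.2 i2 o2).2 d' (sf' _ f2.cor1) f2 pr
        n3.symm
      grind
    · exact np c pc ((land i _ _ _ ii hi bw d f3).symm h)

end G3

end Map

end Pool.Agent.P.MP_5f84aa_co.G
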