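import Pool.Agent.P.MP_5f84aa_co.G.LG3b

/-! Type GG, interior centre, part c: runs that meet the centre. -/

namespace Pool.Agent.P.MP_5f84aa_co.G

namespace Map

variable {V J Sg : Type} {m : Map V J Sg} {ps : J → Sg → ℤ} {t : Sg} {T : Set Sg} {N P : V → Prop}
  {U D : Finset V} {W : V → V → Prop} {μ : V → ℕ} {M : Finset J}
  {a b b' c p q r u v w x y z X X' : V} {e i j j' k k' n o : J}

namespace G3

variable [DecidableEq V] [Finite V] [Finite J] (G : m.G3 ps T N U W μ a P)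
include G

/-- (T) no attached run passes along `b` into the corner of `a` and `b` -/
theorem noT (S : m.Str W a P b) (s : m.Wk ps W t o k) (op : ¬ m.Sol W o) (f : m.Fc k b a X)
    (b0 : m.Sgm ps t o k b X) : False := by
  have h := G.ok
  have st := G.st
  have r := G.ord
  have so := G.sa f.has2
  obtain ⟨l1, l2, l3, l4⟩ := h.lines f s.i2
  have bk : m.bar k = t := l2.symm.trans b0.2.1
  have lab : m.ln a b ≠ t := fun e => l4 (l1.symm.trans ((h.ln_symm _ _).trans (e.trans bk.symm)))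
  obtain ⟨k2, sd, b1, c2⟩ := st.nxt h r (st.sol_w h so f).2.2 ⟨f.has2, f.has3⟩
  rw [l3, bk] at sd b1
  have s2 : m.Sol W k2 := let ⟨_, _, o, _⟩ := sd.lst; G.sa o.1
  obtain ⟨u, g⟩ := (c2.resolve_left (not_not.2 s2)).ge
  have pu := G.pa g
  have ub : u ≠ b := fun e => sd.wk.ne (G.kap f.symm.ge (e ▸ g))
  obtain ⟨bt, s'⟩ := st.wk_join h r s so f b0 sd.wk b1
  have third : ∀ n, m.cor n a → m.hug n t → n = k ∨ n = k2 := fun n c g' =>
    h.side2 G.ba f.cor2 g.fc.cor1 c s.h2 sd.wk.h2 g' sd.wk.ne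
  have kp : ∀ p, P p → m.ln a p = t → ∃ n, m.GE n a p ∧ m.stem n = t ∧ (n = k ∨ n = k2) := fun p q l =>
    let ⟨n, g'⟩ := G.pg p q
    have e := (h.lines g' (G.ba.ne_inf g'.fc.has1)).1.symm.trans l
    ⟨n, g', e, third n g'.fc.cor1 (.inl e)⟩
  rcases sd.wk.h2 with hs | hs
  · have b2 := HSt.wk_stem' h sd.wk g hs
    obtain ⟨i, d, oi, two, -, hi, -⟩ := b2.two h r g.fc.on
    have ii := (b2.2.2 i oi).1
    have fl : i = k ∨ (m.X i = a ∧ m.bar i = t ∧ Bt ps t k i k2) := by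
      refine (em _).imp_right fun q => ?_
      have := r.bt_of s.i2 ii sd.wk.i2 s.h2 hi sd.wk.h2 (b2.2.2 i oi).2 q d
      exact ⟨(HSt.sid_flat r sd ii hi this).1, (HSt.sid_flat r sd ii hi this).2, this⟩
    have full : ∀ u', P u' → u' ≠ b → u' ≠ u → m.ln a u' ≠ t := fun u' q n1 n2 l => by
      obtain ⟨n, g', -, rfl | rfl⟩ := kp u' q l
      exacts [n1 (g'.fc.unique f.symm (h.fc_ne g').1).1, n2 (g'.fc.unique g (h.fc_ne g').1).1]
    have phi : ∀ j, m.On j a u → m.X j = a → j = i ∧ m.bar i = t ∧ Bt ps t k i k2 := fun j o e => by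
      obtain rfl := (two j o).resolve_left fun q => (h.fc_ne g).2.1 (q ▸ e).symm
      exact ⟨rfl, (fl.resolve_left fun q => (h.fc_ne f).2.2 (e.symm.trans (q ▸ f.2))).2⟩
    have rg : ∀ u' j, m.Fc j u u' a → P u' → u' ≠ b → False := fun u' j f' q n => by
      obtain ⟨rfl, e, -⟩ := phi j ⟨f'.has3, f'.has1⟩ f'.2
      exact full u' q n (h.fc_ne f').1.symm (((h.ln_symm _ _).trans (h.lines f' ii).2.2.1).trans e)
    rcases S.sh with ⟨u1, u2, j, j', fr, f1, p1, p2, n1, n2, al⟩ | ⟨c, y, z, K, pc, n1, n2, n3, e, al⟩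
    · rcases al u pu with rfl | rfl | rfl
      exacts [ub rfl, rg _ _ f1 p2 n2, rg _ _ f1.symm p1 n1]
    obtain ⟨m1, m2, m3, m4, m5, m6⟩ := h.k4_ne K
    obtain ⟨⟨i1, f1⟩, -, i3, f3⟩ := id K
    rcases al u pu with rfl | rfl | rfl | rfl
    · exact ub rfl
    · refine e.elim (fun py => ?_) fun pr => rg _ _ f3 pr n3.symm
      obtain ⟨rfl, e, bt'⟩ := phi i3 ⟨f3.has3, f3.has1⟩ f3.2
      obtain ⟨a1, -, a3, a4⟩ := h.lines f1 (G.ba.ne_inf f1.has2)
      have := G.segF (S.gd y py n2.symm) (st.wk_to h r s' ii hi (by unfold Bt at *; unfold Bw; omega)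
        fun e => op (e ▸ G.sa f3.has3)) op f3 (fun i' fr => absurd f3.cor1 (h.k4_rung K fr))
        (fun c => lab c.2.1) fun c => a4 (a1.symm.trans (((h.lines f3 ii).2.1.trans e).trans
          (c.2.1.symm.trans a3)))
      grind
    · obtain rfl := (two i1 ⟨f1.has2, f1.has3⟩).resolve_left fun q =>
        (h.fc_ne g).2.2 (q ▸ f1.2).symm
      rcases fl with rfl | q
      exacts [n1 (f.symm.unique f1.symm (h.fc_ne f).1.symm).1, m4 (q.1.symm.trans f1.2)]
    · exact rg _ _ f3.symm pc n1.symm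
  · obtain ⟨-, a2, a3, a4⟩ := h.lines g sd.wk.i2
    have b2 := HSt.sid_cor h (st.sid_rev h r sd) g.fc.cor1 ⟨g.fc.has1, g.fc.has3⟩ (h.fc_ne g).2.1
      (a2.trans hs)
    obtain ⟨e, s3, b3, c3⟩ := st.ray h r (st.sol_w h s2 g).2.2 ⟨g.fc.has2, g.fc.has3⟩
    rw [a3, hs] at s3 b3 c3
    obtain ⟨bt', s4⟩ := st.wk_join h r s' s2 g (b2.mono bt.symm.bw).rev s3 b3
    have se := c3.resolve_left (not_not.2 ((G.nc _ _ _ s4).resolve_left op))
    have nb : ∀ n, m.stem n = t → n = k ∨ n = k2 → False := by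
      rintro n e (rfl | rfl)
      exacts [l4 (e.trans bk.symm), a4 (e.trans hs.symm)]
    rcases G.hasb S s4 op se s.i2 bk (by unfold Bt at *; omega)
      (fun p q c => let ⟨n, _, e1, e2⟩ := kp p q c.2.1; nb n e1 e2) s4.i2 s4.h2 (.right _ _ _ _)
      s4.ne.symm (h.sf_of_land s.i2 (se.trans bk.symm)) with c | c
    · exact nb e se (third e c s4.h2)
    · have := r.flat s.i2 sd.wk.i2 s4.i2 (h.tc_cor s.i2 f.cor1 s.h2) sd.wk.h2 (h.tc_cor s4.i2 c s4.h2)
        (by unfold Bt at *; omega)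
      exact lab (this ▸ a2.trans hs)

omit [Finite V] in
/-- two corners of the class on one line -/
theorem line0 (S : m.Str W a P b) (g : m.GE i a u) (g' : m.GE j a p) (ub : u ≠ b) (pb : p ≠ b)
    (d : i ≠ j) (hj : m.hug j (m.bar i)) : m.X i = p ∧ ∃ n z, m.Fc n u p z ∧ z ≠ a := by
  have h := G.ok
  have pu := G.pa g
  have pp := G.pa g'
  have up : u ≠ p := fun e => d (G.kap g (e ▸ g'))
  have ii := G.ba.ne_inf g.fc.has1
  have ji := G.ba.ne_inf g'.fc.has1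
  obtain ⟨l1, -, -, l2⟩ := h.lines g ii
  obtain ⟨l3, -, -, l4⟩ := h.lines g' ji
  have same : m.stem i ≠ m.stem j := fun e =>
    hj.elim (fun q => l2 (e.trans q)) fun q => h.bars_ne i j d ii ji e q.symm
  rcases S.sh with ⟨u1, u2, n, n', fr, f, p1, p2, n1, n2, al⟩ | ⟨c, y, z, K, pc, n1, n2, n3, -, al⟩
  · obtain ⟨-, a1, a2, -⟩ := h.lines f fr.2.1
    have := h.ln_symm a u1
    have := h.ln_symm a u2
    have := al u pu
    have := al p pp
    grind
  obtain ⟨m1, m2, m3, m4, m5, m6⟩ := h.k4_ne K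
  obtain ⟨⟨i1, f1⟩, ⟨i2, f2⟩, i3, f3⟩ := id K
  have j1 := G.ba.ne_inf f1.has2
  obtain ⟨a1, -, a2, a3⟩ := h.lines f1 j1
  obtain ⟨-, a4, a5, -⟩ := h.lines f3 (G.ba.ne_inf f3.has3)
  have ez : m.ln a z = m.stem i1 := (h.ln_symm _ _).trans (a5.trans (a4.symm.trans a1))
  have ec : m.ln a c = m.stem i1 := (h.ln_symm _ _).trans a1
  have tri : ∀ i j, m.GE i a y → m.GE j a z → m.bar i ≠ m.bar j := fun i j g g' e => by
    have ii := G.ba.ne_inf g.fc.has1
    have ji := G.ba.ne_inf g'.fc.has1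
    obtain ⟨l1, -, -, l2⟩ := h.lines g ii
    obtain ⟨l3, -, -, l4⟩ := h.lines g' ji
    obtain ⟨k, gb⟩ := G.pg b S.pb
    have u1 := fun {n x x'} (g : m.GE n a x) (g' : m.GE n a x') => (g.fc.unique g' (h.fc_ne g).1).1
    rcases h.tri_close (t₁ := m.bar i) (t₂ := m.stem i1) (t₃ := m.bar i1) G.ba f1.cor2 g.fc.cor1
      g'.fc.cor1 (fun q => m2 (u1 f1.symm.ge (q ▸ g))) (fun q => m3 (u1 f1.symm.ge (q ▸ g')))
      (fun q => m5 (u1 g (q ▸ g'))) (fun q => l4 (l3.symm.trans (ez.trans (q.symm.trans e))))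
      (fun q => l2 (l1.symm.trans (a2.trans q.symm))) a3 (.inl rfl) (.inr rfl) (.inr rfl)
      (.inl (l1.symm.trans a2)) (.inr e.symm) (.inl (l3.symm.trans ez)) gb.fc.has1 with
      rfl | rfl | rfl | q
    exacts [n1 (u1 gb f1.symm.ge), n2 (u1 gb g), n3 (u1 gb g'), (h.fc_ne gb).2.1 q.1.symm]
  rcases al u pu with rfl | rfl | rfl | rfl <;> rcases al p pp with rfl | rfl | rfl | rfl <;>
    try contradiction
  · obtain rfl := G.kap g f1.symm.ge
    exact ⟨f1.2, i2, z, f2, m6.symm⟩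
  · exact absurd (l1.symm.trans (ec.trans (ez.symm.trans l3))) same
  · obtain rfl := G.kap g' f1.symm.ge
    exact hj.elim (fun q => absurd q.symm (G.ext.no2 i j ii ji (l1.symm.trans a2)))
      fun q => absurd (l1.symm.trans (a2.trans q)) l2
  · exact hj.elim (fun q => absurd (q.symm.trans (l3.symm.trans ez))
      (G.ext.no2 i i1 ii j1 (l1.symm.trans a2))) fun q => absurd q.symm (tri i j g g')
  · exact absurd (l1.symm.trans (ez.trans (ec.symm.trans l3))) same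
  · refine hj.elim (fun q => absurd (q.symm.trans (l3.symm.trans a2)) (h.bars_ne i i1 ?_ ii j1
      (l1.symm.trans ez))) fun q => absurd q (tri j i g' g)
    rintro rfl
    exact m3 (f1.symm.unique g m1.symm).1

/-- a segment that enters `b` and contains a corner of `a` -/
theorem caseA (S : m.Str W a P b) (f : m.Fc k b v X) (bk : m.bar k = t) (sv : m.Sid ps W v t o k)
    (op : ¬ m.Sol W o) (s : m.Wk ps W t o e) (se : m.stem e = t) (bt : Bt ps t o k e)
    (c : m.cor n a) (hn : m.hug n t) (bw : Bw ps t o n e) :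
    m.GE e a b ∧ ∃ i u, m.GE i a u ∧ u ≠ b ∧ m.bar i = t ∧ Bt ps t o i e := by
  have h := G.ok
  have st := G.st
  have r := G.ord
  have ki := sv.wk.i2
  have va : v ≠ a := let ⟨_, _, q, _⟩ := sv.tc; fun e => op (G.sa (e ▸ q.1))
  have ne : ∀ i j, i ≠ m.inf → j ≠ m.inf → m.hug i t → m.hug j t → i ≠ j → ps i t ≠ ps j t :=
    fun i j a1 a2 a3 a4 => mt (r.inj t i j a1 a2 a3 a4)
  have key : ∀ i j, m.Sid ps W a t i j → m.cor i a → m.cor j a → Bt ps t o i j → Bw ps t o j e →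
      m.GE e a b ∧ ∃ i u, m.GE i a u ∧ u ≠ b ∧ m.bar i = t ∧ Bt ps t o i e := by
    intro i j sd ci cj b1 b2
    have ii := sd.wk.i1
    have ji := sd.wk.i2
    have b3 : Bt ps t o i e := by unfold Bt at *; unfold Bw at b2; omega
    have bi := r.bar_of_bt s.i1 ii s.i2 s.h1 sd.wk.h1 s.h2 b3
    obtain ⟨u, g⟩ := ci.ge
    obtain ⟨p, g'⟩ := cj.ge
    obtain ⟨l1, l2, l3, l4⟩ := h.lines g ii
    obtain ⟨l5, l6, l7, l8⟩ := h.lines g' ji
    obtain ⟨k1, k2, k3, k4⟩ := h.lines f ki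
    have ub : u ≠ b := by
      rintro rfl
      have s' := st.wk_sub h r s ii sd.wk.h1 b3
      obtain ⟨x, y, f', q⟩ := st.wk_last h r s' bi
      rcases g.fc.cor_iff.1 f'.cor1 with rfl | rfl
      · have q' := HSt.sid_cor h sd ci ⟨g.fc.has1, g.fc.has3⟩ q.1.1 q.2.1
        obtain ⟨n, -, o', -, -, -, d⟩ := q.two h r ⟨g.fc.has1, g.fc.has3⟩
        have := (q.2.2 n o').2
        have := (q'.2.2 n o').2
        unfold Bt Bw at *
        omega
      · exact G.noT S s' op g.symm q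
    have ik : k ≠ i := by
      rintro rfl
      rcases g.fc.cor_iff.1 f.cor1 with e | e
      exacts [G.ne_a S.pb e, ub e.symm]
    have d1 := ne k i ki ii sv.wk.h2 sd.wk.h1 ik
    by_cases pb : p = b
    · subst pb
      refine ⟨?_, i, u, g, ub, bi, b3⟩
      rcases sd.wk.h2 with q | q
      · by_cases e' : j = e
        · exact e' ▸ g'
        exact absurd (q.trans (r.bar_of_bt s.i1 ji s.i2 s.h1 (.inl q) s.h2 (r.bt_of s.i1 ji s.i2 s.h1
          (.inl q) s.h2 b2 (by rintro rfl; unfold Bt at b1; omega) e')).symm) l8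
      have lab : m.ln a p ≠ t := fun e => l8 (l5.symm.trans (e.trans q.symm))
      have d2 := ne k j ki ji sv.wk.h2 sd.wk.h2 (by
        rintro rfl
        exact va (f.unique g'.symm (h.fc_ne f).1).1)
      have : Bt ps t i k j ∨ Bt ps t k i j ∨ Bt ps t o j k := by
        unfold Bt at *; unfold Bw at b2; omega
      rcases this with q' | q' | q'
      · have := f.2.symm.trans (HSt.sid_flat r sd ki sv.wk.h2 q').1
        exact absurd ((h.ln_symm _ _).trans (this ▸ k2.trans bk)) lab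
      · have := r.flat ki ii ji (h.tc_cor ki f.cor1 sv.wk.h2) sd.wk.h1
          (h.tc_cor ji g'.fc.cor2 sd.wk.h2) q'
        exact absurd (this ▸ l2.trans bi) lab
      · have := (HSt.sid_flat r sv ji sd.wk.h2 q').1
        exact absurd (k1.symm.trans ((this ▸ l7.trans q : m.ln p v = t).trans bk.symm)) k4
    obtain ⟨e1, n, z, f', za⟩ := G.line0 S g g' ub pb sd.wk.ne (bi ▸ sd.wk.h2)
    have bp := st.bd2 (G.wall (G.pa g'))
    have ni := bp.ne_inf f'.has2
    have sn : m.stem n = t := (h.lines f' ni).1.symm.trans (e1 ▸ l3.trans bi)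
    have sj : m.stem j = t := l5.symm.trans (e1 ▸ l2.trans bi)
    have n1 : n ≠ i := fun q => l4 ((q ▸ sn).trans bi.symm)
    have := r.land h (e1 ▸ g.fc : m.Fc i a u p) bp g'.fc.on f'.on sd.wk.ne.symm n1
    rw [bi] at this
    have d2 := ne k j ki ji sv.wk.h2 sd.wk.h2 fun q => k4 ((q ▸ sj).trans bk.symm)
    have d3 := ne k n ki ni sv.wk.h2 (.inl sn) fun q => k4 ((q ▸ sn).trans bk.symm)
    have x1 := r.ext j k i ji ki ii (sj ▸ sv.wk.h2) (sj ▸ sd.wk.h1)
    have x2 := r.ext j i k ji ii ki (sj ▸ sd.wk.h1) (sj ▸ sv.wk.h2)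
    have x3 := r.ext n k i ni ki ii (sn ▸ sv.wk.h2) (sn ▸ sd.wk.h1)
    have x4 := r.ext n i k ni ii ki (sn ▸ sd.wk.h1) (sn ▸ sv.wk.h2)
    rw [sj] at x1 x2
    rw [sn] at x3 x4
    omega
  have ni := G.ba.ne_inf c.has
  obtain ⟨w, d, on, l⟩ := h.tc_cor ni c hn
  obtain ⟨n2, sd, -, c2⟩ := st.nxt h r (G.sa c.has a w d on) on
  rw [l] at sd
  have s2 : m.Sol W n2 := let ⟨_, _, o, _⟩ := sd.lst; G.sa o.1
  have c2 := c2.resolve_left (not_not.2 s2)
  have d1 := ne n o ni s.i1 hn s.h1 fun e => op (e ▸ G.sa c.has)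
  have d2 := ne n2 o sd.wk.i2 s.i1 sd.wk.h2 s.h1 fun e => op (e ▸ s2)
  have d3 := ne n n2 ni sd.wk.i2 hn sd.wk.h2 sd.wk.ne
  have x1 : ¬ Bt ps t n o n2 := fun q => op (sd.wk.sol o s.i1 s.h1 q)
  have x2 : ¬ Bt ps t o e n2 := fun q => h.stem_ne e s.i2
    (se.trans (r.bar_of_bt s.i1 s.i2 sd.wk.i2 s.h1 s.h2 sd.wk.h2 q).symm)
  by_cases q : Bt ps t o n n2
  · exact key n n2 sd c c2 q (by unfold Bt Bw at *; omega)
  · exact key n2 n (st.sid_rev h r sd) c2 c (by unfold Bt Bw at *; omega) bw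

end G3

end Map

end Pool.Agent.P.MP_5f84aa_co.G
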