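import Pool.Agent.P.MP_5f84aa_co.G.LG3c

/-! Type GG, interior centre, part d: entries into `b`. -/

namespace Pool.Agent.P.MP_5f84aa_co.G

namespace Map

variable {V J Sg : Type}

/-- a run comes along the ring cell `v` from the open face `o` and enters `b` at `k` -/
structure Ent (m : Map V J Sg) (ps : J → Sg → ℤ) (W : V → V → Prop) (P : V → Prop) (b v : V)
    (o k : J) : Prop where
  g : m.GE k b v
  so : m.Sol W k
  sf : m.Sfe W k
  op : ¬ m.Sol W o
  sid : m.Sid ps W v (m.bar k) o k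
  np : ¬ P v

variable {m : Map V J Sg} {ps : J → Sg → ℤ} {t : Sg} {T : Set Sg} {N P : V → Prop}
  {U D : Finset V} {W : V → V → Prop} {μ : V → ℕ} {M : Finset J}
  {a b b' c p q r u v w x y z X X' : V} {e i j j' k k' n o : J}

theorem Sid.bdy (s : m.Sid ps W v t o k) (op : ¬ m.Sol W o) : m.Bdy W v :=
  let ⟨_, _, q, _⟩ := s.tc; ⟨o, q.1, op⟩

/-- a side of a cell from a corner does not contain an open face and a corner -/
theorem Ok.sid_opc (h : m.Ok) (r : m.Ord ps) (s : m.Sid ps W v t k o)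
    (s' : m.Sid ps W v t k j) (c : m.cor k v) (op : ¬ m.Sol W o) (so : m.Sol W j) (c' : m.cor j v) :
    False := by
  obtain ⟨u, q, b⟩ := s.fst
  rcases HSt.bw_or h r (HSt.sid_cor h s' c q b.1.1 b.2.1) b with e | e
  · exact op (s'.wk.sol o s.wk.i2 s.wk.h2 (r.bt_of s.wk.i1 s.wk.i2 s'.wk.i2 s.wk.h1 s.wk.h2 s'.wk.h2 e
      s.wk.ne.symm fun e => op (e ▸ so)))
  · obtain ⟨y, g⟩ := c'.ge
    exact (h.fc_ne g).2.1 (HSt.sid_flat r s s'.wk.i2 s'.wk.h2 e).1.symm

namespace G3

variable [DecidableEq V] [Finite V] [Finite J] (G : m.G3 ps T N U W μ a P)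
include G

omit [Finite J] in
/-- a ring cell off the star has no extra corner at a door whose first flat is `b` -/
theorem no_extra (S : m.Str W a P b) (bv : m.Bdy W v) (nv : ¬ P v) (fr : m.far j j')
    (f : m.Fc j v p X) (f' : m.Fc j' v p X') (so : m.Sol W j) (nb : X' ≠ b) (g : m.GE k v X') :
    ¬ m.Sol W k := fun sk => by
  refine nb (S.uniq (G.cov1 bv nv g sk fun k' r _ => ?_))
  rcases G.one_rung fr f so (G.ring0 bv (G.st.sol_w G.ok so f).1) (by omega) g sk r with rfl | rfl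
  exacts [(G.ok.fc_ne f').2.2 (f.unique g (G.ok.fc_ne f).1).1, (G.ok.fc_ne g).2.2 f'.2.symm]

/-- the run ends at the corner of `a` and `b` -/
theorem winA (S : m.Str W a P b) (E : m.Ent ps W P b v o k) (s : m.Wk ps W (m.bar k) o e)
    (se : m.stem e = m.bar k) (ge : m.GE e a b) (g : m.GE i a u) (ub : u ≠ b)
    (bi : m.bar i = m.bar k) (bt : Bt ps (m.bar k) o i e) : False := by
  classical
  have h := G.ok
  have st := G.st
  have r := G.ord
  have pu := G.pa g
  have gd := S.gd u pu ub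
  have L := G.loc gd
  have bv := E.sid.bdy E.op
  have ki := E.sid.wk.i2
  have ii := G.ba.ne_inf g.fc.has1
  obtain ⟨k1, k2, k3, k4⟩ := h.lines E.g ki
  obtain ⟨wb, -, -⟩ := st.sol_w h E.so E.g
  have wv := st.sym _ _ wb
  have lv : m.ln v b = m.stem k := (h.ln_symm _ _).trans k1
  have va := G.ring_ne bv
  have vb := st.ne wv
  have vu : v ≠ u := fun e => E.np (e ▸ pu)
  have nv := G.ring0 bv wv
  have fin : ∀ k' w Z, m.Fc k' b w Z → m.Sol W k' → w ≠ a → w ≠ u → w ≠ v →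
      (∀ j, m.far k' j → m.X j = a) → (∀ x, W v x → m.Sgm ps (m.bar k) o k v x ∨ x = b ∨ x = w ∨
        ∃ t o' j', m.Wk ps W t o' j' ∧ ¬ m.Sol W o' ∧ m.hug k' t ∧ m.Sgm ps t o' j' v x) → False := by
    intro k' w Z f so wa wu wv' sh al
    have hi : m.hug i (m.bar k) := .inr bi
    refine (L.neu2 h g f (G.ne_a S.pb).symm wa.symm ub wu.symm L.na (L.n1 gd.wy) (L.n1 gd.wx)
      (L.n2 gd.wx (st.sol_w h so f).1) (fun j q => (G.norung g.fc.cor1 q).elim)
      (fun j q _ => .inr (.inl (sh j q)))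
      (st.seg_rc h r (st.wk_sub h r s ii hi bt) E.op (k := i) (by simp) hi)
      ((st.seg_rc h r E.sid.wk E.op (k := i) (by simp) hi).cell (d := b) (by simp) E.g.fc.has1
        f.has1)).frees (st.mem _ _ wv) (by simp [va, vu, vb, wv'.symm]) (L.one v (nv.mono (by omega)))
      fun x wx => ?_
    have vD : v ∉ ({a, u, b, w} : Finset V) := by simp [va, vu, vb, wv'.symm]
    rcases al x wx with q | rfl | rfl | ⟨t, o', j', q1, q2, q3, q4⟩
    · exact (st.seg_gone h r E.sid.wk E.op (k := i) (by simp) hi q).resolve_left vD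
    · simp
    · simp
    · exact (st.seg_gone h r q1 q2 (k := k') (by simp) q3 q4).resolve_left vD
  have shd : ∀ k' w Z j, m.Fc k' b w Z → m.Sol W k' → w ≠ a → Z ≠ a → m.far k' j → m.X j = a :=
    fun k' w Z j f so wa za q => by
      rcases G.half q f (h.far_ge q f.ge) so (G.fa.wall gd.wx) (by omega) ge.symm (G.sa ge.fc.has1)
        with e | e | e
      exacts [absurd e.symm wa, absurd e.symm za, e.symm]
  have lab := (h.lines ge s.i2).1.trans se
  have lub : m.Adj b u → m.ln b u = m.bar k := fun ad => by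
    obtain ⟨sd, s1, s2, s3⟩ := G.ext.sides
    have l := (h.lines g ii).2.2.1.trans bi
    have e1 := s1 a b (h.adj12 ge)
    have e2 := s2 i ii
    have e3 : sd a (m.bar k) = sd u (m.bar k) := by
      rw [bi] at e2
      rcases g.1 with ⟨rfl, rfl⟩ | ⟨rfl, rfl⟩
      exacts [e2, e2.symm]
    rw [lab] at e1
    exact (h.ln_symm _ _).trans ((s3 u _ b a (h.adj23 g) (h.adj12 ge).symm
      (((h.ln_symm _ _).trans lab).trans l.symm) (by rw [l, ← e3]; exact e1) ad.symm).trans l)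
  obtain ⟨k2, sd, b1, c2⟩ := st.nxt h r wv E.g.fc.on.symm
  rw [lv] at sd b1
  by_cases s2 : m.Sol W k2
  · obtain ⟨p, f⟩ := (c2.resolve_left (not_not.2 s2)).ge
    have pb : p ≠ b := fun e => E.sf k2 (h.far_of_fc (st.bd1 wv) sd.wk.ne E.g.symm (e ▸ f)) s2
    obtain ⟨j, fr, sj⟩ : ∃ j, m.far k2 j ∧ m.Sol W j := by
      by_contra q
      exact pb (S.uniq (G.cov1 bv E.np f s2 fun j a b => q ⟨j, a, b⟩))
    have f' := h.far_ge fr f
    obtain ⟨-, a1, -, -⟩ := h.lines f' fr.2.2.1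
    have xb : m.X k2 = b := by
      rcases G.half fr f f' s2 nv (by omega) E.g.symm E.so with e | e | e
      · exact absurd e.symm pb
      · exact e.symm
      rcases h.side2 (st.bd1 wv) E.g.fc.cor2 f.fc.cor1 f'.fc.cor1 (.inl rfl) sd.wk.h2
        (.inr (a1.symm.trans (e ▸ lv))) sd.wk.ne with rfl | rfl
      exacts [absurd e (h.fc_ne E.g).2.1, absurd rfl fr.1]
    have ne := fun c => G.no_extra (k := c) S bv E.np fr f f' s2 (xb ▸ (h.far_X fr).symm)
    obtain ⟨n, fn, bn, sn⟩ := G.d1 b u v p b _ k2 j k gd va vb vu bv fr (xb ▸ f.fc) f' s2 sj E.g.symm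
      E.so ne
    have o2 : m.On k2 v b := ⟨f.fc.has1, xb ▸ f.fc.has3⟩
    obtain ⟨-, a2, a3, a4⟩ := h.lines f fr.2.1
    rw [xb] at a2 a3
    obtain ⟨w1, -, -⟩ := st.sol_w h s2 f
    obtain ⟨o', sd', -, c3⟩ := st.nxt h r (st.sol_w h sj f').2.1 ⟨f'.fc.has1, f'.fc.has3⟩
    rw [a1] at sd'
    have op' : ¬ m.Sol W o' := fun so => by
      obtain ⟨w, g'⟩ := (c3.resolve_left (not_not.2 so)).ge
      have nk : o' ≠ k2 := by
        rintro rfl
        exact sd'.wk.h2.elim (h.far_not_bar fr fr.2.2.1) (h.far_bar fr)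
      rcases G.half fr f f' s2 nv (by omega) g' so with rfl | rfl | rfl
      · exact (h.two_faces (st.ne w1) f.fc.on f'.fc.on g'.fc.on fr.1).elim nk sd'.wk.ne.symm
      · obtain rfl := (h.two_faces vb E.g.fc.on.symm o2 (xb ▸ g'.fc.on) sd.wk.ne).resolve_right nk
        have e := sd'.wk.h2.resolve_left fun e => h.far_bar fr (a2.symm.trans (lv.trans e))
        exact h.sid_opc r (st.sid_rev h r E.sid) (e ▸ st.sid_rev h r sd') E.g.fc.cor2 E.op sj
          f'.fc.cor1
      · exact ne _ g' so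
    have ni := st.sol_inf h sn
    refine fin n p _ fn.symm sn (fun e => G.norung (e ▸ f.fc.cor2) fr) ?_ (st.ne w1).symm
      (fun j q => absurd ((h.lines fn ni).1.symm.trans a3) (h.far_not_bar q fr.2.1)) fun x wx => ?_
    · rintro rfl
      have xa : m.X j = a := by
        rcases G.half fr f.symm f'.symm s2 (nv.wall w1) (by omega) g.symm (G.sa g.fc.has1)
          with e | e | e
        exacts [absurd e.symm va, absurd (xb.symm.trans e.symm) (G.ne_a S.pb), e.symm]
      rcases h.side2 (st.bd2 w1) f'.fc.cor2 fn.fc.cor1 g.fc.cor2 (.inr rfl) (.inr bn)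
        (.inl ((h.lines g.symm ii).1.symm.trans (xa ▸ (h.lines f' fr.2.2.1).2.2.1)))
        (fun e => vb (f'.symm.fc.unique (e ▸ fn) (st.ne w1).symm).1) with rfl | rfl
      exacts [(h.fc_ne g).2.1 xa.symm, G.ne_a S.pb (fn.fc.unique g.symm (h.fc_ne fn).1).1]
    · have l0 := (h.lines f fr.2.1).1
      rcases st.cov4 h r (G.cv v) E.sid sd (st.sid_uni h r w1 f.fc.on f'.fc.on fr.1) sd' E.op op'
        E.g.fc.cor2 f.fc.cor1 f'.fc.cor1 k4.symm (fun e => a4 (l0.symm.trans (e.symm.trans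
          (lv.symm.trans a2)))) (l0 ▸ h.far_not_bar fr fr.2.2.1) wx with q | q | q | q
      · exact .inl q
      · exact .inr (.inl (st.sgm_uni h r wv E.g.fc.on.symm o2 sd.wk.ne (lv ▸ q)))
      · exact .inr (.inr (.inl (st.sgm_uni h r w1 f.fc.on f'.fc.on fr.1 q)))
      · exact .inr (.inr (.inr ⟨_, o', j, sd'.wk.rev, op', .inr bn, q.rev⟩))
  have cov := fun x => st.cover1 h r (G.cv v) E.sid sd E.op s2 E.g.fc.cor2 k4.symm (u := x)
  obtain ⟨n, sb, b2, c3⟩ := st.nxt h r wb E.g.fc.on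
  rw [k1] at sb b2
  have bw := (HSt.bw_or h r b1 (b2.symm h)).resolve_right fun q => s2 (sb.wk.sol k2 sd.wk.i2 sd.wk.h2 q)
  have n2 := G.ext.no2 k
  by_cases e' : n = k2
  · subst e'
    obtain ⟨-, -, e3, e4⟩ := h.lines ge s.i2
    obtain ⟨n', sb', b3, c4⟩ := st.nxt h r (st.sol_w h (G.sa ge.fc.has1) ge).2.2
      ⟨ge.fc.has2, ge.fc.has3⟩
    rw [e3] at sb' b3
    have so : m.Sol W n' := by_contra fun q => G.noT S sb'.wk.rev q ge.symm b3.rev
    obtain ⟨w, g'⟩ := (c4.resolve_left (not_not.2 so)).ge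
    have ni := sb'.wk.i2
    have wa : w ≠ a := fun e => sb'.wk.ne (G.kap ge (e ▸ g').symm)
    have nk : n' ≠ k := by
      rintro rfl
      exact sb'.wk.h2.elim (fun q => n2 e ki s.i2 q se.symm) fun q => e4 (se.trans q)
    refine fin n' w _ g' so wa ?_ ?_ (fun j q => shd n' w _ j g' so wa (fun xa => ?_) q) fun x wx => ?_
    · rintro rfl
      rcases h.side2 (st.bd1 wb) E.g.fc.cor1 ge.fc.cor2 g'.fc.cor1 (.inr rfl) (.inl se)
        (.inl ((h.lines g' ni).1.symm.trans (lub (h.adj12 g'))))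
        (fun q => k4 (q ▸ se)) with e | e
      exacts [nk e, sb'.wk.ne e.symm]
    · rintro rfl
      obtain ⟨x, y, -, on, q⟩ := sb.wk.p2
      have := st.sid_row h r sb q
      have := st.sid_row h r sd q
      have o2 : m.On n b w := by
        have := on.symm
        grind
      rcases h.two_faces (st.ne wb) E.g.fc.on o2 g'.fc.on sb.wk.ne with e | rfl
      exacts [nk e, s2 so]
    · have l : m.bar n' = m.bar k := (h.lines g' ni).2.1.symm.trans (xa ▸ (h.ln_symm _ _).trans lab)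
      exact h.far_not_bar q s.i2 (sb'.wk.h2.resolve_right fun q => e4 (se.trans (l.symm.trans q)))
    · exact (cov x wx).imp_right fun q => .inl ((st.sid_row h r sb q).resolve_left vb)
  · have ni := sb.wk.i2
    have bt' := r.bt_of ki ni sd.wk.i2 sd.wk.h1 sb.wk.h2 sd.wk.h2 bw sb.wk.ne.symm e'
    have so := sd.wk.sol n ni sb.wk.h2 bt'
    obtain ⟨w, g'⟩ := (c3.resolve_left (not_not.2 so)).ge
    obtain ⟨xv, bn⟩ := HSt.sid_flat r sd ni sb.wk.h2 bt'
    have ns : m.stem n ≠ m.bar k := fun q => n2 n ki ni bn.symm q.symm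
    have wa : w ≠ a := fun e => ns ((h.lines g' ni).1.symm.trans (e ▸ (h.ln_symm _ _).trans lab))
    exact fin n w _ g' so wa (fun e => ns ((h.lines g' ni).1.symm.trans (e ▸ lub (e ▸ h.adj12 g'))))
      (xv ▸ (h.fc_ne g').2.2) (fun j q => shd n w _ j g' so wa (xv ▸ va) q) fun x wx =>
        (cov x wx).imp_right fun q => .inr (.inr ⟨_, k2, k, sd.wk.rev, s2, .inr bn, q.rev⟩)

end G3

end Map

end Pool.Agent.P.MP_5f84aa_co.G
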