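import Pool.Agent.P.MP_5f84aa_co.G.LG3
import Pool.Agent.P.MP_5f84aa_co.G.LG1
import Pool.Agent.P.MP_5f84aa_co.G.LC

/-! Type GG: the centre is a ring cell. -/

namespace Pool.Agent.P.MP_5f84aa_co.G

namespace Map

variable {V J Sg : Type} {m : Map V J Sg} {ps : J → Sg → ℤ} {T : Set Sg} {N P : V → Prop}
  {U : Finset V} {W : V → V → Prop} {μ : V → ℕ} {a : V}

theorem GG.bdy [DecidableEq V] [Finite V] [Finite J] (G : m.GG ps T N U W μ a P) : m.Bdy W a := by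
  by_contra n
  have dr : ∀ {x y v d X X' j j'}, m.Gd W a P x y → v ≠ a → v ≠ x → v ≠ y → m.Bdy W v → m.far j j' →
      m.Fc j v d X → m.Fc j' v d X' → m.Sol W j → m.Sol W j' →
      m.Dr ps T N U W μ a x y j j' v d X X' := fun g a1 a2 a3 bv fr f f' s s' =>
    ⟨G.ok, G.loc g, G.ord, fun _ _ _ => G.nocut, G.sect _, G.ss, G.s0, a1, a2, a3, bv, fr, f, f', s, s'⟩
  exact G3.lg3 ⟨G, fun _ _ _ => G.nocut, G.sect, n,
    fun _ _ _ _ _ _ _ _ g a1 a2 a3 bv fr f f' s s' => (dr g a1 a2 a3 bv fr f f' s s').door0,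
    fun _ _ _ _ _ _ _ _ _ g a1 a2 a3 bv fr f f' s s' gc sc n' =>
      let ⟨f, _, _, d⟩ := (dr g a1 a2 a3 bv fr f f' s s').door1 gc sc n'; ⟨f, d.gf, d.bf, d.sf⟩⟩

end Map

end Pool.Agent.P.MP_5f84aa_co.G
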