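import Pool.Agent.P.MP_5f84aa_co.G.PG2
import Pool.Agent.P.MP_5f84aa_co.G.PH

/-! The global layer, part 3: three types of zones with a static priority. -/

namespace Pool.Agent.P.MP_5f84aa_co.G

open Finset

namespace Map

variable {V J Sg : Type}

/-- `p` is a partner of `a` -/
def GP (m : Map V J Sg) (a p : V) : Prop := ∃ j, m.GE j a p

/-- the pieces between `a` and the cells of `P` -/
def Star (a : V) (P : V → Prop) (u v : V) : Prop := (u = a ∧ P v) ∨ (v = a ∧ P u)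

/-- a pinwheel round the triangle `c` -/
def K4 (m : Map V J Sg) (c u v w : V) : Prop :=
  (∃ j, m.Fc j c u v) ∧ (∃ j, m.Fc j c v w) ∧ ∃ j, m.Fc j c w u

/-- one of four cells -/
def In4 (c u v w x : V) : Prop := x = c ∨ x = u ∨ x = v ∨ x = w

/-- a bad pair of partners of `a` -/
def Bad (m : Map V J Sg) (a p q : V) : Prop := (∃ j j', m.far j j' ∧ m.Fc j p q a) ∨
  ∃ c u v w, m.K4 c u v w ∧ In4 c u v w a ∧ In4 c u v w p ∧ In4 c u v w q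

/-- the centre `a` has walls to a good pair of partners -/
def Alv (m : Map V J Sg) (a : V) (P : V → Prop) (W : V → V → Prop) : Prop :=
  ∃ p q, p ≠ q ∧ ¬ m.Bad a p q ∧ P p ∧ P q ∧ W a p ∧ W a q

variable {m : Map V J Sg} {S : Finset V} {L : ℕ} {p : ℕ → V} {x y a c u v w : V}

theorem Cn.anti [DecidableEq V] {d e : ℕ} {T : Set Sg} {N : V → Prop} {U : Finset V}
    {W Q : V → V → Prop} {al : (V → V → Prop) → Prop} {μ : V → ℕ} (n : m.Cn d T N U W Q al c μ)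
    (l : e ≤ d) : m.Cn e T N U W Q al c μ := by
  have f : ∀ u, m.Fp e T W Q u → m.Fp d T W Q u := fun u => Or.imp_left (·.mono l)
  have g : ∀ D ρ r, m.Mc (m.Fp e T W Q) T U W D ρ r → m.Mc (m.Fp d T W Q) T U W D ρ r :=
    fun D ρ r M => ⟨fun x a => f x (M.ft x a), fun p q a b => (M.ln p q a b).imp_right
      fun ⟨u, a, b⟩ => ⟨u, f u a, b⟩, M.st, M.cs⟩
  exact ⟨n.st, n.alive, n.conn, n.touch, n.nf, n.nq, n.rg, fun u a => n.near u (f u a),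
    fun u a => n.one u (f u a), n.even, fun D ρ r K M => n.dead D ρ r K (g D ρ r M),
    fun D ρ r K M => n.live D ρ r K (g D ρ r M)⟩

theorem Rn.symm (r : m.Rn u v) : m.Rn v u := let ⟨j, j', a, b⟩ := r; ⟨j, j', a, b.symm⟩

theorem K4.rot (k : m.K4 c u v w) : m.K4 c v w u := ⟨k.2.1, k.2.2, k.1⟩

/-- a cherry with two rungs, or with a flat centre and not in a pinwheel -/
structure Chy (m : Map V J Sg) (S : Finset V) (x a y : V) : Prop where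
  ne : x ≠ y
  xa : m.GS S x a
  ay : m.GS S a y
  xy : ¬ m.GS S x y
  ty : (m.Rn x a ∧ m.Rn a y) ∨ ∃ k c, m.Fc k x c a ∧ ¬ ((∃ k, m.Fc k a c y) ∧ ∃ k, m.Fc k y c x)

theorem Geo.fw2 (h : m.Ok) (a : m.Geo S L p) {i : ℕ} (l : i + 3 ≤ L)
    (f : ∃ k c, m.Fc k (p i) c (p (i + 1))) :
    ∃ n, n + 2 ≤ L ∧ m.Chy S (p n) (p (n + 1)) (p (n + 2)) := by
  by_contra q
  obtain ⟨k, c, f⟩ := f
  have key : ∀ n k, n + 2 ≤ L → m.Fc k (p n) c (p (n + 1)) →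
      (∃ k, m.Fc k (p (n + 1)) c (p (n + 2))) ∧ ∃ k, m.Fc k (p (n + 2)) c (p n) := fun n k l f => by
    by_contra r
    exact q ⟨n, l, (a.s2 n l).1, a.gs n (by omega), a.gs (n + 1) (by omega), (a.s2 n l).2,
      .inr ⟨k, c, f, r⟩⟩
  obtain ⟨⟨k1, f1⟩, k2, f2⟩ := key i k (by omega) f
  obtain ⟨⟨k3, f3⟩, -⟩ := key (i + 1) k1 (by omega) f1
  have ne : k1 ≠ k2 := fun e => (h.fc_ne f2).1.elim <| by
    have := f1.X_eq
    have := (e ▸ f2 : m.Fc k1 _ _ _).X_eq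
    exact absurd (by simp_all) (a.s2 i (by omega)).1
  rcases h.two_faces (h.fc_ne f2).1 ⟨f1.has3, f1.has2⟩ f2.on f3.on ne with rfl | rfl
  · exact (h.fc_ne f3).2.1 (f1.X_eq.symm.trans f3.X_eq)
  · exact a.s3 i _ l (a.gs i (by omega))
      ((f2.X_eq.symm.trans f3.X_eq : p i = p (i + 3)) ▸ (a.gs i (by omega)).symm)

theorem Geo.chy (h : m.Ok) (bd : ∀ v, ¬ m.Bd v → v ∈ S) (a : m.Geo S 8 p) :
    ∃ k ≤ 8, ∃ x y, m.Chy S x (p k) y := by
  have e : ∀ i, i = 3 ∨ i = 4 → (∃ k ≤ 8, ∃ x y, m.Chy S x (p k) y) ∨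
      m.Rn (p i) (p (i + 1)) := fun i hi => by
    obtain ⟨n, -, j, g⟩ := a.gs i (by omega)
    rcases h.second (not_not.1 (mt (bd _) n)) g with r | f | f
    · exact .inr r
    · obtain ⟨n, l, v⟩ := a.fw2 h (by omega) f
      exact .inl ⟨_, by omega, _, _, v⟩
    · obtain ⟨n, l, v⟩ := a.rev.fw2 h (i := 7 - i) (by omega) (by
        simpa [show 8 - (7 - i) = i + 1 by omega, show 8 - (7 - i + 1) = i by omega] using f)
      exact .inl ⟨_, by omega, _, _, v⟩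
  rcases e 3 (.inl rfl) with q | r
  · exact q
  rcases e 4 (.inr rfl) with q | r'
  · exact q
  exact ⟨4, by omega, _, _, (a.s2 3 (by omega)).1, a.gs 3 (by omega), a.gs 4 (by omega),
    (a.s2 3 (by omega)).2, .inl ⟨r, r'⟩⟩

/-- the two faces of a corner pair with a flat -/
theorem Ok.flat (h : m.Ok) {j k i : J} (g : m.GE j x a) (f : m.Fc k x c a) (o : m.On i x a) :
    i = j ∨ i = k :=
  h.two_faces (h.fc_ne g).1 g.fc.on ⟨f.has1, f.has3⟩ o fun e =>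
    (h.fc_ne g).2.2 (e ▸ f.X_eq).symm

theorem Chy.good (h : m.Ok) (q : m.Chy S x a y) {k : J} (f : m.Fc k x c a)
    (n : ¬ ((∃ k, m.Fc k a c y) ∧ ∃ k, m.Fc k y c x)) : ¬ m.Bad a x y := by
  have xy : ∀ j, ¬ m.GE j x y := fun j g => q.xy ⟨q.xa.1, q.ay.2.1, j, g⟩
  obtain ⟨j, g⟩ := q.xa.2.2
  obtain ⟨j₂, g₂⟩ := q.ay.2.2
  have k1 : ∀ c' v w, m.K4 c' x v w → v ≠ y → v = a → w = y → False := by
    rintro c' v w ⟨⟨i, f1⟩, ⟨i2, f2⟩, i3, f3⟩ - rfl rfl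
    rcases h.flat g f ⟨f1.has2, f1.has3⟩ with rfl | rfl
    · exact (h.fc_ne g).2.2 f1.X_eq.symm
    · obtain rfl := (f.unique f1.symm (h.fc_ne f).1).1
      exact n ⟨⟨_, f2.symm⟩, _, f3.symm⟩
  have k2 : ∀ c' w, ¬ m.K4 c' a x w := by
    rintro c' w ⟨⟨i, f1⟩, -⟩
    rcases h.flat g f ⟨f1.has3, f1.has2⟩ with rfl | rfl
    · exact (h.fc_ne g).2.1 f1.X_eq.symm
    · exact (h.fc_ne g).1 (f1.X_eq.symm.trans f.X_eq)
  have k3 : ∀ v w, ¬ m.K4 x y v w := fun v w ⟨⟨i, f1⟩, _⟩ => xy i f1.ge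
  have k4 : ∀ v w, ¬ m.K4 y x v w := fun v w ⟨⟨i, f1⟩, _⟩ => xy i f1.ge.symm
  have k5 : ∀ u v w, ¬ m.K4 a u v w := fun u v w ⟨⟨i1, f1⟩, ⟨i2, f2⟩, i3, f3⟩ => by
    have n1 := h.fc_ne f1
    have n2 := h.fc_ne f2
    have n3 := h.fc_ne f3
    rcases (h.deg3 n1.1 n2.1 n3.1 n1.2.2 n2.2.2 n3.2.2.symm f1.tri f2.tri f3.tri).1 k f.has3 with
      rfl | rfl | rfl
    exacts [n1.2.1 (f.X_eq.symm.trans f1.X_eq), n2.2.1 (f.X_eq.symm.trans f2.X_eq),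
      n3.2.1 (f.X_eq.symm.trans f3.X_eq)]
  have n1 := (h.fc_ne g).1
  have n2 := (h.fc_ne g₂).1
  have n3 := q.ne
  rintro (⟨i, -, -, f1⟩ | ⟨c', u, v, w, K, ha, hx, hy⟩)
  · exact xy i f1.ge
  rcases ha with rfl | rfl | rfl | rfl <;> rcases hx with rfl | rfl | rfl | rfl <;>
    rcases hy with rfl | rfl | rfl | rfl <;>
    first
    | contradiction
    | exact k5 _ _ _ K
    | exact k3 _ _ K | exact k3 _ _ K.rot | exact k3 _ _ K.rot.rot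
    | exact k4 _ _ K | exact k4 _ _ K.rot | exact k4 _ _ K.rot.rot
    | exact k2 _ _ K | exact k2 _ _ K.rot | exact k2 _ _ K.rot.rot
    | exact k1 _ _ _ K n2 rfl rfl | exact k1 _ _ _ K.rot n2 rfl rfl
    | exact k1 _ _ _ K.rot.rot n2 rfl rfl

end Map

open Map

/-- a class of maps -/
abbrev Cls : Type 1 := ∀ V J Sg : Type, Map V J Sg → Prop

/-- The local lemma at a cell with two rungs. -/
def S_RR (G : Cls) : Prop := ∃ d : ℕ, ∀ (V J Sg : Type) [Fintype V] [Fintype J] [DecidableEq V]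
  (m : Map V J Sg), m.Ok3 → m.Ends → G V J Sg m → ∀ T N U W μ a x y, x ≠ y → m.Rn a x → m.Rn a y →
    ¬ m.Cn d T N U W (Ch x a y) (fun W => W a x ∧ W a y) a μ

/-- The local lemma at a rung with a further partner. -/
def S_GR (G : Cls) : Prop := ∃ d : ℕ, ∀ (V J Sg : Type) [Fintype V] [Fintype J] [DecidableEq V]
  (m : Map V J Sg), m.Ok3 → m.Ends → G V J Sg m → ∀ T (N : V → Prop) U W μ a,
    (∀ b u v, N b → N u → N v → m.Rn b u → m.Rn b v → u = v) →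
    ∀ x y j j', m.far j j' → m.GE j a y → m.GP a x → x ≠ y → x ≠ m.X j → x ≠ m.X j' →
    ¬ m.Cn d T N U W (Ch x a y) (fun W => W a x ∧ W a y) a μ

/-- The local lemma at a centre without rungs. -/
def S_GG (G : Cls) : Prop := ∃ d : ℕ, ∀ (V J Sg : Type) [Fintype V] [Fintype J] [DecidableEq V]
  (m : Map V J Sg), m.Ok3 → m.Ends → G V J Sg m → ∀ T (N : V → Prop) U W μ a,
    (∀ u u' w j j', N u → N u' → N w → m.far j j' → m.GE j u u' → m.GP u w →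
      w = u' ∨ w = m.X j ∨ w = m.X j') → (∀ u, N u → ¬ m.Rn a u) → (∃ k, m.X k = a) →
    ∀ P : V → Prop, (∀ v, P v → m.GP a v) → (∀ v, N v → m.GP a v → P v) →
    ¬ m.Cn d T N U W (Star a P) (m.Alv a P) a μ

/-- The combinatorial layer for a class of maps. -/
def S_COMB5 (G : Cls) : Prop := ∃ δ : ℝ, 0 < δ ∧ ∃ C : ℝ,
  ∀ (V J Sg : Type) [Fintype V] [Fintype J] (m : Map V J Sg), m.Ok3 → m.Ends → G V J Sg m →
    ∃ M F sh, m.Cover M F sh ∧ ((M.card : ℝ) + F.card) ≤ (1 / 2 - δ) * Fintype.card V + C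

/-- a zone near the cell `o` at which no state is confined -/
structure Map.Zn {V J Sg : Type} [DecidableEq V] (m : Map V J Sg) (d e : ℕ) (S : Finset V)
    (T : Finset Sg) (o a : V) (P : V → Prop) (Gd : V → V → Prop) : Prop where
  gs : ∀ v, P v → m.GS S a v
  nr : a ∈ Bal (m.NS S T) o e
  al : ∃ p q, Gd p q ∧ P p ∧ P q
  loc : ∀ (N : V → Prop) U W μ, (∀ u, N u → u ∉ S ∧ u ∈ Bal (m.NS S T) a (d + 2)) →
    ¬ m.Cn d T N U W (Star a P) (fun W => ∃ p q, Gd p q ∧ P p ∧ P q ∧ W a p ∧ W a q) a μ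

theorem Bal.symm {α : Type} {E : α → α → Prop} (s : ∀ u v, E u v → E v u) {u v : α} {n : ℕ}
    (a : v ∈ Bal E u n) : u ∈ Bal E v n := by
  induction n generalizing v with
  | zero => exact Eq.symm a
  | succ n ih =>
    rcases a with a | ⟨w, a, e⟩
    exacts [.inl (ih a), add_comm 1 n ▸ Bal.trans (i := 1) (.inr ⟨_, rfl, s _ _ e⟩) (ih a)]

theorem num5 {r r' C N c y s : ℕ} (r0 : 0 < r') (r1 : r' ≤ r) (cnt : N + r' * s ≤ r' * y + C)
    (e6 : 2 * c + y ≤ N + s + 6) :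
    (c : ℝ) ≤ (1 / 2 - 1 / (2 * ((r : ℝ) + 1))) * N + (C + 3) := by
  have e7 : (r + 1) * (2 * c) + N ≤ (r + 1) * (N + 6 + 2 * C) := by
    obtain ⟨t, rfl⟩ := Nat.exists_eq_add_of_le r1
    have e8 : s ≤ y + C := by
      refine Nat.le_of_mul_le_mul_left ?_ r0
      nlinarith
    have := Nat.mul_le_mul_left r' e6
    have := Nat.mul_le_mul_left (t + 1) (show 2 * c ≤ N + 6 + C by omega)
    nlinarith
  have e9 : ((r : ℝ) + 1) * (2 * c) + N ≤ (r + 1) * (N + 6 + 2 * C) := by exact_mod_cast e7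
  have e0 : (0 : ℝ) < r + 1 := by positivity
  rw [← sub_nonneg]
  have : (1 / 2 - 1 / (2 * ((r : ℝ) + 1))) * N + (C + 3) - c =
      ((r + 1) * (N + 6 + 2 * C) - ((r + 1) * (2 * c) + N)) / (2 * (r + 1)) := by
    field_simp
    ring
  rw [this]
  exact div_nonneg (by linarith) (by positivity)

theorem comb_zn {G : Cls} (d e : ℕ) (H : ∀ (V J Sg : Type) [Fintype V] [Fintype J] [DecidableEq V]
    (m : Map V J Sg), m.Ok3 → m.Ends → G V J Sg m → ∀ S T p, (∀ v, ¬ m.Bd v → v ∈ S) →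
      m.Path S 8 p → ∃ a P Gd, m.Zn d e S T (p 0) a P Gd) : S_COMB5 G := by
  classical
  obtain ⟨r, C, hs⟩ := sel 7 (e + 1 + (d + 2) + 1 + e) (2 * d + 2)
  refine ⟨1 / (2 * (r + 1)), by positivity, C + 3, fun V J Sg _ _ m ok en hG => ?_⟩
  have h := ok.ok.toOk
  have c := ok.ok.toCnt
  obtain ⟨S, T, Y, p, r', se, r0, r1, cnt⟩ := hs V J Sg m h c en
  have ex : ∀ y, ∃ a P Gd, y ∈ Y → m.Zn d e S T (p y 0) a P Gd := fun y => by
    by_cases a : y ∈ Y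
    · obtain ⟨a, P, Gd, q⟩ := H V J Sg m ok en hG S T _ se.bd (se.pa y a)
      exact ⟨a, P, Gd, fun _ => q⟩
    · exact ⟨y, fun _ => True, fun _ _ => True, fun b => absurd b a⟩
  choose q P Gd hq using ex
  have ad : ∀ {u v}, m.GS S u v → m.Adj u v := fun ⟨_, _, _, f⟩ => h.adj12 f
  have sy : ∀ u v, m.NS S T u v → m.NS S T v u := fun u v ⟨a, b, t⟩ =>
    ⟨b, a, t.imp Adj.symm fun ⟨t, a, b, c⟩ => ⟨t, a, c, b⟩⟩
  have gs : ∀ y ∈ Y, ∀ u v, Star (q y) (P y) u v → m.GS S u v ∧ u ∈ Bal (m.NS S T) (q y) 1 := by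
    rintro y a u v (⟨rfl, t⟩ | ⟨rfl, t⟩) <;> have g := (hq y a).gs _ t
    exacts [⟨g, .inl rfl⟩, ⟨g.symm, .inr ⟨_, rfl, g.1, g.2.1, .inl (ad g)⟩⟩]
  have fq : ∀ y ∈ Y, ∀ y' ∈ Y, q y' ∈ Bal (m.NS S T) (q y) (1 + (d + 2) + 1) → y = y' :=
    fun y a y' a' b => se.fq y a y' a'
      (Bal.mono (by omega) (Bal.trans (Bal.trans (hq y a).nr b) (Bal.symm sy (hq y' a').nr)))
  have inj : ∀ y ∈ Y, ∀ y' ∈ Y, q y = q y' → y = y' := fun y a y' a' e =>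
    fq y a y' a' (Bal.mono (Nat.zero_le _) e.symm)
  let Q : V → V → V → Prop := fun c u v => ∃ y ∈ Y, q y = c ∧ Star c (P y) u v
  let al : V → (V → V → Prop) → Prop := fun c W => ∃ y ∈ Y, q y = c ∧
    ∃ u v, Gd y u v ∧ P y u ∧ P y v ∧ W c u ∧ W c v
  let z : ZS V Sg := ⟨{c | ∃ y ∈ Y, q y = c}, Q, al, T, fun v => if v ∈ S then 2 * d + 3 else 1⟩
  have w1 : ∀ v, z.ω v = 1 ↔ v ∉ S := fun v => by by_cases a : v ∈ S <;> simp [z, a]
  have o : z.Ok m := by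
    refine ⟨fun v => by by_cases a : v ∈ S <;> simp [z, a],
      fun c u v ⟨y, a, e, t⟩ => ⟨y, a, e, t.symm⟩, ?_, ?_, ?_, ?_, ?_, ?_, se.rg⟩
    · rintro _ - u v ⟨y, a, rfl, t⟩
      exact ad (gs y a u v t).1
    · rintro c W W' - g ⟨y, a, e, u, v, b, b1, b2, w, w'⟩
      exact ⟨y, a, e, u, v, b, b1, b2, g _ _ ⟨y, a, e, .inl ⟨rfl, b1⟩⟩ w,
        g _ _ ⟨y, a, e, .inl ⟨rfl, b2⟩⟩ w'⟩
    · rintro c - W ⟨y, a, e, u, v, -, b1, -, w, -⟩
      exact ⟨u, ⟨y, a, e, .inl ⟨rfl, b1⟩⟩, w⟩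
    · rintro c - W K ⟨y, a, e, u, v, b, b1, b2, w, w'⟩ cl cK
      exact ⟨y, a, e, u, v, b, b1, b2, ⟨w, cK, cl _ _ w cK⟩, w', cK, cl _ _ w' cK⟩
    · rintro _ - u ⟨v, y, a, rfl, t⟩
      exact (w1 u).2 (gs y a u v t).1.1
    · rintro _ - u v ⟨y, a, rfl, t⟩
      exact se.nf _ _ (gs y a u v t).1
  have nr : ∀ x n u, z.Nq m x n u → u ∈ Bal (m.NS S T) x n := fun x n => by
    induction n with
    | zero => exact fun u a => a.1
    | succ n ih =>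
      rintro u (a | ⟨y, a, e, b⟩)
      exacts [.inl (ih u a), .inr ⟨y, ih y a, (w1 _).1 a.light, (w1 _).1 e, b⟩]
  have fa : z.Far2 m d := by
    refine ⟨fun v => by by_cases a : v ∈ S <;> simp [z, a], ?_⟩
    rintro _ - _ - u u' ⟨v, y, a, rfl, b⟩ ⟨v', y', a', rfl, b'⟩ n
    rw [fq y a y' a' (Bal.trans (Bal.trans (gs y a _ _ b).2 (nr _ _ _ n))
      (Bal.symm sy (gs y' a' _ _ b').2))]
  let U : Finset V := univ.filter m.Bd
  have mU : ∀ v, v ∈ U ↔ m.Bd v := by simp [U]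
  have s : m.HSt U (m.Ins U) := h.hst (fun v => (mU v).1) fun A a cl v n => by
    have n' : m.has m.inf v := not_not.1 (mt (mU v).2 n)
    by_cases e : m.L m.inf = v
    exacts [e ▸ a, cl _ a v ⟨e, _, .inl rfl, n'⟩ n]
  have bU : ∀ v ∉ S, v ∈ U := fun v a => (mU v).2 (not_not.1 (mt (se.bd v) a))
  have key := ZS.claim_of_loc2 (z := z) (A := Y.image q) h c.face o fa (by
      rintro _ ⟨y, a, rfl⟩ U W μ - cf
      have e : Q (q y) = Star (q y) (P y) := by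
        ext u v
        exact ⟨fun ⟨y', a', e, t⟩ => by rwa [inj y' a' y a e] at t, fun t => ⟨y, a, rfl, t⟩⟩
      have e' : al (q y) = fun W => ∃ u v, Gd y u v ∧ P y u ∧ P y v ∧ W (q y) u ∧ W (q y) v := by
        ext W
        exact ⟨fun ⟨y', a', e, t⟩ => by rwa [inj y' a' y a e] at t, fun t => ⟨y, a, rfl, t⟩⟩
      refine (hq y a).loc (z.Nz m d (q y)) U W μ ?_ (by simpa only [z, e, e'] using cf)
      rintro u ⟨x, ⟨v, b⟩, n⟩
      exact ⟨(w1 _).1 n.light, Bal.mono (by omega)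
        (Bal.trans (gs y a x v (e ▸ b)).2 (nr _ _ _ n))⟩)
    s (fun c a => by simpa [z] using a) fun c a => by
      obtain ⟨y, b, rfl⟩ := mem_image.1 a
      obtain ⟨u, v, g, g1, g2⟩ := (hq y b).al
      have t1 := (hq y b).gs _ g1
      have t2 := (hq y b).gs _ g2
      exact ⟨y, b, rfl, u, v, g, g1, g2, ⟨ad t1, bU _ t1.1, bU _ t1.2.1⟩, ad t2, bU _ t2.1, bU _ t2.2.1⟩
  rw [card_image_of_injOn fun y a y' a' => inj y a y' a'] at key
  have e1 : z.wt U ≤ Fintype.card V + (2 * d + 2) * S.card := by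
    calc z.wt U ≤ ∑ v, z.ω v := sum_le_sum_of_subset (subset_univ _)
      _ = ∑ v, (1 + if v ∈ S then 2 * d + 2 else 0) := sum_congr rfl fun v _ => by
        by_cases a : v ∈ S <;> simp [z, a]; omega
      _ = _ := by simp [sum_add_distrib, mul_comm]
  have e2 : m.cost m.Adj ≤ m.cost (fun u v => m.Adj u v ∧ ¬ m.Ins U u v) + m.cost (m.Ins U) :=
    cost_union fun u v a => by tauto
  have e3 : m.cost (fun u v => m.Adj u v ∧ ¬ m.Ins U u v) ≤ 3 :=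
    (cost_cells {m.L m.inf, m.R m.inf, m.X m.inf} fun u v a => by
      have := a.1
      have := a.2
      simp only [Ins, mU, Bd, has, mem_insert, mem_singleton] at *
      tauto).trans card_le_three
  have e4 : m.cost (m.Ins U) ≤ m.cost (fun u v => m.Ins U u v ∧ m.ln u v ∈ T) + z.cst m (m.Ins U) :=
    cost_union fun u v a => by simp only [z, mem_coe]; tauto
  have e5 := s.cost_lines h T
  obtain ⟨M, F, sh, cv, cd⟩ := m.cover_cost
  refine ⟨M, F, sh, cv, ?_⟩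
  exact_mod_cast num5 (c := M.card + F.card) r0 r1 cnt (by nlinarith)

theorem comb5 {G : Cls} (h1 : S_RR G) (h2 : S_GR G) (h3 : S_GG G) : S_COMB5 G := by
  obtain ⟨d1, h1⟩ := h1
  obtain ⟨d2, h2⟩ := h2
  obtain ⟨d3, h3⟩ := h3
  set d := d1 + d2 + d3
  refine comb_zn d (8 + (d + 2) + (d + 2)) fun V J Sg _ _ _ m ok en hG S T p bd pa => ?_
  have h := ok.ok.toOk
  have fx : ∀ a x y : V, (fun W : V → V → Prop => ∃ p q, (p = x ∧ q = y) ∧ (p = x ∨ p = y) ∧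
      (q = x ∨ q = y) ∧ W a p ∧ W a q) = fun W => W a x ∧ W a y := fun a x y => by
    ext W
    exact ⟨by rintro ⟨_, _, ⟨rfl, rfl⟩, -, -, t⟩; exact t,
      fun t => ⟨x, y, ⟨rfl, rfl⟩, .inl rfl, .inr rfl, t⟩⟩
  by_cases c1 : ∃ a ∈ Bal (m.NS S T) (p 0) (8 + (d + 2) + (d + 2)), ∃ x y, a ∉ S ∧ x ∉ S ∧ y ∉ S ∧
      m.Rn a x ∧ m.Rn a y ∧ x ≠ y
  · obtain ⟨a, b, x, y, aS, xS, yS, r1, r2, ne⟩ := c1
    refine ⟨a, fun v => v = x ∨ v = y, fun p q => p = x ∧ q = y, ?_, b,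
      ⟨x, y, ⟨rfl, rfl⟩, .inl rfl, .inr rfl⟩, fun N U W μ _ n => ?_⟩
    · rintro v (rfl | rfl)
      exacts [let ⟨j, _, _, g⟩ := r1; ⟨aS, xS, j, g⟩, let ⟨j, _, _, g⟩ := r2; ⟨aS, yS, j, g⟩]
    · exact h1 V J Sg m ok en hG T N U W μ a x y ne r1 r2 (fx a x y ▸ n.anti (by omega))
  by_cases c2 : ∃ a ∈ Bal (m.NS S T) (p 0) (8 + (d + 2)), ∃ x y j j', a ∉ S ∧ x ∉ S ∧ y ∉ S ∧
      m.far j j' ∧ m.GE j a y ∧ m.GP a x ∧ x ≠ y ∧ x ≠ m.X j ∧ x ≠ m.X j'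
  · obtain ⟨a, b, x, y, j, j', aS, xS, yS, r, g, g', n1, n2, n3⟩ := c2
    refine ⟨a, fun v => v = x ∨ v = y, fun p q => p = x ∧ q = y, ?_, Bal.mono (by omega) b,
      ⟨x, y, ⟨rfl, rfl⟩, .inl rfl, .inr rfl⟩, fun N U W μ hN n => ?_⟩
    · rintro v (rfl | rfl)
      exacts [⟨aS, xS, g'⟩, ⟨aS, yS, j, g⟩]
    · exact h2 V J Sg m ok en hG T N U W μ a (fun b' u v a1 a2 a3 r1 r2 => by_contra fun e =>
        c1 ⟨b', Bal.trans b (hN _ a1).2, u, v, (hN _ a1).1, (hN _ a2).1, (hN _ a3).1, r1, r2, e⟩)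
        x y j j' r g g' n1 n2 n3 (fx a x y ▸ n.anti (by omega))
  obtain ⟨k, l, x, y, q⟩ := pa.geo.chy h bd
  have b : p k ∈ Bal (m.NS S T) (p 0) 8 := by
    refine Bal.mono l ?_
    clear q
    induction k with
    | zero => rfl
    | succ k ih =>
      obtain ⟨a1, a2, j, g⟩ := pa.gs k (by omega)
      exact .inr ⟨_, ih (by omega), a1, a2, .inl (h.adj12 g)⟩
  generalize p k = a at b q
  have aS := q.ay.1
  obtain ⟨k, c, f, n⟩ := q.ty.resolve_left fun r =>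
    c1 ⟨a, Bal.mono (by omega) b, x, y, aS, q.xa.1, q.ay.2.1, r.1.symm, r.2, q.ne⟩
  obtain ⟨i, g⟩ := q.xa.2.2
  refine ⟨a, fun v => v ∉ S ∧ m.GP a v, fun p q => p ≠ q ∧ ¬ m.Bad a p q,
    fun v t => ⟨aS, t.1, t.2⟩, Bal.mono (by omega) b, ⟨x, y, ⟨q.ne, q.good h f n⟩,
      ⟨q.xa.1, i, g.symm⟩, q.ay.2⟩, fun N U W μ hN cf => ?_⟩
  refine h3 V J Sg m ok en hG T N U W μ a (fun u u' w j j' a1 a2 a3 r g1 g2 => by_contra fun e => ?_)
    (fun u a1 ⟨j, j', r, g1⟩ => ?_) ⟨k, f.X_eq⟩ (fun v => v ∉ S ∧ m.GP a v) (fun v t => t.2)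
    (fun v a1 t => ⟨(hN v a1).1, t⟩) (by
      convert cf.anti (show d3 ≤ d by omega) using 1
      ext W
      simp only [Alv, and_assoc])
  · push Not at e
    exact c2 ⟨u, Bal.trans b (hN _ a1).2, w, u', j, j', (hN _ a1).1, (hN _ a3).1, (hN _ a2).1, r, g1,
      g2, e⟩
  · have g2 := h.far_ge r g1
    have key : ∀ j, m.cor j a → j ≠ k := fun j t e => by
      subst e
      rcases f.cor_iff.1 t with e | e
      exacts [(h.fc_ne f).2.1 e.symm, (h.fc_ne f).2.2 e.symm]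
    have k2 : ∀ j, m.GE j a u → x ≠ m.X j := fun j t e =>
      (h.flat g f ⟨e ▸ t.fc.has3, t.fc.has1⟩).elim (fun e' => (h.fc_ne g).2.1 (e' ▸ e))
        (key j t.fc.cor1)
    refine c2 ⟨a, Bal.mono (by omega) b, x, u, j, j', aS, q.xa.1, (hN _ a1).1, r, g1, ⟨i, g.symm⟩,
      fun e => ?_, k2 j g1, k2 j' g2⟩
    subst e
    rcases h.two_faces (h.fc_ne g1).1 g1.fc.on g2.fc.on ⟨f.has3, f.has1⟩ r.1 with e | e
    exacts [key j g1.fc.cor1 e.symm, key j' g2.fc.cor1 e.symm]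

theorem final5 {G : Cls} (hG : ∀ R E, Sys R E → G _ _ _ (mp R E)) (h1 : S_RR G) (h2 : S_GR G)
    (h3 : S_GG G) : ∃ δ : ℝ, 0 < δ ∧ ∃ C : ℝ, ∀ (n : ℕ) (a b : Fin n → Fin 2 → ℝ),
    (Pairwise fun i j => Disjoint (segment ℝ (a i) (b i)) (segment ℝ (a j) (b j))) →
    ∃ S : Finset (Fin 2 → ℝ), (S.card : ℝ) ≤ (1 / 2 - δ) * n + C ∧
      (∀ x ∈ S, ∀ i, x ∉ segment ℝ (a i) (b i)) ∧
      ∀ i, ∀ q ∈ segment ℝ (a i) (b i), ∃ x ∈ S, ∀ j,
        Disjoint (openSegment ℝ x q) (segment ℝ (a j) (b j)) := by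
  obtain ⟨δ, hδ, C, G⟩ := comb5 h1 h2 h3
  refine ⟨min δ (1 / 4), lt_min hδ (by norm_num), C + 2, fun n a b hd => ?_⟩
  obtain ⟨R, E, H, hc, γ, hγ, hw⟩ := a_SYS n a b hd
  have h2 := (a_OK R E H).2.1
  let i1 : Fintype (VV R E) := Fintype.ofFinite _
  let i2 : Fintype (JJ E) := Fintype.ofFinite _
  obtain ⟨M, F, sh, cv, cd⟩ := G _ _ _ (mp R E) (ok3 H) (ends R E) (hG R E H)
  obtain ⟨S, s1, s2, s3⟩ := a_LIGHT R E H γ hγ M F sh cv
  refine ⟨S, ?_, fun x hx i hi => ?_, fun i q hq => ?_⟩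
  · have e1 : (S.card : ℝ) ≤ M.card + F.card := by exact_mod_cast s1
    have e2 : (Fintype.card (VV R E) : ℝ) ≤ n + 4 := by
      rw [← Nat.card_eq_fintype_card]; exact_mod_cast (by omega)
    have e3 : (0 : ℝ) ≤ Fintype.card (VV R E) := Nat.cast_nonneg _
    have e4 := min_le_left δ (1 / 4)
    have e5 := min_le_right δ (1 / 4)
    have e6 := lt_min hδ (show (0 : ℝ) < 1 / 4 by norm_num)
    nlinarith [mul_le_mul_of_nonneg_right e4 e3,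
      mul_le_mul_of_nonneg_left e2 (show 0 ≤ 1 / 2 - min δ (1 / 4) by linarith)]
  · obtain ⟨w, hw1, hw2⟩ := hw i
    exact s2 x hx w hw1 ((hw2 x hi).isIn hγ).cl
  · obtain ⟨w, hw1, hw2⟩ := hw i
    obtain ⟨x, hx, hs⟩ := s3 w hw1 q (hw2 q hq)
    refine ⟨x, hx, fun j => Set.disjoint_left.2 fun z hz hz' => ?_⟩
    obtain ⟨w', hw1', hw2'⟩ := hw j
    exact hs z hz w' hw1' (hw2' z hz')

end Pool.Agent.P.MP_5f84aa_co.G
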