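import Pool.Agent.P.MP_5f84aa_co.G.LA
import Pool.Agent.P.MP_5f84aa_co.G.PG3

/-! The faces on a bar are ordered. -/

namespace Pool.Agent.P.MP_5f84aa_co.G

open Set

variable {R : ℝ} {E : Finset Bar}

namespace LO

open Classical in
/-- the rank of a face on a bar -/
noncomputable def ps (f : JJ E) (t : Bar) : ℤ := f.1.elim 0 fun k =>
  if k.1 = t then (if k.2 then {i | On E t i}.ncard + 1 else 0) else (Dle E k).ncard

variable (H : Sys R E) {k k' : En} {t : Bar} {D : Set En}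
include H

theorem card_le (hk : IsEnd E k) : (Dle E k).ncard = (Dlt E k).ncard + 1 := by
  rw [show Dle E k = insert k (Dlt E k) by ext i; rw [H.mem_Dle_iff hk]; simp [or_comm],
    ncard_insert_of_notMem (not_mem_Dlt k) ((finite_on E _).subset fun _ a => a.1)]

theorem cases (hk : IsEnd E k) (g : (mp R E).hug (fc hk) t) : t ∈ E ∧
    ((k = (t, false) ∧ ps (fc hk) t = 0) ∨ (k = (t, true) ∧ ps (fc hk) t = {i | On E t i}.ncard + 1) ∨
    (On E t k ∧ ps (fc hk) t = (Dle E k).ncard ∧ 1 ≤ (Dle E k).ncard ∧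
      (Dle E k).ncard ≤ {i | On E t i}.ncard)) := by
  rcases g with rfl | rfl
  · obtain ⟨s, _ | _⟩ := k <;> simp [ps, show s ∈ E from hk.1]
  · refine ⟨H.bar_mem hk, .inr (.inr ⟨H.on_bar hk, by simp [ps, H.stem_ne hk], ?_,
      ncard_le_ncard (fun _ a => a.1) (finite_on E _)⟩)⟩
    rw [card_le H hk]
    omega

theorem inc (hk : IsEnd E k) (a : Inc R E (some k) t D) : (mp R E).hug (fc hk) t ∧
    (ps (fc hk) t = D.ncard ∨ ps (fc hk) t = D.ncard + 1) := by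
  rcases a with ⟨rfl, rfl⟩ | ⟨rfl, rfl | rfl⟩
  · refine ⟨.inl rfl, ?_⟩
    obtain ⟨s, _ | _⟩ := k <;> simp [ps]
  · exact ⟨.inr rfl, by simp [ps, H.stem_ne hk, card_le H hk]⟩
  · exact ⟨.inr rfl, by simp [ps, H.stem_ne hk]⟩

theorem inj (hk : IsEnd E k) (hk' : IsEnd E k') (g : (mp R E).hug (fc hk) t)
    (g' : (mp R E).hug (fc hk') t) (e : ps (fc hk) t = ps (fc hk') t) : k = k' := by
  obtain ⟨ht, a⟩ := cases H hk g
  obtain ⟨-, a'⟩ := cases H hk' g'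
  rcases a with ⟨a, b⟩ | ⟨a, b⟩ | ⟨a, b, c, d⟩ <;> rcases a' with ⟨a', b'⟩ | ⟨a', b'⟩ | ⟨a', b', c', d'⟩ <;>
    try first | exact a.trans a'.symm | omega
  have p := H.bar_eq ht a ▸ H.pc_Dle hk
  have p' := H.bar_eq ht a' ▸ H.pc_Dle hk'
  refine H.Dle_inj ht a a' ?_
  rcases p.total p' with s | s
  · exact eq_of_subset_of_ncard_le s (by omega) ((finite_on E t).subset p'.2.1)
  · exact (eq_of_subset_of_ncard_le s (by omega) ((finite_on E t).subset p.2.1)).symm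

theorem piece {u v : VV R E} (hk : IsEnd E k) (d : u ≠ v) (o : (mp R E).On (fc hk) u v) :
    ∃ D, Pc E ((mp R E).ln u v) D ∧ Inc R E (some k) ((mp R E).ln u v) D ∧
      Pair E u.1 v.1 ((mp R E).ln u v) D := by
  obtain ⟨-, f2, f3, -, -, f6, -⟩ := a_FACE R E H
  obtain ⟨t, D, a, b⟩ := (f3 _ u v d).1 o
  rw [f6 u v t D (f2 _ _ _ a) b]
  exact ⟨D, f2 _ _ _ a, a, b⟩

theorem tc {z : VV R E} (hk : IsEnd E k) (c : (mp R E).Tc (fc hk) z t) : ∃ D, Pc E t D ∧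
    z.1 = Ce E t (Geo3.sd z t) D ∧ (mp R E).hug (fc hk) t ∧
      (ps (fc hk) t = D.ncard ∨ ps (fc hk) t = D.ncard + 1) := by
  obtain ⟨u, d, o, rfl⟩ := c
  obtain ⟨D, a, b, c⟩ := piece H hk d o
  obtain ⟨σ, e, -⟩ := pair_iff.1 c
  exact ⟨D, a, by rw [Geo3.sd_eq H a e]; exact e, inc H hk b⟩

theorem ord : (mp R E).Ord ps := by
  have fin : ∀ f : JJ E, f ≠ (mp R E).inf → ∃ k, ∃ h : IsEnd E k, f = fc h := fun f a =>
    (JJ.cases R f).resolve_left a
  refine ⟨fun u v j j' d o o' ne a a' => ?_, fun t j j' a a' g g' e => ?_,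
    fun j k k' a b c g g' l l' => ?_, fun z t j i k a b c c1 c2 g l l' => ?_⟩
  · obtain ⟨j, hj, rfl⟩ := fin j a
    obtain ⟨j', hj', rfl⟩ := fin j' a'
    obtain ⟨D, p1, p2, p3⟩ := piece H hj d o
    obtain ⟨D', q1, q2, q3⟩ := piece H hj' d o'
    obtain ⟨-, rfl⟩ := a_UNIQ R E H _ _ _ _ _ _ p1 q1 p3 q3
    obtain ⟨g, e⟩ := inc H hj p2
    obtain ⟨g', e'⟩ := inc H hj' q2
    have := mt (inj H hj hj' g g') (mt fc_inj.2 ne)
    omega
  · obtain ⟨j, hj, rfl⟩ := fin j a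
    obtain ⟨j', hj', rfl⟩ := fin j' a'
    exact fc_inj.2 (inj H hj hj' g g' e)
  · obtain ⟨j, hj, rfl⟩ := fin j a
    obtain ⟨k, hk, rfl⟩ := fin k b
    obtain ⟨k', hk', rfl⟩ := fin k' c
    have e1 := (cases H hk g).2
    have e2 := (cases H hk' g').2
    rcases (cases H hj (.inl rfl)).2 with e | e | e
    · omega
    · omega
    · exact H.not_in_ep hj e.1.2
  · obtain ⟨j, hj, rfl⟩ := fin j a
    obtain ⟨i, hi, rfl⟩ := fin i b
    obtain ⟨k, hk, rfl⟩ := fin k c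
    obtain ⟨D, p1, p2, p3, p4⟩ := tc H hj c1
    obtain ⟨D', q1, q2, q3, q4⟩ := tc H hk c2
    have e1 := (cases H hj p3).2
    have e2 := (cases H hk q3).2
    obtain ⟨ht, e | e | ⟨o, e, -⟩⟩ := cases H hi g
    · omega
    · omega
    have e3 := card_le H hi
    have n1 : i ∉ D := fun q => by
      have := ncard_le_ncard (s := Dle E i) (fun x a =>
        p1.2.2 i q x ((H.mem_Dle ht o).1 a).1 ((H.mem_Dle ht o).1 a).2) ((finite_on E t).subset p1.2.1)
      omega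
    have n2 : i ∈ D' := by_contra fun q => by
      have := ncard_le_ncard (s := D') (fun x a => (H.mem_Dlt ht o).2 ⟨q1.2.1 x a, q1.key_lt a o q⟩)
        ((finite_on E _).subset fun _ a => a.1)
      omega
    have sep : ∀ x, On E t x → x ∉ D → x ∈ D' → t.sd x ≠ Geo3.sd z t := fun x a b c e =>
      a_SEP R E H t D D' x p1 q1 a b c (e ▸ p2.symm.trans q2)
    refine Subtype.ext ?_
    rw [mp_X_fc, H.cX_eq_lt ht o, p2, ← Bool.eq_not_iff.2 (sep i o n1 n2).symm]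
    refine Ce_congr fun x a b => ⟨fun c => by_contra fun n => sep x a n
      (q1.2.2 i n2 x a ((H.mem_Dlt ht o).1 c).2.le) b, fun c => (H.mem_Dlt ht o).2 ⟨a, p1.key_lt c o n1⟩⟩

end LO

/-- maps with an order on the lines -/
def GO : Cls := fun _ _ _ m => ∃ ps, m.Ord ps

theorem go (R : ℝ) (E : Finset Bar) (H : Sys R E) : GO _ _ _ (mp R E) := ⟨_, LO.ord H⟩

end Pool.Agent.P.MP_5f84aa_co.G
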