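import Pool.Agent.P.MP_5f84aa_co.G.LG2
import Pool.Agent.P.MP_5f84aa_co.G.LG3z
import Pool.Agent.P.MP_5f84aa_co.G.LO

/-! The local lemma at a centre without rungs. -/

namespace Pool.Agent.P.MP_5f84aa_co.G

theorem s_gg : S_GG GO := ⟨8, fun _ _ _ _ _ _ m ok _ ⟨ps, r⟩ T N U W μ a ss s0 wf P pg gp cn =>
  have G : m.GG ps T N U W μ a P := ⟨ok.ok.toOk, ok.ok.toExt, r, cn, ss, s0, wf, pg, gp⟩
  G.lg2 G.bdy⟩

end Pool.Agent.P.MP_5f84aa_co.G
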