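import Pool.Agent.P.MP_5f84aa_co.G.LQ

/-! Tools for the local lemma, part Q2: the two ring walls of a ring cell, the basic switch. -/

namespace Pool.Agent.P.MP_5f84aa_co.G

namespace Map

variable {V J Sg : Type} {m : Map V J Sg} {ps : J → Sg → ℤ} {t t' t₀ t₁ t₂ t₃ : Sg}
  {W : V → V → Prop} {U : Finset V} {a p p' q u u' u'' v w x y z X X' X₀ : V}
  {i i' i'' j j' k k' k'' n : J}

/-- no segment joins two open faces -/
def NoCut (m : Map V J Sg) (ps : J → Sg → ℤ) (W : V → V → Prop) : Prop :=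
  ∀ t j k, m.Wk ps W t j k → m.Sol W j ∨ m.Sol W k

/-- the light at `k` with the shadow in `p` is safe -/
def Sf (m : Map V J Sg) (W : V → V → Prop) (k : J) (p : V) : Prop := ∀ j, m.far k j → ¬ W p (m.X j)

theorem Sf.of_not (a : ∀ j, ¬ m.far k j) : m.Sf W k p := fun j b => absurd b (a j)

namespace HSt

variable (h : m.Ok) (st : m.HSt U W)
include h st

/-- a rung with an open end is safe at the other end -/
theorem sf_open (f : m.Fc k p q X) (w : W p q) (o : ∀ j, m.far k j → ¬ m.Sol W j) :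
    m.Sf W k p ∨ m.Sf W k q := by
  by_contra c
  simp only [Sf, not_or, not_forall, not_not] at c
  obtain ⟨⟨j, a, b⟩, j', a', b'⟩ := c
  obtain rfl := h.far_unique a a'
  exact o _ a (st.sol_of (h.far_ge a f.ge).fc w b b')

omit st in
/-- the second ring wall -/
theorem other_out [Finite V] [Finite J] (o : m.On i z u) (o' : m.On j z u) (d : z ≠ u)
    (op : ¬ m.Sol W i) (so : m.Sol W j) :
    ∃ u' i' j', u' ≠ u ∧ W z u' ∧ m.On i' z u' ∧ ¬ m.Sol W i' ∧ m.On j' z u' ∧ m.Sol W j' := by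
  obtain ⟨u', n, d', j', i', a, b, c, e⟩ := h.lk2 (F := {j | m.Sol W j}) ⟨d, j, i, o', o, so, op⟩
  exact ⟨u', i', j', n, c _ _ d' a, b, e, a, c⟩

variable (g : m.Ord ps)
include g

/-- the second face of a ring wall is solid -/
theorem nocut_face (nc : m.NoCut ps W) (w : W u v) (o : m.On i u v) (op : ¬ m.Sol W i) :
    ∃ j, j ≠ i ∧ m.On j u v ∧ m.Sol W j ∧ ∀ k, m.On k u v → k = i ∨ k = j := by
  obtain ⟨j, d, o', q⟩ := h.other o (st.ne w)
  exact ⟨j, d, o', (nc _ _ _ (st.wk_one h g w o o' d.symm).1).resolve_left op, q⟩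

omit st in
/-- the end of a walk along a side is unique -/
theorem sid_uniq (a : m.Sid ps W z t j k) (a' : m.Sid ps W z t j k') (b : m.Sgm ps t j k z u)
    (b' : m.Sgm ps t j k' z u) (e : ¬ m.Sol W k ∨ m.cor k z) (e' : ¬ m.Sol W k' ∨ m.cor k' z) :
    k = k' := by
  have key : ∀ {k k'}, m.Sid ps W z t j k → m.Sid ps W z t j k' → (¬ m.Sol W k ∨ m.cor k z) →
      ¬ Bt ps t j k k' := fun a a' e bt => by
    have c := (sid_flat g a' a.wk.i2 a.wk.h2 bt).1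
    rcases e with e | e | e
    exacts [e (a'.wk.sol _ a.wk.i2 a.wk.h2 bt), h.neLX _ (e.symm.trans c.symm),
      h.neRX _ (e.symm.trans c.symm)]
  have e1 := key a a' e
  have e2 := key a' a e'
  obtain ⟨-, n, o⟩ := b.1
  obtain ⟨n', -, o', -, -, -, q⟩ := b.two h g o
  have := (b.2.2 n o).2; have := (b.2.2 n' o').2; have := (b'.2.2 n o).2; have := (b'.2.2 n' o').2
  exact g.inj t k k' a.wk.i2 a'.wk.i2 a.wk.h2 a'.wk.h2 (by unfold Bt Bw at *; omega)

/-- a cell with one solid arc has at most two ring walls -/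
theorem two_out [Finite J] (se : m.Sect W z) (w : W z u) (o : m.On i z u) (op : ¬ m.Sol W i)
    (w' : W z u') (o' : m.On i' z u') (op' : ¬ m.Sol W i') (w'' : W z u'') (o'' : m.On i'' z u'')
    (op'' : ¬ m.Sol W i'') (d : u' ≠ u) (d' : u'' ≠ u) : u' = u'' := by
  obtain ⟨k₀, a₀, b₀, e₀⟩ := st.nxt h g w o
  let Sc : Sg × J × J → Sg × J × J → Prop := fun s s' => s'.2.1 = s.2.2 ∧ m.Sol W s.2.2 ∧
    m.cor s.2.2 z ∧ m.hug s.2.2 s.1 ∧ s'.1 ≠ s.1 ∧ m.Sid ps W z s'.1 s'.2.1 s'.2.2 ∧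
    (¬ m.Sol W s'.2.2 ∨ m.cor s'.2.2 z)
  have ru : Relator.RightUnique Sc := by
    rintro ⟨t, j, k⟩ ⟨t1, j1, k1⟩ ⟨t2, j2, k2⟩ ⟨rfl, so, c, gt, d1, a1, e1⟩ ⟨rfl, -, -, -, d2, a2, e2⟩
    obtain rfl : t1 = t2 := by
      have := a1.wk.h1; have := a2.wk.h1
      simp only [hug] at *
      grind
    obtain ⟨v, p, b⟩ := a1.fst
    exact congrArg (fun k => (t1, j2, k)) (sid_uniq h g a1 a2 b (sid_cor h a2 c p b.1.1 b.2.1) e1 e2)
  have inv : ∀ s, Relation.ReflTransGen Sc (m.ln z u, i, k₀) s →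
      m.Sid ps W z s.1 s.2.1 s.2.2 ∧ (¬ m.Sol W s.2.2 ∨ m.cor s.2.2 z) ∧
      (s = (m.ln z u, i, k₀) ∨ ∃ s', Relation.ReflTransGen Sc (m.ln z u, i, k₀) s' ∧ Sc s' s) := by
    intro s r
    rcases r.cases_tail with rfl | ⟨s', r', c⟩
    exacts [⟨a₀, e₀, .inl rfl⟩, ⟨c.2.2.2.2.2.1, c.2.2.2.2.2.2, .inr ⟨s', r', c⟩⟩]
  have cov : ∀ v, W z v → ∃ t j k, Relation.ReflTransGen Sc (m.ln z u, i, k₀) (t, j, k) ∧
      m.Sgm ps t j k z v := fun v wv => by
    refine st.cover h g se (fun t j k => Relation.ReflTransGen Sc (m.ln z u, i, k₀) (t, j, k))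
      (fun t j k r => (inv _ r).1) ?_ .refl wv
    rintro t j k r n (rfl | rfl) so
    · rcases (inv _ r).2.2 with e | ⟨⟨t', j', k'⟩, r', e, -, c, -, d, -⟩
      · exact absurd so ((Prod.mk.inj (Prod.mk.inj e).2).1 ▸ op)
      · obtain rfl : n = k' := e
        exact ⟨c, t', j', Ne.symm d, .inr r'⟩
    · obtain ⟨a, e, -⟩ := inv _ r
      have c := e.resolve_left (not_not.2 so)
      obtain ⟨v, wv, ov, d, -⟩ := st.turn h so c a.wk.h2
      obtain ⟨k', a', -, e'⟩ := st.nxt h g wv ov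
      exact ⟨c, _, k', d, .inl (r.tail ⟨rfl, so, c, a.wk.h2, d, a', e'⟩)⟩
  have fin : ∀ v n, W z v → m.On n z v → ¬ m.Sol W n → v ≠ u → ∃ t j,
      Relation.ReflTransGen Sc (m.ln z u, i, k₀) (t, j, n) ∧ m.Sgm ps t j n z v := fun v n wv ov on d => by
    obtain ⟨t, j, k, r, b⟩ := cov v wv
    obtain ⟨a, -, e⟩ := inv _ r
    obtain ⟨ni, bw⟩ := b.2.2 n ov
    have gn : m.hug n t := b.2.1 ▸ h.hug_on ni ov b.1.1
    by_cases c : n = k
    · exact ⟨t, j, c ▸ r, c ▸ b⟩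
    by_cases c' : n = j
    swap
    · exact absurd (a.wk.sol n ni gn (g.bt_of a.wk.i1 ni a.wk.i2 a.wk.h1 gn a.wk.h2 bw c' c)) on
    subst c'
    rcases e with e | ⟨s', -, e, so, -⟩
    · simp only [Prod.mk.injEq] at e
      obtain ⟨rfl, rfl, rfl⟩ := e
      have := st.wk_first h g a.wk w o b₀ ov b
      have := st.ne w
      grind
    · exact absurd ((show n = s'.2.2 from e) ▸ so) on
  obtain ⟨t1, j1, r1, b1⟩ := fin u' i' w' o' op' d
  obtain ⟨t2, j2, r2, b2⟩ := fin u'' i'' w'' o'' op'' d'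
  have e : (t1, j1, i') = (t2, j2, i'') := by
    rcases Relation.ReflTransGen.total_of_right_unique ru r1 r2 with r | r
    · rcases r.cases_head with e | ⟨_, c, -⟩
      exacts [e, absurd c.2.1 op']
    · rcases r.cases_head with e | ⟨_, c, -⟩
      exacts [e.symm, absurd c.2.1 op'']
  simp only [Prod.mk.injEq] at e
  obtain ⟨rfl, rfl, rfl⟩ := e
  have := st.wk_first h g (inv _ r1).1.wk.rev w' o' b1.rev o'' b2.rev
  have := st.ne w'
  grind

/-- three solid corners -/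
theorem cov3 (se : m.Sect W z) (a₀ : m.Sid ps W z t₀ i k) (a₁ : m.Sid ps W z t₁ k k')
    (a₂ : m.Sid ps W z t₂ k' k'') (a₃ : m.Sid ps W z t₃ k'' i') (oi : ¬ m.Sol W i) (oi' : ¬ m.Sol W i')
    (c : m.cor k z) (c' : m.cor k' z) (c'' : m.cor k'' z) (d : t₀ ≠ t₁) (d' : t₁ ≠ t₂) (d'' : t₂ ≠ t₃)
    (w : W z u) : m.Sgm ps t₀ i k z u ∨ m.Sgm ps t₁ k k' z u ∨ m.Sgm ps t₂ k' k'' z u ∨
      m.Sgm ps t₃ k'' i' z u := by
  obtain ⟨_, _, _, ⟨rfl, rfl, rfl⟩ | ⟨rfl, rfl, rfl⟩ | ⟨rfl, rfl, rfl⟩ | ⟨rfl, rfl, rfl⟩, b⟩ :=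
    st.cover h g se (fun a b c => (a = t₀ ∧ b = i ∧ c = k) ∨ (a = t₁ ∧ b = k ∧ c = k') ∨
      (a = t₂ ∧ b = k' ∧ c = k'') ∨ (a = t₃ ∧ b = k'' ∧ c = i'))
    (by rintro _ _ _ (⟨rfl, rfl, rfl⟩ | ⟨rfl, rfl, rfl⟩ | ⟨rfl, rfl, rfl⟩ | ⟨rfl, rfl, rfl⟩) <;> assumption)
    (by
      rintro _ _ _ (⟨rfl, rfl, rfl⟩ | ⟨rfl, rfl, rfl⟩ | ⟨rfl, rfl, rfl⟩ | ⟨rfl, rfl, rfl⟩) n (rfl | rfl) so
      exacts [absurd so oi, ⟨c, _, _, d.symm, .inl (.inr (.inl ⟨rfl, rfl, rfl⟩))⟩,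
        ⟨c, _, _, d, .inr (.inl ⟨rfl, rfl, rfl⟩)⟩,
        ⟨c', _, _, d'.symm, .inl (.inr (.inr (.inl ⟨rfl, rfl, rfl⟩)))⟩,
        ⟨c', _, _, d', .inr (.inr (.inl ⟨rfl, rfl, rfl⟩))⟩,
        ⟨c'', _, _, d''.symm, .inl (.inr (.inr (.inr ⟨rfl, rfl, rfl⟩)))⟩,
        ⟨c'', _, _, d'', .inr (.inr (.inr (.inl ⟨rfl, rfl, rfl⟩)))⟩, absurd so oi'])
    (.inl ⟨rfl, rfl, rfl⟩) w
  exacts [.inl b, .inr (.inl b), .inr (.inr (.inl b)), .inr (.inr (.inr b))]

/-- the walk passes the corner `k` into the cell `z` and follows it to its next corner -/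
theorem pas1 [Finite J] (nc : m.NoCut ps W) (a : m.Wk ps W t i k) (op : ¬ m.Sol W i)
    (f : m.Fc k p z X) (b : m.Sgm ps t i k p X) : ∃ k', m.Wk ps W t i k' ∧ m.Sid ps W z t k k' ∧
      Bt ps t i k k' ∧ m.Sgm ps t k k' z X ∧ m.Sol W k' ∧ m.cor k' z := by
  have so := (nc _ _ _ a).resolve_left op
  obtain ⟨n, -, -, bt, o, c⟩ := st.wk_ext h g a so f b
  obtain ⟨k', a', b', e⟩ := st.nxt h g (st.sol_w h so f).2.2 ⟨f.has2, f.has3⟩
  rw [c.2.1] at a' b'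
  have := (b'.2.2 n o).2
  have bt' : Bt ps t i k k' := by unfold Bt Bw at *; omega
  have a'' := a.trans g a'.wk bt' so
  have so' := (nc _ _ _ a'').resolve_left op
  exact ⟨k', a'', a', bt', b', so', e.resolve_left (not_not.2 so')⟩

/-- a cell that touches a segment but not its first piece enters at a corner -/
theorem enter [Finite J] (a : m.Wk ps W t i k) (b : m.Sgm ps t i k z u)
    (n : ∀ v, m.On i z v → ¬ m.Sgm ps t i k z v) :
    ∃ j p X, Bt ps t i j k ∧ m.Wk ps W t i j ∧ m.Fc j p z X ∧ m.Sgm ps t i j p X := by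
  obtain ⟨-, j₀, o₀⟩ := b.1
  obtain ⟨j, ⟨v, o, c⟩, mn⟩ := Set.exists_min_image {j | ∃ v, m.On j z v ∧ m.Sgm ps t i k z v}
    (fun j => (ps j t - ps i t).natAbs) (Set.toFinite _) ⟨j₀, u, o₀, b⟩
  obtain ⟨j', -, o', -, gj, -, e⟩ := c.two h g o
  have ji := (c.2.2 j o).1
  have e1 := mn j' ⟨v, o', c⟩
  have e2 := (c.2.2 j o).2
  have e3 := (c.2.2 j' o').2
  have e4 := mt (g.inj t j i ji a.i1 gj a.h1) fun e => n v (e ▸ o) c
  have bt : Bt ps t i j k := by unfold Bt Bw at *; omega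
  have a' := st.wk_sub h g a ji gj bt
  obtain ⟨x, y, f, q⟩ := st.wk_last h g a' (g.bar_of_bt a.i1 ji a.i2 a.h1 gj a.h2 bt)
  obtain ⟨n', -, p, -, -, -, e'⟩ := q.two h g ⟨f.has1, f.has3⟩
  have e5 := (q.2.2 n' p).2
  have key : ¬ ∃ v, m.On n' z v ∧ m.Sgm ps t i k z v := fun r => by
    have := mn n' r
    unfold Bt Bw at *
    omega
  rcases f.has_iff.1 o.1 with rfl | rfl | rfl
  exacts [absurd ⟨_, p, q.mono bt.bw⟩ key, ⟨j, x, _, bt, a', f, q⟩,
    absurd ⟨_, p.symm, (q.symm h).mono bt.bw⟩ key]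

/-- the cells across a side of `z` stay on one side of a cut by pieces of the same line -/
theorem sid_side {Z : Set V} {ρ W' : V → V → Prop} (a : m.Sid ps W z t j k)
    (c : ∀ u v, W' u v → (ρ u v ↔ ¬ (u ∈ Z ↔ v ∈ Z))) (l : ∀ u v, ρ u v → m.ln u v = t)
    (hw : ∀ u v, m.Sgm ps t j k z u → m.Sgm ps t j k z v → W u v → W' u v)
    (b : m.Sgm ps t j k z u) (b' : m.Sgm ps t j k z v) : u ∈ Z ↔ v ∈ Z := by
  obtain ⟨w, o, q⟩ := a.fst
  have key : ∀ x y, m.Sgm ps t j k x y → (x = z → (y ∈ Z ↔ w ∈ Z)) ∧ (y = z → (x ∈ Z ↔ w ∈ Z)) := by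
    intro x y b
    refine st.wk_ind h g a.wk (P := fun x y => (x = z → (y ∈ Z ↔ w ∈ Z)) ∧ (y = z → (x ∈ Z ↔ w ∈ Z)))
      (fun _ _ => And.symm) (fun x y o' b => ?_) (fun i x y X f e bt so p => ?_) b
    · have := st.wk_first h g a.wk (st.wk_w h g a.wk q) o q o' b
      have := q.1.1
      grind
    · have ii := st.sol_inf h so
      obtain rfl : X = z := f.2.symm.trans (sid_flat g a ii (.inr e) bt).1
      have b1 := (st.wk_land h g a.wk f e ii bt).symm h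
      have b2 := (st.wk_land h g a.wk f.symm e ii bt).symm h
      have := c x y (hw x y b1 b2 (st.sol_w h so f).1)
      have := mt (l x y) fun q => h.stem_ne i ii ((h.lines f ii).1.symm.trans (q.trans e.symm))
      have := (h.fc_ne f).2.2
      tauto
  exact ((key z u b).1 rfl).trans ((key z v b').1 rfl).symm

/-- the faces of a segment are on the open side if only the last piece may lie on the cycle -/
theorem ou_lst {E : V → V → Prop} (a : m.Wk ps W t j k) (o : m.Ou W E j)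
    (c : ∀ u v, m.Sgm ps t j k u v → E u v → m.On k u v) (b : m.Sgm ps t j k u v) (p : m.On n u v)
    (d : n ≠ k) : m.Ou W E n := by
  have key : ∀ i u v, m.Sgm ps t j k u v → m.On i u v → i ≠ k → m.Ou W E i → ∀ n, m.On n u v →
      n ≠ k → m.Ou W E n := fun i u v b p d o n p' d' => by
    by_cases e : E u v
    · exact ((h.two_faces b.1.1 p (c u v b e) p' d).resolve_right d') ▸ o
    · exact o.piece p p' b.1.1 e
  exact st.wk_ind h g a (P := fun u v => ∀ n, m.On n u v → n ≠ k → m.Ou W E n)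
    (fun _ _ p i o => p i o.symm) (fun u v p b => key j u v b p a.ne o)
    (fun i _ _ _ f e bt so p =>
      have d : i ≠ k := by rintro rfl; unfold Bt at bt; omega
      key i _ _ (st.wk_land h g a f.symm e (st.sol_inf h so) bt) ⟨f.has2, f.has3⟩ d
        (p i ⟨f.has1, f.has3⟩ d)) b n p d

/-- a segment between the two faces of a wall has one piece -/
theorem sgm_one (w : W u v) (o : m.On j u v) (o' : m.On k u v) (d : j ≠ k)
    (b : m.Sgm ps (m.ln u v) j k x y) : (x = u ∧ y = v) ∨ (x = v ∧ y = u) := by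
  obtain ⟨a, c⟩ := st.wk_one h g w o o' d
  have e := g.step u v j k (st.ne w) o o' d a.i1 a.i2
  obtain ⟨-, n, p⟩ := b.1
  obtain ⟨n', -, p', -, gn, gn', e'⟩ := b.two h g p
  obtain ⟨i1, e1⟩ := b.2.2 n p
  obtain ⟨i2, e2⟩ := b.2.2 n' p'
  refine st.wk_first h g a w o c ?_ b
  by_cases q : ps n (m.ln u v) = ps j (m.ln u v)
  exacts [g.inj _ _ _ i1 a.i1 gn a.h1 q ▸ p,
    g.inj _ _ _ i2 a.i1 gn' a.h1 (by unfold Bw at *; omega) ▸ p']

/-- the last piece of a segment at a corner -/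
theorem wk_cor (a : m.Wk ps W t j k) (f : m.Fc k p q X) :
    (m.stem k = t ∧ m.Sgm ps t j k p q) ∨
      (m.bar k = t ∧ (m.Sgm ps t j k p X ∨ m.Sgm ps t j k q X)) := by
  obtain ⟨u, v, -, o, b⟩ := a.p2
  obtain ⟨l1, l2, l3, -⟩ := h.lines f a.i2
  have b' := b.symm h
  have n := b.1.1
  rcases f.has_iff.1 o.1 with rfl | rfl | rfl <;> rcases f.has_iff.1 o.2 with rfl | rfl | rfl
  exacts [absurd rfl n, .inl ⟨l1.symm.trans b.2.1, b⟩, .inr ⟨l2.symm.trans b.2.1, .inl b⟩,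
    .inl ⟨l1.symm.trans b'.2.1, b'⟩, absurd rfl n, .inr ⟨l3.symm.trans b.2.1, .inr b⟩,
    .inr ⟨l2.symm.trans b'.2.1, .inl b'⟩, .inr ⟨l3.symm.trans b'.2.1, .inr b'⟩, absurd rfl n]

/-- the partners at the two corners of `z` on a line that comes from an open face lie on different
sides of the cut through `D₀` and the segment -/
theorem pass_cut [DecidableEq V] [Finite V] [Finite J] {D₀ : Finset V}
    (s₀ : m.HSt (U \ D₀) (Del W D₀ No)) (zD : z ∈ D₀)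
    (a₀ : m.Wk ps W t i k) (op : ¬ m.Sol W i) (f : m.Fc k p z X) (b : m.Sgm ps t i k p X)
    (a₁ : m.Sid ps W z t k k') (bt : Bt ps t i k k') (b₁ : m.Sgm ps t k k' z X) (so : m.Sol W k')
    (f' : m.Fc k' z p' X') (pD : p ∉ D₀) (pD' : p' ∉ D₀) (hD : ∀ u, m.Sgm ps t k k' z u → u ∉ D₀) :
    ∃ Z : Set V, (∀ u v, Del W D₀ No u v → (m.Sgm ps t i k u v ↔ ¬ (u ∈ Z ↔ v ∈ Z))) ∧
      ¬ (p ∈ Z ↔ p' ∈ Z) := by
  obtain ⟨Z, c⟩ := s₀.cut_sgm h g a₀.i1 a₀.i2 a₀.h1 a₀.h2 (fun q => op fun u v d o => (q u v d o).1)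
    fun q => (q _ _ (h.fc_ne f).1 f.on).2.2.1 zD
  refine ⟨Z, c, ?_⟩
  have e1 := (c p X ⟨st.wk_w h g a₀ b, pD, hD _ b₁, id⟩).1 b
  have sd := fun u (q : m.Sgm ps t k k' z u) => st.sid_side h g a₁ c (fun _ _ q => q.2.1)
    (fun u v q q' w => ⟨w, hD u q, hD v q', id⟩) b₁ q
  have far : ∀ u v, m.On k' u v → ¬ m.Sgm ps t i k u v := fun u v o q => by
    have := (q.2.2 k' o).2
    unfold Bt Bw at *
    omega
  rcases st.wk_cor h g a₁.wk f' with ⟨-, q⟩ | ⟨-, q | q⟩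
  · rwa [sd _ q] at e1
  · have := c p' X' ⟨(st.sol_w h so f').2.2, pD', hD _ q, id⟩
    have := far p' X' ⟨f'.has2, f'.has3⟩
    have := sd _ q
    tauto
  · have := st.sid_row h g a₁ q
    have := h.fc_ne f'
    tauto

end HSt

namespace Loc

variable [DecidableEq V] [Finite V] [Finite J] {T : Set Sg} {N : V → Prop} {μ : V → ℕ}
  (L : m.Loc T N U W μ a x y) (h : m.Ok) (g : m.Ord ps)
include L h

omit [Finite J] in
/-- one neutral light with a safe shadow -/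
theorem neuS (f : m.Fc k p q X) (np : m.Fe T W 8 p) (nq : m.Fe T W 8 q)
    (sf : m.Sf W k p ∨ m.Sf W k q) (rc : m.Rc W {p, q} (m.Hgd T {k} No) k) :
    m.Neu U W μ {p, q} (m.Opd W {p, q} (m.Hgd T {k} No)) := by
  rcases sf with sf | sf
  · exact L.neu1 h f np nq sf rc
  · rw [Finset.pair_comm] at rc ⊢
    exact L.neu1 h f.symm nq np sf rc

omit [Finite J] in
/-- two neutral lights with safe shadows -/
theorem neuT [DecidableEq J] (f : m.Fc k p q X) (f' : m.Fc k' u v X') (d1 : p ≠ u) (d2 : p ≠ v)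
    (d3 : q ≠ u) (d4 : q ≠ v) (np : m.Fe T W 8 p) (nq : m.Fe T W 8 q) (nu : m.Fe T W 8 u)
    (nv : m.Fe T W 8 v) (sf : m.Sf W k p ∨ m.Sf W k q) (sf' : m.Sf W k' u ∨ m.Sf W k' v)
    (rc : m.Rc W {p, q, u, v} (m.Hgd T {k, k'} No) k)
    (rc' : m.Rc W {p, q, u, v} (m.Hgd T {k, k'} No) k') :
    m.Neu U W μ {p, q, u, v} (m.Opd W {p, q, u, v} (m.Hgd T {k, k'} No)) := by
  have e1 : ({p, q, u, v} : Finset V) = {q, p, u, v} := Finset.insert_comm _ _ _
  have e2 : ∀ p q : V, ({p, q, u, v} : Finset V) = {p, q, v, u} := fun p q => by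
    rw [Finset.pair_comm u v]
  rcases sf with sf | sf <;> rcases sf' with sf' | sf'
  · exact L.neu2 h f f' d1 d2 d3 d4 np nq nu nv (fun j a w => absurd w (sf j a))
      (fun j a w => absurd w (sf' j a)) rc rc'
  · rw [e2] at rc rc' ⊢
    exact L.neu2 h f f'.symm d2 d1 d4 d3 np nq nv nu (fun j a w => absurd w (sf j a))
      (fun j a w => absurd w (sf' j a)) rc rc'
  · rw [e1] at rc rc' ⊢
    exact L.neu2 h f.symm f' d3 d4 d1 d2 nq np nu nv (fun j a w => absurd w (sf j a))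
      (fun j a w => absurd w (sf' j a)) rc rc'
  · rw [e1, e2] at rc rc' ⊢
    exact L.neu2 h f.symm f'.symm d4 d3 d2 d1 nq np nv nu (fun j a w => absurd w (sf j a))
      (fun j a w => absurd w (sf' j a)) rc rc'

omit [Finite J] in
/-- (F1) for one light with a safe shadow -/
theorem f1S (f : m.Fc k p q X) (np : m.Fe T W 8 p) (nq : m.Fe T W 8 q)
    (sf : m.Sf W k p ∨ m.Sf W k q) (rc : m.Rc W {p, q} (m.Hgd T {k} (Pr a x y)) k) :
    (p = a ∨ p = x ∨ p = y) ∨ q = a ∨ q = x ∨ q = y := by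
  rcases sf with sf | sf
  · exact L.f1one h f np nq sf rc
  · rw [Finset.pair_comm] at rc
    exact (L.f1one h f.symm nq np sf rc).symm

include g

omit [Finite V] [Finite J] in
/-- the cells on a segment from an open face are near -/
theorem s0 (a₀ : m.Wk ps W t i k) (op : ¬ m.Sol W i) (b : m.Sgm ps t i k u v) : m.Fe T W 0 u :=
  ⟨v, L.st.wk_w h g a₀ b, L.st.wk_att h g a₀ op b⟩

omit [Finite J] in
/-- (F1) at the end of a segment from an open face that does not contain the centre -/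
theorem f1W (a₀ : m.Wk ps W t i k) (op : ¬ m.Sol W i) (n : ∀ u, ¬ m.Sgm ps t i k a u)
    (f : m.Fc k p q X) (np : m.Fe T W 8 p) (nq : m.Fe T W 8 q) (sf : m.Sf W k p ∨ m.Sf W k q) :
    (p = a ∨ p = x ∨ p = y) ∨ q = a ∨ q = x ∨ q = y :=
  L.f1S h f np nq sf (L.st.rc_end h g a₀ (.op op) fun _ _ b => .inl (.of (by simp) a₀.h2 b.2.1
    (fun e => n _ (e.1 ▸ b)) fun e => n _ (e.1 ▸ b.symm h)))

/-- (A1) a line from an open face does not pass two usable corners of a ring cell -/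
theorem a1 (bz : m.Bdy W z) (a₀ : m.Wk ps W t i k) (op : ¬ m.Sol W i) (sk : m.Sol W k)
    (f : m.Fc k p z X) (b : m.Sgm ps t i k p X) (a₁ : m.Sid ps W z t k k') (bt : Bt ps t i k k')
    (b₁ : m.Sgm ps t k k' z X) (so : m.Sol W k') (f' : m.Fc k' z p' X')
    (sf : m.Sf W k p ∨ m.Sf W k z) (sf' : m.Sf W k' z ∨ m.Sf W k' p') : False := by
  have st := L.st
  have n1 := (h.fc_ne f).1
  have n2 := (h.fc_ne f').1
  have w' := (st.sol_w h so f').1
  obtain ⟨Z, c, e⟩ := st.pass_cut h g (D₀ := {z}) (st.del_bdy h (by simpa using bz)) (by simp) a₀ op f b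
    a₁ bt b₁ so f' (by simpa using n1) (by simpa using n2.symm) fun u q => by simpa using q.1.1.symm
  have a₂ := a₀.trans g a₁.wk bt sk
  have hg : ∀ {k} (D : Finset V), m.Wk ps W t i k → ∀ u v, m.Sgm ps t i k u v →
      m.Hgd T {k} No u v ∨ u ∈ D ∨ v ∈ D := fun D a u v q => .inl (.no (by simp) a.h2 q.2.1)
  exact e ((L.neuS h f ((L.s0 h g a₀ op b).mono (by omega)) (L.b1 h bz w') sf
    (st.rc_end h g a₀ (.op op) (hg _ a₀))).switch1 (L.neuS h f' (L.b1 h bz w') (L.b2 h bz w') sf'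
    (st.rc_end h g a₂ (.op op) (hg _ a₂))) (D := {z}) subset_rfl (by simpa using n1)
    (by simpa using n2.symm) (by simp) (by simp [or_comm]) c
    (fun u v _ q => st.op_wk h g a₀ (.op op) (hg _ a₀) q)
    fun u v _ q => st.op_wk h g a₂ (.op op) (hg _ a₂) (q.mono bt.bw))

/-- (A2) the same with a second light at a usable corner `n` of the ring cell `u`, if `z` is a
neighbour of `u` -/
theorem a2 (bu : m.Bdy W u) (wu : W u z) (f₀ : m.Fc n u v X₀) (w₀ : W u v)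
    (sf₀ : m.Sf W n u ∨ m.Sf W n v) (a₀ : m.Wk ps W t i k) (op : ¬ m.Sol W i) (sk : m.Sol W k)
    (f : m.Fc k p z X) (b : m.Sgm ps t i k p X) (a₁ : m.Sid ps W z t k k') (bt : Bt ps t i k k')
    (b₁ : m.Sgm ps t k k' z X) (so : m.Sol W k') (f' : m.Fc k' z p' X')
    (sf : m.Sf W k p ∨ m.Sf W k z) (sf' : m.Sf W k' z ∨ m.Sf W k' p') (zv : z ≠ v) (pu : p ≠ u)
    (pv : p ≠ v) (pu' : p' ≠ u) (pv' : p' ≠ v) (hu : ¬ m.Sgm ps t k k' z u) : False := by
  classical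
  have st := L.st
  have n1 := (h.fc_ne f).1
  have n2 := (h.fc_ne f').1
  have zu := (st.ne wu).symm
  have w' := (st.sol_w h so f').1
  obtain ⟨Z, c, e⟩ := st.pass_cut h g (D₀ := {z, u}) (st.del0 h fun G o1 o2 d q => by
      obtain ⟨j, e1, e2⟩ := bu
      obtain ⟨-, j', e3⟩ := st.adj _ _ wu
      rcases (by simpa using q : d = z ∨ d = u) with rfl | rfl
      exacts [⟨j', o2 u (by simp) j j' e1 e3.1 (o1 j e2), e3.2⟩, ⟨j, o1 j e2, e1⟩])
    (by simp) a₀ op f b a₁ bt b₁ so f' (by simp [*]) (by simp [*, n2.symm]) fun u q => by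
      simpa using ⟨q.1.1.symm, fun e => hu (e ▸ q)⟩
  have a₂ := a₀.trans g a₁.wk bt sk
  have hg : ∀ {k} (D : Finset V), m.Wk ps W t i k → ∀ u v, m.Sgm ps t i k u v →
      m.Hgd T {k, n} No u v ∨ u ∈ D ∨ v ∈ D := fun D a u v q => .inl (.no (by simp) a.h2 q.2.1)
  have nz := L.b2 h bu wu
  exact e ((L.neuT h f f₀ pu pv zu zv ((L.s0 h g a₀ op b).mono (by omega)) nz (L.b1 h bu wu)
    (L.b2 h bu w₀) sf sf₀ (st.rc_end h g a₀ (.op op) (hg _ a₀))
    (.of_bdy bu (by simp) f₀.has1)).switch1 (L.neuT h f' f₀ zu zv pu' pv' nz (L.b3 h bu wu w')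
    (L.b1 h bu wu) (L.b2 h bu w₀) sf' sf₀ (st.rc_end h g a₂ (.op op) (hg _ a₂))
    (.of_bdy bu (by simp) f₀.has1)) (D := {z, u, v}) (by simp [Finset.subset_iff]) (by simp [*])
    (by simp [*, n2.symm]) (by simp) (by simp only [Finset.mem_insert, Finset.mem_singleton]; tauto) c
    (fun u v _ q => st.op_wk h g a₀ (.op op) (hg _ a₀) q)
    fun u v _ q => st.op_wk h g a₂ (.op op) (hg _ a₂) (q.mono bt.bw))

end Loc

end Map

end Pool.Agent.P.MP_5f84aa_co.G
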