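import Pool.Agent.P.MP_5f84aa_co.G.PRb

/-! The zone with two rungs, part C: landings on the zone rotate, and they do not exist. -/

namespace Pool.Agent.P.MP_5f84aa_co.G

namespace Map

variable {V J Sg : Type}

/-- an attached arc reaches the zone at the landing `k` -/
structure Ld (m : Map V J Sg) (W : V → V → Prop) (b a y : V) (k : J) (x p z : V) : Prop where
  f : m.Fc k x p z
  so : m.Sol W k
  nx : ¬ Th b a y x
  tp : Th b a y p
  ar : m.ArA W x z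

variable {m : Map V J Sg} {T : Set Sg} {N : V → Prop} {U D K : Finset V} {W W' : V → V → Prop}
  {μ : V → ℕ} {a b c y p q u v w x z p' q' x' z' o p₂ w₂ z₂ : V} {e g i j k j' k' g₂ : J} {t : Sg}

/-- a bounded cell has a second corner on a line -/
theorem Ok.ra_sec [Finite V] [Finite J] (h : m.Ok) (bc : m.Bd c) (cc : m.cor i c) (g : m.hug i t) :
    ∃ i', i' ≠ i ∧ m.cor i' c ∧ m.hug i' t := by
  obtain ⟨o, f⟩ := cc.ge
  have ii := bc.ne_inf cc.has
  obtain ⟨n1, n2, n3⟩ := h.fc_ne f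
  obtain ⟨l1, l2, -, l3⟩ := h.lines f ii
  have key : ∀ u v, c ≠ u → m.has i u → (∀ w, m.has i w → w = c ∨ w = u ∨ w = v) →
      m.ln c v ≠ m.ln c u → ∃ i', i' ≠ i ∧ m.cor i' c ∧ m.hug i' (m.ln c u) := fun u v d a all l => by
    obtain ⟨i', ne, o', -⟩ := h.other ⟨cc.has, a⟩ d
    refine h.first_corner' (F := {j | j ≠ i}) bc ⟨d, i', i, o', ⟨cc.has, a⟩, ne, by simp⟩ ?_
    rintro w n ⟨d', -, j', -, o2, -, q⟩
    obtain rfl : j' = i := by simpa using q
    rcases all w o2.2 with rfl | rfl | rfl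
    exacts [absurd rfl d', absurd rfl n, l]
  rcases g with rfl | rfl
  · exact l1 ▸ key o _ n1 f.fc.has2 (fun w q => f.fc.has_iff.1 q) (by rw [l1, l2]; exact l3.symm)
  · exact l2 ▸ key _ o n2 f.fc.has3 (fun w q => by have := f.fc.has_iff.1 q; tauto)
      (by rw [l1, l2]; exact l3)

theorem ra_xor {ρ ρ' : V → V → Prop} (c : m.Ev ρ j ↔ m.Ev ρ' j) :
    m.Ev (fun u v => ¬ (ρ u v ↔ ρ' u v)) j := by
  unfold Ev at c ⊢
  grind

theorem Ld.uniq (l : m.Ld W b a y k x p z) (f : m.Fc k x' p' z') (n : ¬ Th b a y x')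
    (d : x' ≠ p') : x' = x ∧ p' = p ∧ z' = z := by
  obtain rfl : x' = x := (l.f.cor_iff.1 f.cor1).resolve_right fun e => n (e ▸ l.tp)
  exact ⟨rfl, f.unique l.f d⟩

namespace RR

variable [DecidableEq V] (r : RR m T N U W μ b a y)
include r

theorem nb (tc : Th b a y c) (n : c ≠ a) (t : Th b a y o) (ad : m.Adj c o) : o = a := by
  have := ad.1
  rcases tc with rfl | rfl | rfl <;> rcases t with rfl | rfl | rfl <;>
    first | rfl | exact absurd rfl this | exact absurd rfl n | exact absurd ad r.nby |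
      exact absurd ad.symm r.nby

theorem ld_w (l : m.Ld W b a y k x p z) : W x p ∧ W x z ∧ W p z := HSt.ra_sw r.h l.so l.f

theorem ld_ln (l : m.Ld W b a y k x p z) : m.ln x p = m.stem k ∧ m.ln x z = m.bar k ∧
    m.ln p z = m.bar k ∧ m.stem k ≠ m.bar k := r.h.lines l.f (r.s.ra_inf r.h l.so)

theorem ld_inf (l : m.Ld W b a y k x p z) : k ≠ m.inf := r.s.ra_inf r.h l.so

/-- a wall on the line of a wall inside the zone is inside the zone -/
theorem inside (tu : Th b a y u) (tv : Th b a y v) (ad : m.Adj u v) (w : W p q)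
    (l : m.ln p q = m.ln u v) : Th b a y p := by
  obtain ⟨j, j', f, g⟩ := r.rn tu tv ad
  rcases g.fc.cor_iff.1 (r.h.rung j j' f p q (r.s.adj _ _ w) (l.trans (r.h.lines g f.2.1).1)).1
    with rfl | rfl <;> assumption

variable [Finite V] [Finite J]

theorem endof (ou : m.Out W v u) (n : ¬ Th b a y v) (nt : ¬ m.Tok W b a y v u) :
    ∃ g x p z, m.Fc g x p z ∧ m.Sol W g ∧ m.Ar W v u x p := by
  by_contra c
  refine nt (r.cut2 ou n fun j so => by_contra fun o => ?_)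
  obtain ⟨x, p, z, f, q⟩ := r.s.ra_sol r.h o so fun q => q so
  exact c ⟨j, x, p, z, f, so, q⟩

omit [Finite J] in
/-- the row of a cell is a chain of rungs up to the zone -/
theorem row (w : W v u) (t : m.Att W v u) (n : ¬ Th b a y v) (c : m.Ar W v u p q) :
    (m.RC (m.Lad W b a y) v p ∨ m.RC (m.Lad W b a y) v q) ∨ ∃ k x p z, m.Fc k x p z ∧ m.Sol W k ∧
      m.RC (m.Lad W b a y) v x ∧ Th b a y p ∧ m.Ar W v u x z := by
  refine or_iff_not_imp_right.2 fun nl => c.ind (P := fun p q => m.RC (m.Lad W b a y) v p ∨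
    m.RC (m.Lad W b a y) v q) (.inl .refl) (fun _ _ _ => Or.symm) ?_
  rintro x x' z j c (e | e) d w' l jN tr
  · have f := r.s.ra_fc r.h (r.s.arc_w r.h c w).1 d w' l tr
    have so : m.Sol W j := not_not.1 jN
    exact .inl (e.trans (r.lad f so (fun q => n ((rc_th e).2 q))
      (fun q => nl ⟨j, x, x', z, f, so, e, q, c⟩) (r.s.att_of r.h w t c.run)))
  · exact .inr e

theorem walk (ou : m.Out W v u) (n : ¬ Th b a y v) (nt : ¬ m.Tok W b a y v u) :
    ∃ k x p z, m.Fc k x p z ∧ m.Sol W k ∧ m.RC (m.Lad W b a y) v x ∧ Th b a y p ∧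
      (m.Ar W v u x p ∨ m.Ar W v u x z) := by
  obtain ⟨g, x, p, z, f, so, c⟩ := r.endof ou n nt
  have t := r.stem f so (r.s.att_of r.h ou.1 ou.att c.run)
  rcases r.row ou.1 ou.att n c with (e | e) | ⟨k, x, p, z, f, so, e, t, c⟩
  exacts [⟨g, x, p, z, f, so, e, t.resolve_left fun q => n ((rc_th e).2 q), .inl c⟩,
    ⟨g, p, x, z, f.symm, so, e, t.resolve_right fun q => n ((rc_th e).2 q), .inl c.swap⟩,
    ⟨k, x, p, z, f, so, e, t, .inr c⟩]

/-- the arc of a landing ends at a landing -/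
theorem rot (l : m.Ld W b a y k x p z) :
    ∃ g w p' z', m.Ld W b a y g w p' z' ∧ m.stem g = m.bar k ∧ m.Ar W x z w p' := by
  have s := r.s
  have h := r.h
  obtain ⟨w1, w2, w3⟩ := r.ld_w l
  obtain ⟨l1, l2, l3, l4⟩ := r.ld_ln l
  have nz := r.flat l.f.symm l.tp
  obtain ⟨g, w, p', z', f, so, c, tp⟩ : ∃ g w p' z', m.Fc g w p' z' ∧ m.Sol W g ∧ m.Ar W x z w p' ∧
      Th b a y p' := by
    obtain ⟨u, v, c, ou, n⟩ : ∃ u v, m.Ar W x z u v ∧ m.Out W u v ∧ ¬ Th b a y u := by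
      obtain ⟨u, v, e, c, o⟩ := l.ar
      obtain ⟨wu, lu⟩ := s.arc_w h c w2
      by_cases n : Th b a y u
      exacts [⟨v, u, c.swap, s.out_symm ⟨wu, e, o⟩, fun q =>
        l.nx (r.inside n q (s.adj _ _ wu) w2 lu.symm)⟩, ⟨u, v, c, ⟨wu, e, o⟩, n⟩]
    obtain ⟨g, w, p', z', f, so, c'⟩ := r.endof ou n fun q =>
      (q.2.2 x z (s.arc_symm h c w2)).elim (fun q => nz q.2) fun q => l.nx q.2
    have c2 := c.trans c'
    rcases r.stem f so (s.att_of h w2 l.ar.att c2.run) with t | t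
    exacts [⟨g, p', w, z', f.symm, so, c2.swap, t⟩, ⟨g, w, p', z', f, so, c2, t⟩]
  obtain ⟨ww, lw⟩ := s.arc_w h c w2
  have nw : ¬ Th b a y w := fun q => l.nx (r.inside q tp (s.adj _ _ ww) w2 lw.symm)
  have e1 : m.stem g = m.bar k := (h.lines f (s.ra_inf h so)).1.symm.trans (lw.trans l2)
  have kg : k ≠ g := fun e => l4 (e ▸ e1)
  have two : ∀ i x' q z'', m.Fc i x' q z'' → ¬ Th b a y x' → Th b a y q → m.hug i (m.bar k) →
      i = k ∨ i = g := fun i x' q z'' fi n t gi =>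
    h.ra_two (r.cor l.f l.nx l.tp (.inr rfl)) (r.cor f nw tp (.inl e1)) (r.cor fi n t gi) kg
  refine ⟨g, w, p', z', ⟨f, so, nw, tp, ?_⟩, e1, c⟩
  have aw := s.ra_ara h w2 l.ar c
  obtain ⟨u, v, cu, ou, rc⟩ : ∃ u v, m.Ar W w p' u v ∧ m.Out W u v ∧ m.RC (m.Lad W b a y) w u := by
    obtain ⟨u, v, e, cu, o⟩ := id aw
    have wu := (s.arc_w h cu ww).1
    rcases r.row ww aw.att nw cu with (q | q) | ⟨i, x', q, z'', fi, si, rc, t, ci⟩
    · exact ⟨u, v, cu, ⟨wu, e, o⟩, q⟩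
    · exact ⟨v, u, cu.swap, s.out_symm ⟨wu, e, o⟩, q⟩
    have nx' : ¬ Th b a y x' := fun q => nw ((rc_th rc).2 q)
    obtain ⟨m1, m2, -, m4⟩ := h.lines fi (s.ra_inf h si)
    have e2 : m.bar i = m.bar k := m2.symm.trans ((s.arc_w h ci ww).2.trans (lw.trans l2))
    have := r.one rc nw tp t (h.adj12 f) (h.adj12 fi)
    exact absurd (m1.symm.trans (this.symm.trans ((lw.trans l2).trans e2.symm))) m4
  have nu : ¬ Th b a y u := fun q => nw ((rc_th rc).2 q)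
  have cw := s.arc_symm h cu ww
  obtain ⟨v', ou', nc⟩ := s.ra_second h so f ou cw
  obtain ⟨i, x', q, z'', fi, si, rc', t, ci⟩ := r.walk ou' nu fun q =>
    nc (s.arc_symm h (q.2.1 v ou.1) ou'.1)
  have nx' : ¬ Th b a y x' := fun q => nu ((rc_th rc').2 q)
  have e2 : m.stem i = m.bar k := (h.lines fi (s.ra_inf h si)).1.symm.trans
    ((r.one (rc.trans rc') nw tp t (h.adj12 f) (h.adj12 fi)).symm.trans (lw.trans l2))
  obtain rfl := (two i _ _ _ fi nx' t (.inl e2)).resolve_left fun e => l4 (e ▸ e2)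
  obtain rfl : x' = w := (f.cor_iff.1 fi.cor1).resolve_right fun e => nx' (e ▸ tp)
  obtain ⟨rfl, rfl⟩ := fi.unique f (h.fc_ne fi).1
  exact s.ra_ara h ou'.1 ou'.ara (ci.resolve_left fun q => nc (cw.trans (s.arc_symm h q ou'.1)))

omit [Finite V] in
/-- the two corners of the zone on the line between two landings -/
theorem ld_two (l : m.Ld W b a y k x p z) (l' : m.Ld W b a y g w p' z') (e : m.stem g = m.bar k)
    (f : m.Fc i u v o) (n : ¬ Th b a y u) (t : Th b a y v) (c : m.hug i (m.bar k)) : i = k ∨ i = g :=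
  r.h.ra_two (r.cor l.f l.nx l.tp (.inr rfl)) (r.cor l'.f l'.nx l'.tp (.inl e)) (r.cor f n t c)
    fun q => (r.ld_ln l).2.2.2 (q ▸ e)

theorem ld_ar (l : m.Ld W b a y k x p z) (l' : m.Ld W b a y g w p' z') (e : m.stem g = m.bar k) :
    m.Ar W x z w p' := by
  obtain ⟨g₂, w₂, p₂, z₂, l₂, e₂, c⟩ := r.rot l
  obtain rfl := (r.ld_two l l₂ e₂ l'.f l'.nx l'.tp (.inl e)).resolve_left
    fun q => (r.ld_ln l).2.2.2 (q ▸ e)
  obtain ⟨rfl, rfl, -⟩ := l'.uniq l₂.f l₂.nx (r.h.fc_ne l₂.f).1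
  exact c

theorem prev (l : m.Ld W b a y g w p' z') :
    ∃ k x p z, m.Ld W b a y k x p z ∧ m.stem g = m.bar k := by
  have ex : ∀ k : {k // ∃ x p z, m.Ld W b a y k x p z},
      ∃ g : {k // ∃ x p z, m.Ld W b a y k x p z}, m.stem g.1 = m.bar k.1 := fun ⟨k, x, p, z, l⟩ =>
    let ⟨g, w, p', z', l', e, _⟩ := r.rot l; ⟨⟨g, w, p', z', l'⟩, e⟩
  choose nx hn using ex
  have inj : Function.Injective nx := by
    rintro ⟨k, x, p, z, l⟩ ⟨k', x', p', z', l'⟩ e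
    obtain ⟨w, q, o, l₂⟩ := (nx ⟨k, x, p, z, l⟩).2
    have e1 := hn ⟨k, x, p, z, l⟩
    have e2 := hn ⟨k', x', p', z', l'⟩
    rw [← e] at e2
    refine Subtype.ext ((r.ld_two l l₂ e1 l'.f l'.nx l'.tp (.inr (e2.symm.trans e1))).resolve_right
      fun q => (r.ld_ln l').2.2.2 ?_).symm
    rwa [← q] at e2
  obtain ⟨⟨k, x, p, z, l'⟩, e⟩ := Finite.surjective_of_injective inj ⟨g, w, p', z', l⟩
  have := hn ⟨k, x, p, z, l'⟩
  rw [e] at this
  exact ⟨k, x, p, z, l', this⟩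

theorem ld_nr (l : m.Ld W b a y g w p' z') : ¬ m.far g j := fun f =>
  let ⟨_, _, _, _, l', e⟩ := r.prev l; r.h.far_not_bar f (r.ld_inf l') e

omit [Finite V] [Finite J] in
theorem even {n : ℕ} (M : m.Mc (m.Fp 1 T W (Ch b a y)) T U W D W' n) (e : 2 * n ≤ D.card) (sub : K ⊆ U \ D)
    (cl : Cld (Del W D W') K) : Even (∑ x ∈ K, μ x) := by
  by_contra c
  have := r.c.dead D _ n {K} M ⟨by simpa using ⟨sub, cl, Nat.not_even_iff_odd.1 c⟩, by simp⟩
  simp at this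
  omega

theorem ld_cost (l : m.Ld W b a y k x p z) : m.cost (Gone W {x, p} (m.AtL W (m.hug k))) ≤ 1 :=
  HSt.cost_pair r.h r.s.sym l.f (r.ld_inf l) (fun _ q => absurd q (r.ld_nr l)) fun _ _ _ q => q.2.2

omit [Finite V] [Finite J] in
theorem ld_at (l : m.Ld W b a y k x p z) : m.AtL W (m.hug k) x z :=
  ⟨(r.ld_w l).2.1, l.ar.att, .inr (r.ld_ln l).2.1.symm⟩

/-- the sector between two arcs is odd -/
theorem sector (l : m.Ld W b a y k x p z) (l' : m.Ld W b a y g w p' z') (e : m.stem g = m.bar k) :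
    ∃ K ⊆ U, Odd (∑ u ∈ K, μ u) ∧ x ∉ K ∧ (∀ v, Th b a y v → v ∉ K) ∧
      (∀ u v, W u v → Th b a y v → m.ln u v = m.bar g → u ∉ K) ∧
      ∀ u v, W u v → ¬ m.AtL W (m.hug g) u v → u ∈ K → v ∈ K := by
  classical
  have s := r.s
  have h := r.h
  obtain ⟨w1, w2, w3⟩ := r.ld_w l
  obtain ⟨l1, l2, l3, l4⟩ := r.ld_ln l
  obtain ⟨v1, v2, v3⟩ := r.ld_w l'
  obtain ⟨m1, m2, m3, m4⟩ := r.ld_ln l'
  have c := r.ld_ar l l' e
  obtain ⟨g₂, w₂, p₂, z₂, l₂, e₂, -⟩ := r.rot l'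
  let N' : Set J := {j | ¬ m.Sol W j ∨ j = g}
  have bA : ∀ u v, m.Arc W N' w z' u v → m.Att W u v := fun u v q => s.att_of h v2 l'.ar.att q.run
  have off : ∀ u v, m.Arc W N' w z' u v → ¬ Th b a y u ∧ ¬ Th b a y v := fun u v q => by
    refine q.ind (P := fun u v => ¬ Th b a y u ∧ ¬ Th b a y v) ⟨l'.nx, r.flat l'.f.symm l'.tp⟩
      (fun _ _ _ => And.symm) fun u u' v j q n d w' ll jN tr => ⟨fun t => ?_, n.2⟩
    obtain ⟨wu, lu⟩ := s.arc_w h q v2
    have f := s.ra_fc h wu d w' ll tr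
    obtain ⟨-, n2, -, n4⟩ := h.lines f ((s.bd _ (s.mem _ _ wu)).ne_inf f.has1)
    have e3 : m.bar j = m.bar g := n2.symm.trans (lu.trans m2)
    rcases r.ld_two l' l₂ e₂ f n.1 t (.inr e3) with rfl | rfl
    exacts [jN (.inr rfl), n4 (e₂.trans e3.symm)]
  have dis : ∀ u v, m.Ar W x z u v → ¬ m.Arc W N' w z' u v := fun u v q q' =>
    m4 (e.trans (l2.symm.trans ((s.arc_w h q w2).2.symm.trans ((s.arc_w h q' v2).2.trans m2))))
  obtain ⟨u₀, v₀, e₀, c₀, o₀, op₀⟩ := l.ar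
  obtain ⟨Z, aZ, hZ⟩ := s.ra_cut h (ρ := fun u v => ¬ (m.Ar W x z u v ↔ m.Arc W N' w z' u v))
    (fun u v q n => q ⟨fun t => (n.1 t.swap).swap, fun t => (n.2 t.swap).swap⟩) (fun j so => by
      by_cases q : j = g
      · subst q
        exact ra_xor (iff_of_false (s.ra_stem h w2 l'.f c) (s.arc_end h v2 (N := N') (j := j) (.inr rfl)
          (.refl _ _ _ _) ⟨l'.f.has1, l'.f.has3⟩))
      · refine ra_xor (iff_of_true ((s.ra_one h w2 l'.so l'.f c c₀ o₀ op₀).1 j so q)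
          (by_contra fun o => ?_))
        obtain ⟨u, v, _, f, q'⟩ := s.ra_sol h o so fun t => t.elim (· so) q
        exact (r.stem f so (bA u v q')).elim (off u v q').1 (off u v q').2) a
  have tz : ∀ v, Th b a y v → v ∉ Z := by
    have key : ∀ v, Th b a y v → W a v → v ∉ Z := fun v t wv => by
      have := hZ a v wv
      have := fun q => (off a v q).2 t
      have : ¬ m.Ar W x z a v := fun q =>
        l.nx (r.inside (.inr (.inl rfl)) t (s.adj _ _ wv) w2 (s.arc_w h q w2).2.symm)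
      tauto
    rintro v (rfl | rfl | rfl)
    exacts [key _ (.inl rfl) r.wb, aZ, key _ (.inr (.inr rfl)) r.wy]
  have cr : ∀ u v, m.Ar W x z u v → ¬ (u ∈ Z ↔ v ∈ Z) := fun u v q =>
    (hZ u v (s.arc_w h q w2).1).1 fun t => dis u v q (t.1 q)
  have cl : ∀ u v, W u v → ¬ m.AtL W (m.hug g) u v → u ∈ U.filter (· ∈ Z) → v ∈ U.filter (· ∈ Z) :=
    fun u v wu n q => Finset.mem_filter.2 ⟨s.mem2 wu, by
      have := hZ u v wu
      have : ¬ m.Ar W x z u v := fun t => n ⟨wu, s.att_of h w2 l.ar.att t.run,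
        .inl (e.trans (l2.symm.trans (s.arc_w h t w2).2.symm))⟩
      have : ¬ m.Arc W N' w z' u v := fun t => n ⟨wu, bA u v t,
        .inr (m2.symm.trans (s.arc_w h t v2).2.symm)⟩
      have := (Finset.mem_filter.1 q).2
      tauto⟩
  refine ⟨U.filter (· ∈ Z), Finset.filter_subset _ _, ?_, fun q => ?_,
    fun v t q => tz v t (Finset.mem_filter.1 q).2, fun u v wu t ll q => ?_, cl⟩
  · have wZ : w ∈ U.filter (· ∈ Z) := Finset.mem_filter.2 ⟨s.mem _ _ v1, by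
      have := cr _ _ c; have := tz _ l'.tp; tauto⟩
    have := r.even (K := (U.filter (· ∈ Z)).erase w) (Cn.ra_mc s (D := {w, p'})
      (by simpa using ⟨fp0 v2 l'.ar.att, r.fpT l'.tp⟩) (s.ra_del h
        (fun j j' q t => (HSt.ra_rr h l'.f (r.ld_inf l') q t).imp (by simp +contextual)
          (by simp +contextual))
        fun G _ _ all d q => ⟨g, all _ _ g (r.ld_at l') ⟨l'.f.has1, l'.f.has3⟩, by
          rcases (by simpa using q : d = w ∨ d = p') with rfl | rfl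
          exacts [l'.f.has1, l'.f.has2]⟩) (r.ld_cost l'))
      (by simp [Finset.card_pair (h.fc_ne l'.f).1])
      (fun u q => by
        obtain ⟨q1, q2⟩ := Finset.mem_erase.1 q
        obtain ⟨q2, q3⟩ := Finset.mem_filter.1 q2
        simpa using ⟨q2, q1, fun e => tz _ l'.tp (e ▸ q3)⟩)
      fun u v d q => Finset.mem_erase.2 ⟨fun e => d.2.2.1 (by simp [e]),
        cl u v d.1 d.2.2.2 (Finset.mem_erase.1 q).2⟩
    rw [← Finset.sum_erase_add _ _ wZ, r.c.one w (fp0 v2 l'.ar.att)]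
    exact this.add_one
  · have := cr _ _ (.refl _ _ _ _)
    have := cr _ _ (s.arc_bar h l.f (fun q => q l.so) w3 (.refl _ _ _ _))
    have := tz _ l.tp
    have := (Finset.mem_filter.1 q).2
    tauto
  · have := hZ u v wu
    have := fun q => (off u v q).2 t
    have : ¬ m.Ar W x z u v := fun q =>
      m4 (e.trans (l2.symm.trans ((s.arc_w h q w2).2.symm.trans ll)))
    have := tz v t
    have := (Finset.mem_filter.1 q).2
    tauto

/-- two lights free the sector between them -/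
theorem kill (l : m.Ld W b a y k x p z) (l' : m.Ld W b a y g w p' z')
    (l₂ : m.Ld W b a y g₂ w₂ p₂ z₂) (e : m.stem g = m.bar k) (e₂ : m.stem g₂ = m.bar g) : p = p₂ := by
  by_contra ne
  have s := r.s
  have h := r.h
  obtain ⟨K, sub, od, xK, tK, wK, cl⟩ := r.sector l l' e
  have xw : x ≠ w₂ := by
    rintro rfl
    exact r.no2 k g (r.ld_inf l) (r.ld_inf l') ((r.ld_ln l).1.symm.trans ((r.one .refl l.nx l.tp l₂.tp
      (h.adj12 l.f) (h.adj12 l₂.f)).trans ((r.ld_ln l₂).1.trans e₂))) e.symm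
  refine Nat.not_even_iff_odd.2 od (r.even (Cn.ra_mc s (D := {x, p, w₂, p₂})
    (S := fun t => m.hug k t ∨ m.hug g₂ t) (r := 2)
    (by simpa using ⟨fp0 (r.ld_w l).2.1 l.ar.att, r.fpT l.tp, fp0 (r.ld_w l₂).2.1 l₂.ar.att,
      r.fpT l₂.tp⟩) (s.ra_del h (fun j j' q t => ?_) fun G _ _ all d q => ?_) ?_) ?_ (fun u q => ?_)
    fun u v d q => cl u v d.1 (fun t => d.2.2.2 ⟨t.1, t.2.1, ?_⟩) q)
  · rcases t with t | t
    exacts [(HSt.ra_rr h l.f (r.ld_inf l) q t).imp (by simp +contextual) (by simp +contextual),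
      (HSt.ra_rr h l₂.f (r.ld_inf l₂) q t).imp (by simp +contextual) (by simp +contextual)]
  · have a1 := all x z k ⟨(r.ld_at l).1, (r.ld_at l).2.1, .inl (r.ld_at l).2.2⟩ ⟨l.f.has1, l.f.has3⟩
    have a2 := all w₂ z₂ g₂ ⟨(r.ld_at l₂).1, (r.ld_at l₂).2.1, .inr (r.ld_at l₂).2.2⟩
      ⟨l₂.f.has1, l₂.f.has3⟩
    rcases (by simpa using q : d = x ∨ d = p ∨ d = w₂ ∨ d = p₂) with rfl | rfl | rfl | rfl
    exacts [⟨k, a1, l.f.has1⟩, ⟨k, a1, l.f.has2⟩, ⟨g₂, a2, l₂.f.has1⟩, ⟨g₂, a2, l₂.f.has2⟩]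
  · refine (cost_union fun u v q => ?_).trans (Nat.add_le_add (r.ld_cost l) (r.ld_cost l₂))
    simp only [gone_iff, AtL, Finset.mem_insert, Finset.mem_singleton] at q ⊢
    tauto
  · rw [Finset.card_eq_four.2 ⟨x, p, w₂, p₂, (h.fc_ne l.f).1, xw, fun q => l.nx (q ▸ l₂.tp),
      fun q => l₂.nx (q ▸ l.tp), ne, (h.fc_ne l₂.f).1, rfl⟩]
  · have a1 := tK _ l.tp
    have a2 := tK _ l₂.tp
    have a3 := wK _ _ (r.ld_w l₂).1 l₂.tp ((r.ld_ln l₂).1.trans e₂)
    simp only [Finset.mem_sdiff, Finset.mem_insert, Finset.mem_singleton]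
    refine ⟨sub q, ?_⟩
    rintro (rfl | rfl | rfl | rfl) <;> contradiction
  · exact t.2.2.imp (fun q => .inr (e.symm.trans q)) fun q => .inl (e₂.trans q)

/-- the line passes an end of the rung of an end cell -/
theorem move (l : m.Ld W b a y k x p z) (l' : m.Ld W b a y g w p' z') (e : m.stem g = m.bar k)
    (ne : p ≠ p') (n : c ≠ a) (q : c = p ∨ c = p') (f : m.far j j') (fj : m.GE j a c) :
    m.bar k = m.bar j ∨ m.bar k = m.bar j' := by
  have h := r.h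
  have tc : Th b a y c := by rcases q with rfl | rfl; exacts [l.tp, l'.tp]
  have bc := r.s.bd _ (r.mem tc)
  obtain ⟨i, ci, gi, n1, n2⟩ : ∃ i, m.cor i c ∧ m.hug i (m.bar k) ∧ i ≠ k ∧ i ≠ g := by
    rcases q with rfl | rfl
    · obtain ⟨i, d, ci, gi⟩ := h.ra_sec bc l.f.cor2 (.inr rfl)
      exact ⟨i, ci, gi, d, fun e => (l'.f.cor_iff.1 (e ▸ ci)).elim (fun e => l'.nx (e ▸ tc)) ne⟩
    · obtain ⟨i, d, ci, gi⟩ := h.ra_sec bc l'.f.cor2 (.inl e)
      exact ⟨i, ci, gi, fun e => (l.f.cor_iff.1 (e ▸ ci)).elim (fun e => l.nx (e ▸ tc)) ne.symm, d⟩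
  obtain ⟨o, fi⟩ := ci.ge
  obtain rfl := r.nb tc n (by_contra fun t => (r.ld_two l l' e fi.fc.symm t tc gi).elim n1 n2)
    (h.adj12 fi)
  rcases h.two_faces n fj.fc.on.symm (h.far_ge f fj).fc.on.symm fi.fc.on f.1 with rfl | rfl
  exacts [.inl (gi.resolve_left (h.far_not_bar f (r.ld_inf l))).symm,
    .inr (gi.resolve_left (h.far_not_bar f.symm (r.ld_inf l))).symm]

/-- there is no landing on the zone -/
theorem no_ld (l : m.Ld W b a y k x p z) : False := by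
  have h := r.h
  by_cases cs : ∀ k x p z g w p' z', m.Ld W b a y k x p z → m.Ld W b a y g w p' z' →
      m.stem g = m.bar k → p = p'
  · have bp := r.s.bd _ (r.mem l.tp)
    obtain ⟨o, ⟨j, j', f, fj⟩, th⟩ : ∃ o, m.Rn p o ∧ Th b a y o := by
      rcases l.tp with rfl | rfl | rfl
      exacts [⟨a, r.rb.symm, .inr (.inl rfl)⟩, ⟨b, r.rb, .inl rfl⟩, ⟨a, r.ry.symm, .inr (.inl rfl)⟩]
    have key := h.lk0 (F := {j | (∃ x z, m.Ld W b a y j x p z) ∨
      (m.X j = p ∧ ∃ k x z, m.Ld W b a y k x p z ∧ m.hug k (m.bar j))}) (v := p) ?_ l.f.has2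
      fj.fc.has1 (.inl ⟨x, z, l⟩)
    · rcases key with ⟨x, z, l⟩ | ⟨e, -⟩
      exacts [(fj.fc.cor_iff.1 l.f.cor1).elim (fun e => l.nx (e ▸ l.tp)) fun e => l.nx (e ▸ th),
        (h.fc_ne fj).2.1 e.symm]
    rintro w ⟨d, i, i', o, o', iF, nF⟩
    have fl : ∀ i, m.On i p w → m.X i = p → m.ln p w = m.bar i := fun i o e => by
      obtain ⟨-, l1, l2, -⟩ := h.lines (fc_self i) (bp.ne_inf o.1)
      rcases o.2 with rfl | rfl | rfl
      exacts [e ▸ (h.ln_symm _ _).trans l1, e ▸ (h.ln_symm _ _).trans l2, absurd e.symm d]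
    obtain ⟨k, x, z, l, g⟩ : ∃ k x z, m.Ld W b a y k x p z ∧ m.hug k (m.ln p w) := by
      rcases iF with ⟨x, z, l⟩ | ⟨e, q⟩
      exacts [⟨i, x, z, l, h.hug_of_cor l.f.cor2 o.2 d (r.ld_inf l)⟩, fl i o e ▸ q]
    by_cases e : m.X i' = p
    · exact nF (.inr ⟨e, k, x, z, l, fl i' o' e ▸ g⟩)
    have ci : m.cor i' p := by
      rcases o'.1 with q | q | q
      exacts [.inl q, .inr q, absurd q.symm e]
    obtain ⟨k', x', z', l', g', ne⟩ : ∃ k' x' z', m.Ld W b a y k' x' p z' ∧ m.hug k' (m.ln p w) ∧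
        k ≠ k' := by
      rcases g with g | g
      · obtain ⟨k', x', p', z', l', e1⟩ := r.prev l
        obtain rfl := cs _ _ _ _ _ _ _ _ l' l e1
        exact ⟨k', x', z', l', .inr (e1.symm.trans g), fun q => (r.ld_ln l').2.2.2 (q ▸ e1)⟩
      · obtain ⟨k', x', p', z', l', e, -⟩ := r.rot l
        obtain rfl := cs _ _ _ _ _ _ _ _ l l' e
        exact ⟨k', x', z', l', .inl (e.trans g), fun q => (r.ld_ln l).2.2.2 (q ▸ e)⟩
    rcases h.side2 bp l.f.cor2 l'.f.cor2 ci g g' (h.hug_of_cor ci o'.2 d (bp.ne_inf o'.1)) ne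
      with rfl | rfl
    exacts [nF (.inl ⟨x, z, l⟩), nF (.inl ⟨x', z', l'⟩)]
  · push Not at cs
    obtain ⟨k, x, p, z, g, w, p', z', l, l', e, ne⟩ := cs
    obtain ⟨g₂, w₂, p₂, z₂, l₂, e₂, -⟩ := r.rot l'
    obtain ⟨g₃, w₃, p₃, z₃, l₃, e₃, -⟩ := r.rot l₂
    obtain rfl := r.kill l l' l₂ e e₂
    obtain rfl := r.kill l' l₂ l₃ e₂ e₃
    obtain ⟨c, n, q, tc⟩ : ∃ c, c ≠ a ∧ (c = p ∨ c = p') ∧ Th b a y c := by
      by_cases t : p = a
      exacts [⟨p', fun q => ne (t.trans q.symm), .inr rfl, l'.tp⟩, ⟨p, t, .inl rfl, l.tp⟩]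
    obtain ⟨j, j', f, fj⟩ : m.Rn a c := by
      rcases tc with rfl | rfl | rfl
      exacts [r.rb, absurd rfl n, r.ry]
    have a1 := r.move l l' e ne n q f fj
    have a2 := r.move l' l₂ e₂ ne.symm n q.symm f fj
    have a3 := r.move l₂ l₃ e₃ ne n q f fj
    have b1 := (r.ld_ln l').2.2.2
    have b2 := (r.ld_ln l₂).2.2.2
    have b3 := r.no2 g g₂ (r.ld_inf l') (r.ld_inf l₂)
    grind

end RR

end Map

end Pool.Agent.P.MP_5f84aa_co.G
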