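import Pool.Agent.P.MP_5f84aa_co.G.LC
import Pool.Agent.P.MP_5f84aa_co.G.LQ2
import Pool.Agent.P.MP_5f84aa_co.G.LG2a
import Pool.Agent.P.MP_5f84aa_co.G.PRc

/-! Static facts on rungs: flats, sides of a line after a contraction, objects. -/

namespace Pool.Agent.P.MP_5f84aa_co.G

namespace Map

variable {V J Sg : Type}

/-- equal, or the two cells `a` and `y` -/
def Th2 (a y u v : V) : Prop := u = v ∨ (u = a ∧ v = y) ∨ (u = y ∧ v = a)

/-- equal, or the two halves of a rung -/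
def Obj (m : Map V J Sg) (u v : V) : Prop := u = v ∨ m.Rn u v

/-- the sides of the lines after the contraction of the rung `a y` on the line `r` -/
structure Sdf (m : Map V J Sg) (a y : V) (r : Sg) (sd : V → Sg → Bool) : Prop where
  th : sd a = sd y
  opp : ∀ u v, m.Adj u v → m.ln u v ≠ r → sd u (m.ln u v) ≠ sd v (m.ln u v)
  bar : ∀ k p q e, k ≠ m.inf → m.Fc k p q e → sd p (m.bar k) = sd q (m.bar k)
  one : ∀ t u v u' v', t ≠ r → m.OnL u t → m.OnL v t → sd u t ≠ sd v t → Th2 a y u u' →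
    Th2 a y v v' → m.Adj u' v' → m.ln u' v' = t

variable {m : Map V J Sg} {ps : J → Sg → ℤ} {t r : Sg} {W : V → V → Prop} {U : Finset V}
  {sd : V → Sg → Bool} {a c e p q u u' v v' w w' x y z X : V} {d d' i i' j j' k k' k₁ k₂ k₃ o : J}

theorem Th2.symm (b : Th2 a y u v) : Th2 a y v u := by unfold Th2 at *; tauto
theorem Th2.swap (b : Th2 a y u v) : Th2 y a u v := by unfold Th2 at *; tauto
theorem Obj.symm (b : m.Obj u v) : m.Obj v u := b.imp Eq.symm Rn.symm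

theorem Sdf.swap (s : m.Sdf a y r sd) : m.Sdf y a r sd :=
  ⟨s.th.symm, s.opp, s.bar, fun t u v u' v' a b c d e f => s.one t u v u' v' a b c d e.swap f.swap⟩

theorem Sgm.onL (b : m.Sgm ps t j k u v) : m.OnL u t := ⟨v, b.1, b.2.1⟩

theorem Tc.onL (b : m.Tc j u t) : m.OnL u t := let ⟨v, d, o, l⟩ := b; ⟨v, o.adj d, l⟩

/-- the two cells of a piece lie on different sides -/
theorem Sdf.sgm (s : m.Sdf a y r sd) (n : t ≠ r) (b : m.Sgm ps t j k u v) : sd u t ≠ sd v t :=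
  b.2.1 ▸ s.opp u v b.1 (b.2.1 ▸ n)

/-- a line has at most two ends -/
theorem Ends.three [Finite J] (e : m.Ends) (a1 : k₁ ≠ m.inf) (a2 : k₂ ≠ m.inf) (a3 : k₃ ≠ m.inf)
    (b1 : m.stem k₁ = t) (b2 : m.stem k₂ = t) (b3 : m.stem k₃ = t) (d : k₁ ≠ k₂) :
    k₃ = k₁ ∨ k₃ = k₂ := by
  by_contra n
  push Not at n
  have := e t
  have := (Set.two_lt_ncard_iff (s := {j | j ≠ m.inf ∧ m.stem j = t})).2
    ⟨k₁, k₂, k₃, ⟨a1, b1⟩, ⟨a2, b2⟩, ⟨a3, b3⟩, d, n.1.symm, n.2.symm⟩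
  omega

namespace Ok

variable (h : m.Ok)
include h

theorem rc_one (f : m.far j j') (g : m.GE j a y) : m.RC {j} u v ↔ Th2 a y u v := by
  refine ⟨fun c => ?_, ?_⟩
  · induction c with
    | refl => exact .inl rfl
    | tail _ s ih =>
      obtain ⟨_, rfl, -, -, c1, c2⟩ := s
      have := g.fc.cor_iff.1 c1
      have := g.fc.cor_iff.1 c2
      unfold Th2 at *
      grind
  · rintro (rfl | ⟨rfl, rfl⟩ | ⟨rfl, rfl⟩)
    exacts [.refl, .single ⟨j, rfl, j', f, g.fc.cor1, g.fc.cor2⟩,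
      .single ⟨j, rfl, j', f, g.fc.cor2, g.fc.cor1⟩]

theorem rg_one (f : m.far j j') : m.Rg {j} k ↔ k = j ∨ k = j' :=
  ⟨by rintro ⟨_, rfl, k', f', c⟩; exact h.far_unique f f' ▸ c, fun c => ⟨j, rfl, j', f, c⟩⟩

/-- only the rung lies on its line -/
theorem rung_ln (f : m.far j j') (g : m.GE j a y) (b : m.Adj u v) (l : m.ln u v = m.stem j) :
    (u = a ∧ v = y) ∨ (u = y ∧ v = a) := by
  obtain ⟨c1, c2⟩ := h.rung j j' f u v b l
  have := g.fc.cor_iff.1 c1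
  have := g.fc.cor_iff.1 c2
  have := b.1
  grind

/-- (S2) a cell that touches both halves of a rung is flat at one of its ends -/
theorem s2 (f : m.far j j') (g : m.GE j u u') (b : m.Adj w u) (b' : m.Adj w u') :
    w = m.X j ∨ w = m.X j' := by
  have g' := h.far_ge f g
  have ne := (h.fc_ne g).1
  by_cases c : ∃ i, m.Tri i u u' w
  · obtain ⟨i, c⟩ := c
    have := b.1
    have := b'.1
    rcases h.two_faces ne g.fc.on g'.fc.on ⟨c.1, c.2.1⟩ f.1 with rfl | rfl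
    · have := g.fc.has_iff.1 c.2.2; tauto
    · have := g'.fc.has_iff.1 c.2.2; tauto
  obtain ⟨F, s, iF⟩ := h.side3 (h.adj12 g) b'.symm b
  obtain ⟨i, iF', z, -, -, t⟩ := h.side_face s (u := u) (v := u') (.inl rfl)
  obtain ⟨z, -, -, -, q⟩ := h.q3k s iF (fun i t => c ⟨i, t⟩) (.inl rfl) iF' ⟨t.1, t.2.1⟩
  rcases h.two_faces ne g.fc.on g'.fc.on ⟨t.1, t.2.1⟩ f.1 with rfl | rfl <;> rcases q with q | q
  exacts [absurd q.2.symm (h.fc_ne g).2.2, absurd q.2.symm (h.fc_ne g).2.1,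
    absurd q.2.symm (h.fc_ne g').2.2, absurd q.2.symm (h.fc_ne g').2.1]

/-- (S1) a good partner of one half does not touch the other half -/
theorem s1 (f : m.far j j') (g : m.GE j a y) (b : m.GP a x) (n : x ≠ m.X j) (n' : x ≠ m.X j') :
    ¬ m.Adj x y := fun c =>
  let ⟨_, b⟩ := b; (h.s2 f g (h.adj12 b).symm c).elim n n'

/-- (S3) the flat cell of a face has no piece on its stem -/
theorem s3 (ex : m.Ext) (ki : k ≠ m.inf) (f : m.Fc k p q X) : ¬ m.OnL X (m.stem k) := by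
  rintro ⟨w, b, l⟩
  obtain ⟨sd, s1, -, s3⟩ := ex.sides
  obtain ⟨l0, l1, l2, l3⟩ := h.lines f ki
  have e := s1 p q (h.adj12 f)
  by_cases c : sd p (m.ln p q) = sd X (m.ln p q)
  · have l0' := (h.ln_symm q p).trans l0
    exact l3 (l0'.symm.trans ((s3 q p X w (h.adj12 f).symm b (l.trans l0'.symm)
      (by rw [l0', ← l0, ← c]; exact e.symm) (h.adj23 f)).symm.trans l2))
  · exact l3 (l0.symm.trans ((s3 p q X w (h.adj12 f) b (l.trans l0.symm) c (h.adj13 f)).symm.trans l1))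

/-- (S5) two disjoint objects touch along one line -/
theorem s5 (b : m.Obj u u') (b' : m.Obj w w') (c : m.Adj u w) (c' : m.Adj u' w') (n : u ≠ w')
    (n' : u' ≠ w) : m.ln u w = m.ln u' w' := by
  have n1 := c.1
  have n2 := c'.1
  let ρ : Set J := {i | (m.cor i u ∧ m.cor i u' ∧ u ≠ u') ∨ (m.cor i w ∧ m.cor i w' ∧ w ≠ w')}
  refine h.rone ρ u u' w w' ?_ ?_ c c' fun rc => ?_
  · rcases b with rfl | ⟨i, i', f, g⟩
    exacts [.refl, .single ⟨i, .inl ⟨g.fc.cor1, g.fc.cor2, (h.fc_ne g).1⟩, i', f, g.fc.cor1, g.fc.cor2⟩]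
  · rcases b' with rfl | ⟨i, i', f, g⟩
    exacts [.refl, .single ⟨i, .inr ⟨g.fc.cor1, g.fc.cor2, (h.fc_ne g).1⟩, i', f, g.fc.cor1, g.fc.cor2⟩]
  · have : ∀ z, m.RC ρ u z → z = u ∨ z = u' := fun z rc => by
      induction rc with
      | refl => exact .inl rfl
      | tail _ s ih =>
        obtain ⟨i, ⟨c1, c2, c3⟩ | ⟨c1, c2, c3⟩, -, -, c4, c5⟩ := s
        · exact (h.ge_of_cor c1 c2 c3).fc.cor_iff.1 c5
        · have := (h.ge_of_cor c1 c2 c3).fc.cor_iff.1 c4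
          grind
    rcases this w rc with e | e
    exacts [n1 e.symm, n' e.symm]

/-- a bounded cell has a corner on each of its lines -/
theorem cor_on [Finite J] (bz : m.Bd z) (b : m.OnL z t) : ∃ k, m.cor k z ∧ m.hug k t := by
  by_contra n
  push Not at n
  have key : ∀ w i, z ≠ w → m.On i z w → m.ln z w = t → m.X i = z ∧ m.bar i = t := fun w i d o l => by
    have ii := bz.ne_inf o.1
    have e : m.X i = z := by
      rcases o.1 with e | e | e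
      exacts [absurd (l ▸ h.hug_on ii o d) (n i (.inl e)), absurd (l ▸ h.hug_on ii o d) (n i (.inr e)),
        e.symm]
    rcases h.piece ii o d with ⟨f, -⟩ | ⟨-, l'⟩
    exacts [absurd e.symm (h.fc_ne f).2.1, ⟨e, l'.symm.trans l⟩]
  obtain ⟨w, ⟨d, i, o⟩, l⟩ := b
  obtain ⟨k, -, -, c⟩ := h.corner_ne bz i i
  have := h.lk0 (F := {i | m.X i = z ∧ m.bar i = t}) (v := z) (by
    rintro w ⟨d, i, i', o, o', ⟨e, l⟩, q⟩
    rcases h.piece (bz.ne_inf o.1) o d with ⟨f, -⟩ | ⟨-, l'⟩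
    exacts [(h.fc_ne f).2.1 e.symm, q (key w i' d o' (l'.trans l))]) o.1 c.has (key w i d o l)
  obtain ⟨y, f⟩ := c.ge
  exact (h.fc_ne f).2.1 this.1.symm

/-- three corners of the union of the two halves of a rung on one line are not different -/
theorem th_two [Finite J] (f : m.far j j') (g : m.GE j a y) (a1 : k₁ ≠ m.inf) (a2 : k₂ ≠ m.inf)
    (a3 : k₃ ≠ m.inf) (b1 : k₁ ≠ j ∧ k₁ ≠ j') (b2 : k₂ ≠ j ∧ k₂ ≠ j') (b3 : k₃ ≠ j ∧ k₃ ≠ j')
    (c1 : m.cor k₁ a ∨ m.cor k₁ y) (c2 : m.cor k₂ a ∨ m.cor k₂ y) (c3 : m.cor k₃ a ∨ m.cor k₃ y)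
    (g1 : m.hug k₁ t) (g2 : m.hug k₂ t) (g3 : m.hug k₃ t) (d : k₁ ≠ k₂) : k₃ = k₁ ∨ k₃ = k₂ := by
  have key : ∀ k, k ≠ m.inf → k ≠ j ∧ k ≠ j' → m.cor k a ∨ m.cor k y → m.hug k t → k ≠ m.inf ∧
      ¬ m.Rg {j} k ∧ (∃ w, m.RC {j} a w ∧ m.cor k w) ∧ m.hug k t := fun k a b c g' =>
    ⟨a, fun q => ((h.rg_one f).1 q).elim b.1 b.2, c.elim (fun c => ⟨_, .refl, c⟩)
      fun c => ⟨_, (h.rc_one f g).2 (.inr (.inl ⟨rfl, rfl⟩)), c⟩, g'⟩
  exact h.ra_two (key _ a1 b1 c1 g1) (key _ a2 b2 c2 g2) (key _ a3 b3 c3 g3) d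

/-- (S7) a line that carries pieces of both halves of a rung is the bar of one of its ends -/
theorem s7 [Finite V] [Finite J] (f : m.far j j') (g : m.GE j u u') (bu : m.Bd u) (bu' : m.Bd u')
    (b : m.OnL u t) (b' : m.OnL u' t) (n : t ≠ m.stem j) : t = m.bar j ∨ t = m.bar j' := by
  by_contra q
  push Not at q
  obtain ⟨k₁, c1, g1⟩ := h.cor_on bu b
  obtain ⟨k₂, d, c2, g2⟩ := h.ra_sec bu c1 g1
  obtain ⟨k₃, c3, g3⟩ := h.cor_on bu' b'
  have key : ∀ k, m.hug k t → k ≠ j ∧ k ≠ j' := fun k c => ⟨by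
    rintro rfl; exact c.elim n.symm q.1.symm, by
    rintro rfl; exact c.elim (h.far_stem f ▸ n.symm) q.2.symm⟩
  have two : ∀ k, m.cor k u → m.cor k u' → ¬ m.hug k t := fun k c c' e =>
    (h.two_faces (h.fc_ne g).1 g.fc.on (h.far_ge f g).fc.on ⟨c.has, c'.has⟩ f.1).elim (key k e).1
      (key k e).2
  rcases h.th_two f g (bu.ne_inf c1.has) (bu.ne_inf c2.has) (bu'.ne_inf c3.has) (key _ g1) (key _ g2)
    (key _ g3) (.inl c1) (.inl c2) (.inr c3) g1 g2 g3 d.symm with rfl | rfl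
  exacts [two _ c1 c3 g1, two _ c2 c3 g2]

/-- (S6) three corners that lie pairwise on three lines are all the corners -/
theorem s6 [Finite J] {t₁ t₂ t₃ : Sg} (bz : m.Bd z) (c1 : m.cor k₁ z)
    (c2 : m.cor k₂ z) (c3 : m.cor k₃ z) (d12 : k₁ ≠ k₂) (d13 : k₁ ≠ k₃) (d23 : k₂ ≠ k₃)
    (e12 : t₁ ≠ t₂) (e13 : t₁ ≠ t₃) (e23 : t₂ ≠ t₃) (h12 : m.hug k₁ t₂) (h13 : m.hug k₁ t₃)
    (h21 : m.hug k₂ t₁) (h23 : m.hug k₂ t₃) (h31 : m.hug k₃ t₁) (h32 : m.hug k₃ t₂)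
    (c : m.cor k z) : k = k₁ ∨ k = k₂ ∨ k = k₃ := by
  rcases h.tri_close bz c1 c2 c3 d12 d13 d23 e12 e13 e23 h12 h13 h21 h23 h31 h32 c.has with
    e | e | e | e
  exacts [.inl e, .inr (.inl e), .inr (.inr e),
    let ⟨_, f⟩ := c.ge; absurd e.1.symm (h.fc_ne f).2.1]

end Ok

/-- (SD) the sides of the lines after the contraction of a rung -/
theorem Ok3.sdf (H : m.Ok3) (f : m.far j j') (g : m.GE j a y) : ∃ sd, m.Sdf a y (m.stem j) sd := by
  have h := H.ok.toOk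
  obtain ⟨V', J', _, _, m', π, ι, H', c⟩ := H.contr {j}
  obtain ⟨sd, s1, s2, s3⟩ := H'.ok.sides
  have eq : ∀ u v, π u = π v ↔ Th2 a y u v := fun u v => (c.eq u v).trans (h.rc_one f g)
  have l0 := (h.lines g f.2.1).1
  have ad : ∀ u v, m.Adj u v → m.ln u v ≠ m.stem j →
      m'.Adj (π u) (π v) ∧ m'.ln (π u) (π v) = m.ln u v := fun u v b n => c.adj u v b fun e => by
    rcases (eq u v).1 e with rfl | ⟨rfl, rfl⟩ | ⟨rfl, rfl⟩
    exacts [b.1 rfl, n l0, n ((h.ln_symm _ _).trans l0)]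
  refine ⟨fun u t => sd (π u) t, by rw [(eq a y).2 (.inr (.inl ⟨rfl, rfl⟩))], fun u v b n => ?_,
    fun k p q e ki fk => ?_, ?_⟩
  · obtain ⟨b', l⟩ := ad u v b n
    exact l ▸ s1 _ _ b'
  · suffices sd (π (m.L k)) (m.bar k) = sd (π (m.R k)) (m.bar k) by
      rcases fk.1 with ⟨rfl, rfl⟩ | ⟨rfl, rfl⟩
      exacts [this, this.symm]
    by_cases q : m.Rg {j} k
    · have : m.GE k a y := by
        rcases (h.rg_one f).1 q with rfl | rfl
        exacts [g, h.far_ge f g]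
      rw [(eq _ _).2 (show Th2 a y (m.L k) (m.R k) from .inr (this.1.imp id id))]
    · obtain ⟨k', rfl⟩ := (c.rng k).2 q
      rw [← c.L, ← c.R, ← c.bar]
      exact s2 k' fun e => ki (e ▸ c.inf)
  · rintro t u v u' v' n ⟨w, b, rfl⟩ ⟨w', b', l⟩ e p q b''
    obtain ⟨a1, a2⟩ := ad u w b n
    obtain ⟨a3, a4⟩ := ad v w' b' (l ▸ n)
    have e1 := (eq _ _).2 p
    have e2 := (eq _ _).2 q
    obtain ⟨a5, a6⟩ := c.adj u' v' b'' fun e' => e (by rw [e1, e2, e'])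
    rw [← a6, ← a2, ← e1, ← e2]
    exact s3 _ _ _ _ a1 a3 (a4.trans (l.trans a2.symm)) (a2 ▸ e) (e1 ▸ e2 ▸ a5)

/-- (OBJ) an object that touches a line on both sides of an open face contains its flat cell -/
theorem HSt.obj [Finite V] [Finite J] (h : m.Ok) (r : m.Ord ps) (s : m.HSt U W) (f : m.far d d')
    (g : m.GE d u u') (so : m.Sol W d) (so' : m.Sol W d') (a1 : i ≠ m.inf) (a2 : o ≠ m.inf)
    (a3 : k ≠ m.inf) (c : m.Tc i u t) (c' : m.Tc k u' t) (go : m.hug o t) (op : ¬ m.Sol W o)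
    (b : Bt ps t i o k) : m.X o = u ∨ m.X o = u' := by
  have w := (s.sol_w h so g).1
  have br := r.bar_of_bt a1 a2 a3 (Ok.Tc.hug h a1 c) go (Ok.Tc.hug h a3 c') b
  have key : ∀ d, m.GE d u u' → m.Sol W d → t = m.bar d → m.X o = u ∨ m.X o = u' := fun d g so e => by
    have di := s.sol_inf h so
    have n := mt (r.inj t d o di a2 (.inr e.symm) go) fun q => op (q ▸ so)
    by_cases q : Bt ps t d o k
    · exact .inr (r.flat di a2 a3 (e ▸ h.tc_bar di g.fc.has2) go c' q)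
    · exact .inl (r.flat a1 a2 di c go (e ▸ h.tc_bar di g.fc.has1) (by unfold Bt at *; omega))
  rcases h.s7 f g (s.bd1 w) (s.bd2 w) c.onL c'.onL
    (fun e => h.far_not_bar f a2 (e.symm.trans br.symm)) with e | e
  exacts [key d g so e, key d' (h.far_ge f g) so' e]

end Map

end Pool.Agent.P.MP_5f84aa_co.G
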