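import Pool.Agent.P.MP_5f84aa_co.G.LQ2
import Pool.Agent.P.MP_5f84aa_co.G.LHs

/-! Type GR: the hole inside the cycle of three objects. -/

namespace Pool.Agent.P.MP_5f84aa_co.G

/-- the edges of a pentagon some of whose sides may be degenerate -/
def Ed {V : Type} (a b c d e u v : V) : Prop := u ≠ v ∧ E5 a b c d e u v

namespace Map

variable {V J Sg : Type} (m : Map V J Sg)

/-- the face `j` has exactly one cell in each of the two pairs -/
def Bi (a a' b b' : V) (j : J) : Prop := ∃ s t w, (s = a ∨ s = a') ∧ (t = b ∨ t = b') ∧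
  (w ≠ a ∧ w ≠ a' ∧ w ≠ b ∧ w ≠ b') ∧ m.Tri j s t w

/-- three objects in a cycle: `v`, `v'`, the rung between `a` and `y`, and the partner `x` of `a` -/
structure Cyc (U : Finset V) (W : V → V → Prop) (a x y v v' p q z : V) (e e' : J) : Prop where
  rn : m.Rn a y
  gx : m.GP a x
  wx : W a x
  wy : W a y
  xy : x ≠ y
  nxy : ¬ m.Adj x y
  ob : m.Obj v v'
  nv : v ≠ a ∧ v ≠ y ∧ v ≠ x
  nv' : v' ≠ a ∧ v' ≠ y ∧ v' ≠ x
  hp : p = v ∨ p = v'
  hq : q = v ∨ q = v'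
  hz : z = a ∨ z = y
  ge : m.GE e p z
  ge' : m.GE e' q x
  w : W p z
  w' : W q x

variable {m} {ps : J → Sg → ℤ} {t : Sg} {U : Finset V} {W : V → V → Prop} {F : Set J}
  {a a' b b' p q s s' u v v' w x y z : V} {e e' i j k o : J}

theorem Ok.rn_ge (h : m.Ok) (r : m.Rn u v) (o : m.On k u v) : m.GE k u v := by
  obtain ⟨j, j', r, g⟩ := r
  rcases h.two_faces (h.fc_ne g).1 g.fc.on (h.far_ge r g).fc.on o r.1 with rfl | rfl
  exacts [g, h.far_ge r g]

/-- two cells of an object on a face are its corners -/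
theorem Ok.obj_cor (h : m.Ok) (r : m.Obj u v) (a1 : s = u ∨ s = v) (a2 : s' = u ∨ s' = v) (d : s ≠ s')
    (o : m.On k s s') : m.cor k s ∧ m.cor k s' := by
  have ne : u ≠ v := by grind
  have g := h.rn_ge (r.resolve_left ne) (k := k) (by unfold On at *; grind)
  exact ⟨g.fc.cor_iff.2 a1, g.fc.cor_iff.2 a2⟩

/-- two objects have at most two faces with one cell in each of them -/
theorem Ok3.bi_two (H : m.Ok3) (r : m.Obj a a') (r' : m.Obj b b')
    (n : a ≠ b ∧ a ≠ b' ∧ a' ≠ b ∧ a' ≠ b') (c : m.Bi a a' b b' i) (c' : m.Bi a a' b b' j)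
    (c'' : m.Bi a a' b b' k) (d : i ≠ j) : k = i ∨ k = j := by
  have h := H.ok.toOk
  obtain ⟨V', J', -, -, m', π, ι, H', C⟩ := H.contr {k | m.GE k a a' ∨ m.GE k b b'}
  have e1 : π a' = π a := ((C.eq _ _).2 (r.elim (fun e => e ▸ .refl)
    fun ⟨j, j', f, g⟩ => .single ⟨j, .inl g, j', f, g.fc.cor1, g.fc.cor2⟩)).symm
  have e2 : π b' = π b := ((C.eq _ _).2 (r'.elim (fun e => e ▸ .refl)
    fun ⟨j, j', f, g⟩ => .single ⟨j, .inr g, j', f, g.fc.cor1, g.fc.cor2⟩)).symm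
  have ne : π a ≠ π b := fun e => by
    have key : ∀ u, m.RC {k | m.GE k a a' ∨ m.GE k b b'} a u → u = a ∨ u = a' := fun u c => by
      induction c with
      | refl => exact .inl rfl
      | tail _ s ih =>
        obtain ⟨j, g | g, -, -, c1, c2⟩ := s
        · exact g.fc.cor_iff.1 c2
        · have := g.fc.cor_iff.1 c1
          grind
    have := key b ((C.eq _ _).1 e)
    grind
  have key : ∀ j, m.Bi a a' b b' j → ∃ j', ι j' = j ∧ m'.On j' (π a) (π b) := by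
    rintro j ⟨s, t, w, a1, a2, a3, tr⟩
    obtain ⟨j', rfl⟩ := (C.rng j).2 (by
      rintro ⟨l, g, l', f, e⟩
      have g' : m.GE j a a' ∨ m.GE j b b' := by
        rcases e with rfl | rfl
        exacts [g, g.imp (h.far_ge f) (h.far_ge f)]
      rcases g' with g' | g'
      · have := g'.fc.has_iff.1 tr.2.1; have := g'.fc.has_iff.1 tr.2.2
        grind
      · have := g'.fc.has_iff.1 tr.1; have := g'.fc.has_iff.1 tr.2.2
        grind)
    have hs : ∀ u, m.has (ι j') u → m'.has j' (π u) := fun u c => by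
      unfold has
      rw [C.L, C.R, C.X]
      rcases c with rfl | rfl | rfl <;> simp
    have := hs _ tr.1
    have := hs _ tr.2.1
    refine ⟨j', rfl, ?_, ?_⟩ <;> grind
  obtain ⟨i', rfl, o1⟩ := key _ c
  obtain ⟨j', rfl, o2⟩ := key _ c'
  obtain ⟨k', rfl, o3⟩ := key _ c''
  exact (H'.ok.toOk.two_faces ne o1 o2 o3 fun e => d (e ▸ rfl)).imp (congrArg ι) (congrArg ι)

/-- a face with corners in two objects -/
theorem Ok.bi_of_ge (h : m.Ok) (r : m.Obj a a') (r' : m.Obj b b') (a1 : s = a ∨ s = a')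
    (a2 : u = b ∨ u = b') (g : m.GE k s u) :
    m.X k ≠ a ∧ m.X k ≠ a' ∧ m.X k ≠ b ∧ m.X k ≠ b' := by
  obtain ⟨-, n2, n3⟩ := h.fc_ne g.fc
  have c1 := fun q => (h.obj_cor r a1 q n2 ⟨g.fc.has1, g.fc.has3⟩).2
  have c2 := fun q => (h.obj_cor r' a2 q n3 ⟨g.fc.has2, g.fc.has3⟩).2
  have := g.fc.cor_iff (w := m.X k)
  grind

namespace Cyc

variable (C : m.Cyc U W a x y v v' p q z e e')
include C

theorem wq (st : m.HSt U W) (d : q ≠ p) : W q p := by
  have ne : v ≠ v' := by have := C.hp; have := C.hq; grind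
  obtain ⟨j, j', r, g⟩ := C.ob.resolve_left ne
  have a1 := st.mem _ _ C.w
  have a2 := st.mem _ _ C.w'
  have := g.fc.1
  have := st.rg j j' r (by have := C.hp; have := C.hq; grind) (by have := C.hp; have := C.hq; grind)
  have := st.sym _ _ this
  have := C.hp; have := C.hq
  grind

theorem side (h : m.Ok) (st : m.HSt U W) :
    ∃ F, m.Side (Ed p z a x q) F ∧ m.inf ∉ F ∧ ∀ j ∈ F, m.Sol W j := by
  have n1 : p ≠ a ∧ p ≠ y ∧ p ≠ x := by have := C.hp; have := C.nv; have := C.nv'; grind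
  have n2 : q ≠ a ∧ q ≠ y ∧ q ≠ x := by have := C.hq; have := C.nv; have := C.nv'; grind
  have ax := st.ne C.wx
  have ay := st.ne C.wy
  have xy := C.xy
  have w1 := C.w
  have w4 := st.sym _ _ C.w'
  have wy := st.sym _ _ C.wy
  suffices ∃ F, m.Side (Ed p z a x q) F ∧ m.inf ∉ F from
    let ⟨F, a, b⟩ := this; ⟨F, a, b, st.side_sol a b fun u v ⟨d, E⟩ => by
      have key : ∀ s s', (s ≠ s' → W s s') → s(u, v) = s(s, s') → W u v := fun s s' w e => by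
        rcases Sym2.eq_iff.1 e with ⟨rfl, rfl⟩ | ⟨rfl, rfl⟩
        exacts [w d, st.sym _ _ (w d.symm)]
      rcases E with E | E | E | E | E
      exacts [key _ _ (fun _ => w1) E, key _ _ (fun n => C.hz.resolve_left n ▸ wy) E,
        key _ _ (fun _ => C.wx) E, key _ _ (fun _ => w4) E, key _ _ (C.wq st) E]⟩
  by_cases d : q = p <;> rcases C.hz with rfl | rfl
  · subst d
    obtain ⟨F, s, i⟩ := h.side3 (st.adj _ _ w1) (st.adj _ _ C.wx) (st.adj _ _ w4)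
    exact ⟨F, s.congr fun u v => by simp only [Ed, E3, E5, Sym2.eq_iff]; grind, i⟩
  · subst d
    obtain ⟨F, s, i⟩ := h.side4 (st.adj _ _ w1) (st.adj _ _ wy) (st.adj _ _ C.wx) (st.adj _ _ w4)
      n1.1 xy.symm
    exact ⟨F, s.congr fun u v => by simp only [Ed, E4, E5, Sym2.eq_iff]; grind, i⟩
  · obtain ⟨F, s, i⟩ := h.side4 (st.adj _ _ w1) (st.adj _ _ C.wx) (st.adj _ _ w4)
      (st.adj _ _ (C.wq st d)) n1.2.2 n2.1.symm
    exact ⟨F, s.congr fun u v => by simp only [Ed, E4, E5, Sym2.eq_iff]; grind, i⟩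
  · obtain ⟨F, s, i⟩ := h.side5 (st.adj _ _ w1) (st.adj _ _ wy) (st.adj _ _ C.wx) (st.adj _ _ w4)
      (st.adj _ _ (C.wq st d)) n1.1 n1.2.2 xy.symm n2.2.1.symm n2.1.symm
    exact ⟨F, s.congr fun u v => by simp only [Ed, E5, Sym2.eq_iff]; grind, i⟩

/-- a cell inside the cycle needs a convex face between any two of the objects -/
theorem core (H : m.Ok3) (sd : m.Side (Ed p z a x q) F) (iF : m.inf ∉ F) (jF : j ∈ F)
    (c : m.has j w) (n : w ≠ v ∧ w ≠ v' ∧ w ≠ a ∧ w ≠ y ∧ w ≠ x) :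
    (∃ k ∈ F, k ≠ e ∧ m.Bi v v' a y k) ∧ ∃ k ∈ F, k ≠ e' ∧ m.Bi v v' x x k := by
  have h := H.ok.toOk
  have hp := C.hp; have hq := C.hq; have hz := C.hz
  have nv := C.nv; have nv' := C.nv'
  obtain ⟨κ, gκ⟩ := C.gx
  have ax := (h.fc_ne gκ.fc).1
  have xy := C.xy
  have oθ : m.Obj a y := .inr C.rn
  have ox : m.Obj x x := .inl rfl
  have hE : ∀ u u', Ed p z a x q u u' → u ∈ ({v, v', a, y, x} : Set V) := fun u u' => by
    simp only [Ed, E5, Sym2.eq_iff, Set.mem_insert_iff, Set.mem_singleton_iff]; grind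
  have wn : w ∉ ({v, v', a, y, x} : Set V) := by simpa using n
  obtain ⟨j₁, j₂, j₃, b1, b2, b3, K⟩ := h.hole_cl (h.cl_side sd hE) ⟨w, wn, j, jF, c⟩
    fun u hu => h.bd_side sd iF (fun w n => hu.1 (hE _ _ n)) hu.2
  have K' : ∀ i, i = j₁ ∨ i = j₂ ∨ i = j₃ → i ∈ F ∧ ((i ≠ e ∧ m.Bi v v' a y i) ∨
      (i ≠ e' ∧ m.Bi v v' x x i) ∨ (i ≠ κ ∧ m.Bi a y x x i)) := by
    intro i hi
    obtain ⟨u, s, s', f, hu, h1, h2⟩ := K i hi
    refine ⟨(h.sd_iff sd (fun w n => hu.1 (hE _ _ n)) f.has1).1 hu.2, ?_⟩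
    have un := hu.1
    simp only [Set.mem_insert_iff, Set.mem_singleton_iff, not_or] at un h1 h2
    obtain ⟨-, n2, n3⟩ := h.fc_ne f
    have nc : ¬ m.cor i s' := fun q => (f.cor_iff.1 q).elim n2.symm n3.symm
    have on : m.On i s s' := ⟨f.has2, f.has3⟩
    have c1 := fun a1 a2 => nc (h.obj_cor C.ob a1 a2 n3 on).2
    have c2 := fun a1 a2 => nc (h.obj_cor oθ a1 a2 n3 on).2
    have c3 : ¬ m.On i x y := fun q => C.nxy (q.adj xy)
    have d1 : i ≠ e := fun q => by have := (q ▸ C.ge).fc.cor_iff.1 f.cor1; grind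
    have d2 : i ≠ e' := fun q => by have := (q ▸ C.ge').fc.cor_iff.1 f.cor1; grind
    have d3 : i ≠ κ := fun q => by have := (q ▸ gκ).fc.cor_iff.1 f.cor1; grind
    have t1 : m.Tri i s s' u := ⟨f.has2, f.has3, f.has1⟩
    have t2 : m.Tri i s' s u := ⟨f.has3, f.has2, f.has1⟩
    obtain ⟨u1, u2, u3, u4, u5⟩ := un
    have key : ∀ s s', (s' = v ∨ s' = v' ∨ s' = a ∨ s' = y ∨ s' = x) → m.Tri i s s' u →
        (s = v ∨ s = v') → ¬ (s' = v ∨ s' = v') → (i ≠ e ∧ m.Bi v v' a y i) ∨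
        (i ≠ e' ∧ m.Bi v v' x x i) ∨ (i ≠ κ ∧ m.Bi a y x x i) := by
      rintro s s' (q | q | q | q | q) t a1 a2
      exacts [absurd (.inl q) a2, absurd (.inr q) a2,
        .inl ⟨d1, s, s', u, a1, .inl q, ⟨u1, u2, u3, u4⟩, t⟩,
        .inl ⟨d1, s, s', u, a1, .inr q, ⟨u1, u2, u3, u4⟩, t⟩,
        .inr (.inl ⟨d2, s, s', u, a1, .inl q, ⟨u1, u2, u5, u5⟩, t⟩)]
    by_cases a1 : s = v ∨ s = v'
    · exact key s s' h2 t1 a1 (c1 a1)
    by_cases a2 : s' = v ∨ s' = v'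
    · exact key s' s h1 t2 a2 a1
    clear key K hu hE sd
    by_cases a3 : s = a ∨ s = y
    · exact .inr (.inr ⟨d3, s, s', u, a3, .inl (by grind), ⟨u3, u4, u5, u5⟩, t1⟩)
    · exact .inr (.inr ⟨d3, s', s, u, by grind, .inl (by grind), ⟨u3, u4, u5, u5⟩, t2⟩)
  have u1 := fun i k c c' d => (H.bi_two C.ob oθ ⟨nv.1, nv.2.1, nv'.1, nv'.2.1⟩ 
    (i := e) (j := i) (k := k)
    ⟨p, z, _, hp, hz, h.bi_of_ge C.ob oθ hp hz C.ge, C.ge.fc.tri⟩ c c' d)
  have u2 := fun i k c c' d => (H.bi_two C.ob ox ⟨nv.2.2, nv.2.2, nv'.2.2, nv'.2.2⟩ 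
    (i := e') (j := i) (k := k)
    ⟨q, x, _, hq, .inl rfl, h.bi_of_ge C.ob ox hq (.inl rfl) C.ge', C.ge'.fc.tri⟩ c c' d)
  have u3 := fun i k c c' d => (H.bi_two oθ ox ⟨ax, ax, xy.symm, xy.symm⟩ (i := κ) (j := i) (k := k)
    ⟨a, x, _, .inl rfl, .inl rfl, h.bi_of_ge oθ ox (.inl rfl) (.inl rfl) gκ, gκ.fc.tri⟩ c c' d)
  obtain ⟨f1, k1⟩ := K' j₁ (by simp)
  obtain ⟨f2, k2⟩ := K' j₂ (by simp)
  obtain ⟨f3, k3⟩ := K' j₃ (by simp)
  have := u1 j₁ j₂; have := u1 j₁ j₃; have := u1 j₂ j₃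
  have := u2 j₁ j₂; have := u2 j₁ j₃; have := u2 j₂ j₃
  have := u3 j₁ j₂; have := u3 j₁ j₃; have := u3 j₂ j₃
  clear u1 u2 u3 K K' hE
  constructor <;> by_contra q <;> simp only [not_exists, not_and] at q <;>
  · have := q j₁ f1; have := q j₂ f2; have := q j₃ f3
    grind

/-- the rungs of the cycle do not lie on a line with a piece that leaves them -/
theorem off (h : m.Ok) (b : m.Sgm ps t o k s s') (n : s ≠ v ∧ s ≠ v') (b' : m.Sgm ps t o k u w)
    (n' : u ≠ a ∧ u ≠ y) : ¬ m.Sgm ps t o k a y ∧ (p ≠ q → ¬ m.Sgm ps t o k p q) := by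
  refine ⟨fun c => ?_, fun d c => ?_⟩
  · obtain ⟨j, j', r, g⟩ := C.rn
    have := g.fc.cor_iff.1 (h.rung j j' r u w b'.1
      (b'.2.1.trans (c.2.1.symm.trans (h.lines g.fc r.2.1).1))).1
    tauto
  · have hp := C.hp; have hq := C.hq
    obtain ⟨j, j', r, g⟩ := C.ob.resolve_left (by grind)
    have l : m.ln p q = m.stem j := by
      have := (h.lines g.fc r.2.1).1
      have := (h.lines g.fc.symm r.2.1).1
      grind
    have := g.fc.cor_iff.1 (h.rung j j' r s s' b.1 (b.2.1.trans (c.2.1.symm.trans l))).1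
    tauto

variable (H : m.Ok3) (st : m.HSt U W) (g : m.Ord ps)
include H st g

/-- (HOLE) the run ends at the corner `e` of `p` and of the half `z` of the rung -/
theorem hole (c : m.Wk ps W t o e) (op : ¬ m.Sol W o)
    (hs : ∀ s u, s = v ∨ s = v' → u = a ∨ u = y → m.Adj s u → m.Sgm ps t o e s u)
    (n1 : ¬ m.Sgm ps t o e a x) (n2 : ¬ m.Sgm ps t o e q x) : m.X e = x ∧ z = a := by
  have h := H.ok.toOk
  have hp := C.hp; have hz := C.hz; have nv := C.nv; have nv' := C.nv'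
  obtain ⟨F, sd, iF, so⟩ := C.side h st
  have b := hs p z hp hz (st.adj _ _ C.w)
  obtain ⟨n3, n4⟩ := C.off h (b.symm h) (by grind) b (by grind)
  have ou : ∀ u w, m.Sgm ps t o e u w → ∀ n, m.On n u w → n ≠ e → m.Ou W (Ed p z a x q) n :=
    fun u w b n => st.ou_lst h g c (.op op) (fun u w b E => by
      have := b.symm h
      have := C.ge.fc.on
      have := C.ge.fc.on.symm
      simp only [Ed, E5, Sym2.eq_iff] at E
      grind) b
  obtain ⟨i, d, on, -⟩ := h.other C.ge.fc.on (st.ne C.w)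
  have eF := HSt.inner h sd so ⟨st.ne C.w, .inl rfl⟩ C.ge.fc.on on d (ou _ _ b i on d)
  have x1 := h.bi_of_ge C.ob (.inr C.rn) hp hz C.ge
  have e1 : m.X e = x := by
    by_contra n
    obtain ⟨k, kF, d, s, u, _, a1, a2, -, tr⟩ :=
      (C.core H sd iF eF C.ge.fc.has3 ⟨x1.1, x1.2.1, x1.2.2.1, x1.2.2.2, n⟩).1
    exact ou s u (hs s u a1 a2 (On.adj ⟨tr.1, tr.2.1⟩ (by grind))) k ⟨tr.1, tr.2.1⟩ d F sd so kF
  exact ⟨e1, hz.resolve_right fun q => C.nxy (q ▸ e1 ▸ (h.adj23 C.ge.fc).symm)⟩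

/-- (HOLE, mirror) the run ends at the corner `e'` of `q` and `x` -/
theorem hole' (c : m.Wk ps W t o e') (op : ¬ m.Sol W o)
    (hs : ∀ s, s = v ∨ s = v' → m.Adj s x → m.Sgm ps t o e' s x)
    (n1 : ¬ m.Sgm ps t o e' a x) (n2 : ¬ m.Sgm ps t o e' p z) : m.X e' = a := by
  have h := H.ok.toOk
  have hq := C.hq; have hz := C.hz; have nv := C.nv; have nv' := C.nv'
  obtain ⟨F, sd, iF, so⟩ := C.side h st
  have b := hs q hq (st.adj _ _ C.w')
  obtain ⟨n3, n4⟩ := C.off h (b.symm h) (by grind) b (by grind)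
  have ou : ∀ u w, m.Sgm ps t o e' u w → ∀ n, m.On n u w → n ≠ e' → m.Ou W (Ed p z a x q) n :=
    fun u w b n => st.ou_lst h g c (.op op) (fun u w b E => by
      have := b.symm h
      have := C.ge'.fc.on
      have := C.ge'.fc.on.symm
      simp only [Ed, E5, Sym2.eq_iff] at E
      grind) b
  obtain ⟨i, d, on, -⟩ := h.other C.ge'.fc.on (st.ne C.w')
  have eF := HSt.inner h sd so ⟨st.ne C.w', .inr (.inr (.inr (.inl Sym2.eq_swap)))⟩ C.ge'.fc.on on d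
    (ou _ _ b i on d)
  have x1 := h.bi_of_ge C.ob (.inl rfl) hq (.inl rfl) C.ge'
  by_contra n
  have n' : m.X e' ≠ y := fun q => C.nxy (q ▸ h.adj23 C.ge'.fc)
  obtain ⟨k, kF, d, s, u, _, a1, a2, -, tr⟩ :=
    (C.core H sd iF eF C.ge'.fc.has3 ⟨x1.1, x1.2.1, n, n', x1.2.2.1⟩).2
  obtain rfl : u = x := a2.elim id id
  exact ou s u (hs s a1 (On.adj ⟨tr.1, tr.2.1⟩ (by grind))) k ⟨tr.1, tr.2.1⟩ d F sd so kF

end Cyc

end Map

end Pool.Agent.P.MP_5f84aa_co.G
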