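import Pool.Agent.P.MP_5f84aa_co.G.LQ2
import Pool.Agent.P.MP_5f84aa_co.G.PG3

/-! Type GR with one open end of the rung, part a: lines that come from open faces. -/

namespace Pool.Agent.P.MP_5f84aa_co.G

namespace Map

variable {V J Sg : Type}

/-- a confined state without cuts; the rung `a y` has the solid end `g` and the open end `g'` -/
structure Ez [DecidableEq V] (m : Map V J Sg) (ps : J → Sg → ℤ) (T : Set Sg) (N : V → Prop)
    (U : Finset V) (W : V → V → Prop) (μ : V → ℕ) (a x y : V) (g g' : J) : Prop where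
  L : m.Loc T N U W μ a x y
  ok : m.Ok
  ord : m.Ord ps
  nc : m.NoCut ps W
  se : ∀ v, m.Sect W v
  r1 : ∀ b u v, N b → N u → N v → m.Rn b u → m.Rn b v → u = v
  far : m.far g g'
  f : m.GE g a y
  so : m.Sol W g
  op : ¬ m.Sol W g'
  xg : x ≠ m.X g
  xg' : x ≠ m.X g'

variable {m : Map V J Sg} {ps : J → Sg → ℤ} {t : Sg} {T : Set Sg} {N : V → Prop} {μ : V → ℕ}
  {W : V → V → Prop} {U : Finset V} {a d p q u v w x y z θ X s u₀ v₀ : V} {i j j' k k' g g' : J}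

/-- the faces on a rung -/
theorem Ok.rung_face (h : m.Ok) (r : m.far j j') (f : m.GE j u v) (o : m.On k u v) : k = j ∨ k = j' :=
  h.two_faces (h.fc_ne f.fc).1 f.fc.on (h.far_ge r f).fc.on o r.1

/-- the common neighbours of the two cells of a rung -/
theorem Ok.rung_adj (h : m.Ok) (r : m.far j j') (f : m.GE j u v) (a : m.Adj w u) (b : m.Adj w v) :
    w = m.X j ∨ w = m.X j' := by
  have f' := h.far_ge r f
  by_cases c : ∃ i, m.Tri i u v w
  · obtain ⟨i, c⟩ := c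
    have := a.1; have := b.1
    rcases h.rung_face r f ⟨c.1, c.2.1⟩ with rfl | rfl
    · have := f.fc.has_iff.1 c.2.2; tauto
    · have := f'.fc.has_iff.1 c.2.2; tauto
  obtain ⟨F, sd, iF⟩ := h.side3 (h.adj12 f.fc) b.symm a
  obtain ⟨i, iF', z, -, -, o⟩ := h.side_face sd (u := u) (v := v) (.inl rfl)
  obtain ⟨z, -, -, -, e⟩ := h.q3k sd iF (fun i q => c ⟨i, q⟩) (.inl rfl) iF' ⟨o.1, o.2.1⟩
  have := h.fc_ne f.fc; have := h.fc_ne f'.fc
  rcases h.rung_face r f ⟨o.1, o.2.1⟩ with rfl | rfl <;> rcases e with e | e <;>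
    have := e.2 <;> tauto

namespace Ez

variable [DecidableEq V] (G : m.Ez ps T N U W μ a x y g g')
include G

theorem st : m.HSt U W := G.L.st
theorem f' : m.GE g' a y := G.ok.far_ge G.far G.f
theorem ba : m.Bdy W a := ⟨g', G.f'.fc.has1, G.op⟩
theorem by' : m.Bdy W y := ⟨g', G.f'.fc.has2, G.op⟩
theorem bt (c : θ = a ∨ θ = y) : m.Bdy W θ := by rcases c with rfl | rfl; exacts [G.ba, G.by']

theorem nxy : ¬ m.Adj x y := fun q =>
  (G.ok.rung_adj G.far G.f (G.st.adj _ _ G.L.wx).symm q).elim G.xg G.xg'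

theorem sg : m.Sf W g a ∨ m.Sf W g y :=
  G.st.sf_open G.ok G.f.fc G.L.wy fun _ r => G.ok.far_unique G.far r ▸ G.op

/-- a near cell has only one rung -/
theorem nr (r : m.far j j') (f : m.GE j w d) (f' : m.Fc k w p X) (nw : m.Fe T W 8 w)
    (nd : m.Fe T W 8 d) (np : m.Fe T W 8 p) (c : k ≠ j) (c' : k ≠ j') (i : J) : ¬ m.far k i := fun q => by
  obtain rfl := G.r1 w p d (G.L.near _ nw) (G.L.near _ np) (G.L.near _ nd) ⟨k, i, q, f'.ge⟩ ⟨j, j', r, f⟩
  exact (G.ok.rung_face r f f'.on).elim c c'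

/-- the solid corners of the two cells of the rung are usable -/
theorem safe (c : θ = a ∨ θ = y) (f : m.Fc k θ p X) (so : m.Sol W k) : m.Sf W k θ ∨ m.Sf W k p := by
  have w := (G.st.sol_w G.ok so f).1
  have c' : k ≠ g' := fun e => G.op (e ▸ so)
  by_cases e : k = g
  · subst e
    have := G.ok.fc_ne G.f.fc
    rcases c with rfl | rfl
    exacts [(f.unique G.f.fc (G.st.ne w)).1 ▸ G.sg, (f.unique G.f.fc.symm (G.st.ne w)).1 ▸ G.sg.symm]
  rcases c with rfl | rfl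
  exacts [.inl (.of_not (G.nr G.far G.f f G.L.na (G.L.n1 G.L.wy) (G.L.n1 w) e c')),
    .inl (.of_not (G.nr G.far G.f.symm f (G.L.n1 G.L.wy) G.L.na (G.L.n2 G.L.wy w) e c'))]

variable [Finite V] [Finite J]

/-- (A1) a line from an open face does not pass a corner into `a` or `y` -/
theorem noin (c : θ = a ∨ θ = y) (a₀ : m.Wk ps W t i k) (op : ¬ m.Sol W i) (f : m.Fc k p θ X)
    (b : m.Sgm ps t i k p X) : False := by
  have sk := (G.nc _ _ _ a₀).resolve_left op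
  obtain ⟨k', -, a₁, bt, b₁, so, e⟩ := G.st.pas1 G.ok G.ord G.nc a₀ op f b
  obtain ⟨p', f'⟩ := e.ge
  exact G.L.a1 G.ok G.ord (G.bt c) a₀ op sk f b a₁ bt b₁ so f'.fc (G.safe c f.symm sk).symm
    (G.safe c f'.fc so)

/-- (E1) `a` and `y` lie on such a line only as cells of its first wall -/
theorem first (c : θ = a ∨ θ = y) (a₀ : m.Wk ps W t i k) (op : ¬ m.Sol W i)
    (b : m.Sgm ps t i k θ u) : ∃ v, m.On i θ v ∧ m.Sgm ps t i k θ v := by
  by_contra n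
  obtain ⟨j, p, X, -, a', f, b'⟩ := G.st.enter G.ok G.ord a₀ b fun v o q => n ⟨v, o, q⟩
  exact G.noin c a' op f b'

theorem off (c : θ = a ∨ θ = y) (a₀ : m.Wk ps W t i k) (op : ¬ m.Sol W i) (o : m.On i u₀ v₀)
    (b₀ : m.Sgm ps t i k u₀ v₀) (d : θ ≠ u₀) (d' : θ ≠ v₀) (u : V) : ¬ m.Sgm ps t i k θ u := fun b => by
  obtain ⟨v, o', b'⟩ := G.first c a₀ op b
  have := G.st.wk_first G.ok G.ord a₀ (G.st.wk_w G.ok G.ord a₀ b₀) o b₀ o' b'
  tauto

theorem cor_on (c : θ = a ∨ θ = y) (a₀ : m.Wk ps W t i k) (op : ¬ m.Sol W i) (f : m.Fc k p θ X) :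
    ∃ u, m.Sgm ps t i k θ u := by
  rcases G.st.wk_cor G.ok G.ord a₀ f with ⟨-, q⟩ | ⟨-, q | q⟩
  exacts [⟨_, q.symm G.ok⟩, (G.noin c a₀ op f q).elim, ⟨_, q⟩]

theorem offc (c : θ = a ∨ θ = y) (a₀ : m.Wk ps W t i k) (op : ¬ m.Sol W i) (o : m.On i u₀ v₀)
    (b₀ : m.Sgm ps t i k u₀ v₀) (d : θ ≠ u₀) (d' : θ ≠ v₀) (f : m.Fc k p q X) : q ≠ θ := by
  rintro rfl
  obtain ⟨u, b⟩ := G.cor_on c a₀ op f
  exact G.off c a₀ op o b₀ d d' u b

omit [Finite V] [Finite J] in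
/-- the piece on the bar at the last corner of a side -/
theorem lbar (a₁ : m.Sid ps W z t j k) (f : m.Fc k z p X) (e : m.stem k ≠ t) :
    m.bar k = t ∧ m.Sgm ps t j k z X := by
  rcases G.st.wk_cor G.ok G.ord a₁.wk f with ⟨e', -⟩ | ⟨e', q | q⟩
  · exact absurd e' e
  · exact ⟨e', q⟩
  · have := G.st.sid_row G.ok G.ord a₁ q
    have := G.ok.fc_ne f
    tauto

/-- the walk passes the end `k` of a rung; the next corner is not the end of a rung -/
theorem door (a₀ : m.Wk ps W t i k) (op : ¬ m.Sol W i) (r : m.far k j) (f : m.Fc k p z X)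
    (b : m.Sgm ps t i k p X) (nz : m.Fe T W 7 z) : ∃ k' q X', m.Wk ps W t i k' ∧
      m.Sid ps W z t k k' ∧ Bt ps t i k k' ∧ m.Sol W k' ∧ m.Fc k' z q X' ∧ q ≠ p ∧ m.Fe T W 8 q ∧
      ∀ n, ¬ m.far k' n := by
  obtain ⟨k', a', a₁, bt, -, so, e⟩ := G.st.pas1 G.ok G.ord G.nc a₀ op f b
  obtain ⟨q, f'⟩ := e.ge
  have br : m.bar k = t := (G.ok.lines f r.2.1).2.1.symm.trans b.2.1
  have c : k' ≠ j := by
    rintro rfl
    rcases a'.h2 with e | e
    exacts [G.ok.stem_ne k r.2.1 ((G.ok.far_stem r).trans (e.trans br.symm)),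
      G.ok.far_bar r (br.trans e.symm)]
  have nq := nz.wall (G.st.sol_w G.ok so f'.fc).1
  refine ⟨k', q, _, a', a₁, bt, so, f'.fc, ?_, nq, G.nr r f.symm.ge f'.fc (nz.mono (by omega))
    ((G.L.s0 G.ok G.ord a₀ op b).mono (by omega)) nq a₁.wk.ne.symm c⟩
  rintro rfl
  exact (G.ok.rung_face r f.symm.ge f'.fc.on).elim a₁.wk.ne.symm c

omit [Finite V] [Finite J] in
theorem hard (f : m.Fc k p q X) (w : W p q) (n : ¬ (m.Sf W k p ∨ m.Sf W k q)) :
    ∃ j, m.far k j ∧ m.Sol W j := by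
  by_contra c
  exact n (G.st.sf_open G.ok f w fun j r so => c ⟨j, r, so⟩)

/-- (A2) a line from an open face without `a` does not pass a usable corner into `x` -/
theorem nox (a₀ : m.Wk ps W t i k) (op : ¬ m.Sol W i) (o : m.On i u₀ v₀)
    (b₀ : m.Sgm ps t i k u₀ v₀) (d : a ≠ u₀) (d' : a ≠ v₀) (f : m.Fc k p x X)
    (b : m.Sgm ps t i k p X) (sf : m.Sf W k p ∨ m.Sf W k x) : False := by
  have h := G.ok
  have st := G.st
  have sk := (G.nc _ _ _ a₀).resolve_left op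
  obtain ⟨k', a', a₁, bt, b₁, so, e⟩ := st.pas1 h G.ord G.nc a₀ op f b
  obtain ⟨p', f'⟩ := e.ge
  have b₀' := b₀.mono bt.bw
  have pa := G.offc (.inl rfl) a' op o b₀' d d' f'.fc
  have py : p' ≠ y := fun e => G.nxy (e ▸ h.adj12 f'.fc)
  have w' := (st.sol_w h so f'.fc).1
  by_cases sf' : m.Sf W k' x ∨ m.Sf W k' p'
  · exact G.L.a2 h G.ord G.ba G.L.wx G.f.fc G.L.wy G.sg a₀ op sk f b a₁ bt b₁ so f'.fc sf sf' G.L.ne
      (fun e => G.off (.inl rfl) a₀ op o b₀ d d' X (e ▸ b)) (fun e => G.nxy (e ▸ (h.adj12 f).symm)) pa py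
      fun q => G.off (.inl rfl) a' op o b₀' d d' x ((q.rev.mono bt.symm.bw).rev.symm h)
  obtain ⟨j, r, -⟩ := G.hard f'.fc w' sf'
  have br : m.bar k = t := (h.lines f a₀.i2).2.1.symm.trans b.2.1
  obtain ⟨-, b₂⟩ := G.lbar a₁ f'.fc (br ▸ h.far_not_bar r a₀.i2)
  obtain ⟨k'', q, X'', a'', -, bt', so', f'', qx, nq, nr⟩ := G.door a' op r f'.fc
    (b₂.rev.mono bt.symm.bw).rev (((G.L.fa.wall G.L.wx).wall w').mono (by omega))
  have b₀'' := b₀'.mono bt'.bw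
  have qa := G.offc (.inl rfl) a'' op o b₀'' d d' f''
  obtain rfl : q = y := by
    have := G.L.f1W h G.ord a'' op (G.off (.inl rfl) a'' op o b₀'' d d') f'' (G.L.n2 G.L.wx w') nq
      (.inl (.of_not nr))
    have := (st.ne w').symm
    tauto
  obtain ⟨u, c⟩ := G.cor_on (.inr rfl) a'' op f''
  obtain ⟨v, o', c'⟩ := G.first (.inr rfl) a'' op c
  have e := G.ord.flat a₀.i1 a₀.i2 a''.i2 ⟨v, c'.1.1, o', c'.2.1⟩ a₀.h2 (h.tc_cor a''.i2 f''.cor2 a''.h2)
    (by unfold Bt at *; omega)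
  exact G.nxy ((f.2.symm.trans e) ▸ h.adj23 f)

/-- no wall joins `a` and a ring neighbour of `y` -/
theorem nwa (w₁ : W y w) (o : m.On i y w) (op : ¬ m.Sol W i) : ¬ W w a := fun q => by
  have h := G.ok
  have st := G.st
  rcases h.rung_adj G.far G.f (st.adj _ _ q) (st.adj _ _ w₁).symm with rfl | rfl
  · have d : i ≠ g := fun e => op (e ▸ G.so)
    obtain ⟨a₀, b⟩ := st.wk_one h G.ord w₁ o ⟨G.f.fc.has2, G.f.fc.has3⟩ d
    exact G.noin (.inl rfl) a₀ op G.f.fc.symm b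
  · exact G.op (st.sol_of G.f'.fc G.L.wy (st.sym _ _ q) w₁)

omit [Finite V] [Finite J] in
/-- (E4) the quadrilateral `a y w x` -/
theorem e4 (w₁ : W y w) (w₂ : W w x) (wa : w ≠ a) (n : ¬ W w a) (f : m.Fc k w v s) (e : v = x ∨ v = y)
    (o : m.On k' w v) (d : k' ≠ k) (ou : m.Ou W (E4 a y w x) k') : False := by
  have st := G.st
  obtain rfl := st.quad G.ok G.L.wy w₁ w₂ (st.sym _ _ G.L.wx) wa.symm G.L.ne.symm
    (fun q => n (st.sym _ _ q)) (fun q => G.nxy (st.adj _ _ q).symm) (.inl rfl) G.f.fc G.f'.fc.on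
    G.far.1.symm (.op G.op) (by rcases e with rfl | rfl <;> simp [E4, Sym2.eq_swap]) f o d ou
  exact (G.f.fc.cor_iff.1 f.cor1).elim wa (st.ne w₁).symm

end Ez

end Map

end Pool.Agent.P.MP_5f84aa_co.G
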