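import Pool.Agent.P.MP_5f84aa_co.G.LHs
import Pool.Agent.P.MP_5f84aa_co.G.LG3a
import Pool.Agent.P.MP_5f84aa_co.G.LR1a

/-! Type GR with a door `a y`: the first corners along a boundary cell, the ends of the runs. -/

namespace Pool.Agent.P.MP_5f84aa_co.G

namespace Map

variable {V J Sg : Type}

/-- a confined state without cut segments; the rung `a y` has two solid ends -/
structure Hx [DecidableEq V] (m : Map V J Sg) (ps : J → Sg → ℤ) (T : Set Sg) (N : V → Prop)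
    (U : Finset V) (W : V → V → Prop) (μ : V → ℕ) (a x y : V) (j j' : J) : Prop where
  ok3 : m.Ok3
  ends : m.Ends
  ord : m.Ord ps
  loc : m.Loc T N U W μ a x y
  nc : m.NoCut ps W
  r1 : ∀ b u v, N b → N u → N v → m.Rn b u → m.Rn b v → u = v
  far : m.far j j'
  ge : m.GE j a y
  x1 : x ≠ m.X j
  x2 : x ≠ m.X j'
  s1 : m.Sol W j
  s2 : m.Sol W j'

/-- along the line `t` from the open face `o` the object `v`, `p` off the zone leads to the usable
corner `e` of `p` and the cell `z` of the zone -/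
structure Lea (m : Map V J Sg) (ps : J → Sg → ℤ) (W : V → V → Prop) (x a y : V) (t : Sg) (o e : J)
    (v p z : V) : Prop where
  op : ¬ m.Sol W o
  wk : m.Wk ps W t o e
  so : m.Sol W e
  vz : ¬ InZ x a y v
  pz : ¬ InZ x a y p
  zz : InZ x a y z
  ge : m.GE e p z
  sf : m.Sfe W e
  fst : ∃ w, m.On o v w ∧ m.Sgm ps t o e v w
  lst : m.Tc e p t
  row : ∀ u w, m.Sgm ps t o e u w → (u = v ∨ u = p) ∨ w = v ∨ w = p
  kind : (p = v ∧ m.Sid ps W v t o e) ∨ ∃ d d', m.far d d' ∧ m.GE d v p ∧ m.Sol W d ∧ m.Sol W d' ∧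
    m.bar d = t ∧ m.Sid ps W v t o d ∧ m.Sid ps W p t d e ∧ Bt ps t o d e ∧ ∀ k, ¬ m.far e k

/-- the door `v x` lands on the line `t` -/
structure Xd (m : Map V J Sg) (ps : J → Sg → ℤ) (W : V → V → Prop) (x : V) (t : Sg) (o : J) (v : V)
    (d d' : J) : Prop where
  far : m.far d d'
  ge : m.GE d v x
  s1 : m.Sol W d
  s2 : m.Sol W d'
  br : m.bar d = t
  sid : m.Sid ps W v t o d

variable {m : Map V J Sg} {ps : J → Sg → ℤ} {t : Sg} {T : Set Sg} {N : V → Prop} {W : V → V → Prop}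
  {U : Finset V} {μ : V → ℕ} {sd : V → Sg → Bool} {a c p q u v w x y z X : V} {d d' e i j j' k k' o : J}

/-- a piece of a segment lies before or behind a face -/
theorem Sgm.split (h : m.Ok) (r : m.Ord ps) (b : m.Sgm ps t o e u v) (k : J) :
    m.Sgm ps t o k u v ∨ m.Sgm ps t k e u v := by
  obtain ⟨-, i, f⟩ := b.1
  obtain ⟨i', -, f', q, -, -, s⟩ := b.two h r f
  have b1 := b.2.2 i f
  have b2 := b.2.2 i' f'
  by_cases g : Bw ps t o i k ∧ Bw ps t o i' k
  · refine .inl ⟨b.1, b.2.1, fun n o' => ?_⟩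
    rcases q n o' with rfl | rfl
    exacts [⟨b1.1, g.1⟩, ⟨b2.1, g.2⟩]
  · refine .inr ⟨b.1, b.2.1, fun n o' => ?_⟩
    have c1 := b1.2
    have c2 := b2.2
    unfold Bw at *
    rcases q n o' with rfl | rfl
    exacts [⟨b1.1, by omega⟩, ⟨b2.1, by omega⟩]

/-- the other end of a line lies beyond the start of a run -/
theorem Ord.beyond (r : m.Ord ps) (g : m.Wk ps W t o e) (l : m.stem e = t) (ki : k ≠ m.inf)
    (l' : m.stem k = t) (n : k ≠ o) (n' : k ≠ e) (c : Bw ps t o i e) (ni : ps i t ≠ ps o t) :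
    Bt ps t k o i := by
  have e1 : ps k t ≠ ps o t := fun q => n (r.inj t k o ki g.i1 (.inl l') g.h1 q)
  have e2 : ps k t ≠ ps e t := fun q => n' (r.inj t k e ki g.i2 (.inl l') g.h2 q)
  have e3 : ps o t ≠ ps e t := fun q => g.ne (r.inj t o e g.i1 g.i2 g.h1 g.h2 q)
  have a1 := r.ext e o k g.i2 g.i1 ki (l ▸ g.h1) (l ▸ .inl l')
  have a2 := r.ext e k o g.i2 ki g.i1 (l ▸ .inl l') (l ▸ g.h1)
  have a3 := r.ext k o e ki g.i1 g.i2 (l' ▸ g.h1) (l' ▸ g.h2)
  have a4 := r.ext k e o ki g.i2 g.i1 (l' ▸ g.h2) (l' ▸ g.h1)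
  rw [l] at a1 a2
  rw [l'] at a3 a4
  unfold Bw at c
  unfold Bt
  omega

theorem Lea.obj (l : m.Lea ps W x a y t o e v p z) : m.Obj v p := by
  rcases l.kind with ⟨e, -⟩ | ⟨d, d', f, g, -⟩
  exacts [.inl e.symm, .inr ⟨d, d', f, g⟩]

namespace Hx

variable [DecidableEq V] (H : m.Hx ps T N U W μ a x y j j')
include H

theorem ok : m.Ok := H.ok3.ok.toOk
theorem ex : m.Ext := H.ok3.ok.toExt
theorem st : m.HSt U W := H.loc.st

theorem symm : m.Hx ps T N U W μ a x y j' j :=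
  { H with
    far := H.far.symm
    ge := H.ok.far_ge H.far H.ge
    x1 := H.x2
    x2 := H.x1
    s1 := H.s2
    s2 := H.s1 }

theorem rn : m.Rn a y := ⟨j, j', H.far, H.ge⟩

theorem nz (i : InZ x a y u) : m.Fe T W 2 u := by
  rcases i with rfl | rfl | rfl
  exacts [H.loc.fa.wall H.loc.wx, H.loc.fa.mono (by omega), H.loc.fa.wall H.loc.wy]

theorem nn (f : m.Fe T W 2 u) : N u := H.loc.near u (f.mono (by omega))

/-- a rung at the centre or at its partner is the door -/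
theorem rn_th (f : m.Fe T W 2 v) (i : u = a ∨ u = y) (r : m.Rn v u) : v = a ∨ v = y := by
  have na := H.nn (H.nz (.inr (.inl rfl)))
  have ny := H.nn (H.nz (.inr (.inr rfl)))
  rcases i with rfl | rfl
  exacts [.inr (H.r1 _ _ _ na (H.nn f) ny r.symm H.rn), .inl (H.r1 _ _ _ ny (H.nn f) na r.symm H.rn.symm)]

/-- a segment from an open face does not lie on the line of a door -/
theorem not_door (f : m.far d d') (s : m.Sol W d) (s' : m.Sol W d') (g : m.Wk ps W t o e)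
    (op : ¬ m.Sol W o) : t ≠ m.stem d := by
  rintro rfl
  obtain ⟨u, v, -, c, b⟩ := g.p1
  rcases H.ok.rung_ln f (fc_self d).ge b.1 b.2.1 with ⟨rfl, rfl⟩ | ⟨rfl, rfl⟩
  · rcases H.ok.rung_face f (fc_self d).ge c with rfl | rfl <;> contradiction
  · rcases H.ok.rung_face f (fc_self d).ge c.symm with rfl | rfl <;> contradiction

theorem not_ay (g : m.Wk ps W t o e) (op : ¬ m.Sol W o) : ¬ m.Sgm ps t o e a y := fun b =>
  H.not_door H.far H.s1 H.s2 g op (b.2.1.symm.trans (H.ok.lines H.ge.fc H.far.2.1).1)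

variable [Finite V] [Finite J]

omit [Finite J] in
/-- a usable corner at the end of a segment meets the zone -/
theorem f1e (g : m.Wk ps W t o e) (op : ¬ m.Sol W o) (f : m.GE e p q) (sf : m.Sfe W e)
    (n : ¬ m.Sgm ps t o e a x) : InZ x a y p ∨ InZ x a y q := by
  have so := (H.nc _ _ _ g).resolve_left op
  have w := (H.st.sol_w H.ok so f.fc).1
  obtain ⟨u, v, -, c, b⟩ := g.p2
  have nr := fun u (c : m.has e u) => (H.st.seg_near (T := T) H.ok H.ord g op so c).mono (e := 8) (by omega)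
  exact (((H.loc.lz H.ok H.ord).f1S g op f.fc c b (H.st.mem _ _ w) (H.st.mem2 w) (nr _ f.fc.has1)
    (nr _ f.fc.has2) (H.st.safe_of_open H.ok f.fc w sf)).resolve_right fun q => q.elim n (H.not_ay g op))

/-- the first corners along a boundary cell off the zone -/
theorem lead (vz : ¬ InZ x a y v) (w₀ : W v w) (c : m.On o v w) (op : ¬ m.Sol W o) :
    (∃ e p z, m.Lea ps W x a y (m.ln v w) o e v p z ∧ m.Sgm ps (m.ln v w) o e v w) ∨
      ∃ d d', m.Xd ps W x (m.ln v w) o v d d' ∧ m.Sgm ps (m.ln v w) o d v w := by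
  have h := H.ok
  have r := H.ord
  have s := H.st
  obtain ⟨k, a₀, b, ck⟩ := s.nxt h r w₀ c
  generalize m.ln v w = t at *
  have so := (H.nc _ _ _ a₀.wk).resolve_left op
  obtain ⟨q, f⟩ := (ck.resolve_left fun n => n so).ge
  have row := fun u w (b : m.Sgm ps t o k u w) => s.sid_row h r a₀ b
  have nr := fun u (c : m.has k u) => (s.seg_near (T := T) h r a₀.wk op so c).mono (e := 2) (by omega)
  by_cases sf : m.Sfe W k
  · have qz := (H.f1e a₀.wk op f sf fun b => by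
      rcases row _ _ b with rfl | rfl
      exacts [vz (.inr (.inl rfl)), vz (.inl rfl)]).resolve_left vz
    exact .inl ⟨k, v, q, ⟨op, a₀.wk, so, vz, vz, qz, f, sf, ⟨w, c, b⟩, a₀.lst,
      fun u w b => (row u w b).imp .inl .inl, .inl ⟨rfl, a₀⟩⟩, b⟩
  obtain ⟨k', fk, so'⟩ : ∃ k', m.far k k' ∧ m.Sol W k' := by
    by_contra n
    exact sf fun k' a b => n ⟨k', a, b⟩
  have br : m.bar k = t := a₀.wk.h2.resolve_left (H.not_door fk so so' a₀.wk op).symm
  have rn : m.Rn v q := ⟨k, k', fk, f⟩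
  by_cases qz : InZ x a y q
  · rcases qz with rfl | qz
    · exact .inr ⟨k, k', ⟨fk, f, so, so', br, a₀⟩, b⟩
    · exact absurd (.inr (H.rn_th (nr _ f.fc.has1) qz rn)) vz
  have bX : m.Sgm ps t o k v (m.X k) := by
    obtain ⟨p, p', f', c'⟩ := s.wk_last h r a₀.wk br
    rcases row _ _ c' with rfl | e
    exacts [c', absurd e.symm (h.fc_ne f.fc).2.1]
  obtain ⟨e, g, a₁, bt, -, se, ce⟩ := s.pas1 h r H.nc a₀.wk op f.fc bX
  obtain ⟨z, f'⟩ := ce.ge
  have nr' := fun u (c : m.has e u) => (s.seg_near (T := T) h r g op se c).mono (e := 2) (by omega)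
  have nf : ∀ e', ¬ m.far e e' := fun e' fe => by
    obtain rfl := H.r1 _ _ _ (H.nn (nr _ f.fc.has2)) (H.nn (nr _ f.fc.has1)) (H.nn (nr' _ f'.fc.has2))
      rn.symm ⟨e, e', fe, f'⟩
    rcases h.rung_face fk f f'.fc.on.symm with rfl | rfl
    · exact a₁.wk.ne rfl
    · exact h.far_bar fk (br.trans (g.h2.resolve_left fun l =>
        H.not_door fk so so' a₀.wk op (l.symm.trans (h.far_stem fk).symm)).symm)
  have row' : ∀ u w, m.Sgm ps t o e u w → (u = v ∨ u = q) ∨ w = v ∨ w = q := fun u w b => by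
    rcases b.split h r k with b | b
    exacts [(row u w b).imp .inl .inl, (s.sid_row h r a₁ b).imp .inr .inr]
  have zz := (H.f1e g op f' (fun e' fe => absurd fe (nf e')) fun b => by
    rcases row' _ _ b with (rfl | rfl) | rfl | rfl
    exacts [vz (.inr (.inl rfl)), qz (.inr (.inl rfl)), vz (.inl rfl), qz (.inl rfl)]).resolve_left qz
  exact .inl ⟨e, q, z, ⟨op, g, se, vz, qz, zz, f', fun e' fe => absurd fe (nf e'),
    ⟨w, c, b.mono bt.bw⟩, a₁.lst, row', .inr ⟨k, k', fk, f, so, so', br, a₀, a₁, bt, nf⟩⟩, b.mono bt.bw⟩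

omit [Finite V] [Finite J] in
theorem sdf : ∃ sd, m.Sdf a y (m.stem j) sd := H.ok3.sdf H.far H.ge

/-- the cells of the zone on a run without the wall `a x` lie on one side -/
theorem side (s : m.Sdf a y (m.stem j) sd) (g : m.Wk ps W t o e) (op : ¬ m.Sol W o) (l : m.stem e = t)
    (n : ¬ m.Sgm ps t o e a x) (i : InZ x a y u) (i' : InZ x a y v) (b : m.Sgm ps t o e u p)
    (b' : m.Sgm ps t o e v q) : sd u t = sd v t := by
  have h := H.ok
  have r := H.ord
  have tn := H.not_door H.far H.s1 H.s2 g op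
  have th : ∀ u, u = a ∨ u = y → sd u t = sd a t := by
    rintro _ (rfl | rfl)
    exacts [rfl, (congrFun s.th t).symm]
  have key : ∀ u p q, u = a ∨ u = y → m.Sgm ps t o e u p → m.Sgm ps t o e x q → sd u t = sd x t := by
    intro u p q i b b'
    by_contra d
    obtain ⟨k, f⟩ := H.loc.gx
    have ki : k ≠ m.inf := (H.st.bd1 H.loc.wx).ne_inf f.fc.has1
    have l' : m.stem k = t := (h.lines f.fc ki).1.symm.trans (s.one t u x a x tn b.onL b'.onL d
      (by rcases i with rfl | rfl; exacts [.inl rfl, .inr (.inr ⟨rfl, rfl⟩)]) (.inl rfl) (h.adj12 f.fc))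
    have ke : k ≠ e := by rintro rfl; exact n (HSt.wk_stem' h g f.fc l)
    have ko : k ≠ o := by rintro rfl; exact n (HSt.wk_stem' h g.rev f.fc l').rev
    have bey : ∀ u p, m.Sgm ps t o e u p → ∃ i, i ≠ m.inf ∧ m.Tc i u t ∧ Bt ps t k o i := fun u p b => by
      obtain ⟨-, i, c⟩ := b.1
      obtain ⟨i', -, c', -, -, -, z⟩ := b.two h r c
      by_cases q : ps i t = ps o t
      · exact ⟨i', (b.2.2 i' c').1, b.tc c', r.beyond g l ki l' ko ke (b.2.2 i' c').2 (by omega)⟩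
      · exact ⟨i, (b.2.2 i c).1, b.tc c, r.beyond g l ki l' ko ke (b.2.2 i c).2 q⟩
    obtain ⟨i₁, n₁, c₁, t₁⟩ := bey _ _ b
    obtain ⟨i₂, n₂, c₂, t₂⟩ := bey _ _ b'
    have e1 := r.flat ki g.i1 n₂ (h.tc_cor ki f.fc.cor2 (.inl l')) g.h1 c₂ t₂
    have ca := h.tc_cor ki f.fc.cor1 (.inl l')
    rcases i with rfl | rfl
    · exact H.st.ne H.loc.wx ((r.flat ki g.i1 n₁ ca g.h1 c₁ t₁).symm.trans e1)
    · rcases H.st.obj h r H.far H.ge H.s1 H.s2 ki g.i1 n₁ ca c₁ g.h1 op t₁ with e | e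
      exacts [H.st.ne H.loc.wx (e.symm.trans e1), H.loc.ne (e1.symm.trans e)]
  rcases i with rfl | i <;> rcases i' with rfl | i'
  exacts [rfl, (key _ _ _ i' b' b).symm, key _ _ _ i b b', (th _ i).trans (th _ i').symm]

/-- the end of a run without the wall `a x` -/
theorem rend (g : m.Wk ps W t o e) (op : ¬ m.Sol W o) (l : m.stem e = t) (n : ¬ m.Sgm ps t o e a x) :
    ∃ v p z, m.Lea ps W x a y t o e v p z := by
  have h := H.ok
  have r := H.ord
  have st := H.st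
  obtain ⟨sd, s⟩ := H.sdf
  have tn := H.not_door H.far H.s1 H.s2 g op
  have so := (H.nc _ _ _ g).resolve_left op
  have f := fc_self (m := m) e
  have c := HSt.wk_stem' h g f l
  have sf : m.Sfe W e := fun e' fe s' => H.not_door fe so s' g op l.symm
  obtain ⟨z, p, iz, bz⟩ : ∃ z p, InZ x a y z ∧ m.Sgm ps t o e z p := by
    rcases H.f1e g op f.ge sf n with q | q
    exacts [⟨_, _, q, c⟩, ⟨_, _, q, c.symm h⟩]
  obtain ⟨v, w, ww, c₀, b, dv⟩ : ∃ v w, W v w ∧ m.On o v w ∧ m.Sgm ps t o e v w ∧ sd v t ≠ sd z t := by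
    obtain ⟨v, w, ww, c₀, b⟩ := g.p1
    have := s.sgm tn b
    by_cases q : sd v t = sd z t
    exacts [⟨w, v, st.sym _ _ ww, c₀.symm, b.symm h, fun e => this (q.trans e.symm)⟩, ⟨v, w, ww, c₀, b, q⟩]
  have off : ∀ u q, m.Sgm ps t o e u q → sd u t = sd v t → ¬ InZ x a y u := fun u q b' e i =>
    dv (e.symm.trans (H.side s g op l n i iz b' bz))
  have lnd : ∀ k p q, m.Wk ps W t o k → m.Sgm ps t o k v w → k ≠ e → m.GE k p q → sd p t = sd v t →
      ¬ InZ x a y q := fun k p q a' b' d f' e' => by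
    have bt := r.bt_of g.i1 a'.i2 g.i2 g.h1 a'.h2 g.h2 (HSt.bw_end h r g l a' b b') a'.ne.symm d
    have br := r.bar_of_bt g.i1 a'.i2 g.i2 g.h1 a'.h2 g.h2 bt
    exact off q _ (st.wk_land h r g f'.fc.symm br a'.i2 bt) ((br ▸ s.bar k p q _ a'.i2 f'.fc).symm.trans e')
  have lv := b.2.1
  rcases H.lead (off v w b rfl) ww c₀ op with ⟨k, p, z', L, b'⟩ | ⟨d, d', X, b'⟩ <;> rw [lv] at *
  · by_cases q : k = e
    · exact ⟨v, p, z', q ▸ L⟩
    refine absurd L.zz (lnd k p z' L.wk b' q L.ge ?_)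
    rcases L.kind with ⟨rfl, -⟩ | ⟨d, d', fd, gd, -, -, br, -⟩
    exacts [rfl, (br ▸ s.bar d v p _ fd.2.1 gd.fc).symm]
  · exact absurd (.inl rfl) (lnd d v x X.sid.wk b' (fun e => h.stem_ne d X.far.2.1
      ((e ▸ l).trans X.br.symm)) X.ge rfl)

end Hx

end Map

end Pool.Agent.P.MP_5f84aa_co.G
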