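import Pool.Agent.P.MP_5f84aa_co.G.LH1c
import Pool.Agent.P.MP_5f84aa_co.G.LHh
import Pool.Agent.P.MP_5f84aa_co.G.LHl

/-! Type GR with a door: the type of the ring cell at the end of a run. -/

namespace Pool.Agent.P.MP_5f84aa_co.G

namespace Map

variable {V J Sg : Type} {m : Map V J Sg} {ps : J → Sg → ℤ} {t s : Sg} {T : Set Sg} {N : V → Prop}
  {μ : V → ℕ} {W : V → V → Prop} {U D : Finset V} {M : Finset J}
  {a c p p' q u u' v v' w w' x y z z' θ X X' Y : V} {d d' e g i i' j j' k k' n o o' κ φ : J}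

theorem TyO.pair (b : m.TyO W v v') (c : p = v ∨ p = v') (c' : q = v ∨ q = v') : m.TyO W p q := by
  rcases c with rfl | rfl <;> rcases c' with rfl | rfl
  exacts [.inl rfl, b, b.symm, .inl rfl]

/-- the contact of the two objects at the end of a run lies on the run -/
theorem HSt.ty_in [Finite V] [Finite J] (h : m.Ok) (r : m.Ord ps) (st : m.HSt U W)
    (a : m.Wk ps W t o e) (op : ¬ m.Sol W o) (s : m.stem e = t) (f : m.Fc e p z X) (b : m.TyO W p q)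
    (b' : m.TyO W z u) (c : m.Adj q u) (n : p ≠ u) (n' : q ≠ z) (bq : m.Bd q) :
    m.Sgm ps t o e q u := by
  have l : m.ln q u = t := (h.s5 b.obj b'.obj (h.adj12 f) c n n').symm.trans ((h.lines f a.i2).1.trans s)
  refine ⟨c, l, fun i on => ?_⟩
  have ii := bq.ne_inf on.1
  have n1 := r.ty_nbt h a.i1 a.i2 ii a.h1 (l ▸ h.hug_on ii on c.1) s
  have n2 : ¬ Bt ps t e o i := fun bt => by
    have := st.ty_obj h r b a.i2 a.i1 ii (h.tc_cor a.i2 f.cor1 a.h2) ⟨u, c.1, on, l⟩ a.h1 op bt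
    have := st.ty_obj h r b' a.i2 a.i1 ii (h.tc_cor a.i2 f.cor2 a.h2)
      ⟨q, c.1.symm, on.symm, (h.ln_symm _ _).trans l⟩ a.h1 op bt
    have := (h.fc_ne f).1
    have := c.1
    grind
  have := mt (r.inj t o e a.i1 a.i2 a.h1 a.h2) a.ne
  exact ⟨ii, by unfold Bt Bw at *; omega⟩

namespace TyC

variable [DecidableEq V] (G : m.TyC ps T N U W μ a x y j j' κ) [Finite V] [Finite J]
include G

omit [Finite J] in
/-- both leads end at the same corner -/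
theorem same (l : m.TyL ps W t o e v p) (f : m.Fc e p z X) (s₁ : m.stem e = t)
    (l' : m.TyL ps W (m.bar e) o' e v p) (vz : ¬ InZ x a y v) (zz : InZ x a y z) :
    p = v ∧ m.Sid ps W v t o e ∧ m.Sid ps W v (m.bar e) o' e := by
  have h := G.ok
  have st := G.st
  have r := G.ord
  have ei := l.wk.i2
  obtain ⟨nv, np⟩ := G.nv l
  rcases l.cs with ⟨rfl, sv⟩ | ⟨d, d', q, b, so, so', br, sv, -, -⟩ <;>
    rcases l'.cs with ⟨e', sv'⟩ | ⟨i, i', q', b', si, si', br', sv', sp', bt'⟩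
  · exact ⟨rfl, sv, sv'⟩
  · exact absurd rfl (h.fc_ne b'.fc).1
  · exact absurd e'.symm (h.fc_ne b.fc).1
  obtain rfl : i = d' := (h.rung_face q b b'.fc.on).resolve_left (by
    rintro rfl
    exact h.stem_ne e ei (s₁.trans (br.symm.trans br')))
  obtain ⟨s1, s2⟩ := st.ty_door h r q b so
  have rc : m.Rc W {p, z} (m.Hgd T {e} No) e :=
    st.rc_end h r l.wk (.op l.op) fun _ _ b => .inl (.no (by simp) l.wk.h2 b.2.1)
  have nm : m.Nm T U W μ {p, z} {e} := ⟨G.L.neuS h f (np.mono (by omega)) ((G.nz zz).mono (by omega))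
    (st.ty_sf h l.wk l.op l.so s₁ f) rc, by simpa using ⟨⟨e, f.has1, rc⟩, e, f.has2, rc⟩⟩
  have vz' : v ≠ z := fun c => vz (c ▸ zz)
  refine (st.ty_kill h r nm (st.fe_mem h nv) (by simp [(h.fc_ne b.fc).1, vz'])
    (G.L.one _ (nv.mono (by omega))) fun u wu => ?_).elim
  rcases st.cover2 h r (G.se _) sv s1 (st.sid_rev h r sv') l.op l'.op b.fc.cor1 b'.fc.cor1
    (br ▸ (h.stem_ne d q.2.1).symm) (h.far_not_bar q ei) wu with c | c | c
  exacts [.inr ⟨_, _, _, e, by simp, l.wk.h2, sv.wk, .inl l.op, c⟩, .inl (by simp [s2 u c]),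
    .inr ⟨_, _, _, e, by simp, .inr rfl, sv'.wk, .inl l'.op, c.rev⟩]

/-- (TYPE) the ring cell at the end of a run has one solid corner, or the run ends at the second face
of the piece `a x` -/
theorem type' (H : m.Ok3) (R : m.Ray ps W t o e) (eκ : e ≠ κ) (oκ : m.stem κ = t → o ≠ κ) :
    ∃ v z, ¬ Zc a x y v ∧ Zc a x y z ∧
      ((∃ o', m.II ps W v z e o o') ∨ ∃ z' k o', m.PHI ps W a x y v z z' e k o o') := by
  have h := G.ok
  have st := G.st
  have r := G.ord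
  have zc : ∀ {u}, Zc a x y u ↔ InZ x a y u := by unfold Zc InZ; tauto
  have nq : ∀ {u w}, ¬ InZ x a y u → InZ x a y w → u ≠ w := fun b b' q => b (q ▸ b')
  obtain ⟨v, p, z, X, l, f, vz, pz, zz⟩ := G.rend R eκ oκ
  obtain ⟨u, on, b⟩ := l.fst
  have w := st.wk_w h r l.wk b
  obtain ⟨i, -, oi, si, -⟩ := st.nocut_face h r G.nc w on l.op
  obtain ⟨u', o', -, d, w', on', op', -⟩ := HSt.other_out h on oi b.1.1 l.op si
  rcases G.lead vz w' on' op' with ⟨g, p', z', Y, l', b', f', pz', zz'⟩ | ⟨d, d', q, c, s1, s2, -⟩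
  swap
  · exact (G.xdoor l f R.st vz pz zz oκ q c s1 s2).elim
  refine ⟨v, z, mt zc.1 vz, zc.2 zz, ?_⟩
  by_cases eg : e = g
  · subst eg
    obtain rfl : p' = p := (f.cor_iff.1 f'.cor1).resolve_right (nq pz' zz)
    have br : m.bar e = m.ln v u' := l'.wk.h2.resolve_left fun c => by
      rw [← c, R.st] at l' b'
      obtain rfl := r.ty_start h l.wk l'.wk R.st l.op op'
      exact (st.wk_first h r l.wk w on b on' b').elim (fun c => d c.2) fun c => b.1.1 c.1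
    obtain ⟨rfl, s1, s2⟩ := G.same l f R.st (br ▸ l') vz zz
    exact .inl ⟨o', f.ge, l.so, R.st ▸ s1, l.op, st.sid_rev h r s2, op'⟩
  obtain ⟨nv, np⟩ := G.nv l
  have np' := (G.nv l').2
  obtain ⟨v', ob, vz', hp, hq, nv'⟩ : ∃ v', m.TyO W v v' ∧ ¬ InZ x a y v' ∧ (p = v ∨ p = v') ∧
      (p' = v ∨ p' = v') ∧ m.Fe T W 1 v' := by
    by_cases c : p = v
    · exact ⟨p', l'.ob, pz', .inl c, .inr rfl, np'⟩
    refine ⟨p, l.ob, pz, .inr rfl, ?_, np⟩
    by_cases c' : p' = v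
    exacts [.inl c', .inr (G.one (nv.mono (by omega)) (np'.mono (by omega)) (np.mono (by omega))
      (l'.ob.obj.resolve_left (Ne.symm c')) (l.ob.obj.resolve_left (Ne.symm c)))]
  have opp := ob.pair hp hq
  have gi := l'.wk.i2
  have we := (st.sol_w h l.so f).1
  have wg := (st.sol_w h l'.so f').1
  have same : ¬ TyS a x y z z' := fun c => st.ty_ends h r f f' R.wk.i2 gi R.wk.i1 R.st
    ((h.lines f' gi).1.symm.trans ((h.s5 opp.obj (G.ob c).obj (h.adj12 f) (h.adj12 f') (nq pz zz')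
      (nq pz' zz)).symm.trans ((h.lines f R.wk.i2).1.trans R.st))) eg R.wk.h1 R.op R.wk.ne
    (fun c => R.op (c ▸ l'.so)) opp (G.ob c) (nq pz zz') (nq pz' zz)
  have n1 : ¬ m.Sgm ps t o e a x := fun b => by
    have := r.ty_mid h R.wk.i2 R.wk.i1 G.ki R.st (G.lax.symm.trans b.2.1) R.wk.h1 eκ R.wk.ne
      (oκ (G.lax.symm.trans b.2.1))
    have := (b.2.2 κ G.fk.fc.on).2
    unfold Bt Bw at *
    omega
  have n2 : ¬ m.Sgm ps t o e p' z' := fun b =>
    have c := (h.lines f' gi).1.symm.trans b.2.1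
    r.ty_nbt h R.wk.i1 gi R.wk.i2 R.wk.h1 R.wk.h2 c (r.bt_of R.wk.i1 gi R.wk.i2 R.wk.h1 (.inl c) R.wk.h2
      (b.2.2 g f'.on).2 (fun c => R.op (c ▸ l'.so)) (Ne.symm eg))
  have hs : ∀ s u, s = v ∨ s = v' → TyS a x y z u → m.Adj s u → m.Sgm ps t o e s u := fun s u c c' q =>
    st.ty_in h r R.wk R.op R.st f (ob.pair hp c) (G.ob c') q (nq pz c'.inZ.2)
      (by rcases c with rfl | rfl; exacts [nq vz zz, nq vz' zz])
      (st.bd _ (by rcases c with rfl | rfl; exacts [st.fe_mem h nv, st.fe_mem h nv']))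
  have off : ∀ {u}, ¬ InZ x a y u → u ≠ a ∧ u ≠ y ∧ u ≠ x := by unfold InZ; tauto
  have key : ((z = a ∧ X = x) ∨ (z = x ∧ X = a)) ∧ TyS a x y X z' := by
    rcases zz with rfl | c
    · have c' : z' = a ∨ z' = y := zz'.resolve_left fun c => same (.inl ⟨rfl, c⟩)
      have := f.2.symm.trans (Cyc.hole' (v := v) (v' := v') ⟨⟨j, j', G.far, G.f⟩, ⟨κ, G.fk⟩, G.L.wx,
        G.L.wy, G.L.ne, G.nxy, ob.obj, off vz, off vz', hq, hp, c', f'.ge, f.ge, wg, we⟩ H st r R.wk R.op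
        (fun s c => hs s _ c (.inl ⟨rfl, rfl⟩)) n1 n2)
      exact ⟨.inr ⟨rfl, this⟩, .inr ⟨.inl this, c'⟩⟩
    · obtain rfl : z' = x := zz'.resolve_right fun c' => same (.inr ⟨c, c'⟩)
      have := Cyc.hole (v := v) (v' := v') ⟨⟨j, j', G.far, G.f⟩, ⟨κ, G.fk⟩, G.L.wx,
        G.L.wy, G.L.ne, G.nxy, ob.obj, off vz, off vz', hp, hq, c, f.ge, f'.ge, we, wg⟩ H st r R.wk R.op
        (fun s u q q' => hs s u q (.inr ⟨c, q'⟩)) n1 n2
      exact ⟨.inl ⟨this.2, f.2.symm.trans this.1⟩, .inl ⟨f.2.symm.trans this.1, rfl⟩⟩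
  obtain ⟨rfl, rfl, sg, s1, bg⟩ := G.fin l f R.st l' f' vz pz pz' key.1 key.2 opp eg
  have side : ∀ {t o k}, m.TyL ps W t o k p' p' → m.Sid ps W p' t o k := fun l =>
    (l.cs.resolve_right fun ⟨_, _, _, b, _⟩ => (h.fc_ne b.fc).1 rfl).2
  refine .inr ⟨z', g, o', f.ge, ?_, l.so, R.st ▸ side l, l.op, s1, f'.ge, l'.so, sg, zc.2 zz', ?_,
    bg ▸ st.sid_rev h r (side l'), op'⟩
  · rcases key.1 with ⟨rfl, rfl⟩ | ⟨rfl, rfl⟩
    exacts [⟨f.has2, f.has3⟩, ⟨f.has3, f.has2⟩]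
  · rintro rfl
    exact same (zz.imp (fun c => ⟨c, c⟩) fun c => ⟨c, c⟩)

theorem type (H : m.Ok3) (R : m.Ray ps W t o e) (eκ : e ≠ κ) (oκ : o ≠ κ) :
    ∃ v z, ¬ Zc a x y v ∧ Zc a x y z ∧
      ((∃ o', m.II ps W v z e o o') ∨ ∃ z' k o', m.PHI ps W a x y v z z' e k o o') :=
  G.type' H R eκ fun _ => oκ

end TyC

/-- the context of the type lemma -/
theorem Hx.tyC [DecidableEq V] (G : m.Hx ps T N U W μ a x y j j') (se : ∀ v, m.Sect W v)
    (fk : m.GE κ a x) : m.TyC ps T N U W μ a x y j j' κ :=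
  ⟨G.loc, G.ok3.ok.toOk, G.ok3.ok.toExt, G.ord, G.nc, se, G.r1, G.far, G.ge, G.s1, G.s2, G.x1, G.x2, fk,
    G.ok3.sdf G.far G.ge⟩

end Map

end Pool.Agent.P.MP_5f84aa_co.G
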