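import Pool.Agent.P.MP_5f84aa_co.G.LHs
import Pool.Agent.P.MP_5f84aa_co.G.LG1
import Pool.Agent.P.MP_5f84aa_co.G.LR1a

/-! Type GR with a door, the object at the end of a run, part a: leads, ends of lines. -/

namespace Pool.Agent.P.MP_5f84aa_co.G

namespace Map

variable {V J Sg : Type}

/-- a confined state without cuts; the rung `a y` has the solid ends `j`, `j'` -/
structure TyC [DecidableEq V] (m : Map V J Sg) (ps : J → Sg → ℤ) (T : Set Sg) (N : V → Prop)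
    (U : Finset V) (W : V → V → Prop) (μ : V → ℕ) (a x y : V) (j j' κ : J) : Prop where
  L : m.Loc T N U W μ a x y
  ok : m.Ok
  ex : m.Ext
  ord : m.Ord ps
  nc : m.NoCut ps W
  se : ∀ v, m.Sect W v
  r1 : ∀ b u v, N b → N u → N v → m.Rn b u → m.Rn b v → u = v
  far : m.far j j'
  f : m.GE j a y
  so : m.Sol W j
  so' : m.Sol W j'
  xg : x ≠ m.X j
  xg' : x ≠ m.X j'
  fk : m.GE κ a x
  sd : ∃ sd, m.Sdf a y (m.stem j) sd

/-- one cell, or the two halves of a rung with solid ends -/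
def TyO (m : Map V J Sg) (W : V → V → Prop) (u v : V) : Prop :=
  u = v ∨ ∃ d d', m.far d d' ∧ m.GE d u v ∧ m.Sol W d ∧ m.Sol W d'

/-- the way from the open face `o` along `v`, perhaps through a door into `p`, to the corner `k` -/
structure TyL (m : Map V J Sg) (ps : J → Sg → ℤ) (W : V → V → Prop) (t : Sg) (o k : J) (v p : V) :
    Prop where
  op : ¬ m.Sol W o
  so : m.Sol W k
  wk : m.Wk ps W t o k
  cs : (p = v ∧ m.Sid ps W v t o k) ∨ ∃ d d', m.far d d' ∧ m.GE d v p ∧ m.Sol W d ∧ m.Sol W d' ∧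
    m.bar d = t ∧ m.Sid ps W v t o d ∧ m.Sid ps W p t d k ∧ Bt ps t o d k

/-- the same class of the zone -/
def TyS (a x y z z' : V) : Prop := (z = x ∧ z' = x) ∨ ((z = a ∨ z = y) ∧ (z' = a ∨ z' = y))

variable {m : Map V J Sg} {ps : J → Sg → ℤ} {t s : Sg} {T : Set Sg} {N : V → Prop} {μ : V → ℕ}
  {W : V → V → Prop} {U D : Finset V} {M : Finset J}
  {a c p p' q u u' v w w' x y z z' θ X X' Y : V} {d d' e g i i' j j' k k' n o o' κ φ : J}

theorem TyO.symm (b : m.TyO W u v) : m.TyO W v u :=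
  b.imp Eq.symm fun ⟨d, d', r, f, s⟩ => ⟨d, d', r, f.symm, s⟩

theorem TyO.obj (b : m.TyO W u v) : m.Obj u v := b.imp id fun ⟨d, d', r, f, _⟩ => ⟨d, d', r, f⟩

theorem TyL.ob (l : m.TyL ps W t o k v p) : m.TyO W v p :=
  l.cs.imp (fun c => c.1.symm) fun ⟨d, d', r, f, s, s', _⟩ => ⟨d, d', r, f, s, s'⟩

theorem TyL.fst (l : m.TyL ps W t o k v p) : ∃ u, m.On o v u ∧ m.Sgm ps t o k v u := by
  rcases l.cs with ⟨-, c⟩ | ⟨d, d', -, -, -, -, -, c, -, b⟩
  exacts [c.fst, let ⟨u, o, q⟩ := c.fst; ⟨u, o, q.mono b.bw⟩]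

theorem TyL.tc (l : m.TyL ps W t o k v p) : m.Tc k p t := by
  rcases l.cs with ⟨rfl, c⟩ | ⟨d, d', -, -, -, -, -, -, c, -⟩
  exacts [c.lst, c.lst]

theorem TyL.bdy (l : m.TyL ps W t o k v p) : m.Bdy W v := let ⟨_, c, _⟩ := l.fst; ⟨o, c.1, l.op⟩

namespace Ord

variable (h : m.Ok) (r : m.Ord ps)
include h r

theorem ty_nbt (a : j ≠ m.inf) (b : i ≠ m.inf) (c : k ≠ m.inf) (g : m.hug j t) (g' : m.hug k t)
    (e : m.stem i = t) : ¬ Bt ps t j i k := fun w =>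
  h.stem_ne i b (e.trans (r.bar_of_bt a b c g (.inl e) g' w).symm)

/-- a face on a line lies between the two ends -/
theorem ty_mid (a : j ≠ m.inf) (b : i ≠ m.inf) (c : k ≠ m.inf) (e : m.stem j = t) (e' : m.stem k = t)
    (g : m.hug i t) (d : j ≠ k) (d1 : i ≠ j) (d2 : i ≠ k) : Bt ps t j i k := by
  have := mt (r.inj t j k a c (.inl e) (.inl e')) d
  have := mt (r.inj t i j b a g (.inl e)) d1
  have := mt (r.inj t i k b c g (.inl e')) d2
  have := r.ty_nbt h b a c g (.inl e') e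
  have := r.ty_nbt h a c b (.inl e) g e'
  unfold Bt at *
  omega

theorem ty_three (a : j ≠ m.inf) (b : i ≠ m.inf) (c : k ≠ m.inf) (e : m.stem j = t)
    (e' : m.stem k = t) (d : j ≠ k) (d1 : i ≠ j) (d2 : i ≠ k) : m.stem i ≠ t := fun g =>
  r.ty_nbt h a b c (.inl e) (.inl e') g (r.ty_mid h a b c e e' (.inl g) d d1 d2)

/-- two segments from open faces to the same end of the line -/
theorem ty_start (a : m.Wk ps W t o e) (a' : m.Wk ps W t o' e) (st : m.stem e = t) (op : ¬ m.Sol W o)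
    (op' : ¬ m.Sol W o') : o = o' := by
  by_contra d
  have := mt (r.inj t o o' a.i1 a'.i1 a.h1 a'.h1) d
  have := mt (r.inj t o e a.i1 a.i2 a.h1 a.h2) a.ne
  have := mt (r.inj t o' e a'.i1 a.i2 a'.h1 a.h2) a'.ne
  have := r.ty_nbt h a.i1 a.i2 a'.i1 a.h1 a'.h1 st
  have := mt (a.sol o' a'.i1 a'.h1) op'
  have := mt (a'.sol o a.i1 a.h1) op
  unfold Bt at *
  omega

end Ord

/-- the piece on the stem of a face -/
theorem Ok.ty_tc (h : m.Ok) (ki : k ≠ m.inf) (c : m.Tc k z (m.stem k)) : m.cor k z := by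
  obtain ⟨u, d, o, l⟩ := c
  rcases h.piece ki o d with ⟨f, -⟩ | ⟨-, l'⟩
  exacts [f.fc.cor1, absurd (l.symm.trans l') (h.stem_ne k ki)]

/-- the flat cell and a corner of a face are not the halves of a rung -/
theorem Ok.ty_flat (h : m.Ok) (f : m.Fc k p q X) (b : m.Obj p X) : False := by
  obtain ⟨n1, n2, n3⟩ := h.fc_ne f
  rcases b with e | ⟨d, d', r, g⟩
  · exact n2 e
  have : m.cor k X := by
    rcases h.rung_face r g ⟨f.has1, f.has3⟩ with rfl | rfl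
    exacts [g.fc.cor2, (h.far_ge r g).fc.cor2]
  exact (f.cor_iff.1 this).elim n2.symm n3.symm

namespace HSt

variable (h : m.Ok) (r : m.Ord ps) (st : m.HSt U W)
include h r st

theorem ty_obj [Finite V] [Finite J] (b : m.TyO W u u') (a1 : i ≠ m.inf) (a2 : o ≠ m.inf)
    (a3 : k ≠ m.inf) (c : m.Tc i u t) (c' : m.Tc k u' t) (go : m.hug o t) (op : ¬ m.Sol W o)
    (bt : Bt ps t i o k) : m.X o = u ∨ m.X o = u' := by
  rcases b with rfl | ⟨d, d', f, g, so, so'⟩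
  exacts [.inl (r.flat a1 a2 a3 c go c' bt), st.obj h r f g so so' a1 a2 a3 c c' go op bt]

/-- two objects do not form both ends of a line with an open face -/
theorem ty_ends [Finite V] [Finite J] (f : m.Fc e p z X) (f' : m.Fc g p' z' Y) (ei : e ≠ m.inf)
    (gi : g ≠ m.inf) (oi : o ≠ m.inf) (s1 : m.stem e = t) (s2 : m.stem g = t) (d : e ≠ g)
    (go : m.hug o t) (op : ¬ m.Sol W o) (d1 : o ≠ e) (d2 : o ≠ g) (b : m.TyO W p p')
    (b' : m.TyO W z z') (n : p ≠ z') (n' : p' ≠ z) : False := by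
  have bt := r.ty_mid h ei oi gi s1 s2 go d d1 d2
  have := st.ty_obj h r b ei oi gi (h.tc_cor ei f.cor1 (.inl s1)) (h.tc_cor gi f'.cor1 (.inl s2)) go op bt
  have := st.ty_obj h r b' ei oi gi (h.tc_cor ei f.cor2 (.inl s1)) (h.tc_cor gi f'.cor2 (.inl s2)) go op bt
  have := (h.fc_ne f).1
  have := (h.fc_ne f').1
  grind

/-- the rung as a side -/
theorem ty_door (f : m.far d d') (g : m.GE d v p) (so : m.Sol W d) :
    m.Sid ps W v (m.stem d) d d' ∧ ∀ u, m.Sgm ps (m.stem d) d d' v u → u = p := by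
  have w := (st.sol_w h so g.fc).1
  refine ⟨(h.lines g.fc f.2.1).1 ▸ st.sid_one h r w g.fc.on (h.far_ge f g).fc.on f.1, fun u b => ?_⟩
  have := h.rung_ln f g b.1 b.2.1
  have := st.ne w
  tauto

omit r st in
/-- a ring wall is not the rung of a door -/
theorem ty_nst (f : m.far d d') (g : m.GE d v p) (so : m.Sol W d) (so' : m.Sol W d')
    (on : m.On o v u) (op : ¬ m.Sol W o) (b : m.Sgm ps t o k v u) : m.stem d ≠ t := fun e => by
  have := h.rung_ln f g b.1 (b.2.1.trans e.symm)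
  obtain rfl : u = p := by have := b.1.1; tauto
  rcases h.rung_face f g on with rfl | rfl <;> contradiction

/-- all the walls of a near cell disappear -/
theorem ty_kill [DecidableEq V] (n : m.Nm T U W μ D M) (cU : c ∈ U) (cD : c ∉ D) (e : μ c = 1)
    (cov : ∀ u, W c u → u ∈ D ∨ ∃ t j k i, i ∈ M ∧ m.hug i t ∧ m.Wk ps W t j k ∧
      (¬ m.Sol W j ∨ ∃ d ∈ D, m.has j d) ∧ m.Sgm ps t j k c u) : False :=
  n.neu.frees cU cD e fun u w => (cov u w).elim .inl fun ⟨_, _, _, _, c1, c2, c3, c4, c5⟩ =>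
    (st.gone h r n c1 c2 c3 c4 c5).resolve_left cD

end HSt

namespace TyC

variable [DecidableEq V] (G : m.TyC ps T N U W μ a x y j j' κ)
include G

theorem st : m.HSt U W := G.L.st
theorem f' : m.GE j' a y := G.ok.far_ge G.far G.f
theorem nxy : ¬ m.Adj x y := G.ok.s1 G.far G.f ⟨κ, G.fk⟩ G.xg G.xg'
theorem ki : κ ≠ m.inf := (G.st.bd1 G.L.wx).ne_inf G.fk.fc.has1
theorem ax : a ≠ x := G.st.ne G.L.wx
theorem ay : a ≠ y := G.st.ne G.L.wy
theorem lax : m.ln a x = m.stem κ := (G.ok.lines G.fk.fc G.ki).1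
theorem oay : m.TyO W a y := .inr ⟨j, j', G.far, G.f, G.so, G.so'⟩

theorem ob (c : TyS a x y z z') : m.TyO W z z' := by
  rcases c with ⟨rfl, rfl⟩ | ⟨rfl | rfl, rfl | rfl⟩
  exacts [.inl rfl, .inl rfl, G.oay, G.oay.symm, .inl rfl]

theorem nz (c : InZ x a y z) : m.Fe T W 2 z := by
  rcases c with rfl | rfl | rfl
  exacts [G.L.fa.wall G.L.wx, G.L.fa.mono (by omega), G.L.fa.wall G.L.wy]

theorem one (nw : m.Fe T W 8 w) (nd : m.Fe T W 8 u) (np : m.Fe T W 8 p) (r : m.Rn w u)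
    (r' : m.Rn w p) : u = p :=
  G.r1 w u p (G.L.near _ nw) (G.L.near _ nd) (G.L.near _ np) r r'

/-- a near cell has only one rung -/
theorem nr (r : m.far d d') (f : m.GE d w u) (f' : m.Fc k w p X) (nw : m.Fe T W 8 w)
    (nd : m.Fe T W 8 u) (np : m.Fe T W 8 p) (c : k ≠ d) (c' : k ≠ d') (i : J) : ¬ m.far k i := fun q => by
  obtain rfl := G.one nw np nd ⟨k, i, q, f'.ge⟩ ⟨d, d', r, f⟩
  exact (G.ok.rung_face r f f'.on).elim c c'

/-- only `y` is joined to `a` by a rung -/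
theorem nth (r : m.Rn v w) (nv : m.Fe T W 8 v) (c : w = a ∨ w = y) : v = a ∨ v = y := by
  have ny := G.L.n1 G.L.wy
  rcases c with rfl | rfl
  exacts [.inr (G.one G.L.na nv ny r.symm ⟨j, j', G.far, G.f⟩),
    .inl (G.one ny nv G.L.na r.symm ⟨j, j', G.far, G.f.symm⟩)]

theorem hard (f : m.Fc k p q X) (w : W p q) (n : ¬ (m.Sf W k p ∨ m.Sf W k q)) :
    ∃ j, m.far k j ∧ m.Sol W j := by
  by_contra c
  exact n (G.st.sf_open G.ok f w fun j r so => c ⟨j, r, so⟩)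

omit G [DecidableEq V] in
theorem npr (c : ¬ InZ x a y u) : ¬ Pr a x y u v ∧ ¬ Pr a x y v u := by
  unfold InZ at c; unfold Pr; tauto

variable [Finite V] [Finite J]

omit [Finite V] in
/-- the walk passes the end `k` of a rung; the next corner is not the end of a rung -/
theorem door (a₀ : m.Wk ps W t i k) (op : ¬ m.Sol W i) (r : m.far k d) (f : m.Fc k p z X)
    (b : m.Sgm ps t i k p X) (nz : m.Fe T W 7 z) : ∃ k' q X', m.Wk ps W t i k' ∧
      m.Sid ps W z t k k' ∧ Bt ps t i k k' ∧ m.Sol W k' ∧ m.Fc k' z q X' ∧ q ≠ p ∧ m.Fe T W 8 q ∧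
      ∀ n, ¬ m.far k' n := by
  obtain ⟨k', a', a₁, bt, -, so, e⟩ := G.st.pas1 G.ok G.ord G.nc a₀ op f b
  obtain ⟨q, f'⟩ := e.ge
  have br : m.bar k = t := (G.ok.lines f r.2.1).2.1.symm.trans b.2.1
  have c : k' ≠ d := by
    rintro rfl
    rcases a'.h2 with e | e
    exacts [G.ok.stem_ne k r.2.1 ((G.ok.far_stem r).trans (e.trans br.symm)),
      G.ok.far_bar r (br.trans e.symm)]
  have nq := nz.wall (G.st.sol_w G.ok so f'.fc).1
  refine ⟨k', q, _, a', a₁, bt, so, f'.fc, ?_, nq, G.nr r f.symm.ge f'.fc (nz.mono (by omega))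
    ((G.L.s0 G.ok G.ord a₀ op b).mono (by omega)) nq a₁.wk.ne.symm c⟩
  rintro rfl
  exact (G.ok.rung_face r f.symm.ge f'.fc.on).elim a₁.wk.ne.symm c

/-- (LEAD) the first corner with a cell of the zone -/
theorem lead (vz : ¬ InZ x a y v) (w : W v u) (on : m.On o v u) (op : ¬ m.Sol W o) :
    (∃ k p z X, m.TyL ps W (m.ln v u) o k v p ∧ m.Sgm ps (m.ln v u) o k v u ∧ m.Fc k p z X ∧
      ¬ InZ x a y p ∧ InZ x a y z) ∨ ∃ d d', m.far d d' ∧ m.GE d v x ∧ m.Sol W d ∧ m.Sol W d' ∧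
      m.bar d = m.ln v u ∧ m.Wk ps W (m.ln v u) o d ∧ m.Sgm ps (m.ln v u) o d v u := by
  have h := G.ok
  have st := G.st
  obtain ⟨k, a₀, b, c⟩ := st.nxt h G.ord w on
  have so := (G.nc _ _ _ a₀.wk).resolve_left op
  obtain ⟨q, f⟩ := (c.resolve_left (not_not.2 so)).ge
  have wq := (st.sol_w h so f.fc).1
  have bv : m.Bdy W v := ⟨o, on.1, op⟩
  have rc : ∀ {z j k n D}, ¬ InZ x a y z → m.Sid ps W z (m.ln v u) j k → m.hug n (m.ln v u) →
      m.Rc W D (m.Hgd T {n} (Pr a x y)) j → m.Rc W D (m.Hgd T {n} (Pr a x y)) k :=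
    fun zz c g r => st.rc_end h G.ord c.wk r fun p q e => .inl <| by
      rcases st.sid_row h G.ord c e with rfl | rfl
      exacts [.of (by simp) g e.2.1 (npr zz).1 (npr zz).2, .of (by simp) g e.2.1 (npr zz).2 (npr zz).1]
  by_cases sf : m.Sf W k v ∨ m.Sf W k q
  · refine .inl ⟨k, v, q, _, ⟨op, so, a₀.wk, .inl ⟨rfl, a₀⟩⟩, b, f.fc, vz, ?_⟩
    have := G.L.f1S h f.fc (G.L.b1 h bv w) (G.L.b2 h bv wq) sf (rc vz a₀ a₀.wk.h2 (.op op))
    unfold InZ at *
    tauto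
  obtain ⟨k', r, so'⟩ := G.hard f.fc wq sf
  have br := a₀.wk.h2.resolve_left (HSt.ty_nst h r f so so' on op b)
  by_cases e : q = x
  · exact .inr ⟨k, k', r, e ▸ f, so, so', br, a₀.wk, b⟩
  have qz : ¬ InZ x a y q := fun c => by
    have := G.nth ⟨k, k', r, f⟩ (G.L.b1 h bv w) (c.resolve_left e)
    unfold InZ at vz
    tauto
  obtain ⟨n, z, X, a', a₁, bt, sn, f', -, nz, nr⟩ := G.door a₀.wk op r f.fc
    (st.sid_lbar h G.ord a₀ f.fc br) (((G.L.b0 h bv w).wall wq).mono (by omega))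
  refine .inl ⟨n, q, z, X, ⟨op, sn, a', .inr ⟨k, k', r, f, so, so', br, a₀, a₁, bt⟩⟩, b.mono bt.bw, f',
    qz, ?_⟩
  have := G.L.f1S h f' (G.L.b2 h bv wq) nz (.inl (.of_not nr))
    (rc qz a₁ a'.h2 (rc vz a₀ a'.h2 (.op op)))
  unfold InZ at *
  tauto

end TyC

end Map

end Pool.Agent.P.MP_5f84aa_co.G
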