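import Pool.Agent.P.MP_5f84aa_co.G.LH1a

/-! Type GR with a door, the object at the end of a run, part b: the row at the end of a run, the next
corner of a class. -/

namespace Pool.Agent.P.MP_5f84aa_co.G

namespace Map

variable {V J Sg : Type} {m : Map V J Sg} {ps : J → Sg → ℤ} {t s : Sg} {T : Set Sg} {N : V → Prop}
  {μ : V → ℕ} {W : V → V → Prop} {U D : Finset V} {M : Finset J}
  {a c p p' q u u' v w w' x y z z' θ X X' Y : V} {d d' e g i i' j j' k k' n o o' κ φ : J}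

namespace TyC

variable [DecidableEq V] (G : m.TyC ps T N U W μ a x y j j' κ)
include G

theorem nk (c : m.cor k p) (pz : ¬ InZ x a y p) : k ≠ κ := fun e => by
  have := G.fk.fc.cor_iff.1 (e ▸ c)
  unfold InZ at pz
  tauto

theorem nv (l : m.TyL ps W t o k v p) : m.Fe T W 0 v ∧ m.Fe T W 1 p := by
  obtain ⟨u, -, b⟩ := l.fst
  have := G.L.s0 G.ok G.ord l.wk l.op b
  refine ⟨this, ?_⟩
  rcases l.cs with ⟨rfl, -⟩ | ⟨d, d', -, f, so, -⟩
  exacts [this.mono (by omega), this.wall (G.st.sol_w G.ok so f.fc).1]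

/-- the door does not lie on a line with an open face -/
theorem nrg (c : m.Wk ps W t o k) (op : ¬ m.Sol W o) : t ≠ m.stem j := fun l => by
  obtain ⟨u, v, w, on, b⟩ := c.p1
  have on' : m.On o a y := by
    rcases G.ok.rung_ln G.far G.f b.1 (b.2.1.trans l) with ⟨rfl, rfl⟩ | ⟨rfl, rfl⟩
    exacts [on, on.symm]
  rcases G.ok.rung_face G.far G.f on' with rfl | rfl
  exacts [op G.so, op G.so']

variable [Finite V] [Finite J]

/-- (XDOOR) the ring cell at the end of a run has no door to `x` -/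
theorem xdoor (l : m.TyL ps W t o e v p) (f : m.Fc e p z X) (s : m.stem e = t) (vz : ¬ InZ x a y v)
    (pz : ¬ InZ x a y p) (zz : InZ x a y z) (oκ : m.stem κ = t → o ≠ κ) (r : m.far d d') (g : m.GE d v x)
    (so : m.Sol W d) (so' : m.Sol W d') : False := by
  have h := G.ok
  obtain ⟨nv, np⟩ := G.nv l
  obtain rfl : p = v := by
    rcases l.cs with ⟨c, -⟩ | ⟨i, i', r', g', -⟩
    · exact c
    · exact absurd (.inl (G.one (nv.mono (by omega)) (np.mono (by omega)) (G.L.n1 G.L.wx)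
        ⟨i, i', r', g'⟩ ⟨d, d', r, g⟩)) pz
  obtain ⟨u, on, b⟩ := l.fst
  have zx : z ≠ x := by
    rintro rfl
    refine HSt.ty_nst h r g so so' on l.op b ?_
    rcases h.rung_face r g f.on with rfl | rfl
    exacts [s, (h.far_stem r).trans s]
  have ob : m.TyO W z a := G.ob (.inr ⟨zz.resolve_left zx, .inl rfl⟩)
  have pa : p ≠ a := fun e => pz (.inr (.inl e))
  have e1 := h.s5 (.inr ⟨d, d', r, g⟩) ob.obj (h.adj12 f) (h.adj12 G.fk.fc).symm pa zx.symm
  have e2 := G.lax.symm.trans ((h.ln_symm _ _).trans (e1.symm.trans ((h.lines f l.wk.i2).1.trans s)))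
  exact G.st.ty_ends h G.ord f G.fk.fc.symm l.wk.i2 G.ki l.wk.i1 s e2
    (G.nk f.cor1 pz) l.wk.h1 l.op l.wk.ne (oκ e2) (.inr ⟨d, d', r, g, so, so'⟩) ob pa zx.symm

/-- (REND) the object at the end of a run -/
theorem rend (R : m.Ray ps W t o e) (eκ : e ≠ κ) (oκ : m.stem κ = t → o ≠ κ) :
    ∃ v p z X, m.TyL ps W t o e v p ∧
    m.Fc e p z X ∧ ¬ InZ x a y v ∧ ¬ InZ x a y p ∧ InZ x a y z := by
  have h := G.ok
  have st := G.st
  have r := G.ord
  obtain ⟨sd, S⟩ := G.sd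
  have nr := G.nrg R.wk R.op
  have nl : m.ln a x = t → Bt ps t e o κ := fun l =>
    r.ty_mid h R.wk.i2 R.wk.i1 G.ki R.st (G.lax.symm.trans l) R.wk.h1 eκ R.wk.ne
      (oκ (G.lax.symm.trans l))
  have npr : ∀ u v, m.Sgm ps t o e u v → ¬ Pr a x y u v := by
    rintro _ _ b ⟨rfl, rfl | rfl⟩
    · have := nl b.2.1
      have := (b.2.2 κ G.fk.fc.on).2
      unfold Bt Bw at *
      omega
    · exact nr (b.2.1.symm.trans (h.lines G.f.fc G.far.2.1).1)
  have fc : ∀ {u w}, m.Sgm ps t o e u w → Bt ps t e o κ → ∃ i, i ≠ m.inf ∧ m.Tc i u t ∧ Bt ps t i o κ :=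
    fun b bt => by
      obtain ⟨-, i, p⟩ := b.1
      obtain ⟨i', -, p', -, -, -, q⟩ := b.two h r p
      have e1 := b.2.2 i p
      have e2 := b.2.2 i' p'
      by_cases c : ps i t = ps o t
      · exact ⟨i', e2.1, b.tc p', by have := e2.2; unfold Bt Bw at *; omega⟩
      · exact ⟨i, e1.1, b.tc p, by have := e1.2; unfold Bt Bw at *; omega⟩
  have cross : ∀ {θ w w'}, θ = a ∨ θ = y → m.Sgm ps t o e x w → m.Sgm ps t o e θ w' →
      sd x t = sd θ t := fun {θ _ _} c b b' => by_contra fun n => by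
    have l := (h.ln_symm _ _).trans (S.one t x θ x a nr b.onL b'.onL n (.inl rfl)
      (by unfold Th2; tauto) (h.adj12 G.fk.fc).symm)
    have g : m.hug κ t := .inl (G.lax.symm.trans l)
    obtain ⟨i, i1, i2, i3⟩ := fc b (nl l)
    obtain ⟨k, k1, k2, k3⟩ := fc b' (nl l)
    have e1 := r.flat i1 R.wk.i1 G.ki i2 R.wk.h1 (h.tc_cor G.ki G.fk.fc.cor2 g) i3
    have e2 := st.ty_obj h r (G.ob (.inr ⟨c, .inl rfl⟩)) k1 R.wk.i1 G.ki k2
      (h.tc_cor G.ki G.fk.fc.cor1 g) R.wk.h1 R.op k3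
    have := G.ax
    have := G.L.ne
    grind
  have row : ∀ {z z' w w'}, InZ x a y z → InZ x a y z' → m.Sgm ps t o e z w → m.Sgm ps t o e z' w' →
      sd z t = sd z' t := by
    have e := congrFun S.th t
    rintro _ _ _ _ (rfl | rfl | rfl) (rfl | rfl | rfl) b b'
    exacts [rfl, cross (.inl rfl) b b', cross (.inr rfl) b b', (cross (.inl rfl) b' b).symm, rfl, e,
      (cross (.inr rfl) b' b).symm, e.symm, rfl]
  have f := fc_self (m := m) e
  have b₀ := ((st.wk_cor h r R.wk f).resolve_right fun c => h.stem_ne e R.wk.i2 (R.st.trans c.1.symm)).2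
  obtain ⟨u₀, v₀, w₀, on, b₁⟩ := R.wk.p1
  obtain ⟨z, w, zz, bz⟩ : ∃ z w, InZ x a y z ∧ m.Sgm ps t o e z w := by
    have := G.L.f1S h f ((G.L.s0 h r R.wk R.op b₀).mono (by omega))
      ((G.L.s0 h r R.wk R.op (b₀.symm h)).mono (by omega))
      (st.sf_open h f (st.wk_w h r R.wk b₀) fun i q => by
        have on' : m.On o (m.L e) (m.R e) := by
          rcases h.rung_ln q f.ge b₁.1 (b₁.2.1.trans R.st.symm) with ⟨rfl, rfl⟩ | ⟨rfl, rfl⟩
          exacts [on, on.symm]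
        exact ((h.rung_face q f.ge on').resolve_left R.wk.ne) ▸ R.op)
      (st.rc_end h r R.wk (.op R.op) fun u v b => .inl (.of (by simp) R.wk.h2 b.2.1 (npr _ _ b)
        (npr _ _ (b.symm h))))
    rcases this with c | c
    exacts [⟨_, _, by unfold InZ; tauto, b₀⟩, ⟨_, _, by unfold InZ; tauto, b₀.symm h⟩]
  obtain ⟨v, u, on, b, n⟩ : ∃ v u, m.On o v u ∧ m.Sgm ps t o e v u ∧ sd v t ≠ sd z t := by
    have := S.sgm nr b₁
    by_cases c : sd u₀ t = sd z t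
    exacts [⟨v₀, u₀, on.symm, b₁.symm h, fun q => this (c.trans q.symm)⟩, ⟨u₀, v₀, on, b₁, c⟩]
  have vz : ¬ InZ x a y v := fun c => n (row c zz b bz)
  have land : ∀ {k p q X}, m.Fc k p q X → m.Wk ps W t o k → Bt ps t o k e → InZ x a y q →
      sd p t = sd z t := fun f a bt c => by
    have br := r.bar_of_bt a.i1 a.i2 R.wk.i2 a.h1 a.h2 R.wk.h2 bt
    exact (br ▸ S.bar _ _ _ _ a.i2 f).trans (row c zz (st.wk_land h r R.wk f.symm br a.i2 bt) bz)
  rcases G.lead vz (st.wk_w h r R.wk b) on R.op with ⟨k, p, q, X, l, c, g, pz, qz⟩ |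
    ⟨d, d', q, g, -, -, br, l, c⟩ <;> rw [b.2.1] at l c
  · rcases HSt.wk_le h r l.wk R.wk R.st c b with rfl | bt
    · exact ⟨v, p, q, X, l, g, vz, pz, qz⟩
    refine absurd (Eq.trans ?_ (land g l.wk bt qz)) n
    rcases l.cs with ⟨rfl, -⟩ | ⟨d, d', q, g', -, -, br, -⟩
    exacts [rfl, br ▸ S.bar _ _ _ _ q.2.1 g'.fc]
  · rcases HSt.wk_le h r l R.wk R.st c b with rfl | bt
    exacts [absurd (R.st.trans (br.trans b.2.1).symm) (h.stem_ne _ q.2.1),
      absurd (land g.fc l bt (.inl rfl)) n]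

/-- the walk passes the second end `g` of the line of `a x`; the next usable corner of the class -/
theorem nxtZ (a₀ : m.Wk ps W s o g) (op : ¬ m.Sol W o) (f : m.Fc g p z Y) (b : m.Sgm ps s o g p Y)
    (pz : ¬ InZ x a y p) (zz : InZ x a y z) (sg : m.stem g = m.stem κ) :
    ∃ n θ w X, m.Wk ps W s o n ∧ Bt ps s o g n ∧ m.Fc n θ w X ∧ TyS a x y z θ ∧
      (m.Sf W n θ ∨ m.Sf W n w) ∧ m.ln θ w ≠ m.stem κ ∧ m.Fe T W 8 w := by
  have h := G.ok
  have st := G.st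
  have r := G.ord
  have gκ := G.nk f.cor1 pz
  have br : m.bar g = s := (h.lines f a₀.i2).2.1.symm.trans b.2.1
  have sl : m.stem κ ≠ s := sg ▸ br ▸ h.stem_ne g a₀.i2
  have nl : ∀ {n θ w X}, m.Wk ps W s o n → Bt ps s o g n → m.Fc n θ w X → m.ln θ w ≠ m.stem κ :=
    fun {n _ _ _} c bt q => (h.lines q c.i2).1 ▸ r.ty_three h G.ki c.i2 a₀.i2 rfl sg gκ.symm (by
      rintro rfl
      exact h.bars_ne _ _ gκ a₀.i2 c.i2 sg (br.trans (c.h2.resolve_left sl).symm))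
      (by rintro rfl; unfold Bt at bt; omega)
  obtain ⟨k, a₁, c₁, bt, -, so, e⟩ := st.pas1 h r G.nc a₀ op f b
  obtain ⟨w, g₁⟩ := e.ge
  have ww := (st.sol_w h so g₁.fc).1
  have nz := G.nz zz
  have nw := nz.wall ww
  by_cases sf : m.Sf W k z ∨ m.Sf W k w
  · exact ⟨k, z, w, _, a₁, bt, g₁.fc, zz.imp (fun c => ⟨c, c⟩) fun c => ⟨c, c⟩, sf, nl a₁ bt g₁.fc,
      nw.mono (by omega)⟩
  obtain ⟨k', q, -⟩ := G.hard g₁.fc ww sf
  obtain ⟨n, η, X, a₂, -, bt', sn, g₂, ne, nη, nr⟩ := G.door a₁ op q g₁.fc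
    ((st.sid_lbar h r c₁ g₁.fc (a₁.h2.resolve_left (br ▸ h.far_not_bar q a₀.i2))).tail bt.bw)
    (nw.mono (by omega))
  have bt₂ : Bt ps s o g n := by unfold Bt at *; omega
  rcases zz with rfl | c
  swap
  · exact ⟨n, w, η, X, a₂, bt₂, g₂, .inr ⟨c, G.nth (Rn.symm ⟨k, k', q, g₁⟩) (nw.mono (by omega)) c⟩,
      .inl (.of_not nr), nl a₂ bt₂ g₂, nη⟩
  have wz : ¬ InZ z a y w := by
    rintro (e | e)
    · exact st.ne ww e.symm
    · have := G.nth ⟨k, k', q, g₁⟩ (nz.mono (by omega)) e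
      have := G.ax
      have := G.L.ne
      tauto
  have npr : ∀ u v, m.ln u v = s → ¬ Pr a z y u v := by
    rintro _ _ l ⟨rfl, rfl | rfl⟩
    exacts [sl (G.lax.symm.trans l), G.nrg a₀ op (l.symm.trans (h.lines G.f.fc G.far.2.1).1)]
  have e := G.L.f1S h g₂ (nw.mono (by omega)) nη (.inl (.of_not nr))
    (st.rc_end h r a₂ (.op op) fun u v b => .inl (.of (by simp) a₂.h2 b.2.1 (npr _ _ b.2.1)
      (npr _ _ (b.symm h).2.1)))
  have c : η = a ∨ η = y := by unfold InZ at wz; tauto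
  exact absurd ((h.s5 (.inr ⟨k, k', q, g₁⟩) (G.ob (.inr ⟨.inl rfl, c⟩)).obj (h.adj12 G.fk.fc).symm
    (h.adj12 g₂) ne.symm fun e => wz (.inr (.inl e))).symm.trans ((h.ln_symm _ _).trans G.lax))
    (nl a₂ bt₂ g₂)

end TyC

end Map

end Pool.Agent.P.MP_5f84aa_co.G
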