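import Pool.Agent.P.MP_5f84aa_co.G.LHs
import Pool.Agent.P.MP_5f84aa_co.G.LR1a
import Pool.Agent.P.MP_5f84aa_co.G.LG2a
import Pool.Agent.P.MP_5f84aa_co.G.LG3a

/-! Type GR, both halves of the rung interior, part 0: data and basic moves. -/

namespace Pool.Agent.P.MP_5f84aa_co.G

namespace Map

variable {V J Sg : Type}

/-- a cell of the zone -/
def Zc (a x y u : V) : Prop := u = a ∨ u = x ∨ u = y

/-- a ring cell `v` with the single solid corner `k`; the line from `o` ends there -/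
structure II (m : Map V J Sg) (ps : J → Sg → ℤ) (W : V → V → Prop) (v z : V) (k o o' : J) : Prop where
  f : m.GE k v z
  so : m.Sol W k
  a : m.Sid ps W v (m.stem k) o k
  op : ¬ m.Sol W o
  b : m.Sid ps W v (m.bar k) k o'
  op' : ¬ m.Sol W o'

/-- a ring cell `v` with two solid corners `e`, `k`; the flat cell of `e` lies in the zone -/
structure PHI (m : Map V J Sg) (ps : J → Sg → ℤ) (W : V → V → Prop) (a x y v z z' : V)
    (e k o o' : J) : Prop where
  f : m.GE e v z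
  on : m.On e a x
  so : m.Sol W e
  a₀ : m.Sid ps W v (m.stem e) o e
  op : ¬ m.Sol W o
  a₁ : m.Sid ps W v (m.bar e) e k
  f' : m.GE k v z'
  so' : m.Sol W k
  st : m.stem k = m.bar e
  zz : Zc a x y z'
  ne : z' ≠ z
  a₂ : m.Sid ps W v (m.bar k) k o'
  op' : ¬ m.Sol W o'

/-- two such cells in a row: the line from `o₁` passes `k` and ends at `k'` -/
structure Two (m : Map V J Sg) (ps : J → Sg → ℤ) (W : V → V → Prop) (c z c' z' : V)
    (k k' o o₁ o₂ : J) : Prop where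
  p : m.II ps W c z k o o₁
  q : m.II ps W c' z' k' o₁ o₂
  st : m.stem k' = m.bar k
  bt : Bt ps (m.bar k) o₁ k k'

/-- the light at `k` is safe if `u`, `v` are removed and the lines of `n` are lit -/
def Sq (m : Map V J Sg) (W : V → V → Prop) (k : J) (u v : V) (n : J) : Prop :=
  ∃ c, m.cor k c ∧ ∀ j, m.far k j → W c (m.X j) → m.X j = u ∨ m.X j = v ∨ m.hug n (m.bar j)

/-- a confined state without cuts in which both halves of the rung `a y` are interior -/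
structure I0 [DecidableEq V] (m : Map V J Sg) (ps : J → Sg → ℤ) (T : Set Sg) (N : V → Prop)
    (U : Finset V) (W : V → V → Prop) (μ : V → ℕ) (sd : V → Sg → Bool) (a x y : V) (g g' κ : J) :
    Prop where
  L : m.Loc T N U W μ a x y
  ok : m.Ok
  ext : m.Ext
  ord : m.Ord ps
  nc : m.NoCut ps W
  se : ∀ v, m.Sect W v
  r1 : ∀ b u v, N b → N u → N v → m.Rn b u → m.Rn b v → u = v
  far : m.far g g'
  f : m.GE g a y
  fk : m.GE κ a x
  xg : x ≠ m.X g
  xg' : x ≠ m.X g'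
  sdf : m.Sdf a y (m.stem g) sd
  ia : ¬ m.Bdy W a
  iy : ¬ m.Bdy W y
  ty : ∀ t o e, m.Ray ps W t o e → e ≠ κ → ∃ v z, ¬ Zc a x y v ∧ Zc a x y z ∧
    ((∃ o', m.II ps W v z e o o') ∨ ∃ z' k o', m.PHI ps W a x y v z z' e k o o')

variable {m : Map V J Sg} {ps : J → Sg → ℤ} {t t' : Sg} {T : Set Sg} {N : V → Prop} {μ : V → ℕ}
  {W : V → V → Prop} {U D : Finset V} {sd : V → Sg → Bool} {M : Finset J}
  {a c c' d p q u v w x y z z' θ X X' : V} {e f i j j' k k' n g g' κ o o' o₁ o₂ : J}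

theorem Sq.of_not (b : ∀ j, ¬ m.far k j) : m.Sq W k u v n :=
  ⟨m.L k, .inl rfl, fun j r => absurd r (b j)⟩

theorem Sq.of_sf (f : m.Fc k p q X) (b : m.Sf W k p ∨ m.Sf W k q) : m.Sq W k u v n :=
  b.elim (fun b => ⟨p, f.cor1, fun j r w => absurd w (b j r)⟩)
    fun b => ⟨q, f.cor2, fun j r w => absurd w (b j r)⟩

theorem Sq.of_flat (b : ∀ j, m.far k j → m.X j = u ∨ m.X j = v) : m.Sq W k u v n :=
  ⟨m.L k, .inl rfl, fun j r _ => (b j r).imp_right .inl⟩

theorem II.bdy (p : m.II ps W v z k o o') : m.Bdy W v := let ⟨_, b, _⟩ := p.a.fst; ⟨o, b.1, p.op⟩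
theorem PHI.bdy (p : m.PHI ps W a x y v z z' e k o o') : m.Bdy W v :=
  let ⟨_, b, _⟩ := p.a₀.fst; ⟨o, b.1, p.op⟩

/-- one of the two ends of a rung on a cycle is inner -/
theorem HSt.rung_in {E : V → V → Prop} (h : m.Ok) (st : m.HSt U W) (r : m.far j j') (f : m.GE j u v)
    (e : E u v) : ∃ i i', m.GE i u v ∧ m.On i' u v ∧ i' ≠ i ∧ m.Ou W E i' := by
  have f' := h.far_ge r f
  by_contra n
  have n1 : ¬ m.Ou W E j := fun q => n ⟨j', j, f', f.fc.on, r.1, q⟩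
  have n2 : ¬ m.Ou W E j' := fun q => n ⟨j, j', f, f'.fc.on, r.1.symm, q⟩
  simp only [Ou, not_forall, not_not] at n1 n2
  obtain ⟨F, s, so, c⟩ := n1
  obtain ⟨F', s', so', c'⟩ := n2
  have key : j ∈ {i | i ∈ F ↔ i ∈ F'} := by
    refine h.conn_faces (j := m.inf) ?_ (iff_of_false (fun q => st.sol_inf h (so _ q) rfl)
      fun q => st.sol_inf h (so' _ q) rfl)
    rintro p q ⟨n, i, i', o, o', iG, iG'⟩
    have d : i ≠ i' := fun e => iG' (e ▸ iG)
    have := (h.spl_iff (F := F) n o o' d).symm.trans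
      ((s p q).trans ((s' p q).symm.trans (h.spl_iff n o o' d)))
    change (_ ↔ _) at iG
    change ¬ (_ ↔ _) at iG'
    tauto
  exact r.1 (h.side_one s' e f.fc.on f'.fc.on (iff_of_true (key.1 c) c'))

/-- two neutral lights; the shadows may fall on removed cells or lit lines -/
theorem Loc.nmQ [DecidableEq V] [Finite V] [DecidableEq J] (L : m.Loc T N U W μ a x y) (h : m.Ok)
    (f : m.Fc k p q X) (f' : m.Fc k' u v X') (d1 : p ≠ u) (d2 : p ≠ v) (d3 : q ≠ u) (d4 : q ≠ v)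
    (np : m.Fe T W 8 p) (nq : m.Fe T W 8 q) (nu : m.Fe T W 8 u) (nv : m.Fe T W 8 v)
    (sf : m.Sq W k u v k') (sf' : m.Sq W k' p q k)
    (rc : m.Rc W {p, q, u, v} (m.Hgd T {k, k'} No) k)
    (rc' : m.Rc W {p, q, u, v} (m.Hgd T {k, k'} No) k') : m.Nm T U W μ {p, q, u, v} {k, k'} := by
  refine ⟨?_, by simpa using ⟨⟨k, f.has1, rc⟩, ⟨k, f.has2, rc⟩, ⟨k', f'.has1, rc'⟩, k', f'.has2, rc'⟩⟩
  have e1 : ({p, q, u, v} : Finset V) = {q, p, u, v} := Finset.insert_comm _ _ _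
  have e2 : ∀ p q : V, ({p, q, u, v} : Finset V) = {p, q, v, u} := fun p q => by
    rw [Finset.pair_comm u v]
  obtain ⟨c, c1, s⟩ := sf
  obtain ⟨c', c2, s'⟩ := sf'
  rcases f.cor_iff.1 c1 with rfl | rfl <;> rcases f'.cor_iff.1 c2 with rfl | rfl
  · exact L.neu2 h f f' d1 d2 d3 d4 np nq nu nv (fun j a w => .inr (s j a w))
      (fun j a w => .inr (s' j a w)) rc rc'
  · rw [e2] at rc rc' ⊢
    exact L.neu2 h f f'.symm d2 d1 d4 d3 np nq nv nu (fun j a w => by have := s j a w; tauto)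
      (fun j a w => .inr (s' j a w)) rc rc'
  · rw [e1] at rc rc' ⊢
    exact L.neu2 h f.symm f' d3 d4 d1 d2 nq np nu nv (fun j a w => .inr (s j a w))
      (fun j a w => by have := s' j a w; tauto) rc rc'
  · rw [e1, e2] at rc rc' ⊢
    exact L.neu2 h f.symm f'.symm d4 d3 d2 d1 nq np nv nu (fun j a w => by have := s j a w; tauto)
      (fun j a w => by have := s' j a w; tauto) rc rc'

namespace I0

variable [DecidableEq V] (G : m.I0 ps T N U W μ sd a x y g g' κ)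
include G

theorem st : m.HSt U W := G.L.st
theorem f' : m.GE g' a y := G.ok.far_ge G.far G.f

/-- the two ends of the rung change places -/
theorem symm : m.I0 ps T N U W μ sd a x y g' g κ :=
  { G with far := G.far.symm, f := G.f', xg := G.xg', xg' := G.xg, sdf := G.ok.far_stem G.far ▸ G.sdf }

theorem int (c : θ = a ∨ θ = y) : ¬ m.Bdy W θ := by rcases c with rfl | rfl; exacts [G.ia, G.iy]
theorem sol (c : θ = a ∨ θ = y) (b : m.has k θ) : m.Sol W k := by_contra fun n => G.int c ⟨k, b, n⟩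
theorem sk : m.Sol W κ := G.sol (.inl rfl) G.fk.fc.has1
theorem ki : κ ≠ m.inf := G.st.sol_inf G.ok G.sk
theorem lk : m.ln a x = m.stem κ := (G.ok.lines G.fk G.ki).1

theorem nxy : ¬ m.Adj x y := G.ok.s1 G.far G.f G.L.gx G.xg G.xg'

theorem nz (c : Zc a x y z) : m.Fe T W 2 z := by
  rcases c with rfl | rfl | rfl
  exacts [G.L.fa.mono (by omega), G.L.fa.wall G.L.wx, G.L.fa.wall G.L.wy]

/-- a near cell has only one rung -/
theorem nr (r : m.far j j') (f : m.GE j w d) (f' : m.Fc k w p X) (nw : m.Fe T W 8 w)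
    (nd : m.Fe T W 8 d) (np : m.Fe T W 8 p) (c : k ≠ j) (c' : k ≠ j') (i : J) : ¬ m.far k i := fun q => by
  obtain rfl := G.r1 w p d (G.L.near _ nw) (G.L.near _ np) (G.L.near _ nd) ⟨k, i, q, f'.ge⟩ ⟨j, j', r, f⟩
  exact (G.ok.rung_face r f f'.on).elim c c'

/-- the other corners of the two halves are good -/
theorem good (c : θ = a ∨ θ = y) (f : m.Fc k θ p X) (d : k ≠ g) (d' : k ≠ g') (i : J) : ¬ m.far k i := by
  have w := (G.st.sol_w G.ok (G.sol c f.has1) f).1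
  rcases c with rfl | rfl
  exacts [G.nr G.far G.f f G.L.na (G.L.n1 G.L.wy) (G.L.n1 w) d d' i,
    G.nr G.far G.f.symm f (G.L.n1 G.L.wy) G.L.na (G.L.n2 G.L.wy w) d d' i]

theorem kg : κ ≠ g := fun e => G.L.ne ((e ▸ G.fk : m.GE g a x).fc.unique G.f.fc (G.st.ne G.L.wx)).1
theorem kgood (i : J) : ¬ m.far κ i := G.good (.inl rfl) G.fk.fc G.kg G.symm.kg i

/-- `κ` is the only corner between `a` and `x` -/
theorem k_eq (f : m.Fc k a x X) : k = κ := by_contra fun n =>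
  G.kgood k (G.ok.far_of_fc (G.st.bd1 G.L.wx) (Ne.symm n) G.fk.fc f)

theorem hard (f : m.Fc k p q X) (w : W p q) (n : ¬ (m.Sf W k p ∨ m.Sf W k q)) :
    ∃ j, m.far k j ∧ m.Sol W j := by
  by_contra c
  exact n (G.st.sf_open G.ok f w fun j r so => c ⟨j, r, so⟩)

/-- a segment from an open face does not lie on the rung -/
theorem nrl (a₀ : m.Wk ps W t o k) (op : ¬ m.Sol W o) : t ≠ m.stem g := by
  rintro rfl
  obtain ⟨u, v, -, b, c⟩ := a₀.p1
  rcases G.ok.rung_ln G.far G.f c.1 c.2.1 with ⟨rfl, -⟩ | ⟨rfl, -⟩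
  exacts [G.ia ⟨o, b.1, op⟩, G.iy ⟨o, b.1, op⟩]

/-- (SD) neighbours on different sides of a line touch along this line -/
theorem sdo (n : t ≠ m.stem g) (b : m.OnL u t) (b' : m.OnL v t) (d : sd u t ≠ sd v t)
    (c : m.Adj u v) : m.ln u v = t := G.sdf.one t u v u v n b b' d (.inl rfl) (.inl rfl) c

/-- (XR) the second half of a rung of `x` without the flat cell `a` -/
theorem xr (r : m.far j j') (f : m.GE j x d) (w : W x d) (n : m.X j ≠ a) (n' : m.X j' ≠ a) :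
    ¬ m.Adj d a ∧ ¬ W d y := by
  have h := G.ok
  have st := G.st
  have na : ¬ m.Adj d a := fun c =>
    (h.s2 r f (st.adj _ _ G.L.wx) c.symm).elim (fun e => n e.symm) fun e => n' e.symm
  refine ⟨na, fun wy => ?_⟩
  have da : d ≠ a := fun e => G.kgood j' ((G.k_eq (e ▸ f).symm.fc) ▸ r)
  obtain ⟨i, i', b1, b2, b3, b4⟩ := st.rung_in (E := E4 x d y a) h r f (.inl rfl)
  obtain ⟨k, k', c1, c2, c3, c4⟩ := st.rung_in (E := E4 x d y a) h G.far G.f.symm (.inr (.inr (.inl rfl)))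
  obtain rfl := st.quad h w wy (st.sym _ _ G.L.wy) G.L.wx G.L.ne da (fun q => G.nxy (st.adj _ _ q))
    (fun q => na (st.adj _ _ q)) (.inl rfl) b1.fc b2 b3 b4 (.inr (.inr (.inl rfl))) c1.fc c2 c3 c4
  exact (c1.fc.cor_iff.1 b1.fc.cor1).elim G.L.ne (st.ne G.L.wx).symm

variable [Finite V] [Finite J]

/-- (F1) at a face of a segment from an open face -/
theorem f1 (a₀ : m.Wk ps W t o k) (op : ¬ m.Sol W o) (f : m.Fc k p q X)
    (sf : m.Sf W k p ∨ m.Sf W k q) : Zc a x y p ∨ Zc a x y q := by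
  have h := G.ok
  have so := (G.nc _ _ _ a₀).resolve_left op
  by_cases e : k = κ
  · subst e
    rcases f.cor_iff.1 G.fk.fc.cor1 with rfl | rfl
    exacts [.inl (.inl rfl), .inr (.inl rfl)]
  have n : ∀ u v, m.Sgm ps t o k u v → ¬ Pr a x y u v := by
    rintro u v b ⟨rfl, rfl | rfl⟩
    · have l := G.lk.symm.trans b.2.1
      exact h.stem_ne κ G.ki (l.trans (G.ord.bar_of_bt a₀.i1 G.ki a₀.i2 a₀.h1 (.inl l) a₀.h2
        (G.ord.bt_of a₀.i1 G.ki a₀.i2 a₀.h1 (.inl l) a₀.h2 (b.2.2 κ G.fk.fc.on).2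
          (fun q => op (q ▸ G.sk)) (Ne.symm e))).symm)
    · exact G.nrl a₀ op (b.2.1.symm.trans (h.lines G.f G.far.2.1).1)
  have nr := fun u c => (G.st.seg_near (T := T) (u := u) h G.ord a₀ op so c).mono (e := 8) (by omega)
  exact G.L.f1S h f (nr _ f.has1) (nr _ f.has2) sf (G.st.rc_end h G.ord a₀ (.op op) fun u v b =>
    .inl (.of (by simp) a₀.h2 b.2.1 (n u v b) (n v u (b.symm h))))

/-- (F1) at a corner of a ring cell -/
theorem f1b (b : m.Bdy W p) (so : m.Sol W k) (f : m.Fc k p q X) (sf : m.Sf W k p ∨ m.Sf W k q) :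
    Zc a x y p ∨ Zc a x y q := by
  have w := (G.st.sol_w G.ok so f).1
  exact G.L.f1S G.ok f (G.L.b1 G.ok b w) (G.L.b2 G.ok b w) sf (.of_bdy b (by simp) f.has1)

/-- a segment from an open face is the first part of a ray -/
theorem ray (a₀ : m.Wk ps W t o k) (op : ¬ m.Sol W o) :
    ∃ e, m.Ray ps W t o e ∧ (k = e ∨ Bt ps t o k e) := by
  obtain ⟨u, v, w, b, c⟩ := a₀.p1
  obtain ⟨e, a₁, c', q⟩ := G.st.ray G.ok G.ord w b
  rw [c.2.1] at a₁ c' q
  have so := (G.nc _ _ _ a₁).resolve_left op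
  have s := q.resolve_left (not_not.2 so)
  exact ⟨e, ⟨a₁, op, so, s⟩, HSt.wk_le G.ok G.ord a₀ a₁ s c c'⟩

/-- the outgoing ray of a ring cell at its last corner `k` -/
theorem out (f : m.GE k v z) (b : m.Sid ps W v (m.bar k) k o) (op : ¬ m.Sol W o) :
    ∃ e, m.Ray ps W (m.bar k) o e ∧ m.Pas ps (m.bar k) o e k v z (m.X k) := by
  obtain ⟨e, r, q⟩ := G.ray b.wk.rev op
  have b' := G.st.sid_rev G.ok G.ord b
  exact ⟨e, r, q.resolve_left fun c => G.ok.stem_ne k b.wk.i1 (c ▸ r.st), f.fc, rfl,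
    G.st.sid_lbar G.ok G.ord b' f.fc rfl⟩

/-- the walls of a cell with one corner -/
theorem cov (p : m.II ps W v z k o o') (w : W v u) :
    m.Sgm ps (m.stem k) o k v u ∨ m.Sgm ps (m.bar k) k o' v u :=
  G.st.cover1 G.ok G.ord (G.se v) p.a p.b p.op p.op' p.f.fc.cor1 (G.ok.stem_ne k p.a.wk.i2) w

/-- such a cell has no other solid corner -/
theorem only (p : m.II ps W v z k o o') (c : m.cor n v) (so : m.Sol W n) : n = k := by
  obtain ⟨u, f⟩ := c.ge
  rcases G.cov p (G.st.sol_w G.ok so f).1 with b | b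
  exacts [HSt.sid_out G.ok G.ord p.a p.op c so f.fc.on b,
    HSt.sid_out G.ok G.ord (G.st.sid_rev G.ok G.ord p.b) p.op' c so f.fc.on b.rev]

/-- a neutral plan frees such a cell if each of its two sides is lit or removed -/
theorem fr (p : m.II ps W v z k o o') (n : m.Nm T U W μ D M) (vD : v ∉ D)
    (c : (∃ i ∈ M, m.hug i (m.stem k)) ∨ ∀ u, m.Sgm ps (m.stem k) o k v u → u ∈ D)
    (c' : (∃ i ∈ M, m.hug i (m.bar k)) ∨ ∀ u, m.Sgm ps (m.bar k) k o' v u → u ∈ D) : False := by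
  have w₀ := (G.st.sol_w G.ok p.so p.f).1
  refine n.neu.frees (G.st.mem _ _ w₀) vD (G.L.one v (G.L.b1 G.ok p.bdy w₀)) fun u w => ?_
  rcases G.cov p w with b | b
  · rcases c with ⟨i, c, l⟩ | c
    exacts [(G.st.seg_gone G.ok G.ord p.a.wk p.op c l b).resolve_left vD, .inl (c u b)]
  · rcases c' with ⟨i, c, l⟩ | c
    exacts [(G.st.seg_gone G.ok G.ord p.b.wk.rev p.op' c l b.rev).resolve_left vD, .inl (c u b)]

/-- two lights on segments from open faces -/
theorem nmS [DecidableEq J] (a₀ : m.Wk ps W t o k) (op : ¬ m.Sol W o) (a₁ : m.Wk ps W t' o' k')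
    (op' : ¬ m.Sol W o') (f : m.Fc k p q X) (f' : m.Fc k' u v X') (d1 : p ≠ u) (d2 : p ≠ v)
    (d3 : q ≠ u) (d4 : q ≠ v) (sf : m.Sq W k u v k') (sf' : m.Sq W k' p q k) :
    m.Nm T U W μ {p, q, u, v} {k, k'} := by
  have so := (G.nc _ _ _ a₀).resolve_left op
  have so' := (G.nc _ _ _ a₁).resolve_left op'
  have n := fun u c => (G.st.seg_near (T := T) (u := u) G.ok G.ord a₀ op so c).mono (e := 8) (by omega)
  have n' := fun u c => (G.st.seg_near (T := T) (u := u) G.ok G.ord a₁ op' so' c).mono (e := 8) (by omega)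
  exact G.L.nmQ G.ok f f' d1 d2 d3 d4 (n _ f.has1) (n _ f.has2) (n' _ f'.has1) (n' _ f'.has2) sf sf'
    (G.st.seg_rc G.ok G.ord a₀ op (by simp) a₀.h2) (G.st.seg_rc G.ok G.ord a₁ op' (by simp) a₁.h2)

/-- a light on a segment from an open face and a light at a corner of a ring cell `u` -/
theorem nmB [DecidableEq J] (a₀ : m.Wk ps W t o k) (op : ¬ m.Sol W o) (bu : m.Bdy W u)
    (so' : m.Sol W k') (f : m.Fc k p q X) (f' : m.Fc k' u v X') (d1 : p ≠ u) (d2 : p ≠ v)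
    (d3 : q ≠ u) (d4 : q ≠ v) (sf : m.Sq W k u v k') (sf' : m.Sq W k' p q k) :
    m.Nm T U W μ {p, q, u, v} {k, k'} := by
  have so := (G.nc _ _ _ a₀).resolve_left op
  have w := (G.st.sol_w G.ok so' f').1
  have n := fun u c => (G.st.seg_near (T := T) (u := u) G.ok G.ord a₀ op so c).mono (e := 8) (by omega)
  exact G.L.nmQ G.ok f f' d1 d2 d3 d4 (n _ f.has1) (n _ f.has2) (G.L.b1 G.ok bu w) (G.L.b2 G.ok bu w)
    sf sf' (G.st.seg_rc G.ok G.ord a₀ op (by simp) a₀.h2) (.of_bdy bu (by simp) f'.has1)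

/-- (W0) lights on the incoming and on the outgoing line free the cell -/
theorem w0 (p' : m.II ps W c' z' k' o₁ o₂) (a₀ : m.Wk ps W (m.stem k') o₁ i)
    (a₁ : m.Wk ps W (m.bar k') o₂ n) (f : m.Fc i p q X) (f' : m.Fc n u v X') (di : i ≠ k')
    (dn : n ≠ k') (d1 : p ≠ u) (d2 : p ≠ v) (d3 : q ≠ u) (d4 : q ≠ v) (sf : m.Sq W i u v n)
    (sf' : m.Sq W n p q i) : False := by
  classical
  have so := (G.nc _ _ _ a₀).resolve_left p'.op
  have so' := (G.nc _ _ _ a₁).resolve_left p'.op'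
  refine G.fr p' (G.nmS a₀ p'.op a₁ p'.op' f f' d1 d2 d3 d4 sf sf') (fun e => ?_)
    (.inl ⟨i, by simp, a₀.h2⟩) (.inl ⟨n, by simp, a₁.h2⟩)
  simp only [Finset.mem_insert, Finset.mem_singleton] at e
  rcases e with rfl | rfl | rfl | rfl
  exacts [di (G.only p' f.cor1 so), di (G.only p' f.cor2 so), dn (G.only p' f'.cor1 so'),
    dn (G.only p' f'.cor2 so')]

/-- the corner of the first of two cells in a row -/
theorem two_k (P : m.Two ps W c z c' z' k k' o o₁ o₂) : m.Wk ps W (m.stem k') o₁ k ∧ m.X k = c' ∧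
    k ≠ k' ∧ (∀ j, ¬ m.far k' j) ∧ (m.Sf W k c ∨ m.Sf W k z) := by
  have ki := P.p.b.wk.i1
  refine ⟨P.st ▸ P.p.b.wk.rev, (HSt.sid_flat G.ord P.q.a ki (.inr P.st.symm) (P.st ▸ P.bt)).1,
    fun e => by have := P.bt; subst e; unfold Bt at this; omega,
    fun j r => G.ok.far_not_bar r ki P.st, by_contra fun n => ?_⟩
  obtain ⟨j, r, so⟩ := G.hard P.p.f.fc (G.st.sol_w G.ok P.p.so P.p.f).1 n
  exact r.1 (G.only P.p (G.ok.far_ge r P.p.f).fc.cor1 so).symm

/-- (W0) every usable junction of the outgoing ray of the second cell contains `z` -/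
theorem w1 (P : m.Two ps W c z c' z' k k' o o₁ o₂) (a₁ : m.Wk ps W (m.bar k') o₂ n)
    (f' : m.Fc n u v X') (dn : n ≠ k') (sf' : m.Sq W n c z k) : u = z ∨ v = z := by
  by_contra q
  obtain ⟨q1, q2⟩ := not_or.1 q
  obtain ⟨a₀, -, d, -, sf⟩ := G.two_k P
  have so' := (G.nc _ _ _ a₁).resolve_left P.q.op'
  have key : ¬ m.cor n c := fun e => by
    obtain rfl := G.only P.p e so'
    exact d (G.ok.two_hug G.ext a₀.i2 P.q.a.wk.i2 (G.ok.stem_ne k' P.q.a.wk.i2) a₀.h2 a₁.h2 (.inl rfl)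
      (.inr rfl))
  exact G.w0 P.q a₀ a₁ P.p.f.fc f' d dn (fun e => key (e ▸ f'.cor1)) (fun e => key (e ▸ f'.cor2))
    (Ne.symm q1) (Ne.symm q2) (.of_sf P.p.f.fc sf) sf'

/-- a light at another solid corner of the cell that carries the outgoing ray -/
theorem w2 (P : m.Two ps W c z c' z' k k' o o₁ o₂) (bu : m.Bdy W u) (so' : m.Sol W n)
    (f' : m.Fc n u v X') (d1 : u ≠ z) (d2 : v ≠ z) (dk : n ≠ k') (sf' : m.Sq W n c z k)
    (c2 : ∀ w, m.Sgm ps (m.bar k') k' o₂ c' w → w = u ∨ w = v) : False := by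
  classical
  obtain ⟨a₀, e, d, -, sf⟩ := G.two_k P
  have key : ¬ m.cor n c := fun e => by
    obtain rfl := G.only P.p e so'
    exact (f'.cor_iff.1 P.p.f.fc.cor2).elim (Ne.symm d1) (Ne.symm d2)
  have key' : ¬ m.cor n c' := fun e => dk (G.only P.q e so')
  have := G.ok.fc_ne P.p.f.fc
  have : c' ≠ u := fun e => key' (e ▸ f'.cor1)
  have : c' ≠ v := fun e => key' (e ▸ f'.cor2)
  exact G.fr P.q (G.nmB a₀ P.q.op bu so' P.p.f.fc f' (fun e => key (e ▸ f'.cor1))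
    (fun e => key (e ▸ f'.cor2)) (Ne.symm d1) (Ne.symm d2) (.of_sf P.p.f.fc sf) sf')
    (by simp only [Finset.mem_insert, Finset.mem_singleton]; grind) (.inl ⟨k, by simp, a₀.h2⟩)
    (.inr fun w b => by have := c2 w b; simp only [Finset.mem_insert, Finset.mem_singleton]; tauto)

/-- the entry of the two halves on a segment from an open face -/
theorem entry (a₀ : m.Wk ps W t o e) (op : ¬ m.Sol W o) (c : θ = a ∨ θ = y) (b : m.Sgm ps t o e θ u) :
    ∃ i w θ', (θ' = a ∨ θ' = y) ∧ w ≠ a ∧ w ≠ y ∧ m.Pas ps t o e i w θ' (m.X i) ∧ ∀ j, ¬ m.far i j := by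
  have h := G.ok
  have bk : ∀ θ u, θ = a ∨ θ = y → m.Sgm ps t o e θ u → ∃ k p, m.Pas ps t o e k p θ (m.X k) :=
    fun θ u c b => by
      rcases G.st.back h G.ord a₀ b with ⟨_, q, -⟩ | ⟨k, p, X, q⟩
      exacts [absurd ⟨o, q.1, op⟩ (G.int c), ⟨k, p, q.fc.2 ▸ q⟩]
  have fin : ∀ θ k p, θ = a ∨ θ = y → m.Pas ps t o e k p θ (m.X k) → ¬ (p = a ∨ p = y) →
      ∃ i w θ', (θ' = a ∨ θ' = y) ∧ w ≠ a ∧ w ≠ y ∧ m.Pas ps t o e i w θ' (m.X i) ∧ ∀ j, ¬ m.far i j :=
    fun θ k p c q n => ⟨k, p, θ, c, fun e => n (.inl e), fun e => n (.inr e), q, G.good c q.fc.symm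
      (fun e => n (G.f.fc.cor_iff.1 (e ▸ q.fc.cor1))) fun e => n (G.f'.fc.cor_iff.1 (e ▸ q.fc.cor1))⟩
  have rg : ∀ θ k p, θ = a ∨ θ = y → m.Pas ps t o e k p θ (m.X k) → p = a ∨ p = y → k = g ∨ k = g' :=
    fun θ k p c q c' => h.rung_face G.far G.f (by
      have := q.fc.on; have := q.fc.on.symm; have := (h.fc_ne q.fc).1; grind)
  obtain ⟨k, p, q⟩ := bk θ u c b
  by_cases c' : p = a ∨ p = y
  swap
  · exact fin θ k p c q c'
  obtain ⟨k', p', q'⟩ := bk p _ c' (q.sg.mono q.bt.bw)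
  refine fin p k' p' c' q' fun c'' => ?_
  have e1 := rg θ k p c q c'
  have e2 := rg p k' p' c' q' c''
  obtain rfl : k = k' := by
    have := h.far_bar G.far
    have := q.br.trans q'.br.symm
    grind
  exact q.sg.disj h G.ord q.bt (G.st.pas_next h G.ord a₀ q')

/-- the walk passes the end `k` of a rung; the next corner is not the end of a rung -/
theorem door (r₀ : m.Ray ps W t o e) (r : m.far k j) (q : m.Pas ps t o e k p z X) :
    ∃ k' w, m.GE k' z w ∧ m.Sol W k' ∧ m.Sid ps W z t k k' ∧ m.Wk ps W t o k' ∧ Bt ps t o k k' ∧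
      w ≠ p ∧ (∀ n, ¬ m.far k' n) ∧ (k' = e ∨ m.Pas ps t k e k' z w (m.X k')) := by
  have h := G.ok
  obtain ⟨i, w, f, so, a₁, -, c⟩ := G.st.nxt_cor h G.ord r₀.wk r₀.so r₀.st q
  have a₀ := (G.st.pas_wk h G.ord r₀.wk q).1
  have bt : Bt ps t o k i := by
    rcases c with rfl | c
    · exact q.bt
    · have := q.bt; have := c.bt; unfold Bt at *; omega
  have sk := HSt.pas_sol r₀.wk q
  have a₂ := a₀.trans G.ord a₁.wk bt sk
  have d : i ≠ j := by
    rintro rfl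
    rcases a₂.h2 with e | e
    exacts [h.stem_ne k r.2.1 ((h.far_stem r).trans (e.trans q.br.symm)), h.far_bar r (q.br.trans e.symm)]
  have n := fun u c => (G.st.seg_near (T := T) (u := u) h G.ord a₀ r₀.op sk c).mono (e := 8) (by omega)
  refine ⟨i, w, f, so, a₁, a₂, bt, ?_, G.nr r q.fc.symm.ge f.fc (n _ q.fc.has2) (n _ q.fc.has1)
    ((G.st.seg_near h G.ord a₂ r₀.op so f.fc.has2).mono (by omega)) a₁.wk.ne.symm d, c⟩
  rintro rfl
  exact (h.rung_face r q.fc.symm.ge f.fc.on).elim a₁.wk.ne.symm d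

omit [Finite V] [Finite J] in
/-- the first corner of a cell with two corners lies on the line of `a x` -/
theorem phi_bar (p : m.PHI ps W a x y v z z' e k o o') (hv : ¬ Zc a x y v) : m.bar e = m.stem κ := by
  obtain ⟨-, -, l, -⟩ := G.ok.lines p.f.fc p.a₀.wk.i2
  have e1 := p.f.fc.has_iff.1 p.on.1
  have e2 := p.f.fc.has_iff.1 p.on.2
  have e3 := G.st.ne G.L.wx
  have e4 := G.lk
  have e5 := G.ok.ln_symm a x
  unfold Zc at hv
  grind

/-- no ray ends at `κ` if there is a cell with two corners -/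
theorem phi_nk (p : m.PHI ps W a x y v z z' e k o o') (hv : ¬ Zc a x y v) :
    ¬ m.Ray ps W t o₁ κ := fun r => by
  have h := G.ok
  have nc : ¬ m.cor κ v := fun c => hv ((G.fk.fc.cor_iff.1 c).imp_right .inl)
  have l := (G.phi_bar p hv).trans r.st
  have a₁ := l ▸ p.a₁
  have s := p.st.trans l
  have b := HSt.wk_stem' h r.wk G.fk.fc r.st
  have ei := a₁.wk.i1
  have ki := a₁.wk.i2
  have bt := G.ord.bt_of r.wk.i1 ei G.ki r.wk.h1 (.inr l) r.wk.h2 (b.2.2 e p.on).2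
    (fun q => r.op (q ▸ p.so)) fun q => nc (q ▸ p.f.fc.cor1)
  have n1 : ¬ Bt ps t e κ k := fun q => h.stem_ne κ G.ki
    (r.st.trans (G.ord.bar_of_bt ei G.ki ki (.inr l) r.wk.h2 (.inl s) q).symm)
  have n2 : ¬ Bt ps t e o₁ k := fun q => r.op (a₁.wk.sol _ r.wk.i1 r.wk.h1 q)
  have n3 : ¬ Bt ps t o₁ k κ := fun q => h.stem_ne k ki
    (s.trans (G.ord.bar_of_bt r.wk.i1 ki G.ki r.wk.h1 (.inl s) r.wk.h2 q).symm)
  have n4 := mt (G.ord.inj t k κ ki G.ki (.inl s) r.wk.h2) fun q => nc (q ▸ p.f'.fc.cor1)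
  have n5 := mt (G.ord.inj t k o₁ ki r.wk.i1 (.inl s) r.wk.h1) fun q => r.op (q ▸ p.so')
  have n6 := mt (G.ord.inj t k e ki ei (.inl s) (.inr l)) a₁.wk.ne.symm
  unfold Bt at *
  omega

end I0

end Map

end Pool.Agent.P.MP_5f84aa_co.G
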