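import Pool.Agent.P.MP_5f84aa_co.G.LH1b
import Pool.Agent.P.MP_5f84aa_co.G.LI0

/-! Type GR with a door, the object at the end of a run, part c: the run ends at the second face on
the piece `a x`. -/

namespace Pool.Agent.P.MP_5f84aa_co.G

namespace Map

variable {V J Sg : Type} {m : Map V J Sg} {ps : J → Sg → ℤ} {t s : Sg} {T : Set Sg} {N : V → Prop}
  {μ : V → ℕ} {W : V → V → Prop} {U D : Finset V} {M : Finset J}
  {a c p p' q u u' v w w' x y z z' θ X X' Y : V} {d d' e g i i' j j' k k' n o o' κ φ : J}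

theorem TyS.inZ (c : TyS a x y z z') : InZ x a y z ∧ InZ x a y z' := by unfold TyS InZ at *; tauto

theorem TyS.trans (c : TyS a x y z z') (c' : TyS a x y z' θ) (d : a ≠ x) (d' : x ≠ y) :
    TyS a x y z θ := by
  unfold TyS at *
  grind

namespace HSt

variable (h : m.Ok) (r : m.Ord ps) (st : m.HSt U W)
include h r st

/-- the walls of a triangle -/
theorem ty_tri {t₁ t₂ t₃ : Sg} {k₁ k₂ k₃ : J} (se : m.Sect W z) (a₁ : m.Sid ps W z t₁ k₁ k₂)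
    (a₂ : m.Sid ps W z t₂ k₂ k₃) (a₃ : m.Sid ps W z t₃ k₃ k₁) (c₁ : m.cor k₁ z) (c₂ : m.cor k₂ z)
    (c₃ : m.cor k₃ z) (d₁ : t₁ ≠ t₂) (d₂ : t₂ ≠ t₃) (d₃ : t₃ ≠ t₁) (w : W z u) :
    m.Sgm ps t₁ k₁ k₂ z u ∨ m.Sgm ps t₂ k₂ k₃ z u ∨ m.Sgm ps t₃ k₃ k₁ z u := by
  obtain ⟨_, _, _, ⟨rfl, rfl, rfl⟩ | ⟨rfl, rfl, rfl⟩ | ⟨rfl, rfl, rfl⟩, b⟩ := st.cover h r se
    (fun a b c => (a = t₁ ∧ b = k₁ ∧ c = k₂) ∨ (a = t₂ ∧ b = k₂ ∧ c = k₃) ∨ (a = t₃ ∧ b = k₃ ∧ c = k₁))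
    (by rintro _ _ _ (⟨rfl, rfl, rfl⟩ | ⟨rfl, rfl, rfl⟩ | ⟨rfl, rfl, rfl⟩) <;> assumption)
    (by
      rintro _ _ _ (⟨rfl, rfl, rfl⟩ | ⟨rfl, rfl, rfl⟩ | ⟨rfl, rfl, rfl⟩) n (rfl | rfl) so
      exacts [⟨c₁, _, _, d₃, .inr (.inr (.inr ⟨rfl, rfl, rfl⟩))⟩,
        ⟨c₂, _, _, d₁.symm, .inl (.inr (.inl ⟨rfl, rfl, rfl⟩))⟩,
        ⟨c₂, _, _, d₁, .inr (.inl ⟨rfl, rfl, rfl⟩)⟩,
        ⟨c₃, _, _, d₂.symm, .inl (.inr (.inr ⟨rfl, rfl, rfl⟩))⟩,
        ⟨c₃, _, _, d₂, .inr (.inr (.inl ⟨rfl, rfl, rfl⟩))⟩,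
        ⟨c₁, _, _, d₃.symm, .inl (.inl ⟨rfl, rfl, rfl⟩)⟩]) (.inl ⟨rfl, rfl, rfl⟩) w
  exacts [.inl b, .inr (.inl b), .inr (.inr b)]

omit r in
/-- the end of a run is usable -/
theorem ty_sf (a : m.Wk ps W t o e) (op : ¬ m.Sol W o) (so : m.Sol W e) (s : m.stem e = t)
    (f : m.Fc e p z X) : m.Sf W e p ∨ m.Sf W e z :=
  st.sf_open h f (st.sol_w h so f).1 fun i q => by
    obtain ⟨u, v, -, on, b⟩ := a.p1
    have on' : m.On o p z := by
      rcases h.rung_ln q f.ge b.1 (b.2.1.trans s.symm) with ⟨rfl, rfl⟩ | ⟨rfl, rfl⟩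
      exacts [on, on.symm]
    exact ((h.rung_face q f.ge on').resolve_left a.ne) ▸ op

/-- the last piece of a lead on the bar -/
theorem ty_last (l : m.TyL ps W t o k v p) (f : m.Fc k p z X) (br : m.bar k = t) :
    m.Sgm ps t o k p X := by
  rcases l.cs with ⟨rfl, c⟩ | ⟨d, d', -, -, -, -, -, -, c, b⟩
  exacts [st.sid_lbar h r c f br, (st.sid_lbar h r c f br).tail b.bw]

end HSt

namespace TyC

variable [DecidableEq V] (G : m.TyC ps T N U W μ a x y j j' κ) [Finite V] [Finite J]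
include G

theorem fin (l : m.TyL ps W t o e v p) (f : m.Fc e p z X) (s₁ : m.stem e = t)
    (l' : m.TyL ps W s o' g v p') (f' : m.Fc g p' z' Y) (vz : ¬ InZ x a y v) (pz : ¬ InZ x a y p)
    (pz' : ¬ InZ x a y p') (c : (z = a ∧ X = x) ∨ (z = x ∧ X = a)) (cs : TyS a x y X z')
    (ob : m.TyO W p p') (eg : e ≠ g) :
    p = v ∧ p' = v ∧ m.stem g = m.bar e ∧ m.Sid ps W v (m.bar e) e g ∧ m.bar g = s := by
  classical
  have h := G.ok
  have st := G.st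
  have r := G.ord
  have ei := l.wk.i2
  have gi := l'.wk.i2
  have ax := G.ax
  have ay := G.ay
  have xy := G.L.ne
  obtain ⟨Xz, zz'⟩ := cs.inZ
  have zz : InZ x a y z := by unfold InZ; tauto
  have nq : ∀ {u w}, ¬ InZ x a y u → InZ x a y w → u ≠ w := fun b b' q => b (q ▸ b')
  obtain ⟨e1, e2, e3, e4⟩ := h.lines f ei
  obtain ⟨g1, g2, -, g4⟩ := h.lines f' gi
  have on : m.On e a x := by
    rcases c with ⟨rfl, rfl⟩ | ⟨rfl, rfl⟩
    exacts [⟨f.has2, f.has3⟩, ⟨f.has3, f.has2⟩]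
  have be : m.stem κ = m.bar e := by
    rcases c with ⟨rfl, rfl⟩ | ⟨rfl, rfl⟩
    exacts [G.lax.symm.trans e3, G.lax.symm.trans ((h.ln_symm _ _).trans e3)]
  have sg : m.stem g = m.bar e := g1.symm.trans ((h.s5 ob.obj (G.ob cs).obj (h.adj13 f) (h.adj12 f')
    (nq pz zz') (nq pz' Xz)).symm.trans e2)
  have eκ := G.nk f.cor1 pz
  have gκ := G.nk f'.cor1 pz'
  have noop : ∀ {i w}, i ≠ m.inf → ¬ m.Sol W i → m.Tc i w (m.bar e) → ¬ InZ x a y w → False :=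
    fun {i w} ii op tc wz => by
      have gh := Ok.Tc.hug h ii tc
      have b1 := r.ty_mid h G.ki ii gi be sg gh gκ.symm (by
        rintro rfl
        exact G.nk (h.ty_tc ii (be ▸ tc)) wz rfl) fun q => op (q ▸ l'.so)
      have b2 := r.ty_mid h G.ki ei gi be sg (.inr rfl) gκ.symm eκ eg
      have b3 := r.step a x κ e ax G.fk.fc.on on eκ.symm G.ki ei
      rw [G.lax, be] at b3
      have b4 := mt (r.inj _ i e ii ei gh (.inr rfl)) fun q => op (q ▸ l.so)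
      have bt : Bt ps (m.bar e) e i g := by unfold Bt at *; omega
      have := st.ty_obj h r ob ei ii gi (h.tc_bar ei f.has1) (h.tc_cor gi f'.cor1 (.inl sg)) gh op bt
      have := st.ty_obj h r (G.ob cs) ei ii gi (h.tc_bar ei f.has3) (h.tc_cor gi f'.cor2 (.inl sg))
        gh op bt
      grind
  have bg : m.bar g = s := l'.wk.h2.resolve_left fun q =>
    let ⟨_, p, b⟩ := l'.fst; noop l'.wk.i1 l'.op (sg ▸ q ▸ b.tc p) vz
  have w' := (st.sol_w h l'.so f').1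
  have back : ∀ {k}, m.cor k p' → m.hug k (m.bar e) → k ≠ g → m.Sid ps W p' (m.bar e) g k :=
    fun c1 c2 c3 => by
      obtain ⟨k, b, -, q⟩ := st.nxt h r w' f'.on
      rw [g1, sg] at b
      have q' := q.resolve_left fun op => noop b.wk.i2 op b.lst pz'
      exact ((h.side2 (st.bd1 w') f'.cor1 q' c1 (.inl sg) b.wk.h2 c2 b.wk.ne).resolve_left c3) ▸ b
  obtain ⟨n, θ, w, X', a₂, bt, fn, cθ, sf, nl, nw⟩ := G.nxtZ l'.wk l'.op f'
    (st.ty_last h r l' f' bg) pz' zz' (sg.trans be.symm)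
  have cX := cs.trans cθ ax xy
  have θz := cX.inZ.2
  have wV : ∀ {u}, m.TyO W p u → ¬ InZ x a y u → u ≠ w := by
    rintro _ b uz rfl
    exact nl ((h.ln_symm _ _).trans ((h.s5 b.obj (G.ob cX).obj (h.adj13 f) (h.adj12 fn).symm
      (nq pz θz) (nq uz Xz)).symm.trans (e2.trans be.symm)))
  have zθ : z ≠ θ := by unfold TyS at cX; grind
  have zw : z ≠ w := by
    rintro rfl
    exact nl ((h.ln_symm _ _).trans ((h.s5 (.inl rfl) (G.ob cX).obj (h.adj23 f) (h.adj12 fn).symm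
      zθ (h.fc_ne f).2.2).symm.trans (e3.trans be.symm)))
  obtain ⟨nv, np⟩ := G.nv l
  have nm := G.L.nmQ h f fn (nq pz θz) (wV (.inl rfl) pz) zθ zw (np.mono (by omega))
    ((G.nz zz).mono (by omega)) ((G.nz θz).mono (by omega)) nw
    (.of_sf f (st.ty_sf h l.wk l.op l.so s₁ f)) (.of_sf fn sf)
    (st.rc_end h r l.wk (.op l.op) fun _ _ b => .inl (.no (by simp) l.wk.h2 b.2.1))
    (st.rc_end h r a₂ (.op l'.op) fun _ _ b => .inl (.no (by simp) a₂.h2 b.2.1))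
  have kill : ∀ {c}, m.Fe T W 8 c → m.TyO W p c → ¬ InZ x a y c → c ≠ p → (∀ u, W c u → u = p ∨
      (∃ k, m.Sid ps W c t o k ∧ m.Sgm ps t o k c u) ∨
      (∃ k k', m.has k p ∧ m.Sid ps W c (m.bar e) k' k ∧ m.Sgm ps (m.bar e) k' k c u) ∨
      m.Sgm ps s o' g c u) → False := fun nc b cz cp cov =>
    st.ty_kill h r nm (st.fe_mem h nc) (by simp [cp, nq cz zz, nq cz θz, wV b cz]) (G.L.one _ nc)
      fun u wu => by
        rcases cov u wu with q | ⟨k, q, q'⟩ | ⟨k, k', q₀, q, q'⟩ | q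
        exacts [.inl (by simp [q]), .inr ⟨_, _, _, e, by simp, .inl s₁, q.wk, .inl l.op, q'⟩,
          .inr ⟨_, _, _, e, by simp, .inr rfl, q.wk.rev, .inr ⟨p, by simp, q₀⟩, q'.rev⟩,
          .inr ⟨_, _, _, n, by simp, a₂.h2, l'.wk, .inl l'.op, q⟩]
  have ls : m.bar e ≠ s := sg ▸ bg ▸ g4
  have oth : ∀ {d d' u u'}, m.far d d' → m.GE d u u' → m.Sol W d → m.OnL u (m.bar e) →
      m.OnL u' (m.bar e) → m.bar e ≠ m.bar d → m.bar d' = m.bar e := fun q b so c1 c2 c3 =>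
    have w := (st.sol_w h so b.fc).1
    ((h.s7 q b (st.bd1 w) (st.bd2 w) c1 c2 (h.far_not_bar q ei).symm).resolve_left c3).symm
  have tp := (h.tc_bar ei f.has1).onL
  have tp' := (h.tc_cor gi f'.cor1 (.inl sg)).onL
  rcases l.cs with ⟨rfl, sv⟩ | ⟨d, d', q, b, so, so', br, sv, -, -⟩ <;>
    rcases l'.cs with ⟨rfl, sv'⟩ | ⟨i, i', q', b', si, si', br', sv', sp', bt'⟩
  · exact ⟨rfl, rfl, sg, st.sid_rev h r (back f.cor1 (.inr rfl) eg), bg⟩
  · have b'' := h.far_ge q' b'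
    have br'' := oth q' b' si tp tp' (br' ▸ ls)
    have s3 := back b''.fc.cor2 (.inr br'') (by
      rintro rfl
      exact (f'.cor_iff.1 b''.fc.cor1).elim (h.fc_ne b'.fc).1 (nq pz zz'))
    obtain ⟨s1, s2⟩ := st.ty_door h r q'.symm b''.symm si'
    refine (kill ((G.nv l').2.mono (by omega)) ob pz' (h.fc_ne b'.fc).1.symm fun u wu => ?_).elim
    rcases st.ty_tri h r (G.se _) s1 sp' s3 b''.fc.cor2 b'.fc.cor2 f'.cor1
      (bg ▸ h.far_not_bar q'.symm gi) ls.symm (h.far_not_bar q'.symm ei).symm wu with c | c | c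
    exacts [.inl (s2 u c), .inr (.inr (.inr (c.tail bt'.bw))), .inr (.inr (.inl ⟨_, _, b''.fc.has1, s3, c⟩))]
  · have b'' := h.far_ge q b
    have br'' := oth q b so tp' tp (br ▸ s₁ ▸ e4.symm)
    have s3 := back b''.fc.cor1 (.inr br'') (by
      rintro rfl
      exact (f'.cor_iff.1 b''.fc.cor2).elim (h.fc_ne b.fc).1.symm (nq pz zz'))
    obtain ⟨s1, s2⟩ := st.ty_door h r q b so
    refine (kill (nv.mono (by omega)) ob vz (h.fc_ne b.fc).1 fun u wu => ?_).elim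
    rcases st.cov3 h r (G.se _) sv s1 (st.sid_rev h r s3) (st.sid_rev h r sv') l.op l'.op b.fc.cor1
      b''.fc.cor1 f'.cor1 (br ▸ (h.stem_ne d q.2.1).symm) (h.far_not_bar q ei) ls wu with c | c | c | c
    exacts [.inr (.inl ⟨_, sv, c⟩), .inl (s2 u c), .inr (.inr (.inl ⟨_, _, b''.fc.has2, s3, c.rev⟩)),
      .inr (.inr (.inr c.rev))]
  · obtain rfl := G.one (nv.mono (by omega)) (np.mono (by omega)) ((G.nv l').2.mono (by omega))
      ⟨d, d', q, b⟩ ⟨i, i', q', b'⟩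
    obtain rfl : i = d' := (h.rung_face q b b'.fc.on).resolve_left (by
      rintro rfl
      exact G.ex.no2 g e gi ei sg (bg.trans (br'.symm.trans (br.trans s₁.symm))))
    obtain ⟨s1, s2⟩ := st.ty_door h r q b so
    refine (kill (nv.mono (by omega)) l.ob.symm vz (h.fc_ne b.fc).1 fun u wu => ?_).elim
    rcases st.cover2 h r (G.se _) sv s1 (st.sid_rev h r sv') l.op l'.op b.fc.cor1 b'.fc.cor1
      (br ▸ (h.stem_ne d q.2.1).symm) (bg ▸ h.far_not_bar q gi) wu with c | c | c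
    exacts [.inr (.inl ⟨_, sv, c⟩), .inl (s2 u c), .inr (.inr (.inr (c.rev.mono bt'.bw)))]

end TyC

end Map

end Pool.Agent.P.MP_5f84aa_co.G
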