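import Pool.Agent.P.MP_5f84aa_co.G.LHs
import Pool.Agent.P.MP_5f84aa_co.G.LR1a
import Pool.Agent.P.MP_5f84aa_co.G.LG3a

/-! Type GR, hard rung: a row in which a half of the rung comes before `x`. -/

namespace Pool.Agent.P.MP_5f84aa_co.G

namespace Map

variable {V J Sg : Type}

/-- the ring cell `v` has the single solid corner `e`, with `x`; on the line that ends at `e` the half
`η` of the rung `a y` leaves the row opposite to `v` at the landing `A` -/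
structure Lx [DecidableEq V] (m : Map V J Sg) (ps : J → Sg → ℤ) (T : Set Sg) (N : V → Prop)
    (U : Finset V) (W : V → V → Prop) (μ : V → ℕ) (a x y v η w₁ : V) (g g' o o' e A : J) : Prop where
  L : m.Loc T N U W μ a x y
  ok : m.Ok
  ext : m.Ext
  ord : m.Ord ps
  nc : m.NoCut ps W
  se : m.Sect W v
  r1 : ∀ b u v, N b → N u → N v → m.Rn b u → m.Rn b v → u = v
  far : m.far g g'
  f : m.GE g a y
  xg : x ≠ m.X g
  xg' : x ≠ m.X g'
  fe : m.GE e v x
  s₀ : m.Sid ps W v (m.stem e) o e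
  op : ¬ m.Sol W o
  s₁ : m.Sid ps W v (m.bar e) e o'
  op' : ¬ m.Sol W o'
  va : v ≠ a
  vy : v ≠ y
  th : η = a ∨ η = y
  pA : m.Pas ps (m.stem e) o e A η w₁ v
  Ag : A ≠ g
  Ag' : A ≠ g'
  wx : w₁ ≠ x

/-- the shadow of the light at `k` in `p` falls on `u` or `w` -/
def Sz (m : Map V J Sg) (W : V → V → Prop) (k : J) (p u w : V) : Prop :=
  ∀ j, m.far k j → W p (m.X j) → m.X j = u ∨ m.X j = w

/-- the cell `x` enters the row at `B`; the cells between are one object -/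
structure Lxb (m : Map V J Sg) (ps : J → Sg → ℤ) (a x y v w₁ w₀ : V) (o e B : J) : Prop where
  pB : m.Pas ps (m.stem e) o e B w₀ x v
  na : w₀ ≠ a
  ny : w₀ ≠ y
  ob : w₀ = w₁ ∨ ∃ d d', m.far d d' ∧ m.Pas ps (m.stem e) o e d w₁ w₀ v ∧ ∀ n, ¬ m.far B n

variable {m : Map V J Sg} {ps : J → Sg → ℤ} {t : Sg} {T : Set Sg} {N : V → Prop} {μ : V → ℕ}
  {W : V → V → Prop} {U : Finset V} {a d p q u v w x y z θ η w₀ w₁ X X' : V}
  {i j j' k k' n g g' o o' e A B : J}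

theorem Sz.of_not (b : ∀ j, ¬ m.far k j) : m.Sz W k p u w := fun j r => absurd r (b j)
theorem Sf.sz (b : m.Sf W k p) : m.Sz W k p u w := fun j r c => absurd c (b j r)

namespace Lx

variable [DecidableEq V] (G : m.Lx ps T N U W μ a x y v η w₁ g g' o o' e A)
include G

theorem st : m.HSt U W := G.L.st
theorem f' : m.GE g' a y := G.ok.far_ge G.far G.f

theorem symm : m.Lx ps T N U W μ a x y v η w₁ g' g o o' e A :=
  { G with far := G.far.symm, f := G.f', xg := G.xg', xg' := G.xg, Ag := G.Ag', Ag' := G.Ag }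

theorem nxy : ¬ m.Adj x y := G.ok.s1 G.far G.f G.L.gx G.xg G.xg'
theorem ei : e ≠ m.inf := G.s₀.wk.i2
theorem so : m.Sol W e := (G.nc _ _ _ G.s₀.wk).resolve_left G.op
theorem vx : v ≠ x := (G.ok.fc_ne G.fe).1
theorem xa : x ≠ a := (G.st.ne G.L.wx).symm

theorem nr (r : m.far j j') (f : m.GE j w d) (f' : m.Fc k w p X) (nw : m.Fe T W 8 w)
    (nd : m.Fe T W 8 d) (np : m.Fe T W 8 p) (c : k ≠ j) (c' : k ≠ j') (i : J) : ¬ m.far k i := fun q => by
  obtain rfl := G.r1 w p d (G.L.near _ nw) (G.L.near _ np) (G.L.near _ nd) ⟨k, i, q, f'.ge⟩ ⟨j, j', r, f⟩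
  exact (G.ok.rung_face r f f'.on).elim c c'

theorem good (c : θ = a ∨ θ = y) (f : m.Fc k θ p X) (so : m.Sol W k) (d : k ≠ g) (d' : k ≠ g') (i : J) :
    ¬ m.far k i := by
  have w := (G.st.sol_w G.ok so f).1
  rcases c with rfl | rfl
  exacts [G.nr G.far G.f f G.L.na (G.L.n1 G.L.wy) (G.L.n1 w) d d' i,
    G.nr G.far G.f.symm f (G.L.n1 G.L.wy) G.L.na (G.L.n2 G.L.wy w) d d' i]

theorem hard (f : m.Fc k p q X) (w : W p q) (n : ¬ (m.Sf W k p ∨ m.Sf W k q)) :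
    ∃ j, m.far k j ∧ m.Sol W j := by
  by_contra c
  exact n (G.st.sf_open G.ok f w fun j r so => c ⟨j, r, so⟩)

theorem nea (a₀ : m.Wk ps W t i k) (op : ¬ m.Sol W i) (c : m.has k u) : m.Fe T W 8 u :=
  (G.st.seg_near (T := T) G.ok G.ord a₀ op ((G.nc _ _ _ a₀).resolve_left op) c).mono (by omega)

theorem wk (q : m.Pas ps (m.stem e) o e k p z X) : m.Wk ps W (m.stem e) o k :=
  (G.st.pas_wk G.ok G.ord G.s₀.wk q).1

theorem sol (q : m.Pas ps (m.stem e) o e k p z X) : m.Sol W k := HSt.pas_sol G.s₀.wk q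

omit G [DecidableEq V] in
theorem ne_e (b : Bt ps t i k e) : k ≠ e := by
  rintro rfl
  unfold Bt at b
  omega

/-- a landing on the incoming line does not lie on the outgoing line -/
theorem nh (q : m.Pas ps (m.stem e) o e k p z X) : ¬ m.hug k (m.bar e) := fun c =>
  c.elim (fun c => G.ext.no2 k e q.ni G.ei c q.br) fun c => G.ok.stem_ne e G.ei (q.br.symm.trans c)

theorem sA : m.Sol W A := G.sol G.pA
theorem gA (i : J) : ¬ m.far A i := G.good G.th G.pA.fc G.sA G.Ag G.Ag' i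

theorem cov (w : W v u) : m.Sgm ps (m.stem e) o e v u ∨ m.Sgm ps (m.bar e) e o' v u :=
  G.st.cover1 G.ok G.ord G.se G.s₀ G.s₁ G.op G.op' G.fe.fc.cor1 (G.ok.stem_ne e G.ei) w

theorem only (c : m.cor n v) (so : m.Sol W n) : n = e := by
  obtain ⟨u, f⟩ := c.ge
  rcases G.cov (G.st.sol_w G.ok so f).1 with b | b
  exacts [HSt.sid_out G.ok G.ord G.s₀ G.op c so f.fc.on b,
    HSt.sid_out G.ok G.ord (G.st.sid_rev G.ok G.ord G.s₁) G.op' c so f.fc.on b.rev]

theorem w1t : w₁ ≠ a ∧ w₁ ≠ y := by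
  have f := G.pA.fc
  have := (G.ok.fc_ne f).1
  constructor <;> rintro rfl <;> rcases G.th with rfl | rfl
  exacts [this rfl, (G.ok.rung_face G.far G.f f.on.symm).elim G.Ag G.Ag',
    (G.ok.rung_face G.far G.f f.on).elim G.Ag G.Ag', this rfl]

variable [Finite V]

theorem win0 (a₀ : m.Wk ps W (m.stem e) o i) (a₁ : m.Wk ps W (m.bar e) o' n) (f : m.Fc i p q X)
    (f' : m.Fc n u w X') (di : i ≠ e) (dn : n ≠ e) (d1 : p ≠ u) (d2 : p ≠ w) (d3 : q ≠ u) (d4 : q ≠ w)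
    (sf : m.Sz W i p u w) (sf' : m.Sz W n u p q) : False := by
  classical
  have h := G.ok
  have st := G.st
  have so := (G.nc _ _ _ a₀).resolve_left G.op
  have so' := (G.nc _ _ _ a₁).resolve_left G.op'
  have vD : v ∉ ({p, q, u, w} : Finset V) := fun c => by
    simp only [Finset.mem_insert, Finset.mem_singleton] at c
    rcases c with rfl | rfl | rfl | rfl
    exacts [di (G.only f.cor1 so), di (G.only f.cor2 so), dn (G.only f'.cor1 so'),
      dn (G.only f'.cor2 so')]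
  refine (G.L.neu2 h f f' d1 d2 d3 d4 (G.nea a₀ G.op f.has1) (G.nea a₀ G.op f.has2)
    (G.nea a₁ G.op' f'.has1) (G.nea a₁ G.op' f'.has2) (fun j r c => by have := sf j r c; tauto)
    (fun j r c => by have := sf' j r c; tauto) (st.seg_rc h G.ord a₀ G.op (by simp) a₀.h2)
    (st.seg_rc h G.ord a₁ G.op' (by simp) a₁.h2)).frees (st.sol_mem h G.so G.fe.fc.has1) vD
    (G.L.one v (G.nea G.s₀.wk G.op G.fe.fc.has1)) fun z c => ?_
  rcases G.cov c with b | b
  exacts [(st.seg_gone h G.ord G.s₀.wk G.op (by simp) a₀.h2 b).resolve_left vD,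
    (st.seg_gone h G.ord G.s₁.wk.rev G.op' (by simp) a₁.h2 b.rev).resolve_left vD]

/-- a light on each of the two lines frees `v` -/
theorem win (q₀ : m.Pas ps (m.stem e) o e i p q X) (a₁ : m.Wk ps W (m.bar e) o' n)
    (b : Bt ps (m.bar e) o' e n) (f' : m.Fc n u w X') (d1 : p ≠ u) (d2 : p ≠ w) (d3 : q ≠ u)
    (d4 : q ≠ w) (sf : m.Sz W i p u w ∨ m.Sz W i q u w) (sf' : m.Sz W n u p q ∨ m.Sz W n w p q) :
    False := by
  have a₀ := G.wk q₀
  have f := q₀.fc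
  have di := ne_e q₀.bt
  have dn := (ne_e b).symm
  have sw : ∀ {k p u w}, m.Sz W k p u w → m.Sz W k p w u := fun s j r c => (s j r c).symm
  rcases sf with sf | sf <;> rcases sf' with sf' | sf'
  exacts [G.win0 a₀ a₁ f f' di dn d1 d2 d3 d4 sf sf', G.win0 a₀ a₁ f f'.symm di dn d2 d1 d4 d3 (sw sf) sf',
    G.win0 a₀ a₁ f.symm f' di dn d3 d4 d1 d2 sf (sw sf'),
    G.win0 a₀ a₁ f.symm f'.symm di dn d4 d3 d2 d1 (sw sf) (sw sf')]

/-- (F1) at the end of a segment from an open face without the living pair -/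
theorem f1 (a₀ : m.Wk ps W t i k) (op : ¬ m.Sol W i) (c : ∀ z, m.Sgm ps t i k a z → z ≠ x ∧ z ≠ y)
    (f : m.Fc k p q X) (sf : m.Sf W k p ∨ m.Sf W k q) :
    (p = a ∨ p = x ∨ p = y) ∨ q = a ∨ q = x ∨ q = y :=
  G.L.f1S G.ok f (G.nea a₀ op f.has1) (G.nea a₀ op f.has2) sf (G.st.rc_end G.ok G.ord a₀ (.op op)
    fun _ _ b => .inl (.of (by simp) a₀.h2 b.2.1
      (fun r => r.2.elim (c _ (r.1 ▸ b)).1 (c _ (r.1 ▸ b)).2)
      fun r => r.2.elim (c _ (r.1 ▸ b.symm G.ok)).1 (c _ (r.1 ▸ b.symm G.ok)).2))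

theorem f1u (q₀ : m.Pas ps (m.stem e) o e k p q X) (sf : m.Sf W k p ∨ m.Sf W k q) :
    (p = a ∨ p = x ∨ p = y) ∨ q = a ∨ q = x ∨ q = y :=
  G.f1 (G.wk q₀) G.op (fun z b => by
    obtain rfl := G.st.sid_two G.ok G.ord G.s₀ (b.mono q₀.bt.bw) G.va.symm
    exact ⟨G.vx, G.vy⟩) q₀.fc sf

variable [Finite J]

/-- the halves of the rung do not come back -/
theorem noth (c : θ = a ∨ θ = y) (ni : n ≠ m.inf) (tc : m.Tc n θ (m.stem e))
    (b : Bt ps (m.stem e) o A n) : False := by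
  have h := G.ok
  have q := G.pA
  obtain ⟨n1, n2, n3⟩ := h.fc_ne q.fc
  have same : ∀ n, n ≠ m.inf → m.Tc n η (m.stem e) → ¬ Bt ps (m.stem e) o A n := fun n ni tc b => by
    obtain ⟨i, -, on, -, -, -, r⟩ := q.sg.two h G.ord ⟨q.fc.has1, q.fc.has3⟩
    obtain ⟨ii, bw⟩ := q.sg.2.2 i on
    exact n2 ((G.ord.flat ii q.ni ni (q.sg.tc on) (.inr q.br) tc
      (by unfold Bt Bw at *; omega)).symm.trans q.fc.2)
  by_cases c' : θ = η
  · exact same n ni (c' ▸ tc) b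
  have key : ∀ j, j ≠ m.inf → A ≠ j → m.GE j a y → m.stem e ≠ m.bar j := fun j ji d f l => by
    have t1 : ∀ θ, θ = a ∨ θ = y → m.Tc j θ (m.stem e) := by
      rintro θ (rfl | rfl)
      exacts [l ▸ h.tc_bar ji f.fc.has1, l ▸ h.tc_bar ji f.fc.has2]
    have e1 := same j ji (t1 η G.th)
    have e2 := mt (G.ord.inj _ A j q.ni ji (.inr q.br) (.inr l.symm)) d
    have := (G.ord.flat ji q.ni ni (t1 θ c) (.inr q.br) tc
      (by unfold Bt at *; omega)).symm.trans q.fc.2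
    rcases c with rfl | rfl
    exacts [G.va this.symm, G.vy this.symm]
  have oa : m.OnL a (m.stem e) ∧ m.OnL y (m.stem e) := by
    have := q.sg.onL
    have := tc.onL
    rcases c with rfl | rfl <;> rcases G.th with rfl | rfl <;> tauto
  rcases h.s7 G.far G.f (G.st.bd1 G.L.wy) (G.st.bd2 G.L.wy) oa.1 oa.2
    (fun l => h.far_not_bar G.far q.ni (l.symm.trans q.br.symm)) with l | l
  exacts [key g G.far.2.1 G.Ag G.f l, key g' G.far.2.2.1 G.Ag' G.f' l]

/-- the next landing in the row -/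
theorem nxt (q₀ : m.Pas ps (m.stem e) o e k p z X) (b : k = A ∨ Bt ps (m.stem e) o A k) (zv : z ≠ v)
    (zx : z ≠ x) : ∃ i w, m.Pas ps (m.stem e) o e i z w v ∧ Bt ps (m.stem e) o A i ∧ i ≠ k ∧
      w ≠ a ∧ w ≠ y := by
  have h := G.ok
  obtain ⟨i, w, f, -, s, -, rfl | r⟩ := G.st.nxt_cor h G.ord G.s₀.wk G.so rfl q₀
  · exact ((G.fe.fc.cor_iff.1 f.fc.cor1).elim zv zx).elim
  have r' := r.tail q₀.bt
  have bt : Bt ps (m.stem e) o A i := by
    have := r.bt; have := q₀.bt; have := G.pA.bt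
    rcases b with rfl | b <;> unfold Bt at * <;> omega
  have tc : m.Tc i w (m.stem e) := r.br ▸ h.tc_bar r.ni r.fc.has2
  exact ⟨i, w, (HSt.sid_flat G.ord G.s₀ r.ni (.inr r.br) r'.bt).1 ▸ r', bt, s.wk.ne.symm,
    fun c => G.noth (.inl c) r.ni tc bt, fun c => G.noth (.inr c) r.ni tc bt⟩

theorem row : ∃ w₀ B, m.Lxb ps a x y v w₁ w₀ o e B := by
  have h := G.ok
  obtain ⟨n1, n2⟩ := G.w1t
  have n3 := G.wx
  obtain ⟨i, w, q, bt, -, wa, wy⟩ := G.nxt G.pA (.inl rfl) (h.fc_ne G.pA.fc).2.2 n3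
  by_cases c : w = x
  · exact ⟨w₁, i, c ▸ q, n1, n2, .inl rfl⟩
  obtain ⟨j, r, -⟩ := G.hard q.fc (G.st.sol_w h (G.sol q) q.fc).1 fun sf => by
    have := G.f1u q sf
    tauto
  obtain ⟨B, z, q', -, d, za, zy⟩ := G.nxt q (.inr bt) (h.fc_ne q.fc).2.2 c
  have nr := G.nr r q.fc.symm.ge q'.fc (G.nea (G.wk q) G.op q.fc.has2) (G.nea (G.wk q) G.op q.fc.has1)
    (G.nea (G.wk q') G.op q'.fc.has2) d (by
      rintro rfl
      exact h.far_bar r (q.br.trans q'.br.symm))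
  obtain rfl : z = x := by
    have := G.f1u q' (.inl (.of_not nr))
    tauto
  exact ⟨w, B, q', wa, wy, .inr ⟨i, j, r, q, nr⟩⟩

omit [Finite V] in
/-- the walk along the outgoing line passes a landing -/
theorem step (a₀ : m.Wk ps W (m.bar e) o' k) (a₁ : m.Sid ps W z (m.bar e) i k)
    (b : Bt ps (m.bar e) o' i k) (f : m.Fc k z p X) (l : m.stem k ≠ m.bar e) :
    ∃ k' w, m.Wk ps W (m.bar e) o' k' ∧ m.Sid ps W p (m.bar e) k k' ∧ Bt ps (m.bar e) o' k k' ∧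
      m.Sol W k' ∧ m.GE k' p w ∧ m.bar k = m.bar e := by
  have br := a₀.h2.resolve_left l
  obtain ⟨k', c1, c2, c3, -, c4, c5⟩ := G.st.pas1 G.ok G.ord G.nc a₀ G.op' f
    ((G.st.sid_lbar G.ok G.ord a₁ f br).tail b.bw)
  obtain ⟨w, f'⟩ := c5.ge
  exact ⟨k', w, c1, c2, c3, c4, f', br⟩

omit [Finite V] [Finite J] in
/-- the far end of a rung does not lie on the bar of the other end -/
theorem nfar (r : m.far j j') (l : m.bar j = m.bar e) (c : m.hug k (m.bar e)) : k ≠ j' := by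
  rintro rfl
  exact c.elim (G.ok.far_not_bar r.symm G.ei) fun c => G.ok.far_bar r (l.trans c.symm)

variable (R : m.Lxb ps a x y v w₁ w₀ o e B)
include R

omit [Finite V] in
/-- `x` is not a triangle -/
theorem tri (f : m.Fc k x w X) (gk : m.hug k (m.bar e)) (ke : k ≠ e) (l : m.ln x w = m.ln x w₀)
    (wa : w ≠ a) : False := by
  have h := G.ok
  have q := R.pB
  have bx := G.st.bd2 G.L.wx
  have nb := G.nh q
  obtain ⟨κ, fκ⟩ := G.L.gx
  have := G.xa
  rcases h.s6 (t₁ := m.bar e) (t₂ := m.stem B) (t₃ := m.stem e) bx q.fc.cor2 G.fe.fc.cor2 f.cor1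
    (ne_e q.bt) (fun c => nb (c ▸ gk)) ke.symm (fun c => nb (.inl c.symm)) (h.stem_ne e G.ei).symm
    (q.br ▸ h.stem_ne B q.ni) (.inl rfl) (.inr q.br) (.inr rfl) (.inl rfl) gk
    (.inl ((h.lines f (bx.ne_inf f.has1)).1.symm.trans (l.trans (h.lines q.fc.symm q.ni).1)))
    fκ.fc.cor2 with rfl | rfl | rfl
  exacts [(q.fc.cor_iff.1 fκ.fc.cor1).elim R.na.symm this.symm,
    (G.fe.fc.cor_iff.1 fκ.fc.cor1).elim G.va.symm this.symm,
    (f.cor_iff.1 fκ.fc.cor1).elim this.symm wa.symm]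

/-- the next corner of `x` is the end of a rung -/
theorem caseH (a₀ : m.Wk ps W (m.bar e) o' k) (a₁ : m.Sid ps W x (m.bar e) e k)
    (b : Bt ps (m.bar e) o' e k) (f : m.GE k x w) (r : m.far k j) : False := by
  have h := G.ok
  have q := R.pB
  have nx := G.L.n1 G.L.wx
  have nw := G.nea a₀ G.op' f.fc.has2
  have xw := (h.fc_ne f).1
  have wa : w ≠ a := by
    rintro rfl
    exact G.L.ne (G.r1 w x y (G.L.near _ nw) (G.L.near _ nx) (G.L.near _ (G.L.n1 G.L.wy))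
      ⟨k, j, r, f.symm⟩ ⟨g, g', G.far, G.f⟩)
  by_cases c : w₀ = w
  · exact G.tri R f.fc a₀.h2 a₁.wk.ne.symm (c ▸ rfl) wa
  obtain ⟨k', z, a₂, a₃, b', -, f', br⟩ := G.step a₀ a₁ b f.fc (h.far_not_bar r G.ei)
  have d := a₃.wk.ne.symm
  have d' := G.nfar r br a₂.h2
  have nr := G.nr r f.symm f'.fc nw nx (G.nea a₂ G.op' f'.fc.has2) d d'
  have key : ∀ i, m.GE i x w → B ≠ i := by
    rintro i f rfl
    exact (q.fc.cor_iff.1 f.fc.cor2).elim (Ne.symm c) xw.symm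
  have zx : z ≠ x := by
    rintro rfl
    exact (h.rung_face r f f'.fc.on.symm).elim d d'
  have := G.f1 a₂ G.op' (fun u s => ⟨?_, ?_⟩) f'.fc (.inl (.of_not nr))
  · have wy : w ≠ y := fun c => G.nxy (c ▸ h.adj12 f)
    have := R.na
    have := R.ny
    exact G.win q a₂ (by unfold Bt at *; omega) f'.fc c (by rintro rfl; tauto) xw zx.symm
      (.inl (.of_not (G.nr r f q.fc.symm nx nw (G.nea (G.wk q) G.op q.fc.has1) (key k f)
        (key j (h.far_ge r f))))) (.inl (.of_not nr))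
  · rintro rfl
    obtain ⟨κ, fκ⟩ := G.L.gx
    have bx := G.st.bd2 G.L.wx
    rcases h.side2 bx G.fe.fc.cor2 f.fc.cor1 fκ.fc.cor2 (.inr rfl) a₀.h2
      (.inl ((h.lines fκ (bx.ne_inf fκ.fc.has2)).1.symm.trans s.2.1)) a₁.wk.ne with rfl | rfl
    exacts [(G.fe.fc.cor_iff.1 fκ.fc.cor1).elim G.va.symm G.xa.symm,
      (f.fc.cor_iff.1 fκ.fc.cor1).elim G.xa.symm wa.symm]
  · rintro rfl
    exact h.far_not_bar G.far G.ei ((h.lines G.f G.far.2.1).1.symm.trans s.2.1)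

end Lx

namespace Lx

variable [DecidableEq V] [Finite V] [Finite J] (G : m.Lx ps T N U W μ a x y v a w₁ g g' o o' e A)
  (R : m.Lxb ps a x y v w₁ w₀ o e B)
include G R

omit [Finite V] [Finite J] in
/-- the shadow of a light at `B` falls on `a` -/
theorem bs : m.Sz W B w₀ a u ∨ m.Sz W B x a u := by
  have h := G.ok
  have st := G.st
  have q := R.pB
  have w := (st.sol_w h (G.sol q) q.fc).1
  by_cases sf : m.Sf W B w₀ ∨ m.Sf W B x
  · exact sf.imp Sf.sz Sf.sz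
  obtain ⟨n, r, -⟩ := G.hard q.fc w sf
  rcases R.ob with rfl | ⟨d, d', -, -, nr⟩
  swap
  · exact absurd r (nr n)
  refine .inr fun j r' _ => .inl ?_
  refine st.tri1 h w (st.sym _ _ G.L.wx) (st.sol_w h G.sA G.pA.fc).1 (h.far_ge r' q.fc.ge).fc q.fc.on
    r'.1 (st.ou_wk h G.ord (G.wk q) (.op G.op) fun p z s c => ?_)
  have := st.sid_row h G.ord G.s₀ (s.mono q.bt.bw)
  have := (h.fc_ne q.fc).2.1
  have := G.vx
  have := G.va
  simp only [E3, Sym2.eq_iff] at c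
  grind

/-- the walk passes an end of the rung `a y` -/
theorem caseJ (a₀ : m.Wk ps W (m.bar e) o' g) (a₁ : m.Sid ps W a (m.bar e) k g)
    (b₀ : Bt ps (m.bar e) o' e k) (b : Bt ps (m.bar e) o' k g) : False := by
  have h := G.ok
  have q := R.pB
  obtain ⟨n1, n2⟩ := G.w1t
  obtain ⟨k', z, a₂, a₃, b', so, f', br⟩ := G.step a₀ a₁ b G.f.fc (h.far_not_bar G.far G.ei)
  have d := a₃.wk.ne.symm
  have d' := G.nfar G.far br a₂.h2
  have nr := G.good (.inr rfl) f'.fc so d d'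
  have bt : Bt ps (m.bar e) o' e k' := by unfold Bt at *; omega
  have za : a ≠ z := by
    rintro rfl
    exact (h.rung_face G.far G.f f'.fc.on.symm).elim d d'
  by_cases c : w₁ = z
  swap
  · exact G.win G.pA a₂ bt f'.fc (G.st.ne G.L.wy) za n2 c (.inl (.of_not G.gA)) (.inl (.of_not nr))
  subst c
  rcases R.ob with rfl | ⟨i, i', -, q', nr'⟩
  swap
  · exact G.win q a₂ bt f'.fc R.ny (h.fc_ne q'.fc).1.symm G.L.ne G.wx.symm (.inl (.of_not nr'))
      (.inl (.of_not nr))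
  rcases h.s2 G.far G.f (h.adj12 G.pA.fc).symm (h.adj12 f').symm with c | c
  · exact G.nh G.pA (.inl ((h.lines G.pA.fc G.pA.ni).1.symm.trans
      ((c ▸ (h.lines G.f G.far.2.1).2.1).trans br)))
  · exact G.win q a₀ (by unfold Bt at *; omega) G.f.fc n1 n2 G.xa G.L.ne (G.bs R)
      (.inl fun j r _ => .inl (h.far_unique G.far r ▸ c.symm))

/-- the next corner of `x` is the corner with `a` -/
theorem caseK (a₀ : m.Wk ps W (m.bar e) o' k) (a₁ : m.Sid ps W x (m.bar e) e k)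
    (b : Bt ps (m.bar e) o' e k) (f : m.GE k x a) : False := by
  have h := G.ok
  have q := R.pB
  obtain ⟨n1, n2⟩ := G.w1t
  have sk := (G.nc _ _ _ a₀).resolve_left G.op'
  have kg : ∀ j, m.GE j a y → k ≠ j := by
    rintro j f' rfl
    exact (f'.fc.cor_iff.1 f.fc.cor1).elim G.xa G.L.ne
  have nk := G.good (.inl rfl) f.fc.symm sk (kg g G.f) (kg g' G.f')
  obtain ⟨k', z, a₂, a₃, b', so, f', -⟩ := G.step a₀ a₁ b f.fc fun l => by
    obtain ⟨sd, s1, s2, s3⟩ := G.ext.sides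
    have l1 := (h.lines f.fc.symm a₀.i2).1.trans l
    obtain ⟨-, l2, -, l3⟩ := h.lines G.fe G.ei
    have e1 := s1 a x (h.adj12 f).symm
    have e2 : sd v (m.bar e) = sd x (m.bar e) := by
      have := s2 e G.ei
      rcases G.fe.1 with ⟨c, c'⟩ | ⟨c, c'⟩ <;> rw [c, c'] at this <;>
        [exact this; exact this.symm]
    have := s3 a x v _ (h.adj12 f).symm (h.adj13 G.fe) (l2.trans l1.symm)
      (by rw [l1] at e1 ⊢; rwa [e2]) (h.adj13 G.pA.fc)
    exact l3 (G.pA.br.symm.trans ((h.lines G.pA.fc G.pA.ni).2.1.symm.trans (this.trans l1)))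
  by_cases c : k' = g
  · exact G.caseJ R (c ▸ a₂) (c ▸ a₃) b (c ▸ b')
  by_cases c' : k' = g'
  · exact G.symm.caseJ R (c' ▸ a₂) (c' ▸ a₃) b (c' ▸ b')
  have nr := G.good (.inl rfl) f'.fc so c c'
  have ba := G.st.bd1 G.L.wx
  have xz : x ≠ z := by
    rintro rfl
    exact nk _ (h.far_of_fc ba a₃.wk.ne f.fc.symm f'.fc)
  by_cases c₀ : w₀ = z
  swap
  · exact G.win q a₂ (by unfold Bt at *; omega) f'.fc R.na c₀ G.xa xz (G.bs R) (.inl (.of_not nr))
  subst c₀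
  rcases R.ob with rfl | ⟨i, i', r, q', -⟩
  · exact G.gA _ (h.far_of_fc ba (fun c => G.nh G.pA (c ▸ a₂.h2)) G.pA.fc f'.fc)
  rcases h.s2 r q'.fc.ge (h.adj12 G.pA.fc) (h.adj12 f') with c | c
  · exact G.va (q'.fc.2.symm.trans c.symm)
  · exact G.win q' a₀ b f.fc G.wx n1 xz.symm R.na
      (.inl fun j r' _ => .inr (h.far_unique r r' ▸ c.symm)) (.inl (.of_not nk))

end Lx

/-- (LX) -/
theorem Lx.fin [DecidableEq V] [Finite V] [Finite J] (G : m.Lx ps T N U W μ a x y v η w₁ g g' o o' e A) :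
    False := by
  have h := G.ok
  obtain ⟨w₀, B, R⟩ := G.row
  have s := G.st.sid_rev h G.ord G.s₁
  obtain ⟨k, a₀, a₁, b, -, so, c⟩ := G.st.pas1 h G.ord G.nc s.wk G.op' G.fe.fc
    (G.st.sid_lbar h G.ord s G.fe.fc rfl)
  obtain ⟨w, f⟩ := c.ge
  by_cases sf : m.Sf W k x ∨ m.Sf W k w
  swap
  · obtain ⟨j, r, -⟩ := G.hard f.fc (G.st.sol_w h so f.fc).1 sf
    exact G.caseH R a₀ a₁ b f r
  have th := G.th
  by_cases c : η = w
  · subst c
    rcases th with rfl | rfl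
    exacts [G.caseK R a₀ a₁ b f, G.nxy (h.adj12 f)]
  by_cases c' : w₁ = w
  · subst c'
    refine G.tri R f.fc a₀.h2 a₁.wk.ne.symm ?_ G.w1t.1
    rcases R.ob with rfl | ⟨i, i', r, q, -⟩
    exacts [rfl, h.s5 (.inl rfl) (.inr ⟨i, i', r, q.fc.ge⟩) (h.adj12 f) (h.adj12 R.pB.fc).symm
      (h.fc_ne R.pB.fc).1.symm G.wx.symm]
  exact G.win G.pA a₀ b f.fc (by rintro rfl; exact th.elim G.xa G.L.ne) c G.wx c'
    (.inl (.of_not G.gA)) (sf.imp Sf.sz Sf.sz)

end Map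

end Pool.Agent.P.MP_5f84aa_co.G
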