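import Pool.Agent.P.MP_5f84aa_co.G.LH1b
import Pool.Agent.P.MP_5f84aa_co.G.LI0

/-! Type GR with a door: the run that passes the door, the triangle case. -/

namespace Pool.Agent.P.MP_5f84aa_co.G

namespace Map

variable {V J Sg : Type}

/-- the type of the cell at the end of a run -/
def Typ (m : Map V J Sg) (ps : J → Sg → ℤ) (W : V → V → Prop) (a x y : V) (κ : J) : Prop :=
  ∀ t o e, m.Ray ps W t o e → e ≠ κ → o ≠ κ → ∃ v z, ¬ Zc a x y v ∧ Zc a x y z ∧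
    ((∃ o', m.II ps W v z e o o') ∨ ∃ z' k o', m.PHI ps W a x y v z z' e k o o')

/-- a light at a corner `l` of `x` that opens the segment from `o` to `j` -/
structure Lam (m : Map V J Sg) (ps : J → Sg → ℤ) (W : V → V → Prop) (a x y : V) (t : Sg) (o j l : J)
    (p : V) : Prop where
  f : m.GE l p x
  pa : p ≠ a
  py : p ≠ y
  opp : m.Adj a p → m.ln a p = t
  alt : (m.Wk ps W t o l ∧ Bt ps t o j l ∧ (m.Sf W l p ∨ m.Sf W l x)) ∨
    ∃ d, m.Sid ps W p t o d ∧ Bt ps t o j d ∧ m.far l d ∧ m.X d = a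

variable {m : Map V J Sg} {ps : J → Sg → ℤ} {t s : Sg} {T : Set Sg} {N : V → Prop} {μ : V → ℕ}
  {W : V → V → Prop} {U D : Finset V} {M : Finset J}
  {a c p q u v w x y z z' F : V} {d e g i j j' k l n o o' κ : J}

namespace TyC

variable [DecidableEq V] (G : m.TyC ps T N U W μ a x y j j' κ)
include G

theorem symm : m.TyC ps T N U W μ a x y j' j κ :=
  { G with
    far := G.far.symm
    f := G.f'
    so := G.so'
    so' := G.so
    xg := G.xg'
    xg' := G.xg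
    sd := G.ok.far_stem G.far ▸ G.sd }

/-- a cell with one solid corner -/
theorem t3_cov (p : m.II ps W v z k o o') (w : W v u) :
    m.Sgm ps (m.stem k) o k v u ∨ m.Sgm ps (m.bar k) k o' v u :=
  G.st.cover1 G.ok G.ord (G.se v) p.a p.b p.op p.op' p.f.fc.cor1 (G.ok.stem_ne k p.a.wk.i2) w

theorem t3_only (p : m.II ps W v z k o o') (c : m.cor n v) (so : m.Sol W n) : n = k := by
  obtain ⟨u, f⟩ := c.ge
  rcases G.t3_cov p (G.st.sol_w G.ok so f).1 with b | b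
  exacts [HSt.sid_out G.ok G.ord p.a p.op c so f.fc.on b,
    HSt.sid_out G.ok G.ord (G.st.sid_rev G.ok G.ord p.b) p.op' c so f.fc.on b.rev]

/-- the solid corners of the two halves other than the ends of the door are good -/
theorem t3_good (c : z = a ∨ z = y) (f : m.Fc k z p F) (so : m.Sol W k) (d : k ≠ j) (d' : k ≠ j')
    (i : J) : ¬ m.far k i := by
  have w := (G.st.sol_w G.ok so f).1
  rcases c with rfl | rfl
  exacts [G.nr G.far G.f f G.L.na (G.L.n1 G.L.wy) (G.L.n1 w) d d' i,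
    G.nr G.far G.f.symm f (G.L.n1 G.L.wy) G.L.na (G.L.n2 G.L.wy w) d d' i]

variable [Finite V] [Finite J]

/-- the run goes on after the next corner `k` of `a` -/
theorem t3_land (a₀ : m.Wk ps W t o j) (op : ¬ m.Sol W o) (br : m.bar j = t) (a₁ : m.Wk ps W t o k)
    (bt : Bt ps t o j k) (f : m.Fc k a q F) (nr : ∀ i, ¬ m.far k i) (bk : m.bar k = t) :
    ∃ l p, m.Lam ps W a x y t o j l p := by
  have h := G.ok
  have st := G.st
  have r := G.ord
  have ji := a₀.i2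
  obtain ⟨u, v, w, b, c⟩ := a₁.p1
  obtain ⟨e, a₂, c', q'⟩ := st.ray h r w b
  rw [c.2.1] at a₂ c' q'
  have so := (G.nc _ _ _ a₂).resolve_left op
  have se := q'.resolve_left (not_not.2 so)
  have b2 := (HSt.wk_le h r a₁ a₂ se c c').resolve_left fun q => h.stem_ne k a₁.i2
    ((q ▸ se).trans bk.symm)
  have b3 : Bt ps t j k e := by unfold Bt at *; omega
  have ta := h.tc_cor ji G.f.fc.cor1 a₀.h2
  have key : ∀ u, m.cor e u → u ≠ a ∧ u ≠ y := fun u c => by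
    have tu := h.tc_cor a₂.i2 c a₂.h2
    refine ⟨fun q => (h.fc_ne f).2.1 (f.2.symm.trans
      (r.flat ji a₁.i2 a₂.i2 ta a₁.h2 (q ▸ tu) b3)).symm, fun q => ?_⟩
    have := r.flat ji a₁.i2 a₂.i2 (h.tc_cor ji G.f.fc.cor2 a₀.h2) a₁.h2 (q ▸ tu) b3
    rcases h.rung_face G.far G.f ⟨f.has1, .inr (.inr this.symm)⟩ with rfl | rfl
    exacts [nr _ G.far, nr _ G.far.symm]
  have nl : m.ln a x ≠ t := fun l => by
    have l := G.lax.symm.trans l
    have := r.ty_mid h G.ki ji a₂.i2 l se a₀.h2 (fun q => (key _ (q ▸ G.fk.fc.cor1)).1 rfl)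
      (fun q => h.stem_ne j ji ((q ▸ l).trans br.symm)) fun q => h.stem_ne j ji ((q ▸ se).trans br.symm)
    exact (h.fc_ne G.f).2.1 (r.flat G.ki ji a₁.i2 (h.tc_cor G.ki G.fk.fc.cor1 (.inl l)) a₀.h2
      (h.tc_cor a₁.i2 f.cor1 a₁.h2) (by unfold Bt at *; omega)).symm
  have npr : ∀ u v, m.Sgm ps t o e u v → ¬ Pr a x y u v := by
    rintro _ _ b ⟨rfl, rfl | rfl⟩
    exacts [nl b.2.1, G.nrg a₀ op (b.2.1.symm.trans (h.lines G.f.fc ji).1)]
  have opp : ∀ p, m.GE e p x → m.Adj a p → m.ln a p = t := fun p g => by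
    obtain ⟨sd, S⟩ := G.sd
    have tn := G.nrg a₀ op
    have b := HSt.wk_stem' h a₂ g.fc se
    have e1 := S.sgm tn b
    have e2 := mt (fun d => S.one t a x a x tn ta.onL (b.symm h).onL d (.inl rfl) (.inl rfl)
      (h.adj12 G.fk.fc)) nl
    exact S.one t a p a p tn ta.onL b.onL (fun q => e2 fun q' => e1 (q.symm.trans q')) (.inl rfl) (.inl rfl)
  have ge : ∀ i, ¬ m.far e i := fun i q => h.far_not_bar q ji (se.trans br.symm)
  have nr' := fun u c => (st.seg_near (T := T) (u := u) h r a₂ op so c).mono (e := 8) (by omega)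
  have fe := fc_self (m := m) e
  have := G.L.f1S h fe (nr' _ fe.has1) (nr' _ fe.has2) (.inl (.of_not ge)) (st.rc_end h r a₂ (.op op)
    fun u v b => .inl (.of (by simp) a₂.h2 b.2.1 (npr u v b) (npr v u (b.symm h))))
  have k1 := key _ fe.cor1
  have k2 := key _ fe.cor2
  have b4 : Bt ps t o j e := by unfold Bt at *; omega
  rcases this with c | c
  · obtain c : m.L e = x := by tauto
    exact ⟨e, _, c ▸ fe.symm.ge, k2.1, k2.2, opp _ (c ▸ fe.symm.ge), .inl ⟨a₂, b4, .inl (.of_not ge)⟩⟩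
  · obtain c : m.R e = x := by tauto
    exact ⟨e, _, c ▸ fe.ge, k1.1, k1.2, opp _ (c ▸ fe.ge), .inl ⟨a₂, b4, .inl (.of_not ge)⟩⟩

/-- the run ends at `κ` -/
theorem t3_kap (a₀ : m.Wk ps W t o j) (op : ¬ m.Sol W o) (a₁ : m.Wk ps W t o κ)
    (c₁ : m.Sid ps W a t j κ) (bt : Bt ps t o j κ) (sk : m.stem κ = t) :
    ∃ l p, m.Lam ps W a x y t o j l p := by
  have h := G.ok
  have st := G.st
  have r := G.ord
  have ji := a₀.i2
  obtain ⟨sd, S⟩ := G.sd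
  have tn := G.nrg a₀ op
  have th : sd y t = sd a t := (congrFun S.th t).symm
  have tx := h.tc_cor G.ki G.fk.fc.cor2 (.inl sk)
  obtain ⟨c, u, w, on, b, dc⟩ : ∃ c u, W c u ∧ m.On o c u ∧ m.Sgm ps t o κ c u ∧ sd c t ≠ sd a t := by
    obtain ⟨v, w, ww, c₀, b⟩ := a₁.p1
    have := S.sgm tn b
    by_cases q : sd v t = sd a t
    exacts [⟨w, v, st.sym _ _ ww, c₀.symm, b.symm h, fun e => this (q.trans e.symm)⟩, ⟨v, w, ww, c₀, b, q⟩]
  have cz : ¬ InZ x a y c := by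
    rintro (rfl | rfl | rfl)
    exacts [G.xg (r.flat a₁.i1 ji G.ki (b.tc on) a₀.h2 tx bt).symm, dc rfl, dc th]
  obtain ⟨k, p, z, X, l, b', f, pz, zz⟩ : ∃ k p z X, m.TyL ps W t o k c p ∧ m.Sgm ps t o k c u ∧
      m.Fc k p z X ∧ ¬ InZ x a y p ∧ InZ x a y z := by
    rcases G.lead cz w on op with q | ⟨d, d', -, f, so, -, br, a', b'⟩ <;> rw [b.2.1] at *
    exacts [q, ⟨d, c, x, _, ⟨op, so, a', .inl ⟨rfl, a', ⟨u, on, b'⟩, h.tc_cor a'.i2 f.fc.cor1 a'.h2⟩⟩,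
      b', f.fc, cz, .inl rfl⟩]
  have ki := l.wk.i2
  have b2 := (HSt.wk_le h r l.wk a₁ sk b' b).resolve_left (G.nk f.cor1 pz)
  have br := r.bar_of_bt a₁.i1 ki G.ki a₁.h1 l.wk.h2 a₁.h2 b2
  have e1 : sd p t = sd c t := by
    rcases l.cs with ⟨rfl, -⟩ | ⟨d, d', q, g', -, -, bd, -⟩
    exacts [rfl, (bd ▸ S.bar _ _ _ _ q.2.1 g'.fc).symm]
  have e2 : sd p t = sd z t := br ▸ S.bar _ _ _ _ ki f
  obtain rfl : z = x := by
    rcases zz with rfl | rfl | rfl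
    exacts [rfl, absurd (e1.symm.trans e2) dc, absurd ((e1.symm.trans e2).trans th) dc]
  have n1 : ¬ Bt ps t k j κ := fun q =>
    G.xg (r.flat ki ji G.ki (h.tc_cor ki f.cor2 l.wk.h2) a₀.h2 tx q).symm
  have n2 := mt (r.inj t j k ji ki a₀.h2 l.wk.h2) fun q =>
    (G.f.fc.cor_iff.1 (q ▸ f.cor2)).elim G.ax.symm G.L.ne
  have b3 : Bt ps t o j k := by unfold Bt at *; omega
  have pa : p ≠ a := fun e => pz (.inr (.inl e))
  have py : p ≠ y := fun e => pz (.inr (.inr e))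
  have opp := S.one t a p a p tn c₁.lst.onL l.tc.onL (fun q => dc (e1.symm.trans q.symm)) (.inl rfl)
    (.inl rfl)
  by_cases sf : m.Sf W k p ∨ m.Sf W k z
  · exact ⟨k, p, f.ge, pa, py, opp, .inl ⟨l.wk, b3, sf⟩⟩
  obtain ⟨k', q, -⟩ := G.hard f (st.sol_w h l.so f).1 sf
  obtain ⟨nc, np⟩ := G.nv l
  rcases l.cs with ⟨rfl, c'⟩ | ⟨d, d', q', g', -⟩
  · exact ⟨k', p, h.far_ge q f.ge, pa, py, opp, .inr ⟨k, c', b3, q.symm,
      (HSt.sid_flat r c₁ ki l.wk.h2 (by unfold Bt at *; omega)).1⟩⟩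
  · exact absurd (.inl (G.one (np.mono (by omega)) (nc.mono (by omega)) (G.L.n1 G.L.wx)
      ⟨d, d', q', g'.symm⟩ ⟨k, k', q, f.ge⟩)) cz

omit [Finite V] [Finite J] in
/-- the first corner of a cell with two corners lies on the line of `a x` -/
theorem t3_phi (p : m.PHI ps W a x y v a z' e k o o') (hv : ¬ Zc a x y v) :
    m.X e = x ∧ m.bar e = m.stem κ ∧ z' = x := by
  have h := G.ok
  have ei := p.a₀.wk.i2
  obtain ⟨-, l1, l, -⟩ := h.lines p.f.fc ei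
  have e1 : m.X e = x := by
    rcases p.f.fc.has_iff.1 p.on.2 with e | e | e
    exacts [absurd (.inr (.inl e.symm)) hv, absurd e.symm G.ax, e.symm]
  refine ⟨e1, l.symm.trans (e1 ▸ G.lax), ?_⟩
  obtain ⟨sd, S⟩ := G.sd
  rcases p.zz with e | e | e
  · exact absurd e p.ne
  · exact e
  subst e
  have l2 := (h.lines p.f'.fc p.a₁.wk.i2).1.trans p.st
  have := S.opp _ _ (h.adj12 p.f'.fc) (l2 ▸ (h.far_not_bar G.far ei).symm)
  rw [l2, ← S.th, S.bar _ _ _ _ ei p.f.fc] at this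
  exact absurd rfl this

/-- (TRUN) a segment from an open face passes the door from `y` into `a` -/
theorem trun (ty : m.Typ ps W a x y κ) (a₀ : m.Wk ps W t o j) (op : ¬ m.Sol W o)
    (b : m.Sgm ps t o j y (m.X j)) : ∃ k q, m.GE k a q ∧ m.Sol W k ∧ m.Wk ps W t o k ∧
      m.Sid ps W a t j k ∧ Bt ps t o j k ∧ (∀ i, ¬ m.far k i) ∧ q ≠ y ∧
      ((∃ l p, m.Lam ps W a x y t o j l p ∧ (k = κ ∨ m.bar k = t)) ∨
        (m.stem k = t ∧ ¬ Zc a x y q ∧ ((∃ o', m.II ps W q a k o o') ∨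
          ∃ g o', m.PHI ps W a x y q a x k g o o'))) := by
  have h := G.ok
  have r := G.ord
  have ji := a₀.i2
  have br : m.bar j = t := (h.lines G.f.fc ji).2.2.1.symm.trans b.2.1
  obtain ⟨k, q, X, a₁, c₁, bt, so, f, qy, -, nr⟩ := G.door a₀ op G.far G.f.fc.symm b
    (G.L.fa.mono (by omega))
  refine ⟨k, q, f.ge, so, a₁, c₁, bt, nr, qy, ?_⟩
  rcases a₁.h2 with sk | bk
  swap
  · obtain ⟨l, p, c⟩ := G.t3_land a₀ op br a₁ bt f nr bk
    exact .inl ⟨l, p, c, .inr bk⟩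
  by_cases e : k = κ
  · subst e
    obtain ⟨l, p, c⟩ := G.t3_kap a₀ op a₁ c₁ bt sk
    exact .inl ⟨l, p, c, .inl rfl⟩
  have oκ : o ≠ κ := by
    rintro rfl
    exact (h.fc_ne G.f).2.1 (r.flat a₁.i1 ji a₁.i2 (h.tc_cor G.ki G.fk.fc.cor1 a₁.h1) a₀.h2 c₁.lst bt).symm
  obtain ⟨v, z, vz, -, c⟩ := ty t o k ⟨a₁, op, so, sk⟩ e oκ
  have g : m.GE k v z := by
    rcases c with ⟨_, c⟩ | ⟨_, _, _, c⟩
    exacts [c.f, c.f]
  obtain rfl : a = z := (g.fc.cor_iff.1 f.cor1).resolve_left fun e => vz (.inl e.symm)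
  obtain rfl : q = v := (f.unique g.fc.symm (h.fc_ne f).1).1
  refine .inr ⟨sk, vz, c.imp_right fun ⟨z', g', o', c⟩ => ⟨g', o', ?_⟩⟩
  exact (G.t3_phi c vz).2.2 ▸ c

omit [Finite J] in
/-- the light `l` and a light at a corner `k` of `a` -/
theorem lam_nm [DecidableEq J] (L : m.Lam ps W a x y t o j l p) (a₀ : m.Wk ps W t o j)
    (op : ¬ m.Sol W o) (b : m.Sgm ps t o j y (m.X j)) (f : m.Fc k a q F) (qp : q ≠ p) (qx : q ≠ x)
    (nq : m.Fe T W 8 q) (sf : ∀ i, m.far k i → i = j) :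
    m.Nm T U W μ {a, q, p, x} {k, l} ∧ ∀ u v, m.Sgm ps t o j u v → u ∈ ({a, q, p, x} : Finset V) ∨
      v ∈ ({a, q, p, x} : Finset V) ∨ m.Opd W {a, q, p, x} (m.Hgd T {k, l} No) u v := by
  have h := G.ok
  have st := G.st
  have r := G.ord
  have ji := a₀.i2
  have br : m.bar j = t := (h.lines G.f.fc ji).2.2.1.symm.trans b.2.1
  have c : ∀ u v, m.Sgm ps t o j u v → m.Hgd T {k, l} No u v ∨ u ∈ ({a, q, p, x} : Finset V) ∨
      v ∈ ({a, q, p, x} : Finset V) := fun u v b => by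
    rcases L.alt with ⟨a₁, -⟩ | ⟨d, c, bt, -⟩
    · exact .inl (.no (by simp) a₁.h2 b.2.1)
    · rcases st.sid_row h r c (b.mono bt.bw) with rfl | rfl <;> simp
  have rj := st.rc_end h r a₀ (.op op) c
  have rk := rj.cell (by simp) G.f.fc.has1 f.has1
  have rl := (rj.cell (by simp) G.f.fc.has1 G.fk.fc.has1).cell (by simp) G.fk.fc.has2 L.f.fc.has2
  refine ⟨G.L.nmQ h f L.f.fc L.pa.symm G.ax qp qx G.L.na nq ?_ (G.L.n1 G.L.wx) ⟨a, f.cor1, ?_⟩ ?_ rk rl,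
    fun u v b => st.op_wk h r a₀ (.op op) c b⟩
  · rcases L.alt with ⟨a₁, -⟩ | ⟨d, c, -⟩
    · exact (st.seg_near h r a₁ op ((G.nc _ _ _ a₁).resolve_left op) L.f.fc.has1).mono (by omega)
    · obtain ⟨u, -, b⟩ := c.fst
      exact (G.L.s0 h r c.wk op b).mono (by omega)
  · intro i q _
    obtain rfl := sf i q
    rcases L.alt with ⟨a₁, -⟩ | ⟨d, c, bt, -⟩
    exacts [.inr (.inr (br ▸ a₁.h2)), .inl (HSt.sid_flat r c ji a₀.h2 bt).1]
  · rcases L.alt with ⟨-, -, c⟩ | ⟨d, -, -, c, e⟩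
    exacts [.of_sf L.f.fc c, .of_flat fun i q => .inl (h.far_unique c q ▸ e)]

/-- (T) a cell with the single corner `e` at the triangle `y` -/
theorem tt (ty : m.Typ ps W a x y κ) (S : m.II ps W v y e o o') (vz : ¬ Zc a x y v)
    (p2 : Bt ps (m.stem e) o j' e) (b2 : m.bar j' = m.stem e) (p1 : m.Sid ps W y (m.bar e) e j) :
    False := by
  classical
  have h := G.ok
  have st := G.st
  have r := G.ord
  have ei := S.a.wk.i2
  have ji := p1.wk.i2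
  have va : v ≠ a := fun e => vz (.inl e)
  have vx : v ≠ x := fun e => vz (.inr (.inl e))
  obtain ⟨vy, vX, -⟩ := h.fc_ne S.f.fc
  have wv := (st.sol_w h S.so S.f.fc).1
  have br : m.bar j = m.bar e := p1.wk.h2.resolve_left (h.far_not_bar G.far ei)
  have c' := st.sid_rev h r S.b
  obtain ⟨bt, a₀⟩ := st.wk_join h r c'.wk S.so S.f.fc (st.sid_lbar h r c' S.f.fc rfl) p1.wk
    (st.sid_lbar h r (st.sid_rev h r p1) S.f.fc.symm rfl).rev
  have b := (st.sid_lbar h r p1 G.f.fc.symm br).tail bt.bw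
  have nc : ∀ {n u}, m.cor n u → m.Sol W n → u ≠ y → u ≠ v → ¬ m.cor n v := fun c so d d' c' =>
    (S.f.fc.cor_iff.1 (G.t3_only S c' so ▸ c)).elim d' d
  have ge := G.t3_good (.inr rfl) S.f.fc.symm S.so
    (fun e => (G.f.fc.cor_iff.1 (e ▸ S.f.fc.cor1)).elim va vy)
    fun e => (G.f'.fc.cor_iff.1 (e ▸ S.f.fc.cor1)).elim va vy
  obtain ⟨k, q, f, so, a₁, c₁, bt₁, nr, qy, ⟨l, p, L, -⟩ | ⟨sk, qz, c⟩⟩ := G.trun ty a₀ S.op' b
  · obtain ⟨n, c⟩ := G.lam_nm L a₀ S.op' b G.f'.fc L.py.symm G.L.ne.symm (G.L.n1 G.L.wy)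
      fun i q => h.far_unique G.far.symm q
    have vp : v ≠ p := by
      rintro rfl
      rcases L.alt with ⟨a₂, bt₂, -⟩ | ⟨d, c, bt₂, -⟩
      exacts [vX (r.flat a₂.i1 ei a₂.i2 S.b.lst (.inr rfl) (h.tc_cor a₂.i2 L.f.fc.cor1 a₂.h2)
        (by unfold Bt at *; omega)).symm,
        vX (HSt.sid_flat r c ei (.inr rfl) (by unfold Bt at *; omega)).1.symm]
    have vD : v ∉ ({a, y, p, x} : Finset V) := by simp [*]
    refine n.neu.frees (st.mem _ _ wv) vD (G.L.one v (G.L.b1 h S.bdy wv)) fun u w => ?_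
    rcases G.t3_cov S w with b | b
    exacts [(st.seg_gone h r S.a.wk S.op (by simp) (.inr b2) b).resolve_left vD,
      (c _ _ (b.rev.mono bt.bw)).resolve_left vD]
  have ki := a₁.i2
  have qa := (h.fc_ne f.fc).1.symm
  have wq := st.sym _ _ (st.sol_w h so f.fc).1
  have qv : q ≠ v := fun e => nc f.fc.cor1 so G.ay va.symm (e ▸ f.fc.cor2)
  have two : ∀ {n z w X s i}, m.Wk ps W s i n → ¬ m.Sol W i → m.Fc n z w X → z ≠ v → z ≠ y → w ≠ y →
      (m.Sf W n z ∨ m.Sf W n w) → m.Nm T U W μ {v, y, z, w} {e, n} := fun a₂ op₂ f₂ d1 d2 d3 sf => by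
    have s₂ := (G.nc _ _ _ a₂).resolve_left op₂
    have nr' := fun u c => (st.seg_near (T := T) (u := u) h r a₂ op₂ s₂ c).mono (e := 8) (by omega)
    exact G.L.nmQ h S.f.fc f₂ d1.symm (fun e => nc f₂.cor1 s₂ d2 d1 (e ▸ f₂.cor2)) d2.symm d3.symm
      (G.L.b1 h S.bdy wv) (G.L.n1 G.L.wy) (nr' _ f₂.has1) (nr' _ f₂.has2) (.of_not ge) (.of_sf f₂ sf)
      (.of_bdy S.bdy (by simp) S.f.fc.has1) (st.seg_rc h r a₂ op₂ (by simp) a₂.h2)
  rcases c with ⟨o₂, P⟩ | ⟨g, o₂, P⟩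
  · have c₂ := st.sid_rev h r P.b
    obtain ⟨n, a₂, c₃, -, -, sn, cn⟩ := st.pas1 h r G.nc c₂.wk P.op' P.f.fc
      (st.sid_lbar h r c₂ P.f.fc rfl)
    obtain ⟨w, f₂⟩ := cn.ge
    have d1 : n ≠ j := by
      rintro rfl
      exact a₂.h2.elim (h.far_not_bar G.far ki) fun e => h.stem_ne k ki (sk.trans (br.symm.trans e))
    have d2 : n ≠ j' := by
      rintro rfl
      exact a₂.h2.elim (h.far_not_bar G.far.symm ki) fun e =>
        G.ex.no2 _ k ei ki (b2.symm.trans e) sk.symm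
    have wy : w ≠ y := fun e => (h.rung_face G.far G.f (e ▸ f₂.fc.on)).elim d1 d2
    have n₂ := two a₂ P.op' f₂.fc va.symm G.ay wy (.inl (.of_not (G.t3_good (.inl rfl) f₂.fc sn d1 d2)))
    have qw : q ≠ w := fun e => c₃.wk.ne (G.t3_only P (e ▸ f₂.fc.cor2) sn).symm
    have qD : q ∉ ({v, y, a, w} : Finset V) := by simp [*]
    refine n₂.neu.frees (st.mem _ _ wq) qD (G.L.one q (G.L.b1 h P.bdy wq)) fun u w => ?_
    rcases G.t3_cov P w with b | b
    exacts [(st.seg_gone h r P.a.wk P.op (k := e) (by simp) (.inr sk.symm) b).resolve_left qD,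
      (st.seg_gone h r c₂.wk P.op' (k := n) (by simp) a₂.h2 b.rev).resolve_left qD]
  · obtain ⟨eX, bk, -⟩ := G.t3_phi P qz
    have c₂ := st.sid_rev h r P.a₂
    obtain ⟨n, θ, w, X, a₂, -, f₂, ts, sf, l, -⟩ := G.nxtZ c₂.wk P.op' P.f'.fc
      (st.sid_lbar h r c₂ P.f'.fc rfl) (fun c => qz (by unfold InZ at c; unfold Zc; tauto)) (.inl rfl)
      (P.st.trans bk)
    obtain rfl : θ = x := by
      have := G.ax; have := G.L.ne
      unfold TyS at ts
      tauto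
    have n₂ := two a₂ P.op' f₂ vx.symm G.L.ne (fun e => G.nxy (e ▸ h.adj12 f₂)) sf
    have qx : q ≠ θ := fun e => qz (.inr (.inl e))
    have lq : m.ln q θ = m.bar k := eX ▸ (h.lines P.f.fc ki).2.1
    have qw : q ≠ w := fun e => l (e ▸ (h.ln_symm _ _).trans (lq.trans bk))
    have qD : q ∉ ({v, y, θ, w} : Finset V) := by simp [*]
    have on : m.On k q θ := ⟨P.f.fc.has1, P.on.2⟩
    have cx : m.Sid ps W θ (m.bar k) k g := ⟨P.a₁.wk,
      ⟨q, on.symm, (HSt.sid_cor h P.a₁ P.f.fc.cor1 on qx lq).symm h⟩,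
      h.tc_cor P.a₁.wk.i2 P.f'.fc.cor2 P.a₁.wk.h2⟩
    refine n₂.neu.frees (st.mem _ _ wq) qD (G.L.one q (G.L.b1 h P.bdy wq)) fun u w => ?_
    rcases st.cover2 h r (G.se q) P.a₀ P.a₁ P.a₂ P.op P.op' P.f.fc.cor1 P.f'.fc.cor1 (h.stem_ne k ki)
      (P.st ▸ h.stem_ne g P.a₁.wk.i2) w with b | b | b
    exacts [(st.seg_gone h r P.a₀.wk P.op (k := e) (by simp) (.inr sk.symm) b).resolve_left qD,
      .inl (by simp [st.sid_two h r cx b qx]),
      (st.seg_gone h r c₂.wk P.op' (k := n) (by simp) a₂.h2 b.rev).resolve_left qD]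

end TyC

end Map

end Pool.Agent.P.MP_5f84aa_co.G
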