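import Pool.Agent.P.MP_5f84aa_co.G.LH2
import Pool.Agent.P.MP_5f84aa_co.G.LH3

/-! Type GR, hard rung: no half of the rung leaves a run at a landing with a cell off the zone. -/

namespace Pool.Agent.P.MP_5f84aa_co.G

namespace Map

variable {V J Sg : Type} {m : Map V J Sg} {ps : J → Sg → ℤ} {t : Sg} {T : Set Sg} {N : V → Prop}
  {μ : V → ℕ} {W : V → V → Prop} {U : Finset V} {a w x y θ η F : V} {e j j' n o κ A : J}

namespace TyC

variable [DecidableEq V] [Finite V] [Finite J] (G : m.TyC ps T N U W μ a x y j j' κ)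
include G

/-- the halves of the rung do not come back -/
theorem lx_no (q : m.Pas ps t o e A η w F) (th : η = a ∨ η = y) (wz : ¬ Zc a x y w)
    (c : θ = a ∨ θ = y) (ni : n ≠ m.inf) (tc : m.Tc n θ t) (b : Bt ps t o A n) : False := by
  have h := G.ok
  obtain ⟨n1, n2, n3⟩ := h.fc_ne q.fc
  have nb : t ≠ m.stem j := fun l => h.far_not_bar G.far q.ni (l.symm.trans q.br.symm)
  have same : ∀ n, n ≠ m.inf → m.Tc n η t → ¬ Bt ps t o A n := fun n ni tc b => by
    obtain ⟨i, -, on, -, -, -, r⟩ := q.sg.two h G.ord ⟨q.fc.has1, q.fc.has3⟩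
    obtain ⟨ii, bw⟩ := q.sg.2.2 i on
    exact n2 ((G.ord.flat ii q.ni ni (q.sg.tc on) (.inr q.br) tc
      (by unfold Bt Bw at *; omega)).symm.trans q.fc.2)
  by_cases c' : θ = η
  · exact same n ni (c' ▸ tc) b
  have key : ∀ k, k ≠ m.inf → m.GE k a y → t ≠ m.bar k := fun k ki f l => by
    have t1 : ∀ θ, θ = a ∨ θ = y → m.Tc k θ t := by
      rintro θ (rfl | rfl)
      exacts [l ▸ h.tc_bar ki f.fc.has1, l ▸ h.tc_bar ki f.fc.has2]
    have e1 := same k ki (t1 η th)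
    have e2 := mt (G.ord.inj _ A k q.ni ki (.inr q.br) (.inr l.symm)) fun d =>
      wz ((f.fc.cor_iff.1 (d ▸ q.fc.cor2)).imp_right .inr)
    obtain rfl := (G.ord.flat ki q.ni ni (t1 θ c) (.inr q.br) tc
      (by unfold Bt at *; omega)).symm.trans q.fc.2
    have l0 := (h.lines G.f G.far.2.1).1
    have l1 := q.sg.2.1
    rcases c with rfl | rfl <;> rcases th with rfl | rfl
    exacts [c' rfl, nb (l1.symm.trans ((h.ln_symm _ _).trans l0)), nb (l1.symm.trans l0), c' rfl]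
  have oa : m.OnL a t ∧ m.OnL y t := by
    have := q.sg.onL
    have := tc.onL
    rcases c with rfl | rfl <;> rcases th with rfl | rfl <;> tauto
  rcases h.s7 G.far G.f (G.st.bd1 G.L.wy) (G.st.bd2 G.L.wy) oa.1 oa.2 nb with l | l
  exacts [key j G.far.2.1 G.f l, key j' G.far.2.2.1 G.f' l]

/-- (LX) given the type of this run -/
theorem lx0 (R : m.Ray ps W t o e) (q : m.Pas ps t o e A η w F) (th : η = a ∨ η = y)
    (wz : ¬ Zc a x y w) (ty : e ≠ κ → ∃ v z, ¬ Zc a x y v ∧ Zc a x y z ∧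
      ((∃ o', m.II ps W v z e o o') ∨ ∃ z' k o', m.PHI ps W a x y v z z' e k o o')) : False := by
  have h := G.ok
  obtain rfl := R.st
  have ei := R.wk.i2
  have no : ∀ θ, θ = a ∨ θ = y → ¬ m.cor e θ := fun θ c ce =>
    G.lx_no q th wz c ei (h.tc_cor ei ce (.inl rfl)) q.bt
  obtain ⟨v, z, vz, zz, p⟩ := ty fun c => no a (.inl rfl) (c ▸ G.fk.fc.cor1)
  obtain ⟨f, s⟩ : m.GE e v z ∧ m.Sid ps W v (m.stem e) o e := by
    rcases p with ⟨_, p⟩ | ⟨_, _, _, p⟩
    exacts [⟨p.f, p.a⟩, ⟨p.f, p.a₀⟩]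
  obtain rfl : x = z := by
    rcases zz with rfl | rfl | rfl
    exacts [absurd f.fc.cor2 (no _ (.inl rfl)), rfl, absurd f.fc.cor2 (no _ (.inr rfl))]
  obtain rfl : v = F := (HSt.sid_flat G.ord s q.ni (.inr q.br) q.bt).1.symm.trans q.fc.2
  have va : v ≠ a := fun c => vz (.inl c)
  have vy : v ≠ y := fun c => vz (.inr (.inr c))
  have nj : ∀ k, m.GE k a y → A ≠ k := fun k f d =>
    wz ((f.fc.cor_iff.1 (d ▸ q.fc.cor2)).imp_right .inr)
  rcases p with ⟨o', p⟩ | ⟨_, _, _, p⟩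
  · exact Lx.fin ⟨G.L, h, G.ex, G.ord, G.nc, G.se v, G.r1, G.far, G.f, G.xg, G.xg', f, s, R.op, p.b,
      p.op', va, vy, th, q, nj j G.f, nj j' G.f', fun c => wz (.inr (.inl c))⟩
  · have c : a = m.X e := ((f.fc.has_iff.1 p.on.1).resolve_left va.symm).resolve_left G.ax
    obtain ⟨-, l1, -, l2⟩ := h.lines f ei
    have := h.s5 (u := v) (.inl rfl) (w := a) (w' := η) (by
      rcases th with rfl | rfl
      exacts [.inl rfl, .inr ⟨j, j', G.far, G.f⟩]) (c ▸ h.adj13 f) q.sg.1.symm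
      (h.fc_ne q.fc).2.1.symm va
    exact l2 (q.sg.2.1.symm.trans ((h.ln_symm _ _).trans (this.symm.trans (c ▸ l1))))

/-- (LX) -/
theorem lx (ty : m.Typ ps W a x y κ) (R : m.Ray ps W t o e) (ok : o ≠ κ)
    (q : m.Pas ps t o e A η w F) (th : η = a ∨ η = y) (wz : ¬ Zc a x y w) : False :=
  G.lx0 R q th wz fun c => ty t o e R c ok

/-- (LX) if `κ` is solid -/
theorem lxS (ty : m.Typ ps W a x y κ) (sk : m.Sol W κ) : ∀ t o e A η w F, m.Ray ps W t o e →
    m.Pas ps t o e A η w F → η = a ∨ η = y → ¬ Zc a x y w → False :=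
  fun _ _ _ _ _ _ _ R q th wz => G.lx ty R (fun c => R.op (c ▸ sk)) q th wz

/-- (LX) if `a` is interior -/
theorem lxI (ty : m.Typ ps W a x y κ) (ia : ¬ m.Bdy W a) : ∀ t o e A η w F, m.Ray ps W t o e →
    m.Pas ps t o e A η w F → η = a ∨ η = y → ¬ Zc a x y w → False :=
  G.lxS ty (by_contra fun c => ia ⟨κ, G.fk.fc.has1, c⟩)

end TyC

end Map

end Pool.Agent.P.MP_5f84aa_co.G
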