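import Pool.Agent.P.MP_5f84aa_co.G.LHs

/-! Type GR, hard rung, the centre on the ring: the two ends of its arc do not both lead to `x`. -/

namespace Pool.Agent.P.MP_5f84aa_co.G

namespace Map

variable {V J Sg : Type}

/-- the ring wall `a w` at the open face `o` leads to the piece `a x` -/
def Kend (m : Map V J Sg) (ps : J → Sg → ℤ) (W : V → V → Prop) (a x : V) (κ o : J) (w : V) : Prop :=
  (o = κ ∧ w = x) ∨ ∃ k, m.Sid ps W a (m.ln a w) o k ∧ m.Sgm ps (m.ln a w) o k a w ∧ m.Sol W k ∧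
    (k = κ ∨ ∃ p, m.Fc k a p x ∧ m.stem k = m.ln a w)

variable {m : Map V J Sg} {ps : J → Sg → ℤ} {t : Sg} {W : V → V → Prop} {U : Finset V}
  {a w w' x y : V} {i j j' k o o' κ : J}

namespace HSt

variable (h : m.Ok) (r : m.Ord ps) (s : m.HSt U W)
include h r s

/-- two sides from open faces to the same corner on the same line -/
theorem sid_same (c : m.Sid ps W a t o k) (c' : m.Sid ps W a t o' k) (op : ¬ m.Sol W o)
    (op' : ¬ m.Sol W o') (ck : m.cor k a) (on : m.On o a w) (on' : m.On o' a w')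
    (b : m.Sgm ps t o k a w) (b' : m.Sgm ps t o' k a w') : w = w' := by
  have c1 := s.sid_rev h r c
  have c2 := s.sid_rev h r c'
  obtain ⟨u, q, d⟩ := c1.fst
  obtain rfl := sid_uniq h r c1 c2 d (sid_cor h c2 ck q d.1.1 d.2.1) (.inl op) (.inl op')
  rcases s.wk_first h r c.wk (s.wk_w h r c.wk b) on b on' b' with ⟨-, e⟩ | ⟨-, e⟩
  exacts [e.symm, absurd e.symm b'.1.1]

omit r s in
/-- a hard rung does not lie on a segment with an open end -/
theorem no_rung (f : m.far j j') (g : m.GE j a y) (so : m.Sol W j) (so' : m.Sol W j')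
    (c : m.Wk ps W t o k) (op : ¬ m.Sol W o) : m.ln a y ≠ t := fun l => by
  obtain ⟨u, v, w, on, b⟩ := c.p1
  have e := h.rung_ln f g b.1 (b.2.1.trans (l.symm.trans (h.lines g f.2.1).1))
  have on' : m.On o a y := by
    rcases e with ⟨rfl, rfl⟩ | ⟨rfl, rfl⟩
    exacts [on, on.symm]
  rcases h.two_faces (h.fc_ne g).1 g.fc.on (h.far_ge f g).fc.on on' f.1 with rfl | rfl
  exacts [op so, op so']

theorem kk (se : m.Sect W a) (f : m.far j j') (g : m.GE j a y) (so : m.Sol W j) (so' : m.Sol W j')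
    (gκ : m.GE κ a x) (wx : W a x) (xy : x ≠ y) (on : m.On o a w) (on' : m.On o' a w')
    (op : ¬ m.Sol W o) (op' : ¬ m.Sol W o') (d : w ≠ w') (K : m.Kend ps W a x κ o w)
    (K' : m.Kend ps W a x κ o' w') : False := by
  have wy := (s.sol_w h so g).1
  have nr : ∀ {t o k i i'}, m.Wk ps W t o k → ¬ m.Sol W o → ¬ m.Sgm ps t i i' a y :=
    fun c op b => no_rung h f g so so' c op b.2.1
  have nl : ∀ {i i'}, ¬ m.Sgm ps (m.ln a x) i i' a y := fun b => by
    rcases h.rung_ln f g (s.adj _ _ wx) (b.2.1.symm.trans (h.lines g f.2.1).1) with ⟨-, e⟩ | ⟨-, e⟩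
    exacts [xy e, s.ne wx e.symm]
  have ph : ∀ {k p}, m.Fc k a p x → k ≠ κ ∧ m.Sid ps W a (m.ln a x) κ k ∧ m.stem k ≠ m.ln a x :=
    fun {k _} q =>
    have n : k ≠ κ := fun e => (h.fc_ne gκ).2.2 (e ▸ q.2).symm
    have l := h.lines q ((s.bd1 wx).ne_inf q.has1)
    ⟨n, s.sid_one h r wx gκ.fc.on ⟨q.has1, q.has3⟩ n.symm, l.2.1 ▸ l.2.2.2⟩
  have k03 : ∀ {o w k}, ¬ m.Sol W o → ¬ m.Sol W κ → m.Sid ps W a (m.ln a w) o k → m.Sol W k →
      (k = κ ∨ ∃ p, m.Fc k a p x ∧ m.stem k = m.ln a w) → False := by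
    rintro o w k op oκ c sk (rfl | ⟨p, q, st⟩)
    · exact oκ sk
    obtain ⟨-, c', n⟩ := ph q
    exact (s.cover1 h r se c' (s.sid_rev h r c) oκ op q.cor1 (st ▸ n.symm) wy).elim nl (nr c.wk op)
  have k13 : ∀ {o w o' w' k p}, ¬ m.Sol W o → ¬ m.Sol W o' → m.Sid ps W a (m.ln a w) o κ →
      m.Sid ps W a (m.ln a w') o' k → m.Sol W k → m.Fc k a p x → m.stem k = m.ln a w' → False := by
    intro o w o' w' k p op op' c c' sk q st
    obtain ⟨n, c1, n'⟩ := ph q
    by_cases e : m.ln a w = m.ln a x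
    · exact s.no_end h r c op gκ.fc.cor1 (e ▸ c1) sk q.cor1
    · rcases s.cover2 h r se c c1 (s.sid_rev h r c') op op' gκ.fc.cor1 q.cor1 e (st ▸ n'.symm) wy
        with b | b | b
      exacts [nr c.wk op b, nl b, nr c'.wk op' b]
  rcases K with ⟨rfl, rfl⟩ | ⟨k, c, b, sk, K⟩ <;> rcases K' with ⟨rfl, e⟩ | ⟨k', c', b', sk', K'⟩
  · exact d e.symm
  · exact k03 op' op c' sk' K'
  · exact k03 op op' c sk K
  rcases K with rfl | ⟨p, q, st⟩ <;> rcases K' with rfl | ⟨p', q', st'⟩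
  · by_cases e : m.ln a w = m.ln a w'
    · exact d (s.sid_same h r c (e ▸ c') op op' gκ.fc.cor1 on on' b (e ▸ b'))
    · exact (s.cover1 h r se c (s.sid_rev h r c') op op' gκ.fc.cor1 e wy).elim (nr c.wk op)
        (nr c'.wk op')
  · exact k13 op op' c c' sk' q' st'
  · exact k13 op' op c' c sk q st
  · obtain rfl : k' = k := (h.two_faces (s.ne wx) gκ.fc.on ⟨q.has1, q.has3⟩ ⟨q'.has1, q'.has3⟩
      (ph q).1.symm).resolve_left (ph q').1
    have e := st.symm.trans st'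
    exact d (s.sid_same h r c (e ▸ c') op op' q.cor1 on on' b (e ▸ b'))

end HSt

end Map

end Pool.Agent.P.MP_5f84aa_co.G
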