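import Pool.Agent.P.MP_5f84aa_co.G.LH1a
import Pool.Agent.P.MP_5f84aa_co.G.LI0

/-! Type GR with a door `a y`: the rotation round the interior centre `a`. -/

namespace Pool.Agent.P.MP_5f84aa_co.G

namespace Map

variable {V J Sg : Type}

/-- a corner of `a` whose partner has only this corner -/
def Cs (m : Map V J Sg) (ps : J → Sg → ℤ) (W : V → V → Prop) (a x y : V) (k : J) : Prop :=
  ∃ v o o', ¬ Zc a x y v ∧ m.II ps W v a k o o'

/-- a corner of `a` with the flat cell `x` whose partner has two corners -/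
def Cp (m : Map V J Sg) (ps : J → Sg → ℤ) (W : V → V → Prop) (a x y : V) (k : J) : Prop :=
  ∃ v z' k' o o', ¬ Zc a x y v ∧ m.PHI ps W a x y v a z' k k' o o'

/-- the data of the rotation -/
structure Ro [DecidableEq V] (m : Map V J Sg) (ps : J → Sg → ℤ) (T : Set Sg) (N : V → Prop)
    (U : Finset V) (W : V → V → Prop) (μ : V → ℕ) (a x y : V) (j j' κ : J) : Prop where
  H : m.TyC ps T N U W μ a x y j j' κ
  ia : ¬ m.Bdy W a
  ty : ∀ t o e, m.Ray ps W t o e → e ≠ κ → o ≠ κ → ∃ v z, ¬ Zc a x y v ∧ Zc a x y z ∧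
    ((∃ o', m.II ps W v z e o o') ∨ ∃ z' k o', m.PHI ps W a x y v z z' e k o o')
  lx : ∀ t o e A η w F, m.Ray ps W t o e → m.Pas ps t o e A η w F → (η = a ∨ η = y) →
    ¬ Zc a x y w → False

variable {m : Map V J Sg} {ps : J → Sg → ℤ} {t : Sg} {T : Set Sg} {N : V → Prop} {μ : V → ℕ}
  {W : V → V → Prop} {U : Finset V} {a c p q u v w x y z X X' : V}
  {e i j j' k k' k₁ k₂ n κ o o' o₁ o₂ : J}

namespace Ro

variable [DecidableEq V] (G : m.Ro ps T N U W μ a x y j j' κ)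
include G

theorem symm : m.Ro ps T N U W μ a x y j' j κ :=
  { G with H := { G.H with
    far := G.H.far.symm, f := G.H.f', so := G.H.so', so' := G.H.so, xg := G.H.xg', xg' := G.H.xg
    sd := G.H.ok.far_stem G.H.far ▸ G.H.sd } }

theorem fk : m.GE κ a x := G.H.fk
theorem ki : κ ≠ m.inf := G.H.ki
theorem lk : m.ln a x = m.stem κ := G.H.lax
theorem nxy : ¬ m.Adj x y := G.H.nxy
theorem ok (op : ¬ m.Sol W o) : o ≠ κ := fun e => G.ia ⟨o, e ▸ G.fk.fc.has1, op⟩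

/-- a near cell has only one rung -/
theorem nr {d : V} (r : m.far i n) (f : m.GE i w d) (f' : m.Fc k w p X) (nw : m.Fe T W 8 w)
    (nd : m.Fe T W 8 d) (np : m.Fe T W 8 p) (c : p ≠ d) (i : J) : ¬ m.far k i := fun q =>
  c (G.H.r1 w p d (G.H.L.near _ nw) (G.H.L.near _ np) (G.H.L.near _ nd) ⟨k, i, q, f'.ge⟩
    ⟨_, _, r, f⟩)

theorem good (f : m.Fc k a p X) (w : W a p) (c : p ≠ y) (i : J) : ¬ m.far k i :=
  G.nr G.H.far G.H.f f G.H.L.na (G.H.L.n1 G.H.L.wy) (G.H.L.n1 w) c i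

theorem k_eq (f : m.Fc k a x X) : k = κ := by_contra fun n =>
  G.good G.fk.fc G.H.L.wx G.H.L.ne k
    (G.H.ok.far_of_fc (G.H.st.bd1 G.H.L.wx) (Ne.symm n) G.fk.fc f)

/-- a cell with one corner has no other solid corner -/
theorem only (P : m.II ps W v z k o o') (c : m.cor n v) (so : m.Sol W n) : n = k := by
  obtain ⟨u, f⟩ := c.ge
  rcases G.H.st.cover1 G.H.ok G.H.ord (G.H.se v) P.a P.b P.op P.op' P.f.fc.cor1
    (G.H.ok.stem_ne k P.a.wk.i2) (G.H.st.sol_w G.H.ok so f).1 with b | b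
  exacts [HSt.sid_out G.H.ok G.H.ord P.a P.op c so f.fc.on b,
    HSt.sid_out G.H.ok G.H.ord (G.H.st.sid_rev G.H.ok G.H.ord P.b) P.op' c so f.fc.on b.rev]

variable [Finite V] [Finite J]

omit [Finite V] in
/-- three corners of `a` on a line -/
theorem two (c : m.cor i a) (c' : m.cor k a) (c'' : m.cor n a) (g : m.hug i t) (g' : m.hug k t)
    (g'' : m.hug n t) (d : i ≠ k) : n = i ∨ n = k :=
  G.H.ok.side2 (G.H.st.bd1 G.H.L.wx) c c' c'' g g' g'' d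

omit [Finite J] in
/-- lights on the incoming and on the outgoing line free a cell with one corner -/
theorem w0 (P : m.II ps W c z k o₁ o₂) (a₀ : m.Wk ps W (m.stem k) o₁ i)
    (a₁ : m.Wk ps W (m.bar k) o₂ n) (f : m.Fc i p q X) (f' : m.Fc n u v X') (di : i ≠ k)
    (dn : n ≠ k) (d1 : p ≠ u) (d2 : p ≠ v) (d3 : q ≠ u) (d4 : q ≠ v) (sf : m.Sq W i u v n)
    (sf' : m.Sq W n p q i) : False := by
  classical
  have h := G.H.ok
  have st := G.H.st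
  have r := G.H.ord
  have so := (G.H.nc _ _ _ a₀).resolve_left P.op
  have so' := (G.H.nc _ _ _ a₁).resolve_left P.op'
  have n1 := fun u c => (st.seg_near (T := T) (u := u) h r a₀ P.op so c).mono (e := 8) (by omega)
  have n2 := fun u c => (st.seg_near (T := T) (u := u) h r a₁ P.op' so' c).mono (e := 8) (by omega)
  have w₀ := (st.sol_w h P.so P.f).1
  have cD : c ∉ ({p, q, u, v} : Finset V) := fun e => by
    simp only [Finset.mem_insert, Finset.mem_singleton] at e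
    rcases e with rfl | rfl | rfl | rfl
    exacts [di (G.only P f.cor1 so), di (G.only P f.cor2 so), dn (G.only P f'.cor1 so'),
      dn (G.only P f'.cor2 so')]
  refine (G.H.L.nmQ h f f' d1 d2 d3 d4 (n1 _ f.has1) (n1 _ f.has2) (n2 _ f'.has1) (n2 _ f'.has2) sf sf'
    (st.seg_rc h r a₀ P.op (by simp) a₀.h2) (st.seg_rc h r a₁ P.op' (by simp) a₁.h2)).neu.frees
    (st.mem _ _ w₀) cD (G.H.L.one c (G.H.L.b1 h P.bdy w₀)) fun u w => ?_
  rcases st.cover1 h r (G.H.se c) P.a P.b P.op P.op' P.f.fc.cor1 (h.stem_ne k P.a.wk.i2) w with b | b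
  exacts [(st.seg_gone h r P.a.wk P.op (by simp) a₀.h2 b).resolve_left cD,
    (st.seg_gone h r P.b.wk.rev P.op' (by simp) a₁.h2 b.rev).resolve_left cD]

/-- the outgoing line of a cell of the rotation does not pass `κ` -/
theorem nok (hv : ¬ Zc a x y v) (P : m.II ps W v a k o o') (a₁ : m.Wk ps W (m.bar k) o' κ)
    (d : k ≠ κ) (br : m.bar κ = m.bar k) (b : m.Sgm ps (m.bar k) o' k u w)
    (b' : m.Sgm ps (m.bar k) o' κ u w) (o₀ : m.On o' u w) : False := by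
  have h := G.H.ok
  have st := G.H.st
  have r := G.H.ord
  have L := G.H.L
  have ki := G.ki
  simp only [Zc, not_or] at hv
  obtain ⟨e, a₂, b₂, c⟩ := st.ray h r (st.wk_w h r a₁ b') o₀
  rw [b.2.1] at a₂ b₂ c
  have so := (G.H.nc _ _ _ a₂).resolve_left P.op'
  have s := c.resolve_left (not_not.2 so)
  have nl : m.stem κ ≠ m.bar e := fun q => G.H.ex.no2 κ e ki a₂.i2 q (br.trans s.symm)
  have ek : e ≠ k := fun q => h.stem_ne e a₂.i2 (s.trans (q ▸ rfl))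
  have eκ : e ≠ κ := fun q => h.stem_ne e a₂.i2 (s.trans (q ▸ br.symm))
  obtain ⟨c, z, hc, hz, ⟨o₂, Q⟩ | ⟨z', k', o₂, Q⟩⟩ := G.ty _ _ _ ⟨a₂, P.op', so, s⟩ eκ (G.ok P.op')
  swap
  · rcases h.hug_on a₂.i2 Q.on (st.ne L.wx) with q | q
    exacts [h.stem_ne κ ki (G.lk.symm.trans (q.symm.trans (s.trans br.symm))), nl (G.lk.symm.trans q.symm)]
  simp only [Zc, not_or] at hc
  have nj : ∀ {i p q}, m.GE i p q → p ≠ a → p ≠ y → i ≠ j ∧ i ≠ j' := fun f c c' =>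
    ⟨fun e => (G.H.f.fc.cor_iff.1 (e ▸ f.fc.cor1)).elim c c',
      fun e => (G.H.f'.fc.cor_iff.1 (e ▸ f.fc.cor1)).elim c c'⟩
  obtain rfl : z = x := by_contra fun zx => (h.th_two G.H.far G.H.f P.a.wk.i2 ki a₂.i2
    (nj P.f hv.1 hv.2.2) (nj G.fk.symm (st.ne L.wx).symm L.ne) (nj Q.f hc.1 hc.2.2) (.inl P.f.fc.cor2)
    (.inl G.fk.fc.cor1) (by
      rcases hz with rfl | rfl | rfl
      exacts [.inl Q.f.fc.cor2, absurd rfl zx, .inr Q.f.fc.cor2]) (.inr rfl) (.inr br) (.inl s) d).elim ek eκ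
  have Q' := st.sid_rev h r Q.b
  obtain ⟨n, a₃, a₄, bt, -, sn, c'⟩ := st.pas1 h r G.H.nc Q'.wk Q.op' Q.f.fc (st.sid_lbar h r Q' Q.f.fc rfl)
  obtain ⟨x', f⟩ := c'.ge
  have wx' := (st.sol_w h sn f.fc).1
  have wv := (st.sol_w h P.so P.f).1
  have a₀ : m.Wk ps W (m.stem e) o' k := s ▸ P.b.wk.rev
  have sk : ∀ u v n, m.Sq W k u v n := fun _ _ _ =>
    .of_not (G.good P.f.fc.symm (st.sym _ _ wv) hv.2.2)
  have xa : x' ≠ a := by
    rintro rfl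
    obtain rfl := G.k_eq f.fc.symm
    exact a₃.h2.elim nl fun q => h.stem_ne e a₂.i2 (s.trans (br.symm.trans q))
  have xv : x' ≠ v := by
    rintro rfl
    obtain rfl := G.only P f.fc.cor2 sn
    exact (P.f.fc.cor_iff.1 f.fc.cor1).elim (Ne.symm hv.2.1) (st.ne L.wx).symm
  have win : m.Sq W n v a k → False := G.w0 Q a₀ a₃ P.f.fc f.fc ek.symm a₄.wk.ne.symm hv.2.1 xv.symm
    (st.ne L.wx) xa.symm (sk _ _ _)
  obtain ⟨i, fi, si, ia⟩ : ∃ i, m.far n i ∧ m.Sol W i ∧ m.X i ≠ a := by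
    by_contra q
    push Not at q
    by_cases c : m.Sfe W n
    · exact win (.of_sf f.fc (st.sf_or h sn f.fc c))
    · simp only [Sfe, not_forall, not_not] at c
      obtain ⟨i, fi, si⟩ := c
      exact win (.of_flat fun i' fi' => .inr (h.far_unique fi fi' ▸ q i fi si))
  have bn : m.bar n = m.bar e := a₃.h2.resolve_left (h.far_not_bar fi a₂.i2)
  obtain ⟨n', a₅, a₆, bt', -, sn', c''⟩ := st.pas1 h r G.H.nc a₃ Q.op' f.fc
    ((st.sid_lbar h r a₄ f.fc bn).tail bt.bw)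
  obtain ⟨q, f'⟩ := c''.ge
  have wq := (st.sol_w h sn' f'.fc).1
  have qx : q ≠ z := by
    rintro rfl
    rcases h.rung_face fi f f'.fc.on.symm with rfl | rfl
    · exact a₆.wk.ne rfl
    · exact a₅.h2.elim (fun c => h.far_not_bar fi a₂.i2 ((h.far_stem fi).trans c))
        fun c => h.far_bar fi (bn.trans c.symm)
  have nr := G.nr fi f.symm f'.fc (L.n2 L.wx wx') (L.n1 L.wx) (L.n3 L.wx wx' wq) qx
  have xy : x' ≠ y := fun c => G.nxy (c ▸ h.adj12 f.fc)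
  have qa : q ≠ a := by
    rintro rfl
    rcases h.s2 fi f (st.adj _ _ L.wx) (h.adj12 f'.fc).symm with c | c
    exacts [nl (G.lk.symm.trans ((h.ln_symm _ _).trans (c ▸ (h.lines f.fc fi.2.1).2.1.trans bn))),
      ia c.symm]
  obtain rfl : q = y := by
    have key : ∀ u' v', m.ln u' v' = m.bar e → ¬ Pr a z y u' v' := by
      rintro _ _ c ⟨rfl, rfl | rfl⟩
      exacts [nl (G.lk.symm.trans c),
        h.far_not_bar G.H.far a₂.i2 ((h.lines G.H.f.fc G.H.far.2.1).1.symm.trans c)]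
    have := L.f1S h f'.fc (L.n2 L.wx wx') (L.n3 L.wx wx' wq) (.inl (.of_not nr))
      (st.rc_end h r a₅ (.op Q.op') fun u' v' c => .inl (.of (by simp) a₅.h2 c.2.1 (key _ _ c.2.1)
        (key _ _ (c.symm h).2.1)))
    have := (st.ne wx').symm
    tauto
  exact G.w0 Q a₀ a₅ P.f.fc f'.fc ek.symm (by rintro rfl; unfold Bt at *; omega) xv.symm hv.2.2 xa.symm
    (st.ne L.wy) (sk _ _ _) (.of_not nr)

/-- the step of the rotation -/
theorem step (c : m.Cs ps W a x y k) (d : m.bar k ≠ m.bar j) (d' : m.bar k ≠ m.bar j') :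
    (∃ n, (m.Cs ps W a x y n ∨ m.Cp ps W a x y n) ∧ m.stem n = m.bar k) ∨ m.stem κ = m.bar k := by
  have h := G.H.ok
  have st := G.H.st
  have r := G.H.ord
  obtain ⟨v, o, o', hv, P⟩ := c
  have P' := st.sid_rev h r P.b
  obtain ⟨n, a₁, a₂, bt, -, sn, c⟩ := st.pas1 h r G.H.nc P'.wk P.op' P.f.fc (st.sid_lbar h r P' P.f.fc rfl)
  obtain ⟨w, f⟩ := c.ge
  by_cases q : m.stem κ = m.bar k
  · exact .inr q
  rcases a₁.h2 with s | br
  · obtain ⟨c, z, hc, -, Q⟩ := G.ty _ _ _ ⟨a₁, P.op', sn, s⟩ (fun c => q (c ▸ s)) (G.ok P.op')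
    have key : m.GE n c z → z = a := fun g =>
      ((g.fc.cor_iff.1 f.fc.cor1).resolve_left fun e => hc (.inl e.symm)).symm
    rcases Q with ⟨o₂, Q⟩ | ⟨z', k', o₂, Q⟩
    exacts [.inl ⟨n, .inl ⟨c, _, _, hc, key Q.f ▸ Q⟩, s⟩,
      .inl ⟨n, .inr ⟨c, _, _, _, _, hc, key Q.f ▸ Q⟩, s⟩]
  exfalso
  have hw : Zc a x y w := by_contra fun hw => by
    obtain ⟨u, u', w₀, p, b⟩ := a₁.p1
    obtain ⟨e, a₃, b', c⟩ := st.ray h r w₀ p
    rw [b.2.1] at a₃ b' c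
    have so := (G.H.nc _ _ _ a₃).resolve_left P.op'
    have s := c.resolve_left (not_not.2 so)
    exact G.lx _ _ _ _ _ _ _ ⟨a₃, P.op', so, s⟩ ⟨(HSt.wk_le h r a₁ a₃ s b b').resolve_left fun q =>
      h.stem_ne e a₃.i2 (s.trans (q ▸ br.symm)), f.fc, br, (st.sid_lbar h r a₂ f.fc br).tail bt.bw⟩
      (.inl rfl) hw
  rcases hw with rfl | rfl | rfl
  · exact (h.fc_ne f.fc).1 rfl
  · obtain rfl := G.k_eq f.fc
    obtain ⟨u, p, b⟩ := P'.fst
    exact G.nok hv P a₁ a₂.wk.ne br b (b.mono bt.bw) p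
  · rcases h.rung_face G.H.far G.H.f f.fc.on with rfl | rfl
    exacts [d br.symm, d' br.symm]

omit [Finite V] [Finite J] in
theorem cp (c : m.Cp ps W a x y k) : m.cor k a ∧ k ≠ m.inf ∧ k ≠ κ ∧ m.On k a x ∧
    m.bar k = m.stem κ ∧ ¬ m.Cs ps W a x y k := by
  have h := G.H.ok
  have st := G.H.st
  obtain ⟨v, z', k', o, o', hv, P⟩ := c
  simp only [Zc, not_or] at hv
  have e : x = m.X k := ((P.f.fc.has_iff.1 P.on.2).resolve_left (Ne.symm hv.2.1)).resolve_left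
    (st.ne G.H.L.wx).symm
  refine ⟨P.f.fc.cor2, P.a₀.wk.i2, fun q => ?_, P.on,
    (e ▸ (h.lines P.f.fc P.a₀.wk.i2).2.2.1).symm.trans G.lk, ?_⟩
  · exact (h.fc_ne G.fk.fc).2.2 (q ▸ e)
  · rintro ⟨v', o₁, o₂, -, Q⟩
    obtain rfl := (P.f.fc.symm.unique Q.f.fc.symm (Ne.symm hv.1)).1
    exact P.a₁.wk.ne (G.only Q P.f'.fc.cor1 P.so').symm

omit [Finite V] [Finite J] in
theorem cp_eq (c : m.Cp ps W a x y k) (c' : m.Cp ps W a x y n) : n = k := by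
  obtain ⟨-, -, a1, a2, -⟩ := G.cp c
  obtain ⟨-, -, b1, b2, -⟩ := G.cp c'
  exact (G.H.ok.two_faces (G.H.st.ne G.H.L.wx) G.fk.fc.on a2 b2 a1.symm).resolve_left b1

/-- the rotation, first form -/
theorem rot1 (c₁ : m.Cs ps W a x y k₁) (s₁ : m.stem k₁ = m.bar j)
    (c₂ : m.Cs ps W a x y k₂ ∨ m.Cp ps W a x y k₂) (s₂ : m.stem k₂ = m.bar j') : False := by
  have h := G.H.ok
  have cs : ∀ {k}, m.Cs ps W a x y k → m.cor k a ∧ k ≠ m.inf ∧ k ≠ j ∧ k ≠ j' := by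
    rintro k ⟨v, o, o', hv, P⟩
    simp only [Zc, not_or] at hv
    exact ⟨P.f.fc.cor2, P.a.wk.i2, fun e => (G.H.f.fc.cor_iff.1 (e ▸ P.f.fc.cor1)).elim hv.1 hv.2.2,
      fun e => (G.H.f'.fc.cor_iff.1 (e ▸ P.f.fc.cor1)).elim hv.1 hv.2.2⟩
  have cc : ∀ {k}, m.Cs ps W a x y k ∨ m.Cp ps W a x y k → m.cor k a ∧ k ≠ m.inf := fun c =>
    c.elim (fun c => ⟨(cs c).1, (cs c).2.1⟩) fun c => ⟨(G.cp c).1, (G.cp c).2.1⟩
  have un : ∀ {n k k'}, m.cor n a → m.cor k a → m.cor k' a → k ≠ m.inf → k' ≠ m.inf →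
      m.stem n = m.bar k → m.stem n = m.bar k' → k' = k := fun c c' c'' i i' e e' =>
    (G.two c c' c'' (.inl rfl) (.inr e.symm) (.inr e'.symm) fun q => h.stem_ne _ i (q ▸ e)).resolve_left
      fun q => h.stem_ne _ i' (q ▸ e')
  have n1 : ∀ {k}, m.Cs ps W a x y k → m.bar k ≠ m.bar j := fun c e => (cs c).2.2.1
    (un (cs c₁).1 G.H.f.fc.cor1 (cs c).1 G.H.far.2.1 (cs c).2.1 s₁ (s₁.trans e.symm))
  have n2 : ∀ {k}, m.Cs ps W a x y k → m.bar k ≠ m.bar j' := fun c e => (cs c).2.2.2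
    (un (cc c₂).1 G.H.f'.fc.cor1 (cs c).1 G.H.far.2.2.1 (cs c).2.1 s₂ (s₂.trans e.symm))
  have mix : ∀ {k n}, m.Cs ps W a x y k → m.stem κ = m.bar k → ¬ m.Cp ps W a x y n := fun c e c' =>
    (G.cp c').2.2.2.2.2 (un G.fk.fc.cor1 (cs c).1 (G.cp c').1 (cs c).2.1 (G.cp c').2.1 e
      (G.cp c').2.2.2.2.1.symm ▸ c)
  have key := fun k => rot (m.Cs ps W a x y) (fun k n => (m.cor n a ∧ m.stem n = m.bar k) ∨
    ((m.stem κ = m.bar k ∨ ∃ n, m.Cp ps W a x y n ∧ m.stem n = m.bar k) ∧ n = k₁))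
    (fun k c => by
      rcases G.step c (n1 c) (n2 c) with ⟨n, q | q, e⟩ | e
      exacts [⟨n, q, .inl ⟨(cs q).1, e⟩⟩, ⟨k₁, c₁, .inr ⟨.inr ⟨n, q, e⟩, rfl⟩⟩, ⟨k₁, c₁, .inr ⟨.inl e, rfl⟩⟩])
    (fun k k' n c c' e e' => by
      rcases e with ⟨cn, e⟩ | ⟨e, rfl⟩ <;> rcases e' with ⟨-, e'⟩ | ⟨e', q⟩
      · exact (un cn (cs c).1 (cs c').1 (cs c).2.1 (cs c').2.1 e e').symm
      · exact absurd (e.symm.trans (q ▸ s₁)) (n1 c)
      · exact absurd (e'.symm.trans s₁) (n1 c')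
      rcases e with e | ⟨n, q, e⟩ <;> rcases e' with e' | ⟨n', q', e'⟩
      exacts [(un G.fk.fc.cor1 (cs c).1 (cs c').1 (cs c).2.1 (cs c').2.1 e e').symm,
        absurd q' (mix c e), absurd q (mix c' e'),
        (un (G.cp q).1 (cs c).1 (cs c').1 (cs c).2.1 (cs c').2.1 e (G.cp_eq q q' ▸ e')).symm]) (b := k)
  rcases c₂ with c₂ | c₂
  · obtain ⟨p, c, ⟨-, e⟩ | ⟨-, rfl⟩⟩ := key k₂ c₂
    exacts [n2 c (e.symm.trans s₂), h.far_bar G.H.far (s₁.symm.trans s₂)]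
  · obtain ⟨p, c, ⟨-, e⟩ | ⟨e | ⟨n, q, e⟩, -⟩⟩ := key k₁ c₁
    exacts [n1 c (e.symm.trans s₁), mix c e c₂, n2 c (e.symm.trans (G.cp_eq c₂ q ▸ s₂))]

/-- the two bars of the door do not both end at corners of the rotation -/
theorem rot (c₁ : m.Cs ps W a x y k₁ ∨ m.Cp ps W a x y k₁) (s₁ : m.stem k₁ = m.bar j)
    (c₂ : m.Cs ps W a x y k₂ ∨ m.Cp ps W a x y k₂) (s₂ : m.stem k₂ = m.bar j') : False := by
  rcases c₁ with c₁ | c₁
  · exact G.rot1 c₁ s₁ c₂ s₂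
  rcases c₂ with c₂ | c₂
  exacts [G.symm.rot1 c₂ s₂ (.inr c₁) s₁,
    G.H.ok.far_bar G.H.far (s₁.symm.trans (G.cp_eq c₂ c₁ ▸ s₂))]

end Ro

/-- the rotation in the form that is used for a ring cell `y` -/
theorem TyC.rot [DecidableEq V] [Finite V] [Finite J] (G : m.TyC ps T N U W μ a x y j j' κ)
    (ia : ¬ m.Bdy W a)
    (ty : ∀ t o e, m.Ray ps W t o e → e ≠ κ → o ≠ κ → ∃ v z, ¬ Zc a x y v ∧ Zc a x y z ∧
      ((∃ o', m.II ps W v z e o o') ∨ ∃ z' k o', m.PHI ps W a x y v z z' e k o o'))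
    (lx : ∀ t o e A η w F, m.Ray ps W t o e → m.Pas ps t o e A η w F → (η = a ∨ η = y) →
      ¬ Zc a x y w → False) {g g' o₁' o₂' : J} (hp : ¬ Zc a x y p) (hq : ¬ Zc a x y q)
    (s₁ : m.stem k₁ = m.bar j) (s₂ : m.stem k₂ = m.bar j')
    (c₁ : m.II ps W p a k₁ o₁ o₁' ∨ m.PHI ps W a x y p a x k₁ g o₁ o₁')
    (c₂ : m.II ps W q a k₂ o₂ o₂' ∨ m.PHI ps W a x y q a x k₂ g' o₂ o₂') : False :=
  Ro.rot ⟨G, ia, ty, lx⟩ (c₁.imp (fun c => ⟨_, _, _, hp, c⟩) fun c => ⟨_, _, _, _, _, hp, c⟩) s₁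
    (c₂.imp (fun c => ⟨_, _, _, hq, c⟩) fun c => ⟨_, _, _, _, _, hq, c⟩) s₂

end Map

end Pool.Agent.P.MP_5f84aa_co.G
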