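import Pool.Agent.P.MP_5f84aa_co.G.LH3
import Pool.Agent.P.MP_5f84aa_co.G.LHa0
import Pool.Agent.P.MP_5f84aa_co.G.LHl
import Pool.Agent.P.MP_5f84aa_co.G.LHr
import Pool.Agent.P.MP_5f84aa_co.G.LH2z

/-! Type GR with a door: the half `y` lies on the ring. -/

namespace Pool.Agent.P.MP_5f84aa_co.G

namespace Map

variable {V J Sg : Type}

/-- the two halves do not leave the row of a run at a landing -/
def HyL (m : Map V J Sg) (ps : J → Sg → ℤ) (W : V → V → Prop) (a x y : V) : Prop :=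
  ∀ t o e A η w F, m.Ray ps W t o e → m.Pas ps t o e A η w F → η = a ∨ η = y → ¬ Zc a x y w → False

/-- the side of `y` from the open face `o` ends at the only corner `e` of `v`; the next corner of `y`
is the end `j` of the door -/
structure YE (m : Map V J Sg) (ps : J → Sg → ℤ) (W : V → V → Prop) (a x y : V) (j : J) (v : V)
    (e o o' : J) : Prop where
  p : m.II ps W v y e o o'
  vz : ¬ Zc a x y v
  sy : m.Sid ps W y (m.stem e) o e
  nx : m.Sid ps W y (m.bar e) e j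
  br : m.bar j = m.bar e
  wk : m.Wk ps W (m.bar e) o' j
  sg : m.Sgm ps (m.bar e) o' j y (m.X j)

/-- the ring wall `y w` at `o` leads to the end `j` of the door -/
def YK (m : Map V J Sg) (ps : J → Sg → ℤ) (W : V → V → Prop) (a x y : V) (j o : J) (w : V) : Prop :=
  (∃ v e o', m.YE ps W a x y j v e o o' ∧ m.Sgm ps (m.stem e) o e y w) ∨
    (m.Sid ps W y (m.bar j) o j ∧ m.Sgm ps (m.bar j) o j y w)

variable {m : Map V J Sg} {ps : J → Sg → ℤ} {t t' : Sg} {T : Set Sg} {N : V → Prop} {μ : V → ℕ}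
  {W : V → V → Prop} {U D : Finset V} {M : Finset J}
  {a c p q u v v' w w' x y z X X' : V} {d e e' g i j j' k k' l n o o' o₁ o₂ κ : J}

theorem YE.va (Y : m.YE ps W a x y j v e o o') : v ≠ a := fun e => Y.vz (.inl e)
theorem YE.vx (Y : m.YE ps W a x y j v e o o') : v ≠ x := fun e => Y.vz (.inr (.inl e))
theorem YE.vy (Y : m.YE ps W a x y j v e o o') : v ≠ y := fun e => Y.vz (.inr (.inr e))

namespace TyC

variable [DecidableEq V] (G : m.TyC ps T N U W μ a x y j j' κ)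
include G

theorem y_nh : ¬ m.hug j' (m.bar j) := fun c =>
  c.elim (G.ok.far_not_bar G.far.symm G.far.2.1) (G.ok.far_bar G.far.symm)

theorem y_fr (p : m.II ps W v z k o o') (n : m.Nm T U W μ D M) (vD : v ∉ D)
    (c : (∃ i ∈ M, m.hug i (m.stem k)) ∨ ∀ u, m.Sgm ps (m.stem k) o k v u → u ∈ D)
    (c' : ∃ i ∈ M, m.hug i (m.bar k)) : False := by
  have w₀ := (G.st.sol_w G.ok p.so p.f).1
  refine n.neu.frees (G.st.mem _ _ w₀) vD (G.L.one v (G.L.b1 G.ok p.bdy w₀)) fun u w => ?_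
  rcases G.t3_cov p w with b | b
  · rcases c with ⟨i, c, l⟩ | c
    exacts [(G.st.seg_gone G.ok G.ord p.a.wk p.op c l b).resolve_left vD, .inl (c u b)]
  · obtain ⟨i, c, l⟩ := c'
    exact (G.st.seg_gone G.ok G.ord p.b.wk.rev p.op' c l b.rev).resolve_left vD

/-- the walls of `v` on the line that ends at `e` are walls of `y` -/
theorem y_row (Y : m.YE ps W a x y j v e o o') (yD : y ∈ D) (u : V)
    (b : m.Sgm ps (m.stem e) o e v u) : u ∈ D :=
  (G.st.sid_row G.ok G.ord Y.sy b).resolve_left Y.vy ▸ yD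

/-- the cell `v` has no corner in common with another cell -/
theorem y_nc (Y : m.YE ps W a x y j v e o o') (c : m.cor n u) (so : m.Sol W n) (d : u ≠ y) (d' : u ≠ v) :
    ¬ m.cor n v := fun c' => (Y.p.f.fc.cor_iff.1 (G.t3_only Y.p c' so ▸ c)).elim d' d

theorem y_good (Y : m.YE ps W a x y i v e o o') (n : J) : ¬ m.far e n :=
  G.t3_good (.inr rfl) Y.p.f.fc.symm Y.p.so
    (fun e => (G.f.fc.cor_iff.1 (e ▸ Y.p.f.fc.cor1)).elim Y.va Y.vy)
    (fun e => (G.f'.fc.cor_iff.1 (e ▸ Y.p.f.fc.cor1)).elim Y.va Y.vy) n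

variable [Finite V]

theorem y_nm [DecidableEq J] (a₀ : m.Wk ps W t o k) (op : ¬ m.Sol W o) (a₁ : m.Wk ps W t' o' k')
    (op' : ¬ m.Sol W o') (f : m.Fc k p q X) (f' : m.Fc k' u v X') (d1 : p ≠ u) (d2 : p ≠ v)
    (d3 : q ≠ u) (d4 : q ≠ v) (sf : m.Sq W k u v k') (sf' : m.Sq W k' p q k) :
    m.Nm T U W μ {p, q, u, v} {k, k'} := by
  have so := (G.nc _ _ _ a₀).resolve_left op
  have so' := (G.nc _ _ _ a₁).resolve_left op'
  have n := fun u c => (G.st.seg_near (T := T) (u := u) G.ok G.ord a₀ op so c).mono (e := 8) (by omega)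
  have n' := fun u c => (G.st.seg_near (T := T) (u := u) G.ok G.ord a₁ op' so' c).mono (e := 8) (by omega)
  exact G.L.nmQ G.ok f f' d1 d2 d3 d4 (n _ f.has1) (n _ f.has2) (n' _ f'.has1) (n' _ f'.has2) sf sf'
    (G.st.seg_rc G.ok G.ord a₀ op (by simp) a₀.h2) (G.st.seg_rc G.ok G.ord a₁ op' (by simp) a₁.h2)

variable [Finite J]

/-- the first corners along a ring wall of `y` -/
theorem y_kind (ty : m.Typ ps W a x y κ) (lx : m.HyL ps W a x y) (w₀ : W y w) (c : m.On o y w)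
    (op : ¬ m.Sol W o) : m.YK ps W a x y j o w ∨ m.YK ps W a x y j' o w := by
  have h := G.ok
  have r := G.ord
  have s := G.st
  obtain ⟨k, a₀, b, ck⟩ := s.nxt h r w₀ c
  have so := (G.nc _ _ _ a₀.wk).resolve_left op
  obtain ⟨q, f⟩ := (ck.resolve_left fun n => n so).ge
  by_cases c1 : k = j
  · subst c1
    have e := a₀.wk.h2.resolve_left (G.nrg a₀.wk op).symm
    exact .inl (.inr (e ▸ ⟨a₀, b⟩))
  by_cases c2 : k = j'
  · subst c2
    have e := a₀.wk.h2.resolve_left (G.symm.nrg a₀.wk op).symm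
    exact .inr (.inr (e ▸ ⟨a₀, b⟩))
  have qz : ¬ Zc a x y q := by
    rintro (rfl | rfl | rfl)
    exacts [(h.rung_face G.far G.f f.fc.on.symm).elim c1 c2, G.nxy (h.adj12 f.fc).symm,
      (h.fc_ne f.fc).1 rfl]
  rcases a₀.wk.h2 with l | l
  swap
  · obtain ⟨e, a₁, b₁, q'⟩ := s.ray h r w₀ c
    have se := (G.nc _ _ _ a₁).resolve_left op
    have l' := q'.resolve_left (not_not.2 se)
    exact (lx _ o e k y q _ ⟨a₁, op, se, l'⟩ ⟨(HSt.wk_le h r a₀.wk a₁ l' b b₁).resolve_left fun e' =>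
      h.stem_ne k a₀.wk.i2 ((e' ▸ l').trans l.symm), f.fc, l, s.sid_lbar h r a₀ f.fc l⟩ (.inr rfl) qz).elim
  rw [← l] at a₀ b
  obtain ⟨v, z, vz, -, P⟩ := ty _ o k ⟨a₀.wk, op, so, rfl⟩
    (fun e => (G.fk.fc.cor_iff.1 (e ▸ f.fc.cor1)).elim G.ay.symm G.L.ne.symm) fun e => by
      rcases G.fk.fc.has_iff.1 (e ▸ c.1) with e' | e' | e'
      exacts [G.ay e'.symm, G.L.ne e'.symm, G.nxy (e' ▸ h.adj23 G.fk.fc)]
  have g : m.GE k v z := by
    rcases P with ⟨_, c⟩ | ⟨_, _, _, c⟩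
    exacts [c.f, c.f]
  obtain rfl : y = z := (g.fc.cor_iff.1 f.fc.cor1).resolve_left fun e => vz (.inr (.inr e.symm))
  rcases P with ⟨o', P⟩ | ⟨_, _, _, P⟩
  swap
  · have e1 := g.fc.has_iff.1 P.on.1
    have e2 := g.fc.has_iff.1 P.on.2
    have := G.ax; have := G.ay; have := G.L.ne
    unfold Zc at vz
    grind
  have b' := s.sid_rev h r P.b
  obtain ⟨n, a₁, c₁, bt, -, sn, cn⟩ := s.pas1 h r G.nc b'.wk P.op' g.fc (s.sid_lbar h r b' g.fc rfl)
  have mk : ∀ {i i'}, m.TyC ps T N U W μ a x y i i' κ → n = i → m.YK ps W a x y i o w := by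
    rintro _ i' G rfl
    have br := a₁.h2.resolve_left (G.nrg a₁ P.op').symm
    exact .inl ⟨v, k, o', ⟨P, vz, a₀, c₁, br, a₁, (s.sid_lbar h r c₁ G.f.fc.symm br).tail bt.bw⟩, b⟩
  by_cases d1 : n = j
  · exact .inl (mk G d1)
  by_cases d2 : n = j'
  · exact .inr (mk G.symm d2)
  obtain ⟨u, f'⟩ := cn.ge
  have vy : v ≠ y := (h.fc_ne g.fc).1
  exact (G.y_fr P (G.L.nm1 h f'.fc (G.L.n1 G.L.wy) (G.L.n2 G.L.wy (s.sol_w h sn f'.fc).1)
    (G.t3_good (.inr rfl) f'.fc sn d1 d2) ⟨o, c.1, op⟩) (by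
      simp only [Finset.mem_insert, Finset.mem_singleton, not_or]
      exact ⟨vy, fun e => c₁.wk.ne (G.t3_only P (e ▸ f'.fc.cor2) sn).symm⟩)
    (.inr fun u b => by simp [(s.sid_row h r a₀ b).resolve_left vy]) ⟨n, by simp, a₁.h2⟩).elim

omit [Finite V] in
/-- two ring walls do not lead to the same end -/
theorem y_same (on : m.On o y w) (on' : m.On o' y w') (op : ¬ m.Sol W o) (op' : ¬ m.Sol W o')
    (K : m.YK ps W a x y j o w) (K' : m.YK ps W a x y j o' w') : w = w' := by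
  have h := G.ok
  have r := G.ord
  have s := G.st
  have mix : ∀ {v e o o₁ o'}, m.YE ps W a x y j v e o o₁ → m.Sid ps W y (m.bar j) o' j →
      ¬ m.Sol W o' → False := fun Y c op => by
    have c1 := s.sid_rev h r Y.nx
    have c2 := s.sid_rev h r (Y.br ▸ c)
    obtain ⟨u, q, d⟩ := c1.fst
    exact op (HSt.sid_uniq h r c1 c2 d (HSt.sid_cor h c2 G.f.fc.cor2 q d.1.1 d.2.1)
      (.inr Y.p.f.fc.cor2) (.inl op) ▸ Y.p.so)
  rcases K with ⟨v, e, o₁, Y, b⟩ | ⟨c, b⟩ <;> rcases K' with ⟨v', e', o₂, Y', b'⟩ | ⟨c', b'⟩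
  · obtain rfl := (h.side2 (s.bd2 G.L.wy) G.f.fc.cor2 Y.p.f.fc.cor2 Y'.p.f.fc.cor2 (.inr rfl)
      (.inr Y.br.symm) (.inr Y'.br.symm) Y.nx.wk.ne.symm).resolve_left Y'.nx.wk.ne
    exact s.sid_same h r Y.sy Y'.sy op op' Y.p.f.fc.cor2 on on' b b'
  exacts [(mix Y c' op').elim, (mix Y' c op).elim, s.sid_same h r c c' op op' G.f.fc.cor2 on on' b b']

/-- two cells with one corner at `y` -/
theorem y_ee (Y : m.YE ps W a x y j v e o o₁) (Y' : m.YE ps W a x y j' v' e' o' o₂) : False := by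
  classical
  have h := G.ok
  have s := G.st
  obtain ⟨k, a₁, c₁, -, -, so, ck⟩ := s.pas1 h G.ord G.nc Y.wk Y.p.op' G.f.fc.symm Y.sg
  obtain ⟨w, f⟩ := ck.ge
  have d2 : k ≠ j' := fun e => G.y_nh (Y.br ▸ e ▸ a₁.h2)
  have n := G.y_nm a₁ Y.p.op' Y'.p.a.wk Y'.p.op f.fc Y'.p.f.fc Y'.va.symm G.ay
    (fun e => G.symm.y_nc Y' f.fc.cor1 so G.ay Y'.va.symm (e ▸ f.fc.cor2))
    (fun e => (h.rung_face G.far G.f (e ▸ f.fc.on)).elim c₁.wk.ne.symm d2)
    (.of_not (G.t3_good (.inl rfl) f.fc so c₁.wk.ne.symm d2)) (.of_not (G.y_good Y'))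
  refine G.y_fr Y.p n ?_ (.inr (G.y_row Y (by simp))) ⟨k, by simp, a₁.h2⟩
  simp only [Finset.mem_insert, Finset.mem_singleton, not_or]
  exact ⟨Y.va, fun e => G.y_nc Y f.fc.cor1 so G.ay Y.va.symm (e ▸ f.fc.cor2), fun q => h.far_bar G.far
    (Y.br.trans (G.t3_only Y.p (q ▸ Y'.p.f.fc.cor1) Y'.p.so ▸ Y'.br.symm)), Y.vy⟩

/-- a cell with one corner at `y` and a side of `y` that reaches the other end of the door -/
theorem y_eb (ty : m.Typ ps W a x y κ) (Y : m.YE ps W a x y j v e o o₁)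
    (c : m.Sid ps W y (m.bar j') o₂ j') (op : ¬ m.Sol W o₂) : False := by
  classical
  have h := G.ok
  have r := G.ord
  have s := G.st
  have b := s.sid_lbar h r c G.f'.fc.symm rfl
  have fin : ∀ p q k, m.Nm T U W μ {a, y, p, q} {j, k} → v ≠ p → v ≠ q → False := fun p q k n d d' =>
    G.y_fr Y.p n (by simp [Y.va, Y.vy, d, d']) (.inr (G.y_row Y (by simp))) ⟨j, by simp, .inr Y.br⟩
  obtain ⟨k, q, f, so, a₁, c₁, bt, nr, qy, ⟨l, p, L, -⟩ | ⟨sk, qz, ⟨o₃, P⟩ | ⟨g, o₃, P⟩⟩⟩ :=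
    G.symm.trun ty c.wk op b
  · refine fin p x l (G.symm.lam_nm L c.wk op b G.f.fc L.py.symm G.L.ne.symm (G.L.n1 G.L.wy)
      fun i q => h.far_unique G.far q).1 ?_ Y.vx
    rintro rfl
    rcases L.alt with ⟨a₂, -⟩ | ⟨d, c, -, q, -⟩
    exacts [G.y_nc Y L.f.fc.cor2 ((G.nc _ _ _ a₂).resolve_left op) G.L.ne Y.vx.symm L.f.fc.cor1,
      G.y_nc Y ((q.2.2.2 _).1 L.f.fc.cor2) ((G.nc _ _ _ c.wk).resolve_left op) G.L.ne Y.vx.symm
        ((q.2.2.2 _).1 L.f.fc.cor1)]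
  · have ki := a₁.i2
    have qa := (h.fc_ne f.fc).1.symm
    have qv : q ≠ v := fun e => G.y_nc Y f.fc.cor1 so G.ay Y.va.symm (e ▸ f.fc.cor2)
    have c₂ := s.sid_rev h r P.b
    obtain ⟨n, a₂, c₃, bt₂, -, sn, cn⟩ := s.pas1 h r G.nc c₂.wk P.op' P.f.fc
      (s.sid_lbar h r c₂ P.f.fc rfl)
    obtain ⟨w, f₂⟩ := cn.ge
    have d1 : n ≠ j := by
      rintro rfl
      have br := a₂.h2.resolve_left (G.nrg a₂ P.op').symm
      have b₂ := ((s.sid_lbar h r c₃ G.f.fc br).tail bt₂.bw).rev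
      rw [← br, Y.br] at a₂ b₂
      exact (G.nc _ _ _ (s.wk_join h r Y.wk sn G.f.fc.symm Y.sg a₂.rev b₂).2).elim Y.p.op' P.op'
    have d2 : n ≠ j' := by
      rintro rfl
      exact a₂.h2.elim (h.far_not_bar G.far.symm ki) fun e => h.stem_ne k ki (sk.trans e)
    have n₂ := G.y_nm a₂ P.op' Y.p.a.wk Y.p.op f₂.fc Y.p.f.fc Y.va.symm G.ay
      (fun e => G.y_nc Y f₂.fc.cor1 sn G.ay Y.va.symm (e ▸ f₂.fc.cor2))
      (fun e => (h.rung_face G.far G.f (e ▸ f₂.fc.on)).elim d1 d2)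
      (.of_not (G.t3_good (.inl rfl) f₂.fc sn d1 d2)) (.of_not (G.y_good Y))
    have qw : q ≠ w := fun e => c₃.wk.ne (G.t3_only P (e ▸ f₂.fc.cor2) sn).symm
    refine G.y_fr P n₂ (by simp [*]) (.inr fun u b => ?_) ⟨n, by simp, a₂.h2⟩
    rw [sk] at b
    rcases b.split h r j' with b | b
    exacts [by simp [(s.sid_row h r c b).resolve_left qy], by simp [(s.sid_row h r c₁ b).resolve_left qa]]
  · obtain ⟨eX, bk, -⟩ := G.t3_phi P qz
    have qa : q ≠ a := fun e => qz (.inl e)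
    have qx : q ≠ x := fun e => qz (.inr (.inl e))
    have e1 := (HSt.sid_flat r (sk ▸ P.a₀) c.wk.i2 c.wk.h2 bt).1
    have w := (s.sol_w h P.so' P.f'.fc).1
    have n := fun u c => (s.seg_near (T := T) (u := u) h r Y.wk Y.p.op' G.so c).mono (e := 8) (by omega)
    refine fin q x g (G.L.nmQ h G.f.fc P.f'.fc qa.symm G.ax qy.symm G.L.ne.symm (n _ G.f.fc.has1)
      (n _ G.f.fc.has2) (G.L.b1 h P.bdy w) (G.L.b2 h P.bdy w)
      (.of_flat fun i q => .inl (h.far_unique G.far q ▸ e1)) (.of_not fun i q => ?_)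
      (s.seg_rc h r Y.wk Y.p.op' (by simp) Y.wk.h2) (.of_bdy P.bdy (by simp) P.f'.fc.has1))
      (fun e => G.y_nc Y f.fc.cor1 so G.ay Y.va.symm (e ▸ f.fc.cor2)) Y.vx
    rcases h.rung_ln q P.f' (s.adj _ _ G.L.wx) (G.lax.trans (P.st.trans bk).symm) with ⟨e, -⟩ | ⟨e, -⟩
    exacts [qa e.symm, G.ax e]

omit [Finite V] [Finite J] in
/-- the cell `y` is freed -/
theorem y_free {ρ : V → V → Prop} (c : m.Sid ps W y (m.bar j) o j) (c' : m.Sid ps W y (m.bar j') o' j')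
    (op : ¬ m.Sol W o) (op' : ¬ m.Sol W o') (n : m.Neu U W μ D ρ) (aD : a ∈ D) (yD : y ∉ D)
    (g : ∀ u, m.Sgm ps (m.bar j) o j y u → y ∈ D ∨ u ∈ D ∨ ρ y u)
    (g' : ∀ u, m.Sgm ps (m.bar j') o' j' y u → y ∈ D ∨ u ∈ D ∨ ρ y u) : False := by
  have h := G.ok
  have s := G.st
  obtain ⟨c₀, u₀⟩ := s.ty_door h G.ord G.far G.f.symm G.so
  refine n.frees (s.mem2 G.L.wy) yD (G.L.one y (G.L.n1 G.L.wy)) fun u w => ?_
  rcases s.cover2 h G.ord (G.se y) c c₀ (s.sid_rev h G.ord c') op op' G.f.fc.cor2 G.f'.fc.cor2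
    (h.stem_ne j G.far.2.1).symm (h.far_not_bar G.far G.far.2.2.1) w with b | b | b
  exacts [(g u b).resolve_left yD, .inl (u₀ u b ▸ aD), (g' u b.rev).resolve_left yD]

/-- a corner of `a` on one line and a light at `x` for the other line -/
theorem y_bl (c : m.Sid ps W y (m.bar j) o j) (c' : m.Sid ps W y (m.bar j') o' j')
    (op : ¬ m.Sol W o) (op' : ¬ m.Sol W o') (f : m.GE k a q) (a₁ : m.Wk ps W (m.bar j) o k)
    (nr : ∀ i, ¬ m.far k i) (qy : q ≠ y) (n : k ≠ κ) (ck : m.cor k' a)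
    (c₂ : m.Sid ps W a (m.bar j') j' k') (d : k ≠ k') (L : m.Lam ps W a x y (m.bar j') o' j' l p) :
    False := by
  classical
  have h := G.ok
  have r := G.ord
  have s := G.st
  have so := (G.nc _ _ _ a₁).resolve_left op
  have qp : q ≠ p := by
    rintro rfl
    rcases h.side2 (s.bd1 G.L.wy) G.f'.fc.cor1 ck f.fc.cor1 (.inr rfl) c₂.wk.h2
      (.inl ((h.lines f.fc a₁.i2).1.symm.trans (L.opp (h.adj12 f.fc)))) c₂.wk.ne with e | e
    exacts [nr j (e ▸ G.far.symm), d e]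
  have qx : q ≠ x := by
    rintro rfl
    exact nr κ (h.far_of_fc (s.bd1 G.L.wy) n f.fc G.fk.fc)
  obtain ⟨n₁, g'⟩ := G.symm.lam_nm L c'.wk op' (s.sid_lbar h r c' G.f'.fc.symm rfl) f.fc qp qx
    (G.L.n1 (s.sol_w h so f.fc).1) fun i q => absurd q (nr i)
  exact G.y_free c c' op op' n₁.neu (by simp) (by simp [G.ay.symm, qy.symm, L.py.symm, G.L.ne.symm])
    (fun u b => s.seg_gone h r c.wk op (k := k) (by simp) a₁.h2 b) fun u b => g' _ _ b

/-- both sides of `y` reach the door -/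
theorem y_bb (ty : m.Typ ps W a x y κ) (lx : m.HyL ps W a x y) (ia : ¬ m.Bdy W a)
    (c : m.Sid ps W y (m.bar j) o j) (c' : m.Sid ps W y (m.bar j') o' j') (op : ¬ m.Sol W o)
    (op' : ¬ m.Sol W o') : False := by
  classical
  have h := G.ok
  have r := G.ord
  have s := G.st
  obtain ⟨k, q, f, so, a₁, c₁, -, nr, qy, A⟩ := G.trun ty c.wk op (s.sid_lbar h r c G.f.fc.symm rfl)
  obtain ⟨k', q', f', so', a₂, c₂, -, nr', qy', A'⟩ :=
    G.symm.trun ty c'.wk op' (s.sid_lbar h r c' G.f'.fc.symm rfl)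
  by_cases d : k = k'
  · subst d
    exact G.y_free c c' op op' (G.L.neu1 h f.fc G.L.na (G.L.n1 (s.sol_w h so f.fc).1)
      (fun i e => absurd e (nr i)) (s.seg_rc h r a₁ op (by simp) a₁.h2)) (by simp)
      (by simp [G.ay.symm, qy.symm]) (fun u b => s.seg_gone h r c.wk op (k := k) (by simp) a₁.h2 b)
      fun u b => s.seg_gone h r c'.wk op' (k := k) (by simp) a₂.h2 b
  have nk : ∀ {k q}, m.GE k a q → ¬ Zc a x y q → k ≠ κ := by
    rintro _ q f z rfl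
    exact z (.inr (.inl (G.fk.fc.unique f.fc G.ax).1.symm))
  have ex : ∀ {k q o}, (∃ o', m.II ps W q a k o o') ∨ (∃ g o', m.PHI ps W a x y q a x k g o o') →
      ∃ g o', m.II ps W q a k o o' ∨ m.PHI ps W a x y q a x k g o o' := by
    rintro k q o (⟨o', P⟩ | ⟨g, o', P⟩)
    exacts [⟨k, o', .inl P⟩, ⟨g, o', .inr P⟩]
  have B := fun n {l p} => G.y_bl (l := l) (p := p) c c' op op' f a₁ nr qy n f'.fc.cor1 c₂ d
  have B' := fun n {l p} => G.symm.y_bl (l := l) (p := p) c' c op' op f' a₂ nr' qy' n f.fc.cor1 c₁ (Ne.symm d)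
  rcases A with ⟨l, p, L, -⟩ | ⟨sk, qz, P⟩ <;> rcases A' with ⟨l', p', L', -⟩ | ⟨sk', qz', P'⟩
  · by_cases e : k = κ
    exacts [B' (fun e' => d (e.trans e'.symm)) L, B e L']
  exacts [B' (nk f' qz') L, B (nk f qz) L',
    let ⟨_, _, Q⟩ := ex P; let ⟨_, _, Q'⟩ := ex P'; G.rot ia ty lx qz qz' sk sk' Q Q']

/-- (Hy) the half `y` does not lie on the ring -/
theorem hy (ty : m.Typ ps W a x y κ) (ia : ¬ m.Bdy W a) (by_ : m.Bdy W y) : False := by
  have h := G.ok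
  have r := G.ord
  have s := G.st
  have lx : m.HyL ps W a x y := G.lxI ty ia
  obtain ⟨w, w₀, o, c, op⟩ := s.bdy_out h by_ (s.sym _ _ G.L.wy)
  obtain ⟨i, -, c₁, so, -⟩ := s.nocut_face h r G.nc w₀ c op
  obtain ⟨w', o', -, d, w₁, c', op', -⟩ := HSt.other_out h c c₁ (s.ne w₀) op so
  have df : ∀ {i i' o o' w w'}, m.TyC ps T N U W μ a x y i i' κ → ¬ m.Sol W o → ¬ m.Sol W o' →
      m.YK ps W a x y i o w → m.YK ps W a x y i' o' w' → False := by
    rintro i i' o o' w w' G op op' (⟨_, _, _, Y, -⟩ | ⟨c, -⟩) (⟨_, _, _, Y', -⟩ | ⟨c', -⟩)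
    exacts [G.y_ee Y Y', G.y_eb ty Y c' op', G.symm.y_eb ty Y' c op, G.y_bb ty lx ia c c' op op']
  rcases G.y_kind ty lx w₀ c op with K | K <;> rcases G.y_kind ty lx w₁ c' op' with K' | K'
  exacts [d (G.y_same c' c op' op K' K), df G op op' K K', df G op' op K' K,
    d (G.symm.y_same c' c op' op K' K)]

end TyC

end Map

end Pool.Agent.P.MP_5f84aa_co.G
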