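import Pool.Agent.P.MP_5f84aa_co.G.LI0

/-! Type GR, both halves of the rung interior: two cells in a row at the same cell of the zone. -/

namespace Pool.Agent.P.MP_5f84aa_co.G

namespace Map

variable {V J Sg : Type} {m : Map V J Sg} {ps : J → Sg → ℤ} {T : Set Sg} {N : V → Prop} {μ : V → ℕ}
  {W : V → V → Prop} {U : Finset V} {sd : V → Sg → Bool}
  {a c c' p w x y z F : V} {i j k k' n g g' κ o o₁ o₂ : J}

/-- the other end of a rung is not on the bar of this end -/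
theorem Ok.far_nhug (h : m.Ok) (r : m.far i j) : ¬ m.hug i (m.bar j) := fun c =>
  c.elim (h.far_not_bar r r.2.2.1) (h.far_bar r)

namespace I0

variable [DecidableEq V] [Finite V] [Finite J] (G : m.I0 ps T N U W μ sd a x y g g' κ)
include G

omit [Finite V] [Finite J] in
theorem flat_a (e : m.X k = x) (c : m.cor k a) (c' : m.cor n x) : m.X n ≠ a := fun d => by
  have ax := G.st.ne G.L.wx
  rcases G.ok.two_faces ax G.fk.fc.on ⟨c.has, .inr (.inr e.symm)⟩ ⟨.inr (.inr d.symm), c'.has⟩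
    (fun q => (G.ok.fc_ne G.fk).2.2 (q ▸ e).symm) with rfl | rfl
  exacts [(G.ok.fc_ne G.fk).2.1 d.symm, ax (d.symm.trans e)]

variable (P : m.Two ps W c a c' a k k' o o₁ o₂) (R : m.Ray ps W (m.bar k') o₂ κ)
  (q : m.Pas ps (m.bar k') o₂ κ k' c' a (m.X k'))
include P R q

/-- the outgoing ray ends at `κ` and `x` lies along all of it -/
theorem rowx (cx : m.Sid ps W x (m.bar k') o₂ κ) : ∃ o₃, m.II ps W x a κ o₂ o₃ := by
  have L := G.L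
  have h := G.ok
  have r := G.ord
  have s := G.st
  have eX := (HSt.sid_flat r cx q.ni (.inr rfl) q.bt).1
  have bx : m.Bdy W x := let ⟨_, on, _⟩ := cx.fst; ⟨_, on.1, R.op⟩
  have win : ∀ {n p}, m.GE n x p → m.Sol W n → n ≠ κ → m.Sq W n c a k → False := fun f so d sq =>
    G.w2 P bx so f (s.ne L.wx).symm (fun e => d (G.k_eq (e ▸ f).symm.fc))
      (fun e => (h.fc_ne f).2.1 (e ▸ eX).symm) sq fun w b =>
        .inl (s.sid_two h r cx (b.rev.mono q.bt.bw) (eX ▸ q.sg.1.1))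
  obtain ⟨n, c1, -, d⟩ := s.nxt h r (s.sol_w h G.sk G.fk).2.2 ⟨G.fk.fc.has2, G.fk.fc.has3⟩
  rw [(h.lines G.fk G.ki).2.2.1] at c1
  by_cases so : m.Sol W n
  swap
  · exact ⟨n, G.fk.symm, G.sk, R.st ▸ cx, R.op, c1, so⟩
  exfalso
  obtain ⟨p, f⟩ := (d.resolve_left (not_not.2 so)).ge
  have w := (s.sol_w h so f).1
  obtain ⟨n', fr, so'⟩ := G.hard f w fun sf => win f so c1.wk.ne.symm (.of_sf f sf)
  have f' := h.far_ge fr f
  obtain ⟨n₃, c3, -, d3⟩ := s.nxt h r (s.sol_w h so' f').2.1 ⟨f'.fc.has1, f'.fc.has3⟩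
  rw [(h.lines f' fr.2.2.1).2.1] at c3
  by_cases so3 : m.Sol W n₃
  · obtain ⟨p₃, f3⟩ := (d3.resolve_left (not_not.2 so3)).ge
    refine win f3 so3 ?_ (.of_not (G.nr fr f f3 (L.n1 L.wx) (L.n2 L.wx w)
      (L.n2 L.wx (s.sol_w h so3 f3).1) (fun e => h.far_nhug fr (e ▸ c3.wk.h2)) c3.wk.ne.symm))
    rintro rfl
    rcases c3.wk.h2 with e | e
    · exact s.no_end h r cx R.op G.fk.fc.cor2 (R.st ▸ e ▸ s.sid_rev h r c3) so' f'.fc.cor1
    · exact h.far_nhug fr (e ▸ c1.wk.h2)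
  obtain ⟨e₃, R3, Q⟩ := G.out f' c3 so3
  obtain ⟨k₄, w₄, f4, s4, -, a4, -, d4, g4, -⟩ := G.door R3 fr.symm Q
  obtain ⟨n1, n2⟩ := G.xr fr f w (G.flat_a eX q.fc.cor2 f.fc.cor1) (G.flat_a eX q.fc.cor2 f'.fc.cor1)
  rcases G.f1 a4 so3 f4 (.inl (.of_not g4)) with (e | e | e) | e | e | e
  exacts [c1.wk.ne (G.k_eq (e ▸ f).symm.fc).symm, s.ne w e.symm, G.nxy (e ▸ s.adj _ _ w),
    n1 (e ▸ h.adj12 f4), d4 e, n2 (e ▸ (s.sol_w h s4 f4).1)]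

/-- the outgoing ray ends at `κ` and `x` enters at a landing -/
theorem rowd (Q : m.Pas ps (m.bar k') o₂ κ i w x F) : False := by
  classical
  have L := G.L
  have h := G.ok
  have r := G.ord
  have s := G.st
  have ax := s.ne L.wx
  have kκ : k' ≠ κ := (s.pas_wk h r R.wk q).2.ne
  have iκ : i ≠ κ := (s.pas_wk h r R.wk Q).2.ne
  have cx : c' ≠ x := fun e => kκ (G.k_eq (e ▸ q.fc).symm)
  have hd : ∀ {n u v X}, m.Wk ps W (m.bar k') o₂ n → m.Fc n u v X → n ≠ k' → n ≠ κ →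
      ¬ m.Sq W n c a k := fun a₁ f d d' sq =>
    (h.side2 (s.bd1 L.wx) q.fc.cor2 G.fk.fc.cor1 (f.cor_iff.2 ((G.w1 P a₁ f d sq).imp .symm .symm))
      (.inr rfl) (.inl R.st) a₁.h2 kκ).elim d d'
  have si := HSt.pas_sol R.wk Q
  have wx := (s.sol_w h si Q.fc).1
  have a1 := (s.pas_wk h r R.wk Q).1
  have ik : i ≠ k' := fun e => (q.fc.cor_iff.1 (e ▸ Q.fc.cor2)).elim cx.symm ax.symm
  obtain ⟨i', fr, si'⟩ := G.hard Q.fc wx fun sf => hd a1 Q.fc ik iκ (.of_sf Q.fc sf)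
  have f' := h.far_ge fr Q.fc.ge
  have wa : w ≠ a := fun e => iκ (G.k_eq (e ▸ Q.fc))
  have cw : c' ≠ w := fun e => ik (G.only P.q (e ▸ Q.fc.cor1) si)
  have nw := L.n2 L.wx (s.sym _ _ wx)
  have nh : ¬ m.hug i' (m.bar k') := Q.br ▸ h.far_nhug fr.symm
  have c0 : m.Sid ps W w (m.bar k') o₂ i := by
    refine ⟨a1, (s.back h r a1 Q.sg).resolve_right ?_, Q.sg.tc ⟨Q.fc.has1, Q.fc.has3⟩⟩
    rintro ⟨i₂, w₂, F₂, Q2⟩
    obtain ⟨a2, a3⟩ := s.pas_wk h r a1 Q2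
    have s2 := HSt.pas_sol a1 Q2
    refine hd a2 Q2.fc (fun e => (q.fc.cor_iff.1 (e ▸ Q2.fc.cor2)).elim cw.symm wa) (fun e => ?_)
      (.of_not (G.nr fr Q.fc.ge Q2.fc.symm nw (L.n1 L.wx)
        (L.n3 L.wx (s.sym _ _ wx) (s.sol_w h s2 Q2.fc.symm).1) a3.ne fun e => nh (e ▸ .inr Q2.br)))
    exact h.stem_ne _ G.ki (R.st.trans (e ▸ Q2.br).symm)
  have bw : m.Bdy W w := let ⟨_, on, _⟩ := c0.fst; ⟨_, on.1, R.op⟩
  have ls := HSt.wk_stem' h R.wk G.fk R.st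
  have gk := (G.two_k P).2.2.2.1
  have pos : Bt ps (m.bar k') o₂ k' i ∧ Bt ps (m.bar k') k' i κ ∨
      Bt ps (m.bar k') o₂ i k' ∧ Bt ps (m.bar k') i k' κ := by
    have := mt (r.inj _ i k' Q.ni q.ni (.inr Q.br) (.inr rfl)) ik
    have := q.bt
    have := Q.bt
    unfold Bt at *
    omega
  rcases pos with ⟨b1, b2⟩ | ⟨b1, b2⟩
  · have e := r.flat q.ni Q.ni G.ki (h.tc_bar q.ni q.fc.has2) (.inr Q.br) (ls.tc G.fk.fc.on) b2
    exact G.w2 P bw si' f' wa ax.symm (fun e => gk i (e ▸ fr.symm))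
      (.of_flat fun j c => .inr (h.far_unique fr.symm c ▸ e)) fun u b =>
        .inl (s.sid_two h r c0 (b.rev.mono b1.bw) cw)
  have eX := r.flat Q.ni q.ni G.ki (Q.br ▸ h.tc_bar Q.ni Q.fc.has2) (.inr rfl)
    ((ls.symm h).tc G.fk.fc.on.symm) b2
  obtain ⟨n1, n2⟩ := G.xr fr Q.fc.ge.symm (s.sym _ _ wx) (G.flat_a eX q.fc.cor2 Q.fc.cor2)
    (G.flat_a eX q.fc.cor2 f'.fc.cor2)
  obtain ⟨n₃, c3, -, d3⟩ := s.nxt h r (s.sol_w h si' f').2.1 ⟨f'.fc.has1, f'.fc.has3⟩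
  rw [(h.lines f' fr.2.2.1).2.1] at c3
  by_cases so3 : m.Sol W n₃
  · obtain ⟨p₃, f3⟩ := (d3.resolve_left (not_not.2 so3)).ge
    have w3 := (s.sol_w h so3 f3).1
    have d : n₃ ≠ i := fun e => h.far_nhug fr (e ▸ c3.wk.h2)
    rcases G.f1b bw so3 f3 (.inl (.of_not (G.nr fr Q.fc.ge f3 nw (L.n1 L.wx)
      (L.n3 L.wx (s.sym _ _ wx) w3) d c3.wk.ne.symm))) with (e | e | e) | e | e | e
    exacts [wa e, s.ne wx e, G.nxy (e ▸ (s.adj _ _ wx).symm), n1 (e ▸ s.adj _ _ w3),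
      (h.rung_face fr Q.fc.ge (e ▸ f3.fc.on)).elim d c3.wk.ne.symm, n2 (e ▸ w3)]
  obtain ⟨e₃, R3, Q3⟩ := G.out f' c3 so3
  obtain ⟨n, p, f4, s4, -, a4, -, d4, g4, -⟩ := G.door R3 fr.symm Q3
  have l := (h.lines Q.fc Q.ni).1
  have fin : ∀ {D M i₁ i₂}, m.Nm T U W μ D M → i₁ ∈ M → i₂ ∈ M → m.hug i₁ (m.bar k') →
      m.hug i₂ (m.bar i') → w ∉ D → x ∈ D → False := fun n m1 m2 g1 g2 wD xD =>
    n.neu.frees (s.mem _ _ wx) wD (L.one _ nw) fun u wu => by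
      rcases s.cover2 h r (G.se w) c0 (s.sid_one h r wx Q.fc.on f'.fc.on fr.1) c3 R.op so3 Q.fc.cor1
        f'.fc.cor1 (l ▸ Q.br ▸ (h.stem_ne i Q.ni).symm) (l ▸ h.far_not_bar fr fr.2.2.1) wu with b | b | b
      · exact (s.gone h r n m1 g1 a1 (.inl R.op) b).resolve_left wD
      · exact .inl (s.sgm_uni h r wx Q.fc.on f'.fc.on fr.1 b ▸ xD)
      · exact (s.gone h r n m2 g2 c3.wk.rev (.inl so3) b.rev).resolve_left wD
  by_cases e : n = κ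
  · subst e
    have rc : m.Rc W {a, x} (m.Hgd T {n} No) n := s.seg_rc h r R.wk R.op (by simp) (.inl R.st)
    exact fin (D := {a, x}) (M := {n}) ⟨L.neuS h G.fk L.na (L.n1 L.wx) (.inl (.of_not g4)) rc,
      by simpa using ⟨⟨n, G.fk.fc.has1, rc⟩, n, G.fk.fc.has2, rc⟩⟩ (by simp) (by simp) (.inl R.st) a4.h2
      (by simp [wa, s.ne wx]) (by simp)
  · have pa : a ≠ p := fun d => e (G.k_eq (d ▸ f4).symm.fc)
    have cp : c' ≠ p := fun d => (h.fc_ne f4).2.1 (G.only P.q (d ▸ f4.fc.cor2) s4 ▸ eX).symm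
    exact fin (G.nmS (s.pas_wk h r R.wk q).1 R.op a4 so3 q.fc f4 cx cp ax pa (.of_not gk) (.of_not g4))
      (by simp) (by simp) (.inr rfl) a4.h2 (by simp [wa, s.ne wx, cw.symm, d4.symm]) (by simp)

omit P R q

/-- the next pair -/
theorem step (P : m.Two ps W c z c' z k k' o o₁ o₂) (hz : Zc a x y z)
    (hc' : ¬ Zc a x y c' ∨ (c' = x ∧ z = a)) : ∃ c'' k'' o₃, m.Two ps W c' z c'' z k' k'' o₁ o₂ o₃ ∧
      (¬ Zc a x y c'' ∨ (c'' = x ∧ z = a)) := by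
  have h := G.ok
  have r := G.ord
  have s := G.st
  obtain ⟨e, R, q⟩ := G.out P.q.f P.q.b P.q.op'
  have ke : k' ≠ e := (s.pas_wk h r R.wk q).2.ne
  have ez : m.cor e z := (G.w1 P R.wk (fc_self e) ke.symm
    (.of_not fun j c => h.far_not_bar c q.ni R.st)).imp .symm .symm
  by_cases eκ : e = κ
  swap
  · obtain ⟨v, z', hv, -, ⟨o₃, p⟩ | ⟨z'', k₂, o₃, p⟩⟩ := G.ty _ _ _ R eκ <;>
      obtain rfl := (p.f.fc.cor_iff.1 ez).resolve_left fun d => hv (d ▸ hz)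
    · exact ⟨v, e, o₃, ⟨P.q, p, R.st, q.bt⟩, .inl hv⟩
    · have vz : v ≠ z := (h.fc_ne p.f).1
      refine (G.w2 P p.bdy p.so' p.f' vz p.ne (fun d => ?_)
        (.of_not fun j c => h.far_not_bar c R.wk.i2 p.st) fun w b => .inl ?_).elim
      · exact (p.f'.fc.cor_iff.1 (d ▸ q.fc.cor2)).elim vz.symm p.ne.symm
      · exact s.sid_two h r (R.st ▸ p.a₀) (b.rev.mono q.bt.bw) fun d =>
          ke (G.only P.q (d ▸ p.f.fc.cor1) p.so).symm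
  subst eκ
  have ls := HSt.wk_stem' h R.wk G.fk R.st
  rcases G.fk.fc.cor_iff.1 ez with rfl | rfl
  · rcases s.back h r R.wk (ls.symm h) with c0 | ⟨i, w, F, Q⟩
    · obtain ⟨o₃, p⟩ := G.rowx P R q ⟨R.wk, c0, (ls.symm h).tc G.fk.fc.on.symm⟩
      exact ⟨x, e, o₃, ⟨P.q, p, R.st, q.bt⟩, .inr ⟨rfl, rfl⟩⟩
    · exact (G.rowd P R q Q).elim
  exfalso
  have hc : ¬ Zc a z y c' := hc'.resolve_right fun d => s.ne G.L.wx d.2.symm
  obtain ⟨i, w, θ, hθ, -, -, Q, gi⟩ := G.entry R.wk R.op (.inl rfl) ls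
  have θz : θ ≠ z := by
    rcases hθ with rfl | rfl
    exacts [s.ne G.L.wx, G.L.ne.symm]
  have ik : i ≠ k' := fun d => hc (((q.fc.cor_iff.1 (d ▸ Q.fc.cor2)).resolve_right θz) ▸
    hθ.imp_right .inr)
  obtain ⟨a1, a2⟩ := s.pas_wk h r R.wk Q
  exact (h.side2 (s.bd2 G.L.wx) q.fc.cor2 ez (Q.fc.cor_iff.2 ((G.w1 P a1 Q.fc ik (.of_not gi)).imp
    .symm .symm)) (.inr rfl) (.inl R.st) a1.h2 ke).elim ik a2.ne

/-- two cells in a row do not have the same partner -/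
theorem sec2b (P : m.Two ps W c z c' z k k' o o₁ o₂) (hz : Zc a x y z)
    (_ : ¬ Zc a x y c ∨ (c = x ∧ z = a)) (hc' : ¬ Zc a x y c' ∨ (c' = x ∧ z = a)) : False := by
  have key : ∀ n, m.has n z → ∀ u, m.GE n u z → m.Bdy W u := fun n b u f => by
    obtain ⟨c, c', k, o, o₁, o₂, P, -⟩ := G.ok.rot_cor (C := {k' | ∃ c c' k o o₁ o₂,
      m.Two ps W c z c' z k k' o o₁ o₂ ∧ (¬ Zc a x y c' ∨ (c' = x ∧ z = a))})
      ⟨k', c, c', k, o, o₁, o₂, P, hc'⟩ (by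
        rintro j ⟨c, c', k, o, o₁, o₂, P, hc⟩
        obtain ⟨c'', k'', o₃, P', hc'⟩ := G.step P hz hc
        exact ⟨P.q.f.fc.cor2, k'', ⟨_, _, _, _, _, _, P', hc'⟩, (G.two_k P').2.1 ▸ P'.q.f.symm⟩) b
    exact (f.symm.fc.unique P.q.f.symm.fc (G.ok.fc_ne f).1.symm).1 ▸ P.q.bdy
  rcases hz with rfl | rfl | rfl
  exacts [G.iy (key g G.f.fc.has1 _ G.f.symm), G.ia (key κ G.fk.fc.has2 _ G.fk),
    G.ia (key g G.f.fc.has2 _ G.f)]

end I0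

end Map

end Pool.Agent.P.MP_5f84aa_co.G
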