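import Pool.Agent.P.MP_5f84aa_co.G.LI0

/-! Type GR, both halves of the rung interior, part 3: two cells in a row exist. -/

namespace Pool.Agent.P.MP_5f84aa_co.G

namespace Map

variable {V J Sg : Type} {m : Map V J Sg} {ps : J → Sg → ℤ} {t t' : Sg} {T : Set Sg} {N : V → Prop}
  {μ : V → ℕ} {W : V → V → Prop} {U : Finset V} {sd : V → Sg → Bool}
  {a c c' u u' v v' w x y z z' θ : V} {e e' g g' i i' k k' κ o o' o₁ : J}

/-- only one ray ends at a given face -/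
theorem Ray.uniq (r : m.Ord ps) (b : m.Ray ps W t o e) (b' : m.Ray ps W t o' e) : o = o' := by
  by_contra n
  have e1 := mt (r.inj t o o' b.wk.i1 b'.wk.i1 b.wk.h1 b'.wk.h1) n
  have e2 := mt (r.inj t o e b.wk.i1 b.wk.i2 b.wk.h1 b.wk.h2) b.wk.ne
  have e3 := mt (r.inj t o' e b'.wk.i1 b.wk.i2 b'.wk.h1 b.wk.h2) b'.wk.ne
  have e4 := r.ext e o o' b.wk.i2 b.wk.i1 b'.wk.i1 (b.st ▸ b.wk.h1) (b.st ▸ b'.wk.h1)
  have e5 := r.ext e o' o b.wk.i2 b'.wk.i1 b.wk.i1 (b.st ▸ b'.wk.h1) (b.st ▸ b.wk.h1)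
  have e6 := mt (b.wk.sol o' b'.wk.i1 b'.wk.h1) b'.op
  have e7 := mt (b'.wk.sol o b.wk.i1 b.wk.h1) b.op
  rw [b.st] at e4 e5
  unfold Bt at *
  omega

namespace I0

variable [DecidableEq V] [Finite V] [Finite J] (G : m.I0 ps T N U W μ sd a x y g g' κ)
  (A : ∀ c z c' z' k k' o o₁ o₂, m.Two ps W c z c' z' k k' o o₁ o₂ → ¬ Zc a x y c → ¬ Zc a x y c' →
    Zc a x y z → Zc a x y z' → False)
include G

omit [Finite V] [Finite J] in
/-- the first corner of a cell with two corners is the second face between `a` and `x` -/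
theorem phi_eq (p : m.PHI ps W a x y v z z' e k o o') (hv : ¬ Zc a x y v) (c : m.On i a x) (d : i ≠ κ) :
    i = e := by
  obtain ⟨j, -, -, q⟩ := G.ok.other G.fk.fc.on (G.st.ne G.L.wx)
  have : e ≠ κ := fun n => hv ((G.fk.fc.cor_iff.1 (n ▸ p.f.fc.cor1)).imp_right .inl)
  exact ((q i c).resolve_left d).trans ((q e p.on).resolve_left this).symm

include A

/-- the outgoing ray of a cell with one corner ends at `κ` or at a cell with two corners -/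
theorem succ (p : m.II ps W c z k o o₁) (hc : ¬ Zc a x y c) (hz : Zc a x y z) :
    ∃ e, m.Ray ps W (m.bar k) o₁ e ∧ m.Pas ps (m.bar k) o₁ e k c z (m.X k) ∧
      (e = κ ∨ ∃ v z z' k' o', ¬ Zc a x y v ∧ m.PHI ps W a x y v z z' e k' o₁ o') := by
  obtain ⟨e, r, q⟩ := G.out p.f p.b p.op'
  refine ⟨e, r, q, or_iff_not_imp_left.2 fun d => ?_⟩
  obtain ⟨v, z', hv, hz', ⟨o', p'⟩ | ⟨z'', k', o', p'⟩⟩ := G.ty _ _ _ r d
  exacts [(A _ _ _ _ _ _ _ _ _ ⟨p, p', r.st, q.bt⟩ hc hv hz hz').elim, ⟨v, z', z'', k', o', hv, p'⟩]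

/-- there is no cell with two corners -/
theorem nphi (p : m.PHI ps W a x y v z z' e k o o') (hv : ¬ Zc a x y v) : False := by
  have h := G.ok
  have ne : ∀ {v z z' e k o o'}, m.PHI ps W a x y v z z' e k o o' → ¬ Zc a x y v → e ≠ κ :=
    fun p hv n => hv ((G.fk.fc.cor_iff.1 (n ▸ p.f.fc.cor1)).imp_right .inl)
  obtain ⟨e₁, r, q⟩ := G.out p.f' p.a₂ p.op'
  obtain ⟨c, w, hc, hw, ⟨o₁, p₁⟩ | ⟨_, _, _, p₁⟩⟩ := G.ty _ _ _ r fun d => G.phi_nk p hv (d ▸ r)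
  swap
  · obtain rfl := G.phi_eq p hv p₁.on (ne p₁ hc)
    exact G.ext.no2 _ _ r.wk.i2 q.ni r.st p.st.symm
  obtain ⟨e₂, r₂, q₂, rfl | ⟨v₂, z₂, _, _, _, hv₂, p₂⟩⟩ := G.succ A p₁ hc hw
  · exact G.phi_nk p hv r₂
  obtain rfl := G.phi_eq p hv p₂.on (ne p₂ hv₂)
  have x1 := (HSt.sid_flat G.ord p₁.a q.ni (.inr r.st.symm) (r.st ▸ q.bt)).1
  have x2 := (HSt.sid_flat G.ord p₂.a₀ q₂.ni (.inr r₂.st.symm) (r₂.st ▸ q₂.bt)).1
  have l1 := (h.lines p.f'.fc q.ni).2.1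
  have l2 := (h.lines p₁.f.fc q₂.ni).2.1
  have s := h.stem_ne e₁ q₂.ni
  have s' := r.st
  have c1 := p.f.fc.cor_iff.1 p₂.f.fc.cor1
  have c2 := p.f.fc.has_iff.1 p.on.1
  have c3 := p.f.fc.has_iff.1 p.on.2
  have c4 := G.st.ne G.L.wx
  have c5 := h.ln_symm v c
  unfold Zc at *
  grind

/-- every ray that does not end at `κ` ends at a cell with one corner whose outgoing ray ends at `κ` -/
theorem toK (r : m.Ray ps W t o e) (d : e ≠ κ) : ∃ v z o', ¬ Zc a x y v ∧ Zc a x y z ∧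
    m.II ps W v z e o o' ∧ m.Ray ps W (m.bar e) o' κ ∧ m.Pas ps (m.bar e) o' κ e v z (m.X e) := by
  obtain ⟨v, z, hv, hz, ⟨o', p⟩ | ⟨_, _, _, p⟩⟩ := G.ty _ _ _ r d
  swap
  · exact (G.nphi A p hv).elim
  obtain ⟨e', r', q, rfl | ⟨_, _, _, _, _, hv', p'⟩⟩ := G.succ A p hv hz
  exacts [⟨v, z, o', hv, hz, p, r', q⟩, (G.nphi A p' hv').elim]

/-- the two cells at the start of the ray to `κ` have one corner each -/
theorem startK (r : m.Ray ps W t o κ) (w : W u u') (c : m.On o u u') (b : m.Sgm ps t o κ u u') :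
    ∃ z k i, ¬ Zc a x y u ∧ Zc a x y z ∧ m.II ps W u z k i o ∧ m.bar k = t := by
  have h := G.ok
  have st := G.st
  obtain ⟨j, -, c', so, -⟩ := st.nocut_face h G.ord G.nc w c r.op
  obtain ⟨u₁, i, -, d, w₁, c₁, op, -⟩ := HSt.other_out h c c' (st.ne w) r.op so
  obtain ⟨e, a₁, b₁, q⟩ := st.ray h G.ord w₁ c₁
  have se := (G.nc _ _ _ a₁).resolve_left op
  have r₁ : m.Ray ps W (m.ln u u₁) i e := ⟨a₁, op, se, q.resolve_left (not_not.2 se)⟩
  have ne : e ≠ κ := by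
    rintro rfl
    have l := r₁.st.symm.trans r.st
    rw [l] at r₁ b₁
    obtain rfl := r.uniq G.ord r₁
    rcases st.wk_first h G.ord r.wk w c b c₁ b₁ with ⟨-, e⟩ | ⟨e, -⟩
    exacts [d e, st.ne w e]
  obtain ⟨v, z, o', hv, hz, p, r₂, q₂⟩ := G.toK A r₁ ne
  have l := r₂.st.symm.trans r.st
  obtain rfl := r.uniq G.ord (l ▸ r₂)
  obtain ⟨v₁, c₂, b₂⟩ := (st.sid_rev h G.ord p.b).fst
  obtain ⟨v₂, c₃, b₃⟩ := p.a.fst
  have e1 := st.wk_first h G.ord r.wk w c b c₂ (l ▸ b₂.mono q₂.bt.bw)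
  have e2 := st.wk_first h G.ord a₁ w₁ c₁ b₁ c₃ (r₁.st ▸ b₃)
  have e3 := st.ne w
  obtain rfl : v = u := by grind
  exact ⟨z, e, i, hv, hz, p, l⟩

omit A in
/-- the light at the entry of the two halves frees the second cell -/
theorem lastK (p : m.II ps W u x k i o) (p' : m.II ps W u' θ k' i' o) (hu : ¬ Zc a x y u)
    (c : θ = a ∨ θ = y) (d : u ≠ u') (l : m.bar k = m.stem κ) (l' : m.bar k' = m.stem κ) : False := by
  have h := G.ok
  have st := G.st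
  have ki := p'.a.wk.i2
  obtain ⟨n, w, θ', c', -, -, q, gd⟩ := G.entry p'.a.wk p'.op c
    ((st.sid_lstem h G.ord p'.a p'.f.fc rfl).symm h)
  have sn := HSt.pas_sol p'.a.wk q
  have xa := st.ne G.L.wx
  have xy := G.L.ne
  have sf : m.Sf W k u ∨ m.Sf W k x := by_contra fun n => by
    obtain ⟨j, r, so⟩ := G.hard p.f.fc (st.sol_w h p.so p.f).1 n
    exact r.1 (G.only p (h.far_ge r p.f).fc.cor1 so).symm
  refine G.w0 p' (st.pas_wk h G.ord p'.a.wk q).1 ((l.trans l'.symm) ▸ p.b.wk.rev) q.fc p.f.fc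
    (fun e => h.stem_ne k' ki (e ▸ q.br).symm) (fun e => ?_) (fun e => ?_) (fun e => ?_) (fun e => ?_)
    (fun e => ?_) (.of_not gd) (.of_sf p.f.fc sf)
  · have := p'.f.fc.cor_iff.1 (e ▸ p.f.fc.cor1)
    unfold Zc at hu
    grind
  · obtain rfl := G.only p (e ▸ q.fc.cor1) sn
    exact h.stem_ne k' ki (q.br.symm.trans (l.trans l'.symm))
  · subst e
    rcases c' with rfl | rfl
    · obtain rfl := G.k_eq q.fc.symm
      exact G.ext.no2 _ _ G.ki ki l'.symm q.br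
    · exact G.nxy (h.adj12 q.fc)
  · unfold Zc at hu
    grind
  · grind

/-- (section 3) the state does not exist -/
theorem sec3 : False := by
  have h := G.ok
  have st := G.st
  obtain ⟨t, o, r⟩ : ∃ t o, m.Ray ps W t o κ := by
    obtain ⟨u, v, w, j, c, op⟩ := st.exists_out h G.L.wx
    obtain ⟨e, a₁, -, -⟩ := st.ray h G.ord w c
    obtain ⟨e, r, -⟩ := G.ray a₁ op
    by_cases d : e = κ
    · exact ⟨_, _, d ▸ r⟩
    obtain ⟨_, _, _, -, -, -, r', -⟩ := G.toK A r d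
    exact ⟨_, _, r'⟩
  obtain ⟨u, u', w, c, b⟩ := r.wk.p1
  obtain ⟨z, k, i, hu, hz, p, l⟩ := G.startK A r w c b
  obtain ⟨z', k', i', hu', hz', p', l'⟩ := G.startK A r (st.sym _ _ w) c.symm (b.symm h)
  have n := G.nrl r.wk r.op
  have s1 := G.sdf.sgm n b
  have s2 := G.sdf.sgm n (HSt.wk_stem' h r.wk G.fk.fc r.st)
  have s3 := G.sdf.bar _ _ _ _ p.a.wk.i2 p.f.fc
  have s4 := G.sdf.bar _ _ _ _ p'.a.wk.i2 p'.f.fc
  have s5 := congrFun G.sdf.th t
  rw [l] at s3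
  rw [l'] at s4
  have d := st.ne w
  rcases hz with rfl | rfl | rfl <;> rcases hz' with rfl | rfl | rfl
  all_goals first
    | exact G.lastK p p' hu (by simp) d (l.trans r.st.symm) (l'.trans r.st.symm)
    | exact G.lastK p' p hu' (by simp) d.symm (l'.trans r.st.symm) (l.trans r.st.symm)
    | grind

end I0

end Map

end Pool.Agent.P.MP_5f84aa_co.G
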