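import Pool.Agent.P.MP_5f84aa_co.G.LI2w
import Pool.Agent.P.MP_5f84aa_co.G.LI2b
import Pool.Agent.P.MP_5f84aa_co.G.LI3
import Pool.Agent.P.MP_5f84aa_co.G.LH1a

/-! Type GR: the two halves of the rung are not both interior. -/

namespace Pool.Agent.P.MP_5f84aa_co.G

namespace Map

variable {V J Sg : Type} {m : Map V J Sg} {ps : J → Sg → ℤ} {T : Set Sg} {N : V → Prop}
  {μ : V → ℕ} {W : V → V → Prop} {U : Finset V} {sd : V → Sg → Bool} {a x y : V} {g g' κ : J}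
  [DecidableEq V] [Finite V] [Finite J]

theorem I0.absurd (G : m.I0 ps T N U W μ sd a x y g g' κ) : False :=
  G.sec3 fun _ z _ z' _ _ _ _ _ P hc hc' hz _ => by
    obtain rfl | d := eq_or_ne z z'
    exacts [G.sec2b P hz (.inl hc) (.inl hc'), G.sec2a P hc hc' d]

/-- (H0) one of the two halves is a ring cell -/
theorem TyC.h0 (G : m.TyC ps T N U W μ a x y g g' κ)
    (ty : ∀ t o e, m.Ray ps W t o e → e ≠ κ → o ≠ κ → ∃ v z, ¬ Zc a x y v ∧ Zc a x y z ∧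
      ((∃ o', m.II ps W v z e o o') ∨ ∃ z' k o', m.PHI ps W a x y v z z' e k o o'))
    (ia : ¬ m.Bdy W a) (iy : ¬ m.Bdy W y) : False :=
  let ⟨_, s⟩ := G.sd
  I0.absurd ⟨G.L, G.ok, G.ex, G.ord, G.nc, G.se, G.r1, G.far, G.f, G.fk, G.xg, G.xg', s, ia, iy,
    fun t o e r d => ty t o e r d fun q => ia ⟨o, q ▸ G.fk.fc.has1, r.op⟩⟩

end Map

end Pool.Agent.P.MP_5f84aa_co.G
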