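import Pool.Agent.P.MP_5f84aa_co.G.LH1
import Pool.Agent.P.MP_5f84aa_co.G.LHy
import Pool.Agent.P.MP_5f84aa_co.G.LI4

/-! Type GR with a door: the centre `a` does not lie on the ring. -/

namespace Pool.Agent.P.MP_5f84aa_co.G

namespace Map

variable {V J Sg : Type} {m : Map V J Sg} {ps : J → Sg → ℤ} {t : Sg} {T : Set Sg} {N : V → Prop}
  {μ : V → ℕ} {W : V → V → Prop} {U : Finset V} {a p q u v w x y X η : V} {e i j j' k n o o' κ : J}

namespace TyC

variable [DecidableEq V] (G : m.TyC ps T N U W μ a x y j j' κ)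
include G

theorem a_good (i : J) : ¬ m.far κ i :=
  G.nr G.far G.f G.fk.fc G.L.na (G.L.n1 G.L.wy) (G.L.n1 G.L.wx)
    (fun e => (G.f.fc.cor_iff.1 (e ▸ G.fk.fc.cor2)).elim G.ax.symm G.L.ne)
    (fun e => (G.f'.fc.cor_iff.1 (e ▸ G.fk.fc.cor2)).elim G.ax.symm G.L.ne) i

variable [Finite V]

/-- a light at `κ` and a light at a corner of `y` -/
theorem a_nm [DecidableEq J] (ba : m.Bdy W a) (a₁ : m.Wk ps W t o n) (op : ¬ m.Sol W o)
    (f : m.Fc n y w X) (wa : w ≠ a) (nr : ∀ i, ¬ m.far n i) : m.Nm T U W μ {a, x, y, w} {κ, n} :=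
  have so := (G.nc _ _ _ a₁).resolve_left op
  G.L.nmQ G.ok G.fk.fc f G.ay wa.symm G.L.ne (fun e => G.nxy (e ▸ G.ok.adj12 f).symm) G.L.na
    (G.L.n1 G.L.wx) (G.L.n1 G.L.wy) (G.L.n2 G.L.wy (G.st.sol_w G.ok so f).1) (.of_not G.a_good)
    (.of_not nr) (.of_bdy ba (by simp) G.fk.fc.has1) (G.st.seg_rc G.ok G.ord a₁ op (by simp) a₁.h2)

variable [Finite J]

/-- a landing of one of the halves -/
theorem a_land (H : m.Ok3) (a₁ : m.Wk ps W t o k) (op : ¬ m.Sol W o) (ok : m.stem κ = t → o ≠ κ)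
    (f : m.Fc k η q X) (l : m.bar k = t) (b : m.Sgm ps t o k η X) (th : η = a ∨ η = y)
    (qz : ¬ Zc a x y q) : False := by
  have h := G.ok
  have r := G.ord
  obtain ⟨u, v, w, c, b₀⟩ := a₁.p1
  obtain ⟨e, a₂, b₂, q'⟩ := G.st.ray h r w c
  rw [b₀.2.1] at a₂ b₂ q'
  have se := (G.nc _ _ _ a₂).resolve_left op
  have l' := q'.resolve_left (not_not.2 se)
  have R : m.Ray ps W t o e := ⟨a₂, op, se, l'⟩
  exact G.lx0 R ⟨(HSt.wk_le h r a₁ a₂ l' b₀ b₂).resolve_left fun e' =>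
    h.stem_ne k a₁.i2 ((e' ▸ l').trans l.symm), f, l, b⟩ th qz fun ek => G.type' H R ek ok

/-- the side of `a` ends at the only corner of `v`; the next corner of `a` is an end of the door -/
theorem a_ij (ba : m.Bdy W a) (P : m.II ps W v a k o o') (vz : ¬ Zc a x y v)
    (a₀ : m.Sid ps W a (m.stem k) o k) (a₁ : m.Wk ps W (m.bar k) o' j)
    (c₁ : m.Sid ps W a (m.bar k) k j) (bt : Bt ps (m.bar k) o' k j) : False := by
  classical
  have h := G.ok
  have r := G.ord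
  have s := G.st
  have va : v ≠ a := fun e => vz (.inl e)
  have vx : v ≠ x := fun e => vz (.inr (.inl e))
  have vy : v ≠ y := fun e => vz (.inr (.inr e))
  have br := a₁.h2.resolve_left (G.nrg a₁ P.op').symm
  obtain ⟨n, w, X, a₂, -, -, so, f, wa, -, nr⟩ := G.door a₁ P.op' G.far G.f.fc
    ((s.sid_lbar h r c₁ G.f.fc br).tail bt.bw) ((G.nz (.inr (.inr rfl))).mono (by omega))
  have vw : v ≠ w := fun e =>
    (P.f.fc.cor_iff.1 (G.t3_only P (e ▸ f.cor2) so ▸ f.cor1)).elim vy.symm G.ay.symm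
  exact G.y_fr P (G.a_nm ba a₂ P.op' f wa nr) (by simp [*])
    (.inr fun u b => by simp [(s.sid_row h r a₀ b).resolve_left va]) ⟨n, by simp, a₂.h2⟩

/-- the side of `a` ends at the only corner of `v` -/
theorem a_ii (ba : m.Bdy W a) (P : m.II ps W v a k o o') (vz : ¬ Zc a x y v)
    (a₀ : m.Sid ps W a (m.stem k) o k) : False := by
  have h := G.ok
  have r := G.ord
  have s := G.st
  have va : v ≠ a := fun e => vz (.inl e)
  have b' := s.sid_rev h r P.b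
  obtain ⟨n, a₁, c₁, bt, -, sn, cn⟩ := s.pas1 h r G.nc b'.wk P.op' P.f.fc (s.sid_lbar h r b' P.f.fc rfl)
  by_cases d1 : n = j
  · subst d1
    exact G.a_ij ba P vz a₀ a₁ c₁ bt
  by_cases d2 : n = j'
  · subst d2
    exact G.symm.a_ij ba P vz a₀ a₁ c₁ bt
  obtain ⟨u, f⟩ := cn.ge
  have vu : v ≠ u := fun e => c₁.wk.ne (G.t3_only P (e ▸ f.fc.cor2) sn).symm
  exact G.y_fr P (G.L.nm1 h f.fc G.L.na (G.L.n1 (s.sol_w h sn f.fc).1)
    (G.t3_good (.inl rfl) f.fc sn d1 d2) ba) (by simp [*])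
    (.inr fun u b => by simp [(s.sid_row h r a₀ b).resolve_left va]) ⟨n, by simp, a₁.h2⟩

/-- the side of `a` reaches the door -/
theorem a_door (H : m.Ok3) (ba : m.Bdy W a) (c : m.Sid ps W a t o j) (op : ¬ m.Sol W o)
    (ok : m.stem κ = t → o ≠ κ) : False := by
  classical
  have h := G.ok
  have r := G.ord
  have s := G.st
  have br := c.wk.h2.resolve_left (G.nrg c.wk op).symm
  obtain ⟨n, q, X, a₁, c₁, bt, so, f, qa, -, nr⟩ := G.door c.wk op G.far G.f.fc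
    (s.sid_lbar h r c G.f.fc br) ((G.nz (.inr (.inr rfl))).mono (by omega))
  have qz : ¬ Zc a x y q := by
    rintro (rfl | rfl | rfl)
    exacts [qa rfl, G.nxy (h.adj12 f).symm, (h.fc_ne f).1 rfl]
  rcases a₁.h2 with l | l
  swap
  · exact G.a_land H a₁ op ok f l ((s.sid_lbar h r c₁ f l).tail bt.bw) (.inr rfl) qz
  obtain ⟨v, z, vz, -, P⟩ := G.type' H ⟨a₁, op, so, l⟩
    (fun e => (G.fk.fc.cor_iff.1 (e ▸ f.cor1)).elim G.ay.symm G.L.ne.symm) ok
  have g : m.GE n v z := by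
    rcases P with ⟨_, c⟩ | ⟨_, _, _, c⟩
    exacts [c.f, c.f]
  obtain rfl : y = z := (g.fc.cor_iff.1 f.cor1).resolve_left fun e => vz (.inr (.inr e.symm))
  have va : v ≠ a := fun e => vz (.inl e)
  have vx : v ≠ x := fun e => vz (.inr (.inl e))
  have vy : v ≠ y := fun e => vz (.inr (.inr e))
  rcases P with ⟨o', P⟩ | ⟨_, _, _, P⟩
  swap
  · have e1 := g.fc.has_iff.1 P.on.1
    have e2 := g.fc.has_iff.1 P.on.2
    have := G.ax; have := G.ay; have := G.L.ne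
    grind
  subst l
  have b' := s.sid_rev h r P.b
  obtain ⟨k, a₂, c₂, -, -, sk, ck⟩ := s.pas1 h r G.nc b'.wk P.op' g.fc (s.sid_lbar h r b' g.fc rfl)
  by_cases d2 : k = j'
  · subst d2
    exact G.symm.tt (fun _ _ _ => G.type H) P vz bt br c₂
  have d1 : k ≠ j := by
    rintro rfl
    exact a₂.h2.elim (h.far_not_bar G.far a₁.i2) fun e => h.stem_ne n a₁.i2 (br.symm.trans e)
  obtain ⟨w, f₂⟩ := ck.ge
  have wa : w ≠ a := fun e => (h.rung_face G.far G.f (e ▸ f₂.fc.on).symm).elim d1 d2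
  have vw : v ≠ w := fun e => c₂.wk.ne (G.t3_only P (e ▸ f₂.fc.cor2) sk).symm
  refine G.y_fr P (G.a_nm ba a₂ P.op' f₂.fc wa (G.t3_good (.inr rfl) f₂.fc sk d1 d2)) (by simp [*])
    (.inr fun u b => ?_) ⟨k, by simp, a₂.h2⟩
  rcases b.split h r j with b | b
  exacts [by simp [(s.sid_row h r c b).resolve_left va], by simp [(s.sid_row h r c₁ b).resolve_left vy]]

/-- a ring wall of `a` leads to the piece `a x` -/
theorem a_kind (H : m.Ok3) (w₀ : W a w) (c : m.On o a w) (op : ¬ m.Sol W o) :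
    m.Kend ps W a x κ o w := by
  have h := G.ok
  have r := G.ord
  have s := G.st
  have ba : m.Bdy W a := ⟨o, c.1, op⟩
  by_cases e0 : o = κ ∧ w = x
  · exact .inl e0
  have ok : m.stem κ = m.ln a w → o ≠ κ := by
    rintro l rfl
    exact e0 ⟨rfl, HSt.cor_piece h G.ki G.fk.fc.cor1 c G.fk.fc.on (s.ne w₀) G.ax
      (l.symm.trans G.lax.symm)⟩
  obtain ⟨k, a₀, b, ck⟩ := s.nxt h r w₀ c
  have so := (G.nc _ _ _ a₀.wk).resolve_left op
  obtain ⟨q, f⟩ := (ck.resolve_left fun n => n so).ge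
  refine .inr ⟨k, a₀, b, so, ?_⟩
  by_cases c0 : k = κ
  · exact .inl c0
  by_cases c1 : k = j
  · subst c1
    exact (G.a_door H ba a₀ op ok).elim
  by_cases c2 : k = j'
  · subst c2
    exact (G.symm.a_door H ba a₀ op ok).elim
  have qz : ¬ Zc a x y q := by
    rintro (rfl | rfl | rfl)
    exacts [(h.fc_ne f.fc).1 rfl, G.a_good k (h.far_of_fc (s.bd1 w₀) (Ne.symm c0) G.fk.fc f.fc),
      (h.rung_face G.far G.f f.fc.on).elim c1 c2]
  rcases a₀.wk.h2 with l | l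
  swap
  · exact (G.a_land H a₀.wk op ok f.fc l (s.sid_lbar h r a₀ f.fc l) (.inl rfl) qz).elim
  obtain ⟨v, z, vz, -, P⟩ := G.type' H ⟨a₀.wk, op, so, l⟩ c0 ok
  have g : m.GE k v z := by
    rcases P with ⟨_, c⟩ | ⟨_, _, _, c⟩
    exacts [c.f, c.f]
  obtain rfl : a = z := (g.fc.cor_iff.1 f.fc.cor1).resolve_left fun e => vz (.inl e.symm)
  rcases P with ⟨o', P⟩ | ⟨_, _, _, P⟩
  · exact (G.a_ii ba P vz (l ▸ a₀)).elim
  · exact .inr ⟨q, (G.t3_phi P vz).1 ▸ f.fc, l⟩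

/-- (Ha) the centre does not lie on the ring -/
theorem ha (H : m.Ok3) (ba : m.Bdy W a) : False := by
  have h := G.ok
  have r := G.ord
  have s := G.st
  obtain ⟨w, w₀, o, c, op⟩ := s.bdy_out h ba G.L.wy
  obtain ⟨i, -, c₁, so, -⟩ := s.nocut_face h r G.nc w₀ c op
  obtain ⟨w', o', -, d, w₁, c', op', -⟩ := HSt.other_out h c c₁ (s.ne w₀) op so
  exact s.kk h r (G.se a) G.far G.f G.so G.so' G.fk G.L.wx G.L.ne c' c op' op d
    (G.a_kind H w₁ c' op') (G.a_kind H w₀ c op)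

/-- the context is contradictory -/
theorem empty (H : m.Ok3) : False := by
  by_cases ba : m.Bdy W a
  · exact G.ha H ba
  by_cases b : m.Bdy W y
  exacts [G.hy (fun _ _ _ => G.type H) ba b, G.h0 (fun _ _ _ => G.type H) ba b]

end TyC

end Map

end Pool.Agent.P.MP_5f84aa_co.G
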