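import Pool.Agent.P.MP_5f84aa_co.G.LH2z
import Pool.Agent.P.MP_5f84aa_co.G.LH1
import Pool.Agent.P.MP_5f84aa_co.G.LHa0

/-! Type GR, both ends of the rung solid: data, statements and basic moves. -/

namespace Pool.Agent.P.MP_5f84aa_co.G

namespace Map

variable {V J Sg : Type}

/-- a confined state without cuts; both ends `g`, `g'` of the rung `a y` are solid -/
structure Hd [DecidableEq V] (m : Map V J Sg) (ps : J → Sg → ℤ) (T : Set Sg) (N : V → Prop)
    (U : Finset V) (W : V → V → Prop) (μ : V → ℕ) (sd : V → Sg → Bool) (a x y : V) (g g' κ : J) :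
    Prop where
  L : m.Loc T N U W μ a x y
  ok : m.Ok
  ext : m.Ext
  ord : m.Ord ps
  nc : m.NoCut ps W
  se : ∀ v, m.Sect W v
  r1 : ∀ b u v, N b → N u → N v → m.Rn b u → m.Rn b v → u = v
  far : m.far g g'
  f : m.GE g a y
  fk : m.GE κ a x
  xg : x ≠ m.X g
  xg' : x ≠ m.X g'
  sdf : m.Sdf a y (m.stem g) sd
  so : m.Sol W g
  so' : m.Sol W g'

variable {m : Map V J Sg} {ps : J → Sg → ℤ} {t t' : Sg} {T : Set Sg} {N : V → Prop} {μ : V → ℕ}
  {W : V → V → Prop} {U D : Finset V} {sd : V → Sg → Bool} {M : Finset J}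
  {a c c' d p q u v w x y z z' θ X X' : V} {e f i j j' k k' n g g' κ o o' o₁ o₂ : J}

theorem Zc.ca : Zc a x y a := .inl rfl
theorem Zc.cx : Zc a x y x := .inr (.inl rfl)
theorem Zc.cy : Zc a x y y := .inr (.inr rfl)
theorem Zc.th (c : θ = a ∨ θ = y) : Zc a x y θ := c.imp_right .inr

namespace Hd

variable [DecidableEq V] (G : m.Hd ps T N U W μ sd a x y g g' κ)
include G

theorem st : m.HSt U W := G.L.st
theorem f' : m.GE g' a y := G.ok.far_ge G.far G.f

/-- the two ends of the rung change places -/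
theorem symm : m.Hd ps T N U W μ sd a x y g' g κ :=
  { G with
    far := G.far.symm, f := G.f', xg := G.xg', xg' := G.xg, sdf := G.ok.far_stem G.far ▸ G.sdf,
    so := G.so', so' := G.so }

theorem ki : κ ≠ m.inf := (G.st.bd1 G.L.wx).ne_inf G.fk.fc.has1
theorem gi : g ≠ m.inf := G.far.2.1
theorem lk : m.ln a x = m.stem κ := (G.ok.lines G.fk G.ki).1
theorem ax : a ≠ x := G.st.ne G.L.wx
theorem ay : a ≠ y := G.st.ne G.L.wy
theorem nxy : ¬ m.Adj x y := G.ok.s1 G.far G.f G.L.gx G.xg G.xg'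

/-- the faces on the rung -/
theorem gg (b : m.On k a y) : k = g ∨ k = g' := G.ok.rung_face G.far G.f b

theorem sy (t : Sg) : sd y t = sd a t := (congrFun G.sdf.th t).symm
theorem sth (c : θ = a ∨ θ = y) (t : Sg) : sd θ t = sd a t := by
  rcases c with rfl | rfl
  exacts [rfl, G.sy t]

theorem nz (c : Zc a x y z) : m.Fe T W 2 z := by
  rcases c with rfl | rfl | rfl
  exacts [G.L.fa.mono (by omega), G.L.fa.wall G.L.wx, G.L.fa.wall G.L.wy]

/-- a near cell has only one rung -/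
theorem nr (r : m.far j j') (f : m.GE j w d) (f' : m.Fc k w p X) (nw : m.Fe T W 8 w)
    (nd : m.Fe T W 8 d) (np : m.Fe T W 8 p) (c : k ≠ j) (c' : k ≠ j') (i : J) : ¬ m.far k i := fun q => by
  obtain rfl := G.r1 w p d (G.L.near _ nw) (G.L.near _ np) (G.L.near _ nd) ⟨k, i, q, f'.ge⟩ ⟨j, j', r, f⟩
  exact (G.ok.rung_face r f f'.on).elim c c'

/-- the other corners of the two halves are good -/
theorem good (c : θ = a ∨ θ = y) (f : m.Fc k θ p X) (w : W θ p) (d : k ≠ g) (d' : k ≠ g') (i : J) :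
    ¬ m.far k i := by
  rcases c with rfl | rfl
  exacts [G.nr G.far G.f f G.L.na (G.L.n1 G.L.wy) (G.L.n1 w) d d' i,
    G.nr G.far G.f.symm f (G.L.n1 G.L.wy) G.L.na (G.L.n2 G.L.wy w) d d' i]

theorem kg : κ ≠ g := fun e => G.L.ne ((e ▸ G.fk : m.GE g a x).fc.unique G.f.fc G.ax).1
theorem kgood (i : J) : ¬ m.far κ i := G.good (.inl rfl) G.fk.fc G.L.wx G.kg G.symm.kg i

/-- `κ` is the only corner between `a` and `x` -/
theorem k_eq (f : m.Fc k a x X) : k = κ := by_contra fun n =>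
  G.kgood k (G.ok.far_of_fc (G.st.bd1 G.L.wx) (Ne.symm n) G.fk.fc f)

theorem hard (f : m.Fc k p q X) (w : W p q) (n : ¬ (m.Sf W k p ∨ m.Sf W k q)) :
    ∃ j, m.far k j ∧ m.Sol W j := by
  by_contra c
  exact n (G.st.sf_open G.ok f w fun j r so => c ⟨j, r, so⟩)

/-- a segment from an open face does not lie on the rung -/
theorem nrl (a₀ : m.Wk ps W t o k) (op : ¬ m.Sol W o) : t ≠ m.stem g := by
  rintro rfl
  obtain ⟨u, v, -, b, c⟩ := a₀.p1
  have : m.On o a y := by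
    rcases G.ok.rung_ln G.far G.f c.1 c.2.1 with ⟨rfl, rfl⟩ | ⟨rfl, rfl⟩
    exacts [b, b.symm]
  rcases G.gg this with rfl | rfl
  exacts [op G.so, op G.so']

/-- (SD) neighbours on different sides of a line touch along this line -/
theorem sdo (n : t ≠ m.stem g) (b : m.OnL u t) (b' : m.OnL v t) (d : sd u t ≠ sd v t)
    (c : m.Adj u v) : m.ln u v = t := G.sdf.one t u v u v n b b' d (.inl rfl) (.inl rfl) c

/-- the wall `a x` lies on a segment only if `κ` is its first or its last face -/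
theorem ax_end (a₀ : m.Wk ps W t o k) (b : m.Sgm ps t o k a x) : t = m.stem κ ∧ (o = κ ∨ k = κ) := by
  have l := b.2.1.symm.trans G.lk
  refine ⟨l, by_contra fun n => ?_⟩
  push Not at n
  exact G.ok.stem_ne κ G.ki (l.symm.trans (G.ord.bar_of_bt a₀.i1 G.ki a₀.i2 a₀.h1 (.inl l.symm) a₀.h2
    (G.ord.bt_of a₀.i1 G.ki a₀.i2 a₀.h1 (.inl l.symm) a₀.h2 (b.2.2 κ G.fk.fc.on).2 n.1.symm
      n.2.symm)).symm)

/-- both corners of a passed face lie on the same side -/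
theorem sd_pas (q : m.Pas ps t o e k p z X) : sd p t = sd z t := q.br ▸ G.sdf.bar k p z X q.ni q.fc

variable [Finite V] [Finite J]

omit [Finite J] in
/-- (F1) at a face of a segment from an open face that does not contain the wall `a x` -/
theorem f1 (a₀ : m.Wk ps W t o k) (op : ¬ m.Sol W o) (n : ¬ m.Sgm ps t o k a x) (f : m.Fc k p q X)
    (sf : m.Sf W k p ∨ m.Sf W k q) : Zc a x y p ∨ Zc a x y q := by
  have so := (G.nc _ _ _ a₀).resolve_left op
  have nr := fun u c => (G.st.seg_near (T := T) (u := u) G.ok G.ord a₀ op so c).mono (e := 8) (by omega)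
  have key : ∀ u v, m.Sgm ps t o k u v → ¬ Pr a x y u v := by
    rintro _ _ b ⟨rfl, rfl | rfl⟩
    exacts [n b, G.nrl a₀ op (b.2.1.symm.trans (G.ok.lines G.f G.gi).1)]
  exact G.L.f1S G.ok f (nr _ f.has1) (nr _ f.has2) sf (G.st.rc_end G.ok G.ord a₀ (.op op)
    fun u v b => .inl (.of (by simp) a₀.h2 b.2.1 (key _ _ b) (key _ _ (b.symm G.ok))))

omit [Finite J] in
/-- (F1) at a face of a segment from an open face other than `κ` -/
theorem f1' (a₀ : m.Wk ps W t o k) (op : ¬ m.Sol W o) (n : o ≠ κ) (f : m.Fc k p q X)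
    (sf : m.Sf W k p ∨ m.Sf W k q) : Zc a x y p ∨ Zc a x y q := by
  by_cases b : m.Sgm ps t o k a x
  · obtain rfl := (G.ax_end a₀ b).2.resolve_left n
    exact .inl ((G.fk.fc.cor_iff.1 f.cor1).imp_right .inl)
  · exact G.f1 a₀ op b f sf

omit [Finite J] in
/-- (F1) at a corner of a ring cell -/
theorem f1b (b : m.Bdy W p) (so : m.Sol W k) (f : m.Fc k p q X) (sf : m.Sf W k p ∨ m.Sf W k q) :
    Zc a x y p ∨ Zc a x y q := by
  have w := (G.st.sol_w G.ok so f).1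
  exact G.L.f1S G.ok f (G.L.b1 G.ok b w) (G.L.b2 G.ok b w) sf (.of_bdy b (by simp) f.has1)

omit [Finite V] in
/-- the ray from an open face along a wall -/
theorem ray0 (w : W u v) (b : m.On o u v) (op : ¬ m.Sol W o) :
    ∃ e, m.Ray ps W (m.ln u v) o e ∧ m.Sgm ps (m.ln u v) o e u v := by
  obtain ⟨e, a₁, c', q⟩ := G.st.ray G.ok G.ord w b
  have so := (G.nc _ _ _ a₁).resolve_left op
  exact ⟨e, ⟨a₁, op, so, q.resolve_left (not_not.2 so)⟩, c'⟩

omit [Finite V] in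
/-- a segment from an open face is the first part of a ray -/
theorem ray (a₀ : m.Wk ps W t o k) (op : ¬ m.Sol W o) :
    ∃ e, m.Ray ps W t o e ∧ (k = e ∨ Bt ps t o k e) := by
  obtain ⟨u, v, w, b, c⟩ := a₀.p1
  obtain ⟨e, r, c'⟩ := G.ray0 w b op
  rw [c.2.1] at r c'
  exact ⟨e, r, HSt.wk_le G.ok G.ord a₀ r.wk r.st c c'⟩

omit [Finite V] in
/-- the first corner of a ring cell on a ray: the end or a landing -/
theorem fst_cor (r : m.Ray ps W t o e) (b : m.On o z u) (c : m.Sgm ps t o e z u) :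
    ∃ k w, m.GE k z w ∧ m.Sol W k ∧ m.Sid ps W z t o k ∧ (k = e ∨ m.Pas ps t o e k z w (m.X k)) := by
  obtain ⟨k, a₁, c', q⟩ := G.st.nxt G.ok G.ord (G.st.wk_w G.ok G.ord r.wk c) b
  rw [c.2.1] at a₁ c'
  have so := (G.nc _ _ _ a₁.wk).resolve_left r.op
  obtain ⟨w, f⟩ := (q.resolve_left (not_not.2 so)).ge
  refine ⟨k, w, f, so, a₁, (HSt.wk_le G.ok G.ord a₁.wk r.wk r.st c' c).imp_right fun bt => ?_⟩
  have br := G.ord.bar_of_bt r.wk.i1 a₁.wk.i2 r.wk.i2 r.wk.h1 a₁.wk.h2 r.wk.h2 bt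
  exact ⟨bt, f.fc, br, G.st.sid_lbar G.ok G.ord a₁ f.fc br⟩

omit [Finite V] in
/-- the next corner of a cell along the bar of a solid corner -/
theorem nxt_bar (so : m.Sol W k) (f : m.Fc k z p X) : ∃ k', m.Sid ps W z (m.bar k) k k' ∧
    m.Sgm ps (m.bar k) k k' z X ∧ (¬ m.Sol W k' ∨ m.cor k' z) := by
  have l := (G.ok.lines f (G.st.sol_inf G.ok so)).2.1
  exact l ▸ G.st.nxt G.ok G.ord (G.st.sol_w G.ok so f).2.1 ⟨f.has1, f.has3⟩

omit [Finite V] in
/-- the outgoing ray of a ring cell at its last corner `k` -/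
theorem out (f : m.GE k v z) (b : m.Sid ps W v (m.bar k) k o) (op : ¬ m.Sol W o) :
    ∃ e, m.Ray ps W (m.bar k) o e ∧ m.Pas ps (m.bar k) o e k v z (m.X k) := by
  obtain ⟨e, r, q⟩ := G.ray b.wk.rev op
  have b' := G.st.sid_rev G.ok G.ord b
  exact ⟨e, r, q.resolve_left fun c => G.ok.stem_ne k b.wk.i1 (c ▸ r.st), f.fc, rfl,
    G.st.sid_lbar G.ok G.ord b' f.fc rfl⟩

omit [Finite V] in
/-- the walk passes the end `k` of a rung; the next corner is not the end of a rung -/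
theorem door (r₀ : m.Ray ps W t o e) (r : m.far k j) (q : m.Pas ps t o e k p z X) :
    ∃ k' w, m.GE k' z w ∧ m.Sol W k' ∧ m.Sid ps W z t k k' ∧ m.Wk ps W t o k' ∧ Bt ps t o k k' ∧
      w ≠ p ∧ (∀ n, ¬ m.far k' n) ∧ (k' = e ∨ m.Pas ps t k e k' z w (m.X k')) := by
  obtain ⟨k', w, f', so, a₁, -, c⟩ := G.st.nxt_cor G.ok G.ord r₀.wk r₀.so r₀.st q
  obtain ⟨a₀, -⟩ := G.st.pas_wk G.ok G.ord r₀.wk q
  have sk := HSt.pas_sol r₀.wk q
  have bt : Bt ps t o k k' := by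
    have := q.bt
    rcases c with rfl | c
    · exact this
    · have := c.bt
      unfold Bt at *
      omega
  have a' := a₀.trans G.ord a₁.wk bt sk
  have c' : k' ≠ j := by
    rintro rfl
    rcases a'.h2 with e | e
    exacts [G.ok.stem_ne k r.2.1 ((G.ok.far_stem r).trans (e.trans q.br.symm)),
      G.ok.far_bar r (q.br.trans e.symm)]
  have n := fun u c => (G.st.seg_near (T := T) (u := u) G.ok G.ord a₀ r₀.op sk c).mono (e := 8) (by omega)
  have n' := fun u c => (G.st.seg_near (T := T) (u := u) G.ok G.ord a' r₀.op so c).mono (e := 8) (by omega)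
  refine ⟨k', w, f', so, a₁, a', bt, ?_, G.nr r q.fc.symm.ge f'.fc (n _ q.fc.has2) (n _ q.fc.has1)
    (n' _ f'.fc.has2) a₁.wk.ne.symm c', c⟩
  rintro rfl
  exact (G.ok.rung_face r q.fc.symm.ge f'.fc.on).elim a₁.wk.ne.symm c'

omit [Finite V] [Finite J] in
/-- the walls of a cell with one corner -/
theorem cov (p : m.II ps W v z k o o') (w : W v u) :
    m.Sgm ps (m.stem k) o k v u ∨ m.Sgm ps (m.bar k) k o' v u :=
  G.st.cover1 G.ok G.ord (G.se v) p.a p.b p.op p.op' p.f.fc.cor1 (G.ok.stem_ne k p.a.wk.i2) w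

omit [Finite V] [Finite J] in
/-- such a cell has no other solid corner -/
theorem only (p : m.II ps W v z k o o') (c : m.cor n v) (so : m.Sol W n) : n = k := by
  obtain ⟨u, f⟩ := c.ge
  rcases G.cov p (G.st.sol_w G.ok so f).1 with b | b
  exacts [HSt.sid_out G.ok G.ord p.a p.op c so f.fc.on b,
    HSt.sid_out G.ok G.ord (G.st.sid_rev G.ok G.ord p.b) p.op' c so f.fc.on b.rev]

omit [Finite V] [Finite J] in
/-- the walls of a cell with two corners -/
theorem covP (p : m.PHI ps W a x y v z z' e k o o') (w : W v u) :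
    m.Sgm ps (m.stem e) o e v u ∨ m.Sgm ps (m.bar e) e k v u ∨ m.Sgm ps (m.bar k) k o' v u :=
  G.st.cover2 G.ok G.ord (G.se v) p.a₀ p.a₁ p.a₂ p.op p.op' p.f.fc.cor1 p.f'.fc.cor1
    (G.ok.stem_ne e p.a₀.wk.i2) (p.st ▸ G.ok.stem_ne k p.a₁.wk.i2) w

omit [Finite V] [Finite J] in
/-- a neutral plan frees a cell with one corner if each of its two sides is lit or removed -/
theorem fr (p : m.II ps W v z k o o') (n : m.Nm T U W μ D M) (vD : v ∉ D)
    (c : (∃ i ∈ M, m.hug i (m.stem k)) ∨ ∀ u, m.Sgm ps (m.stem k) o k v u → u ∈ D)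
    (c' : (∃ i ∈ M, m.hug i (m.bar k)) ∨ ∀ u, m.Sgm ps (m.bar k) k o' v u → u ∈ D) : False := by
  have w₀ := (G.st.sol_w G.ok p.so p.f).1
  refine n.neu.frees (G.st.mem _ _ w₀) vD (G.L.one v (G.L.b1 G.ok p.bdy w₀)) fun u w => ?_
  rcases G.cov p w with b | b
  · rcases c with ⟨i, c, l⟩ | c
    exacts [(G.st.seg_gone G.ok G.ord p.a.wk p.op c l b).resolve_left vD, .inl (c u b)]
  · rcases c' with ⟨i, c, l⟩ | c
    exacts [(G.st.seg_gone G.ok G.ord p.b.wk.rev p.op' c l b.rev).resolve_left vD, .inl (c u b)]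

omit [Finite V] [Finite J] in
/-- the same for a cell with two corners -/
theorem frP (p : m.PHI ps W a x y v z z' e k o o') (n : m.Nm T U W μ D M) (vD : v ∉ D)
    (c : (∃ i ∈ M, m.hug i (m.stem e)) ∨ ∀ u, m.Sgm ps (m.stem e) o e v u → u ∈ D)
    (c₁ : ∀ u, m.Sgm ps (m.bar e) e k v u → u ∈ D)
    (c' : (∃ i ∈ M, m.hug i (m.bar k)) ∨ ∀ u, m.Sgm ps (m.bar k) k o' v u → u ∈ D) : False := by
  have w₀ := (G.st.sol_w G.ok p.so p.f).1
  refine n.neu.frees (G.st.mem _ _ w₀) vD (G.L.one v (G.L.b1 G.ok p.bdy w₀)) fun u w => ?_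
  rcases G.covP p w with b | b | b
  · rcases c with ⟨i, c, l⟩ | c
    exacts [(G.st.seg_gone G.ok G.ord p.a₀.wk p.op c l b).resolve_left vD, .inl (c u b)]
  · exact .inl (c₁ u b)
  · rcases c' with ⟨i, c, l⟩ | c
    exacts [(G.st.seg_gone G.ok G.ord p.a₂.wk.rev p.op' c l b.rev).resolve_left vD, .inl (c u b)]

omit [Finite J] in
/-- one light on a segment from an open face -/
theorem nm1 (a₀ : m.Wk ps W t o k) (op : ¬ m.Sol W o) (f : m.Fc k p q X)
    (sf : m.Sf W k p ∨ m.Sf W k q) : m.Nm T U W μ {p, q} {k} := by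
  have so := (G.nc _ _ _ a₀).resolve_left op
  have n := fun u c => (G.st.seg_near (T := T) (u := u) G.ok G.ord a₀ op so c).mono (e := 8) (by omega)
  have rc := G.st.seg_rc (T := T) (D := {p, q}) (M := {k}) G.ok G.ord a₀ op (by simp) a₀.h2
  exact ⟨G.L.neuS G.ok f (n _ f.has1) (n _ f.has2) sf rc, by simpa using ⟨⟨k, f.has1, rc⟩, k, f.has2, rc⟩⟩

omit [Finite J] in
/-- two lights on segments from open faces -/
theorem nmS [DecidableEq J] (a₀ : m.Wk ps W t o k) (op : ¬ m.Sol W o) (a₁ : m.Wk ps W t' o' k')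
    (op' : ¬ m.Sol W o') (f : m.Fc k p q X) (f' : m.Fc k' u v X') (d1 : p ≠ u) (d2 : p ≠ v)
    (d3 : q ≠ u) (d4 : q ≠ v) (sf : m.Sq W k u v k') (sf' : m.Sq W k' p q k) :
    m.Nm T U W μ {p, q, u, v} {k, k'} := by
  have so := (G.nc _ _ _ a₀).resolve_left op
  have so' := (G.nc _ _ _ a₁).resolve_left op'
  have n := fun u c => (G.st.seg_near (T := T) (u := u) G.ok G.ord a₀ op so c).mono (e := 8) (by omega)
  have n' := fun u c => (G.st.seg_near (T := T) (u := u) G.ok G.ord a₁ op' so' c).mono (e := 8) (by omega)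
  exact G.L.nmQ G.ok f f' d1 d2 d3 d4 (n _ f.has1) (n _ f.has2) (n' _ f'.has1) (n' _ f'.has2) sf sf'
    (G.st.seg_rc G.ok G.ord a₀ op (by simp) a₀.h2) (G.st.seg_rc G.ok G.ord a₁ op' (by simp) a₁.h2)

omit [Finite J] in
/-- a light on a segment from an open face and a light at a corner of a ring cell `u` -/
theorem nmB [DecidableEq J] (a₀ : m.Wk ps W t o k) (op : ¬ m.Sol W o) (bu : m.Bdy W u)
    (so' : m.Sol W k') (f : m.Fc k p q X) (f' : m.Fc k' u v X') (d1 : p ≠ u) (d2 : p ≠ v)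
    (d3 : q ≠ u) (d4 : q ≠ v) (sf : m.Sq W k u v k') (sf' : m.Sq W k' p q k) :
    m.Nm T U W μ {p, q, u, v} {k, k'} := by
  have so := (G.nc _ _ _ a₀).resolve_left op
  have w := (G.st.sol_w G.ok so' f').1
  have n := fun u c => (G.st.seg_near (T := T) (u := u) G.ok G.ord a₀ op so c).mono (e := 8) (by omega)
  exact G.L.nmQ G.ok f f' d1 d2 d3 d4 (n _ f.has1) (n _ f.has2) (G.L.b1 G.ok bu w) (G.L.b2 G.ok bu w)
    sf sf' (G.st.seg_rc G.ok G.ord a₀ op (by simp) a₀.h2) (.of_bdy bu (by simp) f'.has1)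

omit [Finite J] in
/-- (W0) lights on the two lines of a cell with one corner free it -/
theorem w0 (p' : m.II ps W c' z' k' o₁ o₂) (a₀ : m.Wk ps W (m.stem k') o₁ i)
    (a₁ : m.Wk ps W (m.bar k') o₂ n) (f : m.Fc i p q X) (f' : m.Fc n u v X') (di : i ≠ k')
    (dn : n ≠ k') (d1 : p ≠ u) (d2 : p ≠ v) (d3 : q ≠ u) (d4 : q ≠ v) (sf : m.Sq W i u v n)
    (sf' : m.Sq W n p q i) : False := by
  classical
  have so := (G.nc _ _ _ a₀).resolve_left p'.op
  have so' := (G.nc _ _ _ a₁).resolve_left p'.op'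
  refine G.fr p' (G.nmS a₀ p'.op a₁ p'.op' f f' d1 d2 d3 d4 sf sf') (fun e => ?_)
    (.inl ⟨i, by simp, a₀.h2⟩) (.inl ⟨n, by simp, a₁.h2⟩)
  simp only [Finset.mem_insert, Finset.mem_singleton] at e
  rcases e with rfl | rfl | rfl | rfl
  exacts [di (G.only p' f.cor1 so), di (G.only p' f.cor2 so), dn (G.only p' f'.cor1 so'),
    dn (G.only p' f'.cor2 so')]

omit [Finite V] [Finite J] in
/-- the cell of a type lies on every wall of the ray -/
theorem sid_fst (a₁ : m.Sid ps W v t o e) (c : m.Sgm ps t o e z u) (d : v ≠ z) :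
    v = u := (G.st.sid_row G.ok G.ord a₁ c).elim (fun e => absurd e.symm d) Eq.symm

omit [Finite V] [Finite J] in
/-- a cell with two corners whose first side meets one of the two halves -/
theorem phi_a (p : m.PHI ps W a x y v z z' e k o o') (hv : ¬ Zc a x y v)
    (c : θ = a ∨ θ = y) (b : m.Sgm ps (m.stem e) o e v θ) : z = a ∧ z' = x := by
  have h := G.ok
  have ei := p.a₀.wk.i2
  have l := (h.lines p.f' p.a₁.wk.i2).1.trans p.st
  have key : ∀ z', z' = a ∨ z' = y → m.Adj v z' → m.ln v z' = m.stem e := fun z' c' q =>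
    G.sdf.one _ v θ v z' (G.nrl p.a₀.wk p.op) b.onL (b.symm h).onL
      (G.sdf.sgm (G.nrl p.a₀.wk p.op) b) (.inl rfl) (by unfold Th2; grind) q
  have zx : z' = x := by_contra fun n => h.stem_ne e ei
    ((key z' (by have := p.zz; unfold Zc at this; tauto) (h.adj12 p.f'.fc)).symm.trans l)
  refine ⟨?_, zx⟩
  have h1 := p.f.fc.has_iff.1 p.on.1
  have h2 := p.f.fc.has_iff.1 p.on.2
  have := p.ne
  have := G.ax
  unfold Zc at hv
  grind

omit [Finite V] in
/-- the next corner behind the single corner of a ring cell -/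
theorem ii_nxt (p : m.II ps W v z e o o') : ∃ e' k w, m.Ray ps W (m.bar e) o' e' ∧ m.GE k z w ∧
    m.Sol W k ∧ m.Sid ps W z (m.bar e) e k ∧ m.Wk ps W (m.bar e) o' k ∧ w ≠ v ∧
    (k = e' ∨ m.Pas ps (m.bar e) o' e' k z w (m.X k)) := by
  obtain ⟨e', r, q⟩ := G.out p.f p.b p.op'
  obtain ⟨k, w, f, so, a₁, -, c⟩ := G.st.nxt_cor G.ok G.ord r.wk r.so r.st q
  have bt : Bt ps (m.bar e) o' e k := by
    have := q.bt
    rcases c with rfl | c
    · exact this
    · have := c.bt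
      unfold Bt at *
      omega
  refine ⟨e', k, w, r, f, so, a₁, p.b.wk.rev.trans G.ord a₁.wk bt p.so, ?_, c.imp_right (·.tail q.bt)⟩
  rintro rfl
  exact a₁.wk.ne (G.only p f.fc.cor2 so).symm

omit [Finite J] in
/-- a light at `κ` and a light at a good corner of `y` on a segment from an open face -/
theorem nmK [DecidableEq J] (ba : m.Bdy W a) (a₀ : m.Wk ps W t o k) (op : ¬ m.Sol W o)
    (f : m.GE k y w) (d : w ≠ a) (n : ∀ j, ¬ m.far k j) : m.Nm T U W μ {y, w, a, x} {k, κ} := by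
  have so := (G.nc _ _ _ a₀).resolve_left op
  have nr := fun u c => (G.st.seg_near (T := T) (u := u) G.ok G.ord a₀ op so c).mono (e := 8) (by omega)
  exact G.L.nmQ G.ok f.fc G.fk.fc G.ay.symm G.L.ne.symm d
    (fun e => G.nxy (e ▸ (G.ok.adj12 f.fc).symm)) (nr _ f.fc.has1) (nr _ f.fc.has2) G.L.na
    (G.L.n1 G.L.wx) (.of_not n) (.of_not G.kgood) (G.st.seg_rc G.ok G.ord a₀ op (by simp) a₀.h2)
    (.of_bdy ba (by simp) G.fk.fc.has1)

end Hd

theorem TyC.hd [DecidableEq V] (G : m.TyC ps T N U W μ a x y g g' κ) :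
    ∃ sd, m.Hd ps T N U W μ sd a x y g g' κ :=
  let ⟨sd, s⟩ := G.sd
  ⟨sd, G.L, G.ok, G.ex, G.ord, G.nc, G.se, G.r1, G.far, G.f, G.fk, G.xg, G.xg', s, G.so, G.so'⟩

namespace TyC

variable [DecidableEq V] [Finite V] [Finite J] (C : m.TyC ps T N U W μ a x y g g' κ) (H : m.Ok3)
include C H

/-- the first corner of `a` is the end `g` of the rung -/
theorem hb_door (R : m.Ray ps W t o e) (ek : e ≠ κ) (ok : m.stem κ = t → o ≠ κ)
    (s₀ : m.Sid ps W a t o g) (q : m.Pas ps t o e g a y X) : False := by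
  classical
  obtain ⟨sd, G⟩ := C.hd
  have h := G.ok
  have st := G.st
  have r := G.ord
  have ba : m.Bdy W a := let ⟨_, b, _⟩ := s₀.fst; ⟨o, b.1, R.op⟩
  obtain ⟨k, w, f, so, s₁, a₁, bt, wa, nr, c⟩ := G.door R G.far q
  have wz : ¬ Zc a x y w := by
    rintro (e | e | e)
    exacts [wa e, G.nxy (e ▸ (h.adj12 f.fc).symm), (h.fc_ne f.fc).1 e.symm]
  rcases c with rfl | c
  swap
  · exact C.lx0 R (c.tail q.bt) (.inr rfl) wz fun _ => C.type' H R ek ok
  obtain ⟨v, z, vz, zz, c⟩ := C.type' H R ek ok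
  have key : ∀ {v z}, ¬ Zc a x y v → m.GE k v z → v = w ∧ z = y := fun {v z} vz f' => by
    have := f.fc.cor_iff.1 f'.fc.cor1
    have := f.fc.cor_iff.1 f'.fc.cor2
    have := (h.fc_ne f'.fc).1
    unfold Zc at vz
    grind
  obtain rfl := R.st
  rcases c with ⟨o', p⟩ | ⟨z', k', o', p⟩
  swap
  · obtain ⟨rfl, rfl⟩ := key vz p.f
    have := p.f.fc.has_iff.1 p.on.1
    have := p.f.fc.has_iff.1 p.on.2
    have := G.ax
    have := G.ay
    have := G.L.ne
    unfold Zc at vz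
    grind
  obtain ⟨rfl, rfl⟩ := key vz p.f
  obtain ⟨e', k₂, w₂, R', f₂, so₂, s₂, a₂, wv, -⟩ := G.ii_nxt p
  by_cases c' : k₂ = g'
  · exact C.symm.tt (fun _ _ _ => C.type H) p vz bt q.br (c' ▸ s₂)
  have c : k₂ ≠ g := by
    rintro rfl
    exact a₂.h2.elim (G.nrl a₂ p.op').symm fun e => h.stem_ne k R.wk.i2 (q.br.symm.trans e)
  have va : v ≠ a := fun e => vz (.inl e)
  have vy : v ≠ z := fun e => vz (.inr (.inr e))
  have vx : v ≠ x := fun e => vz (.inr (.inl e))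
  refine G.fr p (G.nmK ba a₂ p.op' f₂ (fun e => (G.gg (e ▸ f₂.fc.on).symm).elim c c')
    (G.good (.inr rfl) f₂.fc (st.sol_w h so₂ f₂).1 c c')) (by simp [va, vx, vy, wv.symm])
    (.inr fun u b => ?_) (.inl ⟨k₂, by simp, a₂.h2⟩)
  rcases b.split h r g with b | b
  · simp [st.sid_two h r s₀ b va]
  · simp [st.sid_two h r s₁ b vy]

/-- every ring wall of `a` leads to the wall `a x` -/
theorem hb_end (ww : W a w) (on : m.On o a w) (op : ¬ m.Sol W o) : m.Kend ps W a x κ o w := by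
  classical
  obtain ⟨sd, G⟩ := C.hd
  have h := G.ok
  have st := G.st
  have r := G.ord
  have ba : m.Bdy W a := ⟨o, on.1, op⟩
  obtain ⟨e, R, b⟩ := G.ray0 ww on op
  obtain ⟨k, q, f, so, s₀, c⟩ := G.fst_cor R on b
  have b₀ : m.Sgm ps (m.ln a w) o k a w := by
    obtain ⟨u, on', b'⟩ := s₀.fst
    have b'' : m.Sgm ps (m.ln a w) o e a u := by
      rcases c with rfl | c
      exacts [b', b'.mono c.bt.bw]
    rcases st.wk_first h r R.wk ww on b on' b'' with ⟨-, rfl⟩ | ⟨e, -⟩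
    exacts [b', absurd e (st.ne ww)]
  by_cases kκ : k = κ
  · exact .inr ⟨k, s₀, b₀, so, .inl kκ⟩
  by_cases c₀ : o = κ ∧ w = x
  · exact .inl c₀
  have ok : m.stem κ = m.ln a w → o ≠ κ := fun l e => c₀ ⟨e, (HSt.cor_piece h G.ki G.fk.fc.cor1 (e ▸ on)
    G.fk.fc.on (st.ne ww) G.ax (l.symm.trans G.lk.symm))⟩
  have ek : e ≠ κ := by
    rintro rfl
    exact kκ (HSt.sid_uniq h r s₀ ⟨R.wk, ⟨w, on, b⟩, h.tc_cor G.ki G.fk.fc.cor1 R.wk.h2⟩ b₀ b
      (.inr f.fc.cor1) (.inr G.fk.fc.cor1))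
  have nl := G.nrl R.wk op
  by_cases qy : q = y
  · subst qy
    rcases G.gg f.fc.on with rfl | rfl
    · exact (C.hb_door H R ek ok s₀ (c.resolve_left fun e => nl (R.st.symm.trans (by rw [e])))).elim
    · exact (C.symm.hb_door H R ek ok s₀ (c.resolve_left fun e =>
        G.symm.nrl R.wk op (R.st.symm.trans (by rw [e])))).elim
  have qz : ¬ Zc a x y q := by
    rintro (e | e | e)
    exacts [(h.fc_ne f.fc).1 e.symm, kκ (G.k_eq (e ▸ f.fc)), qy e]
  rcases c with rfl | c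
  swap
  · exact (C.lx0 R c (.inl rfl) qz fun _ => C.type' H R ek ok).elim
  obtain ⟨v, z, vz, zz, c⟩ := C.type' H R ek ok
  have key : ∀ {v z}, ¬ Zc a x y v → m.GE k v z → z = a := fun {v z} vz f' => by
    have := f.fc.cor_iff.1 f'.fc.cor1
    have := f.fc.cor_iff.1 f'.fc.cor2
    have := (h.fc_ne f'.fc).1
    unfold Zc at vz
    grind
  rcases c with ⟨o', p⟩ | ⟨z', k', o', p⟩ <;> obtain rfl := key vz p.f
  swap
  · exact .inr ⟨k, s₀, b₀, so, .inr ⟨v, (C.t3_phi p vz).1 ▸ p.f.fc.symm, R.st⟩⟩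
  exfalso
  have va : v ≠ z := fun e => vz (.inl e)
  have vy : v ≠ y := fun e => vz (.inr (.inr e))
  have vx : v ≠ x := fun e => vz (.inr (.inl e))
  have c₁ : ∀ u, m.Sgm ps (m.stem k) o k v u → u = z := fun u b => st.sid_two h r (R.st ▸ s₀) b va
  obtain ⟨e', k₂, w₂, R', f₂, so₂, s₂, a₂, wv, c⟩ := G.ii_nxt p
  by_cases wy : w₂ = y
  · subst wy
    obtain ⟨j, fr, nl'⟩ : ∃ j, m.far k₂ j ∧ m.bar k ≠ m.stem k₂ := by
      rcases G.gg f₂.fc.on with rfl | rfl
      exacts [⟨_, G.far, G.nrl a₂ p.op'⟩, ⟨_, G.far.symm, G.symm.nrl a₂ p.op'⟩]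
    obtain ⟨k₃, w₃, f₃, so₃, -, a₃, bt, wa, nr, -⟩ := G.door R' fr
      (c.resolve_left fun e => nl' (R'.st.symm.trans (by rw [e])))
    have : v ≠ w₃ := by
      rintro rfl
      obtain rfl := G.only p f₃.fc.cor2 so₃
      exact G.ay (f₃.fc.symm.unique p.f.fc vy).1.symm
    exact G.fr p (G.nmK ba a₃ p.op' f₃ wa nr) (by simp [*]) (.inr fun u b => by simp [c₁ u b])
      (.inl ⟨k₃, by simp, a₃.h2⟩)
  · have c : ∀ {g}, m.GE g z y → k₂ ≠ g := fun b e =>
      wy (f₂.fc.unique (e ▸ b).fc (h.fc_ne f₂.fc).1).1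
    exact G.fr p (G.nm1 a₂ p.op' f₂.fc (.inl (.of_not (G.good (.inl rfl) f₂.fc (st.sol_w h so₂ f₂).1
      (c G.f) (c G.f'))))) (by simp [va, wv.symm]) (.inr fun u b => by simp [c₁ u b])
      (.inl ⟨k₂, by simp, a₂.h2⟩)

/-- (Ha) the centre is not a ring cell -/
theorem hb : ¬ m.Bdy W a := fun b => by
  have h := C.ok
  have st := C.st
  obtain ⟨w, ww, o, on, op⟩ := st.bdy_out h b C.L.wx
  obtain ⟨i, -, oi, si, -⟩ := st.nocut_face h C.ord C.nc ww on op
  obtain ⟨w', o', -, d, ww', on', op', -⟩ := HSt.other_out h on oi (st.ne ww) op si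
  exact st.kk h C.ord (C.se a) C.far C.f C.so C.so' C.fk C.L.wx C.L.ne on on' op op' d.symm
    (C.hb_end H ww on op) (C.hb_end H ww' on' op')

end TyC

end Map

end Pool.Agent.P.MP_5f84aa_co.G
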