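import Pool.Agent.P.MP_5f84aa_co.G.LG3a
import Pool.Agent.P.MP_5f84aa_co.G.LR1a

/-! Type GR, interior rung: two ring cells with one corner each and different cells of the zone. -/

namespace Pool.Agent.P.MP_5f84aa_co.G

namespace Map

variable {V J Sg : Type}

/-- a light at `k` can be reached from the open faces -/
def Rch (m : Map V J Sg) (ps : J → Sg → ℤ) (W : V → V → Prop) (k : J) : Prop :=
  (∃ t o, m.Wk ps W t o k ∧ ¬ m.Sol W o) ∨ ∃ p, m.cor k p ∧ m.Bdy W p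

/-- the context: a rung `a y` of two interior cells -/
structure Ia [DecidableEq V] (m : Map V J Sg) (ps : J → Sg → ℤ) (T : Set Sg) (N : V → Prop)
    (U : Finset V) (W : V → V → Prop) (μ : V → ℕ) (a x y : V) (g g' : J) : Prop where
  L : m.Loc T N U W μ a x y
  ok : m.Ok
  ext : m.Ext
  ord : m.Ord ps
  nc : m.NoCut ps W
  se : ∀ v, m.Sect W v
  r1 : ∀ b u v, N b → N u → N v → m.Rn b u → m.Rn b v → u = v
  far : m.far g g'
  f : m.GE g a y
  xg : x ≠ m.X g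
  xg' : x ≠ m.X g'
  ia : ¬ m.Bdy W a
  iy : ¬ m.Bdy W y

/-- two ring cells with one solid corner each: the run from `o` passes `k` and ends at `k'` -/
structure Tw (m : Map V J Sg) (ps : J → Sg → ℤ) (W : V → V → Prop) (c c' z z' : V) (o o' k k' : J) :
    Prop where
  f : m.Fc k c z c'
  f' : m.GE k' c' z'
  so : m.Sol W k
  so' : m.Sol W k'
  op : ¬ m.Sol W o
  op' : ¬ m.Sol W o'
  s0 : m.Sid ps W c (m.stem k') o k
  s1 : m.Sid ps W c' (m.stem k') o k'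
  s2 : m.Sid ps W c' (m.bar k') o' k'
  bt : Bt ps (m.stem k') o k k'
  on : ∀ n, m.cor n c → m.Sol W n → n = k
  on' : ∀ n, m.cor n c' → m.Sol W n → n = k'

variable {m : Map V J Sg} {ps : J → Sg → ℤ} {t : Sg} {T : Set Sg} {N : V → Prop}
  {U D : Finset V} {W : V → V → Prop} {μ : V → ℕ}
  {a c c' p q u v w x y z z' X X' : V} {e g g' i j j' k k' n o o' : J}

theorem HSt.orient (h : m.Ok) (st : m.HSt U W) (so : m.Sol W k) (f : m.Fc k p q X) {A : V → Prop}
    (sf : ∀ j, m.far k j → m.Sol W j → A (m.X j)) : ∃ p' q', m.Fc k p' q' X ∧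
      ((p' = p ∧ q' = q) ∨ (p' = q ∧ q' = p)) ∧ ∀ j, m.far k j → W p' (m.X j) → A (m.X j) := by
  by_cases c : m.Sfe W k
  · rcases st.sf_or h so f c with s | s
    exacts [⟨p, q, f, .inl ⟨rfl, rfl⟩, fun j r w => absurd w (s j r)⟩,
      ⟨q, p, f.symm, .inr ⟨rfl, rfl⟩, fun j r w => absurd w (s j r)⟩]
  · refine ⟨p, q, f, .inl ⟨rfl, rfl⟩, fun j r _ => sf j r (by_contra fun n => c fun j' r' => ?_)⟩
    exact h.far_unique r r' ▸ n

namespace Loc

variable [DecidableEq V] [Finite V] (L : m.Loc T N U W μ a x y) (h : m.Ok) (r : m.Ord ps)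
include L h r

omit [Finite V] in
theorem rch_near (so : m.Sol W k) (c : m.Rch ps W k) (b : m.has k u) : m.Fe T W 1 u := by
  rcases c with ⟨t, o, s, op⟩ | ⟨p, c, bp⟩
  · exact L.st.seg_near h r s op so b
  · obtain ⟨q, f⟩ := c.ge
    have f0 := L.b0 h bp (L.st.sol_w h so f).1
    by_cases e : p = u
    exacts [e ▸ .inl f0, f0.wall (so p u e ⟨c.has, b⟩)]

/-- two lights free a cell -/
theorem free2 (f : m.Fc k p q X) (f' : m.Fc k' u v X') (so : m.Sol W k) (so' : m.Sol W k')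
    (d1 : p ≠ u) (d2 : p ≠ v) (d3 : q ≠ u) (d4 : q ≠ v)
    (sf : ∀ j, m.far k j → m.Sol W j → m.X j = u ∨ m.X j = v)
    (sf' : ∀ j, m.far k' j → m.Sol W j → m.X j = p ∨ m.X j = q)
    (rc : m.Rch ps W k) (rc' : m.Rch ps W k') (wU : w ∈ U) (nw : m.Fe T W 8 w)
    (n1 : w ≠ p) (n2 : w ≠ q) (n3 : w ≠ u) (n4 : w ≠ v)
    (al : ∀ s, W w s → s = p ∨ s = q ∨ s = u ∨ s = v ∨ ∃ t o j, m.Wk ps W t o j ∧ ¬ m.Sol W o ∧
      (m.hug k t ∨ m.hug k' t) ∧ m.Sgm ps t o j w s) : False := by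
  classical
  have st := L.st
  obtain ⟨p', q', g, e, s⟩ := st.orient h so f (A := fun z => z = u ∨ z = v) sf
  obtain ⟨u', v', g', e', s'⟩ := st.orient h so' f' (A := fun z => z = p ∨ z = q) sf'
  have key : ∀ i ∈ ({k, k'} : Finset J), (∀ p, m.cor i p → p ∈ ({p', q', u', v'} : Finset V)) →
      m.Rch ps W i → m.Rc W {p', q', u', v'} (m.Hgd T {k, k'} No) i := by
    rintro i c b (⟨t, o, s, op⟩ | ⟨p, c', bp⟩)
    exacts [st.seg_rc h r s op c s.h2, .of_bdy bp (b p c') c'.has]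
  have nr : ∀ i u, m.Sol W i → m.Rch ps W i → m.has i u → m.Fe T W 8 u := fun i u so c b =>
    (L.rch_near h r so c b).mono (by omega)
  have wD : w ∉ ({p', q', u', v'} : Finset V) := by
    simp only [Finset.mem_insert, Finset.mem_singleton]; grind
  refine (L.neu2 h g g' (by grind) (by grind) (by grind) (by grind) (nr _ _ so rc g.has1)
    (nr _ _ so rc g.has2) (nr _ _ so' rc' g'.has1) (nr _ _ so' rc' g'.has2)
    (fun j a b => by have := s j a b; grind) (fun j a b => by have := s' j a b; grind)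
    (key k (by simp) (fun p c => by have := g.cor_iff.1 c; simp; grind) rc)
    (key k' (by simp) (fun p c => by have := g'.cor_iff.1 c; simp; grind) rc')).frees wU wD
    (L.one w nw) fun s ws => ?_
  rcases al s ws with c | c | c | c | ⟨t, o, j, a1, a2, a3 | a3, a4⟩
  rotate_left 4
  · exact (st.seg_gone h r a1 a2 (k := k) (by simp) a3 a4).resolve_left wD
  · exact (st.seg_gone h r a1 a2 (k := k') (by simp) a3 a4).resolve_left wD
  all_goals
    left
    simp only [Finset.mem_insert, Finset.mem_singleton]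
    grind

end Loc

namespace Tw

variable (h : m.Ok) (st : m.HSt U W) (r : m.Ord ps) (B : m.Tw ps W c c' z z' o o' k k')
include B

theorem bd : m.Bdy W c := let ⟨_, _, q, _⟩ := B.s0.tc; ⟨o, q.1, B.op⟩
theorem bd' : m.Bdy W c' := let ⟨_, _, q, _⟩ := B.s1.tc; ⟨o, q.1, B.op⟩
theorem ne : k ≠ k' := fun e => by have := B.bt; rw [e] at this; unfold Bt at this; omega
theorem sf : m.Sfe W k := fun j r so => r.1 (B.on j ((r.2.2.2 c).1 B.f.cor1) so).symm

include r in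
theorem bar : m.bar k = m.stem k' := (HSt.sid_flat r B.s1 B.s0.wk.i2 B.s0.wk.h2 B.bt).2

include h st r in
/-- a cell across the first run enters at a landing -/
theorem entry [Finite J] (s : m.Wk ps W (m.stem k') o j) (bw : Bw ps (m.stem k') o j k')
    (b : m.Sgm ps (m.stem k') o j u v) (uc : u ≠ c) (uc' : u ≠ c') :
    ∃ i p, Bt ps (m.stem k') o i j ∧ m.Wk ps W (m.stem k') o i ∧ m.Fc i p u c' ∧
      m.Sgm ps (m.stem k') o i p c' ∧ m.bar i = m.stem k' ∧ m.Sol W i := by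
  obtain ⟨i, p, X, a1, a2, a3, a4⟩ := st.enter h r s b fun v q b' => by
    obtain ⟨w, q', b''⟩ := B.s0.fst
    have b3 := b''.mono B.bt.bw
    have := st.wk_first h r B.s1.wk (st.wk_w h r B.s1.wk b3) q' b3 q (b'.mono bw)
    have := st.sid_row h r B.s1 b3
    have := st.sid_row h r B.s1 (b'.mono bw)
    have := (h.fc_ne B.f).2.1
    grind
  obtain ⟨e1, e2⟩ := HSt.sid_flat r B.s1 a2.i2 a2.h2 (by unfold Bt Bw at *; omega)
  obtain rfl := a3.2.symm.trans e1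
  exact ⟨i, p, a1, a2, a3, a4, e2, s.sol i a2.i2 a2.h2 a1⟩

end Tw

namespace Ia

variable [DecidableEq V] [Finite V] [Finite J] (G : m.Ia ps T N U W μ a x y g g')
include G

omit [Finite V] [Finite J]

theorem symm : m.Ia ps T N U W μ a x y g' g :=
  { G with far := G.far.symm, f := G.ok.far_ge G.far G.f, xg := G.xg', xg' := G.xg }

theorem nxy : ¬ m.Adj x y := fun q =>
  (G.ok.rung_adj G.far G.f (G.L.st.adj _ _ G.L.wx).symm q).elim G.xg G.xg'

/-- a near cell has only one rung -/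
theorem one {d : ℕ} (r : m.far j j') (f : m.GE j w p) (so : m.Sol W j) (r' : m.far k k')
    (f' : m.GE k w q) (so' : m.Sol W k) (nw : m.Fe T W d w) (l : d ≤ 7) : q = p ∧ (k = j ∨ k = j') := by
  obtain rfl := G.r1 w q p (G.L.near _ (nw.mono (by omega)))
    (G.L.near _ ((nw.wall (G.L.st.sol_w G.ok so' f').1).mono (by omega)))
    (G.L.near _ ((nw.wall (G.L.st.sol_w G.ok so f).1).mono (by omega))) ⟨k, k', r', f'⟩ ⟨j, j', r, f⟩
  exact ⟨rfl, G.ok.rung_face r f f'.fc.on⟩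

theorem sa (c : m.has j a) : m.Sol W j := by_contra fun n => G.ia ⟨j, c, n⟩

theorem ra (r : m.far j j') (f : m.GE j a p) : p = y ∧ (j = g ∨ j = g') :=
  G.one G.far G.f (G.sa G.f.fc.has1) r f (G.sa f.fc.has1) G.L.fa (by omega)

theorem ry (r : m.far j j') (f : m.GE j y p) (so : m.Sol W j) : p = a ∧ (j = g ∨ j = g') :=
  G.one G.far G.f.symm (G.sa G.f.fc.has1) r f so (G.L.fa.wall G.L.wy) (by omega)

theorem kap (f : m.GE j a x) (f' : m.GE k a x) : j = k := by_contra fun n =>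
  G.L.ne (G.ra (G.ok.far_of_fc (G.L.st.bd1 G.L.wx) n f f') f).1

end Ia

namespace Ia

variable [DecidableEq V] [Finite V] [Finite J] (G : m.Ia ps T N U W μ a x y g g')
  (B : m.Tw ps W c c' z z' o o' k k')
include G B

omit [Finite V] [Finite J] in
theorem no2 (ii : i ≠ m.inf) (b : m.bar i = m.stem k') : ¬ m.hug i (m.bar k') := fun q =>
  q.elim (fun q => G.ext.no2 i k' ii B.s1.wk.i2 q b) fun q =>
    G.ok.stem_ne k' B.s1.wk.i2 (b.symm.trans q)

omit [Finite V] [Finite J] in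
theorem cov (w : W c' u) : m.Sgm ps (m.stem k') o k' c' u ∨ m.Sgm ps (m.bar k') o' k' c' u :=
  (G.L.st.cover1 G.ok G.ord (G.se c') B.s1 (G.L.st.sid_rev G.ok G.ord B.s2) B.op B.op' B.f'.fc.cor1
    (G.ok.stem_ne k' B.s1.wk.i2) w).imp_right Sgm.rev

/-- (W0) a light on each run -/
theorem w0 (f : m.Fc i p q X) (s : m.Wk ps W (m.stem k') o i) (d : i ≠ k') (f' : m.Fc j u v X')
    (s' : m.Wk ps W (m.bar k') o' j) (d' : j ≠ k') (d1 : p ≠ u) (d2 : p ≠ v) (d3 : q ≠ u) (d4 : q ≠ v)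
    (sf : ∀ n, m.far i n → m.Sol W n → m.X n = u ∨ m.X n = v)
    (sf' : ∀ n, m.far j n → m.Sol W n → m.X n = p ∨ m.X n = q) : False := by
  have so := (G.nc _ _ _ s).resolve_left B.op
  have so' := (G.nc _ _ _ s').resolve_left B.op'
  have w := (G.L.st.sol_w G.ok B.so' B.f').1
  exact G.L.free2 G.ok G.ord f f' so so' d1 d2 d3 d4 sf sf' (.inl ⟨_, _, s, B.op⟩)
    (.inl ⟨_, _, s', B.op'⟩) (G.L.st.mem _ _ w) (G.L.b1 G.ok B.bd' w)
    (fun e => d (B.on' i (e ▸ f.cor1) so)) (fun e => d (B.on' i (e ▸ f.cor2) so))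
    (fun e => d' (B.on' j (e ▸ f'.cor1) so')) (fun e => d' (B.on' j (e ▸ f'.cor2) so'))
    fun n w => .inr (.inr (.inr (.inr ((G.cov B w).elim (fun q => ⟨_, _, _, B.s1.wk, B.op, .inl s.h2, q⟩)
      fun q => ⟨_, _, _, B.s2.wk, B.op', .inr s'.h2, q⟩))))

theorem w0k (f' : m.Fc j u v X') (s' : m.Wk ps W (m.bar k') o' j) (d' : j ≠ k')
    (sf' : ∀ n, m.far j n → m.Sol W n → m.X n = z) : u = z ∨ v = z := by
  by_contra q
  have so' := (G.nc _ _ _ s').resolve_left B.op'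
  have : ¬ m.cor j c := fun e => G.no2 B B.s0.wk.i2 (B.bar G.ord) (B.on j e so' ▸ s'.h2)
  exact G.w0 B B.f B.s0.wk B.ne f' s' d' (fun e => this (e ▸ f'.cor1)) (fun e => this (e ▸ f'.cor2))
    (fun e => q (.inl e.symm)) (fun e => q (.inr e.symm)) (fun n a b => absurd b (B.sf n a))
    fun n a b => .inr (sf' n a b)

/-- the end of the second run -/
theorem fin : ∃ e q, m.Wk ps W (m.bar k') o' e ∧ m.stem e = m.bar k' ∧ Bt ps (m.bar k') o' k' e ∧
    m.GE e z q ∧ ∀ i p u, m.Fc i p u c' → m.Wk ps W (m.stem k') o i → m.bar i = m.stem k' →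
      (∀ n, m.far i n → m.Sol W n → m.X n = z) → p = z ∨ u = z := by
  have h := G.ok
  have st := G.L.st
  have r := G.ord
  have ki := B.s1.wk.i2
  obtain ⟨k1, k2, k3, k4⟩ := h.lines B.f' ki
  obtain ⟨-, w2, w3⟩ := st.sol_w h B.so' B.f'
  obtain ⟨e, s, b1, c1⟩ := st.ray h r w3 ⟨B.f'.fc.has2, B.f'.fc.has3⟩
  rw [k3] at s b1 c1
  obtain ⟨bt, s'⟩ := st.wk_join h r B.s2.wk B.so' B.f' (HSt.sid_cor h (st.sid_rev h r B.s2)
    B.f'.fc.cor1 ⟨B.f'.fc.has1, B.f'.fc.has3⟩ (st.ne w2) k2).rev s b1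
  have se := c1.resolve_left (not_not.2 ((G.nc _ _ _ s').resolve_left B.op'))
  have nf : ∀ n, ¬ m.far e n := fun n q => h.far_not_bar q ki se
  obtain ⟨q, ge⟩ : ∃ q, m.GE e z q := by
    rcases G.w0k B (fc_self e) s' s.ne.symm fun n q => absurd q (nf n) with q | q
    exacts [⟨_, q ▸ fc_self e⟩, ⟨_, q ▸ (fc_self e).symm⟩]
  refine ⟨e, q, s', se, bt, ge, fun i p u f si bi sf => by_contra fun n => ?_⟩
  obtain ⟨sd, s1, -, s3⟩ := G.ext.sides
  have key : ∀ v, m.Adj c' v → m.ln c' v = m.stem k' → ∀ v', m.Adj v v' → m.ln v v' = m.bar k' →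
      sd c' (m.bar k') = sd v (m.bar k') := fun v a1 a2 v' a3 a4 => by_contra fun n =>
    k4 (a2.symm.trans ((s3 c' _ v v' (h.adj13 B.f') a3 (a4.trans k2.symm) (k2 ▸ n) a1).trans k2))
  have l := (h.lines ge s'.i2).1.trans se
  have e1 := key z (h.adj23 B.f).symm (((h.ln_symm _ _).trans (h.lines B.f B.s0.wk.i2).2.2.1).trans
    (B.bar r)) q (h.adj12 ge) l
  have e2 := s1 z q (h.adj12 ge)
  have e3 : ∀ p u, m.Fc i p u c' → p ≠ q := by
    rintro p u f rfl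
    exact e2 (l ▸ e1.symm.trans (key p (h.adj13 f).symm (((h.ln_symm _ _).trans
      (h.lines f si.i2).2.1).trans bi) z (h.adj12 ge).symm ((h.ln_symm _ _).trans l)))
  exact G.w0 B f si (fun e => k4 (bi.symm.trans (e ▸ rfl))) ge s' s.ne.symm (fun e => n (.inl e))
    (e3 _ _ f) (fun e => n (.inr e)) (e3 _ _ f.symm) (fun n a b => .inl (sf n a b))
    fun n q => absurd q (nf n)

omit B [Finite V] in
/-- the next corner after an end of a rung is no end of a rung -/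
theorem past (s : m.Wk ps W t o n) (op : ¬ m.Sol W o) (f : m.GE n u w) (fr : m.far n j)
    (sd : m.Sid ps W u t i n) (bt : Bt ps t o i n) : m.bar n = t ∧ ∃ n' w', m.Wk ps W t o n' ∧
      m.Sid ps W w t n n' ∧ Bt ps t o n n' ∧ m.GE n' w w' ∧ m.Sol W n' ∧ ∀ j, ¬ m.far n' j := by
  have h := G.ok
  have st := G.L.st
  have r := G.ord
  have so := (G.nc _ _ _ s).resolve_left op
  have bn : m.bar n = t := s.h2.resolve_left fun q => h.far_not_bar fr sd.wk.i1
    (q.trans (r.bar_of_bt s.i1 sd.wk.i1 s.i2 s.h1 sd.wk.h1 s.h2 bt).symm)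
  obtain ⟨n', a1, a2, a3, -, a5, a6⟩ := st.pas1 h r G.nc s op f ((HSt.sid_cor h (st.sid_rev h r sd)
    f.fc.cor1 ⟨f.fc.has1, f.fc.has3⟩ (h.fc_ne f).2.1 ((h.lines f s.i2).2.1.trans bn)).mono
      bt.symm.bw).rev
  obtain ⟨w', f'⟩ := a6.ge
  refine ⟨bn, n', w', a1, a2, a3, f', a5, fun j' q => ?_⟩
  rcases (G.one fr f.symm so q f' a5 (st.seg_near h r s op so f.fc.has2) (by omega)).2 with rfl | rfl
  · exact a2.wk.ne rfl
  · exact a1.h2.elim (fun q => h.far_not_bar fr.symm s.i2 (q.trans bn.symm))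
      fun q => h.far_bar fr (bn.trans q.symm)

omit [Finite V] in
/-- the entry before an end of a rung is no end of a rung -/
theorem before (s : m.Wk ps W (m.stem k') o i) (bt : Bt ps (m.stem k') o i k') (f : m.Fc i p u c')
    (b : m.Sgm ps (m.stem k') o i p c') (fr : m.far i j) (pc : p ≠ c) :
    ∃ i' p', m.Wk ps W (m.stem k') o i' ∧ m.Fc i' p' p c' ∧ m.bar i' = m.stem k' ∧ m.Sol W i' ∧
      ∀ j, ¬ m.far i' j := by
  have h := G.ok
  have st := G.L.st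
  have so := (G.nc _ _ _ s).resolve_left B.op
  obtain ⟨i', p', a1, a2, a3, -, a5, a6⟩ := B.entry h st G.ord s bt.bw b pc (h.fc_ne f).2.1
  refine ⟨i', p', a2, a3, a5, a6, fun j' q => ?_⟩
  rcases (G.one fr f.ge so q a3.symm.ge a6 (st.seg_near h G.ord s B.op so f.has1) (by omega)).2
    with rfl | rfl
  · unfold Bt at a1; omega
  · exact h.far_bar fr (((h.lines f s.i2).2.1.symm.trans b.2.1).trans a5.symm)

omit [Finite J] in
theorem zone (cx : c ≠ x) : z = a ∨ z = x ∨ z = y := by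
  have w := (G.L.st.sol_w G.ok B.so B.f).1
  rcases G.L.f1S G.ok B.f (G.L.b1 G.ok B.bd w) (G.L.b2 G.ok B.bd w) (G.L.st.sf_open G.ok B.f w B.sf)
    (.of_bdy B.bd (by simp) B.f.has1) with (e | e | e) | e
  exacts [absurd (e ▸ B.bd) G.ia, absurd e cx, absurd (e ▸ B.bd) G.iy, e]

omit [Finite J] in
theorem zone' (cx : c' ≠ x) : z' = a ∨ z' = x ∨ z' = y := by
  have w := (G.L.st.sol_w G.ok B.so' B.f').1
  rcases G.L.f1S G.ok B.f' (G.L.b1 G.ok B.bd' w) (G.L.b2 G.ok B.bd' w) (G.L.st.sf_open G.ok B.f' w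
    fun j r so => r.1 (B.on' j ((r.2.2.2 _).1 B.f'.fc.cor1) so).symm)
    (.of_bdy B.bd' (by simp) B.f'.fc.has1) with (e | e | e) | e
  exacts [absurd (e ▸ B.bd') G.ia, absurd e cx, absurd (e ▸ B.bd') G.iy, e]

/-- (2a) two ring cells with one corner each and different cells of the zone -/
theorem tw2a (cx : c ≠ x) (cx' : c' ≠ x) (ne : z ≠ z') : z = a ∧ z' = y ∧ ∃ e q,
    m.Wk ps W (m.bar k') o' e ∧ m.stem e = m.bar k' ∧ Bt ps (m.bar k') o' k' e ∧ m.GE e a q ∧ q ≠ x := by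
  have h := G.ok
  have st := G.L.st
  have r := G.ord
  have ki := B.s1.wk.i2
  obtain ⟨k1, k2, k3, k4⟩ := h.lines B.f' ki
  obtain ⟨w1, w2, w3⟩ := st.sol_w h B.so' B.f'
  have ca : c ≠ a := fun e => G.ia (e ▸ B.bd)
  have cy : c ≠ y := fun e => G.iy (e ▸ B.bd)
  have ca' : c' ≠ a := fun e => G.ia (e ▸ B.bd')
  have ax := st.ne G.L.wx
  have ay := st.ne G.L.wy
  have xy := G.L.ne
  obtain ⟨κ, gk⟩ := G.L.gx
  obtain ⟨e, q, se, te, be, ge, we⟩ := G.fin B
  have wk := fun {j u v X'} => G.w0k B (j := j) (u := u) (v := v) (X' := X')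
  obtain ⟨i, p, bi, si, fi, pi, ri, oi⟩ := B.entry h st r B.s1.wk (.right _ _ _ _)
    ((HSt.wk_stem' h B.s1.wk B.f' rfl).symm h) (fun e => B.ne (B.on k' (e ▸ B.f'.fc.cor2) B.so').symm)
    (st.ne w1).symm
  obtain ⟨n, sn, dn, bn, -, on, cn⟩ := st.pas1 h r G.nc B.s2.wk B.op' B.f' (HSt.sid_cor h
    (st.sid_rev h r B.s2) B.f'.fc.cor1 ⟨B.f'.fc.has1, B.f'.fc.has3⟩ (st.ne w2) k2).rev
  obtain ⟨w, fn⟩ := cn.ge
  have n2 := fun {i} => G.no2 B (i := i)
  have ni : i ≠ n := fun e => n2 si.i2 ri (e ▸ sn.h2)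
  have hi : p = z ∨ ∃ j, m.far i j ∧ m.Sol W j := (em _).symm.imp_left fun c =>
    (we i p z' fi si ri fun n a b => absurd ⟨n, a, b⟩ c).resolve_right ne.symm
  have hn : w = z ∨ ∃ j, m.far n j ∧ m.Sol W j := (em _).symm.imp_left fun c =>
    (wk fn sn dn.wk.ne.symm fun n a b => absurd ⟨n, a, b⟩ c).resolve_left ne.symm
  have pc : p ≠ c := fun e => by
    obtain rfl := B.on i (e ▸ fi.cor1) oi
    exact ne ((B.f.unique (e ▸ fi) (h.fc_ne B.f).1).1)
  have tri : ∀ j j', m.far i j → m.far n j' → ∀ j u, m.GE j z' u → u = c' ∨ ∃ j', m.far j j' := by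
    intro j j' fr fr' l u gl
    obtain rfl := ((G.one fr fi.symm.ge oi fr' fn on (st.seg_near h r sn B.op' on fn.fc.has1)
      (by omega)).2).resolve_left ni.symm
    rcases h.tri_close (t₁ := m.stem i) (t₂ := m.stem k') (t₃ := m.bar k') (st.bd2 w1) B.f'.fc.cor2
      fn.fc.cor1 fi.cor2 dn.wk.ne (fun e => k4 (ri.symm.trans (e ▸ rfl))) ni.symm
      (ri ▸ h.stem_ne i si.i2) (h.far_not_bar fr ki) k4 (.inl rfl) (.inr rfl)
      (.inl (h.far_stem fr).symm) sn.h2 (.inl rfl) (.inr ri) gl.fc.has1 with rfl | rfl | rfl | q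
    exacts [.inl (gl.fc.unique B.f'.symm (h.fc_ne gl).1).1, .inr ⟨_, fr'⟩, .inr ⟨_, fr⟩,
      absurd q.1.symm (h.fc_ne gl).2.1]
  have fy : ∀ j, m.GE j a y → ∃ j', m.far j j' := fun j f => by
    rcases h.rung_face G.far G.f f.fc.on with rfl | rfl
    exacts [⟨_, G.far⟩, ⟨_, G.far.symm⟩]
  have hz := G.zone B cx
  rcases G.zone' B cx' with rfl | rfl | rfl
  · exfalso
    have zx : ∀ j, m.GE j z' z → (¬ ∃ j', m.far j j') → z = x := fun j f q =>
      (hz.resolve_left ne).resolve_right fun e => q (fy j (e ▸ f))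
    by_cases c1 : ∃ j, m.far i j <;> by_cases c2 : ∃ j, m.far n j
    · obtain ⟨j, c1⟩ := c1
      obtain ⟨j', c2⟩ := c2
      rcases tri j j' c1 c2 κ x gk with e | ⟨j, q⟩
      exacts [cx' e.symm, xy (G.ra q gk).1]
    · obtain ⟨j, c1⟩ := c1
      obtain rfl := hn.resolve_right fun ⟨j, q, _⟩ => c2 ⟨j, q⟩
      obtain rfl := zx n fn c2
      obtain rfl := (G.ra c1 fi.symm.ge).1
      obtain ⟨i', p', a1, a2, a3, -, a5⟩ := G.before B si bi fi pi c1 pc
      rcases we i' p' p a2 a1 a3 fun n q => absurd q (a5 n) with rfl | e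
      exacts [G.nxy (h.adj12 a2), xy e.symm]
    · obtain ⟨j, c2⟩ := c2
      obtain rfl := hi.resolve_right fun ⟨j, q, _⟩ => c1 ⟨j, q⟩
      obtain rfl := zx i fi.symm.ge c1
      obtain rfl := (G.ra c2 fn).1
      obtain ⟨-, n', w', a1, a2, a3, a4, -, a6⟩ := G.past sn B.op' fn c2 dn bn
      rcases wk a4 a1 (by rintro rfl; unfold Bt at *; omega) fun n q => absurd q (a6 n) with e | rfl
      exacts [xy e.symm, G.nxy (h.adj12 a4).symm]
    · obtain rfl := hi.resolve_right fun ⟨j, q, _⟩ => c1 ⟨j, q⟩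
      obtain rfl := hn.resolve_right fun ⟨j, q, _⟩ => c2 ⟨j, q⟩
      exact c1 ⟨n, h.far_of_fc (st.bd2 w1) ni fi.symm fn⟩
  · exfalso
    have za : ∀ j, m.GE j z' z → z = a := fun j f =>
      hz.resolve_right fun e => e.elim ne fun e => G.nxy (e ▸ h.adj12 f)
    rcases hi with rfl | ⟨j, c1, s1⟩ <;> rcases hn with rfl | ⟨j', c2, s2⟩
    · obtain rfl := za n fn
      exact ni (G.kap fi.ge fn.symm)
    · obtain rfl := za i fi.symm.ge
      have wa : w ≠ p := fun e => xy (G.ra c2 (e ▸ fn.symm)).1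
      obtain ⟨a0, n', w', a1, a2, a3, a4, -, a6⟩ := G.past sn B.op' fn c2 dn bn
      obtain rfl := (wk a4 a1 (by rintro rfl; unfold Bt at *; omega)
        fun n q => absurd q (a6 n)).resolve_left wa
      rcases h.rung_adj c2 fn (st.adj _ _ G.L.wx) (h.adj12 a4).symm with e | e
      · exact n2 si.i2 ri (.inl ((h.lines fi.symm si.i2).1.symm.trans
          (e ▸ (h.lines fn sn.i2).2.1.trans a0)))
      · exact (wk fn sn dn.wk.ne.symm fun n q _ => h.far_unique c2 q ▸ e.symm).elim ax.symm wa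
    · obtain rfl := za n fn
      have pa : p ≠ w := fun e => xy (G.ra c1 (e ▸ fi.ge)).1
      obtain ⟨i', p', a1, a2, a3, -, a5⟩ := G.before B si bi fi pi c1 pc
      obtain rfl := (we i' p' p a2 a1 a3 fun n q => absurd q (a5 n)).resolve_right pa
      rcases h.rung_adj c1 fi.ge (h.adj12 a2) (st.adj _ _ G.L.wx) with e | e
      · exact ca' (fi.2.symm.trans e.symm)
      · exact (we i p z' fi si ri fun n q _ => h.far_unique c1 q ▸ e.symm).elim pa ax.symm
    · rcases tri j j' c1 c2 κ a gk.symm with e | ⟨j, q⟩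
      exacts [ca' e.symm, xy (G.ra q gk).1]
  have ry : ∀ j u, m.GE j z' u → m.Sol W j → (u = z ∨ ∃ j', m.far j j' ∧ m.Sol W j') →
      u = a ∧ ∃ j', m.far j j' := by
    rintro j u f so (rfl | ⟨j', q, -⟩)
    · obtain rfl := hz.resolve_right fun e => e.elim (fun e => G.nxy (e ▸ h.adj12 f.symm)) ne
      exact ⟨rfl, fy j f.symm⟩
    · exact ⟨(G.ry q f so).1, j', q⟩
  obtain ⟨rfl, j, c1⟩ := ry i p fi.symm.ge oi hi
  obtain ⟨rfl, j', c2⟩ := ry n w fn on hn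
  obtain ⟨i', p', a1, a2, a3, -, a5⟩ := G.before B si bi fi pi c1 pc
  obtain ⟨b0, n', w', b1, b2, b3, b4, -, b6⟩ := G.past sn B.op' fn c2 dn bn
  obtain rfl : z = w := by
    refine hz.resolve_right fun e => ?_
    obtain rfl := e.resolve_right ne
    obtain rfl := (we i' p' w a2 a1 a3 fun n q => absurd q (a5 n)).resolve_right ax
    obtain rfl := (wk b4 b1 (by rintro rfl; unfold Bt at *; omega)
      fun n q => absurd q (b6 n)).resolve_left ax
    exact n2 a1.i2 a3 (G.kap a2.symm.ge b4 ▸ b1.h2)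
  refine ⟨rfl, rfl, e, q, se, te, be, ge, ?_⟩
  rintro rfl
  have ne' : n ≠ e := fun q => h.far_not_bar c2 ki (q ▸ te)
  have sa : ∀ j, m.cor j z → m.hug j (m.bar k') → j = n ∨ j = e := fun j c g =>
    h.side2 (st.bd1 G.L.wx) fn.fc.cor2 ge.fc.cor1 c sn.h2 se.h2 g ne'
  obtain rfl : n' = e := (sa n' b4.fc.cor1 b1.h2).resolve_left b2.wk.ne.symm
  have xn : m.X n ≠ q := fun e => by
    rcases (G.ry c2 fn on).2 with rfl | rfl
    exacts [G.xg e.symm, G.xg' e.symm]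
  have tq := h.tc_cor se.i2 ge.fc.cor2 se.h2
  obtain ⟨l, x', X₁, d1, d2, d3, d4⟩ := st.enter h r se ((HSt.wk_stem' h se ge te).symm h)
    fun v o b => xn (r.flat se.i1 sn.i2 se.i2 ⟨v, b.1.1, o, b.2.1⟩ sn.h2 tq b3)
  have sl := se.sol l d2.i2 d2.h2 d1
  have bl := r.bar_of_bt se.i1 d2.i2 se.i2 se.h1 d2.h2 se.h2 d1
  have lk : l ≠ k' := by
    rintro rfl
    exact (B.f'.fc.cor_iff.1 d3.cor2).elim cx'.symm xy
  have xa : x' ≠ z := fun e => by
    obtain rfl := G.kap (e ▸ d3.ge) ge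
    unfold Bt at d1; omega
  obtain ⟨l', fr, sl'⟩ : ∃ l', m.far l l' ∧ m.Sol W l' := by_contra fun c =>
    (wk d3 d2 lk fun n a b => absurd ⟨n, a, b⟩ c).elim xa ax.symm
  have e1 := mt (r.inj _ l n d2.i2 sn.i2 d2.h2 sn.h2) (by
    rintro rfl
    exact (fn.fc.cor_iff.1 d3.cor2).elim xy ax.symm)
  have e2 : ¬ Bt ps (m.bar k') l n n' := fun c =>
    xn (r.flat d2.i2 sn.i2 se.i2 (h.tc_cor d2.i2 d3.cor2 d2.h2) sn.h2 tq c)
  have xl : m.X l = z := (HSt.sid_flat r b2 d2.i2 d2.h2 (by unfold Bt at *; omega)).1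
  have xc' : x' ≠ c' := fun e => lk (B.on' l (e ▸ d3.cor1) sl)
  obtain ⟨v, ov, bv⟩ : ∃ v, m.On o' x' v ∧ m.Sgm ps (m.bar k') o' l x' v := by
    by_contra c
    obtain ⟨l2, x2, X₂, g1, g2, g3, -⟩ := st.enter h r d2 d4 fun v a b => c ⟨v, a, b⟩
    have s2 := d2.sol l2 g2.i2 g2.h2 g1
    have xy' : x' ≠ z' := fun e => ax (G.ry fr (e ▸ d3.ge) sl).1.symm
    obtain rfl := (wk g3 g2 (by
      rintro rfl
      exact (B.f'.fc.cor_iff.1 g3.cor2).elim xc' xy') fun n q _ => by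
        rcases (G.one fr d3.ge sl q g3.symm.ge s2 (st.seg_near h r d2 B.op' sl d3.has1)
          (by omega)).2 with rfl | rfl
        · unfold Bt at g1; omega
        · exact absurd (bl.trans (r.bar_of_bt d2.i1 g2.i2 d2.i2 d2.h1 g2.h2 d2.h2 g1).symm)
            (h.far_bar fr)).resolve_right xa
    rcases sa l2 g3.cor1 g2.h2 with rfl | rfl
    · exact (fn.fc.cor_iff.1 g3.cor2).elim xy' xa
    · unfold Bt at *; omega
  have f' := h.far_ge fr d3.ge
  refine G.L.free2 h r B.f f' B.so sl' (fun e => ?_) cx xa.symm ax (fun n a b => absurd b (B.sf n a))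
    (fun n a _ => .inr (h.far_unique fr.symm a ▸ xl)) (.inl ⟨_, _, B.s0.wk, B.op⟩)
    (.inr ⟨x', f'.fc.cor1, o', ov.1, B.op'⟩) (st.mem _ _ w1) (G.L.b1 h B.bd' w1)
    (h.fc_ne B.f).2.1.symm ca' xc'.symm cx' fun s ws => ?_
  · exact n2 B.s0.wk.i2 (B.bar r) (B.on l (e ▸ d3.cor1) sl ▸ d2.h2)
  · rcases G.cov B ws with c | c
    · exact .inr (.inr (.inr (.inr ⟨_, _, _, B.s1.wk, B.op, .inl B.s0.wk.h2, c⟩)))
    · exact .inr (.inr (.inl ((st.wk_row h r d2 ⟨v, ov, bv⟩ (h.tc_cor d2.i2 d3.cor1 d2.h2)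
        (c.mono (by unfold Bt at *; unfold Bw; omega))).resolve_left xc'.symm)))

end Ia

end Map

end Pool.Agent.P.MP_5f84aa_co.G
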