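import Pool.Agent.P.MP_5f84aa_co.G.LI0
import Pool.Agent.P.MP_5f84aa_co.G.LI2a

/-! Type GR, interior rung: section 2a. -/

namespace Pool.Agent.P.MP_5f84aa_co.G

namespace Map

namespace I0

variable {V J Sg : Type} {m : Map V J Sg} {ps : J → Sg → ℤ} {T : Set Sg} {N : V → Prop} {μ : V → ℕ}
  {W : V → V → Prop} {U : Finset V} {sd : V → Sg → Bool}
  {a c c' x y z z' : V} {k k' g g' κ o o₁ o₂ : J}
  [DecidableEq V] [Finite V] [Finite J] (G : m.I0 ps T N U W μ sd a x y g g' κ)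
include G

omit [Finite V] [Finite J] in
theorem toIa : m.Ia ps T N U W μ a x y g g' :=
  ⟨G.L, G.ok, G.ext, G.ord, G.nc, G.se, G.r1, G.far, G.f, G.xg, G.xg', G.ia, G.iy⟩

theorem tw (P : m.Two ps W c z c' z' k k' o o₁ o₂) : m.Tw ps W c c' z z' o₁ o₂ k k' :=
  ⟨(HSt.sid_flat G.ord P.q.a P.p.a.wk.i2 (.inr P.st.symm) (P.st ▸ P.bt)).1 ▸ P.p.f.fc, P.q.f, P.p.so,
    P.q.so, P.p.op', P.q.op', P.st ▸ G.st.sid_rev G.ok G.ord P.p.b, P.q.a,
    G.st.sid_rev G.ok G.ord P.q.b, P.st ▸ P.bt, fun _ => G.only P.p, fun _ => G.only P.q⟩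

theorem sec2a (P : m.Two ps W c z c' z' k k' o o₁ o₂) (hc : ¬ Zc a x y c) (hc' : ¬ Zc a x y c')
    (d : z ≠ z') : False := by
  have h := G.ok
  have B := G.tw P
  have cx' : c' ≠ x := fun e => hc' (.inr (.inl e))
  obtain ⟨rfl, rfl, e, q, s, se, bt, ge, qx⟩ := G.toIa.tw2a B (fun e => hc (.inr (.inl e))) cx' d
  have so := (G.nc _ _ _ s).resolve_left B.op'
  obtain ⟨v, u, hv, hu, ty⟩ := G.ty _ _ _ ⟨s, B.op', so, se⟩ fun c =>
    qx (ge.fc.unique (c ▸ G.fk) (h.fc_ne ge).1).1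
  have va : v ≠ z := fun e => hv (.inl e)
  have ua : m.GE e v u → u = z := fun f => ((f.fc.cor_iff.1 ge.fc.cor1).resolve_left va.symm).symm
  rcases ty with ⟨o', p⟩ | ⟨u', n, o', p⟩
  · obtain rfl := ua p.f
    exact d (G.toIa.tw2a (G.tw ⟨P.q, p, se, bt⟩) cx' (fun e => hv (.inr (.inl e))) d.symm).1.symm
  obtain rfl := ua p.f
  have w := (G.st.sol_w h B.so' B.f').1
  have vc : c' ≠ v := fun c => by
    obtain rfl := B.on' e (c ▸ p.f.fc.cor1) so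
    unfold Bt at bt; omega
  refine G.L.free2 h G.ord B.f p.f' B.so p.so' (fun c => ?_) (fun c => hc (c ▸ p.zz)) va.symm p.ne.symm
    (fun n a b => absurd b (B.sf n a)) (fun n a => absurd p.st (h.far_not_bar a s.i2))
    (.inl ⟨_, _, B.s0.wk, B.op⟩) (.inr ⟨v, p.f'.fc.cor1, p.bdy⟩) (G.st.mem _ _ w)
    (G.L.b1 h B.bd' w) (h.fc_ne B.f).2.1.symm (fun c => hc' (.inl c)) vc (fun c => hc' (c ▸ p.zz))
    fun s ws => ?_
  · exact G.toIa.no2 B B.s0.wk.i2 (B.bar G.ord) (B.on e (c ▸ p.f.fc.cor1) so ▸ s.h2)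
  · rcases G.toIa.cov B ws with c | c
    · exact .inr (.inr (.inr (.inr ⟨_, _, _, B.s1.wk, B.op, .inl B.s0.wk.h2, c⟩)))
    · exact .inr (.inr (.inl ((G.st.sid_row h G.ord p.a₀ (se ▸ c.mono bt.bw)).resolve_left vc)))

end I0

end Map

end Pool.Agent.P.MP_5f84aa_co.G
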