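import Pool.Agent.P.MP_5f84aa_co.G.LR0b

/-! A rung with a further partner: no segment of walls is a cut, no cell is a cut vertex. -/

namespace Pool.Agent.P.MP_5f84aa_co.G

namespace Map

variable {V J Sg : Type} {m : Map V J Sg} {ps : J → Sg → ℤ} {t : Sg} {T : Set Sg} {C C' : Ctx V Sg}
  {W : V → V → Prop} {U : Finset V} {B Z : Set V}
  {a c o p q u v w x y z X X' P P' : V} {e i j j' k k' n d d' : J} [Finite V] [Finite J] [DecidableEq V]

/-- the flat cell `X'` carries the whole run -/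
structure Hw (m : Map V J Sg) (ps : J → Sg → ℤ) (T : Set Sg) (C C' : Ctx V Sg) (U : Finset V)
    (W : V → V → Prop) (x a y : V) (B : Set V) (j j' : J) (v o X X' : V) (i e : J) : Prop
    extends m.Hz ps T C C' U W x a y B j j' v o X X' where
  op : ¬ m.Sol W i
  oi : m.On i v X'
  ge : m.GE e o X'
  so : m.Sol W e
  le : m.stem e = m.bar j'
  sx : m.Sid ps W X' (m.bar j') i e
  two : ∀ u, m.Sgm ps (m.bar j') i e X' u → u = v ∨ u = o

namespace Hz

variable (H : m.Hz ps T C C' U W x a y B j j' v o X X')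
include H

theorem hx : ∃ i e, m.Hw ps T C C' U W x a y B j j' v o X X' i e := by
  have h := H.ok
  have L := H.toRz
  have s := L.st
  have r := H.ord
  have D := H.dr
  have ji := D.r.2.2.1
  obtain ⟨n1, n2, n3⟩ := h.fc_ne D.f'
  obtain ⟨i, sv, bv, c⟩ := s.nxt_bar h r D.f' D.so'
  have op : ¬ m.Sol W i := c.resolve_right fun ⟨w, f, so⟩ =>
    H.hv' sv.wk (L.no_ay ji) (bv.symm h) so f (by
      rintro rfl
      exact sv.wk.h2.elim (h.far_not_bar D.r ji) (h.far_bar D.r)) sv.wk.ne.symm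
  have rv : m.Bdy W v := let ⟨_, _, o, _⟩ := sv.lst; ⟨i, o.1, op⟩
  obtain ⟨e, g1, bo, c⟩ := s.ray_bar h r D.f'.symm D.so'
  obtain ⟨g, bt⟩ := s.join h r D.f' D.so' sv.wk bv g1 bo
  have bv' := bv.rev.mono bt.bw
  have bo' := (bo.rev.mono bt.symm.bw).rev
  have so : m.Sol W e := by_contra fun op' =>
    let ⟨_, aZ, yZ, hZ, od, row⟩ := L.cutA g op op'
    H.nocut1 g op rv bv' bo' (L.no_ay ji) aZ yZ hZ od row
  replace c := c.resolve_left fun n => n so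
  have b := HSt.wk_stem h g c
  have nv : ¬ m.cor e v := fun q => n2 (D.f'.2.symm.trans (r.flat g.i1 ji g.i2 sv.lst (.inr rfl)
    (h.tc_cor g.i2 q g.h2) bt)).symm
  have co : m.cor e o := by_contra fun q => H.unl rv g op (fc_self e) so (fc_self e).on b
    (L.toLz.n_sgm g op b) (L.toLz.n_sgm g op (b.symm h)) (s.safe_end h r g op (fc_self e) so b)
    (fun e => nv (.inl e.symm)) (fun e => q (.inl e.symm)) (fun e => nv (.inr e.symm))
    fun e => q (.inr e.symm)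
  have s2 : m.Sid ps W o (m.bar j') j' e :=
    ⟨g1, ⟨X', ⟨D.f'.has2, D.f'.has3⟩, bo⟩, h.tc_cor g.i2 co g.h2⟩
  have oi := H.land rv g op (.inl rfl) sv bv bv'
  have oe := H.land rv g op (.inr rfl) s2 bo bo'
  have ge : m.GE e o X' := ((h.piece g.i2 oe n3).resolve_right fun q =>
    h.stem_ne e g.i2 (c.trans (bo.2.1.symm.trans q.2))).1
  refine ⟨i, e, H, op, oi, ge, so, c, ⟨g, ⟨v, oi.symm, bv'.symm h⟩, h.tc_cor g.i2 ge.fc.cor2 g.h2⟩,
    fun u q => ?_⟩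
  rcases q.cut2 h r j' with q | q
  exacts [.inl ((s.sid_row h r sv q.rev).resolve_left n2.symm),
    .inr ((s.sid_row h r s2 q).resolve_left n3.symm)]

end Hz

namespace Hw

variable (H : m.Hw ps T C C' U W x a y B j j' v o X X' i e)
include H

omit [Finite V] [Finite J] [DecidableEq V] in
theorem par (f : m.Fc n X' w c) (so : m.Sol W n) (d : n ≠ e) : w ≠ v ∧ w ≠ o := by
  have h := H.ok
  obtain ⟨-, n2, n3⟩ := h.fc_ne H.dr.f'
  have nj : n ≠ j' := fun q => (h.fc_ne f).2.1 (H.dr.f'.2.symm.trans (q ▸ f.2))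
  constructor <;> rintro rfl
  · rcases h.two_faces n2 ⟨H.dr.f'.has1, H.dr.f'.has3⟩ H.oi f.on.symm (fun q => H.op (q ▸ H.dr.so'))
      with q | q
    exacts [nj q, H.op (q ▸ so)]
  · rcases h.two_faces n3 ⟨H.dr.f'.has2, H.dr.f'.has3⟩ H.ge.fc.on f.on.symm
      (fun q => h.stem_ne _ H.dr.r.2.2.1 (q ▸ H.le)) with q | q
    exacts [nj q, d q]

omit [Finite V] [Finite J] [DecidableEq V] in
theorem bx : m.Bdy W X' ∧ m.Bdy W v ∧ W X' o :=
  ⟨⟨i, H.oi.2, H.op⟩, ⟨i, H.oi.1, H.op⟩, (H.toRz.st.sol_w H.ok H.so H.ge.symm).1⟩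

omit [Finite J] in
/-- a safe corner of `X'` makes the rung usable -/
theorem g3 (f : m.Fc n X' w c) (so : m.Sol W n) (d : n ≠ e) (sf : m.Safe (Cn.FrT m T) W n) : False := by
  have h := H.ok
  have L := H.toRz
  have s := L.st
  have w1 := (s.sol_w h so f).1
  have nn := L.toLz.n_bdy H.bx.1 w1
  have := H.par f so d
  have th := H.toHz.th
  have xz := H.toHz.Xz
  have := L.fin H.cb (H.dead.pair' h f (s.mem _ _ w1) (s.mem2 w1) nn.1 nn.2 (.inl H.bx.1) sf)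
    (fun _ _ q => q.1.1) (by simp [L.toLz.aU]; grind) (by simp [L.toLz.yU]; grind)
    (by have := H.bx.2.1; grind) H.toHz.ge.1 ⟨v, H.dr.f.cor1, fun k' q w =>
      absurd (h.far_unique H.dr.r q ▸ H.dr.f'.2) w.1.2.2⟩
  rw [wB_out (fun q => by have := H.cb.cl _ _ (s.sym _ _ w1) q; have := H.XB; grind),
    wB_out H.XB] at this
  have := H.od
  omega

/-- the wall between `X'` and `o` lies on no segment that misses `e` -/
theorem cut (g : m.Wk ps W t k k') (op : ¬ m.Sol W k) (b : m.Sgm ps t k k' X' u) : m.Sol W k' :=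
  by_contra fun op' => by
    have h := H.ok
    have c := H.toRz.cutK g op op' b H.toHz.Xz.1 H.toHz.Xz.2.1 H.bx.2.2 (by have := H.toHz.th; tauto)
    have ei := H.sx.wk.i2
    rcases HSt.sgm_sol h H.ord g c H.ge.symm.fc.on with rfl | rfl | ⟨-, q, bt⟩
    exacts [op H.so, op' H.so, h.stem_ne e ei (((h.lines H.ge.symm ei).1.symm.trans c.2.1).trans
      (H.ord.bar_of_bt g.i1 ei g.i2 g.h1 q g.h2 bt).symm)]

/-- `X'` has a second solid corner -/
theorem one (sd : m.Sid ps W X' (m.bar e) e k) (b : m.Sgm ps (m.bar e) e k X' (m.X e)) :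
    m.Sol W k := by_contra fun op => by
  have h := H.ok
  have L := H.toRz
  have s := L.st
  have r := H.ord
  have D := H.dr
  have ei := sd.wk.i1
  have th := H.toHz.th
  have xz := H.toHz.Xz
  obtain ⟨k2, s2, b2, c⟩ := s.nxt_bar h r H.ge H.so
  obtain ⟨g, bt⟩ := s.join h r H.ge.symm H.so sd.wk b s2.wk b2
  have b' := b.rev.mono bt.bw
  obtain ⟨p, f, so⟩ := c.resolve_left fun n => n (H.cut g op b')
  have nj : ∀ n, m.hug n (m.bar e) → n ≠ j' := fun n q e' => (e' ▸ q).elim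
    (h.far_not_bar D.r.symm ei) fun q => h.stem_ne e ei (H.le.trans q)
  by_cases pv : p = v
  · subst pv
    obtain rfl := (h.two_faces (h.fc_ne D.f).1 D.f.on D.f'.on f.fc.on.symm D.r.1).resolve_right
      (nj _ g.h2)
    have l : m.bar k2 = m.bar e := g.h2.resolve_left (h.far_not_bar D.r ei)
    have s3 := s.sid_rev h r s2
    rw [← l] at g s3 b' bt
    obtain ⟨k3, s4, b4, c⟩ := s.nxt_bar h r D.f D.so
    obtain ⟨g', bt'⟩ := s.join h r D.f.symm D.so g.rev ((HSt.sid_fst h s3 D.f.symm).mono bt.symm.bw)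
      s4.wk b4
    obtain ⟨z, f', so'⟩ := c.resolve_left fun n => n (H.cut g' op (b'.mono bt'.bw))
    exact H.toHz.hv' g' (L.no_ay D.r.2.1) (b'.mono bt'.bw) so' f' s4.wk.ne.symm (nj _ (l ▸ g'.h2))
  have w1 := (s.sol_w h so f).1
  have no := H.toHz.nvo
  have np : C.N p := H.near p (((L.toLz.fe_sgm g op (b2.rev.mono bt.symm.bw).rev).wall w1).mono
    (by omega))
  have pX : p ≠ X' := by
    rintro rfl
    rcases h.two_faces (h.fc_ne D.f').2.2 ⟨D.f'.has2, D.f'.has3⟩ H.ge.fc.on f.fc.on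
      (nj _ sd.wk.h1).symm with q | q
    exacts [nj _ g.h2 q, s2.wk.ne q.symm]
  have pB := s.end_B h r H.cb g (L.no_ay ei) b' xz.1 xz.2.1 H.XB so f.fc.has2
  obtain ⟨u1, u2, -, o2, c2⟩ := g.p2
  have wv := (s.sol_w h D.so' D.f').2.1
  obtain ⟨n1, n2, n3⟩ := h.fc_ne D.f'
  refine ((H.dead.pairS h r g op f o2 c2 (s.mem _ _ w1) (s.mem2 w1) no.2.1 np
    (L.nofar no.2.2.symm f no.2.1 no.1 np pv)).sg1 h (x := v) (by simp [n1, Ne.symm pv, s.mem _ _ wv])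
    no.1 (H.bx.2.1.mono fun _ _ q => q.1.1.1)).oddF (B := B) (z := X') (by omega) (H.dal _)
    (by have := H.cb.cl; unfold Rm Os; grind) ?_ (by simp [n2.symm, n3.symm, pX.symm, s.mem2 wv])
    (L.toLz.n_bdy H.bx.1 H.bx.2.2).1 H.XB fun u q => ?_
  · have := H.cb.aB
    have := H.cb.yB
    rw [wB_out (by grind), wB_out pB, wB_out (by grind)]
    exact H.od
  · rcases s.cover1 h r (L.sect_off (by unfold InZ; grind)) H.sx sd H.op op H.ge.fc.cor2
      (H.le ▸ h.stem_ne e ei) q.1.1.1.1 with c | c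
    · rcases H.two u c with rfl | rfl
      exacts [q.2.2 rfl, q.1.1.2.2 rfl]
    · exact q.1.1.1.2 (c.rev.mono bt.bw)

/-- `X'` has no door -/
theorem door (sd : m.Sid ps W X' (m.bar e) e d) (b : m.Sgm ps (m.bar e) e d X' (m.X e))
    (E : m.Door W d d' X' w P P') : False := by
  have h := H.ok
  have L := H.toRz
  have s := L.st
  have r := H.ord
  have D := H.dr
  have ei := sd.wk.i1
  have di := E.r.2.2.1
  have th := H.toHz.th
  have xz := H.toHz.Xz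
  have cb := H.cb
  have ld : m.bar d = m.bar e := sd.wk.h2.resolve_left (h.far_not_bar E.r ei)
  obtain ⟨wv, wo⟩ := H.par E.f E.so sd.wk.ne.symm
  obtain ⟨w1, w2, w3⟩ := s.sol_w h E.so' E.f'
  obtain ⟨bX, bv, wx⟩ := H.bx
  obtain ⟨n1, n2, n3⟩ := h.fc_ne D.f'
  have nX := L.toLz.n_bdy bX w1
  have rn : m.Rn X' w := ⟨d, d', E.r, E.f.ge⟩
  have wB' : w ∉ B := fun q => by have := cb.cl _ _ (s.sym _ _ w1) q; have := H.XB; grind
  have je : j' ≠ e := fun q => h.stem_ne _ D.r.2.2.1 (q ▸ H.le)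
  have oj : m.On j' o X' := ⟨D.f'.has2, D.f'.has3⟩
  have tri : ∀ z, W X' z → W z o → z ≠ v → m.X e = z := fun z a1 a2 a3 =>
    s.tri1 h (s.sym _ _ wx) a1 a2 H.ge oj je (.bdy h bv D.f'.has1 (E3.off n1 n2 a3.symm))
  have nw : ¬ W w o := fun q => h.far_not_bar E.r ei ((h.lines E.f E.r.2.1).1.symm.trans
    (tri w w1 q wv ▸ (h.lines H.ge ei).2.2.1))
  have nd : ∀ n, m.hug n (m.bar d') → n ≠ d := fun n q e' => (e' ▸ q).elim
    (h.far_not_bar E.r di) (h.far_bar E.r)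
  have te : m.hug e (m.bar d') → m.bar d' = m.bar j' := fun q =>
    (q.resolve_right fun q => h.far_bar E.r (ld.trans q)).symm.trans H.le
  obtain ⟨k, s3, b3, c⟩ := s.nxt_bar h r E.f' E.so'
  have op : ¬ m.Sol W k := c.resolve_right fun ⟨z, f, so⟩ => by
    refine H.g3 f so ?_ (L.nofar rn f nX.1 nX.2 (L.toLz.n_bdy bX (s.sol_w h so f).1).2 ?_)
    · rintro rfl
      have l := te s3.wk.h2
      rw [l] at s3
      have a1 := s.sid_rev h r s3
      have a2 := s.sid_rev h r H.sx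
      have l' := (h.lines H.ge.symm ei).1.trans H.le
      exact H.op (HSt.sid_uniq h r a1 a2 (HSt.sid_cor h a1 H.ge.fc.cor2 H.ge.symm.fc.on n3.symm l')
        (HSt.sid_cor h a2 H.ge.fc.cor2 H.ge.symm.fc.on n3.symm l') (.inr E.f'.cor1) (.inl H.op) ▸ E.so')
    · rintro rfl
      exact (h.two_faces (s.ne w1) E.f.on E.f'.on f.fc.on E.r.1).elim (nd _ s3.wk.h2) s3.wk.ne.symm
  obtain ⟨e2, g1, b1, c2⟩ := s.ray_bar h r E.f'.symm E.so'
  obtain ⟨g, bt⟩ := s.join h r E.f' E.so' s3.wk b3 g1 b1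
  have bX' := b3.rev.mono bt.bw
  have so2 := H.cut g op bX'
  replace c2 := c2.resolve_left fun n => n so2
  obtain ⟨μ, s4, b4, c⟩ := s.nxt_bar h r E.f'.symm E.so'
  obtain ⟨g', bt'⟩ := s.join h r E.f' E.so' s3.wk b3 s4.wk b4
  obtain ⟨w', f, so⟩ := c.resolve_left fun n => n (H.cut g' op (b3.rev.mono bt'.bw))
  have w4 := (s.sol_w h so f).1
  have nw' : C.N w' := H.near _ ((((L.toLz.fe_bdy bX w1).wall w1).wall w4).mono (by omega))
  have sf : ∀ Fr W', m.Safe Fr W' μ := fun _ _ => L.nofar rn.symm f nX.2 nX.1 nw' (by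
    rintro rfl
    exact (h.two_faces (s.ne w1) E.f.on E.f'.on f.fc.on.symm E.r.1).elim (nd _ s4.wk.h2) s4.wk.ne.symm)
  have wx' : w ≠ x := by have := s.sym _ _ H.wx; have := H.vo; grind
  have row : ∀ p q, m.Sgm ps (m.bar d') k μ p q → (p = X' ∨ q = X') ∨ p = w ∨ q = w := fun p q c =>
    (c.cut2 h r d').imp (fun c => s.sid_row h r s3 c.rev) (s.sid_row h r s4)
  obtain ⟨u1, u2, -, o2, c1⟩ := g'.p2
  obtain rfl : x = w' := by
    have := L.toLz.f1S g' op f o2 c1 (s.mem _ _ w4) (s.mem2 w4) nX.2 nw' (sf _ _)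
    have := row a x
    have := row a y
    have := fun e : w' = v => H.toHz.hv (e ▸ f.symm) (e ▸ s.sym _ _ w4) wo wB'
    unfold InZ at *
    grind
  obtain ⟨rfl, rfl, xB, -⟩ := H.vo.resolve_right fun q => by
    have := cb.cl _ _ (s.sym _ _ w4) q.2.2.1
    grind
  have ou : ∀ F : V → V → Prop, (∀ u, m.Sgm ps (m.bar d') d' k X' u → ¬ F X' u ∧ ¬ F u X') →
      m.Ou W F d' := fun F c₀ => s.ou_wk h r s3.wk.rev (.op op) fun p q b₀ => by
    rcases s.sid_row h r s3 b₀.rev with e₁ | e₁ <;> rw [e₁] at b₀ ⊢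
    exacts [(c₀ _ b₀.rev).1, (c₀ _ (b₀.rev.symm h)).2]
  have nu : ∀ u, m.Sgm ps (m.bar d') d' k X' u → u ≠ w ∧ u ≠ o := fun u c₀ => by
    constructor <;> intro e₁ <;> rw [e₁] at c₀
    · exact h.far_not_bar E.r di ((h.lines E.f E.r.2.1).1.symm.trans c₀.2.1)
    rcases HSt.sgm_sol h r s3.wk c₀ H.ge.symm.fc.on with rfl | rfl | ⟨-, q, bt⟩
    exacts [wo (H.ge.symm.fc.unique E.f' n3.symm).1.symm, op H.so,
      h.stem_ne e ei (((h.lines H.ge.symm ei).1.symm.trans c₀.2.1).trans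
        (r.bar_of_bt s3.wk.i1 ei s3.wk.i2 s3.wk.h1 q s3.wk.h2 bt).symm)]
  have xy := H.ne
  have ax := L.toLz.ax
  have w5 : W X' x := by_contra fun q => sd.wk.ne (s.quad h (s.sym _ _ wx) w1 w4 (s.sym _ _ H.wx)
    wo.symm xz.2.2 (fun q => nw (s.sym _ _ q)) q (.inl rfl) H.ge oj je
    (.bdy h bv D.f'.has1 (E4.off n1 n2 wv.symm xy.symm)) (.inr (.inl rfl)) E.f E.f'.on E.r.1.symm
    (ou _ fun u c => by
      have := nu u c
      have := s.ne w1
      simp only [E4, Sym2.eq_iff]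
      grind))
  have eX := tri x w5 (s.sym _ _ H.wx) xy
  have lX : m.ln X' x = m.bar e := eX ▸ (h.lines H.ge ei).2.2.1
  obtain rfl : P = x := s.tri1 h w1 w4 (s.sym _ _ w5) E.f E.f'.on E.r.1.symm (ou _ fun u c => by
    have := nu u c
    have := s.ne w1
    have : u ≠ x := fun e => h.far_bar E.r (ld.trans (lX.symm.trans (e ▸ c.2.1)))
    simp only [E3, Sym2.eq_iff]
    grind)
  have e1 : ¬ m.cor e2 X' := fun q => (h.fc_ne E.f').2.1 (E.f'.2.symm.trans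
    (r.flat g.i1 di g.i2 s3.lst (.inr rfl) (h.tc_cor g.i2 q g.h2) bt)).symm
  have e3 : ¬ m.cor e2 w := fun q => by
    rcases h.side2 (s.bd1 w4) E.f'.cor2 f.fc.cor1 q (.inr rfl) s4.wk.h2 g.h2 s4.wk.ne with q | q
    exacts [g1.ne q.symm, h.far_bar E.r ((h.lines E.f E.r.2.1).2.2.1.symm.trans
      ((h.lines f s4.wk.i2).1.trans (q ▸ c2)))]
  have nj : e2 ≠ j ∧ e2 ≠ j' := by
    constructor <;> rintro rfl
    exacts [h.far_not_bar D.r di c2, h.far_not_bar D.r.symm di c2]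
  have ey : ¬ m.cor e2 v := fun q => let ⟨_, f⟩ := q.ge
    H.toHz.hv' g (L.no_ay di) bX' so2 f nj.1 nj.2
  obtain ⟨p, q, f2, pa⟩ : ∃ p q, m.GE e2 p q ∧ q ≠ o := by
    by_cases c : m.R e2 = o
    exacts [⟨_, _, (fc_self e2).symm, c ▸ h.neLR e2⟩, ⟨_, _, fc_self e2, c⟩]
  have b2 : m.Sgm ps (m.bar d') k e2 p q := by
    rcases s.wk_cor h r g f2 with c | c
    exacts [c.2, absurd (c2.trans c.1.symm) (h.stem_ne _ g.i2)]
  have w6 := s.wk_w h r g b2
  have g2 := H.dead.pairS h r g op f2 f2.fc.on b2 (s.mem _ _ w6) (s.mem2 w6) (L.toLz.n_sgm g op b2)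
    (L.toLz.n_sgm g op (b2.symm h)) (s.safe_end h r g op f2 so2 b2)
  have pB := s.end_B h r cb g (L.no_ay di) bX' xz.1 xz.2.1 H.XB so2 f2.fc.has1
  have qB := s.end_B h r cb g (L.no_ay di) bX' xz.1 xz.2.1 H.XB so2 f2.fc.has2
  rw [f2.fc.cor_iff, not_or] at e1 e3 ey
  have od := H.od
  by_cases pa' : p = o
  · subst pa'
    have qx : P ≠ q := fun e' => h.far_bar E.r (ld.trans ((eX ▸ (h.lines H.ge ei).2.1 :
      m.ln p P = m.bar e).symm.trans (e' ▸ b2.2.1)))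
    refine ((g2.pair' h f (by simp [wo, e3.2, s.mem _ _ w4]) (by simp [qx, ax.symm, s.mem2 w4]) nX.2
      H.nx (.inr ((s.adj _ _ H.wx).bdy_rm.mono fun _ _ q => ⟨q.1.1.1, q.1.2⟩)) (sf _ _)).sg1 h (x := v)
      (by simp [n1, ey.2, wv.symm, xy.symm, L.toLz.yU]) H.ny
      (bv.mono fun _ _ q => q.1.1.1.1.1)).oddF (B := B) (z := X') (by omega) (H.dal _)
      (by have := cb.cl; unfold Rm Os; grind)
      (by rwa [wB_out cb.yB, wB_out xB, wB_out wB', wB_out qB, wB_out pB])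
      (by simp [xz, e1.2, s.ne w1, s.mem _ _ w1]) nX.1 H.XB fun u q => ?_
    obtain ⟨a1, a2⟩ := s.wk_one h r w1 E.f.on E.f'.on E.r.1
    rcases s.cov3 h r (L.sect_off (by unfold InZ; grind)) H.sx sd
      ⟨a1, ⟨w, E.f.on, a2⟩, h.tc_cor di E.f'.cor1 a1.h2⟩ s3 H.op op H.ge.fc.cor2 E.f.cor1 E.f'.cor1
      (H.le ▸ h.stem_ne e ei) (fun q => h.far_not_bar E.r ei ((h.lines E.f E.r.2.1).1.symm.trans q.symm))
      (fun q => h.far_not_bar E.r di ((h.lines E.f E.r.2.1).1.symm.trans q)) q.1.1.1.1.1.1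
      with c | c | c | c
    · rcases H.two u c with rfl | rfl
      exacts [q.2.2 rfl, q.1.1.1.1.2.2 rfl]
    · exact q.1.2.2 ((s.sid_row h r ⟨sd.wk, ⟨X', ⟨eX ▸ H.ge.fc.has3, H.ge.fc.has2⟩, eX ▸ b.symm h⟩,
        ld ▸ h.tc_bar E.r.2.1 E.f.has3⟩ c).resolve_left xz.2.2)
    · have := s.sgm_one h r w1 E.f.on E.f'.on E.r.1 c
      have := q.1.1.2.2
      have := s.ne w1
      grind
    · exact q.1.1.1.1.1.2 (c.rev.mono bt.bw)
  · have := L.fin cb (g2.pair' h E.f (by simp [e1, s.mem _ _ w1]) (by simp [e3, s.mem2 w1]) nX.1 nX.2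
      (.inl (bX.mono fun _ _ q => q.1.1.1)) ⟨X', E.f.cor1, fun k' q _ => .inl (.inr (by
        rw [h.far_unique E.r q, (h.lines E.f'.ge di).2.1]; exact g.h2))⟩)
      (fun _ _ q => q.1.1.1.1.1) (by simp [L.toLz.aU]; grind) (by simp [L.toLz.yU]; grind) (.inr bv)
      H.toHz.ge.1 ⟨v, D.f.cor1, fun k' q w => absurd (h.far_unique D.r q ▸ D.f'.2) w.1.2.2⟩
    rw [wB_out wB', wB_out H.XB, wB_out qB, wB_out pB] at this
    omega

end Hw

theorem Hz.no (H : m.Hz ps T C C' U W x a y B j j' v o X X') : False := by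
  obtain ⟨i, e, H⟩ := H.hx
  have s := H.toRz.st
  obtain ⟨k, sd, b, c⟩ := s.nxt_bar H.ok H.ord H.ge.symm H.so
  obtain ⟨w, f, so⟩ := c.resolve_left fun n => n (H.one sd b)
  rcases s.safe_or (Fr := Cn.FrT m T) H.ok f (s.sol_w H.ok so f).1 with sf | ⟨k', q, so'⟩
  exacts [H.g3 f so sd.wk.ne.symm sf, H.door sd b ⟨q, f, H.ok.far_ge q f, so, so'⟩]

namespace Rz

variable (L : m.Rz ps T C C' U W x a y)
include L

/-- no segment of walls joins two open faces -/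
theorem nocut : m.NoCut ps W := fun t i k g => by
  by_contra n
  obtain ⟨op, op'⟩ := not_or.1 n
  have h := L.ok
  have s := L.st
  obtain ⟨Z, aZ, yZ, hZ, od, row⟩ := L.cutA g op op'
  have cl : ∀ u w, W u w → u ∈ Zᶜ → w ∈ Zᶜ ∨ w = a ∨ (w = y ∧ x ∈ Z) := fun u w q uZ => by
    by_cases wZ : w ∈ Z
    exacts [.inr (row w u (((hZ u w q).2 fun e => uZ (e.2 wZ)).symm h) wZ), .inl wZ]
  have cb : Cb W a y Zᶜ := ⟨fun n => n aZ, fun n => n yZ, fun u w q uZ => by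
    have := cl u w q uZ; tauto⟩
  obtain ⟨j, j', X, X', D⟩ := L.easy cb od
  have bd : m.Bdy W a ∨ (m.Bdy W y ∧ x ∈ Z) := by
    obtain ⟨u, w, q, o, b⟩ := g.p1
    have := (hZ u w q).1 b
    have := row u w b
    have := row w u (b.symm h)
    have : m.Bdy W u := ⟨i, o.1, op⟩
    have : m.Bdy W w := ⟨i, o.2, op⟩
    grind
  wlog XZ : X' ∈ Z generalizing j j' X X'
  · refine this j' j X' X D.symm (by_contra fun q => h.far_bar D.r ?_)
    have c := (hZ a X (s.sol_w h D.so D.f).2.1).2 (by tauto)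
    have c' := (hZ a X' (s.sol_w h D.so' D.f').2.1).2 (by tauto)
    exact ((h.lines D.f D.r.2.1).2.1.symm.trans c.2.1).trans
      (c'.2.1.symm.trans (h.lines D.f' D.r.2.2.1).2.1)
  by_cases xZ : x ∈ Z
  · exact Hz.no ⟨L, cb, od, D.flip, fun n => n XZ, .inl ⟨rfl, rfl, fun n => n xZ, by tauto⟩⟩
  · exact Hz.no ⟨L, cb, od, D, fun n => n XZ, .inr ⟨rfl, rfl, xZ, by tauto, fun u w q uZ => by
      have := cl u w q uZ; tauto⟩⟩

/-- every cell has one solid arc -/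
theorem sect (z : V) : m.Sect W z := by_contra fun q => by
  have h := L.ok
  have s := L.st
  have iz : InZ x a y z := by_contra fun n => q (L.sect_off n)
  obtain ⟨Z, zZ, cl, ⟨u, wu, uZ⟩, v, wv, vZ⟩ := s.not_sect h q
  have br := fun Z cl u v wu uZ wv vZ => L.toLz.branch (z := z) (Z := Z) (u := u) (v := v) cl wu uZ wv vZ
    fun _ _ _ _ _ g _ op => (L.nocut _ _ _ g).resolve_left op
  have cl' : ∀ u v, W u v → u ≠ z → v ≠ z → u ∈ Zᶜ \ {z} → v ∈ Zᶜ \ {z} :=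
    fun u v w a b c => ⟨fun d => c.1 (cl v u (s.sym _ _ w) b a d), b⟩
  have sw : ∀ (Z : Set V) i p e i' q e', (∀ u v, W u v → u ≠ z → v ≠ z → u ∈ Z → v ∈ Z) →
      m.Bdy W z → m.Fc i z p e → m.Fc i' z q e' → W z p → W z q → m.Safe (Cn.FrT m T) W i →
      m.Safe (Cn.FrT m T) W i' → p ∈ Z → q ∉ Z → False :=
    fun Z i p e i' q e' cl bz f f' w w' sf sf' pZ qZ => L.dead.switch h L.dal Z cl bz f f' sf sf'
      (s.mem _ _ w) (s.mem2 w) (s.mem2 w') (L.toLz.n_bdy bz w).1 (L.toLz.n_bdy bz w).2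
      (L.toLz.n_bdy bz w').2 pZ qZ
  have odd : ∀ (Z : Set V) i p e, (∀ u v, W u v → u ≠ z → v ≠ z → u ∈ Z → v ∈ Z) → z ∉ Z →
      m.Bdy W z → m.Fc i z p e → W z p → m.Safe (Cn.FrT m T) W i → p ∈ Z → wB C.μ U Z % 2 = 1 :=
    fun Z i p e cl zZ bz f w sf pZ => by
      have n := L.toLz.n_bdy bz w
      have := L.toLz.ev0 f w n.1 n.2 (.inl bz) sf Z fun u v w => cl u v w.1.1 w.1.2.1 w.1.2.2
      have := wB_in (μ := C.μ) (Finset.mem_erase.2 ⟨(s.ne w).symm, s.mem2 w⟩) pZ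
      have := L.toLz.one n.2
      rw [wB_out zZ] at *
      omega
  obtain ⟨jx, fx⟩ := L.gx
  have wx := L.wx
  have wy := L.wy
  have xy := L.ne
  have ax := L.toLz.ax
  have ay := L.toLz.ay
  have cb : ∀ Z : Set V, (∀ u v, W u v → u ≠ z → v ≠ z → u ∈ Z → v ∈ Z) → z ∉ Z → ∀ u w, W u w →
      u ∈ Z → w ∈ Z ∨ w = z := fun Z cl zZ u w q uZ => by
    have := cl u w q
    grind
  by_cases za : z = a
  · subst za
    wlog xZ : x ∈ Z generalizing Z u v
    · exact this (Zᶜ \ {z}) (by simp) cl' v wv ⟨vZ, (s.ne wv).symm⟩ u wu (fun n => n.1 uZ)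
        (fun u v w a b c => ⟨fun d => c.1 (cl' v u (s.sym _ _ w) b a d), b⟩) ⟨xZ, ax.symm⟩
    obtain ⟨bz, ⟨c, d, cZ, rfl | rfl | rfl⟩ | ⟨-, i, p, e, f, w, pZ, sf⟩⟩ :=
      br _ cl' v u wv ⟨vZ, (s.ne wv).symm⟩ wu fun n => n.1 uZ
    · exact cZ.1 xZ
    · exact d rfl
    · have cb' : Cb W z c Z := ⟨zZ, cZ.1, fun u w q uZ => by have := cb Z cl zZ u w q uZ; tauto⟩
      have od := odd Z _ _ _ cl zZ bz fx wx (L.safe_x fx) xZ
      obtain ⟨j, j', X, X', D⟩ := L.easy cb' od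
      obtain ⟨-, w1, w2⟩ := s.sol_w h D.so' D.f'
      exact Hz.no ⟨L, cb', od, D, fun n => cZ.1 (cl _ _ (s.sym _ _ w2) (s.ne w1).symm d n),
        .inr ⟨rfl, rfl, xZ, bz, cb Z cl zZ⟩⟩
    · exact sw Z _ _ _ _ _ _ cl bz fx f wx w (L.safe_x fx) sf xZ pZ.1
  · wlog aZ : a ∉ Z generalizing Z u v
    · exact this (Zᶜ \ {z}) (by simp) cl' v wv ⟨vZ, (s.ne wv).symm⟩ u wu (fun n => n.1 uZ)
        (fun u v w a b c => ⟨fun d => c.1 (cl' v u (s.sym _ _ w) b a d), b⟩)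
        fun n => n.1 (not_not.1 aZ)
    obtain ⟨bz, ⟨c, d, cZ, rfl | rfl | rfl⟩ | ⟨-, i, p, e, f, w, pZ, sf⟩⟩ := br _ cl u v wu uZ wv vZ
    · exact aZ (cl _ _ (s.sym _ _ wx) d (Ne.symm za) cZ)
    · exact aZ cZ
    · exact aZ (cl _ _ (s.sym _ _ wy) d (Ne.symm za) cZ)
    rcases iz with rfl | rfl | rfl
    · exact sw Z _ _ _ _ _ _ cl bz f fx.fc.symm w (s.sym _ _ wx) sf (L.safe_x fx) pZ aZ
    · exact za rfl
    have cb' : Cb W a z Z := ⟨aZ, zZ, fun u w q uZ => by have := cb Z cl zZ u w q uZ; tauto⟩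
    have od := odd Z _ _ _ cl zZ bz f w sf pZ
    obtain ⟨j, j', X, X', D⟩ := L.easy cb' od
    obtain ⟨-, w1, w2⟩ := s.sol_w h D.so' D.f'
    exact Hz.no ⟨L, cb', od, D.flip, fun n => aZ (cl _ _ (s.sym _ _ w1) (s.ne w2).symm ay n),
      .inl ⟨rfl, rfl, fun n => aZ (cl _ _ (s.sym _ _ wx) xy ay n), .inr bz⟩⟩

end Rz

omit [Finite J] in
/-- the static facts for a state that is confined at the rung `a y` and the partner `x` -/
theorem Loc.rz {N : V → Prop} {μ : V → ℕ} (h : m.Ok) (r : m.Ord ps) (L : m.Loc T N U W μ a x y)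
    (r1 : ∀ b u v, N b → N u → N v → m.Rn b u → m.Rn b v → u = v) (fr : m.far j j') (g : m.GE j a y)
    (d : x ≠ m.X j) (d' : x ≠ m.X j') : m.Rz ps T L.Cd L.Cl U W x a y :=
  { L.lz h r with
    r1 := fun b u v p q c => r1 b u v (L.near b p) (L.near u q) (L.near v c)
    ry := ⟨j, j', fr, g⟩
    xX := fun n f => by
      rcases h.two_faces (h.fc_ne g).1 g.fc.on (h.far_ge fr g).fc.on f.fc.on fr.1 with rfl | rfl
      exacts [d.symm, d'.symm] }

end Map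

end Pool.Agent.P.MP_5f84aa_co.G
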