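import Pool.Agent.P.MP_5f84aa_co.G.LC
import Pool.Agent.P.MP_5f84aa_co.G.LG1
import Pool.Agent.P.MP_5f84aa_co.G.LQ2

/-! A rung with a further partner: tools, segments that are cuts. -/

namespace Pool.Agent.P.MP_5f84aa_co.G

namespace Map

variable {V J Sg : Type}

/-- the static facts of the type with the rung `a y` -/
structure Rz (m : Map V J Sg) (ps : J → Sg → ℤ) (T : Set Sg) (C C' : Ctx V Sg) (U : Finset V)
    (W : V → V → Prop) (x a y : V) : Prop extends m.Lz ps T C C' U W x a y where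
  r1 : ∀ b u v, C.N b → C.N u → C.N v → m.Rn b u → m.Rn b v → u = v
  ry : m.Rn a y
  xX : ∀ n, m.GE n a y → m.X n ≠ x

/-- a set that is closed once `a` and `y` are removed -/
structure Cb (W : V → V → Prop) (a y : V) (B : Set V) : Prop where
  aB : a ∉ B
  yB : y ∉ B
  cl : ∀ u v, W u v → u ∈ B → v ∈ B ∨ v = a ∨ v = y

variable {m : Map V J Sg} {ps : J → Sg → ℤ} {t : Sg} {T : Set Sg} {C C' : Ctx V Sg}
  {W W' Fr : V → V → Prop} {U U' : Finset V} {B B' Z : Set V} {s : ℤ}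
  {a b c e o p p' q q' u v w x y z X X' : V} {i j j' k k' n n' : J}

theorem Cb.symm (c : Cb W a y B) : Cb W y a B := ⟨c.yB, c.aB, fun u v w b => by
  have := c.cl u v w b; tauto⟩

/-- a triangle at a rung is a face -/
theorem Ok.rung_tri (h : m.Ok) (r : m.Rn a y) (nx : ∀ n, m.GE n a y → m.X n ≠ x) (ax : m.Adj a x) :
    ¬ m.Adj x y := fun xy => by
  obtain ⟨j, j', r, f⟩ := r
  have f' := h.far_ge r f
  have ay := h.adj12 f
  have key : ∀ n, m.On n a y → m.GE n a y := fun n o => by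
    rcases h.two_faces ay.1 f.fc.on f'.fc.on o r.1 with rfl | rfl <;> assumption
  obtain ⟨F, sd, iF⟩ := h.side3 ay xy.symm ax.symm
  obtain ⟨n, o, nF⟩ : ∃ n, m.On n a y ∧ n ∈ F := by
    by_contra q
    push Not at q
    exact r.1 (h.side_one sd (.inl rfl) f.fc.on f'.fc.on (iff_of_false (q _ f.fc.on) (q _ f'.fc.on)))
  obtain ⟨z, -, -, -, g | g⟩ := h.q3k sd iF (fun i c => by
    rcases (key i ⟨c.1, c.2.1⟩).fc.has_iff.1 c.2.2 with e | e | e
    exacts [ax.1 e.symm, xy.1 e, nx i (key i ⟨c.1, c.2.1⟩) e.symm]) (.inl rfl) nF o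
  exacts [(h.fc_ne (key n o)).2.2 g.2.symm, (h.fc_ne (key n o)).2.1 g.2.symm]

/-- a piece of a segment lies in one of two parts -/
theorem Sgm.cut2 (h : m.Ok) (g : m.Ord ps) (b : m.Sgm ps t j k u v) (i : J) :
    m.Sgm ps t j i u v ∨ m.Sgm ps t i k u v := by
  obtain ⟨-, n, o⟩ := b.1
  obtain ⟨n', -, o', q, -, -, e⟩ := b.two h g o
  have e1 := (b.2.2 n o).2
  have e2 := (b.2.2 n' o').2
  by_cases c : Bw ps t j n i ∧ Bw ps t j n' i
  · refine .inl ⟨b.1, b.2.1, fun l p => ⟨(b.2.2 l p).1, ?_⟩⟩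
    rcases q l p with rfl | rfl
    exacts [c.1, c.2]
  · refine .inr ⟨b.1, b.2.1, fun l p => ⟨(b.2.2 l p).1, ?_⟩⟩
    rcases q l p with rfl | rfl <;> unfold Bw at * <;> omega

theorem wB_pair [DecidableEq V] {μ : V → ℕ} (pU : p ∈ U) (qU : q ∈ U) (d : p ≠ q) (e : μ p = 1)
    (e' : μ q = 1) (c : p ∈ B ↔ q ∈ B) : wB μ ((U.erase p).erase q) B % 2 = wB μ U B % 2 := by
  by_cases pB : p ∈ B
  · have := wB_in (μ := μ) pU pB
    have := wB_in (μ := μ) (Finset.mem_erase.2 ⟨d.symm, qU⟩) (c.1 pB)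
    omega
  · rw [wB_out (mt c.2 pB), wB_out pB]

theorem Tg.odd2B (g : m.Tg C Fr s U W) (e : s ≤ 1) (al : C.al W)
    (cl : ∀ u v, W u v → u ∈ B → v ∈ B) (cl' : ∀ u v, W u v → u ∈ B' → v ∈ B')
    (od : wB C.μ U B % 2 = 1) (od' : wB C.μ U B' % 2 = 1) (d : ∀ u ∈ U, u ∈ B → u ∉ B') : False := by
  classical
  have k : ∀ B : Set V, (∀ u v, W u v → u ∈ B → v ∈ B) → Cld W (U.filter (· ∈ B)) :=
    fun B cl u v w q => Finset.mem_filter.2 ⟨g.st.mem2 w, cl u v w (Finset.mem_filter.1 q).2⟩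
  unfold wB at od od'
  have := g.odd2 al (U.filter_subset _) (k B cl) (Nat.odd_iff.2 (by convert od)) (U.filter_subset _)
    (k B' cl') (Nat.odd_iff.2 (by convert od')) (Finset.disjoint_filter.2 d)
  omega

theorem Tg.oddF (g : m.Tg C Fr s U W) (e : s ≤ 1) (al : C.al W)
    (cl : ∀ u v, W u v → u ∈ B → v ∈ B) (od : wB C.μ U B % 2 = 1) (zU : z ∈ U) (n : C.N z)
    (zB : z ∉ B) (f : ∀ v, ¬ W z v) : False := by
  classical
  refine g.odd2B e al cl (B' := {z}) (fun u v w q => absurd ((q : u = z) ▸ w) (f v)) od ?_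
    fun u _ a b => zB ((b : u = z) ▸ a)
  have := wB_in (μ := C.μ) (B := {z}) zU rfl
  have e : wB C.μ (U.erase z) {z} = 0 := by
    unfold wB
    exact Finset.sum_eq_zero fun u q => by simp at q; tauto
  have := g.one z n
  omega

/-- a light inside a ring cell -/
theorem Tg.sg1 [Finite V] [DecidableEq V] (g : m.Tg C Fr s U W) (h : m.Ok) (xU : x ∈ U) (n : C.N x)
    (b : m.Bdy W x) : m.Tg C Fr (s + 1) (U.erase x) (Rm W x) := by
  convert ((g.inside x).rm1 h xU n b fun v _ => .inl (.inr rfl)).weak (Fr' := Fr)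
    fun u v _ q => .inl (.inl q) using 1
  omega

namespace HSt

variable (h : m.Ok) (st : m.HSt U W) (g : m.Ord ps)
include h st g

/-- two segments that leave a solid landing -/
theorem join (f : m.Fc j p q X) (so : m.Sol W j) (a : m.Wk ps W (m.bar j) j i)
    (b : m.Sgm ps (m.bar j) j i p X) (a' : m.Wk ps W (m.bar j) j k)
    (b' : m.Sgm ps (m.bar j) j k q X) : m.Wk ps W (m.bar j) i k ∧ Bt ps (m.bar j) i j k := by
  obtain ⟨n1, d1, o1, -⟩ := b.two h g ⟨f.has1, f.has3⟩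
  obtain ⟨n2, d2, o2, -⟩ := b'.two h g ⟨f.has2, f.has3⟩
  have e := g.land h f (st.bd2 (st.sol_w h so f).2.1) o1 o2 d1 d2
  have e1 := (b.2.2 n1 o1).2
  have e2 := (b'.2.2 n2 o2).2
  have bt : Bt ps (m.bar j) i j k := by unfold Bw at e1 e2; unfold Bt; omega
  exact ⟨a.rev.trans g a' bt so, bt⟩

/-- the walk from a solid corner to the end of the bar -/
theorem ray_bar [Finite J] (f : m.Fc j p q X) (so : m.Sol W j) : ∃ k, m.Wk ps W (m.bar j) j k ∧
    m.Sgm ps (m.bar j) j k p X ∧ (¬ m.Sol W k ∨ m.stem k = m.bar j) := by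
  have := st.ray h g (st.sol_w h so f).2.1 (j := j) ⟨f.has1, f.has3⟩
  rwa [(h.lines f (st.sol_inf h so)).2.1] at this

/-- the cells of a segment lie on one side -/
theorem seg_B (cb : Cb W a y B) (k₀ : m.Wk ps W t j k) (n : ¬ m.Sgm ps t j k a y)
    (b : m.Sgm ps t j k p q) (b' : m.Sgm ps t j k p' q') (d1 : p ≠ a) (d2 : p ≠ y) (d3 : p' ≠ a)
    (d4 : p' ≠ y) : p ∈ B ↔ p' ∈ B := by
  have cl : ∀ u v, W u v → u ≠ a → u ≠ y → v ≠ a → v ≠ y → (u ∈ B ↔ v ∈ B) := fun u v w => by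
    have := cb.cl u v w; have := cb.cl v u (st.sym _ _ w); tauto
  have n' : ¬ m.Sgm ps t j k y a := fun q => n (q.symm h)
  obtain ⟨u, v, w, o, c, e1, e2⟩ : ∃ u v, W u v ∧ m.On j u v ∧ m.Sgm ps t j k u v ∧ u ≠ a ∧ u ≠ y := by
    obtain ⟨u, v, w, o, c⟩ := k₀.p1
    by_cases e : u ≠ a ∧ u ≠ y
    · exact ⟨u, v, w, o, c, e⟩
    · refine ⟨v, u, st.sym _ _ w, o.symm, c.symm h, ?_⟩
      have := st.ne w
      grind
  have key : ∀ p q, m.Sgm ps t j k p q → (p ≠ a → p ≠ y → (p ∈ B ↔ u ∈ B)) ∧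
      (q ≠ a → q ≠ y → (q ∈ B ↔ u ∈ B)) := fun p q b =>
    st.wk_ind h g k₀ (P := fun p q => (p ≠ a → p ≠ y → (p ∈ B ↔ u ∈ B)) ∧
      (q ≠ a → q ≠ y → (q ∈ B ↔ u ∈ B))) (fun _ _ => And.symm) (fun p q o' b => by
        have := cl v u (st.sym _ _ w)
        rcases st.wk_first h g k₀ w o c o' b with ⟨rfl, rfl⟩ | ⟨rfl, rfl⟩ <;> tauto)
      (fun i p q e f l bt so ih => ⟨by
        obtain ⟨w1, w2, w3⟩ := st.sol_w h so f
        have c := st.wk_land h g k₀ f l (st.sol_inf h so) bt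
        have := st.ne w2
        intro q1 q2
        by_cases c1 : p ≠ a ∧ p ≠ y
        · exact (cl p q w1 c1.1 c1.2 q1 q2).symm.trans (ih.1 c1.1 c1.2)
        by_cases c2 : e ≠ a ∧ e ≠ y
        · exact (cl q e w3 q1 q2 c2.1 c2.2).trans (ih.2 c2.1 c2.2)
        grind, ih.2⟩) b
  exact ((key p q b).1 d1 d2).trans ((key p' q' b').1 d3 d4).symm

/-- the cells of the solid last face lie on the same side -/
theorem end_B (cb : Cb W a y B) (k₀ : m.Wk ps W t j k) (n : ¬ m.Sgm ps t j k a y)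
    (b : m.Sgm ps t j k p q) (d1 : p ≠ a) (d2 : p ≠ y) (pB : p ∉ B) (so : m.Sol W k) (c : m.has k w) :
    w ∉ B := fun wB => by
  obtain ⟨u, v, o, b', e1, e2⟩ : ∃ u v, m.On k u v ∧ m.Sgm ps t j k u v ∧ u ≠ a ∧ u ≠ y := by
    obtain ⟨u, v, w, o, c⟩ := k₀.p2
    by_cases e : u ≠ a ∧ u ≠ y
    · exact ⟨u, v, o, c, e⟩
    · refine ⟨v, u, o.symm, c.symm h, ?_⟩
      have := st.ne w
      have := c.symm h
      grind
  have := st.seg_B h g cb k₀ n b b' d1 d2 e1 e2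
  by_cases e : w = u
  · grind
  · have := cb.cl w u (so w u e ⟨c, o.1⟩) wB
    tauto

end HSt

namespace Rz

variable (L : m.Rz ps T C C' U W x a y)
include L

theorem st : m.HSt U W := L.toLz.st

theorem xy : ¬ W x y := fun w => L.ok.rung_tri L.ry L.xX (L.st.adj _ _ L.wx) (L.st.adj _ _ w)

/-- a second corner of a cell with a rung is no end of a rung -/
theorem nofar (r : m.Rn b u) (f : m.Fc n b z e) (nb : C.N b) (nu : C.N u) (nz : C.N z) (d : z ≠ u) :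
    m.Safe Fr W' n := safe_of_not fun k' q => d (L.r1 b z u nb nz nu ⟨n, k', q, f.ge⟩ r)

theorem safe_x (f : m.Fc n a x e) : m.Safe Fr W' n := L.nofar L.ry f L.na L.ny L.nx L.ne

/-- the rung is no piece of a bar -/
theorem no_ay (ni : n ≠ m.inf) : ¬ m.Sgm ps (m.bar n) j k a y := fun b => by
  obtain ⟨i, i', r, f⟩ := L.ry
  exact L.ok.far_not_bar r ni ((L.ok.lines f r.2.1).1.symm.trans b.2.1)

variable [Finite V] [DecidableEq V]

/-- the last light at an end of the rung -/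
theorem fin (cb : Cb W a y B) (g : m.Tg C Fr 0 U' W') (le : ∀ u v, W' u v → W u v) (aU : a ∈ U')
    (yU : y ∈ U') (b : m.Bdy W a ∨ m.Bdy W y) (f : m.GE n a y) (sf : m.Safe Fr W' n) :
    wB C.μ U' B % 2 = 0 := by
  have := (g.pair' L.ok f aU yU L.na L.ny (b.imp (·.mono le) (·.mono le)) sf).evB le_rfl (L.dal _) B
    fun u v w q => by
      have := cb.cl u v (le _ _ w.1.1) q
      have := w.1.2.2
      have := w.2.2
      tauto
  rwa [wB_out cb.yB, wB_out cb.aB] at this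

/-- the rung with an open end is usable -/
theorem easy (cb : Cb W a y B) (od : wB C.μ U B % 2 = 1) :
    ∃ j j' X X', m.Door W j j' a y X X' := by
  obtain ⟨j, j', r, f⟩ := L.ry
  have key : ∀ j j', m.far j j' → m.GE j a y → m.Sol W j' := fun j j' r f => by_contra fun op => by
    have := L.fin cb L.dead (fun _ _ => id) L.toLz.aU L.toLz.yU
      (.inl ⟨j', (L.ok.far_ge r f).fc.has1, op⟩) f
      (L.st.safe_of_open L.ok f L.wy fun k' q => L.ok.far_unique r q ▸ op)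
    omega
  exact ⟨j, j', _, _, r, f, L.ok.far_ge r f, key j' j r.symm (L.ok.far_ge r f), key j j' r f⟩

/-- two rungs light each other -/
theorem mtl (cb : Cb W a y B) (vo : (v = a ∧ o = y) ∨ (v = y ∧ o = a))
    (D : m.Door W j j' v o X X') (bv : m.Bdy W v) (f : m.Fc n X' w e) (so : m.Sol W n)
    (ev : e = v ∨ e = o) (d1 : w ≠ v) (d2 : w ≠ o) (r : m.far n n') : wB C.μ U B % 2 = 0 := by
  have h := L.ok
  have s := L.st
  obtain ⟨w1, w2, -⟩ := s.sol_w h D.so' D.f'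
  obtain ⟨n1, n2, n3⟩ := h.fc_ne D.f'
  obtain ⟨w3, -, w4⟩ := s.sol_w h so f
  have nv := L.toLz.n_bdy bv w1
  have nw : C.N w := L.near w ((((L.toLz.fe_bdy bv w2).wall w2).wall w3).mono (by omega))
  have nX := (L.toLz.n_bdy bv w2).2
  have g1 := (L.dead.light h D.f.symm D.r.2.1).rm1 h (s.mem _ _ w1) nv.1 bv
    fun _ _ => .inl (.inr (.inl rfl))
  have g2 := g1.pair h (h.far_ge r f.ge).fc.symm (Finset.mem_erase.2 ⟨d1, s.mem2 w3⟩)
    (Finset.mem_erase.2 ⟨n2.symm, s.mem2 w2⟩) nw nX (.inr (bdy_rm ⟨D.f'.has1, D.f'.has3⟩ n2))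
    fun k' q w' => by
      obtain rfl := h.far_unique r.symm q
      rw [f.2] at w' ⊢
      rcases ev with rfl | rfl
      · exact absurd rfl w'.2.2
      · exact .inr (.inr (.inr (.inr ⟨rfl, fun k q => by
          rw [h.far_unique D.r q, D.f'.2]; exact s.ne w3⟩)))
  have g3 := g2.rm1 h (x := o) (by simp [n3, d2.symm, n1.symm, s.mem2 w1]) nv.2
    ((bdy_rm D.f.on n1).mono fun _ _ q => q.1.1) fun u w' => .inl (.inl (.inr (.inr (.inr
      ⟨rfl, fun k q => by rw [h.far_unique D.r q, D.f'.2]; exact w'.2.2.symm⟩))))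
  have e1 := g3.evB (by omega) (L.dal _) B fun p q w b => by
    have := cb.cl p q w.1.1.1.1 b
    have := w.2.2
    have := w.1.1.1.2.2
    grind
  have := cb.aB
  have := cb.yB
  have := cb.cl _ _ w3
  have := cb.cl _ _ (s.sym _ _ w3)
  rw [wB_out (by grind), wB_pair (Finset.mem_erase.2 ⟨d1, s.mem2 w3⟩)
    (Finset.mem_erase.2 ⟨n2.symm, s.mem2 w2⟩) (s.ne w3).symm (L.toLz.one nw) (L.toLz.one nX) (by grind),
    wB_out (by grind)] at e1
  exact e1

/-- a cut that contains no wall of the zone -/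
theorem c1 (g : m.Wk ps W t j k) (op : ¬ m.Sol W j)
    (hZ : ∀ u v, W u v → (m.Sgm ps t j k u v ↔ ¬ (u ∈ Z ↔ v ∈ Z))) (aZ : a ∈ Z)
    (n1 : ¬ m.Sgm ps t j k a x) (n2 : ¬ m.Sgm ps t j k a y) :
    wB C.μ U Zᶜ % 2 = 1 ∧ ∀ p q, m.Sgm ps t j k p q → p ∈ Z → p = a ∨ p = y := by
  have h := L.ok
  have r := L.ord
  have s := L.st
  have cl : ∀ u v, m.Os ps W t j k u v → u ∈ Zᶜ → v ∈ Zᶜ := fun u v w => by
    have := hZ u v w.1; have := w.2; simp only [Set.mem_compl_iff]; tauto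
  have sp : ∀ u v, m.Sgm ps t j k u v → ¬ (u ∈ Z ↔ v ∈ Z) := fun u v b =>
    (hZ u v (s.wk_w h r g b)).1 b
  have xZ : x ∈ Z := by have := hZ a x L.wx; tauto
  have yZ : y ∈ Z := by have := hZ a y L.wy; tauto
  obtain ⟨u, v, w, o, b, uZ, vZ⟩ : ∃ u v, W u v ∧ m.On j u v ∧ m.Sgm ps t j k u v ∧ u ∉ Z ∧ v ∈ Z := by
    obtain ⟨u, v, w, o, b⟩ := g.p1
    have := sp u v b
    by_cases c : u ∈ Z
    exacts [⟨v, u, s.sym _ _ w, o.symm, b.symm h, by tauto, c⟩, ⟨u, v, w, o, b, c, by tauto⟩]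
  have e1 := L.toLz.f2S g op b (by rintro (rfl | rfl | rfl) <;> contradiction) n1 n2 Zᶜ (fun n => n aZ)
    fun p q w => cl p q w.1
  have e2 := wB_in (μ := C.μ) (B := Zᶜ) (s.mem _ _ w) uZ
  have e3 := L.toLz.one (L.toLz.n_sgm g op b)
  have row : ∀ p q, m.Sgm ps t j k p q → p ∈ Z → InZ x a y p := fun p q c pZ => by_contra fun n => by
    have := L.toLz.f2S g op c n n1 n2 Zᶜ (fun n => n aZ) fun p q w => cl p q w.1
    rw [wB_outc pZ] at this
    omega
  have lx : ∀ i q e, m.Fc i x q e → m.bar i = t → Bt ps t j i k → m.Sol W i → False :=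
    fun i q e f l bt so => by
      have c1 := s.wk_land h r g f l (s.sol_inf h so) bt
      have c2 := s.wk_land h r g f.symm l (s.sol_inf h so) bt
      have qZ : q ∈ Z := by have := sp _ _ c1; have := sp _ _ c2; tauto
      rcases row _ _ c2 qZ with rfl | rfl | rfl
      · exact (h.fc_ne f).1 rfl
      · have := L.toLz.evL g op f l bt so (L.safe_x f.symm) Zᶜ (fun n => n xZ) (fun n => n qZ) cl
        omega
      · exact L.xy (s.sol_w h so f).1
  have one : ∀ p q, m.Sgm ps t j k p q → (p ∈ Z → (p = x ↔ v = x)) ∧ (q ∈ Z → (q = x ↔ v = x)) :=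
    fun p q c => s.wk_ind h r g (P := fun p q => (p ∈ Z → (p = x ↔ v = x)) ∧ (q ∈ Z → (q = x ↔ v = x)))
      (fun _ _ => And.symm) (fun p q o' c => by
        rcases s.wk_first h r g w o b o' c with ⟨rfl, rfl⟩ | ⟨rfl, rfl⟩ <;> tauto)
      (fun i p q e f l bt so ih => ⟨fun qZ => by
        have c1 := s.wk_land h r g f l (s.sol_inf h so) bt
        have c2 := s.wk_land h r g f.symm l (s.sol_inf h so) bt
        have pZ : p ∈ Z := by have := sp _ _ c1; have := sp _ _ c2; tauto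
        exact iff_of_false (fun e => lx i _ _ (e ▸ f.symm) l bt so)
          fun e => lx i _ _ ((ih.1 pZ).2 e ▸ f) l bt so, ih.2⟩) c
  refine ⟨by omega, fun p q c pZ => (row p q c pZ).resolve_left fun e => ?_⟩
  obtain rfl := ((one p q c).1 pZ).1 e
  obtain ⟨i, f⟩ := L.gx
  have := L.toLz.ev0 f L.wx L.na L.nx (.inr ⟨j, o.2, op⟩) (L.safe_x f) Zᶜ fun p q w pZ qZ =>
    w.2.2 (((one p q ((hZ p q w.1.1).2 fun e => pZ (e.2 qZ))).2 qZ).2 rfl)
  rw [wB_outc xZ, wB_outc aZ] at this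
  omega

/-- a cut that starts with the wall `a x` -/
theorem c2 (g : m.Wk ps W t j k) (op : ¬ m.Sol W j)
    (hZ : ∀ u v, W u v → (m.Sgm ps t j k u v ↔ ¬ (u ∈ Z ↔ v ∈ Z))) (aZ : a ∈ Z) (yZ : y ∈ Z)
    (b : m.Sgm ps t j k a x) (f : m.GE j a x) :
    wB C.μ U Zᶜ % 2 = 1 ∧ ∀ p q, m.Sgm ps t j k p q → p ∈ Z → p = a := by
  have h := L.ok
  have r := L.ord
  have s := L.st
  have cl : ∀ u v, m.Os ps W t j k u v → u ∈ Zᶜ → v ∈ Zᶜ := fun u v w => by
    have := hZ u v w.1; have := w.2; simp only [Set.mem_compl_iff]; tauto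
  have cl' : ∀ u v, m.Os ps W t j k u v → u ∈ Z → v ∈ Z := fun u v w => by
    have := hZ u v w.1; have := w.2; tauto
  have sp : ∀ u v, m.Sgm ps t j k u v → ¬ (u ∈ Z ↔ v ∈ Z) := fun u v b =>
    (hZ u v (s.wk_w h r g b)).1 b
  have xZ : x ∉ Z := by have := sp a x b; tauto
  have e2 := L.toLz.evS g op f f.fc.on b L.toLz.aU L.toLz.xU L.na L.nx (L.safe_x f) Zᶜ
    fun u v w => cl u v w.1.1
  have e4 := wB_in (μ := C.μ) (B := Zᶜ) (Finset.mem_erase.2 ⟨L.toLz.ax.symm, L.toLz.xU⟩) xZ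
  have e6 := L.toLz.one L.nx
  have e7 := L.toLz.tot Z
  rw [wB_outc aZ] at e4
  have ind : ∀ P : V → Prop, P a → (∀ i p q e, m.Fc i p q e → m.bar i = t → Bt ps t j i k → m.Sol W i →
      (∃ i', m.far i i' ∧ m.Sol W i') → C.N p → C.N q → P p → P q) →
      ∀ p q, m.Sgm ps t j k p q → p ∈ Z → P p := fun P pa st p q c =>
    (s.wk_ind h r g (P := fun p q => (p ∈ Z → P p) ∧ (q ∈ Z → P q)) (fun _ _ => And.symm)
      (fun p q o' c => by
        rcases s.wk_first h r g L.wx f.fc.on b o' c with ⟨rfl, rfl⟩ | ⟨rfl, rfl⟩ <;> tauto)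
      (fun i p q e f l bt so ih => ⟨fun qZ => by
        have c1 := s.wk_land h r g f l (s.sol_inf h so) bt
        have c2 := s.wk_land h r g f.symm l (s.sol_inf h so) bt
        have pZ : p ∈ Z := by have := sp _ _ c1; have := sp _ _ c2; tauto
        refine st i p q e f l bt so ((s.safe_or (Fr := Cn.FrT m T) h f
          (s.sol_w h so f).1).resolve_left fun sf => ?_)
          (L.toLz.n_sgm g op c1) (L.toLz.n_sgm g op c2) (ih.1 pZ)
        have := L.toLz.evL g op f l bt so sf Zᶜ (fun n => n pZ) (fun n => n qZ) cl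
        omega, ih.2⟩) c).1
  have row := ind (fun p => p = a ∨ p = y) (.inl rfl) fun i p q e f₁ _ _ _ ⟨i', c, _⟩ np nq ih => by
    rcases ih with rfl | rfl
    exacts [.inr (L.r1 _ _ _ np nq L.ny ⟨i, i', c, f₁.ge⟩ L.ry),
      .inl (L.r1 _ _ _ np nq L.na ⟨i, i', c, f₁.ge⟩ L.ry.symm)]
  have cb : Cb W a y Zᶜ := ⟨fun n => n aZ, fun n => n yZ, fun u v w uZ => by
    by_cases vZ : v ∈ Z
    exacts [.inr (row v u (((hZ u v w).2 fun e => uZ (e.2 vZ)).symm h) vZ), .inl vZ]⟩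
  refine ⟨by omega, ind (· = a) rfl ?_⟩
  rintro i p q e f' l bt so ⟨i', c, so'⟩ np nq pa
  obtain rfl : a = p := pa.symm
  obtain rfl := L.r1 _ _ _ np nq L.ny ⟨i, i', c, f'.ge⟩ L.ry
  have ii := s.sol_inf h so
  obtain ⟨n1, n2, n3⟩ := h.fc_ne f'
  have g' := s.wk_sub h r g ii (.inr l) bt
  have sd : m.Sid ps W a t i j := s.sid_rev h r ⟨g', ⟨x, f.fc.on, ((b.cut2 h r i).resolve_right fun c =>
    by have := (c.2.2 j f.fc.on).2; unfold Bt Bw at *; omega)⟩, h.tc_cor ii f'.cor1 (.inr l)⟩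
  have b' := HSt.sid_cor h sd f'.cor1 ⟨f'.has1, f'.has3⟩ n2 ((h.lines f' ii).2.1.trans l)
  obtain ⟨n, d, o, -⟩ := h.other (j := i) ⟨f'.has1, f'.has3⟩ n2
  obtain ⟨w, w1, w2, tr⟩ := h.third o n2
  rcases s.sid_step h r sd b' tr w1 w2.symm with ⟨f2, -⟩ | e | rfl
  rotate_left
  · exact absurd e d
  · have := L.xX i f'.ge
    have := f'.2
    have := f.fc.has_iff.1 o.2
    have := (h.fc_ne f).2.1
    have := h.stem_ne n g.i1
    have := (h.lines f g.i1).1.symm.trans b.2.1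
    have := (h.lines f g.i1).2.1
    have := b'.2.1
    grind
  rcases HSt.sgm_sol h r sd.wk b' o with e | rfl | ⟨sn, gn, bn⟩
  · exact absurd e d
  · exact absurd f2.2 (h.fc_ne f).2.1.symm
  have ni := s.sol_inf h sn
  have eZ : e ∉ Z := by have := sp a e (b'.rev.mono bt.bw); tauto
  have wZ : w ∉ Z := by
    have := sp w a (s.wk_land h r g f2.symm ((h.lines f2 ni).2.1.symm.trans (b'.symm h).2.1) ni
      (by unfold Bt at *; omega))
    tauto
  rcases s.safe_or (Fr := Cn.FrT m T) h f2 (s.sol_w h sn f2).1 with sf | ⟨n', c', -⟩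
  · have := L.toLz.evL g op f2 ((h.lines f2 ni).2.1.symm.trans (b'.symm h).2.1)
      (by unfold Bt at *; omega) sn sf Z eZ wZ cl'
    omega
  · have := L.mtl cb (.inl ⟨rfl, rfl⟩) ⟨c.symm, h.far_ge c f'.ge, f', so', so⟩
      ⟨j, f.fc.has1, op⟩ f2 sn (.inl rfl) w1 (fun e => wZ (e ▸ yZ)) c'
    omega

variable [Finite J]

/-- the segments that are cuts -/
theorem cutA (g : m.Wk ps W t j k) (op : ¬ m.Sol W j) (op' : ¬ m.Sol W k) : ∃ Z : Set V,
    a ∈ Z ∧ y ∈ Z ∧ (∀ u v, W u v → (m.Sgm ps t j k u v ↔ ¬ (u ∈ Z ↔ v ∈ Z))) ∧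
      wB C.μ U Zᶜ % 2 = 1 ∧ ∀ p q, m.Sgm ps t j k p q → p ∈ Z → p = a ∨ (p = y ∧ x ∈ Z) := by
  have h := L.ok
  have r := L.ord
  have s := L.st
  obtain ⟨Z, hZ⟩ := s.cut_sgm h r g.i1 g.i2 g.h1 g.h2 op op'
  wlog aZ : a ∈ Z generalizing Z
  · exact this Zᶜ (fun u v w => by rw [hZ u v w, Set.mem_compl_iff, Set.mem_compl_iff]; tauto) aZ
  obtain ⟨i, f⟩ := L.gx
  have n2 : ¬ m.Sgm ps t j k a y := fun b => by
    obtain ⟨n, n', c, f'⟩ := L.ry
    have two : ∀ u v, m.Sgm ps t j k u v → u = a ∨ u = y := fun u v b' =>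
      f'.fc.cor_iff.1 (h.rung n n' c u v b'.1 (b'.2.1.trans (b.2.1.symm.trans (h.lines f' c.2.1).1))).1
    have yZ : y ∉ Z := by have := (hZ a y L.wy).1 b; tauto
    have xZ : x ∈ Z := by
      have := mt fun b => two x a (Sgm.symm h b)
      have := hZ a x L.wx
      have := L.ne
      have := L.toLz.ax
      tauto
    have ba : m.Bdy W a := by
      obtain ⟨u, v, w, o, b'⟩ := g.p1
      have := two u v b'
      have := two v u (b'.symm h)
      have := s.ne w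
      exact ⟨j, by have := o.1; have := o.2; grind, op⟩
    have cl : ∀ u v, W u v → v ≠ a → u ∈ Zᶜ → v ∈ Zᶜ := fun u v w d uZ vZ => by
      have := two v u (((hZ u v w).2 fun e => uZ (e.2 vZ)).symm h)
      grind
    have e1 := L.toLz.ev0 f L.wx L.na L.nx (.inl ba) (L.safe_x f) Zᶜ fun u v w => cl u v w.1.1 w.1.2.2
    have e2 := L.toLz.ev0 f' L.wy L.na L.ny (.inl ba) (s.safe_of_open h f' L.wy fun k' q so => by
      rcases HSt.sgm_sol h r g b (h.far_ge q f').fc.on with rfl | rfl | ⟨-, e, bt⟩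
      exacts [op so, op' so, h.far_not_bar c q.2.2.1 ((h.lines f' c.2.1).1.symm.trans (b.2.1.trans
        (r.bar_of_bt g.i1 q.2.2.1 g.i2 g.h1 e g.h2 bt).symm))]) Zᶜ fun u v w => cl u v w.1.1 w.1.2.2
    have e3 := wB_in (μ := C.μ) (B := Zᶜ) (Finset.mem_erase.2 ⟨L.toLz.ay.symm, L.toLz.yU⟩) yZ
    have := L.toLz.one L.ny
    rw [wB_outc xZ] at e1
    omega
  have yZ : y ∈ Z := by have := hZ a y L.wy; tauto
  refine ⟨Z, aZ, yZ, hZ, ?_⟩
  by_cases b : m.Sgm ps t j k a x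
  · rcases HSt.sgm_sol h r g b f.fc.on with rfl | rfl | ⟨so, e, bt⟩
    · exact (L.c2 g op hZ aZ yZ b f).imp_right fun c p q u v => .inl (c p q u v)
    · exact (L.c2 g.rev op' (fun u v w => ⟨fun q => (hZ u v w).1 q.rev, fun q => ((hZ u v w).2 q).rev⟩)
        aZ yZ b.rev f).imp_right fun c p q u v => .inl (c p q u.rev v)
    · have ii := s.sol_inf h so
      exact absurd (((h.lines f ii).1.symm.trans b.2.1).trans
        (r.bar_of_bt g.i1 ii g.i2 g.h1 e g.h2 bt).symm) (h.stem_ne i ii)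
  · have xZ : x ∈ Z := by have := hZ a x L.wx; tauto
    exact (L.c1 g op hZ aZ b n2).imp_right fun c p q u v => (c p q u v).imp_right fun e => ⟨e, xZ⟩

/-- a cell of a cut has no further wall to the rung -/
theorem cutK (g : m.Wk ps W t j k) (op : ¬ m.Sol W j) (op' : ¬ m.Sol W k) (b : m.Sgm ps t j k u w)
    (d : u ≠ a) (d' : u ≠ y) (w' : W u o) (e : o = a ∨ o = y) : m.Sgm ps t j k u o := by
  obtain ⟨Z, aZ, yZ, hZ, -, row⟩ := L.cutA g op op'
  have := row u w b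
  have := hZ u o w'
  grind

end Rz

end Map

end Pool.Agent.P.MP_5f84aa_co.G
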