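import Pool.Agent.P.MP_5f84aa_co.G.LR0a

/-! A rung with a further partner: an odd set that hangs at the rung. -/

namespace Pool.Agent.P.MP_5f84aa_co.G

namespace Map

variable {V J Sg : Type} {m : Map V J Sg} {ps : J → Sg → ℤ} {t : Sg} {T : Set Sg} {C C' : Ctx V Sg}
  {W : V → V → Prop} {U : Finset V} {B Z : Set V}
  {a c e o p q u v w x y z X X' : V} {i j j' k k' n : J} [Finite V] [Finite J] [DecidableEq V]

/-- a branch at a cut vertex contains the end of a segment -/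
theorem Lz.branch (L : m.Lz ps T C C' U W x a y)
    (cl : ∀ u v, W u v → u ≠ z → v ≠ z → u ∈ Z → v ∈ Z) (wu : W z u) (uZ : u ∈ Z)
    (wv : W z v) (vZ : v ∉ Z) (hc : ∀ u t j e, u ∈ Z → m.Wk ps W t j e → m.Sgm ps t j e z u →
      ¬ m.Sol W j → m.Sol W e) : m.Bdy W z ∧ ((∃ c, c ≠ z ∧ c ∈ Z ∧ InZ x a y c) ∨
      (InZ x a y z ∧ ∃ i p e, m.Fc i z p e ∧ W z p ∧ p ∈ Z ∧ m.Safe (Cn.FrT m T) W i)) := by
  have h := L.ok
  have r := L.ord
  have s := L.st
  obtain ⟨u, w, uZ, j, o, op⟩ : ∃ u, W z u ∧ u ∈ Z ∧ ∃ j, m.On j z u ∧ ¬ m.Sol W j := by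
    by_contra n
    push Not at n
    have key : ∀ j c, m.Sol W j → m.On j z c → c ≠ z → c ∈ Z → ∀ c', m.has j c' → c' ≠ z → c' ∈ Z :=
      fun j c so o d cZ c' o' d' => by
        by_cases e : c = c'
        exacts [e ▸ cZ, cl c c' (so c c' e ⟨o.2, o'⟩) d d' cZ]
    obtain ⟨d, j, o⟩ := s.adj _ _ wu
    obtain ⟨d', j', o'⟩ := s.adj _ _ wv
    obtain ⟨so, c, oc, dc, cZ⟩ := h.lk0 (F := {j | m.Sol W j ∧ ∃ c, m.On j z c ∧ c ≠ z ∧ c ∈ Z})
      (v := z) (by
        rintro w ⟨d, j1, j2, o1, o2, ⟨so, c, oc, dc, cZ⟩, e⟩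
        have wZ := key j1 c so oc dc cZ w o1.2 d.symm
        exact e ⟨n w (so z w d o1) wZ j2 o2, w, o2, d.symm, wZ⟩) o.1 o'.1
      ⟨n u wu uZ j o, u, o, d.symm, uZ⟩
    exact vZ (key j' c so oc dc cZ v o'.2 d'.symm)
  refine ⟨⟨j, o.1, op⟩, ?_⟩
  obtain ⟨i, g, b, l⟩ := s.ray h r w o
  have so := hc _ _ _ _ uZ g b op
  replace l := l.resolve_left fun n => n so
  have all : ∀ p q, m.Sgm ps (m.ln z u) j i p q → (p = z ∨ p ∈ Z) ∧ (q = z ∨ q ∈ Z) := fun p q c =>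
    s.wk_ind h r g (P := fun p q => (p = z ∨ p ∈ Z) ∧ (q = z ∨ q ∈ Z)) (fun _ _ => And.symm)
      (fun p q o' c => by
        rcases s.wk_first h r g w o b o' c with ⟨rfl, rfl⟩ | ⟨rfl, rfl⟩ <;> tauto)
      (fun n p q e f _ _ so ih => ⟨by
        obtain ⟨w1, w2, w3⟩ := s.sol_w h so f
        have := cl p q w1
        have := cl e q (s.sym _ _ w3)
        have := s.ne w2
        grind, ih.2⟩) c
  have f := fc_self (m := m) i
  have c := HSt.wk_stem h g l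
  have w' := s.wk_w h r g c
  have sf : m.Safe (Cn.FrT m T) W i := s.safe_end h r g op f so c
  have a1 := all _ _ c
  have ne := s.ne w'
  by_contra n
  obtain ⟨n1, n2⟩ := not_or.1 n
  have n3 : ∀ c, c = z ∨ c ∈ Z → InZ x a y c → c = z := fun c p q => by_contra fun d =>
    n1 ⟨c, d, p.resolve_left d, q⟩
  rcases L.f1S g op f f.on c (s.mem _ _ w') (s.mem2 w') (L.n_sgm g op c)
    (L.n_sgm g op (c.symm h)) sf with (q | q) | q | q
  · obtain e := n3 _ a1.1 q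
    exact n2 ⟨e ▸ q, i, _, _, e ▸ f, e ▸ w', a1.2.resolve_left fun e' => ne (e.trans e'.symm), sf⟩
  · obtain e := n3 _ a1.2 q
    exact n2 ⟨e ▸ q, i, _, _, e ▸ f.symm, e ▸ s.sym _ _ w',
      a1.1.resolve_left fun e' => ne (e'.trans e.symm), sf⟩
  · exact L.ax ((n3 _ (all _ _ q).1 (.inr (.inl rfl))).trans (n3 _ (all _ _ q).2 (.inl rfl)).symm)
  · exact L.ay ((n3 _ (all _ _ q).1 (.inr (.inl rfl))).trans
      (n3 _ (all _ _ q).2 (.inr (.inr rfl))).symm)

/-- an odd set `B` that hangs at the rung; the flat cell `X'` lies outside -/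
structure Hz (m : Map V J Sg) (ps : J → Sg → ℤ) (T : Set Sg) (C C' : Ctx V Sg) (U : Finset V)
    (W : V → V → Prop) (x a y : V) (B : Set V) (j j' : J) (v o X X' : V) : Prop
    extends m.Rz ps T C C' U W x a y where
  cb : Cb W a y B
  od : wB C.μ U B % 2 = 1
  dr : m.Door W j j' v o X X'
  XB : X' ∉ B
  vo : (v = y ∧ o = a ∧ x ∉ B ∧ (m.Bdy W a ∨ m.Bdy W y)) ∨
    (v = a ∧ o = y ∧ x ∈ B ∧ m.Bdy W a ∧ ∀ u w, W u w → u ∈ B → w ∈ B ∨ w = a)

namespace Rz

variable (L : m.Rz ps T C C' U W x a y)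
include L

/-- a cell off the zone has one solid arc -/
theorem sect_off (n : ¬ InZ x a y z) : m.Sect W z := by_contra fun q => by
  have s := L.st
  obtain ⟨Z, -, cl, ⟨u, wu, uZ⟩, v, wv, vZ⟩ := s.not_sect L.ok q
  simp only [InZ, not_or] at n
  wlog aZ : a ∉ Z generalizing Z u v
  · exact this Zᶜ (fun u v w a b c d => c (cl v u (s.sym _ _ w) b a d)) v wv vZ u wu (fun n => n uZ)
      fun n => n (not_not.1 aZ)
  have xZ := mt (cl x a (s.sym _ _ L.wx) (Ne.symm n.1) (Ne.symm n.2.1)) aZ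
  have yZ := mt (cl y a (s.sym _ _ L.wy) (Ne.symm n.2.2) (Ne.symm n.2.1)) aZ
  obtain ⟨-, ⟨c, -, cZ, e⟩ | ⟨e, -⟩⟩ := L.toLz.branch cl wu uZ wv vZ fun u t j e uZ g b op =>
    by_contra fun op' => by
      obtain ⟨Z', -, -, hZ, -, row⟩ := L.cutA g op op'
      have := (hZ z u (s.wk_w L.ok L.ord g b)).1 b
      have := row z u b
      have := row u z (b.symm L.ok)
      grind
  all_goals unfold InZ at e; grind

end Rz

namespace Hz

variable (H : m.Hz ps T C C' U W x a y B j j' v o X X')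
include H

omit [Finite V] [Finite J] [DecidableEq V] in
theorem th : (v = a ∧ o = y) ∨ (v = y ∧ o = a) := by have := H.vo; tauto

omit [Finite V] [Finite J] [DecidableEq V] in
theorem ge : m.GE j a y ∧ m.GE j' a y := by
  rcases H.th with ⟨rfl, rfl⟩ | ⟨rfl, rfl⟩
  exacts [⟨H.dr.f.ge, H.dr.f'.ge⟩, ⟨H.dr.f.ge.symm, H.dr.f'.ge.symm⟩]

omit [Finite V] [Finite J] [DecidableEq V] in
theorem Xz : X' ≠ a ∧ X' ≠ y ∧ X' ≠ x := by
  have := H.ok.fc_ne H.ge.2
  have := H.xX j' H.ge.2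
  have := H.dr.f'.2
  grind

omit [Finite V] [Finite J] [DecidableEq V] in
theorem nvo : C.N v ∧ C.N o ∧ m.Rn v o := by
  rcases H.th with ⟨rfl, rfl⟩ | ⟨rfl, rfl⟩
  exacts [⟨H.na, H.ny, H.ry⟩, ⟨H.ny, H.na, H.ry.symm⟩]

omit [Finite J] in
/-- `v` has no further corner outside `B` -/
theorem hv (f : m.Fc n v z e) (w : W v z) (d : z ≠ o) (zB : z ∉ B) : False := by
  have h := H.ok
  have L := H.toRz
  have s := L.st
  have od := H.od
  have zU := s.mem2 w
  rcases H.vo with ⟨rfl, rfl, xB, b⟩ | ⟨rfl, rfl, -, b, cl⟩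
  · obtain ⟨k, g⟩ := H.gx
    have zx : z ≠ x := fun e => L.xy (s.sym _ _ (e ▸ w))
    have nz : C.N z := b.elim (fun b => H.near z ((((L.toLz.fe_bdy b H.wy).wall H.wy).wall w).mono
      (by omega))) fun b => (L.toLz.n_bdy b w).2
    have cl := H.cb.cl
    have ay := L.toLz.ay
    rcases b with b | b
    · have := ((H.dead.pair' h g L.toLz.aU L.toLz.xU H.na H.nx (.inl b) (L.safe_x g)).pair' h f
        (by simp [ay.symm, H.ne.symm, L.toLz.yU]) (by simp [d, zx, zU]) H.ny nz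
        (.inl ((s.adj _ _ H.wy).bdy_rm.mono fun _ _ q => q.1))
        (L.nofar H.ry.symm f H.ny H.na nz d)).evB le_rfl (H.dal _) B (by unfold Rm; grind)
      rw [wB_out zB, wB_out H.cb.yB, wB_out xB, wB_out H.cb.aB] at this
      omega
    · have := ((H.dead.pair' h f L.toLz.yU zU H.ny nz (.inl b)
        (L.nofar H.ry.symm f H.ny H.na nz d)).pair' h g (by simp [ay, d.symm, L.toLz.aU])
        (by simp [zx.symm, H.ne, L.toLz.xU]) H.na H.nx
        (.inl ((s.adj _ _ H.wy).symm.bdy_rm.mono fun _ _ q => q.1)) (L.safe_x g)).evB le_rfl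
        (H.dal _) B (by unfold Rm; grind)
      rw [wB_out xB, wB_out H.cb.aB, wB_out zB, wB_out H.cb.yB] at this
      omega
  · have nz := (L.toLz.n_bdy b w).2
    have := L.toLz.ev0 f w H.na nz (.inl b) (L.nofar H.ry f H.na H.ny nz d) B (by unfold Rm; grind)
    rw [wB_out zB, wB_out H.cb.aB] at this
    omega

omit [Finite J] in
/-- the same at the end of a segment -/
theorem hv' (g : m.Wk ps W t i k) (nt : ¬ m.Sgm ps t i k a y) (b : m.Sgm ps t i k X' u)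
    (so : m.Sol W k) (f : m.GE k v z) (d : k ≠ j) (d' : k ≠ j') : False :=
  H.hv f (H.toRz.st.sol_w H.ok so f).1 (fun e => (H.ok.two_faces (H.ok.fc_ne H.dr.f).1 H.dr.f.on
    H.dr.f'.on (e ▸ f.fc.on) H.dr.r.1).elim d d')
    (H.toRz.st.end_B H.ok H.ord H.cb g nt b H.Xz.1 H.Xz.2.1 H.XB so f.fc.has2)

omit [Finite J] in
/-- a safe light on the bar of `j'` makes the rung usable -/
theorem unl (bv : m.Bdy W v) (g : m.Wk ps W (m.bar j') i k) (op : ¬ m.Sol W i) (f : m.Fc n p q e)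
    (so : m.Sol W n) (on : m.On n u w) (b : m.Sgm ps (m.bar j') i k u w) (np : C.N p) (nq : C.N q)
    (sf : m.Safe (Cn.FrT m T) W n) (d1 : p ≠ v) (d2 : p ≠ o) (d3 : q ≠ v) (d4 : q ≠ o) : False := by
  have h := H.ok
  have L := H.toRz
  have s := L.st
  have w1 := (s.sol_w h so f).1
  have th := H.th
  have := L.fin H.cb (H.dead.pairS h H.ord g op f on b (s.mem _ _ w1) (s.mem2 w1) np nq sf)
    (fun _ _ q => q.1.1.1) (by simp [L.toLz.aU]; grind) (by simp [L.toLz.yU]; grind) (by grind) H.ge.1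
    ⟨v, H.dr.f.cor1, fun k' q _ => .inl (.inr (by
      rw [h.far_unique H.dr.r q, (h.lines H.dr.f'.ge H.dr.r.2.2.1).2.1]
      exact b.2.1 ▸ h.hug_on (s.sol_inf h so) on b.1.1))⟩
  rw [wB_pair (s.mem _ _ w1) (s.mem2 w1) (s.ne w1) (L.toLz.one np) (L.toLz.one nq) (by
    have := H.cb.cl _ _ w1
    have := H.cb.cl _ _ (s.sym _ _ w1)
    grind)] at this
  have := H.od
  omega

omit [Finite J] in
/-- no landing next to `j'` -/
theorem land (bv : m.Bdy W v) (g : m.Wk ps W (m.bar j') i k) (op : ¬ m.Sol W i) (e : c = v ∨ c = o)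
    (sd : m.Sid ps W c (m.bar j') j' k') (b : m.Sgm ps (m.bar j') j' k' c X')
    (b' : m.Sgm ps (m.bar j') i k c X') : m.On k' c X' := by
  have h := H.ok
  have s := H.toRz.st
  have r := H.ord
  have oj : m.On j' c X' := ⟨e.elim (· ▸ H.dr.f'.has1) (· ▸ H.dr.f'.has2), H.dr.f'.has3⟩
  obtain ⟨n, d, on, -⟩ := h.other oj b.1.1
  obtain ⟨w, w1, w2, tr⟩ := h.third on b.1.1
  by_contra q
  obtain ⟨f, -⟩ := (s.sid_step h r sd b tr w1 w2.symm).resolve_right
    (by rintro (rfl | rfl); exacts [d rfl, q on])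
  obtain ⟨so, -⟩ := ((HSt.sgm_sol h r sd.wk b on).resolve_left d).resolve_left (by rintro rfl; exact q on)
  obtain ⟨n1, n2, n3⟩ := h.fc_ne H.dr.f'
  have key : m.has n v → m.has n o → False := fun p q => by
    rcases h.two_faces n1 H.dr.f.on H.dr.f'.on ⟨p, q⟩ H.dr.r.1 with rfl | rfl
    · have := h.fc_ne H.dr.f
      have := H.dr.f.2
      have := f.2
      grind
    · exact d rfl
  have d1 : w ≠ v := fun e' => key (e' ▸ f.has2) (by have := f.has3; grind)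
  have d2 : w ≠ o := fun e' => key (by have := f.has3; grind) (e' ▸ f.has2)
  have fe := H.toLz.fe_sgm g op (b'.symm h)
  rcases s.safe_or (Fr := Cn.FrT m T) h f (s.sol_w h so f).1 with sf | ⟨n', c', -⟩
  · exact H.unl bv g op f so on b' (H.near _ (fe.mono (by omega)))
      (H.near _ ((fe.wall (s.sol_w h so f).1).mono (by omega))) sf n2.symm n3.symm d1 d2
  · have := H.toRz.mtl H.cb H.th H.dr bv f so e d1 d2 c'
    have := H.od
    omega

omit [Finite J] in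
/-- the ray along `v` is no cut -/
theorem nocut1 (g : m.Wk ps W t i k) (op : ¬ m.Sol W i) (bv : m.Bdy W v)
    (b : m.Sgm ps t i k v X') (b' : m.Sgm ps t i k o X') (nt : ¬ m.Sgm ps t i k a y)
    (aZ : a ∈ Z) (yZ : y ∈ Z) (hZ : ∀ u v, W u v → (m.Sgm ps t i k u v ↔ ¬ (u ∈ Z ↔ v ∈ Z)))
    (od : wB C.μ U Zᶜ % 2 = 1)
    (row : ∀ p q, m.Sgm ps t i k p q → p ∈ Z → p = a ∨ (p = y ∧ x ∈ Z)) : False := by
  have h := H.ok
  have L := H.toRz
  have s := L.st
  have ay := L.toLz.ay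
  have th := H.th
  have xZ : x ∈ Z := by have := row v X' b; have := row o X' b'; grind
  have cb := H.cb
  have cz : ∀ u w, W u w → u ∉ Z → w ∈ Z → m.Sgm ps t i k u w := fun u w q uZ wZ =>
    (hZ u w q).2 fun e => uZ (e.2 wZ)
  have dj : ∀ u ∈ U, u ∈ B → u ∉ Zᶜ := fun u uU uB uZ => by
    classical
    have := H.conn (U.filter fun u => u ∈ B ∧ u ∉ Z) (U.filter_subset _) (fun p q w c => by
      obtain ⟨-, pB, pZ⟩ := Finset.mem_filter.1 c
      have qZ : q ∉ Z := fun qZ => H.XB ((s.seg_B h H.ord cb g nt (cz p q w pZ qZ) (b.symm h)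
        (fun e => pZ (e ▸ aZ)) (fun e => pZ (e ▸ yZ)) H.Xz.1 H.Xz.2.1).1 pB)
      have := cb.cl p q w pB
      exact Finset.mem_filter.2 ⟨s.mem2 w, by grind, qZ⟩) ⟨u, Finset.mem_filter.2 ⟨uU, uB, uZ⟩⟩
    exact cb.aB (Finset.mem_filter.1 (this ▸ L.toLz.aU)).2.1
  have od' := H.od
  rcases H.vo with ⟨rfl, rfl, xB, -⟩ | ⟨rfl, rfl, -, -, cl⟩
  · obtain ⟨n, f⟩ := H.gx
    refine ((H.dead.sg1 h L.toLz.yU H.ny bv).pair' h f (by simp [ay, L.toLz.aU])
      (by simp [H.ne, L.toLz.xU]) H.na H.nx (.inl (s.adj _ _ H.wy).symm.bdy_rm) (L.safe_x f)).odd2B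
      (B := B) (B' := Zᶜ) (by omega) (H.dal _) (by have := cb.cl; unfold Rm; grind)
      (fun u w q uZ wZ => ?_) (by rwa [wB_out xB, wB_out cb.aB, wB_out cb.yB])
      (by rwa [wB_outc xZ, wB_outc aZ, wB_outc yZ]) fun u q =>
        dj u (Finset.mem_of_mem_erase (Finset.mem_of_mem_erase (Finset.mem_of_mem_erase q)))
    have := row w u ((cz u w q.1.1.1 uZ wZ).symm h) wZ
    unfold Rm at q
    grind
  · exact (H.dead.sglS h H.ord g op b H.na).odd2B (B := B) (B' := Zᶜ) (by omega) (H.dal _)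
      (by unfold Rm Os; grind) (fun u w q uZ wZ => q.1.2 (cz u w q.1.1 uZ wZ))
      (by rwa [wB_out cb.aB]) (by rwa [wB_outc aZ]) fun u q => dj u (Finset.mem_of_mem_erase q)

end Hz

end Map

end Pool.Agent.P.MP_5f84aa_co.G
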