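import Pool.Agent.P.MP_5f84aa_co.G.LR1a

/-! Type GR with one open end of the rung: the second ring neighbour of `y`. -/

namespace Pool.Agent.P.MP_5f84aa_co.G

namespace Map

variable {V J Sg : Type}

/-- the last corner `j₂` of the ring cell `w` is the end of a door `w d`, the next corner of `d` is
a corner with `x` -/
structure Ed (m : Map V J Sg) (ps : J → Sg → ℤ) (W : V → V → Prop) (a x y w d X₂ X₃ : V) (t₂ : Sg)
    (i' j₂ j f₂ : J) : Prop where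
  op : ¬ m.Sol W i'
  sid : m.Sid ps W w t₂ i' j₂
  r : m.far j₂ j
  so : m.Sol W j
  so₂ : m.Sol W j₂
  f : m.Fc j₂ w d X₂
  br : m.bar j₂ = t₂
  da : d ≠ a
  dy : d ≠ y
  dx : d ≠ x
  wk : m.Wk ps W t₂ i' f₂
  bt : Bt ps t₂ i' j₂ f₂
  sf : m.Sol W f₂
  ff : m.Fc f₂ d x X₃
  nr : ∀ n, ¬ m.far f₂ n

variable {m : Map V J Sg} {ps : J → Sg → ℤ} {t t₂ : Sg} {T : Set Sg} {N : V → Prop} {μ : V → ℕ}
  {W : V → V → Prop} {U : Finset V} {a d p q r u v w x y X X₂ X₃ : V} {c i i' j j₂ f₂ k g g' : J}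

namespace Ez

variable [DecidableEq V] [Finite V] [Finite J] (G : m.Ez ps T N U W μ a x y g g')
  (w₁ : W y w) (o : m.On i y w) (op : ¬ m.Sol W i) (wa : w ≠ a)
include G w₁

omit [Finite V] [Finite J] in
theorem wx : w ≠ x := fun e => G.nxy (e ▸ (G.st.adj _ _ w₁).symm)

include o op

omit [Finite V] [Finite J] w₁ G [DecidableEq V] in
theorem bw : m.Bdy W w := ⟨i, o.2, op⟩

include wa

/-- the walk from the second ring wall of `w` -/
theorem last : ∃ d X₂ X₃ t₂ i' j₂ j f₂, m.Ed ps W a x y w d X₂ X₃ t₂ i' j₂ j f₂ := by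
  have h := G.ok
  have st := G.st
  have nwa := G.nwa w₁ o op
  have wx := G.wx w₁
  have wy := (st.ne w₁).symm
  have bw := bw o op
  obtain ⟨j₁, -, o₁, s₁, -⟩ := st.nocut_face h G.ord G.nc w₁ o op
  obtain ⟨c', i', -, cy, w₂, o', op', -⟩ := HSt.other_out h o.symm o₁.symm wy op s₁
  have ne : ∀ θ, θ = a ∨ θ = y → θ ≠ w ∧ θ ≠ c' := by
    rintro θ (rfl | rfl)
    exacts [⟨wa.symm, fun e => nwa (e ▸ w₂)⟩, ⟨wy.symm, cy.symm⟩]
  obtain ⟨k, a₂, b₂, e⟩ := st.nxt h G.ord w₂ o'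
  have sk := (G.nc _ _ _ a₂.wk).resolve_left op'
  obtain ⟨d, f⟩ := (e.resolve_left (not_not.2 sk)).ge
  have off := fun θ c => G.off (θ := θ) c a₂.wk op' o' b₂ (ne θ c).1 (ne θ c).2
  have da := G.offc (.inl rfl) a₂.wk op' o' b₂ (ne _ (.inl rfl)).1 (ne _ (.inl rfl)).2 f.fc
  have dy := G.offc (.inr rfl) a₂.wk op' o' b₂ (ne _ (.inr rfl)).1 (ne _ (.inr rfl)).2 f.fc
  have wd := (st.sol_w h sk f.fc).1
  have e4p : ∀ u v, m.Sgm ps (m.ln w c') i' k u v → E4 a y w x u v →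
      (u = w ∧ v = x) ∨ (u = x ∧ v = w) := fun u v b e => by
    have b' := b.symm h
    have := off a (.inl rfl); have := off y (.inr rfl)
    simp only [E4, Sym2.eq_iff] at e
    grind
  by_cases sf : m.Sf W k w ∨ m.Sf W k d
  · obtain rfl : d = x := by
      have := G.L.f1W h G.ord a₂.wk op' (off _ (.inl rfl)) f.fc (G.L.b1 h bw wd) (G.L.b2 h bw wd) sf
      tauto
    by_cases e : m.stem k = m.ln w c'
    · obtain ⟨k', dk, ok, -⟩ := h.other f.fc.on wx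
      refine (G.e4 w₁ wd wa nwa f.fc (.inl rfl) ok dk (st.ou_lst h G.ord a₂.wk (.op op')
        (fun u v b e => ?_) ?_ ok dk)).elim
      · rcases e4p u v b e with ⟨rfl, rfl⟩ | ⟨rfl, rfl⟩
        exacts [f.fc.on, f.fc.on.symm]
      · rcases st.wk_cor h G.ord a₂.wk f.fc with q | q
        exacts [q.2, absurd (e.trans q.1.symm) (h.stem_ne k a₂.wk.i2)]
    · exact (G.nox a₂.wk op' o' b₂ (ne _ (.inl rfl)).1 (ne _ (.inl rfl)).2 f.fc (G.lbar a₂ f.fc e).2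
        sf).elim
  obtain ⟨j, r, sj⟩ := G.hard f.fc wd sf
  have e : m.stem k ≠ m.ln w c' := fun e => by
    obtain rfl := (f.fc.cor_iff.1 (h.rung k j r w c' (st.adj _ _ w₂) e.symm).2).resolve_left
      (st.ne w₂).symm
    rcases h.rung_face r f o' with rfl | rfl
    exacts [op' sk, op' sj]
  obtain ⟨br, b⟩ := G.lbar a₂ f.fc e
  have dx : d ≠ x := by
    rintro rfl
    refine G.e4 w₁ wd wa nwa (h.far_ge r f).fc (.inl rfl) f.fc.on r.1
      (st.ou_wk h G.ord a₂.wk (.op op') fun u v b q => e ?_)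
    rcases e4p u v b q with ⟨rfl, rfl⟩ | ⟨rfl, rfl⟩
    exacts [(h.lines f.fc r.2.1).1.symm.trans b.2.1, (h.lines f.fc r.2.1).1.symm.trans (b.symm h).2.1]
  obtain ⟨f₂, q, X₃, a', -, bt, so, ff, -, nq, nr⟩ := G.door a₂.wk op' r f.fc b
    (((G.L.b0 h bw wd).wall wd).mono (by omega))
  have b₂' := b₂.mono bt.bw
  have qa := G.offc (.inl rfl) a' op' o' b₂' (ne _ (.inl rfl)).1 (ne _ (.inl rfl)).2 ff
  have qy := G.offc (.inr rfl) a' op' o' b₂' (ne _ (.inr rfl)).1 (ne _ (.inr rfl)).2 ff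
  obtain rfl : q = x := by
    have := G.L.f1W h G.ord a' op' (G.off (.inl rfl) a' op' o' b₂' (ne _ (.inl rfl)).1
      (ne _ (.inl rfl)).2) ff (G.L.b2 h bw wd) nq (.inl (.of_not nr))
    tauto
  exact ⟨d, _, X₃, _, i', k, j, f₂, op', a₂, r, sj, sk, f.fc, br, da, dy, dx, a', bt, so, ff, nr⟩

variable (D : m.Ed ps W a x y w d X₂ X₃ t₂ i' j₂ j f₂)
include D

omit wa [Finite J] in
/-- a light at a corner of `y` and the light at `f₂` free `w` -/
theorem win2 (f : m.Fc k y r X) (sk : m.Sol W k) (rd : r ≠ d) (rw' : r ≠ w)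
    (cv : ∀ u, W w u → u = y ∨ u = d ∨ m.Sgm ps t₂ i' j₂ w u ∨
      ∃ t c, m.Wk ps W t c j ∧ m.has c y ∧ m.hug k t ∧ m.Sgm ps t c j w u) : False := by
  classical
  have h := G.ok
  have st := G.st
  have bw := bw o op
  have wd := (st.sol_w h D.so₂ D.f).1
  have wr := (st.sol_w h sk f).1
  have wD : w ∉ ({y, r, d, x} : Finset V) := by
    simp [(st.ne w₁).symm, rw'.symm, st.ne wd, G.wx w₁]
  have hg : ∀ u v, m.Sgm ps t₂ i' f₂ u v → m.Hgd T {k, f₂} No u v ∨ u ∈ ({y, r, d, x} : Finset V) ∨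
      v ∈ ({y, r, d, x} : Finset V) := fun u v q => .inl (.no (by simp) D.wk.h2 q.2.1)
  refine (G.L.neuT h f D.ff D.dy.symm G.L.ne.symm rd (fun e => G.nxy (e ▸ (h.adj12 f).symm))
    (G.L.n1 G.L.wy) (G.L.n2 G.L.wy wr) (G.L.b2 h bw wd) (G.L.n1 G.L.wx) (G.safe (.inr rfl) f sk)
    (.inl (.of_not D.nr)) (.of_bdy G.by' (by simp) f.has1)
    (st.rc_end h G.ord D.wk (.op D.op) hg)).frees (st.mem2 w₁) wD (G.L.one _ (G.L.b1 h bw wd))
    fun u q => ?_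
  rcases cv u q with rfl | rfl | b | ⟨t, c, a₀, e, e', b⟩
  · simp
  · simp
  · exact (st.op_wk h G.ord D.wk (.op D.op) hg (b.mono D.bt.bw)).resolve_left wD
  · exact (st.op_wk h G.ord a₀ (.of_bdy G.by' (by simp) e)
      (fun u v q => .inl (.no (by simp) e' q.2.1)) b).resolve_left wD

omit [Finite V] [Finite J] w₁ o op wa in
theorem dsid : m.Sid ps W w (m.ln w d) j j₂ ∧ (∀ u, m.Sgm ps (m.ln w d) j j₂ w u → u = d) ∧
    m.bar j ≠ m.ln w d ∧ m.ln w d ≠ t₂ ∧ ¬ m.hug j₂ (m.bar j) := by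
  have h := G.ok
  have st := G.st
  have wd := (st.sol_w h D.so₂ D.f).1
  have f₁ := (h.far_ge D.r D.f.ge).fc
  obtain ⟨a₀, b⟩ := st.wk_one h G.ord wd f₁.on D.f.on D.r.1.symm
  have l := (h.lines D.f D.r.2.1).1
  refine ⟨⟨a₀, ⟨d, f₁.on, b⟩, d, st.ne wd, D.f.on, rfl⟩, fun u q => ?_, ?_, ?_, ?_⟩
  · have := st.sgm_one h G.ord wd f₁.on D.f.on D.r.1.symm q
    have := st.ne wd
    tauto
  · exact l ▸ (h.far_not_bar D.r D.r.2.2.1).symm
  · exact l ▸ D.br ▸ h.stem_ne _ D.r.2.1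
  · exact fun e => e.elim (h.far_not_bar D.r D.r.2.2.1) (h.far_bar D.r)

/-- the door end `j` is the first corner of `w` -/
theorem caseA (a₁ : m.Sid ps W w (m.bar j) j c) (b₁ : m.Sgm ps (m.bar j) j c w (m.X j))
    (oc : ¬ m.Sol W c) : False := by
  have h := G.ok
  have st := G.st
  have bw := bw o op
  have wd := (st.sol_w h D.so₂ D.f).1
  have f₁ := (h.far_ge D.r D.f.ge).fc
  obtain ⟨s₀, s₁, d₁, d₂, -⟩ := G.dsid D
  have a₁' := st.sid_rev h G.ord a₁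
  have cv : ∀ u, W w u → m.Sgm ps (m.bar j) c j w u ∨ u = d ∨ m.Sgm ps t₂ i' j₂ w u := fun u q =>
    (st.cover2 h G.ord (G.se w) a₁' s₀ (st.sid_rev h G.ord D.sid) oc D.op f₁.cor1 D.f.cor1 d₁ d₂ q).imp_right
      fun e => e.imp (s₁ u) Sgm.rev
  obtain ⟨k, q, X', a', -, bt, so, ff, -, nq, nr⟩ := G.door a₁'.wk oc D.r.symm f₁ b₁.rev
    (((G.L.b0 h bw wd).wall wd).mono (by omega))
  by_cases e : k = f₂
  · subst e
    have wD : w ∉ ({d, x} : Finset V) := by simp [st.ne wd, G.wx w₁]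
    have hg : ∀ {t i}, m.Wk ps W t i k → ∀ u v, m.Sgm ps t i k u v → m.Hgd T {k} No u v ∨
        u ∈ ({d, x} : Finset V) ∨ v ∈ ({d, x} : Finset V) := fun a u v q =>
      .inl (.no (by simp) a.h2 q.2.1)
    refine (G.L.neuS h D.ff (G.L.b2 h bw wd) (G.L.n1 G.L.wx) (.inl (.of_not nr))
      (st.rc_end h G.ord D.wk (.op D.op) (hg D.wk))).frees (st.mem2 w₁) wD
      (G.L.one _ (G.L.b1 h bw wd)) fun u q => ?_
    rcases cv u q with b | rfl | b
    · exact (st.op_wk h G.ord a' (.op oc) (hg a') (b.mono bt.bw)).resolve_left wD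
    · simp
    · exact (st.op_wk h G.ord D.wk (.op D.op) (hg D.wk) (b.mono D.bt.bw)).resolve_left wD
  obtain ⟨u₀, o₀, b₀⟩ := a₁'.fst
  have ua : a ≠ u₀ := fun e => G.nwa w₁ o op (e ▸ st.wk_w h G.ord a₁'.wk b₀)
  have b₀' := b₀.mono bt.bw
  have qa := G.offc (.inl rfl) a' oc o₀ b₀' wa.symm ua ff
  have qx : q ≠ x := by
    rintro rfl
    exact nr _ (h.far_of_fc (st.bd2 wd) e ff D.ff)
  obtain rfl : q = y := by
    have := G.L.f1W h G.ord a' oc (G.off (.inl rfl) a' oc o₀ b₀' wa.symm ua) ff (G.L.b2 h bw wd) nq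
      (.inl (.of_not nr))
    have := D.da; have := D.dx; have := D.dy
    tauto
  obtain ⟨u, b⟩ := G.cor_on (.inr rfl) a' oc ff
  refine G.win2 w₁ o op D G.f.fc.symm G.so D.da.symm wa.symm fun u w' => ?_
  rcases cv u w' with b' | e
  · exact .inl ((st.wk_row h G.ord a' (G.first (.inr rfl) a' oc b) (h.tc_cor a'.i2 ff.cor2 a'.h2)
      (b'.mono bt.bw)).resolve_left (st.ne w₁).symm)
  · exact .inr (e.imp_right .inl)

/-- the corner before the door is a corner with `y` -/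
theorem caseB (a₁ : m.Sid ps W w (m.bar j) j c) (sc : m.Sol W c) (f : m.Fc c w y X) : False := by
  have h := G.ok
  have st := G.st
  have wd := (st.sol_w h D.so₂ D.f).1
  have f₁ := (h.far_ge D.r D.f.ge).fc
  obtain ⟨s₀, s₁, d₁, d₂, -⟩ := G.dsid D
  have ic : i ≠ c := fun e => op (e ▸ sc)
  obtain ⟨l1, l2, l3, l4⟩ := h.lines f a₁.wk.i2
  have e : m.stem c ≠ m.bar j := fun e => by
    rcases st.wk_cor h G.ord a₁.wk f with ⟨-, q⟩ | ⟨q, -⟩
    · obtain ⟨ii, bw⟩ := q.2.2 i o.symm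
      have gi : m.hug i (m.bar j) := q.2.1 ▸ h.hug_on ii o.symm q.1.1
      exact op (a₁.wk.sol i ii gi (G.ord.bt_of a₁.wk.i1 ii a₁.wk.i2 a₁.wk.h1 gi a₁.wk.h2 bw
        (fun e => op (e ▸ D.so)) ic))
    · exact l4 (e.trans q.symm)
  obtain ⟨br, -⟩ := G.lbar a₁ f e
  obtain ⟨k, a₂, -, e₂⟩ := st.nxt h G.ord (st.sol_w h sc f).2.2 ⟨f.has2, f.has3⟩
  rw [l3] at a₂
  have sk : m.Sol W k := by_contra fun ok => by
    obtain ⟨u, p, b⟩ := (st.sid_rev h G.ord a₂).fst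
    obtain rfl := st.two_out h G.ord (G.se y) w₁ o op (st.sym _ _ G.L.wy) G.f'.fc.on.symm G.op
      (st.wk_w h G.ord a₂.wk.rev b) p ok wa.symm
      fun e => l4 (l1.symm.trans ((h.ln_symm _ _).trans (e ▸ b.2.1)))
    exact h.far_not_bar G.far a₁.wk.i2 ((h.lines G.f.fc.symm G.far.2.1).1.symm.trans b.2.1)
  obtain ⟨r, f'⟩ := (e₂.resolve_left (not_not.2 sk)).ge
  have w' := st.sym _ _ w₁
  obtain ⟨a₀, b₀⟩ := st.wk_one h G.ord w' o.symm f.on ic
  refine G.win2 w₁ o op D f'.fc sk ?_ ?_ fun u q => ?_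
  · rintro rfl
    obtain rfl := st.tri1 h w' (st.sol_w h sk f'.fc).1 (st.sym _ _ wd) f o.symm ic (.op op)
    exact d₁ (br.symm.trans l2.symm)
  · rintro rfl
    rcases h.two_faces (st.ne w₁) o f.on.symm f'.fc.on ic with rfl | rfl
    exacts [op sk, a₂.wk.ne rfl]
  rcases st.cov3 h G.ord (G.se w) ⟨a₀, ⟨y, o.symm, b₀⟩, y, st.ne w', f.on, rfl⟩ (st.sid_rev h G.ord a₁) s₀
    (st.sid_rev h G.ord D.sid) op D.op f.cor1 f₁.cor1 D.f.cor1 (l1 ▸ e) d₁ d₂ q with b | b | b | b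
  · have := st.sgm_one h G.ord w' o.symm f.on ic b
    have := st.ne w'
    tauto
  · exact .inr (.inr (.inr ⟨_, c, a₁.wk.rev, f.has2, br ▸ a₂.wk.h2, b⟩))
  · exact .inr (.inl (s₁ u b))
  · exact .inr (.inr (.inl b.rev))

omit D in
/-- a corner of `w` that is not the end of a rung is a corner with `x` or `y` -/
theorem corw (sc : m.Sol W c) (f : m.Fc c w q X) (nr : ∀ n, ¬ m.far c n) : q = x ∨ q = y := by
  have h := G.ok
  have bw := bw o op
  have wq := (G.st.sol_w h sc f).1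
  have := G.L.f1S h f (G.L.b1 h bw wq) (G.L.b2 h bw wq) (.inl (.of_not nr))
    (.of_bdy bw (by simp) f.has1)
  have := G.wx w₁
  have := (G.st.ne w₁).symm
  have : q ≠ a := fun e => G.nwa w₁ o op (e ▸ wq)
  tauto

/-- the corner before the door is a corner with `x` -/
theorem caseC (sc : m.Sol W c) (c₂ : c ≠ j₂) (f : m.Fc c w x X) (nr : ∀ n, ¬ m.far c n) : False := by
  have h := G.ok
  have st := G.st
  have bw := bw o op
  have wd := (st.sol_w h D.so₂ D.f).1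
  have f₁ := (h.far_ge D.r D.f.ge).fc
  obtain ⟨s₀, s₁, d₁, d₂, -⟩ := G.dsid D
  have ci := st.sol_inf h sc
  obtain ⟨l1, l2, l3, l4⟩ := h.lines f ci
  obtain ⟨w2, w3, -⟩ := st.sol_w h sc f
  have ne : c ≠ i' := fun e => D.op (e ▸ sc)
  have key : ¬ m.Sgm ps t₂ i' j₂ w x := fun q => by
    have gc : m.hug c t₂ := .inl (l1.symm.trans q.2.1)
    exact l4 ((l1.symm.trans q.2.1).trans (G.ord.bar_of_bt D.sid.wk.i1 ci D.sid.wk.i2 D.sid.wk.h1 gc
      D.sid.wk.h2 (G.ord.bt_of D.sid.wk.i1 ci D.sid.wk.i2 D.sid.wk.h1 gc D.sid.wk.h2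
        (q.2.2 c f.on).2 ne c₂)).symm)
  have e := st.tri1 h wd (st.sol_w h D.sf D.ff).1 (st.sym _ _ w2) f₁ D.f.on D.r.1
    (st.ou_wk h G.ord D.sid.wk (.op D.op) fun u v b q => by
      have b' := b.symm h
      have := st.sid_row h G.ord D.sid b
      have := b.2.1; have := b'.2.1
      have := st.ne wd; have := st.ne w2
      simp only [E3, Sym2.eq_iff] at q
      grind)
  have sb : m.stem c = m.bar j := l1.symm.trans (e ▸ (h.lines f₁ D.r.2.2.1).2.1)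
  obtain ⟨k, a₂, b₂, e₂⟩ := st.nxt h G.ord w3 ⟨f.has1, f.has3⟩
  have a₂' := st.sid_rev h G.ord a₂
  by_cases sk : m.Sol W k
  swap
  · obtain ⟨u₀, o₀, b₀⟩ := a₂'.fst
    exact G.nox a₂'.wk sk o₀ b₀ wa.symm (fun e => G.nwa w₁ o op (e ▸ st.wk_w h G.ord a₂'.wk b₀)) f b₂.rev
      (.inl (.of_not nr))
  obtain ⟨q, f'⟩ := (e₂.resolve_left (not_not.2 sk)).ge
  rw [l2] at a₂ a₂'
  have kj : k ≠ j := by
    rintro rfl
    exact a₂.wk.h2.elim (h.far_not_bar D.r.symm ci) fun e => l4 (sb.trans e)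
  have kj₂ : k ≠ j₂ := by
    rintro rfl
    have e' : m.bar c = t₂ := ((a₂.wk.h2.resolve_left (h.far_not_bar D.r ci)).symm.trans D.br)
    rw [e'] at a₂'
    have a₃ := st.sid_rev h G.ord D.sid
    obtain ⟨u, p, b⟩ := a₃.fst
    exact ne (HSt.sid_uniq h G.ord a₂' a₃ (HSt.sid_cor h a₂' D.f.cor1 p b.1.1 b.2.1) b (.inr f.cor1)
      (.inl D.op))
  rcases G.corw w₁ o op wa sk f'.fc (G.nr D.r D.f.ge f'.fc (G.L.b1 h bw wd) (G.L.b2 h bw wd)
    (G.L.b2 h bw (st.sol_w h sk f'.fc).1) kj₂ kj) with rfl | rfl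
  · rcases h.two_faces (st.ne w2) f.on ⟨f₁.has1, e ▸ f₁.has3⟩ f'.fc.on
      (fun e => nr _ (e ▸ D.r.symm)) with rfl | rfl
    exacts [a₂.wk.ne rfl, kj rfl]
  · exact G.e4 w₁ w2 wa (G.nwa w₁ o op) f'.fc (.inr rfl) o.symm (fun e => op (e ▸ sk)) (.op op)

omit D w₁ o op wa in
/-- the easy case of the type GR -/
theorem fin : False := by
  have h := G.ok
  have st := G.st
  obtain ⟨w, i, -, wa, w₁, o, op, -⟩ := HSt.other_out h G.f'.fc.on.symm G.f.fc.on.symm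
    (st.ne G.L.wy).symm G.op G.so
  obtain ⟨d, X₂, X₃, t₂, i', j₂, j, f₂, D⟩ := G.last w₁ o op wa
  have bw := bw o op
  have wd := (st.sol_w h D.so₂ D.f).1
  have f₁ := (h.far_ge D.r D.f.ge).fc
  obtain ⟨c, a₁, b₁, e⟩ := st.nxt h G.ord (st.sol_w h D.so f₁).2.1 ⟨f₁.has1, f₁.has3⟩
  rw [(h.lines f₁ D.r.2.2.1).2.1] at a₁ b₁
  by_cases sc : m.Sol W c
  swap
  · exact G.caseA w₁ o op wa D a₁ b₁ sc
  obtain ⟨q, f⟩ := (e.resolve_left (not_not.2 sc)).ge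
  have c₂ : c ≠ j₂ := fun e => (G.dsid D).2.2.2.2 (e ▸ a₁.wk.h2)
  have nr := G.nr D.r D.f.ge f.fc (G.L.b1 h bw wd) (G.L.b2 h bw wd)
    (G.L.b2 h bw (st.sol_w h sc f.fc).1) c₂ a₁.wk.ne.symm
  rcases G.corw w₁ o op wa sc f.fc nr with rfl | rfl
  exacts [G.caseC w₁ o op wa D sc c₂ f.fc nr, G.caseB w₁ o op wa D a₁ sc f.fc]

end Ez

/-- in a confined state without cuts the rung `a y` is a door -/
theorem Loc.gr_door [DecidableEq V] [Finite V] [Finite J] (L : m.Loc T N U W μ a x y) (h : m.Ok)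
    (ord : m.Ord ps) (nc : m.NoCut ps W) (se : ∀ v, m.Sect W v)
    (r1 : ∀ b u v, N b → N u → N v → m.Rn b u → m.Rn b v → u = v) (r : m.far g g') (f : m.GE g a y)
    (xg : x ≠ m.X g) (xg' : x ≠ m.X g') : m.Sol W g ∧ m.Sol W g' := by
  have f' := h.far_ge r f
  rcases nc _ _ _ (L.st.wk_one h ord L.wy f.fc.on f'.fc.on r.1).1 with so | so
  exacts [⟨so, by_contra fun op => Ez.fin ⟨L, h, ord, nc, se, r1, r, f, so, op, xg, xg'⟩⟩,
    ⟨by_contra fun op => Ez.fin ⟨L, h, ord, nc, se, r1, r.symm, f', so, op, xg', xg⟩, so⟩]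

end Map

end Pool.Agent.P.MP_5f84aa_co.G
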