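import Pool.Agent.P.MP_5f84aa_co.G.LR0
import Pool.Agent.P.MP_5f84aa_co.G.LR1
import Pool.Agent.P.MP_5f84aa_co.G.LHl
import Pool.Agent.P.MP_5f84aa_co.G.LO

/-! The local lemma for a rung with a further partner reduces to the case of two solid ends. -/

namespace Pool.Agent.P.MP_5f84aa_co.G

theorem s_gr_of (H : ∀ (V J Sg : Type) [Finite V] [Finite J] [DecidableEq V] (m : Map V J Sg)
    (ps : J → Sg → ℤ) (T : Set Sg) (N : V → Prop) (U : Finset V) (W : V → V → Prop) (μ : V → ℕ)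
    (a x y : V) (j j' : J), m.Hx ps T N U W μ a x y j j' → (∀ v, m.Sect W v) → False) : S_GR GO :=
  ⟨8, fun V J Sg _ _ _ m ok en ⟨ps, r⟩ T N U W μ a r1 x y j j' fr g gx xy d d' cn => by
    have h := ok.ok.toOk
    have L : m.Loc T N U W μ a x y := cn.loc h (fun u v c => c.imp And.left And.left) cn.alive.1
      cn.alive.2 xy gx ⟨j, g⟩ fun _ _ p q => ⟨p, q⟩
    have R := L.rz h r r1 fr g d d'
    obtain ⟨s1, s2⟩ := L.gr_door h r R.nocut R.sect r1 fr g d d'
    exact H V J Sg m ps T N U W μ a x y j j' ⟨ok, en, r, L, R.nocut, r1, fr, g, d, d', s1, s2⟩ R.sect⟩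

end Pool.Agent.P.MP_5f84aa_co.G
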