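import Pool.Agent.P.MP_5f84aa_co.G.LRy
import Pool.Agent.P.MP_5f84aa_co.G.LHb
import Pool.Agent.P.MP_5f84aa_co.G.LHy
import Pool.Agent.P.MP_5f84aa_co.G.LI4

/-! The local lemma for a rung with a further partner. -/

namespace Pool.Agent.P.MP_5f84aa_co.G

theorem s_gr : S_GR GO := s_gr_of fun _ _ _ _ _ _ m _ _ _ _ W _ _ _ y _ _ H se => by
  obtain ⟨κ, fk⟩ := H.loc.gx
  have G := H.tyC se fk
  have ia := G.hb H.ok3
  by_cases iy : m.Bdy W y
  exacts [G.hy (fun _ _ _ => G.type H.ok3) ia iy, G.h0 (fun _ _ _ => G.type H.ok3) ia iy]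

end Pool.Agent.P.MP_5f84aa_co.G
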