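import Pool.Agent.P.MP_5f84aa_co.G.LT
import Pool.Agent.P.MP_5f84aa_co.G.LA

/-! The local game: moves along segments, safe junctions, the switch. -/

namespace Pool.Agent.P.MP_5f84aa_co.G

namespace Map

variable {V J Sg : Type}

/-- the walls after the opening of a segment -/
def Os (m : Map V J Sg) (ps : J → Sg → ℤ) (W : V → V → Prop) (t : Sg) (j k : J) (u v : V) : Prop :=
  W u v ∧ ¬ m.Sgm ps t j k u v

/-- the shadow of a light at `k` can be put on a piece that is no wall or that is lit -/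
def Safe (m : Map V J Sg) (Fr W : V → V → Prop) (k : J) : Prop :=
  ∃ x, m.cor k x ∧ ∀ k', m.far k k' → W x (m.X k') → Fr x (m.X k') ∨ Fr (m.X k') x

variable {m : Map V J Sg} {ps : J → Sg → ℤ} {t : Sg} {C : Ctx V Sg} {Fr Fr' W W' : V → V → Prop}
  {s : ℤ} {U U' K K' D : Finset V} {a b c p q u v x y z e e' : V} {i j k k' : J}

theorem Os.w (r : m.Os ps W t j k u v) : W u v := r.1

/-- a junction that is not the end of a rung is safe -/
theorem safe_of_not (n : ∀ k', ¬ m.far k k') : m.Safe Fr W k :=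
  ⟨m.L k, .inl rfl, fun k' f => absurd f (n k')⟩

theorem Safe.mono (a : m.Safe Fr W k) (l : ∀ u v, W' u v → W u v) (l' : ∀ u v, Fr u v → Fr' u v) :
    m.Safe Fr' W' k :=
  let ⟨x, c, q⟩ := a; ⟨x, c, fun k' f w => (q k' f (l _ _ w)).imp (l' _ _) (l' _ _)⟩

/-- a junction whose far end is open is safe -/
theorem HSt.safe_of_open (h : m.Ok) (t : m.HSt U W) (f : m.Fc k x y z) (w : W x y)
    (o : ∀ k', m.far k k' → ¬ m.Sol W k') : m.Safe Fr W k := by
  by_cases c : ∀ k', m.far k k' → ¬ W x (m.X k')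
  · exact ⟨x, f.cor1, fun k' g w => absurd w (c k' g)⟩
  push Not at c
  obtain ⟨k₀, g₀, w₀⟩ := c
  refine ⟨y, f.cor2, fun k' g w' => ?_⟩
  obtain rfl := h.far_unique g₀ g
  exact absurd (t.sol_of (h.far_ge g f.ge).fc w w₀ w') (o _ g)

/-- a junction is safe if it is not the end of a rung with a solid far end -/
theorem HSt.safe_or (h : m.Ok) (t : m.HSt U W) (f : m.Fc k x y z) (w : W x y) :
    m.Safe Fr W k ∨ ∃ k', m.far k k' ∧ m.Sol W k' := by
  by_contra n
  push Not at n
  exact n.1 (t.safe_of_open h f w n.2)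

/-- the solid end of a segment that starts at an open face is safe -/
theorem HSt.safe_end (h : m.Ok) (r : m.Ord ps) (g : m.HSt U W) (a : m.Wk ps W t j k)
    (op : ¬ m.Sol W j) (f : m.Fc k x y z) (so : m.Sol W k) (b : m.Sgm ps t j k x y) :
    m.Safe Fr W k := by
  rcases g.end_safe h (g.wk_w h r a b) (g.wk_att h r a op b) f so (.refl _ _ _) with c | c
  exacts [⟨x, f.cor1, fun k' q w => absurd w (c k' q)⟩, ⟨y, f.cor2, fun k' q w => absurd w (c k' q)⟩]

/-- the last piece of a segment that ends with the stem -/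
theorem HSt.wk_stem (h : m.Ok) (a : m.Wk ps W t j k) (e : m.stem k = t) :
    m.Sgm ps t j k (m.L k) (m.R k) := by
  obtain ⟨u, v, -, o, b⟩ := a.p2
  rcases h.piece a.i2 o b.1.1 with ⟨f, -⟩ | ⟨-, l⟩
  · rcases f.1 with ⟨rfl, rfl⟩ | ⟨rfl, rfl⟩
    exacts [b, b.symm h]
  · exact absurd (e.trans (b.2.1.symm.trans l)) (h.stem_ne k a.i2)

/-- removal of a segment that starts at an open face and of cells on it -/
theorem HSt.del_sgm [DecidableEq V] (h : m.Ok) (r : m.Ord ps) (g : m.HSt U W) (a : m.Wk ps W t j k)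
    (op : ¬ m.Sol W j) (rr : ∀ i i', m.far i i' → m.Sgm ps t j k (m.L i) (m.R i) → m.L i ∈ D ∨ m.R i ∈ D)
    (ch : ∀ d ∈ D, ∃ i u v, m.has i d ∧ m.On i u v ∧ m.Sgm ps t j k u v) :
    m.HSt (U \ D) (Del W D (m.Sgm ps t j k)) := by
  refine g.del h (fun _ _ => Sgm.symm h) (fun u v b => b.1.1) rr fun G o _ cr => ?_
  have all : ∀ u v, m.Sgm ps t j k u v → m.Sgm ps t j k u v ∧ ∀ i, m.On i u v → i ∈ G :=
    fun u v b => g.wk_ind h r a (P := fun u v => m.Sgm ps t j k u v ∧ ∀ i, m.On i u v → i ∈ G)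
      (fun u v q => ⟨q.1.symm h, fun i o => q.2 i o.symm⟩)
      (fun u v o' b => ⟨b, fun i o'' => cr u v j i b o' o'' (o j op)⟩)
      (fun i x y z f e bt so q =>
        have b' := g.wk_land h r a f.symm e (g.sol_inf h so) bt
        ⟨b', fun n o' => cr y z i n b' ⟨f.has2, f.has3⟩ o' (q.2 i ⟨f.has1, f.has3⟩)⟩) b
  exact ⟨fun d q => let ⟨i, u, v, b, o, c⟩ := ch d q; ⟨i, (all u v c).2 i o, b⟩,
    fun u v i b o => (all u v b).2 i o⟩

/-- a rung contains no other piece of its line -/
theorem Ok.sgm_rung (h : m.Ok) (f : m.far i k') (b : m.Sgm ps t j k (m.L i) (m.R i))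
    (b' : m.Sgm ps t j k u v) : u = m.L i ∨ u = m.R i :=
  (h.rung i k' f u v b'.1 (b'.2.1.trans (b.2.1.symm.trans (h.lnLR i f.2.1)))).1

namespace Tg

variable [Finite V] [DecidableEq V] (g : m.Tg C Fr s U W) (h : m.Ok)
include g h

/-- the pair move at a boundary cell and a safe junction -/
theorem pair' (f : m.Fc k x y z) (xU : x ∈ U) (yU : y ∈ U) (nx : C.N x) (ny : C.N y)
    (b : m.Bdy W x ∨ m.Bdy W y) (sf : m.Safe Fr W k) :
    m.Tg C (m.Hg Fr k) s ((U.erase x).erase y) (Rm (Rm W x) y) := by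
  obtain ⟨c, cc, sf⟩ := sf
  rcases f.cor_iff.1 cc with rfl | rfl
  · exact g.pair h f xU yU nx ny b sf
  · have := g.pair h f.symm yU xU ny nx b.symm sf
    rwa [Finset.erase_right_comm, show Rm (Rm W c) x = Rm (Rm W x) c by
      funext u v; simp only [Rm, eq_iff_iff]; tauto] at this

variable (r : m.Ord ps)
include r

/-- a lit segment that starts at an open face is opened -/
theorem opS (a : m.Wk ps W t j k) (op : ¬ m.Sol W j) (rr : ∀ i i', m.far i i' → m.stem i ≠ t)
    (l : t ∈ C.L) (fr : ∀ u v, m.Sgm ps t j k u v → Fr u v ∨ Fr v u) :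
    m.Tg C Fr s U (m.Os ps W t j k) := by
  have s' := g.st.del_sgm h r (D := ∅) a op
    (fun i i' f b => absurd ((h.lnLR i f.2.1).symm.trans b.2.1) (rr i i' f)) (by simp)
  rw [Finset.sdiff_empty, show Del W ∅ (m.Sgm ps t j k) = m.Os ps W t j k by
    funext u v; simp [Del, Os]] at s'
  have e : ∀ p q, W p q → ¬ m.Os ps W t j k p q → m.Sgm ps t j k p q :=
    fun p q w n => by_contra fun c => n ⟨w, c⟩
  simpa using g.rm subset_rfl (fun _ _ => Os.w) s' (fun _ p q => absurd p q)
    (fun p q w' n _ _ => (e p q w' n).2.1 ▸ l) fun p q w' n => fr p q (e p q w' n)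

/-- the single move on a segment that starts at an open face -/
theorem sglS (a : m.Wk ps W t j k) (op : ¬ m.Sol W j) (b : m.Sgm ps t j k x y) (nx : C.N x) :
    m.Tg C Fr (s + 1) (U.erase x) (Rm (m.Os ps W t j k) x) := by
  have w := g.st.wk_w h r a b
  have xU := g.st.mem _ _ w
  have e := Finset.card_erase_add_one xU
  have s' := g.st.del_sgm h r (D := {x}) a op
    (fun i i' f c => by simpa [eq_comm] using h.sgm_rung f c b)
    (by obtain ⟨-, i, o⟩ := b.1; simpa using ⟨i, o.1, x, y, o, b⟩)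
  rw [Finset.sdiff_singleton_eq_erase,
    show Del W {x} (m.Sgm ps t j k) = Rm (m.Os ps W t j k) x by
      funext u v; simp only [Del, Rm, Os, Finset.mem_singleton, eq_iff_iff]; tauto] at s'
  have e' : ∀ p q, W p q → ¬ Rm (m.Os ps W t j k) x p q → p = x ∨ q = x ∨ m.Sgm ps t j k p q :=
    fun p q w n => by unfold Rm Os at n; tauto
  have := (g.along h w).rm (U.erase_subset x) (fun _ _ q => q.1.1) s'
    (fun y p q => (by simpa [p] using q : y = x) ▸ nx)
    (fun p q w' n a b' => by
      rcases e' p q w' n with rfl | rfl | c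
      · simp at a
      · simp at b'
      · exact c.2.1 ▸ b.2.1 ▸ g.nl x _ nx b.1.onL)
    fun p q w n => by
      have := e' p q w n
      have := g.st.wk_run h r a b (x := p) (y := q)
      tauto
  convert this.weak (Fr' := Fr) fun u v _ q => .inl (.inl q) using 1
  omega

/-- the pair move at a face of a segment that starts at an open face -/
theorem pairS (a : m.Wk ps W t j k) (op : ¬ m.Sol W j) (f : m.Fc i x y z) (o : m.On i u v)
    (b : m.Sgm ps t j k u v) (xU : x ∈ U) (yU : y ∈ U) (nx : C.N x) (ny : C.N y)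
    (sf : m.Safe Fr W i) :
    m.Tg C (m.Hg Fr i) s ((U.erase x).erase y) (Rm (Rm (m.Os ps W t j k) x) y) := by
  wlog sx : ∀ k', m.far i k' → W x (m.X k') → Fr x (m.X k') ∨ Fr (m.X k') x generalizing x y
  · obtain ⟨c, cc, sf'⟩ := id sf
    rcases f.cor_iff.1 cc with rfl | rfl
    · exact absurd sf' sx
    have := this f.symm yU xU ny nx sf'
    rwa [Finset.erase_right_comm, show Rm (Rm (m.Os ps W t j k) c) x = Rm (Rm (m.Os ps W t j k) x) c by
      funext u v; simp only [Rm, eq_iff_iff]; tauto] at this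
  have ne := (h.fc_ne f).1
  have ki := (g.st.bd x xU).ne_inf f.has1
  have hg : m.hug i t := b.2.1 ▸ h.hug_on ki o b.1.1
  have e := Finset.card_erase_add_one xU
  have e' := Finset.card_erase_add_one (Finset.mem_erase.2 ⟨ne.symm, yU⟩)
  have s' := g.st.del_sgm h r (D := {x, y}) a op
    (fun n n' q c => by
      have := h.sgm_rung q c b
      have := h.sgm_rung q c (b.symm h)
      have := f.has_iff.1 o.1
      have := f.has_iff.1 o.2
      have := b.1.1
      simp only [Finset.mem_insert, Finset.mem_singleton]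
      grind)
    (by simpa using ⟨⟨i, f.has1, u, v, o, b⟩, i, f.has2, u, v, o, b⟩)
  rw [show U \ {x, y} = (U.erase x).erase y by ext; simp; tauto,
    show Del W {x, y} (m.Sgm ps t j k) = Rm (Rm (m.Os ps W t j k) x) y by
      funext u v
      simp only [Del, Rm, Os, Finset.mem_insert, Finset.mem_singleton, eq_iff_iff]; tauto] at s'
  have c : ∀ p q, W p q → ¬ Rm (Rm (m.Os ps W t j k) x) y p q →
      (p = x ∨ q = x) ∨ (p = y ∨ q = y) ∨ m.Sgm ps t j k p q :=
    fun p q w n => by unfold Rm Os at n; tauto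
  have fx : ∀ v, W x v → m.Seen Fr i x y x v ∨ m.Seen Fr i x y v x := fun v w => by
    by_cases c : ∀ k', m.far i k' → m.X k' ≠ v
    · exact .inl (.inr (.inr (.inr ⟨rfl, c⟩)))
    · push Not at c
      obtain ⟨k', q, rfl⟩ := c
      exact (sx k' q w).imp .inl .inl
  have := (g.light h f ki).rm ((Finset.erase_subset _ _).trans (U.erase_subset x))
    (fun _ _ q => q.1.1.1) s'
    (fun u p q => by
      rcases (by simpa [p, imp_iff_not_or] using q : u = y ∨ u = x) with rfl | rfl
      exacts [ny, nx])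
    (fun p q w' n a b => by
      rcases c p q w' n with (rfl | rfl) | (rfl | rfl) | c
      · simp at a
      · simp at b
      · simp at a
      · simp at b
      · obtain ⟨l1, l2, -⟩ := h.lines f ki
        rw [c.2.1]
        rcases hg with c | c
        exacts [c ▸ l1 ▸ g.nl x _ nx (h.adj12 f).onL, c ▸ l2 ▸ g.nl x _ nx (h.adj13 f).onL])
    fun p q w' n => by
      rcases c p q w' n with (rfl | rfl) | (rfl | rfl) | c
      exacts [fx _ w', (fx _ (g.st.sym _ _ w')).symm, .inl (.inr (.inl rfl)), .inr (.inr (.inl rfl)),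
        .inl (.inr (.inr (.inl (c.2.1 ▸ hg))))]
  convert this.weak (Fr' := m.Hg Fr i) fun u v _ q => .inl (q.imp id fun q => .inr (.inl q)) using 1
  omega

omit r h [Finite V] in
/-- with slack zero the part of a closed set of cells is even -/
theorem evenS (e : s ≤ 0) (al : C.al W) (B : Set V) [DecidablePred (· ∈ B)]
    (cl : ∀ u v, W u v → u ∈ B → v ∈ B) : Even (∑ u ∈ U.filter (· ∈ B), C.μ u) :=
  g.even e al (U.filter_subset _) fun u v w q =>
    Finset.mem_filter.2 ⟨g.st.mem2 w, cl u v w (Finset.mem_filter.1 q).2⟩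

end Tg

/-- the weight of the part of `U` in `B` -/
noncomputable def wB (μ : V → ℕ) (U : Finset V) (B : Set V) : ℕ :=
  by classical exact ∑ u ∈ U.filter (· ∈ B), μ u

theorem wB_out [DecidableEq V] {μ : V → ℕ} {B : Set V} (n : x ∉ B) : wB μ (U.erase x) B = wB μ U B := by
  classical
  unfold wB
  congr 1
  ext u
  simp only [Finset.mem_filter, Finset.mem_erase]
  grind

theorem wB_in [DecidableEq V] {μ : V → ℕ} {B : Set V} (xU : x ∈ U) (n : x ∈ B) :
    wB μ (U.erase x) B + μ x = wB μ U B := by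
  classical
  unfold wB
  rw [Finset.filter_erase]
  convert Finset.sum_erase_add _ _ (Finset.mem_filter.2 ⟨xU, n⟩)

theorem wB_compl (μ : V → ℕ) (U : Finset V) (B : Set V) : wB μ U B + wB μ U Bᶜ = ∑ u ∈ U, μ u := by
  classical
  unfold wB
  convert Finset.sum_filter_add_sum_filter_not U (· ∈ B) μ

theorem wB_add [DecidableEq V] {μ : V → ℕ} {B : Set V} (n : c ∉ B) :
    wB (fun u => μ u + if u = c then 1 else 0) U B = wB μ U B := by
  classical
  unfold wB
  exact Finset.sum_congr rfl fun u q => by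
    have : u ≠ c := fun e => n (e ▸ (Finset.mem_filter.1 q).2)
    simp [this]

/-- with slack zero the weight of a closed set of cells is even -/
theorem Tg.evB (g : m.Tg C Fr s U W) (e : s ≤ 0) (al : C.al W) (B : Set V)
    (cl : ∀ u v, W u v → u ∈ B → v ∈ B) : wB C.μ U B % 2 = 0 := by
  classical
  unfold wB
  convert Nat.even_iff.1 (g.evenS e al B cl)

/-- the switch: a boundary cell with safe partners on two sides -/
theorem Tg.switch [Finite V] [DecidableEq V] (g : m.Tg C Fr 0 U W) (h : m.Ok) (al : ∀ W, C.al W)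
    (B : Set V) (cl : ∀ u v, W u v → u ≠ z → v ≠ z → u ∈ B → v ∈ B) (bz : m.Bdy W z)
    (f : m.Fc k z p e) (f' : m.Fc k' z q e') (sf : m.Safe Fr W k) (sf' : m.Safe Fr W k')
    (zU : z ∈ U) (pU : p ∈ U) (qU : q ∈ U) (nz : C.N z) (np : C.N p) (nq : C.N q) (pB : p ∈ B)
    (qB : q ∉ B) : False := by
  have e1 := (g.pair' h f zU pU nz np (.inl bz) sf).evB le_rfl (al _) B
    fun u v w => cl u v w.1.1 w.1.2.1 w.1.2.2
  have e2 := (g.pair' h f' zU qU nz nq (.inl bz) sf').evB le_rfl (al _) B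
    fun u v w => cl u v w.1.1 w.1.2.1 w.1.2.2
  have e3 := wB_in (μ := C.μ) (Finset.mem_erase.2 ⟨(h.fc_ne f).1.symm, pU⟩) pB
  rw [wB_out qB] at e2
  have := g.one p np
  omega

end Map

end Pool.Agent.P.MP_5f84aa_co.G
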