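import Pool.Agent.P.MP_5f84aa_co.G.PH

/-! The local game: a macro is played step by step.  `Fr` are the pieces that are already lit, `s` is
the slack (two for each light, minus one for each removed cell). -/

namespace Pool.Agent.P.MP_5f84aa_co.G

namespace Map

variable {V J Sg : Type}

/-- the fixed data: removable cells, lines that may be opened, weights, condition on the last state -/
structure Ctx (V Sg : Type) where
  N : V → Prop
  L : Set Sg
  μ : V → ℕ
  al : (V → V → Prop) → Prop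

/-- the walls after the removal of the cell `x` -/
def Rm (W : V → V → Prop) (x u v : V) : Prop := W u v ∧ u ≠ x ∧ v ≠ x

/-- the walls after the opening of the run of `a b` -/
def Op (m : Map V J Sg) (W : V → V → Prop) (a b u v : V) : Prop := W u v ∧ ¬ m.Run W a b u v

/-- the pieces that are lit after a light at `k` between `x` and `y` with its shadow in `x` -/
def Seen (m : Map V J Sg) (Fr : V → V → Prop) (k : J) (x y u v : V) : Prop :=
  Fr u v ∨ u = y ∨ m.hug k (m.ln u v) ∨ (u = x ∧ ∀ k', m.far k k' → m.X k' ≠ v)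

/-- the pieces that are lit after a light at `k` whose two cells are removed -/
def Hg (m : Map V J Sg) (Fr : V → V → Prop) (k : J) (u v : V) : Prop :=
  Fr u v ∨ m.hug k (m.ln u v)

/-- a position of the game -/
structure Tg (m : Map V J Sg) (C : Ctx V Sg) (Fr : V → V → Prop) (s : ℤ) (U : Finset V)
    (W : V → V → Prop) : Prop where
  st : m.HSt U W
  one : ∀ u, C.N u → C.μ u = 1
  nl : ∀ u t, C.N u → m.OnL u t → t ∈ C.L
  par : (((∑ u ∈ U, C.μ u : ℕ) : ℤ) + s) % 2 = 0
  mac : ∀ (U' : Finset V) (W' : V → V → Prop) (𝒦 : Finset (Finset V)), U' ⊆ U →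
    (∀ u v, W' u v → W u v) → m.HSt U' W' → (∀ x ∈ U, x ∉ U' → C.N x) →
    (∀ p q, W p q → ¬ W' p q → p ∈ U' → q ∈ U' → m.ln p q ∈ C.L) → C.al W' → Fam U' W' C.μ 𝒦 →
    (U.card : ℤ) + 𝒦.card ≤ U'.card +
      2 * (m.cost fun u v => W u v ∧ ¬ W' u v ∧ ¬ Fr u v ∧ ¬ Fr v u : ℕ) + s

variable {m : Map V J Sg} {C : Ctx V Sg} {Fr Fr' W W' : V → V → Prop} {s : ℤ}
  {U U' K K' : Finset V} {a b c u v x y z : V} {j k k' : J}

theorem Rm.w (r : Rm W x u v) : W u v := r.1
theorem Op.w (r : m.Op W a b u v) : W u v := r.1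

theorem rm_eq [DecidableEq V] : Del W {x} No = Rm W x := by
  funext u v; simp [Del, Rm, No]

theorem op_eq [DecidableEq V] : Del W ∅ (m.Run W a b) = m.Op W a b := by
  funext u v; simp [Del, Op]

theorem Bdy.mono (b : m.Bdy W x) (l : ∀ u v, W' u v → W u v) : m.Bdy W' x :=
  let ⟨j, a, n⟩ := b; ⟨j, a, fun q => n fun u v d o => l u v (q u v d o)⟩

/-- a cell that shares a face with a removed cell is a boundary cell -/
theorem bdy_rm (o : m.On j x y) (d : x ≠ y) : m.Bdy (Rm W x) y :=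
  ⟨j, o.2, fun q => (q x y d o).2.1 rfl⟩

theorem Adj.bdy_rm (a : m.Adj x y) : m.Bdy (Rm W x) y := let ⟨d, _, o⟩ := a; Map.bdy_rm o d

/-- a cell on an opened run is a boundary cell -/
theorem HSt.bdy_op (h : m.Ok) (t : m.HSt U W) (w : W a b) (r : m.Run W a b u v) :
    m.Bdy (m.Op W a b) u :=
  let ⟨d, j, o⟩ := t.adj _ _ (t.run_w h r w).1; ⟨j, o.1, fun q => (q u v d o).2 r⟩

theorem HSt.rm [DecidableEq V] (h : m.Ok) (t : m.HSt U W) (b : m.Bdy W x) :
    m.HSt (U.erase x) (Rm W x) := by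
  rw [← rm_eq, ← Finset.sdiff_singleton_eq_erase]
  exact t.del_bdy h (by simpa using b)

theorem HSt.op (h : m.Ok) (t : m.HSt U W) (w : W a b) (at' : m.Att W a b)
    (rr : ∀ j j', m.far j j' → m.stem j ≠ m.ln a b) : m.HSt U (m.Op W a b) := by
  classical
  have := t.del_open h w at' rr
  rwa [op_eq, Finset.sdiff_empty] at this

namespace Tg

variable [Finite V] (g : m.Tg C Fr s U W)
include g

/-- new lights -/
theorem more (r : ℕ) (cs : m.cost (fun u v => W u v ∧ ¬ Fr u v ∧ Fr' u v) ≤ r) :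
    m.Tg C Fr' (s + 2 * r) U W := by
  refine ⟨g.st, g.one, g.nl, by have := g.par; omega, fun U' W' 𝒦 a1 a2 a3 a4 a5 a6 a7 => ?_⟩
  have := g.mac U' W' 𝒦 a1 a2 a3 a4 a5 a6 a7
  have : m.cost (fun u v => W u v ∧ ¬ W' u v ∧ ¬ Fr u v ∧ ¬ Fr v u) ≤ _ + _ :=
    cost_union' (W₁ := fun u v => W u v ∧ ¬ W' u v ∧ ¬ Fr' u v ∧ ¬ Fr' v u)
      (W₂ := fun u v => W u v ∧ ¬ Fr u v ∧ Fr' u v) fun u v q => by
        have := g.st.sym u v
        tauto
  omega

/-- lit pieces are forgotten -/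
theorem weak (l : ∀ u v, W u v → Fr' u v → Fr u v ∨ Fr v u) : m.Tg C Fr' s U W := by
  refine ⟨g.st, g.one, g.nl, g.par, fun U' W' 𝒦 a1 a2 a3 a4 a5 a6 a7 => ?_⟩
  have := g.mac U' W' 𝒦 a1 a2 a3 a4 a5 a6 a7
  have : m.cost (fun u v => W u v ∧ ¬ W' u v ∧ ¬ Fr u v ∧ ¬ Fr v u) ≤ _ :=
    cost_mono (W := fun u v => W u v ∧ ¬ W' u v ∧ ¬ Fr' u v ∧ ¬ Fr' v u) fun u v q => by
      have := l u v q.1
      have := l v u (g.st.sym _ _ q.1)
      tauto
  omega

/-- lit walls and cells with lit walls are removed -/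
theorem rm (a1 : U' ⊆ U) (a2 : ∀ u v, W' u v → W u v) (a3 : m.HSt U' W')
    (a4 : ∀ x ∈ U, x ∉ U' → C.N x)
    (a5 : ∀ p q, W p q → ¬ W' p q → p ∈ U' → q ∈ U' → m.ln p q ∈ C.L)
    (a6 : ∀ p q, W p q → ¬ W' p q → Fr p q ∨ Fr q p) :
    m.Tg C Fr (s - (U.card - U'.card)) U' W' := by
  classical
  refine ⟨a3, g.one, g.nl, ?_, fun U₂ W₂ 𝒦 b1 b2 b3 b4 b5 b6 b7 => ?_⟩
  · have e1 := Finset.sum_sdiff (f := C.μ) a1
    have e2 : ∑ u ∈ U \ U', C.μ u = (U \ U').card := by
      rw [Finset.card_eq_sum_ones]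
      exact Finset.sum_congr rfl fun u q =>
        g.one u (a4 u (Finset.mem_sdiff.1 q).1 (Finset.mem_sdiff.1 q).2)
    have e3 := Finset.card_sdiff_add_card_eq_card a1
    have := g.par
    omega
  · have := g.mac U₂ W₂ 𝒦 (b1.trans a1) (fun u v q => a2 u v (b2 u v q)) b3
      (fun x p q => by
        by_cases e : x ∈ U'
        exacts [b4 x e q, a4 x p e])
      (fun p q w n e e' => by
        by_cases w' : W' p q
        exacts [b5 p q w' n e e', a5 p q w w' (b1 e) (b1 e')]) b6 b7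
    have : m.cost (fun u v => W u v ∧ ¬ W₂ u v ∧ ¬ Fr u v ∧ ¬ Fr v u) ≤ _ :=
      cost_mono (W := fun u v => W' u v ∧ ¬ W₂ u v ∧ ¬ Fr u v ∧ ¬ Fr v u) fun u v q =>
        ⟨by_contra fun n => (a6 u v q.1 n).elim q.2.2.1 q.2.2.2, q.2⟩
    omega

omit [Finite V] in
/-- a family of closed odd sets is bounded by the slack -/
theorem fam {𝒦 : Finset (Finset V)} (al : C.al W) (F : Fam U W C.μ 𝒦) : (𝒦.card : ℤ) ≤ s := by
  have := g.mac U W 𝒦 subset_rfl (fun _ _ => id) g.st (fun _ p q => absurd p q)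
    (fun _ _ p q => absurd p q) al F
  rw [cost_zero fun u v q => q.2.1 q.1] at this
  omega

omit [Finite V] in
theorem nonneg (al : C.al W) : 0 ≤ s := by
  simpa using g.fam (𝒦 := ∅) al ⟨by simp, by simp⟩

omit [Finite V] in
/-- one odd set -/
theorem odd1 (al : C.al W) (sub : K ⊆ U) (cl : Cld W K) (od : Odd (∑ u ∈ K, C.μ u)) : 1 ≤ s := by
  simpa using g.fam (𝒦 := {K}) al ⟨by simpa using ⟨sub, cl, od⟩, by simp⟩

omit [Finite V] in
/-- with slack zero all closed sets are even -/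
theorem even (e : s ≤ 0) (al : C.al W) (sub : K ⊆ U) (cl : Cld W K) : Even (∑ u ∈ K, C.μ u) :=
  Nat.not_odd_iff_even.1 fun od => by have := g.odd1 al sub cl od; omega

omit [Finite V] in
/-- two disjoint odd sets -/
theorem odd2 (al : C.al W) (sub : K ⊆ U) (cl : Cld W K) (od : Odd (∑ u ∈ K, C.μ u)) (sub' : K' ⊆ U)
    (cl' : Cld W K') (od' : Odd (∑ u ∈ K', C.μ u)) (d : Disjoint K K') : 2 ≤ s := by
  classical
  have ne : K ≠ K' := by
    rintro rfl
    rw [disjoint_self.1 d] at od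
    simp at od
  have := g.fam (𝒦 := {K, K'}) al ⟨by simpa using ⟨⟨sub, cl, od⟩, sub', cl', od'⟩, by
    simp only [Finset.mem_insert, Finset.mem_singleton]
    rintro _ (rfl | rfl) _ (rfl | rfl) q
    exacts [absurd rfl q, d, d.symm, absurd rfl q]⟩
  rw [Finset.card_pair ne] at this
  exact this

omit [Finite V] in
/-- a cell without walls -/
theorem free (e : s ≤ 0) (al : C.al W) (zU : z ∈ U) (n : C.N z) (f : ∀ v, ¬ W z v) : False := by
  have := g.odd1 al (K := {z}) (by simpa using zU)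
    (fun u v w q => absurd ((by simpa using q : u = z) ▸ w) (f v)) (by simp [g.one z n])
  omega

variable (h : m.Ok)
include h

/-- a light at the junction `k` with the shadow in `x` -/
theorem light (f : m.Fc k x y z) (ki : k ≠ m.inf) : m.Tg C (m.Seen Fr k x y) (s + 2) U W := by
  simpa using g.more 1 (h.cost_jn f ki fun u v q => by
    obtain ⟨-, n, q | q | q | q⟩ := q
    exacts [absurd q n, .inl (.inl q), .inr (.inl q), .inr (.inr (.inl q))])

omit h in
/-- a light inside the cell `x` -/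
theorem inside (x : V) : m.Tg C (fun u v => Fr u v ∨ u = x) (s + 2) U W := by
  simpa using g.more 1 (cost_cell x fun u v q => .inl (q.2.2.resolve_left q.2.1))

/-- one light sees the walls of `x` and the run of one of them -/
theorem along (w : W x y) :
    m.Tg C (fun u v => Fr u v ∨ u = x ∨ m.Run W x y u v) (s + 2) U W := by
  classical
  simpa using g.more 1 ((cost_mono fun u v q => gone_iff.2 ⟨q.1, by
    have := q.2.2.resolve_left q.2.1
    simp only [Finset.mem_singleton]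
    tauto⟩).trans (g.st.cost_sgl h w))

/-- a lit attached run that is no rung is opened -/
theorem opn (w : W a b) (t : m.Att W a b) (rr : ∀ j j', m.far j j' → m.stem j ≠ m.ln a b)
    (l : m.ln a b ∈ C.L) (fr : ∀ u v, m.Run W a b u v → Fr u v ∨ Fr v u) :
    m.Tg C Fr s U (m.Op W a b) := by
  have r : ∀ p q, W p q → ¬ m.Op W a b p q → m.Run W a b p q :=
    fun p q w n => by_contra fun c => n ⟨w, c⟩
  simpa using g.rm subset_rfl (fun _ _ => Op.w) (g.st.op h w t rr) (fun _ p q => absurd p q)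
    (fun p q w' n _ _ => (g.st.run_w h (r p q w' n) w).2 ▸ l) fun p q w' n => fr p q (r p q w' n)

variable [DecidableEq V]

/-- a boundary cell with lit walls is removed -/
theorem rm1 (xU : x ∈ U) (n : C.N x) (b : m.Bdy W x) (fr : ∀ v, W x v → Fr x v ∨ Fr v x) :
    m.Tg C Fr (s - 1) (U.erase x) (Rm W x) := by
  have e := Finset.card_erase_add_one xU
  have r : ∀ p q, W p q → ¬ Rm W x p q → p = x ∨ q = x := fun p q w n => by
    unfold Rm at n; tauto
  have := g.rm (U.erase_subset x) (fun _ _ => Rm.w) (g.st.rm h b)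
    (fun y p q => (by simpa [p] using q : y = x) ▸ n)
    (fun p q w n a b => by rcases r p q w n with rfl | rfl <;> simp at a b)
    fun p q w n => by
      rcases r p q w n with rfl | rfl
      exacts [fr _ w, (fr _ (g.st.sym _ _ w)).symm]
  convert this using 1
  omega

/-- the pair move at a boundary cell; the shadow falls on `x` -/
theorem pair (f : m.Fc k x y z) (xU : x ∈ U) (yU : y ∈ U) (nx : C.N x) (ny : C.N y)
    (b : m.Bdy W x ∨ m.Bdy W y)
    (sf : ∀ k', m.far k k' → W x (m.X k') → Fr x (m.X k') ∨ Fr (m.X k') x) :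
    m.Tg C (m.Hg Fr k) s ((U.erase x).erase y) (Rm (Rm W x) y) := by
  have ne := (h.fc_ne f).1
  have g1 := g.light h f ((g.st.bd x xU).ne_inf f.has1)
  have fx : ∀ v, W x v → m.Seen Fr k x y x v ∨ m.Seen Fr k x y v x := fun v w => by
    by_cases c : ∀ k', m.far k k' → m.X k' ≠ v
    · exact .inl (.inr (.inr (.inr ⟨rfl, c⟩)))
    · push Not at c
      obtain ⟨k', q, rfl⟩ := c
      exact (sf k' q w).imp .inl .inl
  have g2 : m.Tg C (m.Seen Fr k x y) s ((U.erase x).erase y) (Rm (Rm W x) y) := by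
    rcases b with b | b
    · convert (g1.rm1 h xU nx b fx).rm1 h (Finset.mem_erase.2 ⟨ne.symm, yU⟩) ny
        (bdy_rm f.on ne) fun v _ => .inl (.inr (.inl rfl)) using 1
      omega
    · have := (g1.rm1 h yU ny b fun v _ => .inl (.inr (.inl rfl))).rm1 h
        (Finset.mem_erase.2 ⟨ne, xU⟩) nx (bdy_rm f.on.symm ne.symm) fun v w => fx v w.1
      rw [Finset.erase_right_comm, show Rm (Rm W y) x = Rm (Rm W x) y by
        funext u v; simp only [Rm, eq_iff_iff]; tauto] at this
      convert this using 1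
      omega
  exact g2.weak fun u v _ q => .inl (q.imp id fun q => .inr (.inl q))

/-- the single move on an attached run -/
theorem sgl (w : W x y) (t : m.Att W x y) (nx : C.N x) :
    m.Tg C Fr (s + 1) (U.erase x) (Rm (m.Op W x y) x) := by
  have xU := g.st.mem _ _ w
  have e := Finset.card_erase_add_one xU
  have s' := g.st.del_sgl h w t
  rw [Finset.sdiff_singleton_eq_erase, show Del W {x} (m.Run W x y) = Rm (m.Op W x y) x by
    funext u v; simp only [Del, Rm, Op, Finset.mem_singleton, eq_iff_iff]; tauto] at s'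
  have r : ∀ p q, W p q → ¬ Rm (m.Op W x y) x p q → p = x ∨ q = x ∨ m.Run W x y p q :=
    fun p q w n => by unfold Rm Op at n; tauto
  have := (g.along h w).rm (U.erase_subset x) (fun _ _ q => q.1.1) s'
    (fun y p q => (by simpa [p] using q : y = x) ▸ nx)
    (fun p q w' n a b => by
      rcases r p q w' n with rfl | rfl | r
      · simp at a
      · simp at b
      · exact (g.st.run_w h r w).2 ▸ g.nl x _ nx (g.st.adj _ _ w).onL)
    fun p q w n => by
      have := r p q w n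
      tauto
  convert this.weak (Fr' := Fr) fun u v _ q => .inl (.inl q) using 1
  omega

/-- the pair move at a junction of an attached run -/
theorem pairR (f : m.Fc k x y z) (xU : x ∈ U) (yU : y ∈ U) (nx : C.N x) (ny : C.N y) (w : W a b)
    (o : m.On k a b) (t : m.Att W a b)
    (sf : ∀ k', m.far k k' → W x (m.X k') → Fr x (m.X k') ∨ Fr (m.X k') x) :
    m.Tg C (m.Hg Fr k) s ((U.erase x).erase y) (Rm (Rm (m.Op W a b) x) y) := by
  have ne := (h.fc_ne f).1
  have ki := (g.st.bd x xU).ne_inf f.has1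
  have e := Finset.card_erase_add_one xU
  have e' := Finset.card_erase_add_one (Finset.mem_erase.2 ⟨ne.symm, yU⟩)
  have s' := g.st.del_pair h f w o t
  rw [show U \ {x, y} = (U.erase x).erase y by ext; simp; tauto,
    show Del W {x, y} (m.Run W a b) = Rm (Rm (m.Op W a b) x) y by
      funext u v
      simp only [Del, Rm, Op, Finset.mem_insert, Finset.mem_singleton, eq_iff_iff]; tauto] at s'
  have r : ∀ p q, W p q → ¬ Rm (Rm (m.Op W a b) x) y p q →
      (p = x ∨ q = x) ∨ (p = y ∨ q = y) ∨ m.Run W a b p q :=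
    fun p q w n => by unfold Rm Op at n; tauto
  have fx : ∀ v, W x v → m.Seen Fr k x y x v ∨ m.Seen Fr k x y v x := fun v w => by
    by_cases c : ∀ k', m.far k k' → m.X k' ≠ v
    · exact .inl (.inr (.inr (.inr ⟨rfl, c⟩)))
    · push Not at c
      obtain ⟨k', q, rfl⟩ := c
      exact (sf k' q w).imp .inl .inl
  have := (g.light h f ki).rm ((Finset.erase_subset _ _).trans (U.erase_subset x))
    (fun _ _ q => q.1.1.1) s'
    (fun u p q => by
      rcases (by simpa [p, imp_iff_not_or] using q : u = y ∨ u = x) with rfl | rfl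
      exacts [ny, nx])
    (fun p q w' n a b => by
      rcases r p q w' n with (rfl | rfl) | (rfl | rfl) | r
      · simp at a
      · simp at b
      · simp at a
      · simp at b
      · obtain ⟨l1, l2, -⟩ := h.lines f ki
        rcases g.st.hug_run h w o r with c | c
        exacts [c ▸ l1 ▸ g.nl x _ nx (h.adj12 f).onL, c ▸ l2 ▸ g.nl x _ nx (h.adj13 f).onL])
    fun p q w' n => by
      rcases r p q w' n with (rfl | rfl) | (rfl | rfl) | r
      exacts [fx _ w', (fx _ (g.st.sym _ _ w')).symm, .inl (.inr (.inl rfl)), .inr (.inr (.inl rfl)),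
        .inl (.inr (.inr (.inl (g.st.hug_run h w o r))))]
  convert this.weak (Fr' := m.Hg Fr k) fun u v _ q => .inl (q.imp id fun q => .inr (.inl q)) using 1
  omega

end Tg

namespace Cn

variable [DecidableEq V] [Finite V] {d : ℕ} {T : Set Sg} {N : V → Prop} {Q : V → V → Prop}
  {al : (V → V → Prop) → Prop} {μ : V → ℕ}

/-- the pieces on free lines -/
def FrT (m : Map V J Sg) (T : Set Sg) (u v : V) : Prop := m.ln u v ∈ T

/-- the data of the game in which the zone may die -/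
def dC (m : Map V J Sg) (P : V → Prop) (T : Set Sg) (μ : V → ℕ) : Ctx V Sg :=
  ⟨P, {t | t ∈ T ∨ ∃ u, P u ∧ m.OnL u t}, μ, fun _ => True⟩

/-- the data of the game in which the zone survives -/
def lC (m : Map V J Sg) (P : V → Prop) (T : Set Sg) (W : V → V → Prop)
    (al : (V → V → Prop) → Prop) (c : V) (μ : V → ℕ) : Ctx V Sg :=
  ⟨fun u => P u ∧ u ≠ c, {t | t ∈ T ∨ ∃ u, P u ∧ m.OnL u t},
    fun u => μ u + if u = c then 1 else 0, fun W' => al W' ∧ ∃ u v, W u v ∧ ¬ W' u v⟩

theorem mac {P : V → Prop} (h : m.Ok) (t : m.HSt U W) (a1 : U' ⊆ U) (a2 : ∀ u v, W' u v → W u v)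
    (a3 : m.HSt U' W') (a4 : ∀ x ∈ U, x ∉ U' → P x)
    (a5 : ∀ p q, W p q → ¬ W' p q → p ∈ U' → q ∈ U' →
      m.ln p q ∈ T ∨ ∃ u, P u ∧ m.OnL u (m.ln p q)) :
    ∃ D ρ, U \ D = U' ∧ Del W D ρ = W' ∧ D.card + U'.card = U.card ∧
      (∀ u v, W u v → ¬ W' u v → D.Nonempty ∨ ρ u v) ∧ m.Mc P T U W D ρ
        (m.cost fun u v => W u v ∧ ¬ W' u v ∧ ¬ FrT m T u v ∧ ¬ FrT m T v u) := by
  have e1 : U \ (U \ U') = U' := Finset.sdiff_sdiff_eq_self a1
  have e2 : Del W (U \ U') (fun p q => ¬ W' p q ∧ p ∈ U' ∧ q ∈ U') = W' := by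
    funext u v
    have := a2 u v
    have := a3.mem u v
    have := @HSt.mem2 _ _ _ _ u v _ _ a3
    have := t.mem u v
    have := @HSt.mem2 _ _ _ _ u v _ _ t
    simp only [Del, Finset.mem_sdiff, eq_iff_iff]
    tauto
  refine ⟨U \ U', _, e1, e2, Finset.card_sdiff_add_card_eq_card a1, fun u v w n => ?_,
    fun x q => a4 x (Finset.mem_sdiff.1 q).1 (Finset.mem_sdiff.1 q).2,
    fun p q w r => a5 p q w r.1 r.2.1 r.2.2, by rwa [e1, e2],
    cost_mono fun u v q => ⟨q.1.1, e2 ▸ q.1.2, q.2, fun n => q.2 (h.ln_symm v u ▸ n)⟩⟩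
  · by_cases p : u ∈ U'
    · by_cases q : v ∈ U'
      exacts [.inr ⟨n, p, q⟩, .inl ⟨v, Finset.mem_sdiff.2 ⟨t.mem2 w, q⟩⟩]
    · exact .inl ⟨u, Finset.mem_sdiff.2 ⟨t.mem _ _ w, p⟩⟩

/-- the start of the game in which the zone may die -/
theorem dT (h : m.Ok) (cf : m.Cn d T N U W Q al c μ) :
    m.Tg (dC m (m.Fp d T W Q) T μ) (FrT m T) 0 U W := by
  refine ⟨cf.st, cf.one, fun u t a b => .inr ⟨u, a, b⟩, ?_, fun U' W' 𝒦 a1 a2 a3 a4 a5 _ a7 => ?_⟩
  · have := Nat.even_iff.1 cf.even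
    simp only [dC]
    omega
  · obtain ⟨D, ρ, rfl, rfl, e, -, M⟩ := mac h cf.st a1 a2 a3 a4 a5
    have := cf.dead D ρ _ 𝒦 M a7
    omega

/-- the start of the game in which the zone survives -/
theorem lT (h : m.Ok) (cf : m.Cn d T N U W Q al c μ) (cU : c ∈ U) :
    m.Tg (lC m (m.Fp d T W Q) T W al c μ) (FrT m T) (-1) U W := by
  refine ⟨cf.st, fun u a => by simp [lC, a.2, cf.one u a.1], fun u t a b => .inr ⟨u, a.1, b⟩, ?_,
    fun U' W' 𝒦 a1 a2 a3 a4 a5 a6 a7 => ?_⟩
  · have := Nat.even_iff.1 cf.even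
    simp only [lC, Finset.sum_add_distrib, Finset.sum_ite_eq', cU, if_true]
    omega
  · obtain ⟨D, ρ, rfl, rfl, e, ne, M⟩ := mac h cf.st a1 a2 a3 (fun x p q => (a4 x p q).1) a5
    obtain ⟨av, u, v, w, n⟩ := a6
    have := cf.live D ρ _ 𝒦 M av ((ne u v w n).imp_right fun r => ⟨u, v, w, r⟩) a7
    omega

end Cn

end Map

end Pool.Agent.P.MP_5f84aa_co.G
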