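import Pool.Agent.P.MP_5f84aa_co.G.LS
import Pool.Agent.P.MP_5f84aa_co.G.LGc

/-! The local game: a tight state with a living pair of partners. -/

namespace Pool.Agent.P.MP_5f84aa_co.G

namespace Map

variable {V J Sg : Type}

/-- one of the three cells of the zone -/
def InZ (x a y u : V) : Prop := u = x ∨ u = a ∨ u = y

/-- a tight state with the living pair `x`, `y` of partners of `a`; `C` is the game in which the zone
may die, `C'` the game in which the walls `a x` and `a y` survive -/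
structure Lz (m : Map V J Sg) (ps : J → Sg → ℤ) (T : Set Sg) (C C' : Ctx V Sg) (U : Finset V)
    (W : V → V → Prop) (x a y : V) : Prop where
  ok : m.Ok
  ord : m.Ord ps
  dead : m.Tg C (Cn.FrT m T) 0 U W
  dal : ∀ W', C.al W'
  live : m.Tg C' (Cn.FrT m T) (-1) U W
  lal : ∀ W', W' a x → W' a y → (∃ u v, W u v ∧ ¬ W' u v) → C'.al W'
  ln : ∀ u, C.N u → u ≠ a → C'.N u
  lw : ∀ u, u ≠ a → C'.μ u = C.μ u
  la : C'.μ a = C.μ a + 1
  conn : ∀ K ⊆ U, Cld W K → K.Nonempty → K = U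
  near : ∀ u, m.Fe T W 4 u → C.N u
  nf : ∀ a b, W a b → m.Att W a b → m.ln a b ∉ T
  ne : x ≠ y
  gx : m.GP a x
  gy : m.GP a y
  wx : W a x
  wy : W a y
  na : C.N a
  nx : C.N x
  ny : C.N y

/-- the static facts of the type without rungs at the centre -/
structure Gz (m : Map V J Sg) (ps : J → Sg → ℤ) (T : Set Sg) (C C' : Ctx V Sg) (U : Finset V)
    (W : V → V → Prop) (x a y : V) : Prop extends m.Lz ps T C C' U W x a y where
  ss : ∀ u u' w j j', C.N u → C.N u' → C.N w → m.far j j' → m.GE j u u' → m.GP u w →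
    w = u' ∨ w = m.X j ∨ w = m.X j'
  s0 : ∀ u, C.N u → ¬ m.Rn a u
  good : ¬ m.Bad a x y

variable {m : Map V J Sg} {ps : J → Sg → ℤ} {t : Sg} {T : Set Sg} {C C' : Ctx V Sg}
  {W W' : V → V → Prop} {U : Finset V} {a b c p q u v w x y z e : V} {i j k k' : J}

theorem wB_congr {μ μ' : V → ℕ} {B : Set V} (e : ∀ u ∈ B, μ u = μ' u) : wB μ U B = wB μ' U B := by
  classical
  unfold wB
  exact Finset.sum_congr rfl fun u q => e u (Finset.mem_filter.1 q).2

theorem GP.symm (g : m.GP u v) : m.GP v u := let ⟨j, g⟩ := g; ⟨j, g.symm⟩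

theorem InZ.symm (i : InZ x a y u) : InZ y a x u := by unfold InZ at *; tauto

theorem Lz.symm (L : m.Lz ps T C C' U W x a y) : m.Lz ps T C C' U W y a x :=
  { L with
    lal := fun W' p q => L.lal W' q p
    ne := L.ne.symm
    gx := L.gy
    gy := L.gx
    wx := L.wy
    wy := L.wx
    nx := L.ny
    ny := L.nx }

theorem Gz.symm (L : m.Gz ps T C C' U W x a y) : m.Gz ps T C C' U W y a x :=
  { L.toLz.symm with
    ss := L.ss
    s0 := L.s0
    good := fun b => L.good b.symm }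

section

variable [DecidableEq V] [Finite V] {N : V → Prop} {μ : V → ℕ}

/-- the game in which the zone may die -/
abbrev Loc.Cd (_ : m.Loc T N U W μ a x y) : Ctx V Sg := Cn.dC m (m.Fe T W 8) T μ

/-- the game in which the living pair survives -/
abbrev Loc.Cl (_ : m.Loc T N U W μ a x y) : Ctx V Sg :=
  Cn.lC m (m.Fe T W 8) T W (fun W' => W' a x ∧ W' a y) a μ

theorem Loc.dT (h : m.Ok) (L : m.Loc T N U W μ a x y) : m.Tg L.Cd (Cn.FrT m T) 0 U W := by
  refine ⟨L.st, L.one, fun u t a b => .inr ⟨u, a, b⟩, ?_, fun U' W' 𝒦 a1 a2 a3 a4 a5 _ a7 => ?_⟩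
  · have := Nat.even_iff.1 L.even
    simp only [Cn.dC]
    omega
  · obtain ⟨D, ρ, rfl, rfl, e, -, M⟩ := Cn.mac h L.st a1 a2 a3 a4 a5
    have := L.dead D ρ _ 𝒦 M a7
    omega

theorem Loc.lT (h : m.Ok) (L : m.Loc T N U W μ a x y) : m.Tg L.Cl (Cn.FrT m T) (-1) U W := by
  have cU := L.st.mem _ _ L.wx
  refine ⟨L.st, fun u a => by simp [Cn.lC, a.2, L.one u a.1], fun u t a b => .inr ⟨u, a.1, b⟩, ?_,
    fun U' W' 𝒦 a1 a2 a3 a4 a5 a6 a7 => ?_⟩
  · have := Nat.even_iff.1 L.even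
    simp only [Cn.lC, Finset.sum_add_distrib, Finset.sum_ite_eq', cU, if_true]
    omega
  · obtain ⟨D, ρ, rfl, rfl, e, ne, M⟩ := Cn.mac h L.st a1 a2 a3 (fun x p q => (a4 x p q).1) a5
    obtain ⟨av, u, v, w, n⟩ := a6
    have := L.live D ρ _ 𝒦 M av.1 av.2 ((ne u v w n).imp_right fun r => ⟨u, v, w, r⟩) a7
    omega

theorem Loc.lz (h : m.Ok) (r : m.Ord ps) (L : m.Loc T N U W μ a x y) :
    m.Lz ps T L.Cd L.Cl U W x a y where
  ok := h
  ord := r
  dead := L.dT h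
  dal _ := trivial
  live := L.lT h
  lal _ p q n := ⟨⟨p, q⟩, n⟩
  ln _ p q := ⟨p, q⟩
  lw u n := by simp [Cn.lC, Cn.dC, n]
  la := by simp [Cn.lC, Cn.dC]
  conn := L.conn
  near _ f := f.mono (by omega)
  nf := L.nf
  ne := L.ne
  gx := L.gx
  gy := L.gy
  wx := L.wx
  wy := L.wy
  na := L.na
  nx := L.n1 L.wx
  ny := L.n1 L.wy

theorem Loc.gz (h : m.Ok) (r : m.Ord ps) (L : m.Loc T N U W μ a x y)
    (ss : ∀ u u' w j j', N u → N u' → N w → m.far j j' → m.GE j u u' → m.GP u w →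
      w = u' ∨ w = m.X j ∨ w = m.X j') (s0 : ∀ u, N u → ¬ m.Rn a u) (good : ¬ m.Bad a x y) :
    m.Gz ps T L.Cd L.Cl U W x a y :=
  { L.lz h r with
    ss := fun u u' w j j' a b c => ss u u' w j j' (L.near u a) (L.near u' b) (L.near w c)
    s0 := fun u a => s0 u (L.near u a)
    good := good }

end

namespace Lz

variable (L : m.Lz ps T C C' U W x a y)
include L

theorem st : m.HSt U W := L.dead.st
theorem aU : a ∈ U := L.st.mem _ _ L.wx
theorem xU : x ∈ U := L.st.mem2 L.wx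
theorem yU : y ∈ U := L.st.mem2 L.wy
theorem ax : a ≠ x := L.st.ne L.wx
theorem ay : a ≠ y := L.st.ne L.wy
theorem one (n : C.N u) : C.μ u = 1 := L.dead.one u n

theorem inZ_n (i : InZ x a y u) : C.N u := by
  rcases i with rfl | rfl | rfl
  exacts [L.nx, L.na, L.ny]

/-- cells on attached runs are near -/
theorem n_att (w : W u v) (t : m.Att W u v) : C.N u := L.near u (Fe.mono (d := 0) ⟨v, w, t⟩ (by omega))

theorem fe_sgm (g : m.Wk ps W t j k) (op : ¬ m.Sol W j) (b : m.Sgm ps t j k u v) : m.Fe T W 0 u :=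
  ⟨v, L.st.wk_w L.ok L.ord g b, L.st.wk_att L.ok L.ord g op b⟩

/-- cells on a segment that starts at an open face are near -/
theorem n_sgm (g : m.Wk ps W t j k) (op : ¬ m.Sol W j) (b : m.Sgm ps t j k u v) : C.N u :=
  L.near u ((L.fe_sgm g op b).mono (by omega))

theorem fe_bdy (b : m.Bdy W u) (w : W u v) : m.Fe T W 0 u :=
  let ⟨v, o⟩ := L.st.bdy_out L.ok b w; ⟨v, o.1, o.att⟩

/-- boundary cells and their neighbours are near -/
theorem n_bdy (b : m.Bdy W u) (w : W u v) : C.N u ∧ C.N v :=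
  ⟨L.near u ((L.fe_bdy b w).mono (by omega)), L.near v (((L.fe_bdy b w).wall w).mono (by omega))⟩

/-- the weight of all the cells is even -/
theorem tot (B : Set V) : (wB C.μ U B + wB C.μ U Bᶜ) % 2 = 0 := by
  have := L.dead.par
  rw [wB_compl]
  omega

variable [Finite V] [DecidableEq V]

/-- a safe pair at a boundary cell meets the zone -/
theorem f1 (f : m.Fc k p q e) (w : W p q) (np : C.N p) (nq : C.N q) (b : m.Bdy W p ∨ m.Bdy W q)
    (sf : m.Safe (Cn.FrT m T) W k) : InZ x a y p ∨ InZ x a y q := by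
  by_contra n
  simp only [InZ, not_or] at n
  obtain ⟨⟨n1, n2, n3⟩, n4, n5, n6⟩ := n
  have := (L.live.pair' L.ok f (L.st.mem _ _ w) (L.st.mem2 w) (L.ln p np n2) (L.ln q nq n5) b sf).nonneg
    (L.lal _ ⟨⟨L.wx, Ne.symm n2, Ne.symm n1⟩, Ne.symm n5, Ne.symm n4⟩
      ⟨⟨L.wy, Ne.symm n2, Ne.symm n3⟩, Ne.symm n5, Ne.symm n6⟩ ⟨p, q, w, fun r => r.1.2.1 rfl⟩)
  omega

/-- a safe pair at a face of a segment from an open face meets the zone, or the segment contains a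
wall of the zone -/
theorem f1S (g : m.Wk ps W t j k) (op : ¬ m.Sol W j) (f : m.Fc i p q e) (o : m.On i u v)
    (b : m.Sgm ps t j k u v) (pU : p ∈ U) (qU : q ∈ U) (np : C.N p) (nq : C.N q)
    (sf : m.Safe (Cn.FrT m T) W i) :
    (InZ x a y p ∨ InZ x a y q) ∨ m.Sgm ps t j k a x ∨ m.Sgm ps t j k a y := by
  by_contra n
  simp only [InZ, not_or] at n
  obtain ⟨⟨⟨n1, n2, n3⟩, n4, n5, n6⟩, n7, n8⟩ := n
  have := (L.live.pairS L.ok L.ord g op f o b pU qU (L.ln p np n2) (L.ln q nq n5) sf).nonneg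
    (L.lal _ ⟨⟨⟨L.wx, n7⟩, Ne.symm n2, Ne.symm n1⟩, Ne.symm n5, Ne.symm n4⟩
      ⟨⟨⟨L.wy, n8⟩, Ne.symm n2, Ne.symm n3⟩, Ne.symm n5, Ne.symm n6⟩
      ⟨u, v, L.st.wk_w L.ok L.ord g b, fun r => r.1.1.2 b⟩)
  omega

/-- after a single off the zone the closed sets without the centre are even -/
theorem f2S (g : m.Wk ps W t j k) (op : ¬ m.Sol W j) (b : m.Sgm ps t j k u v) (n : ¬ InZ x a y u)
    (n1 : ¬ m.Sgm ps t j k a x) (n2 : ¬ m.Sgm ps t j k a y) (B : Set V) (aB : a ∉ B)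
    (cl : ∀ p q, Rm (m.Os ps W t j k) u p q → p ∈ B → q ∈ B) : wB C.μ (U.erase u) B % 2 = 0 := by
  simp only [InZ, not_or] at n
  obtain ⟨n3, n4, n5⟩ := n
  have := (L.live.sglS L.ok L.ord g op b (L.ln u (L.n_sgm g op b) n4)).evB (by omega)
    (L.lal _ ⟨⟨L.wx, n1⟩, Ne.symm n4, Ne.symm n3⟩ ⟨⟨L.wy, n2⟩, Ne.symm n4, Ne.symm n5⟩
      ⟨u, v, L.st.wk_w L.ok L.ord g b, fun r => r.2.1 rfl⟩) B cl
  rwa [wB_congr (μ' := C.μ) fun u q => L.lw u fun e => aB (e ▸ q)] at this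

end Lz

namespace Gz

variable (L : m.Gz ps T C C' U W x a y)
include L

/-- the corners of the centre are safe -/
theorem safe_a {Fr W' : V → V → Prop} (f : m.Fc k a p e) (n : C.N p) : m.Safe Fr W' k :=
  safe_of_not fun k' g => L.s0 p n ⟨k, k', g, f.ge⟩

/-- no near cell has two rungs -/
theorem rn_uniq (nu : C.N u) (nv : C.N v) (nw : C.N w) (r : m.Rn u v) (r' : m.Rn u w) : w = v := by
  obtain ⟨j, j', f, g⟩ := r
  obtain ⟨k, k', f', g'⟩ := r'
  have key : ∀ j j', m.far j j' → m.GE j u v → w ≠ m.X j := fun j j' f g e =>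
    L.ok.far_not_bar f' f.2.1 ((L.ok.lines g' f'.2.1).1.symm.trans (e ▸ (L.ok.lines g f.2.1).2.1))
  rcases L.ss u v w j j' nu nv nw f g ⟨k, g'⟩ with e | e | e
  exacts [e, absurd e (key j j' f g), absurd e (key j' j f.symm (L.ok.far_ge f g))]

/-- the two partners are not joined by a rung -/
theorem no_rn : ¬ m.Rn x y := by
  rintro ⟨j, j', f, g⟩
  rcases L.ss x y a j j' L.nx L.ny L.na f g L.gx.symm with e | e | e
  exacts [L.toLz.ay e, L.good (.inl ⟨j, j', f, e ▸ g⟩),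
    L.good (.inl ⟨j', j, f.symm, e ▸ L.ok.far_ge f g⟩)]

/-- a junction of two cells of the zone is safe -/
theorem safe_z {Fr W' : V → V → Prop} (f : m.Fc k p q e) (ip : InZ x a y p) (iq : InZ x a y q) :
    m.Safe Fr W' k := by
  refine safe_of_not fun k' g => ?_
  have r : m.Rn p q := ⟨k, k', g, f.ge⟩
  have := (L.ok.fc_ne f).1
  rcases ip with rfl | rfl | rfl <;> rcases iq with rfl | rfl | rfl
  exacts [this rfl, L.s0 _ L.nx r.symm, L.no_rn r, L.s0 _ L.nx r, this rfl, L.s0 _ L.ny r,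
    L.no_rn r.symm, L.s0 _ L.ny r.symm, this rfl]

end Gz

end Map

end Pool.Agent.P.MP_5f84aa_co.G
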