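import Mathlib

/-!
Project ILG: illumination of arbitrary disjoint segments.  The abstract map of a T-junction subdivision.
`V` cells, `J` faces (junctions and one face at infinity), `Sg` bars.
-/

namespace Pool.Agent.P.MP_5f84aa_co.G

open Finset

structure Map (V J Sg : Type) where
  L : J → V
  R : J → V
  X : J → V
  stem : J → Sg
  bar : J → Sg
  inf : J
  ln : V → V → Sg

variable {V J Sg : Type}

namespace Map

variable (m : Map V J Sg)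

/-- `v` is a vertex of the face `j` -/
def has (j : J) (v : V) : Prop := v = m.L j ∨ v = m.R j ∨ v = m.X j

/-- `v` has a corner at `j` -/
def cor (j : J) (v : V) : Prop := v = m.L j ∨ v = m.R j

/-- adjacency along a piece -/
def Adj (u v : V) : Prop := u ≠ v ∧ ∃ j, m.has j u ∧ m.has j v

/-- `j'` is the far end of the rung that ends at `j` -/
def far (j j' : J) : Prop := j ≠ j' ∧ j ≠ m.inf ∧ j' ≠ m.inf ∧ ∀ v, m.cor j v ↔ m.cor j' v

/-- a convex corner of the set `K` -/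
def cvx (K : Set V) (j : J) : Prop :=
  m.X j ∉ K ∧ ((m.L j ∈ K ∧ m.R j ∉ K) ∨ (m.R j ∈ K ∧ m.L j ∉ K))

/-- cells joined by rungs -/
def RAdj (u v : V) : Prop := u ≠ v ∧ ∃ j j', m.far j j' ∧ m.cor j u ∧ m.cor j v

/-- cells joined by a chain of rungs that end at junctions of `ρ` -/
def RC (ρ : Set J) : V → V → Prop :=
  Relation.ReflTransGen fun a b => ∃ j ∈ ρ, ∃ j', m.far j j' ∧ m.cor j a ∧ m.cor j b

/-- `j` is an end of a rung of `ρ` -/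
def Rg (ρ : Set J) (j : J) : Prop := ∃ k ∈ ρ, ∃ k', m.far k k' ∧ (j = k ∨ j = k')

structure Ok : Prop where
  neLR : ∀ j, m.L j ≠ m.R j
  neLX : ∀ j, m.L j ≠ m.X j
  neRX : ∀ j, m.R j ≠ m.X j
  two : ∀ u v, m.Adj u v → {j | m.has j u ∧ m.has j v}.ncard = 2
  ln_symm : ∀ u v, m.ln u v = m.ln v u
  lnLR : ∀ j, j ≠ m.inf → m.ln (m.L j) (m.R j) = m.stem j
  lnLX : ∀ j, j ≠ m.inf → m.ln (m.L j) (m.X j) = m.bar j
  lnRX : ∀ j, j ≠ m.inf → m.ln (m.R j) (m.X j) = m.bar j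
  stem_ne : ∀ j, j ≠ m.inf → m.stem j ≠ m.bar j
  bars_ne : ∀ j j', j ≠ j' → j ≠ m.inf → j' ≠ m.inf → m.stem j = m.stem j' → m.bar j ≠ m.bar j'
  rung : ∀ j j', m.far j j' → ∀ u v, m.Adj u v → m.ln u v = m.stem j → m.cor j u ∧ m.cor j v
  jordan : ∀ E : V → V → Prop, (∀ u v, E u v → E v u) → (∀ u v, E u v → m.Adj u v) →
    (∀ u, Even {v | E u v}.ncard) →
    ∃ F : Set J, ∀ u v, m.Adj u v → (E u v ↔ {j | j ∈ F ∧ m.has j u ∧ m.has j v}.ncard = 1)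
  link : ∀ v j j', m.has j v → m.has j' v → Relation.ReflTransGen
    (fun a b => m.has a v ∧ m.has b v ∧ ∃ w, w ≠ v ∧ m.has a w ∧ m.has b w) j j'
  hole : ∀ K : Set V, K.Nonempty → (∀ v ∈ K, ¬ m.has m.inf v) → 3 ≤ {j | m.cvx K j}.ncard
  side : ∀ (v : V) (u : Sg), ¬ m.has m.inf v →
    {j | m.cor j v ∧ (m.stem j = u ∨ m.bar j = u)}.ncard ≤ 2
  rside : ∀ (ρ : Set J) (v : V) (u : Sg), {j | j ≠ m.inf ∧ ¬ m.Rg ρ j ∧
    (∃ w, m.RC ρ v w ∧ m.cor j w) ∧ (m.stem j = u ∨ m.bar j = u)}.ncard ≤ 2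
  rone : ∀ (ρ : Set J) u u' v v', m.RC ρ u u' → m.RC ρ v v' → m.Adj u v → m.Adj u' v' →
    ¬ m.RC ρ u v → m.ln u v = m.ln u' v'
  rin : ∀ (ρ : Set J) u v, m.RC ρ u v → m.Adj u v →
    ∃ j ∈ ρ, ∃ j', m.far j j' ∧ m.cor j u ∧ m.cor j v

/-- The piece between `u` and `v` is lit from the side of `u`, or hugged, by the lights at the junctions of `M`
and in the cells of `F`; `sh j` is the half of a rung that receives the shadow of the light at `j`. -/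
def LitFrom (M : Finset J) (F : Finset V) (sh : J → V) (u v : V) : Prop :=
  u ∈ F ∨ (∃ j ∈ M, m.stem j = m.ln u v ∨ m.bar j = m.ln u v) ∨
    (∃ j ∈ M, m.cor j u ∧ ∀ j', m.far j j' → sh j = u → m.X j' ≠ v) ∨
    ∃ j ∈ M, ∃ k ∈ M, j ≠ k ∧ m.cor j u ∧ m.cor k u

/-- a combinatorial lighting -/
structure Cover (M : Finset J) (F : Finset V) (sh : J → V) : Prop where
  fin : m.inf ∉ M
  sh_cor : ∀ j ∈ M, m.cor j (sh j)
  lit : ∀ u v, m.Adj u v → m.LitFrom M F sh u v ∨ m.LitFrom M F sh v u ∨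
    ((∃ j ∈ M, m.cor j u) ∧ ∃ k ∈ M, m.cor k v)

end Map

abbrev Pt : Type := Fin 2 → ℝ

/-- The geometric layer. -/
def S_GEO : Prop := ∀ (n : ℕ) (a b : Fin n → Pt),
  (Pairwise fun i j => Disjoint (segment ℝ (a i) (b i)) (segment ℝ (a j) (b j))) →
  ∃ (V J Sg : Type) (_ : Fintype V) (_ : Fintype J) (m : Map V J Sg), m.Ok ∧
    Fintype.card V ≤ n + 4 ∧ Fintype.card J ≤ 2 * Fintype.card V ∧
    ∀ M F sh, m.Cover M F sh → ∃ S : Finset Pt, S.card ≤ M.card + F.card ∧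
      (∀ x ∈ S, ∀ i, x ∉ segment ℝ (a i) (b i)) ∧
      ∀ i, ∀ q ∈ segment ℝ (a i) (b i), ∃ x ∈ S, ∀ j,
        Disjoint (openSegment ℝ x q) (segment ℝ (a j) (b j))

/-- The combinatorial layer. -/
def S_COMB : Prop := ∃ δ : ℝ, 0 < δ ∧ ∃ C : ℝ,
  ∀ (V J Sg : Type) [Fintype V] [Fintype J] (m : Map V J Sg), m.Ok →
    Fintype.card J ≤ 2 * Fintype.card V →
    ∃ M F sh, m.Cover M F sh ∧ ((M.card : ℝ) + F.card) ≤ (1 / 2 - δ) * Fintype.card V + C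

end Pool.Agent.P.MP_5f84aa_co.G
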