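import Pool.Agent.P.MP_5f84aa_co.G.Map

/-! A stronger interface: counting facts, and the contraction of rungs. -/

namespace Pool.Agent.P.MP_5f84aa_co.G

variable {V J Sg : Type}

namespace Map

/-- counting facts -/
structure Cnt (m : Map V J Sg) : Prop where
  euler : Nat.card J + 4 = 2 * Nat.card V
  face : ∀ v, ∃ j, m.has j v
  inc : ∀ K : Set V, K.Nonempty → (∀ v ∈ K, ¬ m.has m.inf v) →
    2 * K.ncard + 1 ≤ {j | m.L j ∈ K ∨ m.R j ∈ K}.ncard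
  edg : ∀ K : Set V, K.Nonempty → (∀ v ∈ K, ¬ m.has m.inf v) →
    {j | m.L j ∈ K ∧ m.R j ∈ K}.ncard + 2 ≤ 2 * K.ncard
  out : ∀ v, m.has m.inf v → {j | j ≠ m.inf ∧ m.cor j v}.ncard ≤ 1

/-- `m'` is obtained from `m` by removing the rungs that end at junctions of `ρ` -/
structure Contr {V' J' : Type} (m : Map V J Sg) (ρ : Set J) (m' : Map V' J' Sg) (π : V → V')
    (ι : J' → J) : Prop where
  surj : Function.Surjective π
  eq : ∀ u v, π u = π v ↔ m.RC ρ u v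
  inj : Function.Injective ι
  rng : ∀ j, (∃ j', ι j' = j) ↔ ¬ m.Rg ρ j
  inf : ι m'.inf = m.inf
  L : ∀ j, m'.L j = π (m.L (ι j))
  R : ∀ j, m'.R j = π (m.R (ι j))
  X : ∀ j, m'.X j = π (m.X (ι j))
  stem : ∀ j, m'.stem j = m.stem (ι j)
  bar : ∀ j, m'.bar j = m.bar (ι j)
  adj : ∀ u v, m.Adj u v → π u ≠ π v → m'.Adj (π u) (π v) ∧ m'.ln (π u) (π v) = m.ln u v

/-- the map and all its contractions along rungs are maps of subdivisions -/
def Ok2 (m : Map V J Sg) : Prop := m.Ok ∧ m.Cnt ∧ ∀ ρ : Set J,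
  ∃ (V' J' : Type) (_ : Fintype V') (_ : Fintype J') (m' : Map V' J' Sg) (π : V → V') (ι : J' → J),
    m'.Ok ∧ m'.Cnt ∧ m.Contr ρ m' π ι

end Map

/-- The geometric layer, stronger form. -/
def S_GEO2 : Prop := ∀ (n : ℕ) (a b : Fin n → Pt),
  (Pairwise fun i j => Disjoint (segment ℝ (a i) (b i)) (segment ℝ (a j) (b j))) →
  ∃ (V J Sg : Type) (_ : Fintype V) (_ : Fintype J) (m : Map V J Sg), m.Ok2 ∧
    Fintype.card V ≤ n + 4 ∧
    ∀ M F sh, m.Cover M F sh → ∃ S : Finset Pt, S.card ≤ M.card + F.card ∧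
      (∀ x ∈ S, ∀ i, x ∉ segment ℝ (a i) (b i)) ∧
      ∀ i, ∀ q ∈ segment ℝ (a i) (b i), ∃ x ∈ S, ∀ j,
        Disjoint (openSegment ℝ x q) (segment ℝ (a j) (b j))

/-- The combinatorial layer, weaker form. -/
def S_COMB2 : Prop := ∃ δ : ℝ, 0 < δ ∧ ∃ C : ℝ,
  ∀ (V J Sg : Type) [Fintype V] [Fintype J] (m : Map V J Sg), m.Ok2 →
    ∃ M F sh, m.Cover M F sh ∧ ((M.card : ℝ) + F.card) ≤ (1 / 2 - δ) * Fintype.card V + C

end Pool.Agent.P.MP_5f84aa_co.G
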