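import Pool.Agent.P.MP_5f84aa_co.G.HLH

/-! The parity frame, part A: the cost of a set of walls, removal of cells, closed sets. -/

namespace Pool.Agent.P.MP_5f84aa_co.G

namespace Map

variable {V J Sg : Type} (m : Map V J Sg)

/-- lights at any places that see all the pieces of `W` -/
structure Lts (W : V → V → Prop) (M : Finset J) (F : Finset V) (sh : J → V) : Prop where
  fin : m.inf ∉ M
  sh_cor : ∀ j ∈ M, m.cor j (sh j)
  lit : ∀ u v, W u v → m.Lit M F sh u v

/-- the least number of lights that see all the pieces of `W` -/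
noncomputable def cost (W : V → V → Prop) : ℕ :=
  sInf {n | ∃ M F sh, m.Lts W M F sh ∧ M.card + F.card = n}

/-- the walls after the removal of the cells `D` and of the pieces `ρ` -/
def Del (W : V → V → Prop) (D : Finset V) (ρ : V → V → Prop) (u v : V) : Prop :=
  W u v ∧ u ∉ D ∧ v ∉ D ∧ ¬ ρ u v

/-- the walls inside `K` -/
def Res (W : V → V → Prop) (K : Finset V) (u v : V) : Prop := W u v ∧ u ∈ K ∧ v ∈ K

/-- no wall leaves `K` -/
def Cld (W : V → V → Prop) (K : Finset V) : Prop := ∀ u v, W u v → u ∈ K → v ∈ K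

variable {m} {M M' : Finset J} {F F' : Finset V} {sh sh' : J → V} {W W₁ W₂ : V → V → Prop}
  {U K D : Finset V} {ρ : V → V → Prop} {u v x y z : V} {j k : J}

theorem Lts.cost_le (g : m.Lts W M F sh) : m.cost W ≤ M.card + F.card :=
  Nat.sInf_le ⟨M, F, sh, g, rfl⟩

theorem cost_spec (m : Map V J Sg) [Finite V] (W : V → V → Prop) :
    ∃ M F sh, m.Lts W M F sh ∧ M.card + F.card = m.cost W := by
  have := Fintype.ofFinite V
  exact Nat.sInf_mem (s := {n | ∃ M F sh, m.Lts W M F sh ∧ M.card + F.card = n})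
    ⟨_, ∅, Finset.univ, m.L, ⟨by simp, by simp, fun u v _ => lit_sing (by simp)⟩, rfl⟩

theorem Lts.weak (g : m.Lts W M F sh) (r : ∀ u v, W₁ u v → W u v ∨ W v u) : m.Lts W₁ M F sh :=
  ⟨g.fin, g.sh_cor, fun u v a => (r u v a).elim (g.lit u v) fun b => (g.lit v u b).symm⟩

theorem cost_mono' [Finite V] (r : ∀ u v, W₁ u v → W u v ∨ W v u) : m.cost W₁ ≤ m.cost W := by
  obtain ⟨M, F, sh, g, e⟩ := m.cost_spec W
  exact e ▸ (g.weak r).cost_le

theorem cost_mono [Finite V] (r : ∀ u v, W₁ u v → W u v) : m.cost W₁ ≤ m.cost W :=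
  cost_mono' fun u v a => .inl (r u v a)

theorem cost_zero (r : ∀ u v, ¬ W u v) : m.cost W = 0 :=
  Nat.le_zero.1 (Lts.cost_le (M := ∅) (F := ∅) (sh := m.L)
    ⟨by simp, by simp, fun u v a => absurd a (r u v)⟩)

theorem HGood.lts (g : m.HGood U W M F sh) : m.Lts W M F sh := ⟨g.fin, g.sh_cor, g.lit⟩

/-- a junction that is used twice is replaced by a light in the shadowed cell -/
theorem Lts.union [DecidableEq V] [DecidableEq J] (g : m.Lts W₁ M F sh) (g' : m.Lts W₂ M' F' sh') :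
    m.Lts (fun u v => W₁ u v ∨ W₂ u v) (M ∪ M') (F ∪ F' ∪ (M ∩ M').image sh)
      (fun j => if j ∈ M then sh j else sh' j) where
  fin := by simp [g.fin, g'.fin]
  sh_cor j hj := by
    by_cases c : j ∈ M
    · simpa [c] using g.sh_cor j c
    · simpa [c] using g'.sh_cor j (by simpa [c] using hj)
  lit u v r := by
    rcases r with r | r
    · exact (g.lit u v r).mono Finset.subset_union_left
        (Finset.subset_union_left.trans Finset.subset_union_left) fun j a => if_pos a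
    · have key : ∀ u v, m.LitFrom M' F' sh' u v → m.LitFrom (M ∪ M') (F ∪ F' ∪ (M ∩ M').image sh)
          (fun j => if j ∈ M then sh j else sh' j) u v := by
        rintro u v (l | ⟨j, a, l⟩ | ⟨j, a, l, q⟩ | ⟨j, a, k, b, l⟩)
        · exact .inl (by simp [l])
        · exact .inr (.inl ⟨j, by simp [a], l⟩)
        · by_cases c : j ∈ M
          · by_cases e : sh j = u
            · exact .inl (Finset.mem_union_right _ (Finset.mem_image.2 ⟨j, by simp [a, c], e⟩))
            · exact .inr (.inr (.inl ⟨j, by simp [a], l, fun j' _ n => absurd (by simpa [c] using n) e⟩))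
          · exact .inr (.inr (.inl ⟨j, by simp [a], l, fun j' f n => q j' f (by simpa [c] using n)⟩))
        · exact .inr (.inr (.inr ⟨j, by simp [a], k, by simp [b], l⟩))
      rcases g'.lit u v r with l | l | ⟨⟨j, a, l⟩, k, b, l'⟩
      exacts [.inl (key _ _ l), .inr (.inl (key _ _ l)),
        .inr (.inr ⟨⟨j, by simp [a], l⟩, k, by simp [b], l'⟩)]

/-- the cost is subadditive -/
theorem cost_union' [Finite V] (r : ∀ u v, W u v → (W₁ u v ∨ W₂ u v) ∨ (W₁ v u ∨ W₂ v u)) :
    m.cost W ≤ m.cost W₁ + m.cost W₂ := by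
  classical
  obtain ⟨M, F, sh, g, e⟩ := m.cost_spec W₁
  obtain ⟨M', F', sh', g', e'⟩ := m.cost_spec W₂
  have := ((g.union g').weak r).cost_le
  have := Finset.card_union_add_card_inter M M'
  have := Finset.card_union_le (F ∪ F') ((M ∩ M').image sh)
  have := Finset.card_union_le F F'
  have := Finset.card_image_le (s := M ∩ M') (f := sh)
  omega

theorem cost_union [Finite V] (r : ∀ u v, W u v → W₁ u v ∨ W₂ u v) :
    m.cost W ≤ m.cost W₁ + m.cost W₂ := cost_union' fun u v a => .inl (r u v a)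

/-- a lighting of all the pieces -/
theorem cover_cost (m : Map V J Sg) [Finite V] :
    ∃ M F sh, m.Cover M F sh ∧ M.card + F.card = m.cost m.Adj := by
  obtain ⟨M, F, sh, g, e⟩ := m.cost_spec m.Adj
  exact ⟨M, F, sh, ⟨g.fin, g.sh_cor, g.lit⟩, e⟩

/-- singles -/
theorem cost_cells (F : Finset V) (r : ∀ u v, W u v → u ∈ F ∨ v ∈ F) : m.cost W ≤ F.card := by
  simpa using Lts.cost_le (m := m) (W := W) (M := ∅) (F := F) (sh := m.L) ⟨by simp, by simp,
    fun u v a => (r u v a).elim lit_sing fun b => (lit_sing b).symm⟩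

theorem cost_cell (x : V) (r : ∀ u v, W u v → u = x ∨ v = x) : m.cost W ≤ 1 := by
  simpa using cost_cells (m := m) {x} (by simpa using r)

/-- one light at the junction `k` with the shadow in `x`: it sees all pieces of `y`, all pieces of `x`
except the shadowed one, and the two lines -/
theorem Ok.cost_jn (h : m.Ok) (f : m.Fc k x y z) (ki : k ≠ m.inf)
    (r : ∀ u v, W u v → (u = y ∨ v = y) ∨ m.hug k (m.ln u v) ∨
      (u = x ∧ ∀ k', m.far k k' → m.X k' ≠ v) ∨ (v = x ∧ ∀ k', m.far k k' → m.X k' ≠ u)) :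
    m.cost W ≤ 1 := by
  have a : ∀ v, m.Lit {k} ∅ (fun _ => x) y v := fun v =>
    lit_cor (j := k) (by simp) f.cor2 fun _ _ n => absurd n (h.fc_ne f).1
  have b : ∀ v, (∀ k', m.far k k' → m.X k' ≠ v) → m.Lit {k} ∅ (fun _ => x) x v := fun v q =>
    lit_cor (j := k) (by simp) f.cor1 fun k' e _ => q k' e
  simpa using Lts.cost_le (m := m) (W := W) (M := {k}) (F := ∅) (sh := fun _ => x)
    ⟨by simpa using ki.symm, by simpa using f.cor1, fun u v w => by
      rcases r u v w with (rfl | rfl) | q | ⟨rfl, q⟩ | ⟨rfl, q⟩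
      exacts [a _, (a _).symm, lit_hug (j := k) (by simp) q, b _ q, (b _ q).symm]⟩

/-- one light sees the two lines of its junction -/
theorem cost_hug (ki : k ≠ m.inf) (r : ∀ u v, W u v → m.hug k (m.ln u v)) : m.cost W ≤ 1 := by
  simpa using Lts.cost_le (m := m) (W := W) (M := {k}) (F := ∅) (sh := m.L)
    ⟨by simpa using ki.symm, by simp [cor], fun u v w => lit_hug (j := k) (by simp) (r u v w)⟩

theorem Del.w (a : Del W D ρ u v) : W u v := a.1
theorem Res.w (a : Res W K u v) : W u v := a.1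

theorem Cld.sdiff [DecidableEq V] (s : m.HSt U W) (c : Cld W K) : Cld W (U \ K) := fun u v w a =>
  Finset.mem_sdiff.2 ⟨s.mem2 w, fun b => (Finset.mem_sdiff.1 a).2 (c v u (s.sym _ _ w) b)⟩

namespace HSt

variable (h : m.Ok) (s : m.HSt U W)
include h s

/-- the state after the removal of cells and pieces that are connected with the open faces -/
theorem del [DecidableEq V] (sρ : ∀ u v, ρ u v → ρ v u) (nρ : ∀ u v, ρ u v → u ≠ v)
    (rr : ∀ j j', m.far j j' → ρ (m.L j) (m.R j) → m.L j ∈ D ∨ m.R j ∈ D)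
    (ch : ∀ G : Set J, (∀ j, ¬ m.Sol W j → j ∈ G) →
      (∀ d ∈ D, ∀ j j', m.has j d → m.has j' d → j ∈ G → j' ∈ G) →
      (∀ u v j j', ρ u v → m.On j u v → m.On j' u v → j ∈ G → j' ∈ G) →
      (∀ d ∈ D, ∃ j ∈ G, m.has j d) ∧ ∀ u v j, ρ u v → m.On j u v → j ∈ G) :
    m.HSt (U \ D) (Del W D ρ) := by
  refine ⟨fun u a => s.bd u (Finset.mem_sdiff.1 a).1,
      fun u v a => ⟨s.sym _ _ a.1, a.2.2.1, a.2.1, fun n => a.2.2.2 (sρ _ _ n)⟩,
      fun u v a => s.adj _ _ a.1, fun u v a => Finset.mem_sdiff.2 ⟨s.mem _ _ a.1, a.2.1⟩, ?_, ?_⟩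
  · intro G iG sp j op
    have o1 := s.con G iG fun u v q => (sp u v q).1
    have o2 : ∀ d ∈ D, ∀ j j', m.has j d → m.has j' d → j ∈ G → j' ∈ G :=
      fun d a j j' b c e => h.lk0 (fun w q => (sp _ _ q).2.1 a) b c e
    obtain ⟨c1, c2⟩ := ch G o1 o2 fun u v j j' r b c e => by_contra fun n =>
      (sp u v ⟨nρ u v r, j, j', b, c, e, n⟩).2.2.2 r
    by_contra n
    refine op fun u v d o => ⟨by_contra fun q => n (o1 j fun t => q (t u v d o)), fun a => ?_,
      fun a => ?_, fun r => n (c2 u v j r o)⟩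
    · obtain ⟨i, iG, b⟩ := c1 u a
      exact n (o2 u a i j b o.1 iG)
    · obtain ⟨i, iG, b⟩ := c1 v a
      exact n (o2 v a i j b o.2 iG)
  · intro j j' f a b
    obtain ⟨a1, a2⟩ := Finset.mem_sdiff.1 a
    obtain ⟨b1, b2⟩ := Finset.mem_sdiff.1 b
    exact ⟨s.rg j j' f a1 b1, a2, b2, fun r => (rr j j' f r).elim a2 b2⟩

omit h s in
/-- a solid face with a cell in a closed set stays solid -/
theorem sol_res (c : Cld W K) (so : m.Sol W j) (a : m.has j x) (xK : x ∈ K) :
    m.Sol (Res W K) j := by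
  have all : ∀ u, m.has j u → u ∈ K := fun u b => by
    by_cases e : x = u
    exacts [e ▸ xK, c x u (so x u e ⟨a, b⟩) xK]
  exact fun u v d o => ⟨so u v d o, all u o.1, all v o.2⟩

/-- the restriction to a closed set -/
theorem res (sub : K ⊆ U) (c : Cld W K) : m.HSt K (Res W K) := by
  refine ⟨fun u a => s.bd u (sub a), fun u v a => ⟨s.sym _ _ a.1, a.2.2, a.2.1⟩,
    fun u v a => s.adj _ _ a.1, fun u v a => a.2.1, fun G iG sp j op => ?_,
    fun j j' f a b => ⟨s.rg j j' f (sub a) (sub b), a, b⟩⟩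
  have o1 := s.con G iG fun u v q => (sp u v q).1
  by_cases so : m.Sol W j
  swap
  · exact o1 j so
  have key : ∀ i, i ∈ {i | i ∈ G ∨ ∃ u ∈ K, m.has i u ∧ m.Sol W i} := fun i =>
    h.conn_faces (j := m.inf) (F := {i | i ∈ G ∨ ∃ u ∈ K, m.has i u ∧ m.Sol W i}) ?_ (.inl iG)
  · rcases key j with q | ⟨u, uK, a, -⟩
    exacts [q, absurd (sol_res c so a uK) op]
  rintro u v ⟨d, i, i', o, o', q, q'⟩
  have n1 : i' ∉ G := fun t => q' (.inl t)
  have so' : m.Sol W i' := by_contra fun t => n1 (o1 i' t)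
  have uK : u ∉ K := fun t => q' (.inr ⟨u, t, o'.1, so'⟩)
  rcases q with q | ⟨w, wK, a, b⟩
  · exact uK (sp u v ⟨d, i, i', o, o', q, n1⟩).2.1
  · exact uK ((sol_res c b a wK) u v d o).2.1

end HSt

end Map

end Pool.Agent.P.MP_5f84aa_co.G
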