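import Pool.Agent.P.MP_5f84aa_co.G.PA

/-! The parity frame, part B: zones, weights, a minimal counterexample and the counting lemma. -/

namespace Pool.Agent.P.MP_5f84aa_co.G

/-- zones (indexed by their centres `I`, with pieces `Q c`, alive under the condition `al c`),
free lines `T` and weights `ω` -/
structure ZS (V Sg : Type) where
  I : Set V
  Q : V → V → V → Prop
  al : V → (V → V → Prop) → Prop
  T : Set Sg
  ω : V → ℕ

variable {V J Sg : Type}

namespace ZS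

variable (z : ZS V Sg) (m : Map V J Sg)

/-- the zone is alive -/
def Al (W : V → V → Prop) (c : V) : Prop := z.al c W

/-- the cells of a zone -/
def In (c u : V) : Prop := ∃ v, z.Q c u v

/-- the weight of a set of cells -/
def wt (K : Finset V) : ℕ := ∑ u ∈ K, z.ω u

/-- the weight of a cell, the zones of `A` included -/
def mu [DecidableEq V] (A : Finset V) (u : V) : ℕ := z.ω u + if u ∈ A then 1 else 0

/-- the number whose parity matters -/
def pw [DecidableEq V] (A K : Finset V) : ℕ := ∑ u ∈ K, z.mu A u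

/-- the cost of the walls off the free lines -/
noncomputable def cst (W : V → V → Prop) : ℕ := m.cost fun u v => W u v ∧ m.ln u v ∉ z.T

structure Ok : Prop where
  pos : ∀ v, 1 ≤ z.ω v
  sym : ∀ c u v, z.Q c u v → z.Q c v u
  adj : ∀ c ∈ z.I, ∀ u v, z.Q c u v → m.Adj u v
  mono : ∀ c W W', (∀ u v, W' u v → W u v) → (∀ u v, z.Q c u v → W u v → W' u v) → z.Al W c →
    z.Al W' c
  ctr : ∀ c ∈ z.I, ∀ W, z.Al W c → ∃ v, z.Q c c v ∧ W c v
  res : ∀ c ∈ z.I, ∀ W K, z.Al W c → Map.Cld W K → c ∈ K → z.Al (Map.Res W K) c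
  lt : ∀ c ∈ z.I, ∀ u, z.In c u → z.ω u = 1
  nf : ∀ c ∈ z.I, ∀ u v, z.Q c u v → m.ln u v ∉ z.T
  rg : ∀ j j', m.far j j' → m.stem j ∉ z.T

/-- the claim holds for all states inside the given one -/
def Hol (A U : Finset V) (W : V → V → Prop) : Prop :=
  ∀ A' U' W', m.HSt U' W' → A' ⊆ A → U' ⊆ U → (∀ u v, W' u v → W u v) → (∀ c ∈ A', z.Al W' c) →
    2 * z.cst m W' + A'.card ≤ z.wt U'

/-- a minimal counterexample -/
structure Min (A U : Finset V) (W : V → V → Prop) : Prop where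
  st : m.HSt U W
  sub : ∀ c ∈ A, c ∈ z.I
  al : ∀ c ∈ A, z.Al W c
  bad : z.wt U < 2 * z.cst m W + A.card
  ih : ∀ A' U' W', A' ⊆ A → U' ⊆ U → (∀ u v, W' u v → W u v) →
    (A' ≠ A ∨ U' ≠ U ∨ ∃ u v, W u v ∧ ¬ W' u v) → z.Hol m A' U' W'

variable {z m} {A A' U U' K D : Finset V} {W W' W₁ W₂ ρ : V → V → Prop} {c u v x y : V}

/-- without a minimal counterexample the claim holds -/
theorem claim [Finite V] (H : ∀ A U W, ¬ z.Min m A U W) (s : m.HSt U W) (sub : ∀ c ∈ A, c ∈ z.I)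
    (al : ∀ c ∈ A, z.Al W c) : 2 * z.cst m W + A.card ≤ z.wt U := by
  induction hn : A.card + U.card + {p : V × V | W p.1 p.2}.ncard using Nat.strong_induction_on
    generalizing A U W with
  | _ n ih =>
    subst hn
    by_contra b
    refine H A U W ⟨s, sub, al, not_le.1 b, ?_⟩
    intro A₁ U₁ W₁ a1 u1 w1 ne A₂ U₂ W₂ s2 a2 u2 w2 al2
    refine ih _ ?_ s2 (fun c q => sub c (a1 (a2 q))) al2 rfl
    have e1 := Finset.card_le_card a1
    have e2 := Finset.card_le_card a2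
    have e3 := Finset.card_le_card u1
    have e4 := Finset.card_le_card u2
    have e5 : {p : V × V | W₁ p.1 p.2}.ncard ≤ {p : V × V | W p.1 p.2}.ncard :=
      Set.ncard_le_ncard fun p q => w1 _ _ q
    have e6 : {p : V × V | W₂ p.1 p.2}.ncard ≤ {p : V × V | W₁ p.1 p.2}.ncard :=
      Set.ncard_le_ncard fun p q => w2 _ _ q
    rcases ne with q | q | ⟨u, v, q, q'⟩
    · have := Finset.card_lt_card (Finset.ssubset_iff_subset_ne.2 ⟨a1, q⟩)
      omega
    · have := Finset.card_lt_card (Finset.ssubset_iff_subset_ne.2 ⟨u1, q⟩)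
      omega
    · have : {p : V × V | W₁ p.1 p.2}.ncard < {p : V × V | W p.1 p.2}.ncard :=
        Set.ncard_lt_ncard ⟨fun p q => w1 _ _ q, fun t => q' (t (a := (u, v)) q)⟩
      omega

theorem cst_le [Finite V] : z.cst m W ≤ m.cost W := Map.cost_mono fun _ _ a => a.1

theorem cst_mono [Finite V] (r : ∀ u v, W₁ u v → W u v) : z.cst m W₁ ≤ z.cst m W :=
  Map.cost_mono fun u v a => ⟨r u v a.1, a.2⟩

theorem cst_union [Finite V] (r : ∀ u v, W u v → W₁ u v ∨ W₂ u v) :
    z.cst m W ≤ z.cst m W₁ + z.cst m W₂ :=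
  Map.cost_union fun u v a => (r u v a.1).imp (⟨·, a.2⟩) (⟨·, a.2⟩)

theorem Hol.mono (H : z.Hol m A U W) (a : A' ⊆ A) (b : U' ⊆ U) (w : ∀ u v, W' u v → W u v) :
    z.Hol m A' U' W' := fun _ _ _ s a' b' w' al =>
  H _ _ _ s (a'.trans a) (b'.trans b) (fun u v q => w u v (w' u v q)) al

theorem Al.mem (o : z.Ok m) (s : m.HSt U W) (cI : c ∈ z.I) (al : z.Al W c) : c ∈ U := by
  obtain ⟨v, -, p⟩ := o.ctr c cI W al
  exact s.mem _ _ p

theorem Al.res (o : z.Ok m) (cI : c ∈ z.I) (al : z.Al W c) (cl : Map.Cld W K) (cK : c ∈ K) :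
    z.Al (Map.Res W K) c := o.res c cI W K al cl cK

/-- a zone that is not touched stays alive -/
theorem Al.del (o : z.Ok m) (al : z.Al W c) (d : ∀ u v, z.Q c u v → W u v → u ∉ D ∧ v ∉ D)
    (r : ∀ u v, z.Q c u v → W u v → ¬ ρ u v) : z.Al (Map.Del W D ρ) c :=
  o.mono c _ _ (fun _ _ => Map.Del.w) (fun u v p w => ⟨w, (d u v p w).1, (d u v p w).2, r u v p w⟩) al

/-- zones that are alive if all their pieces are walls -/
theorem ok_fix (al : ∀ c W, z.al c W ↔ ∀ u v, z.Q c u v → W u v) (pos : ∀ v, 1 ≤ z.ω v)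
    (sym : ∀ c u v, z.Q c u v → z.Q c v u) (adj : ∀ c ∈ z.I, ∀ u v, z.Q c u v → m.Adj u v)
    (ctr : ∀ c ∈ z.I, z.In c c) (con : ∀ c ∈ z.I, ∀ K : Set V, c ∈ K →
      (∀ u v, z.Q c u v → u ∈ K → v ∈ K) → ∀ u, z.In c u → u ∈ K)
    (lt : ∀ c ∈ z.I, ∀ u, z.In c u → z.ω u = 1) (nf : ∀ c ∈ z.I, ∀ u v, z.Q c u v → m.ln u v ∉ z.T)
    (rg : ∀ j j', m.far j j' → m.stem j ∉ z.T) : z.Ok m := by
  refine ⟨pos, sym, adj, fun c W W' _ e a => (al c W').2 fun u v p => e u v p ((al c W).1 a u v p),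
    fun c cI W a => ?_, fun c cI W K a cl cK => (al c _).2 fun u v p => ?_, lt, nf, rg⟩
  · obtain ⟨v, p⟩ := ctr c cI
    exact ⟨v, p, (al c W).1 a _ _ p⟩
  · have := con c cI {u | u ∈ K} cK fun u v p b => cl u v ((al c W).1 a u v p) b
    exact ⟨(al c W).1 a u v p, this u ⟨v, p⟩, this v ⟨u, sym _ _ _ p⟩⟩

theorem card_le_wt (o : z.Ok m) (K : Finset V) : K.card ≤ z.wt K := by
  simpa [wt] using Finset.card_nsmul_le_sum K z.ω 1 fun v _ => o.pos v

variable [DecidableEq V]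

theorem pw_eq (A K : Finset V) : z.pw A K = z.wt K + (A ∩ K).card := by
  rw [pw, wt, Finset.inter_comm, ← Finset.filter_mem_eq_inter, Finset.card_filter,
    ← Finset.sum_add_distrib]
  rfl

theorem wt_sdiff (sub : K ⊆ U) : z.wt (U \ K) + z.wt K = z.wt U := Finset.sum_sdiff sub

theorem pw_sdiff (sub : K ⊆ U) : z.pw A (U \ K) + z.pw A K = z.pw A U := Finset.sum_sdiff sub

theorem pw_congr (e : ∀ u ∈ K, u ∈ A ↔ u ∈ A') : z.pw A K = z.pw A' K :=
  Finset.sum_congr rfl fun u a => by simp [mu, e u a]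

theorem pw_insert (n : u ∉ K) : z.pw A (insert u K) = z.mu A u + z.pw A K := Finset.sum_insert n

theorem pw_erase (n : u ∈ K) : z.pw A (K.erase u) + z.mu A u = z.pw A K :=
  Finset.sum_erase_add _ _ n

theorem pw_union (d : Disjoint K D) : z.pw A (K ∪ D) = z.pw A K + z.pw A D := Finset.sum_union d

theorem mu_one (l : z.ω u = 1) (n : u ∉ A) : z.mu A u = 1 := by simp [mu, l, n]

omit [DecidableEq V] in
@[simp] theorem wt_single (u : V) : z.wt {u} = z.ω u := Finset.sum_singleton _ _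

@[simp] theorem pw_single (u : V) : z.pw A {u} = z.mu A u := Finset.sum_singleton _ _

/-- every odd closed set gives a bonus -/
theorem Hol.bon [Finite V] [Finite J] (h : m.Ok) (o : z.Ok m) (𝒦 : Finset (Finset V))
    (H : z.Hol m A U W) (s : m.HSt U W) (sub : ∀ c ∈ A, c ∈ z.I) (al : ∀ c ∈ A, z.Al W c)
    (k : ∀ K ∈ 𝒦, K ⊆ U ∧ Map.Cld W K ∧ Odd (z.pw A K))
    (d : ∀ K ∈ 𝒦, ∀ K' ∈ 𝒦, K ≠ K' → Disjoint K K') :
    2 * z.cst m W + A.card + 𝒦.card ≤ z.wt U := by
  induction 𝒦 using Finset.induction_on generalizing A U W with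
  | empty => simpa using H A U W s subset_rfl subset_rfl (fun _ _ => id) al
  | insert K 𝒦 nK ih =>
    obtain ⟨kU, kc, ko⟩ := k K (by simp)
    have kc' := kc.sdiff s
    have e1 := H (A ∩ K) K _ (s.res h kU kc) Finset.inter_subset_left kU (fun _ _ => Map.Res.w)
      fun c q => by
        obtain ⟨q1, q2⟩ := Finset.mem_inter.1 q
        exact (al c q1).res o (sub c q1) kc q2
    have dj : ∀ K' ∈ 𝒦, Disjoint K K' := fun K' q =>
      d K (by simp) K' (by simp [q]) fun e => nK (e ▸ q)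
    have e2 := ih (A := A \ K) (U := U \ K) (W := Map.Res W (U \ K))
      (H.mono Finset.sdiff_subset Finset.sdiff_subset fun _ _ => Map.Res.w)
      (s.res h Finset.sdiff_subset kc') (fun c q => sub c (Finset.mem_sdiff.1 q).1)
      (fun c q => by
        obtain ⟨q1, q2⟩ := Finset.mem_sdiff.1 q
        exact (al c q1).res o (sub c q1) kc' (Finset.mem_sdiff.2 ⟨(al c q1).mem o s (sub c q1), q2⟩))
      (fun K' q => by
        obtain ⟨a1, a2, a3⟩ := k K' (by simp [q])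
        have n : ∀ u ∈ K', u ∉ K := fun u b b' => Finset.disjoint_left.1 (dj K' q) b' b
        refine ⟨fun u b => Finset.mem_sdiff.2 ⟨a1 b, n u b⟩, fun u v w b => a2 u v w.1 b, ?_⟩
        rwa [pw_congr (A' := A) fun u b => by simp [n u b]])
      fun K₁ q1 K₂ q2 => d K₁ (by simp [q1]) K₂ (by simp [q2])
    have e3 : z.cst m W ≤ z.cst m (Map.Res W K) + z.cst m (Map.Res W (U \ K)) :=
      cst_union fun u v w => by
        by_cases a : u ∈ K
        · exact .inl ⟨w, a, kc u v w a⟩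
        · have b := Finset.mem_sdiff.2 ⟨s.mem _ _ w, a⟩
          exact .inr ⟨w, b, kc' u v w b⟩
    have e4 := wt_sdiff (z := z) kU
    have e5 := Finset.card_sdiff_add_card_inter A K
    rw [pw_eq] at ko
    obtain ⟨t, ko⟩ := ko
    rw [Finset.card_insert_of_notMem nK]
    omega

namespace Min

variable [Finite V] [Finite J] (h : m.Ok) (o : z.Ok m) (n : z.Min m A U W)
include h o n

/-- the counting lemma: `D` is removed, `W'` are the new walls, the zones of `A'` survive, `r` lights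
are used, and the sets of `𝒦` are closed and odd -/
theorem cnt {r : ℕ} (𝒦 : Finset (Finset V)) (dU : D ⊆ U) (s' : m.HSt (U \ D) W')
    (w : ∀ u v, W' u v → W u v) (a : A' ⊆ A) (al : ∀ c ∈ A', z.Al W' c)
    (ne : A' ≠ A ∨ D.Nonempty ∨ ∃ u v, W u v ∧ ¬ W' u v)
    (cr : z.cst m (fun u v => W u v ∧ ¬ W' u v) ≤ r)
    (k : ∀ K ∈ 𝒦, K ⊆ U \ D ∧ Map.Cld W' K ∧ Odd (z.pw A' K))
    (d : ∀ K ∈ 𝒦, ∀ K' ∈ 𝒦, K ≠ K' → Disjoint K K') :
    z.wt D + A'.card + 𝒦.card < 2 * r + A.card := by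
  have e1 := (n.ih A' (U \ D) W' a Finset.sdiff_subset w (ne.imp_right fun q => q.imp_left
    fun ⟨x, xD⟩ e => (Finset.mem_sdiff.1 (e.ge (dU xD))).2 xD)).bon h o 𝒦 s'
    (fun c q => n.sub c (a q)) al k d
  have e2 : z.cst m W ≤ z.cst m W' + z.cst m (fun u v => W u v ∧ ¬ W' u v) :=
    cst_union fun u v q => by tauto
  have e3 := wt_sdiff (z := z) dU
  have := n.bad
  omega

/-- no odd set -/
theorem cnt0 {r : ℕ} (dU : D ⊆ U) (s' : m.HSt (U \ D) W')
    (w : ∀ u v, W' u v → W u v) (a : A' ⊆ A) (al : ∀ c ∈ A', z.Al W' c)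
    (ne : A' ≠ A ∨ D.Nonempty ∨ ∃ u v, W u v ∧ ¬ W' u v)
    (cr : z.cst m (fun u v => W u v ∧ ¬ W' u v) ≤ r) :
    z.wt D + A'.card < 2 * r + A.card := by
  simpa using n.cnt h o ∅ dU s' w a al ne cr (by simp) (by simp)

/-- one odd set -/
theorem cnt1 {r : ℕ} (dU : D ⊆ U) (s' : m.HSt (U \ D) W')
    (w : ∀ u v, W' u v → W u v) (a : A' ⊆ A) (al : ∀ c ∈ A', z.Al W' c)
    (ne : A' ≠ A ∨ D.Nonempty ∨ ∃ u v, W u v ∧ ¬ W' u v)
    (cr : z.cst m (fun u v => W u v ∧ ¬ W' u v) ≤ r)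
    (kU : K ⊆ U \ D) (kc : Map.Cld W' K) (ko : Odd (z.pw A' K)) :
    z.wt D + A'.card + 1 < 2 * r + A.card := by
  simpa using n.cnt h o {K} dU s' w a al ne cr (by simpa using ⟨kU, kc, ko⟩) (by simp)

/-- two odd sets -/
theorem cnt2 {r : ℕ} {K' : Finset V} (dU : D ⊆ U) (s' : m.HSt (U \ D) W')
    (w : ∀ u v, W' u v → W u v) (a : A' ⊆ A) (al : ∀ c ∈ A', z.Al W' c)
    (ne : A' ≠ A ∨ D.Nonempty ∨ ∃ u v, W u v ∧ ¬ W' u v)
    (cr : z.cst m (fun u v => W u v ∧ ¬ W' u v) ≤ r)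
    (kU : K ⊆ U \ D) (kc : Map.Cld W' K) (ko : Odd (z.pw A' K))
    (kU' : K' ⊆ U \ D) (kc' : Map.Cld W' K') (ko' : Odd (z.pw A' K')) (d : Disjoint K K') :
    z.wt D + A'.card + 2 < 2 * r + A.card := by
  have ne' : K ≠ K' := by
    rintro rfl
    rw [disjoint_self.1 d] at ko
    simp [pw] at ko
  have := n.cnt h o {K, K'} dU s' w a al ne cr
    (by simpa using ⟨⟨kU, kc, ko⟩, kU', kc', ko'⟩) (by simpa [ne', ne'.symm] using ⟨d, d.symm⟩)
  rwa [Finset.card_pair ne'] at this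

omit [DecidableEq V] in
/-- there is a zone -/
theorem nonempty (fc : ∀ v, ∃ j, m.has j v) : A.Nonempty := by
  refine Finset.nonempty_iff_ne_empty.2 fun e => ?_
  obtain ⟨M, F, sh, g, cd⟩ := h.lh_state fc n.st
  have := g.lts.cost_le
  have := cst_le (z := z) (m := m) (W := W)
  have := card_le_wt o U
  have := n.bad
  simp only [e, Finset.card_empty] at this
  omega

omit h o [Finite V] [Finite J] in
/-- the exact value -/
theorem exact (cA : c ∈ A) : 2 * z.cst m W + A.card = z.wt U + 1 := by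
  have := n.ih (A.erase c) U W (A.erase_subset c) subset_rfl (fun _ _ => id)
    (.inl fun e => by simpa using e.ge cA) _ _ _ n.st subset_rfl subset_rfl
    (fun _ _ => id) fun c q => n.al c (Finset.mem_of_mem_erase q)
  have := Finset.card_erase_add_one cA
  have := n.bad
  omega

omit h [Finite V] [Finite J] [DecidableEq V] in
theorem subU : A ⊆ U := fun c q => (n.al c q).mem o n.st (n.sub c q)

/-- the parity of a minimal counterexample is odd -/
theorem odd (fc : ∀ v, ∃ j, m.has j v) : Odd (z.pw A U) := by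
  obtain ⟨c, cA⟩ := n.nonempty h o fc
  have := n.exact cA
  rw [pw_eq, Finset.inter_eq_left.2 (n.subU o), Nat.odd_iff]
  omega

omit [Finite J] in
/-- a minimal counterexample is connected -/
theorem conn (kU : K ⊆ U) (kc : Map.Cld W K) (ne : K.Nonempty) : K = U := by
  by_contra q
  have kc' := kc.sdiff n.st
  have e1 := n.ih (A ∩ K) K W Finset.inter_subset_left kU (fun _ _ => id) (.inr (.inl q)) _ _ _
    (n.st.res h kU kc) subset_rfl subset_rfl (fun _ _ => Map.Res.w) fun c q => by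
      obtain ⟨q1, q2⟩ := Finset.mem_inter.1 q
      exact (n.al c q1).res o (n.sub c q1) kc q2
  obtain ⟨x, xK⟩ := ne
  have e2 := n.ih (A \ K) (U \ K) W Finset.sdiff_subset Finset.sdiff_subset (fun _ _ => id)
    (.inr (.inl fun e => (Finset.mem_sdiff.1 (e.ge (kU xK))).2 xK)) _ _ _
    (n.st.res h Finset.sdiff_subset kc') subset_rfl subset_rfl (fun _ _ => Map.Res.w) fun c q => by
      obtain ⟨q1, q2⟩ := Finset.mem_sdiff.1 q
      exact (n.al c q1).res o (n.sub c q1) kc' (Finset.mem_sdiff.2 ⟨n.subU o q1, q2⟩)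
  have e3 : z.cst m W ≤ z.cst m (Map.Res W K) + z.cst m (Map.Res W (U \ K)) :=
    cst_union fun u v w => by
      by_cases a : u ∈ K
      · exact .inl ⟨w, a, kc u v w a⟩
      · have b := Finset.mem_sdiff.2 ⟨n.st.mem _ _ w, a⟩
        exact .inr ⟨w, b, kc' u v w b⟩
  have e4 := wt_sdiff (z := z) kU
  have e5 := Finset.card_sdiff_add_card_inter A K
  have := n.bad
  omega

end Min

end ZS

end Pool.Agent.P.MP_5f84aa_co.G
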