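import Pool.Agent.P.MP_5f84aa_co.G.PA

/-! The parity frame, part C: single moves, cuts, the outer walls. -/

namespace Pool.Agent.P.MP_5f84aa_co.G

namespace Map

variable {V J Sg : Type} {m : Map V J Sg} {W ρ : V → V → Prop} {U K D : Finset V}
  {a b u v w x y z : V} {j j' k k' : J}

/-- the walls that disappear -/
def Gone (W : V → V → Prop) (D : Finset V) (ρ : V → V → Prop) (u v : V) : Prop :=
  W u v ∧ ¬ Del W D ρ u v

theorem gone_iff : Gone W D ρ u v ↔ W u v ∧ (u ∈ D ∨ v ∈ D ∨ ρ u v) := by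
  unfold Gone Del; tauto

/-- no piece -/
def No (_ _ : V) : Prop := False

/-- a wall with an open face -/
def Out (m : Map V J Sg) (W : V → V → Prop) (u v : V) : Prop :=
  W u v ∧ ∃ j, m.On j u v ∧ ¬ m.Sol W j

theorem Out.att (o : m.Out W u v) : m.Att W u v :=
  let ⟨_, j, a, b⟩ := o; ⟨u, v, j, .refl _ _ _, a, b⟩

theorem Out.bdy (o : m.Out W u v) : m.Bdy W u :=
  let ⟨_, j, a, b⟩ := o; ⟨j, a.1, b⟩

theorem run_swap : m.Run W a b u v → m.Run W b a u v := fun r => (Run.refl W b a).swap.trans r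

theorem Att.swap (t : m.Att W a b) : m.Att W b a :=
  let ⟨u, v, j, r, o⟩ := t; ⟨u, v, j, run_swap r, o⟩

/-- a face with two pieces on one line -/
theorem Ok.fc_of_line (h : m.Ok) (ji : j ≠ m.inf) (t : m.Tri j u x v) (d : x ≠ u) (uv : u ≠ v)
    (xv : x ≠ v) (l : m.ln x v = m.ln u v) : m.Fc j u x v := by
  rcases h.tri_cases t d.symm uv xv with f | f | f
  · exact f
  · obtain ⟨l1, -, l2, l3⟩ := h.lines f ji
    exact absurd (l1.symm.trans (l.trans ((h.ln_symm _ _).trans l2))) l3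
  · obtain ⟨l1, l2, -, l3⟩ := h.lines f ji
    exact absurd (l1.symm.trans ((h.ln_symm _ _).trans (l.symm.trans ((h.ln_symm _ _).trans l2)))) l3

/-- the number of split pieces at a cell is even -/
theorem Ok.even_spl (h : m.Ok) [Finite V] [Finite J] (F : Set J) (v : V) :
    Even {w | m.Spl F v w}.ncard := by
  classical
  have := Fintype.ofFinite V
  have := Fintype.ofFinite J
  set P : J → V → Prop := fun i x => i ∈ F ∧ m.On i v x ∧ x ≠ v with hP
  have key : ∑ i, (Finset.univ.filter fun x => P i x).card =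
      ∑ x, (Finset.univ.filter fun i => P i x).card := by
    simp only [Finset.card_filter]
    exact Finset.sum_comm
  have e1 : Even (∑ i, (Finset.univ.filter fun x => P i x).card) := by
    refine Finset.even_sum _ fun i _ => ?_
    by_cases a : i ∈ F ∧ m.has i v
    · obtain ⟨x, y, xy, xv, yv, t⟩ := h.two_more a.2
      rw [show (Finset.univ.filter fun x => P i x) = {x, y} by
        ext u
        have := h.tri_has (w := u) t xv.symm yv.symm xy
        simp only [hP, On, a, Finset.mem_filter, Finset.mem_univ, true_and, Finset.mem_insert,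
          Finset.mem_singleton, this]
        grind, Finset.card_pair xy]
      exact even_two
    · rw [Finset.filter_eq_empty_iff.2 fun x _ hx => a ⟨hx.1, hx.2.1.1⟩]
      simp
  have e2 : ∀ x, Odd (Finset.univ.filter fun i => P i x).card ↔ m.Spl F v x := by
    intro x
    by_cases a : ∃ i, P i x
    · obtain ⟨i, iF, io, xv⟩ := a
      obtain ⟨i', ii, io', o⟩ := h.other io xv.symm
      rw [h.spl_iff xv.symm io io' ii.symm]
      by_cases c : i' ∈ F
      · rw [show (Finset.univ.filter fun i => P i x) = {i, i'} by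
          ext u
          simp only [hP, Finset.mem_filter, Finset.mem_univ, true_and, Finset.mem_insert,
            Finset.mem_singleton]
          exact ⟨fun q => o u q.2.1, by rintro (rfl | rfl) <;> simp [*]⟩, Finset.card_pair ii.symm]
        simp [iF, c]
      · rw [show (Finset.univ.filter fun i => P i x) = {i} by
          ext u
          simp only [hP, Finset.mem_filter, Finset.mem_univ, true_and, Finset.mem_singleton]
          exact ⟨fun q => (o u q.2.1).resolve_right fun e => c (e ▸ q.1), by rintro rfl; simp [*]⟩]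
        simp [iF, c]
    · rw [Finset.filter_eq_empty_iff.2 fun i _ hx => a ⟨i, hx⟩]
      simp only [Finset.card_empty, Nat.not_odd_zero, false_iff]
      rintro ⟨d, i, -, o, -, iF, -⟩
      exact a ⟨i, iF, o, d.symm⟩
  rw [key, Finset.even_sum_iff_even_card_odd] at e1
  convert e1
  rw [← Set.ncard_coe_finset]
  congr 1
  ext x
  simp [e2]

/-- an even set of pieces is the boundary of a set of faces -/
theorem Ok.side_of_even (h : m.Ok) {E : V → V → Prop} (sy : ∀ u v, E u v → E v u)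
    (ad : ∀ u v, E u v → m.Adj u v) (ev : ∀ u, Even {v | E u v}.ncard) :
    ∃ F, m.Side E F ∧ m.inf ∉ F := by
  obtain ⟨F, hF⟩ := h.jordan E sy ad ev
  have s : m.Side E F := by
    intro u v
    by_cases a : m.Adj u v
    · obtain ⟨e, j, o⟩ := id a
      obtain ⟨j', d, o', t⟩ := h.other o e
      rw [h.spl_iff e o o' d.symm, hF u v a]
      have : ∀ i, m.has i u ∧ m.has i v ↔ i = j ∨ i = j' :=
        fun i => ⟨t i, by rintro (rfl | rfl) <;> assumption⟩
      simp only [this]
      by_cases c : j ∈ F <;> by_cases c' : j' ∈ F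
      · rw [show {i | i ∈ F ∧ (i = j ∨ i = j')} = {j, j'} by ext; grind, Set.ncard_pair d.symm]
        simp [c, c']
      · rw [show {i | i ∈ F ∧ (i = j ∨ i = j')} = {j} by ext; grind]
        simp [c, c']
      · rw [show {i | i ∈ F ∧ (i = j ∨ i = j')} = {j'} by ext; grind]
        simp [c, c']
      · rw [show {i | i ∈ F ∧ (i = j ∨ i = j')} = ∅ by ext; grind]
        simp [c, c']
    · exact ⟨fun ⟨e, j, _, o, _⟩ => absurd ⟨e, j, o⟩ a, fun e => absurd (ad u v e) a⟩
  by_cases i : m.inf ∈ F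
  exacts [⟨Fᶜ, s.compl, fun q => q i⟩, ⟨F, s, i⟩]

namespace HSt

variable (h : m.Ok) (s : m.HSt U W)
include h s

omit h in
theorem out_symm (o : m.Out W u v) : m.Out W v u :=
  let ⟨w, j, a, b⟩ := o; ⟨s.sym _ _ w, j, a.symm, b⟩

/-- an attached run contains an outer wall -/
theorem att_out (w : W a b) (t : m.Att W a b) : ∃ u v, m.Run W a b u v ∧ m.Out W u v :=
  let ⟨u, v, j, r, o⟩ := t; ⟨u, v, r, (s.run_w h r w).1, j, o⟩

theorem run_eq (w : W a b) (r : m.Run W a b u v) : m.Run W u v = m.Run W a b :=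
  funext fun _ => funext fun _ => propext ⟨r.trans, (s.run_symm h r w).trans⟩

/-- if there is a wall, there is an outer wall -/
theorem exists_out (w : W a b) : ∃ u v, m.Out W u v := by
  by_contra c
  have so : ∀ u v j, W u v → m.On j u v → m.Sol W j := fun u v j w o =>
    by_contra fun q => c ⟨u, v, w, j, o, q⟩
  obtain ⟨-, j, o⟩ := s.adj _ _ w
  refine h.conn_faces (F := {j | ¬ m.Sol W j}) (j := m.inf) (j' := j) ?_ ?_ (so a b j w o)
  · rintro u v ⟨d, i, i', o, o', c1, c2⟩
    exact c1 (so u v i (not_not.1 c2 u v d o') o)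
  · exact fun q => s.bd _ (s.mem _ _ (q _ _ (h.neLR _) (fc_self _).on)) (.inl rfl)

/-- a boundary cell with a wall has an outer wall -/
theorem bdy_out (bd : m.Bdy W x) (w : W x y) : ∃ v, m.Out W x v := by
  by_contra c
  obtain ⟨i, a, op⟩ := bd
  obtain ⟨d, j, o⟩ := s.adj _ _ w
  have so : m.Sol W j := by_contra fun q => c ⟨y, w, j, o, q⟩
  refine op (h.lk0 (F := {j | m.Sol W j}) (v := x) ?_ o.1 a so)
  rintro v ⟨d, j1, j2, o1, o2, e1, e2⟩
  exact c ⟨v, e1 x v d o1, j2, o2, e2⟩

/-- the cell `x` carries the whole run, or it has a corner at a landing on the run -/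
theorem run_at (w : W x y) : (∀ u v, m.Run W x y u v → u = x ∨ v = x) ∨
    ∃ k x' y', m.Fc k x x' y' ∧ m.Run W x y x y' ∧ m.Run W x y x' y' := by
  by_contra c
  obtain ⟨c1, c2⟩ := not_or.1 c
  refine c1 fun u v r => r.ind (P := fun u v => u = x ∨ v = x) (.inl rfl) (fun _ _ _ => Or.symm) ?_
  rintro u u' v j r (rfl | rfl) d q l t
  · have w' := (s.run_w h r w).1
    exact absurd ⟨j, u', v, h.fc_of_line ((s.bd _ (s.mem _ _ q)).ne_inf t.2.1) t d (s.adj _ _ w').1
      (s.adj _ _ q).1 l, r, r.step d q l t⟩ c2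
  · exact .inr rfl

/-- one light sees all the walls of `x` and the run of a wall of `x` -/
theorem cost_sgl (w : W x y) : m.cost (Gone W {x} (m.Run W x y)) ≤ 1 := by
  rcases s.run_at h w with q | ⟨k, x', y', f, r, -⟩
  · refine cost_cell x fun u v g => ?_
    rcases (gone_iff.1 g).2 with a | a | a
    exacts [.inl (by simpa using a), .inr (by simpa using a), q u v a]
  · have ki := (s.bd _ (s.mem _ _ w)).ne_inf f.has1
    refine h.cost_jn f.symm ki fun u v g => ?_
    rcases (gone_iff.1 g).2 with a | a | a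
    exacts [.inl (.inl (by simpa using a)), .inl (.inr (by simpa using a)),
      .inr (.inl (.inr ((h.lines f ki).2.1.symm.trans
        ((s.run_w h r w).2.trans (s.run_w h a w).2.symm))))]

/-- an attached run has a solid end or it cuts the walls -/
theorem run_cases [Finite V] [Finite J] (a b : V) :
    (∃ j x y e, m.Fc j x y e ∧ m.Sol W j ∧ m.Run W a b x y) ∨
    ∃ Z : Set V, ∀ u v, W u v → (m.Run W a b u v ↔ ¬ (u ∈ Z ↔ v ∈ Z)) := by
  by_cases c : ∃ j x y e, m.Fc j x y e ∧ m.Sol W j ∧ m.Run W a b x y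
  · exact .inl c
  refine .inr (h.cut (o := m.inf) s.sym s.adj (fun _ _ => Run.swap) fun G iG sp j hj => ?_)
  have so : m.Sol W j := by_contra fun c => hj (s.con G iG sp j c)
  have : ¬ m.Run W a b (m.L j) (m.R j) := fun r => c ⟨j, _, _, _, fc_self j, so, r⟩
  have := s.run_bar h (a := a) (b := b) (fc_self j) so
  unfold Ev
  tauto

/-- the solid end of an attached run is safe -/
theorem end_safe (w : W a b) (t : m.Att W a b) (f : m.Fc j x y z) (so : m.Sol W j)
    (r : m.Run W a b x y) :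
    (∀ k', m.far j k' → ¬ W x (m.X k')) ∨ ∀ k', m.far j k' → ¬ W y (m.X k') := by
  by_contra c
  push Not at c
  obtain ⟨⟨j', q, w2⟩, j'', q', w3⟩ := c
  obtain rfl := h.far_unique q q'
  obtain ⟨w1, l1⟩ := s.run_w h r w
  have so' := s.sol_of (h.far_ge q f.ge).fc w1 w2 w3
  obtain ⟨u, v, i, r', o, op⟩ := t
  obtain ⟨w4, l4⟩ := s.run_w h r' w
  obtain ⟨c1, c2⟩ := h.rung j j'' q u v (s.adj _ _ w4)
    (l4.trans (l1.symm.trans (h.lines f q.2.1).1))
  rcases h.two_faces (s.adj _ _ w4).1 ⟨c1.has, c2.has⟩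
    ⟨((q.2.2.2 u).1 c1).has, ((q.2.2.2 v).1 c2).has⟩ o q.1 with rfl | rfl
  exacts [op so, op so']

/-- the outer walls of a connected state are connected -/
theorem out_conn [Finite V] [Finite J] (cn : ∀ K ⊆ U, Cld W K → K.Nonempty → K = U) (S : Set V)
    (cl : ∀ u v, m.Out W u v → u ∈ S → v ∈ S) (xU : x ∈ U) (bx : m.Bdy W x) (xS : x ∈ S)
    (yU : y ∈ U) (by' : m.Bdy W y) : y ∈ S := by
  classical
  have out : ∀ u v, m.Spl {j | m.Sol W j} u v → m.Out W u v :=
    fun u v ⟨d, j, j', o, o', a, b⟩ => ⟨a u v d o, j', o', b⟩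
  obtain ⟨F, hF, iF⟩ := h.side_of_even (E := fun u v => m.Spl {j | m.Sol W j} u v ∧ u ∈ S)
    (fun u v q => ⟨q.1.symm, cl u v (out u v q.1) q.2⟩) (fun u v q => s.adj _ _ (out u v q.1).1)
    fun u => by
      by_cases c : u ∈ S
      · simpa [c] using h.even_spl {j | m.Sol W j} u
      · simp [c]
  have fs : ∀ j ∈ F, m.Sol W j := fun j a => by_contra fun q =>
    s.con Fᶜ iF (fun u v t => (out u v ((hF u v).1 (spl_compl.1 t)).1).1) j q a
  have k1 : ∀ u ∈ S, m.Bdy W u → ∀ j, m.has j u → m.Sol W j → j ∈ F := by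
    rintro u uS ⟨i, a, op⟩ j b so
    refine (h.lk0 (F := {j | m.Sol W j → j ∈ F}) (v := u) ?_ a b (fun q => absurd q op)) so
    rintro v ⟨d, j1, j2, o1, o2, e1, e2⟩
    obtain ⟨so2, n2⟩ := Classical.not_imp.1 e2
    by_cases so1 : m.Sol W j1
    · exact ((hF u v).1 ⟨d, j1, j2, o1, o2, e1 so1, n2⟩).1.elim fun _ ⟨i1, i2, p1, p2, q1, q2⟩ => by
        have ne : j1 ≠ j2 := fun e => n2 (e ▸ e1 so1)
        rcases h.two_faces d o1 o2 p2 ne with rfl | rfl
        exacts [q2 so1, q2 so2]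
    · have sp := (hF u v).2 ⟨⟨d, j2, j1, o2, o1, so2, so1⟩, uS⟩
      have ne : j1 ≠ j2 := fun e => so1 (e ▸ so2)
      rw [h.spl_iff d o1 o2 ne] at sp
      exact sp ⟨fun q => absurd (fs _ q) so1, fun q => absurd q n2⟩
  have k2 : ∀ u, (¬ m.Bdy W u ∨ u ∉ S) → ∀ j j', m.has j u → m.has j' u → j ∈ F → j' ∈ F :=
    fun u q j j' a b c => h.lk0 (fun v t => q.elim
      (fun q => q (out u v ((hF u v).1 t).1).bdy) fun q => q ((hF u v).1 t).2) a b c
  have e := cn (U.filter fun u => (m.Bdy W u ∧ u ∈ S) ∨ (¬ m.Bdy W u ∧ ∃ j ∈ F, m.has j u))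
    (Finset.filter_subset _ _) ?_ ⟨x, Finset.mem_filter.2 ⟨xU, .inl ⟨bx, xS⟩⟩⟩
  · rcases (Finset.mem_filter.1 (e.ge yU)).2 with q | q
    exacts [q.2, absurd by' q.1]
  intro u v w a
  refine Finset.mem_filter.2 ⟨s.mem2 w, ?_⟩
  replace a := (Finset.mem_filter.1 a).2
  by_cases ou : m.Out W u v
  · exact .inl ⟨(s.out_symm ou).bdy, cl u v ou (a.resolve_right fun q => q.1 ou.bdy).2⟩
  obtain ⟨d, j, o⟩ := s.adj _ _ w
  have so : m.Sol W j := by_contra fun q => ou ⟨w, j, o, q⟩
  have jF : j ∈ F := by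
    rcases a with a | ⟨a, i, iF, b⟩
    exacts [k1 u a.2 a.1 j o.1 so, k2 u (.inl a) i j b o.1 iF]
  by_cases bv : m.Bdy W v
  · refine .inl ⟨bv, by_contra fun q => ?_⟩
    obtain ⟨i, b, op⟩ := bv
    exact op (fs i (k2 v (.inr q) j i o.2 b jF))
  · exact .inr ⟨bv, j, jF, o.2⟩

variable [DecidableEq V]

/-- removal of cells that are connected with the open faces -/
theorem del0 (ch : ∀ G : Set J, (∀ j, ¬ m.Sol W j → j ∈ G) →
      (∀ d ∈ D, ∀ j j', m.has j d → m.has j' d → j ∈ G → j' ∈ G) → ∀ d ∈ D, ∃ j ∈ G, m.has j d) :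
    m.HSt (U \ D) (Del W D No) :=
  s.del h (fun _ _ => id) (fun _ _ => False.elim) (fun _ _ _ => False.elim)
    fun G a b _ => ⟨ch G a b, fun _ _ _ => False.elim⟩

/-- removal of boundary cells -/
theorem del_bdy (bd : ∀ d ∈ D, m.Bdy W d) : m.HSt (U \ D) (Del W D No) :=
  s.del0 h fun _ a _ d q => let ⟨j, b, c⟩ := bd d q; ⟨j, a j c, b⟩

/-- removal of an attached run and of cells that are connected with it -/
theorem del_run (w : W a b) (t : m.Att W a b)
    (rr : ∀ j j', m.far j j' → m.cor j a → m.cor j b → a ∈ D ∨ b ∈ D)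
    (ch : ∀ G : Set J, (∀ j, ¬ m.Sol W j → j ∈ G) →
      (∀ d ∈ D, ∀ j j', m.has j d → m.has j' d → j ∈ G → j' ∈ G) →
      (∀ u v j, m.Run W a b u v → m.On j u v → j ∈ G) → ∀ d ∈ D, ∃ j ∈ G, m.has j d) :
    m.HSt (U \ D) (Del W D (m.Run W a b)) := by
  refine s.del h (fun _ _ => Run.swap) (fun u v r => (s.adj _ _ (s.run_w h r w).1).1)
    (fun j j' q r => ?_) fun G op c cr => ?_
  · obtain ⟨e1, e2⟩ := s.run_rung h w q r
    rcases rr j j' q e1 e2 with c | c
    · rcases e1 with rfl | rfl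
      exacts [.inl c, .inr c]
    · rcases e2 with rfl | rfl
      exacts [.inl c, .inr c]
  · obtain ⟨u0, v0, i, r0, o0, n0⟩ := t
    have all := fun u v => s.run_faces' h (u := u) (v := v) w cr r0 o0 (op i n0)
    exact ⟨ch G op c fun u v j r q => all u v r j q, fun u v j r q => all u v r j q⟩

/-- the single move on an attached run -/
theorem del_sgl (w : W x y) (t : m.Att W x y) : m.HSt (U \ {x}) (Del W {x} (m.Run W x y)) := by
  refine s.del_run h w t (fun _ _ _ _ _ => .inl (by simp)) fun G _ _ c d q => ?_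
  obtain rfl : d = x := by simpa using q
  obtain ⟨-, j, o⟩ := s.adj _ _ w
  exact ⟨j, c _ _ j (.refl _ _ _) o, o.1⟩

/-- the pair move at a junction of an attached run -/
theorem del_pair (f : m.Fc k x y z) (w : W a b) (o : m.On k a b) (t : m.Att W a b) :
    m.HSt (U \ {x, y}) (Del W {x, y} (m.Run W a b)) := by
  have ab := (s.adj _ _ w).1
  refine s.del_run h w t (fun _ _ _ _ _ => ?_) fun G _ _ c d q => ⟨k, c _ _ k (.refl _ _ _) o, ?_⟩
  · have := f.has_iff.1 o.1
    have := f.has_iff.1 o.2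
    simp only [Finset.mem_insert, Finset.mem_singleton]
    grind
  · rcases (by simpa using q : d = x ∨ d = y) with rfl | rfl
    exacts [f.has1, f.has2]

/-- the pair move at a boundary cell -/
theorem del_pair0 (f : m.Fc k x y z) (bd : m.Bdy W x ∨ m.Bdy W y) :
    m.HSt (U \ {x, y}) (Del W {x, y} No) := by
  refine s.del0 h fun G o c d hd => ⟨k, ?_, ?_⟩
  · rcases bd with ⟨j, a, b⟩ | ⟨j, a, b⟩
    exacts [c x (by simp) j k a f.has1 (o j b), c y (by simp) j k a f.has2 (o j b)]
  · rcases (by simpa using hd : d = x ∨ d = y) with rfl | rfl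
    exacts [f.has1, f.has2]

omit s in
/-- the cost of a safe pair move: the pieces of `ρ` lie on the two lines of the junction -/
theorem cost_pair (sy : ∀ u v, W u v → W v u) (f : m.Fc k x y z) (ki : k ≠ m.inf)
    (sf : ∀ k', m.far k k' → ¬ W x (m.X k')) (hρ : ∀ u v, W u v → ρ u v → m.hug k (m.ln u v)) :
    m.cost (Gone W {x, y} ρ) ≤ 1 := by
  refine h.cost_jn f ki fun u v g => ?_
  obtain ⟨w, g⟩ := gone_iff.1 g
  simp only [Finset.mem_insert, Finset.mem_singleton] at g
  rcases g with (rfl | rfl) | (rfl | rfl) | a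
  exacts [.inr (.inr (.inl ⟨rfl, fun k' q e => sf k' q (e ▸ w)⟩)), .inl (.inl rfl),
    .inr (.inr (.inr ⟨rfl, fun k' q e => sf k' q (e ▸ sy _ _ w)⟩)), .inl (.inr rfl),
    .inr (.inl (hρ u v w a))]

omit [DecidableEq V] in
/-- a junction hugs the runs of its pieces -/
theorem hug_run (w : W a b) (o : m.On k a b) (r : m.Run W a b u v) : m.hug k (m.ln u v) := by
  have ki := (s.bd a (s.mem _ _ w)).ne_inf o.1
  have ab := (s.adj _ _ w).1
  rw [(s.run_w h r w).2]
  rcases o.1 with e | e | e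
  exacts [h.hug_of_cor (.inl e) o.2 ab ki, h.hug_of_cor (.inr e) o.2 ab ki,
    h.ln_symm a b ▸ h.hug_of_cor (by
      rcases o.2 with e' | e' | e'
      exacts [.inl e', .inr e', absurd (e.trans e'.symm) ab]) o.1 ab.symm ki]

/-- an attached run that is no rung is opened -/
theorem del_open (w : W a b) (t : m.Att W a b) (rr : ∀ j j', m.far j j' → m.stem j ≠ m.ln a b) :
    m.HSt (U \ ∅) (Del W ∅ (m.Run W a b)) :=
  s.del_run h w t (fun j j' q c c' => absurd
    (h.lines (h.ge_of_cor c c' (s.adj _ _ w).1).fc q.2.1).1.symm (rr j j' q)) (by simp)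

end HSt

/-- the two sides of a cut are closed after the removal of the cut -/
theorem cld_cut [DecidableEq V] {Z : Set V} [DecidablePred (· ∈ Z)] (s' : m.HSt (U \ D) (Del W D ρ))
    (c : ∀ u v, W u v → ¬ ρ u v → (u ∈ Z ↔ v ∈ Z)) :
    Cld (Del W D ρ) ((U \ D).filter (· ∈ Z)) := fun u v w a =>
  Finset.mem_filter.2 ⟨s'.mem2 w, (c u v w.1 w.2.2.2).1 (Finset.mem_filter.1 a).2⟩

end Map

end Pool.Agent.P.MP_5f84aa_co.G
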