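import Pool.Agent.P.MP_5f84aa_co.G.PB
import Pool.Agent.P.MP_5f84aa_co.G.PC

/-! The parity frame, part D: a minimal counterexample is confined at one zone. -/

namespace Pool.Agent.P.MP_5f84aa_co.G

variable {V J Sg : Type}

namespace Map

variable (m : Map V J Sg)

/-- the cell `u` has a piece on the line `t` -/
def OnL (u : V) (t : Sg) : Prop := ∃ v, m.Adj u v ∧ m.ln u v = t

/-- the cells that are joined to a cell on an attached run by at most `d` walls -/
def Fd (W : V → V → Prop) : ℕ → V → Prop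
  | 0, u => ∃ v, W u v ∧ m.Att W u v
  | d + 1, u => Fd W d u ∨ ∃ x, Fd W d x ∧ W x u

/-- the footprint: the cells near the attached runs and the cells of the zone -/
def Ft (d : ℕ) (W Q : V → V → Prop) (u : V) : Prop := m.Fd W d u ∨ ∃ v, W u v ∧ Q u v

/-- a macro: cells `D` of the footprint are removed, pieces `ρ` on lines of the footprint are opened,
`r` lights are used -/
structure Mac [DecidableEq V] (d : ℕ) (U : Finset V) (W Q : V → V → Prop) (D : Finset V)
    (ρ : V → V → Prop) (r : ℕ) : Prop where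
  ft : ∀ x ∈ D, m.Ft d W Q x
  ln : ∀ p q, W p q → ρ p q → ∃ u, m.Ft d W Q u ∧ m.OnL u (m.ln p q)
  st : m.HSt (U \ D) (Del W D ρ)
  cs : m.cost (Gone W D ρ) ≤ r

/-- a family of disjoint closed sets that are odd for the weight `μ` -/
structure Fam (U : Finset V) (W : V → V → Prop) (μ : V → ℕ) (𝒦 : Finset (Finset V)) : Prop where
  odd : ∀ K ∈ 𝒦, K ⊆ U ∧ Cld W K ∧ Odd (∑ u ∈ K, μ u)
  dis : ∀ K ∈ 𝒦, ∀ K' ∈ 𝒦, K ≠ K' → Disjoint K K'

/-- a tight state that is confined at the zone with the pieces `Q`, the centre `c` and the condition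
of life `al` -/
structure Conf [DecidableEq V] (d : ℕ) (U : Finset V) (W Q : V → V → Prop)
    (al : (V → V → Prop) → Prop) (c : V) (μ : V → ℕ) : Prop where
  st : m.HSt U W
  alive : al W
  conn : ∀ K ⊆ U, Cld W K → K.Nonempty → K = U
  touch : ∀ a b, W a b → m.Att W a b → ∃ u v w, m.Run W a b u v ∧ Q u w ∧ W u w
  one : ∀ u, m.Ft d W Q u → μ u = 1
  even : Even (∑ u ∈ U, μ u)
  dead : ∀ D ρ r 𝒦, m.Mac d U W Q D ρ r → Fam (U \ D) (Del W D ρ) μ 𝒦 → D.card + 𝒦.card ≤ 2 * r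
  live : ∀ D ρ r 𝒦, m.Mac d U W Q D ρ r → al (Del W D ρ) →
    (D.Nonempty ∨ ∃ u v, W u v ∧ ρ u v) →
    Fam (U \ D) (Del W D ρ) (fun u => μ u + if u = c then 1 else 0) 𝒦 → D.card + 𝒦.card < 2 * r

variable {m}

theorem Adj.onL {u v : V} (a : m.Adj u v) : m.OnL u (m.ln u v) := ⟨v, a, rfl⟩

theorem HSt.run_onL {U : Finset V} {W : V → V → Prop} {a b u v : V} (h : m.Ok) (s : m.HSt U W)
    (w : W a b) (r : m.Run W a b u v) : m.OnL u (m.ln a b) :=
  ⟨v, s.adj _ _ (s.run_w h r w).1, (s.run_w h r w).2⟩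

theorem Fd.mono {W : V → V → Prop} {d e : ℕ} {u : V} (f : m.Fd W d u) (l : d ≤ e) : m.Fd W e u := by
  induction l with
  | refl => exact f
  | step _ ih => exact .inl ih

theorem Fd.step {W : V → V → Prop} {d : ℕ} {u v : V} (f : m.Fd W d u) (w : W u v) :
    m.Fd W (d + 1) v := .inr ⟨u, f, w⟩

theorem HSt.fd_mem {U : Finset V} {W : V → V → Prop} (s : m.HSt U W) {d : ℕ} {u : V}
    (f : m.Fd W d u) : u ∈ U := by
  induction d with
  | zero => exact let ⟨_, w, _⟩ := f; s.mem _ _ w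
  | succ d ih => exact f.elim ih fun ⟨_, _, w⟩ => s.mem2 w

/-- the way from an attached run to a cell -/
theorem HSt.fd_path [DecidableEq V] {U : Finset V} {W : V → V → Prop} (s : m.HSt U W) {d : ℕ} {u : V}
    (f : m.Fd W d u) : ∃ x y, ∃ D : Finset V, W x y ∧ m.Att W x y ∧ x ∈ D ∧ u ∈ D ∧ D.card ≤ d + 1 ∧
      (∀ v ∈ D, m.Fd W d v) ∧ ∀ G : Set J,
        (∀ v ∈ D, ∀ j j', m.has j v → m.has j' v → j ∈ G → j' ∈ G) →
        (∀ u v j, m.Run W x y u v → m.On j u v → j ∈ G) → ∀ v ∈ D, ∃ j ∈ G, m.has j v := by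
  induction d generalizing u with
  | zero =>
    obtain ⟨y, w, t⟩ := id f
    obtain ⟨-, j, o⟩ := s.adj _ _ w
    exact ⟨u, y, {u}, w, t, by simp, by simp, by simp, by simpa using f, fun G _ c => by
      simpa using ⟨j, c _ _ j (.refl _ _ _) o, o.1⟩⟩
  | succ d ih =>
    rcases id f with f' | ⟨x', f', w'⟩
    · obtain ⟨x, y, D, w, t, a1, a2, a3, a4, a5⟩ := ih f'
      exact ⟨x, y, D, w, t, a1, a2, by omega, fun v q => .inl (a4 v q), a5⟩
    · obtain ⟨x, y, D, w, t, a1, a2, a3, a4, a5⟩ := ih f'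
      refine ⟨x, y, insert u D, w, t, by simp [a1], by simp,
        (Finset.card_insert_le _ _).trans (by omega), fun v q => ?_, fun G c1 c2 v q => ?_⟩
      · rcases Finset.mem_insert.1 q with rfl | q
        exacts [f, .inl (a4 v q)]
      · have := a5 G (fun v q => c1 v (by simp [q])) c2
        rcases Finset.mem_insert.1 q with rfl | q
        · obtain ⟨j, jG, a⟩ := this x' a2
          obtain ⟨-, i, o⟩ := s.adj _ _ w'
          exact ⟨i, c1 x' (by simp [a2]) j i a o.1 jG, o.2⟩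
        · exact this v q

end Map

namespace ZS

open Map

/-- a path of at most `d` steps through light cells -/
def Nr (z : ZS V Sg) (m : Map V J Sg) (x : V) : ℕ → V → Prop
  | 0, u => u = x ∧ z.ω u = 1
  | d + 1, u => Nr z m x d u ∨ ∃ y, Nr z m x d y ∧ m.Adj y u ∧ z.ω u = 1

/-- hubs are heavy, and the zones are far from each other -/
structure Far (z : ZS V Sg) (m : Map V J Sg) (d : ℕ) : Prop where
  hub : ∀ v, z.ω v = 1 ∨ 2 * d + 3 ≤ z.ω v
  far : ∀ c ∈ z.I, ∀ c' ∈ z.I, ∀ p x u p' t t', z.In c p → z.In c' p' → z.Nr m x d u → t ∉ z.T →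
    t' ∉ z.T → m.OnL p t → m.OnL x t → m.OnL u t' → m.OnL p' t' → c = c'

variable {z : ZS V Sg} {m : Map V J Sg} {A U D : Finset V} {W ρ : V → V → Prop}
  {a b c c' u v x y : V} {t : Sg} {d e : ℕ}

theorem Nr.mono (f : z.Nr m x d u) (l : d ≤ e) : z.Nr m x e u := by
  induction l with
  | refl => exact f
  | step _ ih => exact .inl ih

theorem nr_refl (l : z.ω u = 1) (d : ℕ) : z.Nr m u d u :=
  Nr.mono (d := 0) ⟨rfl, l⟩ d.zero_le

theorem Nr.light (f : z.Nr m x d u) : z.ω u = 1 := by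
  induction d with
  | zero => exact f.2
  | succ d ih => exact f.elim ih fun ⟨_, _, _, l⟩ => l

theorem Far.far1 (fa : z.Far m d) (o : z.Ok m) (cI : c ∈ z.I) (cI' : c' ∈ z.I) (i : z.In c u)
    (i' : z.In c' v) (n : t ∉ z.T) (l : m.OnL u t) (l' : m.OnL v t) : c = c' :=
  fa.far c cI c' cI' u u u v t t i i' (nr_refl (o.lt c cI u i) d) n n l l l l'

namespace Min

variable [DecidableEq V] [Finite V] [Finite J] (h : m.Ok) (o : z.Ok m) (n : z.Min m A U W)
include h o n

/-- attached runs are not free -/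
theorem not_free (w : W a b) (t : m.Att W a b) : m.ln a b ∉ z.T := fun q => by
  have := n.cnt0 h o (D := ∅) (r := 0) (by simp)
    (n.st.del_open h w t fun j j' f e => o.rg j j' f (e ▸ q)) (fun _ _ => Del.w) subset_rfl
    (fun c cA => (n.al c cA).del o (by simp) fun u v p _ r =>
      o.nf c (n.sub c cA) u v p ((n.st.run_w h r w).2 ▸ q))
    (.inr (.inr ⟨a, b, w, fun d => d.2.2.2 (.refl _ _ _)⟩))
    (Nat.le_zero.2 (cost_zero fun u v g => by
      obtain ⟨g1, g2⟩ := g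
      rcases (gone_iff.1 g1).2 with r | r | r
      · simp at r
      · simp at r
      · exact g2 ((n.st.run_w h r w).2 ▸ q)))
  simp [wt] at this

/-- every attached run touches a zone -/
theorem touch (fc : ∀ v, ∃ j, m.has j v) (w : W a b) (t : m.Att W a b) :
    ∃ c ∈ A, ∃ u v x, m.Run W a b u v ∧ z.Q c u x ∧ W u x := by
  classical
  by_contra q
  push Not at q
  have al : ∀ D : Finset V, (∀ d ∈ D, ∃ v, m.Run W a b d v) →
      ∀ c ∈ A, z.Al (Del W D (m.Run W a b)) c := fun D hD c cA =>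
    (n.al c cA).del o (fun u v p w => ⟨fun d => let ⟨y, r⟩ := hD u d; q c cA u y v r p w,
      fun d => let ⟨y, r⟩ := hD v d; q c cA v y u r (o.sym _ _ _ p) (n.st.sym _ _ w)⟩)
      fun u v p w r => q c cA u v v r p w
  rcases n.st.run_cases h a b with ⟨j, x, y, e, f, so, r⟩ | ⟨Z, hZ⟩
  · obtain ⟨x, y, f, r, sf⟩ : ∃ x y, m.Fc j x y e ∧ m.Run W a b x y ∧
        ∀ k', m.far j k' → ¬ W x (m.X k') := by
      rcases n.st.end_safe h w t f so r with c | c
      exacts [⟨x, y, f, r, c⟩, ⟨y, x, f.symm, r.swap, c⟩]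
    have w' := (n.st.run_w h r w).1
    have e1 := n.st.run_eq h w r
    have s' := n.st.del_pair h f w' f.on (n.st.att_of h w t r)
    have c1 := HSt.cost_pair h (ρ := m.Run W x y) n.st.sym f
      ((n.st.bd _ (n.st.mem _ _ w')).ne_inf f.has1) sf fun u v _ r' => n.st.hug_run h w' f.on r'
    rw [e1] at s' c1
    have := n.cnt0 h o (D := {x, y}) (r := 1)
      (by simp [Finset.insert_subset_iff, n.st.mem _ _ w', n.st.mem2 w']) s' (fun _ _ => Del.w)
      subset_rfl (al _ (by simpa using ⟨⟨y, r⟩, x, r.swap⟩)) (.inr (.inl (by simp)))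
      (cst_le.trans c1)
    have := card_le_wt o {x, y}
    rw [Finset.card_pair (h.fc_ne f).1] at this
    omega
  · have key : ∀ (Z : Set V) (K : Finset V) a' b', (∀ u, u ∈ K ↔ u ∈ U ∧ u ∉ Z) →
        m.Run W a b a' b' → a' ∈ Z → (∀ u v, W u v → (m.Run W a b u v ↔ ¬ (u ∈ Z ↔ v ∈ Z))) →
        ¬ Odd (z.pw A K) := by
      intro Z K a' b' hK r aZ hZ od
      have w' := (n.st.run_w h r w).1
      have e1 := n.st.run_eq h w r
      have s' := n.st.del_sgl h w' (n.st.att_of h w t r)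
      have c1 := n.st.cost_sgl h w'
      rw [e1] at s' c1
      have := n.cnt1 h o (D := {a'}) (r := 1) (K := K)
        (by simpa using n.st.mem _ _ w') s' (fun _ _ => Del.w) subset_rfl
        (al _ (by simpa using ⟨b', r⟩)) (.inr (.inl (by simp))) (cst_le.trans c1)
        (fun u p => by
          obtain ⟨p1, p2⟩ := (hK u).1 p
          exact Finset.mem_sdiff.2 ⟨p1, fun e => p2 ((by simpa using e : u = a') ▸ aZ)⟩)
        (fun u v d p => (hK v).2 ⟨n.st.mem2 d.1, by
          have := hZ u v d.1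
          have := d.2.2.2
          have := ((hK u).1 p).2
          tauto⟩) od
      have := o.pos a'
      rw [wt_single] at *
      omega
    obtain ⟨a', b', r, aZ, bZ⟩ : ∃ a' b', m.Run W a b a' b' ∧ a' ∈ Z ∧ b' ∉ Z := by
      have := (hZ a b w).1 (.refl _ _ _)
      by_cases c : a ∈ Z
      exacts [⟨a, b, .refl _ _ _, c, by tauto⟩, ⟨b, a, (Run.refl W a b).swap, by tauto, c⟩]
    have e1 := key Z (U.filter (· ∉ Z)) a' b' (by simp) r aZ hZ
    have e2 := key Zᶜ (U.filter (· ∈ Z)) b' a' (by simp) r.swap bZ fun u v p => by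
      rw [hZ u v p, Set.mem_compl_iff, Set.mem_compl_iff]; tauto
    have e3 := n.odd h o fc
    have e4 : z.pw A (U.filter (· ∈ Z)) + z.pw A (U.filter (· ∉ Z)) = z.pw A U :=
      Finset.sum_filter_add_sum_filter_not U (· ∈ Z) _
    rw [Nat.odd_iff] at e1 e2 e3
    omega

variable (fa : z.Far m d)
include fa

/-- there is no hub on an attached run -/
theorem light (w : W x y) (t : m.Att W x y) : z.ω x = 1 := by
  classical
  refine (fa.hub x).resolve_right fun hx => ?_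
  have nf := n.not_free h o w t
  have := n.cnt0 h o (D := {x}) (r := 1) (A' := A.filter fun c => ∀ u v, z.Q c u v → ¬ m.Run W x y u v)
    (by simpa using n.st.mem _ _ w) (n.st.del_sgl h w t) (fun _ _ => Del.w) (Finset.filter_subset _ _)
    (fun c q => by
      obtain ⟨cA, q⟩ := Finset.mem_filter.1 q
      have nx : ∀ u, z.In c u → u ∉ ({x} : Finset V) := fun u i e => by
        have := o.lt c (n.sub c cA) u i
        obtain rfl : u = x := by simpa using e
        omega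
      exact (n.al c cA).del o (fun u v p _ => ⟨nx u ⟨v, p⟩, nx v ⟨u, o.sym _ _ _ p⟩⟩)
        fun u v p _ => q u v p) (.inr (.inl (by simp))) (cst_le.trans (n.st.cost_sgl h w))
  have e1 := Finset.card_filter_add_card_filter_not (s := A)
    fun c => ∀ u v, z.Q c u v → ¬ m.Run W x y u v
  have e2 : (A.filter fun c => ¬ ∀ u v, z.Q c u v → ¬ m.Run W x y u v).card ≤ 1 := by
    refine Finset.card_le_one.2 fun c q c' q' => ?_
    obtain ⟨cA, q⟩ := Finset.mem_filter.1 q
    obtain ⟨cA', q'⟩ := Finset.mem_filter.1 q'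
    push Not at q q'
    obtain ⟨u, v, p, r⟩ := q
    obtain ⟨u', v', p', r'⟩ := q'
    exact fa.far1 o (n.sub c cA) (n.sub c' cA') ⟨v, p⟩ ⟨v', p'⟩ nf (n.st.run_onL h w r)
      (n.st.run_onL h w r')
  rw [wt_single] at this
  omega

/-- all attached runs touch one zone -/
theorem one (fc : ∀ v, ∃ j, m.has j v) :
    ∃ c ∈ A, ∀ a b, W a b → m.Att W a b → ∃ u v x, m.Run W a b u v ∧ z.Q c u x ∧ W u x := by
  obtain ⟨c₁, cA₁⟩ := n.nonempty h o fc
  obtain ⟨v₁, -, p₁⟩ := o.ctr c₁ (n.sub _ cA₁) W (n.al _ cA₁)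
  obtain ⟨x, y, ou⟩ := n.st.exists_out h p₁
  obtain ⟨c, cA, i₀⟩ := n.touch h o fc ou.1 ou.att
  have key : ∀ u v v', m.Out W u v → m.Out W u v' →
      (∃ p q x, m.Run W u v p q ∧ z.Q c p x ∧ W p x) →
      ∃ p q x, m.Run W u v' p q ∧ z.Q c p x ∧ W p x := by
    rintro u v v' a a' ⟨p, q, x, r, i, -⟩
    obtain ⟨c', cA', p', q', x', r', i', w'⟩ := n.touch h o fc a'.1 a'.att
    obtain rfl := fa.far c (n.sub _ cA) c' (n.sub _ cA') p u u p' _ _ ⟨x, i⟩ ⟨x', i'⟩
      (nr_refl (n.light h o fa a.1 a.att) d) (n.not_free h o a.1 a.att) (n.not_free h o a'.1 a'.att)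
      (n.st.run_onL h a.1 r) (n.st.adj _ _ a.1).onL (n.st.adj _ _ a'.1).onL (n.st.run_onL h a'.1 r')
    exact ⟨p', q', x', r', i', w'⟩
  refine ⟨c, cA, fun a b w t => ?_⟩
  obtain ⟨u, v, r, ou'⟩ := n.st.att_out h w t
  obtain ⟨v', a', q⟩ := n.st.out_conn h (fun K a b c => n.conn h o a b c)
    {u | ∃ v, m.Out W u v ∧ ∃ p q x, m.Run W u v p q ∧ z.Q c p x ∧ W p x} (x := x) (y := u)
    (fun u v a ⟨v', a', q⟩ => ⟨u, n.st.out_symm a,
      let ⟨p, q, x, r, i⟩ := key u v' v a' a q; ⟨p, q, x, run_swap r, i⟩⟩)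
    (n.st.mem _ _ ou.1) ou.bdy ⟨y, ou, i₀⟩ (n.st.mem _ _ ou'.1) ou'.bdy
  obtain ⟨p, q, x, r', i⟩ := key u v' v a' ou' q
  exact ⟨p, q, x, r.trans r', i⟩

/-- the cells near the attached runs are light and near the zone -/
theorem deep (cA : c ∈ A)
    (tc : ∀ a b, W a b → m.Att W a b → ∃ u v x, m.Run W a b u v ∧ z.Q c u x ∧ W u x) (l : e ≤ d)
    (f : m.Fd W e u) : ∃ p x t, z.In c p ∧ t ∉ z.T ∧ m.OnL p t ∧ m.OnL x t ∧ z.Nr m x e u := by
  have s := n.st
  induction e generalizing u with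
  | zero =>
    obtain ⟨v, w, t⟩ := f
    obtain ⟨p, q, x, r, i, -⟩ := tc u v w t
    exact ⟨p, u, _, ⟨x, i⟩, n.not_free h o w t, s.run_onL h w r, (s.adj _ _ w).onL, rfl,
      n.light h o fa w t⟩
  | succ e ih =>
    have ih' := fun u f => ih (u := u) (by omega) f
    rcases id f with f' | ⟨x', f', w'⟩
    · obtain ⟨p, x, t, a1, a2, a3, a4, a5⟩ := ih' u f'
      exact ⟨p, x, t, a1, a2, a3, a4, .inl a5⟩
    obtain ⟨p, x, t, a1, a2, a3, a4, a5⟩ := ih' x' f'
    refine ⟨p, x, t, a1, a2, a3, a4, .inr ⟨x', a5, s.adj _ _ w', ?_⟩⟩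
    refine (fa.hub u).resolve_right fun hu => ?_
    obtain ⟨x, y, D, w, t, b1, b2, b3, b4, b5⟩ := s.fd_path f'
    have uD : u ∉ D := fun q => by
      obtain ⟨_, _, _, -, -, -, -, r⟩ := ih' u (b4 u q)
      have := r.light
      omega
    have s' := s.del_run h (D := insert u D) w t (fun _ _ _ _ _ => .inl (by simp [b1]))
      fun G _ c1 c2 v q => by
        have := b5 G (fun v q => c1 v (by simp [q])) c2
        rcases Finset.mem_insert.1 q with rfl | q
        · obtain ⟨j, jG, a⟩ := this x' b2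
          obtain ⟨-, i, o⟩ := s.adj _ _ w'
          exact ⟨i, c1 x' (by simp [b2]) j i a o.1 jG, o.2⟩
        · exact this v q
    have c1 : m.cost (Gone W (insert u D) (m.Run W x y)) ≤ e + 2 := by
      have c2 := s.cost_sgl h w
      have c3 := cost_cells (m := m) (W := fun p q => p ∈ (insert u D).erase x ∨ q ∈ (insert u D).erase x)
        ((insert u D).erase x) fun _ _ => id
      have c4 := Finset.card_erase_add_one (show x ∈ insert u D by simp [b1])
      have c5 := Finset.card_insert_le u D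
      refine (cost_union (W₁ := Gone W {x} (m.Run W x y))
        (W₂ := fun p q => p ∈ (insert u D).erase x ∨ q ∈ (insert u D).erase x) fun p q g => ?_).trans
        (by omega)
      rw [gone_iff] at g ⊢
      simp only [Finset.mem_erase, Finset.mem_singleton]
      tauto
    have nin : ∀ c' ∈ A.erase c, ∀ v, z.In c' v → v ∉ insert u D := fun c' q v ⟨v', i⟩ g => by
      obtain ⟨q1, q2⟩ := Finset.mem_erase.1 q
      rcases Finset.mem_insert.1 g with rfl | g
      · have := o.lt c' (n.sub _ q2) v ⟨v', i⟩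
        omega
      · obtain ⟨p, x, t, a1, a2, a3, a4, a5⟩ := ih' v (b4 v g)
        have ad := (o.adj c' (n.sub _ q2) _ _ i).onL
        exact q1 (fa.far c (n.sub _ cA) c' (n.sub _ q2) p x v v t _ a1 ⟨v', i⟩ (a5.mono (by omega)) a2
          (o.nf c' (n.sub _ q2) _ _ i) a3 a4 ad ad).symm
    have := n.cnt0 h o (r := e + 2) (A' := A.erase c)
      (Finset.insert_subset (s.mem2 w') fun v q => s.fd_mem (b4 v q)) s' (fun _ _ => Del.w)
      (A.erase_subset c) (fun c' q => (n.al c' (Finset.mem_erase.1 q).2).del o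
        (fun u v p _ => ⟨nin c' q u ⟨v, p⟩, nin c' q v ⟨u, o.sym _ _ _ p⟩⟩) fun u v p _ r => by
          obtain ⟨q1, q2⟩ := Finset.mem_erase.1 q
          obtain ⟨p', q', x', r', i, -⟩ := tc x y w t
          exact q1 (fa.far1 o (n.sub _ cA) (n.sub _ q2) ⟨x', i⟩ ⟨v, p⟩ (n.not_free h o w t)
            (s.run_onL h w r') (s.run_onL h w r)).symm)
      (.inr (.inl (by simp))) (cst_le.trans c1)
    have e0 := Finset.card_erase_add_one cA
    have e1 : z.wt (insert u D) = z.ω u + z.wt D := Finset.sum_insert uD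
    have e2 := card_le_wt o D
    have e3 := Finset.card_pos.2 ⟨x, b1⟩
    omega

/-- a minimal counterexample is confined -/
theorem conf (fc : ∀ v, ∃ j, m.has j v) :
    ∃ c ∈ z.I, m.Conf d U W (z.Q c) (z.al c) c (z.mu (A.erase c)) := by
  obtain ⟨c, cA, tc⟩ := n.one h o fa fc
  have cI := n.sub c cA
  have s := n.st
  have ft : ∀ u, m.Ft d W (z.Q c) u → u ∈ U ∧
      ∃ p x t, z.In c p ∧ t ∉ z.T ∧ m.OnL p t ∧ m.OnL x t ∧ z.Nr m x d u := by
    rintro u (f | ⟨v, w, p⟩)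
    · exact ⟨s.fd_mem f, n.deep h o fa cA tc le_rfl f⟩
    · exact ⟨s.mem _ _ w, u, u, _, ⟨v, p⟩, o.nf c cI u v p, (s.adj _ _ w).onL,
        (s.adj _ _ w).onL, nr_refl (o.lt c cI u ⟨v, p⟩) d⟩
  have lt : ∀ u, m.Ft d W (z.Q c) u → z.ω u = 1 := fun u f =>
    let ⟨_, _, _, _, _, _, _, _, r⟩ := ft u f; r.light
  have far : ∀ c' ∈ A, ∀ p' q' u, z.Q c' p' q' → m.Ft d W (z.Q c) u → m.OnL u (m.ln p' q') →
      c = c' := fun c' cA' p' q' u p f l => by
    obtain ⟨-, p₀, x, t, i, nt, a1, a2, l1⟩ := ft u f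
    exact fa.far c cI c' (n.sub _ cA') p₀ x u p' t _ i ⟨q', p⟩ l1 nt (o.nf c' (n.sub _ cA') _ _ p)
      a1 a2 l (o.adj c' (n.sub _ cA') _ _ p).onL
  have nin : ∀ c' ∈ A.erase c, ∀ u, z.In c' u → ¬ m.Ft d W (z.Q c) u := fun c' q u ⟨v, p⟩ f =>
    (Finset.mem_erase.1 q).1 (far c' (Finset.mem_erase.1 q).2 u v u p f
      (o.adj c' (n.sub _ (Finset.mem_erase.1 q).2) _ _ p).onL).symm
  have surv : ∀ D ρ r, m.Mac d U W (z.Q c) D ρ r → ∀ c' ∈ A.erase c, z.Al (Del W D ρ) c' :=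
    fun D ρ r M c' q => (n.al c' (Finset.mem_erase.1 q).2).del o
      (fun u v p _ => ⟨fun d => nin c' q u ⟨v, p⟩ (M.ft u d),
        fun d => nin c' q v ⟨u, o.sym _ _ _ p⟩ (M.ft v d)⟩) fun u v p w r => by
        obtain ⟨x, f, l⟩ := M.ln u v w r
        exact (Finset.mem_erase.1 q).1 (far c' (Finset.mem_erase.1 q).2 u v x p f l).symm
  have e0 := Finset.card_erase_add_one cA
  refine ⟨c, cI, s, n.al c cA, fun K a b c => n.conn h o a b c, tc,
    fun u f => mu_one (lt u f) fun q => ?_, ?_, fun D ρ r 𝒦 M F => ?_,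
    fun D ρ r 𝒦 M av ne F => ?_⟩
  · have q' := (Finset.mem_erase.1 q).2
    obtain ⟨v, p, -⟩ := o.ctr u (n.sub u q') W (n.al u q')
    exact nin u q u ⟨v, p⟩ f
  · have := n.exact cA
    change Even (z.pw _ U)
    rw [pw_eq, Finset.inter_eq_left.2 ((A.erase_subset c).trans (n.subU o)), Nat.even_iff]
    omega
  · have := n.cnt h o 𝒦 (fun d q => (ft d (M.ft d q)).1) M.st (fun _ _ => Del.w) (A.erase_subset c)
      (surv D ρ r M) (.inl fun e => by simpa using e.ge cA) (cst_le.trans M.cs) F.odd F.dis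
    have := card_le_wt o D
    omega
  · have := n.cnt h o 𝒦 (fun d q => (ft d (M.ft d q)).1) M.st (fun _ _ => Del.w) subset_rfl
      (fun c' q => by
        by_cases e : c' = c
        · exact e ▸ av
        · exact surv D ρ r M c' (Finset.mem_erase.2 ⟨e, q⟩))
      (.inr (ne.imp_right fun ⟨u, v, w, r⟩ => ⟨u, v, w, fun d => d.2.2.2 r⟩)) (cst_le.trans M.cs)
      (fun K q => by
        obtain ⟨a1, a2, a3⟩ := F.odd K q
        refine ⟨a1, a2, ?_⟩
        rwa [show z.pw A K = _ from Finset.sum_congr rfl fun u _ => show z.mu A u =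
          z.mu (A.erase c) u + if u = c then 1 else 0 by by_cases e : u = c <;> simp [mu, e, cA]]) F.dis
    have := card_le_wt o D
    omega

end Min

/-- The parity frame: if no state is confined at a zone, every living zone saves one half. -/
theorem claim_of_loc [DecidableEq V] [Finite V] [Finite J] (h : m.Ok) (fc : ∀ v, ∃ j, m.has j v)
    (o : z.Ok m) (fa : z.Far m d)
    (loc : ∀ c ∈ z.I, ∀ U W μ, ¬ m.Conf d U W (z.Q c) (z.al c) c μ)
    (s : m.HSt U W) (sub : ∀ c ∈ A, c ∈ z.I) (al : ∀ c ∈ A, z.Al W c) :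
    2 * z.cst m W + A.card ≤ z.wt U :=
  claim (fun _ _ _ n => let ⟨c, cI, q⟩ := n.conf h o fa fc; loc c cI _ _ _ q) s sub al

end ZS

end Pool.Agent.P.MP_5f84aa_co.G
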