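import Pool.Agent.P.MP_5f84aa_co.G.PC

/-! The parity frame, part F: arcs (parts of runs between stop faces) have exactly two ends. -/

namespace Pool.Agent.P.MP_5f84aa_co.G

namespace Map

variable {V J Sg : Type} (m : Map V J Sg)

/-- a step along a line that does not pass a face of `N` -/
def AStep (W : V → V → Prop) (N : Set J) (p q : V × V) : Prop :=
  q = (p.2, p.1) ∨ (q.2 = p.2 ∧ q.1 ≠ p.1 ∧ W q.1 q.2 ∧ m.ln q.1 q.2 = m.ln p.1 p.2 ∧
    ∃ j ∉ N, m.Tri j p.1 q.1 p.2)

/-- the part of the run of the wall `a b` between two faces of `N` -/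
def Arc (W : V → V → Prop) (N : Set J) (a b u v : V) : Prop :=
  Relation.ReflTransGen (m.AStep W N) (a, b) (u, v)

variable {m} {W : V → V → Prop} {N N' : Set J} {U D : Finset V} {a b u v w x y z : V} {j k g : J}

theorem Arc.refl (W : V → V → Prop) (N : Set J) (a b : V) : m.Arc W N a b a b :=
  Relation.ReflTransGen.refl
theorem Arc.swap (r : m.Arc W N a b u v) : m.Arc W N a b v u := r.tail (.inl rfl)
theorem Arc.trans (r : m.Arc W N a b u v) (r' : m.Arc W N u v x y) : m.Arc W N a b x y :=
  Relation.ReflTransGen.trans r r'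
theorem Arc.step (r : m.Arc W N a b x y) (n : z ≠ x) (w : W z y) (l : m.ln z y = m.ln x y)
    (jN : j ∉ N) (t : m.Tri j x z y) : m.Arc W N a b z y := r.tail (.inr ⟨rfl, n, w, l, j, jN, t⟩)
theorem arc_swap (r : m.Arc W N a b u v) : m.Arc W N b a u v := (Arc.refl W N b a).swap.trans r

theorem Arc.ind {P : V → V → Prop} (r : m.Arc W N a b u v) (h0 : P a b)
    (h1 : ∀ x y, m.Arc W N a b x y → P x y → P y x)
    (h2 : ∀ x x' y j, m.Arc W N a b x y → P x y → x' ≠ x → W x' y → m.ln x' y = m.ln x y →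
      j ∉ N → m.Tri j x x' y → P x' y) : P u v := by
  have : ∀ q, Relation.ReflTransGen (m.AStep W N) (a, b) q → P q.1 q.2 := by
    intro q r
    induction r with
    | refl => exact h0
    | @tail p q r s ih =>
      obtain ⟨x, y⟩ := p
      obtain ⟨x', y'⟩ := q
      rcases s with s | ⟨s1, s2, s3, s4, j, s5, s6⟩
      · obtain ⟨rfl, rfl⟩ := Prod.mk.inj s
        exact h1 _ _ r ih
      · obtain rfl : y' = y := s1
        exact h2 _ _ _ j r ih s2 s3 s4 s5 s6
  exact this _ r

theorem Arc.mono (r : m.Arc W N a b u v) (s : N' ⊆ N) : m.Arc W N' a b u v :=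
  r.ind (P := m.Arc W N' a b) (.refl _ _ _ _) (fun _ _ _ => Arc.swap)
    fun _ _ _ _ _ p n w l jN t => p.step n w l (fun q => jN (s q)) t

theorem Arc.run (r : m.Arc W N a b u v) : m.Run W a b u v :=
  r.ind (P := m.Run W a b) (.refl _ _ _) (fun _ _ _ => Run.swap)
    fun _ _ _ _ _ p n w l _ t => p.step n w l t

theorem Run.arc (r : m.Run W a b u v) : m.Arc W ∅ a b u v :=
  r.ind (P := m.Arc W ∅ a b) (.refl _ _ _ _) (fun _ _ _ => Arc.swap)
    fun _ _ _ _ _ p n w l t => p.step n w l (by simp) t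

theorem arc_empty : m.Arc W ∅ a b = m.Run W a b :=
  funext fun _ => funext fun _ => propext ⟨Arc.run, Run.arc⟩

namespace HSt

variable (h : m.Ok) (s : m.HSt U W)
include h s

theorem arc_w (r : m.Arc W N a b u v) (w : W a b) : W u v ∧ m.ln u v = m.ln a b := s.run_w h r.run w

theorem arc_symm (r : m.Arc W N a b u v) (w : W a b) : m.Arc W N u v a b :=
  r.ind (P := fun u v => m.Arc W N u v a b) (.refl _ _ _ _)
    (fun x y _ p => (Arc.refl W N y x).swap.trans p)
    fun _ _ _ _ r p n _ l jN t => ((Arc.refl W N _ _).step n.symm (s.arc_w h r w).1 l.symm jN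
      ⟨t.2.1, t.1, t.2.2⟩).trans p

theorem arc_eq (w : W a b) (r : m.Arc W N a b u v) : m.Arc W N u v = m.Arc W N a b :=
  funext fun _ => funext fun _ => propext ⟨r.trans, (s.arc_symm h r w).trans⟩

/-- an arc passes a face off `N` along the bar -/
theorem arc_bar (f : m.Fc j x y z) (jN : j ∉ N) (w : W y z) (r : m.Arc W N a b x z) :
    m.Arc W N a b y z := by
  obtain ⟨-, l1, l2, -⟩ := h.lines f ((s.bd y (s.mem _ _ w)).ne_inf f.has2)
  exact r.step (h.fc_ne f).1.symm w (l2.trans l1.symm) jN f.tri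

/-- an arc does not contain the stem and the bar of a face -/
theorem arc_stem (w : W a b) (f : m.Fc j x y z) (r : m.Arc W N a b x y) : ¬ m.Arc W N a b x z :=
  fun r' => by
    obtain ⟨w1, l1⟩ := s.arc_w h r w
    obtain ⟨l2, l3, -, l4⟩ := h.lines f ((s.bd x (s.mem _ _ w1)).ne_inf f.has1)
    exact l4 (l2.symm.trans (l1.trans ((s.arc_w h r' w).2.symm.trans l3)))

open Finset HCut in
/-- an arc has exactly two ends, and it does not pass a face of `N` -/
theorem arc_ends [Finite V] [Finite J] (N : Set J) (w : W a b) : ∃ g g', g ≠ g' ∧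
    (∀ j, ¬ m.Ev (m.Arc W N a b) j ↔ j = g ∨ j = g') ∧
    ∀ j ∈ N, ∀ x y z, m.Fc j x y z → m.Arc W N a b x z → ¬ m.Arc W N a b y z := by
  classical
  have := Fintype.ofFinite V
  have := Fintype.ofFinite J
  set ρ := m.Arc W N a b with hρ
  have sρ : ∀ u v, ρ u v → ρ v u := fun _ _ => Arc.swap
  let E : Finset (Sym2 V) := univ.filter fun e => ∃ u v, e = s(u, v) ∧ ρ u v
  have mE : ∀ u v, s(u, v) ∈ E ↔ ρ u v := fun u v => by
    simp only [E, mem_filter, mem_univ, true_and]
    refine ⟨?_, fun r => ⟨u, v, rfl, r⟩⟩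
    rintro ⟨x, y, e, r⟩
    rcases Sym2.eq_iff.1 e with ⟨rfl, rfl⟩ | ⟨rfl, rfl⟩
    exacts [r, sρ _ _ r]
  let d : Finset (Sym2 V) → J → ℕ := fun S j => (ed m j ∩ S).card
  have dE : ∀ S j x y z, m.Fc j x y z → d S j = (if s(x, y) ∈ S then 1 else 0) +
      (if s(x, z) ∈ S then 1 else 0) + if s(y, z) ∈ S then 1 else 0 := by
    intro S j x y z f
    obtain ⟨n1, n2, n3⟩ := h.fc_ne f
    have e : ed m j = {s(x, y), s(x, z), s(y, z)} := by
      obtain ⟨⟨rfl, rfl⟩ | ⟨rfl, rfl⟩, rfl⟩ := f
      · ext e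
        simp only [ed, mem_insert, mem_singleton]
      · ext e
        simp only [ed, mem_insert, mem_singleton, Sym2.eq_swap (a := m.R j) (b := m.L j)]
        tauto
    simp only [d, e]
    rw [← filter_mem_eq_inter, card_filter, sum_insert, sum_insert, sum_singleton, add_assoc]
    · simp only [mem_singleton, Sym2.eq_iff]; grind
    · simp only [mem_insert, mem_singleton, Sym2.eq_iff]; grind
  have d2 : ∀ S ⊆ E, ∀ j, d S j ≤ 2 := fun S sub j => by
    rw [dE S j _ _ _ (fc_self j)]
    have := fun r => s.arc_stem h (N := N) w (fc_self j) r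
    have := fun q => (mE (m.L j) (m.R j)).1 (sub q)
    have := fun q => (mE (m.L j) (m.X j)).1 (sub q)
    split_ifs <;> first | omega | tauto
  have grow : ∀ n, n < E.card → ∃ S ⊆ E, s(a, b) ∈ S ∧ S.card = n + 1 ∧
      n ≤ (univ.filter fun j => j ∉ N ∧ d S j = 2).card := by
    intro n
    induction n with
    | zero => exact fun _ => ⟨{s(a, b)}, by simpa using (mE a b).2 (.refl _ _ _ _), by simp, by simp, by simp⟩
    | succ n ih =>
      intro l
      obtain ⟨S, sub, ab, c1, c2⟩ := ih (by omega)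
      obtain ⟨x, x', y, j, r, p, ne, w', ln, jN, t, np⟩ : ∃ x x' y j, ρ x y ∧ s(x, y) ∈ S ∧ x' ≠ x ∧
          W x' y ∧ m.ln x' y = m.ln x y ∧ j ∉ N ∧ m.Tri j x x' y ∧ s(x', y) ∉ S := by
        by_contra q
        push Not at q
        have : E ⊆ S := by
          intro e
          induction e using Sym2.ind with
          | _ u v =>
            intro r
            exact Arc.ind (P := fun u v => s(u, v) ∈ S) ((mE u v).1 r) ab
              (fun x y _ p => by rwa [Sym2.eq_swap]) fun x x' y j r p ne w' ln jN t =>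
                q x x' y j r p ne w' ln jN t
        have := card_le_card this
        omega
      have r' : ρ x' y := Arc.step r ne w' ln jN t
      have f := h.fc_of_line ((s.bd _ (s.mem _ _ w')).ne_inf t.2.1) t ne
        (s.adj _ _ (s.arc_w h r w).1).1 (s.adj _ _ w').1 ln
      have sub' : insert s(x', y) S ⊆ E := insert_subset ((mE _ _).2 r') sub
      refine ⟨insert s(x', y) S, sub', mem_insert_of_mem ab, by rw [card_insert_of_notMem np, c1], ?_⟩
      have n1 : s(x, x') ∉ E := fun q => s.arc_stem h w f ((mE _ _).1 q) r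
      refine (Nat.succ_le_succ c2).trans (card_lt_card ⟨fun i q => ?_, fun q => ?_⟩)
      · simp only [mem_filter, mem_univ, true_and] at q ⊢
        have := d2 _ sub' i
        have : d S i ≤ d (insert s(x', y) S) i :=
          card_le_card (inter_subset_inter_left (subset_insert _ _))
        exact ⟨q.1, by omega⟩
      · have := q (x := j) (by
          simp only [mem_filter, mem_univ, true_and]
          rw [dE _ j _ _ _ f, if_neg fun q => n1 (sub' q), if_pos (mem_insert_of_mem p),
            if_pos (mem_insert_self _ _)]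
          exact ⟨jN, rfl⟩)
        simp only [mem_filter, mem_univ, true_and] at this
        rw [dE _ j _ _ _ f, if_neg fun q => n1 (sub q), if_neg np] at this
        split_ifs at this
        omega
  have pos : 0 < E.card := card_pos.2 ⟨_, (mE a b).2 (.refl _ _ _ _)⟩
  obtain ⟨S, sub, -, c1, c2⟩ := grow (E.card - 1) (by omega)
  obtain rfl : S = E := eq_of_subset_of_card_le sub (by omega)
  have tot : ∑ j, d E j = 2 * E.card := by
    have : ∀ j, d E j = ∑ e ∈ E, if e ∈ ed m j then 1 else 0 := fun j => by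
      simp only [d]
      rw [inter_comm, ← filter_mem_eq_inter, card_filter]
    simp only [this]
    rw [sum_comm, mul_comm, ← smul_eq_mul, ← sum_const]
    refine sum_congr rfl fun e => ?_
    induction e using Sym2.ind with
    | _ u v =>
      intro q
      have ad := s.adj _ _ (s.arc_w h ((mE u v).1 q) w).1
      rw [← card_filter, ← h.two u v ad, ← Set.ncard_coe_finset]
      congr 1
      ext j
      simp [mem_ed h, ad.1, On]
  have od : ∀ j, ¬ m.Ev ρ j → d E j = 1 := fun j q => by
    have := d2 E subset_rfl j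
    rw [dE E j _ _ _ (fc_self j)] at this ⊢
    simp only [mE] at this ⊢
    unfold Ev at q
    split_ifs at this ⊢ <;> first | omega | tauto
  have bound : ∀ T : Finset J, (∀ j ∈ T, j ∈ N ∨ d E j ≠ 2) → ∑ j ∈ T, d E j ≤ 2 := fun T hT => by
    have e1 : ∑ j ∈ univ.filter (fun j => j ∉ N ∧ d E j = 2), d E j =
        2 * (univ.filter fun j => j ∉ N ∧ d E j = 2).card := by
      rw [mul_comm, ← smul_eq_mul, ← sum_const]
      exact sum_congr rfl fun j q => (mem_filter.1 q).2.2
    have e2 := sum_union (f := d E) (s₁ := T) (s₂ := univ.filter fun j => j ∉ N ∧ d E j = 2)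
      (disjoint_left.2 fun j q q' => by
        have := hT j q
        have := (mem_filter.1 q').2
        tauto)
    have e3 := sum_le_sum_of_subset (f := d E)
      (subset_univ (T ∪ univ.filter fun j => j ∉ N ∧ d E j = 2))
    omega
  obtain ⟨g, g', ne, o1, o2⟩ := h.two_odd (t := m.ln a b) sρ (fun u v r =>
    ⟨s.adj _ _ (s.arc_w h r w).1, (s.arc_w h r w).2, s.bd _ (s.mem _ _ (s.arc_w h r w).1)⟩)
    (Arc.refl W N a b)
  have key : ∀ j, (j ∈ N ∨ d E j ≠ 2) → j ≠ g → j ≠ g' → d E j = 0 := fun j q n1 n2 => by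
    have := bound {j, g, g'} (by
      have := od g o1
      have := od g' o2
      simp only [mem_insert, mem_singleton]
      rintro i (rfl | rfl | rfl)
      exacts [q, .inr (by omega), .inr (by omega)])
    rw [sum_insert (by simp [n1, n2]), sum_pair ne, od g o1, od g' o2] at this
    omega
  refine ⟨g, g', ne, fun j => ⟨fun q => by_contra fun n => ?_, ?_⟩, fun j jN x y z f r r' => ?_⟩
  · have := od j q
    have := key j (.inr (by omega)) (fun e => n (.inl e)) fun e => n (.inr e)
    omega
  · rintro (rfl | rfl) <;> assumption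
  · have e : 2 ≤ d E j := by
      rw [dE E j _ _ _ f, if_pos ((mE _ _).2 r), if_pos ((mE _ _).2 r')]
      omega
    by_cases n1 : j = g
    · have := od g o1
      rw [n1] at e
      omega
    by_cases n2 : j = g'
    · have := od g' o2
      rw [n2] at e
      omega
    have := key j (.inl jN) n1 n2
    omega

/-- three ends of an arc are not different -/
theorem arc_three [Finite V] [Finite J] (w : W a b) (o1 : ¬ m.Ev (m.Arc W N a b) j)
    (o2 : ¬ m.Ev (m.Arc W N a b) k) (o3 : ¬ m.Ev (m.Arc W N a b) g) (ne : j ≠ k) : g = j ∨ g = k := by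
  obtain ⟨p, q, -, e, -⟩ := s.arc_ends h N w
  rw [e] at o1 o2 o3
  grind

/-- a face of `N` on a piece of the arc is an end -/
theorem arc_end [Finite V] [Finite J] (w : W a b) (jN : j ∈ N) (r : m.Arc W N a b u v)
    (o : m.On j u v) : ¬ m.Ev (m.Arc W N a b) j := by
  obtain ⟨-, -, -, -, e⟩ := s.arc_ends h N w
  have d := (s.adj _ _ (s.arc_w h r w).1).1
  obtain ⟨x, xu, xv, t⟩ := h.third o d
  have r' := r.swap
  rcases h.tri_cases t d xu.symm xv.symm with f | f | f <;> rw [ev_iff (fun _ _ => Arc.swap) f]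
  · have := s.arc_stem h w f r
    have := s.arc_stem h w f.symm r'
    tauto
  · have := e j jN _ _ _ f r'
    have := fun q => s.arc_stem h (N := N) w f q r'
    tauto
  · have := e j jN _ _ _ f.symm r
    have := fun q => s.arc_stem h (N := N) w f.symm (Arc.swap q) r
    tauto

/-- the ends of an arc: a stem end, or a face of `N`, or the next piece is no wall -/
theorem arc_odd (o : ¬ m.Ev (m.Arc W N a b) j) :
    (∃ x y z, m.Fc j x y z ∧ m.Arc W N a b x y) ∨
    ∃ x y z, m.Fc j x y z ∧ m.Arc W N a b x z ∧ ¬ m.Arc W N a b y z ∧ (j ∈ N ∨ ¬ W y z) := by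
  by_cases c : m.Arc W N a b (m.L j) (m.R j)
  · exact .inl ⟨_, _, _, fc_self j, c⟩
  have key : ∀ x y z, m.Fc j x y z → m.Arc W N a b x z → ¬ m.Arc W N a b y z → j ∈ N ∨ ¬ W y z :=
    fun x y z f r n => by_contra fun q => n (s.arc_bar h f (fun e => q (.inl e))
      (by_contra fun e => q (.inr e)) r)
  unfold Ev at o
  by_cases c' : m.Arc W N a b (m.L j) (m.X j)
  · exact .inr ⟨_, _, _, fc_self j, c', by tauto, key _ _ _ (fc_self j) c' (by tauto)⟩
  · exact .inr ⟨_, _, _, (fc_self j).symm, by tauto, c', key _ _ _ (fc_self j).symm (by tauto) c'⟩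

/-- the faces of an arc are connected -/
theorem arc_faces {G : Set J} (w : W a b)
    (c : ∀ u v j j', m.Arc W N a b u v → m.On j u v → m.On j' u v → j ∈ G → j' ∈ G)
    (r0 : m.Arc W N a b x y) (o : m.On k x y) (kG : k ∈ G) (r : m.Arc W N a b u v) :
    ∀ j, m.On j u v → j ∈ G :=
  ((s.arc_symm h r0 w).trans r).ind (P := fun u v => ∀ j, m.On j u v → j ∈ G)
    (fun j q => c x y k j r0 o q kG) (fun _ _ _ p j o => p j o.symm)
    fun _ _ _ i r p n w l iN t j o => c _ _ i j (r0.trans (r.step n w l iN t)) ⟨t.2.1, t.2.2⟩ o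
      (p i ⟨t.1, t.2.2⟩)

end HSt

end Map

end Pool.Agent.P.MP_5f84aa_co.G
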