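import Pool.Agent.P.MP_5f84aa_co.G.Geo3

/-! From the combinatorial layer to the segments. -/

namespace Pool.Agent.P.MP_5f84aa_co.G

theorem final3 (h : S_COMB3) : ∃ δ : ℝ, 0 < δ ∧ ∃ C : ℝ, ∀ (n : ℕ) (a b : Fin n → Fin 2 → ℝ),
    (Pairwise fun i j => Disjoint (segment ℝ (a i) (b i)) (segment ℝ (a j) (b j))) →
    ∃ S : Finset (Fin 2 → ℝ), (S.card : ℝ) ≤ (1 / 2 - δ) * n + C ∧
      (∀ x ∈ S, ∀ i, x ∉ segment ℝ (a i) (b i)) ∧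
      ∀ i, ∀ q ∈ segment ℝ (a i) (b i), ∃ x ∈ S, ∀ j,
        Disjoint (openSegment ℝ x q) (segment ℝ (a j) (b j)) := by
  obtain ⟨δ, hδ, C, H⟩ := h
  refine ⟨min δ (1 / 4), lt_min hδ (by norm_num), C + 2, fun n a b hd => ?_⟩
  obtain ⟨V, J, Sg, i1, i2, m, ok, hc, hl⟩ := s_geo3 n a b hd
  obtain ⟨M, F, sh, cv, cd⟩ := H V J Sg m ok
  obtain ⟨S, s1, s2, s3⟩ := hl M F sh cv
  refine ⟨S, ?_, s2, s3⟩
  have e1 : (S.card : ℝ) ≤ M.card + F.card := by exact_mod_cast s1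
  have e2 : (Fintype.card V : ℝ) ≤ n + 4 := by exact_mod_cast hc
  have e3 : (0 : ℝ) ≤ Fintype.card V := Nat.cast_nonneg _
  have e4 := min_le_left δ (1 / 4)
  have e5 := min_le_right δ (1 / 4)
  have e6 := lt_min hδ (show (0 : ℝ) < 1 / 4 by norm_num)
  nlinarith [mul_le_mul_of_nonneg_right e4 e3, mul_le_mul_of_nonneg_left e2 (show 0 ≤ 1 / 2 - min δ (1 / 4) by linarith)]

end Pool.Agent.P.MP_5f84aa_co.G
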