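import Mathlib

/-! Far apart seeds after the removal of few hubs, in a graph with linearly many edges. -/

namespace Pool.Agent.P.MP_5f84aa_co.G

namespace Scale

variable {T : Type} (N : T → Finset T)

/-- `y` is reached from `x` by at most `d` steps; no step starts in `H` -/
def Near (H : Set T) : ℕ → T → T → Prop
  | 0, x, y => x = y
  | d + 1, x, y => Near H d x y ∨ ∃ z, Near H d x z ∧ z ∉ H ∧ y ∈ N z

open Classical in
/-- the ball through vertices of degree at most `K` -/
noncomputable def Bl (K : ℕ) : ℕ → T → Finset T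
  | 0, x => {x}
  | d + 1, x => Bl K d x ∪ ((Bl K d x).filter fun z => (N z).card ≤ K).biUnion N

variable {N} {H H' : Set T} {d e K : ℕ} {x y z : T}

theorem Near.refl (d : ℕ) (x : T) : Near N H d x x := by
  induction d with
  | zero => rfl
  | succ d ih => exact .inl ih

theorem Near.le (h : Near N H d x y) (l : d ≤ e) : Near N H e x y := by
  induction l with
  | refl => exact h
  | step _ ih => exact .inl ih

theorem Near.step (h : Near N H d x z) (n : z ∉ H) (a : y ∈ N z) : Near N H (d + 1) x y :=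
  .inr ⟨z, h, n, a⟩

theorem Near.anti (h : Near N H d x y) (s : H' ⊆ H) : Near N H' d x y := by
  induction d generalizing y with
  | zero => exact h
  | succ d ih =>
    rcases h with h | ⟨z, h, n, a⟩
    exacts [.inl (ih h), .inr ⟨z, ih h, fun q => n (s q), a⟩]

theorem Near.trans (h : Near N H d x y) (h' : Near N H e y z) : Near N H (d + e) x z := by
  induction e generalizing z with
  | zero => exact h' ▸ h
  | succ e ih =>
    rcases h' with h' | ⟨w, h', n, a⟩
    exacts [.inl (ih h'), .inr ⟨w, ih h', n, a⟩]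

theorem Near.symm (sy : ∀ x y, y ∈ N x → x ∈ N y) (h : Near N H d x y) (n : y ∉ H) :
    Near N H d y x := by
  induction d generalizing y with
  | zero => exact Eq.symm h
  | succ d ih =>
    rcases h with h | ⟨z, h, nz, a⟩
    · exact .inl (ih h n)
    · exact add_comm 1 d ▸ ((Near.refl 0 y).step n (sy _ _ a)).trans (ih h nz)

theorem Bl_card (K d : ℕ) (x : T) : (Bl N K d x).card ≤ (K + 1) ^ d := by
  classical
  induction d with
  | zero => simp [Bl]
  | succ d ih =>
    unfold Bl
    refine (Finset.card_union_le _ _).trans ?_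
    have h1 := Finset.card_biUnion_le_card_mul ((Bl N K d x).filter fun z => (N z).card ≤ K) N K
      fun z hz => (Finset.mem_filter.1 hz).2
    have h2 := Nat.mul_le_mul_right K
      ((Finset.card_filter_le (Bl N K d x) fun z => (N z).card ≤ K).trans ih)
    rw [pow_succ, mul_add, mul_one]
    omega

theorem mem_Bl (p : ∀ y, Near N H d x y → y ∉ H → (N y).card ≤ K) (l : e ≤ d + 1)
    (h : Near N H e x y) : y ∈ Bl N K e x := by
  classical
  induction e generalizing y with
  | zero => exact Finset.mem_singleton.2 (Eq.symm h)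
  | succ e ih =>
    unfold Bl
    rcases h with h | ⟨z, h, n, a⟩
    · exact Finset.mem_union_left _ (ih (by omega) h)
    · exact Finset.mem_union_right _ (Finset.mem_biUnion.2 ⟨z, Finset.mem_filter.2
        ⟨ih (by omega) h, p z (h.le (by omega)) n⟩, a⟩)

/-- a set of at most `c` numbers spoils at most `c` scales -/
theorem pigeon {g : ℕ → ℕ} (up : ∀ k, k ≤ g k) (X : Finset T) (B : T → Finset T) (f : T → ℕ)
    (c K : ℕ) (hB : ∀ x, (B x).card ≤ c) : ∃ i ≤ 2 * c, ∃ X' ⊆ X, X.card ≤ 2 * X'.card ∧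
      ∀ x ∈ X', ∀ y ∈ B x, f y ≤ g^[i] K ∨ g (g^[i] K) < f y := by
  classical
  have mono : Monotone fun i => g^[i] K :=
    monotone_nat_of_le_succ fun i => by rw [Function.iterate_succ_apply']; exact up _
  let bad : ℕ → T → Prop := fun i x => ∃ y ∈ B x, g^[i] K < f y ∧ f y ≤ g^[i + 1] K
  have s1 : ∑ i ∈ Finset.range (2 * c + 1), (X.filter (bad i)).card ≤ X.card * c := by
    simp only [Finset.card_filter]
    rw [Finset.sum_comm]
    refine Finset.sum_le_card_nsmul _ _ _ fun x _ => ?_
    rw [← Finset.card_filter]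
    refine le_trans (Finset.card_le_card_of_forall_subsingleton
      (fun i y => g^[i] K < f y ∧ f y ≤ g^[i + 1] K) (fun i hi => (Finset.mem_filter.1 hi).2)
      fun y _ i hi j hj => ?_) (hB x)
    by_contra n
    rcases lt_or_gt_of_ne n with l | l
    · exact absurd (hi.2.2.trans (mono l)) (not_le.2 hj.2.1)
    · exact absurd (hj.2.2.trans (mono l)) (not_le.2 hi.2.1)
  obtain ⟨i, hi, q⟩ : ∃ i ∈ Finset.range (2 * c + 1), 2 * (X.filter (bad i)).card ≤ X.card := by
    by_contra n
    push Not at n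
    have := Finset.card_nsmul_le_sum (Finset.range (2 * c + 1))
      (fun i => 2 * (X.filter (bad i)).card) (X.card + 1) n
    rw [← Finset.mul_sum, Finset.card_range, smul_eq_mul] at this
    nlinarith
  refine ⟨i, by have := Finset.mem_range.1 hi; omega, X.filter fun x => ¬ bad i x,
    Finset.filter_subset _ _, ?_, fun x hx y hy => ?_⟩
  · have := Finset.card_filter_add_card_filter_not (s := X) (bad i)
    omega
  · by_contra n
    push Not at n
    exact (Finset.mem_filter.1 hx).2 ⟨y, hy, n.1, by rw [Function.iterate_succ_apply']; exact n.2⟩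

theorem iter_le {g : ℕ → ℕ} (up : ∀ k, k ≤ g k) (K : ℕ) : Monotone fun i => g^[i] K :=
  monotone_nat_of_le_succ fun i => by rw [Function.iterate_succ_apply']; exact up _

/-- a scale at which many balls have no vertex of middle degree -/
theorem scale (d : ℕ) : ∀ g : ℕ → ℕ, Monotone g → (∀ k, k ≤ g k) → ∃ B : ℕ,
    ∀ (T : Type) (N : T → Finset T) (X : Finset T), ∃ K ≤ B, ∃ X' ⊆ X,
      X.card ≤ 2 ^ (d + 1) * X'.card ∧ ∀ x ∈ X', ∀ y, Near N {z | g K < (N z).card} d x y →
        (N y).card ≤ g K → (N y).card ≤ K := by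
  induction d with
  | zero =>
    refine fun g _ up => ⟨g^[2] 0, fun T N X => ?_⟩
    obtain ⟨i, hi, X', s, c, p⟩ := pigeon up X (fun x => {x}) (fun y => (N y).card) 1 0 (by simp)
    exact ⟨_, iter_le up 0 hi, X', s, by simpa using c, fun x hx y h l =>
      (p x hx y (Finset.mem_singleton.2 (Eq.symm h))).resolve_right (not_lt.2 l)⟩
  | succ d ih =>
    intro g mo up
    let g' : ℕ → ℕ := fun K => g^[2 * (K + 1) ^ (d + 1) + 1] K
    have mo' : Monotone g' := fun K K' l =>
      (iter_le up K (by gcongr)).trans (mo.iterate (2 * (K' + 1) ^ (d + 1) + 1) l)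
    obtain ⟨B, hB⟩ := ih g' mo' fun K => iter_le up K (Nat.zero_le _)
    refine ⟨g' B, fun T N X => ?_⟩
    obtain ⟨K, l, X0, s0, c0, p0⟩ := hB T N X
    obtain ⟨i, hi, X', s, c, p⟩ := pigeon up X0 (Bl N K (d + 1)) (fun y => (N y).card) _ K
      (Bl_card K (d + 1))
    have l1 : g (g^[i] K) ≤ g' K := by
      rw [← Function.iterate_succ_apply' g]
      exact iter_le up K (by omega)
    refine ⟨g^[i] K, ((up _).trans l1).trans (mo' l), X', s.trans s0, ?_, fun x hx y h l => ?_⟩
    · rw [pow_succ 2 (d + 1), mul_assoc]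
      exact c0.trans (Nat.mul_le_mul_left _ c)
    · exact (p x hx y (mem_Bl (fun z q n => p0 x (s hx) z q (not_lt.1 n)) le_rfl
        (h.anti fun z (q : g' K < _) => l1.trans_lt q))).resolve_right (not_lt.2 l)

/-- a maximal far family -/
theorem greedy (sy : ∀ x y, y ∈ N x → x ∈ N y) (X : Finset T) (n : ∀ x ∈ X, x ∉ H)
    (p : ∀ x ∈ X, ∀ y, Near N H d x y → y ∉ H → (N y).card ≤ K) :
    ∃ Y ⊆ X, X.card ≤ Y.card * (K + 1) ^ d ∧ ∀ x ∈ Y, ∀ y ∈ Y, Near N H d x y → x = y := by
  classical
  obtain ⟨Y, ⟨s, f⟩, mx⟩ := Set.exists_max_image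
    {Y : Finset T | Y ⊆ X ∧ ∀ x ∈ Y, ∀ y ∈ Y, Near N H d x y → x = y} Finset.card
    (X.powerset.finite_toSet.subset fun Y h => by simpa using h.1) ⟨∅, by simp⟩
  refine ⟨Y, s, le_trans (Finset.card_le_card (t := Y.biUnion (Bl N K d)) fun x hx => ?_)
    (Finset.card_biUnion_le_card_mul _ _ _ fun y _ => Bl_card K d y), f⟩
  obtain ⟨y, hy, q⟩ : ∃ y ∈ Y, Near N H d y x := by
    by_contra c
    push Not at c
    have xY : x ∉ Y := fun q => c x q (Near.refl d x)
    have := mx (insert x Y) ⟨Finset.insert_subset hx s, fun a ha b hb q => ?_⟩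
    · rw [Finset.card_insert_of_notMem xY] at this
      omega
    rcases Finset.mem_insert.1 ha with e | ha <;> rcases Finset.mem_insert.1 hb with e' | hb
    exacts [e.trans e'.symm, absurd ((e ▸ q).symm sy (n b (s hb))) (c b hb),
      absurd (e' ▸ q) (c a ha), f a ha b hb q]
  exact Finset.mem_biUnion.2 ⟨y, hy, mem_Bl (p y (s hy)) (Nat.le_succ d) q⟩

end Scale

open Scale in
/-- For every radius `d` and weight `a`: a positive proportion of seeds contains a family `Y` that is
`d`-far outside a set `H` of hubs and outweighs `a` times the hubs by a positive proportion. -/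
theorem far_family (d a c q K0 : ℕ) : ∃ r : ℕ, 0 < r ∧
    ∀ (T : Type) (N : T → Finset T) (A X : Finset T) (n : ℕ), (∀ x y, y ∈ N x → x ∈ N y) →
      (∀ x, x ∉ A → N x = ∅) → ∑ x ∈ A, (N x).card ≤ c * n → n ≤ q * X.card →
      ∃ H Y : Finset T, H ⊆ A ∧ Y ⊆ X ∧ (∀ z ∈ H, K0 < (N z).card) ∧ (∀ y ∈ Y, y ∉ H) ∧
        n + r * (a * H.card) ≤ r * Y.card ∧
        ∀ x ∈ Y, ∀ y ∈ Y, Near N (H : Set T) d x y → x = y := by
  classical
  set Q := q * 2 ^ (d + 1)
  let g : ℕ → ℕ := fun K => K + K0 + 2 * Q * c * (a * (K + 1) ^ d + 1)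
  obtain ⟨B, hB⟩ := scale d g (fun K K' l => by simp only [g]; gcongr) fun K => by
    simp only [g]; omega
  refine ⟨2 * Q * (B + 1) ^ d + 1, by omega, fun T N A X n sy hA sum hX => ?_⟩
  obtain ⟨K, l, X', s, c0, p⟩ := hB T N X
  let H := A.filter fun z => g K < (N z).card
  have eH : (H : Set T) = {z | g K < (N z).card} := by
    ext z
    simp only [H, Finset.coe_filter, Set.mem_ofPred_eq, and_iff_right_iff_imp]
    exact fun q => by_contra fun n => by simp [hA z n] at q
  have cH : H.card * (g K + 1) ≤ c * n :=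
    (Finset.card_nsmul_le_sum H _ _ fun z hz => (Finset.mem_filter.1 hz).2).trans
      ((Finset.sum_le_sum_of_subset (Finset.filter_subset _ _)).trans sum)
  obtain ⟨Y, sY, cY, f⟩ := greedy (H := (H : Set T)) (d := d) (K := K) sy (X' \ H)
    (fun x hx => (Finset.mem_sdiff.1 hx).2) fun x hx y h n => by
      rw [eH] at h n
      exact p x (Finset.mem_sdiff.1 hx).1 y h (not_lt.1 n)
  refine ⟨H, Y, Finset.filter_subset _ _, sY.trans (Finset.sdiff_subset.trans s),
    fun z hz => lt_of_le_of_lt (by simp only [g]; omega) (Finset.mem_filter.1 hz).2,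
    fun y hy => (Finset.mem_sdiff.1 (sY hy)).2, ?_, f⟩
  have c1 : X'.card ≤ (X' \ H).card + H.card := Finset.card_le_card_sdiff_add_card
  set D := (K + 1) ^ d
  have hD : D ≤ (B + 1) ^ d := by simp only [D]; gcongr
  have c2 : n ≤ Q * (Y.card * D + H.card) :=
    hX.trans ((Nat.mul_le_mul_left q c0).trans (by
      rw [← mul_assoc]; exact Nat.mul_le_mul_left _ (by omega)))
  have c3 : 2 * Q * ((a * D + 1) * H.card) ≤ n := by
    rcases Nat.eq_zero_or_pos c with rfl | cp
    · obtain e : H.card = 0 := by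
        rcases Nat.eq_zero_or_pos H.card with e | e
        exacts [e, by nlinarith]
      simp [e]
    · refine Nat.le_of_mul_le_mul_left (le_trans ?_ cH) cp
      calc c * (2 * Q * ((a * D + 1) * H.card)) = H.card * (2 * Q * c * (a * D + 1)) := by ring
        _ ≤ _ := Nat.mul_le_mul_left _ (Nat.le_succ_of_le (Nat.le_add_left _ _))
  have c4 : n + 2 * Q * D * (a * H.card) ≤ 2 * Q * D * Y.card := by nlinarith
  have c5 : a * H.card ≤ Y.card := by
    rcases Nat.eq_zero_or_pos (2 * Q * D) with e | e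
    · rw [e] at c4
      obtain e' : H.card = 0 := by
        rcases Nat.eq_zero_or_pos H.card with e | e
        exacts [e, by rw [show n = 0 by omega] at cH; nlinarith]
      simp [e']
    · exact Nat.le_of_mul_le_mul_left (by omega) e
  obtain ⟨t, ht⟩ := Nat.exists_eq_add_of_le (show 2 * Q * D ≤ 2 * Q * (B + 1) ^ d + 1 from
    (Nat.mul_le_mul_left _ hD).trans (Nat.le_succ _))
  have := Nat.mul_le_mul_left t c5
  rw [ht, add_mul, add_mul]
  omega

end Pool.Agent.P.MP_5f84aa_co.G
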