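import Pool.Agent.P.MP_5f84aa_co.G.PS2
import Pool.Agent.P.MP_5f84aa_co.G.PScale
import Pool.Agent.P.MP_5f84aa_co.G.PD

/-! The global layer, part 1: many long shortest paths of corner pairs, far from each other. -/

namespace Pool.Agent.P.MP_5f84aa_co.G

open Finset

namespace Map

variable {V J Sg : Type} {m : Map V J Sg}

/-- few cells lie in small classes -/
theorem Cnt.small (c : m.Cnt) [Finite V] [Finite J] {S : Finset V} (hS : ∀ v, ¬ m.Bd v → v ∈ S)
    {B : ℕ} (X : Finset V)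
    (sm : ∀ v ∈ X, v ∉ S ∧ {w | Relation.ReflTransGen (m.GS S) v w}.ncard ≤ B) :
    X.card ≤ 2 * S.card * B := by
  classical
  have := Fintype.ofFinite V
  have := Fintype.ofFinite J
  let cl : V → Finset V := fun v => univ.filter (Relation.ReflTransGen (m.GS S) v)
  let Q := (univ \ S).image cl
  have sy : ∀ u v, Relation.ReflTransGen (m.GS S) u v → Relation.ReflTransGen (m.GS S) v u :=
    fun u v r => by
      induction r with
      | refl => exact .refl
      | tail _ e ih => exact .head e.symm ih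
  have ec : ∀ u v, Relation.ReflTransGen (m.GS S) u v → cl u = cl v := fun u v r => by
    ext w
    simp only [cl, mem_filter, mem_univ, true_and]
    exact ⟨(sy _ _ r).trans, r.trans⟩
  have off : ∀ v ∉ S, ∀ w ∈ cl v, w ∉ S := fun v hv w hw => by
    have := (mem_filter.1 hw).2
    induction this with
    | refl => exact hv
    | tail _ e _ => exact e.2.1
  have mq : ∀ T ∈ Q, ∀ w ∈ T, w ∉ S ∧ T = cl w := fun T hT w hw => by
    obtain ⟨v, hv, rfl⟩ := mem_image.1 hT
    exact ⟨off v (mem_sdiff.1 hv).2 w hw, ec _ _ (mem_filter.1 hw).2⟩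
  have un : Q.biUnion id = univ \ S := by
    ext w
    simp only [mem_biUnion, id, mem_sdiff, mem_univ, true_and]
    exact ⟨fun ⟨T, a, b⟩ => (mq T a w b).1, fun a => ⟨cl w, mem_image_of_mem _ (by simpa using a),
      mem_filter.2 ⟨mem_univ _, .refl⟩⟩⟩
  have h1 : (univ \ S).card = ∑ T ∈ Q, T.card := by
    rw [← un, card_biUnion]
    · rfl
    · exact fun T a T' b d => disjoint_left.2 fun w e f => d ((mq T a w e).2.trans (mq T' b w f).2.symm)
  let I : Finset V → Finset J := fun T => univ.filter fun j => m.L j ∈ T ∨ m.R j ∈ T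
  have h2 : ∑ T ∈ Q, (I T).card ≤ Fintype.card J := by
    rw [← card_biUnion]
    · exact card_le_univ _
    · refine fun T a T' b d => disjoint_left.2 fun j e f => d ?_
      have g : m.L j ∉ S → m.R j ∉ S → cl (m.L j) = cl (m.R j) := fun x y =>
        ec _ _ (.single ⟨x, y, j, fc_self j⟩)
      rcases (mem_filter.1 e).2 with e | e <;> rcases (mem_filter.1 f).2 with f | f
      · exact (mq T a _ e).2.trans (mq T' b _ f).2.symm
      · exact (mq T a _ e).2.trans ((g (mq T a _ e).1 (mq T' b _ f).1).trans (mq T' b _ f).2.symm)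
      · exact (mq T a _ e).2.trans ((g (mq T' b _ f).1 (mq T a _ e).1).symm.trans (mq T' b _ f).2.symm)
      · exact (mq T a _ e).2.trans (mq T' b _ f).2.symm
  have h3 : ∑ T ∈ Q, (2 * T.card + 1) ≤ ∑ T ∈ Q, (I T).card := sum_le_sum fun T a => by
    obtain ⟨v, hv, e⟩ := mem_image.1 a
    have := c.inc T ⟨v, e ▸ mem_coe.2 (mem_filter.2 ⟨mem_univ _, .refl⟩)⟩ fun w hw k =>
      (mq T a w hw).1 (hS w fun b => b k)
    rw [Set.ncard_coe_finset] at this
    refine this.trans (le_of_eq ?_)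
    rw [← Set.ncard_coe_finset]
    congr 1
    ext j
    simp [I]
  have h4 : X.card ≤ (X.image cl).card * B :=
    (card_le_card (t := (X.image cl).biUnion id) fun v hv => mem_biUnion.2
      ⟨cl v, mem_image_of_mem _ hv, mem_filter.2 ⟨mem_univ _, .refl⟩⟩).trans
      (card_biUnion_le_card_mul _ _ _ fun T a => by
        obtain ⟨v, hv, rfl⟩ := mem_image.1 a
        refine le_trans (le_of_eq ?_) (sm v hv).2
        rw [← Set.ncard_coe_finset]
        congr 1
        ext w
        simp [cl])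
  have h8 : (X.image cl).card ≤ Q.card :=
    card_le_card (image_subset_image fun v hv => by simpa using (sm v hv).1)
  rw [sum_add_distrib, ← mul_sum, ← h1, sum_const, smul_eq_mul, mul_one] at h3
  have h5 := c.euler
  have h6 : (univ \ S).card + S.card = Fintype.card V := by
    rw [card_sdiff_add_card_eq_card (subset_univ S), card_univ]
  rw [Nat.card_eq_fintype_card, Nat.card_eq_fintype_card] at h5
  exact h4.trans (Nat.mul_le_mul_right _ (by omega))

/-- a line has at most two ends -/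
def Ends (m : Map V J Sg) : Prop := ∀ t, {j | j ≠ m.inf ∧ m.stem j = t}.ncard ≤ 2

/-- a shortest path of corner pairs off `S` -/
structure Path (m : Map V J Sg) (S : Finset V) (L : ℕ) (p : ℕ → V) : Prop where
  gs : ∀ i < L, m.GS S (p i) (p (i + 1))
  sh : ∀ i k n, k ≤ L → p k ∈ Bal (m.GS S) (p i) n → k ≤ i + n

/-- neighbours off `S` -/
def AS (m : Map V J Sg) (S : Finset V) (u v : V) : Prop := u ∉ S ∧ v ∉ S ∧ m.Adj u v

/-- cells off `S` that are neighbours or lie on a line off `T` -/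
def NS (m : Map V J Sg) (S : Finset V) (T : Finset Sg) (u v : V) : Prop :=
  u ∉ S ∧ v ∉ S ∧ (m.Adj u v ∨ ∃ t ∉ T, m.OnL u t ∧ m.OnL v t)

/-- hubs `S`, free lines `T` and paths that are far from each other -/
structure Sel (m : Map V J Sg) (L e : ℕ) (S : Finset V) (T : Finset Sg) (Y : Finset V)
    (p : V → ℕ → V) : Prop where
  bd : ∀ v, ¬ m.Bd v → v ∈ S
  nf : ∀ u v, m.GS S u v → m.ln u v ∉ T
  rg : ∀ j j', m.far j j' → m.stem j ∉ T
  pa : ∀ y ∈ Y, m.Path S L (p y)
  far : ∀ y ∈ Y, ∀ y' ∈ Y, ∀ i ≤ L, ∀ i' ≤ L, ∀ x, ∀ u ∈ Bal (m.AS S) x e, u ∉ S → ∀ t ∉ T,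
    ∀ t' ∉ T, m.OnL (p y i) t → m.OnL x t → m.OnL u t' → m.OnL (p y' i') t' → y = y'
  fq : ∀ y ∈ Y, ∀ y' ∈ Y, p y' 0 ∈ Bal (m.NS S T) (p y 0) e → y = y'

end Map

theorem Bal.trans {α : Type} {E : α → α → Prop} {u v w : α} {i k : ℕ} (a : v ∈ Bal E u i)
    (b : w ∈ Bal E v k) : w ∈ Bal E u (i + k) := by
  induction k generalizing w with
  | zero => obtain rfl : w = v := b; exact a
  | succ k ih =>
    rcases b with b | ⟨x, b, e⟩
    exacts [.inl (ih b), .inr ⟨x, ih b, e⟩]

namespace Map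

variable {V J Sg : Type} {m : Map V J Sg}

theorem path_or (m : Map V J Sg) (S : Finset V) (L : ℕ) (v : V) :
    {w | Relation.ReflTransGen (m.GS S) v w} ⊆ Bal (m.GS S) v L ∨
      ∃ p, p 0 = v ∧ m.Path S (L + 1) p := by
  by_cases c : Bal (m.GS S) v (L + 1) ⊆ Bal (m.GS S) v L
  · refine .inl fun w hw => ?_
    induction hw with
    | refl => exact Bal.mono (Nat.zero_le L) rfl
    | tail _ e ih => exact c (.inr ⟨_, ih, e⟩)
  · obtain ⟨w, h1, h2⟩ := Set.not_subset.1 c
    obtain ⟨p, -, p2⟩ := Bal.path (L + 1) w h1 fun i hi k => h2 (Bal.mono (by omega) k)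
    exact .inr ⟨p, (p2 0 (by omega)).1, fun i hi => (p2 i hi.le).2.2 hi, fun i k n a b =>
      by_contra fun q => (p2 k a).2.1 (i + n) (by omega) (Bal.trans (p2 i (by omega)).1 b)⟩

open Classical in
/-- the incidences of cells and lines -/
noncomputable def Inc (m : Map V J Sg) [Fintype V] : V ⊕ Sg → Finset (V ⊕ Sg)
  | .inl u => (univ.filter (m.Adj u)).image .inl ∪
      (univ.filter (m.Adj u)).image fun v => .inr (m.ln u v)
  | .inr t => (univ.filter (m.OnL · t)).image .inl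

variable [Fintype V] {u v : V} {t : Sg}

theorem inc_ll : .inl v ∈ m.Inc (.inl u) ↔ m.Adj u v := by simp [Inc]

theorem inc_lr : .inr t ∈ m.Inc (.inl u) ↔ m.OnL u t := by simp [Inc, OnL]

theorem inc_rl : .inl u ∈ m.Inc (.inr t) ↔ m.OnL u t := by simp [Inc]

theorem inc_symm (x y : V ⊕ Sg) (a : y ∈ m.Inc x) : x ∈ m.Inc y := by
  rcases x with x | x <;> rcases y with y | y
  · exact inc_ll.2 (inc_ll.1 a).symm
  · exact inc_rl.2 (inc_lr.1 a)
  · exact inc_lr.2 (inc_rl.1 a)
  · simp [Inc] at a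

theorem Cnt.inc_sum (c : m.Cnt) [Finite J] (H : Finset (V ⊕ Sg)) :
    ∑ z ∈ H, (m.Inc z).card ≤ 36 * Fintype.card V := by
  classical
  have := Fintype.ofFinite J
  let P : Finset (V × V) := univ.biUnion fun j : J => ({m.L j, m.R j, m.X j} : Finset V).offDiag
  have h4 : P.card ≤ Fintype.card J * 6 := card_biUnion_le_card_mul _ _ 6 fun j _ => by
    have k : ({m.L j, m.R j, m.X j} : Finset V).card ≤ 3 := card_le_three
    rw [offDiag_card]
    generalize ({m.L j, m.R j, m.X j} : Finset V).card = c at k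
    interval_cases c <;> norm_num
  have h3 : ∀ u v, m.Adj u v → (u, v) ∈ P := fun u v ⟨k1, j, k2, k3⟩ =>
    mem_biUnion.2 ⟨j, mem_univ _, mem_offDiag.2
      ⟨by simpa [Map.has] using k2, by simpa [Map.has] using k3, k1⟩⟩
  rw [← card_sigma]
  have h5 : (H.sigma m.Inc).card ≤ ((P.image fun q => (⟨.inl q.1, .inr (m.ln q.1 q.2)⟩ :
      Σ _ : V ⊕ Sg, V ⊕ Sg)) ∪ (P.image fun q => ⟨.inr (m.ln q.1 q.2), .inl q.1⟩) ∪
      P.image fun q => ⟨.inl q.1, .inl q.2⟩).card := by
    refine card_le_card ?_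
    rintro ⟨x | x, y | y⟩ a <;> replace a := (mem_sigma.1 a).2
    · exact mem_union_right _ (mem_image.2 ⟨_, h3 _ _ (inc_ll.1 a), rfl⟩)
    · obtain ⟨v, b, rfl⟩ := inc_lr.1 a
      exact mem_union_left _ (mem_union_left _ (mem_image.2 ⟨_, h3 _ _ b, rfl⟩))
    · obtain ⟨v, b, rfl⟩ := inc_rl.1 a
      exact mem_union_left _ (mem_union_right _ (mem_image.2 ⟨_, h3 _ _ b, rfl⟩))
    · simp [Inc] at a
  have h6 := h5.trans ((card_union_le _ _).trans (Nat.add_le_add ((card_union_le _ _).trans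
    (Nat.add_le_add card_image_le card_image_le)) card_image_le))
  have h8 := c.euler
  rw [Nat.card_eq_fintype_card, Nat.card_eq_fintype_card] at h8
  omega

omit [Fintype V] in
theorem Path.off {S : Finset V} {L i : ℕ} {p : ℕ → V} (a : m.Path S (L + 1) p) (l : i ≤ L + 1) :
    p i ∉ S := by
  rcases i with _ | i
  exacts [(a.gs 0 (by omega)).1, (a.gs i (by omega)).2.1]

omit [Fintype V] in
theorem Path.bal {S : Finset V} {L i : ℕ} {p : ℕ → V} (a : m.Path S L p) (l : i ≤ L) :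
    p i ∈ Bal (m.GS S) (p 0) i := by
  induction i with
  | zero => rfl
  | succ i ih => exact .inr ⟨_, ih (by omega), a.gs i (by omega)⟩

end Map

theorem sel_num {N Q D F x x1 x2 y y' s a b t : ℕ} (c0 : N ≤ Q * x) (c1 : x1 ≤ 2 * s * D)
    (c2 : x ≤ s + x1 + x2) (c3 : y' ≤ y) (cY : x2 ≤ y' * D) (cS : s ≤ b + 3 + t * 4) (D1 : 1 ≤ D)
    (hB : D ≤ F) (cH : (b + t) * (36 * (10 * a + 24) * Q * D) ≤ 36 * N) :
    N + 2 * Q * D * (a * (s + t)) ≤ 2 * Q * D * y + (6 * a + 18) * Q * F := by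
  have e1 := Nat.mul_le_mul_left ((6 * a + 18) * Q) hB
  have e2 := Nat.mul_le_mul_right D c3
  have e3 := Nat.mul_le_mul_left s D1
  have c5 : x ≤ D * (y + 3 * s) := by nlinarith
  have c6 := c0.trans (Nat.mul_le_mul_left _ c5)
  have e4 := Nat.mul_le_mul_left ((2 * a + 6) * (Q * D)) cS
  rw [← mul_assoc] at c6
  rw [mul_assoc _ Q D] at cH e1
  rw [mul_assoc 2]
  generalize Q * D = E at *
  have := Nat.zero_le (a * E * b)
  have := Nat.zero_le (E * b)
  nlinarith

open Map Scale in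
theorem sel (L e a : ℕ) : ∃ r C : ℕ, ∀ (V J Sg : Type) [Fintype V] [Finite J] (m : Map V J Sg),
    m.Ok → m.Cnt → m.Ends → ∃ S T Y p r', m.Sel (L + 1) e S T Y p ∧ 0 < r' ∧ r' ≤ r ∧
      Fintype.card V + r' * (a * (S.card + T.card)) ≤ r' * Y.card + C := by
  classical
  set d := 2 * L + 2 * e + 6 with hd
  set Q := 2 ^ (d + 1) with hQ
  let g : ℕ → ℕ := fun K => K + 2 + 36 * (10 * a + 24) * Q * (K + 1) ^ d
  obtain ⟨B, hB⟩ := scale d g (fun K K' l => by simp only [g]; gcongr) fun K => by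
    simp only [g]; omega
  refine ⟨2 * Q * (B + 1) ^ d, (6 * a + 18) * Q * (B + 1) ^ d, fun V J Sg _ _ m h c en => ?_⟩
  have := Fintype.ofFinite J
  obtain ⟨K, l, X', s, c0, loc⟩ := hB _ m.Inc (univ.image .inl)
  set H : Set (V ⊕ Sg) := {z | g K < (m.Inc z).card} with hH
  let HV : Finset V := univ.filter fun v => .inl v ∈ H
  let T : Finset Sg := (univ.image fun q : V × V => m.ln q.1 q.2).filter fun t => .inr t ∈ H
  have mT : ∀ t, t ∈ T ↔ .inr t ∈ H := fun t => by
    refine ⟨fun a => (mem_filter.1 a).2, fun a => mem_filter.2 ⟨?_, a⟩⟩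
    obtain ⟨_ | _, b⟩ := card_pos.1 (Nat.zero_lt_of_lt a)
    · obtain ⟨v, -, rfl⟩ := inc_rl.1 b
      exact mem_image.2 ⟨(_, v), mem_univ _, rfl⟩
    · simp [Inc] at b
  have cH : (HV.card + T.card) * (g K + 1) ≤ 36 * Fintype.card V := by
    rw [← card_disjSum]
    refine (card_nsmul_le_sum _ _ _ ?_).trans (c.inc_sum _)
    rintro (v | t) a
    exacts [(mem_filter.1 (inl_mem_disjSum.1 a)).2, (mT t).1 (inr_mem_disjSum.1 a)]
  let En : Finset V := T.biUnion fun t =>
    (univ.filter fun j => j ≠ m.inf ∧ m.stem j = t).biUnion fun j => {m.L j, m.R j}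
  have cE : En.card ≤ T.card * 4 := card_biUnion_le_card_mul _ _ _ fun t _ =>
    (card_biUnion_le_card_mul _ _ 2 fun _ _ => card_le_two).trans (by
      have := en t
      rw [Set.ncard_eq_toFinset_card', Set.toFinset_ofPred] at this
      omega)
  let S : Finset V := HV ∪ {m.L m.inf, m.R m.inf, m.X m.inf} ∪ En
  have cS : S.card ≤ HV.card + 3 + T.card * 4 := (card_union_le _ _).trans
    (Nat.add_le_add ((card_union_le _ _).trans (Nat.add_le_add_left card_le_three _)) cE)
  have bd : ∀ v, ¬ m.Bd v → v ∈ S := fun v a =>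
    mem_union_left _ (mem_union_right _ (by simpa [has] using not_not.1 a))
  have sH : ∀ v ∉ S, .inl v ∉ H := fun v a b =>
    a (mem_union_left _ (mem_union_left _ (mem_filter.2 ⟨mem_univ _, b⟩)))
  have nf : ∀ u v, m.GS S u v → m.ln u v ∉ T := fun u v ⟨a, _, j, f⟩ b => by
    have ji := (not_not.1 (mt (bd u) a)).ne_inf f.fc.has1
    exact a (mem_union_right _ (mem_biUnion.2 ⟨_, b, mem_biUnion.2 ⟨j, mem_filter.2
      ⟨mem_univ _, ji, (h.lines f ji).1.symm⟩, by simpa [cor] using f.fc.cor1⟩⟩))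
  have two : ∀ {n x u v t}, Near m.Inc H n x (.inl u) → u ∉ S → t ∉ T → m.OnL u t → m.OnL v t →
      Near m.Inc H (n + 2) x (.inl v) := fun a b e f f' =>
    (a.step (sH _ b) (inc_lr.2 f)).step (mt (mT _).2 e) (inc_rl.2 f')
  have near : ∀ {E : V → V → Prop}, (∀ u v, E u v → u ∉ S ∧ m.Adj u v) → ∀ v n w, w ∈ Bal E v n →
      Near m.Inc H n (.inl v) (.inl w) := by
    intro E hE v n
    induction n with
    | zero => rintro w rfl; rfl
    | succ n ih =>
      rintro w (a | ⟨u, a, b⟩)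
      exacts [.inl (ih w a), (ih u a).step (sH _ (hE _ _ b).1) (inc_ll.2 (hE _ _ b).2)]
  have gs : ∀ u v, m.GS S u v → u ∉ S ∧ m.Adj u v := fun u v ⟨a, _, _, f⟩ => ⟨a, h.adj12 f⟩
  obtain ⟨D, hD⟩ : ∃ D, D = (K + 1) ^ d := ⟨_, rfl⟩
  have hB' : D ≤ (B + 1) ^ d := by rw [hD]; gcongr
  have D1 : 1 ≤ D := hD ▸ Nat.one_le_pow _ _ (by omega)
  let P : V → Prop := fun v => ∃ p, p 0 = v ∧ m.Path S (L + 1) p
  let X1 : Finset V := univ.filter fun v => .inl v ∈ X' ∧ v ∉ S ∧ ¬ P v
  let X2 : Finset V := univ.filter fun v => .inl v ∈ X' ∧ v ∉ S ∧ P v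
  have c1 : X1.card ≤ 2 * S.card * D := c.small bd X1 fun v a => by
    obtain ⟨-, a1, a2, a3⟩ := mem_filter.1 a
    refine ⟨a2, le_trans ?_ (hD ▸ Bl_card (N := m.Inc) K d (.inl v))⟩
    rw [← Set.ncard_coe_finset]
    exact Set.ncard_le_ncard_of_injOn .inl (fun w b => mem_Bl
      (fun y q n => loc _ a1 y q (not_lt.1 n)) (Nat.le_succ d)
      ((near gs v L w ((m.path_or S L v).resolve_right a3 b)).le (by omega))) Sum.inl_injective.injOn
  have c2 : X'.card ≤ S.card + X1.card + X2.card := by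
    refine le_trans (card_le_card (t := (S ∪ X1 ∪ X2).image .inl) fun x a => ?_)
      (card_image_le.trans ((card_union_le _ _).trans (Nat.add_le_add_right (card_union_le _ _) _)))
    obtain ⟨v, -, rfl⟩ := mem_image.1 (s a)
    refine mem_image_of_mem _ ?_
    simp only [X1, X2, mem_union, mem_filter, mem_univ, a, true_and]
    tauto
  obtain ⟨Y', sY, cY, f⟩ := greedy (N := m.Inc) (H := H) (d := d) (K := K) inc_symm (X2.image .inl)
    (fun x a => by
      obtain ⟨v, b, rfl⟩ := mem_image.1 a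
      exact sH v (mem_filter.1 b).2.2.1) fun x a y q n => by
      obtain ⟨v, b, rfl⟩ := mem_image.1 a
      exact loc _ (mem_filter.1 b).2.1 y q (not_lt.1 n)
  let Y : Finset V := X2.filter fun v => .inl v ∈ Y'
  have c3 : Y'.card ≤ Y.card := le_trans (card_le_card (t := Y.image .inl) fun x a => by
    obtain ⟨v, b, rfl⟩ := mem_image.1 (sY a)
    exact mem_image_of_mem _ (mem_filter.2 ⟨b, a⟩)) card_image_le
  have ex : ∀ v, ∃ p : ℕ → V, v ∈ Y → p 0 = v ∧ m.Path S (L + 1) p := fun v => by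
    by_cases a : v ∈ Y
    · exact (mem_filter.1 (mem_filter.1 a).1).2.2.2.imp fun _ b _ => b
    · exact ⟨fun _ => v, fun b => absurd b a⟩
  choose p hp using ex
  refine ⟨S, T, Y, p, 2 * Q * D, ⟨bd, nf, fun j j' r a => ?_, fun y a => (hp y a).2,
    fun y a y' a' i l i' l' x u b uS t tT t' tT' o1 o2 o3 o4 => ?_, fun y a y' a' b => ?_⟩,
    by positivity, by gcongr, ?_⟩
  · have e : (m.Inc (.inr (m.stem j))).card ≤ 2 := by
      refine le_trans (card_le_card (t := {.inl (m.L j), .inl (m.R j)}) ?_) card_le_two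
      rintro (u | u) b
      · obtain ⟨v, b, e⟩ := inc_rl.1 b
        simpa [cor] using (h.rung j j' r u v b e).1
      · simp [Inc] at b
    have := (mT _).1 a
    simp only [hH, g, Set.mem_ofPred_eq] at this
    omega
  · have n1 := near gs _ _ _ ((hp y a).2.bal l)
    have n2 := (near gs _ _ _ ((hp y' a').2.bal l')).symm inc_symm (sH _ ((hp y' a').2.off l'))
    rw [(hp y a).1] at n1
    rw [(hp y' a').1] at n2
    exact Sum.inl_injective (f _ (mem_filter.1 a).2 _ (mem_filter.1 a').2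
      (((two ((two n1 ((hp y a).2.off l) tT o1 o2).trans (near (fun _ _ q => ⟨q.1, q.2.2⟩) _ _ _ b))
        uS tT' o3 o4).trans n2).le (by omega)))
  · have key : ∀ n w, w ∈ Bal (m.NS S T) y n → Near m.Inc H (2 * n) (.inl y) (.inl w) := by
      intro n
      induction n with
      | zero => rintro w rfl; rfl
      | succ n ih =>
        rintro w (q | ⟨u, q, uS, -, r | ⟨t, tT, o1, o2⟩⟩)
        exacts [(ih w q).le (by omega), ((ih u q).step (sH _ uS) (inc_ll.2 r)).le (by omega),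
          two (ih u q) uS tT o1 o2]
    rw [(hp y a).1, (hp y' a').1] at b
    exact Sum.inl_injective (f _ (mem_filter.1 a).2 _ (mem_filter.1 a').2 ((key _ _ b).le (by omega)))
  · rw [card_image_of_injective _ Sum.inl_injective] at cY c0
    rw [card_univ] at c0
    rw [← hD] at cY
    exact sel_num c0 c1 c2 c3 cY cS D1 hB' (le_trans (Nat.mul_le_mul_left _ (by
      simp only [g, ← hD]; omega)) cH)

end Pool.Agent.P.MP_5f84aa_co.G
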