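import Pool.Agent.P.MP_5f84aa_co.G.PG1
import Pool.Agent.P.MP_5f84aa_co.G.Geo3

/-! The global layer, part 2: valid cherries, and the final statement from the local lemma. -/

namespace Pool.Agent.P.MP_5f84aa_co.G

open Finset

namespace Map

variable {V J Sg : Type}

/-- `u` and `v` are the two halves of a rung -/
def Rn (m : Map V J Sg) (u v : V) : Prop := ∃ j j', m.far j j' ∧ m.GE j u v

/-- a valid cherry `x a y`; `P` are the hubs -/
structure Val (m : Map V J Sg) (P : V → Prop) (x a y : V) : Prop where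
  ne : x ≠ y
  xa : ∃ j, m.GE j x a
  ay : ∃ j, m.GE j a y
  xy : ∀ j, ¬ m.GE j x y
  ty : (m.Rn x a ∧ m.Rn a y) ∨ ∃ k c, m.Fc k x c a ∧ ∀ k', m.Fc k' a c y → P c

/-- the two pieces of a cherry -/
def Ch (x a y u v : V) : Prop := (u = a ∧ (v = x ∨ v = y)) ∨ (v = a ∧ (u = x ∨ u = y))

variable {m : Map V J Sg} {S : Finset V} {L : ℕ} {p : ℕ → V} {x y a : V}

theorem Val.mono {P P' : V → Prop} (v : m.Val P x a y) (e : ∀ c, P c → P' c) : m.Val P' x a y :=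
  ⟨v.ne, v.xa, v.ay, v.xy, v.ty.imp_right fun ⟨k, c, f, q⟩ => ⟨k, c, f, fun k' g => e c (q k' g)⟩⟩

/-- the second face of a corner pair -/
theorem Ok.second (h : m.Ok) {j : J} (bx : m.Bd x) (f : m.GE j x y) :
    m.Rn x y ∨ (∃ k c, m.Fc k x c y) ∨ ∃ k c, m.Fc k y c x := by
  have ne := (h.fc_ne f).1
  obtain ⟨k, d, o, -⟩ := h.other f.fc.on ne
  obtain ⟨w, a, b, t⟩ := h.third o ne
  rcases h.tri_cases t ne a.symm b.symm with g | g | g
  exacts [.inl ⟨j, k, h.far_of_fc bx d.symm f g, f⟩, .inr (.inr ⟨k, w, g⟩),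
    .inr (.inl ⟨k, w, g.symm⟩)]

/-- the symmetric form of a shortest path -/
structure Geo (m : Map V J Sg) (S : Finset V) (L : ℕ) (p : ℕ → V) : Prop where
  gs : ∀ i < L, m.GS S (p i) (p (i + 1))
  s2 : ∀ i, i + 2 ≤ L → p i ≠ p (i + 2) ∧ ¬ m.GS S (p i) (p (i + 2))
  s3 : ∀ i c, i + 3 ≤ L → m.GS S (p i) c → ¬ m.GS S c (p (i + 3))

theorem Path.geo (a : m.Path S L p) : m.Geo S L p :=
  ⟨a.gs, fun i l => ⟨fun e => by have := a.sh i (i + 2) 0 l e.symm; omega,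
    fun e => by have := a.sh i (i + 2) 1 l (.inr ⟨_, rfl, e⟩); omega⟩,
    fun i c l e e' => by have := a.sh i (i + 3) 2 l (.inr ⟨_, .inr ⟨_, rfl, e⟩, e'⟩); omega⟩

theorem Geo.rev (a : m.Geo S L p) : m.Geo S L fun i => p (L - i) := by
  refine ⟨fun i l => ?_, fun i l => ?_, fun i c l e e' => ?_⟩
  · obtain ⟨n, rfl⟩ : ∃ n, L = n + 1 + i := ⟨L - 1 - i, by omega⟩
    simpa [show n + 1 + i - (i + 1) = n by omega] using (a.gs n (by omega)).symm
  · obtain ⟨n, rfl⟩ : ∃ n, L = n + 2 + i := ⟨L - 2 - i, by omega⟩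
    have := a.s2 n (by omega)
    simp only [show n + 2 + i - (i + 2) = n by omega, show n + 2 + i - i = n + 2 by omega]
    exact ⟨this.1.symm, fun e => this.2 e.symm⟩
  · obtain ⟨n, rfl⟩ : ∃ n, L = n + 3 + i := ⟨L - 3 - i, by omega⟩
    simp only [show n + 3 + i - (i + 3) = n by omega, show n + 3 + i - i = n + 3 by omega] at e e'
    exact a.s3 n c (by omega) e'.symm e.symm

theorem Geo.val (a : m.Geo S L p) {i : ℕ} (l : i + 2 ≤ L)
    (ty : (m.Rn (p i) (p (i + 1)) ∧ m.Rn (p (i + 1)) (p (i + 2))) ∨ ∃ k c,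
      m.Fc k (p i) c (p (i + 1)) ∧ ∀ k', m.Fc k' (p (i + 1)) c (p (i + 2)) → c ∈ S) :
    m.Val (· ∈ S) (p i) (p (i + 1)) (p (i + 2)) :=
  ⟨(a.s2 i l).1, (a.gs i (by omega)).2.2, (a.gs (i + 1) (by omega)).2.2, fun j g =>
    (a.s2 i l).2 ⟨(a.gs i (by omega)).1, (a.gs (i + 1) (by omega)).2.1, j, g⟩, ty⟩

theorem Geo.fw (a : m.Geo S L p) {i : ℕ} (l : i + 4 ≤ L) (f : ∃ k c, m.Fc k (p i) c (p (i + 1))) :
    ∃ n, n + 2 ≤ L ∧ m.Val (· ∈ S) (p n) (p (n + 1)) (p (n + 2)) := by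
  by_contra q
  obtain ⟨k, c, f⟩ := f
  have key : ∀ n k, n + 2 ≤ L → m.Fc k (p n) c (p (n + 1)) →
      c ∉ S ∧ ∃ k', m.Fc k' (p (n + 1)) c (p (n + 2)) := fun n k l f => by
    by_contra r
    exact q ⟨n, l, a.val l (.inr ⟨k, c, f, fun k' g => by_contra fun e => r ⟨e, k', g⟩⟩)⟩
  obtain ⟨cS, k1, f1⟩ := key i k (by omega) f
  obtain ⟨-, k2, f2⟩ := key (i + 1) k1 (by omega) f1
  obtain ⟨-, k3, f3⟩ := key (i + 2) k2 (by omega) f2
  exact a.s3 i c (by omega) ⟨(a.gs i (by omega)).1, cS, k, f.ge⟩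
    ⟨cS, (a.gs (i + 3) (by omega)).1, k3, f3.ge.symm⟩

/-- a shortest path with eight edges contains a valid cherry -/
theorem Geo.cherry (h : m.Ok) (bd : ∀ v, ¬ m.Bd v → v ∈ S) (a : m.Geo S 8 p) :
    ∃ i ≤ 8, ∃ k ≤ 8, ∃ l ≤ 8, m.Val (· ∈ S) (p i) (p k) (p l) := by
  have e : ∀ i, i = 3 ∨ i = 4 → (∃ i ≤ 8, ∃ k ≤ 8, ∃ l ≤ 8, m.Val (· ∈ S) (p i) (p k) (p l)) ∨
      m.Rn (p i) (p (i + 1)) := fun i hi => by
    obtain ⟨n, -, j, g⟩ := a.gs i (by omega)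
    rcases h.second (not_not.1 (mt (bd _) n)) g with r | f | f
    · exact .inr r
    · obtain ⟨n, l, v⟩ := a.fw (by omega) f
      exact .inl ⟨_, by omega, _, by omega, _, l, v⟩
    · obtain ⟨n, l, v⟩ := a.rev.fw (i := 7 - i) (by omega) (by
        simpa [show 8 - (7 - i) = i + 1 by omega, show 8 - (7 - i + 1) = i by omega] using f)
      exact .inl ⟨_, by omega, _, by omega, _, by omega, v⟩
  rcases e 3 (.inl rfl) with q | r
  · exact q
  rcases e 4 (.inr rfl) with q | r'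
  · exact q
  exact ⟨3, by omega, 4, by omega, 5, by omega, a.val (by omega) (.inl ⟨r, r'⟩)⟩

/-- free lines cost one light each -/
theorem HSt.cost_lines [Finite V] (h : m.Ok) {U : Finset V} {W : V → V → Prop} (s : m.HSt U W)
    (T : Finset Sg) : m.cost (fun u v => W u v ∧ m.ln u v ∈ T) ≤ T.card := by
  classical
  induction T using Finset.induction_on with
  | empty => exact (cost_zero (by simp)).le
  | insert t T n ih =>
    have e : m.cost (fun u v => W u v ∧ m.ln u v = t) ≤ 1 := by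
      by_cases c : ∃ u v, W u v ∧ m.ln u v = t
      · obtain ⟨u, v, w, rfl⟩ := c
        obtain ⟨-, k, o⟩ := s.adj _ _ w
        exact cost_hug (k := k) ((s.bd _ (s.mem _ _ w)).ne_inf o.1) fun a b q =>
          q.2 ▸ s.hug_run h w o (.refl _ _ _)
      · exact (cost_zero fun u v q => c ⟨u, v, q⟩).le.trans (by omega)
    have := cost_union (m := m) (W := fun u v => W u v ∧ m.ln u v ∈ insert t T)
      (W₁ := fun u v => W u v ∧ m.ln u v = t) (W₂ := fun u v => W u v ∧ m.ln u v ∈ T)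
      fun u v q => (mem_insert.1 q.2).imp (⟨q.1, ·⟩) (⟨q.1, ·⟩)
    rw [card_insert_of_notMem n]
    omega

end Map

open Map

/-- The local lemma: no state is confined at a valid cherry. -/
def S_LOC : Prop := ∃ d : ℕ, ∀ (V J Sg : Type) [Fintype V] [Fintype J] [DecidableEq V]
  (m : Map V J Sg), m.Ok3 → m.Ends → ∀ x a y U W μ, m.Val (μ · ≠ 1) x a y →
    ¬ m.Conf d U W (Ch x a y) (fun W => ∀ u v, Ch x a y u v → W u v) a μ

/-- The combinatorial layer, fourth form. -/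
def S_COMB4 : Prop := ∃ δ : ℝ, 0 < δ ∧ ∃ C : ℝ,
  ∀ (V J Sg : Type) [Fintype V] [Fintype J] (m : Map V J Sg), m.Ok3 → m.Ends →
    ∃ M F sh, m.Cover M F sh ∧ ((M.card : ℝ) + F.card) ≤ (1 / 2 - δ) * Fintype.card V + C

theorem comb4 (H : S_LOC) : S_COMB4 := by
  classical
  obtain ⟨d, H⟩ := H
  obtain ⟨r, C, hs⟩ := sel 7 d (2 * d + 2)
  refine ⟨1 / (2 * (r + 1)), by positivity, C + 3, fun V J Sg _ _ m ok en => ?_⟩
  have h := ok.ok.toOk
  have c := ok.ok.toCnt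
  obtain ⟨S, T, Y, p, r', se, r0, r1, cnt⟩ := hs V J Sg m h c en
  have ex : ∀ y, ∃ q : V × V × V, y ∈ Y → m.Val (· ∈ S) q.1 q.2.1 q.2.2 ∧
      ∀ u, u = q.1 ∨ u = q.2.1 ∨ u = q.2.2 → u ∉ S ∧ ∃ i ≤ 8, u = p y i := fun y => by
    by_cases a : y ∈ Y
    · obtain ⟨i, a1, k, a2, l, a3, v⟩ := (se.pa y a).geo.cherry h se.bd
      refine ⟨(_, _, _), fun _ => ⟨v, ?_⟩⟩
      rintro u (rfl | rfl | rfl)
      exacts [⟨(se.pa y a).off a1, i, a1, rfl⟩, ⟨(se.pa y a).off a2, k, a2, rfl⟩,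
        ⟨(se.pa y a).off a3, l, a3, rfl⟩]
    · exact ⟨(y, y, y), fun b => absurd b a⟩
  choose q hq using ex
  have gs : ∀ y ∈ Y, ∀ u v, Ch (q y).1 (q y).2.1 (q y).2.2 u v →
      m.GS S u v ∧ ∃ i ≤ 8, u = p y i := fun y a u v t => by
    obtain ⟨va, e⟩ := hq y a
    have hu := e u (by unfold Ch at t; tauto)
    refine ⟨⟨hu.1, (e v (by unfold Ch at t; tauto)).1, ?_⟩, hu.2⟩
    rcases t with ⟨rfl, rfl | rfl⟩ | ⟨rfl, rfl | rfl⟩
    exacts [va.xa.imp fun _ => GE.symm, va.ay, va.xa, va.ay.imp fun _ => GE.symm]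
  have ad : ∀ {u v}, m.GS S u v → m.Adj u v := fun ⟨_, _, _, f⟩ => h.adj12 f
  have inj : ∀ y ∈ Y, ∀ y' ∈ Y, (q y).2.1 = (q y').2.1 → y = y' := fun y a y' a' e => by
    obtain ⟨g, i, l, e1⟩ := gs y a _ _ (.inl ⟨rfl, .inl rfl⟩)
    obtain ⟨-, i', l', e2⟩ := gs y' a' _ _ (.inl ⟨rfl, .inl rfl⟩)
    have o := (ad g).onL
    exact se.far y a y' a' i l i' l' _ _ (Bal.mono d.zero_le rfl) g.1 _ (se.nf _ _ g) _ (se.nf _ _ g)
      (e1 ▸ o) o o (by rw [← e2, ← e]; exact o)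
  let Q : V → V → V → Prop := fun c u v => ∃ y ∈ Y, (q y).2.1 = c ∧ Ch (q y).1 c (q y).2.2 u v
  let z : ZS V Sg := ⟨{c | ∃ y ∈ Y, (q y).2.1 = c}, Q, fun c W => ∀ u v, Q c u v → W u v, T,
    fun v => if v ∈ S then 2 * d + 3 else 1⟩
  have w1 : ∀ v, z.ω v = 1 ↔ v ∉ S := fun v => by by_cases a : v ∈ S <;> simp [z, a]
  have o : z.Ok m := by
    refine ZS.ok_fix (fun _ _ => .rfl) (fun v => by by_cases a : v ∈ S <;> simp [z, a])
      (fun c u v ⟨y, a, e, t⟩ => ⟨y, a, e, t.symm⟩) ?_ ?_ ?_ ?_ ?_ se.rg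
    · rintro _ - u v ⟨y, a, rfl, t⟩
      exact ad (gs y a u v t).1
    · rintro _ ⟨y, a, rfl⟩
      exact ⟨_, y, a, rfl, .inl ⟨rfl, .inl rfl⟩⟩
    · rintro c - K cK cl u ⟨v, y, a, e, ⟨rfl, -⟩ | ⟨rfl, t⟩⟩
      exacts [cK, cl _ _ ⟨y, a, e, .inl ⟨rfl, t⟩⟩ cK]
    · rintro _ - u ⟨v, y, a, rfl, t⟩
      exact (w1 u).2 (gs y a u v t).1.1
    · rintro _ - u v ⟨y, a, rfl, t⟩
      exact se.nf _ _ (gs y a u v t).1
  have nr : ∀ x n u, z.Nr m x n u → u ∈ Bal (m.AS S) x n := fun x n => by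
    induction n with
    | zero => exact fun u a => a.1
    | succ n ih =>
      rintro u (a | ⟨y, a, b, e⟩)
      exacts [.inl (ih u a), .inr ⟨y, ih y a, (w1 _).1 a.light, (w1 _).1 e, b⟩]
  have fa : z.Far m d := by
    refine ⟨fun v => by by_cases a : v ∈ S <;> simp [z, a], ?_⟩
    rintro _ - _ - u x u' u'' t t' ⟨v, y, a, rfl, b⟩ ⟨v', y', a', rfl, b'⟩ n tT tT' o1 o2 o3 o4
    obtain ⟨-, i, l, rfl⟩ := gs y a _ _ b
    obtain ⟨-, i', l', rfl⟩ := gs y' a' _ _ b'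
    rw [se.far y a y' a' i l i' l' x u' (nr _ _ _ n) ((w1 _).1 n.light) t tT t' tT' o1 o2 o3 o4]
  let U : Finset V := univ.filter m.Bd
  have mU : ∀ v, v ∈ U ↔ m.Bd v := by simp [U]
  have s : m.HSt U (m.Ins U) := h.hst (fun v => (mU v).1) fun A a cl v n => by
    have n' : m.has m.inf v := not_not.1 (mt (mU v).2 n)
    by_cases e : m.L m.inf = v
    exacts [e ▸ a, cl _ a v ⟨e, _, .inl rfl, n'⟩ n]
  have bU : ∀ v ∉ S, v ∈ U := fun v a => (mU v).2 (not_not.1 (mt (se.bd v) a))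
  have key := ZS.claim (z := z) (m := m) (A := Y.image fun y => (q y).2.1) (fun A U W n => by
      obtain ⟨_, ⟨y, a, rfl⟩, cf⟩ := n.conf h o fa c.face
      have e : Q (q y).2.1 = Ch (q y).1 (q y).2.1 (q y).2.2 := by
        ext u v
        exact ⟨fun ⟨y', a', e, t⟩ => by rwa [inj y' a' y a e] at t, fun t => ⟨y, a, rfl, t⟩⟩
      refine H V J Sg m ok en _ _ _ U W _ ((hq y a).1.mono fun c b => ?_) (by
        simpa only [z, e] using cf)
      simp only [ZS.mu, z, b, if_true]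
      omega) s (fun c a => by simpa [z] using a) fun c a => by
    rintro u v ⟨y, b, rfl, t⟩
    have g := (gs y b u v t).1
    exact ⟨ad g, bU _ g.1, bU _ g.2.1⟩
  rw [card_image_of_injOn fun y a y' a' => inj y a y' a'] at key
  have e1 : z.wt U ≤ Fintype.card V + (2 * d + 2) * S.card := by
    calc z.wt U ≤ ∑ v, z.ω v := sum_le_sum_of_subset (subset_univ _)
      _ = ∑ v, (1 + if v ∈ S then 2 * d + 2 else 0) := sum_congr rfl fun v _ => by
        by_cases a : v ∈ S <;> simp [z, a]; omega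
      _ = _ := by simp [sum_add_distrib, mul_comm]
  have e2 : m.cost m.Adj ≤ m.cost (fun u v => m.Adj u v ∧ ¬ m.Ins U u v) + m.cost (m.Ins U) :=
    cost_union fun u v a => by tauto
  have e3 : m.cost (fun u v => m.Adj u v ∧ ¬ m.Ins U u v) ≤ 3 :=
    (cost_cells {m.L m.inf, m.R m.inf, m.X m.inf} fun u v a => by
      have := a.1
      have := a.2
      simp only [Ins, mU, Bd, has, mem_insert, mem_singleton] at *
      tauto).trans card_le_three
  have e4 : m.cost (m.Ins U) ≤ m.cost (fun u v => m.Ins U u v ∧ m.ln u v ∈ T) + z.cst m (m.Ins U) :=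
    cost_union fun u v a => by simp only [z, mem_coe]; tauto
  have e5 := s.cost_lines h T
  obtain ⟨M, F, sh, cv, cd⟩ := m.cover_cost
  refine ⟨M, F, sh, cv, ?_⟩
  have e6 : 2 * (M.card + F.card) + Y.card ≤
      Fintype.card V + (2 * d + 2) * (S.card + T.card) + 6 := by nlinarith
  have e7 : (r + 1) * (2 * (M.card + F.card)) + Fintype.card V ≤
      (r + 1) * (Fintype.card V + 6 + 2 * C) := by
    obtain ⟨t, rfl⟩ := Nat.exists_eq_add_of_le r1
    have e8 : (2 * d + 2) * (S.card + T.card) ≤ Y.card + C := by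
      refine Nat.le_of_mul_le_mul_left ?_ r0
      nlinarith
    have := Nat.mul_le_mul_left r' e6
    have := Nat.mul_le_mul_left (t + 1) (show 2 * (M.card + F.card) ≤ Fintype.card V + 6 + C by omega)
    nlinarith
  have e9 : ((r : ℝ) + 1) * (2 * (M.card + F.card)) + Fintype.card V ≤
      (r + 1) * (Fintype.card V + 6 + 2 * C) := by exact_mod_cast e7
  have e0 : (0 : ℝ) < r + 1 := by positivity
  rw [← sub_nonneg]
  have : (1 / 2 - 1 / (2 * ((r : ℝ) + 1))) * Fintype.card V + (C + 3) - (M.card + F.card) =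
      ((r + 1) * (Fintype.card V + 6 + 2 * C) - ((r + 1) * (2 * (M.card + F.card)) +
        Fintype.card V)) / (2 * (r + 1)) := by
    field_simp
    ring
  rw [this]
  exact div_nonneg (by linarith) (by positivity)

theorem ends (R : ℝ) (E : Finset Bar) : (mp R E).Ends := fun t => by
  refine (Set.ncard_le_ncard_of_injOn (t := Set.univ) (fun j : JJ E => j.1.elim true Prod.snd)
    (by simp) ?_).trans (by simp)
  rintro j ⟨a, b⟩ k ⟨a', b'⟩ e
  rcases JJ.cases R j with rfl | ⟨j, hj, rfl⟩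
  · exact absurd rfl a
  rcases JJ.cases R k with rfl | ⟨k, hk, rfl⟩
  · exact absurd rfl a'
  exact fc_inj.2 (Prod.ext (b.trans b'.symm) e)

theorem final4 (h : S_COMB4) : ∃ δ : ℝ, 0 < δ ∧ ∃ C : ℝ, ∀ (n : ℕ) (a b : Fin n → Fin 2 → ℝ),
    (Pairwise fun i j => Disjoint (segment ℝ (a i) (b i)) (segment ℝ (a j) (b j))) →
    ∃ S : Finset (Fin 2 → ℝ), (S.card : ℝ) ≤ (1 / 2 - δ) * n + C ∧
      (∀ x ∈ S, ∀ i, x ∉ segment ℝ (a i) (b i)) ∧
      ∀ i, ∀ q ∈ segment ℝ (a i) (b i), ∃ x ∈ S, ∀ j,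
        Disjoint (openSegment ℝ x q) (segment ℝ (a j) (b j)) := by
  obtain ⟨δ, hδ, C, G⟩ := h
  refine ⟨min δ (1 / 4), lt_min hδ (by norm_num), C + 2, fun n a b hd => ?_⟩
  obtain ⟨R, E, H, hc, γ, hγ, hw⟩ := a_SYS n a b hd
  have h2 := (a_OK R E H).2.1
  let i1 : Fintype (VV R E) := Fintype.ofFinite _
  let i2 : Fintype (JJ E) := Fintype.ofFinite _
  obtain ⟨M, F, sh, cv, cd⟩ := G _ _ _ (mp R E) (ok3 H) (ends R E)
  obtain ⟨S, s1, s2, s3⟩ := a_LIGHT R E H γ hγ M F sh cv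
  refine ⟨S, ?_, fun x hx i hi => ?_, fun i q hq => ?_⟩
  · have e1 : (S.card : ℝ) ≤ M.card + F.card := by exact_mod_cast s1
    have e2 : (Fintype.card (VV R E) : ℝ) ≤ n + 4 := by
      rw [← Nat.card_eq_fintype_card]; exact_mod_cast (by omega)
    have e3 : (0 : ℝ) ≤ Fintype.card (VV R E) := Nat.cast_nonneg _
    have e4 := min_le_left δ (1 / 4)
    have e5 := min_le_right δ (1 / 4)
    have e6 := lt_min hδ (show (0 : ℝ) < 1 / 4 by norm_num)
    nlinarith [mul_le_mul_of_nonneg_right e4 e3,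
      mul_le_mul_of_nonneg_left e2 (show 0 ≤ 1 / 2 - min δ (1 / 4) by linarith)]
  · obtain ⟨w, hw1, hw2⟩ := hw i
    exact s2 x hx w hw1 ((hw2 x hi).isIn hγ).cl
  · obtain ⟨w, hw1, hw2⟩ := hw i
    obtain ⟨x, hx, hs⟩ := s3 w hw1 q (hw2 q hq)
    refine ⟨x, hx, fun j => Set.disjoint_left.2 fun z hz hz' => ?_⟩
    obtain ⟨w', hw1', hw2'⟩ := hw j
    exact hs z hz w' hw1' (hw2' z hz')

end Pool.Agent.P.MP_5f84aa_co.G
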