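import Pool.Agent.P.MP_5f84aa_co.G.PRd

/-! The local lemma at a cell with two rungs. -/

namespace Pool.Agent.P.MP_5f84aa_co.G

theorem s_rr (G : Cls) : S_RR G :=
  ⟨1, fun _ _ _ _ _ _ _ ok _ _ _ _ _ _ _ _ _ _ ne rx ry => Map.loc_rr ok.ok.toOk ok.ok.toExt ne rx ry⟩

end Pool.Agent.P.MP_5f84aa_co.G
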