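import Pool.Agent.P.MP_5f84aa_co.G.PH
import Pool.Agent.P.MP_5f84aa_co.G.PF

/-! The zone with two rungs, part A: arcs between open faces, attached walls on given lines. -/

namespace Pool.Agent.P.MP_5f84aa_co.G

namespace Map

variable {V J Sg : Type} (m : Map V J Sg)

/-- the arc of a wall: the part of its run that passes only solid faces -/
abbrev Ar (W : V → V → Prop) : V → V → V → V → Prop := m.Arc W {j | ¬ m.Sol W j}

/-- the arc has an open face -/
def ArA (W : V → V → Prop) (p q : V) : Prop :=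
  ∃ u v e, m.Ar W p q u v ∧ m.On e u v ∧ ¬ m.Sol W e

/-- the attached walls on the lines of `S` -/
def AtL (W : V → V → Prop) (S : Sg → Prop) (u v : V) : Prop :=
  W u v ∧ m.Att W u v ∧ S (m.ln u v)

variable {m} {W ρ : V → V → Prop} {N : Set J} {U D K : Finset V} {S : Sg → Prop}
  {a b p q u v w x y z u' v' : V} {e g i j k j' k' : J} {t : Sg}

theorem ArA.att (c : m.ArA W p q) : m.Att W p q :=
  let ⟨u, v, e, r, o⟩ := c; ⟨u, v, e, r.run, o⟩

theorem Out.ara (o : m.Out W u v) : m.ArA W u v :=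
  let ⟨_, e, a, b⟩ := o; ⟨u, v, e, .refl _ _ _ _, a, b⟩

theorem ra_out (c : m.Spl {j | m.Sol W j} u v) : m.Out W u v :=
  let ⟨d, _, j', o, o', a, b⟩ := c; ⟨a u v d o, j', o', b⟩

/-- three corners of a chain of rungs on one line are not different -/
theorem Ok.ra_two [Finite J] (h : m.Ok) {R : Set J}
    (a : j ≠ m.inf ∧ ¬ m.Rg R j ∧ (∃ w, m.RC R v w ∧ m.cor j w) ∧ m.hug j t)
    (b : j' ≠ m.inf ∧ ¬ m.Rg R j' ∧ (∃ w, m.RC R v w ∧ m.cor j' w) ∧ m.hug j' t)
    (c : k ≠ m.inf ∧ ¬ m.Rg R k ∧ (∃ w, m.RC R v w ∧ m.cor k w) ∧ m.hug k t) (d : j ≠ j') :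
    k = j ∨ k = j' := by
  by_contra hn
  push Not at hn
  have := h.rside R v t
  have h3 := (Set.two_lt_ncard_iff (s := {j | j ≠ m.inf ∧ ¬ m.Rg R j ∧
    (∃ w, m.RC R v w ∧ m.cor j w) ∧ (m.stem j = t ∨ m.bar j = t)})).2
    ⟨j, j', k, a, b, c, d, hn.1.symm, hn.2.symm⟩
  omega

namespace HSt

variable (h : m.Ok) (s : m.HSt U W)
include h s

omit s in
theorem ra_sw (so : m.Sol W j) (f : m.Fc j x y z) : W x y ∧ W x z ∧ W y z :=
  let ⟨a, b, c⟩ := h.fc_ne f
  ⟨so _ _ a f.on, so _ _ b ⟨f.has1, f.has3⟩, so _ _ c ⟨f.has2, f.has3⟩⟩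

theorem ra_inf (so : m.Sol W j) : j ≠ m.inf :=
  (s.bd _ (s.mem _ _ (ra_sw h so (fc_self j)).1)).ne_inf (.inl rfl)

theorem ra_cut [Finite V] [Finite J] (sρ : ∀ u v, ρ u v → ρ v u) (ev : ∀ j, m.Sol W j → m.Ev ρ j)
    (a : V) : ∃ Z : Set V, a ∉ Z ∧ ∀ u v, W u v → (ρ u v ↔ ¬ (u ∈ Z ↔ v ∈ Z)) := by
  obtain ⟨Z, hZ⟩ := h.cut (o := m.inf) s.sym s.adj sρ fun G iG sp j hj =>
    ev j (by_contra fun c => hj (s.con G iG sp j c))
  by_cases c : a ∈ Z
  · exact ⟨Zᶜ, fun n => n c, fun u v w => by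
      rw [hZ u v w, Set.mem_compl_iff, Set.mem_compl_iff]; tauto⟩
  · exact ⟨Z, c, hZ⟩

theorem ra_ara (w : W p q) (c : m.ArA W p q) (r : m.Ar W p q u v) : m.ArA W u v :=
  let ⟨x, y, e, r', o⟩ := c; ⟨x, y, e, (s.arc_symm h r w).trans r', o⟩

/-- the step of an arc passes a face along its bar -/
theorem ra_fc (w : W x y) (n : z ≠ x) (w' : W z y) (l : m.ln z y = m.ln x y) (t : m.Tri j x z y) :
    m.Fc j x z y :=
  h.fc_of_line ((s.bd _ (s.mem _ _ w)).ne_inf t.1) t n (s.adj _ _ w).1 (s.adj _ _ w').1 l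

/-- the end of a line is an end of the arc -/
theorem ra_stem (w : W a b) (f : m.Fc j x y z) (r : m.Arc W N a b x y) :
    ¬ m.Ev (m.Arc W N a b) j := by
  rw [ev_iff (fun _ _ => Arc.swap) f]
  have := s.arc_stem h w f r
  have := s.arc_stem h w f.symm r.swap
  tauto

/-- a solid end of an arc is the end of the line -/
theorem ra_sol (o : ¬ m.Ev (m.Arc W N a b) j) (so : m.Sol W j) (n : j ∉ N) :
    ∃ x y z, m.Fc j x y z ∧ m.Arc W N a b x y := by
  rcases s.arc_odd h o with q | ⟨x, y, z, f, -, -, q | q⟩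
  exacts [q, absurd q n, absurd (ra_sw h so f).2.2 q]

variable [Finite V] [Finite J]

/-- a stop face contains only one piece of the arc -/
theorem ra_uniq (w : W a b) (jN : j ∈ N) (r : m.Arc W N a b u v) (r' : m.Arc W N a b u' v')
    (o : m.On j u v) (o' : m.On j u' v') : (u' = u ∧ v' = v) ∨ (u' = v ∧ v' = u) := by
  obtain ⟨-, -, -, -, e⟩ := s.arc_ends h N w
  have e1 := e j jN _ _ _ (fc_self j)
  have e2 := s.arc_stem h (N := N) w (fc_self j)
  have e3 := s.arc_stem h (N := N) w (fc_self j).symm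
  have n := (s.adj _ _ (s.arc_w h r w).1).1
  have n' := (s.adj _ _ (s.arc_w h r' w).1).1
  have r1 := r.swap
  have r2 := r'.swap
  obtain ⟨rfl | rfl | rfl, rfl | rfl | rfl⟩ := o <;>
    obtain ⟨rfl | rfl | rfl, rfl | rfl | rfl⟩ := o' <;> tauto

/-- an arc with a solid end has one open face, and the other solid faces are even -/
theorem ra_one (w : W a b) (so : m.Sol W g) (f : m.Fc g x y z) (r : m.Ar W a b x y)
    (r1 : m.Ar W a b u v) (o : m.On e u v) (op : ¬ m.Sol W e) :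
    (∀ j, m.Sol W j → j ≠ g → m.Ev (m.Ar W a b) j) ∧
      ∀ u' v' e', m.Ar W a b u' v' → m.On e' u' v' → ¬ m.Sol W e' → e' = e := by
  have o1 := s.ra_stem h w f r
  have o2 := s.arc_end h w (j := e) op r1 o
  have ne : g ≠ e := fun q => op (q ▸ so)
  refine ⟨fun j sj n => by_contra fun q => ?_, fun u' v' e' r' o' op' => ?_⟩
  · rcases s.arc_three h w o1 o2 q ne with rfl | rfl
    exacts [n rfl, op sj]
  · exact (s.arc_three h w o1 o2 (s.arc_end h w (j := e') op' r' o') ne).resolve_left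
      fun q => op' (q ▸ so)

/-- the second outer wall of a cell on an arc with a solid end -/
theorem ra_second (so : m.Sol W g) (f : m.Fc g x y z) (ou : m.Out W u v) (r : m.Ar W u v x y) :
    ∃ v', m.Out W u v' ∧ ¬ m.Ar W u v u v' := by
  obtain ⟨w, e, o, op⟩ := ou
  have d := (s.adj _ _ w).1
  obtain ⟨-, one⟩ := s.ra_one h w so f r (.refl _ _ _ _) o op
  obtain ⟨i, ne, oi, -⟩ := h.other o d
  obtain ⟨v', n, sp⟩ := h.lk2 (F := {j | m.Sol W j}) (v := u) (w := v)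
    ⟨d, i, e, oi, o, by_contra fun q => ne (one u v i (.refl _ _ _ _) oi q), op⟩
  refine ⟨v', ra_out sp, fun r' => ?_⟩
  obtain ⟨-, e', o', op'⟩ := ra_out sp
  obtain rfl := one u v' e' r' o' op'
  rcases s.ra_uniq h w (j := e') op (.refl _ _ _ _) r' o o' with q | q
  exacts [n q.2, d q.1]

omit [Finite V] [Finite J] in
/-- removal of cells and of the attached walls on some lines -/
theorem ra_del [DecidableEq V]
    (rr : ∀ j j', m.far j j' → S (m.stem j) → m.L j ∈ D ∨ m.R j ∈ D)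
    (ch : ∀ G : Set J, (∀ j, ¬ m.Sol W j → j ∈ G) →
      (∀ d ∈ D, ∀ j j', m.has j d → m.has j' d → j ∈ G → j' ∈ G) →
      (∀ u v j, m.AtL W S u v → m.On j u v → j ∈ G) → ∀ d ∈ D, ∃ j ∈ G, m.has j d) :
    m.HSt (U \ D) (Del W D (m.AtL W S)) := by
  refine s.del h (fun u v r => ⟨s.sym _ _ r.1, r.2.1.swap, h.ln_symm u v ▸ r.2.2⟩)
    (fun u v r => (s.adj _ _ r.1).1) (fun j j' f r => rr j j' f (h.lnLR j f.2.1 ▸ r.2.2))
    fun G op c cr => ?_
  have all : ∀ u v j, m.AtL W S u v → m.On j u v → j ∈ G := fun u v j r o => by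
    obtain ⟨p, q, i, r0, o0, n0⟩ := r.2.1
    exact s.run_faces' h r.1 (fun x y j j' t => cr x y j j' ⟨(s.run_w h t r.1).1,
      s.att_of h r.1 r.2.1 t, (s.run_w h t r.1).2 ▸ r.2.2⟩) r0 o0 (op i n0) (.refl _ _ _) j o
  exact ⟨ch G op c all, all⟩

omit s [Finite V] [Finite J] in
/-- a rung on a line of a junction joins the corners of the junction -/
theorem ra_rr (f : m.Fc k x y z) (ki : k ≠ m.inf) (r : m.far j j') (g : m.hug k (m.stem j)) :
    m.L j = x ∨ m.R j = x := by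
  rcases g with g | g
  · rcases (h.rung j j' r x y (h.adj12 f) ((h.lines f ki).1.trans g)).1 with q | q
    exacts [.inl q.symm, .inr q.symm]
  · exact absurd g.symm (h.far_not_bar r ki)

end HSt

theorem Cn.ra_mc [DecidableEq V] [Finite V] {d r : ℕ} {T : Set Sg} {Q : V → V → Prop}
    (s : m.HSt U W) (ft : ∀ x ∈ D, m.Fp d T W Q x) (st : m.HSt (U \ D) (Del W D (m.AtL W S)))
    (cs : m.cost (Gone W D (m.AtL W S)) ≤ r) : m.Mc (m.Fp d T W Q) T U W D (m.AtL W S) r :=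
  ⟨ft, fun p q w t => .inr ⟨p, .inl (Fe.mono (d := 0) ⟨q, w, t.2.1⟩ d.zero_le), (s.adj _ _ w).onL⟩,
    st, costT_le.trans cs⟩

end Map

end Pool.Agent.P.MP_5f84aa_co.G
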