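import Pool.Agent.P.MP_5f84aa_co.G.PRa
import Pool.Agent.P.MP_5f84aa_co.G.PG3

/-! The zone with two rungs, part B: moves, cuts. -/

namespace Pool.Agent.P.MP_5f84aa_co.G

namespace Map

variable {V J Sg : Type}

/-- the three cells of the zone -/
def Th (b a y v : V) : Prop := v = b ∨ v = a ∨ v = y

/-- a state that is confined at a cell `a` with two rungs -/
structure RR [DecidableEq V] (m : Map V J Sg) (T : Set Sg) (N : V → Prop) (U : Finset V)
    (W : V → V → Prop) (μ : V → ℕ) (b a y : V) : Prop where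
  h : m.Ok
  no2 : ∀ j k, j ≠ m.inf → k ≠ m.inf → m.stem j = m.bar k → m.bar j ≠ m.stem k
  c : m.Cn 1 T N U W (Ch b a y) (fun W => W a b ∧ W a y) a μ
  ne : b ≠ y
  rb : m.Rn a b
  ry : m.Rn a y

/-- the rungs inside the zone and the rungs with two solid ends off the zone -/
def Lad (m : Map V J Sg) (W : V → V → Prop) (b a y : V) : Set J :=
  {j | (Th b a y (m.L j) ∧ Th b a y (m.R j)) ∨ (¬ Th b a y (m.L j) ∧ ¬ Th b a y (m.R j) ∧
    m.Sol W j ∧ ∀ j', m.far j j' → m.Sol W j')}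

/-- a cell off the zone whose walls form the arc of `v u` -/
def Tok (m : Map V J Sg) (W : V → V → Prop) (b a y v u : V) : Prop :=
  ¬ Th b a y v ∧ (∀ w, W v w → m.Ar W v u v w) ∧
    ∀ p q, m.Ar W v u p q → (p = v ∧ Th b a y q) ∨ (q = v ∧ Th b a y p)

variable {m : Map V J Sg} {T : Set Sg} {N : V → Prop} {U D K : Finset V} {W W' : V → V → Prop}
  {μ : V → ℕ} {a b y p q u v w x z p' q' x' : V} {e g i j k j' k' : J} {t : Sg}

theorem th_symm : Th y a b = Th b a y := by funext v; simp only [Th, eq_iff_iff]; tauto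

theorem HSt.ra_rn (s : m.HSt U W) (c : m.Rn u v) (hu : u ∈ U) (hv : v ∈ U) : W u v := by
  obtain ⟨j, j', f, ⟨rfl, rfl⟩ | ⟨rfl, rfl⟩, -⟩ := c
  exacts [s.rg j j' f hu hv, s.sym _ _ (s.rg j j' f hv hu)]

namespace RR

variable [DecidableEq V] (r : RR m T N U W μ b a y)
include r

theorem s : m.HSt U W := r.c.st

theorem symm : RR m T N U W μ y a b := by
  refine ⟨r.h, r.no2, ?_, r.ne.symm, r.ry, r.rb⟩
  have := r.c
  rwa [show Ch b a y = Ch y a b by funext u v; simp only [Ch, eq_iff_iff]; tauto,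
    show (fun W : V → V → Prop => W a b ∧ W a y) = fun W => W a y ∧ W a b by
      funext W; simp only [eq_iff_iff]; tauto] at this

theorem wb : W a b := r.c.alive.1
theorem wy : W a y := r.c.alive.2
theorem ab : a ≠ b := (r.s.adj _ _ r.wb).1
theorem ay : a ≠ y := (r.s.adj _ _ r.wy).1

theorem mem (t : Th b a y v) : v ∈ U := by
  rcases t with rfl | rfl | rfl
  exacts [r.s.mem2 r.wb, r.s.mem _ _ r.wb, r.s.mem2 r.wy]

/-- the two end cells are not adjacent -/
theorem nby : ¬ m.Adj b y := fun ad => by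
  obtain ⟨j, j', f, g⟩ := r.rb
  obtain ⟨k, k', f', g'⟩ := r.ry
  obtain ⟨i, q, -, -, c, c'⟩ := r.h.rin {j, k} b y (.tail (.single ⟨j, by simp, j', f, g.fc.cor2,
    g.fc.cor1⟩) ⟨k, by simp, k', f', g'.fc.cor1, g'.fc.cor2⟩) ad
  rcases q with rfl | rfl
  exacts [(g.fc.cor_iff.1 c').elim r.ay.symm r.ne.symm, (g'.fc.cor_iff.1 c).elim r.ab.symm r.ne]

theorem rn (tu : Th b a y u) (tv : Th b a y v) (ad : m.Adj u v) : m.Rn u v := by
  have := ad.1
  rcases tu with rfl | rfl | rfl <;> rcases tv with rfl | rfl | rfl <;>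
    first | exact absurd rfl this | exact r.rb | exact r.ry | exact r.rb.symm | exact r.ry.symm |
      exact absurd ad r.nby | exact absurd ad.symm r.nby

/-- no cell of the zone is flat over a corner of the zone -/
theorem flat (f : m.Fc j p q z) (tp : Th b a y p) : ¬ Th b a y z := fun tz => by
  obtain ⟨k, k', q, g⟩ := r.rn tp tz (r.h.adj13 f)
  have ji := (r.s.bd _ (r.mem tp)).ne_inf f.has1
  exact r.h.far_not_bar q ji ((r.h.lines g q.2.1).1.symm.trans (r.h.lines f ji).2.1)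

theorem alive (s' : m.HSt (U \ D) W') (n : ∀ v ∈ D, ¬ Th b a y v) : W' a b ∧ W' a y :=
  have : ∀ v, Th b a y v → v ∈ U \ D := fun v t => Finset.mem_sdiff.2 ⟨r.mem t, fun q => n v q t⟩
  ⟨s'.ra_rn r.rb (this _ (.inr (.inl rfl))) (this _ (.inl rfl)),
    s'.ra_rn r.ry (this _ (.inr (.inl rfl))) (this _ (.inr (.inr rfl)))⟩

omit r [DecidableEq V] in
theorem fp0 (w : W u v) (t : m.Att W u v) : m.Fp 1 T W (Ch b a y) u := .inl (.inl ⟨v, w, t⟩)

omit r [DecidableEq V] in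
theorem fp1 (w : W u v) (t : m.Att W u v) (w' : W u x) : m.Fp 1 T W (Ch b a y) x :=
  .inl (Fe.wall (d := 0) ⟨v, w, t⟩ w')

theorem fpT (t : Th b a y v) : m.Fp 1 T W (Ch b a y) v := by
  rcases t with rfl | rfl | rfl
  exacts [.inr ⟨a, r.s.sym _ _ r.wb, .inr ⟨rfl, .inl rfl⟩⟩, .inr ⟨b, r.wb, .inl ⟨rfl, .inl rfl⟩⟩,
    .inr ⟨a, r.s.sym _ _ r.wy, .inr ⟨rfl, .inr rfl⟩⟩]

/-! ### Chains of rungs -/

omit r [DecidableEq V] in
theorem rc_th (c : m.RC (m.Lad W b a y) u v) : Th b a y u ↔ Th b a y v := by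
  induction c with
  | refl => rfl
  | tail _ e ih =>
    obtain ⟨j, jR, -, -, rfl | rfl, rfl | rfl⟩ := e <;> rcases jR with q | q <;> simp [*]

omit r [DecidableEq V] in
theorem rc_symm {R : Set J} (c : m.RC R u v) : m.RC R v u := by
  induction c with
  | refl => exact .refl
  | tail _ e ih => exact .head (let ⟨j, a, j', b, c, d⟩ := e; ⟨j, a, j', b, d, c⟩) ih

theorem rc_of (tu : Th b a y u) (tv : Th b a y v) : m.RC (m.Lad W b a y) u v := by
  have key : ∀ v, Th b a y v → m.RC (m.Lad W b a y) a v := by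
    have k : ∀ v, Th b a y v → m.Rn a v → m.RC (m.Lad W b a y) a v := fun v t ⟨j, j', f, g⟩ =>
      .single ⟨j, .inl (by
        obtain ⟨⟨e, e'⟩ | ⟨e, e'⟩, -⟩ := g <;> rw [e, e']
        exacts [⟨.inr (.inl rfl), t⟩, ⟨t, .inr (.inl rfl)⟩]), j', f, g.fc.cor1, g.fc.cor2⟩
    rintro v (rfl | rfl | rfl)
    exacts [k _ (.inl rfl) r.rb, .refl, k _ (.inr (.inr rfl)) r.ry]
  exact (rc_symm (key u tu)).trans (key v tv)

omit r [DecidableEq V] in
theorem not_rg (f : m.Fc j p q z) (np : ¬ Th b a y p) (c : Th b a y q ∨ ¬ m.Sol W j) :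
    ¬ m.Rg (m.Lad W b a y) j := by
  rintro ⟨k, kR, k', fr, e⟩
  have c1 : m.cor k p ∧ m.cor k q := by
    rcases e with rfl | rfl
    exacts [⟨f.cor1, f.cor2⟩, ⟨(fr.2.2.2 p).2 f.cor1, (fr.2.2.2 q).2 f.cor2⟩]
  rcases kR with ⟨t, t'⟩ | ⟨t, t', so, so'⟩
  · rcases c1.1 with rfl | rfl <;> contradiction
  · rcases c with c | c
    · rcases c1.2 with rfl | rfl <;> contradiction
    · rcases e with rfl | rfl
      exacts [c so, c (so' _ fr)]

/-- a chain of rungs touches the zone along one line -/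
theorem one (c : m.RC (m.Lad W b a y) x x') (n : ¬ Th b a y x) (t : Th b a y p) (t' : Th b a y p')
    (ad : m.Adj x p) (ad' : m.Adj x' p') : m.ln x p = m.ln x' p' :=
  r.h.rone _ x x' p p' c (r.rc_of t t') ad ad' fun q => n ((rc_th q).2 t)

/-- the data of a corner of the zone -/
theorem cor (f : m.Fc j x p z) (n : ¬ Th b a y x) (tp : Th b a y p) (g : m.hug j t) :
    j ≠ m.inf ∧ ¬ m.Rg (m.Lad W b a y) j ∧ (∃ w, m.RC (m.Lad W b a y) a w ∧ m.cor j w) ∧ m.hug j t :=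
  ⟨(r.s.bd _ (r.mem tp)).ne_inf f.has2, not_rg f n (.inl tp),
    ⟨p, r.rc_of (.inr (.inl rfl)) tp, f.cor2⟩, g⟩

/-! ### Moves -/

variable [Finite V] [Finite J]

omit [Finite J] in
/-- a junction off the zone on an attached run is the end of a rung with two solid ends -/
theorem hard (f : m.Fc k p q z) (so : m.Sol W k) (np : ¬ Th b a y p) (nq : ¬ Th b a y q)
    (t : m.Att W p z ∨ m.Att W p q) : ∃ k', m.far k k' ∧ m.Sol W k' := by
  obtain ⟨w1, w2, w3⟩ := HSt.ra_sw r.h so f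
  by_contra n
  have ki := r.s.ra_inf r.h so
  obtain ⟨u, wu, ou, au⟩ : ∃ u, W p u ∧ m.On k p u ∧ m.Att W p u := by
    rcases t with t | t
    exacts [⟨z, w2, ⟨f.has1, f.has3⟩, t⟩, ⟨q, w1, f.on, t⟩]
  have st := r.s.del_pair r.h f wu ou au
  have cs : m.cost (Gone W {p, q} (m.Run W p u)) ≤ 1 := by
    by_cases c : ∀ k', m.far k k' → ¬ W p (m.X k')
    · exact HSt.cost_pair r.h r.s.sym f ki c fun _ _ _ => r.s.hug_run r.h wu ou
    · push Not at c
      obtain ⟨k', fr, w⟩ := c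
      rw [Finset.pair_comm]
      refine HSt.cost_pair r.h r.s.sym f.symm ki (fun k'' fr' w' => ?_)
        fun _ _ _ => r.s.hug_run r.h wu ou
      obtain rfl := r.h.far_unique fr fr'
      exact n ⟨_, fr, r.s.sol_of (r.h.far_ge fr f.ge).fc w1 w w'⟩
  have := r.c.live {p, q} _ 1 ∅ ⟨by simpa using ⟨fp0 wu au, fp1 wu au w1⟩, fun u' v' _ t =>
    .inr ⟨p, fp0 wu au, (r.s.run_w r.h t wu).2 ▸ (r.s.adj _ _ wu).onL⟩, st, costT_le.trans cs⟩
    (r.alive st (by simpa using ⟨np, nq⟩)) (.inl (by simp)) ⟨by simp, by simp⟩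
  simp [Finset.card_pair (r.h.fc_ne f).1] at this

omit [Finite J] in
theorem lad (f : m.Fc k p q z) (so : m.Sol W k) (np : ¬ Th b a y p) (nq : ¬ Th b a y q)
    (t : m.Att W p z) : m.RC (m.Lad W b a y) p q := by
  obtain ⟨k', fr, so'⟩ := r.hard f so np nq (.inl t)
  refine .single ⟨k, .inr ?_, k', fr, f.cor1, f.cor2⟩
  obtain ⟨⟨e, e'⟩ | ⟨e, e'⟩, -⟩ := f <;> rw [e, e']
  exacts [⟨np, nq, so, fun _ q => r.h.far_unique fr q ▸ so'⟩,
    ⟨nq, np, so, fun _ q => r.h.far_unique fr q ▸ so'⟩]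

omit [Finite J] in
/-- the solid end of an attached run is a corner of the zone -/
theorem stem (f : m.Fc g p q z) (so : m.Sol W g) (t : m.Att W p q) :
    Th b a y p ∨ Th b a y q := by
  by_contra n
  obtain ⟨k', fr, so'⟩ := r.hard f so (fun q => n (.inl q)) (fun q => n (.inr q)) (.inr t)
  obtain ⟨w1, w2, w3⟩ := HSt.ra_sw r.h so' (r.h.far_ge fr f.ge).fc
  rcases r.s.end_safe r.h w1 t f so (.refl _ _ _) with c | c
  exacts [c _ fr w2, c _ fr w3]

omit [Finite J] in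
/-- the single move off the zone -/
theorem sgl (w : W v u) (t : m.Att W v u) (n : ¬ Th b a y v) (sub : K ⊆ U) (vK : v ∉ K)
    (cl : ∀ p q, W p q → ¬ m.Run W v u p q → p ∈ K → q ∈ K) :
    Even (∑ x ∈ K, μ x + if a ∈ K then 1 else 0) := by
  have st := r.s.del_sgl r.h w t
  by_contra c
  have := r.c.live {v} _ 1 {K} ⟨by simpa using fp0 w t, fun u' v' _ q =>
    .inr ⟨v, fp0 w t, (r.s.run_w r.h q w).2 ▸ (r.s.adj _ _ w).onL⟩, st,
    costT_le.trans (r.s.cost_sgl r.h w)⟩ (r.alive st (by simpa using n)) (.inl (by simp))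
    ⟨by
      simp only [Finset.mem_singleton, forall_eq]
      refine ⟨fun x q => by simpa using ⟨sub q, fun e => vK (e ▸ q)⟩,
        fun p q d => cl p q d.1 d.2.2.2, ?_⟩
      rw [Finset.sum_add_distrib, Finset.sum_ite_eq']
      exact Nat.not_even_iff_odd.1 c, by simp⟩
  simp at this

/-- one row of a cut lies in the zone -/
theorem cut1 (w : W p q) (ev : ∀ j, m.Sol W j → m.Ev (m.Ar W p q) j) (t : m.Att W p q)
    (nb : ¬ m.Ar W p q a b) (ny : ¬ m.Ar W p q a y) : ∃ Z : Set V, (∀ v, Th b a y v → v ∉ Z) ∧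
      (∀ u v, W u v → (m.Ar W p q u v ↔ ¬ (u ∈ Z ↔ v ∈ Z))) ∧
      ∀ u v, m.Ar W p q u v → u ∉ Z → Th b a y u := by
  classical
  obtain ⟨Z, aZ, hZ⟩ := r.s.ra_cut r.h (fun _ _ => Arc.swap) ev a
  have tz : ∀ v, Th b a y v → v ∉ Z := by
    have := hZ a b r.wb
    have := hZ a y r.wy
    rintro v (rfl | rfl | rfl) <;> tauto
  refine ⟨Z, tz, hZ, fun u v ar uZ => by_contra fun n => ?_⟩
  have wu := (r.s.arc_w r.h ar w).1
  have vZ : v ∈ Z := by have := hZ u v wu; tauto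
  have at' := r.s.att_of r.h w t ar.run
  have nr : ∀ x y, ¬ m.Run W u v x y → ¬ m.Ar W p q x y := fun x y n q =>
    n ((r.s.arc_symm r.h ar w).trans q).run
  have e1 := r.sgl wu at' n (K := U.filter (· ∈ Z)) (Finset.filter_subset _ _) (by simp [uZ])
    fun x y wx n q => Finset.mem_filter.2 ⟨r.s.mem2 wx, by
      have := hZ x y wx; have := nr x y n; have := (Finset.mem_filter.1 q).2; tauto⟩
  have e2 := r.sgl (r.s.sym _ _ wu) at'.swap (fun q => tz v q vZ) (K := U.filter (· ∉ Z))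
    (Finset.filter_subset _ _) (by simp [vZ])
    fun x y wx n q => Finset.mem_filter.2 ⟨r.s.mem2 wx, by
      have := hZ x y wx; have := nr x y fun q => n (run_swap q)
      have := (Finset.mem_filter.1 q).2; tauto⟩
  have e3 := r.c.even
  rw [← Finset.sum_filter_add_sum_filter_not U (· ∈ Z)] at e3
  rw [if_neg (by simp [aZ])] at e1
  rw [if_pos (by simp [aZ, r.mem (.inr (.inl rfl))])] at e2
  rw [Nat.even_iff] at e1 e2 e3
  omega

/-- every attached arc touches the zone -/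
theorem touch (w : W p q) (t : m.Att W p q) : ∃ u v, m.Ar W p q u v ∧ Th b a y u := by
  by_contra n
  push Not at n
  obtain ⟨Z, -, hZ, row⟩ := r.cut1 w (fun j so => by_contra fun o => by
    obtain ⟨x, y, z, f, c⟩ := r.s.ra_sol r.h o so fun q => q so
    exact (r.stem f so (r.s.att_of r.h w t c.run)).elim (n _ _ c) (n _ _ c.swap)) t
    (fun c => n _ _ c (.inr (.inl rfl))) fun c => n _ _ c (.inr (.inl rfl))
  have c := Arc.refl (m := m) W {j | ¬ m.Sol W j} p q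
  by_cases e : p ∈ Z
  · exact n _ _ c.swap (row _ _ c.swap (by have := hZ p q w; tauto))
  · exact n _ _ c (row _ _ c e)

omit [Finite V] [Finite J] in
/-- a boundary cell has an outer wall -/
theorem out (vU : v ∈ U) (bd : m.Bdy W v) : ∃ u, m.Out W v u := by
  obtain ⟨u, w⟩ : ∃ u, W v u := by
    by_contra n
    have e := r.c.conn {v} (by simpa using vU)
      (fun p q w c => absurd ⟨q, (by simpa using c : p = v) ▸ w⟩ n) (by simp)
    have e1 := e.ge (r.mem (.inl rfl))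
    have e2 := e.ge (r.mem (.inr (.inr rfl)))
    simp only [Finset.mem_singleton] at e1 e2
    exact r.ne (e1.trans e2.symm)
  exact r.s.bdy_out r.h bd w

/-- the other side of a cut is one cell -/
theorem cut2 (ou : m.Out W v u) (n : ¬ Th b a y v) (ev : ∀ j, m.Sol W j → m.Ev (m.Ar W v u) j) :
    m.Tok W b a y v u := by
  have w := ou.1
  have s := r.s
  have h := r.h
  have nr : ∀ c, m.Rn a c → Th b a y c → ¬ m.Ar W v u a c := fun c ⟨j, j', f, g⟩ t q => by
    rcases g.fc.cor_iff.1 (h.rung j j' f v u (s.adj _ _ w)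
      ((s.arc_w h q w).2.symm.trans (h.lines g f.2.1).1)).1 with rfl | rfl
    exacts [n (.inr (.inl rfl)), n t]
  obtain ⟨Z, tz, hZ, row⟩ := r.cut1 w ev ou.att (nr b r.rb (.inl rfl)) (nr y r.ry (.inr (.inr rfl)))
  have vZ : v ∈ Z := by_contra fun q => n (row v u (.refl _ _ _ _) q)
  have uZ : u ∉ Z := fun q => (hZ v u w).1 (.refl _ _ _ _) (iff_of_true vZ q)
  have ins : ∀ z x, z ∈ Z → m.Out W z x → m.Ar W v u z x := fun z x zZ o => by_contra fun q => by
    have dis : ∀ p q, m.Ar W z x p q → (p ∈ Z ↔ q ∈ Z) := fun p p' c => by_contra fun e =>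
      q (((hZ _ _ (s.arc_w h c o.1).1).2 e).trans (s.arc_symm h c o.1))
    obtain ⟨p, p', c, t⟩ := r.touch o.1 o.att
    exact tz p t (c.ind (P := fun p _ => p ∈ Z) zZ (fun _ _ c e => (dis _ _ c).1 e)
      fun _ _ _ _ c e n w l jN t => (dis _ _ (c.step n w l jN t)).2 ((dis _ _ c).1 e))
  have two : ∀ z x, z ∈ Z → m.Out W z x → ∀ i, ¬ m.Ev (m.Ar W v u) i →
      ∃ x', m.Ar W v u z x' ∧ m.On i z x' := fun z x zZ o i od => by
    have c := ins z x zZ o
    obtain ⟨wz, e, oe, op⟩ := o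
    have d := (s.adj _ _ wz).1
    obtain ⟨x', e', ne, c', oe', op'⟩ : ∃ x' e', e ≠ e' ∧ m.Ar W v u z x' ∧ m.On e' z x' ∧
        ¬ m.Sol W e' := by
      obtain ⟨e', ne, oe', -⟩ := h.other oe d
      by_cases so : m.Sol W e'
      · obtain ⟨x', n, sp⟩ := h.lk2 (F := {j | m.Sol W j}) (v := z) (w := x) ⟨d, e', e, oe', oe, so, op⟩
        have c' := ins z x' zZ (ra_out sp)
        obtain ⟨-, i, oi, op'⟩ := ra_out sp
        refine ⟨x', i, ?_, c', oi, op'⟩
        rintro rfl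
        rcases s.ra_uniq h w (j := e) op c c' oe oi with q | q
        exacts [n q.2, d q.1]
      · exact ⟨x, e', ne.symm, c, oe', so⟩
    rcases s.arc_three h w (s.arc_end h w (j := e) op c oe) (s.arc_end h w (j := e') op' c' oe') od ne
      with rfl | rfl
    exacts [⟨x, c, oe⟩, ⟨x', c', oe'⟩]
  have un : ∀ z ∈ U, z ∈ Z → m.Bdy W z → z = v := fun z zU zZ bd => by
    obtain ⟨x, o⟩ := r.out zU bd
    obtain ⟨-, e, oe, op⟩ := ou
    obtain ⟨x', c, o'⟩ := two z x zZ o e (s.arc_end h w (j := e) op (.refl _ _ _ _) oe)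
    exact (s.ra_uniq h w (j := e) op (.refl _ _ _ _) c oe o').elim (·.1) fun q => absurd (q.1 ▸ zZ) uZ
  have all : ∀ z ∈ U, z ∈ Z → z = v := fun z zU zZ => by_contra fun zv => by
    obtain ⟨j₁, j₂, j₃, a1, a2, a3, H⟩ := h.hole3 (K := {z | z ∈ U ∧ z ∈ Z ∧ z ≠ v}) ⟨z, zU, zZ, zv⟩
      fun z q => s.bd z q.1
    have key : ∀ j, j = j₁ ∨ j = j₂ ∨ j = j₃ → m.cor j v ∧ m.hug j (m.ln v u) := fun j q => by
      obtain ⟨z, o, x, f, ⟨zU, zZ, zv⟩, no, nx⟩ := H j q
      have so : m.Sol W j := by_contra fun q => zv (un z zU zZ ⟨j, f.has1, q⟩)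
      obtain ⟨w1, w2, -⟩ := HSt.ra_sw h so f
      obtain rfl : o = v := by_contra fun q => s.ra_stem h w f ((hZ _ _ w1).2 fun e =>
        no ⟨s.mem2 w1, e.1 zZ, q⟩) (ev j so)
      exact ⟨f.cor2, .inr ((h.lines f (s.ra_inf h so)).2.1.symm.trans (s.arc_w h ((hZ _ _ w2).2 fun e =>
        nx ⟨s.mem2 w2, e.1 zZ, (h.fc_ne f).2.2.symm⟩) w).2)⟩
    obtain ⟨c1, g1⟩ := key j₁ (by simp)
    obtain ⟨c2, g2⟩ := key j₂ (by simp)
    obtain ⟨c3, g3⟩ := key j₃ (by simp)
    exact (h.side2 (s.bd _ (s.mem _ _ w)) c1 c2 c3 g1 g2 g3 a1).elim a2.symm a3.symm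
  refine ⟨n, fun x wx => (hZ _ _ wx).2 fun e => (s.adj _ _ wx).1 (all x (s.mem2 wx) (e.1 vZ)).symm,
    fun p q c => ?_⟩
  have wp := (s.arc_w h c w).1
  have := (hZ _ _ wp).1 c
  by_cases e : p ∈ Z
  exacts [.inl ⟨all p (s.mem _ _ wp) e, row _ _ c.swap (by tauto)⟩,
    .inr ⟨all q (s.mem2 wp) (by tauto), row _ _ c e⟩]

end RR

end Map

end Pool.Agent.P.MP_5f84aa_co.G
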