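import Pool.Agent.P.MP_5f84aa_co.G.PRc

/-! The zone with two rungs, part D: no state is confined at a cell with two rungs. -/

namespace Pool.Agent.P.MP_5f84aa_co.G

namespace Map

variable {V J Sg : Type} {m : Map V J Sg} {T : Set Sg} {N : V → Prop} {U : Finset V}
  {W : V → V → Prop} {μ : V → ℕ} {a b y u v w x x' : V} {j j' : J}

namespace RR

variable [DecidableEq V] [Finite V] [Finite J] (r : RR m T N U W μ b a y)
include r

/-- without landings an attached arc runs along the zone -/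
theorem along (ou : m.Out W v u) (n : ¬ Th b a y v) (nt : ¬ m.Tok W b a y v u) :
    Th b a y u ∧ ∃ g x p z, m.Fc g x p z ∧ m.Sol W g ∧ m.RC (m.Lad W b a y) v x ∧ Th b a y p ∧
      m.Ar W v u x p := by
  have s := r.s
  have h := r.h
  obtain ⟨g, x, p, z, f, so, rc, t, c⟩ := r.walk ou n nt
  replace c := c.resolve_right fun c =>
    r.no_ld ⟨f, so, fun q => n ((rc_th rc).2 q), t, s.ra_ara h ou.1 ou.ara c⟩
  refine ⟨?_, g, x, p, z, f, so, rc, t, c⟩
  have w := (s.arc_w h c ou.1).1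
  refine ((s.arc_symm h c ou.1).ind (P := fun p q => Th b a y p ∨ Th b a y q) (.inr t)
    (fun _ _ _ => Or.symm) ?_).resolve_left n
  rintro x₁ x₂ z j c' (e | e) d w' l jN tr
  · refine .inl (by_contra fun q => r.no_ld ⟨(s.ra_fc h (s.arc_w h c' w).1 d w' l tr).symm,
      not_not.1 jN, q, e, s.ra_ara h ou.1 ou.ara (c.trans (c'.step d w' l jN tr))⟩)
  · exact .inr e

/-- every boundary cell off the zone is the other side of a cut -/
theorem tok0 (ou : m.Out W v u) (n : ¬ Th b a y v) : m.Tok W b a y v u := by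
  by_contra nt
  have s := r.s
  have h := r.h
  obtain ⟨tu, g, x, p, z, f, so, rc, t, c⟩ := r.along ou n nt
  obtain ⟨u', ou', nc⟩ := s.ra_second h so f ou c
  obtain ⟨tu', g', x', p', z', f', so', rc', t', c'⟩ := r.along ou' n fun q =>
    nc (s.arc_symm h (q.2.1 u ou.1) ou'.1)
  have nx : ¬ Th b a y x := fun q => n ((rc_th rc).2 q)
  have nx' : ¬ Th b a y x' := fun q => n ((rc_th rc').2 q)
  have l1 := (s.arc_w h c ou.1).2
  have l2 := (s.arc_w h c' ou'.1).2
  have l3 := r.one ((rc_symm rc).trans rc') nx t t' (h.adj12 f) (h.adj12 f')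
  have g1 : m.hug g (m.ln v u) := .inl ((h.lines f (s.ra_inf h so)).1.symm.trans l1)
  have g2 : m.hug g' (m.ln v u) :=
    .inl ((h.lines f' (s.ra_inf h so')).1.symm.trans (l3.symm.trans l1))
  have ne : g ≠ g' := by
    rintro rfl
    obtain rfl : x' = x := (f.cor_iff.1 f'.cor1).resolve_right fun e => nx' (e ▸ t)
    obtain ⟨rfl, -⟩ := f'.unique f (h.fc_ne f').1
    exact nc (c.trans (s.arc_symm h c' ou'.1))
  have key : ∀ w, m.Out W v w → Th b a y w → m.ln v w = m.ln v u →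
      ∃ e o, Th b a y o ∧ m.Fc e w o v ∧ ¬ m.Sol W e ∧ W w o ∧ ¬ W v o := by
    rintro w ⟨ww, e, oe, op⟩ tw l
    have d := (s.adj _ _ ww).1
    have ei := (s.bd _ (s.mem _ _ ww)).ne_inf oe.1
    have sol : ¬ (e = g ∨ e = g') := by rintro (rfl | rfl) <;> contradiction
    obtain ⟨o, ov, ow, tr⟩ := h.third oe d
    rcases h.tri_cases tr d ov.symm ow.symm with fe | fe | fe
    · exact absurd (h.ra_two (r.cor f nx t g1) (r.cor f' nx' t' g2)
        (r.cor fe n tw (.inl ((h.lines fe ei).1.symm.trans l))) ne) sol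
    · have th : Th b a y o := by_contra fun q => sol (h.ra_two (r.cor f nx t g1) (r.cor f' nx' t' g2)
        (r.cor fe.symm q tw (.inr ((h.lines fe ei).2.1.symm.trans ((h.ln_symm _ _).trans l)))) ne)
      have wo := s.ra_rn (r.rn tw th (h.adj12 fe)) (r.mem tw) (r.mem th)
      exact ⟨e, o, th, fe, op, wo, fun q => op (s.sol_of fe wo (s.sym _ _ ww) (s.sym _ _ q))⟩
    · exact absurd (h.ra_two (R := m.Lad W b a y) (v := v)
        ⟨s.ra_inf h so, not_rg f nx (.inl t), ⟨x, rc, f.cor1⟩, g1⟩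
        ⟨s.ra_inf h so', not_rg f' nx' (.inl t'), ⟨x', rc', f'.cor1⟩, g2⟩
        ⟨ei, not_rg fe.symm n (.inr op), ⟨v, .refl, fe.cor2⟩,
          .inr ((h.lines fe ei).2.2.1.symm.trans l)⟩ ne) sol
  obtain ⟨e, o, th, fe, op, wo, no⟩ := key u ou tu rfl
  obtain ⟨e', o', th', fe', op', wo', no'⟩ := key u' ou' tu' (l2.symm.trans (l3.symm.trans l1))
  have uu : u ≠ u' := fun e => nc (e ▸ .refl _ _ _ _)
  obtain rfl : o = o' := by
    have : o ≠ u := fun e => no (e ▸ ou.1)
    have : o ≠ u' := fun e => no (e ▸ ou'.1)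
    have : o' ≠ u := fun e => no' (e ▸ ou.1)
    have : o' ≠ u' := fun e => no' (e ▸ ou'.1)
    unfold Th at tu tu' th th'
    grind
  have ee : e ≠ e' := by
    rintro rfl
    exact uu (fe.symm.unique fe'.symm (h.fc_ne fe).1.symm).1
  have bv := s.bd _ (s.mem _ _ ou.1)
  have cl : ∀ i w, m.Fc i w o v → W w o → W v w → (i = e ∨ i = e') → ∀ p q k, p ≠ q → m.On k p q →
      m.On i p q → W p q ∨ (k = e ∨ k = e') := fun i w fi w1 w2 _ p q k d ok oi => by
    have := s.sym _ _ w1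
    have := s.sym _ _ w2
    have a1 := fun ok => h.two_faces (k := k) (h.fc_ne fe).2.2 ⟨fe.has2, fe.has3⟩ ⟨fe'.has2, fe'.has3⟩
      ok ee
    have ok' := ok.symm
    rcases fi.has_iff.1 oi.1 with rfl | rfl | rfl <;> rcases fi.has_iff.1 oi.2 with rfl | rfl | rfl <;>
      tauto
  refine s.con {i | ¬ (i = e ∨ i = e')} ?_ ?_ e op (.inl rfl)
  · rintro (q | q)
    exacts [bv (q ▸ fe.has3), bv (q ▸ fe'.has3)]
  · rintro p q ⟨d, k, i, ok, oi, kF, iF⟩
    rcases not_not.1 iF with rfl | rfl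
    exacts [(cl _ u fe wo ou.1 (.inl rfl) p q k d ok oi).resolve_right kF,
      (cl _ u' fe' wo' ou'.1 (.inr rfl) p q k d ok oi).resolve_right kF]

/-- all cells off the zone are of this kind -/
theorem tok (vU : v ∈ U) (n : ¬ Th b a y v) : ∃ u, m.Out W v u ∧ m.Tok W b a y v u := by
  have s := r.s
  have h := r.h
  have key : ∀ v ∈ U, ¬ Th b a y v → m.Bdy W v → ∃ u, m.Out W v u ∧ m.Tok W b a y v u :=
    fun v vU n bd => let ⟨u, ou⟩ := r.out vU bd; ⟨u, ou, r.tok0 ou n⟩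
  refine key v vU n (by_contra fun nb => ?_)
  obtain ⟨j, _, _, -, -, -, H⟩ := h.hole3 (K := {z | z ∈ U ∧ ¬ Th b a y z ∧ ¬ m.Bdy W z})
    ⟨v, vU, n, nb⟩ fun z q => s.bd z q.1
  obtain ⟨z, o, x, f, ⟨-, nz, bz⟩, no, nx⟩ := H j (.inl rfl)
  obtain ⟨w1, w2, -⟩ := HSt.ra_sw h (by_contra fun q => bz ⟨j, f.has1, q⟩) f
  have th : ∀ o, W z o → ¬ (o ∈ U ∧ ¬ Th b a y o ∧ ¬ m.Bdy W o) → Th b a y o := fun o w q =>
    by_contra fun t => by
      obtain ⟨u, -, -, c, c'⟩ := key o (s.mem2 w) t (by_contra fun e => q ⟨s.mem2 w, t, e⟩)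
      exact (c' _ _ (c z (s.sym _ _ w))).elim (fun e => nz e.2) fun e => t e.2
  exact r.flat f.symm (th o w1 no) (th x w2 nx)

theorem wall (w : W v u) (n : ¬ Th b a y v) : Th b a y u := by
  obtain ⟨u', -, -, c, c'⟩ := r.tok (r.s.mem _ _ w) n
  exact (c' _ _ (c u w)).elim (·.2) fun e => absurd e.2 n

/-- two lights at the middle cell free all the other cells -/
theorem only (xU : x ∈ U) (n : ¬ Th b a y x) (xU' : x' ∈ U) (n' : ¬ Th b a y x') : x = x' := by
  classical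
  by_contra ne
  have s := r.s
  have h := r.h
  obtain ⟨j, j', f, g⟩ := r.rb
  obtain ⟨k, k', f', g'⟩ := r.ry
  obtain ⟨u, ou, -⟩ := r.tok xU n
  obtain ⟨u', ou', -⟩ := r.tok xU' n'
  have mD : ∀ v, v ∈ ({b, a, y} : Finset V) ↔ Th b a y v := by simp [Th]
  have st : m.HSt (U \ {b, a, y}) (Del W {b, a, y} No) := s.del0 h fun G op c d q => by
    obtain ⟨wu, e, oe, oe'⟩ := ou
    have eG := op e oe'
    have key : j ∈ G ∧ k ∈ G := by
      have a1 := fun q => c a (by simp) j k g.fc.has1 g'.fc.has1 q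
      have a2 := fun q => c a (by simp) k j g'.fc.has1 g.fc.has1 q
      rcases r.wall wu n with rfl | rfl | rfl
      · have := c _ (by simp) e j oe.2 g.fc.has2 eG
        tauto
      · have := c _ (by simp) e j oe.2 g.fc.has1 eG
        tauto
      · have := c _ (by simp) e k oe.2 g'.fc.has2 eG
        tauto
    rcases (mD d).1 q with rfl | rfl | rfl
    exacts [⟨j, key.1, g.fc.has2⟩, ⟨j, key.1, g.fc.has1⟩, ⟨k, key.2, g'.fc.has2⟩]
  have jk : j ≠ k := by
    rintro rfl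
    exact r.ne (g.fc.unique g'.fc r.ab).1
  have lit : ∀ u v, Th b a y u → m.Lit {j, k} ∅ (fun _ => a) u v := by
    rintro u v (rfl | rfl | rfl)
    exacts [lit_cor (j := j) (by simp) g.fc.cor2 fun _ _ e => absurd e r.ab,
      .inl (.inr (.inr (.inr ⟨j, by simp, k, by simp, jk, g.fc.cor1, g'.fc.cor1⟩))),
      lit_cor (j := k) (by simp) g'.fc.cor2 fun _ _ e => absurd e r.ay]
  have cs : m.cost (Gone W {b, a, y} No) ≤ 2 := by
    simpa [Finset.card_pair jk] using Lts.cost_le (m := m) (W := Gone W {b, a, y} No) (M := {j, k})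
      (F := ∅) (sh := fun _ => a) ⟨by simp [f.2.1.symm, f'.2.1.symm],
        by simpa using ⟨g.fc.cor1, g'.fc.cor1⟩, fun u v q => by
          rcases (gone_iff.1 q).2 with e | e | e
          exacts [lit u v ((mD u).1 e), (lit v u ((mD v).1 e)).symm, e.elim]⟩
  have one : ∀ x u, ¬ Th b a y x → m.Out W x u → {x} ⊆ U \ {b, a, y} ∧
      Cld (Del W {b, a, y} No) {x} ∧ Odd (∑ v ∈ {x}, μ v) := fun x u n ou =>
    ⟨Finset.singleton_subset_iff.2 (Finset.mem_sdiff.2 ⟨s.mem _ _ ou.1, mt (mD x).1 n⟩),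
      fun p q d e => absurd ((mD q).2 (r.wall d.1 (Finset.mem_singleton.1 e ▸ n))) d.2.2.1,
      by simp [r.c.one x (fp0 ou.1 ou.att)]⟩
  have := r.c.dead {b, a, y} No 2 {{x}, {x'}} ⟨fun v q => r.fpT ((mD v).1 q), fun _ _ _ => False.elim,
    st, costT_le.trans cs⟩ ⟨by
      simp only [Finset.mem_insert, Finset.mem_singleton, forall_eq_or_imp, forall_eq]
      exact ⟨one x u n ou, one x' u' n' ou'⟩, by simp [ne, Ne.symm ne]⟩
  rw [Finset.card_eq_three.2 ⟨b, a, y, r.ab.symm, r.ne, r.ay, rfl⟩, Finset.card_pair (by simpa)] at this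
  omega

omit [Finite J] in
/-- a light at an end of a rung frees the third cell -/
theorem last (f : m.far j j') (g : m.GE j a b) (op : ¬ m.Sol W j')
    (c : ∀ v, W y v → v = a ∨ m.AtL W (m.hug j) y v) : False := by
  have s := r.s
  have h := r.h
  have g' := (h.far_ge f g).fc
  have cs : m.cost (Gone W {a, b} (m.AtL W (m.hug j))) ≤ 1 := by
    by_cases q : W a (m.X j')
    · rw [Finset.pair_comm]
      exact HSt.cost_pair h s.sym g.fc.symm f.2.1 (fun k e w => op (s.sol_of g' r.wb q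
        (h.far_unique f e ▸ w))) fun _ _ _ q => q.2.2
    · exact HSt.cost_pair h s.sym g.fc f.2.1 (fun k e w => q (h.far_unique f e ▸ w))
        fun _ _ _ q => q.2.2
  have := r.even (K := {y}) (Cn.ra_mc s (D := {a, b})
    (by simpa using ⟨r.fpT (.inr (.inl rfl)), r.fpT (.inl rfl)⟩) (s.ra_del h
      (fun i i' q t => (HSt.ra_rr h g.fc f.2.1 q t).imp (by simp +contextual) (by simp +contextual))
      fun G o _ _ d q => ⟨j', o j' op, by
        rcases (by simpa using q : d = a ∨ d = b) with rfl | rfl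
        exacts [g'.has1, g'.has2]⟩) cs) (by simp [Finset.card_pair r.ab])
    (by simpa using ⟨r.mem (.inr (.inr rfl)), r.ay.symm, r.ne.symm⟩) fun p q d e => by
      obtain rfl := Finset.mem_singleton.1 e
      exact (c q d.1).elim (fun e => absurd (by simp [e]) d.2.2.1) fun e => absurd e d.2.2.2
  simp [r.c.one y (r.fpT (.inr (.inr rfl)))] at this

/-- one end of each rung is open -/
theorem opn (f : m.far j j') (g : m.GE j a b) (so : m.Sol W j) : ¬ m.Sol W j' := fun so' => by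
  have g' := (r.h.far_ge f g).fc
  exact r.h.far_X f (r.only (r.s.mem2 (HSt.ra_sw r.h so g.fc).2.1) (r.flat g.fc (.inr (.inl rfl)))
    (r.s.mem2 (HSt.ra_sw r.h so' g').2.1) (r.flat g' (.inr (.inl rfl))))

theorem outer : ∃ x, W y x ∧ ¬ Th b a y x := by
  by_contra n
  have c : ∀ v, W y v → v = a := fun v w => r.nb (.inr (.inr rfl)) r.ay.symm
    (by_contra fun q => n ⟨v, w, q⟩) (r.s.adj _ _ w)
  obtain ⟨j, j', f, g⟩ := r.rb
  by_cases so : m.Sol W j
  exacts [r.last f g (r.opn f g so) fun v w => .inl (c v w),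
    r.last f.symm (r.h.far_ge f g) so fun v w => .inl (c v w)]

theorem false : False := by
  have s := r.s
  have h := r.h
  obtain ⟨x, wy, n⟩ := r.outer
  obtain ⟨x', wb, n'⟩ := r.symm.outer
  rw [th_symm] at n'
  obtain rfl := r.only (s.mem2 wy) n (s.mem2 wb) n'
  obtain ⟨u, ou, -, c, c'⟩ := r.tok (s.mem2 wy) n
  have cb := c b (s.sym _ _ wb)
  have cy := c y (s.sym _ _ wy)
  obtain ⟨j, f, so⟩ : ∃ j, m.Fc j b a x ∧ m.Sol W j := by
    by_contra q
    refine (((s.arc_symm h cb ou.1).trans cy).ind (P := fun p q => p = b ∨ q = b) (.inr rfl)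
      (fun _ _ _ => Or.symm) ?_).elim (fun e => n (.inl e)) r.ne.symm
    rintro x₁ x₂ z j c₁ (rfl | e) d w' l jN tr
    · have f := s.ra_fc h (s.arc_w h c₁ (s.sym _ _ wb)).1 d w' l tr
      obtain rfl : z = x := ((c' _ _ (cb.trans c₁)).resolve_left fun e => n (.inl e.1.symm)).1
      obtain rfl := r.nb (.inl rfl) r.ab.symm (r.wall (s.sym _ _ w') n) (h.adj12 f)
      exact absurd ⟨j, f, not_not.1 jN⟩ q
    · exact .inr e
  obtain ⟨j', fr⟩ : ∃ j', m.far j j' := by
    obtain ⟨i, i', fi, g⟩ := r.rb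
    rcases h.two_faces r.ab g.fc.on (h.far_ge fi g).fc.on f.on.symm fi.1 with rfl | rfl
    exacts [⟨_, fi⟩, ⟨_, fi.symm⟩]
  refine r.last fr f.symm.ge (r.opn fr f.symm.ge so) fun v w => ?_
  by_cases t : Th b a y v
  · exact .inl (r.nb (.inr (.inr rfl)) r.ay.symm t (s.adj _ _ w))
  · obtain rfl := r.only (s.mem2 w) t (s.mem2 wy) n
    exact .inr ⟨w, s.att_of h ou.1 ou.att cy.swap.run, .inr ((h.lines f fr.2.1).2.1.symm.trans
      ((s.arc_w h cb.swap ou.1).2.trans (s.arc_w h cy.swap ou.1).2.symm))⟩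

end RR

/-- No state is confined at a cell with two rungs. -/
theorem loc_rr [DecidableEq V] [Finite V] [Finite J] (h : m.Ok) (e : m.Ext) (ne : x ≠ y)
    (rx : m.Rn a x) (ry : m.Rn a y) :
    ¬ m.Cn 1 T N U W (Ch x a y) (fun W => W a x ∧ W a y) a μ :=
  fun c => RR.false ⟨h, e.no2, c, ne, rx, ry⟩

end Map

end Pool.Agent.P.MP_5f84aa_co.G
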