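import Mathlib

/-! Many zones whose footprints meet only in a small set of hubs. -/

namespace Pool.Agent.P.MP_5f84aa_co.G

open Finset

/-- the zones of `X` have their cores off `H` and their footprints meet only in `H` -/
structure Spread {Z Ω : Type} (F core : Z → Finset Ω) (H : Finset Ω) (X : Finset Z) : Prop where
  off : ∀ z ∈ X, ∀ o ∈ core z, o ∉ H
  dis : ∀ z ∈ X, ∀ z' ∈ X, z ≠ z' → ∀ o ∈ F z, o ∈ F z' → o ∈ H

theorem iter {Z Ω : Type} [Finite Z] (F core : Z → Finset Ω) (c C a : ℕ)
    (hF : ∀ z, (F z).card ≤ c) (hc : ∀ z, core z ⊆ F z) (hne : ∀ z, (core z).Nonempty)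
    (H₀ : Finset Ω) (ha : H₀.card ≤ a)
    (sup : ∀ H : Finset Ω, H₀ ⊆ H → H.card ≤ (1 + c * C) ^ c * a → ∃ z, ∀ o ∈ core z, o ∉ H) :
    ∃ H X, H₀ ⊆ H ∧ Spread F core H X ∧ C * H.card ≤ X.card ∧ C * a ≤ X.card := by
  classical
  have := Fintype.ofFinite Z
  by_contra no
  have key : ∀ i : ℕ, ∃ H : Finset Ω, H₀ ⊆ H ∧ H.card ≤ (1 + c * C) ^ i * a ∧
      ∀ z, (∀ o ∈ core z, o ∉ H) → i ≤ (F z ∩ H).card := by
    intro i
    induction i with
    | zero => exact ⟨H₀, Subset.rfl, by simpa using ha, fun _ _ => Nat.zero_le _⟩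
    | succ i ih =>
      obtain ⟨H, h0, h1, h2⟩ := ih
      obtain ⟨X, hX, mx⟩ := exists_max_image (univ.filter fun X : Finset Z => Spread F core H X)
        card ⟨∅, mem_filter.2 ⟨mem_univ _, by simp, by simp⟩⟩
      have sp := (mem_filter.1 hX).2
      have p1 : a ≤ (1 + c * C) ^ i * a :=
        Nat.le_mul_of_pos_left _ (pow_pos (by omega) _)
      have sm : X.card ≤ C * ((1 + c * C) ^ i * a) := by
        by_contra lt
        exact no ⟨H, X, h0, sp, (Nat.mul_le_mul_left _ h1).trans (by omega),
          (Nat.mul_le_mul_left _ p1).trans (by omega)⟩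
      refine ⟨H ∪ X.biUnion F, h0.trans subset_union_left, ?_, fun z hz => ?_⟩
      · have := card_biUnion_le_card_mul X F c fun z _ => hF z
        have := card_union_le H (X.biUnion F)
        have e : (1 + c * C) ^ (i + 1) * a =
            (1 + c * C) ^ i * a + C * ((1 + c * C) ^ i * a) * c := by ring
        have := Nat.mul_le_mul_right c sm
        omega
      · have hz' : ∀ o ∈ core z, o ∉ H := fun o ho k => hz o ho (mem_union_left _ k)
        have nX : z ∉ X := fun k => by
          obtain ⟨o, ho⟩ := hne z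
          exact hz o ho (mem_union_right _ (mem_biUnion.2 ⟨z, k, hc z ho⟩))
        obtain ⟨o, o1, o2, o3⟩ : ∃ o ∈ F z, o ∉ H ∧ o ∈ X.biUnion F := by
          by_contra n
          have n' : ∀ z' ∈ X, ∀ o ∈ F z, o ∈ F z' → o ∈ H := fun z' k o ho ho' => by
            by_contra q
            exact n ⟨o, ho, q, mem_biUnion.2 ⟨z', k, ho'⟩⟩
          have := mx (insert z X) (mem_filter.2 ⟨mem_univ _, fun y hy => ?_, fun y hy y' hy' d => ?_⟩)
          · rw [card_insert_of_notMem nX] at this
            omega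
          · rcases mem_insert.1 hy with rfl | hy
            exacts [hz', sp.off y hy]
          · rcases mem_insert.1 hy with e | k <;> rcases mem_insert.1 hy' with e' | k'
            exacts [absurd (e.trans e'.symm) d, e ▸ n' y' k', fun o a b => n' y k o (e' ▸ b) a,
              sp.dis y k y' k' d]
        have s : insert o (F z ∩ H) ⊆ F z ∩ (H ∪ X.biUnion F) := by
          intro q hq
          rcases mem_insert.1 hq with rfl | hq
          · exact mem_inter.2 ⟨o1, mem_union_right _ o3⟩
          · exact mem_inter.2 ⟨(mem_inter.1 hq).1, mem_union_left _ (mem_inter.1 hq).2⟩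
        have := card_le_card s
        rw [card_insert_of_notMem fun k => o2 (mem_inter.1 k).2] at this
        have := h2 z hz'
        omega
  obtain ⟨H, h0, h1, h2⟩ := key c
  obtain ⟨z, hz⟩ := sup H h0 h1
  obtain ⟨o, ho⟩ := hne z
  have s : insert o (F z ∩ H) ⊆ F z := by
    intro q hq
    rcases mem_insert.1 hq with rfl | hq
    exacts [hc z ho, (mem_inter.1 hq).1]
  have := card_le_card s
  rw [card_insert_of_notMem fun k => hz o ho (mem_inter.1 k).2] at this
  have := h2 z hz
  have := hF z
  omega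

end Pool.Agent.P.MP_5f84aa_co.G
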