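import Pool.Agent.P.MP_5f84aa_co.G.RBas

/-! Off a small set of cells there is a long shortest path of corner pairs. -/

namespace Pool.Agent.P.MP_5f84aa_co.G

open Finset

/-- balls of a relation -/
def Bal {α : Type} (E : α → α → Prop) (v : α) : ℕ → Set α
  | 0 => {v}
  | n + 1 => Bal E v n ∪ {w | ∃ u ∈ Bal E v n, E u w}

section
variable {α : Type} {E : α → α → Prop} {v : α}

theorem Bal.mono {i k : ℕ} (h : i ≤ k) : Bal E v i ⊆ Bal E v k := by
  induction h with
  | refl => exact Set.Subset.rfl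
  | step _ ih => exact ih.trans Set.subset_union_left

theorem Bal.card [Finite α] {K : ℕ} (dg : ∀ u, {w | E u w}.ncard ≤ K) (n : ℕ) :
    (Bal E v n).ncard ≤ (K + 1) ^ n := by
  classical
  have := Fintype.ofFinite α
  induction n with
  | zero => simp [Bal]
  | succ n ih =>
    have s : Bal E v (n + 1) ⊆ ((Bal E v n).toFinset.biUnion fun u =>
        insert u {w | E u w}.toFinset : Finset α) := by
      rintro w (hw | ⟨u, hu, e⟩)
      · exact mem_coe.2 (mem_biUnion.2 ⟨w, by simpa using hw, mem_insert_self _ _⟩)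
      · exact mem_coe.2 (mem_biUnion.2 ⟨u, by simpa using hu, mem_insert_of_mem (by simpa using e)⟩)
    have h1 := Set.ncard_le_ncard s
    rw [Set.ncard_coe_finset] at h1
    have h2 := card_biUnion_le_card_mul (Bal E v n).toFinset
      (fun u => insert u {w | E u w}.toFinset) (K + 1) fun u _ =>
        (card_insert_le _ _).trans (by rw [← Set.ncard_eq_toFinset_card']; exact Nat.succ_le_succ (dg u))
    rw [← Set.ncard_eq_toFinset_card'] at h2
    exact h1.trans (h2.trans (by rw [pow_succ]; exact Nat.mul_le_mul_right _ ih))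

theorem Bal.path (n : ℕ) : ∀ w, w ∈ Bal E v n → (∀ i < n, w ∉ Bal E v i) → ∃ p : ℕ → α, p n = w ∧
    ∀ i ≤ n, p i ∈ Bal E v i ∧ (∀ k < i, p i ∉ Bal E v k) ∧ (i < n → E (p i) (p (i + 1))) := by
  induction n with
  | zero => exact fun w hw _ => ⟨fun _ => w, rfl, fun i hi => by
      obtain rfl : i = 0 := by omega
      exact ⟨hw, by simp, by simp⟩⟩
  | succ n ih =>
    rintro w hw no
    obtain ⟨u, hu, e⟩ := hw.resolve_left (no n (by omega))
    obtain ⟨p, p1, p2⟩ := ih u hu fun i hi k => no (i + 1) (by omega) (.inr ⟨u, k, e⟩)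
    refine ⟨fun i => if i ≤ n then p i else w, by simp, fun i hi => ?_⟩
    by_cases c : i ≤ n
    · simp only [if_pos c]
      refine ⟨(p2 i c).1, (p2 i c).2.1, fun _ => ?_⟩
      by_cases c' : i + 1 ≤ n
      · rw [if_pos c']; exact (p2 i c).2.2 c'
      · obtain rfl : i = n := by omega
        rw [if_neg c', p1]; exact e
    · obtain rfl : i = n + 1 := by omega
      simp only [if_neg c]
      exact ⟨hw, no, fun k => absurd k (by omega)⟩

/-- a small class, or a long shortest path -/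
theorem small_or_path [Finite α] {K : ℕ} (dg : ∀ u, {w | E u w}.ncard ≤ K) (L : ℕ) (v : α) :
    {w | Relation.ReflTransGen E v w}.ncard ≤ (K + 1) ^ L ∨ ∃ p : ℕ → α,
      (∀ i ≤ L, E (p i) (p (i + 1))) ∧
      ∀ i k, i < k → k ≤ L + 1 → p i ≠ p k ∧ (i + 1 < k → ¬ E (p i) (p k)) := by
  by_cases c : Bal E v (L + 1) ⊆ Bal E v L
  · refine .inl ((Set.ncard_le_ncard fun w hw => ?_).trans (Bal.card (v := v) dg L))
    induction hw with
    | refl => exact Bal.mono (Nat.zero_le L) rfl
    | tail _ e ih => exact c (.inr ⟨_, ih, e⟩)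
  · obtain ⟨w, h1, h2⟩ := Set.not_subset.1 c
    obtain ⟨p, -, p2⟩ := Bal.path (L + 1) w h1 fun i hi k => h2 (Bal.mono (by omega) k)
    refine .inr ⟨p, fun i hi => (p2 i (by omega)).2.2 (by omega), fun i k a b => ⟨fun e => ?_, fun d e => ?_⟩⟩
    · exact (p2 k b).2.1 i a (e ▸ (p2 i (by omega)).1)
    · exact (p2 k b).2.1 (i + 1) d (.inr ⟨_, (p2 i (by omega)).1, e⟩)

end

namespace Map

variable {V J Sg : Type} {m : Map V J Sg}

/-- corner pairs off `S` -/
def GS (m : Map V J Sg) (S : Finset V) (u v : V) : Prop := u ∉ S ∧ v ∉ S ∧ ∃ j, m.GE j u v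

theorem GS.symm {S : Finset V} {u v : V} (a : m.GS S u v) : m.GS S v u :=
  ⟨a.2.1, a.1, a.2.2.imp fun _ g => g.symm⟩

/-- if all classes off `S` are small, there are few cells -/
theorem Cnt.few (c : m.Cnt) [Finite V] [Finite J] {S : Finset V} (hS : ∀ v, ¬ m.Bd v → v ∈ S)
    {B : ℕ} (sm : ∀ v ∉ S, {w | Relation.ReflTransGen (m.GS S) v w}.ncard ≤ B) :
    Nat.card V ≤ (2 * B + 1) * S.card := by
  classical
  have := Fintype.ofFinite V
  have := Fintype.ofFinite J
  let cl : V → Finset V := fun v => univ.filter (Relation.ReflTransGen (m.GS S) v)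
  let Q := (univ \ S).image cl
  have sy : ∀ u v, Relation.ReflTransGen (m.GS S) u v → Relation.ReflTransGen (m.GS S) v u :=
    fun u v r => by
      induction r with
      | refl => exact .refl
      | tail _ e ih => exact .head e.symm ih
  have ec : ∀ u v, Relation.ReflTransGen (m.GS S) u v → cl u = cl v := fun u v r => by
    ext w
    simp only [cl, mem_filter, mem_univ, true_and]
    exact ⟨(sy _ _ r).trans, r.trans⟩
  have off : ∀ v ∉ S, ∀ w ∈ cl v, w ∉ S := fun v hv w hw => by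
    have := (mem_filter.1 hw).2
    induction this with
    | refl => exact hv
    | tail _ e _ => exact e.2.1
  have mq : ∀ T ∈ Q, ∀ w ∈ T, w ∉ S ∧ T = cl w := fun T hT w hw => by
    obtain ⟨v, hv, rfl⟩ := mem_image.1 hT
    exact ⟨off v (mem_sdiff.1 hv).2 w hw, ec _ _ (mem_filter.1 hw).2⟩
  have un : Q.biUnion id = univ \ S := by
    ext w
    simp only [mem_biUnion, id, mem_sdiff, mem_univ, true_and]
    exact ⟨fun ⟨T, a, b⟩ => (mq T a w b).1, fun a => ⟨cl w, mem_image_of_mem _ (by simpa using a),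
      mem_filter.2 ⟨mem_univ _, .refl⟩⟩⟩
  have h1 : (univ \ S).card = ∑ T ∈ Q, T.card := by
    rw [← un, card_biUnion]
    · rfl
    · exact fun T a T' b d => disjoint_left.2 fun w e f => d ((mq T a w e).2.trans (mq T' b w f).2.symm)
  let I : Finset V → Finset J := fun T => univ.filter fun j => m.L j ∈ T ∨ m.R j ∈ T
  have h2 : ∑ T ∈ Q, (I T).card ≤ Fintype.card J := by
    rw [← card_biUnion]
    · exact card_le_univ _
    · refine fun T a T' b d => disjoint_left.2 fun j e f => d ?_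
      have g : m.L j ∉ S → m.R j ∉ S → cl (m.L j) = cl (m.R j) := fun x y =>
        ec _ _ (.single ⟨x, y, j, fc_self j⟩)
      rcases (mem_filter.1 e).2 with e | e <;> rcases (mem_filter.1 f).2 with f | f
      · exact (mq T a _ e).2.trans (mq T' b _ f).2.symm
      · exact (mq T a _ e).2.trans ((g (mq T a _ e).1 (mq T' b _ f).1).trans (mq T' b _ f).2.symm)
      · exact (mq T a _ e).2.trans ((g (mq T' b _ f).1 (mq T a _ e).1).symm.trans (mq T' b _ f).2.symm)
      · exact (mq T a _ e).2.trans (mq T' b _ f).2.symm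
  have h3 : ∑ T ∈ Q, (2 * T.card + 1) ≤ ∑ T ∈ Q, (I T).card := sum_le_sum fun T a => by
    obtain ⟨v, hv, e⟩ := mem_image.1 a
    have := c.inc T ⟨v, e ▸ mem_coe.2 (mem_filter.2 ⟨mem_univ _, .refl⟩)⟩ fun w hw k =>
      (mq T a w hw).1 (hS w fun b => b k)
    rw [Set.ncard_coe_finset] at this
    refine this.trans (le_of_eq ?_)
    rw [← Set.ncard_coe_finset]
    congr 1
    ext j
    simp [I]
  have h4 : ∑ T ∈ Q, T.card ≤ Q.card * B := sum_le_card_nsmul _ _ _ fun T a => by
    obtain ⟨v, hv, rfl⟩ := mem_image.1 a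
    refine le_trans (le_of_eq ?_) (sm v (mem_sdiff.1 hv).2)
    rw [← Set.ncard_coe_finset]
    congr 1
    ext w
    simp [cl]
  rw [sum_add_distrib, ← mul_sum, ← h1, sum_const, smul_eq_mul, mul_one] at h3
  rw [← h1] at h4
  have h5 := c.euler
  have h6 : (univ \ S).card + S.card = Fintype.card V := by
    rw [card_sdiff_add_card_eq_card (subset_univ S), card_univ]
  rw [Nat.card_eq_fintype_card] at h5 ⊢
  rw [Nat.card_eq_fintype_card] at h5
  have h7 : Q.card * B ≤ 2 * S.card * B := Nat.mul_le_mul_right _ (by omega)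
  nlinarith

/-- a long shortest path of corner pairs off `S` -/
theorem Ok.geo (h : m.Ok) (c : m.Cnt) [Finite V] [Finite J] {S : Finset V}
    (hS : ∀ v, ¬ m.Bd v → v ∈ S) {K : ℕ} (dg : ∀ v ∉ S, m.deg v ≤ K) (L : ℕ)
    (big : (2 * (K + 1) ^ L + 1) * S.card < Nat.card V) : ∃ p : ℕ → V,
      (∀ i ≤ L + 1, p i ∉ S) ∧ (∀ i ≤ L, ∃ j, m.GE j (p i) (p (i + 1))) ∧
      ∀ i k, i < k → k ≤ L + 1 → p i ≠ p k ∧ (i + 1 < k → ∀ j, ¬ m.GE j (p i) (p k)) := by
  have dg' : ∀ u, {w | m.GS S u w}.ncard ≤ K := fun u => by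
    by_cases a : u ∈ S
    · rw [show {w | m.GS S u w} = ∅ from Set.eq_empty_of_forall_notMem fun w k => k.1 a]
      simp
    · refine le_trans (Set.ncard_le_ncard fun w k => ?_) (dg u a)
      obtain ⟨j, g⟩ := k.2.2
      exact h.adj12 g.fc
  by_contra no
  refine absurd (c.few hS fun v _ => (small_or_path dg' L v).resolve_right ?_) (by omega)
  rintro ⟨p, p1, p2⟩
  have off : ∀ i ≤ L + 1, p i ∉ S := fun i hi => by
    rcases Nat.eq_zero_or_pos i with rfl | a
    · exact (p1 0 (by omega)).1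
    · obtain ⟨i, rfl⟩ : ∃ k, i = k + 1 := ⟨i - 1, by omega⟩
      exact (p1 i (by omega)).2.1
  exact no ⟨p, off, fun i hi => (p1 i hi).2.2, fun i k a b => ⟨(p2 i k a b).1, fun d j g =>
    (p2 i k a b).2 d ⟨off i (by omega), off k b, j, g⟩⟩⟩

end Map

end Pool.Agent.P.MP_5f84aa_co.G
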