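import Mathlib

/-! Hubs and scattered sets in a graph with few edges. -/

namespace Pool.Agent.P.MP_5f84aa_co.G

open Finset

variable {V : Type}

/-- cells reached from `z` by at most `i` steps, each step leaving a cell with `P` -/
def Bl (A : V → V → Prop) (P : V → Prop) : ℕ → V → Set V
  | 0, z => {z}
  | i + 1, z => Bl A P i z ∪ {w | ∃ v ∈ Bl A P i z, P v ∧ A v w}

/-- the number of neighbours -/
noncomputable def dg (A : V → V → Prop) (v : V) : ℕ := {w | A v w}.ncard

variable {A : V → V → Prop} {P Q : V → Prop} {i k : ℕ} {v w x z : V}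

theorem Bl.self (i : ℕ) (z : V) : z ∈ Bl A P i z := by
  induction i with
  | zero => exact rfl
  | succ i ih => exact .inl ih

theorem Bl.succ (h : w ∈ Bl A P i z) : w ∈ Bl A P (i + 1) z := .inl h

theorem Bl.step (h : v ∈ Bl A P i z) (p : P v) (a : A v w) : w ∈ Bl A P (i + 1) z :=
  .inr ⟨v, h, p, a⟩

theorem Bl.le (h : w ∈ Bl A P i z) (e : i ≤ k) : w ∈ Bl A P k z := by
  induction e with
  | refl => exact h
  | step _ ih => exact Bl.succ ih

theorem Bl.trans (h : w ∈ Bl A P i z) (g : x ∈ Bl A P k w) : x ∈ Bl A P (i + k) z := by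
  induction k generalizing x with
  | zero => obtain rfl : x = w := g; exact h
  | succ k ih =>
    rcases g with g | ⟨v, g, p, a⟩
    exacts [Bl.succ (ih g), Bl.step (ih g) p a]

theorem Bl.front (p : P w) (a : A w v) (h : z ∈ Bl A P i v) : z ∈ Bl A P (i + 1) w := by
  have := Bl.trans (Bl.step (Bl.self 0 w) p a) h
  rwa [show 0 + 1 + i = i + 1 by omega] at this

theorem Bl.symm (s : ∀ u v, A u v → A v u) (h : w ∈ Bl A P i z) (p : P w) : z ∈ Bl A P i w := by
  induction i generalizing w with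
  | zero => obtain rfl : w = z := h; exact rfl
  | succ i ih =>
    rcases h with h | ⟨v, h, q, a⟩
    exacts [Bl.succ (ih h p), Bl.front p (s _ _ a) (ih h q)]

theorem Bl.mono {A' : V → V → Prop} (a : ∀ u v, P u → A u v → Q u ∧ A' u v) (h : w ∈ Bl A P i z) :
    w ∈ Bl A' Q i z := by
  induction i generalizing w with
  | zero => exact h
  | succ i ih =>
    rcases h with h | ⟨v, h, q, b⟩
    exacts [Bl.succ (ih h), Bl.step (ih h) (a _ _ q b).1 (a _ _ q b).2]

/-- two step conditions that agree on the ball give the same next ball -/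
theorem Bl.sub (e : ∀ v ∈ Bl A Q i z, P v → Q v) : ∀ k, k ≤ i + 1 → Bl A P k z ⊆ Bl A Q k z := by
  intro k
  induction k with
  | zero => exact fun _ _ h => h
  | succ k ih =>
    rintro l w (h | ⟨v, h, q, b⟩)
    · exact Bl.succ (ih (by omega) h)
    · have := ih (by omega) h
      exact Bl.step this (e v (Bl.le this (by omega)) q) b

theorem Bl.card [Finite V] {K : ℕ} (i : ℕ) (z : V) :
    (Bl A (fun v => dg A v ≤ K) i z).ncard ≤ (K + 1) ^ i := by
  classical
  induction i with
  | zero => simp [Bl]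
  | succ i ih =>
    set B := Bl A (fun v => dg A v ≤ K) i z with hB
    have f := Set.toFinite B
    have h1 : {w | ∃ v ∈ B, dg A v ≤ K ∧ A v w}.ncard ≤ B.ncard * K := by
      have e : {w | ∃ v ∈ B, dg A v ≤ K ∧ A v w} =
          ↑((f.toFinset.filter fun v => dg A v ≤ K).biUnion fun v => (Set.toFinite {w | A v w}).toFinset) := by
        ext w; simp [and_assoc]
      rw [e, Set.ncard_coe_finset]
      refine (card_biUnion_le_card_mul _ _ K fun v hv => ?_).trans ?_
      · rw [← Set.ncard_eq_toFinset_card]; exact (mem_filter.1 hv).2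
      · rw [Set.ncard_eq_toFinset_card B f]
        exact Nat.mul_le_mul_right _ (card_filter_le _ _)
    calc _ ≤ B.ncard + {w | ∃ v ∈ B, dg A v ≤ K ∧ A v w}.ncard := Set.ncard_union_le _ _
      _ ≤ B.ncard * (K + 1) := by rw [mul_add, mul_one]; omega
      _ ≤ (K + 1) ^ i * (K + 1) := Nat.mul_le_mul_right _ ih
      _ = _ := by ring

/-- no cell of the ball has a degree in the gap -/
def Gap (A : V → V → Prop) (K K' i : ℕ) (z : V) : Prop :=
  ∀ w ∈ Bl A (fun v => dg A v ≤ K) i z, dg A w ≤ K ∨ K' < dg A w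

theorem iter_mono {φ : ℕ → ℕ} (h : ∀ K, K ≤ φ K) (K : ℕ) : Monotone fun j => φ^[j] K :=
  monotone_nat_of_le_succ fun j => by rw [Function.iterate_succ_apply']; exact h _

/-- pigeonhole over the scales -/
theorem pigeon [Fintype V] {φ : ℕ → ℕ} (h : ∀ K, K ≤ φ K) (K M b : ℕ) (hM : 0 < M) (S : V → Set V)
    (hS : ∀ z, (S z).ncard ≤ b) (f : V → ℕ) :
    ∃ j < M, {z | ∃ w ∈ S z, φ^[j] K < f w ∧ f w ≤ φ^[j + 1] K}.ncard * M ≤ Fintype.card V * b := by
  classical
  by_contra c
  push Not at c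
  let r : ℕ → V → Prop := fun j z => ∃ w ∈ S z, φ^[j] K < f w ∧ f w ≤ φ^[j + 1] K
  have h1 : ∀ z, ((range M).filter fun j => r j z).card ≤ b := by
    intro z
    have : ∀ j : ℕ, ∃ w, r j z → w ∈ S z ∧ φ^[j] K < f w ∧ f w ≤ φ^[j + 1] K := fun j => by
      by_cases q : r j z
      · obtain ⟨w, a, b⟩ := q; exact ⟨w, fun _ => ⟨a, b⟩⟩
      · exact ⟨z, fun a => (q a).elim⟩
    choose g hg using this
    refine le_trans ?_ (hS z)
    rw [Set.ncard_eq_toFinset_card _ (Set.toFinite _)]
    refine card_le_card_of_injOn g (fun j hj => ?_) fun j hj j' hj' e => ?_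
    · simpa using (hg j (mem_filter.1 hj).2).1
    · have a := (hg j (mem_filter.1 hj).2).2
      have a' := (hg j' (mem_filter.1 hj').2).2
      rw [e] at a
      by_contra n
      rcases lt_or_gt_of_ne n with l | l
      · have := iter_mono h K (show j + 1 ≤ j' from l); simp only at this; omega
      · have := iter_mono h K (show j' + 1 ≤ j from l); simp only at this; omega
  have h2 : ∑ j ∈ range M, (univ.filter fun z => r j z).card =
      ∑ z, ((range M).filter fun j => r j z).card := by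
    simp only [card_filter]; exact sum_comm
  have h3 : ∑ z, ((range M).filter fun j => r j z).card ≤ Fintype.card V * b := by
    calc _ ≤ ∑ _z : V, b := sum_le_sum fun z _ => h1 z
      _ = _ := by simp
  have h4 : ∑ _j ∈ range M, (Fintype.card V * b + 1) ≤
      ∑ j ∈ range M, (univ.filter fun z => r j z).card * M := sum_le_sum fun j hj => by
    have := c j (mem_range.1 hj)
    rwa [show {z | ∃ w ∈ S z, φ^[j] K < f w ∧ f w ≤ φ^[j + 1] K} =
      ↑(univ.filter fun z => r j z) by ext; simp only [coe_filter, mem_univ, true_and, r], Set.ncard_coe_finset] at this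
  rw [← sum_mul, h2] at h4
  simp only [sum_const, card_range, smul_eq_mul] at h4
  nlinarith

/-- a scale at which most balls see no cell of medium degree -/
theorem gap (m : ℕ) (hm : 0 < m) (i : ℕ) : ∀ φ : ℕ → ℕ, (∀ K, K ≤ φ K) → ∃ K₀ : ℕ,
    ∀ (V : Type) [Fintype V] (A : V → V → Prop), ∃ K ≤ K₀,
      {z | ¬ Gap A K (φ K) i z}.ncard * m ≤ (i + 1) * Fintype.card V := by
  induction i with
  | zero =>
    intro φ h
    refine ⟨φ^[m] 0, fun V _ A => ?_⟩
    obtain ⟨j, l, e⟩ := pigeon h 0 m 1 hm (fun z : V => {z}) (by simp) (dg A)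
    refine ⟨φ^[j] 0, iter_mono h 0 l.le, le_trans (Nat.mul_le_mul_right _ ?_) (by simpa using e)⟩
    refine Set.ncard_le_ncard (fun z hz => ?_)
    simp only [Gap, Set.mem_ofPred_eq] at hz
    push Not at hz
    obtain ⟨w, a, b, c⟩ := hz
    obtain rfl : w = z := a
    simp only [Set.mem_ofPred_eq]
    rw [← Function.iterate_succ_apply' φ j 0] at c
    exact ⟨b, c⟩
  | succ i ih =>
    intro φ h
    let M : ℕ → ℕ := fun K => m * (K + 1) ^ (i + 1)
    obtain ⟨K₀, g⟩ := ih (fun K => φ^[M K] K) fun K => iter_mono h K (Nat.zero_le _)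
    refine ⟨(range (K₀ + 1)).sup fun K => φ^[M K] K, fun V _ A => ?_⟩
    obtain ⟨K, l, e⟩ := g V A
    have p : 0 < (K + 1) ^ (i + 1) := by positivity
    obtain ⟨j, l', e'⟩ := pigeon h K (M K) _ (Nat.mul_pos hm p)
      (fun z : V => Bl A (fun v => dg A v ≤ K) (i + 1) z) (fun z => Bl.card (i + 1) z) (dg A)
    have a1 : φ^[j] K ≤ φ^[M K] K := iter_mono h K l'.le
    refine ⟨φ^[j] K, a1.trans (le_sup (f := fun K => φ^[M K] K) (mem_range.2 (by omega))), ?_⟩
    set X := {z | ∃ w ∈ Bl A (fun v => dg A v ≤ K) (i + 1) z,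
      φ^[j] K < dg A w ∧ dg A w ≤ φ^[j + 1] K} with hX
    have e2 : X.ncard * m ≤ Fintype.card V := by
      refine Nat.le_of_mul_le_mul_right ?_ p
      rw [mul_assoc]; exact e'
    have s : {z | ¬ Gap A (φ^[j] K) (φ (φ^[j] K)) (i + 1) z} ⊆
        {z | ¬ Gap A K (φ^[M K] K) i z} ∪ X := by
      intro z hz
      by_cases q : Gap A K (φ^[M K] K) i z
      · right
        simp only [Gap, Set.mem_ofPred_eq] at hz
        push Not at hz
        obtain ⟨w, a, b, c⟩ := hz
        refine ⟨w, Bl.sub (fun v hv p => ?_) _ le_rfl a, b, by rwa [Function.iterate_succ_apply']⟩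
        rcases q v hv with r | r <;> omega
      · exact .inl q
    have := (Set.ncard_le_ncard s).trans (Set.ncard_union_le _ _)
    nlinarith

/-- a scattered subset -/
theorem scatter [Finite V] (s : ∀ u v, A u v → A v u) (C : Finset V) (p : ∀ z ∈ C, P z) {B : ℕ}
    (b : ∀ z ∈ C, (Bl A P i z).ncard ≤ B) :
    ∃ F ⊆ C, (∀ z ∈ F, ∀ w ∈ F, w ∈ Bl A P i z → w = z) ∧ C.card ≤ F.card * B := by
  classical
  let Sc : Finset V → Prop := fun F => ∀ z ∈ F, ∀ w ∈ F, w ∈ Bl A P i z → w = z
  obtain ⟨F, a, mx⟩ := @exists_max_image _ _ _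
    (@Finset.filter _ Sc (Classical.decPred _) C.powerset) card ⟨∅, by simp [Sc]⟩
  obtain ⟨a1, a2⟩ := (@mem_filter _ _ (Classical.decPred _) _ _).1 a
  have a1 := mem_powerset.1 a1
  refine ⟨F, a1, a2, le_trans (card_le_card (t := F.biUnion fun z =>
    (Set.toFinite (Bl A P i z)).toFinset) fun c hc => ?_) (card_biUnion_le_card_mul _ _ B fun z hz => ?_)⟩
  · by_contra n
    simp only [mem_biUnion, Set.Finite.mem_toFinset, not_exists, not_and] at n
    have nf : c ∉ F := fun q => n c q (Bl.self _ _)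
    have := mx (insert c F) ((@mem_filter _ _ (Classical.decPred _) _ _).2
        ⟨mem_powerset.2 (insert_subset hc a1), fun z hz w hw r => by
      rcases mem_insert.1 hz with e | hz' <;> rcases mem_insert.1 hw with e' | hw'
      · rw [e, e']
      · exact (n w hw' (e ▸ Bl.symm s r (p w (a1 hw')))).elim
      · exact (n z hz' (e' ▸ r)).elim
      · exact a2 z hz' w hw' r⟩)
    rw [card_insert_of_notMem nf] at this
    omega
  · rw [← Set.ncard_eq_toFinset_card]; exact b z (a1 hz)

/-- Hubs: few cells `H₀` outside which most balls of radius `d` are small. -/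
theorem hubs (d c : ℕ) : ∃ B₀ : ℕ, ∀ (V : Type) [Fintype V] (A : V → V → Prop),
    ∑ v, dg A v ≤ 6 * Fintype.card V → ∃ (B : ℕ) (H₀ G : Finset V), 0 < B ∧ B ≤ B₀ ∧
      H₀.card * (c * B) ≤ 6 * Fintype.card V ∧ 3 * Fintype.card V ≤ 4 * G.card ∧
      ∀ z ∈ G, ∀ P : V → Prop, (∀ v, P v → v ∉ H₀) → (Bl A P d z).ncard ≤ B := by
  classical
  obtain ⟨K₀, g⟩ := gap (4 * (d + 1)) (by omega) d (fun K => K + c * (K + 1) ^ d) (by omega)
  refine ⟨(K₀ + 1) ^ d, fun V _ A hs => ?_⟩
  obtain ⟨K, l, e⟩ := g V A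
  refine ⟨(K + 1) ^ d, univ.filter fun v => K + c * (K + 1) ^ d < dg A v,
    univ.filter fun z => Gap A K (K + c * (K + 1) ^ d) d z, by positivity,
    Nat.pow_le_pow_left (by omega) _, ?_, ?_, fun z hz P hP => ?_⟩
  · refine le_trans ?_ ((sum_le_sum_of_subset (subset_univ
      (univ.filter fun v => K + c * (K + 1) ^ d < dg A v))).trans hs)
    exact card_nsmul_le_sum _ _ _ fun v hv => by have := (mem_filter.1 hv).2; omega
  · have e1 := card_filter_add_card_filter_not (s := (univ : Finset V))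
      fun z => Gap A K (K + c * (K + 1) ^ d) d z
    rw [show {z | ¬ Gap A K (K + c * (K + 1) ^ d) d z} =
      ↑(univ.filter fun z => ¬ Gap A K (K + c * (K + 1) ^ d) d z) by ext; simp,
      Set.ncard_coe_finset] at e
    rw [card_univ] at e1
    have : (univ.filter fun z => ¬ Gap A K (K + c * (K + 1) ^ d) d z).card * 4 ≤ Fintype.card V := by
      refine Nat.le_of_mul_le_mul_right ?_ (show 0 < d + 1 by omega)
      nlinarith
    omega
  · refine le_trans (Set.ncard_le_ncard (Bl.sub (i := d) (fun v hv p => ?_) d (by omega))) (Bl.card d z)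
    rcases (mem_filter.1 hz).2 v hv with r | r
    · exact r
    · exact (hP v p (mem_filter.2 ⟨mem_univ _, r⟩)).elim

end Pool.Agent.P.MP_5f84aa_co.G
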