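import Pool.Agent.P.MP_5f84aa_co.G.RIf

/-! Part R2: cells off the rings are attached to the boundary or to marked cells. -/

namespace Pool.Agent.P.MP_5f84aa_co.G

namespace RTATT

theorem ncard_union_le {V : Type} [Finite V] (g : V → Set V) (k : ℕ) (hg : ∀ c, (g c).ncard ≤ k)
    (T : Set V) : {z | ∃ c ∈ T, z ∈ g c}.ncard ≤ k * T.ncard := by
  induction T, Set.toFinite T using Set.Finite.induction_on with
  | empty => simp
  | @insert a s ha hs ih =>
    have e : {z | ∃ c ∈ insert a s, z ∈ g c} = g a ∪ {z | ∃ c ∈ s, z ∈ g c} := by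
      ext z; simp
    rw [e, Set.ncard_insert_of_notMem ha hs]
    have := Set.ncard_union_le (g a) {z | ∃ c ∈ s, z ∈ g c}
    have := hg a
    nlinarith

/-- the objects at the ends of the rung of `c` -/
def fl1 (D : Cb) (c : D.V) : Set D.V := {z | ∃ x y, D.Fl c x y ∧ D.U x ∧ z ∈ D.ob x}

/-- the cells linked to `a` -/
def lk1 (D : Cb) (a : D.V) : Set D.V := {z | D.Lk a z}

theorem ob_card (D : Cb) (x : D.V) : (D.ob x).ncard ≤ 2 := by
  have := Set.ncard_insert_le x ({D.p x} : Set D.V)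
  rw [Set.ncard_singleton] at this
  exact this

theorem ob_fin (D : Cb) (x : D.V) : (D.ob x).Finite := Set.toFinite ({x, D.p x} : Set D.V)

theorem fl1_card (D : Cb) (h : D.Ok) (c : D.V) : (fl1 D c).ncard ≤ 4 := by
  by_cases e : ∃ x y, D.Fl c x y
  · obtain ⟨x, y, f⟩ := e
    have s : fl1 D c ⊆ D.ob x ∪ D.ob y := by
      rintro z ⟨u, v, f', -, hz⟩
      rcases h.fl_unique f f' with ⟨rfl, -⟩ | ⟨rfl, -⟩
      exacts [.inl hz, .inr hz]
    have a := Set.ncard_le_ncard s ((ob_fin D x).union (ob_fin D y))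
    have b := Set.ncard_union_le (D.ob x) (D.ob y)
    have := ob_card D x
    have := ob_card D y
    omega
  · have s : fl1 D c = ∅ := by
      ext z
      simp only [Set.mem_empty_iff_false, iff_false]
      rintro ⟨u, v, f', -⟩
      exact e ⟨u, v, f'⟩
    simp [s]

theorem lk1_card (hLKU : S_LKU) (D : Cb) (h : D.Ok) (a : D.V) : (lk1 D a).ncard ≤ 2 := by
  by_cases e : ∃ b, D.Lk a b
  · obtain ⟨b, l⟩ := e
    have s : lk1 D a ⊆ D.ob b := fun z hz => hLKU D h a b z l hz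
    exact (Set.ncard_le_ncard s (ob_fin D b)).trans (ob_card D b)
  · have s : lk1 D a = ∅ := by
      ext z
      simp only [Set.mem_empty_iff_false, iff_false]
      exact fun l => e ⟨z, l⟩
    simp [s]

/-- one layer -/
def ex {V : Type} (g : V → Set V) (T : Set V) : Set V := T ∪ {z | ∃ c ∈ T, z ∈ g c}

theorem ex_card {V : Type} [Finite V] (g : V → Set V) (k : ℕ) (hg : ∀ c, (g c).ncard ≤ k)
    (T : Set V) : (ex g T).ncard ≤ (k + 1) * T.ncard := by
  have a := Set.ncard_union_le T {z | ∃ c ∈ T, z ∈ g c}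
  have b := ncard_union_le g k hg T
  unfold ex
  nlinarith

end RTATT

open RTATT in
theorem t_ATT (hLA : S_LA) (hLKU : S_LKU) : S_ATT := by
  intro D h ng B Ω wB cl nr
  have := h.fV
  have H := h.toOk
  -- closure facts
  have obΩ : ∀ z ∈ Ω, D.U z → ∀ x ∈ D.ob z, x ∈ Ω := by
    rintro z hz u x (rfl | rfl)
    exacts [hz, H.cl_p wB cl u hz]
  have nb : ∀ x ∈ Ω, ∀ y, D.m.Adj x y → y ∈ Ω ∨ y ∈ B := fun x hx y a =>
    (em (y ∈ B)).elim .inr fun n => .inl (cl.2 x hx y a n)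
  have st : ∀ z ∈ Ω, ¬ D.Mk z → ∀ b, D.Df z b → D.GA z b → ¬ D.Lk z b → ∃ c, D.St z b c := by
    intro z hz nm b df ga nl
    rcases hLA D h z b df ga nl with g | g | g | g
    · exact absurd g ng
    · exact absurd (.inr (.inl ⟨df.1, g⟩)) nm
    · exact absurd g (nr z hz)
    · exact g
  have act : ∀ z, ¬ D.Mk z → ∃ b, D.Df z b ∧ D.GA z b := by
    intro z nm
    by_contra n
    exact nm (.inr (.inr ⟨fun s => nm (.inl s), .inl fun b df ga => n ⟨b, df, ga⟩⟩))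
  set T0 : Set D.V := B ∪ {x | D.Mk x} with hT0
  have c1 : ∀ z, z ∈ Ω ∨ z ∈ B → D.Mg z → z ∈ ex (fl1 D.toCb) T0 := by
    intro z hz mg
    by_cases nm : D.Mk z
    · exact .inl (.inr nm)
    rcases hz with hz | hz
    swap
    · exact .inl (.inl hz)
    obtain ⟨b, df, ga⟩ := act z nm
    obtain ⟨c, -, -, -, fo, dg⟩ := st z hz nm b df ga fun l => l.2.1 mg
    have dg' : D.Dig b c := dg.resolve_right fun t => t.1 mg
    have rc : D.Rg c := .inl ⟨b, H.fo_df fo.symm df.2.1, H.fo_oa fo.symm, dg'.symm⟩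
    obtain ⟨x, hx, y, -, f⟩ := fo
    have cB : c ∈ B :=
      (nb x (obΩ z hz df.1 x hx) c (H.fl_adj f (Cb.self_ob c)).symm).resolve_left fun n => nr c n rc
    exact .inr ⟨c, .inl cB, x, y, f, H.ob_U df.1 hx, H.ob_symm df.1 hx⟩
  have c2 : ∀ z, z ∈ Ω ∨ z ∈ B → ∀ b, D.Df z b → D.GA z b → ¬ D.Lk z b →
      z ∈ ex (fl1 D.toCb) (ex (fl1 D.toCb) T0) := by
    intro z hz b df ga nl
    by_cases nm : D.Mk z
    · exact .inl (.inl (.inr nm))
    rcases hz with hz | hz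
    swap
    · exact .inl (.inl (.inl hz))
    obtain ⟨c, -, -, -, fo, -⟩ := st z hz nm b df ga nl
    have mc := H.fo_mg fo
    obtain ⟨x, hx, y, -, f⟩ := fo
    have cB := nb x (obΩ z hz df.1 x hx) c (H.fl_adj f (Cb.self_ob c)).symm
    exact .inr ⟨c, c1 c cB mc, x, y, f, H.ob_U df.1 hx, H.ob_symm df.1 hx⟩
  have c3 : Ω ⊆ ex (lk1 D.toCb) (ex (fl1 D.toCb) (ex (fl1 D.toCb) T0)) := by
    intro z hz
    by_cases nm : D.Mk z
    · exact .inl (.inl (.inl (.inr nm)))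
    obtain ⟨b, df, ga⟩ := act z nm
    by_cases l : D.Lk z b
    swap
    · exact .inl (c2 z (.inl hz) b df ga l)
    have : ∃ b₂, D.U b₂ ∧ (D.GA z b₂ ∨ D.GA b b₂) ∧ b₂ ∉ D.ob z ∪ D.ob b := by
      by_contra n
      refine nm (.inr (.inr ⟨df.1, .inr ⟨b, l, fun b₂ u g => ?_⟩⟩))
      by_contra n'
      exact n ⟨b₂, u, g, n'⟩
    obtain ⟨b₂, u, g | g, n⟩ := this
    · exact .inl (c2 z (.inl hz) b₂ ⟨df.1, u, fun e => n (.inl e)⟩ g
        fun l' => n (.inr (hLKU D.toCb H z b b₂ l l')))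
    · have l' := H.lk_symm l
      have bB : b ∈ Ω ∨ b ∈ B := by
        obtain ⟨q, x, hx, y, hy, ge⟩ := ga
        have hb := H.ob_symm df.2.1 hy
        rcases nb x (obΩ z hz df.1 x hx) y (H.mo.adj12 ge) with e | e
        · exact .inl (obΩ y e (H.ob_U df.2.1 hy) b hb)
        · exact .inr (wB.ob_sub e hb)
      exact .inr ⟨b, c2 b bB b₂ ⟨df.2.1, u, fun e => n (.inr e)⟩ g
        (fun l'' => n (.inl (hLKU D.toCb H b z b₂ l' l''))), l'⟩
  have k0 : T0.ncard ≤ B.ncard + {x | D.Mk x}.ncard := Set.ncard_union_le _ _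
  have k1 := ex_card (fl1 D.toCb) 4 (fl1_card D.toCb H) T0
  have k2 := ex_card (fl1 D.toCb) 4 (fl1_card D.toCb H) (ex (fl1 D.toCb) T0)
  have k3 := ex_card (lk1 D.toCb) 2 (lk1_card hLKU D.toCb H) (ex (fl1 D.toCb) (ex (fl1 D.toCb) T0))
  have k4 := Set.ncard_le_ncard c3 (Set.toFinite _)
  omega

end Pool.Agent.P.MP_5f84aa_co.G
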