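import Pool.Agent.P.MP_5f84aa_co.G.RIf

namespace Pool.Agent.P.MP_5f84aa_co.G

namespace RTBMP

/-- the first corner of `c` towards `p x` on one side of the cycle -/
theorem one (hFCM : S_FCM) {D : Cf} (h : D.Ok) {x y c : D.V} {E : D.W → D.W → Prop} {G : Set D.I}
    (e : D.Df x y) (ny : ¬ D.Mg y) (fx : D.Far 2 x) (fc : D.Far 2 c)
    (s : D.Th E G (D.ob x ∪ D.ob y ∪ D.ob c) c (D.p x) (D.p y)) :
    D.Good ∨ D.GA x c ∨ ∃ ψ ∈ G, ∃ d ∈ D.ob c, ∃ z ∈ D.ob y, D.m.GE (D.ι ψ) d z ∧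
      D.n.GE ψ (D.π c) (D.π z) ∧ D.n.hug ψ (D.m.ln c (D.p x)) := by
  have := h.fW
  have := h.fI
  have k := h.toOk
  have f := s.2.1
  have uc := f.1
  have wh : D.Wh (D.ob x ∪ D.ob y ∪ D.ob c) :=
    ((k.wh_ob e.1).union (k.wh_ob e.2.1)).union (k.wh_ob uc)
  obtain ⟨ψ, hψ, cor, hug⟩ := h.no.first_corner (F := G) (h.bd_pi uc)
    (fun w => (s.1.2.1 _ w).trans (s.2.2 w))
    (by rw [(h.fl_ln_push f).2, (h.fl_ln_push f.symm).2]; exact k.fl_ln f)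
  rw [(h.fl_ln_push f).2] at hug
  obtain ⟨d, hd, pd, z, g, pz⟩ := h.cor_lift uc cor
  by_cases hz : z ∈ D.ob x ∪ D.ob y ∪ D.ob c
  · rcases hz with (hz | hz) | hz
    · exact .inr (.inl ⟨_, z, hz, d, hd, g.symm⟩)
    · exact .inr (.inr ⟨ψ, hψ, d, hd, z, hz, g, pd ▸ (h.push g.fc).ge, hug⟩)
    · exact absurd ((h.pi_mg uc (k.fl_mg f)).2 hz) pz
  have fz : D.Far 1 z := (k.far_ob fc hd).adj (h.mo.adj12 g)
  have zK : z ∈ D.Ks G (D.ob x ∪ D.ob y ∪ D.ob c) :=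
    (h.Ks_iff s.1 hz (h.has_push g.fc.has2)).2 hψ
  rcases hFCM D h E G _ d _ _ ψ z (h.th_congr s hd) hψ g
    (by rw [k.fl_ln_ob f hd]; exact h.hug_iff.1 hug) fz.U zK (k.cl_p wh (h.cl_Ks s.1) fz.U zK)
    (k.far_tn (k.far_p fz)) (k.far_p fx) with q | ⟨b, b1, b2, b3⟩ | ⟨q, g'⟩
  · exact .inl q
  · rw [k.ob_eq uc hd, k.ob_p e.1] at b2
    rcases b1 with (b1 | b1) | b1
    · exact absurd (.inr b1) b2
    · exact absurd ((k.mg_congr e.2.1 b1).1 (k.fl_mg b3)) ny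
    · exact absurd (.inl b1) b2
  · exact .inr (.inl ⟨q, _, Cb.p_ob x, d, hd, g'⟩)

/-- two corners with the same stem do not have the same bar -/
theorem two {V J Sg : Type} {m : Map V J Sg} (h : m.Ok) {a b : J} {c u v : V} {t t2 : Sg}
    (bc : m.Bd c) (n : a ≠ b) (ga : m.GE a c u) (gb : m.GE b c v) (lu : m.ln c u = t2)
    (lv : m.ln c v = t2) (ht : t ≠ t2) (ha : m.hug a t) (hb : m.hug b t) : False := by
  have ia := bc.ne_inf ga.fc.has1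
  have ib := bc.ne_inf gb.fc.has1
  have sa := (h.lines ga.fc ia).1.symm.trans lu
  have sb := (h.lines gb.fc ib).1.symm.trans lv
  exact h.bars_ne a b n ia ib (sa.trans sb.symm)
    ((ha.resolve_left fun q => ht (q.symm.trans sa)).trans
      (hb.resolve_left fun q => ht (q.symm.trans sb)).symm)

end RTBMP

theorem t_BMP (hCY4 : S_CY4) (hFCM : S_FCM) : S_BMP := by
  intro D h x y c e mx ny a cx f fx fc
  have k := h.toOk
  obtain ⟨F, -, s⟩ := hCY4 D h x y c e mx ny a cx f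
  rcases RTBMP.one hFCM h e ny fx fc s with q | q | ⟨ψ, hψ, d, hd, z, hz, g, ng, hug⟩
  · exact .inl q
  · exact .inr (.inl q)
  rcases RTBMP.one hFCM h e ny fx fc (h.th_compl s) with
    q | q | ⟨ψ', hψ', d', hd', z', hz', g', ng', hug'⟩
  · exact .inl q
  · exact .inr (.inl q)
  have n : ψ ≠ ψ' := fun q => hψ' (q ▸ hψ)
  have bc := h.bd_pi f.1
  have l2 := (h.fl_ln_push f.symm).2
  have ht := k.fl_ln f
  have yy := h.pi_ne_p e.2.1 ny
  have mix : ∀ {a b : D.I} {u v : D.V}, a ≠ b → u ∈ D.ob c → v ∈ D.ob c → D.m.GE (D.ι a) u y →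
      D.m.GE (D.ι b) v (D.p y) → D.n.GE a (D.π c) (D.π y) → D.n.GE b (D.π c) (D.π (D.p y)) →
      D.n.hug a (D.m.ln c (D.p x)) → D.n.hug b (D.m.ln c (D.p x)) →
      (D.T3 c y ∧ D.GA c y) ∨
        ∃ r, D.n.Tri r (D.π c) (D.π y) (D.π (D.p y)) ∧ D.n.cor r (D.π c) := by
    intro a b u v ab hu hv g1 g2 n1 n2 ha hb
    by_cases t : ∃ r, D.n.Tri r (D.π c) (D.π y) (D.π (D.p y))
    · obtain ⟨r, t⟩ := t
      rcases h.no.tri_cases t (h.no.fc_ne n1.fc).1 (h.no.fc_ne n2.fc).1 yy with w | w | w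
      · exact .inr ⟨r, t, w.cor1⟩
      · obtain ⟨-, w1, w2, -⟩ := h.no.lines w (bc.ne_inf t.1)
        refine (RTBMP.two h.no bc ab n1 n2 ?_ l2 ht ha hb).elim
        rw [← l2, h.no.ln_symm, w1, h.no.ln_symm, w2]
      · exact .inr ⟨r, t, w.cor2⟩
    · exact .inl ⟨⟨⟨u, hu, h.mo.adj12 g1⟩, ⟨v, hv, h.mo.adj12 g2⟩, fun r q => t ⟨r, q⟩⟩,
        _, u, hu, y, Cb.self_ob y, g1⟩
  rcases hz with rfl | rfl <;> rcases hz' with q | rfl
  · subst q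
    refine absurd (s.1.2.1.same (fun w => ?_) (h.no.fc_ne ng.fc).1 ng.fc.on ng'.fc.on hψ) hψ'
    rcases (s.2.2 _).1 w with w | w
    · exact h.pi_ne (k.pU x e.1) (by rw [k.ob_p e.1]; exact e.2.2) w
    · exact yy w
  · exact .inr (.inr (mix n hd hd' g g' ng ng' hug hug'))
  · subst q
    exact .inr (.inr (mix n.symm hd' hd g' g ng' ng hug' hug))
  · exact (RTBMP.two h.no bc n ng ng' l2 l2 ht hug hug').elim

end Pool.Agent.P.MP_5f84aa_co.G
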