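import Pool.Agent.P.MP_5f84aa_co.G.RIf

/-! Part R2: a corner of a merged object on the side of a cycle. -/

namespace Pool.Agent.P.MP_5f84aa_co.G

theorem t_CM (hHS : S_HS) (hMV1 : S_MV1) (hMV2 : S_MV2) : S_CM := by
  intro D h E F Γ c x y r e th rF g Ue pe nT
  have Uc : D.U c := th.2.1.1
  have Mc : D.Mg c := h.toOk.fl_mg th.2.1
  have nb : ¬ D.m.has (D.ι r) (D.p c) := h.not_both Uc Mc g.fc.has1
  have ec : e ≠ c := (h.mo.fc_ne g.fc).1.symm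
  have ep : e ≠ D.p c := fun q => nb (q ▸ g.fc.has2)
  have df : D.Df c e := ⟨Uc, Ue, fun q => q.elim ec ep⟩
  obtain ⟨d, hd, H⟩ := hHS D h E F Γ c x y th
  have dc : d = c := hd.resolve_right fun q => nb (q ▸ (H r (h.has_push g.fc.has1)).1 rF)
  rw [dc] at H
  have B : ∀ r', D.m.has (D.ι r') (D.p c) → r' ∉ F := fun r' a b =>
    h.not_both Uc Mc ((H r' (h.pi_p Uc Mc ▸ h.has_push a)).1 b) a
  have cΓ : D.π c ∈ D.π '' Γ := th.1.2.2 _ _ ((th.2.2 _).2 (.inl rfl))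
  have A : ∀ v ∈ D.Ks F Γ, ¬ D.m.Adj (D.p c) v := fun v hv a => by
    have ne : D.π (D.p c) ≠ D.π v := fun q => by
      rw [h.pi_p Uc Mc] at q
      exact hv.1 ((h.mem_pi th.1.1).1 (q ▸ cΓ))
    obtain ⟨r', a1, a2⟩ := h.te a ne
    exact B r' a1 ((h.Ks_iff th.1 hv.1 a2.2).1 hv)
  have nA : ¬ D.m.Adj (D.p c) (D.p e) := A _ pe
  have fX : ∀ q', D.m.far (D.ι r) q' → D.m.X q' ≠ D.p c := fun q' fr q => by
    have g' := h.mo.far_ge fr g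
    have g2 := h.toOk.merged Uc Mc (j := q') ⟨g'.fc.has1, q ▸ g'.fc.has3⟩
    rcases g'.fc.cor_iff.1 g2.fc.cor2 with t | t
    exacts [h.toOk.p_ne Uc t, ep t.symm]
  have blk : ∀ d, D.Fl d (D.p c) (D.p e) → d ∈ Γ := fun d f => by_contra fun nd =>
    A d ((h.cl_Ks th.1).2 _ pe d (h.toOk.fl_adj f.symm (Cb.self_ob d)).symm nd)
      (h.toOk.fl_adj f (Cb.self_ob d)).symm
  refine ⟨?_, fun hX => ?_⟩
  · rcases hMV2 D.toCb h.toOk (D.ι r) c e df g nA (fun q' fr q => by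
      rcases Sym2.eq_iff.1 q with ⟨t, -⟩ | ⟨-, t⟩
      exacts [nb (t ▸ g.fc.has3), fX q' fr t]) with G | ⟨-, T⟩ | ⟨d, nd, f⟩
    exacts [.inl G, (nT T).elim, .inr ⟨d, blk d f, nd, f⟩]
  · rcases hMV1 D.toCb h.toOk (D.ι r) c e df
      ⟨g, fun a => (nA a).elim, fun q' fr => ⟨fX q' fr, hX q' fr⟩⟩ with G | ⟨-, T⟩ | ⟨d, nd, f⟩
    exacts [.inl G, (nT T).elim, .inr ⟨d, blk d f.1, nd, f⟩]

end Pool.Agent.P.MP_5f84aa_co.G
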