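import Pool.Agent.P.MP_5f84aa_co.G.RIf

/-! Part R2: the short cycles of the contraction. -/

namespace Pool.Agent.P.MP_5f84aa_co.G

namespace RTCY

variable {V : Type} {a b c d e u v w : V}

theorem e3_mem (t : E3 a b c u v) : u = a ∨ u = b ∨ u = c := by
  simp only [E3, Sym2.eq_iff] at t; grind

theorem e4_mem (t : E4 a b c d u v) : u = a ∨ u = b ∨ u = c ∨ u = d := by
  simp only [E4, Sym2.eq_iff] at t; grind

theorem e5_mem (t : E5 a b c d e u v) : u = a ∨ u = b ∨ u = c ∨ u = d ∨ u = e := by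
  simp only [E5, Sym2.eq_iff] at t; grind

theorem e3_last (h1 : c ≠ a) (h2 : c ≠ b) : E3 a b c c w ↔ w = a ∨ w = b := by
  simp only [E3, Sym2.eq_iff]; grind

theorem e4_last (h1 : d ≠ a) (h2 : d ≠ b) (h3 : d ≠ c) : E4 a b c d d w ↔ w = a ∨ w = c := by
  simp only [E4, Sym2.eq_iff]; grind

theorem e5_last (h1 : e ≠ a) (h2 : e ≠ b) (h3 : e ≠ c) (h4 : e ≠ d) :
    E5 a b c d e e w ↔ w = a ∨ w = d := by
  simp only [E5, Sym2.eq_iff]; grind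

/-- a merged cell does not lie in a plain object -/
theorem mg_not {D : Cb} (h : D.Ok) {c x : D.V} (ux : D.U x) (mc : D.Mg c) (n : ¬ D.Mg x) :
    c ∉ D.ob x := fun t => n ((h.mg_congr ux t).1 mc)

end RTCY

open RTCY

theorem t_CY3B : S_CY3B := by
  intro D h q x y c e mx my g _ b
  have f := b.1
  have ux := e.1
  have uy := e.2.1
  have px := h.pi_p ux mx
  have py := h.pi_p uy my
  have xy : D.π x ≠ D.π y := (h.pi_ne ux e.2.2).symm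
  have axy := h.adj_push (h.mo.adj12 g) xy
  have lxy : D.n.ln (D.π x) (D.π y) = D.m.stem q := (h.ln_push (h.mo.adj12 g) xy).trans
    (h.mo.lines g.fc ((h.bd x ux).ne_inf g.fc.has1)).1
  obtain ⟨cx, lcx⟩ := h.fl_ln_push f
  obtain ⟨cy, lcy⟩ := h.fl_ln_push f.symm
  have acx := h.adj_push (h.toOk.fl_adj f (Cb.self_ob c)) cx
  have acy := h.adj_push (h.toOk.fl_adj f.symm (Cb.self_ob c)) cy
  rw [px] at cx lcx acx
  rw [py] at cy lcy acy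
  refine ⟨fun r => h.no.not_tri (h.bd_pi ux) xy cx.symm cy.symm ?_ ?_ ?_, ?_⟩
  · rw [lxy, h.no.ln_symm, lcx]
    exact fun t => b.2.1 (.inl t)
  · rw [lxy, h.no.ln_symm, lcy]
    exact fun t => b.2.2 (.inl t)
  · rw [h.no.ln_symm, lcx, h.no.ln_symm, lcy]
    exact h.toOk.fl_ln f
  obtain ⟨F, s, i⟩ := h.no.side3 axy acy.symm acx
  refine ⟨F, i, ⟨(((h.toOk.wh_ob ux).union (h.toOk.wh_ob uy)).union (h.toOk.wh_ob f.1)).sat, s,
    fun u v t => ?_⟩, f, fun w => by rw [px, py]; exact e3_last cx cy⟩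
  rcases e3_mem t with rfl | rfl | rfl
  exacts [⟨x, .inl (.inl (Cb.self_ob x)), rfl⟩, ⟨y, .inl (.inr (Cb.self_ob y)), rfl⟩,
    ⟨c, .inr (Cb.self_ob c), rfl⟩]

theorem t_CY3 : S_CY3 := by
  intro D h c b e mc nb ⟨x, hx, ax⟩ ⟨y, hy, ay⟩
  have uc := e.1
  have ub := e.2.1
  have ex := (h.pi_mg uc mc).2 hx
  have ey := (h.pi_mg uc mc).2 hy
  have cb : D.π c ≠ D.π b := (h.pi_ne uc e.2.2).symm
  have cp : D.π c ≠ D.π (D.p b) :=
    (h.pi_ne uc (h.toOk.df_disj (h.toOk.df_symm e) (Cb.p_ob b))).symm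
  have a1 := h.adj_push ax (by rwa [ex])
  have a2 := h.adj_push ay (by rwa [ey])
  rw [ex] at a1
  rw [ey] at a2
  obtain ⟨F, s, i⟩ := h.no.side3 a1 (h.adj_push (h.toOk.adj_p ub) (h.pi_ne_p ub nb)) a2.symm
  refine ⟨F, i, ((h.toOk.wh_ob uc).union (h.toOk.wh_ob ub)).sat, s, fun u v t => ?_⟩
  rcases e3_mem t with rfl | rfl | rfl
  exacts [⟨c, .inl (Cb.self_ob c), rfl⟩, ⟨b, .inr (Cb.self_ob b), rfl⟩, ⟨_, .inr (Cb.p_ob b), rfl⟩]

theorem t_CY3D : S_CY3D := by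
  intro D h a c ua f
  have na : ¬ D.Mg a := fun n => h.toOk.fl_mg_not f ua n (Cb.p_ob a)
  obtain ⟨cx, -⟩ := h.fl_ln_push f
  obtain ⟨cy, -⟩ := h.fl_ln_push f.symm
  have acx := h.adj_push (h.toOk.fl_adj f (Cb.self_ob c)) cx
  have acy := h.adj_push (h.toOk.fl_adj f.symm (Cb.self_ob c)) cy
  obtain ⟨F, s, i⟩ := h.no.side3 (h.adj_push (h.toOk.adj_p ua) (h.pi_ne_p ua na)) acy.symm acx
  refine ⟨na, F, i, ⟨((h.toOk.wh_ob ua).union (h.toOk.wh_ob f.1)).sat, s, fun u v t => ?_⟩, f,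
    fun w => e3_last cx cy⟩
  rcases e3_mem t with rfl | rfl | rfl
  exacts [⟨a, .inl (Cb.self_ob a), rfl⟩, ⟨_, .inl (Cb.p_ob a), rfl⟩, ⟨c, .inr (Cb.self_ob c), rfl⟩]

theorem t_CY4 : S_CY4 := by
  intro D h x y c e mx ny a _ f
  have ux := e.1
  have uy := e.2.1
  have px := h.pi_p ux mx
  have xy : D.π x ≠ D.π y := (h.pi_ne ux e.2.2).symm
  have xp : D.π x ≠ D.π (D.p y) :=
    (h.pi_ne ux (h.toOk.df_disj (h.toOk.df_symm e) (Cb.p_ob y))).symm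
  have cy : D.π c ≠ D.π y := h.pi_ne uy (mg_not h.toOk uy (h.toOk.fl_mg f) ny)
  obtain ⟨cx, -⟩ := h.fl_ln_push f
  obtain ⟨cp, -⟩ := h.fl_ln_push f.symm
  have acx := h.adj_push (h.toOk.fl_adj f (Cb.self_ob c)) cx
  have acp := h.adj_push (h.toOk.fl_adj f.symm (Cb.self_ob c)) cp
  rw [px] at cx acx
  obtain ⟨F, s, i⟩ := h.no.side4 (h.adj_push a xy)
    (h.adj_push (h.toOk.adj_p uy) (h.pi_ne_p uy ny)) acp.symm acx xp cy.symm
  refine ⟨F, i, ⟨(((h.toOk.wh_ob ux).union (h.toOk.wh_ob uy)).union (h.toOk.wh_ob f.1)).sat, s,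
    fun u v t => ?_⟩, f, fun w => by rw [px]; exact e4_last cx cy cp⟩
  rcases e4_mem t with rfl | rfl | rfl | rfl
  exacts [⟨x, .inl (.inl (Cb.self_ob x)), rfl⟩, ⟨y, .inl (.inr (Cb.self_ob y)), rfl⟩,
    ⟨_, .inl (.inr (Cb.p_ob y)), rfl⟩, ⟨c, .inr (Cb.self_ob c), rfl⟩]

theorem t_CY5 : S_CY5 := by
  intro D h x y c e nx ny a f
  have ux := e.1
  have uy := e.2.1
  have e' := h.toOk.df_symm e
  have xy : D.π x ≠ D.π y := (h.pi_ne ux e.2.2).symm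
  have xp : D.π x ≠ D.π (D.p y) := (h.pi_ne ux (h.toOk.df_disj e' (Cb.p_ob y))).symm
  have py : D.π (D.p x) ≠ D.π y := h.pi_ne uy (h.toOk.df_disj e (Cb.p_ob x))
  have pp : D.π (D.p x) ≠ D.π (D.p y) := h.pi_ne (h.pU y uy) <| by
    rw [h.toOk.ob_p uy]; exact h.toOk.df_disj e (Cb.p_ob x)
  have cx : D.π c ≠ D.π x := h.pi_ne ux (mg_not h.toOk ux (h.toOk.fl_mg f) nx)
  have cy : D.π c ≠ D.π y := h.pi_ne uy (mg_not h.toOk uy (h.toOk.fl_mg f) ny)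
  obtain ⟨c1, -⟩ := h.fl_ln_push f
  obtain ⟨c2, -⟩ := h.fl_ln_push f.symm
  have a1 := h.adj_push (h.toOk.fl_adj f (Cb.self_ob c)) c1
  have a2 := h.adj_push (h.toOk.fl_adj f.symm (Cb.self_ob c)) c2
  obtain ⟨F, s, i⟩ := h.no.side5 (h.adj_push (h.toOk.adj_p ux) (h.pi_ne_p ux nx)).symm
    (h.adj_push a xy) (h.adj_push (h.toOk.adj_p uy) (h.pi_ne_p uy ny)) a2.symm a1 py pp xp cx.symm
    cy.symm
  refine ⟨F, i, ⟨(((h.toOk.wh_ob ux).union (h.toOk.wh_ob uy)).union (h.toOk.wh_ob f.1)).sat, s,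
    fun u v t => ?_⟩, f, fun w => e5_last c1 cx cy c2⟩
  rcases e5_mem t with rfl | rfl | rfl | rfl | rfl
  exacts [⟨_, .inl (.inl (Cb.p_ob x)), rfl⟩, ⟨x, .inl (.inl (Cb.self_ob x)), rfl⟩,
    ⟨y, .inl (.inr (Cb.self_ob y)), rfl⟩, ⟨_, .inl (.inr (Cb.p_ob y)), rfl⟩,
    ⟨c, .inr (Cb.self_ob c), rfl⟩]

end Pool.Agent.P.MP_5f84aa_co.G
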