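import Pool.Agent.P.MP_5f84aa_co.G.RIf

/-! Few cells have a large degree. -/

namespace Pool.Agent.P.MP_5f84aa_co.G

open Finset

theorem t_DEG : S_DEG := by
  intro V J Sg _ _ m _ hc K
  classical
  haveI := Fintype.ofFinite V
  haveI := Fintype.ofFinite J
  have h1 : ∀ v, m.deg v = (univ.filter fun w => m.Adj v w).card := fun v => by
    rw [Map.deg, ← Set.ncard_coe_finset]
    congr 1
    ext w
    simp
  have h2 : ∑ v, m.deg v = (univ.filter fun p : V × V => m.Adj p.1 p.2).card := by
    rw [card_filter, Fintype.sum_prod_type]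
    exact sum_congr rfl fun v _ => by rw [h1, card_filter]
  have h3 : (univ.filter fun p : V × V => m.Adj p.1 p.2) ⊆ univ.biUnion fun j : J =>
      ({m.L j, m.R j, m.X j} : Finset V).offDiag := by
    intro p hp
    obtain ⟨k1, j, k2, k3⟩ := (mem_filter.1 hp).2
    exact mem_biUnion.2 ⟨j, mem_univ _, mem_offDiag.2
      ⟨by simpa [Map.has] using k2, by simpa [Map.has] using k3, k1⟩⟩
  have h4 : ∀ j ∈ (univ : Finset J), (({m.L j, m.R j, m.X j} : Finset V).offDiag).card ≤ 6 := by
    intro j _
    have k : ({m.L j, m.R j, m.X j} : Finset V).card ≤ 3 := card_le_three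
    rw [offDiag_card]
    generalize ({m.L j, m.R j, m.X j} : Finset V).card = c at k
    interval_cases c <;> norm_num
  have h5 := (card_le_card h3).trans (card_biUnion_le_card_mul _ _ 6 h4)
  have h6 : {v | K < m.deg v}.ncard = (univ.filter fun v => K < m.deg v).card := by
    rw [← Set.ncard_coe_finset]
    congr 1
    ext v
    simp
  have h7 : (univ.filter fun v => K < m.deg v).card * (K + 1) ≤ ∑ v, m.deg v :=
    (card_nsmul_le_sum _ m.deg (K + 1) fun v hv => (mem_filter.1 hv).2).trans
      (sum_le_sum_of_subset (filter_subset _ _))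
  have h8 := hc.euler
  rw [card_univ, ← Nat.card_eq_fintype_card] at h5
  rw [h6, mul_comm]
  omega

end Pool.Agent.P.MP_5f84aa_co.G
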