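import Pool.Agent.P.MP_5f84aa_co.G.RIf

/-! Part R2: objects far from the hubs give a good move; the count of the cells. -/

namespace Pool.Agent.P.MP_5f84aa_co.G

namespace RTFAR

/-- a junction with exactly one corner in `K` -/
theorem exists_out {V J Sg : Type} [Finite J] {m : Map V J Sg} (hc : m.Cnt) {K : Set V}
    (ne : K.Nonempty) (b : ∀ v ∈ K, m.Bd v) : ∃ q, ∃ x ∈ K, ∃ w, w ∉ K ∧ m.GE q x w := by
  by_contra hn
  push Not at hn
  have h1 := hc.inc K ne b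
  have h2 := hc.edg K ne b
  have h3 : {j | m.L j ∈ K ∨ m.R j ∈ K} ⊆ {j | m.L j ∈ K ∧ m.R j ∈ K} := by
    rintro j (e | e)
    · exact ⟨e, by_contra fun n => hn j _ e _ n (Map.fc_self j)⟩
    · exact ⟨by_contra fun n => hn j _ e _ n (Map.fc_self j).symm, e⟩
  have := Set.ncard_le_ncard h3 (Set.toFinite _)
  omega

theorem plain (hL1 : S_L1) (hMV0 : S_MV0) (hMV1 : S_MV1) (hCY3D : S_CY3D) (hCY5 : S_CY5)
    (hBPP : S_BPP) (hT4A : S_T4A) (D : Cf) (h : D.Ok) {z b : D.V} (e : D.Df z b) (nz : ¬ D.Mg z)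
    (nb : ¬ D.Mg b) (g : D.GA z b) (l : ¬ D.Lk z b) (fz : D.Far 8 z) (fb : D.Far 8 b) :
    D.Good := by
  have k := h.toOk
  rcases hL1 _ k z b e nz nb g l with t | ⟨q, x, hx, y, hy, t⟩ | t
  · exact hT4A _ k z b e nz nb t (fz.mono (by norm_num)) (fb.mono (by norm_num))
  · have e' := k.df_congr e hx hy
    have fx := k.far_ob fz hx
    have nx := mt (k.mg_congr e.1 hx).1 nz
    have ny := mt (k.mg_congr e.2.1 hy).1 nb
    rcases hMV1 _ k q x y e' t with r | r | ⟨c, -, r, -⟩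
    · exact r
    · exact absurd r.1 (k.far_tn ((k.far_p fx).mono (by norm_num)))
    · obtain ⟨F, -, th⟩ := hCY5 D h x y c e' nx ny (h.mo.adj12 t.1) r
      refine hBPP D h _ F _ c _ _ th (((k.wh_ob e'.1).union (k.wh_ob e'.2.1)).union (k.wh_ob r.1))
        ?_ (((k.far_p fx).adj (k.fl_adj r (Cb.self_ob c)).symm).mono (by norm_num))
      rintro d ((hd | hd) | hd) md
      exacts [absurd ((k.mg_congr e'.1 hd).1 md) nx, absurd ((k.mg_congr e'.2.1 hd).1 md) ny, hd]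
  · rcases hMV0 _ k z b e nb t with r | r | ⟨c, r, -⟩
    · exact r
    · exact absurd r (k.far_to (fz.mono (by norm_num)))
    · obtain ⟨-, F, -, th⟩ := hCY3D D h z c e.1 r
      refine hBPP D h _ F _ c _ _ th ((k.wh_ob e.1).union (k.wh_ob r.1))
        ?_ ((fz.adj (k.fl_adj r (Cb.self_ob c)).symm).mono (by norm_num))
      rintro d (hd | hd) md
      exacts [absurd ((k.mg_congr e.1 hd).1 md) nz, hd]

/-- the next layer is declared hubs -/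
def up (D : Cb) : Cb := { D with S := D.nx D.S, R := D.R ∪ D.jm '' (D.nx D.S \ D.S) }

variable {D : Cb}

theorem U_of {x : D.V} (e : (up D).U x) : D.U x := fun n => e (.inl n)

theorem nx_p (h : D.Ok) {x : D.V} (e : D.U x) (n : x ∈ D.nx D.S) : D.p x ∈ D.nx D.S := by
  obtain ⟨s, hs, t⟩ := n.resolve_left e
  exact .inr ⟨s, hs, (h.tch_congr e (Cb.p_ob x)).2 t⟩

theorem up_ok (h : D.Ok) : (up D).Ok := by
  have := h.fV
  have := h.fJ
  refine ⟨h.fV, h.fJ, h.mo, h.mc, fun v e => h.bd v (U_of e), fun v e n => e ?_,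
    fun v e => h.pp v (U_of e), fun v e => h.jp v (U_of e), fun v e => h.ge v (U_of e), ?_, ?_⟩
  · have := nx_p h (h.pU v (U_of e)) n
    rwa [h.pp v (U_of e)] at this
  · rintro j (hj | ⟨c, hc, rfl⟩) v e
    · exact .inl (h.RS j hj v e)
    · rcases (h.cor_jm hc.2).1 e with rfl | rfl
      exacts [hc.1, nx_p h hc.2 hc.1]
  · have h1 := Set.ncard_union_le D.R (D.jm '' (D.nx D.S \ D.S))
    have h2 := Set.ncard_image_le (f := D.jm) (s := D.nx D.S \ D.S)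
    have h3 := Set.ncard_sdiff_add_ncard_of_subset (Cb.sub_nx D.S)
    have h4 := h.Rc
    change (D.R ∪ D.jm '' (D.nx D.S \ D.S)).ncard ≤ (D.nx D.S).ncard
    omega

theorem up_good (h : D.Ok) (g : (up D).Good) : D.Good := by
  obtain ⟨x, y, M, H, xy, ux, uy, ⟨m1, m2⟩, g1, g2, g3, g4⟩ := g
  have key : ∀ c ∈ D.nx D.S \ D.S, ∀ v, D.m.cor (D.jm c) v → D.U v ∧ v ∈ D.nx D.S := by
    intro c hc v e
    rcases (h.cor_jm hc.2).1 e with rfl | rfl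
    exacts [⟨hc.2, hc.1⟩, ⟨h.pU c hc.2, nx_p h hc.2 hc.1⟩]
  refine ⟨x, y, M ∪ D.jm '' (D.nx D.S \ D.S), H, xy, U_of ux, U_of uy, ⟨?_, fun v uv vx vy => ?_⟩,
    g1.imp id fun ⟨j, hj, e⟩ => ⟨j, .inl hj, e⟩, g2, ?_, fun j hj => g4 j (.inl hj)⟩
  · rintro j (hj | ⟨c, hc, rfl⟩) v e
    · exact ⟨U_of (m1 j hj v e).1, (m1 j hj v e).2⟩
    · obtain ⟨a, b⟩ := key c hc v e
      exact ⟨a, fun n => ux (n ▸ b), fun n => uy (n ▸ b)⟩
  · by_cases hv : v ∈ D.nx D.S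
    · refine ⟨D.jm v, ⟨.inr ⟨v, ⟨hv, uv⟩, rfl⟩, (h.ge v uv).fc.cor1⟩, ?_⟩
      rintro j ⟨hj | ⟨c, hc, rfl⟩, e⟩
      · exact absurd hv (m1 j hj v e).1
      · exact (h.jm_eq hc.2 ((h.cor_jm hc.2).1 e)).symm
    · obtain ⟨j, ⟨a, b⟩, u⟩ := m2 v hv vx vy
      refine ⟨j, ⟨.inl a, b⟩, ?_⟩
      rintro j' ⟨hj | ⟨c, hc, rfl⟩, e⟩
      · exact u j' ⟨hj, e⟩
      · exact absurd (key c hc v e).2 hv
  · rintro j (hj | hj) j' r e
    · exact g3 j hj j' r e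
    · exact absurd e (g4 j (.inr hj) j' r)

theorem exists_cf (h : D.Ok) (h3 : D.m.OkR) : ∃ E : Cf, E.Ok ∧ E.toCb = D := by
  obtain ⟨W, I, _, _, n, π, ι, a, b, c, d⟩ := h3.2.2 (D.jm '' D.Sᶜ)
  exact ⟨⟨D, W, I, n, π, ι⟩, ⟨h, inferInstance, inferInstance, a, b, c, d⟩, rfl⟩

theorem iter (hP2 : S_P2) (k : ℕ) : ∀ D : Cb, D.Ok → D.m.OkR → ¬ D.Good →
    (D.nx^[k] D.S).ncard ≤ 25000 ^ k * D.S.ncard := by
  induction k with
  | zero => intro D _ _ _; simp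
  | succ k ih =>
    intro D h h3 g
    have h1 := ih (up D) (up_ok h) h3 (mt (up_good h) g)
    obtain ⟨E, hE, rfl⟩ := exists_cf h h3
    rw [Function.iterate_succ_apply, pow_succ, mul_assoc]
    exact h1.trans (Nat.mul_le_mul_left _ (hP2 E hE g))

end RTFAR

open RTFAR

theorem t_FAR (hLKU : S_LKU) (hL5 : S_L5) (hL1 : S_L1) (hMV0 : S_MV0) (hMV1 : S_MV1)
    (hCY3D : S_CY3D) (hCY5 : S_CY5) (hMM : S_MM) (hMP : S_MP) (hBPP : S_BPP) (hT4A : S_T4A) :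
    S_FAR := by
  intro D h z fz
  have k := h.toOk
  have := h.fJ
  have uz := fz.U
  by_cases hb : ∃ b, D.Df z b ∧ D.GA z b ∧ ¬ D.Lk z b
  · obtain ⟨b, e, g, l⟩ := hb
    have fb := k.far_oa fz e.2.1 (k.ga_oa g)
    by_cases mz : D.Mg z <;> by_cases mb : D.Mg b
    · exact hMM D h z b e mz mb g (fz.mono (by norm_num))
    · exact hMP D h z b e mz mb g (fz.mono (by norm_num))
    · exact hMP D h b z (k.df_symm e) mb mz g.symm (fb.mono (by norm_num))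
    · exact plain hL1 hMV0 hMV1 hCY3D hCY5 hBPP hT4A D h e mz mb g l fz.pred fb
  push Not at hb
  have key : ∀ q, ∀ x ∈ D.ob z, ∀ w, D.m.GE q x w → w ∉ D.ob z → D.Lk z w := fun q x hx w g n =>
    hb w ⟨uz, (fz.tch ⟨x, hx, h.mo.adj12 g⟩).U, n⟩ ⟨q, x, hx, w, Cb.self_ob w, g⟩
  obtain ⟨q, x, hx, b, nb, g⟩ := exists_out h.mc ⟨z, Cb.self_ob z⟩ fun v e => h.bd v (k.ob_U uz e)
  have l := key q x hx b g nb
  have ub := l.1.2.1
  have fb : D.Far 8 b := fz.tch ⟨x, hx, h.mo.adj12 g⟩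
  have cf : D.Cf2 z b := fun q x hx w g => by
    by_cases n : w ∈ D.ob z
    exacts [.inl n, .inr (hLKU _ k z b w l (key q x hx w g n))]
  obtain ⟨q', y, hy, d, nd, g'⟩ := exists_out h.mc (K := D.ob z ∪ D.ob b) ⟨z, .inl (Cb.self_ob z)⟩
    fun v e => h.bd v (e.elim (k.ob_U uz) (k.ob_U ub))
  have hy' : y ∈ D.ob b := hy.resolve_left fun e => nd (cf q' y e d g')
  exact hL5 _ k z b d l cf (fb.tch ⟨y, hy', h.mo.adj12 g'⟩).U nd ⟨q', y, hy', d, Cb.self_ob d, g'⟩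

theorem t_R2S (hP2 : S_P2) (hFAR : S_FAR) : S_R2S := by
  refine ⟨25000 ^ 9, fun D h h3 g => ?_⟩
  have h1 := iter hP2 9 D h h3 g
  obtain ⟨E, hE, rfl⟩ := exists_cf h h3
  rwa [Set.eq_univ_of_forall fun z => not_not.1 fun n => g (hFAR E hE z n), Set.ncard_univ] at h1

end Pool.Agent.P.MP_5f84aa_co.G
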