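import Pool.Agent.P.MP_5f84aa_co.G.RIf

/-! Part R2: the first corner move and the blocker of two plain objects. -/

namespace Pool.Agent.P.MP_5f84aa_co.G

namespace RTFCM

/-- a blocker in the object of `x` -/
theorem blk {D : Cf} (h : D.Ok) {c x y e d : D.V} (fl : D.Fl c x y) (ux : D.U x)
    (hd : d ∈ D.ob x) (f : D.Fl d (D.p c) (D.p e)) :
    D.Fl x (D.p c) (D.p e) ∧ D.m.ln d (D.p c) = D.m.ln c x ∧
      D.m.ln d (D.p e) = D.m.ln x (D.p e) := by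
  have fx : D.Fl x (D.p c) (D.p e) := h.toOk.fl_congr f (h.toOk.ob_symm ux hd)
  have n : c ∉ D.ob x := fun q => h.toOk.fl_not fl (h.toOk.ob_symm ux q)
  refine ⟨fx, ?_, h.toOk.fl_ln_ob fx.symm hd⟩
  rw [h.mo.ln_symm c x]
  exact h.mm_one ux (h.toOk.fl_mg fx) fl.1 (h.toOk.fl_mg fl) n hd (Cb.p_ob c) (Cb.self_ob x)
    (Cb.self_ob c) (h.toOk.fl_adj f (Cb.self_ob d)) (h.toOk.fl_adj fl (Cb.self_ob c)).symm

end RTFCM

theorem t_FCM (hCM : S_CM) (hRG : S_RG) : S_FCM := by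
  intro D h E F Γ c x y r e th rF g hg ue eK peK nT fx
  have fl : D.Fl c x y := th.2.1
  have ux : D.U x := fx.U
  by_cases hA : ∀ q', D.m.far (D.ι r) q' → D.m.X q' ≠ D.p e
  · rcases (hCM D h E F Γ c x y r e th rF g ue peK nT).2 hA with G | ⟨d, dΓ, nd, bk⟩
    · exact .inl G
    · refine .inr (.inl ⟨d, dΓ, ?_, bk.1⟩)
      rintro (q | q)
      · exact nd (.inl q)
      · exact bk.2.1 ((RTFCM.blk h fl ux q bk.1).2.1 ▸ hg)
  · push Not at hA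
    obtain ⟨q', fq, Xq⟩ := hA
    have g' : D.m.GE q' c e := h.mo.far_ge fq g
    have cΓ : D.π c ∈ D.π '' Γ := th.1.2.2 _ _ ((th.2.2 _).2 (.inl rfl))
    have ne : D.π c ≠ D.π e := fun q => eK.1 ((h.mem_pi th.1.1).1 (q ▸ cΓ))
    obtain ⟨r', rfl⟩ := h.exJ_ge g' ne
    have r'F : r' ∈ F := (h.Ks_iff th.1 eK.1 (h.has_push g'.fc.has2)).1 eK
    have hB : ∀ q'', D.m.far (D.ι r') q'' → D.m.X q'' ≠ D.p e := fun q'' f => by
      rw [h.mo.far_unique fq.symm f, ← Xq]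
      exact h.mo.far_X fq
    rcases (hCM D h E F Γ c x y r' e th r'F g' ue peK nT).2 hB with G | ⟨d, dΓ, nd, bk⟩
    · exact .inl G
    by_cases hd : d ∈ D.ob x
    · obtain ⟨f1, -, l2⟩ := RTFCM.blk h fl ux hd bk.1
      have f' : D.m.Fc (D.ι r') c e (D.p e) := Xq ▸ g'.fc
      have l3 : D.m.ln x (D.p e) ≠ D.m.ln c (D.p e) := fun q =>
        bk.2.2 (.inr ((h.mo.lines f' fq.2.2.1).2.1.symm.trans (q.symm.trans l2.symm)))
      obtain ⟨k, k', fk, a, -⟩ := h.toOk.fl_far fl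
      have l4 : D.m.ln c (D.m.X (D.ι r)) = D.m.ln c x := by
        rcases hg with q | q
        · exact absurd (q.trans (h.mo.lines a fk.2.1).2.1) (h.mo.far_not_bar fq fk.2.1)
        · exact (h.mo.lines g.fc fq.2.1).2.1.trans q
      rcases hRG D h c x y e _ _ _ fl f1 ue fq.1 g.fc f' l4 l3 fx with G | G
      · exact .inl G
      · exact .inr (.inr G)
    · refine .inr (.inl ⟨d, dΓ, ?_, bk.1⟩)
      rintro (q | q)
      · exact nd (.inl q)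
      · exact hd q

theorem t_BPP (hCM : S_CM) (hMP : S_MP) : S_BPP := by
  intro D h E F Γ c x y th wh hm fc
  have := h.fW
  have := h.fI
  have fl : D.Fl c x y := th.2.1
  have mc : D.Mg c := h.toOk.fl_mg fl
  obtain ⟨r, rF, cr, -⟩ := h.no.first_corner (h.bd_pi fl.1)
    (fun w => (th.1.2.1 (D.π c) w).trans (th.2.2 w)) (by
      rw [(h.fl_ln_push fl).2, (h.fl_ln_push fl.symm).2]
      exact h.toOk.fl_ln fl)
  obtain ⟨d, hd, -, z, g, nz⟩ := h.cor_lift fl.1 cr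
  have fd : D.Far 6 d := h.toOk.far_ob fc hd
  have fz : D.Far 5 z := fd.adj (h.mo.adj12 g)
  have zc : z ∉ D.ob c := fun q => nz ((h.pi_mg fl.1 mc).2 q)
  have oe : D.ob d = D.ob c := h.toOk.ob_eq fl.1 hd
  by_cases hz : z ∈ Γ
  · exact hMP D h d z ⟨fd.U, fz.U, oe ▸ zc⟩ ((h.toOk.mg_congr fl.1 hd).2 mc)
      (fun q => zc (hm z hz q)) ⟨_, d, Cb.self_ob d, z, Cb.self_ob z, g⟩ fd
  · have zK : z ∈ D.Ks F Γ := (h.Ks_iff th.1 hz (h.has_push g.fc.has2)).2 rF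
    have pK : D.p z ∈ D.Ks F Γ := h.toOk.cl_p wh (h.cl_Ks th.1) fz.U zK
    have nT : ¬ D.Tn (D.p z) := h.toOk.far_tn ((h.toOk.far_p fz).mono (by norm_num))
    rcases (hCM D h E F Γ d x y r z (h.th_congr th hd) rF g fz.U pK nT).1 with G | ⟨d', dΓ, nd, f⟩
    · exact G
    · exact absurd (.inl (oe ▸ hm d' dΓ (h.toOk.fl_mg f))) nd

end Pool.Agent.P.MP_5f84aa_co.G
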