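import Pool.Agent.P.MP_5f84aa_co.G.RIf

/-! Part R2: the halves of a merged object in the contraction. -/

namespace Pool.Agent.P.MP_5f84aa_co.G

namespace RTHS

variable {D : Cf} {c x y v : D.V} {j : D.J} {r : D.I}

/-- a face on a piece between two nodes survives, or is an end of a matched rung -/
theorem ty (h : D.Ok) (o : D.m.On j x v) (e : D.π x ≠ D.π v) : (∃ r, D.ι r = j) ∨
    (D.U x ∧ D.Mg x ∧ D.m.Fc j x (D.p x) v) ∨ (D.U v ∧ D.Mg v ∧ D.m.Fc j v (D.p v) x) := by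
  by_cases n : ∃ r, D.ι r = j
  · exact .inl n
  obtain ⟨c, c1, c2, g⟩ := h.rg_iff.1 (not_not.1 (mt (h.ct.rng j).2 n))
  have t : ∀ s, D.m.has j s → s ∈ D.ob c ∨ s = D.m.X j := fun s hs => by
    have := g.fc.has_iff.1 hs; rw [Cb.mem_ob]; tauto
  have f : ∀ s ∈ D.ob c, D.U s ∧ D.Mg s ∧ D.m.Fc j s (D.p s) (D.m.X j) := fun s hs => by
    refine ⟨h.toOk.ob_U c1 hs, (h.toOk.mg_congr c1 hs).2 c2, ?_⟩
    rcases hs with rfl | rfl
    exacts [g, by rw [h.pp c c1]; exact g.symm]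
  rcases t x o.1 with b1 | b1 <;> rcases t v o.2 with b2 | b2
  · exact absurd (((h.pi_mg c1 c2).2 b1).trans ((h.pi_mg c1 c2).2 b2).symm) e
  · exact .inr (.inl (b2 ▸ f x b1))
  · exact .inr (.inr (b1 ▸ f v b2))
  · exact absurd (by rw [b1, b2]) e

/-- a face at a node touches one of its cells -/
theorem half (h : D.Ok) (e : D.U c) (a : D.n.has r (D.π c)) :
    D.m.has (D.ι r) c ∨ D.m.has (D.ι r) (D.p c) := by
  obtain ⟨v, a1, a2⟩ := h.has_iff.1 a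
  rcases h.pi_ob e a2 with rfl | rfl
  exacts [.inl a1, .inr a1]

theorem back (h : D.Ok) (f : D.Fl c x y) : D.n.Spl (D.hf c) (D.π c) (D.π x) := by
  have mg := h.toOk.fl_mg f
  have ne := (h.fl_ln_push f).1
  obtain ⟨r, a1, a2⟩ := h.te (h.toOk.fl_adj f (Cb.self_ob c)) ne
  obtain ⟨r2, b1, b2⟩ := h.te (h.toOk.fl_adj f (Cb.p_ob c)) (by rw [h.pi_p f.1 mg]; exact ne)
  rw [h.pi_p f.1 mg] at b2
  exact ⟨ne, r, r2, a2, b2, a1, fun q => h.not_both f.1 mg q b1⟩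

end RTHS

open RTHS

theorem t_HALF : S_HALF := by
  intro D h c x y f w
  refine ⟨?_, ?_⟩
  swap
  · rintro (rfl | rfl)
    exacts [back h f, back h f.symm]
  rintro ⟨ne, r, r2, o, o2, rc, r2c⟩
  by_contra hn
  have al : ∀ k, D.n.On k (D.π c) w → k = r ∨ k = r2 := fun k ok =>
    h.no.two_faces ne o o2 ok fun q => r2c (q ▸ rc)
  obtain ⟨s, a1, rfl⟩ := h.has_iff.1 o.2
  have en : ∀ k t, D.π t = D.π s → ¬ D.m.Fc k c (D.p c) t := fun k t e g => by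
    rcases h.toOk.fl_face f g.on with q | q <;> have := g.X_eq.symm.trans q.X_eq
    exacts [hn (.inl (by rw [← e, this])), hn (.inr (by rw [← e, this]))]
  obtain ⟨k, kr, ok, -⟩ := h.mo.other (j := D.ι r) ⟨rc, a1⟩ fun q => ne (q ▸ rfl)
  rcases ty h ok ne with ⟨i, rfl⟩ | ⟨-, -, t⟩ | ⟨u1, m1, t⟩
  · rcases al i ⟨h.has_push ok.1, h.has_push ok.2⟩ with rfl | rfl
    exacts [kr rfl, r2c ok.1]
  · exact en _ _ rfl t
  have e1 := h.pi_p u1 m1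
  obtain ⟨k2, kk, ok2, -⟩ := h.mo.other (u := c) (v := D.p s) ⟨t.has3, t.has2⟩
    (h.mo.fc_ne t).2.2.symm
  rcases ty h ok2 (e1 ▸ ne) with ⟨i, rfl⟩ | ⟨-, -, t2⟩ | ⟨-, -, t2⟩
  · rcases al i ⟨h.has_push ok2.1, e1 ▸ h.has_push ok2.2⟩ with rfl | rfl
    exacts [h.not_both u1 m1 a1 ok2.2, r2c ok2.1]
  · exact en _ _ e1 t2
  · rw [h.pp s u1] at t2
    exact h.toOk.fl_ne ⟨u1, k2, k, kk, t2.symm, t⟩ rfl

theorem t_HS (hHALF : S_HALF) : S_HS := by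
  rintro D h E F Γ c x y ⟨⟨-, sd, -⟩, f, hE⟩
  have s : ∀ w, ¬ D.n.Spl {i | ¬ (i ∈ F ↔ i ∈ D.hf c)} (D.π c) w := by
    rintro w ⟨ne, i, i', o, o', a, b⟩
    have d : i ≠ i' := fun q => b (q ▸ a)
    have e := ((sd _ w).trans (hE w)).trans (hHALF D h c x y f w).symm
    rw [h.no.spl_iff ne o o' d, h.no.spl_iff ne o o' d] at e
    simp only [Set.mem_ofPred_eq] at a b
    tauto
  by_cases g : ∃ i, D.n.has i (D.π c) ∧ ¬ (i ∈ F ↔ i ∈ D.hf c)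
  · obtain ⟨i, a, b⟩ := g
    refine ⟨D.p c, Cb.p_ob c, fun r hr => ?_⟩
    have e : ¬ (r ∈ F ↔ D.m.has (D.ι r) c) := h.no.lk0 s a hr b
    have e1 := half h f.1 hr
    have e2 := h.not_both (r := r) f.1 (h.toOk.fl_mg f)
    exact ⟨fun q => e1.resolve_left fun t => e (iff_of_true q t),
      fun q => by_contra fun t => e (iff_of_false t fun u => e2 u q)⟩
  · exact ⟨c, Cb.self_ob c, fun r hr => by_contra fun n => g ⟨r, hr, n⟩⟩

theorem t_INH (hHALF : S_HALF) : S_INH := by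
  intro D h E F Γ c a y e β cy fc fa he hc _ hE r ra
  have := h.fW
  have := h.fI
  have ma := h.toOk.fl_mg fa
  have e1 := h.pi_p fc.1 (h.toOk.fl_mg fc)
  have e2 := h.pi_p fa.1 ma
  have s : ∀ w, w ≠ β → ¬ D.n.Spl {i | i ∈ D.hf a ∧ i ∉ F} (D.π a) w := by
    rintro w wb ⟨ne, i, i', o, o', ⟨ia, iF⟩, b⟩
    have hw : w = D.π c ∨ w = D.π e := by
      by_cases g : i' ∈ D.hf a
      · exact .inl ((hE w ((cy.2.1 _ w).1
          ⟨ne, i', i, o', o, by_contra fun n => b ⟨g, n⟩, iF⟩)).resolve_right wb)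
      · exact e1 ▸ (hHALF D h a _ e fa w).1 ⟨ne, i, i', o, o', ia, g⟩
    rcases hw with rfl | rfl
    · rcases half h fc.1 o.2 with g | g
      · exact iF (hc i g)
      obtain ⟨-, j, -, -, f, -⟩ := id fc
      obtain ⟨-, j', -, -, f', -⟩ := id fa
      have ac := (h.mo.fc_ne f').2.1
      rcases h.mo.two_faces ac ⟨f.has3, f.has2⟩ ⟨f'.has1, f'.has3⟩ ⟨ia, g⟩
        (fun q => ac (f.X_eq.symm.trans (q ▸ f'.X_eq))) with q | q
      exacts [iF (hc i (q ▸ f.has1)), h.not_both fa.1 ma ia (q ▸ f'.has2)]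
    · exact iF ((h.Ks_iff cy he.1 o.2).1 he)
  by_contra rF
  obtain ⟨i, b1, b2⟩ := h.te (h.toOk.fl_adj fa (Cb.p_ob a)) (e2 ▸ (h.fl_ln_push fa).1)
  exact h.not_both fa.1 ma (h.no.lk1 β s (h.has_push ra) (e2 ▸ b2.1) ⟨ra, rF⟩).1 b1

end Pool.Agent.P.MP_5f84aa_co.G
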