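import Pool.Agent.P.MP_5f84aa_co.G.RIf

/-! Part R2: the Euler count for a bounded set with connected complement. -/

namespace Pool.Agent.P.MP_5f84aa_co.G

namespace RTJC0

open Finset

variable {V J Sg : Type} {m : Map V J Sg}

/-- a piece on a face is one of its three sides -/
theorem side_cases {W : Set V} {j : J} {u v : V} (hu : u ∈ W) (hv : v ∈ W) (e : u ≠ v)
    (a : m.has j u) (b : m.has j v) :
    (s(u, v) = s(m.L j, m.R j) ∧ m.L j ∈ W ∧ m.R j ∈ W) ∨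
    (s(u, v) = s(m.L j, m.X j) ∧ m.L j ∈ W ∧ m.X j ∈ W) ∨
    (s(u, v) = s(m.R j, m.X j) ∧ m.R j ∈ W ∧ m.X j ∈ W) := by
  rcases a with rfl | rfl | rfl <;> rcases b with rfl | rfl | rfl
  · exact absurd rfl e
  · exact .inl ⟨rfl, hu, hv⟩
  · exact .inr (.inl ⟨rfl, hu, hv⟩)
  · exact .inl ⟨Sym2.eq_swap, hv, hu⟩
  · exact absurd rfl e
  · exact .inr (.inr ⟨rfl, hu, hv⟩)
  · exact .inr (.inl ⟨Sym2.eq_swap, hv, hu⟩)
  · exact .inr (.inr ⟨Sym2.eq_swap, hv, hu⟩)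
  · exact absurd rfl e

/-- double count of the pairs of a face and a piece on it -/
theorem count [Finite V] [Finite J] (h : m.Ok) (W : Set V) :
    2 * {e : Sym2 V | ∃ u ∈ W, ∃ v ∈ W, m.Adj u v ∧ e = s(u, v)}.ncard ≤
      {j | (m.L j ∈ W ∧ m.R j ∈ W) ∨ (m.L j ∈ W ∧ m.X j ∈ W) ∨ (m.R j ∈ W ∧ m.X j ∈ W)}.ncard +
        2 * {j | m.L j ∈ W ∧ m.R j ∈ W ∧ m.X j ∈ W}.ncard := by
  classical
  have := Fintype.ofFinite V
  have := Fintype.ofFinite J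
  have nc : ∀ {α : Type} [Fintype α] (p : α → Prop) [DecidablePred p],
      {a | p a}.ncard = (univ.filter p).card := fun p _ => by
    rw [← Set.ncard_coe_finset]
    congr 1
    ext a
    simp
  rw [nc, nc, nc]
  set E := univ.filter fun e : Sym2 V => ∃ u ∈ W, ∃ v ∈ W, m.Adj u v ∧ e = s(u, v) with hE
  have key := sum_card_bipartiteAbove_eq_sum_card_bipartiteBelow (s := E) (t := (univ : Finset J))
    (fun e j => ∀ v ∈ e, m.has j v)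
  have h1 : ∀ e ∈ E, (bipartiteAbove (fun e j => ∀ v ∈ e, m.has j v) univ e).card = 2 := by
    intro e he
    obtain ⟨u, -, v, -, a, rfl⟩ := (mem_filter.1 he).2
    rw [← h.two u v a, nc, bipartiteAbove]
    congr 1
    ext j
    simp
  rw [sum_congr rfl h1, sum_const, smul_eq_mul, mul_comm] at key
  rw [key, card_filter, card_filter, mul_sum, ← sum_add_distrib]
  refine sum_le_sum fun j _ => ?_
  have h2 : bipartiteBelow (fun e j => ∀ v ∈ e, m.has j v) E j ⊆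
      ({s(m.L j, m.R j)} : Finset (Sym2 V)).filter (fun _ => m.L j ∈ W ∧ m.R j ∈ W) ∪
      (({s(m.L j, m.X j)} : Finset (Sym2 V)).filter (fun _ => m.L j ∈ W ∧ m.X j ∈ W) ∪
      ({s(m.R j, m.X j)} : Finset (Sym2 V)).filter (fun _ => m.R j ∈ W ∧ m.X j ∈ W)) := by
    intro e he
    rw [mem_bipartiteBelow] at he
    obtain ⟨u, hu, v, hv, a, rfl⟩ := (mem_filter.1 he.1).2
    simp only [mem_union, mem_filter, mem_singleton]
    exact side_cases hu hv a.1 (he.2 u (Sym2.mem_mk_left _ _)) (he.2 v (Sym2.mem_mk_right _ _))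
  refine (card_le_card h2).trans ((card_union_le _ _).trans
    ((Nat.add_le_add_left (card_union_le _ _) _).trans ?_))
  by_cases a : m.L j ∈ W <;> by_cases b : m.R j ∈ W <;> by_cases c : m.X j ∈ W <;> simp [a, b, c]

end RTJC0

theorem t_JC0 (hJC1 : S_JC1) : S_JC0 := by
  intro V J Sg _ _ m h hc Y ⟨y, hy⟩ hb hw
  have h0 : m.L m.inf ∉ Y := fun a => hb _ a (.inl rfl)
  have h1 := hJC1 V J Sg m h Yᶜ y (m.L m.inf) (fun a => a hy) h0 hw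
  have h2 := RTJC0.count h Yᶜ
  have h3 := hc.euler
  have h4 := Set.ncard_add_ncard_compl Y
  have h5 := Set.ncard_add_ncard_compl
    {j | (m.L j ∈ Y ∧ m.R j ∈ Y) ∨ (m.L j ∈ Y ∧ m.X j ∈ Y) ∨ (m.R j ∈ Y ∧ m.X j ∈ Y)}
  have h6 : {j | (m.L j ∈ Y ∧ m.R j ∈ Y) ∨ (m.L j ∈ Y ∧ m.X j ∈ Y) ∨ (m.R j ∈ Y ∧ m.X j ∈ Y)}ᶜ =
      {j | (m.L j ∈ Yᶜ ∧ m.R j ∈ Yᶜ) ∨ (m.L j ∈ Yᶜ ∧ m.X j ∈ Yᶜ) ∨
        (m.R j ∈ Yᶜ ∧ m.X j ∈ Yᶜ)} := by
    ext j
    simp only [Set.mem_compl_iff, Set.mem_ofPred_eq]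
    tauto
  rw [h6] at h5
  omega

theorem t_EBT (hJC0 : S_JC0) : S_EBT := by
  intro V J Sg _ _ m h hc Y hb j x c w f hx hw hcY
  have h0 : m.L m.inf ∉ Y := fun a => hb _ a (.inl rfl)
  set H : Set V :=
    {v | v ∉ Y ∧ ¬ Relation.ReflTransGen (fun a b => m.Adj a b ∧ b ∉ Y) (m.L m.inf) v} with hH
  have bH : ∀ v ∈ H, m.Bd v := by
    rintro v ⟨a, b⟩ (rfl | rfl | rfl)
    · exact b .refl
    · exact b (.single ⟨h.adj12 (m.fc_self _), a⟩)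
    · exact b (.single ⟨h.adj13 (m.fc_self _), a⟩)
  have nb : ∀ v ∈ H, ∀ u, m.Adj v u → u ∈ Y ∪ H := fun v hv u a => by
    by_cases b : u ∈ Y
    · exact .inl b
    · exact .inr ⟨b, fun r => hv.2 (r.tail ⟨a.symm, hv.1⟩)⟩
  have cn : ∀ v, Relation.ReflTransGen (fun a b => m.Adj a b ∧ b ∉ Y) (m.L m.inf) v →
      Relation.ReflTransGen (fun a b => m.Adj a b ∧ b ∉ Y ∪ H) (m.L m.inf) v := by
    intro v r
    induction r with
    | refl => exact .refl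
    | tail r a ih => exact ih.tail ⟨a.1, fun b => b.elim a.2 fun b => b.2 (r.tail a)⟩
  have h1 := hJC0 V J Sg m h hc (Y ∪ H) ⟨x, .inl hx⟩ (fun v a => a.elim (hb v) (bH v))
    fun v a => cn v (by_contra fun r => a (.inr ⟨fun b => a (.inl b), r⟩))
  have dj : Disjoint Y H := Set.disjoint_left.2 fun v a b => b.1 a
  rw [Set.ncard_union_eq dj] at h1
  rcases H.eq_empty_or_nonempty with e | ne
  · have h2 : j ∉ {j | m.L j ∈ Y ∧ m.R j ∈ Y} := fun a => by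
      rcases f.1 with ⟨-, b⟩ | ⟨b, -⟩
      · exact hcY (b ▸ a.2)
      · exact hcY (b ▸ a.1)
    have h3 := Set.ncard_le_ncard (s := insert j {j | m.L j ∈ Y ∧ m.R j ∈ Y})
      (t := {j | (m.L j ∈ Y ∪ H ∧ m.R j ∈ Y ∪ H) ∨ (m.L j ∈ Y ∪ H ∧ m.X j ∈ Y ∪ H) ∨
        (m.R j ∈ Y ∪ H ∧ m.X j ∈ Y ∪ H)}) (by
      rintro k (rfl | a)
      · have b : m.X k ∈ Y ∪ H := .inl (f.2 ▸ hw)
        rcases f.1 with ⟨d, -⟩ | ⟨-, d⟩
        · exact .inr (.inl ⟨.inl (d ▸ hx), b⟩)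
        · exact .inr (.inr ⟨.inl (d ▸ hx), b⟩)
      · exact .inl ⟨.inl a.1, .inl a.2⟩)
    rw [Set.ncard_insert_of_notMem h2] at h3
    have h4 : H.ncard = 0 := by rw [e, Set.ncard_empty]
    omega
  · have h2 := hc.inc H ne bH
    have h3 := Set.ncard_le_ncard
      (s := {j | m.L j ∈ Y ∧ m.R j ∈ Y} ∪ {j | m.L j ∈ H ∨ m.R j ∈ H})
      (t := {j | (m.L j ∈ Y ∪ H ∧ m.R j ∈ Y ∪ H) ∨ (m.L j ∈ Y ∪ H ∧ m.X j ∈ Y ∪ H) ∨
        (m.R j ∈ Y ∪ H ∧ m.X j ∈ Y ∪ H)}) (by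
      rintro k (a | a | a)
      · exact .inl ⟨.inl a.1, .inl a.2⟩
      · exact .inl ⟨.inr a, nb _ a _ (h.adj12 (m.fc_self k))⟩
      · exact .inl ⟨nb _ a _ (h.adj12 (m.fc_self k)).symm, .inr a⟩)
    rw [Set.ncard_union_eq (Set.disjoint_left.2 fun k a b =>
      b.elim (fun b => b.1 a.1) fun b => b.1 a.2)] at h3
    omega

end Pool.Agent.P.MP_5f84aa_co.G
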