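import Pool.Agent.P.MP_5f84aa_co.G.RIf

/-! Part R2: two plain objects with a common junction. -/

namespace Pool.Agent.P.MP_5f84aa_co.G

namespace RTL1

variable {D : Cb} {a a' b b' : D.V} {e q r j j' q₁ q₂ : D.J}

/-- the hypotheses and the negated conclusion -/
structure H (D : Cb) (a a' b b' : D.V) : Prop where
  ok : D.Ok
  pa : D.p a = a'
  pb : D.p b = b'
  df : D.Df a b
  ma : ¬ D.Mg a
  mb : ¬ D.Mg b
  lk : ¬ D.Lk a b
  t4 : ¬ D.T4 a b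
  pl : ∀ q, ∀ x ∈ D.ob a, ∀ y ∈ D.ob b, ¬ D.Pl q x y
  st : D.m.stem (D.jm a) ≠ D.m.stem (D.jm b)

namespace H

theorem congr (s : H D a a' b b') {x : D.V} (hx : x ∈ D.ob a) : H D x (D.p x) b b' := by
  have h := s.ok
  have o := h.ob_eq s.df.1 hx
  refine ⟨h, rfl, s.pb, h.df_congr s.df hx (Cb.self_ob b), mt (h.mg_congr s.df.1 hx).1 s.ma, s.mb,
    fun l => s.lk (h.lk_congr l (h.ob_symm s.df.1 hx) (Cb.self_ob b)), fun t => s.t4 ?_,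
    o ▸ s.pl, h.jm_eq s.df.1 hx ▸ s.st⟩
  simpa only [Cb.T4, o] using t

theorem swap (s : H D a a' b b') : H D a' a b b' := by
  have := s.congr (Cb.p_ob a)
  rwa [s.ok.pp a s.df.1, s.pa] at this

theorem symm (s : H D a a' b b') : H D b b' a a' := by
  have h := s.ok
  refine ⟨h, s.pb, s.pa, h.df_symm s.df, s.mb, s.ma, fun l => s.lk (h.lk_symm l), ?_, ?_, s.st.symm⟩
  · rintro ⟨q, x, hx, y, hy, F, u, v, g, ad, sd, hu, hv, c⟩
    refine s.t4 ⟨q, y, hy, x, hx, F, u, v, g.symm, ad.symm, sd.congr fun u v => ?_,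
      by rwa [Set.union_comm], by rwa [Set.union_comm], c⟩
    simp only [E4, Sym2.eq_iff]; tauto
  · rintro q x hx y hy ⟨g, c, f⟩
    exact s.pl q y hy x hx ⟨g.symm, fun ad => h.mo.ln_symm _ _ ▸ c ad.symm,
      fun q' n => (f q' n).symm⟩

theorem swap' (s : H D a a' b b') : H D a a' b' b := s.symm.swap.symm

theorem aa (s : H D a a' b b') : a ≠ a' := s.pa ▸ (s.ok.p_ne s.df.1).symm
theorem ab (s : H D a a' b b') : a ≠ b := s.ok.df_ne s.df (Cb.self_ob a) (Cb.self_ob b)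
theorem bd (s : H D a a' b b') : D.m.Bd a := s.ok.bd a s.df.1
theorem adj (s : H D a a' b b') : D.m.Adj a a' := s.pa ▸ s.ok.adj_p s.df.1

theorem stem (s : H D a a' b b') : D.m.ln a a' = D.m.stem (D.jm a) :=
  s.pa ▸ (s.ok.mo.lines (s.ok.ge a s.df.1).fc (s.ok.jm_inf s.df.1)).1

theorem mem (s : H D a a' b b') {w : D.V} :
    w ∈ D.ob a ∪ D.ob b ↔ w = a ∨ w = a' ∨ w = b ∨ w = b' := by
  simp only [Set.mem_union, Cb.mem_ob, s.pa, s.pb, or_assoc]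

theorem lk1 (s : H D a a' b b') (n : j ≠ j') (f : D.m.Fc j a b a') (f' : D.m.Fc j' a b b') : False :=
  s.lk ⟨s.df, s.ma, s.mb, .inl ⟨a, Cb.self_ob a, b, Cb.self_ob b, j, j', n, s.pa ▸ f, s.pb ▸ f'⟩⟩

theorem lk2 (s : H D a a' b b') (n : ∀ w, D.m.Adj a w → w = b ∨ w = a' ∨ w = b') : False :=
  s.lk ⟨s.df, s.ma, s.mb, .inr ⟨a, .inl (Cb.self_ob a), fun w c => s.mem.2 (by
    have := n w c; tauto)⟩⟩

theorem place (s : H D a a' b b') (g : D.m.GE q a b)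
    (f : ∀ q', D.m.far q q' → D.m.X q' ≠ a' ∧ D.m.X q' ≠ b') :
    D.m.Adj a' b' ∧ ¬ D.m.hug q (D.m.ln a' b') := by
  by_contra n
  refine s.pl q a (Cb.self_ob a) b (Cb.self_ob b) ⟨g, ?_, ?_⟩ <;> rw [s.pa, s.pb]
  exacts [fun c => by_contra fun d => n ⟨c, d⟩, f]

/-- a quadrilateral that does not separate has a chord -/
theorem chord (s : H D a a' b b') (g : D.m.GE q a b) (c : D.m.Adj a' b') :
    (∃ j j', D.m.Tri j a' a b ∧ D.m.Tri j' b b' a') ∨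
      ∃ j j', D.m.Tri j a' a b' ∧ D.m.Tri j' a b b' := by
  have h := s.ok.mo
  obtain ⟨F, sd, -⟩ := h.side4 s.adj.symm (h.adj12 g) s.symm.adj c.symm s.swap.ab s.swap'.ab
  rcases h.q4 sd s.swap.ab s.swap'.ab with ⟨u, u1, u2, u3, u4, hu⟩ | ⟨j, -, j', -, t⟩ |
    ⟨j, -, j', -, t⟩
  · rcases h.q4 sd.compl s.swap.ab s.swap'.ab with ⟨v, v1, v2, v3, v4, hv⟩ | ⟨j, -, j', -, t⟩ |
      ⟨j, -, j', -, t⟩
    · refine (s.t4 ⟨q, a, Cb.self_ob a, b, Cb.self_ob b, F, u, v, g, ?_, ?_, ?_, ?_, hu, ?_⟩).elim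
      · rwa [s.pa, s.pb]
      · rwa [s.pa, s.pb]
      · rw [s.mem]; tauto
      · rw [s.mem]; tauto
      · obtain ⟨k, -, hk⟩ := id hv
        exact (h.sd_compl sd (fun w => by simp only [E4, Sym2.eq_iff]; tauto) hk).1 hv
    exacts [.inl ⟨j, j', t⟩, .inr ⟨j, j', t⟩]
  exacts [.inl ⟨j, j', t⟩, .inr ⟨j, j', t⟩]

/-- exactly one of the two faces on the chord designates it -/
theorem last (s : H D a a' b b') (t₁ : D.m.Tri q₁ a a' b) (t₂ : D.m.Tri q₂ b b' a)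
    (g : D.m.GE q a b) (o : D.m.On r a b) (n : D.m.X r = a ∨ D.m.X r = b) : False := by
  have h := s.ok.mo
  have k : ¬ D.m.GE r a b := fun c => n.elim (h.fc_ne c).2.1.symm (h.fc_ne c).2.2.symm
  have c := (s.place g fun q' f => by
    have g' := h.far_ge f g
    rcases h.two_faces s.ab g.fc.on o g'.fc.on (fun d => k (d ▸ g)) with d | d
    exacts [absurd d.symm f.1, absurd (d ▸ g') k]).1
  rcases s.chord g c with ⟨j, j', -, t⟩ | ⟨j, j', t, -⟩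
  · exact s.symm.lk2 fun w d => by
      have := (h.deg3 s.ab.symm s.swap.ab.symm s.symm.aa s.aa s.swap.swap'.ab s.swap'.ab
        ⟨t₁.2.2, t₁.1, t₁.2.1⟩ ⟨t.1, t.2.2, t.2.1⟩ t₂).2.1 w d
      tauto
  · exact s.lk2 (h.deg3 s.ab s.aa s.swap'.ab s.swap.ab.symm s.swap.swap'.ab s.symm.aa
      ⟨t₁.1, t₁.2.2, t₁.2.1⟩ ⟨t.2.1, t.1, t.2.2⟩ ⟨t₂.2.2, t₂.2.1, t₂.1⟩).2.1

/-- the two faces on a chord -/
theorem main (s : H D a a' b b') (g : D.m.GE e a' b)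
    (f : ∀ q', D.m.far e q' → D.m.X q' ≠ a ∧ D.m.X q' ≠ b') (n : ¬ D.m.hug e (D.m.ln a b'))
    (t₁ : D.m.Tri q₁ a a' b) (t₂ : D.m.Tri q₂ b b' a) : False := by
  have h := s.ok.mo
  have i₁ := s.bd.ne_inf t₁.1
  have i₂ := s.bd.ne_inf t₂.2.2
  have ie := s.swap.bd.ne_inf g.fc.has1
  have o₁ : D.m.On q₁ a b := ⟨t₁.1, t₁.2.2⟩
  have o₂ : D.m.On q₂ a b := ⟨t₂.2.2, t₂.1⟩
  have sy := h.ln_symm
  rcases h.tri_cases t₁ s.aa s.ab s.swap.ab with f₁ | f₁ | f₁ <;>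
    rcases h.tri_cases t₂ s.symm.aa s.ab.symm s.swap'.ab.symm with f₂ | f₂ | f₂ <;>
    obtain ⟨l1, l2, l3, -⟩ := h.lines f₁ i₁ <;> obtain ⟨k1, k2, k3, -⟩ := h.lines f₂ i₂
  · exact n (.inl (by rw [sy, k3, ← k2, sy, l2, ← l3, (h.lines g ie).1]))
  · refine (s.swap'.place f₂.ge.symm fun q' c => ⟨fun d => ?_, f₂.X_eq ▸ (h.far_X c).symm⟩).2
      (.inr (by rw [l3, ← l2, k3]))
    exact s.swap'.lk1 c.1.symm (d ▸ (h.far_ge c f₂.ge.symm).fc) f₂.symm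
  · exact s.last t₁ t₂ f₂.ge o₁ (.inr f₁.X_eq)
  · obtain rfl : e = q₁ := by_contra fun d =>
      (f q₁ (h.far_of_fc s.swap.bd d g.fc f₁)).1 f₁.X_eq
    exact n (.inr (by rw [sy, k3, ← k2, l3]))
  · exact s.st (by rw [← s.stem, ← s.symm.stem, sy, l2, ← l3, sy, k3, ← k2, sy])
  · exact s.last t₁ t₂ f₂.ge o₁ (.inl f₁.X_eq)
  · exact s.last t₁ t₂ f₁.ge.symm o₂ (.inl f₂.X_eq)
  · exact s.last t₁ t₂ f₁.ge.symm o₂ (.inr f₂.X_eq)
  · exact s.lk1 (fun d : q₁ = q₂ => s.swap.swap'.ab (by rw [← f₁.X_eq, d, f₂.X_eq])) f₁.symm f₂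

/-- some junction on the piece has no far end that touches an unlit cell -/
theorem step0 (s : H D a a' b b') (g : D.m.GE e a b) :
    ∃ q, D.m.GE q a b ∧ ∀ q', D.m.far q q' → D.m.X q' ≠ a' ∧ D.m.X q' ≠ b' := by
  have h := s.ok.mo
  by_contra n
  have k : ∀ q, D.m.GE q a b → ∃ q', D.m.far q q' ∧ (D.m.X q' = a' ∨ D.m.X q' = b') :=
    fun q c => by_contra fun d => n ⟨q, c, fun q' t =>
      ⟨fun u => d ⟨q', t, .inl u⟩, fun u => d ⟨q', t, .inr u⟩⟩⟩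
  obtain ⟨e₂, f, x₂⟩ := k e g
  have g₂ := h.far_ge f g
  obtain ⟨e₃, f', x₃⟩ := k e₂ g₂
  obtain rfl := h.far_unique f.symm f'
  have := h.far_X f
  rcases x₂ with x₂ | x₂ <;> rcases x₃ with x₃ | x₃
  · exact this (x₃.trans x₂.symm)
  · exact s.lk1 f.1.symm (x₂ ▸ g₂.fc) (x₃ ▸ g.fc)
  · exact s.lk1 f.1 (x₃ ▸ g.fc) (x₂ ▸ g₂.fc)
  · exact this (x₃.trans x₂.symm)

theorem false (s : H D a a' b b') (g : D.m.GE e a b) : False := by
  obtain ⟨q, g, f⟩ := s.step0 g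
  obtain ⟨c, n⟩ := s.place g f
  rcases s.chord g c with ⟨j, j', t, t'⟩ | ⟨j, j', t, t'⟩
  · exact s.swap.main g f n t t'
  · exact s.symm.swap.main g.symm (fun q' d => (f q' d).symm) (s.ok.mo.ln_symm _ _ ▸ n)
      ⟨t'.2.2, t'.2.1, t'.1⟩ ⟨t.2.1, t.1, t.2.2⟩

end H

end RTL1

theorem t_L1 : S_L1 := by
  intro D h a b df ma mb ⟨q, x, hx, y, hy, g⟩ lk
  by_contra n
  have s : RTL1.H D a (D.p a) b (D.p b) := ⟨h, rfl, rfl, df, ma, mb, lk, fun t => n (.inl t),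
    fun q x hx y hy t => n (.inr (.inl ⟨q, x, hx, y, hy, t⟩)), fun t => n (.inr (.inr t))⟩
  exact (((s.congr hx).symm.congr hy).symm).false g

end Pool.Agent.P.MP_5f84aa_co.G
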