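import Pool.Agent.P.MP_5f84aa_co.G.RIf

/-! Part R2: two merged objects with a common junction, and the case split of the local lemma. -/

namespace Pool.Agent.P.MP_5f84aa_co.G

theorem t_L2R (hL2P : S_L2P) (hMV1 : S_MV1) (hCY3B : S_CY3B) (hMMD : S_MMD) (hSR : S_SR) :
    S_L2R := by
  intro D h a b e ma mb ⟨q, x, hx, y, hy, g⟩
  have o := h.toOk
  have e' : D.Df x y := o.df_congr e hx hy
  have mx : D.Mg x := (o.mg_congr e.1 hx).2 ma
  have my : D.Mg y := (o.mg_congr e.2.1 hy).2 mb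
  rcases hMV1 D.toCb o q x y e' (hL2P D h q x y e' mx my g) with G | ⟨t, -⟩ | ⟨c, hc, bk⟩
  · exact .inl G
  · exact .inr (.inl ⟨_, o.p_mem_ob e.1 hx, t⟩)
  · obtain ⟨n, F, -, s, f, -⟩ := hCY3B D h q x y c e' mx my g hc bk
    have := h.fW
    have := h.fI
    have mc : D.Mg c := o.fl_mg f
    have off : ∀ w, w ≠ D.π x → w ≠ D.π y → w ≠ D.π c →
        w ∉ D.π '' (D.ob x ∪ D.ob y ∪ D.ob c) := by
      rintro w w1 w2 w3 ⟨v, (hv | hv) | hv, rfl⟩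
      exacts [w1 ((h.pi_mg e'.1 mx).2 hv), w2 ((h.pi_mg e'.2.1 my).2 hv),
        w3 ((h.pi_mg f.1 mc).2 hv)]
    obtain ⟨j, jF, w, w1, w2, w3, t⟩ := h.no.q3 s.2.1 n
    obtain ⟨j', jF', w', w1', w2', w3', t'⟩ := h.no.q3 s.2.1.compl n
    obtain ⟨u, v, sp⟩ := h.sep_of_side s (off w w1 w2 w3) (off w' w1' w2' w3')
      ⟨j, jF, t.2.2⟩ ⟨j', jF', t'.2.2⟩
    rcases hSR D.toCb o x y c u v e' (o.ga_oa ⟨q, x, Cb.self_ob x, y, Cb.self_ob y, g⟩)
      ⟨_, Cb.p_ob x, _, Cb.p_ob y, f⟩ sp with r | d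
    · exact .inr (.inr ((o.rg_congr e.1 hx).1 r))
    · exact absurd d (hMMD D h y c e'.2.1 my f.1 mc)

theorem t_LA (hL2R : S_L2R) (hL3R : S_L3R) (hL4R : S_L4R) : S_LA := by
  intro D h a b e g n
  by_cases ma : D.Mg a <;> by_cases mb : D.Mg b
  · rcases hL2R D h a b e ma mb g with r | r | r
    exacts [.inl r, .inr (.inl r), .inr (.inr (.inl r))]
  · exact (hL3R D h a b e ma mb g).2
  · rcases (hL3R D h b a (h.toOk.df_symm e) mb ma g.symm).1 with r | r | r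
    exacts [.inl r, .inr (.inl r), .inr (.inr (.inl r))]
  · exact hL4R D h a b e ma mb g n

end Pool.Agent.P.MP_5f84aa_co.G
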