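import Pool.Agent.P.MP_5f84aa_co.G.RIf

/-! A place of a merged and a plain object on a common face. -/

namespace Pool.Agent.P.MP_5f84aa_co.G

namespace RTL3I

variable {V J Sg : Type} {m : Map V J Sg} {a b b' g w w' : V} {r r0 r1 q1 q2 : J}

theorem core (h : m.Ok) (bb : m.Bd b) (ab : a ≠ b) (ab' : a ≠ b') (ag : a ≠ g) (bb' : b ≠ b')
    (bg : b ≠ g) (b'g : b' ≠ g) (t : m.Tri r a b b') (t1 : m.Tri q1 a b g) (t2 : m.Tri q2 b b' g)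
    (f0 : m.Fc r0 a b w) (f1 : m.Fc r1 b b' w') (n : ¬ m.hug r0 (m.ln a g))
    (l : m.ln a g ≠ m.ln b' g) : False := by
  obtain ⟨d, -, c⟩ := h.deg3 (j₁ := r) (j₂ := q2) (j₃ := q1) ab.symm bb' bg ab' b'g ag
    ⟨t.2.1, t.1, t.2.2⟩ t2 ⟨t1.2.1, t1.2.2, t1.1⟩
  have l0 := h.lines f0 (bb.ne_inf f0.has2)
  have l1 := h.lines f1 (bb.ne_inf f1.has1)
  have e0 : r0 = r := by
    rcases d r0 f0.has2 with e | rfl | rfl
    · exact e
    · rcases (h.tri_has t2 bb' bg b'g).1 f0.has1 with e | e | e <;> contradiction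
    · rcases f0.has_iff.1 t1.2.2 with e | e | rfl
      exacts [absurd e.symm ag, absurd e.symm bg, absurd (.inr l0.2.1.symm) n]
  have e1 : m.ln b g = m.ln b' g := by
    rcases d r1 f1.has1 with rfl | rfl | rfl
    · rcases f0.cor_iff.1 (e0 ▸ f1.cor2) with e | e
      exacts [absurd e.symm ab', absurd e.symm bb']
    · rcases f1.has_iff.1 t2.2.2 with e | e | rfl
      exacts [absurd e.symm bg, absurd e.symm b'g, l1.2.1.trans l1.2.2.1.symm]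
    · rcases (h.tri_has t1 ab ag bg).1 f1.has2 with e | e | e
      exacts [absurd e.symm ab', absurd e.symm bb', absurd e b'g]
  have i := bb.ne_inf t1.2.1
  rcases h.tri_cases t1 ab ag bg with f | f | f
  · exact l ((h.lines f i).2.1.trans ((h.lines f i).2.2.1.symm.trans e1))
  · refine n (.inl (l0.1.symm.trans ?_))
    rw [h.ln_symm a b, h.ln_symm a g, (h.lines f i).2.1, (h.lines f i).2.2.1]
  · rcases f.cor_iff.1 (c bb).2.2 with e | e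
    exacts [bg e, ab e.symm]

end RTL3I

theorem t_L3I (hMV1 : S_MV1) (hCY4 : S_CY4) : S_L3I := by
  intro D h r q x y df mx my t pl hg
  rcases hMV1 D.toCb h.toOk q x y df pl with e | e | ⟨c, hc, f, n1, n2⟩
  · exact .inl e
  · exact .inr (.inl ⟨⟨_, Cb.p_ob x, e.1⟩, _, Cb.p_ob y, e.2⟩)
  refine .inr (.inr ⟨c, ⟨_, Cb.p_ob x, _, Cb.p_ob y, f⟩, ?_⟩)
  obtain ⟨g1, l1⟩ := h.fl_ln_push f
  obtain ⟨g2, l2⟩ := h.fl_ln_push f.symm
  rw [h.pi_p df.1 mx] at g1 l1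
  have l := h.toOk.fl_ln f
  have ab : D.π x ≠ D.π y := (h.pi_ne df.1 df.2.2).symm
  have ab' : D.π x ≠ D.π (D.p y) :=
    (h.pi_ne df.1 fun e => h.toOk.df_disj df e (Cb.p_ob y)).symm
  have bb' := h.pi_ne_p df.2.1 my
  have bg : D.π y ≠ D.π c := (h.pi_ne df.2.1 fun e => hc (.inr e)).symm
  rw [h.no.ln_symm] at l1 l2
  have nt : ∀ j, ¬ D.n.Tri j (D.π x) (D.π (D.p y)) (D.π c) := fun j =>
    h.no.not_tri (h.bd_pi df.1) ab' g1.symm g2.symm (fun e => n1 (l1 ▸ e ▸ hg))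
      (fun e => n2 (l2 ▸ e ▸ hg)) (by rwa [l1, l2])
  obtain ⟨F, -, th⟩ := hCY4 D h x y c df mx my (h.mo.adj12 pl.1) (fun e => hc (.inl e)) f
  obtain ⟨r0, rfl⟩ := h.exJ_ge pl.1 ab
  obtain ⟨r1, e1⟩ := h.exJ_jm df.2.1 my
  have key : ∀ F, D.Cy (E4 (D.π x) (D.π y) (D.π (D.p y)) (D.π c)) F
      (D.ob x ∪ D.ob y ∪ D.ob c) → ∃ u ∉ D.π '' (D.ob x ∪ D.ob y ∪ D.ob c), D.n.sd F u := by
    intro F s
    rcases h.no.q4 s.2.1 ab' bg with ⟨u, u1, u2, u3, u4, u5⟩ | ⟨_, -, j, -, -, e⟩ |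
      ⟨q1, -, q2, -, t1, t2⟩
    · refine ⟨u, ?_, u5⟩
      rintro ⟨v, (e | rfl | rfl) | e, rfl⟩
      exacts [u1 ((h.pi_mg df.1 mx).2 e), u2 rfl, u3 rfl, u4 ((h.pi_mg f.1 (h.toOk.fl_mg f)).2 e)]
    · exact absurd ⟨e.2.2, e.1, e.2.1⟩ (nt j)
    · exact (RTL3I.core h.no (h.bd_pi df.2.1) ab ab' g1.symm bb' bg g2.symm t t1 t2 (h.push pl.1)
        (h.push (e1 ▸ h.ge y df.2.1)) (fun e => n1 (l1 ▸ h.hug_iff.1 e)) (by rwa [l1, l2])).elim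
  obtain ⟨u, u1, u2⟩ := key F th.1
  obtain ⟨v, v1, v2⟩ := key Fᶜ (h.cy_compl th.1)
  exact h.sep_of_side th.1 u1 v1 u2 v2

end Pool.Agent.P.MP_5f84aa_co.G
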