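import Pool.Agent.P.MP_5f84aa_co.G.RIf

/-! A junction of a merged and a plain object whose far cell is not touched. -/

namespace Pool.Agent.P.MP_5f84aa_co.G

namespace RTL3II

theorem key (hL3Q : S_L3Q) (hMV1 : S_MV1) (hCY4 : S_CY4) {D : Cf} (h : D.Ok) {q : D.J} {x y : D.V}
    (df : D.Df x y) (mx : D.Mg x) (my : ¬ D.Mg y) (g : D.m.GE q x y) (nt : ¬ D.Tch x (D.p y)) :
    D.Good ∨ (D.TO x ∧ D.TO y) ∨
    (∃ c, D.FO c x y ∧ ∃ u v, D.m.Sep (D.ob x ∪ D.ob y ∪ D.ob c) u v) ∨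
    ∃ c, c ∉ D.ob x ∪ D.ob y ∧ D.Bk q c (D.p x) (D.p y) ∧ ∃ r r',
      D.n.Tri r (D.π x) (D.π y) (D.π c) ∧ D.n.Tri r' (D.π y) (D.π (D.p y)) (D.π c) := by
  rcases hMV1 _ h.toOk q x y df (hL3Q _ h.toOk q x y df mx g nt) with t | t | ⟨c, hc, b⟩
  · exact .inl t
  · exact .inr (.inl ⟨⟨_, Cb.p_ob x, t.1⟩, _, Cb.p_ob y, t.2⟩)
  obtain ⟨F, -, cy, -⟩ := hCY4 D h x y c df mx my (h.mo.adj12 g) (fun n => hc (.inl n)) b.1
  have n1 : D.π x ≠ D.π (D.p y) :=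
    (h.pi_ne df.1 (h.toOk.df_disj (h.toOk.df_symm df) (Cb.p_ob y))).symm
  have n2 : D.π y ≠ D.π c := (h.pi_ne df.2.1 fun n => hc (.inr n)).symm
  have ch : ∀ r, ¬ D.n.Tri r (D.π x) (D.π y) (D.π (D.p y)) := fun r t => by
    obtain ⟨u, v, a, e1, e2⟩ := h.adj_lift (Map.On.adj ⟨t.1, t.2.2⟩ n1)
    rw [h.pi_plain fun n => my ((h.toOk.mg_congr df.2.1 (Cb.p_ob y)).1 n.2)] at e2
    exact nt ⟨u, h.pi_ob df.1 e1, e2 ▸ a⟩
  have off : ∀ u, u ≠ D.π x → u ≠ D.π y → u ≠ D.π (D.p y) → u ≠ D.π c →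
      u ∉ D.π '' (D.ob x ∪ D.ob y ∪ D.ob c) := by
    rintro _ a1 a2 a3 a4 ⟨w, (e | rfl | rfl) | e, rfl⟩
    exacts [a1 ((h.pi_mg df.1 mx).2 e), a2 rfl, a3 rfl,
      a4 ((h.pi_mg b.1.1 (h.toOk.fl_mg b.1)).2 e)]
  rcases h.no.q4 cy.2.1 n1 n2 with ⟨u, a1, a2, a3, a4, s⟩ | ⟨r, -, -, -, t, -⟩ |
    ⟨r, -, r', -, t, t'⟩
  · rcases h.no.q4 cy.2.1.compl n1 n2 with ⟨v, b1, b2, b3, b4, s'⟩ | ⟨r, -, -, -, t, -⟩ |
      ⟨r, -, r', -, t, t'⟩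
    · exact .inr (.inr (.inl ⟨c, ⟨_, Cb.p_ob x, _, Cb.p_ob y, b.1⟩,
        h.sep_of_side cy (off u a1 a2 a3 a4) (off v b1 b2 b3 b4) s s'⟩))
    · exact (ch r t).elim
    · exact .inr (.inr (.inr ⟨c, hc, b, r, r', t, t'⟩))
  · exact (ch r t).elim
  · exact .inr (.inr (.inr ⟨c, hc, b, r, r', t, t'⟩))

theorem ga {D : Cf} (h : D.Ok) {r : D.I} {a b a' b' : D.V} {γ : D.W} (ua : D.U a) (ub : D.U b)
    (ha : a' ∈ D.ob a) (hb : b' ∈ D.ob b) (f : D.n.Fc r (D.π a') (D.π b') γ) : D.GA a b := by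
  obtain ⟨u, v, w, f, e1, e2, -⟩ := h.lift f
  exact ⟨_, u, h.toOk.ob_trans ua ha (h.pi_ob (h.toOk.ob_U ua ha) e1), v,
    h.toOk.ob_trans ub hb (h.pi_ob (h.toOk.ob_U ub hb) e2), f.ge⟩

end RTL3II

theorem t_L3II (hL3Q : S_L3Q) (hMV1 : S_MV1) (hCY4 : S_CY4) : S_L3II := by
  intro D h q x y df mx my g nt
  rcases RTL3II.key hL3Q hMV1 hCY4 h df mx my g nt with t | t | t | ⟨c, hc, b, q1, q2, t1, t2⟩
  · exact .inl t
  · exact .inr (.inl t)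
  · exact .inr (.inr (.inl t))
  have xy : D.π x ≠ D.π y := (h.pi_ne df.1 df.2.2).symm
  have xc : D.π x ≠ D.π c := (h.pi_ne df.1 fun n => hc (.inl n)).symm
  have yc : D.π y ≠ D.π c := (h.pi_ne df.2.1 fun n => hc (.inr n)).symm
  have yy : D.π y ≠ D.π (D.p y) := h.pi_ne_p df.2.1 my
  have l1 := (h.fl_ln_push b.1).2
  obtain ⟨cy, l2⟩ := h.fl_ln_push b.1.symm
  have tt := h.toOk.fl_ln b.1
  obtain ⟨fl, h1, h2⟩ := b
  obtain ⟨r0, rfl⟩ := h.exJ_ge g xy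
  rw [← h.hug_iff, ← l1, h.pi_p df.1 mx] at h1
  rw [← h.hug_iff, ← l2] at h2
  rw [← l1, ← l2, h.pi_p df.1 mx] at tt
  have f0 := h.push g.fc
  have bx := h.bd_pi df.1
  have by' := h.bd_pi df.2.1
  have sy := h.no.ln_symm
  obtain ⟨s0, s1, s2, -⟩ := h.no.lines f0 (bx.ne_inf f0.has1)
  rcases h.no.tri_cases t1 xy xc yc with f | f | f <;>
    obtain ⟨k0, k1, k2, -⟩ := h.no.lines f (bx.ne_inf t1.1)
  · have n1 : r0 ≠ q1 := fun e => h1 (.inr (by rw [e, ← k1, sy]))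
    obtain ⟨ry, ey⟩ := h.exJ_jm df.2.1 my
    have fy := h.push (ey.symm ▸ (h.ge y df.2.1).fc : D.m.Fc (D.ι ry) y (D.p y) (D.m.X (D.ι ry)))
    obtain ⟨-, y1, y2, -⟩ := h.no.lines fy (by'.ne_inf fy.has1)
    have n2 : ry ≠ q2 := fun e => by
      rcases fy.has_iff.1 (e ▸ t2.2.2) with a | a | a
      · exact yc a.symm
      · exact cy a
      · exact tt (by rw [sy, k1, ← k2, sy _ (D.π (D.p y)), a, y1, y2])
    obtain ⟨x1, z1, c1, f1, e1, e2, -⟩ := h.lift f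
    obtain rfl := (h.pi_plain fun n => my n.2).1 e2
    have o1 := h.pi_ob df.1 e1
    have df1 := h.toOk.df_congr df o1 (Cb.self_ob _)
    have m1 := (h.toOk.mg_congr df.1 o1).2 mx
    rcases RTL3II.key hL3Q hMV1 hCY4 h df1 m1 my f1.ge (mt (h.toOk.tch_congr df.1 o1).1 nt) with
      t | t | t | ⟨d, hd, b, q3, q4, t3, t4⟩
    · exact .inl t
    · exact .inr (.inl ⟨(h.toOk.to_congr df.1 o1).1 t.1, t.2⟩)
    · exact .inr (.inr (.inl (by simpa only [Cb.FO, h.toOk.ob_eq df.1 o1] using t)))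
    have l3 := (h.fl_ln_push b.1).2
    obtain ⟨dy', l4⟩ := h.fl_ln_push b.1.symm
    have t5 := h.toOk.fl_ln b.1
    have h3 := b.2.1
    rw [← h.hug_iff, ← l3, h.pi_p df1.1 m1, e1] at h3
    rw [← l3, ← l4, h.pi_p df1.1 m1, e1] at t5
    have dx := h.pi_ne df1.1 fun n => hd (.inl n)
    have dy := h.pi_ne df1.2.1 fun n => hd (.inr n)
    rw [e1] at dx t3
    have dc : D.π d ≠ D.π c := fun e => h3 (.inr (by rw [e, ← k1, sy]))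
    refine (t5 ?_).elim
    rcases h.no.two_faces xy f0.on f.on ⟨t3.1, t3.2.1⟩ n1 with rfl | rfl
    · rcases h.no.two_faces yy fy.on ⟨t2.1, t2.2.1⟩ ⟨t4.1, t4.2.1⟩ n2 with rfl | rfl
      · have a := ((f0.has_iff.1 t3.2.2).resolve_left dx).resolve_left dy
        have a' := ((fy.has_iff.1 t4.2.2).resolve_left dy).resolve_left dy'
        rw [← a] at s1 s2
        rw [← a'] at y1 y2
        rw [sy, s1, ← s2, y1, ← y2, sy]
      · exact (dc ((((h.no.tri_has t2 yy yc cy.symm).1 t4.2.2).resolve_left dy).resolve_left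
          dy')).elim
    · exact (dc (((f.has_iff.1 t3.2.2).resolve_left dx).resolve_left dy)).elim
  · exact (h1 (.inl (by rw [← s0, sy, k1, k2]))).elim
  · refine .inr (.inr (.inr ⟨c, ⟨_, Cb.p_ob x, _, Cb.p_ob y, fl⟩,
      RTL3II.ga h df.1 fl.1 (Cb.self_ob x) (Cb.self_ob c) f.symm, ?_, q2, t2.2.2, t2.1, t2.2.1⟩))
    rcases h.no.tri_cases t2 yy yc cy.symm with f' | f' | f'
    · obtain ⟨-, j1, j2, -⟩ := h.no.lines f' (by'.ne_inf t2.1)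
      exact (h2 (.inl (by rw [← s0, k2, ← k1, sy, j1, ← j2, sy]))).elim
    · exact RTL3II.ga h fl.1 df.2.1 (Cb.self_ob c) (Cb.p_ob y) f'.symm
    · exact RTL3II.ga h fl.1 df.2.1 (Cb.self_ob c) (Cb.self_ob y) f'

end Pool.Agent.P.MP_5f84aa_co.G
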