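import Pool.Agent.P.MP_5f84aa_co.G.RIf

/-! Part R2: a merged and a plain object with a common junction. -/

namespace Pool.Agent.P.MP_5f84aa_co.G

namespace RTL3R

variable {D : Cf} {a b c x y : D.V}

/-- the conclusion -/
def Cn (D : Cf) (a b : D.V) : Prop :=
  (D.Good ∨ D.TO b ∨ D.Rg b) ∧ (D.Good ∨ D.TO a ∨ D.Rg a ∨ ∃ c, D.St a b c)

theorem congr (h : D.Ok) (e : D.Df a b) (hx : x ∈ D.ob a) (hy : y ∈ D.ob b) (t : Cn D x y) :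
    Cn D a b := by
  have k := h.toOk
  refine ⟨t.1.imp_right (.imp (k.to_congr e.2.1 hy).1 (k.rg_congr e.2.1 hy).1),
    t.2.imp_right (.imp (k.to_congr e.1 hx).1 (.imp (k.rg_congr e.1 hx).1 ?_))⟩
  rintro ⟨c, s⟩
  exact ⟨c, k.st_congr s (k.ob_symm e.1 hx) (k.ob_symm e.2.1 hy)⟩

theorem t3d (hCY3 : S_CY3) (h : D.Ok) (e : D.Df a b) (ma : D.Mg a) (nb : ¬ D.Mg b) (t : D.T3 a b) :
    D.Dig a b := by
  haveI := h.fW
  haveI := h.fI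
  obtain ⟨F, -, s⟩ := hCY3 D h a b e ma nb t.1 t.2.1
  have off : ∀ w, w ≠ D.π a → w ≠ D.π b → w ≠ D.π (D.p b) → w ∉ D.π '' (D.ob a ∪ D.ob b) := by
    rintro w w1 w2 w3 ⟨v, hv | rfl | rfl, rfl⟩
    exacts [w1 ((h.pi_mg e.1 ma).2 hv), w2 rfl, w3 rfl]
  obtain ⟨j, jF, w, w1, w2, w3, t1⟩ := h.no.q3 s.2.1 t.2.2
  obtain ⟨j', jF', w', v1, v2, v3, t2⟩ := h.no.q3 (h.cy_compl s).2.1 t.2.2
  exact h.sep_of_side s (off w w1 w2 w3) (off w' v1 v2 v3) ⟨j, jF, t1.2.2⟩ ⟨j', jF', t2.2.2⟩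

theorem of_dig (h : D.Ok) (e : D.Df a b) (g : D.GA a b) (d : D.Dig a b) : Cn D a b :=
  ⟨.inr (.inr (.inl ⟨a, h.toOk.df_symm e, (h.toOk.ga_oa g).symm, d.symm⟩)),
    .inr (.inr (.inl (.inl ⟨b, e, h.toOk.ga_oa g, d⟩)))⟩

theorem of_sep (hMMD : S_MMD) (hSR : S_SR) (h : D.Ok) (e : D.Df x y) (mx : D.Mg x) (ny : ¬ D.Mg y)
    (g : D.GA x y) (f : D.FO c x y) (s : ∃ u v, D.m.Sep (D.ob x ∪ D.ob y ∪ D.ob c) u v) :
    Cn D x y := by
  have k := h.toOk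
  obtain ⟨u, v, s⟩ := s
  constructor
  · rcases hSR D.toCb k y x c u v (k.df_symm e) (k.ga_oa g).symm f.symm
      (by rwa [Set.union_comm (D.ob y)]) with r | r
    · exact .inr (.inr r)
    · exact absurd r (hMMD D h x c e.1 mx (k.fo_df f e.1).1 (k.fo_mg f))
  · rcases hSR D.toCb k x y c u v e (k.ga_oa g) f s with r | r
    · exact .inr (.inr (.inl r))
    · exact .inr (.inr (.inr ⟨c, e, ny, g, f, .inl r⟩))

theorem alt2 (hL3I : S_L3I) (hMMD : S_MMD) (hSR : S_SR) (h : D.Ok) (e : D.Df a b) (ma : D.Mg a)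
    (nb : ¬ D.Mg b)
    (t : ∃ r q, ∃ x ∈ D.ob a, ∃ y ∈ D.ob b, D.n.Tri r (D.π x) (D.π y) (D.π (D.p y)) ∧
      D.Pl q x y ∧ D.m.hug q (D.n.ln (D.π x) (D.π (D.p y)))) : Cn D a b := by
  have k := h.toOk
  obtain ⟨r, q, x, hx, y, hy, t1, t2, t3⟩ := t
  have e' := k.df_congr e hx hy
  have mx := (k.mg_congr e.1 hx).2 ma
  have ny := mt (k.mg_congr e.2.1 hy).1 nb
  refine congr h e hx hy ?_
  rcases hL3I D h r q x y e' mx ny t1 t2 t3 with g | g | ⟨c, f, s⟩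
  · exact ⟨.inl g, .inl g⟩
  · exact ⟨.inr (.inl g.2), .inr (.inl g.1)⟩
  · exact of_sep hMMD hSR h e' mx ny ⟨q, x, D.self_ob x, y, D.self_ob y, t2.1⟩ f s

theorem tch_of_tri {r : D.I} {w : D.V} (h : D.Ok) (e : D.Df c y) (ny : ¬ D.Mg y)
    (t : D.n.Tri r (D.π c) (D.π y) (D.π (D.p y))) (hw : w ∈ D.ob y) : D.Tch c w := by
  have k := h.toOk
  have a : D.n.has r (D.π w) := by
    rcases hw with rfl | rfl
    exacts [t.2.1, t.2.2]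
  obtain ⟨v, v1, v2⟩ := h.has_iff.1 t.1
  obtain ⟨z, z1, z2⟩ := h.has_iff.1 a
  obtain rfl := (h.pi_plain fun n => ny ((k.mg_congr e.2.1 hw).1 n.2)).1 z2
  have hv := h.pi_ob e.1 v2
  exact ⟨v, hv, k.df_ne e hv hw, _, v1, z1⟩

end RTL3R

open RTL3R in
theorem t_L3R (hL3P : S_L3P) (hL3I : S_L3I) (hL3II : S_L3II) (hL2R : S_L2R) (hCY3 : S_CY3)
    (hMMD : S_MMD) (hSR : S_SR) : S_L3R := by
  intro D h a b e ma nb g
  have k := h.toOk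
  change Cn D a b
  rcases hL3P D h a b e ma nb g with t | t | ⟨q, x, hx, y, hy, g1, n1⟩
  · exact of_dig h e g (t3d hCY3 h e ma nb t)
  · exact alt2 hL3I hMMD hSR h e ma nb t
  have e' := k.df_congr e hx hy
  have mx := (k.mg_congr e.1 hx).2 ma
  have ny := mt (k.mg_congr e.2.1 hy).1 nb
  refine congr h e hx hy ?_
  rcases hL3II D h q x y e' mx ny g1 n1 with o | o | ⟨c, f, s⟩ | ⟨c, f, g2, g3, r, t⟩
  · exact ⟨.inl o, .inl o⟩
  · exact ⟨.inr (.inl o.2), .inr (.inl o.1)⟩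
  · exact of_sep hMMD hSR h e' mx ny ⟨q, x, D.self_ob x, y, D.self_ob y, g1⟩ f s
  have mc := k.fo_mg f
  have ey := k.fo_df f.symm e'.2.1
  constructor
  · rcases hL3P D h c y ey mc ny g3 with o | o | ⟨q', x', hx', y', hy', -, n2⟩
    · exact absurd t (o.2.2 r)
    · exact (alt2 hL3I hMMD hSR h ey mc ny o).1
    · exact absurd ((k.tch_congr ey.1 hx').2 (tch_of_tri h ey ny t (k.p_mem_ob ey.2.1 hy'))) n2
  · exact (hL2R D h x c (k.df_symm (k.fo_df f e'.1)) mx mc g2).imp_right (.imp_right .inl)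

end Pool.Agent.P.MP_5f84aa_co.G
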