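import Pool.Agent.P.MP_5f84aa_co.G.RIf

/-! Part R2: two plain objects with a common junction. -/

namespace Pool.Agent.P.MP_5f84aa_co.G

namespace RTL4R

theorem stems (hMV0 : S_MV0) (hCY3D : S_CY3D) (D : Cf) (h : D.Ok) {a b : D.V} (df : D.Df a b)
    (mb : ¬ D.Mg b) (e : D.m.stem (D.jm a) = D.m.stem (D.jm b)) :
    D.Good ∨ D.TO a ∨ D.Rg a := by
  have k := h.toOk
  rcases hMV0 D.toCb k a b df mb e with g | g | ⟨c, fl, n1, n2⟩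
  · exact Or.inl g
  · exact Or.inr (Or.inl g)
  obtain ⟨ma, F, -, th⟩ := hCY3D D h a c df.1 fl
  have fo : D.FO c a a := ⟨a, Cb.self_ob a, D.p a, Cb.p_ob a, fl⟩
  have e1 := h.pi_ne_p df.1 ma
  obtain ⟨e2, l2⟩ := h.fl_ln_push fl
  obtain ⟨e3, l3⟩ := h.fl_ln_push fl.symm
  have l1 : D.m.hug (D.jm b) (D.n.ln (D.π a) (D.π (D.p a))) := by
    rw [h.ln_push (k.adj_p df.1) e1, (k.mo.lines (k.ge a df.1).fc (k.jm_inf df.1)).1, e]
    exact Or.inl rfl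
  have nt : ∀ j, ¬ D.n.Tri j (D.π a) (D.π (D.p a)) (D.π c) := fun j => by
    refine h.no.not_tri (h.bd_pi df.1) e1 e2.symm e3.symm (fun e => n1 ?_) (fun e => n2 ?_) ?_
    · rwa [e, h.no.ln_symm, l2] at l1
    · rwa [e, h.no.ln_symm, l3] at l1
    · rw [h.no.ln_symm _ (D.π c), h.no.ln_symm _ (D.π c), l2, l3]
      exact k.fl_ln fl
  have off : ∀ w, w ≠ D.π a → w ≠ D.π (D.p a) → w ≠ D.π c → w ∉ D.π '' (D.ob a ∪ D.ob c) := by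
    rintro _ w1 w2 w3 ⟨v, hv | hv, rfl⟩
    · rcases Cb.mem_ob.1 hv with rfl | rfl
      · exact w1 rfl
      · exact w2 rfl
    · exact w3 ((h.pi_mg fl.1 (k.fl_mg fl)).2 hv)
  obtain ⟨j, hj, w, w1, w2, w3, t⟩ := h.no.q3 th.1.2.1 nt
  obtain ⟨j', hj', w', w1', w2', w3', t'⟩ := h.no.q3 th.1.2.1.compl nt
  exact Or.inr (Or.inr (Or.inl ⟨c, k.df_symm (k.fo_df fo df.1), (k.fo_oa fo).symm,
    h.sep_of_side th.1 (off w w1 w2 w3) (off w' w1' w2' w3') ⟨j, hj, t.2.2⟩ ⟨j', hj', t'.2.2⟩⟩))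

theorem inner (hL3R : S_L3R) (D : Cf) (h : D.Ok) {x y c : D.V} {E : D.W → D.W → Prop}
    {G : Set D.I} (df : D.Df x y) (mx : ¬ D.Mg x) (my : ¬ D.Mg y) (ga : D.GA x y)
    (th : D.Th E G (D.ob x ∪ D.ob y ∪ D.ob c) c (D.p x) (D.p y))
    (no : ∀ α, D.n.sd G α → α ∈ D.π '' (D.ob x ∪ D.ob y ∪ D.ob c)) :
    D.Good ∨ D.TO x ∨ D.Rg x ∨ ∃ c, D.St x y c := by
  have k := h.toOk
  have := h.fW
  have := h.fI
  have fl := th.2.1
  have mc := k.fl_mg fl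
  have fo : D.FO c x y := ⟨_, Cb.p_ob x, _, Cb.p_ob y, fl⟩
  obtain ⟨r, hr, cr, -⟩ := h.no.first_corner (F := G) (x := D.π (D.p x)) (y := D.π (D.p y))
    (h.bd_pi fl.1) (fun w => (th.1.2.1 _ w).trans (th.2.2 w)) (by
      rw [(h.fl_ln_push fl).2, (h.fl_ln_push fl.symm).2]
      exact k.fl_ln fl)
  obtain ⟨d, hd, -, z, ge, hz⟩ := h.cor_lift fl.1 cr
  have all : ∀ v, D.m.has (D.ι r) v → v ∉ D.ob c → v ∈ D.ob x ∪ D.ob y := fun v hv n =>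
    ((h.mem_pi th.1.1).1 (no _ ⟨r, hr, h.has_push hv⟩)).resolve_right n
  have z1 := all z ge.fc.has2 fun n => hz ((h.pi_mg fl.1 mc).2 n)
  have w1 := all _ ge.fc.has3 fun n => h.not_both (k.ob_U fl.1 hd) ((k.mg_congr fl.1 hd).2 mc)
    ge.fc.has1 (k.eq_p fl.1 hd n (k.mo.fc_ne ge.fc).2.1 ▸ ge.fc.has3)
  rcases z1 with z1 | z1
  · rcases (hL3R D h c x (k.fo_df fo df.1) mc mx ⟨_, d, hd, z, z1, ge⟩).1 with g | g | g
    · exact Or.inl g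
    · exact Or.inr (Or.inl g)
    · exact Or.inr (Or.inr (Or.inl g))
  · exact Or.inr (Or.inr (Or.inr ⟨c, df, my, ga, fo, Or.inr ⟨mx, _, d, hd, z, z1, _, w1, ge.fc⟩⟩))

theorem place (hMV1 : S_MV1) (hCY5 : S_CY5) (hSR : S_SR) (hL3R : S_L3R) (D : Cf) (h : D.Ok)
    {x y : D.V} {q : D.J} (df : D.Df x y) (mx : ¬ D.Mg x) (my : ¬ D.Mg y) (pl : D.Pl q x y) :
    D.Good ∨ D.TO x ∨ D.Rg x ∨ ∃ c, D.St x y c := by
  have k := h.toOk
  have ga : D.GA x y := ⟨q, x, Cb.self_ob x, y, Cb.self_ob y, pl.1⟩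
  rcases hMV1 D.toCb k q x y df pl with g | g | ⟨c, -, fl, -⟩
  · exact Or.inl g
  · exact Or.inr (Or.inl ⟨_, Cb.p_ob x, g.1⟩)
  obtain ⟨F, -, th⟩ := hCY5 D h x y c df mx my (k.mo.adj12 pl.1.fc) fl
  have fo : D.FO c x y := ⟨_, Cb.p_ob x, _, Cb.p_ob y, fl⟩
  by_cases h1 : ∀ α, D.n.sd F α → α ∈ D.π '' (D.ob x ∪ D.ob y ∪ D.ob c)
  · exact inner hL3R D h df mx my ga th h1
  by_cases h2 : ∀ α, D.n.sd Fᶜ α → α ∈ D.π '' (D.ob x ∪ D.ob y ∪ D.ob c)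
  · exact inner hL3R D h df mx my ga (h.th_compl th) h2
  simp only [not_forall] at h1 h2
  obtain ⟨α, a1, a2⟩ := h1
  obtain ⟨β, b1, b2⟩ := h2
  obtain ⟨u, v, s⟩ := h.sep_of_side th.1 a2 b2 a1 b1
  rcases hSR D.toCb k x y c u v df (k.ga_oa ga) fo s with g | g
  · exact Or.inr (Or.inr (Or.inl g))
  · exact Or.inr (Or.inr (Or.inr ⟨c, df, my, ga, fo, Or.inl g⟩))

end RTL4R

theorem t_L4R (hL1 : S_L1) (hMV0 : S_MV0) (hMV1 : S_MV1) (hCY3D : S_CY3D) (hCY5 : S_CY5)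
    (hSR : S_SR) (hL3R : S_L3R) : S_L4R := by
  intro D h a b df ma mb ga lk
  have k := h.toOk
  rcases hL1 D.toCb k a b df ma mb ga lk with
    ⟨q, x, hx, y, hy, F, u, v, -, -, sd, hu, hv, su, sv⟩ | ⟨q, x, hx, y, hy, pl⟩ | e
  · have px := k.p_mem_ob df.1 hx
    have py := k.p_mem_ob df.2.1 hy
    refine Or.inr (Or.inr (Or.inl (Or.inl ⟨b, df, k.ga_oa ga, u, v, _,
      k.mo.cl_side sd fun s t e => ?_, ⟨hu, su⟩, fun n => sv n.2, hv⟩)))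
    simp only [E4, Sym2.eq_iff] at e
    rcases e with (e | e) | (e | e) | (e | e) | (e | e) <;> rw [e.1] <;>
      first | exact Or.inl ‹_› | exact Or.inr ‹_›
  · rcases RTL4R.place hMV1 hCY5 hSR hL3R D h (k.df_congr df hx hy)
      (fun n => ma ((k.mg_congr df.1 hx).1 n)) (fun n => mb ((k.mg_congr df.2.1 hy).1 n)) pl with
      g | g | g | ⟨c, g⟩
    · exact Or.inl g
    · exact Or.inr (Or.inl ((k.to_congr df.1 hx).1 g))
    · exact Or.inr (Or.inr (Or.inl ((k.rg_congr df.1 hx).1 g)))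
    · exact Or.inr (Or.inr (Or.inr ⟨c, k.st_congr g (k.ob_symm df.1 hx) (k.ob_symm df.2.1 hy)⟩))
  · rcases RTL4R.stems hMV0 hCY3D D h df mb e with g | g | g
    · exact Or.inl g
    · exact Or.inr (Or.inl g)
    · exact Or.inr (Or.inr (Or.inl g))

end Pool.Agent.P.MP_5f84aa_co.G
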