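import Pool.Agent.P.MP_5f84aa_co.G.RIf

/-! Part R2: a linked and confined object next to a third object gives a good move. -/

namespace Pool.Agent.P.MP_5f84aa_co.G

namespace RTL5

open Map Cb

section map

variable {V J Sg : Type} {m : Map V J Sg} {j k : J} {x y u v a b c : V}

theorem ne_of_ge (f : m.GE j x y) (g : m.GE k u v) (p : x ≠ u) (q : x ≠ v) : j ≠ k := fun e => by
  rcases g.fc.cor_iff.1 (e ▸ f.fc.cor1) with r | r
  exacts [p r, q r]

/-- a bounded cell with at most three neighbours is a corner of each of its faces -/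
theorem nb3 (h : m.Ok) (bx : m.Bd x) (xa : x ≠ a) (xb : x ≠ b) (xc : x ≠ c) (ab : a ≠ b)
    (bc : b ≠ c) (ac : a ≠ c) (n : ∀ w, m.Adj x w → w = a ∨ w = b ∨ w = c) :
    (∀ k, m.X k ≠ x) ∧ ∃ j, m.Tri j x a b ∧ m.cor j x := by
  have ty : ∀ k, m.has k x → m.Tri k x a b ∨ m.Tri k x b c ∨ m.Tri k x c a := fun k hk => by
    obtain ⟨u, v, uv, ux, vx, t⟩ := h.two_more hk
    have hu := n u (On.adj ⟨t.1, t.2.1⟩ ux.symm)
    have hv := n v (On.adj ⟨t.1, t.2.2⟩ vx.symm)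
    have t' : m.Tri k x v u := ⟨t.1, t.2.2, t.2.1⟩
    rcases hu with rfl | rfl | rfl <;> rcases hv with rfl | rfl | rfl
    exacts [absurd rfl uv, .inl t, .inr (.inr t'), .inl t', absurd rfl uv, .inr (.inl t),
      .inr (.inr t), .inr (.inl t'), absurd rfl uv]
  have u1 : ∀ i i', m.Tri i x a b → m.Tri i' x a b → i = i' :=
    fun _ _ => h.tri_unique bx xa xb ab
  have u2 : ∀ i i', m.Tri i x b c → m.Tri i' x b c → i = i' :=
    fun _ _ => h.tri_unique bx xb xc bc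
  have u3 : ∀ i i', m.Tri i x c a → m.Tri i' x c a → i = i' :=
    fun _ _ => h.tri_unique bx xc xa ac.symm
  obtain ⟨p, q, r, pq, pr, qr, cp, cq, cr⟩ := h.corners3 bx
  have ex : (∃ i, m.Tri i x a b) ∧ (∃ i, m.Tri i x b c) ∧ ∃ i, m.Tri i x c a := by
    rcases ty p cp.has with t1 | t1 | t1 <;> rcases ty q cq.has with t2 | t2 | t2 <;>
      rcases ty r cr.has with t3 | t3 | t3 <;>
      first
        | exact ⟨⟨_, ‹m.Tri _ x a b›⟩, ⟨_, ‹m.Tri _ x b c›⟩, ⟨_, ‹m.Tri _ x c a›⟩⟩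
        | exact absurd (u1 _ _ t1 t2) pq | exact absurd (u2 _ _ t1 t2) pq
        | exact absurd (u3 _ _ t1 t2) pq | exact absurd (u1 _ _ t1 t3) pr
        | exact absurd (u2 _ _ t1 t3) pr | exact absurd (u3 _ _ t1 t3) pr
        | exact absurd (u1 _ _ t2 t3) qr | exact absurd (u2 _ _ t2 t3) qr
        | exact absurd (u3 _ _ t2 t3) qr
  obtain ⟨⟨i1, t1⟩, ⟨i2, t2⟩, i3, t3⟩ := ex
  obtain ⟨d1, -, d3⟩ := h.deg3 xa xb xc ab bc ac t1 t2 t3
  obtain ⟨c1, c2, c3⟩ := d3 bx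
  refine ⟨fun k e => ?_, i1, t1, c1⟩
  have ck : m.cor k x := by
    rcases d1 k (.inr (.inr e.symm)) with rfl | rfl | rfl <;> assumption
  rcases ck with e' | e'
  exacts [h.neLX k (e'.symm.trans e.symm), h.neRX k (e'.symm.trans e.symm)]

end map

variable {D : Cb} {x y z b d w : D.V} {q : D.J}

/-- a cell that is never flat blocks nothing -/
theorem fin {Y : Set D.V} {P : D.V → Prop} (n : ∀ k, D.m.X k ≠ x)
    (g : D.Good ∨ (D.Tn x ∧ D.Tn y) ∨ ∃ c, c ∉ Y ∧ D.Fl c x y ∧ P c) : D.Good := by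
  rcases g with g | ⟨⟨j, -, j', -, e | e⟩, -⟩ | ⟨c, -, ⟨-, j, -, -, f, -⟩, -⟩
  exacts [g, absurd e (n _), absurd e (n _), absurd f.X_eq (n _)]

theorem not_sym (n : ∀ k, D.m.X k ≠ x) (j j' : D.J) : s(D.m.X j, D.m.X j') ≠ s(x, y) := fun e => by
  rcases Sym2.eq_iff.1 e with ⟨e, -⟩ | ⟨-, e⟩
  exacts [n _ e, n _ e]

/-- the corners of the partner of `x` other than the matched junction go to the object of `y` -/
theorem two_cor (h : D.Ok) (e : D.Df x y) (nx : ¬ D.Mg x) (c : D.Cf2 x y) :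
    ∃ k k' s t, k ≠ k' ∧ s ∈ D.ob y ∧ t ∈ D.ob y ∧ D.m.GE k (D.p x) s ∧ D.m.GE k' (D.p x) t := by
  have b := h.bd _ (h.pU x e.1)
  obtain ⟨k, k1, -, ck⟩ := h.mo.corner_ne b (D.jm x) (D.jm x)
  obtain ⟨k', k2, k3, ck'⟩ := h.mo.corner_ne b (D.jm x) k
  have key : ∀ i, i ≠ D.jm x → D.m.cor i (D.p x) → ∃ s ∈ D.ob y, D.m.GE i (D.p x) s := by
    intro i i1 ci
    obtain ⟨s, g⟩ := ci.ge
    rcases c i _ (p_ob x) s g with (rfl | rfl) | hs
    · exact absurd (h.plain e.1 nx g.symm) i1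
    · exact absurd rfl (h.mo.fc_ne g).1
    · exact ⟨s, hs, g⟩
  obtain ⟨s, hs, g⟩ := key k k1 ck
  obtain ⟨t, ht, g'⟩ := key k' k2 ck'
  exact ⟨k, k', s, t, k3.symm, hs, ht, g, g'⟩

/-- second kind, the inner cell lies in the confined object -/
theorem partA (hMV : S_MV) (h : D.Ok) (e : D.Df x y) (nx : ¬ D.Mg x) (c : D.Cf2 x y)
    (n : ∀ w, D.m.Adj x w → w ∈ D.ob x ∪ D.ob y) (ud : D.U d) (nd : d ∉ D.ob x ∪ D.ob y)
    (g : D.m.GE q y d) : D.Good := by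
  have uy := e.2.1
  have d1 := h.df_ne e (self_ob x) (self_ob y)
  have d2 := h.df_ne e (self_ob x) (p_ob y)
  have d3 := h.df_ne e (p_ob x) (self_ob y)
  have d4 := h.df_ne e (p_ob x) (p_ob y)
  obtain ⟨nf, j, t, cj⟩ := nb3 h.mo (h.bd x e.1) (h.p_ne e.1).symm d1 d2 d3 (h.p_ne uy).symm d4
    fun w a => by
      rcases n w a with (rfl | r) | r | r
      exacts [absurd rfl a.1, .inl r, .inr (.inl r), .inr (.inr r)]
  have nj : ∀ i, D.m.GE i (D.p x) y → j ≠ i := by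
    rintro i f rfl
    rcases f.fc.cor_iff.1 cj with r | r
    exacts [h.p_ne e.1 r.symm, d1 r]
  obtain ⟨k, gk⟩ : ∃ k, D.m.GE k (D.p x) (D.p y) := by
    obtain ⟨k, k', s, t', kk, rfl | rfl, rfl | rfl, f, f'⟩ := two_cor h e nx c
    · rcases h.mo.two_faces d3 f.fc.on f'.fc.on ⟨t.2.1, t.2.2⟩ kk with r | r
      exacts [absurd r (nj _ f), absurd r (nj _ f')]
    exacts [⟨_, f'⟩, ⟨_, f⟩, ⟨_, f⟩]
  have wh : D.Wh (D.ob x ∪ D.ob y) := (h.wh_ob e.1).union (h.wh_ob uy)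
  have a1 := Al.step (D.p y) k (Al.base x e.1) (h.pU y uy)
    (h.df_disj (h.df_symm e) (p_ob y)) gk
  rw [h.pp y uy, h.ob_p uy] at a1
  have a2 := Al.step d q a1 ud nd g
  exact fin nf (hMV D h _ _ _ _ ∅ a2 (.inl rfl)
    (fun a => absurd ((h.wh_p wh ud).1 (n _ a)) nd) fun i _ i' _ s => absurd s (not_sym nf i i'))

/-- second kind, the inner cell lies in the other object -/
theorem partA' (hMV2 : S_MV2) (h : D.Ok) (e : D.Df z y)
    (n : ∀ w, D.m.Adj (D.p y) w → w ∈ D.ob z ∪ D.ob y) (ud : D.U d) (nd : d ∉ D.ob z ∪ D.ob y)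
    (g : D.m.GE q y d) : D.Good := by
  have uy := e.2.1
  have d1 := h.df_ne e (self_ob z) (self_ob y)
  have d2 := h.df_ne e (self_ob z) (p_ob y)
  have d3 := h.df_ne e (p_ob z) (self_ob y)
  have d4 := h.df_ne e (p_ob z) (p_ob y)
  obtain ⟨nf, -⟩ := nb3 h.mo (h.bd _ (h.pU y uy)) (h.p_ne uy) d2.symm d4.symm d1.symm
    (h.p_ne e.1).symm d3.symm fun w a => by
      rcases n w a with (r | r) | r | rfl
      exacts [.inr (.inl r), .inr (.inr r), .inl r, absurd rfl a.1]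
  have wh : D.Wh (D.ob z ∪ D.ob y) := (h.wh_ob e.1).union (h.wh_ob uy)
  refine fin (P := fun _ => True) nf (Y := D.ob y ∪ D.ob d) (y := D.p d) ?_
  rcases hMV2 D h q y d ⟨uy, ud, fun r => nd (.inr r)⟩ g
    (fun a => nd ((h.wh_p wh ud).1 (n _ a))) (fun i _ => not_sym nf q i) with r | r | ⟨c, r, r'⟩
  exacts [.inl r, .inr (.inl r), .inr (.inr ⟨c, r, r', trivial⟩)]

/-- the first kind reduces to the second -/
theorem partB (hTW2 : S_TW2) (h : D.Ok) (e : D.Df x y) (nx : ¬ D.Mg x) (c : D.Cf2 x y)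
    {j j2 : D.J} (jj : j ≠ j2) (f : D.m.Fc j x y (D.p x)) (f2 : D.m.Fc j2 x y (D.p y)) :
    ∀ w, D.m.Adj x w → w ∈ D.ob x ∪ D.ob y := by
  have := h.fV
  have := h.fJ
  have ux := e.1
  have uy := e.2.1
  have d1 := h.df_ne e (self_ob x) (self_ob y)
  have d2 := h.df_ne e (self_ob x) (p_ob y)
  have d3 := h.df_ne e (p_ob x) (self_ob y)
  have d4 := h.df_ne e (p_ob x) (p_ob y)
  have px := h.p_ne ux
  have py := h.p_ne uy
  obtain ⟨φ, φj, oφ, -⟩ := h.mo.other (j := j2) ⟨f2.has1, f2.has3⟩ d2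
  obtain ⟨w, wx, wy', t⟩ := h.mo.third oφ d2
  have wy : w ≠ y := by
    rintro rfl
    exact φj (h.mo.tri_unique (h.bd x ux) d2 d1 py t ⟨f2.has1, f2.has3, f2.has2⟩)
  by_cases wx' : w = D.p x
  · subst wx'
    intro u a
    rcases (h.mo.deg3 d1 d2 px.symm py.symm d4.symm d3.symm f2.tri t
      ⟨f.has1, f.has3, f.has2⟩).2.1 u a with rfl | rfl | rfl
    exacts [.inr (self_ob _), .inr (p_ob _), .inl (p_ob _)]
  exfalso
  have nw : w ∉ D.ob x ∪ D.ob y := by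
    rintro ((r | r) | r | r)
    exacts [wx r, wx' r, wy r, wy' r]
  rcases h.mo.tri_cases t d2 wx.symm wy'.symm with g | g | g
  · obtain ⟨k, k', s, s', kk, hs, hs', gk, gk'⟩ := two_cor h e nx c
    have gA := h.ge x ux
    have gB := h.ge y uy
    have xs := h.df_ne e (self_ob x) hs
    have xs' := h.df_ne e (self_ob x) hs'
    have cnt := h.mc.edg (D.ob x ∪ D.ob y) ⟨x, .inl (self_ob x)⟩
      fun v hv => h.bd v (((h.wh_ob ux).union (h.wh_ob uy)) v hv).1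
    have c4 : (D.ob x ∪ D.ob y).ncard ≤ 4 := (Set.ncard_union_le _ _).trans
      (add_le_add (Set.ncard_pair px.symm).le (Set.ncard_pair py.symm).le)
    have mem : ∀ i u v, D.m.GE i u v → u ∈ D.ob x ∪ D.ob y → v ∈ D.ob x ∪ D.ob y →
        i ∈ {j | D.m.L j ∈ D.ob x ∪ D.ob y ∧ D.m.R j ∈ D.ob x ∪ D.ob y} := by
      rintro i u v ⟨⟨rfl, rfl⟩ | ⟨rfl, rfl⟩, -⟩ a b
      exacts [⟨a, b⟩, ⟨b, a⟩]
    have sub : ({D.jm x, D.jm y, j, j2, φ, k, k'} : Set D.J) ⊆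
        {j | D.m.L j ∈ D.ob x ∪ D.ob y ∧ D.m.R j ∈ D.ob x ∪ D.ob y} := by
      rintro i (rfl | rfl | rfl | rfl | rfl | rfl | rfl)
      exacts [mem _ _ _ gA (.inl (self_ob _)) (.inl (p_ob _)),
        mem _ _ _ gB (.inr (self_ob _)) (.inr (p_ob _)),
        mem _ _ _ f.ge (.inl (self_ob _)) (.inr (self_ob _)),
        mem _ _ _ f2.ge (.inl (self_ob _)) (.inr (self_ob _)),
        mem _ _ _ g.ge (.inl (self_ob _)) (.inr (p_ob _)),
        mem _ _ _ gk (.inl (p_ob _)) (.inr hs), mem _ _ _ gk' (.inl (p_ob _)) (.inr hs')]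
    have le := Set.ncard_le_ncard sub
    have n12 := ne_of_ge gA gB d1 d2
    have n13 := ne_of_ge gA.symm f.ge px d3
    have n14 := ne_of_ge gA.symm f2.ge px d3
    have n15 := ne_of_ge gA.symm g.ge px d4
    have n16 := ne_of_ge gA gk px.symm xs
    have n17 := ne_of_ge gA gk' px.symm xs'
    have n23 := ne_of_ge gB.symm f.ge d2.symm py
    have n24 := ne_of_ge gB.symm f2.ge d2.symm py
    have n25 := ne_of_ge gB g.ge d1.symm py.symm
    have n26 := (ne_of_ge gk gB d3 d4).symm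
    have n27 := (ne_of_ge gk' gB d3 d4).symm
    have n35 := ne_of_ge f.ge.symm g.ge d1.symm py.symm
    have n36 := ne_of_ge f.ge gk px.symm xs
    have n37 := ne_of_ge f.ge gk' px.symm xs'
    have n45 := ne_of_ge f2.ge.symm g.ge d1.symm py.symm
    have n46 := ne_of_ge f2.ge gk px.symm xs
    have n47 := ne_of_ge f2.ge gk' px.symm xs'
    have n56 := ne_of_ge g.ge gk px.symm xs
    have n57 := ne_of_ge g.ge gk' px.symm xs'
    rw [Set.ncard_insert_of_notMem (by simp [*]), Set.ncard_insert_of_notMem (by simp [*]),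
      Set.ncard_insert_of_notMem (by simp [*]), Set.ncard_insert_of_notMem (by simp [*]),
      Set.ncard_insert_of_notMem (by simp [*]), Set.ncard_pair kk] at le
    omega
  · exact nw (hTW2 D h x y φ _ w x e c g (.inr (p_ob y)) (.inl (self_ob x)))
  · exact nw (c φ x (self_ob x) w g.ge.symm)

end RTL5

open RTL5 Cb in
theorem t_L5 (hTW2 : S_TW2) (hMV : S_MV) (hMV2 : S_MV2) : S_L5 := by
  rintro D h z b d ⟨e, nz, nb, l⟩ c ud nd ⟨q, y, hy, d1, hd, g⟩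
  have ey := h.ob_eq e.2.1 hy
  have ud1 := h.ob_U ud hd
  have wh : D.Wh (D.ob z ∪ D.ob b) := (h.wh_ob e.1).union (h.wh_ob e.2.1)
  have nd1 : d1 ∉ D.ob z ∪ D.ob b := fun r => nd (wh.ob_sub r (h.ob_symm ud hd))
  have cf : ∀ x ∈ D.ob z, ∀ y ∈ D.ob b, D.Cf2 x y := fun x hx y hy => by
    simpa only [Cf2, h.ob_eq e.1 hx, h.ob_eq e.2.1 hy] using c
  have A : ∀ x ∈ D.ob z, (∀ w, D.m.Adj x w → w ∈ D.ob z ∪ D.ob b) → D.Good := fun x hx n => by
    have ex := h.ob_eq e.1 hx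
    exact partA hMV h (h.df_congr e hx hy) (mt (h.mg_congr e.1 hx).1 nz) (cf x hx y hy)
      (by rwa [ex, ey]) ud1 (by rwa [ex, ey]) g
  rcases l with ⟨x, hx, u, hu, j, j2, jj, f, f2⟩ | ⟨x, hx | hx, n⟩
  · refine A x hx ?_
    have := partB hTW2 h (h.df_congr e hx hu) (mt (h.mg_congr e.1 hx).1 nz) (cf x hx u hu) jj f f2
    rwa [h.ob_eq e.1 hx, h.ob_eq e.2.1 hu] at this
  · exact A x hx n
  · have xy : y ≠ x := by
      rintro rfl
      exact nd1 (n _ (h.mo.adj12 g))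
    obtain rfl := h.eq_p e.2.1 hy hx xy
    exact partA' hMV2 h (h.df_congr e (self_ob z) hy) (by rwa [ey]) ud1 (by rwa [ey]) g

end Pool.Agent.P.MP_5f84aa_co.G
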