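import Pool.Agent.P.MP_5f84aa_co.G.RIf

/-! Part R2: a laminar family of rings. -/

namespace Pool.Agent.P.MP_5f84aa_co.G

namespace RTLAM1

open Cb

variable {D : Cb} {a b c e x y z u v w : D.V} {G G2 K K2 : Set D.V}

/-- the component of `u` in the complement of `G` -/
def Cp (D : Cb) (G : Set D.V) (u : D.V) : Set D.V :=
  {w | Relation.ReflTransGen (fun a b => D.m.Adj a b ∧ b ∉ G) u w}

theorem cp_self : u ∈ Cp D G u := Relation.ReflTransGen.refl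

theorem cp_cl (n : u ∉ G) : D.m.Cl G (Cp D G u) := by
  refine ⟨fun x hx => ?_, fun x hx y a hy => Relation.ReflTransGen.tail hx ⟨a, hy⟩⟩
  induction hx with
  | refl => exact n
  | tail _ r _ => exact r.2

theorem walk (c : D.m.Cl G2 K) (n : u ∈ K) (o : ∀ x ∈ Cp D G u, x ∉ G2) : Cp D G u ⊆ K := by
  intro x hx
  induction hx with
  | refl => exact n
  | tail s r ih => exact c.2 _ ih _ r.1 (o _ (Relation.ReflTransGen.tail s r))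

theorem cp_sub (c : D.m.Cl G K) (n : u ∈ K) : Cp D G u ⊆ K :=
  walk c n (cp_cl (c.1 u n)).1

theorem cp_symm (n : u ∉ G) (o : v ∈ Cp D G u) : u ∈ Cp D G v := by
  by_contra hn
  have hv := (cp_cl n).1 v o
  exact cp_sub (cp_cl hv).compl (fun t => t.elim n hn) o (.inr cp_self)

/-- the candidates -/
def L0 (D : Cb) (G K : Set D.V) : Prop :=
  D.RS G ∧ (∃ u, u ∉ G ∧ K = Cp D G u) ∧ D.m.L D.m.inf ∉ K

/-- crossing pairs -/
def Cr (G K G2 K2 : Set D.V) : Prop := (∃ x ∈ G2, x ∈ K) ∧ ∃ x ∈ G, x ∈ K2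

theorem L0.cl (l : L0 D G K) : D.m.Cl G K := by
  obtain ⟨-, ⟨u, n, rfl⟩, -⟩ := l
  exact cp_cl n

theorem lam (l : L0 D G K) (l2 : L0 D G2 K2) (n : ¬ ∃ x ∈ G2, x ∈ K) : K ⊆ K2 ∨ Disjoint K K2 := by
  have c2 := l2.cl
  obtain ⟨-, ⟨u, hu, rfl⟩, -⟩ := l
  have o : ∀ x ∈ Cp D G u, x ∉ G2 := fun x hx t => n ⟨x, t, hx⟩
  by_cases t : u ∈ K2
  · exact .inl (walk c2 t o)
  · exact .inr (Set.disjoint_left.2 fun x hx s =>
      walk c2.compl (fun q => q.elim (o u cp_self) t) o hx (.inr s))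

section

variable (h : D.Ok)
include h

theorem h0_not (g : D.Wh G) : D.m.L D.m.inf ∉ G := fun n => h.bd _ (g _ n).1 (.inl rfl)

theorem oa_congr (ea : D.U a) (eb : D.U b) (hx : x ∈ D.ob a) (hy : y ∈ D.ob b) (o : D.OA a b) :
    D.OA x y := by
  simpa only [OA, Tch, h.ob_eq ea hx, h.ob_eq eb hy] using o

theorem same (ea : D.U a) (hx : x ∈ D.ob a) (hy : y ∈ D.ob a) : y ∈ D.ob x := h.ob_eq ea hx ▸ hy

theorem rs_cq (r : D.RS G) (hx : x ∈ G) (hy : y ∈ G) : y ∈ D.ob x ∨ D.OA x y := by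
  obtain ⟨a, b, e, o, rfl⟩ | ⟨a, b, c, ⟨e, o, -, f⟩, rfl⟩ := r
  · rcases hx with hx | hx <;> rcases hy with hy | hy
    exacts [.inl (same h e.1 hx hy), .inr (oa_congr h e.1 e.2.1 hx hy o),
      .inr (oa_congr h e.2.1 e.1 hx hy o.symm), .inl (same h e.2.1 hx hy)]
  · have ec := (h.fo_df f e.1).1
    have o1 := h.fo_oa f
    have o2 := h.fo_oa f.symm
    rcases hx with (hx | hx) | hx <;> rcases hy with (hy | hy) | hy
    exacts [.inl (same h e.1 hx hy), .inr (oa_congr h e.1 e.2.1 hx hy o),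
      .inr (oa_congr h e.1 ec hx hy o1.symm),
      .inr (oa_congr h e.2.1 e.1 hx hy o.symm), .inl (same h e.2.1 hx hy),
      .inr (oa_congr h e.2.1 ec hx hy o2.symm), .inr (oa_congr h ec e.1 hx hy o1),
      .inr (oa_congr h ec e.2.1 hx hy o2), .inl (same h ec hx hy)]

theorem cl_ob (g : D.Wh G) (c : D.m.Cl G K) (e : D.U x) (a : x ∈ K) (hy : y ∈ D.ob x) : y ∈ K := by
  rcases hy with rfl | rfl
  exacts [a, h.cl_p g c e a]

theorem wh_not (g : D.Wh G) (e : D.U x) (n : x ∉ G) (hy : y ∈ D.ob x) : y ∉ G :=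
  fun t => n (g.ob_sub t (h.ob_symm e hy))

theorem clique (r : D.RS G) (g : D.Wh G2) (c : D.m.Cl G2 K) (hx : x ∈ G) (hy : y ∈ G) (a : x ∈ K)
    (n : y ∉ G2) : y ∈ K := by
  have ex := (h.rs_wh r x hx).1
  have ey := (h.rs_wh r y hy).1
  rcases rs_cq h r hx hy with t | ⟨y', t, x', s, o⟩
  · exact cl_ob h g c ex a t
  · exact cl_ob h g c (h.ob_U ey t) (c.2 _ (cl_ob h g c ex a s) _ o (wh_not h g ey n t))
      (h.ob_symm ey t)

theorem rs_two (r : D.RS G) (he : e ∈ G) : ∃ v ∈ G, v ∉ D.ob e := by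
  have ee := (h.rs_wh r e he).1
  have : ∃ a ∈ G, ∃ b ∈ G, D.Df a b := by
    obtain ⟨a, b, e, -, rfl⟩ | ⟨a, b, c, ⟨e, -⟩, rfl⟩ := r
    exacts [⟨a, .inl (self_ob a), b, .inr (self_ob b), e⟩,
      ⟨a, .inl (.inl (self_ob a)), b, .inl (.inr (self_ob b)), e⟩]
  obtain ⟨a, ha, b, hb, d⟩ := this
  by_cases t : a ∈ D.ob e
  · exact ⟨b, hb, fun s => d.2.2 (same h ee t s)⟩
  · exact ⟨a, ha, t⟩

theorem cr_in (l : L0 D G K) (l2 : L0 D G2 K2) (c : Cr G K G2 K2) (hy : y ∈ G2) (n : y ∉ G) :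
    y ∈ K := by
  obtain ⟨x, hx, a⟩ := c.1
  exact clique h l2.1 (h.rs_wh l.1) l.cl hx hy a n

theorem cr_adj (l : L0 D G K) (l2 : L0 D G2 K2) (c : Cr G K G2 K2)
    (hw : w ∈ Cp D G (D.m.L D.m.inf)) (hx : x ∈ G) (n : x ∉ G2) : ¬ D.m.Adj w x := by
  intro a
  have s1 : Cp D G (D.m.L D.m.inf) ⊆ (G ∪ K)ᶜ :=
    cp_sub l.cl.compl fun t => t.elim (h0_not h (h.rs_wh l.1)) l.2.2
  have s2 : ∀ y ∈ Cp D G (D.m.L D.m.inf), y ∉ G2 := fun y hy t =>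
    s1 hy (.inr (cr_in h l l2 c t fun q => s1 hy (.inl q)))
  have s3 := walk l2.cl.compl (fun t => t.elim (h0_not h (h.rs_wh l2.1)) l2.2.2) s2 hw
  exact s3 (.inr (l2.cl.2 x (cr_in h l2 l c.symm hx n) w a.symm (s2 w hw)))

theorem cr_cl (l : L0 D G K) (l2 : L0 D G2 K2) (c : Cr G K G2 K2) {I : Set D.V} (s : I ⊆ G)
    (t : ∀ x ∈ G, x ∈ G2 → x ∈ I) : D.m.Cl I (Cp D G (D.m.L D.m.inf)) := by
  have c0 := cp_cl (h0_not h (h.rs_wh l.1))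
  exact ⟨fun x hx n => c0.1 x hx (s n), fun x hx y a n => c0.2 x hx y a fun q =>
    cr_adj h l l2 c hx q (fun q2 => n (t y q q2)) a⟩

theorem cr_one (l : L0 D G K) (l2 : L0 D G2 K2) (c : Cr G K G2 K2) (he : e ∈ G) :
    ∃ x ∈ G, x ∈ G2 ∧ x ∉ D.ob e := by
  by_contra hn
  push Not at hn
  have g := h.rs_wh l.1
  obtain ⟨v, hv, n⟩ := rs_two h l.1 he
  exact (cp_cl (h0_not h g)).1 v
    (h.nc_ob (g e he).1 (cr_cl h l l2 c (g.ob_sub he) hn) ⟨_, cp_self⟩ n) hv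

omit h in
theorem cr_out (l2 : L0 D G2 K2) (c : Cr G K G2 K2) : ∃ x ∈ G, x ∉ G2 := by
  obtain ⟨x, hx, a⟩ := c.2
  exact ⟨x, hx, l2.cl.1 x a⟩

/-- an object that meets a whole set lies in it -/
theorem wh_mem (g : D.Wh G) (e : D.U a) (hx : x ∈ D.ob a) (t : x ∈ G) (hy : y ∈ D.ob a) : y ∈ G :=
  g.ob_sub t (same h e hx hy)

theorem dig_not (e : D.Df a b) (l : L0 D (D.ob a ∪ D.ob b) K) (l2 : L0 D G2 K2) :
    ¬ Cr (D.ob a ∪ D.ob b) K G2 K2 := fun c => by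
  have g := h.rs_wh l2.1
  obtain ⟨x, hx, n⟩ := cr_out l2 c
  obtain ⟨y, hy, y1, y2⟩ := cr_one h l l2 c (.inl (self_ob a))
  obtain ⟨z, hz, z1, z2⟩ := cr_one h l l2 c (.inr (self_ob b))
  rcases hx with hx | hx
  exacts [n (wh_mem h g e.1 (hz.resolve_right z2) z1 hx),
    n (wh_mem h g e.2.1 (hy.resolve_left y2) y1 hx)]

/-- if a cell of a crossing ring lies outside the other ring, a set that holds the common cells separates -/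
theorem cr_sep (l : L0 D G K) (l2 : L0 D G2 K2) (c : Cr G K G2 K2) {I : Set D.V} (s : I ⊆ G)
    (t : ∀ x ∈ G, x ∈ G2 → x ∈ I) (hx : x ∈ G) (n : x ∉ I) : ∃ u v, D.m.Sep I u v :=
  ⟨_, x, _, cr_cl h l l2 c s t, cp_self, fun q => (cp_cl (h0_not h (h.rs_wh l.1))).1 x q hx, n⟩

theorem tr_cross (t : D.Tr z b c) (nd : ¬ D.Dig z c) (l : L0 D (D.ob z ∪ D.ob b ∪ D.ob c) K)
    (l2 : L0 D G2 K2) (cr : Cr (D.ob z ∪ D.ob b ∪ D.ob c) K G2 K2) :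
    z ∉ G2 ∧ ∃ s ∈ D.ob z ∪ D.ob b ∪ D.ob c, ∃ r ∈ K, D.Fl b s r := by
  obtain ⟨e, o, nb, f⟩ := t
  have g := h.rs_wh l2.1
  have cz := h.fo_df f e.1
  have cb := h.fo_df f.symm e.2.1
  have hz : z ∉ G2 := fun hz => by
    obtain ⟨x, (hx | hx) | hx, n⟩ := cr_out l2 cr
    · exact n (g.ob_sub hz hx)
    · refine nd (cr_sep h l l2 cr (I := D.ob z ∪ D.ob c) (by grind) ?_ (.inl (.inr hx)) ?_)
      · rintro y ((hy | hy) | hy) q
        exacts [.inl hy, absurd (wh_mem h g e.2.1 hy q hx) n, .inr hy]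
      · rintro (q | q)
        exacts [h.df_disj e q hx, h.df_disj cb q hx]
    · refine nb (cr_sep h l l2 cr (I := D.ob z ∪ D.ob b) (by grind) ?_ (.inr hx) ?_)
      · rintro y (hy | hy) q
        exacts [hy, absurd (wh_mem h g cz.1 hy q hx) n]
      · rintro (q | q)
        exacts [h.df_disj cz hx q, h.df_disj cb hx q]
  have oz : ∀ y ∈ D.ob z, y ∉ G2 := fun y hy => wh_not h g e.1 hz hy
  have hb : b ∈ G2 := by
    obtain ⟨y, (hy | hy) | hy, y1, y2⟩ := cr_one h l l2 cr (.inr (self_ob c))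
    exacts [absurd y1 (oz y hy), wh_mem h g e.2.1 hy y1 (self_ob b), absurd hy y2]
  have hc : c ∈ G2 := by
    obtain ⟨y, (hy | hy) | hy, y1, y2⟩ := cr_one h l l2 cr (.inl (.inr (self_ob b)))
    exacts [absurd y1 (oz y hy), absurd hy y2, wh_mem h g cz.1 hy y1 (self_ob c)]
  have dg : D.Dig b c := by
    refine cr_sep h l l2 cr (I := D.ob b ∪ D.ob c) (by grind) ?_ (.inl (.inl (self_ob z))) ?_
    · rintro y ((hy | hy) | hy) q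
      exacts [absurd q (oz y hy), .inl hy, .inr hy]
    · rintro (q | q)
      exacts [h.df_disj e (self_ob z) q, cz.2.2 q]
  refine ⟨hz, ?_⟩
  have fin : ∀ x y s r, D.Df x y → c ∈ D.ob x → s ∈ D.ob x → r ∈ D.ob y → r ∈ G2 → D.Fl b s r →
      ∃ s ∈ D.ob z ∪ D.ob b ∪ D.ob c, ∃ r ∈ K, D.Fl b s r := by
    intro x y s r d h1 h2 h3 h4 k
    refine ⟨s, .inr (same h d.1 h1 h2), r, cr_in h l l2 cr h4 ?_, k⟩
    rintro ((q | q) | q)
    exacts [oz r q h4, h.fl_not k.symm q, h.df_disj d (h.ob_trans d.1 h1 q) h3]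
  obtain ⟨x, y, d, -, rfl⟩ | ⟨x, y, w, ⟨d, -, nxy, s, hs, r, hr, k⟩, rfl⟩ := id l2.1
  · exact absurd cr.symm (dig_not h d l2 l)
  have nw : c ∉ D.ob w := fun q => by
    obtain ⟨z', h1, b', -, k'⟩ := f
    rcases h.fl_unique (h.fl_congr k q) k' with ⟨rfl, -⟩ | ⟨rfl, -⟩
    exacts [oz _ h1 (.inl (.inl hs)), oz _ h1 (.inl (.inr hr))]
  rcases hc.resolve_right nw with q | q <;> rcases hb with (p | p) | p
  · exact absurd (same h d.1 q p) cb.2.2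
  · exact absurd (by simpa only [Dig, h.ob_eq d.1 q, h.ob_eq d.2.1 p] using dg.symm) nxy
  · exact fin x y s r d q hs hr (.inl (.inr hr)) (h.fl_congr k p)
  · exact absurd (by simpa only [Dig, h.ob_eq d.1 p, h.ob_eq d.2.1 q] using dg) nxy
  · exact absurd (same h d.2.1 q p) cb.2.2
  · exact fin y x r s (h.df_symm d) q hr hs (.inl (.inl hs)) (h.fl_congr k p).symm

omit h in
theorem sep_cp (s : D.m.Sep G u v) : u ∉ G ∧ v ∉ G ∧ ∀ x ∈ Cp D G u, x ∉ Cp D G v := by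
  obtain ⟨K, c, hu, hv, n⟩ := s
  exact ⟨c.1 u hu, n, fun x hx t =>
    cp_sub c.compl (fun q => q.elim n hv) t (.inr (cp_sub c hu hx))⟩

omit h in
theorem sep_one (r : D.RS G) (s : D.m.Sep G u v) : L0 D G (Cp D G u) ∨ L0 D G (Cp D G v) := by
  obtain ⟨hu, hv, n⟩ := sep_cp s
  by_cases t : D.m.L D.m.inf ∈ Cp D G u
  exacts [.inr ⟨r, ⟨v, hv, rfl⟩, n _ t⟩, .inl ⟨r, ⟨u, hu, rfl⟩, t⟩]

end

end RTLAM1

open RTLAM1 Cb in
theorem t_LAM1 (hDR : S_DR) : S_LAM1 := by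
  intro D h
  refine ⟨{P | L0 D P.1 P.2 ∧ ∀ G2 K2, L0 D G2 K2 → ¬ Cr P.1 P.2 G2 K2}, ?_, ?_, ?_⟩
  · rintro ⟨G, K⟩ ⟨l, -⟩
    refine ⟨l.1, l.cl, ?_⟩
    obtain ⟨-, ⟨u, -, e⟩, -⟩ := l
    exact ⟨u, e ▸ cp_self⟩
  · rintro ⟨G, K⟩ ⟨l, n⟩ ⟨G2, K2⟩ ⟨l2, -⟩
    rcases not_and_or.1 (n G2 K2 l2) with t | t
    · exact (lam l l2 t).imp_right .inr
    · exact .inr ((lam l2 l t).imp_right fun d => d.symm)
  intro z r
  by_cases dg : ∃ b, D.Df z b ∧ D.OA z b ∧ D.Dig z b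
  · obtain ⟨b, e, o, g⟩ := dg
    obtain ⟨u, v, tu, tv, s⟩ := hDR D h z b e g
    rcases sep_one (.inl ⟨z, b, e, o, rfl⟩) s with l | l
    exacts [⟨(_, _), ⟨l, fun _ _ l2 => dig_not h e l l2⟩, .inl (self_ob z), u, cp_self, tu⟩,
      ⟨(_, _), ⟨l, fun _ _ l2 => dig_not h e l l2⟩, .inl (self_ob z), v, cp_self, tv⟩]
  obtain ⟨b, c, u, v, t, tu, tv, s⟩ := r.resolve_left dg
  have nd : ¬ D.Dig z c := fun g =>
    dg ⟨c, h.df_symm (h.fo_df t.2.2.2 t.1.1), (h.fo_oa t.2.2.2).symm, g⟩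
  have rs : D.RS (D.ob z ∪ D.ob b ∪ D.ob c) := .inr ⟨z, b, c, t, rfl⟩
  by_contra hn
  have cr : ∀ w, D.Tch z w → L0 D (D.ob z ∪ D.ob b ∪ D.ob c) (Cp D (D.ob z ∪ D.ob b ∪ D.ob c) w) →
      ∃ G2 K2, L0 D G2 K2 ∧
        Cr (D.ob z ∪ D.ob b ∪ D.ob c) (Cp D (D.ob z ∪ D.ob b ∪ D.ob c) w) G2 K2 := by
    intro w tw l
    by_contra q
    exact hn ⟨(_, _), ⟨l, fun G2 K2 l2 k => q ⟨G2, K2, l2, k⟩⟩, .inl (.inl (self_ob z)), w, cp_self, tw⟩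
  obtain ⟨hu, hv, n⟩ := sep_cp s
  have both : ∀ w, D.Tch z w → w ∉ D.ob z ∪ D.ob b ∪ D.ob c →
      L0 D (D.ob z ∪ D.ob b ∪ D.ob c) (Cp D (D.ob z ∪ D.ob b ∪ D.ob c) w) := by
    rintro w ⟨x, hx, a⟩ hw
    refine ⟨rs, ⟨w, hw, rfl⟩, fun q => ?_⟩
    have : ∃ K G2 K2, L0 D (D.ob z ∪ D.ob b ∪ D.ob c) K ∧ L0 D G2 K2 ∧
        Cr (D.ob z ∪ D.ob b ∪ D.ob c) K G2 K2 := by
      rcases sep_one rs s with l | l
      · obtain ⟨G2, K2, k⟩ := cr u tu l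
        exact ⟨_, G2, K2, l, k⟩
      · obtain ⟨G2, K2, k⟩ := cr v tv l
        exact ⟨_, G2, K2, l, k⟩
    obtain ⟨K, G2, K2, l, l2, k⟩ := this
    exact cr_adj h l l2 k (cp_symm hw q) (.inl (.inl hx))
      (wh_not h (h.rs_wh l2.1) t.1.1 (tr_cross h t nd l l2 k).1 hx) a.symm
  obtain ⟨G2, K2, l2, k2⟩ := cr u tu (both u tu hu)
  obtain ⟨G3, K3, l3, k3⟩ := cr v tv (both v tv hv)
  obtain ⟨-, s2, a2, r2, b2, f2⟩ := tr_cross h t nd (both u tu hu) l2 k2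
  obtain ⟨-, s3, a3, r3, b3, f3⟩ := tr_cross h t nd (both v tv hv) l3 k3
  rcases h.fl_unique f2 f3 with ⟨-, rfl⟩ | ⟨rfl, -⟩
  exacts [n _ b2 b3, (cp_cl hu).1 _ b2 a3]

end Pool.Agent.P.MP_5f84aa_co.G
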