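import Pool.Agent.P.MP_5f84aa_co.G.RIf

/-! A small set of rings cuts out a region without rings. -/

namespace Pool.Agent.P.MP_5f84aa_co.G

namespace RTLAM2

theorem ncard_biUnion {α β : Type} {A : Set α} (hA : A.Finite) (f : α → Set β) {c : ℕ}
    (h : ∀ a ∈ A, (f a).ncard ≤ c) : (⋃ a ∈ A, f a).ncard ≤ c * A.ncard := by
  induction A, hA using Set.Finite.induction_on with
  | empty => simp
  | @insert a s ha hs ih =>
    rw [Set.biUnion_insert, Set.ncard_insert_of_notMem ha hs, mul_add, mul_one, add_comm]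
    exact (Set.ncard_union_le _ _).trans (add_le_add (h a (Set.mem_insert _ _))
      (ih fun b hb => h b (Set.mem_insert_of_mem _ hb)))

theorem ob_le (D : Cb) (x : D.V) : (D.ob x).ncard ≤ 2 :=
  (Set.ncard_insert_le _ _).trans (by simp)

theorem rs_le {D : Cb} {Γ : Set D.V} (r : D.RS Γ) : Γ.ncard ≤ 6 := by
  obtain ⟨a, b, -, -, rfl⟩ | ⟨a, b, c, -, rfl⟩ := r
  · have := Set.ncard_union_le (D.ob a) (D.ob b)
    have := ob_le D a
    have := ob_le D b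
    omega
  · have := Set.ncard_union_le (D.ob a) (D.ob b)
    have := Set.ncard_union_le (D.ob a ∪ D.ob b) (D.ob c)
    have := ob_le D a
    have := ob_le D b
    have := ob_le D c
    omega

end RTLAM2

open RTLAM2 in
theorem t_LAM2 (hLAM0 : S_LAM0) (hLAM1 : S_LAM1) : S_LAM2 := by
  intro D h μ hμ
  have := h.fV
  obtain ⟨L, l1, l2, l3⟩ := hLAM1 D h
  let A : Set (Set D.V) := (fun P : Set D.V × Set D.V => μ ∩ P.2) '' L
  have ne : ∀ P ∈ L, (μ ∩ P.2).Nonempty := fun P hP => by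
    obtain ⟨x, a, b⟩ := hμ P.1 P.2 (l1 P hP).1 (l1 P hP).2.1 (l1 P hP).2.2
    exact ⟨x, b, a⟩
  have hA : A.ncard ≤ 2 * μ.ncard := by
    refine hLAM0 D.V μ A ?_ ?_
    · rintro _ ⟨P, hP, rfl⟩
      exact ⟨Set.inter_subset_left, ne P hP⟩
    · rintro _ ⟨P, hP, rfl⟩ _ ⟨Q, hQ, rfl⟩
      exact (l2 P hP Q hQ).imp (Set.inter_subset_inter_right _) (Or.imp
        (Set.inter_subset_inter_right _)
        fun d => d.mono Set.inter_subset_right Set.inter_subset_right)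
  have nest : ∀ P ∈ L, ∀ Q ∈ L, μ ∩ P.2 = μ ∩ Q.2 → P.2.ncard ≤ Q.2.ncard → P.2 ⊆ Q.2 := by
    intro P hP Q hQ e c
    rcases l2 P hP Q hQ with d | d | d
    · exact d
    · exact (Set.eq_of_subset_of_ncard_le d c).ge
    · obtain ⟨x, hx⟩ := ne P hP
      exact absurd (e ▸ hx : x ∈ μ ∩ Q.2).2 (Set.disjoint_left.1 d hx.2)
  have ex : ∀ T : Set D.V, ∃ Pp Pm : Set D.V × Set D.V, T ∈ A → (Pp ∈ L ∧ μ ∩ Pp.2 = T) ∧
      (Pm ∈ L ∧ μ ∩ Pm.2 = T) ∧ ∀ P ∈ L, μ ∩ P.2 = T → Pm.2 ⊆ P.2 ∧ P.2 ⊆ Pp.2 := by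
    intro T
    by_cases hT : T ∈ A
    swap
    · exact ⟨(∅, ∅), (∅, ∅), fun c => absurd c hT⟩
    have n : {P | P ∈ L ∧ μ ∩ P.2 = T}.Nonempty := hT
    obtain ⟨Pp, p1, p2⟩ := Set.exists_max_image _ (fun P => P.2.ncard) (Set.toFinite _) n
    obtain ⟨Pm, m1, m2⟩ := Set.exists_min_image _ (fun P => P.2.ncard) (Set.toFinite _) n
    exact ⟨Pp, Pm, fun _ => ⟨p1, m1, fun P hP e => ⟨nest _ m1.1 _ hP (m1.2.trans e.symm)
      (m2 P ⟨hP, e⟩), nest _ hP _ p1.1 (e.trans p1.2.symm) (p2 P ⟨hP, e⟩)⟩⟩⟩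
  choose Pp Pm hP using ex
  let B : Set D.V := ⋃ T ∈ A, (Pp T).1 ∪ (Pm T).1
  have bp : ∀ T ∈ A, ∀ x ∉ B, x ∉ (Pp T).1 := fun T hT x n c =>
    n (Set.mem_biUnion hT (Or.inl c))
  have bm : ∀ T ∈ A, ∀ x ∉ B, x ∉ (Pm T).1 := fun T hT x n c =>
    n (Set.mem_biUnion hT (Or.inr c))
  have wB : D.Wh B := fun x hx => by
    obtain ⟨T, hT, c⟩ := Set.mem_iUnion₂.1 hx
    have := ((h.rs_wh (l1 _ (hP T hT).1.1).1).union (h.rs_wh (l1 _ (hP T hT).2.1.1).1)) x c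
    exact ⟨this.1, Set.mem_biUnion hT this.2⟩
  have cl : D.m.Cl B {x | x ∉ B ∧ ∀ T ∈ A, x ∈ (Pp T).2 → x ∈ (Pm T).2} :=
    ⟨fun x hx => hx.1, fun x hx y a hy => ⟨hy, fun T hT c =>
      (l1 _ (hP T hT).2.1.1).2.1.2 x (hx.2 T hT ((l1 _ (hP T hT).1.1).2.1.2 y c x a.symm
        (bp T hT x hx.1))) y a (bm T hT y hy)⟩⟩
  refine ⟨B, _, ?_, wB, cl, fun x hx => ?_, fun z hz r => ?_⟩
  · refine (ncard_biUnion (Set.toFinite A) _ (c := 12) fun T hT => ?_).trans (by omega)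
    have := Set.ncard_union_le (Pp T).1 (Pm T).1
    have := rs_le (l1 _ (hP T hT).1.1).1
    have := rs_le (l1 _ (hP T hT).2.1.1).1
    omega
  · by_cases c : x ∈ B
    · exact Or.inr c
    refine Or.inl ⟨c, fun T hT d => ?_⟩
    have : x ∈ μ ∩ (Pm T).2 := by
      rw [(hP T hT).2.1.2, ← (hP T hT).1.2]
      exact ⟨hx, d⟩
    exact this.2
  · obtain ⟨P, a, b, u, hu, x, hx, t⟩ := l3 z r
    have w := h.rs_wh (l1 P a).1
    have x1 : x ∈ {x | x ∉ B ∧ ∀ T ∈ A, x ∈ (Pp T).2 → x ∈ (Pm T).2} := by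
      rcases hx with rfl | rfl
      exacts [hz, h.cl_p wB cl (w z b).1 hz]
    have hT : μ ∩ P.2 ∈ A := ⟨P, a, rfl⟩
    have k := (hP _ hT).2.2 P a rfl
    exact (l1 P a).2.1.1 x (k.1 (x1.2 _ hT ((l1 _ (hP _ hT).1.1).2.1.2 u (k.2 hu) x t.symm
      (bp _ hT x x1.1)))) (w.ob_sub b hx)

end Pool.Agent.P.MP_5f84aa_co.G
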