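import Pool.Agent.P.MP_5f84aa_co.G.RIf

/-! Part R2: two merged objects with a common junction, far from the hubs. -/

namespace Pool.Agent.P.MP_5f84aa_co.G

namespace RTMM

theorem e3_swap {α : Type} (a b c : α) : E3 b a c = E3 a b c := by
  funext u v
  simp only [E3, Sym2.eq_iff, eq_iff_iff]; grind

theorem e3_of {α : Type} {a b c u v : α} (hu : u = a ∨ u = b ∨ u = c) (hv : v = a ∨ v = b ∨ v = c)
    (e : u ≠ v) : E3 a b c u v := by
  simp only [E3, Sym2.eq_iff]; grind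

/-- a face on the bounded side does not designate a piece of the triangle -/
theorem q0 {V J Sg : Type} {m : Map V J Sg} (h : m.Ok) {a b c u v : V} {F : Set J} {j : J}
    (s : m.Side (E3 a b c) F) (i : m.inf ∉ F) (n : ∀ j, ¬ m.Tri j a b c) (jF : j ∈ F)
    (g : m.GE j u v) (hu : u = a ∨ u = b ∨ u = c) (hv : v = a ∨ v = b ∨ v = c) : False := by
  obtain ⟨z, za, zb, zc, f⟩ := h.q3k s i n (e3_of hu hv (h.fc_ne g.fc).1) jF g.fc.on
  have : m.cor j z := f.elim (fun f => f.cor1) fun f => f.cor1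
  rcases g.fc.cor_iff.1 this with rfl | rfl <;> tauto

variable {D : Cf} {x y c g z : D.V} {F : Set D.I} {r : D.I}

theorem pi_mem (h : D.Ok) (ux : D.U x) (uy : D.U y) (uc : D.U c) (mx : D.Mg x) (my : D.Mg y)
    (mc : D.Mg c) (e : g ∈ D.ob x ∪ D.ob y ∪ D.ob c) :
    D.π g = D.π x ∨ D.π g = D.π y ∨ D.π g = D.π c := by
  rcases e with (e | e) | e
  exacts [.inl ((h.pi_mg ux mx).2 e), .inr (.inl ((h.pi_mg uy my).2 e)),
    .inr (.inr ((h.pi_mg uc mc).2 e))]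

/-- a junction on the bounded side leads into the cells of that side -/
theorem q1 (h : D.Ok) (ux : D.U x) (uy : D.U y) (uc : D.U c) (mx : D.Mg x) (my : D.Mg y)
    (mc : D.Mg c) (n : ∀ r, ¬ D.n.Tri r (D.π x) (D.π y) (D.π c)) (i : D.n.inf ∉ F)
    (s : D.Cy (E3 (D.π x) (D.π y) (D.π c)) F (D.ob x ∪ D.ob y ∪ D.ob c)) (rF : r ∈ F)
    (e : g ∈ D.ob x ∪ D.ob y ∪ D.ob c) (f : D.m.GE (D.ι r) g z) :
    z ∈ D.Ks F (D.ob x ∪ D.ob y ∪ D.ob c) := by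
  have f' := h.push f.fc
  have hz : z ∉ D.ob x ∪ D.ob y ∪ D.ob c := fun hz =>
    q0 h.no s.2.1 i n rF f'.ge (pi_mem h ux uy uc mx my mc e) (pi_mem h ux uy uc mx my mc hz)
  exact (h.Ks_iff s hz f'.has2).2 rF

/-- a half of a merged object has a junction that survives -/
theorem surv (h : D.Ok) (u : D.U g) (mg : D.Mg g) : ∃ r z, D.m.GE (D.ι r) g z := by
  obtain ⟨_, _, f⟩ := h.toOk.mg_fl u mg
  obtain ⟨j, j', fr, a, b⟩ := h.toOk.fl_far f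
  obtain ⟨k, k1, k2, ck⟩ := h.mo.corner_ne (h.bd g u) j j'
  obtain ⟨z, e⟩ := ck.ge
  have hz : z ∉ D.ob g := by
    rintro (rfl | rfl)
    · exact (h.mo.fc_ne e.fc).1 rfl
    · rcases h.mo.two_faces (h.toOk.p_ne u).symm a.on b.on e.fc.on fr.1 with q | q
      exacts [k1 q, k2 q]
  obtain ⟨r, rfl⟩ := h.exJ_ge e (h.pi_ne u hz).symm
  exact ⟨r, z, e⟩

end RTMM

open RTMM

theorem t_MM1 (hFCM : S_FCM) : S_MM1 := by
  intro D h F x y c df mx my hc n i th hs fx fc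
  have := h.fW
  have := h.fI
  have ux := df.1
  have uy := df.2.1
  have fl := th.2.1
  have uc := fl.1
  have mc := h.toOk.fl_mg fl
  have wh : D.Wh (D.ob x ∪ D.ob y ∪ D.ob c) :=
    ((h.toOk.wh_ob ux).union (h.toOk.wh_ob uy)).union (h.toOk.wh_ob uc)
  have cG : c ∈ D.ob x ∪ D.ob y ∪ D.ob c := .inr (Cb.self_ob c)
  have xG : x ∈ D.ob x ∪ D.ob y ∪ D.ob c := .inl (.inl (Cb.self_ob x))
  have l1 := h.fl_ln_push fl
  have l2 := h.fl_ln_push fl.symm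
  obtain ⟨r, rF, cr, hg⟩ := h.no.first_corner (h.bd_pi uc)
    (fun w => (th.1.2.1 _ w).trans (th.2.2 w)) (by rw [l1.2, l2.2]; exact h.toOk.fl_ln fl)
  rw [l1.2, h.hug_iff] at hg
  obtain ⟨d, dc, -, z, g, -⟩ := h.cor_lift uc cr
  have hrc := (hs r cr.has).1 rF
  obtain rfl : d = c := dc.resolve_right fun e => h.not_both uc mc hrc (e ▸ g.fc.has1)
  have zK := q1 h ux uy uc mx my mc n i th.1 rF cG g
  have fz : D.Far 1 z := fc.adj (h.mo.adj12 g.fc)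
  have pK := h.toOk.cl_p wh (h.cl_Ks th.1) fz.U zK
  rcases hFCM D h _ F _ d x y r z th rF g hg fz.U zK pK (h.toOk.far_tn (h.toOk.far_p fz)) fx with
    t | ⟨e, eG, en, f⟩ | ⟨k, f⟩
  · exact .inl t
  · have ey : e ∈ D.ob y := by
      rcases eG with (q | q) | q
      exacts [absurd (.inr q) en, q, absurd (.inl q) en]
    exact .inr ⟨_, pK, h.toOk.fl_congr f (h.toOk.ob_symm uy ey)⟩
  · obtain ⟨r', rfl⟩ := h.exJ_ge f l1.1.symm
    have r'F := (hs r' (h.has_push f.fc.has2)).2 f.fc.has2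
    exact absurd cG (q1 h ux uy uc mx my mc n i th.1 r'F xG f).1

namespace RTMM

theorem core (hINH : S_INH) (hMM1 : S_MM1) (hTM2 : S_TM2) {D : Cf} (h : D.Ok) {F : Set D.I}
    {x y c : D.V} (df : D.Df x y) (mx : D.Mg x) (my : D.Mg y) (hc : c ∉ D.ob x ∪ D.ob y)
    (n : ∀ r, ¬ D.n.Tri r (D.π x) (D.π y) (D.π c)) (i : D.n.inf ∉ F)
    (th : D.Th (E3 (D.π x) (D.π y) (D.π c)) F (D.ob x ∪ D.ob y ∪ D.ob c) c x y)
    (hs : ∀ r, D.n.has r (D.π c) → (r ∈ F ↔ D.m.has (D.ι r) c))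
    (fx : D.Far 2 x) (fy : D.Far 2 y) (fc : D.Far 2 c) : D.Good := by
  have ux := df.1
  have uy := df.2.1
  have fl := th.2.1
  have uc := fl.1
  have mc := h.toOk.fl_mg fl
  have wh : D.Wh (D.ob x ∪ D.ob y ∪ D.ob c) :=
    ((h.toOk.wh_ob ux).union (h.toOk.wh_ob uy)).union (h.toOk.wh_ob uc)
  have cl := h.cl_Ks th.1
  have cG : c ∈ D.ob x ∪ D.ob y ∪ D.ob c := .inr (Cb.self_ob c)
  have xG : x ∈ D.ob x ∪ D.ob y ∪ D.ob c := .inl (.inl (Cb.self_ob x))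
  have yG : y ∈ D.ob x ∪ D.ob y ∪ D.ob c := .inl (.inr (Cb.self_ob y))
  rcases hMM1 D h F x y c df mx my hc n i th hs fx fc with t | ⟨e1, k1, f1⟩
  · exact t
  have th' : D.Th (E3 (D.π y) (D.π x) (D.π c)) F (D.ob y ∪ D.ob x ∪ D.ob c) c y x := by
    rw [e3_swap, Set.union_comm (D.ob y)]; exact h.th_symm th
  rcases hMM1 D h F y x c (h.toOk.df_symm df) my mx (by rwa [Set.union_comm])
    (fun r t => n r ⟨t.2.1, t.1, t.2.2⟩) i th' hs fy fc with t | ⟨e2, k2, f2⟩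
  · exact t
  rw [Set.union_comm (D.ob y)] at k2
  have xy : D.π x ≠ D.π y := (h.pi_ne ux df.2.2).symm
  have xc : D.π x ≠ D.π c := (h.fl_ln_push fl).1.symm
  have yc : D.π y ≠ D.π c := (h.fl_ln_push fl.symm).1.symm
  have ac : ∀ r, D.m.has (D.ι r) c → r ∈ F := fun r a => (hs r (h.has_push a)).2 a
  have ax : ∀ r, D.m.has (D.ι r) x → r ∈ F :=
    hINH D h _ F _ c x y e2 (D.π y) th.1 fl f2 k2 ac (e3_of (by simp) (by simp) xc)
      fun w => by simp only [E3, Sym2.eq_iff]; grind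
  have ay : ∀ r, D.m.has (D.ι r) y → r ∈ F :=
    hINH D h _ F _ c y x e1 (D.π x) th.1 fl.symm f1 k1 ac (e3_of (by simp) (by simp) yc)
      fun w => by simp only [E3, Sym2.eq_iff]; grind
  have far : ∀ g ∈ D.ob x ∪ D.ob y ∪ D.ob c, D.Far 2 g := by
    rintro g ((e | e) | e)
    exacts [h.toOk.far_ob fx e, h.toOk.far_ob fy e, h.toOk.far_ob fc e]
  have mg : ∀ g ∈ D.ob x ∪ D.ob y ∪ D.ob c, D.Mg g := by
    rintro g ((e | e) | e)
    exacts [(h.toOk.mg_congr ux e).2 mx, (h.toOk.mg_congr uy e).2 my, (h.toOk.mg_congr uc e).2 mc]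
  have half : ∀ g ∈ D.ob x ∪ D.ob y ∪ D.ob c,
      (∀ r, D.m.has (D.ι r) g → r ∈ F) ∨ ∀ r, D.m.has (D.ι r) (D.p g) → r ∈ F := by
    rintro g (((rfl | rfl) | (rfl | rfl)) | (rfl | rfl))
    exacts [.inl ax, .inr (by rwa [h.pp x ux]), .inl ay, .inr (by rwa [h.pp y uy]), .inl ac,
      .inr (by rwa [h.pp c uc])]
  have flat : ∀ d ∈ D.ob x ∪ D.ob y ∪ D.ob c, ∃ s ∈ D.ob x ∪ D.ob y ∪ D.ob c, ∃ t, D.Fl d s t := by
    rintro d ((e | e) | e)
    exacts [⟨_, (wh c cG).2, _, h.toOk.fl_congr f2 e⟩, ⟨_, (wh c cG).2, _, h.toOk.fl_congr f1 e⟩,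
      ⟨_, xG, _, h.toOk.fl_congr fl e⟩]
  obtain ⟨j, _, _, -, -, -, H⟩ := h.mo.hole_out cl ⟨c, cG⟩ (fun v hv => h.bd_Ks th.1 i hv)
    fun v hv => h.bd v (wh v hv).1
  obtain ⟨g, gG, o, f, oG, oK⟩ := H j (.inl rfl)
  have ug := (wh g gG).1
  have pG := (wh g gG).2
  obtain ⟨r, rfl⟩ := h.exJ_ge f (h.pi_ne ug fun e => oG (wh.ob_sub gG e)).symm
  have ap := (half g gG).resolve_left fun a =>
    oK (q1 h ux uy uc mx my mc n i th.1 (a r f.fc.has1) gG f)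
  obtain ⟨r', e, f'⟩ := surv h (wh _ pG).1 (mg _ pG)
  have eK := q1 h ux uy uc mx my mc n i th.1 (ap r' f'.fc.has1) pG f'
  have fe : D.Far 1 e := (far _ pG).adj (h.mo.adj12 f'.fc)
  have fo : D.Far 1 o := (far _ gG).adj (h.mo.adj12 f.fc)
  rcases hTM2 D.toCb h.toOk _ _ g o e _ _ wh cl gG f fo.U (fun q => q.elim oG oK) f' fe.U eK
    (h.toOk.far_tn (h.toOk.far_p fe)) with t | ⟨d, dG, -, fd⟩
  · exact t
  obtain ⟨s, sG, t, fs⟩ := flat d dG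
  rcases h.toOk.fl_unique fd fs with ⟨rfl, -⟩ | ⟨rfl, -⟩
  · exact absurd ((h.toOk.wh_p wh fo.U).1 sG) oG
  · exact absurd ((h.toOk.wh_p wh fe.U).1 sG) eK.1

end RTMM

theorem t_MM (hL2P : S_L2P) (hMV1 : S_MV1) (hCY3B : S_CY3B) (hHS : S_HS) (hINH : S_INH)
    (hMM1 : S_MM1) (hTM2 : S_TM2) : S_MM := by
  rintro D h a b df ma mb ⟨q, x, xa, y, yb, g⟩ fa
  have d := h.toOk.df_congr df xa yb
  have mx := (h.toOk.mg_congr df.1 xa).2 ma
  have my := (h.toOk.mg_congr df.2.1 yb).2 mb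
  have ux := d.1
  have uy := d.2.1
  have fx : D.Far 4 x := h.toOk.far_ob fa xa
  have fy : D.Far 3 y := fx.adj (h.mo.adj12 g.fc)
  rcases hMV1 D.toCb h.toOk q x y d (hL2P D h q x y d mx my g) with t | ⟨t, -⟩ | ⟨c, hc, bk⟩
  · exact t
  · exact absurd t (h.toOk.far_tn ((h.toOk.far_p fx).mono (by norm_num)))
  obtain ⟨n, F, i, th⟩ := hCY3B D h q x y c d mx my g hc bk
  obtain ⟨e, ec, hs⟩ := hHS D h _ F _ c _ _ th
  have uc := bk.1.1
  have mc := h.toOk.fl_mg bk.1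
  have e1 := h.pi_p ux mx
  have e2 := h.pi_p uy my
  have e3 := (h.pi_mg uc mc).2 ec
  have o1 := h.toOk.ob_p ux
  have o2 := h.toOk.ob_p uy
  have o3 := h.toOk.ob_eq uc ec
  have fe : D.Far 3 e := (h.toOk.far_p fx).adj (h.toOk.fl_adj bk.1 ec).symm
  refine core (F := F) (x := D.p x) (y := D.p y) (c := e) hINH hMM1 hTM2 h
    (h.toOk.df_congr d (Cb.p_ob x) (Cb.p_ob y)) ((h.toOk.mg_congr ux (Cb.p_ob x)).2 mx)
    ((h.toOk.mg_congr uy (Cb.p_ob y)).2 my) ?_ (by rwa [e1, e2, e3]) i ?_ (by rwa [e3])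
    ((h.toOk.far_p fx).mono (by norm_num)) (h.toOk.far_p fy).pred fe.pred
  · rw [o1, o2]
    rintro (t | t)
    exacts [hc (.inl (h.toOk.ob_trans ux t (h.toOk.ob_symm uc ec))),
      hc (.inr (h.toOk.ob_trans uy t (h.toOk.ob_symm uc ec)))]
  · rw [e1, e2, e3, o1, o2, o3]
    exact h.th_congr th ec

end Pool.Agent.P.MP_5f84aa_co.G
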