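import Pool.Agent.P.MP_5f84aa_co.G.RIf

/-! Part R2: the move along an alternating path. -/

namespace Pool.Agent.P.MP_5f84aa_co.G

namespace RTMV

theorem al {D : Cb} (h : D.Ok) {Y : Set D.V} {N : Set D.J} {x y : D.V} (a : D.Al Y N x y) :
    D.Wh Y ∧ x ∈ Y ∧ y ∈ Y ∧ x ≠ y ∧ (∀ j ∈ N, ∀ v, D.m.cor j v → v ∈ Y ∧ v ≠ x ∧ v ≠ y) ∧
      ∀ v ∈ Y, v ≠ x → v ≠ y → ∃! j, j ∈ N ∧ D.m.cor j v := by
  induction a with
  | base a u =>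
    refine ⟨h.wh_ob u, Cb.self_ob a, Cb.p_ob a, (h.p_ne u).symm, fun j hj => hj.elim, ?_⟩
    rintro v (rfl | rfl) n1 n2
    exacts [absurd rfl n1, absurd rfl n2]
  | @step Y N x y e q _ u n g ih =>
    obtain ⟨w, hx, hy, xy, c1, c2⟩ := ih
    have n' : D.p e ∉ Y := fun t => n ((h.wh_p w u).1 t)
    have ne : ∀ v ∈ Y, v ≠ D.p e := fun v hv t => n' (t ▸ hv)
    refine ⟨w.union (h.wh_ob u), .inl hx, .inr (Cb.p_ob e), ne x hx, ?_, ?_⟩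
    · rintro j (rfl | hj) v cv
      · rcases g.fc.cor_iff.1 cv with rfl | rfl
        · exact ⟨.inl hy, xy.symm, ne _ hy⟩
        · exact ⟨.inr (Cb.self_ob v), fun t => n (t ▸ hx), (h.p_ne u).symm⟩
      · obtain ⟨b1, b2, -⟩ := c1 j hj v cv
        exact ⟨.inl b1, b2, ne v b1⟩
    · rintro v (hv | rfl | rfl) n1 n2
      · by_cases e1 : v = y
        · subst e1
          refine ⟨q, ⟨.inl rfl, g.fc.cor1⟩, ?_⟩
          rintro j ⟨rfl | hj, cv⟩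
          exacts [rfl, absurd rfl (c1 j hj v cv).2.2]
        · obtain ⟨j, ⟨j1, j2⟩, j3⟩ := c2 v hv n1 e1
          refine ⟨j, ⟨.inr j1, j2⟩, ?_⟩
          rintro k ⟨rfl | hk, cv⟩
          · rcases g.fc.cor_iff.1 cv with rfl | rfl
            exacts [absurd rfl e1, absurd hv n]
          · exact j3 k ⟨hk, cv⟩
      · refine ⟨q, ⟨.inl rfl, g.fc.cor2⟩, ?_⟩
        rintro j ⟨rfl | hj, cv⟩
        exacts [rfl, absurd (c1 j hj v cv).1 n]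
      · exact absurd rfl n2

end RTMV

theorem t_MV : S_MV := by
  intro D h Y N x y H a hg hl hN
  obtain ⟨w, hx, hy, xy, c1, c2⟩ := RTMV.al h a
  by_cases t : D.Tn x ∧ D.Tn y
  · exact .inr (.inl t)
  by_cases b : ∃ c, c ∉ Y ∧ D.Fl c x y ∧ D.m.ln c x ∉ H ∧ D.m.ln c y ∉ H
  · exact .inr (.inr b)
  have out : ∀ c, D.U c → c ∉ Y → ∀ v ∈ D.ob c, v ∉ Y := fun c u n v hv t =>
    n (w.ob_sub t (h.ob_symm u hv))
  refine .inl ⟨x, y, {j | j ∈ N ∨ ∃ c, D.U c ∧ c ∉ Y ∧ j = D.jm c}, H, xy, (w x hx).1,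
    (w y hy).1, ⟨?_, ?_⟩, ?_, hl, ?_, ?_⟩
  · rintro j (hj | ⟨c, u, n, rfl⟩) v cv
    · obtain ⟨b1, b2, b3⟩ := c1 j hj v cv
      exact ⟨(w v b1).1, b2, b3⟩
    · have hv := (h.cor_jm u).1 cv
      exact ⟨h.ob_U u hv, fun e => out c u n v hv (e ▸ hx), fun e => out c u n v hv (e ▸ hy)⟩
  · intro v u n1 n2
    by_cases hv : v ∈ Y
    · obtain ⟨j, ⟨j1, j2⟩, j3⟩ := c2 v hv n1 n2
      refine ⟨j, ⟨.inl j1, j2⟩, ?_⟩
      rintro k ⟨hk | ⟨c, uc, n, rfl⟩, cv⟩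
      exacts [j3 k ⟨hk, cv⟩, absurd hv (out c uc n v ((h.cor_jm uc).1 cv))]
    · refine ⟨D.jm v, ⟨.inr ⟨v, u, hv, rfl⟩, (h.ge v u).fc.cor1⟩, ?_⟩
      rintro k ⟨hk | ⟨c, uc, -, rfl⟩, cv⟩
      exacts [absurd (c1 k hk v cv).1 hv, (h.jm_eq uc ((h.cor_jm uc).1 cv)).symm]
  · rcases hg with e | ⟨k, k1, k2⟩
    exacts [.inl e, .inr ⟨k, k1, k2⟩]
  · rintro j (hj | ⟨c, u, n, rfl⟩) j' r e
    · exact hN j hj j' r e
    have f1 := (h.ge c u).fc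
    have f2 := (h.mo.far_ge r (h.ge c u)).fc
    have f : D.Fl c _ _ := ⟨u, _, _, r.1, f1, f2⟩
    rw [← (h.mo.lines f1 r.2.1).2.1, ← (h.mo.lines f2 r.2.2.1).2.1]
    by_contra hn
    rw [not_or] at hn
    rcases Sym2.eq_iff.1 e with ⟨rfl, rfl⟩ | ⟨rfl, rfl⟩
    exacts [b ⟨c, n, f, hn⟩, b ⟨c, n, f.symm, hn.symm⟩]
  · intro j hj j' r e
    rcases Sym2.eq_iff.1 e with ⟨e1, e2⟩ | ⟨e1, e2⟩
    exacts [t ⟨⟨j, hj, j', r, .inl e1⟩, j, hj, j', r, .inr e2⟩,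
      t ⟨⟨j, hj, j', r, .inr e2⟩, j, hj, j', r, .inl e1⟩]

end Pool.Agent.P.MP_5f84aa_co.G
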