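import Pool.Agent.P.MP_5f84aa_co.G.RIf

/-! Part R2: instances of the general move. -/

namespace Pool.Agent.P.MP_5f84aa_co.G

namespace RTMVS

variable {D : Cb} {Γ K : Set D.V} {u v x y o e d : D.V} {q q' : D.J}

/-- the flat cells of a rung are adjacent to its halves -/
theorem nf (h : D.Ok) (g : D.m.GE q u v) (r : D.m.far q q') (s : s(D.m.X q, D.m.X q') = s(x, y)) :
    (D.m.Adj u x ∧ D.m.Adj u y) ∧ D.m.Adj v x ∧ D.m.Adj v y := by
  have g' := h.mo.far_ge r g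
  rcases Sym2.eq_iff.1 s with ⟨rfl, rfl⟩ | ⟨rfl, rfl⟩
  exacts [⟨⟨h.mo.adj13 g, h.mo.adj13 g'⟩, h.mo.adj23 g, h.mo.adj23 g'⟩,
    ⟨⟨h.mo.adj13 g', h.mo.adj13 g⟩, h.mo.adj23 g', h.mo.adj23 g⟩]

theorem na (c : D.m.Cl Γ K) (hx : x ∈ K) (hy : y ∉ Γ ∪ K) : ¬ D.m.Adj x y :=
  fun a => hy (.inr (c.2 x hx y a fun n => hy (.inl n)))

theorem al1 (h : D.Ok) (e : D.U x) : D.Al (D.ob x) ∅ (D.p x) x := by
  have := Cb.Al.base (D.p x) (h.pU x e)
  rwa [h.pp x e, h.ob_p e] at this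

theorem po (h : D.Ok) (w : D.Wh Γ) (c : D.m.Cl Γ K) (uo : D.U o) (n : o ∉ Γ ∪ K) : D.p o ∉ Γ ∪ K :=
  fun t => n (t.imp (h.wh_p w uo).1 (h.cl_p_iff w c uo).1)

theorem no (h : D.Ok) (w : D.Wh Γ) (c : D.m.Cl Γ K) (uo : D.U o) (n : o ∉ Γ ∪ K) (t : x ∈ Γ ∪ K) :
    x ∉ D.ob o := by
  rintro (rfl | rfl)
  exacts [n t, po h w c uo n t]

theorem blk (h : D.Ok) (c : D.m.Cl Γ K) (n : o ∉ Γ ∪ K) (k : e ∈ K) (f : D.Fl d o e) : d ∈ Γ :=
  by_contra fun t => na c (c.2 e k d (h.fl_adj f.symm (Cb.self_ob d)).symm t) n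
    (h.fl_adj f (Cb.self_ob d))

end RTMVS

open RTMVS

theorem t_MV0 (hMV : S_MV) : S_MV0 := by
  intro D h a b e nb s
  rcases hMV D h _ _ _ _ {u | D.m.hug (D.jm b) u} (.base a e.1)
    (.inr ⟨_, .inr ⟨b, e.2.1, e.2.2, rfl⟩, rfl, fun j r => absurd ⟨j, r⟩ nb⟩)
    (fun _ => .inl (s.symm.trans (h.mo.lines (h.ge a e.1) (h.jm_inf e.1)).1.symm))
    (fun _ n => absurd n (Set.notMem_empty _)) with g | t | ⟨c, -, f⟩
  exacts [.inl g, .inr (.inl ⟨a, Cb.self_ob a, t.1⟩), .inr (.inr ⟨c, f⟩)]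

theorem t_MV1 (hMV : S_MV) : S_MV1 := by
  intro D h q x y e p
  refine hMV D h _ _ _ _ {u | D.m.hug q u} (.step y q (al1 h e.1) e.2.1 e.2.2 p.1)
    (.inr ⟨q, .inl (.inl rfl), rfl, p.2.2⟩) p.2.1 ?_
  rintro _ (rfl | n) q' r s
  · rcases Sym2.eq_iff.1 s with t | t
    exacts [absurd t.2 (p.2.2 q' r).2, absurd t.2 (p.2.2 q' r).1]
  · exact absurd n (Set.notMem_empty _)

theorem t_MV2 (hMV : S_MV) : S_MV2 := by
  intro D h q x y e g a s
  rcases hMV D h _ _ _ _ ∅ (.step y q (al1 h e.1) e.2.1 e.2.2 g) (.inl rfl) (fun n => absurd n a)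
    (by
      rintro _ (rfl | n) q' r t
      exacts [absurd t (s q' r), absurd n (Set.notMem_empty _)]) with g | t | ⟨c, n, f, -⟩
  exacts [.inl g, .inr (.inl t), .inr (.inr ⟨c, n, f⟩)]

theorem t_TM2 (hMV : S_MV) : S_TM2 := by
  intro D h Γ K g o e q q' w c hg g1 uo n g2 ue k t
  have n' := po h w c uo n
  have k' := h.cl_p w c ue k
  rcases hMV D h _ _ _ _ ∅ (.step e q' (.step g q (al1 h uo) (w g hg).1 (no h w c uo n (.inl hg))
    g1.symm) ue (fun s => s.elim (no h w c uo n (.inr k)) fun s => c.1 e k (w.ob_sub hg s)) g2)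
    (.inl rfl) (fun a => absurd a.symm (na c k' n'))
    (by
      rintro _ (rfl | rfl | s) j r s'
      exacts [absurd (nf h g2 r s').2.1 (na c k n'), absurd (nf h g1 r s').2.2.symm (na c k' n),
        absurd s (Set.notMem_empty _)]) with g | s | ⟨d, s, f, -⟩
  exacts [.inl g, absurd s.2 t, .inr ⟨d, blk h c n' k' f, fun a => s (.inl (.inr a)), f⟩]

theorem t_TM3 (hMV : S_MV) : S_TM3 := by
  intro D h Γ K g l o e q₁ q₂ q₃ w c hg hl nl g1 uo n g2 g3 ue k t b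
  have n' := po h w c uo n
  have k' := h.cl_p w c ue k
  rcases hMV D h _ _ _ _ ∅ (.step e q₃ (.step l q₂ (.step g q₁ (al1 h uo) (w g hg).1
    (no h w c uo n (.inl hg)) g1.symm) (w l hl).1 (fun s => s.elim (no h w c uo n (.inl hl)) nl) g2)
    ue (fun s => s.elim (fun s => s.elim (no h w c uo n (.inr k)) fun s => c.1 e k (w.ob_sub hg s))
      fun s => c.1 e k (w.ob_sub hl s)) g3)
    (.inl rfl) (fun a => absurd a.symm (na c k' n'))
    (by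
      rintro _ (rfl | rfl | rfl | s) j r s'
      exacts [absurd (nf h g3 r s').2.1 (na c k n'), absurd s' (b j r),
        absurd (nf h g1 r s').2.2.symm (na c k' n), absurd s (Set.notMem_empty _)])
    with g | s | ⟨d, s, f, -⟩
  exacts [.inl g, absurd s.2 t, .inr ⟨d, blk h c n' k' f,
    fun a => s (.inl (a.elim (fun a => .inl (.inr a)) .inr)), f⟩]

end Pool.Agent.P.MP_5f84aa_co.G
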