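import Pool.Agent.P.MP_5f84aa_co.G.RIf

/-! Part R2: every side of a ring carries a mark or a ring object. -/

namespace Pool.Agent.P.MP_5f84aa_co.G

namespace RTN1

variable {D : Cb} {Γ K : Set D.V} {a b c s t x y z : D.V}

theorem ob_cl (h : D.Ok) (g : D.Wh Γ) (c : D.m.Cl Γ K) (ea : D.U a) (hs : s ∈ D.ob a)
    (ht : t ∈ D.ob a) (k : s ∈ K) : t ∈ K := by
  rcases h.ob_trans (h.ob_U ea hs) (h.ob_symm ea hs) ht with rfl | rfl
  exacts [k, h.cl_p g c (h.ob_U ea hs) k]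

theorem oa_cl (h : D.Ok) (g : D.Wh Γ) (c : D.m.Cl Γ K) (ea : D.U a) (eb : D.U b) (o : D.OA a b)
    (k : a ∈ K) : b ∈ K ∨ b ∈ Γ := by
  obtain ⟨y, hy, x, hx, e⟩ := o
  by_cases n : y ∈ Γ
  · exact .inr (g.ob_sub n (h.ob_symm eb hy))
  · exact .inl (ob_cl h g c eb hy (Cb.self_ob b) (c.2 x (ob_cl h g c ea (Cb.self_ob a) hx k) y e n))

/-- a plain and a merged cell of two objects represent them -/
theorem two_ob (h : D.Ok) (ea : D.U a) (eb : D.U b) (hs : s ∈ D.ob a ∪ D.ob b)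
    (ht : t ∈ D.ob a ∪ D.ob b) (ns : ¬ D.Mg s) (mt : D.Mg t) :
    D.ob a ∪ D.ob b = D.ob s ∪ D.ob t := by
  rcases hs with hs | hs <;> rcases ht with ht | ht
  · exact absurd ((h.mg_congr ea hs).2 ((h.mg_congr ea ht).1 mt)) ns
  · rw [h.ob_eq ea hs, h.ob_eq eb ht]
  · rw [h.ob_eq eb hs, h.ob_eq ea ht, Set.union_comm]
  · exact absurd ((h.mg_congr eb hs).2 ((h.mg_congr eb ht).1 mt)) ns

/-- the shape of a ring that contains a plain cell and a merged cell with a flat cell off the ring -/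
theorem shape (h : D.Ok) (r : D.RS Γ) (hb : b ∈ Γ) (nb : ¬ D.Mg b) (hc : c ∈ Γ) (f : D.Fl c x y)
    (nx : x ∉ Γ) : (∀ g ∈ Γ, ¬ D.Mg g → g ∈ D.ob b) ∧
      (∀ g ∈ Γ, ∀ u v, D.Fl g u v → u ∉ Γ → g ∈ D.ob c) ∧ (D.Dig b c → Γ = D.ob b ∪ D.ob c) := by
  have w := h.rs_wh r
  have ub := (w b hb).1
  have mc := h.fl_mg f
  have p1 : ∀ g ∈ D.ob b ∪ D.ob c, ¬ D.Mg g → g ∈ D.ob b := fun g e n =>
    e.resolve_right fun q => n ((h.mg_congr f.1 q).2 mc)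
  have p2 : ∀ g ∈ D.ob b ∪ D.ob c, D.Mg g → g ∈ D.ob c := fun g e n =>
    e.resolve_left fun q => nb ((h.mg_congr ub q).1 n)
  obtain ⟨a₁, a₂, e, -, rfl⟩ | ⟨a₁, a₂, d, ⟨e, -, nd, x₁, h₁, x₂, h₂, f'⟩, rfl⟩ := r
  · have q := two_ob h e.1 e.2.1 hb hc nb mc
    rw [q]
    exact ⟨p1, fun g e u v k _ => p2 g e (h.fl_mg k), fun _ => rfl⟩
  · have p3 : ∀ g ∈ D.ob d, ∀ u v, D.Fl g u v → u ∈ D.ob a₁ ∪ D.ob a₂ ∪ D.ob d := by
      intro g e u v k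
      rcases h.fl_unique (h.fl_congr f' e) k with ⟨rfl, -⟩ | ⟨rfl, -⟩
      exacts [.inl (.inl h₁), .inl (.inr h₂)]
    have p4 : ∀ g ∈ D.ob d, D.Mg g := fun g e => (h.mg_congr f'.1 e).2 (h.fl_mg f')
    have q := two_ob h e.1 e.2.1 (hb.resolve_right fun q => nb (p4 b q))
      (hc.resolve_right fun q => nx (p3 c q x y f)) nb mc
    refine ⟨fun g e n => p1 g (q ▸ e.resolve_right fun q => n (p4 g q)) n,
      fun g e u v k n => p2 g (q ▸ e.resolve_right fun q => n (p3 g q u v k)) (h.fl_mg k),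
      fun n => absurd ?_ nd⟩
    rwa [Cb.Dig, q]

end RTN1

open RTN1 in
theorem t_N1 (hLA : S_LA) (hLKU : S_LKU) (hL5 : S_L5) (hTW2 : S_TW2) (hTW : S_TW) : S_N1 := by
  intro D h' ng Γ K r cl ne
  have h := h'.toOk
  by_contra hn
  have hU : ∀ x ∈ K, D.U x := fun x e n => hn ⟨x, e, .inl (.inl n)⟩
  have hT : ∀ x ∈ K, ¬ D.TO x := fun x e n => hn ⟨x, e, .inl (.inr (.inl ⟨hU x e, n⟩))⟩
  have hI : ∀ x ∈ K, ¬ D.Ina x := fun x e n => hn ⟨x, e, .inl (.inr (.inr n))⟩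
  have hR : ∀ x ∈ K, ¬ D.Rg x := fun x e n => hn ⟨x, e, .inr n⟩
  have w := h.rs_wh r
  have oK : ∀ z ∈ K, ∀ x ∈ D.ob z, x ∈ K := fun z e x hx =>
    ob_cl h w cl (hU z e) (Cb.self_ob z) hx e
  have nb : ∀ x ∈ K, ∀ y, D.m.Adj x y → y ∈ K ∨ y ∈ Γ := fun x e y a =>
    (em (y ∈ Γ)).symm.imp (cl.2 x e y a) id
  have nU : ∀ x ∈ K, ∀ y, D.m.Adj x y → D.U y := fun x e y a =>
    (nb x e y a).elim (hU y) fun q => (w y q).1
  have la : ∀ z ∈ K, ∀ b, D.Df z b → D.GA z b → ¬ D.Lk z b → ∃ c, D.St z b c := fun z e b d g n =>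
    (((hLA D h' z b d g n).resolve_left ng).resolve_left (hT z e)).resolve_left (hR z e)
  -- the objects of a stuck triple
  have st : ∀ z ∈ K, ∀ b c, D.St z b c → b ∈ Γ ∧ (c ∈ K ∨ c ∈ Γ) ∧ (D.Dig b c → c ∈ Γ) := by
    rintro z e b c ⟨d, -, g, f, t⟩
    have d1 := h.fo_df f d.1
    have d2 := h.fo_df f.symm d.2.1
    have o2 := h.fo_oa f.symm
    have hc := oa_cl h w cl d.1 d1.1 (h.fo_oa f).symm e
    refine ⟨(oa_cl h w cl d.1 d.2.1 (h.ga_oa g) e).resolve_left fun bK => ?_, hc,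
      fun q => hc.resolve_left fun cK => hR c cK (.inl ⟨b, d2, o2, q.symm⟩)⟩
    obtain q | ⟨-, j, x, hx, y, hy, u, -, k⟩ := t
    · exact hR b bK (.inl ⟨c, h.df_symm d2, o2.symm, q⟩)
    · obtain ⟨c', s⟩ := la b bK c (h.df_symm d2) ⟨j, y, hy, x, hx, k.ge.symm⟩
        fun l => l.2.2.1 (h.fo_mg f)
      exact s.2.1 (h.fo_mg f)
  -- junctions of an object of `K`
  have jn : ∀ z ∈ K, ∀ q, ∀ x ∈ D.ob z, ∀ u, D.m.GE q x u → u ∉ D.ob z → D.Df z u ∧ D.GA z u :=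
    fun z e q x hx u g n => ⟨⟨hU z e, nU x (oK z e x hx) u (h.mo.adj12 g), n⟩,
      q, x, hx, u, Cb.self_ob u, g⟩
  -- every object of `K` is stuck
  have all : ∀ z ∈ K, ∃ b c, D.St z b c := by
    intro z e
    by_contra n
    have lk : ∀ b, D.Df z b → D.GA z b → D.Lk z b := fun b d g =>
      by_contra fun q => n ⟨b, la z e b d g q⟩
    refine hI z e ⟨hU z e, ?_⟩
    by_cases q : ∃ z', D.Df z z' ∧ D.GA z z'
    · obtain ⟨z', d, g⟩ := q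
      have l := lk z' d g
      refine .inr ⟨z', l, fun b ub t => by_contra fun nb => ?_⟩
      rcases t with t | t
      · exact nb (.inr (hLKU D.toCb h z z' b l (lk b ⟨d.1, ub, fun q => nb (.inl q)⟩ t)))
      · refine ng (hL5 D.toCb h z z' b l (fun q x hx u g => ?_) ub nb t)
        by_cases k : u ∈ D.ob z
        · exact .inl k
        · obtain ⟨d', g'⟩ := jn z e q x hx u g k
          exact .inr (hLKU D.toCb h z z' u l (lk u d' g'))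
    · exact .inl fun b d g => q ⟨b, d, g⟩
  have mg : ∀ z ∈ K, D.Mg z → ∃ b, ∃ c ∈ Γ, D.St z b c := fun z e m => by
    obtain ⟨b, c, s⟩ := all z e
    exact ⟨b, c, (st z e b c s).2.2 (s.2.2.2.2.resolve_right fun q => q.1 m), s⟩
  obtain ⟨z₀, e₀, b₀, c₀, hc₀, s₀⟩ : ∃ z ∈ K, ∃ b, ∃ c ∈ Γ, D.St z b c := by
    obtain ⟨z, e⟩ := ne
    obtain ⟨b, c, s⟩ := all z e
    rcases (st z e b c s).2.1 with q | q
    exacts [⟨c, q, mg c q (h.fo_mg s.2.2.2.1)⟩, ⟨z, e, b, c, q, s⟩]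
  have hb₀ := (st z₀ e₀ b₀ c₀ s₀).1
  have u₀ := hU z₀ e₀
  obtain ⟨x₀, hx₀, y₀, hy₀, f₀⟩ := s₀.2.2.2.1
  obtain ⟨sh1, sh2, sh3⟩ := shape h r hb₀ s₀.2.1 hc₀ f₀ (cl.1 x₀ (oK z₀ e₀ x₀ hx₀))
  -- a rung with one flat cell in `K` and one on the ring
  have fu : ∀ c x y x' y', D.Fl c x y → D.Fl c x' y' → x ∈ K → y' ∈ Γ → x' = x := by
    intro c x y x' y' f f' a b
    rcases h.fl_unique f f' with ⟨q, -⟩ | ⟨-, rfl⟩
    exacts [q, absurd b (cl.1 _ a)]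
  have inG : ∀ z ∈ K, ∀ b, ∀ c ∈ Γ, D.St z b c → z ∈ D.ob z₀ := by
    rintro z e b c hc ⟨-, -, -, ⟨x, hx, y, -, f⟩, -⟩
    have xK := oK z e x hx
    have := fu c x y x₀ y₀ f (h.fl_congr f₀ (sh2 c hc x y f (cl.1 x xK))) xK (w.ob_sub hb₀ hy₀)
    exact h.ob_trans u₀ hx₀ (this ▸ h.ob_symm (hU z e) hx)
  have inK : ∀ z ∈ K, ∀ b, ∀ c ∈ K, D.St z b c → ∃ x ∈ D.ob z, ∃ y ∈ Γ, D.Fl z₀ x y := by
    intro z e b c hc s
    obtain ⟨b', c', hc', s'⟩ := mg c hc (h.fo_mg s.2.2.2.1)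
    obtain ⟨x, hx, y, hy, f⟩ := s.2.2.2.1
    exact ⟨x, hx, y, w.ob_sub (st z e b c s).1 hy,
      h.fl_congr f (h.ob_symm u₀ (inG c hc b' c' hc' s'))⟩
  -- at most one plain object in `K`
  have one : ∀ z ∈ K, ∀ z' ∈ K, ¬ D.Mg z → ¬ D.Mg z' → z' ∈ D.ob z := by
    intro z e z' e' n n'
    obtain ⟨b, c, s⟩ := all z e
    obtain ⟨b', c', s'⟩ := all z' e'
    rcases (st z e b c s).2.1 with q | q <;> rcases (st z' e' b' c' s').2.1 with q' | q'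
    · obtain ⟨x, hx, y, -, f⟩ := inK z e b c q s
      obtain ⟨x', hx', y', hy', f'⟩ := inK z' e' b' c' q' s'
      have := fu z₀ x y x' y' f f' (oK z e x hx) hy'
      exact h.ob_trans (hU z e) hx (this ▸ h.ob_symm (hU z' e') hx')
    · obtain ⟨x, -, y, -, f⟩ := inK z e b c q s
      exact absurd ((h.mg_congr u₀ (inG z' e' b' c' q' s')).2 (h.fl_mg f)) n'
    · obtain ⟨x, -, y, -, f⟩ := inK z' e' b' c' q' s'
      exact absurd ((h.mg_congr u₀ (inG z e b c q s)).2 (h.fl_mg f)) n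
    · exact h.ob_trans (hU z e) (h.ob_symm u₀ (inG z e b c q s)) (inG z' e' b' c' q' s')
  have cf : ∀ z ∈ K, D.Cf2 z b₀ := by
    intro z e q x hx u g
    by_cases k : u ∈ D.ob z
    · exact .inl k
    obtain ⟨d, g'⟩ := jn z e q x hx u g k
    by_cases l : D.Lk z u
    · exact .inr (sh1 u ((nb x (oK z e x hx) u (h.mo.adj12 g)).resolve_left
        fun uK => k (one z e u uK l.2.1 l.2.2.1)) l.2.2.1)
    · obtain ⟨c, s⟩ := la z e u d g' l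
      exact .inr (sh1 u (st z e u c s).1 s.2.1)
  have dg : ∀ z ∈ K, ∀ b c, D.St z b c → D.Dig b c := by
    intro z e b c s
    have ob := h.ob_eq (w b₀ hb₀).1 (sh1 b (st z e b c s).1 s.2.1)
    obtain ⟨d, -, -, f, q | ⟨-, j, x, hx, y, hy, u, hu, k⟩⟩ := s
    · exact q
    · have c2 : D.Cf2 z b := by simpa only [Cb.Cf2, ob] using cf z e
      rcases hTW2 D.toCb h z b j y x u d c2 k.symm (.inr hy) hu with t | t
      · exact absurd t (h.df_disj (h.fo_df f d.1) hx)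
      · exact absurd t (h.df_disj (h.fo_df f.symm d.2.1) hx)
  refine hTW D.toCb h z₀ b₀ c₀ s₀.1 (cf z₀ e₀) s₀.2.2.2.1 fun x hx u a => ?_
  rcases nb x (oK z₀ e₀ x hx) u a with q | q
  · obtain ⟨b, c, s⟩ := all u q
    exact .inl (.inl (inG u q b c ((st u q b c s).2.2 (dg u q b c s)) s))
  · rw [sh3 (dg z₀ e₀ b₀ c₀ s₀)] at q
    exact q.elim (fun t => .inl (.inr t)) .inr

end Pool.Agent.P.MP_5f84aa_co.G
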