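import Pool.Agent.P.MP_5f84aa_co.G.RIf

/-! Part R2: every side of a ring carries a mark; the count near the hubs. -/

namespace Pool.Agent.P.MP_5f84aa_co.G

namespace RTN2

variable {D : Cb} {Γ G K : Set D.V} {a b s t : D.V}

theorem ob_cl (h : D.Ok) (g : D.Wh Γ) (c : D.m.Cl Γ K) (ea : D.U a) (hs : s ∈ D.ob a)
    (ht : t ∈ D.ob a) (k : s ∈ K) : t ∈ K := by
  rcases h.ob_trans (h.ob_U ea hs) (h.ob_symm ea hs) ht with rfl | rfl
  exacts [k, h.cl_p g c (h.ob_U ea hs) k]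

theorem ob_out (h : D.Ok) (g : D.Wh Γ) (ea : D.U a) (hs : s ∈ D.ob a) (ht : t ∈ D.ob a)
    (n : t ∉ Γ) : s ∉ Γ := fun e =>
  n (g.ob_sub e (h.ob_trans (h.ob_U ea hs) (h.ob_symm ea hs) ht))

theorem oa_cl (h : D.Ok) (g : D.Wh Γ) (c : D.m.Cl Γ K) (ea : D.U a) (eb : D.U b) (o : D.OA a b)
    (hs : s ∈ D.ob a) (ht : t ∈ D.ob b) (n : t ∉ Γ) (k : s ∈ K) : t ∈ K := by
  obtain ⟨y, hy, x, hx, e⟩ := o
  exact ob_cl h g c eb hy ht (c.2 x (ob_cl h g c ea hs hx k) y e (ob_out h g eb hy ht n))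

/-- the cells of a ring off a union of objects lie on one side of it -/
theorem rs_cl (h : D.Ok) (g : D.Wh Γ) (c : D.m.Cl Γ K) (r : D.RS G) (hs : s ∈ G) (ht : t ∈ G)
    (n : t ∉ Γ) (k : s ∈ K) : t ∈ K := by
  obtain ⟨a, b, e, o, rfl⟩ | ⟨a, b, d, ⟨e, o, -, f⟩, rfl⟩ := r
  · rcases hs with hs | hs <;> rcases ht with ht | ht
    · exact ob_cl h g c e.1 hs ht k
    · exact oa_cl h g c e.1 e.2.1 o hs ht n k
    · exact oa_cl h g c e.2.1 e.1 o.symm hs ht n k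
    · exact ob_cl h g c e.2.1 hs ht k
  · have ed : D.U d := (h.fo_df f e.1).1
    have oa := h.fo_oa f
    have ob := h.fo_oa f.symm
    rcases hs with (hs | hs) | hs <;> rcases ht with (ht | ht) | ht
    · exact ob_cl h g c e.1 hs ht k
    · exact oa_cl h g c e.1 e.2.1 o hs ht n k
    · exact oa_cl h g c e.1 ed oa.symm hs ht n k
    · exact oa_cl h g c e.2.1 e.1 o.symm hs ht n k
    · exact ob_cl h g c e.2.1 hs ht k
    · exact oa_cl h g c e.2.1 ed ob.symm hs ht n k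
    · exact oa_cl h g c ed e.1 oa hs ht n k
    · exact oa_cl h g c ed e.2.1 ob hs ht n k
    · exact ob_cl h g c ed hs ht k

theorem rg_ring (hDR : S_DR) (h : D.Ok) {z : D.V} (r : D.Rg z) :
    D.U z ∧ ∃ G u v, D.RS G ∧ z ∈ G ∧ D.Tch z u ∧ D.Tch z v ∧ D.m.Sep G u v := by
  obtain ⟨b, e, o, d⟩ | ⟨b, c, u, v, t, tu, tv, s⟩ := r
  · obtain ⟨u, v, tu, tv, s⟩ := hDR D h z b e d
    exact ⟨e.1, _, u, v, .inl ⟨z, b, e, o, rfl⟩, .inl (Cb.self_ob z), tu, tv, s⟩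
  · exact ⟨t.1.1, _, u, v, .inr ⟨z, b, c, t, rfl⟩, .inl (.inl (Cb.self_ob z)), tu, tv, s⟩

/-- a ring through a cell of `K` has a smaller side inside `K` -/
theorem smaller (hDR : S_DR) (h : D.Ok) (r : D.RS Γ) (c : D.m.Cl Γ K) {z : D.V} (hz : z ∈ K)
    (g : D.Rg z) : ∃ G K', D.RS G ∧ D.m.Cl G K' ∧ K'.Nonempty ∧ K' ⊂ K := by
  obtain ⟨uz, G, u, v, rG, zG, tu, tv, K₁, c₁, u₁, v₁, vG⟩ := rg_ring hDR h g
  obtain ⟨Ki, w, ci, wi, tw, n⟩ :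
      ∃ Ki w, D.m.Cl G Ki ∧ w ∈ Ki ∧ D.Tch z w ∧ ∀ s ∈ Γ, s ∉ Ki := by
    by_cases q : ∃ s ∈ Γ, s ∈ K₁
    · obtain ⟨s, hs, ks⟩ := q
      refine ⟨(G ∪ K₁)ᶜ, v, c₁.compl, fun e => e.elim vG v₁, tv, fun t ht e => e ?_⟩
      by_cases tG : t ∈ G
      exacts [.inl tG, .inr (rs_cl h (h.rs_wh rG) c₁ r hs ht tG ks)]
    · exact ⟨K₁, u, c₁, u₁, tu, fun s hs ks => q ⟨s, hs, ks⟩⟩
  obtain ⟨x, hx, e⟩ := tw
  have wK : w ∈ K :=
    c.2 x (ob_cl h (h.rs_wh r) c uz (Cb.self_ob z) hx hz) w e fun q => n w q wi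
  refine ⟨G, Ki ∩ K, rG, ⟨fun y hy => ci.1 y hy.1, fun y hy y' a ny => ?_⟩, ⟨w, wi, wK⟩,
    Set.inter_subset_right, fun q => ci.1 z (q hz).1 zG⟩
  have := ci.2 y hy.1 y' a ny
  exact ⟨this, c.2 y hy.2 y' a fun q => n y' q this⟩

theorem tn_card (h : D.Ok) : {x | D.Tn x}.ncard ≤ 2 * D.R.ncard := by
  classical
  haveI := h.fV
  haveI := h.fJ
  let g : D.J → D.V := fun j => if e : ∃ j', D.m.far j j' then D.m.X e.choose else D.m.X j
  have s : {x | D.Tn x} ⊆ D.m.X '' D.R ∪ g '' D.R := by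
    rintro x ⟨j, hj, j', r, rfl | rfl⟩
    · exact .inl ⟨j, hj, rfl⟩
    · have e : ∃ j', D.m.far j j' := ⟨j', r⟩
      refine .inr ⟨j, hj, ?_⟩
      simp only [g, dif_pos e]
      rw [h.mo.far_unique r e.choose_spec]
  have h1 := Set.ncard_le_ncard s
  have h2 := Set.ncard_union_le (D.m.X '' D.R) (g '' D.R)
  have h3 := Set.ncard_image_le (f := D.m.X) (s := D.R)
  have h4 := Set.ncard_image_le (f := g) (s := D.R)
  omega

theorem mk_card (hT1 : S_T1) (h : D.Ok) : {x | D.Mk x}.ncard ≤ 13 * D.S.ncard := by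
  haveI := h.fV
  have s : {x | D.Mk x} ⊆ (D.S ∪ ({x | D.Tn x} ∪ D.p '' {x | D.Tn x})) ∪ {x | D.Ina x} := by
    rintro x (e | ⟨e, y, rfl | rfl, t⟩ | e)
    · exact .inl (.inl e)
    · exact .inl (.inr (.inl t))
    · exact .inl (.inr (.inr ⟨_, t, h.pp x e⟩))
    · exact .inr e
  have h1 := Set.ncard_le_ncard s
  have h2 := Set.ncard_union_le (D.S ∪ ({x | D.Tn x} ∪ D.p '' {x | D.Tn x})) {x | D.Ina x}
  have h3 := Set.ncard_union_le D.S ({x | D.Tn x} ∪ D.p '' {x | D.Tn x})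
  have h4 := Set.ncard_union_le {x | D.Tn x} (D.p '' {x | D.Tn x})
  have h5 := Set.ncard_image_le (f := D.p) (s := {x | D.Tn x})
  have h6 := tn_card h
  have h7 := hT1 D h
  have h8 := h.Rc
  omega

end RTN2

theorem t_N2 (hN1 : S_N1) (hDR : S_DR) : S_N2 := by
  intro D h ng Γ K
  haveI := h.fV
  induction e : K.ncard using Nat.strong_induction_on generalizing Γ K with
  | _ n ih =>
    intro r c ne
    obtain ⟨z, hz, m | g⟩ := hN1 D h ng Γ K r c ne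
    · exact ⟨z, hz, m⟩
    · obtain ⟨G, K', r', c', ne', s⟩ := RTN2.smaller hDR h.toOk r c hz g
      obtain ⟨x, hx, m⟩ := ih _ (e ▸ Set.ncard_lt_ncard s) G K' rfl r' c' ne'
      exact ⟨x, s.1 hx, m⟩

theorem t_P2 (hN2 : S_N2) (hT1 : S_T1) (hLAM2 : S_LAM2) (hATT : S_ATT) : S_P2 := by
  intro D h ng
  haveI := h.fV
  obtain ⟨B, Ω, b, w, c, s, n⟩ := hLAM2 D.toCb h.toOk {x | D.Mk x} (hN2 D h ng)
  have a := hATT D h ng B Ω w c n
  have m := RTN2.mk_card hT1 h.toOk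
  have t : D.nx D.S ⊆ Ω ∪ B := by
    intro x hx
    by_cases ux : x ∈ D.S
    · exact s (.inl ux)
    obtain e | ⟨k, hk, y, hy, e⟩ := hx
    · exact absurd e ux
    by_cases xB : x ∈ B
    · exact .inr xB
    have kΩ : k ∈ Ω := (s (.inl hk)).resolve_right fun q => (w k q).1 hk
    exact .inl (RTN2.ob_cl h.toOk w c ux hy (Cb.self_ob x)
      (c.2 k kΩ y e.symm (RTN2.ob_out h.toOk w ux hy (Cb.self_ob x) xB)))
  have h1 := Set.ncard_le_ncard t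
  have h2 := Set.ncard_union_le Ω B
  omega

end Pool.Agent.P.MP_5f84aa_co.G
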