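import Pool.Agent.P.MP_5f84aa_co.G.RIf

namespace Pool.Agent.P.MP_5f84aa_co.G

namespace RTOPT1

variable {V J Sg : Type} {m : Map V J Sg} {S₀ Z : Set V} {K : ℕ} {M Φ : Set J}

theorem lit1 (h : m.Ok) (s : m.State S₀ K Z M Φ) (M' : Finset J) (hM : ∀ j, j ∈ M' ↔ j ∈ M)
    (F : Finset V) {u v : V} (hu : u ∉ S₀) (hu' : u ∉ Z) (hv : v ∈ Z) :
    m.LitFrom M' F m.L u v := by
  obtain ⟨j, ⟨jM, cj⟩, -⟩ := s.Mu u hu hu'
  by_cases e : ∃ j', m.far j j' ∧ m.X j' = v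
  · obtain ⟨j', r, rfl⟩ := e
    obtain ⟨k, kΦ, hk⟩ := s.V2 j jM j' r hv
    have l : m.ln u (m.X j') = m.bar j' := by
      rcases (r.2.2.2 u).1 cj with rfl | rfl
      exacts [h.lnLX j' r.2.2.1, h.lnRX j' r.2.2.1]
    exact .inr (.inl ⟨k, (hM k).2 (s.ΦM kΦ), l ▸ hk⟩)
  · exact .inr (.inr (.inl ⟨j, (hM j).2 jM, cj, fun j' r _ x => e ⟨j', r, x⟩⟩))

theorem cnt [Finite V] [Finite J] (h : m.Ok) (s : m.State S₀ K Z M Φ) :
    2 * M.ncard + S₀.ncard + Z.ncard ≤ Nat.card V := by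
  have u : ∀ j ∈ M, ∀ k ∈ M, ∀ v, m.cor j v → m.cor k v → j = k := fun j hj k hk v a b =>
    (s.Mu v (s.Mc j hj v a).1 (s.Mc j hj v a).2).unique ⟨hj, a⟩ ⟨hk, b⟩
  have iL : (m.L '' M).ncard = M.ncard :=
    Set.InjOn.ncard_image fun j hj k hk e => u j hj k hk _ (.inl rfl) (.inl e)
  have iR : (m.R '' M).ncard = M.ncard :=
    Set.InjOn.ncard_image fun j hj k hk e => u j hj k hk _ (.inr rfl) (.inr e)
  have d1 : Disjoint (m.L '' M) (m.R '' M) := by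
    rw [Set.disjoint_left]
    rintro _ ⟨j, hj, rfl⟩ ⟨k, hk, e⟩
    obtain rfl := u j hj k hk _ (.inl rfl) (.inr e.symm)
    exact h.neLR j e.symm
  have d2 : Disjoint S₀ Z := Set.disjoint_right.2 s.ZS
  have d3 : Disjoint (m.L '' M ∪ m.R '' M) (S₀ ∪ Z) := by
    rw [Set.disjoint_left]
    rintro _ (⟨j, hj, rfl⟩ | ⟨j, hj, rfl⟩) e
    · exact e.elim (s.Mc j hj _ (.inl rfl)).1 (s.Mc j hj _ (.inl rfl)).2
    · exact e.elim (s.Mc j hj _ (.inr rfl)).1 (s.Mc j hj _ (.inr rfl)).2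
  have t := Set.ncard_le_ncard (Set.subset_univ ((m.L '' M ∪ m.R '' M) ∪ (S₀ ∪ Z)))
  rw [Set.ncard_univ, Set.ncard_union_eq d3, Set.ncard_union_eq d1, Set.ncard_union_eq d2, iL, iR] at t
  omega

end RTOPT1

open RTOPT1

theorem t_OPT1 : S_OPT1 := by
  intro V J Sg _ _ m h S₀ K Z M Φ h0 s
  have hM : ∀ j, j ∈ M.toFinite.toFinset ↔ j ∈ M := fun j => Set.Finite.mem_toFinset _
  have hF : ∀ v, v ∈ S₀.toFinite.toFinset ↔ v ∈ S₀ := fun j => Set.Finite.mem_toFinset _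
  refine ⟨M.toFinite.toFinset, S₀.toFinite.toFinset, m.L, ⟨fun e => ?_, fun _ _ => .inl rfl,
    fun u v a => ?_⟩, ?_⟩
  · exact (s.Mc _ ((hM _).1 e) _ (.inl rfl)).1 (h0 _ (.inl rfl))
  · by_cases hu : u ∈ S₀
    · exact .inl (.inl ((hF u).2 hu))
    by_cases hv : v ∈ S₀
    · exact .inr (.inl (.inl ((hF v).2 hv)))
    by_cases hu' : u ∈ Z <;> by_cases hv' : v ∈ Z
    · obtain ⟨k, kΦ, hk⟩ := s.V1 u hu' v hv' a
      exact .inl (.inr (.inl ⟨k, (hM k).2 (s.ΦM kΦ), hk⟩))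
    · exact .inr (.inl (lit1 h s _ hM _ hv hv' hu'))
    · exact .inl (lit1 h s _ hM _ hu hu' hv')
    · obtain ⟨j, ⟨jM, cj⟩, -⟩ := s.Mu u hu hu'
      obtain ⟨k, ⟨kM, ck⟩, -⟩ := s.Mu v hv hv'
      exact .inr (.inr ⟨⟨j, (hM j).2 jM, cj⟩, k, (hM k).2 kM, ck⟩)
  · rw [← Set.ncard_eq_toFinset_card, ← Set.ncard_eq_toFinset_card]
    have := cnt h s
    omega

theorem t_R2TOP (hR2S : S_R2S) (hDEG : S_DEG) (hOPT1 : S_OPT1) (hOPT2 : S_OPT2) (hOPT3 : S_OPT3) :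
    S_R2TOP := by
  obtain ⟨C₀, hC⟩ := hR2S
  obtain ⟨K, hK⟩ : ∃ K, K = 48 * (C₀ + 1) := ⟨_, rfl⟩
  obtain ⟨A, hA⟩ : ∃ A, A = 7 + 6 * K := ⟨_, rfl⟩
  obtain ⟨B, hB⟩ : ∃ B, B = 2 * (C₀ + 1) * A := ⟨_, rfl⟩
  have A1 : 1 ≤ A := by omega
  have B0 : (0 : ℝ) < B := by
    rw [hB]
    have : 0 < 2 * (C₀ + 1) * A := by positivity
    exact_mod_cast this
  refine ⟨1 / (2 * B), by positivity, 1, fun V J Sg _ _ m h3 S₀ M₀ h0 h1 h2 => ?_⟩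
  have s0 : m.State S₀ K ∅ M₀ ∅ :=
    ⟨by simp, by simp, fun j hj v c => ⟨h1 j hj v c, by simp⟩, fun v hv _ => h2 v hv, by simp,
      by simp, by simp, by simp⟩
  haveI : Nonempty {Z : Set V // ∃ M Φ, m.State S₀ K Z M Φ} := ⟨⟨∅, M₀, ∅, s0⟩⟩
  obtain ⟨⟨Z, M, Φ, s⟩, mx⟩ :=
    Finite.exists_max fun x : {Z : Set V // ∃ M Φ, m.State S₀ K Z M Φ} => x.1.ncard
  obtain ⟨S, p, jm, R, ok, blk, hS⟩ := hOPT3 V J Sg m h3.1 h3.2.1 S₀ K Z M Φ h0 s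
  have ng : ¬ (Cb.mk V J Sg m S p jm R).Good := fun g => by
    obtain ⟨Z', M', Φ', s', lt⟩ := hOPT2 _ ok S₀ K Z M Φ s blk g
    exact absurd (mx ⟨Z', M', Φ', s'⟩) (not_le.2 lt)
  have n1 : Nat.card V ≤ C₀ * S.ncard := hC _ ok h3 ng
  have n2 := hDEG V J Sg m h3.1 h3.2.1 K
  obtain ⟨M', F, sh, cv, n3⟩ := hOPT1 V J Sg m h3.1 S₀ K Z M Φ h0 s
  refine ⟨M', F, sh, cv, ?_⟩
  rw [← hA] at hS
  rw [← Nat.card_eq_fintype_card]
  generalize Nat.card V = N at *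
  generalize {v | K < m.deg v}.ncard = hi at *
  generalize S₀.ncard = a at *
  generalize Z.ncard = z at *
  generalize S.ncard = t at *
  have n4 : N ≤ B * (a + z) := by
    have e1 : C₀ * t ≤ C₀ * (a + A * z + 2 * hi) := Nat.mul_le_mul_left _ hS
    have e2 : 4 * (C₀ * hi) ≤ N := by rw [hK] at n2; nlinarith
    have e3 : a ≤ A * a := Nat.le_mul_of_pos_left _ A1
    have e4 : C₀ * a ≤ C₀ * (A * a) := Nat.mul_le_mul_left _ e3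
    rw [hB]
    nlinarith [Nat.zero_le (A * a), Nat.zero_le (A * z)]
  have n5 : 1 / (2 * (B : ℝ)) * N ≤ (a + z) / 2 := by
    have : (N : ℝ) ≤ B * (a + z) := by exact_mod_cast n4
    rw [div_mul_eq_mul_div, div_le_iff₀ (by positivity)]
    nlinarith
  have n6 : 2 * ((M'.card : ℝ) + F.card) + z ≤ N + a := by exact_mod_cast n3
  nlinarith

end Pool.Agent.P.MP_5f84aa_co.G
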