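import Pool.Agent.P.MP_5f84aa_co.G.RIf

/-! Part R2: a good move improves a state. -/

namespace Pool.Agent.P.MP_5f84aa_co.G

theorem t_OPT2 : S_OPT2 := by
  intro D h S₀ K Z M Φ st b g
  have := h.fV
  have := h.fJ
  have mo := h.mo
  obtain ⟨x, y, N, H, xy, ux, uy, ⟨N1, N2⟩, hH, hA, hN, hR⟩ := g
  have xZ : x ∉ Z := fun e => ux (b.zs e)
  have yZ : y ∉ Z := fun e => uy (b.zs e)
  have nS : ∀ v, v ∈ D.S → ¬ (v = x ∨ v = y) := by
    rintro v hv (rfl | rfl)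
    exacts [ux hv, uy hv]
  -- the hugging light
  obtain ⟨T, TN, Tc, TH, Tb⟩ : ∃ T : Set D.J, T ⊆ N ∧ T.ncard ≤ 1 ∧
      (∀ u ∈ H, ∃ k ∈ T, D.m.hug k u) ∧
      ∀ k ∈ T, ∀ j', D.m.far k j' → ¬ (D.m.X j' = x ∨ D.m.X j' = y) := by
    rcases hH with rfl | ⟨k, kN, rfl, hk⟩
    · exact ⟨∅, Set.empty_subset _, by simp, by simp, by simp⟩
    · refine ⟨{k}, by simpa using kN, by simp, fun u hu => ⟨k, rfl, hu⟩, ?_⟩
      rintro _ rfl j' r (e | e)
      exacts [(hk j' r).1 e, (hk j' r).2 e]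
  -- the matching before the flips
  have c1 : ∀ j ∈ D.R ∪ N, ∀ v, D.m.cor j v → v ∉ S₀ ∧ v ∉ insert x (insert y Z) := by
    rintro j (hj | hj) v c
    · obtain ⟨a1, a2⟩ := st.Mc j (b.rm hj) v c
      refine ⟨a1, ?_⟩
      rintro (e | e | e)
      exacts [nS v (h.RS j hj v c) (.inl e), nS v (h.RS j hj v c) (.inr e), a2 e]
    · obtain ⟨a1, a2, a3⟩ := N1 j hj v c
      refine ⟨fun e => a1 (b.s0 e), ?_⟩
      rintro (e | e | e)
      exacts [a2 e, a3 e, a1 (b.zs e)]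
  have u1 : ∀ v, v ∉ S₀ → v ∉ insert x (insert y Z) → ∃! j, j ∈ D.R ∪ N ∧ D.m.cor j v := by
    intro v v0 vZ
    have vx : v ≠ x := fun e => vZ (.inl e)
    have vy : v ≠ y := fun e => vZ (.inr (.inl e))
    have vz : v ∉ Z := fun e => vZ (.inr (.inr e))
    by_cases vS : v ∈ D.S
    · obtain ⟨j, jR, c⟩ := b.rs v vS v0 vz
      refine ⟨j, ⟨.inl jR, c⟩, ?_⟩
      rintro k ⟨hk | hk, ck⟩
      · exact (st.Mu v v0 vz).unique ⟨b.rm hk, ck⟩ ⟨b.rm jR, c⟩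
      · exact absurd vS (N1 k hk v ck).1
    · obtain ⟨j, ⟨jN, c⟩, un⟩ := N2 v vS vx vy
      refine ⟨j, ⟨.inr jN, c⟩, ?_⟩
      rintro k ⟨hk | hk, ck⟩
      · exact absurd (h.RS k hk v ck) vS
      · exact un k ⟨hk, ck⟩
  -- no cell of a new junction touches `Z`
  have nz : ∀ j ∈ N, ∀ k, D.m.cor k (D.m.L j) → D.m.X k ∉ Z := by
    intro j hj k c e
    have a : D.m.Adj (D.m.X k) (D.m.L j) := by
      refine ⟨?_, k, .inr (.inr rfl), c.has⟩
      rcases c with c | c <;> rw [c]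
      exacts [(mo.neLX k).symm, (mo.neRX k).symm]
    exact (N1 j hj _ (.inl rfl)).1 (b.nz _ e _ a)
  have hc : (insert x (insert y Z)).ncard = Z.ncard + 2 := by
    rw [Set.ncard_insert_of_notMem (by simp [xy, xZ]), Set.ncard_insert_of_notMem yZ]
  have hT : ∀ u ∈ H, ∃ k ∈ Φ ∪ T, D.m.hug k u := fun u hu =>
    (TH u hu).imp fun k hk => ⟨.inr hk.1, hk.2⟩
  refine ⟨insert x (insert y Z), {k | (k ∈ D.R ∪ N ∧ ¬ ∃ j', D.m.far k j' ∧
      (D.m.X j' = x ∨ D.m.X j' = y) ∧ D.m.bar j' ∉ H) ∨ ∃ j ∈ D.R ∪ N, D.m.far j k ∧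
      (D.m.X k = x ∨ D.m.X k = y) ∧ D.m.bar k ∉ H}, Φ ∪ T, ⟨?_, ?_, ?_, ?_, ?_, ?_, ?_, ?_⟩, by omega⟩
  · rintro z (rfl | rfl | e)
    exacts [fun e => ux (b.s0 e), fun e => uy (b.s0 e), st.ZS z e]
  · rintro z (rfl | rfl | e)
    exacts [b.hi _ ux, b.hi _ uy, st.dg z e]
  · rintro k (⟨hk, -⟩ | ⟨j, hj, r, -⟩) v c
    exacts [c1 k hk v c, c1 j hj v ((r.2.2.2 v).2 c)]
  · intro v v0 vZ
    obtain ⟨j, ⟨hj, c⟩, un⟩ := u1 v v0 vZ
    by_cases bad : ∃ j', D.m.far j j' ∧ (D.m.X j' = x ∨ D.m.X j' = y) ∧ D.m.bar j' ∉ H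
    · obtain ⟨j', r, e⟩ := bad
      refine ⟨j', ⟨.inr ⟨j, hj, r, e⟩, (r.2.2.2 v).1 c⟩, ?_⟩
      rintro k ⟨⟨hk, nb⟩ | ⟨i, hi, ri, -⟩, ck⟩
      · obtain rfl := un k ⟨hk, ck⟩
        exact absurd ⟨j', r, e⟩ nb
      · obtain rfl := un i ⟨hi, (ri.2.2.2 v).2 ck⟩
        exact mo.far_unique r ri
    · refine ⟨j, ⟨.inl ⟨hj, bad⟩, c⟩, ?_⟩
      rintro k ⟨⟨hk, -⟩ | ⟨i, hi, ri, e⟩, ck⟩
      · exact un k ⟨hk, ck⟩
      · obtain rfl := un i ⟨hi, (ri.2.2.2 v).2 ck⟩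
        exact absurd ⟨k, ri, e⟩ bad
  · rintro k (hk | hk)
    · refine .inl ⟨.inl (b.fr hk), ?_⟩
      rintro ⟨j', r, e, -⟩
      exact nS _ (b.fx k (st.ΦM hk) j' r (.inl hk)) e
    · refine .inl ⟨.inr (TN hk), ?_⟩
      rintro ⟨j', r, e, -⟩
      exact Tb k hk j' r e
  · have := Set.ncard_union_le Φ T
    have := st.Φc
    omega
  · intro a ha c hc' ac
    rcases ha with rfl | rfl | ha
    · rcases hc' with rfl | rfl | hc'
      · exact absurd rfl ac.1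
      · exact hT _ (hA ac)
      · exact absurd (b.nz _ hc' _ ac.symm) ux
    · rcases hc' with rfl | rfl | hc'
      · rw [mo.ln_symm]
        exact hT _ (hA ac.symm)
      · exact absurd rfl ac.1
      · exact absurd (b.nz _ hc' _ ac.symm) uy
    · rcases hc' with rfl | rfl | hc'
      · exact absurd (b.nz _ ha _ ac) ux
      · exact absurd (b.nz _ ha _ ac) uy
      · exact (st.V1 a ha c hc' ac).imp fun k hk => ⟨.inl hk.1, hk.2⟩
  · rintro k (⟨hk, nb⟩ | ⟨j, hj, r, e, nH⟩) k' r' hX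
    · have H1 : D.m.X k' = x ∨ D.m.X k' = y → ∃ i ∈ Φ ∪ T, D.m.hug i (D.m.bar k') := fun e =>
        hT _ (by_contra fun n => nb ⟨k', r', e, n⟩)
      rcases hX with e | e | e
      · exact H1 (.inl e)
      · exact H1 (.inr e)
      · rcases hk with hk | hk
        · exact (st.V2 k (b.rm hk) k' r' e).imp fun i hi => ⟨.inl hi.1, hi.2⟩
        · exact absurd e (nz k hk k' ((r'.2.2.2 _).1 (.inl rfl)))
    · obtain rfl : k' = j := mo.far_unique r.symm r'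
      have H1 : D.m.X k' = x ∨ D.m.X k' = y → ∃ i ∈ Φ ∪ T, D.m.hug i (D.m.bar k') := by
        intro e'
        have ne := mo.far_X r
        have es : s(D.m.X k', D.m.X k) = s(x, y) := by
          rcases e with e | e <;> rcases e' with e' | e'
          · exact absurd (e'.trans e.symm) ne
          · rw [e, e', Sym2.eq_swap]
          · rw [e, e']
          · exact absurd (e'.trans e.symm) ne
        rcases hj with hj | hj
        · exact absurd es (hR k' hj k r)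
        · exact hT _ ((hN k' hj k r es).resolve_right nH)
      rcases hX with e' | e' | e'
      · exact H1 (.inl e')
      · exact H1 (.inr e')
      · rcases hj with hj | hj
        · exact absurd e (nS _ (b.fx k' (b.rm hj) k r (.inr e')))
        · exact absurd e' (nz k' hj k' (.inl rfl))

end Pool.Agent.P.MP_5f84aa_co.G
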