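import Pool.Agent.P.MP_5f84aa_co.G.RIf

/-! The hubs that block a state of the second optimisation. -/

namespace Pool.Agent.P.MP_5f84aa_co.G

namespace RTOPT3

/-- a union of small sets is small -/
theorem card_un {α β : Type} [Finite α] (T : Set α) (f : α → Set β) (k : ℕ)
    (h : ∀ a ∈ T, (f a).ncard ≤ k) : (⋃ a ∈ T, f a).ncard ≤ k * T.ncard := by
  classical
  have hT := T.toFinite
  lift T to Finset α using hT
  refine (T.set_ncard_biUnion_le f).trans ?_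
  rw [Set.ncard_coe_finset, mul_comm]
  simpa using Finset.sum_le_card_nsmul T (fun a => (f a).ncard) k h

end RTOPT3

open RTOPT3 in
theorem t_OPT3 : S_OPT3 := by
  intro V J Sg fV fJ m h hc S₀ K Z M Φ h0 st
  have ex : ∀ v, ∃ j y, v ∉ S₀ → v ∉ Z → j ∈ M ∧ m.GE j v y := fun v => by
    by_cases a : v ∉ S₀ ∧ v ∉ Z
    · obtain ⟨j, ⟨j1, j2⟩, -⟩ := st.Mu v a.1 a.2
      obtain ⟨y, hy⟩ := j2.ge
      exact ⟨j, y, fun _ _ => ⟨j1, hy⟩⟩
    · exact ⟨m.inf, v, fun b c => absurd ⟨b, c⟩ a⟩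
  choose jm p hp using ex
  have uq : ∀ j ∈ M, ∀ v, m.cor j v → jm v = j := fun j hj v c => by
    obtain ⟨a, b⟩ := st.Mc j hj v c
    exact (st.Mu v a b).unique ⟨(hp v a b).1, (hp v a b).2.fc.cor1⟩ ⟨hj, c⟩
  have po : ∀ v, v ∉ S₀ → v ∉ Z → p v ∉ S₀ ∧ p v ∉ Z := fun v a b =>
    st.Mc _ (hp v a b).1 _ (hp v a b).2.fc.cor2
  have jp : ∀ v, v ∉ S₀ → v ∉ Z → jm (p v) = jm v := fun v a b =>
    uq _ (hp v a b).1 _ (hp v a b).2.fc.cor2
  have pp : ∀ v, v ∉ S₀ → v ∉ Z → p (p v) = v := fun v a b => by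
    have g := (hp (p v) (po v a b).1 (po v a b).2).2
    rw [jp v a b] at g
    exact (g.fc.unique (hp v a b).2.symm.fc (h.fc_ne g.fc).1).1
  have Linj : Set.InjOn m.L M := fun j hj j' hj' e =>
    (uq j hj _ (.inl rfl)).symm.trans (uq j' hj' _ (.inl e))
  set A : Set V := ⋃ z ∈ Z, {w | m.Adj z w} with hA
  set Ψ : Set J := {j | j ∈ M ∧ m.X j ∈ Z} with hΨ
  set D : Set V := ⋃ j ∈ Φ ∪ Ψ, m.X '' {j' | m.far j j'} with hD
  set C : Set V := {v | K < m.deg v} with hC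
  set T : Set V := A ∪ m.L '' Φ ∪ C ∪ D with hT
  set S : Set V := S₀ ∪ Z ∪ T ∪ p '' (T \ (S₀ ∪ Z)) with hS
  have mA : ∀ z ∈ Z, ∀ w, m.Adj z w → w ∈ A := fun z hz w a => Set.mem_biUnion hz a
  have TS : T ⊆ S := fun v hv => .inl (.inr hv)
  have pS : ∀ v, v ∉ S₀ → v ∉ Z → v ∈ S → p v ∈ S := by
    rintro v a b (((c | c) | c) | ⟨t, ⟨t1, t2⟩, rfl⟩)
    exacts [absurd c a, absurd c b, .inr ⟨v, ⟨c, fun e => e.elim a b⟩, rfl⟩,
      (pp t (fun e => t2 (.inl e)) fun e => t2 (.inr e)).symm ▸ TS t1]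
  have cs : ∀ j ∈ M, ∀ u v, m.cor j u → m.cor j v → u ∈ S → v ∈ S := fun j hj u v cu cv hu => by
    obtain ⟨a, b⟩ := st.Mc j hj u cu
    have g := (hp u a b).2
    rw [uq j hj u cu] at g
    rcases g.fc.cor_iff.1 cv with rfl | rfl
    exacts [hu, pS u a b hu]
  have u0 : ∀ v, v ∉ S → v ∉ S₀ := fun v a b => a (.inl (.inl (.inl b)))
  have uZ : ∀ v, v ∉ S → v ∉ Z := fun v a b => a (.inl (.inl (.inr b)))
  refine ⟨S, p, jm, {j | j ∈ M ∧ m.L j ∈ S}, ⟨fV, fJ, h, hc, fun v a b => u0 v a (h0 v b),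
    fun v a b => a ?_, fun v a => pp v (u0 v a) (uZ v a), fun v a => jp v (u0 v a) (uZ v a),
    fun v a => (hp v (u0 v a) (uZ v a)).2, fun j hj v c => cs j hj.1 _ v (.inl rfl) c hj.2, ?_⟩,
    ⟨fun v a => .inl (.inl (.inl a)), fun v a => .inl (.inl (.inr a)),
      fun z hz w a => TS (.inl (.inl (.inl (mA z hz w a)))),
      fun v a => not_lt.1 fun b => a (TS (.inl (.inr b))),
      fun j hj => ⟨st.ΦM hj, TS (.inl (.inl (.inr ⟨j, hj, rfl⟩)))⟩, fun j hj => hj.1,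
      fun j hj j' r c => TS (.inr (Set.mem_biUnion (c.imp id fun e => ⟨hj, e⟩) ⟨j', r, rfl⟩)),
      fun v hv a b => ⟨jm v, ⟨(hp v a b).1,
        cs _ (hp v a b).1 v _ (hp v a b).2.fc.cor1 (.inl rfl) hv⟩, (hp v a b).2.fc.cor1⟩⟩, ?_⟩
  · obtain ⟨c, d⟩ := po v (u0 v a) (uZ v a)
    exact pp v (u0 v a) (uZ v a) ▸ pS _ c d b
  · exact Set.ncard_le_ncard_of_injOn m.L (fun j hj => hj.2) (Linj.mono fun j hj => hj.1)
  · have cA : A.ncard ≤ K * Z.ncard := card_un Z _ K st.dg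
    have cΨ : Ψ.ncard ≤ A.ncard := Set.ncard_le_ncard_of_injOn m.L
      (fun j hj => mA _ hj.2 _ (h.adj13 (Map.fc_self j)).symm) (Linj.mono fun j hj => hj.1)
    have cD : D.ncard ≤ 1 * (Φ ∪ Ψ).ncard := card_un _ _ 1 fun j _ =>
      (Set.ncard_image_le (Set.toFinite _)).trans
        ((Set.ncard_le_one (Set.toFinite _)).2 fun a ha b hb => h.far_unique hb ha)
    have c1 := Set.ncard_union_le Φ Ψ
    have c2 := Set.ncard_image_le (f := m.L) Φ.toFinite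
    have c3 := st.Φc
    have c4 := Set.ncard_union_le (A ∪ m.L '' Φ ∪ C) D
    have c5 := Set.ncard_union_le (A ∪ m.L '' Φ) C
    have c6 := Set.ncard_union_le A (m.L '' Φ)
    have c7 := Set.ncard_union_le (S₀ ∪ Z ∪ T) (p '' (T \ (S₀ ∪ Z)))
    have c8 := Set.ncard_union_le (S₀ ∪ Z) T
    have c9 := Set.ncard_union_le S₀ Z
    have c10 := (Set.ncard_image_le (f := p) (T \ (S₀ ∪ Z)).toFinite).trans
      (Set.ncard_le_ncard Set.sdiff_subset T.toFinite)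
    rw [← hT] at c4
    rw [← hS] at c7
    rw [add_mul, mul_assoc]
    omega

end Pool.Agent.P.MP_5f84aa_co.G
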