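import Pool.Agent.P.MP_5f84aa_co.G.RIf

/-! A side of a quadrilateral that contains a cell contains a closed set with three convex corners. -/

namespace Pool.Agent.P.MP_5f84aa_co.G

namespace RTQ4K

open Map

variable {V J Sg : Type} {m : Map V J Sg} {F : Set J} {a b c d : V}

/-- the piece `p` carries a convex corner of `K` -/
def Pc (m : Map V J Sg) (K : Set V) (p : Sym2 V) : Prop := ∃ o f, p = s(o, f) ∧ m.Cv K o f

theorem Pc.cv {K : Set V} {u v : V} (h : Pc m K s(u, v)) : m.Cv K u v := by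
  obtain ⟨o, f, e, c⟩ := h
  rcases Sym2.eq_iff.1 e with ⟨rfl, rfl⟩ | ⟨rfl, rfl⟩
  exacts [c, c.symm]

theorem three (h : m.Ok) {E : V → V → Prop} {Γ K : Set V} (s : m.Side E F) (c : m.Cl Γ K)
    (ne : K.Nonempty) (bd : ∀ v ∈ K, m.Bd v) (off : ∀ v ∈ K, (∀ w, ¬ E v w) ∧ m.sd F v)
    (hE : ∀ j ∈ F, ∀ o ∈ Γ, ∀ f ∈ Γ, o ≠ f → m.On j o f → E o f) :
    ∃ o1 f1 o2 f2 o3 f3, E o1 f1 ∧ E o2 f2 ∧ E o3 f3 ∧ Pc m K s(o1, f1) ∧ Pc m K s(o2, f2) ∧
      Pc m K s(o3, f3) ∧ s(o1, f1) ≠ s(o2, f2) ∧ s(o1, f1) ≠ s(o3, f3) ∧ s(o2, f2) ≠ s(o3, f3) := by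
  obtain ⟨j₁, j₂, j₃, a1, a2, a3, H⟩ := h.hole_cl c ne bd
  have H' : ∀ k, k = j₁ ∨ k = j₂ ∨ k = j₃ → k ∈ F ∧ ∃ o f, m.On k o f ∧ E o f ∧ Pc m K s(o, f) :=
    fun k hk => by
      obtain ⟨z, o, f, e, hz, ho, hf⟩ := H k hk
      have kF := (h.sd_iff s (off z hz).1 e.has1).1 (off z hz).2
      exact ⟨kF, o, f, ⟨e.has2, e.has3⟩, hE k kF o ho f hf (h.fc_ne e).2.2 ⟨e.has2, e.has3⟩,
        o, f, rfl, k, z, hz, .inl e⟩
  have key : ∀ k k', k ∈ F → k' ∈ F → ∀ o f u v, m.On k o f → E u v → s(o, f) = s(u, v) →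
      m.On k' u v → k = k' := fun k k' hk hk' o f u v fc e eq on => by
    refine h.side_one s e ?_ on (iff_of_true hk hk')
    rcases Sym2.eq_iff.1 eq with ⟨rfl, rfl⟩ | ⟨rfl, rfl⟩
    exacts [fc, fc.symm]
  obtain ⟨f1, o1, g1, c1, e1, p1⟩ := H' j₁ (by simp)
  obtain ⟨f2, o2, g2, c2, e2, p2⟩ := H' j₂ (by simp)
  obtain ⟨f3, o3, g3, c3, e3, p3⟩ := H' j₃ (by simp)
  exact ⟨o1, g1, o2, g2, o3, g3, e1, e2, e3, p1, p2, p3, fun q => a1 (key _ _ f1 f2 _ _ _ _ c1 e2 q c2),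
    fun q => a2 (key _ _ f1 f3 _ _ _ _ c1 e3 q c3), fun q => a3 (key _ _ f2 f3 _ _ _ _ c2 e3 q c3)⟩

theorem mem4 {u v : V} (e : E4 a b c d u v) : u ∈ ({a, b, c, d} : Set V) := by
  simp only [E4, Sym2.eq_iff, Set.mem_insert_iff, Set.mem_singleton_iff] at *; grind

theorem mem3 {u v : V} (e : E3 a b c u v) : u ∈ ({a, b, c} : Set V) := by
  simp only [E3, Sym2.eq_iff, Set.mem_insert_iff, Set.mem_singleton_iff] at *; grind

theorem adj (s : m.Side (E4 a b c d) F) :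
    m.Adj a b ∧ m.Adj b c ∧ m.Adj c d ∧ m.Adj d a := by
  have k : ∀ u v, E4 a b c d u v → m.Adj u v := fun u v e => by
    obtain ⟨n, j, -, o, -⟩ := (s u v).2 e
    exact o.adj n
  exact ⟨k _ _ (.inl rfl), k _ _ (.inr (.inl rfl)), k _ _ (.inr (.inr (.inl rfl))),
    k _ _ (.inr (.inr (.inr rfl)))⟩

theorem chord [Finite V] [Finite J] (h : m.Ok) (s : m.Side (E4 a b c d) F) (i : m.inf ∉ F)
    (ac : a ≠ c) (bd : b ≠ d) {j₀ : J} (jF : j₀ ∈ F) (jo : m.On j₀ a c) :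
    (∃ K, m.Q4 F K a b c d) ∨ ∀ v, v ∉ ({a, b, c, d} : Set V) → m.sd F v → ¬ m.Adj v b := by
  obtain ⟨ab, bc, cd, da⟩ := adj s
  have n1 := ab.1; have n2 := bc.1; have n3 := cd.1; have n4 := da.1
  have dof : ∀ w, ¬ E3 a b c d w := fun w e => by
    have := mem3 e
    simp only [Set.mem_insert_iff, Set.mem_singleton_iff] at this; grind
  obtain ⟨G, t, gd⟩ : ∃ G, m.Side (E3 a b c) G ∧ ¬ m.sd G d := by
    obtain ⟨G, t, -⟩ := h.side3 ab bc (jo.adj ac).symm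
    obtain ⟨-, k, k1, -⟩ := da
    by_cases e : m.sd G d
    · exact ⟨Gᶜ, t.compl, fun n => (h.sd_compl t dof k1).1 n e⟩
    · exact ⟨G, t, e⟩
  have o4 : ∀ v, v ∉ ({a, b, c, d} : Set V) → ∀ w, ¬ E4 a b c d v w := fun v hv w e => hv (mem4 e)
  have o3 : ∀ v, v ∉ ({a, b, c, d} : Set V) → ∀ w, ¬ E3 a b c v w := fun v hv w e => hv (by
    have := mem3 e
    simp only [Set.mem_insert_iff, Set.mem_singleton_iff] at this ⊢; tauto)
  obtain ⟨f, fF, _, -, -, fa, fb, -⟩ := h.side_face s (u := a) (v := b) (.inl rfl)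
  have fG : f ∈ G := by
    by_contra fG
    obtain ⟨-, k, k', on, on', kG, kG'⟩ := (t a c).2 (.inr (.inr Sym2.eq_swap))
    have nac : ¬ E4 a b c d a c := by simp only [E4, Sym2.eq_iff]; grind
    obtain ⟨w, wc, aw, l, l', q, q', ⟨lF, lG⟩, ln⟩ := h.lk2 (F := F ∩ G) (v := a) (w := c)
      ⟨ac, k, k', on, on', ⟨s.same nac ac jo on jF, kG⟩, fun n => kG' n.2⟩
    by_cases wb : w = b
    · subst wb
      exact fG (h.side_one s (.inl rfl) q ⟨fa, fb⟩ (iff_of_true lF fF) ▸ lG)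
    by_cases wd : w = d
    · subst wd
      exact gd ⟨l, lG, q.2⟩
    exact ln ⟨s.same (by simp only [E4, Sym2.eq_iff]; grind) aw q q' lF,
      t.same (by simp only [E3, Sym2.eq_iff]; grind) aw q q' lG⟩
  have lem : ∀ v, v ∉ ({a, b, c, d} : Set V) → m.sd F v → m.Adj v b → m.sd G v := by
    rintro v hv sv ⟨-, k, kv, kb⟩
    have kF := (h.sd_iff s (o4 v hv) kv).1 sv
    have : k ∈ {j | j ∈ F ↔ j ∈ G} := by
      refine h.lk0 (v := b) ?_ fb kb (iff_of_true fF fG)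
      rintro w ⟨bw, l, l', q, q', hl, hl'⟩
      have ll : l ≠ l' := fun e => hl' (e ▸ hl)
      have e1 := (h.spl_iff (F := F) bw q q' ll).symm.trans (s b w)
      have e2 := (h.spl_iff (F := G) bw q q' ll).symm.trans (t b w)
      have e3 : E4 a b c d b w ↔ E3 a b c b w := by simp only [E3, E4, Sym2.eq_iff]; grind
      simp only [Set.mem_ofPred_eq] at hl hl'
      tauto
    exact ⟨k, this.1 kF, kv⟩
  have c0 := h.cl_side (Γ := {a, b, c, d}) s fun u v e => mem4 e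
  by_cases ne : ∃ v, v ∉ ({a, b, c, d} : Set V) ∧ m.sd F v ∧ m.sd G v
  swap
  · exact .inr fun v hv sv e => ne ⟨v, hv, sv, lem v hv sv e⟩
  set K : Set V := {v | v ∉ ({a, b, c, d} : Set V) ∧ m.sd F v ∧ m.sd G v} with hK
  have c1 : m.Cl {a, b, c, d} K := ⟨fun x hx => hx.1, fun x hx y e hy =>
    ⟨hy, (c0.2 x ⟨hx.1, hx.2.1⟩ y e hy).2, (h.sd_adj t (o3 x hx.1) (o3 y hy) e).1 hx.2.2⟩⟩
  have nd : ∀ v ∈ K, ¬ m.Adj v d := fun v hv e => gd ((h.sd_adj t (o3 v hv.1) dof e).1 hv.2.2)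
  have bK : ∀ v ∈ K, m.Bd v := fun v hv => h.bd_side s i (o4 v hv.1) hv.2.1
  have c2 : m.Cl {a, b, c} K := ⟨fun x hx n => hx.1 (by
      simp only [Set.mem_insert_iff, Set.mem_singleton_iff] at n ⊢; tauto),
    fun x hx y e hy => c1.2 x hx y e fun n => by
      have : y ≠ d := fun q => nd x hx (q ▸ e)
      simp only [Set.mem_insert_iff, Set.mem_singleton_iff] at n hy; tauto⟩
  obtain ⟨o1, f1, o2, f2, o3', f3, e1, e2, e3, p1, p2, p3, d1, d2, d3⟩ := three h t c2 ne bK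
    (fun v hv => ⟨o3 v hv.1, hv.2.2⟩) fun _ _ o ho f hf n _ => by
      simp only [E3, Sym2.eq_iff, Set.mem_insert_iff, Set.mem_singleton_iff] at *; grind
  have : Pc m K s(a, b) ∧ Pc m K s(b, c) ∧ Pc m K s(c, a) := by
    simp only [E3] at e1 e2 e3
    generalize s(o1, f1) = x1 at *; generalize s(o2, f2) = x2 at *; generalize s(o3', f3) = x3 at *
    rcases e1 with rfl | rfl | rfl <;> rcases e2 with rfl | rfl | rfl <;>
      rcases e3 with rfl | rfl | rfl <;> first | contradiction | exact ⟨‹_›, ‹_›, ‹_›⟩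
  exact .inl ⟨K, s, c1, fun v hv => ⟨hv.2.1, bK v hv⟩,
    .inr (.inl ⟨nd, this.1.cv, this.2.1.cv, this.2.2.cv⟩)⟩

theorem rot (s : m.Side (E4 a b c d) F) : m.Side (E4 b c d a) F :=
  s.congr fun u v => by simp only [E4]; tauto

theorem chord2 [Finite V] [Finite J] (h : m.Ok) (s : m.Side (E4 a b c d) F) (i : m.inf ∉ F)
    (ac : a ≠ c) (bd : b ≠ d) {j₀ : J} (jF : j₀ ∈ F) (jo : m.On j₀ a c) {u : V}
    (hu : u ∉ ({a, b, c, d} : Set V)) (su : m.sd F u) : ∃ K, m.Q4 F K a b c d := by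
  rcases chord h s i ac bd jF jo with q | nb
  · exact q
  rcases chord h (rot (rot s)) i ac.symm bd.symm jF jo.symm with ⟨K, q⟩ | nd
  · exact ⟨K, q.rot.rot⟩
  have c0 := h.cl_side (Γ := {a, b, c, d}) s fun u v e => mem4 e
  have c1 : m.Cl {a, c} {v | v ∉ ({a, b, c, d} : Set V) ∧ m.sd F v} := ⟨fun x hx n => hx.1 (by
      simp only [Set.mem_insert_iff, Set.mem_singleton_iff] at n ⊢; tauto),
    fun x hx y e hy => c0.2 x hx y e fun n => by
      have : y ≠ b := fun q => nb x hx.1 hx.2 (q ▸ e)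
      have : y ≠ d := fun q => nd x (fun n => hx.1 (by
        simp only [Set.mem_insert_iff, Set.mem_singleton_iff] at n ⊢; tauto)) hx.2 (q ▸ e)
      simp only [Set.mem_insert_iff, Set.mem_singleton_iff] at n hy; tauto⟩
  obtain ⟨j₁, j₂, j₃, a1, a2, a3, H⟩ := h.hole_cl c1 ⟨u, hu, su⟩
    fun v hv => h.bd_side s i (fun w e => hv.1 (mem4 e)) hv.2
  have H' : ∀ k, k = j₁ ∨ k = j₂ ∨ k = j₃ → m.On k a c := fun k hk => by
    obtain ⟨z, o, f, e, -, ho, hf⟩ := H k hk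
    have := (h.fc_ne e).2.2
    rcases ho with rfl | rfl <;> rcases hf with rfl | rfl
    exacts [absurd rfl this, ⟨e.has2, e.has3⟩, ⟨e.has3, e.has2⟩, absurd rfl this]
  rcases h.two_faces ac (H' j₁ (by simp)) (H' j₂ (by simp)) (H' j₃ (by simp)) a1 with e | e
  exacts [absurd e.symm a2, absurd e.symm a3]

end RTQ4K

open RTQ4K Map in
theorem t_Q4K : S_Q4K := by
  intro V J Sg _ _ m h F a b c d u s i ac bd hu su
  by_cases n : ∀ j ∈ F, ¬ m.On j a c ∧ ¬ m.On j b d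
  · have c0 := h.cl_side (Γ := {a, b, c, d}) s fun u v e => mem4 e
    have bK : ∀ v ∈ {v | v ∉ ({a, b, c, d} : Set V) ∧ m.sd F v}, m.Bd v :=
      fun v hv => h.bd_side s i (fun w e => hv.1 (mem4 e)) hv.2
    obtain ⟨o1, f1, o2, f2, o3, f3, e1, e2, e3, p1, p2, p3, d1, d2, d3⟩ := three h s c0 ⟨u, hu, su⟩ bK
      (fun v hv => ⟨fun w e => hv.1 (mem4 e), hv.2⟩) fun j hj o ho f hf q on => by
        have n1 := (n j hj).1
        have n2 := (n j hj).2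
        have on' := on.symm
        simp only [E4, Sym2.eq_iff, Set.mem_insert_iff, Set.mem_singleton_iff] at ho hf ⊢
        grind
    refine ⟨_, s, c0, fun v hv => ⟨hv.2, bK v hv⟩, .inl ⟨n, ?_⟩⟩
    generalize {v | v ∉ ({a, b, c, d} : Set V) ∧ m.sd F v} = K at *
    have : (Pc m K s(a, b) ∧ Pc m K s(b, c) ∧ Pc m K s(c, d)) ∨ (Pc m K s(b, c) ∧ Pc m K s(c, d) ∧ Pc m K s(d, a)) ∨
        (Pc m K s(c, d) ∧ Pc m K s(d, a) ∧ Pc m K s(a, b)) ∨ Pc m K s(d, a) ∧ Pc m K s(a, b) ∧ Pc m K s(b, c) := by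
      simp only [E4] at e1 e2 e3
      generalize s(o1, f1) = x1 at *; generalize s(o2, f2) = x2 at *; generalize s(o3, f3) = x3 at *
      rcases e1 with rfl | rfl | rfl | rfl <;> rcases e2 with rfl | rfl | rfl | rfl <;>
        rcases e3 with rfl | rfl | rfl | rfl <;> first | contradiction | tauto
    exact this.imp (fun t => ⟨t.1.cv, t.2.1.cv, t.2.2.cv⟩) (Or.imp (fun t => ⟨t.1.cv, t.2.1.cv, t.2.2.cv⟩)
      (Or.imp (fun t => ⟨t.1.cv, t.2.1.cv, t.2.2.cv⟩) fun t => ⟨t.1.cv, t.2.1.cv, t.2.2.cv⟩))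
  · push Not at n
    obtain ⟨j, jF, n⟩ := n
    by_cases e : m.On j a c
    · exact chord2 h s i ac bd jF e hu su
    · obtain ⟨K, q⟩ := chord2 h (rot s) i bd ac.symm jF (n e) (u := u) (fun q => hu (by
        simp only [Set.mem_insert_iff, Set.mem_singleton_iff] at q ⊢; tauto)) su
      exact ⟨K, q.rot.rot.rot⟩

end Pool.Agent.P.MP_5f84aa_co.G
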