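import Pool.Agent.P.MP_5f84aa_co.G.RIf

/-! Part R2: the rung gadget. -/

namespace Pool.Agent.P.MP_5f84aa_co.G

namespace RTRG

/-- orientation of a cycle through the merged object of `a` -/
theorem orient (hHS : S_HS) {D : Cf} (h : D.Ok) {E : D.W → D.W → Prop} {F : Set D.I} {Γ : Set D.V}
    {a x y : D.V} (s : D.Th E F Γ a x y) : ∃ F', D.Th E F' Γ a x y ∧
      ∀ r, D.n.has r (D.π a) → (r ∈ F' ↔ D.m.has (D.ι r) a) := by
  obtain ⟨d, rfl | rfl, hd⟩ := hHS D h E F Γ a x y s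
  · exact ⟨F, s, hd⟩
  · refine ⟨Fᶜ, h.th_compl s, fun r hr => ?_⟩
    have ua := s.2.1.1
    have ma := h.toOk.fl_mg s.2.1
    rw [Set.mem_compl_iff, hd r hr]
    refine ⟨fun n => ?_, fun b => h.not_both ua ma b⟩
    obtain ⟨v, hv, e⟩ := h.has_iff.1 hr
    rcases h.pi_ob ua e with rfl | rfl
    exacts [hv, absurd hv n]

theorem e3_1 {W : Type} {a b c w : W} (ab : a ≠ b) (ac : a ≠ c) : E3 a b c a w ↔ w = b ∨ w = c := by
  simp only [E3, Sym2.eq_iff]; grind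

theorem e3_2 {W : Type} {a b c w : W} (ab : a ≠ b) (bc : b ≠ c) : E3 a b c b w ↔ w = a ∨ w = c := by
  simp only [E3, Sym2.eq_iff]; grind

theorem e3_mem {W : Type} {a b c u v : W} (e : E3 a b c u v) : u = a ∨ u = b ∨ u = c := by
  simp only [E3, Sym2.eq_iff] at e; grind

end RTRG

open RTRG

theorem t_RG (hHALF : S_HALF) (hHS : S_HS) (hCM : S_CM) : S_RG := by
  intro D h c a y e f q q' fc fa ue qq fq fq' lt lu far2
  have := h.fV; have := h.fJ; have := h.fW; have := h.fI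
  have uc := fc.1
  have ua := fa.1
  have mc := h.toOk.fl_mg fc
  have ma := h.toOk.fl_mg fa
  have uc' := h.pU c uc
  have ue' := h.pU e ue
  have bc := h.bd c uc
  have rq : D.m.far q q' := h.mo.far_of_fc bc qq fq fq'
  obtain ⟨-, lq, -, -⟩ := h.mo.lines fq rq.2.1
  obtain ⟨-, lq', le', -⟩ := h.mo.lines fq' rq.2.2.1
  have tv : D.m.ln c a ≠ D.m.ln c (D.p e) := by
    rw [← lt, lq, lq']; exact h.mo.far_bar rq
  have ac : a ∉ D.ob c := h.toOk.fl_not fc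
  have ea' : D.p e ∉ D.ob a := h.toOk.fl_not fa.symm
  have ec' : D.p e ∉ D.ob c :=
    h.toOk.ob_p uc ▸ h.toOk.fl_mg_not fa uc' ((h.toOk.mg_congr uc (Cb.p_ob c)).2 mc)
  have ya : y ∉ D.ob a := h.toOk.fl_mg_not fc ua ma
  have me : ¬ D.Mg e := fun m => by
    rcases fq'.cor_iff.1 (h.toOk.merged ue m ⟨fq'.has2, fq'.has3⟩).fc.cor2 with n | n
    exacts [ec' (.inl n), h.toOk.p_ne ue n]
  have me' : ¬ D.Mg (D.p e) := mt (h.toOk.mg_congr ue (Cb.p_ob e)).1 me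
  have ea : e ∉ D.ob a := fun n => ea' (h.toOk.p_mem_ob ua n)
  have ec : e ∉ D.ob c := fun n => ec' (h.toOk.p_mem_ob uc n)
  have aca : D.m.Adj c a := h.toOk.fl_adj fc (Cb.self_ob c)
  have aca' : D.m.Adj (D.p c) a := h.toOk.fl_adj fc (Cb.p_ob c)
  have ut : D.m.ln a c ≠ D.m.ln a (D.p e) := by
    rw [h.toOk.mg_one uc mc aca.symm aca'.symm]; exact h.toOk.fl_ln fa
  obtain ⟨nca, lca⟩ := h.fl_ln_push fc
  obtain ⟨nae, lae⟩ := h.fl_ln_push fa.symm
  obtain ⟨-, lcy⟩ := h.fl_ln_push fc.symm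
  have nce : D.π c ≠ D.π (D.p e) := (h.pi_ne uc ec').symm
  have ace := h.mo.adj13 fq'
  have aae := h.toOk.fl_adj fa.symm (Cb.self_ob a)
  have lce := h.ln_push ace nce
  have lac := h.ln_push aca.symm nca.symm
  set Γ : Set D.V := D.ob a ∪ D.ob c ∪ {D.p e} with hΓ
  have sat : D.Sat Γ := by
    rintro x ((hx | hx) | rfl)
    · exact ⟨h.toOk.ob_U ua hx, fun _ => .inl (.inl (h.toOk.p_mem_ob ua hx))⟩
    · exact ⟨h.toOk.ob_U uc hx, fun _ => .inl (.inr (h.toOk.p_mem_ob uc hx))⟩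
    · exact ⟨ue', fun m => absurd m me'⟩
  obtain ⟨F₀, s₀, -⟩ := h.no.side3 (h.adj_push aca.symm nca.symm) (h.adj_push ace nce)
    (h.adj_push aae.symm nae.symm)
  have th₀ : D.Th (E3 (D.π a) (D.π c) (D.π (D.p e))) F₀ Γ a (D.p c) (D.p e) := by
    refine ⟨⟨sat, s₀, fun u v n => ?_⟩, fa, fun w => ?_⟩
    · rcases e3_mem n with rfl | rfl | rfl
      exacts [⟨a, .inl (.inl (Cb.self_ob a)), rfl⟩, ⟨c, .inl (.inr (Cb.self_ob c)), rfl⟩,
        ⟨_, .inr rfl, rfl⟩]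
    · rw [h.pi_p uc mc]; exact e3_1 nca.symm nae
  obtain ⟨F, th, hF⟩ := orient hHS h th₀
  have sF := th.1.2.1
  obtain ⟨-, jC, -, -, fC, -⟩ := id fc
  obtain ⟨-, jA, -, -, fA, -⟩ := id fa
  have noac : ∀ r, D.m.has (D.ι r) a → ¬ D.m.has (D.ι r) (D.p c) := fun r b1 b2 => by
    rcases h.mo.two_faces aca'.1.symm ⟨fC.has3, fC.has2⟩ ⟨fA.has1, fA.has3⟩ ⟨b1, b2⟩
      (fun n => aca'.1 (fA.X_eq.symm.trans (n ▸ fC.X_eq))) with n | n
    · exact h.not_both uc mc (n ▸ fC.has1) b2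
    · exact h.not_both ua ma b1 (n ▸ fA.has2)
  -- step 1
  have eK : e ∈ D.Ks F Γ := by
    obtain ⟨r0, r0a, o0⟩ := h.te aca.symm nca.symm
    have r0c : D.m.has (D.ι r0) c := by
      obtain ⟨v, hv, n⟩ := h.has_iff.1 o0.2
      rcases h.pi_ob uc n with rfl | rfl
      exacts [hv, absurd hv (noac r0 r0a)]
    have r0F := (hF r0 o0.1).2 r0a
    obtain ⟨r1, r10, o1, -⟩ := h.no.other o0 nca.symm
    have r1F : r1 ∉ F := fun n =>
      r10 (h.no.side_one sF ((e3_1 nca.symm nae).2 (.inl rfl)) o1 o0 (iff_of_true n r0F))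
    obtain ⟨k, ⟨kF, kc⟩, ck, hk⟩ := h.no.first_corner' (F := F ∩ D.hf c) (h.bd_pi uc)
      (x := D.π a) ⟨nca, r0, r1, o0.symm, o1.symm, ⟨r0F, r0c⟩, fun n => r1F n.1⟩ (by
        rintro w wa ⟨cw, i, i', o, o', ⟨iF, ic⟩, n⟩
        by_cases b : i' ∈ F
        · rcases (hHALF D h c a y fc w).1 ⟨cw, i, i', o, o', ic, fun m => n ⟨b, m⟩⟩ with rfl | rfl
          · exact absurd rfl wa
          · rw [lcy, lca]; exact (h.toOk.fl_ln fc).symm
        · rcases (e3_2 nca.symm nce).1 ((sF _ _).1 ⟨cw, i, i', o, o', iF, b⟩) with rfl | rfl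
          · exact absurd rfl wa
          · rw [lce, lca]; exact tv.symm)
    rw [lca, h.hug_iff] at hk
    have ck' : D.m.cor (D.ι k) c := by
      obtain ⟨v, hv, n⟩ := h.cor_iff.1 ck
      rcases h.pi_ob uc n with rfl | rfl
      exacts [hv, absurd hv.has (h.not_both uc mc kc)]
    have jq : jC ≠ q := fun n => ec (.inr ((n ▸ fC : D.m.Fc q c (D.p c) a).unique fq
      (h.toOk.p_ne uc).symm).1.symm)
    have eΓ : e ∉ Γ := by
      rintro ((n | n) | n)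
      exacts [ea n, ec n, h.toOk.p_ne ue n.symm]
    rcases h.mo.side2 bc fC.cor1 fq.cor1 ck'
      (.inr (h.mo.lines fC (bc.ne_inf fC.has1)).2.1.symm) (.inr (lq.symm.trans lt)) hk jq with n | n
    · exact absurd (n ▸ fC.has2) (h.not_both uc mc kc)
    · exact (h.Ks_iff th.1 eΓ (h.has_push (n ▸ fq.has2))).2 kF
  -- step 2
  obtain ⟨k, kF, ck, hk⟩ := h.no.first_corner (F := F) (x := D.π (D.p e)) (y := D.π c) (h.bd_pi ua)
    (fun w => (sF _ _).trans ((e3_1 nca.symm nae).trans or_comm)) (by rw [lae, lac]; exact ut.symm)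
  have ka := (hF k ck.has).1 kF
  obtain ⟨d, hd, -, z, g, za⟩ := h.cor_lift ua ck
  obtain rfl : d = a := hd.resolve_right fun n => h.not_both ua ma ka (n ▸ g.fc.has1)
  by_cases zc : z = c
  · exact .inr ⟨_, zc ▸ g⟩
  have zc' : z ∉ D.ob c := by
    rintro (n | n)
    exacts [zc n, noac k ka (n ▸ g.fc.has2)]
  have za' : z ∉ D.ob d := fun n => za ((h.pi_mg ua ma).2 n)
  have adz := h.mo.adj12 g
  have ze : z ≠ e := by
    rintro rfl
    have ki : D.ι k ≠ D.m.inf := (h.bd d ua).ne_inf ka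
    have l1 := (h.mo.lines g ki).1
    have l2 := h.mo.far_one rq fq.ge aca.symm adz
    have nee := h.pi_ne_p ue me
    have b : D.n.ln (D.π d) (D.π (D.p z)) = D.n.bar k := by
      rcases hk with n | n
      · rw [h.ct.stem, lae, ← l1, ← l2] at n
        exact absurd n ut
      · exact n.symm
    have := h.opp k _ _ _ (fun n => ki (h.inf_iff.2 n)) (h.push g).ge (h.adj_push aae nae) b
      (h.adj_push (h.toOk.adj_p ue) nee)
    rw [← b, lae, h.ln_push (h.toOk.adj_p ue) nee, le', ← lq'] at this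
    exact lu this.symm
  have fz : D.Far 1 z := far2.adj adz
  have uz := fz.U
  have zK : D.p z ∈ D.Ks F Γ := by
    by_cases n : z = D.p e
    · rw [n, h.pp e ue]; exact eK
    have zΓ : z ∉ Γ := by
      rintro ((m | m) | m)
      exacts [za' m, zc' m, n m]
    refine (h.cl_Ks th.1).2 z ((h.Ks_iff th.1 zΓ (h.has_push g.fc.has2)).2 kF) _ (h.toOk.adj_p uz) ?_
    rintro ((m | m) | m)
    · exact za' (h.pp z uz ▸ h.toOk.p_mem_ob ua m)
    · exact zc' (h.pp z uz ▸ h.toOk.p_mem_ob uc m)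
    · exact ze (h.toOk.p_inj uz ue m)
  rcases (hCM D h _ F Γ d _ _ k z th kF g uz zK (h.toOk.far_tn (h.toOk.far_p fz))).1 with
    G | ⟨b, (m | m) | m, nb, fb⟩
  · exact .inl G
  · exact absurd (.inl m) nb
  · rcases h.toOk.fl_unique (h.toOk.fl_congr fc m) fb with ⟨n, -⟩ | ⟨n, -⟩
    exacts [absurd n (h.toOk.p_ne ua), absurd (.inr n.symm) ya]
  · exact absurd (h.toOk.fl_mg fb) (m ▸ me')

end Pool.Agent.P.MP_5f84aa_co.G
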