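import Pool.Agent.P.MP_5f84aa_co.G.RIf

/-! Part R2: separating pairs and triples of objects. -/

namespace Pool.Agent.P.MP_5f84aa_co.G

namespace RTSEP

variable {D : Cb} {a u v : D.V} {Γ Γ' K : Set D.V}

theorem untouched (c : D.m.Cl Γ K) (s : Γ' ⊆ Γ) (t : ∀ y ∈ Γ, y ∉ Γ' → y ∈ D.ob a)
    (n : ∀ u ∈ K, ¬ D.Tch a u) : D.m.Cl Γ' K :=
  ⟨fun x hx e => c.1 x hx (s e), fun x hx y ad ny => by
    by_cases e : y ∈ Γ
    · exact absurd ⟨y, t y e ny, ad.symm⟩ (n x hx)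
    · exact c.2 x hx y ad e⟩

theorem split (p : D.m.Sep Γ u v) (s : Γ' ⊆ Γ) (t : ∀ y ∈ Γ, y ∉ Γ' → y ∈ D.ob a) :
    (∃ u v, D.Tch a u ∧ D.Tch a v ∧ D.m.Sep Γ u v) ∨
      ∃ K : Set D.V, K.Nonempty ∧ D.m.Cl Γ K ∧ D.m.Cl Γ' K := by
  obtain ⟨K, c, hu, hv, hv'⟩ := p
  by_cases e : ∀ u ∈ K, ¬ D.Tch a u
  · exact .inr ⟨K, ⟨u, hu⟩, c, untouched c s t e⟩
  by_cases e' : ∀ u ∈ (Γ ∪ K)ᶜ, ¬ D.Tch a u
  · exact .inr ⟨_, ⟨v, fun q => q.elim hv' hv⟩, c.compl, untouched c.compl s t e'⟩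
  push Not at e e'
  obtain ⟨x, hx, tx⟩ := e
  obtain ⟨y, hy, ty⟩ := e'
  exact .inl ⟨x, y, tx, ty, K, c, hx, fun q => hy (.inr q), fun q => hy (.inl q)⟩

end RTSEP

theorem t_MMD : S_MMD := by
  rintro D h a c ea ma ec mc ⟨u, v, K, cl, hu, hv, hv'⟩
  have := h.fW
  have := h.fI
  have wh : D.Wh (D.ob a ∪ D.ob c) := (h.toOk.wh_ob ea).union (h.toOk.wh_ob ec)
  have sat : ∀ x ∈ K, ∀ y, D.π x = D.π y → y ∈ K := by
    intro x hx y e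
    rcases h.pi_eq.1 e with rfl | ⟨e1, -, rfl⟩
    exacts [hx, h.toOk.cl_p wh cl e1 hx]
  have mem : ∀ y, D.π y ∈ ({D.π a, D.π c} : Set D.W) ↔ y ∈ D.ob a ∪ D.ob c := fun y => by
    rw [Set.mem_insert_iff, Set.mem_singleton_iff, h.pi_mg ea ma, h.pi_mg ec mc, Set.mem_union]
  have cn : D.n.Cl {D.π a, D.π c} (D.π '' K) := by
    constructor
    · rintro _ ⟨x, hx, rfl⟩ e
      exact cl.1 x hx ((mem x).1 e)
    · rintro _ ⟨x, hx, rfl⟩ β ad nb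
      obtain ⟨s, t, st, es, rfl⟩ := h.adj_lift ad
      exact ⟨t, cl.2 s (sat x hx s es.symm) t st fun q => nb ((mem t).2 q), rfl⟩
  have nv : D.π v ∉ ({D.π a, D.π c} : Set D.W) := fun q => hv' ((mem v).1 q)
  obtain ⟨x, hx, e⟩ := h.no.nc (h.bd_pi ea) (h.bd_pi ec) cn ⟨_, u, hu, rfl⟩
    (fun q => nv (.inl q)) fun q => nv (.inr q)
  exact hv (sat x hx v e)

theorem t_DR : S_DR := by
  rintro D h a b e ⟨u, v, p⟩
  rcases RTSEP.split (a := a) (Γ' := D.ob b) p Set.subset_union_right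
    (fun y hy n => hy.resolve_right n) with r | ⟨K, ne, c, c'⟩
  · exact r
  · exact absurd (.inl (Cb.self_ob a)) (c.1 a (h.nc_ob e.2.1 c' ne (h.df_disj e (Cb.self_ob a))))

theorem t_SR : S_SR := by
  intro D h z b c u v e o f p
  by_cases d : D.Dig z b
  · exact .inl (.inl ⟨b, e, o, d⟩)
  rcases RTSEP.split (a := z) (Γ' := D.ob b ∪ D.ob c) p
    (fun y hy => hy.elim (fun q => .inl (.inr q)) .inr)
    (fun y hy n => hy.elim (fun q => q.resolve_right fun r => n (.inl r)) fun q => absurd (.inr q) n)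
    with ⟨x, y, tx, ty, r⟩ | ⟨K, ⟨w, hw⟩, c1, c2⟩
  · exact .inl (.inr ⟨b, c, x, y, ⟨e, o, d, f⟩, tx, ty, r⟩)
  · refine .inr ⟨w, z, K, c2, hw, fun q => c1.1 z q (.inl (.inl (Cb.self_ob z))), ?_⟩
    rintro (q | q)
    · exact h.df_disj e (Cb.self_ob z) q
    · exact (h.fo_df f e.1).2.2 q

end Pool.Agent.P.MP_5f84aa_co.G
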