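import Pool.Agent.P.MP_5f84aa_co.G.RIf

/-! Part R2: a merged and a plain object far from the hubs. -/

namespace Pool.Agent.P.MP_5f84aa_co.G

namespace RTT3G

variable {D : Cf} {a b c x y : D.V}

theorem t3_congr (h : D.Ok) (e : D.Df c b) (m : D.Mg c) (t : D.T3 c b) (hx : x ∈ D.ob c)
    (hy : y ∈ D.ob b) : D.T3 x y := by
  obtain ⟨t1, t2, t3⟩ := t
  unfold Cf.T3
  rw [h.toOk.tch_congr e.1 hx, h.toOk.tch_congr e.1 hx, (h.pi_mg e.1 m).2 hx]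
  rcases hy with rfl | rfl
  · exact ⟨t1, t2, t3⟩
  · rw [h.pp b e.2.1]
    exact ⟨t2, t1, fun r s => t3 r ⟨s.1, s.2.2, s.2.1⟩⟩

/-- at most one face designates the piece -/
theorem one (hCY3 : S_CY3) (h : D.Ok) (e : D.Df c b) (m : D.Mg c) (n : ¬ D.Mg b) (t : D.T3 c b)
    {r r' : D.I} (g : D.n.GE r (D.π c) (D.π b)) (g' : D.n.GE r' (D.π c) (D.π b)) : r = r' := by
  have := h.fW
  have := h.fI
  obtain ⟨F, i, -, s, -⟩ := hCY3 D h c b e m n t.1 t.2.1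
  have key : ∀ k, D.n.GE k (D.π c) (D.π b) → k ∉ F := fun k f kF => by
    obtain ⟨z, -, -, -, o | o⟩ := h.no.q3k s i t.2.2 (.inl rfl) kF f.fc.on
    · exact (h.no.fc_ne f.fc).2.2 o.X_eq.symm
    · exact (h.no.fc_ne f.fc).2.1 o.X_eq.symm
  exact h.no.side_one s (.inl rfl) g.fc.on g'.fc.on (iff_of_false (key r g) (key r' g'))

theorem on_ob (h : D.Ok) (e : D.U b) (hy : y ∈ D.ob b) {r : D.I} {α : D.W}
    (t : D.n.Tri r α (D.π y) (D.π (D.p y))) : D.n.Tri r α (D.π b) (D.π (D.p b)) := by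
  rcases hy with rfl | rfl
  · exact t
  · rw [h.pp b e] at t
    exact ⟨t.1, t.2.2, t.2.1⟩

theorem step (hL3P : S_L3P) (hL3Q : S_L3Q) (hMV1 : S_MV1) (hBMP : S_BMP) (hMM : S_MM)
    (hT3G : S_T3G) (h : D.Ok) (e : D.Df a b) (m : D.Mg a) (n : ¬ D.Mg b) (g : D.GA a b)
    (f : D.Far 4 a) : D.Good ∨ ∃ c, D.Mg c ∧ c ∉ D.ob a ∧ D.OA a c ∧ D.Df c b ∧ D.GA c b ∧
      ∃ r, D.n.Tri r (D.π c) (D.π b) (D.π (D.p b)) ∧ D.n.cor r (D.π c) := by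
  have k := h.toOk
  have fb : D.Far 2 b := k.far_oa (f.mono (by omega)) e.2.1 (k.ga_oa g)
  have pl : D.T3 a b ∨ ∃ q, ∃ x ∈ D.ob a, ∃ y ∈ D.ob b, D.Pl q x y := by
    rcases hL3P D h a b e m n g with t | ⟨-, q, x, hx, y, hy, -, t, -⟩ | ⟨q, x, hx, y, hy, t, t'⟩
    · exact .inl t
    · exact .inr ⟨q, x, hx, y, hy, t⟩
    · exact .inr ⟨q, x, hx, y, hy, hL3Q D.toCb k q x y (k.df_congr e hx hy)
        ((k.mg_congr e.1 hx).2 m) t t'⟩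
  rcases pl with t | ⟨q, x, hx, y, hy, t⟩
  · exact .inl (hT3G D h a b e m n t g (f.mono (by omega)) fb)
  have e' := k.df_congr e hx hy
  have mx := (k.mg_congr e.1 hx).2 m
  have ny := mt (k.mg_congr e.2.1 hy).1 n
  have fx := k.far_ob f hx
  rcases hMV1 D.toCb k q x y e' t with s | ⟨s, -⟩ | ⟨c, nc, fl, -⟩
  · exact .inl s
  · exact absurd s (k.far_tn (k.far_p (fx.mono (by omega))))
  have oa : D.OA a c :=
    ⟨c, Cb.self_ob c, _, k.p_mem_ob e.1 hx, (k.fl_adj fl (Cb.self_ob c)).symm⟩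
  have fc : D.Far 2 c := k.far_oa (f.mono (by omega)) fl.1 oa
  have mc := k.fl_mg fl
  have cx : c ∉ D.ob x := fun s => nc (.inl s)
  have cy : c ∉ D.ob y := fun s => nc (.inr s)
  have ec : D.Df c y := k.df_symm ⟨e'.2.1, fl.1, cy⟩
  rcases hBMP D h x y c e' mx ny (h.mo.adj12 t.1.fc) cx fl (fx.mono (by omega)) fc with
    s | s | ⟨s, s'⟩ | ⟨r, s, s'⟩
  · exact .inl s
  · exact .inl (hMM D h x c ⟨e'.1, fl.1, cx⟩ mx mc s fx)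
  · exact .inl (hT3G D h c y ec mc ny s s' fc (k.far_ob fb hy))
  have uy := e'.2.1
  have n1 := h.pi_ne uy cy
  have n2 := h.pi_ne (k.pU y uy) (k.ob_p uy ▸ cy)
  refine .inr ⟨c, mc, k.ob_eq e.1 hx ▸ cx, oa,
    k.df_congr ec (Cb.self_ob c) (k.ob_symm e.2.1 hy), ?_, r, on_ob h e.2.1 hy s, s'⟩
  rcases h.no.tri_cases s n1 n2 (h.pi_ne_p uy ny) with o | o | o
  · obtain ⟨u, v, w, o, a1, a2, -⟩ := h.lift o
    exact ⟨_, u, h.pi_ob fl.1 a1, v, k.ob_trans e.2.1 hy (h.pi_ob uy a2), o.ge⟩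
  · exact ((o.cor_iff.1 s').elim n1 n2).elim
  · obtain ⟨u, v, w, o, a1, a2, -⟩ := h.lift o
    exact ⟨_, v, h.pi_ob fl.1 a2, u,
      k.ob_trans e.2.1 (k.p_mem_ob e.2.1 hy) (h.pi_ob (k.pU y uy) a1), o.symm.ge⟩

end RTT3G

open RTT3G

theorem t_T3G (hCY3 : S_CY3) (hT3H : S_T3H) : S_T3G := by
  intro D h c b e m n t ⟨q, x, hx, y, hy, g⟩ fc fb
  have k := h.toOk
  have := h.fV
  have := h.fJ
  have := h.fW
  have := h.fI
  by_contra ng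
  have A : ∀ q, ∀ x ∈ D.ob c, ∀ y ∈ D.ob b, D.m.GE q x y → ∀ j z, D.m.GE j (D.p x) z →
      z ∈ D.ob c ∪ D.ob b := fun q x hx y hy g j z g' => by
    by_contra nz
    have e' := k.df_congr e hx hy
    have mx := (k.mg_congr e.1 hx).2 m
    have ny := mt (k.mg_congr e.2.1 hy).1 n
    have t' := t3_congr h e m t hx hy
    obtain ⟨F, i, s⟩ := hCY3 D h x y e' mx ny t'.1 t'.2.1
    refine ng (hT3H D h F x y q e' mx ny t'.2.2 i s g ⟨j, z, ?_, g'⟩ (k.far_ob fc hx)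
      (k.far_ob fb hy))
    rwa [k.ob_eq e.1 hx, k.ob_eq e.2.1 hy]
  have B : ∀ y ∈ D.ob b, ∀ r r', ∀ u ∈ D.ob c, ∀ v ∈ D.ob c, D.m.GE (D.ι r) u y →
      D.m.GE (D.ι r') v y → r = r' := fun y hy r r' u hu v hv g g' =>
    one hCY3 h (k.df_congr e (Cb.self_ob c) hy) m (mt (k.mg_congr e.2.1 hy).1 n)
      (t3_congr h e m t (Cb.self_ob c) hy) ((h.pi_mg e.1 m).2 hu ▸ (h.push g.fc).ge)
      ((h.pi_mg e.1 m).2 hv ▸ (h.push g'.fc).ge)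
  have ux := k.ob_U e.1 hx
  have px := k.p_mem_ob e.1 hx
  have ne : ∀ u ∈ D.ob c, D.π u ≠ D.π y := fun u hu =>
    h.pi_ne (k.ob_U e.2.1 hy) (k.ob_eq e.2.1 hy ▸ k.df_disj e hu)
  obtain ⟨q', g'⟩ : ∃ q', D.m.GE q' (D.p x) (D.p y) := by
    obtain ⟨u, v, fl⟩ := k.mg_fl ux ((k.mg_congr e.1 hx).2 m)
    obtain ⟨j, j', r, f, f'⟩ := k.fl_far fl
    obtain ⟨i, i1, i2, ci⟩ := h.mo.corner_ne (h.bd _ (h.pU x ux)) j j'
    obtain ⟨z, gz⟩ := ci.ge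
    rcases A q x hx y hy g i z gz with s | s
    · obtain rfl := k.eq_p e.1 px s (h.mo.fc_ne gz.fc).1
      rw [h.pp x ux] at gz
      exact ((h.mo.two_faces (k.p_ne ux).symm f.on f'.on gz.fc.on.symm r.1).elim i1 i2).elim
    · by_cases zy : y = z
      · subst zy
        obtain ⟨r1, rfl⟩ := h.exJ_ge g (ne x hx)
        obtain ⟨r2, rfl⟩ := h.exJ_ge gz (ne _ px)
        obtain rfl := B y hy r1 r2 x hx _ px g gz
        exact absurd (g.symm.fc.unique gz.symm.fc (h.mo.fc_ne g.symm.fc).1).1.symm (k.p_ne ux)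
      · exact ⟨i, k.eq_p e.2.1 hy s zy ▸ gz⟩
  have C : ∀ r, D.n.cor r (D.π c) → ∃ u ∈ D.ob c,
      D.m.GE (D.ι r) u b ∨ D.m.GE (D.ι r) u (D.p b) := fun r s => by
    obtain ⟨d, hd, -, z, gz, nz⟩ := h.cor_lift e.1 s
    have hz : z ∈ D.ob c ∪ D.ob b := by
      by_cases dx : x = d
      · exact A q' _ px _ (k.p_mem_ob e.2.1 hy) g' _ z (by rwa [h.pp x ux, dx])
      · exact A q x hx y hy g _ z (k.eq_p e.1 hx hd dx ▸ gz)
    rcases hz with s | rfl | rfl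
    · exact absurd ((h.pi_mg e.1 m).2 s) nz
    · exact ⟨d, hd, .inl gz⟩
    · exact ⟨d, hd, .inr gz⟩
  obtain ⟨r1, r2, r3, n12, n13, n23, c1, c2, c3⟩ := h.no.corners3 (h.bd_pi e.1)
  have B1 := B b (Cb.self_ob b)
  have B2 := B _ (Cb.p_ob b)
  obtain ⟨u1, h1, g1 | g1⟩ := C r1 c1 <;> obtain ⟨u2, h2, g2 | g2⟩ := C r2 c2 <;>
    obtain ⟨u3, h3, g3 | g3⟩ := C r3 c3
  exacts [n12 (B1 _ _ _ h1 _ h2 g1 g2), n12 (B1 _ _ _ h1 _ h2 g1 g2), n13 (B1 _ _ _ h1 _ h3 g1 g3),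
    n23 (B2 _ _ _ h2 _ h3 g2 g3), n23 (B1 _ _ _ h2 _ h3 g2 g3), n13 (B2 _ _ _ h1 _ h3 g1 g3),
    n12 (B2 _ _ _ h1 _ h2 g1 g2), n12 (B2 _ _ _ h1 _ h2 g1 g2)]

theorem t_MP (hL3P : S_L3P) (hL3Q : S_L3Q) (hMV1 : S_MV1) (hBMP : S_BMP) (hMM : S_MM)
    (hT3G : S_T3G) : S_MP := by
  intro D h a b e m n g f
  have k := h.toOk
  rcases step hL3P hL3Q hMV1 hBMP hMM hT3G h e m n g (f.mono (by omega)) with
    s | ⟨c, mc, -, oa, ec, gc, r, t, cr⟩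
  · exact s
  rcases step hL3P hL3Q hMV1 hBMP hMM hT3G h ec mc n gc
    (k.far_oa (f.mono (by omega)) ec.1 oa) with s | ⟨d, -, dc, -, ed, -, r', t', cr'⟩
  · exact s
  have ub := e.2.1
  have ne : ∀ z, D.Df z b → D.π z ≠ D.π b ∧ D.π z ≠ D.π (D.p b) := fun z ez =>
    ⟨h.pi_ne ub (k.df_symm ez).2.2, h.pi_ne (k.pU b ub) (k.ob_p ub ▸ (k.df_symm ez).2.2)⟩
  have nb := h.pi_ne_p ub n
  have rr : r ≠ r' := fun q => by
    subst q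
    rcases (h.no.tri_has t (ne c ec).1 (ne c ec).2 nb).1 t'.1 with q | q | q
    exacts [h.pi_ne ec.1 dc q, (ne d ed).1 q, (ne d ed).2 q]
  obtain ⟨r0, e0⟩ := h.exJ_jm ub n
  have f0 := h.push (r := r0) (e0 ▸ (h.ge b ub).fc)
  rcases h.no.two_faces nb t.2 t'.2 f0.on rr with rfl | rfl
  · exact ((f0.cor_iff.1 cr).elim (ne c ec).1 (ne c ec).2).elim
  · exact ((f0.cor_iff.1 cr').elim (ne d ed).1 (ne d ed).2).elim

end Pool.Agent.P.MP_5f84aa_co.G
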