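import Pool.Agent.P.MP_5f84aa_co.G.RIf

/-! Part R2: the separating triangle of a merged and a plain object, main case. -/

namespace Pool.Agent.P.MP_5f84aa_co.G

namespace RTT3H

/-- a face that designates a piece of the triangle is not on the bounded side -/
theorem not_mem {V J Sg : Type} {m : Map V J Sg} (h : m.Ok) {F : Set J} {a b c u v : V} {j : J}
    (s : m.Side (E3 a b c) F) (i : m.inf ∉ F) (n : ∀ j, ¬ m.Tri j a b c) (e : E3 a b c u v)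
    (hu : u = a ∨ u = b ∨ u = c) (hv : v = a ∨ v = b ∨ v = c) (g : m.GE j u v) : j ∉ F := by
  intro jF
  have ne := (h.fc_ne g).1
  obtain ⟨z, za, zb, zc, f | f⟩ := h.q3k s i n e jF g.fc.on
  · rcases f.cor_iff.1 g.fc.cor2 with t | t
    · rcases hv with w | w | w <;> simp_all
    · exact ne t.symm
  · rcases f.cor_iff.1 g.fc.cor1 with t | t
    · rcases hu with w | w | w <;> simp_all
    · exact ne t

/-- at most one junction over a piece of the triangle -/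
theorem one {D : Cf} (h : D.Ok) {F : Set D.I} {α β γ : D.W} (s : D.n.Side (E3 α β γ) F)
    (i : D.n.inf ∉ F) (n : ∀ r, ¬ D.n.Tri r α β γ) {x x' y : D.V} {j j' : D.J}
    (e : E3 α β γ (D.π x) (D.π y)) (hu : D.π x = α ∨ D.π x = β ∨ D.π x = γ)
    (hv : D.π y = α ∨ D.π y = β ∨ D.π y = γ) (ne : D.π x ≠ D.π y) (xx : D.π x' = D.π x)
    (g : D.m.GE j x y) (g' : D.m.GE j' x' y) : j = j' := by
  obtain ⟨r, rfl⟩ := h.exJ_ge g ne
  obtain ⟨r', rfl⟩ := h.exJ_ge g' (xx ▸ ne)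
  have f := (h.push g.fc).ge
  have f' := (h.push g'.fc).ge
  rw [xx] at f'
  have a := not_mem h.no s i n e hu hv f
  have a' := not_mem h.no s i n e hu hv f'
  rw [h.no.side_one s e f.fc.on f'.fc.on ⟨fun t => (a t).elim, fun t => (a' t).elim⟩]

end RTT3H

open RTT3H in
theorem t_T3H (hTM2 : S_TM2) (hTM3 : S_TM3) : S_T3H := by
  intro D h F c b q df mc nb nt iF cy gq hgt fc fb
  have hb := h.toOk
  have uc : D.U c := df.1
  have ub : D.U b := df.2.1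
  have ub' : D.U (D.p b) := hb.pU b ub
  have uc' : D.U (D.p c) := hb.pU c uc
  have nb' : ¬ D.Mg (D.p b) := fun t => nb ((hb.mg_congr ub (D.p_ob b)).1 t)
  set Γ : Set D.V := D.ob c ∪ D.ob b with hΓ
  set K : Set D.V := D.Ks F Γ with hK
  have wh : D.Wh Γ := (hb.wh_ob uc).union (hb.wh_ob ub)
  have cl : D.m.Cl Γ K := h.cl_Ks cy
  have cΓ : c ∈ Γ := .inl (D.self_ob c)
  have c'Γ : D.p c ∈ Γ := .inl (D.p_ob c)
  have bΓ : b ∈ Γ := .inr (D.self_ob b)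
  have b'Γ : D.p b ∈ Γ := .inr (D.p_ob b)
  have s := cy.2.1
  have far2 : ∀ g ∈ Γ, D.Far 2 g := fun g hg =>
    hg.elim (fun t => hb.far_ob fc t) (fun t => hb.far_ob fb t)
  have d1 : ∀ {g e k}, g ∈ Γ → D.m.GE k g e → D.U e ∧ ¬ D.Tn (D.p e) := fun {g e k} hg ge =>
    have f : D.Far 1 e := (far2 g hg).adj (h.mo.adj12 ge.fc)
    ⟨f.U, hb.far_tn (hb.far_p f)⟩
  have πc : ∀ x ∈ D.ob c, D.π x = D.π c := fun x hx => (h.pi_mg uc mc).2 hx
  have ncb : D.π c ≠ D.π b := (h.pi_ne uc df.2.2).symm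
  have b'c : D.p b ∉ D.ob c := fun t => hb.df_disj df t (D.p_ob b)
  have ncb' : D.π c ≠ D.π (D.p b) := (h.pi_ne uc b'c).symm
  have cb : c ∉ D.ob b := hb.df_disj df (D.self_ob c)
  -- (a)
  have fa : D.m.GT c K ∨ D.m.GT (D.p c) K ∨ D.m.GT (D.p b) K := by
    have e : E3 (D.π c) (D.π b) (D.π (D.p b)) (D.π c) (D.π (D.p b)) := .inr (.inr Sym2.eq_swap)
    obtain ⟨r, rF, w, -, -, t⟩ := h.no.side_face s e
    have key : ∀ {z x}, D.π x = z → z ≠ D.π c → z ≠ D.π b → z ≠ D.π (D.p b) →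
        D.m.has (D.ι r) x → x ∈ K := by
      intro z x hx z1 z2 z3 a
      have n : x ∉ Γ := by
        rintro (t | t | t)
        · exact z1 (hx ▸ πc x t)
        · exact z2 (by rw [← hx, t])
        · exact z3 (by rw [← hx, show x = D.p b from t])
      exact (h.Ks_iff cy n (h.has_push a)).2 rF
    obtain ⟨z, z1, z2, z3, f | f⟩ := h.no.q3k s iF nt e rF ⟨t.1, t.2.1⟩
    · obtain ⟨x, y, u, g, hx, hy, -⟩ := h.lift f
      have xK := key hx z1 z2 z3 g.has1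
      rcases h.pi_ob uc hy with t | t
      · exact .inl ⟨_, x, xK, t ▸ g.symm.ge⟩
      · exact .inr (.inl ⟨_, x, xK, (show y = D.p c from t) ▸ g.symm.ge⟩)
    · obtain ⟨x, y, u, g, hx, hy, -⟩ := h.lift f
      have xK := key hx z1 z2 z3 g.has1
      have t := (h.pi_plain (fun t => nb' t.2)).1 hy
      exact .inr (.inr ⟨_, x, xK, t ▸ g.symm.ge⟩)
  -- (b)
  have fq : ∀ q', ¬ D.m.far q q' := fun q' r =>
    r.1 (one h s iF nt (.inl rfl) (.inl rfl) (.inr (.inl rfl)) ncb rfl gq (h.mo.far_ge r gq))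
  -- (c)
  have fcc : D.m.GT (D.p b) K ∨ D.Out Γ K (D.p b) := by
    by_contra hn
    rw [not_or] at hn
    have key : ∀ k, D.m.cor k (D.p b) → k = D.jm b ∨ ∃ x ∈ D.ob c, D.m.GE k x (D.p b) := by
      intro k ck
      obtain ⟨y, g⟩ := ck.ge
      by_cases yΓ : y ∈ Γ
      · rcases yΓ with t | t | t
        · exact .inr ⟨y, t, g.symm⟩
        · exact .inl (hb.plain ub nb (t ▸ g.symm))
        · exact ((h.mo.fc_ne g.fc).1 (show y = D.p b from t).symm).elim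
      · by_cases yK : y ∈ K
        · exact (hn.1 ⟨k, y, yK, g⟩).elim
        · exact (hn.2 ⟨k, y, fun t => t.elim yΓ yK, g⟩).elim
    have two : ∀ {k k' x x'}, x ∈ D.ob c → x' ∈ D.ob c → D.m.GE k x (D.p b) →
        D.m.GE k' x' (D.p b) → k = k' := fun {k k' x x'} hx hx' g g' =>
      one h s iF nt (by rw [πc x hx]; exact .inr (.inr Sym2.eq_swap)) (.inl (πc x hx))
        (.inr (.inr rfl)) (by rw [πc x hx]; exact ncb') ((πc x' hx').trans (πc x hx).symm) g g'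
    obtain ⟨j₁, j₂, j₃, n12, n13, n23, a1, a2, a3⟩ := h.mo.corners3 (hb.bd _ ub')
    rcases key _ a1 with e1 | ⟨x1, h1, g1⟩ <;> rcases key _ a2 with e2 | ⟨x2, h2, g2⟩ <;>
      rcases key _ a3 with e3 | ⟨x3, h3, g3⟩
    · exact n12 (e1.trans e2.symm)
    · exact n12 (e1.trans e2.symm)
    · exact n13 (e1.trans e3.symm)
    · exact n23 (two h2 h3 g2 g3)
    · exact n23 (e2.trans e3.symm)
    · exact n13 (two h1 h3 g1 g3)
    · exact n12 (two h1 h2 g1 g2)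
    · exact n12 (two h1 h2 g1 g2)
  -- moves
  have LCB : D.Out Γ K (D.p c) → D.m.GT (D.p b) K → D.Good := by
    rintro ⟨q₁, o, ho, g₁⟩ ⟨q₃, e, he, g₃⟩
    rcases hTM3 D.toCb hb Γ K (D.p c) b o e q₁ q q₃ wh cl c'Γ bΓ
      (by rw [hb.ob_p uc]; exact df.2.2) g₁ (d1 c'Γ g₁).1 ho (by rw [hb.pp c uc]; exact gq) g₃
      (d1 b'Γ g₃).1 he (d1 b'Γ g₃).2 (fun q' r => (fq q' r).elim) with G | ⟨d, dΓ, nd, -⟩
    · exact G
    · rw [hb.ob_p uc] at nd
      exact (nd dΓ).elim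
  have LBC : D.Out Γ K (D.p b) → D.m.GT (D.p c) K → D.Good := by
    rintro ⟨q₁, o, ho, g₁⟩ ⟨q₃, e, he, g₃⟩
    rcases hTM3 D.toCb hb Γ K (D.p b) c o e q₁ q q₃ wh cl b'Γ cΓ
      (by rw [hb.ob_p ub]; exact cb) g₁ (d1 b'Γ g₁).1 ho (by rw [hb.pp b ub]; exact gq.symm) g₃
      (d1 c'Γ g₃).1 he (d1 c'Γ g₃).2 (fun q' r => (fq q' r).elim) with G | ⟨d, dΓ, nd, -⟩
    · exact G
    · rw [hb.ob_p ub] at nd
      exact (nd (dΓ.elim .inr .inl)).elim
  have SC : ∀ g ∈ D.ob c, D.Out Γ K g → D.m.GT (D.p g) K → D.Good := by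
    rintro g hg ⟨q₁, o, ho, g₁⟩ ⟨q₃, e, he, g₃⟩
    have gΓ : g ∈ Γ := .inl hg
    have g'Γ : D.p g ∈ Γ := .inl (hb.p_mem_ob uc hg)
    rcases hTM2 D.toCb hb Γ K g o e q₁ q₃ wh cl gΓ g₁ (d1 gΓ g₁).1 ho g₃ (d1 g'Γ g₃).1 he
      (d1 g'Γ g₃).2 with G | ⟨d, dΓ, nd, f⟩
    · exact G
    · rw [hb.ob_eq uc hg] at nd
      exact (nb ((hb.mg_congr ub (dΓ.resolve_left nd)).1 (hb.fl_mg f))).elim
  by_cases ic' : D.m.GT (D.p c) K
  · by_cases ob' : D.Out Γ K (D.p b)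
    · exact LBC ob' ic'
    have ib' := fcc.resolve_right ob'
    by_cases oc : D.Out Γ K c
    · exact SC c (D.self_ob c) oc ic'
    by_cases oc' : D.Out Γ K (D.p c)
    · exact LCB oc' ib'
    by_contra nG
    obtain ⟨q₃, e, he, g₃⟩ := ib'
    obtain ⟨j₁, j₂, j₃, n12, n13, n23, a⟩ := h.mo.hole_out cl ⟨c, cΓ⟩
      (fun v hv => h.bd_Ks cy iF hv) (fun v hv => hb.bd v (far2 v hv).U)
    have key : ∀ k, k = j₁ ∨ k = j₂ ∨ k = j₃ →
        ∃ o, D.U o ∧ D.m.GE k b o ∧ D.Fl c (D.p o) (D.p e) := by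
      intro k hk
      obtain ⟨g, gΓ, o, ge, o1, o2⟩ := a k hk
      have ho : o ∉ Γ ∪ K := fun t => t.elim o1 o2
      have gb : g = b := by
        rcases gΓ with (t | t) | t | t
        · exact (oc ⟨k, o, ho, t ▸ ge⟩).elim
        · exact (oc' ⟨k, o, ho, (show g = D.p c from t) ▸ ge⟩).elim
        · exact t
        · exact (ob' ⟨k, o, ho, (show g = D.p b from t) ▸ ge⟩).elim
      subst gb
      rcases hTM2 D.toCb hb Γ K g o e k q₃ wh cl bΓ ge (d1 bΓ ge).1 ho g₃ (d1 b'Γ g₃).1 he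
        (d1 b'Γ g₃).2 with G | ⟨d, dΓ, nd, f⟩
      · exact (nG G).elim
      · exact ⟨o, (d1 bΓ ge).1, ge, hb.fl_congr f (hb.ob_symm uc (dΓ.resolve_right nd))⟩
    have same : ∀ {o o'}, D.U o → D.U o' → D.Fl c (D.p o) (D.p e) → D.Fl c (D.p o') (D.p e) →
        o' = o := fun {o o'} u u' f f' =>
      hb.p_inj u' u ((hb.fl_unique f f').elim (fun t => t.1) fun t => t.1.trans t.2)
    obtain ⟨o₁, u₁, g1, f₁⟩ := key j₁ (.inl rfl)
    obtain ⟨o₂, u₂, g2, f₂⟩ := key j₂ (.inr (.inl rfl))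
    obtain ⟨o₃, u₃, g3, f₃⟩ := key j₃ (.inr (.inr rfl))
    rw [same u₁ u₂ f₁ f₂] at g2
    rw [same u₁ u₃ f₁ f₃] at g3
    rcases h.mo.two_faces (h.mo.fc_ne g1.fc).1 g1.fc.on g2.fc.on g3.fc.on n12 with t | t
    · exact n13 t.symm
    · exact n23 t.symm
  · have oc' : D.Out Γ K (D.p c) := by
      obtain ⟨k, e, he, g⟩ := hgt
      exact ⟨k, e, fun t => t.elim he fun t => ic' ⟨k, e, t, g⟩, g⟩
    rcases fa with t | t | t
    · exact SC (D.p c) (D.p_ob c) oc' (by rw [hb.pp c uc]; exact t)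
    · exact (ic' t).elim
    · exact LCB oc' t

end Pool.Agent.P.MP_5f84aa_co.G
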