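import Pool.Agent.P.MP_5f84aa_co.G.RIf

/-! Part R2: the separating quadrilateral, step T42. -/

namespace Pool.Agent.P.MP_5f84aa_co.G

namespace RTT42

variable {D : Cb} {g x s k o e : D.V} {F : Set D.J} {K : Set D.V} {j q q₁ q₂ q₃ : D.J}

theorem wh (h : D.Ok) (t : D.T4C g x F K) : D.Wh (D.ob g ∪ D.ob x) :=
  (h.wh_ob t.1.1).union (h.wh_ob t.1.2.1)

theorem mem_iff : s ∈ D.ob g ∪ D.ob x ↔ s = g ∨ s = D.p g ∨ s = x ∨ s = D.p x := by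
  simp only [Set.mem_union, Cb.mem_ob, or_assoc]

theorem far2 (h : D.Ok) (t : D.T4C g x F K) (a : s ∈ D.ob g ∪ D.ob x) : D.Far 2 s :=
  a.elim (h.far_ob t.2.2.2.1) (h.far_ob t.2.2.2.2.1)

theorem nmg (h : D.Ok) (t : D.T4C g x F K) (a : s ∈ D.ob g ∪ D.ob x) : ¬ D.Mg s :=
  a.elim (fun a => mt (h.mg_congr t.1.1 a).1 t.2.1) fun a => mt (h.mg_congr t.1.2.1 a).1 t.2.2.1

theorem geU (h : D.Ok) (t : D.T4C g x F K) (a : s ∈ D.ob g ∪ D.ob x) (b : D.m.GE q s e) :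
    D.U e ∧ ¬ D.Tn (D.p e) :=
  have f : D.Far 1 e := (far2 h t a).adj (h.mo.adj12 b)
  ⟨f.U, h.far_tn (h.far_p f)⟩

theorem p_out (h : D.Ok) (t : D.T4C g x F K) (u : D.U o) (a : o ∉ D.ob g ∪ D.ob x ∪ K) :
    D.p o ∉ D.ob g ∪ D.ob x ∪ K := fun n => a <|
  n.imp (h.wh_p (wh h t) u).1 (h.cl_p_iff (wh h t) (h.t4c_cl t) u).1

theorem short (hTM2 : S_TM2) (h : D.Ok) (ng : ¬ D.Good) (t : D.T4C g x F K)
    (a : s ∈ D.ob g ∪ D.ob x) (b : D.Out (D.ob g ∪ D.ob x) K s) : ¬ D.m.GT (D.p s) K := by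
  rintro ⟨q', e, eK, c⟩
  obtain ⟨q, o, ho, b⟩ := b
  have ue := geU h t ((wh h t) s a).2 c
  rcases hTM2 D h _ K s o e q q' (wh h t) (h.t4c_cl t) a b (geU h t a b).1 ho c ue.1 eK ue.2 with
    n | ⟨d, hd, -, f⟩
  exacts [ng n, nmg h t hd (h.fl_mg f)]

theorem long (hTM3 : S_TM3) (h : D.Ok) (ng : ¬ D.Good) (t : D.T4C g x F K)
    (a : s ∈ D.ob g ∪ D.ob x) (a' : k ∈ D.ob g ∪ D.ob x) (n : k ∉ D.ob s) (b : D.m.GE q₁ s o)
    (ho : o ∉ D.ob g ∪ D.ob x ∪ K) (c : D.m.GE q₂ (D.p s) k) (d : D.m.GE q₃ (D.p k) e)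
    (eK : e ∈ K) : ∃ q', D.m.far q₂ q' ∧ s(D.m.X q₂, D.m.X q') = s(D.p o, D.p e) := by
  by_contra hn
  have ue := geU h t ((wh h t) k a').2 d
  rcases hTM3 D h _ K s k o e q₁ q₂ q₃ (wh h t) (h.t4c_cl t) a a' n b (geU h t a b).1 ho c d ue.1
    eK ue.2 (fun q' r z => hn ⟨q', r, z⟩) with n | ⟨d, hd, -, f⟩
  exacts [ng n, nmg h t hd (h.fl_mg f)]

/-- the corners of a cell without junctions to the outside -/
theorem inside (n1 : ¬ D.m.GT s K) (n2 : ¬ D.Out (D.ob g ∪ D.ob x) K s) (c : D.m.cor j s) :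
    ∃ y, D.m.GE j s y ∧ (y = g ∨ y = D.p g ∨ y = x ∨ y = D.p x) := by
  obtain ⟨y, f⟩ := c.ge
  refine ⟨y, f, mem_iff.1 ?_⟩
  by_contra hy
  exact n2 ⟨j, y, fun n => n.elim hy fun n => n1 ⟨j, y, n, f⟩, f⟩

/-- two corners that differ from a given face -/
theorem two_cor (h : D.Ok) (u : D.U s) (j : D.J) :
    ∃ a b, a ≠ b ∧ a ≠ j ∧ b ≠ j ∧ D.m.cor a s ∧ D.m.cor b s := by
  obtain ⟨a, a1, -, ca⟩ := h.mo.corner_ne (h.bd s u) j j
  obtain ⟨b, b1, b2, cb⟩ := h.mo.corner_ne (h.bd s u) j a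
  exact ⟨a, b, b2.symm, a1, b1, ca, cb⟩

/-- a piece with two junctions carries no convex corner -/
theorem not_cv (h : D.Ok) (t : D.T4C g x F K) {a b : D.J} (hs : s ∈ D.ob g ∪ D.ob x)
    (hk : k ∈ D.ob g ∪ D.ob x) (n : a ≠ b) (fa : D.m.GE a s k) (fb : D.m.GE b s k) :
    ¬ D.m.Cv K s k := by
  rintro ⟨j, z, zK, f⟩
  have o : D.m.On j s k ∧ D.m.cor j z :=
    f.elim (fun f => ⟨⟨f.has2, f.has3⟩, f.cor1⟩) fun f => ⟨⟨f.has3, f.has2⟩, f.cor1⟩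
  have : z = s ∨ z = k := by
    rcases h.mo.two_faces (h.mo.fc_ne fa).1 fa.fc.on fb.fc.on o.1 n with rfl | rfl
    exacts [fa.fc.cor_iff.1 o.2, fb.fc.cor_iff.1 o.2]
  rcases this with rfl | rfl
  exacts [(h.t4c_cl t).1 _ zK hs, (h.t4c_cl t).1 _ zK hk]

/-- a face that contains a cell of the closed set lies on its side -/
theorem inF (h : D.Ok) (t : D.T4C g x F K) (eK : e ∈ K) (a : D.m.has j e) : j ∈ F := by
  have n := mt mem_iff.2 ((h.t4c_cl t).1 e eK)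
  refine (h.mo.sd_iff t.2.2.2.2.2.1.1 (fun w => ?_) a).1 (t.2.2.2.2.2.1.2.2.1 e eK).1
  simp only [E4, Sym2.eq_iff]
  grind

theorem nes (h : D.Ok) (t : D.T4C g x F K) : g ≠ D.p g ∧ g ≠ x ∧ g ≠ D.p x ∧ D.p g ≠ x ∧
    D.p g ≠ D.p x ∧ x ≠ D.p x :=
  ⟨(h.p_ne t.1.1).symm, h.df_ne t.1 (Cb.self_ob g) (Cb.self_ob x),
    h.df_ne t.1 (Cb.self_ob g) (Cb.p_ob x), h.df_ne t.1 (Cb.p_ob g) (Cb.self_ob x),
    h.df_ne t.1 (Cb.p_ob g) (Cb.p_ob x), (h.p_ne t.1.2.1).symm⟩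

/-- seven junctions inside four cells -/
theorem seven (h : D.Ok) (t : D.T4C g x F K) {a₁ a₂ b₁ b₂ c : D.J} (na : a₁ ≠ a₂) (nb : b₁ ≠ b₂)
    (f1 : D.m.GE a₁ (D.p g) (D.p x)) (f2 : D.m.GE a₂ (D.p g) (D.p x)) (f3 : D.m.GE b₁ x g)
    (f4 : D.m.GE b₂ x g) (f5 : D.m.GE c g (D.p x)) : False := by
  have := h.fJ
  have := h.fV
  obtain ⟨n1, n2, n3, n4, n5, n6⟩ := nes h t
  have f6 := h.ge g t.1.1
  have f7 := h.ge x t.1.2.1
  have key : ∀ {i i' u v u' v'}, D.m.GE i u v → D.m.GE i' u' v' → i = i' →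
      (u' = u ∨ u' = v) ∧ (v' = u ∨ v' = v) := by
    rintro i _ u v u' v' f f' rfl
    exact ⟨f.fc.cor_iff.1 f'.fc.cor1, f.fc.cor_iff.1 f'.fc.cor2⟩
  have k13 := key f1 f3; have k14 := key f1 f4; have k15 := key f1 f5; have k16 := key f1 f6
  have k17 := key f1 f7; have k23 := key f2 f3; have k24 := key f2 f4; have k25 := key f2 f5
  have k26 := key f2 f6; have k27 := key f2 f7; have k35 := key f3 f5; have k36 := key f3 f6
  have k37 := key f3 f7; have k45 := key f4 f5; have k46 := key f4 f6; have k47 := key f4 f7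
  have k56 := key f5 f6; have k57 := key f5 f7; have k67 := key f6 f7
  have e := h.mc.edg (D.ob g ∪ D.ob x) ⟨g, .inl (.inl rfl)⟩ fun v hv => h.bd v ((wh h t) v hv).1
  have c4 : (D.ob g ∪ D.ob x).ncard ≤ 4 := by
    have := Set.ncard_union_le (D.ob g) (D.ob x)
    have e1 : (D.ob g).ncard = 2 := Set.ncard_pair n1
    have e2 : (D.ob x).ncard = 2 := Set.ncard_pair n6
    omega
  have c7 : ({a₁, a₂, b₁, b₂, c, D.jm g, D.jm x} : Set D.J).ncard = 7 := by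
    rw [Set.ncard_insert_of_notMem (by simp only [Set.mem_insert_iff, Set.mem_singleton_iff]; grind),
      Set.ncard_insert_of_notMem (by simp only [Set.mem_insert_iff, Set.mem_singleton_iff]; grind),
      Set.ncard_insert_of_notMem (by simp only [Set.mem_insert_iff, Set.mem_singleton_iff]; grind),
      Set.ncard_insert_of_notMem (by simp only [Set.mem_insert_iff, Set.mem_singleton_iff]; grind),
      Set.ncard_insert_of_notMem (by simp only [Set.mem_insert_iff, Set.mem_singleton_iff]; grind),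
      Set.ncard_pair (by grind)]
  have sub : ({a₁, a₂, b₁, b₂, c, D.jm g, D.jm x} : Set D.J) ⊆
      {j | D.m.L j ∈ D.ob g ∪ D.ob x ∧ D.m.R j ∈ D.ob g ∪ D.ob x} := by
    have : ∀ {i u v}, D.m.GE i u v → u ∈ D.ob g ∪ D.ob x → v ∈ D.ob g ∪ D.ob x →
        D.m.L i ∈ D.ob g ∪ D.ob x ∧ D.m.R i ∈ D.ob g ∪ D.ob x := by
      rintro i u v ⟨⟨rfl, rfl⟩ | ⟨rfl, rfl⟩, -⟩ a b
      exacts [⟨a, b⟩, ⟨b, a⟩]
    have m1 : g ∈ D.ob g ∪ D.ob x := .inl (.inl rfl)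
    have m2 : D.p g ∈ D.ob g ∪ D.ob x := .inl (.inr rfl)
    have m3 : x ∈ D.ob g ∪ D.ob x := .inr (.inl rfl)
    have m4 : D.p x ∈ D.ob g ∪ D.ob x := .inr (.inr rfl)
    rintro i (rfl | rfl | rfl | rfl | rfl | rfl | rfl)
    exacts [this f1 m2 m4, this f2 m2 m4, this f3 m3 m1, this f4 m3 m1, this f5 m1 m4,
      this f6 m1 m2, this f7 m3 m4]
  have := Set.ncard_le_ncard sub
  omega

/-- the case of a rung between the two objects -/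
theorem rung (h : D.Ok) (t : D.T4C g x F K) {la lb : D.J} (b : D.m.GE q g o)
    (ho : o ∉ D.ob g ∪ D.ob x ∪ K) (fk : D.m.GE j (D.p g) (D.p x)) (n : la ≠ lb) (aF : la ∈ F)
    (fa : D.m.On la (D.p g) x) (fb : D.m.Fc lb (D.p g) x (D.p o))
    (nF : ∀ i ∈ F, ¬ D.m.On i (D.p g) (D.p x)) : False := by
  have := h.fJ
  have := h.fV
  obtain ⟨n1, n2, n3, n4, n5, n6⟩ := nes h t
  have uo := (geU h t (.inl (.inl rfl)) b).1
  have o1 := mt mem_iff.2 fun n => ho (.inl n)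
  have o2 := mt mem_iff.2 fun n => p_out h t uo ho (.inl n)
  have sF := t.2.2.2.2.2.1.1
  obtain ⟨G, sG, aG⟩ : ∃ G, D.m.Side (E3 (D.p g) x (D.p x)) G ∧ la ∈ G := by
    obtain ⟨G, sG, -⟩ := h.mo.side3 (fa.adj n4) (h.adj_p t.1.2.1) (h.mo.adj12 fk).symm
    by_cases c : la ∈ G
    exacts [⟨G, sG, c⟩, ⟨Gᶜ, sG.compl, c⟩]
  have bG : lb ∉ G := fun c => n (h.mo.side_one sG (.inl rfl) fa fb.on (iff_of_true aG c))
  have bF : lb ∉ F := fun c => n (h.mo.side_one sF (.inr (.inl rfl)) fa fb.on (iff_of_true aF c))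
  obtain ⟨f, fF, w, -, -, tf⟩ := h.mo.side_face sF (u := g) (v := D.p g) (.inl rfl)
  have fG : f ∈ G := by
    by_contra c
    refine (h.mo.lk1 (F := {i | i ∈ F ∧ i ∉ G}) (v := D.p g) g ?_ tf.2.1 fa.1 ⟨fF, c⟩).2 aG
    rintro w wg ⟨e, i, i', a, a', ⟨iF, iG⟩, hi⟩
    by_cases w1 : w = x
    · subst w1
      rcases h.mo.two_faces n4 fa fb.on a n with rfl | rfl
      exacts [iG aG, bF iF]
    by_cases w2 : w = D.p x
    · exact nF i iF (w2 ▸ a)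
    refine hi ⟨sF.same ?_ e a a' iF, fun c => iG (sG.same ?_ e a' a c)⟩
    · simp only [E4, Sym2.eq_iff]; grind
    · simp only [E3, Sym2.eq_iff]; grind
  have off : ∀ v, v ≠ D.p g → v ≠ x → v ≠ D.p x → ∀ w, ¬ E3 (D.p g) x (D.p x) v w := by
    intro v a1 a2 a3 w
    simp only [E3, Sym2.eq_iff]; grind
  have c1 := off g n1 n2 n3
  have c2 := off o (by grind) (by grind) (by grind)
  have c3 := off (D.p o) (by grind) (by grind) (by grind)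
  exact bG ((h.mo.sd_iff sG c3 fb.has3).1 ((h.mo.sd_adj sG c2 c3 (h.adj_p uo)).1
    ((h.mo.sd_adj sG c1 c2 (h.mo.adj12 b)).1 ⟨f, fG, tf.1⟩)))

end RTT42

open RTT42 in
theorem t_T42 (hTM2 : S_TM2) (hTM3 : S_TM3) : S_T42 := by
  intro D h g x F K k t og ng' fk
  by_contra ng
  have m1 : g ∈ D.ob g ∪ D.ob x := .inl (.inl rfl)
  have m2 : D.p g ∈ D.ob g ∪ D.ob x := .inl (.inr rfl)
  have m3 : x ∈ D.ob g ∪ D.ob x := .inr (.inl rfl)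
  have m4 : D.p x ∈ D.ob g ∪ D.ob x := .inr (.inr rfl)
  have ug := t.1.1
  have ux := t.1.2.1
  have i2 : ¬ D.m.GT (D.p g) K := short hTM2 h ng t m1 og
  obtain ⟨q₁, o, ho, b⟩ := og
  have alt := t.2.2.2.2.2.1.2.2.2
  have pK : ∀ e ∈ K, D.U e → D.p e ∈ K := fun e a u => h.cl_p (wh h t) (h.t4c_cl t) u a
  by_cases ix : D.m.GT x K
  · obtain ⟨q₃, e, eK, c⟩ := ix
    obtain ⟨k', r, z⟩ := long hTM3 h ng t m1 m4 (h.df_disj (h.df_symm t.1) (Cb.p_ob x)) b ho fk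
      (by rw [h.pp x ux]; exact c) eK
    have fk' := h.mo.far_ge r fk
    have e' := pK e eK (geU h t m3 c).1
    obtain ⟨i, fi⟩ : ∃ i, D.m.Fc i (D.p g) (D.p x) (D.p e) := by
      rcases Sym2.eq_iff.1 z with ⟨-, z⟩ | ⟨z, -⟩
      exacts [⟨k', z ▸ fk'⟩, ⟨k, z ▸ fk⟩]
    rcases alt with ⟨n, -⟩ | n | n | n | n
    · exact (n i (inF h t e' fi.has3)).2 fi.on
    · exact n.1 _ e' (h.mo.adj23 fi).symm
    · exact not_cv h t m2 m4 r.1 fk fk' n.2.2.2.symm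
    · exact n.1 _ e' (h.mo.adj13 fi).symm
    · exact n.1 _ eK (h.mo.adj12 c).symm
  have nc : ¬ D.m.Cv K (D.p g) x := fun n => n.gt.elim i2 ix
  have i4 : D.m.GT (D.p x) K := by
    rcases alt with ⟨-, n | n | n | n⟩ | n | n | n | n
    exacts [absurd n.2.1 nc, absurd n.1 nc, n.1.gt.resolve_left ix, absurd n.2.2 nc,
      absurd n.2.2.1 nc, absurd n.2.1 nc, n.2.1.gt.resolve_left ix, n.2.2.2.gt.resolve_left i2]
  have o3 : ¬ D.Out (D.ob g ∪ D.ob x) K x := fun n => short hTM2 h ng t m3 n i4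
  by_cases hl : ∃ l, D.m.GE l (D.p g) x
  · obtain ⟨l, fl⟩ := hl
    obtain ⟨q₃, e, eK, c⟩ := i4
    obtain ⟨l', r, z⟩ := long hTM3 h ng t m1 m3 t.1.2.2 b ho fl c eK
    have fl' := h.mo.far_ge r fl
    have e' := pK e eK (geU h t m4 c).1
    obtain ⟨la, lb, n, fa, fb⟩ : ∃ la lb, la ≠ lb ∧ D.m.Fc la (D.p g) x (D.p e) ∧
        D.m.Fc lb (D.p g) x (D.p o) := by
      rcases Sym2.eq_iff.1 z with ⟨z, z'⟩ | ⟨z, z'⟩
      exacts [⟨l', l, r.1.symm, z' ▸ fl', z ▸ fl⟩, ⟨l, l', r.1, z ▸ fl, z' ▸ fl'⟩]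
    rcases alt with ⟨nF, -⟩ | n | n | n | n
    · exact rung h t b ho fk n (inF h t e' fa.has3) fa.on fb fun i hi => (nF i hi).2
    · exact nc n.2.2.1
    · exact nc n.2.1
    · exact n.1 _ e' (h.mo.adj13 fa).symm
    · exact n.1 _ e' (h.mo.adj23 fa).symm
  have c2 : ∀ a, a ≠ D.jm g → D.m.cor a (D.p g) → D.m.GE a (D.p g) (D.p x) := by
    intro a n c
    obtain ⟨y, f, rfl | rfl | rfl | rfl⟩ := inside i2 ng' c
    exacts [absurd (h.plain ug t.2.1 f.symm) n, absurd rfl (h.mo.fc_ne f).1, absurd ⟨a, f⟩ hl, f]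
  have c3 : ∀ a, a ≠ D.jm x → D.m.cor a x → D.m.GE a x g := by
    intro a n c
    obtain ⟨y, f, rfl | rfl | rfl | rfl⟩ := inside ix o3 c
    exacts [f, absurd ⟨a, f.symm⟩ hl, absurd rfl (h.mo.fc_ne f).1,
      absurd (h.plain ux t.2.2.1 f) n]
  obtain ⟨a₁, a₂, na, a1, a2, a3, a4⟩ := two_cor h (h.pU g ug) (D.jm g)
  obtain ⟨b₁, b₂, nb, b1, b2, b3, b4⟩ := two_cor h ux (D.jm x)
  obtain ⟨c, fc⟩ := t.2.2.2.2.2.2.resolve_left hl
  exact seven h t na nb (c2 _ a1 a3) (c2 _ a2 a4) (c3 _ b1 b3) (c3 _ b2 b4) fc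

end Pool.Agent.P.MP_5f84aa_co.G
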