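import Pool.Agent.P.MP_5f84aa_co.G.RIf

/-! Part R2: the separating quadrilateral, step T43. -/

namespace Pool.Agent.P.MP_5f84aa_co.G

namespace RTT43

variable {D : Cb} {g x s k o e : D.V} {F : Set D.J} {K : Set D.V} {j q q₁ q₂ q₃ : D.J}

theorem wh (h : D.Ok) (t : D.T4C g x F K) : D.Wh (D.ob g ∪ D.ob x) :=
  (h.wh_ob t.1.1).union (h.wh_ob t.1.2.1)

theorem mem_iff : s ∈ D.ob g ∪ D.ob x ↔ s = g ∨ s = D.p g ∨ s = x ∨ s = D.p x := by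
  simp only [Set.mem_union, Cb.mem_ob, or_assoc]

theorem far2 (h : D.Ok) (t : D.T4C g x F K) (a : s ∈ D.ob g ∪ D.ob x) : D.Far 2 s :=
  a.elim (h.far_ob t.2.2.2.1) (h.far_ob t.2.2.2.2.1)

theorem nmg (h : D.Ok) (t : D.T4C g x F K) (a : s ∈ D.ob g ∪ D.ob x) : ¬ D.Mg s :=
  a.elim (fun a => mt (h.mg_congr t.1.1 a).1 t.2.1) fun a => mt (h.mg_congr t.1.2.1 a).1 t.2.2.1

theorem geU (h : D.Ok) (t : D.T4C g x F K) (a : s ∈ D.ob g ∪ D.ob x) (b : D.m.GE q s e) :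
    D.U e ∧ ¬ D.Tn (D.p e) :=
  have f : D.Far 1 e := (far2 h t a).adj (h.mo.adj12 b)
  ⟨f.U, h.far_tn (h.far_p f)⟩

theorem p_out (h : D.Ok) (t : D.T4C g x F K) (u : D.U o) (a : o ∉ D.ob g ∪ D.ob x ∪ K) :
    D.p o ∉ D.ob g ∪ D.ob x ∪ K := fun n => a <|
  n.imp (h.wh_p (wh h t) u).1 (h.cl_p_iff (wh h t) (h.t4c_cl t) u).1

theorem short (hTM2 : S_TM2) (h : D.Ok) (ng : ¬ D.Good) (t : D.T4C g x F K)
    (a : s ∈ D.ob g ∪ D.ob x) (b : D.Out (D.ob g ∪ D.ob x) K s) : ¬ D.m.GT (D.p s) K := by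
  rintro ⟨q', e, eK, c⟩
  obtain ⟨q, o, ho, b⟩ := b
  have ue := geU h t ((wh h t) s a).2 c
  rcases hTM2 D h _ K s o e q q' (wh h t) (h.t4c_cl t) a b (geU h t a b).1 ho c ue.1 eK ue.2 with
    n | ⟨d, hd, -, f⟩
  exacts [ng n, nmg h t hd (h.fl_mg f)]

theorem long (hTM3 : S_TM3) (h : D.Ok) (ng : ¬ D.Good) (t : D.T4C g x F K)
    (a : s ∈ D.ob g ∪ D.ob x) (a' : k ∈ D.ob g ∪ D.ob x) (n : k ∉ D.ob s) (b : D.m.GE q₁ s o)
    (ho : o ∉ D.ob g ∪ D.ob x ∪ K) (c : D.m.GE q₂ (D.p s) k) (d : D.m.GE q₃ (D.p k) e)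
    (eK : e ∈ K) : ∃ q', D.m.far q₂ q' ∧ s(D.m.X q₂, D.m.X q') = s(D.p o, D.p e) := by
  by_contra hn
  have ue := geU h t ((wh h t) k a').2 d
  rcases hTM3 D h _ K s k o e q₁ q₂ q₃ (wh h t) (h.t4c_cl t) a a' n b (geU h t a b).1 ho c d ue.1
    eK ue.2 (fun q' r z => hn ⟨q', r, z⟩) with n | ⟨d, hd, -, f⟩
  exacts [ng n, nmg h t hd (h.fl_mg f)]

/-- the corners of a cell without junctions to the outside -/
theorem inside (n1 : ¬ D.m.GT s K) (n2 : ¬ D.Out (D.ob g ∪ D.ob x) K s) (c : D.m.cor j s) :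
    ∃ y, D.m.GE j s y ∧ (y = g ∨ y = D.p g ∨ y = x ∨ y = D.p x) := by
  obtain ⟨y, f⟩ := c.ge
  refine ⟨y, f, mem_iff.1 ?_⟩
  by_contra hy
  exact n2 ⟨j, y, fun n => n.elim hy fun n => n1 ⟨j, y, n, f⟩, f⟩

/-- two corners that differ from a given face -/
theorem two_cor (h : D.Ok) (u : D.U s) (j : D.J) :
    ∃ a b, a ≠ b ∧ a ≠ j ∧ b ≠ j ∧ D.m.cor a s ∧ D.m.cor b s := by
  obtain ⟨a, a1, -, ca⟩ := h.mo.corner_ne (h.bd s u) j j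
  obtain ⟨b, b1, b2, cb⟩ := h.mo.corner_ne (h.bd s u) j a
  exact ⟨a, b, b2.symm, a1, b1, ca, cb⟩

/-- a piece with two junctions carries no convex corner -/
theorem not_cv (h : D.Ok) (t : D.T4C g x F K) {a b : D.J} (hs : s ∈ D.ob g ∪ D.ob x)
    (hk : k ∈ D.ob g ∪ D.ob x) (n : a ≠ b) (fa : D.m.GE a s k) (fb : D.m.GE b s k) :
    ¬ D.m.Cv K s k := by
  rintro ⟨j, z, zK, f⟩
  have o : D.m.On j s k ∧ D.m.cor j z :=
    f.elim (fun f => ⟨⟨f.has2, f.has3⟩, f.cor1⟩) fun f => ⟨⟨f.has3, f.has2⟩, f.cor1⟩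
  have : z = s ∨ z = k := by
    rcases h.mo.two_faces (h.mo.fc_ne fa).1 fa.fc.on fb.fc.on o.1 n with rfl | rfl
    exacts [fa.fc.cor_iff.1 o.2, fb.fc.cor_iff.1 o.2]
  rcases this with rfl | rfl
  exacts [(h.t4c_cl t).1 _ zK hs, (h.t4c_cl t).1 _ zK hk]

/-- a face that contains a cell of the closed set lies on its side -/
theorem inF (h : D.Ok) (t : D.T4C g x F K) (eK : e ∈ K) (a : D.m.has j e) : j ∈ F := by
  have n := mt mem_iff.2 ((h.t4c_cl t).1 e eK)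
  refine (h.mo.sd_iff t.2.2.2.2.2.1.1 (fun w => ?_) a).1 (t.2.2.2.2.2.1.2.2.1 e eK).1
  simp only [E4, Sym2.eq_iff]
  grind

theorem nes (h : D.Ok) (t : D.T4C g x F K) : g ≠ D.p g ∧ g ≠ x ∧ g ≠ D.p x ∧ D.p g ≠ x ∧
    D.p g ≠ D.p x ∧ x ≠ D.p x :=
  ⟨(h.p_ne t.1.1).symm, h.df_ne t.1 (Cb.self_ob g) (Cb.self_ob x),
    h.df_ne t.1 (Cb.self_ob g) (Cb.p_ob x), h.df_ne t.1 (Cb.p_ob g) (Cb.self_ob x),
    h.df_ne t.1 (Cb.p_ob g) (Cb.p_ob x), (h.p_ne t.1.2.1).symm⟩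

end RTT43

open RTT43 in
theorem t_T43 (hTM2 : S_TM2) (hTM3 : S_TM3) : S_T43 := by
  intro D h g x F K t og ng' nk
  by_contra ng
  have := h.fJ
  have := h.fV
  obtain ⟨n1, n2, n3, n4, n5, n6⟩ := nes h t
  have m1 : g ∈ D.ob g ∪ D.ob x := .inl (.inl rfl)
  have m2 : D.p g ∈ D.ob g ∪ D.ob x := .inl (.inr rfl)
  have m3 : x ∈ D.ob g ∪ D.ob x := .inr (.inl rfl)
  have m4 : D.p x ∈ D.ob g ∪ D.ob x := .inr (.inr rfl)
  have ug := t.1.1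
  have ux := t.1.2.1
  have bg' := h.bd _ (h.pU g ug)
  have i2 : ¬ D.m.GT (D.p g) K := short hTM2 h ng t m1 og
  have alt := t.2.2.2.2.2.1.2.2.2
  have sF := t.2.2.2.2.2.1.1
  have cl := h.t4c_cl t
  have pK : ∀ e ∈ K, D.U e → D.p e ∈ K := fun e a u => h.cl_p (wh h t) cl u a
  have c2 : ∀ a, a ≠ D.jm g → D.m.cor a (D.p g) → D.m.GE a (D.p g) x := by
    intro a n c
    obtain ⟨y, f, rfl | rfl | rfl | rfl⟩ := inside i2 ng' c
    exacts [absurd (h.plain ug t.2.1 f.symm) n, absurd rfl (h.mo.fc_ne f).1, f, absurd f (nk a)]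
  obtain ⟨l, l', nl, a1, a2, a3, a4⟩ := two_cor h (h.pU g ug) (D.jm g)
  have fl := c2 _ a1 a3
  have fl' := c2 _ a2 a4
  have r : D.m.far l l' := h.mo.far_of_fc bg' nl fl.fc fl'.fc
  have onl : ∀ a, D.m.On a (D.p g) x → a = l ∨ a = l' :=
    fun a o => h.mo.two_faces n4 fl.fc.on fl'.fc.on o nl
  have nc : ¬ D.m.Cv K (D.p g) x := not_cv h t m2 m3 nl fl fl'
  have sh4 : D.Out (D.ob g ∪ D.ob x) K (D.p x) → ¬ D.m.GT x K := fun n => by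
    have := short hTM2 h ng t m4 n
    rwa [h.pp x ux] at this
  by_cases i4 : D.m.GT (D.p x) K
  swap
  · obtain ⟨ix, cv⟩ : D.m.GT x K ∧ D.m.Cv K (D.p x) g := by
      rcases alt with ⟨-, n | n | n | n⟩ | n | n | n | n
      exacts [absurd n.2.1 nc, absurd n.1 nc, ⟨n.1.gt.resolve_right i4, n.2.1⟩, absurd n.2.2 nc,
        absurd n.2.2.1 nc, absurd n.2.1 nc, ⟨n.2.1.gt.resolve_right i4, n.2.2.1⟩,
        (n.2.2.2.gt.elim i2 i4).elim]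
    have c4 : ∀ a, a ≠ D.jm x → D.m.cor a (D.p x) → D.m.GE a (D.p x) g := by
      intro a n c
      obtain ⟨y, f, rfl | rfl | rfl | rfl⟩ := inside i4 (fun n => sh4 n ix) c
      exacts [f, absurd f.symm (nk a), absurd (h.plain ux t.2.2.1 f.symm) n,
        absurd rfl (h.mo.fc_ne f).1]
    obtain ⟨b₁, b₂, nb, b1, b2, b3, b4⟩ := two_cor h (h.pU x ux) (D.jm x)
    exact not_cv h t m4 m1 nb (c4 _ b1 b3) (c4 _ b2 b4) cv
  have o3 : ¬ D.Out (D.ob g ∪ D.ob x) K x := fun n => short hTM2 h ng t m3 n i4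
  have mv : ∀ q o q' e, D.m.GE q g o → o ∉ D.ob g ∪ D.ob x ∪ K → D.m.GE q' (D.p x) e → e ∈ K →
      s(D.m.X l, D.m.X l') = s(D.p o, D.p e) := by
    intro q o q' e b ho c eK
    obtain ⟨i, ri, z⟩ := long hTM3 h ng t m1 m3 t.1.2.2 b ho fl c eK
    rwa [h.mo.far_unique r ri] at z
  obtain ⟨q₁, o, ho, b⟩ := og
  have uo := (geU h t m1 b).1
  have oK : D.p o ∉ K := fun n => p_out h t uo ho (.inr n)
  obtain ⟨q₃, e, eK, ce⟩ := i4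
  have o4 : D.Out (D.ob g ∪ D.ob x) K (D.p x) := by
    by_contra o4
    obtain ⟨j₁, j₂, j₃, d1, d2, d3, H⟩ := h.mo.hole_out cl ⟨g, m1⟩
      (fun v hv => (t.2.2.2.2.2.1.2.2.1 v hv).2) fun v hv => h.bd v ((wh h t) v hv).1
    have key : ∀ j, j = j₁ ∨ j = j₂ ∨ j = j₃ → D.m.On j g o := by
      intro j hj
      obtain ⟨s, hs, o', f, p1, p2⟩ := H j hj
      have p3 : o' ∉ D.ob g ∪ D.ob x ∪ K := fun n => n.elim p1 p2
      rcases mem_iff.1 hs with rfl | rfl | rfl | rfl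
      · have z := (mv _ _ _ _ f p3 ce eK).symm.trans (mv _ _ _ _ b ho ce eK)
        rw [← h.p_inj (geU h t m1 f).1 uo (Sym2.congr_left.1 z)]
        exact f.fc.on
      exacts [absurd ⟨j, o', p3, f⟩ ng', absurd ⟨j, o', p3, f⟩ o3, absurd ⟨j, o', p3, f⟩ o4]
    rcases h.mo.two_faces (h.mo.fc_ne b).1 (key _ (.inl rfl)) (key _ (.inr (.inl rfl)))
      (key _ (.inr (.inr rfl))) d1 with z | z
    exacts [d2 z.symm, d3 z.symm]
  have ix := sh4 o4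
  have e' := pK e eK (geU h t m4 ce).1
  obtain ⟨i, fi⟩ : ∃ i, D.m.Fc i (D.p g) x (D.p e) := by
    rcases Sym2.eq_iff.1 (mv _ _ _ _ b ho ce eK) with ⟨-, z⟩ | ⟨z, -⟩
    exacts [⟨l', z ▸ fl'⟩, ⟨l, z ▸ fl⟩]
  obtain ⟨nF, cx, cg⟩ : (∀ j ∈ F, ¬ D.m.On j g x) ∧ D.m.Cv K x (D.p x) ∧ D.m.Cv K g (D.p g) := by
    rcases alt with ⟨nF, n | n | n | n⟩ | n | n | n | n
    exacts [absurd n.2.1 nc, absurd n.1 nc, ⟨fun j hj => (nF j hj).1, n.1, n.2.2⟩,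
      absurd n.2.2 nc, absurd n.2.2.1 nc, absurd n.2.1 nc,
      absurd (h.mo.adj13 fi).symm (n.1 _ e'), absurd (h.mo.adj23 fi).symm (n.1 _ e')]
  obtain ⟨rA, z, zK, fA | fA⟩ := cg
  swap
  · exact i2 ⟨rA, z, zK, fA.ge.symm⟩
  obtain ⟨rB, z₂, zK₂, fB | fB⟩ := cx
  · exact ix ⟨rB, z₂, zK₂, fB.ge.symm⟩
  have uz := (geU h t m1 fA.ge.symm).1
  have z1 := mv _ _ _ _ b ho fB.ge.symm zK₂
  obtain rfl : z = z₂ := by
    obtain ⟨q₂, o₂, ho₂, b₂⟩ := o4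
    obtain ⟨i', ri, z2⟩ := long hTM3 h ng t (q₂ := l) (q₃ := rA) (e := z) m4 m2
      (by rw [h.ob_p ux]; exact h.df_disj t.1 (Cb.p_ob g)) b₂ ho₂
      (by rw [h.pp x ux]; exact fl.symm) (by rw [h.pp g ug]; exact fA.ge.symm) zK
    rw [h.mo.far_unique r ri, z1] at z2
    refine h.p_inj uz (geU h t m4 fB.ge.symm).1 ?_
    rcases Sym2.eq_iff.1 z2 with ⟨-, z3⟩ | ⟨z3, -⟩
    exacts [z3.symm, absurd (z3 ▸ pK z zK uz) oK]
  have bz := h.bd z uz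
  have AF := inF h t zK fA.has1
  have BF := inF h t zK fB.has1
  have Ai := bz.ne_inf fA.has1
  have Bi := bz.ne_inf fB.has1
  have zn := mt mem_iff.2 (cl.1 z zK)
  obtain ⟨-, lA1, lA2, -⟩ := h.mo.lines fA Ai
  obtain ⟨-, -, lB2, -⟩ := h.mo.lines fB Bi
  have ll := (h.mo.lines fl r.2.1).1
  have bar : ∀ c, D.m.On c (D.p g) x → ∀ k, k ≠ D.m.inf → D.m.hug c (D.m.bar k) →
      D.m.bar c = D.m.bar k := by
    intro c oc k hk hu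
    rcases onl c oc with rfl | rfl
    exacts [hu.resolve_left (h.mo.far_not_bar r hk), hu.resolve_left (h.mo.far_not_bar r.symm hk)]
  obtain ⟨c₁, c1F, c1c, c1h⟩ := h.mo.first_corner (F := F) (x := g) (y := x) bg'
    (fun w => (sF _ w).trans (by simp only [E4, Sym2.eq_iff]; grind))
    (by rw [h.mo.ln_symm, lA2, ll]; exact (h.mo.far_not_bar r Ai).symm)
  rw [h.mo.ln_symm, lA2] at c1h
  have c1o : D.m.On c₁ (D.p g) x := by
    refine (c2 c₁ (fun n => ?_) c1c).fc.on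
    have := h.mo.side_one sF (.inl rfl) (n ▸ (h.ge g ug).fc.on) ⟨fA.has2, fA.has3⟩
      (iff_of_true c1F AF)
    have := fA.cor_iff.1 (this ▸ c1c)
    grind
  obtain ⟨c₂, c2F, c2c, c2h⟩ := h.mo.first_corner (F := F) (x := D.p x) (y := D.p g) (h.bd x ux)
    (fun w => (sF _ w).trans (by simp only [E4, Sym2.eq_iff]; grind))
    (by rw [h.mo.ln_symm, lB2, h.mo.ln_symm, ll]; exact (h.mo.far_not_bar r Bi).symm)
  rw [h.mo.ln_symm, lB2] at c2h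
  have c2o : D.m.On c₂ (D.p g) x := by
    obtain ⟨y, f, rfl | rfl | rfl | rfl⟩ := inside ix o3 c2c
    · exact absurd f.fc.on.symm (nF _ c2F)
    · exact f.fc.on.symm
    · exact absurd rfl (h.mo.fc_ne f).1
    · have := h.mo.side_one sF (.inr (.inr (.inl rfl))) f.fc.on ⟨fB.has3, fB.has2⟩
        (iff_of_true c2F BF)
      have := fB.cor_iff.1 (this ▸ c2c)
      grind
  have eb : D.m.bar rB = D.m.bar rA := by
    rw [← bar c₁ c1o rA Ai c1h, ← bar c₂ c2o rB Bi c2h,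
      h.mo.side_one sF (.inr (.inl rfl)) c1o c2o (iff_of_true c1F c2F)]
  have zg : z ≠ D.p g := (h.mo.fc_ne fA).2.1
  obtain ⟨φ, φA, φo, -⟩ := h.mo.other (j := rA) ⟨fA.has1, fA.has3⟩ zg
  obtain ⟨w, w1, w2, tw⟩ := h.mo.third φo zg
  rcases h.mo.tri_cases tw zg w1.symm w2.symm with f | f | f
  · exact i2 ⟨φ, z, zK, f.ge.symm⟩
  · by_cases n : φ = D.jm g
    · exact φA (h.mo.tri_unique bz (h.mo.fc_ne fA).1 zg n1
        ⟨φo.1, n ▸ (h.ge g ug).fc.has1, φo.2⟩ fA.tri)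
    · have hz : z ∈ s(D.p o, D.p z) := by
        rw [← z1]
        rcases onl φ (c2 φ n f.cor1).fc.on with rfl | rfl
        · exact Sym2.mem_iff.2 (.inl f.X_eq.symm)
        · exact Sym2.mem_iff.2 (.inr f.X_eq.symm)
      rcases Sym2.mem_iff.1 hz with q | q
      exacts [oK (q ▸ zK), h.p_ne uz q.symm]
  · have lφ := (h.mo.lines f (bz.ne_inf φo.1)).2.2.1
    rcases h.mo.side2 bz fA.cor1 fB.cor1 f.cor2 (.inr rfl) (.inr eb) (.inr (lφ.symm.trans lA1))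
      (fun q => n4 (fA.X_eq.symm.trans (q ▸ fB.X_eq))) with q | q
    exacts [φA q, n4 (f.X_eq.symm.trans (q ▸ fB.X_eq))]

end Pool.Agent.P.MP_5f84aa_co.G
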