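import Pool.Agent.P.MP_5f84aa_co.G.RIf

namespace Pool.Agent.P.MP_5f84aa_co.G

theorem t_TW2 (hEBT : S_EBT) : S_TW2 := by
  intro D h z b j x c w e cf f hx hw
  haveI := h.fV
  haveI := h.fJ
  by_contra hc
  have bd : ∀ v ∈ D.ob z ∪ D.ob b, D.m.Bd v := fun v hv =>
    h.bd v (hv.elim (h.ob_U e.1) (h.ob_U e.2.1))
  have h1 := hEBT _ _ _ D.m h.mo h.mc _ bd j x c w f hx hw hc
  have hz : (D.ob z).ncard = 2 := Set.ncard_pair (h.p_ne e.1).symm
  have hb : (D.ob b).ncard = 2 := Set.ncard_pair (h.p_ne e.2.1).symm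
  have h2 := Set.ncard_union_le (D.ob z) (D.ob b)
  have h3 := h.mc.inc (D.ob z) ⟨z, Cb.self_ob z⟩ fun v hv => bd v (.inl hv)
  have l : D.m.L (D.jm b) ∈ D.ob b := (h.cor_jm e.2.1).1 (.inl rfl)
  have r : D.m.R (D.jm b) ∈ D.ob b := (h.cor_jm e.2.1).1 (.inr rfl)
  have n : D.jm b ∉ {j | D.m.L j ∈ D.ob z ∨ D.m.R j ∈ D.ob z} := fun n =>
    n.elim (fun a => h.df_disj e a l) fun a => h.df_disj e a r
  have s : insert (D.jm b) {j | D.m.L j ∈ D.ob z ∨ D.m.R j ∈ D.ob z} ⊆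
      {j | D.m.L j ∈ D.ob z ∪ D.ob b ∧ D.m.R j ∈ D.ob z ∪ D.ob b} := by
    rintro k (rfl | a | a)
    · exact ⟨.inr l, .inr r⟩
    · exact ⟨.inl a, cf k _ a _ (Map.fc_self k)⟩
    · exact ⟨cf k _ a _ (Map.fc_self k).symm, .inl a⟩
  have h4 := Set.ncard_le_ncard s
  rw [Set.ncard_insert_of_notMem n] at h4
  omega

namespace RTTW

theorem half (hTW2 : S_TW2) {D : Cb} (h : D.Ok) {z b d x y : D.V} (e : D.Df z b) (cf : D.Cf2 z b)
    (hx : x ∈ D.ob z) (hy : y ∈ D.ob b) (f : D.Fl d x y)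
    (H : ∀ s ∈ D.ob z, ∀ w, D.m.Adj s w → w ∈ D.ob z ∪ D.ob b ∪ D.ob d) : D.m.Adj d (D.p y) := by
  haveI := h.fV
  haveI := h.fJ
  have fo : D.FO d z b := ⟨x, hx, y, hy, f⟩
  have dz := h.fo_df fo e.1
  have db := h.fo_df fo.symm e.2.1
  have dY : d ∉ D.ob z ∪ D.ob b := fun n =>
    n.elim (h.df_disj dz (Cb.self_ob d)) (h.df_disj db (Cb.self_ob d))
  have fl := h.fl_ln f
  obtain ⟨u, j0, j1, -, f0, f1⟩ := f
  have sp : D.m.Spl {j | ∃ s ∈ D.ob z, D.m.has j s ∧ D.m.ln d s = D.m.ln d x} d (D.p d) := by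
    refine ⟨(h.p_ne u).symm, j0, j1, f0.on, f1.on, ⟨x, hx, f0.has3, rfl⟩, ?_⟩
    rintro ⟨s, hs, a, -⟩
    rcases f1.has_iff.1 a with rfl | rfl | rfl
    exacts [h.df_disj dz (Cb.self_ob _) hs, h.df_disj dz (Cb.p_ob _) hs, h.df_disj e hs hy]
  obtain ⟨w, wd, dw, i, i2, o, o2, ⟨s, hs, a, l⟩, n⟩ := h.mo.lk2 sp
  have nw : w ∈ D.ob z → D.m.ln d w ≠ D.m.ln d x := fun p q => n ⟨w, p, o2.2, q⟩
  have sw : s ≠ w := fun q => nw (q ▸ hs) (q ▸ l)
  have sd : s ≠ d := fun q => dY (.inl (q ▸ hs))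
  have wY : w ∈ D.ob z ∪ D.ob b :=
    (H s hs w (Map.On.adj ⟨a, o.2⟩ sw)).resolve_right fun q => q.elim dw.symm wd
  rcases h.mo.tri_cases (j := i) ⟨a, o.2, o.1⟩ sw sd dw.symm with g | g | g
  · obtain ⟨-, l1, l2, -⟩ := h.mo.lines g ((h.bd d u).ne_inf o.1)
    have q : D.m.ln d w = D.m.ln d x := by
      rw [← l, h.mo.ln_symm d w, h.mo.ln_symm d s, l1, l2]
    have wb : w ∈ D.ob b := wY.resolve_left fun p => nw p q
    have : w = D.p y := h.eq_p e.2.1 hy wb fun p => fl (by rw [p]; exact q.symm)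
    exact this ▸ o.adj dw
  · exact absurd (hTW2 D h z b i w d s e cf g wY (.inl hs)) dY
  · exact absurd (hTW2 D h z b i s d w e cf g.symm (.inl hs) wY) dY

theorem key {D : Cb} (h : D.Ok) {a b w : D.V} {r : D.J} (l : D.Lk a b) (hr : r ≠ D.jm a)
    (t : D.m.Tri r a (D.p a) w) (wa : w ∉ D.ob a) : w ∈ D.ob b := by
  obtain ⟨e, -, -, k⟩ := l
  have aa := (h.p_ne e.1).symm
  have two : ∀ j x, D.m.On j a (D.p a) → D.m.cor j x → x ∈ D.ob b → j = r := fun j x o c hx =>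
    (h.mo.two_faces aa (h.ge a e.1).fc.on ⟨t.1, t.2.1⟩ o hr.symm).resolve_left fun q =>
      h.df_disj e ((h.cor_jm e.1).1 (q ▸ c)) hx
  rcases k with ⟨x, hx, y, hy, j, -, -, f, -⟩ | ⟨x, hx | hx, H⟩
  · have hs : ∀ v ∈ D.ob a, D.m.has j v := fun v hv =>
      (h.ob_trans (h.ob_U e.1 hx) (h.ob_symm e.1 hx) hv).elim (fun q => q ▸ f.has1) fun q => q ▸ f.has3
    obtain rfl := two j y ⟨hs _ (Cb.self_ob a), hs _ (Cb.p_ob a)⟩ f.cor2 hy
    rcases f.has_iff.1 t.2.2 with rfl | rfl | rfl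
    exacts [absurd hx wa, hy, absurd (h.p_mem_ob e.1 hx) wa]
  · have : D.m.has r x := hx.elim (fun q => q ▸ t.1) fun q => q ▸ t.2.1
    exact (H w (Map.On.adj ⟨this, t.2.2⟩ fun q => wa (q ▸ hx))).resolve_left wa
  · have ux := h.ob_U e.2.1 hx
    have bx := h.bd x ux
    have xa : x ≠ a := (h.df_ne e (Cb.self_ob a) hx).symm
    have xa' : x ≠ D.p a := (h.df_ne e (Cb.p_ob a) hx).symm
    have xx := (h.p_ne ux).symm
    have ax : a ≠ D.p x := h.df_ne e (Cb.self_ob a) (h.p_mem_ob e.2.1 hx)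
    have ax' : D.p a ≠ D.p x := h.df_ne e (Cb.p_ob a) (h.p_mem_ob e.2.1 hx)
    have nb : ∀ u, D.m.Adj x u → u = a ∨ u = D.p a ∨ u = D.p x := fun u q => by
      rcases H u q with (p | p) | p
      exacts [.inl p, .inr (.inl p), .inr (.inr (h.eq_p e.2.1 hx p q.1))]
    have ty : ∀ j, D.m.cor j x → D.m.Tri j x a (D.p a) ∨ D.m.Tri j x a (D.p x) ∨
        D.m.Tri j x (D.p a) (D.p x) := fun j c => by
      obtain ⟨u, v, uv, u1, v1, t1, t2, t3⟩ := h.mo.two_more c.has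
      rcases nb u (Map.On.adj ⟨t1, t2⟩ u1.symm) with rfl | rfl | rfl <;>
        rcases nb v (Map.On.adj ⟨t1, t3⟩ v1.symm) with rfl | rfl | rfl <;>
        simp only [Map.Tri, t1, t2, t3, true_and, and_true, true_or, or_true] <;> exact absurd rfl uv
    have fin : ∀ j, D.m.cor j x → D.m.Tri j x a (D.p a) → w ∈ D.ob b := fun j c q => by
      obtain rfl := two j x ⟨q.2.1, q.2.2⟩ c hx
      rcases (h.mo.tri_has q xa xa' aa).1 t.2.2 with rfl | rfl | rfl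
      exacts [hx, absurd (Cb.self_ob _) wa, absurd (Cb.p_ob _) wa]
    obtain ⟨j1, j2, j3, n12, n13, n23, c1, c2, c3⟩ := h.mo.corners3 bx
    by_contra hw
    have u1 := fun j j' => h.mo.tri_unique (j := j) (j' := j') bx xa xx ax
    have u2 := fun j j' => h.mo.tri_unique (j := j) (j' := j') bx xa' xx ax'
    have k1 := (ty _ c1).resolve_left fun q => hw (fin _ c1 q)
    have k2 := (ty _ c2).resolve_left fun q => hw (fin _ c2 q)
    have k3 := (ty _ c3).resolve_left fun q => hw (fin _ c3 q)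
    rcases k1 with k1 | k1 <;> rcases k2 with k2 | k2 <;> rcases k3 with k3 | k3
    exacts [n12 (u1 _ _ k1 k2), n12 (u1 _ _ k1 k2), n13 (u1 _ _ k1 k3), n23 (u2 _ _ k2 k3),
      n23 (u1 _ _ k2 k3), n13 (u2 _ _ k1 k3), n12 (u2 _ _ k1 k2), n12 (u2 _ _ k1 k2)]

end RTTW

theorem t_TW (hTW2 : S_TW2) : S_TW := by
  intro D h z b c e cf fo H
  haveI := h.fV
  haveI := h.fJ
  have cz := h.fo_df fo e.1
  have cb := h.fo_df fo.symm e.2.1
  obtain ⟨x, hx, y, hy, f⟩ := fo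
  have a1 := RTTW.half hTW2 h e cf hx hy f H
  have a2 := RTTW.half hTW2 h e cf hx hy (h.fl_p f) (by rw [h.ob_p f.1]; exact H)
  obtain ⟨F, s, -⟩ := h.mo.side3 (h.adj_p f.1) a2 a1.symm
  obtain ⟨uc, j0, j1, n01, f0, f1⟩ := f
  have py := h.p_mem_ob e.2.1 hy
  have off : ∀ v, v ∉ ({c, D.p c, D.p y} : Set D.V) → ∀ w, ¬ E3 c (D.p c) (D.p y) v w := fun v hv w => by
    simp only [E3, Sym2.eq_iff, Set.mem_insert_iff, Set.mem_singleton_iff] at hv ⊢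
    grind
  have nz : ∀ v ∈ D.ob z, v ∉ ({c, D.p c, D.p y} : Set D.V) := by
    rintro v hv (rfl | rfl | rfl)
    exacts [h.df_disj cz (Cb.self_ob _) hv, h.df_disj cz (Cb.p_ob _) hv, h.df_disj e hv py]
  have ny : y ∉ ({c, D.p c, D.p y} : Set D.V) := by
    rintro (q | q | q)
    exacts [h.df_disj cb (Cb.self_ob _) (q ▸ hy), h.df_disj cb (Cb.p_ob _) (q ▸ hy),
      h.p_ne (h.ob_U e.2.1 hy) q.symm]
  have s0 := h.mo.sd_iff s (off x (nz x hx)) f0.has3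
  have s1 := h.mo.sd_iff s (off y ny) f1.has3
  have ux := h.ob_U e.1 hx
  have sz : ∀ v ∈ D.ob z, (D.m.sd F v ↔ D.m.sd F x) := fun v hv => by
    rcases h.ob_trans ux (h.ob_symm e.1 hx) hv with rfl | rfl
    exacts [Iff.rfl, (h.mo.sd_adj s (off x (nz x hx)) (off _ (nz _ hv)) (h.adj_p ux)).symm]
  have na : ∀ v ∈ D.ob z, ¬ D.m.Adj v y := fun v hv a =>
    n01 (h.mo.side_one s (.inl rfl) f0.on f1.on (by
      rw [← s0, ← s1, ← sz v hv, h.mo.sd_adj s (off v (nz v hv)) (off y ny) a]))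
  have cl : D.m.Cl {c, D.p c, D.p y} (D.ob z) := by
    refine ⟨nz, fun v hv w a n => ?_⟩
    rcases H v hv w a with (q | q) | q | q
    · exact q
    · rcases h.ob_trans (h.ob_U e.2.1 hy) (h.ob_symm e.2.1 hy) q with rfl | rfl
      exacts [absurd a (na v hv), absurd (.inr (.inr rfl)) n]
    · exact absurd (.inl q) n
    · exact absurd (.inr (.inl q)) n
  obtain ⟨i1, i2, i3, n12, n13, n23, T⟩ := h.mo.hole_cl cl ⟨z, Cb.self_ob z⟩
    fun v hv => h.bd v (h.ob_U e.1 hv)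
  have ty : ∀ i, i = i1 ∨ i = i2 ∨ i = i3 → (i ∈ F ↔ D.m.sd F x) ∧
      (D.m.On i (D.p y) c ∨ D.m.On i (D.p c) (D.p y)) := fun i hi => by
    obtain ⟨v, o, g, q, hv, ho, hg⟩ := T i hi
    refine ⟨by rw [← sz v hv, h.mo.sd_iff s (off v (nz v hv)) q.has1], ?_⟩
    have oY := cf i v hv o q.ge
    have : o = D.p y := by
      rcases ho with rfl | rfl | rfl
      · exact (oY.elim (h.df_disj cz (Cb.self_ob _)) (h.df_disj cb (Cb.self_ob _))).elim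
      · exact (oY.elim (h.df_disj cz (Cb.p_ob _)) (h.df_disj cb (Cb.p_ob _))).elim
      · rfl
    subst this
    rcases hg with rfl | rfl | rfl
    exacts [.inl ⟨q.has2, q.has3⟩, .inr ⟨q.has3, q.has2⟩, absurd rfl (h.mo.fc_ne q).2.2]
  have u1 := fun i i' => h.mo.side_one (j := i) (j' := i') s (u := D.p y) (v := c) (.inr (.inr rfl))
  have u2 := fun i i' => h.mo.side_one (j := i) (j' := i') s (u := D.p c) (v := D.p y) (.inr (.inl rfl))
  obtain ⟨p1, k1⟩ := ty i1 (.inl rfl)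
  obtain ⟨p2, k2⟩ := ty i2 (.inr (.inl rfl))
  obtain ⟨p3, k3⟩ := ty i3 (.inr (.inr rfl))
  have q12 := p1.trans p2.symm
  have q13 := p1.trans p3.symm
  have q23 := p2.trans p3.symm
  rcases k1 with k1 | k1 <;> rcases k2 with k2 | k2 <;> rcases k3 with k3 | k3
  exacts [n12 (u1 _ _ k1 k2 q12), n12 (u1 _ _ k1 k2 q12), n13 (u1 _ _ k1 k3 q13),
    n23 (u2 _ _ k2 k3 q23), n23 (u1 _ _ k2 k3 q23), n13 (u2 _ _ k1 k3 q13),
    n12 (u2 _ _ k1 k2 q12), n12 (u2 _ _ k1 k2 q12)]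

theorem t_LKU : S_LKU := by
  intro D h a b c l l'
  have aa := (h.p_ne l.1.1).symm
  obtain ⟨r, hr, o, -⟩ := h.mo.other (h.ge a l.1.1).fc.on aa
  obtain ⟨w, w1, w2, t⟩ := h.mo.third o aa
  have wa : w ∉ D.ob a := fun q => q.elim w1 w2
  exact h.ob_trans l.1.2.1 (RTTW.key h l hr t wa) (h.ob_symm l'.1.2.1 (RTTW.key h l' hr t wa))

end Pool.Agent.P.MP_5f84aa_co.G
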