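import Pool.Agent.P.MP_5f84aa_co.G.RTJC1
import Pool.Agent.P.MP_5f84aa_co.G.RTJC0
import Pool.Agent.P.MP_5f84aa_co.G.RTQ4K
import Pool.Agent.P.MP_5f84aa_co.G.RTDEG
import Pool.Agent.P.MP_5f84aa_co.G.RTMV
import Pool.Agent.P.MP_5f84aa_co.G.RTMVS
import Pool.Agent.P.MP_5f84aa_co.G.RTHS
import Pool.Agent.P.MP_5f84aa_co.G.RTCM
import Pool.Agent.P.MP_5f84aa_co.G.RTCY
import Pool.Agent.P.MP_5f84aa_co.G.RTSEP
import Pool.Agent.P.MP_5f84aa_co.G.RTL3P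
import Pool.Agent.P.MP_5f84aa_co.G.RTL1
import Pool.Agent.P.MP_5f84aa_co.G.RTTW
import Pool.Agent.P.MP_5f84aa_co.G.RTL5
import Pool.Agent.P.MP_5f84aa_co.G.RTL2R
import Pool.Agent.P.MP_5f84aa_co.G.RTL3I
import Pool.Agent.P.MP_5f84aa_co.G.RTL3II
import Pool.Agent.P.MP_5f84aa_co.G.RTL3R
import Pool.Agent.P.MP_5f84aa_co.G.RTL4R
import Pool.Agent.P.MP_5f84aa_co.G.RTN1
import Pool.Agent.P.MP_5f84aa_co.G.RTN2
import Pool.Agent.P.MP_5f84aa_co.G.RTT1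
import Pool.Agent.P.MP_5f84aa_co.G.RTLAM1
import Pool.Agent.P.MP_5f84aa_co.G.RTLAM2
import Pool.Agent.P.MP_5f84aa_co.G.RTATT
import Pool.Agent.P.MP_5f84aa_co.G.RTRG
import Pool.Agent.P.MP_5f84aa_co.G.RTFCM
import Pool.Agent.P.MP_5f84aa_co.G.RTMM
import Pool.Agent.P.MP_5f84aa_co.G.RTT3H
import Pool.Agent.P.MP_5f84aa_co.G.RTT3G
import Pool.Agent.P.MP_5f84aa_co.G.RTBMP
import Pool.Agent.P.MP_5f84aa_co.G.RTT41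
import Pool.Agent.P.MP_5f84aa_co.G.RTT42
import Pool.Agent.P.MP_5f84aa_co.G.RTT43
import Pool.Agent.P.MP_5f84aa_co.G.RTFAR
import Pool.Agent.P.MP_5f84aa_co.G.RTOPT1
import Pool.Agent.P.MP_5f84aa_co.G.RTOPT2
import Pool.Agent.P.MP_5f84aa_co.G.RTOPT3
import Pool.Agent.P.MP_5f84aa_co.G.Map3

/-! Part R2: assembly. -/

namespace Pool.Agent.P.MP_5f84aa_co.G

theorem s_L2P : S_L2P := t_L2P
theorem s_MV : S_MV := t_MV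
theorem s_MV1 : S_MV1 := t_MV1 s_MV
theorem s_CY3B : S_CY3B := t_CY3B
theorem s_MMD : S_MMD := t_MMD
theorem s_SR : S_SR := t_SR
theorem s_L2R : S_L2R := t_L2R s_L2P s_MV1 s_CY3B s_MMD s_SR
theorem s_L3P : S_L3P := t_L3P
theorem s_CY4 : S_CY4 := t_CY4
theorem s_L3I : S_L3I := t_L3I s_MV1 s_CY4
theorem s_L3Q : S_L3Q := t_L3Q
theorem s_L3II : S_L3II := t_L3II s_L3Q s_MV1 s_CY4
theorem s_CY3 : S_CY3 := t_CY3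
theorem s_L3R : S_L3R := t_L3R s_L3P s_L3I s_L3II s_L2R s_CY3 s_MMD s_SR
theorem s_L1 : S_L1 := t_L1
theorem s_MV0 : S_MV0 := t_MV0 s_MV
theorem s_CY3D : S_CY3D := t_CY3D
theorem s_CY5 : S_CY5 := t_CY5
theorem s_L4R : S_L4R := t_L4R s_L1 s_MV0 s_MV1 s_CY3D s_CY5 s_SR s_L3R
theorem s_LA : S_LA := t_LA s_L2R s_L3R s_L4R
theorem s_LKU : S_LKU := t_LKU
theorem s_JC1 : S_JC1 := t_JC1
theorem s_JC0 : S_JC0 := t_JC0 s_JC1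
theorem s_EBT : S_EBT := t_EBT s_JC0
theorem s_TW2 : S_TW2 := t_TW2 s_EBT
theorem s_MV2 : S_MV2 := t_MV2 s_MV
theorem s_L5 : S_L5 := t_L5 s_TW2 s_MV s_MV2
theorem s_TW : S_TW := t_TW s_TW2
theorem s_N1 : S_N1 := t_N1 s_LA s_LKU s_L5 s_TW2 s_TW
theorem s_DR : S_DR := t_DR
theorem s_N2 : S_N2 := t_N2 s_N1 s_DR
theorem s_T1 : S_T1 := t_T1
theorem s_LAM0 : S_LAM0 := t_LAM0
theorem s_LAM1 : S_LAM1 := t_LAM1 s_DR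
theorem s_LAM2 : S_LAM2 := t_LAM2 s_LAM0 s_LAM1
theorem s_ATT : S_ATT := t_ATT s_LA s_LKU
theorem s_P2 : S_P2 := t_P2 s_N2 s_T1 s_LAM2 s_ATT
theorem s_HALF : S_HALF := t_HALF
theorem s_HS : S_HS := t_HS s_HALF
theorem s_INH : S_INH := t_INH s_HALF
theorem s_CM : S_CM := t_CM s_HS s_MV1 s_MV2
theorem s_RG : S_RG := t_RG s_HALF s_HS s_CM
theorem s_FCM : S_FCM := t_FCM s_CM s_RG
theorem s_MM1 : S_MM1 := t_MM1 s_FCM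
theorem s_TM2 : S_TM2 := t_TM2 s_MV
theorem s_MM : S_MM := t_MM s_L2P s_MV1 s_CY3B s_HS s_INH s_MM1 s_TM2
theorem s_BMP : S_BMP := t_BMP s_CY4 s_FCM
theorem s_TM3 : S_TM3 := t_TM3 s_MV
theorem s_T3H : S_T3H := t_T3H s_TM2 s_TM3
theorem s_T3G : S_T3G := t_T3G s_CY3 s_T3H
theorem s_MP : S_MP := t_MP s_L3P s_L3Q s_MV1 s_BMP s_MM s_T3G
theorem s_BPP : S_BPP := t_BPP s_CM s_MP
theorem s_Q4K : S_Q4K := t_Q4K
theorem s_T41 : S_T41 := t_T41 s_TM2 s_TM3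
theorem s_T42 : S_T42 := t_T42 s_TM2 s_TM3
theorem s_T43 : S_T43 := t_T43 s_TM2 s_TM3
theorem s_T4A : S_T4A := t_T4A s_Q4K s_T41 s_T42 s_T43
theorem s_FAR : S_FAR := t_FAR s_LKU s_L5 s_L1 s_MV0 s_MV1 s_CY3D s_CY5 s_MM s_MP s_BPP s_T4A
theorem s_R2S : S_R2S := t_R2S s_P2 s_FAR
theorem s_DEG : S_DEG := t_DEG
theorem s_OPT1 : S_OPT1 := t_OPT1
theorem s_OPT2 : S_OPT2 := t_OPT2
theorem s_OPT3 : S_OPT3 := t_OPT3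
theorem s_R2TOP : S_R2TOP := t_R2TOP s_R2S s_DEG s_OPT1 s_OPT2 s_OPT3

theorem Map.Ok3.okR {V J Sg : Type} {m : Map V J Sg} (h : m.Ok3) : m.OkR := by
  refine ⟨h.ok.toOk, h.ok.toCnt, fun ρ => ?_⟩
  obtain ⟨V', J', i1, i2, m', π, ι, h3, h4⟩ := h.contr ρ
  exact ⟨V', J', i1, i2, m', π, ι, h3.ok.toOk, h3.ok.toCnt, fun j x y w a g =>
    h3.ok.opp j x y w a g.fc.cor1 g.fc.cor2 (h3.ok.toOk.fc_ne g).1, h4⟩

/-- an almost perfect matching of the cells gives a cover below one half -/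
theorem r2top : ∃ c : ℝ, 0 < c ∧ ∃ C : ℝ,
    ∀ (V J Sg : Type) [Fintype V] [Fintype J] (m : Map V J Sg), m.Ok3 →
    ∀ (S₀ : Set V) (M₀ : Set J), (∀ v, m.has m.inf v → v ∈ S₀) →
    (∀ j ∈ M₀, ∀ v, m.cor j v → v ∉ S₀) → (∀ v, v ∉ S₀ → ∃! j, j ∈ M₀ ∧ m.cor j v) →
    ∃ M F sh, m.Cover M F sh ∧
      ((M.card : ℝ) + F.card) ≤ (1 / 2 - c) * Fintype.card V + C * S₀.ncard := by
  obtain ⟨c, hc, C, H⟩ := s_R2TOP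
  exact ⟨c, hc, C, fun V J Sg _ _ m h => H V J Sg m h.okR⟩

end Pool.Agent.P.MP_5f84aa_co.G
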