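import Pool.Agent.P.MP_5f84aa_co.G.RDefs

/-! Part R2: basic facts about faces, links and sides. -/

namespace Pool.Agent.P.MP_5f84aa_co.G

namespace Map

variable {V J Sg : Type} {m : Map V J Sg} {j j' k : J} {x y z u v w : V} {F F' : Set J}

/-! ### Faces -/

theorem Fc.symm (h : m.Fc j x y z) : m.Fc j y x z := ⟨h.1.symm, h.2⟩
theorem Fc.ge (h : m.Fc j x y z) : m.GE j x y := ⟨h.1, rfl⟩
theorem GE.symm (h : m.GE j x y) : m.GE j y x := Fc.symm h
theorem GE.fc (h : m.GE j x y) : m.Fc j x y (m.X j) := h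
theorem Fc.has_iff (h : m.Fc j x y z) : m.has j w ↔ w = x ∨ w = y ∨ w = z := by
  obtain ⟨⟨rfl, rfl⟩ | ⟨rfl, rfl⟩, rfl⟩ := h <;> simp only [has] <;> tauto
theorem Fc.cor_iff (h : m.Fc j x y z) : m.cor j w ↔ w = x ∨ w = y := by
  obtain ⟨⟨rfl, rfl⟩ | ⟨rfl, rfl⟩, rfl⟩ := h <;> simp only [cor] <;> tauto
theorem Fc.has1 (h : m.Fc j x y z) : m.has j x := h.has_iff.2 (.inl rfl)
theorem Fc.has2 (h : m.Fc j x y z) : m.has j y := h.has_iff.2 (.inr (.inl rfl))
theorem Fc.has3 (h : m.Fc j x y z) : m.has j z := h.has_iff.2 (.inr (.inr rfl))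
theorem Fc.cor1 (h : m.Fc j x y z) : m.cor j x := h.cor_iff.2 (.inl rfl)
theorem Fc.cor2 (h : m.Fc j x y z) : m.cor j y := h.cor_iff.2 (.inr rfl)
theorem Fc.tri (h : m.Fc j x y z) : m.Tri j x y z := ⟨h.has1, h.has2, h.has3⟩
theorem Fc.on (h : m.Fc j x y z) : m.On j x y := ⟨h.has1, h.has2⟩
theorem Fc.X_eq (h : m.Fc j x y z) : m.X j = z := h.2
theorem cor.has (h : m.cor j x) : m.has j x := h.imp id .inl
theorem On.symm (h : m.On j u v) : m.On j v u := ⟨h.2, h.1⟩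
theorem On.adj (h : m.On j u v) (e : u ≠ v) : m.Adj u v := ⟨e, j, h⟩
theorem Adj.symm (h : m.Adj u v) : m.Adj v u := ⟨h.1.symm, h.2.imp fun _ h => ⟨h.2, h.1⟩⟩
theorem far.symm (h : m.far j j') : m.far j' j :=
  ⟨h.1.symm, h.2.2.1, h.2.1, fun v => (h.2.2.2 v).symm⟩
theorem fc_self (j : J) : m.Fc j (m.L j) (m.R j) (m.X j) := ⟨.inl ⟨rfl, rfl⟩, rfl⟩
theorem Bd.ne_inf (h : m.Bd x) (hj : m.has j x) : j ≠ m.inf := fun e => h (e ▸ hj)
/-- a corner has a second corner -/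
theorem cor.ge (h : m.cor j x) : ∃ y, m.GE j x y := by
  rcases h with rfl | rfl
  exacts [⟨_, fc_self j⟩, ⟨_, (fc_self j).symm⟩]
theorem Fc.unique (h : m.Fc j x y z) (h' : m.Fc j x u v) (e : x ≠ y) : y = u ∧ z = v := by
  refine ⟨?_, h.2.symm.trans h'.2⟩
  obtain ⟨rfl, rfl⟩ | ⟨rfl, rfl⟩ := h.1 <;> rcases h'.1 with ⟨a, b⟩ | ⟨a, b⟩ <;> simp_all

namespace Ok

variable (h : m.Ok)
include h

theorem fc_ne (f : m.Fc j x y z) : x ≠ y ∧ x ≠ z ∧ y ≠ z := by
  obtain ⟨⟨rfl, rfl⟩ | ⟨rfl, rfl⟩, rfl⟩ := f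
  exacts [⟨h.neLR j, h.neLX j, h.neRX j⟩, ⟨(h.neLR j).symm, h.neRX j, h.neLX j⟩]
theorem adj12 (f : m.Fc j x y z) : m.Adj x y := f.on.adj (h.fc_ne f).1
theorem adj13 (f : m.Fc j x y z) : m.Adj x z := On.adj ⟨f.has1, f.has3⟩ (h.fc_ne f).2.1
theorem adj23 (f : m.Fc j x y z) : m.Adj y z := On.adj ⟨f.has2, f.has3⟩ (h.fc_ne f).2.2

theorem ge_of_cor (a : m.cor j x) (b : m.cor j y) (e : x ≠ y) : m.GE j x y := by
  rcases a with rfl | rfl <;> rcases b with rfl | rfl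
  exacts [absurd rfl e, fc_self j, (fc_self j).symm, absurd rfl e]

/-- the lines of a face -/
theorem lines (f : m.Fc j x y z) (hj : j ≠ m.inf) : m.ln x y = m.stem j ∧ m.ln x z = m.bar j ∧
    m.ln y z = m.bar j ∧ m.stem j ≠ m.bar j := by
  obtain ⟨⟨rfl, rfl⟩ | ⟨rfl, rfl⟩, rfl⟩ := f
  · exact ⟨h.lnLR j hj, h.lnLX j hj, h.lnRX j hj, h.stem_ne j hj⟩
  · exact ⟨(h.ln_symm _ _).trans (h.lnLR j hj), h.lnRX j hj, h.lnLX j hj, h.stem_ne j hj⟩

/-- a face with three given vertices designates one of the three pieces -/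
theorem tri_cases (t : m.Tri j x y z) (a : x ≠ y) (b : x ≠ z) (c : y ≠ z) :
    m.Fc j x y z ∨ m.Fc j y z x ∨ m.Fc j z x y := by
  obtain ⟨rfl | rfl | rfl, rfl | rfl | rfl, rfl | rfl | rfl⟩ := t <;> simp_all [Fc]

theorem third (t : m.On j u v) (e : u ≠ v) :
    ∃ w, w ≠ u ∧ w ≠ v ∧ m.Tri j u v w := by
  have a := h.neLR j; have b := h.neLX j; have c := h.neRX j
  have t' := t
  obtain ⟨rfl | rfl | rfl, rfl | rfl | rfl⟩ := t
  exacts [absurd rfl e, ⟨_, b.symm, c.symm, t'.1, t'.2, .inr (.inr rfl)⟩,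
    ⟨_, a.symm, c, t'.1, t'.2, .inr (.inl rfl)⟩, ⟨_, c.symm, b.symm, t'.1, t'.2, .inr (.inr rfl)⟩,
    absurd rfl e, ⟨_, a, b, t'.1, t'.2, .inl rfl⟩, ⟨_, c, a.symm, t'.1, t'.2, .inr (.inl rfl)⟩,
    ⟨_, b, a, t'.1, t'.2, .inl rfl⟩, absurd rfl e]

theorem tri_has (t : m.Tri j x y z) (a : x ≠ y) (b : x ≠ z) (c : y ≠ z) :
    m.has j w ↔ w = x ∨ w = y ∨ w = z := by
  rcases h.tri_cases t a b c with f | f | f <;> rw [f.has_iff] <;> tauto

/-- a light at a corner of `x` sees the lines of the two pieces of `x` -/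
theorem hug_of_cor (c : m.cor j x) (a : m.has j w) (e : x ≠ w) (hj : j ≠ m.inf) :
    m.hug j (m.ln x w) := by
  obtain ⟨y, f⟩ := c.ge
  obtain ⟨l1, l2, -⟩ := h.lines f hj
  rcases f.fc.has_iff.1 a with rfl | rfl | rfl
  exacts [absurd rfl e, .inl l1.symm, .inr l2.symm]

/-- three different lines do not bound a face -/
theorem not_tri (bx : m.Bd x) (a : x ≠ y) (b : x ≠ z) (c : y ≠ z) (l1 : m.ln x y ≠ m.ln x z)
    (l2 : m.ln x y ≠ m.ln y z) (l3 : m.ln x z ≠ m.ln y z) : ¬ m.Tri j x y z := fun t => by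
  have hj := bx.ne_inf t.1
  rcases h.tri_cases t a b c with f | f | f <;> obtain ⟨e1, e2, e3, -⟩ := h.lines f hj
  · exact l3 (e2.trans e3.symm)
  · exact l1 (by rw [h.ln_symm x y, h.ln_symm x z, e2, e3])
  · exact l2 (by rw [h.ln_symm y z, e2, e3])

/-- every piece has exactly two faces -/
theorem other (t : m.On j u v) (e : u ≠ v) :
    ∃ j', j' ≠ j ∧ m.On j' u v ∧ ∀ k, m.On k u v → k = j ∨ k = j' := by
  obtain ⟨a, b, ab, s⟩ := Set.ncard_eq_two.1 (h.two u v (t.adj e))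
  have m1 : ∀ k, m.On k u v ↔ k = a ∨ k = b := fun k => Set.ext_iff.1 s k
  rcases (m1 j).1 t with rfl | rfl
  · exact ⟨b, ab.symm, (m1 b).2 (.inr rfl), fun k hk => (m1 k).1 hk⟩
  · exact ⟨a, ab, (m1 a).2 (.inl rfl), fun k hk => ((m1 k).1 hk).symm⟩

theorem two_faces (e : u ≠ v) (a : m.On j u v) (b : m.On j' u v) (c : m.On k u v) (d : j ≠ j') :
    k = j ∨ k = j' := by
  obtain ⟨i, -, -, hi⟩ := h.other a e
  rcases hi _ b with rfl | rfl
  exacts [absurd rfl d, hi k c]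

/-! ### Links -/

/-- a set of faces that is not split at `v` contains all faces at `v` or none -/
theorem lk0 (s : ∀ w, ¬ m.Spl F v w) (a : m.has j v) (b : m.has j' v) (c : j ∈ F) : j' ∈ F := by
  induction h.link v j j' a b with
  | refl => exact c
  | tail _ r ih =>
    obtain ⟨r1, r2, w, r3, r4, r5⟩ := r
    by_contra hn
    exact s w ⟨r3.symm, _, _, ⟨r1, r4⟩, ⟨r2, r5⟩, ih r1, hn⟩

/-- the two other vertices of a face -/
theorem two_more (a : m.has j v) : ∃ x y, x ≠ y ∧ x ≠ v ∧ y ≠ v ∧ m.Tri j v x y := by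
  have a1 := h.neLR j; have b := h.neLX j; have c := h.neRX j
  rcases a with rfl | rfl | rfl
  · exact ⟨_, _, c, a1.symm, b.symm, (fc_self j).tri⟩
  · exact ⟨_, _, b, a1, c.symm, (fc_self j).symm.tri⟩
  · exact ⟨_, _, a1, b, c, .inr (.inr rfl), .inl rfl, .inr (.inl rfl)⟩

/-- parity: a set of faces is not split at exactly one piece of `v` -/
theorem lk2 [Finite V] [Finite J] (s : m.Spl F v w) : ∃ w', w' ≠ w ∧ m.Spl F v w' := by
  classical
  have := Fintype.ofFinite V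
  have := Fintype.ofFinite J
  by_contra hn
  push Not at hn
  set P : J → V → Prop := fun i x => i ∈ F ∧ m.On i v x ∧ x ≠ v with hP
  have key : ∑ i, (Finset.univ.filter fun x => P i x).card =
      ∑ x, (Finset.univ.filter fun i => P i x).card := by
    simp only [Finset.card_filter]
    exact Finset.sum_comm
  have e1 : Even (∑ i, (Finset.univ.filter fun x => P i x).card) := by
    refine Finset.even_sum _ fun i _ => ?_
    by_cases a : i ∈ F ∧ m.has i v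
    · obtain ⟨x, y, xy, xv, yv, t⟩ := h.two_more a.2
      rw [show (Finset.univ.filter fun x => P i x) = {x, y} by
        ext u
        have := h.tri_has (w := u) t xv.symm yv.symm xy
        simp only [hP, On, a, Finset.mem_filter, Finset.mem_univ, true_and, Finset.mem_insert,
          Finset.mem_singleton, this]
        grind, Finset.card_pair xy]
      exact even_two
    · rw [Finset.filter_eq_empty_iff.2 fun x _ hx => a ⟨hx.1, hx.2.1.1⟩]
      simp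
  have e2 : ∀ x, x ≠ w → Even (Finset.univ.filter fun i => P i x).card := by
    intro x xw
    by_cases a : ∃ i, P i x
    · obtain ⟨i, iF, io, xv⟩ := a
      obtain ⟨i', ii, io', o⟩ := h.other io xv.symm
      have i'F : i' ∈ F := by_contra fun hF => hn x xw ⟨xv.symm, i, i', io, io', iF, hF⟩
      rw [show (Finset.univ.filter fun i => P i x) = {i, i'} by
        ext u
        simp only [hP, Finset.mem_filter, Finset.mem_univ, true_and, Finset.mem_insert,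
          Finset.mem_singleton]
        exact ⟨fun hu => o u hu.2.1, by rintro (rfl | rfl) <;> simp [*]⟩, Finset.card_pair ii.symm]
      exact even_two
    · rw [Finset.filter_eq_empty_iff.2 fun i _ hi => a ⟨i, hi⟩]
      simp
  obtain ⟨vw, j, j', a, a', jF, jF'⟩ := s
  have e3 : (Finset.univ.filter fun i => P i w) = {j} := by
    ext u
    simp only [hP, Finset.mem_filter, Finset.mem_univ, true_and, Finset.mem_singleton]
    refine ⟨fun hu => (h.two_faces vw a a' hu.2.1 fun e => jF' (e ▸ jF)).resolve_right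
      fun e => jF' (e ▸ hu.1), ?_⟩
    rintro rfl
    exact ⟨jF, a, vw.symm⟩
  rw [key, ← Finset.add_sum_erase _ _ (Finset.mem_univ w), e3, Finset.card_singleton] at e1
  have e4 := Finset.even_sum (s := Finset.univ.erase w) _ fun x hx => e2 x (Finset.ne_of_mem_erase hx)
  rw [add_comm, Nat.even_add_one] at e1
  exact e1 e4

/-- a set of faces that is split at most at one piece of `v` contains all faces at `v` or none -/
theorem lk1 [Finite V] [Finite J] (w₀ : V) (s : ∀ w, w ≠ w₀ → ¬ m.Spl F v w) (a : m.has j v)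
    (b : m.has j' v) (c : j ∈ F) : j' ∈ F := by
  refine h.lk0 (fun w hw => ?_) a b c
  by_cases e : w = w₀
  · obtain ⟨w', e', s'⟩ := h.lk2 hw
    exact s w' (e ▸ e') s'
  · exact s w e hw

/-- first corner: if `F` is split at the piece `v x` and at no other piece of `v` on the same line,
then `v` has a corner in `F` on that line -/
theorem first_corner' [Finite V] [Finite J] (bv : m.Bd v) (s : m.Spl F v x)
    (l : ∀ w, w ≠ x → m.Spl F v w → m.ln v w ≠ m.ln v x) :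
    ∃ j ∈ F, m.cor j v ∧ m.hug j (m.ln v x) := by
  by_contra hn
  push Not at hn
  obtain ⟨vx, j, j', a, a', jF, jF'⟩ := s
  obtain ⟨w, wx, vw, i, i', b, b', ⟨iF, u, uv, iu, lu⟩, iF'⟩ := h.lk2
    (F := {i | i ∈ F ∧ ∃ u, u ≠ v ∧ m.has i u ∧ m.ln v u = m.ln v x})
    ⟨vx, j, j', a, a', ⟨jF, x, vx.symm, a.2, rfl⟩, fun e => jF' e.1⟩
  have hi := bv.ne_inf b.1
  have lw : m.ln v w = m.ln v x := by
    rcases b.1 with e | e | e
    · exact absurd (lu ▸ h.hug_of_cor (.inl e) iu uv.symm hi) (hn i iF (.inl e))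
    · exact absurd (lu ▸ h.hug_of_cor (.inr e) iu uv.symm hi) (hn i iF (.inr e))
    · obtain ⟨-, l1, l2, -⟩ := h.lines (fc_self i) hi
      have : ∀ t, t ≠ v → m.has i t → m.ln v t = m.bar i := by
        rintro t tv (rfl | rfl | rfl)
        exacts [e ▸ (h.ln_symm _ _).trans l1, e ▸ (h.ln_symm _ _).trans l2, absurd e.symm tv]
      rw [this w vw.symm b.2, ← lu, this u uv iu]
  exact iF' ⟨by_contra fun hF => l w wx ⟨vw, i, i', b, b', iF, hF⟩ lw, w, vw.symm, b'.2, lw⟩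

/-- first corner: if `F` is split at `v` exactly at two pieces on different lines, then `v` has a
corner in `F` on the line of the first piece -/
theorem first_corner [Finite V] [Finite J] (bv : m.Bd v) (s : ∀ w, m.Spl F v w ↔ w = x ∨ w = y)
    (l : m.ln v x ≠ m.ln v y) : ∃ j ∈ F, m.cor j v ∧ m.hug j (m.ln v x) :=
  h.first_corner' bv ((s x).2 (.inl rfl)) fun w e n => by
    rcases (s w).1 n with rfl | rfl
    exacts [absurd rfl e, l.symm]

/-! ### The hole lemma -/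

theorem hole3 {K : Set V} (ne : K.Nonempty) (b : ∀ v ∈ K, m.Bd v) :
    ∃ j₁ j₂ j₃, j₁ ≠ j₂ ∧ j₁ ≠ j₃ ∧ j₂ ≠ j₃ ∧ ∀ j, j = j₁ ∨ j = j₂ ∨ j = j₃ →
      ∃ z o f, m.Fc j z o f ∧ z ∈ K ∧ o ∉ K ∧ f ∉ K := by
  have h3 := h.hole K ne b
  obtain ⟨a, b, c, ha, hb, hc, ab, ac, bc⟩ := (Set.two_lt_ncard_iff
    (Set.finite_of_ncard_pos (by omega))).1 (show 2 < _ from h3)
  refine ⟨a, b, c, ab, ac, bc, fun j hj => ?_⟩
  have : m.cvx K j := by rcases hj with rfl | rfl | rfl <;> assumption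
  obtain ⟨hX, ⟨a1, a2⟩ | ⟨a1, a2⟩⟩ := this
  exacts [⟨_, _, _, fc_self j, a1, a2, hX⟩, ⟨_, _, _, (fc_self j).symm, a1, a2, hX⟩]

/-- a bounded cell has three corners -/
theorem corners3 (b : m.Bd x) : ∃ j₁ j₂ j₃, j₁ ≠ j₂ ∧ j₁ ≠ j₃ ∧ j₂ ≠ j₃ ∧
    m.cor j₁ x ∧ m.cor j₂ x ∧ m.cor j₃ x := by
  obtain ⟨a, b, c, ab, ac, bc, H⟩ := h.hole3 (K := {x}) ⟨x, rfl⟩ (by simpa using b)
  have : ∀ j, j = a ∨ j = b ∨ j = c → m.cor j x := fun j hj => by
    obtain ⟨z, o, f, e, rfl, -⟩ := H j hj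
    exact e.cor1
  exact ⟨a, b, c, ab, ac, bc, this _ (by simp), this _ (by simp), this _ (by simp)⟩

/-- a bounded cell has a corner different from two given faces -/
theorem corner_ne (b : m.Bd x) (j j' : J) : ∃ k, k ≠ j ∧ k ≠ j' ∧ m.cor k x := by
  obtain ⟨a, b, c, ab, ac, bc, ha, hb, hc⟩ := h.corners3 b
  grind

/-- a face with a bounded vertex is determined by its vertices -/
theorem tri_unique (bx : m.Bd x) (a : x ≠ y) (b : x ≠ z) (c : y ≠ z) (t : m.Tri j x y z)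
    (t' : m.Tri j' x y z) : j = j' := by
  by_contra e
  obtain ⟨k, k1, k2, ck⟩ := h.corner_ne bx j j'
  have : k ∈ ({j, j'} : Set J) := by
    refine h.lk0 (v := x) ?_ t.1 ck.has (.inl rfl)
    rintro w ⟨xw, i, i', o, o', iF, iF'⟩
    have hw : m.has j w ∧ m.has j' w := by
      rcases iF with rfl | rfl
      · exact ⟨o.2, (h.tri_has t' a b c).2 ((h.tri_has t a b c).1 o.2)⟩
      · exact ⟨(h.tri_has t a b c).2 ((h.tri_has t' a b c).1 o.2), o.2⟩
    exact iF' (h.two_faces xw ⟨t.1, hw.1⟩ ⟨t'.1, hw.2⟩ o' e)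
  rcases this with rfl | rfl <;> contradiction

/-- the complement of at most two adjacent bounded cells is connected -/
theorem nc {K : Set V} (b : m.Bd x) (b' : m.Bd y) (c : m.Cl {x, y} K) (ne : K.Nonempty) (vx : v ≠ x)
    (vy : v ≠ y) : v ∈ K := by
  have key : ∀ K : Set V, m.Cl {x, y} K → K.Nonempty → ∃ o ∈ K, m.has m.inf o := by
    intro K c ne
    by_contra hn
    push Not at hn
    obtain ⟨j₁, j₂, j₃, a1, a2, a3, H⟩ := h.hole3 ne hn
    have : ∀ j, j = j₁ ∨ j = j₂ ∨ j = j₃ → x ≠ y ∧ m.On j x y := fun j hj => by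
      obtain ⟨z, o, f, e, hz, ho, hf⟩ := H j hj
      have o1 : o ∈ ({x, y} : Set V) := by_contra fun n => ho (c.2 z hz o (h.adj12 e) n)
      have f1 : f ∈ ({x, y} : Set V) := by_contra fun n => hf (c.2 z hz f (h.adj13 e) n)
      have := (h.fc_ne e).2.2
      rcases o1 with rfl | rfl <;> rcases f1 with rfl | rfl
      exacts [absurd rfl this, ⟨this, e.has2, e.has3⟩, ⟨this.symm, e.has3, e.has2⟩, absurd rfl this]
    rcases h.two_faces (this _ (.inl rfl)).1 (this _ (.inl rfl)).2 (this _ (.inr (.inl rfl))).2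
      (this _ (.inr (.inr rfl))).2 a1 with e | e
    exacts [a2 e.symm, a3 e.symm]
  by_contra hv
  obtain ⟨o, oK, ho⟩ := key K c ne
  obtain ⟨o', oK', ho'⟩ := key {u | u ∉ K ∧ u ∉ ({x, y} : Set V)} ⟨fun u hu => hu.2,
    fun u hu w a hw => ⟨fun wK => hu.1 (c.2 w wK u a.symm hu.2), hw⟩⟩ ⟨v, hv, by simp [vx, vy]⟩
  exact oK'.1 (c.2 o oK o' ⟨fun e => oK'.1 (e ▸ oK), _, ho, ho'⟩ oK'.2)

/-! ### Rungs -/

theorem far_of_fc (bx : m.Bd x) (e : j ≠ j') (f : m.Fc j x y u) (f' : m.Fc j' x y v) : m.far j j' :=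
  ⟨e, bx.ne_inf f.has1, bx.ne_inf f'.has1, fun _ => f.cor_iff.trans f'.cor_iff.symm⟩

theorem far_ge (r : m.far j j') (f : m.GE j x y) : m.GE j' x y :=
  h.ge_of_cor ((r.2.2.2 x).1 f.cor1) ((r.2.2.2 y).1 f.cor2) (h.fc_ne f).1

theorem far_stem (r : m.far j j') : m.stem j = m.stem j' :=
  (h.lines (fc_self j) r.2.1).1.symm.trans (h.lines (h.far_ge r (fc_self j)) r.2.2.1).1

theorem far_bar (r : m.far j j') : m.bar j ≠ m.bar j' :=
  h.bars_ne j j' r.1 r.2.1 r.2.2.1 (h.far_stem r)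

theorem far_X (r : m.far j j') : m.X j ≠ m.X j' := fun e => h.far_bar r <|
  (h.lines (fc_self j) r.2.1).2.1.symm.trans
    (e ▸ (h.lines (h.far_ge r (fc_self j)) r.2.2.1).2.1)

theorem far_unique (r : m.far j j') (r' : m.far j k) : k = j' :=
  (h.two_faces (h.neLR j) (fc_self j).on (h.far_ge r (fc_self j)).fc.on
    (h.far_ge r' (fc_self j)).fc.on r.1).resolve_left r'.1.symm

/-- a rung is not a bar -/
theorem far_not_bar (r : m.far j j') (hk : k ≠ m.inf) : m.stem j ≠ m.bar k := fun e => by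
  obtain ⟨-, l1, l2, -⟩ := h.lines (fc_self k) hk
  obtain ⟨a, b⟩ := h.rung j j' r _ _ (h.adj13 (fc_self k)) (l1.trans e.symm)
  obtain ⟨c, -⟩ := h.rung j j' r _ _ (h.adj23 (fc_self k)) (l2.trans e.symm)
  have := h.neLR k; have := h.neLX k; have := h.neRX k
  simp only [cor] at a b c
  grind

/-- a cell touches the two halves of a rung along one line -/
theorem far_one (r : m.far j j') (f : m.GE j x y) (a : m.Adj w x) (b : m.Adj w y) :
    m.ln w x = m.ln w y := by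
  refine h.rone {j} w w x y .refl (.single ⟨j, rfl, j', r, f.cor1, f.cor2⟩) a b fun c => ?_
  rcases c.cases_head with rfl | ⟨u, ⟨_, rfl, _, -, c1, -⟩, -⟩
  · exact a.1 rfl
  · rcases f.fc.cor_iff.1 c1 with rfl | rfl
    exacts [a.1 rfl, b.1 rfl]

/-- a cell has at most two corners on a line -/
theorem side2 [Finite J] {t : Sg} (bx : m.Bd x) (a : m.cor j x) (b : m.cor j' x) (c : m.cor k x)
    (ha : m.hug j t) (hb : m.hug j' t) (hc : m.hug k t) (e : j ≠ j') : k = j ∨ k = j' := by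
  by_contra hn
  push Not at hn
  have := h.side x t bx
  have h3 := (Set.two_lt_ncard_iff (s := {j | m.cor j x ∧ (m.stem j = t ∨ m.bar j = t)})).2
    ⟨j, j', k, ⟨a, ha⟩, ⟨b, hb⟩, ⟨c, hc⟩, e, hn.1.symm, hn.2.symm⟩
  omega

end Ok

/-! ### Sides -/

theorem Spl.symm (s : m.Spl F u v) : m.Spl F v u := by
  obtain ⟨e, j, j', a, b, c⟩ := s
  exact ⟨e.symm, j, j', a.symm, b.symm, c⟩

theorem Spl.compl (s : m.Spl F u v) : m.Spl Fᶜ u v := by
  obtain ⟨e, j, j', a, b, c, d⟩ := s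
  exact ⟨e, j', j, b, a, d, fun n => n c⟩

theorem spl_compl : m.Spl Fᶜ u v ↔ m.Spl F u v := ⟨fun s => by simpa using s.compl, Spl.compl⟩

variable {E : V → V → Prop}

theorem Side.compl (s : m.Side E F) : m.Side E Fᶜ := fun u v => spl_compl.trans (s u v)

theorem Side.congr {E' : V → V → Prop} (s : m.Side E F) (e : ∀ u v, E u v ↔ E' u v) :
    m.Side E' F := fun u v => (s u v).trans (e u v)

/-- the two faces on a piece off the cycle are on the same side -/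
theorem Side.same (s : m.Side E F) (n : ¬ E u v) (e : u ≠ v) (a : m.On j u v) (b : m.On j' u v)
    (c : j ∈ F) : j' ∈ F := by_contra fun d => n ((s u v).1 ⟨e, j, j', a, b, c, d⟩)

namespace Ok

variable (h : m.Ok)
include h

/-- two different faces on a split piece are on different sides -/
theorem spl_iff (e : u ≠ v) (a : m.On j u v) (b : m.On j' u v) (d : j ≠ j') :
    m.Spl F u v ↔ ¬ (j ∈ F ↔ j' ∈ F) := by
  refine ⟨?_, fun n => ?_⟩
  · rintro ⟨-, i, i', o, o', iF, iF'⟩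
    rcases h.two_faces e a b o d with rfl | rfl <;> rcases h.two_faces e a b o' d with rfl | rfl <;>
      tauto
  · by_cases c : j ∈ F
    · exact ⟨e, j, j', a, b, c, fun c' => n (by tauto)⟩
    · exact ⟨e, j', j, b, a, by tauto, c⟩

/-- a piece of the cycle has only one face on each side -/
theorem side_one (s : m.Side E F) (e : E u v) (a : m.On j u v) (b : m.On j' u v)
    (c : j ∈ F ↔ j' ∈ F) : j = j' := by_contra fun d =>
  (h.spl_iff ((s u v).2 e).1 a b d).1 ((s u v).2 e) c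

/-- a vertex off the cycle has all its faces on one side -/
theorem sd_iff (s : m.Side E F) (o : ∀ w, ¬ E v w) (a : m.has j v) : m.sd F v ↔ j ∈ F :=
  ⟨fun ⟨_, iF, b⟩ => h.lk0 (fun w n => o w ((s v w).1 n)) b a iF, fun c => ⟨j, c, a⟩⟩

theorem sd_adj (s : m.Side E F) (o : ∀ w, ¬ E u w) (o' : ∀ w, ¬ E v w) (a : m.Adj u v) :
    m.sd F u ↔ m.sd F v := by
  obtain ⟨-, j, a1, a2⟩ := a
  rw [h.sd_iff s o a1, h.sd_iff s o' a2]

theorem sd_compl (s : m.Side E F) (o : ∀ w, ¬ E v w) (a : m.has j v) : m.sd Fᶜ v ↔ ¬ m.sd F v := by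
  rw [h.sd_iff s o a, h.sd_iff s.compl o a, Set.mem_compl_iff]

/-- the vertices on one side form a closed set -/
theorem cl_side {Γ : Set V} (s : m.Side E F) (o : ∀ u v, E u v → u ∈ Γ) :
    m.Cl Γ {v | v ∉ Γ ∧ m.sd F v} :=
  ⟨fun _ hx => hx.1, fun x hx y a hy => ⟨hy, (h.sd_adj s (fun w n => hx.1 (o x w n))
    (fun w n => hy (o y w n)) a).1 hx.2⟩⟩

/-- if the face at infinity is not in `F`, the vertices on the side `F` are bounded -/
theorem bd_side (s : m.Side E F) (i : m.inf ∉ F) (o : ∀ w, ¬ E v w) (a : m.sd F v) : m.Bd v :=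
  fun b => i ((h.sd_iff s o b).1 a)

theorem exists_side (sy : ∀ u v, E u v → E v u) (ad : ∀ u v, E u v → m.Adj u v)
    (ev : ∀ u, (∀ v, ¬ E u v) ∨ ∃ a b, a ≠ b ∧ ∀ v, E u v ↔ v = a ∨ v = b) :
    ∃ F, m.Side E F ∧ m.inf ∉ F := by
  obtain ⟨F, hF⟩ := h.jordan E sy ad fun u => by
    rcases ev u with e | ⟨a, b, ab, e⟩
    · simp [e]
    · rw [show {v | E u v} = {a, b} from Set.ext e, Set.ncard_pair ab]
      exact even_two
  have s : m.Side E F := by
    intro u v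
    by_cases a : m.Adj u v
    · obtain ⟨e, j, o⟩ := id a
      obtain ⟨j', d, o', t⟩ := h.other o e
      rw [h.spl_iff e o o' d.symm, hF u v a]
      have : ∀ i, m.has i u ∧ m.has i v ↔ i = j ∨ i = j' :=
        fun i => ⟨t i, by rintro (rfl | rfl) <;> assumption⟩
      simp only [this]
      by_cases c : j ∈ F <;> by_cases c' : j' ∈ F
      · rw [show {i | i ∈ F ∧ (i = j ∨ i = j')} = {j, j'} by ext; grind, Set.ncard_pair d.symm]
        simp [c, c']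
      · rw [show {i | i ∈ F ∧ (i = j ∨ i = j')} = {j} by ext; grind]
        simp [c, c']
      · rw [show {i | i ∈ F ∧ (i = j ∨ i = j')} = {j'} by ext; grind]
        simp [c, c']
      · rw [show {i | i ∈ F ∧ (i = j ∨ i = j')} = ∅ by ext; grind]
        simp [c, c']
    · exact iff_of_false (fun ⟨e, j, _, o, _⟩ => a (o.adj e)) fun e => a (ad u v e)
  by_cases i : m.inf ∈ F
  exacts [⟨Fᶜ, s.compl, fun n => n i⟩, ⟨F, s, i⟩]

theorem side3 {a b c : V} (ab : m.Adj a b) (bc : m.Adj b c) (ca : m.Adj c a) :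
    ∃ F, m.Side (E3 a b c) F ∧ m.inf ∉ F := by
  have := ab.1; have := bc.1; have := ca.1
  have := ab.symm; have := bc.symm; have := ca.symm
  refine h.exists_side (fun u v => by simp only [E3, Sym2.eq_iff]; grind)
    (fun u v => by simp only [E3, Sym2.eq_iff]; grind) fun u => ?_
  simp only [E3, Sym2.eq_iff]
  by_cases h1 : u = a
  · exact .inr ⟨b, c, by grind, by grind⟩
  by_cases h2 : u = b
  · exact .inr ⟨a, c, by grind, by grind⟩
  by_cases h3 : u = c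
  · exact .inr ⟨a, b, by grind, by grind⟩
  exact .inl (by grind)

theorem side4 {a b c d : V} (ab : m.Adj a b) (bc : m.Adj b c) (cd : m.Adj c d) (da : m.Adj d a)
    (ac : a ≠ c) (bd : b ≠ d) : ∃ F, m.Side (E4 a b c d) F ∧ m.inf ∉ F := by
  have := ab.1; have := bc.1; have := cd.1; have := da.1
  have := ab.symm; have := bc.symm; have := cd.symm; have := da.symm
  refine h.exists_side (fun u v => by simp only [E4, Sym2.eq_iff]; grind)
    (fun u v => by simp only [E4, Sym2.eq_iff]; grind) fun u => ?_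
  simp only [E4, Sym2.eq_iff]
  by_cases h1 : u = a
  · exact .inr ⟨b, d, by grind, by grind⟩
  by_cases h2 : u = b
  · exact .inr ⟨a, c, by grind, by grind⟩
  by_cases h3 : u = c
  · exact .inr ⟨b, d, by grind, by grind⟩
  by_cases h4 : u = d
  · exact .inr ⟨a, c, by grind, by grind⟩
  exact .inl (by grind)

theorem side5 {a b c d e : V} (ab : m.Adj a b) (bc : m.Adj b c) (cd : m.Adj c d) (de : m.Adj d e)
    (ea : m.Adj e a) (ac : a ≠ c) (ad : a ≠ d) (bd : b ≠ d) (be : b ≠ e) (ce : c ≠ e) :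
    ∃ F, m.Side (E5 a b c d e) F ∧ m.inf ∉ F := by
  have := ab.1; have := bc.1; have := cd.1; have := de.1; have := ea.1
  have := ab.symm; have := bc.symm; have := cd.symm; have := de.symm; have := ea.symm
  refine h.exists_side (fun u v => by simp only [E5, Sym2.eq_iff]; grind)
    (fun u v => by simp only [E5, Sym2.eq_iff]; grind) fun u => ?_
  simp only [E5, Sym2.eq_iff]
  by_cases h1 : u = a
  · exact .inr ⟨b, e, by grind, by grind⟩
  by_cases h2 : u = b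
  · exact .inr ⟨a, c, by grind, by grind⟩
  by_cases h3 : u = c
  · exact .inr ⟨b, d, by grind, by grind⟩
  by_cases h4 : u = d
  · exact .inr ⟨c, e, by grind, by grind⟩
  by_cases h5 : u = e
  · exact .inr ⟨a, d, by grind, by grind⟩
  exact .inl (by grind)

/-- the face of a piece of the cycle on the side `F` -/
theorem side_face (s : m.Side E F) (e : E u v) : ∃ j ∈ F, ∃ w, w ≠ u ∧ w ≠ v ∧ m.Tri j u v w := by
  obtain ⟨uv, j, -, a, -, c, -⟩ := (s u v).2 e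
  exact ⟨j, c, h.third a uv⟩

/-- a vertex with three faces around it -/
theorem deg3 {j₁ j₂ j₃ : J} (vx : v ≠ x) (vy : v ≠ y) (vz : v ≠ z) (xy : x ≠ y) (yz : y ≠ z)
    (xz : x ≠ z) (a : m.Tri j₁ v x y) (b : m.Tri j₂ v y z) (c : m.Tri j₃ v z x) :
    (∀ k, m.has k v → k = j₁ ∨ k = j₂ ∨ k = j₃) ∧ (∀ w, m.Adj v w → w = x ∨ w = y ∨ w = z) ∧
      (m.Bd v → m.cor j₁ v ∧ m.cor j₂ v ∧ m.cor j₃ v) := by
  have ha := fun w => h.tri_has (w := w) a vx vy xy
  have hb := fun w => h.tri_has (w := w) b vy vz yz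
  have hc := fun w => h.tri_has (w := w) c vz vx xz.symm
  have n12 : j₁ ≠ j₂ := fun e => by have := (hb x).1 (e ▸ a.2.1); grind
  have n13 : j₁ ≠ j₃ := fun e => by have := (hc y).1 (e ▸ a.2.2); grind
  have n23 : j₂ ≠ j₃ := fun e => by have := (hc y).1 (e ▸ b.2.1); grind
  have k1 : ∀ k, m.has k v → k = j₁ ∨ k = j₂ ∨ k = j₃ := fun k hk => by
    refine h.lk0 (F := {k | k = j₁ ∨ k = j₂ ∨ k = j₃}) ?_ a.1 hk (.inl rfl)
    rintro w ⟨vw, i, i', o, o', iF, iF'⟩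
    have hw : w = x ∨ w = y ∨ w = z := by
      rcases iF with rfl | rfl | rfl
      · have := (ha w).1 o.2; grind
      · have := (hb w).1 o.2; grind
      · have := (hc w).1 o.2; grind
    apply iF'
    rcases hw with rfl | rfl | rfl
    · have := h.two_faces vw ⟨a.1, a.2.1⟩ ⟨c.1, c.2.2⟩ o' n13; simp only [Set.mem_setOf]; grind
    · have := h.two_faces vw ⟨a.1, a.2.2⟩ ⟨b.1, b.2.1⟩ o' n12; simp only [Set.mem_setOf]; grind
    · have := h.two_faces vw ⟨b.1, b.2.2⟩ ⟨c.1, c.2.1⟩ o' n23; simp only [Set.mem_setOf]; grind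
  refine ⟨k1, fun w ⟨vw, k, o1, o2⟩ => ?_, fun bv => ?_⟩
  · rcases k1 k o1 with rfl | rfl | rfl
    · have := (ha w).1 o2; grind
    · have := (hb w).1 o2; grind
    · have := (hc w).1 o2; grind
  · obtain ⟨p, q, r, pq, pr, qr, cp, cq, cr⟩ := h.corners3 bv
    have := k1 p cp.has; have := k1 q cq.has; have := k1 r cr.has
    grind

/-- each side of a triangle that is not a face contains a vertex, next to a given piece -/
theorem q3 {a b c : V} (s : m.Side (E3 a b c) F) (n : ∀ j, ¬ m.Tri j a b c) :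
    ∃ j ∈ F, ∃ w, w ≠ a ∧ w ≠ b ∧ w ≠ c ∧ m.Tri j a b w := by
  obtain ⟨j, jF, w, wa, wb, t⟩ := h.side_face s (u := a) (v := b) (.inl rfl)
  exact ⟨j, jF, w, wa, wb, fun e => n j (e ▸ t), t⟩

/-- a side of a quadrilateral contains a vertex or consists of two faces -/
theorem q4 {a b c d : V} (s : m.Side (E4 a b c d) F) (ac : a ≠ c) (bd : b ≠ d) :
    (∃ u, u ≠ a ∧ u ≠ b ∧ u ≠ c ∧ u ≠ d ∧ m.sd F u) ∨
    (∃ j ∈ F, ∃ j' ∈ F, m.Tri j a b c ∧ m.Tri j' c d a) ∨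
    ∃ j ∈ F, ∃ j' ∈ F, m.Tri j a b d ∧ m.Tri j' b c d := by
  have ab := ((s a b).2 (.inl rfl)).1
  have cd := ((s c d).2 (.inr (.inr (.inl rfl)))).1
  have bc := ((s b c).2 (.inr (.inl rfl))).1
  have da := ((s d a).2 (.inr (.inr (.inr rfl)))).1
  obtain ⟨j, jF, w, wa, wb, t⟩ := h.side_face s (u := a) (v := b) (.inl rfl)
  obtain ⟨i, iF, z, zc, zd, t'⟩ := h.side_face s (u := c) (v := d) (.inr (.inr (.inl rfl)))
  by_cases w0 : w ≠ c ∧ w ≠ d
  · exact .inl ⟨w, wa, wb, w0.1, w0.2, j, jF, t.2.2⟩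
  by_cases z0 : z ≠ a ∧ z ≠ b
  · exact .inl ⟨z, z0.1, z0.2, zc, zd, i, iF, t'.2.2⟩
  have hw : w = c ∨ w = d := by tauto
  have hz : z = a ∨ z = b := by tauto
  rcases hw with rfl | rfl <;> rcases hz with rfl | rfl
  · exact .inr (.inl ⟨j, jF, i, iF, t, t'⟩)
  · have e := h.side_one s (.inr (.inl rfl)) ⟨t.2.1, t.2.2⟩ ⟨t'.2.2, t'.1⟩ (iff_of_true jF iF)
    have := (h.tri_has t ab ac bc).1 (e ▸ t'.2.1); grind
  · have e := h.side_one s (.inr (.inr (.inr rfl))) ⟨t.2.2, t.1⟩ ⟨t'.2.1, t'.2.2⟩ (iff_of_true jF iF)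
    have := (h.tri_has t ab da.symm bd).1 (e ▸ t'.1); grind
  · exact .inr (.inr ⟨j, jF, i, iF, t, t'.2.2, t'.1, t'.2.1⟩)

/-- the three convex corners of a closed set of bounded cells -/
theorem hole_cl {Γ K : Set V} (c : m.Cl Γ K) (ne : K.Nonempty) (b : ∀ v ∈ K, m.Bd v) :
    ∃ j₁ j₂ j₃, j₁ ≠ j₂ ∧ j₁ ≠ j₃ ∧ j₂ ≠ j₃ ∧ ∀ j, j = j₁ ∨ j = j₂ ∨ j = j₃ →
      ∃ z o f, m.Fc j z o f ∧ z ∈ K ∧ o ∈ Γ ∧ f ∈ Γ := by
  obtain ⟨j₁, j₂, j₃, a1, a2, a3, H⟩ := h.hole3 ne b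
  refine ⟨j₁, j₂, j₃, a1, a2, a3, fun j hj => ?_⟩
  obtain ⟨z, o, f, e, hz, ho, hf⟩ := H j hj
  exact ⟨z, o, f, e, hz, by_contra fun n => ho (c.2 z hz o (h.adj12 e) n),
    by_contra fun n => hf (c.2 z hz f (h.adj13 e) n)⟩

/-- the three outer corners of a closed set together with its boundary -/
theorem hole_out {Γ K : Set V} (c : m.Cl Γ K) (ne : Γ.Nonempty) (b : ∀ v ∈ K, m.Bd v)
    (b' : ∀ v ∈ Γ, m.Bd v) : ∃ j₁ j₂ j₃, j₁ ≠ j₂ ∧ j₁ ≠ j₃ ∧ j₂ ≠ j₃ ∧
      ∀ j, j = j₁ ∨ j = j₂ ∨ j = j₃ → ∃ g ∈ Γ, ∃ o, m.GE j g o ∧ o ∉ Γ ∧ o ∉ K := by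
  obtain ⟨j₁, j₂, j₃, a1, a2, a3, H⟩ := h.hole3 (K := K ∪ Γ) ne.inr
    (fun v hv => hv.elim (b v) (b' v))
  refine ⟨j₁, j₂, j₃, a1, a2, a3, fun j hj => ?_⟩
  obtain ⟨z, o, f, e, hz, ho, -⟩ := H j hj
  have o1 : o ∉ Γ := fun n => ho (.inr n)
  exact ⟨z, hz.resolve_left fun n => ho (.inl (c.2 z n o (h.adj12 e) o1)), o, e.ge, o1,
    fun n => ho (.inl n)⟩

/-- the bounded side of a triangle that is not a face: its three faces on the triangle are convex
corners -/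
theorem q3k {a b c : V} (s : m.Side (E3 a b c) F) (i : m.inf ∉ F) (n : ∀ j, ¬ m.Tri j a b c)
    (e : E3 a b c u v) (jF : j ∈ F) (o : m.On j u v) :
    ∃ z, z ≠ a ∧ z ≠ b ∧ z ≠ c ∧ (m.Fc j z u v ∨ m.Fc j z v u) := by
  have hE : ∀ u v, E3 a b c u v → u ∈ ({a, b, c} : Set V) := fun u v => by
    simp only [E3, Sym2.eq_iff, Set.mem_insert_iff, Set.mem_singleton_iff]; grind
  have hE' : ∀ u v, u ∈ ({a, b, c} : Set V) → v ∈ ({a, b, c} : Set V) → u ≠ v → E3 a b c u v :=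
    fun u v => by simp only [E3, Sym2.eq_iff, Set.mem_insert_iff, Set.mem_singleton_iff]; grind
  obtain ⟨j₀, j₀F, w, wa, wb, wc, t⟩ := h.q3 s n
  obtain ⟨j₁, j₂, j₃, a1, a2, a3, H⟩ := h.hole_cl (h.cl_side s hE)
    ⟨w, by simp [wa, wb, wc], j₀, j₀F, t.2.2⟩ fun v hv => h.bd_side s i (fun w n => hv.1 (hE _ _ n)) hv.2
  have H' : ∀ k, k = j₁ ∨ k = j₂ ∨ k = j₃ → k ∈ F ∧ ∃ z o f, m.Fc k z o f ∧ z ∉ ({a, b, c} : Set V) ∧
      E3 a b c o f := fun k hk => by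
    obtain ⟨z, o, f, e, hz, ho, hf⟩ := H k hk
    exact ⟨(h.sd_iff s (fun w n => hz.1 (hE _ _ n)) e.has1).1 hz.2, z, o, f, e, hz.1,
      hE' o f ho hf (h.fc_ne e).2.2⟩
  have key : ∀ k k', k ∈ F → k' ∈ F → ∀ z o f u v, m.Fc k z o f → E3 a b c u v → s(o, f) = s(u, v) →
      m.On k' u v → k' = k := fun k k' hk hk' z o f u v fc e eq on => by
    refine h.side_one s e on ?_ (iff_of_true hk' hk)
    rcases Sym2.eq_iff.1 eq with ⟨rfl, rfl⟩ | ⟨rfl, rfl⟩
    exacts [⟨fc.has2, fc.has3⟩, ⟨fc.has3, fc.has2⟩]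
  obtain ⟨f1, z1, o1, g1, c1, y1, e1⟩ := H' j₁ (by simp)
  obtain ⟨f2, z2, o2, g2, c2, y2, e2⟩ := H' j₂ (by simp)
  obtain ⟨f3, z3, o3, g3, c3, y3, e3⟩ := H' j₃ (by simp)
  have n12 : s(o1, g1) ≠ s(o2, g2) := fun q => a1 (key _ _ f1 f2 _ _ _ _ _ c1 e2 q ⟨c2.has2, c2.has3⟩).symm
  have n13 : s(o1, g1) ≠ s(o3, g3) := fun q => a2 (key _ _ f1 f3 _ _ _ _ _ c1 e3 q ⟨c3.has2, c3.has3⟩).symm
  have n23 : s(o2, g2) ≠ s(o3, g3) := fun q => a3 (key _ _ f2 f3 _ _ _ _ _ c2 e3 q ⟨c3.has2, c3.has3⟩).symm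
  have fin : ∀ k z o f, k ∈ F → m.Fc k z o f → z ∉ ({a, b, c} : Set V) → s(o, f) = s(u, v) →
      ∃ z, z ≠ a ∧ z ≠ b ∧ z ≠ c ∧ (m.Fc j z u v ∨ m.Fc j z v u) := fun k z o' f hk fc hz q => by
    obtain rfl := key _ _ hk jF _ _ _ _ _ fc e q o
    simp only [Set.mem_insert_iff, Set.mem_singleton_iff, not_or] at hz
    refine ⟨z, hz.1, hz.2.1, hz.2.2, ?_⟩
    rcases Sym2.eq_iff.1 q with ⟨rfl, rfl⟩ | ⟨rfl, rfl⟩
    exacts [.inl fc, .inr fc]
  have : s(o1, g1) = s(u, v) ∨ s(o2, g2) = s(u, v) ∨ s(o3, g3) = s(u, v) := by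
    simp only [E3] at e e1 e2 e3
    generalize s(o1, g1) = p1 at *; generalize s(o2, g2) = p2 at *; generalize s(o3, g3) = p3 at *
    generalize s(u, v) = p at *
    grind
  rcases this with q | q | q
  exacts [fin _ _ _ _ f1 c1 y1 q, fin _ _ _ _ f2 c2 y2 q, fin _ _ _ _ f3 c3 y3 q]

/-- the map is connected -/
theorem conn {K : Set V} (c : ∀ x ∈ K, ∀ y, m.Adj x y → y ∈ K) (ne : K.Nonempty) : v ∈ K := by
  have key : ∀ K : Set V, (∀ x ∈ K, ∀ y, m.Adj x y → y ∈ K) → K.Nonempty → ∃ o ∈ K, m.has m.inf o := by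
    intro K c ne
    by_contra hn
    push Not at hn
    obtain ⟨j, _, _, -, -, -, H⟩ := h.hole3 ne hn
    obtain ⟨z, o, f, e, hz, ho, -⟩ := H j (.inl rfl)
    exact ho (c z hz o (h.adj12 e))
  by_contra hv
  obtain ⟨o, oK, ho⟩ := key K c ne
  obtain ⟨o', oK', ho'⟩ := key Kᶜ (fun u hu w a wK => hu (c w wK u a.symm)) ⟨v, hv⟩
  exact oK' (c o oK o' ⟨fun e => oK' (e ▸ oK), _, ho, ho'⟩)

/-- a set of faces that is nowhere split contains all faces or none -/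
theorem conn_faces (s : ∀ u v, ¬ m.Spl F u v) (c : j ∈ F) : j' ∈ F := by
  obtain ⟨i, iF, a⟩ : m.L j' ∈ {v | m.sd F v} := h.conn
    (fun x ⟨i, iF, a⟩ y ⟨_, k, b1, b2⟩ => ⟨k, h.lk0 (s x) a b1 iF, b2⟩) ⟨_, j, c, .inl rfl⟩
  exact h.lk0 (s _) a (.inl rfl) iF

end Ok

variable {K : Set V} {a b c d : V}

theorem Cv.symm (h : m.Cv K u v) : m.Cv K v u := by
  obtain ⟨j, z, hz, h⟩ := h
  exact ⟨j, z, hz, h.symm⟩
theorem Cv.gt (h : m.Cv K u v) : m.GT u K ∨ m.GT v K := by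
  obtain ⟨j, z, hz, h | h⟩ := h
  exacts [.inl ⟨j, z, hz, h.ge.symm⟩, .inr ⟨j, z, hz, h.ge.symm⟩]
theorem Cl.compl {Γ : Set V} (c : m.Cl Γ K) : m.Cl Γ (Γ ∪ K)ᶜ :=
  ⟨fun _ a b => a (.inl b), fun x a y e n b => a (.inr (c.2 y (b.resolve_left n) x e.symm
    fun q => a (.inl q)))⟩

theorem Q4.rot (h : m.Q4 F K a b c d) : m.Q4 F K b c d a := by
  obtain ⟨s, c, k, t⟩ := h
  refine ⟨s.congr fun u v => by simp only [E4]; tauto, by convert c using 1; ext; simp; tauto, k, ?_⟩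
  rcases t with ⟨t1, t2⟩ | t
  · exact .inl ⟨fun j hj => ⟨(t1 j hj).2, fun n => (t1 j hj).1 n.symm⟩, by rw [or_comm, or_assoc, or_assoc] at t2; exact t2⟩
  · rw [or_comm, or_assoc, or_assoc] at t; exact .inr t

theorem Q4.rev (h : m.Q4 F K a b c d) : m.Q4 F K b a d c := by
  obtain ⟨s, cl, k, t⟩ := h
  have n : ∀ {a b c d}, m.Q4N K a b c d → m.Q4N K d c b a := fun t => ⟨t.2.2.symm, t.2.1.symm, t.1.symm⟩
  have r : ∀ {a b c d}, m.Q4T K a b c d → m.Q4T K c b a d :=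
    fun t => ⟨t.1, t.2.2.1.symm, t.2.1.symm, t.2.2.2.symm⟩
  refine ⟨s.congr fun u v => by
      simp only [E4, Sym2.eq_swap (a := b) (b := a), Sym2.eq_swap (a := a) (b := d),
        Sym2.eq_swap (a := d) (b := c), Sym2.eq_swap (a := c) (b := b)]; tauto,
    by convert cl using 1; ext; simp; tauto, k, ?_⟩
  rcases t with ⟨t1, t2⟩ | t | t | t | t
  · refine .inl ⟨fun j hj => ⟨(t1 j hj).2, (t1 j hj).1⟩, ?_⟩
    rcases t2 with t | t | t | t
    exacts [.inr (.inr (.inl (n t))), .inr (.inl (n t)), .inl (n t), .inr (.inr (.inr (n t)))]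
  exacts [.inr (.inr (.inr (.inr (r t)))), .inr (.inr (.inr (.inl (r t)))), .inr (.inr (.inl (r t))),
    .inr (.inl (r t))]

end Map

end Pool.Agent.P.MP_5f84aa_co.G
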