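import Pool.Agent.P.MP_5f84aa_co.G.RBas

/-! Part R2: basic facts about objects, rungs, distance from the hubs, and the contraction. -/

namespace Pool.Agent.P.MP_5f84aa_co.G

namespace Cb

variable {D : Cb} {a b c d x y z u v w : D.V} {j j' k q : D.J} {Γ K : Set D.V} {i : ℕ}

theorem mem_ob : y ∈ D.ob x ↔ y = x ∨ y = D.p x := Iff.rfl
theorem self_ob (x : D.V) : x ∈ D.ob x := .inl rfl
theorem p_ob (x : D.V) : D.p x ∈ D.ob x := .inr rfl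
theorem Fl.symm (f : D.Fl c x y) : D.Fl c y x := by
  obtain ⟨u, j, j', e, a, b⟩ := f
  exact ⟨u, j', j, e.symm, b, a⟩
theorem Bk.symm (f : D.Bk q c x y) : D.Bk q c y x := ⟨f.1.symm, f.2.2, f.2.1⟩
theorem FO.symm (f : D.FO c a b) : D.FO c b a := by
  obtain ⟨x, hx, y, hy, f⟩ := f
  exact ⟨y, hy, x, hx, f.symm⟩
theorem GA.symm (g : D.GA a b) : D.GA b a := by
  obtain ⟨q, x, hx, y, hy, g⟩ := g
  exact ⟨q, y, hy, x, hx, g.symm⟩
theorem OA.symm (g : D.OA a b) : D.OA b a := by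
  obtain ⟨y, hy, x, hx, g⟩ := g
  exact ⟨x, hx, y, hy, g.symm⟩
theorem Dig.symm (g : D.Dig a b) : D.Dig b a := by
  simpa only [Dig, Set.union_comm] using g
theorem Wh.union {Γ' : Set D.V} (g : D.Wh Γ) (g' : D.Wh Γ') : D.Wh (Γ ∪ Γ') := fun x hx =>
  hx.elim (fun e => ⟨(g x e).1, .inl (g x e).2⟩) fun e => ⟨(g' x e).1, .inr (g' x e).2⟩
theorem Wh.ob_sub (g : D.Wh Γ) (e : x ∈ Γ) : D.ob x ⊆ Γ := by
  rintro y (rfl | rfl)
  exacts [e, (g x e).2]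
theorem Wh.sat (g : D.Wh Γ) : D.Sat Γ := fun x e => ⟨(g x e).1, fun _ => (g x e).2⟩
theorem sub_nx (T : Set D.V) : T ⊆ D.nx T := fun _ h => .inl h
theorem far_succ : D.Far (i + 1) x ↔ x ∉ D.nx (D.nx^[i] D.S) := by
  rw [Far, Function.iterate_succ_apply']
theorem Far.pred (f : D.Far (i + 1) x) : D.Far i x := fun n => far_succ.1 f (sub_nx _ n)
theorem Far.mono {k : ℕ} (f : D.Far k x) (e : i ≤ k) : D.Far i x := by
  induction e with
  | refl => exact f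
  | step _ ih => exact ih f.pred
theorem Far.U (f : D.Far i x) : D.U x := f.mono (Nat.zero_le i)
/-- a cell touched by an object at distance `i + 1` has distance `i` -/
theorem Far.tch (f : D.Far (i + 1) x) (t : D.Tch x u) : D.Far i u :=
  fun n => far_succ.1 f (.inr ⟨u, n, t⟩)
theorem Far.adj (f : D.Far (i + 1) x) (t : D.m.Adj x u) : D.Far i u := f.tch ⟨x, self_ob x, t⟩

namespace Ok

variable (h : D.Ok)
include h

theorem p_ne (e : D.U x) : D.p x ≠ x := (h.mo.fc_ne (h.ge x e)).1.symm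
theorem adj_p (e : D.U x) : D.m.Adj x (D.p x) := h.mo.adj12 (h.ge x e)
theorem jm_inf (e : D.U x) : D.jm x ≠ D.m.inf := (h.bd x e).ne_inf (h.ge x e).fc.has1
theorem ob_p (e : D.U x) : D.ob (D.p x) = D.ob x := by
  ext y; simp only [mem_ob, h.pp x e, or_comm]
theorem ob_eq (e : D.U x) (a : y ∈ D.ob x) : D.ob y = D.ob x := by
  rcases a with rfl | rfl
  exacts [rfl, h.ob_p e]
theorem ob_U (e : D.U x) (a : y ∈ D.ob x) : D.U y := by
  rcases a with rfl | rfl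
  exacts [e, h.pU x e]
theorem p_mem_ob (e : D.U x) (a : y ∈ D.ob x) : D.p y ∈ D.ob x := h.ob_eq e a ▸ p_ob y
theorem ob_symm (e : D.U x) (a : y ∈ D.ob x) : x ∈ D.ob y := (h.ob_eq e a).symm ▸ self_ob x
theorem ob_trans (e : D.U x) (a : y ∈ D.ob x) (b : z ∈ D.ob y) : z ∈ D.ob x := h.ob_eq e a ▸ b
theorem p_inj (e : D.U x) (e' : D.U y) (a : D.p x = D.p y) : x = y := by
  rw [← h.pp x e, a, h.pp y e']
/-- two different cells of an object are partners -/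
theorem eq_p (e : D.U a) (hx : x ∈ D.ob a) (hy : y ∈ D.ob a) (n : x ≠ y) : y = D.p x :=
  (h.ob_trans (h.ob_U e hx) (h.ob_symm e hx) hy).resolve_left n.symm
theorem wh_ob (e : D.U x) : D.Wh (D.ob x) := fun _ a => ⟨h.ob_U e a, h.p_mem_ob e a⟩
theorem wh_p (g : D.Wh Γ) (e : D.U x) : D.p x ∈ Γ ↔ x ∈ Γ :=
  ⟨fun a => h.pp x e ▸ (g _ a).2, fun a => (g x a).2⟩
theorem df_symm (e : D.Df a b) : D.Df b a := ⟨e.2.1, e.1, fun n => e.2.2 (h.ob_symm e.2.1 n)⟩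
theorem df_disj (e : D.Df a b) (hx : x ∈ D.ob a) : x ∉ D.ob b :=
  fun n => e.2.2 (h.ob_trans e.1 hx (h.ob_symm e.2.1 n))
theorem df_ne (e : D.Df a b) (hx : x ∈ D.ob a) (hy : y ∈ D.ob b) : x ≠ y :=
  fun n => h.df_disj e hx (n ▸ hy)
theorem df_congr (e : D.Df a b) (hx : x ∈ D.ob a) (hy : y ∈ D.ob b) : D.Df x y :=
  ⟨h.ob_U e.1 hx, h.ob_U e.2.1 hy, fun n => h.df_disj e (h.ob_trans e.1 hx n) hy⟩
theorem jm_eq (e : D.U x) (a : y ∈ D.ob x) : D.jm y = D.jm x := by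
  rcases a with rfl | rfl
  exacts [rfl, h.jp x e]
theorem mg_congr (e : D.U x) (a : y ∈ D.ob x) : D.Mg y ↔ D.Mg x := by simp only [Mg, h.jm_eq e a]
theorem cor_jm (e : D.U x) : D.m.cor (D.jm x) y ↔ y ∈ D.ob x := (h.ge x e).fc.cor_iff
theorem jm_inj (e : D.U x) (e' : D.U y) (a : D.jm x = D.jm y) : y ∈ D.ob x :=
  (h.cor_jm e).1 (a ▸ (h.ge y e').fc.cor1)
theorem ga_oa (g : D.GA a b) : D.OA a b := by
  obtain ⟨q, x, hx, y, hy, g⟩ := g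
  exact ⟨y, hy, x, hx, h.mo.adj12 g⟩
/-- a plain object has one junction -/
theorem plain (e : D.U x) (n : ¬ D.Mg x) (g : D.m.GE j x (D.p x)) : j = D.jm x := by_contra fun d =>
  n ⟨j, h.mo.far_of_fc (h.bd x e) (Ne.symm d) (h.ge x e).fc g.fc⟩
/-- both faces on the rung of a merged object are its junctions -/
theorem merged (e : D.U x) (n : D.Mg x) (g : D.m.On j x (D.p x)) : D.m.GE j x (D.p x) := by
  obtain ⟨j', r⟩ := n
  have g' := h.mo.far_ge r (h.ge x e)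
  rcases h.mo.two_faces (h.p_ne e).symm (h.ge x e).fc.on g'.fc.on g r.1 with rfl | rfl
  exacts [h.ge x e, g']
theorem mg_fl (e : D.U c) (n : D.Mg c) : ∃ x y, D.Fl c x y := by
  obtain ⟨j', r⟩ := n
  exact ⟨_, _, e, _, _, r.1, (h.ge c e).fc, (h.mo.far_ge r (h.ge c e)).fc⟩
theorem fl_p (f : D.Fl c x y) : D.Fl (D.p c) x y := by
  obtain ⟨u, j, j', e, a, b⟩ := f
  exact ⟨h.pU c u, j, j', e, by rw [h.pp c u]; exact a.symm, by rw [h.pp c u]; exact b.symm⟩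
theorem fl_congr (f : D.Fl c x y) (e : d ∈ D.ob c) : D.Fl d x y := by
  rcases e with rfl | rfl
  exacts [f, h.fl_p f]
theorem fl_far (f : D.Fl c x y) :
    ∃ j j', D.m.far j j' ∧ D.m.Fc j c (D.p c) x ∧ D.m.Fc j' c (D.p c) y := by
  obtain ⟨u, j, j', e, a, b⟩ := f
  exact ⟨j, j', h.mo.far_of_fc (h.bd c u) e a b, a, b⟩
theorem fl_mg (f : D.Fl c x y) : D.Mg c := by
  obtain ⟨j, j', r, a, b⟩ := h.fl_far f
  rcases h.mo.two_faces (h.p_ne f.1).symm a.on b.on (h.ge c f.1).fc.on r.1 with e | e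
  exacts [⟨j', e ▸ r⟩, ⟨j, e ▸ r.symm⟩]
theorem fl_adj (f : D.Fl c x y) (e : d ∈ D.ob c) : D.m.Adj d x := by
  obtain ⟨-, j, -, -, a, -⟩ := h.fl_congr f e
  exact h.mo.adj13 a
theorem fl_not (f : D.Fl c x y) : x ∉ D.ob c := fun n => (h.fl_adj f n).1 rfl
theorem fl_ne (f : D.Fl c x y) : x ≠ y := by
  obtain ⟨j, j', r, a, b⟩ := h.fl_far f
  exact a.X_eq ▸ b.X_eq ▸ h.mo.far_X r
/-- the two ends of a rung lie on different lines -/
theorem fl_ln (f : D.Fl c x y) : D.m.ln c x ≠ D.m.ln c y := by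
  obtain ⟨j, j', r, a, b⟩ := h.fl_far f
  rw [(h.mo.lines a r.2.1).2.1, (h.mo.lines b r.2.2.1).2.1]
  exact h.mo.far_bar r
theorem fl_ln_ob (f : D.Fl c x y) (e : d ∈ D.ob c) : D.m.ln d x = D.m.ln c x := by
  obtain ⟨j, j', r, a, -⟩ := h.fl_far f
  rcases e with rfl | rfl
  exacts [rfl, (h.mo.lines a r.2.1).2.2.1.trans (h.mo.lines a r.2.1).2.1.symm]
/-- the faces on the rung -/
theorem fl_face (f : D.Fl c x y) (o : D.m.On k c (D.p c)) :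
    D.m.Fc k c (D.p c) x ∨ D.m.Fc k c (D.p c) y := by
  obtain ⟨u, j, j', e, a, b⟩ := f
  rcases h.mo.two_faces (h.p_ne u).symm a.on b.on o e with rfl | rfl
  exacts [.inl a, .inr b]
theorem fl_unique (f : D.Fl c x y) (f' : D.Fl c u v) : (u = x ∧ v = y) ∨ (u = y ∧ v = x) := by
  have n := h.fl_ne f'
  obtain ⟨-, j, j', -, a, b⟩ := f'
  rcases h.fl_face f a.on with e | e <;> rcases h.fl_face f b.on with e' | e' <;>
    have := a.X_eq.symm.trans e.X_eq <;> have := b.X_eq.symm.trans e'.X_eq <;> grind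
/-- a cell touches the two halves of a merged object along one line -/
theorem mg_one (e : D.U c) (n : D.Mg c) (a : D.m.Adj w c) (b : D.m.Adj w (D.p c)) :
    D.m.ln w c = D.m.ln w (D.p c) := by
  obtain ⟨j', r⟩ := n
  exact h.mo.far_one r (h.ge c e) a b
/-- the two flat cells of a rung are not the halves of a merged object -/
theorem fl_mg_not (f : D.Fl c x y) (e : D.U x) (n : D.Mg x) : y ∉ D.ob x := by
  rintro (rfl | rfl)
  · exact h.fl_ne f rfl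
  · exact h.fl_ln f (h.mg_one e n (h.fl_adj f (self_ob c)) (h.fl_adj f.symm (self_ob c)))
theorem tch_congr (e : D.U a) (hb : b ∈ D.ob a) : D.Tch b u ↔ D.Tch a u := by
  simp only [Tch, h.ob_eq e hb]
theorem fo_oa (f : D.FO c a b) : D.OA c a := by
  obtain ⟨x, hx, y, -, f⟩ := f
  exact ⟨x, hx, c, self_ob c, h.fl_adj f (self_ob c)⟩
theorem fo_df (f : D.FO c a b) (e : D.U a) : D.Df c a := by
  obtain ⟨x, hx, y, -, f⟩ := f
  exact ⟨f.1, e, fun n => h.fl_not f (h.ob_trans f.1 n hx)⟩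
theorem fo_mg (f : D.FO c a b) : D.Mg c := by
  obtain ⟨x, -, y, -, f⟩ := f
  exact h.fl_mg f
theorem cl_p (g : D.Wh Γ) (c : D.m.Cl Γ K) (e : D.U x) (a : x ∈ K) : D.p x ∈ K :=
  c.2 x a _ (h.adj_p e) fun n => c.1 x a ((h.wh_p g e).1 n)
theorem cl_p_iff (g : D.Wh Γ) (c : D.m.Cl Γ K) (e : D.U x) : D.p x ∈ K ↔ x ∈ K :=
  ⟨fun a => h.pp x e ▸ h.cl_p g c (h.pU x e) a, h.cl_p g c e⟩
theorem far_ob (f : D.Far i x) (e : y ∈ D.ob x) : D.Far i y := by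
  cases i with
  | zero => exact h.ob_U f e
  | succ i =>
    rw [far_succ]
    rintro (n | ⟨s, n, t⟩)
    · rcases e with rfl | rfl
      exacts [f.pred n, f.adj (h.adj_p f.U) n]
    · exact f.tch ((h.tch_congr f.U e).1 t) n
theorem far_p (f : D.Far i x) : D.Far i (D.p x) := h.far_ob f (p_ob x)
theorem far_oa (f : D.Far (i + 1) a) (e : D.U b) (o : D.OA a b) : D.Far i b := by
  obtain ⟨y, hy, t⟩ := o
  exact h.far_ob (f.tch t) (h.ob_symm e hy)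
theorem tn_adj (t : D.Tn x) : ∃ s ∈ D.S, D.m.Adj x s := by
  obtain ⟨j, hj, j', r, rfl | rfl⟩ := t
  · exact ⟨_, h.RS j hj _ (.inl rfl), (h.mo.adj13 (Map.fc_self j)).symm⟩
  · exact ⟨_, h.RS j hj _ ((r.2.2.2 _).2 (.inl rfl)), (h.mo.adj13 (Map.fc_self j')).symm⟩
theorem far_tn (f : D.Far 1 x) : ¬ D.Tn x := fun t => by
  obtain ⟨s, hs, a⟩ := h.tn_adj t
  exact f.adj a hs
theorem far_to (f : D.Far 1 x) : ¬ D.TO x := fun ⟨_, e, t⟩ => h.far_tn (h.far_ob f e) t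
/-- the complement of one object is connected -/
theorem nc_ob (e : D.U a) (c : D.m.Cl (D.ob a) K) (ne : K.Nonempty) (n : v ∉ D.ob a) : v ∈ K :=
  h.mo.nc (h.bd a e) (h.bd _ (h.pU a e)) c ne (fun q => n (.inl q)) fun q => n (.inr q)

theorem lk_symm (l : D.Lk a b) : D.Lk b a := by
  obtain ⟨e, na, nb, ⟨x, hx, y, hy, j, j', n, f, f'⟩ | t⟩ := l
  · exact ⟨h.df_symm e, nb, na, .inl ⟨y, hy, x, hx, j', j, n.symm, f'.symm, f.symm⟩⟩
  · exact ⟨h.df_symm e, nb, na, .inr (by simpa only [Set.union_comm] using t)⟩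
theorem lk_congr (l : D.Lk a b) (hx : x ∈ D.ob a) (hy : y ∈ D.ob b) : D.Lk x y := by
  obtain ⟨e, na, nb, t⟩ := l
  exact ⟨h.df_congr e hx hy, mt (h.mg_congr e.1 hx).1 na, mt (h.mg_congr e.2.1 hy).1 nb,
    by rwa [h.ob_eq e.1 hx, h.ob_eq e.2.1 hy]⟩
theorem ga_congr (ea : D.U a) (eb : D.U b) (hx : x ∈ D.ob a) (hy : y ∈ D.ob b) :
    D.GA x y ↔ D.GA a b := by simp only [GA, h.ob_eq ea hx, h.ob_eq eb hy]
theorem to_congr (e : D.U a) (hx : x ∈ D.ob a) : D.TO x ↔ D.TO a := by simp only [TO, h.ob_eq e hx]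
theorem rg_congr (e : D.U a) (hx : x ∈ D.ob a) : D.Rg x ↔ D.Rg a := by
  simp only [Rg, Tr, Df, OA, Dig, FO, Tch, h.ob_eq e hx, e, h.ob_U e hx]
theorem st_congr (s : D.St a b c) (hx : x ∈ D.ob a) (hy : y ∈ D.ob b) : D.St x y c := by
  have ea := s.1.1; have eb := s.1.2.1
  simpa only [St, Df, GA, FO, Dig, h.ob_eq ea hx, h.ob_eq eb hy, ea, eb, h.ob_U ea hx, h.ob_U eb hy,
    h.mg_congr ea hx, h.mg_congr eb hy, h.df_disj (h.df_symm s.1) hy, s.1.2.2] using s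
theorem t4c_swap {F : Set D.J} (t : D.T4C a b F K) : D.T4C b a F K := by
  obtain ⟨e, na, nb, fa, fb, q, g⟩ := t
  exact ⟨h.df_symm e, nb, na, fb, fa, q.rot.rot, g.symm.imp (.imp fun _ => .symm) (.imp fun _ => .symm)⟩
theorem t4c_p {F : Set D.J} (t : D.T4C a b F K) : D.T4C (D.p a) (D.p b) F K := by
  obtain ⟨e, na, nb, fa, fb, q, g⟩ := t
  refine ⟨h.df_congr e (p_ob a) (p_ob b), mt (h.mg_congr e.1 (p_ob a)).1 na,
    mt (h.mg_congr e.2.1 (p_ob b)).1 nb, h.far_p fa, h.far_p fb, ?_, ?_⟩ <;>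
    rw [h.pp a e.1, h.pp b e.2.1]
  exacts [q.rev, g.symm]
theorem t4c_cl {F : Set D.J} (t : D.T4C a b F K) : D.m.Cl (D.ob a ∪ D.ob b) K := by
  convert t.2.2.2.2.2.1.2.1 using 1; ext; simp [mem_ob, or_assoc]
theorem rs_wh (r : D.RS Γ) : D.Wh Γ := by
  obtain ⟨a, b, e, -, rfl⟩ | ⟨a, b, c, ⟨e, -, -, x, -, y, -, f⟩, rfl⟩ := r
  exacts [(h.wh_ob e.1).union (h.wh_ob e.2.1), ((h.wh_ob e.1).union (h.wh_ob e.2.1)).union (h.wh_ob f.1)]

end Ok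

end Cb

namespace Cf

variable {D : Cf} {a b c d x y z u v w : D.V} {j j' k q : D.J} {r r' : D.I} {Γ K : Set D.V}
  {α β γ : D.W} {E : D.W → D.W → Prop} {F : Set D.I}

namespace Ok

variable (h : D.Ok)
include h

theorem rg_iff : D.m.Rg (D.jm '' D.Sᶜ) j ↔ ∃ c, D.U c ∧ D.Mg c ∧ D.m.GE j c (D.p c) := by
  constructor
  · rintro ⟨_, ⟨c, hc, rfl⟩, k', r, rfl | rfl⟩
    exacts [⟨c, hc, ⟨k', r⟩, h.ge c hc⟩, ⟨c, hc, ⟨j, r⟩, h.mo.far_ge r (h.ge c hc)⟩]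
  · rintro ⟨c, hc, ⟨k', r⟩, g⟩
    exact ⟨_, ⟨c, hc, rfl⟩, k', r, h.mo.two_faces (h.toOk.p_ne hc).symm (h.ge c hc).fc.on
      (h.mo.far_ge r (h.ge c hc)).fc.on g.fc.on r.1⟩

theorem pi_eq : D.π u = D.π v ↔ u = v ∨ (D.U u ∧ D.Mg u ∧ v = D.p u) := by
  rw [h.ct.eq]
  constructor
  · intro e
    induction e with
    | refl => exact .inl rfl
    | @tail s t _ e ih =>
      obtain ⟨_, ⟨c, hc, rfl⟩, j', r, e1, e2⟩ := e
      rw [h.toOk.cor_jm hc] at e1 e2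
      have us := h.toOk.ob_U hc e1
      have ms := (h.toOk.mg_congr hc e1).2 ⟨j', r⟩
      have e3 := h.toOk.ob_trans us (h.toOk.ob_symm hc e1) e2
      rcases ih with rfl | ⟨i1, i2, rfl⟩
      · exact e3.elim (fun e => .inl e.symm) fun e => .inr ⟨us, ms, e⟩
      · exact e3.elim (fun e => .inr ⟨i1, i2, e⟩) fun e => .inl (by rw [e, h.pp u i1])
  · rintro (rfl | ⟨e, ⟨j', r⟩, rfl⟩)
    · exact .refl
    · exact .single ⟨_, ⟨u, e, rfl⟩, j', r, (h.ge u e).fc.cor1, (h.ge u e).fc.cor2⟩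

theorem pi_p (e : D.U x) (n : D.Mg x) : D.π (D.p x) = D.π x := (h.pi_eq.2 (.inr ⟨e, n, rfl⟩)).symm
theorem pi_mg (e : D.U x) (n : D.Mg x) : D.π y = D.π x ↔ y ∈ D.ob x := by
  rw [eq_comm, h.pi_eq, Cb.mem_ob]; tauto
theorem pi_plain (n : ¬ (D.U x ∧ D.Mg x)) : D.π y = D.π x ↔ y = x := by
  rw [eq_comm, h.pi_eq]; tauto
theorem pi_ob (e : D.U x) (a : D.π y = D.π x) : y ∈ D.ob x := by
  rcases h.pi_eq.1 a.symm with rfl | ⟨-, -, rfl⟩
  exacts [.inl rfl, .inr rfl]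
theorem pi_ne (e : D.U x) (a : y ∉ D.ob x) : D.π y ≠ D.π x := fun n => a (h.pi_ob e n)
theorem pi_ne_p (e : D.U x) (n : ¬ D.Mg x) : D.π x ≠ D.π (D.p x) := fun q =>
  h.toOk.p_ne e ((h.pi_plain fun t => n t.2).1 q.symm)
theorem mem_pi (g : D.Sat Γ) : D.π v ∈ D.π '' Γ ↔ v ∈ Γ := by
  refine ⟨fun ⟨x, hx, e⟩ => ?_, fun e => ⟨v, e, rfl⟩⟩
  rcases h.pi_eq.1 e with rfl | ⟨-, m, rfl⟩
  exacts [hx, (g x hx).2 m]

theorem has_iff : D.n.has r α ↔ ∃ v, D.m.has (D.ι r) v ∧ D.π v = α := by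
  simp only [Map.has, h.ct.L, h.ct.R, h.ct.X]; grind
theorem cor_iff : D.n.cor r α ↔ ∃ v, D.m.cor (D.ι r) v ∧ D.π v = α := by
  simp only [Map.cor, h.ct.L, h.ct.R]; grind
theorem has_push (a : D.m.has (D.ι r) v) : D.n.has r (D.π v) := h.has_iff.2 ⟨v, a, rfl⟩
theorem push (f : D.m.Fc (D.ι r) x y z) : D.n.Fc r (D.π x) (D.π y) (D.π z) := by
  simp only [Map.Fc, h.ct.L, h.ct.R, h.ct.X] at f ⊢; grind
theorem lift (f : D.n.Fc r α β γ) :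
    ∃ x y z, D.m.Fc (D.ι r) x y z ∧ D.π x = α ∧ D.π y = β ∧ D.π z = γ := by
  obtain ⟨⟨rfl, rfl⟩ | ⟨rfl, rfl⟩, rfl⟩ := f
  · exact ⟨_, _, _, Map.fc_self _, (h.ct.L r).symm, (h.ct.R r).symm, (h.ct.X r).symm⟩
  · exact ⟨_, _, _, (Map.fc_self _).symm, (h.ct.R r).symm, (h.ct.L r).symm, (h.ct.X r).symm⟩
theorem hug_iff {t : D.Sg} : D.n.hug r t ↔ D.m.hug (D.ι r) t := by
  simp only [Map.hug, h.ct.stem, h.ct.bar]
theorem inf_iff : D.ι r = D.m.inf ↔ r = D.n.inf := by rw [← h.ct.inf, h.ct.inj.eq_iff]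
theorem bd_pi (e : D.U x) : D.n.Bd (D.π x) := fun n => by
  obtain ⟨v, a, q⟩ := h.has_iff.1 n
  exact h.bd v (h.toOk.ob_U e (h.pi_ob e q)) (h.ct.inf ▸ a)
theorem bd_of_pi (e : D.n.Bd (D.π x)) : D.m.Bd x := fun n => e (h.has_push (h.ct.inf.symm ▸ n))
theorem adj_push (a : D.m.Adj u v) (e : D.π u ≠ D.π v) : D.n.Adj (D.π u) (D.π v) := (h.ct.adj u v a e).1
theorem ln_push (a : D.m.Adj u v) (e : D.π u ≠ D.π v) : D.n.ln (D.π u) (D.π v) = D.m.ln u v :=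
  (h.ct.adj u v a e).2
theorem adj_lift (a : D.n.Adj α β) : ∃ u v, D.m.Adj u v ∧ D.π u = α ∧ D.π v = β := by
  obtain ⟨e, r, a1, a2⟩ := a
  obtain ⟨u, b1, rfl⟩ := h.has_iff.1 a1
  obtain ⟨v, b2, rfl⟩ := h.has_iff.1 a2
  exact ⟨u, v, ⟨fun q => e (q ▸ rfl), _, b1, b2⟩, rfl, rfl⟩
/-- a face that is not an end of a matched rung survives -/
theorem exJ (n : ∀ c, D.U c → D.Mg c → ¬ D.m.GE j c (D.p c)) : ∃ r, D.ι r = j :=
  (h.ct.rng j).2 fun g => by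
    obtain ⟨c, a1, a2, a3⟩ := h.rg_iff.1 g
    exact n c a1 a2 a3
theorem exJ_ge (g : D.m.GE j x y) (e : D.π x ≠ D.π y) : ∃ r, D.ι r = j := h.exJ fun c a1 a2 a3 => by
  have b1 := (h.pi_mg a1 a2).2 (a3.fc.cor_iff.1 g.fc.cor1)
  exact e (b1.trans ((h.pi_mg a1 a2).2 (a3.fc.cor_iff.1 g.fc.cor2)).symm)
theorem exJ_jm (e : D.U x) (n : ¬ D.Mg x) : ∃ r, D.ι r = D.jm x := h.exJ_ge (h.ge x e) (h.pi_ne_p e n)
/-- a face of the contraction does not contain both halves of a merged object -/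
theorem not_both (e : D.U c) (n : D.Mg c) (a : D.m.has (D.ι r) c) : ¬ D.m.has (D.ι r) (D.p c) :=
  fun b => (h.ct.rng _).1 ⟨r, rfl⟩ (h.rg_iff.2 ⟨c, e, n, h.toOk.merged e n ⟨a, b⟩⟩)
theorem far_push (f : D.m.far (D.ι r) (D.ι r')) : D.n.far r r' :=
  ⟨fun e => f.1 (e ▸ rfl), fun e => f.2.1 (h.inf_iff.2 e), fun e => f.2.2.1 (h.inf_iff.2 e),
    fun _ => by simp only [h.cor_iff, f.2.2.2]⟩
/-- two objects, both merged, touch along one line -/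
theorem mm_one (ea : D.U a) (ma : D.Mg a) (eb : D.U b) (mb : D.Mg b) (n : b ∉ D.ob a)
    (hx : x ∈ D.ob a) (hy : y ∈ D.ob b) (hu : u ∈ D.ob a) (hv : v ∈ D.ob b) (a1 : D.m.Adj x y)
    (a2 : D.m.Adj u v) : D.m.ln x y = D.m.ln u v := by
  have := (h.pi_ne ea n).symm
  have e1 := (h.pi_mg ea ma).2 hx; have e2 := (h.pi_mg eb mb).2 hy
  have e3 := (h.pi_mg ea ma).2 hu; have e4 := (h.pi_mg eb mb).2 hv
  rw [← h.ln_push a1 (by rwa [e1, e2]), ← h.ln_push a2 (by rwa [e3, e4]), e1, e2, e3, e4]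

/-- a piece between two nodes: some face of the contraction on it touches the given cell -/
theorem te (a : D.m.Adj x u) (e : D.π x ≠ D.π u) :
    ∃ r, D.m.has (D.ι r) x ∧ D.n.On r (D.π x) (D.π u) := by
  have ty : ∀ j v, D.m.On j x v → D.π v = D.π u → (∃ r, D.ι r = j) ∨
      (D.U x ∧ D.Mg x ∧ D.m.Fc j x (D.p x) v) ∨ (D.U v ∧ D.Mg v ∧ D.m.Fc j v (D.p v) x) := by
    intro j v o ev
    by_cases n : ∃ r, D.ι r = j
    · exact .inl n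
    obtain ⟨c, c1, c2, g⟩ := h.rg_iff.1 (not_not.1 (mt (h.ct.rng j).2 n))
    have t : ∀ s, D.m.has j s → s ∈ D.ob c ∨ s = D.m.X j := fun s hs => by
      have := g.fc.has_iff.1 hs; rw [Cb.mem_ob]; tauto
    have f : ∀ s ∈ D.ob c, D.U s ∧ D.Mg s ∧ D.m.Fc j s (D.p s) (D.m.X j) := fun s hs => by
      refine ⟨h.toOk.ob_U c1 hs, (h.toOk.mg_congr c1 hs).2 c2, ?_⟩
      rcases hs with rfl | rfl
      exacts [g, by rw [h.pp c c1]; exact g.symm]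
    rcases t x o.1 with b1 | b1 <;> rcases t v o.2 with b2 | b2
    · exact absurd (((h.pi_mg c1 c2).2 b1).trans (((h.pi_mg c1 c2).2 b2).symm.trans ev)) e
    · exact .inr (.inl (b2 ▸ f x b1))
    · exact .inr (.inr (b1 ▸ f v b2))
    · exact absurd (by rw [← ev, b1, b2]) e
  have fin : ∀ j v, D.m.On j x v → D.π v = D.π u → (∃ r, D.ι r = j) →
      ∃ r, D.m.has (D.ι r) x ∧ D.n.On r (D.π x) (D.π u) := by
    rintro _ v o ev ⟨r, rfl⟩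
    exact ⟨r, o.1, h.has_push o.1, ev ▸ h.has_push o.2⟩
  have two : ∀ j j' s t, j ≠ j' → D.U s → D.m.Fc j s (D.p s) t → D.m.Fc j' s (D.p s) t → False :=
    fun j j' s t n us f f' => h.toOk.fl_ne ⟨us, j, j', n, f, f'⟩ rfl
  have mix : ∀ j j', D.U x → D.m.Fc j x (D.p x) u → D.U u → D.Mg u → D.m.Fc j' u (D.p u) x →
      ∃ r, D.m.has (D.ι r) x ∧ D.n.On r (D.π x) (D.π u) := by
    intro j j' ux f uu mu f'
    obtain ⟨k, kj, o, -⟩ := h.mo.other (u := x) (v := D.p u) ⟨f'.has3, f'.has2⟩ (h.mo.fc_ne f').2.2.symm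
    rcases ty k _ o (h.pi_p uu mu) with t | ⟨-, -, t⟩ | ⟨-, -, t⟩
    · exact fin k _ o (h.pi_p uu mu) t
    · refine absurd (Cb.p_ob u) (h.toOk.fl_mg_not ⟨ux, j, k, fun q => ?_, f, t⟩ uu mu)
      exact h.toOk.p_ne uu (t.X_eq.symm.trans (q ▸ f.X_eq))
    · rw [h.pp u uu] at t
      exact (two _ _ _ _ kj uu t.symm f').elim
  obtain ⟨xu, j, o⟩ := a
  obtain ⟨j', n, o', -⟩ := h.mo.other o xu
  rcases ty j u o rfl with t | ⟨t1, t2, t⟩ | ⟨t1, t2, t⟩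
  · exact fin j u o rfl t
  all_goals rcases ty j' u o' rfl with s | ⟨s1, s2, s⟩ | ⟨s1, s2, s⟩
  · exact fin j' u o' rfl s
  · exact (two _ _ _ _ n s1 s t).elim
  · exact mix j j' t1 t s1 s2 s
  · exact fin j' u o' rfl s
  · exact mix j' j s1 s t1 t2 t
  · exact (two _ _ _ _ n s1 s t).elim

theorem off (s : D.Cy E F Γ) (n : v ∉ Γ) (β : D.W) : ¬ E (D.π v) β :=
  fun e => n ((h.mem_pi s.1).1 (s.2.2 _ _ e))

theorem cl_Ks (s : D.Cy E F Γ) : D.m.Cl Γ (D.Ks F Γ) := ⟨fun _ a => a.1, fun x hx y a hy => ⟨hy, by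
  by_cases e : D.π x = D.π y
  · exact e ▸ hx.2
  · exact (h.no.sd_adj s.2.1 (h.off s hx.1) (h.off s hy) (h.adj_push a e)).1 hx.2⟩⟩

theorem bd_Ks (s : D.Cy E F Γ) (i : D.n.inf ∉ F) (a : v ∈ D.Ks F Γ) : D.m.Bd v :=
  h.bd_of_pi (h.no.bd_side s.2.1 i (h.off s a.1) a.2)

/-- a face that touches a cell off the cycle lies on the side of the cell -/
theorem Ks_iff (s : D.Cy E F Γ) (n : v ∉ Γ) (a : D.n.has r (D.π v)) : v ∈ D.Ks F Γ ↔ r ∈ F :=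
  (and_iff_right n).trans (h.no.sd_iff s.2.1 (h.off s n) a)

theorem cy_compl (s : D.Cy E F Γ) : D.Cy E Fᶜ Γ := ⟨s.1, s.2.1.compl, s.2.2⟩

theorem th_compl (s : D.Th E F Γ c x y) : D.Th E Fᶜ Γ c x y := ⟨h.cy_compl s.1, s.2⟩

theorem th_symm (s : D.Th E F Γ c x y) : D.Th E F Γ c y x :=
  ⟨s.1, s.2.1.symm, fun w => (s.2.2 w).trans or_comm⟩

theorem th_congr (s : D.Th E F Γ c x y) (e : d ∈ D.ob c) : D.Th E F Γ d x y :=
  ⟨s.1, h.toOk.fl_congr s.2.1 e, by rw [(h.pi_mg s.2.1.1 (h.toOk.fl_mg s.2.1)).2 e]; exact s.2.2⟩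

/-- the line of an end of a rung in the contraction -/
theorem fl_ln_push (f : D.Fl c x y) : D.π c ≠ D.π x ∧ D.n.ln (D.π c) (D.π x) = D.m.ln c x :=
  have e := (h.pi_ne f.1 (h.toOk.fl_not f)).symm
  ⟨e, h.ln_push (h.toOk.fl_adj f (Cb.self_ob c)) e⟩

/-- a corner of a node is a junction of one of its cells with a cell over another node -/
theorem cor_lift (e : D.U c) (a : D.n.cor r (D.π c)) :
    ∃ d ∈ D.ob c, D.π d = D.π c ∧ ∃ z, D.m.GE (D.ι r) d z ∧ D.π z ≠ D.π c := by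
  obtain ⟨d, a1, a2⟩ := h.cor_iff.1 a
  obtain ⟨z, g⟩ := a1.ge
  exact ⟨d, h.pi_ob e a2, a2, z, g, a2 ▸ (h.no.fc_ne (h.push g)).1.symm⟩

theorem sep_of_side (s : D.Cy E F Γ) (ha : α ∉ D.π '' Γ) (hb : β ∉ D.π '' Γ) (a : D.n.sd F α)
    (b : D.n.sd Fᶜ β) : ∃ u v, D.m.Sep Γ u v := by
  obtain ⟨u, rfl⟩ := h.ct.surj α
  obtain ⟨v, rfl⟩ := h.ct.surj β
  obtain ⟨r, rF, b⟩ := b
  rw [h.mem_pi s.1] at ha hb
  exact ⟨u, v, _, h.cl_Ks s, ⟨ha, a⟩, fun n => rF ((h.Ks_iff s hb b).1 n), hb⟩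

end Ok

end Cf

end Pool.Agent.P.MP_5f84aa_co.G
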