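import Pool.Agent.P.MP_5f84aa_co.G.Map2

/-! Part R2: perfectly matched cells.  Definitions. -/

namespace Pool.Agent.P.MP_5f84aa_co.G

variable {V J Sg : Type}

namespace Map

variable (m : Map V J Sg)

/-- the face `j` has the corners `x`, `y` and the flat cell `z` -/
def Fc (j : J) (x y z : V) : Prop :=
  ((m.L j = x ∧ m.R j = y) ∨ (m.L j = y ∧ m.R j = x)) ∧ m.X j = z

/-- the face `j` has the corners `x` and `y` -/
def GE (j : J) (x y : V) : Prop := m.Fc j x y (m.X j)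

/-- the face `j` contains `u` and `v` -/
def On (j : J) (u v : V) : Prop := m.has j u ∧ m.has j v

/-- the face `j` contains `x`, `y` and `z` -/
def Tri (j : J) (x y z : V) : Prop := m.has j x ∧ m.has j y ∧ m.has j z

/-- a light at `j` sees the whole bar `u` -/
def hug (j : J) (u : Sg) : Prop := m.stem j = u ∨ m.bar j = u

/-- bounded cells -/
def Bd (v : V) : Prop := ¬ m.has m.inf v

/-- the two faces on the piece between `u` and `v` are separated by `F` -/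
def Spl (F : Set J) (u v : V) : Prop :=
  u ≠ v ∧ ∃ j j', m.On j u v ∧ m.On j' u v ∧ j ∈ F ∧ j' ∉ F

/-- `F` is one side of the cycle `E` -/
def Side (E : V → V → Prop) (F : Set J) : Prop := ∀ u v, m.Spl F u v ↔ E u v

/-- `v` lies in a face of `F` -/
def sd (F : Set J) (v : V) : Prop := ∃ j ∈ F, m.has j v

/-- `K` is closed in the complement of `Γ` -/
def Cl (Γ K : Set V) : Prop :=
  (∀ x ∈ K, x ∉ Γ) ∧ ∀ x ∈ K, ∀ y, m.Adj x y → y ∉ Γ → y ∈ K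

/-- `Γ` separates `u` from `v` -/
def Sep (Γ : Set V) (u v : V) : Prop := ∃ K, m.Cl Γ K ∧ u ∈ K ∧ v ∉ K ∧ v ∉ Γ

/-- a convex corner of `K` on the piece between `u` and `v` -/
def Cv (K : Set V) (u v : V) : Prop := ∃ j, ∃ z ∈ K, m.Fc j z u v ∨ m.Fc j z v u

/-- `g` has a junction with a cell of `K` -/
def GT (g : V) (K : Set V) : Prop := ∃ q, ∃ e ∈ K, m.GE q g e

/-- the degree of a cell -/
noncomputable def deg (v : V) : ℕ := {w | m.Adj v w}.ncard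

/-- a state of the second optimisation: `Z` dark cells of small degree, `M` a perfect matching of the
cells outside `S₀` and `Z`, `Φ` the lights that hug -/
structure State (S₀ : Set V) (K : ℕ) (Z : Set V) (M Φ : Set J) : Prop where
  ZS : ∀ z ∈ Z, z ∉ S₀
  dg : ∀ z ∈ Z, m.deg z ≤ K
  Mc : ∀ j ∈ M, ∀ v, m.cor j v → v ∉ S₀ ∧ v ∉ Z
  Mu : ∀ v, v ∉ S₀ → v ∉ Z → ∃! j, j ∈ M ∧ m.cor j v
  ΦM : Φ ⊆ M
  Φc : Φ.ncard ≤ Z.ncard
  V1 : ∀ x ∈ Z, ∀ y ∈ Z, m.Adj x y → ∃ h ∈ Φ, m.hug h (m.ln x y)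
  V2 : ∀ j ∈ M, ∀ j', m.far j j' → m.X j' ∈ Z → ∃ h ∈ Φ, m.hug h (m.bar j')

/-- opposite sides of a bar -/
def Opp : Prop := ∀ j x y w, j ≠ m.inf → m.GE j x y → m.Adj x w → m.ln x w = m.bar j →
  m.Adj y w → m.ln y w = m.bar j

/-- the map and all its contractions are maps of subdivisions -/
def OkR : Prop := m.Ok ∧ m.Cnt ∧ ∀ ρ : Set J,
  ∃ (V' J' : Type) (_ : Fintype V') (_ : Fintype J') (m' : Map V' J' Sg) (π : V → V') (ι : J' → J),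
    m'.Ok ∧ m'.Cnt ∧ m'.Opp ∧ m.Contr ρ m' π ι

end Map

/-- the edges of a triangle -/
def E3 (a b c u v : V) : Prop := s(u, v) = s(a, b) ∨ s(u, v) = s(b, c) ∨ s(u, v) = s(c, a)

/-- the edges of a quadrilateral -/
def E4 (a b c d u v : V) : Prop :=
  s(u, v) = s(a, b) ∨ s(u, v) = s(b, c) ∨ s(u, v) = s(c, d) ∨ s(u, v) = s(d, a)

/-- the edges of a pentagon -/
def E5 (a b c d e u v : V) : Prop :=
  s(u, v) = s(a, b) ∨ s(u, v) = s(b, c) ∨ s(u, v) = s(c, d) ∨ s(u, v) = s(d, e) ∨ s(u, v) = s(e, a)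

namespace Map

variable (m : Map V J Sg)

/-- three consecutive pieces carry convex corners -/
def Q4N (K : Set V) (a b c d : V) : Prop := m.Cv K a b ∧ m.Cv K b c ∧ m.Cv K c d

/-- `K` lies in the triangle `a b c` -/
def Q4T (K : Set V) (a b c d : V) : Prop :=
  (∀ v ∈ K, ¬ m.Adj v d) ∧ m.Cv K a b ∧ m.Cv K b c ∧ m.Cv K c a

/-- a closed set of bounded cells on the side `F` of the quadrilateral `a b c d` -/
def Q4 (F : Set J) (K : Set V) (a b c d : V) : Prop :=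
  m.Side (E4 a b c d) F ∧ m.Cl {a, b, c, d} K ∧ (∀ v ∈ K, m.sd F v ∧ m.Bd v) ∧
  (((∀ j ∈ F, ¬ m.On j a c ∧ ¬ m.On j b d) ∧
      (m.Q4N K a b c d ∨ m.Q4N K b c d a ∨ m.Q4N K c d a b ∨ m.Q4N K d a b c)) ∨
    m.Q4T K a b c d ∨ m.Q4T K b c d a ∨ m.Q4T K c d a b ∨ m.Q4T K d a b c)

end Map

/-- a map with a set `S` of hubs, a perfect matching of the other cells (`p` partner, `jm` junction)
and a set `R` of lit rungs between hubs -/
structure Cb where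
  V : Type
  J : Type
  Sg : Type
  m : Map V J Sg
  S : Set V
  p : V → V
  jm : V → J
  R : Set J

namespace Cb

variable (D : Cb)

/-- not a hub -/
def U (x : D.V) : Prop := x ∉ D.S

/-- the object of a cell -/
def ob (x : D.V) : Set D.V := {x, D.p x}

/-- the object is a rung with its two halves -/
def Mg (x : D.V) : Prop := ∃ j', D.m.far (D.jm x) j'

/-- `c` is a half of a matched rung whose ends touch `x` and `y` -/
def Fl (c x y : D.V) : Prop :=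
  D.U c ∧ ∃ j j', j ≠ j' ∧ D.m.Fc j c (D.p c) x ∧ D.m.Fc j' c (D.p c) y

/-- touched by the end of a lit rung between hubs -/
def Tn (x : D.V) : Prop := ∃ j ∈ D.R, ∃ j', D.m.far j j' ∧ (D.m.X j = x ∨ D.m.X j' = x)

/-- `M` is a perfect matching of the cells outside `S`, `x`, `y` -/
def PM (x y : D.V) (M : Set D.J) : Prop :=
  (∀ j ∈ M, ∀ v, D.m.cor j v → D.U v ∧ v ≠ x ∧ v ≠ y) ∧
    ∀ v, D.U v → v ≠ x → v ≠ y → ∃! j, j ∈ M ∧ D.m.cor j v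

/-- a good move: `x` and `y` become dark, `H` is the set of the hugged bars -/
def Good : Prop := ∃ (x y : D.V) (M : Set D.J) (H : Set D.Sg), x ≠ y ∧ D.U x ∧ D.U y ∧ D.PM x y M ∧
  (H = ∅ ∨ ∃ h ∈ M, H = {u | D.m.hug h u} ∧ ∀ j', D.m.far h j' → D.m.X j' ≠ x ∧ D.m.X j' ≠ y) ∧
  (D.m.Adj x y → D.m.ln x y ∈ H) ∧
  (∀ j ∈ M, ∀ j', D.m.far j j' → s(D.m.X j, D.m.X j') = s(x, y) →
    D.m.bar j ∈ H ∨ D.m.bar j' ∈ H) ∧
  ∀ j ∈ D.R, ∀ j', D.m.far j j' → s(D.m.X j, D.m.X j') ≠ s(x, y)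

/-- alternating paths from `x` to `y` with support `Y` and new junctions `N` -/
inductive Al : Set D.V → Set D.J → D.V → D.V → Prop
  | base (a : D.V) : D.U a → Al (D.ob a) ∅ a (D.p a)
  | step {Y N x y} (e : D.V) (q : D.J) : Al Y N x y → D.U e → e ∉ Y → D.m.GE q y e →
      Al (Y ∪ D.ob e) (insert q N) x (D.p e)

/-- the object of `a` touches the cell `u` -/
def Tch (a u : D.V) : Prop := ∃ x ∈ D.ob a, D.m.Adj x u

/-- the next layer -/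
def nx (T : Set D.V) : Set D.V := {x | x ∈ T ∨ ∃ h ∈ T, D.Tch x h}

/-- far from the hubs -/
def Far (k : ℕ) (x : D.V) : Prop := x ∉ D.nx^[k] D.S

/-- two different objects -/
def Df (a b : D.V) : Prop := D.U a ∧ D.U b ∧ b ∉ D.ob a

/-- two objects have a common junction -/
def GA (a b : D.V) : Prop := ∃ q, ∃ x ∈ D.ob a, ∃ y ∈ D.ob b, D.m.GE q x y

/-- two objects touch -/
def OA (a b : D.V) : Prop := ∃ y ∈ D.ob b, D.Tch a y

/-- two objects separate the map -/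
def Dig (a b : D.V) : Prop := ∃ u v, D.m.Sep (D.ob a ∪ D.ob b) u v

/-- the ends of the rung of `c` touch the objects of `a` and `b` -/
def FO (c a b : D.V) : Prop := ∃ x ∈ D.ob a, ∃ y ∈ D.ob b, D.Fl c x y

/-- typed triples -/
def Tr (a b c : D.V) : Prop := D.Df a b ∧ D.OA a b ∧ ¬ D.Dig a b ∧ D.FO c a b

/-- the object lies on a ring -/
def Rg (z : D.V) : Prop := (∃ b, D.Df z b ∧ D.OA z b ∧ D.Dig z b) ∨
  ∃ b c u v, D.Tr z b c ∧ D.Tch z u ∧ D.Tch z v ∧ D.m.Sep (D.ob z ∪ D.ob b ∪ D.ob c) u v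

/-- linked objects -/
def Lk (a b : D.V) : Prop := D.Df a b ∧ ¬ D.Mg a ∧ ¬ D.Mg b ∧
  ((∃ x ∈ D.ob a, ∃ y ∈ D.ob b, ∃ j j', j ≠ j' ∧ D.m.Fc j x y (D.p x) ∧ D.m.Fc j' x y (D.p y)) ∨
    ∃ x ∈ D.ob a ∪ D.ob b, ∀ w, D.m.Adj x w → w ∈ D.ob a ∪ D.ob b)

/-- a stuck object -/
def St (z b c : D.V) : Prop := D.Df z b ∧ ¬ D.Mg b ∧ D.GA z b ∧ D.FO c z b ∧
  (D.Dig b c ∨ (¬ D.Mg z ∧ ∃ j, ∃ x ∈ D.ob c, ∃ y ∈ D.ob b, ∃ w ∈ D.ob z ∪ D.ob b, D.m.Fc j x y w))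

/-- tainted objects -/
def TO (a : D.V) : Prop := ∃ x ∈ D.ob a, D.Tn x

/-- inactive objects -/
def Ina (z : D.V) : Prop := D.U z ∧ ((∀ b, D.Df z b → ¬ D.GA z b) ∨
  ∃ z', D.Lk z z' ∧ ∀ b, D.U b → D.GA z b ∨ D.GA z' b → b ∈ D.ob z ∪ D.ob z')

/-- all junctions of the object of `z` lie in the objects of `z` and `b` -/
def Cf2 (z b : D.V) : Prop := ∀ q, ∀ x ∈ D.ob z, ∀ w, D.m.GE q x w → w ∈ D.ob z ∪ D.ob b

/-- a place: the light at `q` replaces the lights of two objects, `p x` and `p y` become dark -/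
def Pl (q : D.J) (x y : D.V) : Prop := D.m.GE q x y ∧
  (D.m.Adj (D.p x) (D.p y) → D.m.hug q (D.m.ln (D.p x) (D.p y))) ∧
  ∀ q', D.m.far q q' → D.m.X q' ≠ D.p x ∧ D.m.X q' ≠ D.p y

/-- a blocker of the dark pair `x`, `y` -/
def Bk (q : D.J) (c x y : D.V) : Prop :=
  D.Fl c x y ∧ ¬ D.m.hug q (D.m.ln c x) ∧ ¬ D.m.hug q (D.m.ln c y)

/-- a separating quadrilateral of two plain objects -/
def T4 (a b : D.V) : Prop := ∃ q, ∃ x ∈ D.ob a, ∃ y ∈ D.ob b, ∃ F u v, D.m.GE q x y ∧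
  D.m.Adj (D.p x) (D.p y) ∧ D.m.Side (E4 (D.p x) x y (D.p y)) F ∧
  u ∉ D.ob a ∪ D.ob b ∧ v ∉ D.ob a ∪ D.ob b ∧ D.m.sd F u ∧ ¬ D.m.sd F v

/-- a union of objects -/
def Wh (Γ : Set D.V) : Prop := ∀ x ∈ Γ, D.U x ∧ D.p x ∈ Γ

/-- a set of cells that contains both halves of each of its merged objects -/
def Sat (Γ : Set D.V) : Prop := ∀ x ∈ Γ, D.U x ∧ (D.Mg x → D.p x ∈ Γ)

/-- a junction with a cell outside `Γ` and `K` -/
def Out (Γ K : Set D.V) (g : D.V) : Prop := D.m.GT g (Γ ∪ K)ᶜ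

/-- the setting of a separating quadrilateral `g`, `p g`, `x`, `p x` -/
def T4C (g x : D.V) (F : Set D.J) (K : Set D.V) : Prop := D.Df g x ∧ ¬ D.Mg g ∧ ¬ D.Mg x ∧
  D.Far 2 g ∧ D.Far 2 x ∧ D.m.Q4 F K g (D.p g) x (D.p x) ∧
  ((∃ q, D.m.GE q (D.p g) x) ∨ ∃ q, D.m.GE q g (D.p x))

/-- the cells of a ring -/
def RS (Γ : Set D.V) : Prop := (∃ a b, D.Df a b ∧ D.OA a b ∧ Γ = D.ob a ∪ D.ob b) ∨
  ∃ a b c, D.Tr a b c ∧ Γ = D.ob a ∪ D.ob b ∪ D.ob c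

/-- marked cells -/
def Mk (x : D.V) : Prop := x ∈ D.S ∨ (D.U x ∧ D.TO x) ∨ D.Ina x

/-- the bars hugged by at most one light of the new matching -/
def Hg (Y : Set D.V) (N : Set D.J) (x y : D.V) (H : Set D.Sg) : Prop := H = ∅ ∨
  ∃ h, (h ∈ N ∨ ∃ c, D.U c ∧ c ∉ Y ∧ h = D.jm c) ∧ H = {u | D.m.hug h u} ∧
    ∀ j', D.m.far h j' → D.m.X j' ≠ x ∧ D.m.X j' ≠ y

/-- the hubs block everything near a state -/
structure Blk (S₀ : Set D.V) (K : ℕ) (Z : Set D.V) (M Φ : Set D.J) : Prop where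
  s0 : S₀ ⊆ D.S
  zs : Z ⊆ D.S
  nz : ∀ z ∈ Z, ∀ w, D.m.Adj z w → w ∈ D.S
  hi : ∀ v, D.U v → D.m.deg v ≤ K
  fr : Φ ⊆ D.R
  rm : D.R ⊆ M
  fx : ∀ j ∈ M, ∀ j', D.m.far j j' → j ∈ Φ ∨ D.m.X j ∈ Z → D.m.X j' ∈ D.S
  rs : ∀ v ∈ D.S, v ∉ S₀ → v ∉ Z → ∃ j ∈ D.R, D.m.cor j v

structure Ok : Prop where
  fV : Finite D.V
  fJ : Finite D.J
  mo : D.m.Ok
  mc : D.m.Cnt
  bd : ∀ v, D.U v → D.m.Bd v
  pU : ∀ v, D.U v → D.U (D.p v)
  pp : ∀ v, D.U v → D.p (D.p v) = v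
  jp : ∀ v, D.U v → D.jm (D.p v) = D.jm v
  ge : ∀ v, D.U v → D.m.GE (D.jm v) v (D.p v)
  RS : ∀ j ∈ D.R, ∀ v, D.m.cor j v → v ∈ D.S
  Rc : D.R.ncard ≤ D.S.ncard

end Cb

/-- the same with the contraction of the matched rungs -/
structure Cf extends Cb where
  W : Type
  I : Type
  n : Map W I Sg
  π : V → W
  ι : I → J

namespace Cf

variable (D : Cf)

structure Ok : Prop extends D.toCb.Ok where
  fW : Finite D.W
  fI : Finite D.I
  no : D.n.Ok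
  nc : D.n.Cnt
  opp : D.n.Opp
  ct : D.m.Contr (D.jm '' D.Sᶜ) D.n D.π D.ι

/-- the faces of the contraction that touch the cell `c` -/
def hf (c : D.V) : Set D.I := {j | D.m.has (D.ι j) c}

/-- a separating triangle of a merged and a plain object -/
def T3 (a b : D.V) : Prop := D.Tch a b ∧ D.Tch a (D.p b) ∧
  ∀ r, ¬ D.n.Tri r (D.π a) (D.π b) (D.π (D.p b))

/-- the cells off `Γ` on the side `F` -/
def Ks (F : Set D.I) (Γ : Set D.V) : Set D.V := {v | v ∉ Γ ∧ D.n.sd F (D.π v)}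

/-- `F` is a side of a cycle of the contraction through objects of `Γ` -/
def Cy (E : D.W → D.W → Prop) (F : Set D.I) (Γ : Set D.V) : Prop :=
  D.Sat Γ ∧ D.n.Side E F ∧ ∀ u v, E u v → u ∈ D.π '' Γ

/-- the cycle passes the merged object of `c` at the ends of its rung -/
def Th (E : D.W → D.W → Prop) (F : Set D.I) (Γ : Set D.V) (c x y : D.V) : Prop :=
  D.Cy E F Γ ∧ D.Fl c x y ∧ ∀ w, E (D.π c) w ↔ w = D.π x ∨ w = D.π y

end Cf

end Pool.Agent.P.MP_5f84aa_co.G
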