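import Pool.Agent.P.MP_5f84aa_co.G.RBas2

/-! Part R2: the statements. -/

namespace Pool.Agent.P.MP_5f84aa_co.G

/-! ### Maps -/

def S_JC1 : Prop := ∀ (V J Sg : Type) [Finite V] [Finite J] (m : Map V J Sg), m.Ok →
  ∀ (W : Set V) (y w₀ : V), y ∉ W → w₀ ∈ W →
  (∀ w ∈ W, Relation.ReflTransGen (fun a b => m.Adj a b ∧ b ∈ W) w₀ w) →
  {j | m.L j ∈ W ∧ m.R j ∈ W ∧ m.X j ∈ W}.ncard + W.ncard ≤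
    {e : Sym2 V | ∃ u ∈ W, ∃ v ∈ W, m.Adj u v ∧ e = s(u, v)}.ncard + 1

def S_JC0 : Prop := ∀ (V J Sg : Type) [Finite V] [Finite J] (m : Map V J Sg), m.Ok → m.Cnt →
  ∀ Y : Set V, Y.Nonempty → (∀ v ∈ Y, m.Bd v) →
  (∀ w ∉ Y, Relation.ReflTransGen (fun a b => m.Adj a b ∧ b ∉ Y) (m.L m.inf) w) →
  {j | (m.L j ∈ Y ∧ m.R j ∈ Y) ∨ (m.L j ∈ Y ∧ m.X j ∈ Y) ∨ (m.R j ∈ Y ∧ m.X j ∈ Y)}.ncard + 2 ≤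
    2 * Y.ncard

def S_EBT : Prop := ∀ (V J Sg : Type) [Finite V] [Finite J] (m : Map V J Sg), m.Ok → m.Cnt →
  ∀ Y : Set V, (∀ v ∈ Y, m.Bd v) → ∀ j x c w, m.Fc j x c w → x ∈ Y → w ∈ Y → c ∉ Y →
  {j | m.L j ∈ Y ∧ m.R j ∈ Y}.ncard + 3 ≤ 2 * Y.ncard

def S_Q4K : Prop := ∀ (V J Sg : Type) [Finite V] [Finite J] (m : Map V J Sg), m.Ok →
  ∀ (F : Set J) (a b c d u : V), m.Side (E4 a b c d) F → m.inf ∉ F → a ≠ c → b ≠ d →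
  u ∉ ({a, b, c, d} : Set V) → m.sd F u → ∃ K, m.Q4 F K a b c d

def S_DEG : Prop := ∀ (V J Sg : Type) [Finite V] [Finite J] (m : Map V J Sg), m.Ok → m.Cnt →
  ∀ K : ℕ, (K + 1) * {v | K < m.deg v}.ncard ≤ 12 * Nat.card V

/-! ### Moves -/

def S_MV : Prop := ∀ D : Cb, D.Ok → ∀ Y N x y H, D.Al Y N x y → D.Hg Y N x y H →
  (D.m.Adj x y → D.m.ln x y ∈ H) →
  (∀ q ∈ N, ∀ q', D.m.far q q' → s(D.m.X q, D.m.X q') = s(x, y) → D.m.bar q ∈ H ∨ D.m.bar q' ∈ H) →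
  D.Good ∨ (D.Tn x ∧ D.Tn y) ∨ ∃ c, c ∉ Y ∧ D.Fl c x y ∧ D.m.ln c x ∉ H ∧ D.m.ln c y ∉ H

def S_MV0 : Prop := ∀ D : Cb, D.Ok → ∀ a b, D.Df a b → ¬ D.Mg b →
  D.m.stem (D.jm a) = D.m.stem (D.jm b) → D.Good ∨ D.TO a ∨ ∃ c, D.Bk (D.jm b) c a (D.p a)

def S_MV1 : Prop := ∀ D : Cb, D.Ok → ∀ q x y, D.Df x y → D.Pl q x y →
  D.Good ∨ (D.Tn (D.p x) ∧ D.Tn (D.p y)) ∨ ∃ c, c ∉ D.ob x ∪ D.ob y ∧ D.Bk q c (D.p x) (D.p y)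

def S_MV2 : Prop := ∀ D : Cb, D.Ok → ∀ q x y, D.Df x y → D.m.GE q x y →
  ¬ D.m.Adj (D.p x) (D.p y) →
  (∀ q', D.m.far q q' → s(D.m.X q, D.m.X q') ≠ s(D.p x, D.p y)) →
  D.Good ∨ (D.Tn (D.p x) ∧ D.Tn (D.p y)) ∨ ∃ c, c ∉ D.ob x ∪ D.ob y ∧ D.Fl c (D.p x) (D.p y)

def S_TM2 : Prop := ∀ D : Cb, D.Ok → ∀ Γ K g o e q q', D.Wh Γ → D.m.Cl Γ K → g ∈ Γ →
  D.m.GE q g o → D.U o → o ∉ Γ ∪ K → D.m.GE q' (D.p g) e → D.U e → e ∈ K → ¬ D.Tn (D.p e) →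
  D.Good ∨ ∃ d ∈ Γ, d ∉ D.ob g ∧ D.Fl d (D.p o) (D.p e)

def S_TM3 : Prop := ∀ D : Cb, D.Ok → ∀ Γ K g k o e q₁ q₂ q₃, D.Wh Γ → D.m.Cl Γ K → g ∈ Γ → k ∈ Γ →
  k ∉ D.ob g → D.m.GE q₁ g o → D.U o → o ∉ Γ ∪ K → D.m.GE q₂ (D.p g) k → D.m.GE q₃ (D.p k) e →
  D.U e → e ∈ K → ¬ D.Tn (D.p e) →
  (∀ q', D.m.far q₂ q' → s(D.m.X q₂, D.m.X q') ≠ s(D.p o, D.p e)) →
  D.Good ∨ ∃ d ∈ Γ, d ∉ D.ob g ∪ D.ob k ∧ D.Fl d (D.p o) (D.p e)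

/-! ### The contraction -/

def S_HALF : Prop := ∀ D : Cf, D.Ok → ∀ c x y, D.Fl c x y →
  ∀ w, D.n.Spl (D.hf c) (D.π c) w ↔ w = D.π x ∨ w = D.π y

def S_HS : Prop := ∀ D : Cf, D.Ok → ∀ E F Γ c x y, D.Th E F Γ c x y →
  ∃ d ∈ D.ob c, ∀ r, D.n.has r (D.π c) → (r ∈ F ↔ D.m.has (D.ι r) d)

def S_INH : Prop := ∀ D : Cf, D.Ok → ∀ E F Γ c a y e β, D.Cy E F Γ → D.Fl c a y →
  D.Fl a (D.p c) e → e ∈ D.Ks F Γ → (∀ r, D.m.has (D.ι r) c → r ∈ F) → E (D.π a) (D.π c) →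
  (∀ w, E (D.π a) w → w = D.π c ∨ w = β) → ∀ r, D.m.has (D.ι r) a → r ∈ F

def S_CM : Prop := ∀ D : Cf, D.Ok → ∀ E F Γ c x y r e, D.Th E F Γ c x y → r ∈ F →
  D.m.GE (D.ι r) c e → D.U e → D.p e ∈ D.Ks F Γ → ¬ D.Tn (D.p e) →
  (D.Good ∨ ∃ d ∈ Γ, d ∉ D.ob c ∪ D.ob e ∧ D.Fl d (D.p c) (D.p e)) ∧
  ((∀ q', D.m.far (D.ι r) q' → D.m.X q' ≠ D.p e) →
    D.Good ∨ ∃ d ∈ Γ, d ∉ D.ob c ∪ D.ob e ∧ D.Bk (D.ι r) d (D.p c) (D.p e))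

/-- the triangle of three merged objects -/
def S_CY3B : Prop := ∀ D : Cf, D.Ok → ∀ q x y c, D.Df x y → D.Mg x → D.Mg y → D.m.GE q x y →
  c ∉ D.ob x ∪ D.ob y → D.Bk q c (D.p x) (D.p y) →
  (∀ r, ¬ D.n.Tri r (D.π x) (D.π y) (D.π c)) ∧ ∃ F, D.n.inf ∉ F ∧
    D.Th (E3 (D.π x) (D.π y) (D.π c)) F (D.ob x ∪ D.ob y ∪ D.ob c) c (D.p x) (D.p y)

/-- the triangle of a merged and a plain object -/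
def S_CY3 : Prop := ∀ D : Cf, D.Ok → ∀ c b, D.Df c b → D.Mg c → ¬ D.Mg b → D.Tch c b →
  D.Tch c (D.p b) → ∃ F, D.n.inf ∉ F ∧
    D.Cy (E3 (D.π c) (D.π b) (D.π (D.p b))) F (D.ob c ∪ D.ob b)

/-- the triangle of a dropped object -/
def S_CY3D : Prop := ∀ D : Cf, D.Ok → ∀ a c, D.U a → D.Fl c a (D.p a) → ¬ D.Mg a ∧ ∃ F, D.n.inf ∉ F ∧
    D.Th (E3 (D.π a) (D.π (D.p a)) (D.π c)) F (D.ob a ∪ D.ob c) c a (D.p a)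

def S_CY4 : Prop := ∀ D : Cf, D.Ok → ∀ x y c, D.Df x y → D.Mg x → ¬ D.Mg y → D.m.Adj x y →
  c ∉ D.ob x → D.Fl c (D.p x) (D.p y) → ∃ F, D.n.inf ∉ F ∧
    D.Th (E4 (D.π x) (D.π y) (D.π (D.p y)) (D.π c)) F (D.ob x ∪ D.ob y ∪ D.ob c) c (D.p x) (D.p y)

def S_CY5 : Prop := ∀ D : Cf, D.Ok → ∀ x y c, D.Df x y → ¬ D.Mg x → ¬ D.Mg y → D.m.Adj x y →
  D.Fl c (D.p x) (D.p y) → ∃ F, D.n.inf ∉ F ∧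
    D.Th (E5 (D.π (D.p x)) (D.π x) (D.π y) (D.π (D.p y)) (D.π c)) F (D.ob x ∪ D.ob y ∪ D.ob c)
      c (D.p x) (D.p y)

def S_MMD : Prop := ∀ D : Cf, D.Ok → ∀ a c, D.U a → D.Mg a → D.U c → D.Mg c → ¬ D.Dig a c

def S_DR : Prop := ∀ D : Cb, D.Ok → ∀ a b, D.Df a b → D.Dig a b →
  ∃ u v, D.Tch a u ∧ D.Tch a v ∧ D.m.Sep (D.ob a ∪ D.ob b) u v

def S_SR : Prop := ∀ D : Cb, D.Ok → ∀ z b c u v, D.Df z b → D.OA z b → D.FO c z b →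
  D.m.Sep (D.ob z ∪ D.ob b ∪ D.ob c) u v → D.Rg z ∨ D.Dig b c

/-! ### Places -/

def S_L2P : Prop := ∀ D : Cf, D.Ok → ∀ q x y, D.Df x y → D.Mg x → D.Mg y → D.m.GE q x y → D.Pl q x y

def S_L3Q : Prop := ∀ D : Cb, D.Ok → ∀ q x y, D.Df x y → D.Mg x → D.m.GE q x y →
  ¬ D.Tch x (D.p y) → D.Pl q x y

def S_L3P : Prop := ∀ D : Cf, D.Ok → ∀ a b, D.Df a b → D.Mg a → ¬ D.Mg b → D.GA a b →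
  D.T3 a b ∨ (∃ r q, ∃ x ∈ D.ob a, ∃ y ∈ D.ob b, D.n.Tri r (D.π x) (D.π y) (D.π (D.p y)) ∧
    D.Pl q x y ∧ D.m.hug q (D.n.ln (D.π x) (D.π (D.p y)))) ∨
  ∃ q, ∃ x ∈ D.ob a, ∃ y ∈ D.ob b, D.m.GE q x y ∧ ¬ D.Tch x (D.p y)

def S_L1 : Prop := ∀ D : Cb, D.Ok → ∀ a b, D.Df a b → ¬ D.Mg a → ¬ D.Mg b → D.GA a b → ¬ D.Lk a b →
  D.T4 a b ∨ (∃ q, ∃ x ∈ D.ob a, ∃ y ∈ D.ob b, D.Pl q x y) ∨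
    D.m.stem (D.jm a) = D.m.stem (D.jm b)

def S_TW2 : Prop := ∀ D : Cb, D.Ok → ∀ z b j x c w, D.Df z b → D.Cf2 z b → D.m.Fc j x c w →
  x ∈ D.ob z ∪ D.ob b → w ∈ D.ob z ∪ D.ob b → c ∈ D.ob z ∪ D.ob b

def S_TW : Prop := ∀ D : Cb, D.Ok → ∀ z b c, D.Df z b → D.Cf2 z b → D.FO c z b →
  ¬ ∀ x ∈ D.ob z, ∀ w, D.m.Adj x w → w ∈ D.ob z ∪ D.ob b ∪ D.ob c

def S_L5 : Prop := ∀ D : Cb, D.Ok → ∀ z b d, D.Lk z b → D.Cf2 z b → D.U d → d ∉ D.ob z ∪ D.ob b →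
  D.GA b d → D.Good

def S_LKU : Prop := ∀ D : Cb, D.Ok → ∀ a b c, D.Lk a b → D.Lk a c → c ∈ D.ob b

/-! ### Part II: rings -/

def S_L2R : Prop := ∀ D : Cf, D.Ok → ∀ a b, D.Df a b → D.Mg a → D.Mg b → D.GA a b →
  D.Good ∨ D.TO a ∨ D.Rg a

def S_L3I : Prop := ∀ D : Cf, D.Ok → ∀ r q x y, D.Df x y → D.Mg x → ¬ D.Mg y →
  D.n.Tri r (D.π x) (D.π y) (D.π (D.p y)) → D.Pl q x y →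
  D.m.hug q (D.n.ln (D.π x) (D.π (D.p y))) →
  D.Good ∨ (D.TO x ∧ D.TO y) ∨ ∃ c, D.FO c x y ∧ ∃ u v, D.m.Sep (D.ob x ∪ D.ob y ∪ D.ob c) u v

def S_L3II : Prop := ∀ D : Cf, D.Ok → ∀ q x y, D.Df x y → D.Mg x → ¬ D.Mg y → D.m.GE q x y →
  ¬ D.Tch x (D.p y) → D.Good ∨ (D.TO x ∧ D.TO y) ∨
  (∃ c, D.FO c x y ∧ ∃ u v, D.m.Sep (D.ob x ∪ D.ob y ∪ D.ob c) u v) ∨
  ∃ c, D.FO c x y ∧ D.GA x c ∧ D.GA c y ∧ ∃ r, D.n.Tri r (D.π c) (D.π y) (D.π (D.p y))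

def S_L3R : Prop := ∀ D : Cf, D.Ok → ∀ a b, D.Df a b → D.Mg a → ¬ D.Mg b → D.GA a b →
  (D.Good ∨ D.TO b ∨ D.Rg b) ∧ (D.Good ∨ D.TO a ∨ D.Rg a ∨ ∃ c, D.St a b c)

def S_L4R : Prop := ∀ D : Cf, D.Ok → ∀ a b, D.Df a b → ¬ D.Mg a → ¬ D.Mg b → D.GA a b → ¬ D.Lk a b →
  D.Good ∨ D.TO a ∨ D.Rg a ∨ ∃ c, D.St a b c

def S_LA : Prop := ∀ D : Cf, D.Ok → ∀ a b, D.Df a b → D.GA a b → ¬ D.Lk a b →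
  D.Good ∨ D.TO a ∨ D.Rg a ∨ ∃ c, D.St a b c

def S_N1 : Prop := ∀ D : Cf, D.Ok → ¬ D.Good → ∀ Γ K, D.RS Γ → D.m.Cl Γ K → K.Nonempty →
  ∃ x ∈ K, D.Mk x ∨ D.Rg x

def S_N2 : Prop := ∀ D : Cf, D.Ok → ¬ D.Good → ∀ Γ K, D.RS Γ → D.m.Cl Γ K → K.Nonempty →
  ∃ x ∈ K, D.Mk x

def S_T1 : Prop := ∀ D : Cb, D.Ok → {x | D.Ina x}.ncard ≤ 8 * D.S.ncard

def S_LAM0 : Prop := ∀ (α : Type) [Finite α] (μ : Set α) (A : Set (Set α)),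
  (∀ T ∈ A, T ⊆ μ ∧ T.Nonempty) → (∀ T ∈ A, ∀ T' ∈ A, T ⊆ T' ∨ T' ⊆ T ∨ Disjoint T T') →
  A.ncard ≤ 2 * μ.ncard

def S_LAM1 : Prop := ∀ D : Cb, D.Ok → ∃ L : Set (Set D.V × Set D.V),
  (∀ P ∈ L, D.RS P.1 ∧ D.m.Cl P.1 P.2 ∧ P.2.Nonempty) ∧
  (∀ P ∈ L, ∀ Q ∈ L, P.2 ⊆ Q.2 ∨ Q.2 ⊆ P.2 ∨ Disjoint P.2 Q.2) ∧
  ∀ z, D.Rg z → ∃ P ∈ L, z ∈ P.1 ∧ ∃ u ∈ P.2, D.Tch z u

def S_LAM2 : Prop := ∀ D : Cb, D.Ok → ∀ μ : Set D.V,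
  (∀ Γ K, D.RS Γ → D.m.Cl Γ K → K.Nonempty → ∃ x ∈ K, x ∈ μ) →
  ∃ B Ω : Set D.V, B.ncard ≤ 24 * μ.ncard ∧ D.Wh B ∧ D.m.Cl B Ω ∧ μ ⊆ Ω ∪ B ∧ ∀ z ∈ Ω, ¬ D.Rg z

def S_ATT : Prop := ∀ D : Cf, D.Ok → ¬ D.Good → ∀ B Ω, D.Wh B → D.m.Cl B Ω → (∀ z ∈ Ω, ¬ D.Rg z) →
  Ω.ncard ≤ 75 * (B.ncard + {x | D.Mk x}.ncard)

def S_P2 : Prop := ∀ D : Cf, D.Ok → ¬ D.Good → (D.nx D.S).ncard ≤ 25000 * D.S.ncard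

/-! ### Part III: far from the hubs -/

def S_RG : Prop := ∀ D : Cf, D.Ok → ∀ c a y e f q q', D.Fl c a y → D.Fl a (D.p c) (D.p e) → D.U e →
  q ≠ q' → D.m.Fc q c e f → D.m.Fc q' c e (D.p e) → D.m.ln c f = D.m.ln c a →
  D.m.ln a (D.p e) ≠ D.m.ln c (D.p e) → D.Far 2 a → D.Good ∨ ∃ k, D.m.GE k a c

def S_FCM : Prop := ∀ D : Cf, D.Ok → ∀ E F Γ c x y r e, D.Th E F Γ c x y → r ∈ F →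
  D.m.GE (D.ι r) c e → D.m.hug (D.ι r) (D.m.ln c x) → D.U e → e ∈ D.Ks F Γ → D.p e ∈ D.Ks F Γ →
  ¬ D.Tn (D.p e) → D.Far 2 x →
  D.Good ∨ (∃ d ∈ Γ, d ∉ D.ob c ∪ D.ob x ∧ D.Fl d (D.p c) (D.p e)) ∨ ∃ k, D.m.GE k x c

def S_MM1 : Prop := ∀ D : Cf, D.Ok → ∀ F x y c, D.Df x y → D.Mg x → D.Mg y → c ∉ D.ob x ∪ D.ob y →
  (∀ r, ¬ D.n.Tri r (D.π x) (D.π y) (D.π c)) → D.n.inf ∉ F →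
  D.Th (E3 (D.π x) (D.π y) (D.π c)) F (D.ob x ∪ D.ob y ∪ D.ob c) c x y →
  (∀ r, D.n.has r (D.π c) → (r ∈ F ↔ D.m.has (D.ι r) c)) → D.Far 2 x → D.Far 2 c →
  D.Good ∨ ∃ e ∈ D.Ks F (D.ob x ∪ D.ob y ∪ D.ob c), D.Fl y (D.p c) e

def S_MM : Prop := ∀ D : Cf, D.Ok → ∀ a b, D.Df a b → D.Mg a → D.Mg b → D.GA a b → D.Far 4 a → D.Good

def S_T3H : Prop := ∀ D : Cf, D.Ok → ∀ F c b q, D.Df c b → D.Mg c → ¬ D.Mg b →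
  (∀ r, ¬ D.n.Tri r (D.π c) (D.π b) (D.π (D.p b))) → D.n.inf ∉ F →
  D.Cy (E3 (D.π c) (D.π b) (D.π (D.p b))) F (D.ob c ∪ D.ob b) → D.m.GE q c b →
  D.m.GT (D.p c) (D.ob c ∪ D.ob b)ᶜ → D.Far 2 c → D.Far 2 b → D.Good

def S_T3G : Prop := ∀ D : Cf, D.Ok → ∀ c b, D.Df c b → D.Mg c → ¬ D.Mg b → D.T3 c b → D.GA c b →
  D.Far 2 c → D.Far 2 b → D.Good

def S_BMP : Prop := ∀ D : Cf, D.Ok → ∀ x y c, D.Df x y → D.Mg x → ¬ D.Mg y → D.m.Adj x y →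
  c ∉ D.ob x → D.Fl c (D.p x) (D.p y) → D.Far 2 x → D.Far 2 c →
  D.Good ∨ D.GA x c ∨ (D.T3 c y ∧ D.GA c y) ∨
    ∃ r, D.n.Tri r (D.π c) (D.π y) (D.π (D.p y)) ∧ D.n.cor r (D.π c)

def S_MP : Prop := ∀ D : Cf, D.Ok → ∀ a b, D.Df a b → D.Mg a → ¬ D.Mg b → D.GA a b → D.Far 6 a → D.Good

def S_BPP : Prop := ∀ D : Cf, D.Ok → ∀ E F Γ c x y, D.Th E F Γ c x y → D.Wh Γ →
  (∀ d ∈ Γ, D.Mg d → d ∈ D.ob c) → D.Far 6 c → D.Good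

def S_T41 : Prop := ∀ D : Cb, D.Ok → ∀ g x F K, D.T4C g x F K → D.Out (D.ob g ∪ D.ob x) K g →
  D.Out (D.ob g ∪ D.ob x) K (D.p g) → D.Good

def S_T42 : Prop := ∀ D : Cb, D.Ok → ∀ g x F K k, D.T4C g x F K → D.Out (D.ob g ∪ D.ob x) K g →
  ¬ D.Out (D.ob g ∪ D.ob x) K (D.p g) → D.m.GE k (D.p g) (D.p x) → D.Good

def S_T43 : Prop := ∀ D : Cb, D.Ok → ∀ g x F K, D.T4C g x F K → D.Out (D.ob g ∪ D.ob x) K g →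
  ¬ D.Out (D.ob g ∪ D.ob x) K (D.p g) → (∀ k, ¬ D.m.GE k (D.p g) (D.p x)) → D.Good

def S_T4A : Prop := ∀ D : Cb, D.Ok → ∀ a b, D.Df a b → ¬ D.Mg a → ¬ D.Mg b → D.T4 a b →
  D.Far 2 a → D.Far 2 b → D.Good

def S_FAR : Prop := ∀ D : Cf, D.Ok → ∀ z, D.Far 9 z → D.Good

/-! ### Assembly -/

def S_R2S : Prop := ∃ C : ℕ, ∀ D : Cb, D.Ok → D.m.OkR → ¬ D.Good → Nat.card D.V ≤ C * D.S.ncard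

def S_OPT1 : Prop := ∀ (V J Sg : Type) [Finite V] [Finite J] (m : Map V J Sg), m.Ok →
  ∀ S₀ K Z M Φ, (∀ v, m.has m.inf v → v ∈ S₀) → m.State S₀ K Z M Φ →
  ∃ M' F sh, m.Cover M' F sh ∧ 2 * (M'.card + F.card) + Z.ncard ≤ Nat.card V + S₀.ncard

def S_OPT2 : Prop := ∀ D : Cb, D.Ok → ∀ S₀ K Z M Φ, D.m.State S₀ K Z M Φ → D.Blk S₀ K Z M Φ →
  D.Good → ∃ Z' M' Φ', D.m.State S₀ K Z' M' Φ' ∧ Z.ncard < Z'.ncard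

def S_OPT3 : Prop := ∀ (V J Sg : Type) [Finite V] [Finite J] (m : Map V J Sg), m.Ok → m.Cnt →
  ∀ S₀ K Z M Φ, (∀ v, m.has m.inf v → v ∈ S₀) → m.State S₀ K Z M Φ →
  ∃ S p jm R, (Cb.mk V J Sg m S p jm R).Ok ∧ (Cb.mk V J Sg m S p jm R).Blk S₀ K Z M Φ ∧
    S.ncard ≤ S₀.ncard + (7 + 6 * K) * Z.ncard + 2 * {v | K < m.deg v}.ncard

/-- the regime of an almost perfect matching -/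
def S_R2TOP : Prop := ∃ c : ℝ, 0 < c ∧ ∃ C : ℝ,
  ∀ (V J Sg : Type) [Fintype V] [Fintype J] (m : Map V J Sg), m.OkR →
  ∀ (S₀ : Set V) (M₀ : Set J), (∀ v, m.has m.inf v → v ∈ S₀) →
  (∀ j ∈ M₀, ∀ v, m.cor j v → v ∉ S₀) → (∀ v, v ∉ S₀ → ∃! j, j ∈ M₀ ∧ m.cor j v) →
  ∃ M F sh, m.Cover M F sh ∧
    ((M.card : ℝ) + F.card) ≤ (1 / 2 - c) * Fintype.card V + C * S₀.ncard

end Pool.Agent.P.MP_5f84aa_co.G
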