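import Pool.Agent.P.MP_5f84aa_co.G.RIf

/-! Faces and pieces inside a connected set of cells. -/

namespace Pool.Agent.P.MP_5f84aa_co.G

namespace RTJC1

/-- a spanning tree given by a depth and a parent -/
theorem tree {V : Type} (r : V → V → Prop) (W : Set V) (w₀ : V) (h0 : w₀ ∈ W)
    (c : ∀ w ∈ W, Relation.ReflTransGen (fun a b => r a b ∧ b ∈ W) w₀ w) :
    ∃ (d : V → ℕ) (par : V → V), ∀ w ∈ W, w ≠ w₀ → par w ∈ W ∧ r (par w) w ∧ d (par w) < d w := by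
  classical
  let R : ℕ → Set V := fun n => Nat.rec {w₀} (fun _ S => S ∪ {b | b ∈ W ∧ ∃ a ∈ S, r a b}) n
  have R0 : R 0 = {w₀} := rfl
  have RS : ∀ n, R (n + 1) = R n ∪ {b | b ∈ W ∧ ∃ a ∈ R n, r a b} := fun _ => rfl
  have RW : ∀ n, ∀ a ∈ R n, a ∈ W := by
    intro n
    induction n with
    | zero => intro a ha; rw [R0] at ha; exact ha ▸ h0
    | succ n ih =>
      intro a ha
      rw [RS] at ha
      exact ha.elim (ih a) fun h => h.1
  have ex : ∀ w, Relation.ReflTransGen (fun a b => r a b ∧ b ∈ W) w₀ w → ∃ n, w ∈ R n := by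
    intro w hw
    induction hw with
    | refl => exact ⟨0, by rw [R0]; rfl⟩
    | tail _ s ih =>
      obtain ⟨n, hn⟩ := ih
      exact ⟨n + 1, by rw [RS]; exact .inr ⟨s.2, _, hn, s.1⟩⟩
  let d : V → ℕ := fun w => sInf {n | w ∈ R n}
  have key : ∀ w, ∃ p, w ∈ W → w ≠ w₀ → p ∈ W ∧ r p w ∧ d p < d w := by
    intro w
    by_cases hw : w ∈ W ∧ w ≠ w₀
    · have m : w ∈ R (d w) := Nat.sInf_mem (ex w (c w hw.1))
      obtain e | ⟨n, e⟩ : d w = 0 ∨ ∃ n, d w = n + 1 := by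
        rcases d w with _ | n
        exacts [.inl rfl, .inr ⟨n, rfl⟩]
      · rw [e, R0] at m
        exact absurd m hw.2
      · rw [e, RS] at m
        rcases m with m | ⟨-, a, ha, ra⟩
        · have : d w ≤ n := Nat.sInf_le m
          omega
        · have : d a ≤ n := Nat.sInf_le ha
          exact ⟨a, fun _ _ => ⟨RW n a ha, ra, by omega⟩⟩
    · exact ⟨w, fun a b => absurd ⟨a, b⟩ hw⟩
  choose par hp using key
  exact ⟨d, par, hp⟩

end RTJC1

theorem t_JC1 : S_JC1 := by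
  intro V J Sg _ _ m h W y w₀ hy h0 c
  classical
  obtain ⟨d, par, hp⟩ := RTJC1.tree m.Adj W w₀ h0 c
  set A : Set J := {j | m.L j ∈ W ∧ m.R j ∈ W ∧ m.X j ∈ W} with hA
  set E : Set (Sym2 V) := {e : Sym2 V | ∃ u ∈ W, ∃ v ∈ W, m.Adj u v ∧ e = s(u, v)} with hE
  set Tr : Set (Sym2 V) := (fun w => s(w, par w)) '' (W \ {w₀}) with hT
  have AW : ∀ j ∈ A, ∀ v, m.has j v → v ∈ W := by
    rintro j ⟨a, b, e⟩ v (rfl | rfl | rfl) <;> assumption
  have Tc : Tr.ncard + 1 = W.ncard := by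
    rw [hT, Set.InjOn.ncard_image, Set.ncard_sdiff_singleton_add_one h0]
    rintro a ⟨a1, a2⟩ b ⟨b1, b2⟩ e
    rcases Sym2.eq_iff.1 e with ⟨e, -⟩ | ⟨e1, e2⟩
    · exact e
    · have p := (hp a a1 a2).2.2
      have q := (hp b b1 b2).2.2
      rw [e2] at p; rw [← e1] at q
      omega
  have sym : ∀ (G : Set J) u v, m.Spl G u v → m.Spl G v u := by
    rintro G u v ⟨e, j, j', a, b, p⟩
    exact ⟨e.symm, j, j', a.symm, b.symm, p⟩
  have core : ∀ G : Set J, G ⊆ A → G.Nonempty → ∃ u v, m.Spl G u v ∧ s(u, v) ∉ Tr := by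
    rintro G GA ⟨j, hj⟩
    by_contra hn
    push Not at hn
    by_cases hs : {w | w ∈ W ∧ w ≠ w₀ ∧ m.Spl G w (par w)}.Nonempty
    · obtain ⟨w, ⟨w1, w2, w3⟩, mx⟩ := Set.exists_max_image _ d (Set.toFinite _) hs
      obtain ⟨w', ne, s'⟩ := h.lk2 w3
      obtain ⟨z, ⟨z1, z2⟩, e⟩ := hn _ _ s'
      rcases Sym2.eq_iff.1 e with ⟨e1, e2⟩ | ⟨e1, e2⟩
      · exact ne (e2 ▸ e1 ▸ rfl)
      · have p := (hp z z1 z2).2.2
        have q := mx z ⟨z1, z2, by rw [e2, e1]; exact sym _ _ _ s'⟩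
        rw [e2] at p
        omega
    · have ns : ∀ u v, ¬ m.Spl G u v := fun u v s => by
        obtain ⟨z, ⟨z1, z2⟩, e⟩ := hn _ _ s
        refine hs ⟨z, z1, z2, ?_⟩
        rcases Sym2.eq_iff.1 e with ⟨e1, e2⟩ | ⟨e1, e2⟩
        · rw [e2, e1]; exact s
        · rw [e2, e1]; exact sym _ _ _ s
      have all : ∀ k, k ∈ G := fun k => h.conn_faces ns hj
      exact hy (h.conn (K := W) (fun x _ z ⟨_, k, _, b⟩ => AW k (GA (all k)) z b) ⟨w₀, h0⟩)
  let S : Set J → Set (Sym2 V) := fun G =>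
    {e | e ∉ Tr ∧ ∃ j ∈ G, ∃ u v, u ≠ v ∧ m.On j u v ∧ e = s(u, v)}
  have cnt : ∀ n, ∀ G : Set J, G ⊆ A → G.ncard = n → n ≤ (S G).ncard := by
    intro n
    induction n with
    | zero => intros; omega
    | succ n ih =>
      intro G GA e
      obtain ⟨u, v, ⟨uv, j, j', a, b, jG, jG'⟩, nt⟩ :=
        core G GA (Set.nonempty_of_ncard_ne_zero (by omega))
      have e1 := Set.ncard_sdiff_singleton_add_one jG (Set.toFinite G)
      have i1 := ih (G \ {j}) (fun x hx => GA hx.1) (by omega)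
      have : (S (G \ {j})).ncard < (S G).ncard := by
        refine Set.ncard_lt_ncard ⟨?_, fun hs => ?_⟩ (Set.toFinite _)
        · rintro e ⟨e1, k, hk, r⟩
          exact ⟨e1, k, hk.1, r⟩
        · obtain ⟨-, k, ⟨k1, k2⟩, u', v', -, o, e⟩ := hs ⟨nt, j, jG, u, v, uv, a, rfl⟩
          have o' : m.On k u v := by
            rcases Sym2.eq_iff.1 e with ⟨rfl, rfl⟩ | ⟨rfl, rfl⟩
            exacts [o, o.symm]
          rcases h.two_faces uv a b o' (fun q => jG' (q ▸ jG)) with q | q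
          exacts [k2 q, jG' (q ▸ k1)]
      omega
  have c1 := cnt _ A subset_rfl rfl
  have c2 : (S A ∪ Tr).ncard ≤ E.ncard := by
    refine Set.ncard_le_ncard ?_ (Set.toFinite _)
    rintro e (⟨-, j, jA, u, v, uv, o, rfl⟩ | ⟨w, ⟨w1, w2⟩, rfl⟩)
    · exact ⟨u, AW j jA u o.1, v, AW j jA v o.2, o.adj uv, rfl⟩
    · exact ⟨w, w1, par w, (hp w w1 w2).1, (hp w w1 w2).2.1.symm, rfl⟩
  rw [Set.ncard_union_eq (Set.disjoint_left.2 fun e a b => a.1 b)] at c2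
  omega

end Pool.Agent.P.MP_5f84aa_co.G
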