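import Pool.Agent.P.MP_5f84aa_co.G.RIf

/-! Part R2: places at merged objects. -/

namespace Pool.Agent.P.MP_5f84aa_co.G

namespace RTL3P

theorem com {D : Cb} (h : D.Ok) {q q' : D.J} {x y : D.V} (e : D.Df x y) (n : D.Mg x)
    (g : D.m.GE q x y) (r : D.m.far q q') : D.m.X q' ≠ D.p x := fun a => by
  have g' := h.mo.far_ge r g
  have g'' := h.merged e.1 n (j := q') ⟨g'.fc.has1, a ▸ g'.fc.has3⟩
  exact e.2.2 (.inr (g'.fc.unique g''.fc (h.mo.fc_ne g').1).1)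

theorem one {D : Cf} (h : D.Ok) {r : D.I} {x y : D.V} (e : D.Df x y) (n : D.Mg x) (n' : ¬ D.Mg y)
    (f : D.n.Fc r (D.π x) (D.π y) (D.π (D.p y))) :
    ∃ q, ∃ u ∈ D.ob x, D.n.Tri r (D.π u) (D.π y) (D.π (D.p y)) ∧ D.Pl q u y ∧
      D.m.hug q (D.n.ln (D.π u) (D.π (D.p y))) := by
  obtain ⟨u, v, w, g, e1, e2, e3⟩ := h.lift f
  obtain rfl := (h.pi_plain fun t => n' t.2).1 e2
  obtain rfl := (h.pi_plain fun t => n' ((h.toOk.mg_congr e.2.1 (Cb.p_ob v)).1 t.2)).1 e3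
  have hu := h.pi_ob e.1 e1
  have du := h.toOk.df_congr e hu (Cb.self_ob v)
  have mu := (h.toOk.mg_congr e.1 hu).2 n
  have l := (h.mo.lines g ((h.bd u du.1).ne_inf g.has1)).2.1
  have a := h.mo.adj13 g
  refine ⟨D.ι r, u, hu, e1 ▸ f.tri, ⟨g.ge, fun b => .inr ?_, fun q' t => ⟨com h.toOk du mu g.ge t,
    fun c => h.mo.far_X t (g.X_eq.trans c.symm)⟩⟩, .inr ?_⟩
  · rw [h.mo.ln_symm, ← h.toOk.mg_one du.1 mu a.symm b.symm, h.mo.ln_symm, l]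
  · rw [h.ln_push a (e1 ▸ (h.no.fc_ne f).2.1), l]

end RTL3P

open RTL3P

theorem t_L2P : S_L2P := fun D h q x y e mx my g =>
  ⟨g, fun a => .inl ((h.mo.lines g ((h.bd x e.1).ne_inf g.fc.has1)).1.symm.trans
    (h.mm_one e.1 mx e.2.1 my e.2.2 (Cb.self_ob x) (Cb.self_ob y) (Cb.p_ob x) (Cb.p_ob y)
      (h.mo.adj12 g) a)),
    fun _ r => ⟨com h.toOk e mx g r, com h.toOk (h.toOk.df_symm e) my g.symm r⟩⟩

theorem t_L3Q : S_L3Q := fun D h q x y e mx g t =>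
  ⟨g, fun a => absurd ⟨_, Cb.p_ob x, a⟩ t, fun _ r => ⟨com h e mx g r,
    fun c => t ⟨x, Cb.self_ob x, c ▸ h.mo.adj13 (h.mo.far_ge r g)⟩⟩⟩

theorem t_L3P : S_L3P := by
  rintro D h a b e ma nb ⟨q, x, hx, y, hy, g⟩
  by_cases t : D.Tch x (D.p y)
  swap
  · exact .inr (.inr ⟨q, x, hx, y, hy, g, t⟩)
  have d := h.toOk.df_congr e hx hy
  have mx := (h.toOk.mg_congr e.1 hx).2 ma
  have ny : ¬ D.Mg y := mt (h.toOk.mg_congr e.2.1 hy).1 nb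
  have d' := h.toOk.df_congr d (Cb.self_ob x) (Cb.p_ob y)
  have n1 := (h.pi_ne d.1 d.2.2).symm
  have n2 := (h.pi_ne d.1 d'.2.2).symm
  by_cases c : ∃ r, D.n.Tri r (D.π x) (D.π y) (D.π (D.p y))
  swap
  · have t1 : D.Tch a y := ⟨x, hx, h.mo.adj12 g⟩
    have t2 := (h.toOk.tch_congr e.1 hx).1 t
    rw [(h.pi_mg e.1 ma).2 hx] at c
    rcases hy with rfl | rfl
    · exact .inl ⟨t1, t2, fun r s => c ⟨r, s⟩⟩
    · rw [h.pp b e.2.1] at t2 c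
      exact .inl ⟨t2, t1, fun r s => c ⟨r, s.1, s.2.2, s.2.1⟩⟩
  obtain ⟨r, s⟩ := c
  refine .inr (.inl ?_)
  rcases h.no.tri_cases s n1 n2 (h.pi_ne_p d.2.1 ny) with f | f | f
  · obtain ⟨q', u, hu, k⟩ := one h d mx ny f
    exact ⟨r, q', u, h.toOk.ob_trans e.1 hx hu, y, hy, k⟩
  · have hr := (h.bd_pi d.1).ne_inf s.1
    obtain ⟨-, l1, l2, -⟩ := h.no.lines f hr
    have l3 : D.m.stem q = D.n.bar r := by
      rw [← (h.mo.lines g ((h.bd x d.1).ne_inf g.fc.has1)).1, ← h.ln_push (h.mo.adj12 g) n1,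
        h.no.ln_symm, l1]
    have l4 : D.m.stem q = D.n.ln (D.π x) (D.π (D.p y)) := by rw [l3, h.no.ln_symm, l2]
    refine ⟨r, q, x, hx, y, hy, s, ⟨g, fun k => .inl ?_, fun q' k => ?_⟩, .inl l4⟩
    · rw [← h.ln_push k (by rwa [h.pi_p d.1 mx]), h.pi_p d.1 mx, l4]
    · exact absurd (l3.trans (h.ct.bar r)) (h.mo.far_not_bar k (mt h.inf_iff.1 hr))
  · obtain ⟨q', u, hu, k⟩ := one h d' mx (mt (h.toOk.mg_congr d.2.1 (Cb.p_ob y)).1 ny)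
      (by rw [h.pp y d.2.1]; exact f.symm)
    exact ⟨r, q', u, h.toOk.ob_trans e.1 hx hu, D.p y, h.toOk.p_mem_ob e.2.1 hy, k⟩

end Pool.Agent.P.MP_5f84aa_co.G
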