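import Pool.Agent.P.MP_5f84aa_co.G.RIf

/-! Part R2: the number of inactive cells, and the size of a laminar family. -/

namespace Pool.Agent.P.MP_5f84aa_co.G

namespace RTT1

open Cb

variable {D : Cb} {A B : Set D.V}

/-- all junctions of the set stay in the set or lead to a hub -/
def Clo (D : Cb) (Q : Set D.V) : Prop :=
  (∀ x ∈ Q, D.U x) ∧ ∀ j x y, D.m.GE j x y → x ∈ Q → D.U y → y ∈ Q

/-- the junctions with a corner in the set -/
def inc (D : Cb) (Q : Set D.V) : Set D.J := {j | D.m.L j ∈ Q ∨ D.m.R j ∈ Q}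

theorem Clo.inter (a : Clo D A) (b : Clo D B) : Clo D (A ∩ B) :=
  ⟨fun x hx => a.1 x hx.1, fun j x y g hx u => ⟨a.2 j x y g hx.1 u, b.2 j x y g hx.2 u⟩⟩

theorem Clo.diff (a : Clo D A) (b : Clo D B) : Clo D (A \ B) :=
  ⟨fun x hx => a.1 x hx.1, fun j x y g hx u =>
    ⟨a.2 j x y g hx.1 u, fun n => hx.2 (b.2 j y x g.symm n (a.1 x hx.1))⟩⟩

theorem inc_add (h : D.Ok) (a : Clo D A) (b : Clo D B) (s : B ⊆ A) :
    (inc D A).ncard = (inc D (A \ B)).ncard + (inc D B).ncard := by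
  have := h.fJ
  have e : inc D A = inc D (A \ B) ∪ inc D B := by
    ext j
    have := @s (D.m.L j)
    have := @s (D.m.R j)
    simp only [inc, Set.mem_union, Set.mem_ofPred_eq, Set.mem_sdiff]
    tauto
  rw [e, Set.ncard_union_eq]
  refine Set.disjoint_left.2 ?_
  have g : ∀ j, D.m.GE j (D.m.L j) (D.m.R j) := fun j => Map.fc_self j
  rintro j (k | k) (k' | k')
  exacts [k.2 k', k.2 (b.2 j _ _ (g j).symm k' (a.1 _ k.1)), k.2 (b.2 j _ _ (g j) k' (a.1 _ k.1)),
    k.2 k']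

theorem inc_ge (h : D.Ok) (a : Clo D A) (n : A.Nonempty) : 2 * A.ncard + 1 ≤ (inc D A).ncard :=
  h.mc.inc A n fun v hv => h.bd v (a.1 v hv)

theorem nine (h : D.Ok) : ∀ (k : ℕ) (W : Set D.V), W.ncard = k → Clo D W →
    (∀ z ∈ W, ∃ Q, Clo D Q ∧ z ∈ Q ∧ Q.ncard ≤ 4) → 9 * W.ncard ≤ 4 * (inc D W).ncard := by
  have := h.fV
  intro k
  induction k using Nat.strong_induction_on with
  | _ k ih =>
    intro W hk c hW
    rcases W.eq_empty_or_nonempty with rfl | ⟨z, hz⟩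
    · simp
    obtain ⟨Q, q1, q2, q3⟩ := hW z hz
    have ne : (W ∩ Q).Nonempty := ⟨z, hz, q2⟩
    have e1 := inc_add h c (c.inter q1) Set.inter_subset_left
    have e2 := inc_ge h (c.inter q1) ne
    have e3 := (Set.ncard_le_ncard (Set.inter_subset_right (s := W) (t := Q))).trans q3
    have e4 := Set.ncard_sdiff_add_ncard_of_subset (Set.inter_subset_left (s := W) (t := Q))
    have e5 := (Set.ncard_pos (s := W ∩ Q)).2 ne
    have e6 := ih _ (by omega) _ rfl (c.diff (c.inter q1)) fun y hy => hW y hy.1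
    omega

theorem ob_le (z : D.V) : (D.ob z).ncard ≤ 2 :=
  (Set.ncard_insert_le _ _).trans (by rw [Set.ncard_singleton])

theorem small (h : D.Ok) {z : D.V} (i : D.Ina z) :
    ∃ Q, Clo D Q ∧ z ∈ Q ∧ Q.ncard ≤ 4 ∧ ∀ x ∈ Q, D.Ina x := by
  obtain ⟨u, i | ⟨z', l, i⟩⟩ := i
  · refine ⟨D.ob z, ⟨fun x hx => h.ob_U u hx, fun j x y g hx uy => ?_⟩, self_ob z,
      (ob_le z).trans (by norm_num), fun x hx => ⟨h.ob_U u hx, .inl fun b e g => ?_⟩⟩
    · by_contra n
      exact i y ⟨u, uy, n⟩ ⟨j, x, hx, y, self_ob y, g⟩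
    · exact i b (h.df_congr e (h.ob_symm u hx) (self_ob b))
        ((h.ga_congr u e.2.1 hx (self_ob b)).1 g)
  · have u' := l.1.2.1
    refine ⟨D.ob z ∪ D.ob z', ⟨fun x hx => hx.elim (h.ob_U u) (h.ob_U u'),
      fun j x y g hx uy => i y uy (hx.imp (fun e => ⟨j, x, e, y, self_ob y, g⟩)
        fun e => ⟨j, x, e, y, self_ob y, g⟩)⟩, .inl (self_ob z),
      (Set.ncard_union_le _ _).trans (Nat.add_le_add (ob_le z) (ob_le z')), ?_⟩
    rintro x (hx | hx)
    · refine ⟨h.ob_U u hx, .inr ⟨z', h.lk_congr l hx (self_ob z'), fun b ub g => ?_⟩⟩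
      rw [h.ob_eq u hx]
      exact i b ub (g.imp_left (h.ga_congr u ub hx (self_ob b)).1)
    · refine ⟨h.ob_U u' hx, .inr ⟨z, h.lk_congr (h.lk_symm l) hx (self_ob z), fun b ub g => ?_⟩⟩
      rw [h.ob_eq u' hx, Set.union_comm]
      exact i b ub (g.symm.imp_right (h.ga_congr u' ub hx (self_ob b)).1)

end RTT1

open RTT1 in
theorem t_T1 : S_T1 := by
  intro D h
  have := h.fV
  have := h.fJ
  have cU : Clo D D.Sᶜ := ⟨fun _ hx => hx, fun _ _ _ _ _ u => u⟩
  have cW : Clo D {x | D.Ina x} := ⟨fun _ hx => hx.1, fun j x y g hx u => by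
    obtain ⟨Q, q1, q2, -, q4⟩ := small h hx
    exact q4 y (q1.2 j x y g q2 u)⟩
  have s : {x | D.Ina x} ⊆ D.Sᶜ := fun _ hx => hx.1
  have e1 := nine h _ _ rfl cW fun z hz => by
    obtain ⟨Q, q1, q2, q3, -⟩ := small h hz
    exact ⟨Q, q1, q2, q3⟩
  have e2 := inc_add h cU cW s
  have e3 : 2 * (D.Sᶜ \ {x | D.Ina x}).ncard ≤ (inc D (D.Sᶜ \ {x | D.Ina x})).ncard := by
    rcases (D.Sᶜ \ {x | D.Ina x}).eq_empty_or_nonempty with e | e
    · rw [e]; simp
    · exact (Nat.le_succ _).trans (inc_ge h (cU.diff cW) e)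
  have e4 := Set.ncard_le_card (inc D D.Sᶜ)
  have e5 := h.mc.euler
  have e6 := Set.ncard_add_ncard_compl D.S
  have e7 := Set.ncard_sdiff_add_ncard_of_subset s
  omega

theorem t_LAM0 : S_LAM0 := by
  intro α _ μ
  induction μ, μ.toFinite using Set.Finite.induction_on with
  | empty =>
    intro A h1 _
    have : A = ∅ := Set.eq_empty_of_forall_notMem fun T hT =>
      (h1 T hT).2.ne_empty (Set.subset_empty_iff.1 (h1 T hT).1)
    simp [this]
  | @insert x s hx _ ih =>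
    intro A h1 h2
    set B : Set (Set α) := {T | T ∈ A ∧ x ∈ T ∧ T \ {x} ∈ A} with hB
    set C : Set (Set α) := {T | T ∈ A ∧ T ≠ {x} ∧ T ∉ B} with hC
    have b0 : ∀ T ∈ B, ∀ T' ∈ B, T ⊆ T' → T = T' := fun T a T' b e => by
      refine e.antisymm fun y hy => ?_
      by_cases yx : y = x
      · exact yx ▸ a.2.1
      rcases h2 T a.1 _ b.2.2 with k | k | k
      · exact ((k a.2.1).2 rfl).elim
      · exact k ⟨hy, yx⟩
      · obtain ⟨w, hw⟩ := (h1 _ a.2.2).2
        exact (Set.disjoint_left.1 k hw.1 ⟨e hw.1, hw.2⟩).elim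
    have b1 : B.ncard ≤ 1 := (Set.ncard_le_one (s := B)).2 fun T a T' b => by
      rcases h2 T a.1 T' b.1 with k | k | k
      exacts [b0 T a T' b k, (b0 T' b T a k).symm, (Set.disjoint_left.1 k a.2.1 b.2.1).elim]
    have c0 : ∀ T ∈ C, ∀ T' ∈ C, T \ {x} = T' \ {x} → x ∈ T → x ∈ T' := fun T a T' b e k =>
      by_contra fun n => a.2.2 ⟨a.1, k, by rw [e, Set.sdiff_singleton_eq_self n]; exact b.1⟩
    have c1 : Set.InjOn (fun T => T \ {x}) C := fun T a T' b e => by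
      ext y
      by_cases yx : y = x
      · exact yx ▸ ⟨c0 T a T' b e, c0 T' b T a e.symm⟩
      · simpa [yx] using Set.ext_iff.1 e y
    have c2 := ih ((fun T => T \ {x}) '' C) (by
      rintro _ ⟨T, a, rfl⟩
      refine ⟨fun y hy => ((h1 T a.1).1 hy.1).resolve_left hy.2, Set.sdiff_nonempty.2 fun k => ?_⟩
      exact a.2.1 ((h1 T a.1).2.subset_singleton_iff.1 k)) (by
      rintro _ ⟨T, a, rfl⟩ _ ⟨T', b, rfl⟩
      exact (h2 T a.1 T' b.1).imp Set.sdiff_subset_sdiff_left (Or.imp Set.sdiff_subset_sdiff_left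
        fun k => k.mono Set.sdiff_subset Set.sdiff_subset))
    rw [c1.ncard_image] at c2
    have e1 : A ⊆ insert {x} (B ∪ C) := fun T a => by
      by_cases k : T = {x}
      · exact .inl k
      · exact .inr ((em _).imp_right fun n => ⟨a, k, n⟩)
    have e2 := (Set.ncard_le_ncard e1).trans (Set.ncard_insert_le _ _)
    have e3 := Set.ncard_union_le B C
    rw [Set.ncard_insert_of_notMem hx]
    omega

end Pool.Agent.P.MP_5f84aa_co.G
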