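import Pool.Agent.P.MP_5f84aa_co.G.RIf

/-! Part R2: the separating quadrilateral, step T41 and the assembly of the three cases. -/

namespace Pool.Agent.P.MP_5f84aa_co.G

namespace RTT41

variable {D : Cb} {g x s k o e : D.V} {F : Set D.J} {K : Set D.V} {j q q₁ q₂ q₃ : D.J}

theorem wh (h : D.Ok) (t : D.T4C g x F K) : D.Wh (D.ob g ∪ D.ob x) :=
  (h.wh_ob t.1.1).union (h.wh_ob t.1.2.1)

theorem far2 (h : D.Ok) (t : D.T4C g x F K) (a : s ∈ D.ob g ∪ D.ob x) : D.Far 2 s :=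
  a.elim (h.far_ob t.2.2.2.1) (h.far_ob t.2.2.2.2.1)

theorem nmg (h : D.Ok) (t : D.T4C g x F K) (a : s ∈ D.ob g ∪ D.ob x) : ¬ D.Mg s :=
  a.elim (fun a => mt (h.mg_congr t.1.1 a).1 t.2.1) fun a => mt (h.mg_congr t.1.2.1 a).1 t.2.2.1

theorem geU (h : D.Ok) (t : D.T4C g x F K) (a : s ∈ D.ob g ∪ D.ob x) (b : D.m.GE q s e) :
    D.U e ∧ ¬ D.Tn (D.p e) :=
  have f : D.Far 1 e := (far2 h t a).adj (h.mo.adj12 b)
  ⟨f.U, h.far_tn (h.far_p f)⟩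

/-- the short move -/
theorem short (hTM2 : S_TM2) (h : D.Ok) (ng : ¬ D.Good) (t : D.T4C g x F K)
    (a : s ∈ D.ob g ∪ D.ob x) (b : D.Out (D.ob g ∪ D.ob x) K s) : ¬ D.m.GT (D.p s) K := by
  rintro ⟨q', e, eK, c⟩
  obtain ⟨q, o, ho, b⟩ := b
  have ue := geU h t ((wh h t) s a).2 c
  rcases hTM2 D h _ K s o e q q' (wh h t) (h.t4c_cl t) a b (geU h t a b).1 ho c ue.1 eK ue.2 with
    n | ⟨d, hd, -, f⟩
  exacts [ng n, nmg h t hd (h.fl_mg f)]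

/-- the long move -/
theorem long (hTM3 : S_TM3) (h : D.Ok) (ng : ¬ D.Good) (t : D.T4C g x F K)
    (a : s ∈ D.ob g ∪ D.ob x) (a' : k ∈ D.ob g ∪ D.ob x) (n : k ∉ D.ob s) (b : D.m.GE q₁ s o)
    (ho : o ∉ D.ob g ∪ D.ob x ∪ K) (c : D.m.GE q₂ (D.p s) k) (d : D.m.GE q₃ (D.p k) e)
    (eK : e ∈ K) : ∃ q', D.m.far q₂ q' ∧ s(D.m.X q₂, D.m.X q') = s(D.p o, D.p e) := by
  by_contra hn
  have ue := geU h t ((wh h t) k a').2 d
  rcases hTM3 D h _ K s k o e q₁ q₂ q₃ (wh h t) (h.t4c_cl t) a a' n b (geU h t a b).1 ho c d ue.1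
    eK ue.2 (fun q' r z => hn ⟨q', r, z⟩) with n | ⟨d, hd, -, f⟩
  exacts [ng n, nmg h t hd (h.fl_mg f)]

/-- a piece with two junctions carries no convex corner -/
theorem not_cv (h : D.Ok) (t : D.T4C g x F K) {a b : D.J} (hs : s ∈ D.ob g ∪ D.ob x)
    (hk : k ∈ D.ob g ∪ D.ob x) (n : a ≠ b) (fa : D.m.GE a s k) (fb : D.m.GE b s k) :
    ¬ D.m.Cv K s k := by
  rintro ⟨j, z, zK, f⟩
  have o : D.m.On j s k ∧ D.m.cor j z :=
    f.elim (fun f => ⟨⟨f.has2, f.has3⟩, f.cor1⟩) fun f => ⟨⟨f.has3, f.has2⟩, f.cor1⟩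
  have : z = s ∨ z = k := by
    rcases h.mo.two_faces (h.mo.fc_ne fa).1 fa.fc.on fb.fc.on o.1 n with rfl | rfl
    exacts [fa.fc.cor_iff.1 o.2, fb.fc.cor_iff.1 o.2]
  rcases this with rfl | rfl
  exacts [(h.t4c_cl t).1 _ zK hs, (h.t4c_cl t).1 _ zK hk]

/-- the case of a junction between `p g` and `x` -/
theorem main (hTM2 : S_TM2) (hTM3 : S_TM3) (h : D.Ok) (t : D.T4C g x F K)
    (og : D.Out (D.ob g ∪ D.ob x) K g) (og' : D.Out (D.ob g ∪ D.ob x) K (D.p g))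
    (fq : D.m.GE q (D.p g) x) : D.Good := by
  by_contra ng
  have m1 : g ∈ D.ob g ∪ D.ob x := .inl (.inl rfl)
  have m2 : D.p g ∈ D.ob g ∪ D.ob x := .inl (.inr rfl)
  have m3 : x ∈ D.ob g ∪ D.ob x := .inr (.inl rfl)
  have m4 : D.p x ∈ D.ob g ∪ D.ob x := .inr (.inr rfl)
  have i2 : ¬ D.m.GT (D.p g) K := short hTM2 h ng t m1 og
  have i1 : ¬ D.m.GT g K := by
    have := short hTM2 h ng t m2 og'
    rwa [h.pp g t.1.1] at this
  have nc : ¬ D.m.Cv K g (D.p g) := fun n => n.gt.elim i1 i2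
  have alt := t.2.2.2.2.2.1.2.2.2
  have i4 : D.m.GT (D.p x) K := by
    rcases alt with ⟨-, n | n | n | n⟩ | n | n | n | n
    exacts [absurd n.1 nc, n.2.2.gt.resolve_right i1, absurd n.2.2 nc, absurd n.2.1 nc,
      absurd n.2.1 nc, n.2.2.2.gt.resolve_right i2, n.2.2.1.gt.resolve_right i1, absurd n.2.2.1 nc]
  obtain ⟨q₁, o, ho, b⟩ := og
  obtain ⟨q₃, e, eK, c⟩ := i4
  obtain ⟨q', r, z⟩ := long hTM3 h ng t m1 m3 t.1.2.2 b ho fq c eK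
  have fq' := h.mo.far_ge r fq
  have e' := h.cl_p (wh h t) (h.t4c_cl t) (geU h t m4 c).1 eK
  have nc' := not_cv h t m2 m3 r.1 fq fq'
  obtain ⟨i, fi⟩ : ∃ i, D.m.Fc i (D.p g) x (D.p e) := by
    rcases Sym2.eq_iff.1 z with ⟨-, z⟩ | ⟨z, -⟩
    exacts [⟨q', z ▸ fq'⟩, ⟨q, z ▸ fq⟩]
  rcases alt with ⟨-, n | n | n | n⟩ | n | n | n | n
  exacts [nc n.1, nc' n.1, nc n.2.2, nc n.2.1, nc n.2.1, nc' n.2.1,
    n.1 _ e' (h.mo.adj13 fi).symm, nc n.2.2.1]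

/-- the three cases -/
theorem three (hT41 : S_T41) (hT42 : S_T42) (hT43 : S_T43) (h : D.Ok) (t : D.T4C g x F K)
    (og : D.Out (D.ob g ∪ D.ob x) K g) : D.Good := by
  by_cases a : D.Out (D.ob g ∪ D.ob x) K (D.p g)
  · exact hT41 D h g x F K t og a
  by_cases b : ∃ k, D.m.GE k (D.p g) (D.p x)
  · obtain ⟨k, b⟩ := b
    exact hT42 D h g x F K k t og a b
  · exact hT43 D h g x F K t og a fun k n => b ⟨k, n⟩

/-- the setting of a separating quadrilateral has a good move -/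
theorem good (hT41 : S_T41) (hT42 : S_T42) (hT43 : S_T43) (h : D.Ok) (t : D.T4C g x F K) :
    D.Good := by
  obtain ⟨j, _, _, -, -, -, H⟩ := h.mo.hole_out (h.t4c_cl t) ⟨g, .inl (.inl rfl)⟩
    (fun v hv => (t.2.2.2.2.2.1.2.2.1 v hv).2) fun v hv => h.bd v ((wh h t) v hv).1
  obtain ⟨s, hs, o, f, o1, o2⟩ := H j (.inl rfl)
  have out : D.Out (D.ob g ∪ D.ob x) K s := ⟨j, o, fun n => n.elim o1 o2, f⟩
  have e1 := h.ob_p t.1.1
  have e2 := h.ob_p t.1.2.1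
  rcases hs with (rfl | rfl) | rfl | rfl
  · exact three hT41 hT42 hT43 h t out
  · exact three hT41 hT42 hT43 h (h.t4c_p t) (by rwa [e1, e2])
  · exact three hT41 hT42 hT43 h (h.t4c_swap t) (by rwa [Set.union_comm])
  · exact three hT41 hT42 hT43 h (h.t4c_p (h.t4c_swap t)) (by rwa [e1, e2, Set.union_comm])

end RTT41

open RTT41 in
theorem t_T41 (hTM2 : S_TM2) (hTM3 : S_TM3) : S_T41 := by
  intro D h g x F K t og og'
  obtain ⟨q, fq⟩ | ⟨q, fq⟩ := t.2.2.2.2.2.2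
  · exact main hTM2 hTM3 h t og og' fq
  · have e1 := h.ob_p t.1.1
    have e2 := h.ob_p t.1.2.1
    have e3 := h.pp g t.1.1
    exact main (q := q) hTM2 hTM3 h (h.t4c_p t) (by rwa [e1, e2]) (by rwa [e1, e2, e3])
      (by rwa [e3])

open RTT41 in
theorem t_T4A (hQ4K : S_Q4K) (hT41 : S_T41) (hT42 : S_T42) (hT43 : S_T43) : S_T4A := by
  intro D h a b d na nb ⟨q, x, hx, y, hy, F, u, v, f, _, sF, hu, hv, su, sv⟩ fa fb
  have := h.fV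
  have := h.fJ
  have ux := h.ob_U d.1 hx
  have uy := h.ob_U d.2.1 hy
  have hx' := h.p_mem_ob d.1 hx
  have hy' := h.p_mem_ob d.2.1 hy
  have off : ∀ w, w ∉ D.ob a ∪ D.ob b → w ∉ ({D.p x, x, y, D.p y} : Set D.V) := by
    rintro w n (rfl | rfl | rfl | rfl)
    exacts [n (.inl hx'), n (.inl hx), n (.inr hy), n (.inr hy')]
  obtain ⟨G, w, sG, iG, hw, sw⟩ : ∃ G w, D.m.Side (E4 (D.p x) x y (D.p y)) G ∧ D.m.inf ∉ G ∧
      w ∉ D.ob a ∪ D.ob b ∧ D.m.sd G w := by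
    by_cases i : D.m.inf ∈ F
    · obtain ⟨j, hj⟩ := h.mc.face v
      refine ⟨Fᶜ, v, sF.compl, fun n => n i, hv, (h.mo.sd_compl sF (fun w => ?_) hj).2 sv⟩
      have := off v hv
      simp only [Set.mem_insert_iff, Set.mem_singleton_iff] at this
      simp only [E4, Sym2.eq_iff]
      grind
    · exact ⟨F, u, sF, i, hu, su⟩
  obtain ⟨K, hK⟩ := hQ4K _ _ _ D.m h.mo G _ _ _ _ w sG iG (h.df_ne d hx' hy) (h.df_ne d hx hy')
    (off w hw) sw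
  refine good (g := D.p x) (x := y) (F := G) (K := K) hT41 hT42 hT43 h ⟨h.df_congr d hx' hy,
    mt (h.mg_congr d.1 hx').1 na, mt (h.mg_congr d.2.1 hy).1 nb, h.far_ob fa hx', h.far_ob fb hy,
    ?_, .inl ⟨q, ?_⟩⟩ <;> rwa [h.pp x ux]

end Pool.Agent.P.MP_5f84aa_co.G
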