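import Pool.Agent.P.MP_5f84aa_co.G.Bas3

/-! Ends next to a non degenerate piece. -/

namespace Pool.Agent.P.MP_5f84aa_co.G.TLIGHT

open Filter Topology Set

variable {R : ℝ} {E : Finset Bar} {w : Bar} {D : Set En} {y : ℝ} {a : Bool} {j k : En}

theorem side_eq (hCELL : CELL) (H : Sys R E) {t : Bar} {σ τ : Bool} {D D' : Set En} (h : Pc E t D)
    (h' : Pc E t D') (e : Ce E t σ D = Ce E t τ D') : σ = τ := by
  obtain ⟨-, ⟨x, hx⟩, h1, h2, h3⟩ := hCELL R E H t D h σ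
  obtain ⟨κ, hκ⟩ := (h1 x hx).1
  obtain ⟨ε, hε⟩ := (h2 x κ hκ).2.exists
  exact sg_eq (h3 _ hε) ((hCELL R E H t D' h' τ).2.2.2.2 _ (e ▸ hε))

/-- the piece `D` starts (`a = true`) or stops (`a = false`) at the position `y` -/
def At (E : Finset Bar) (w : Bar) (D : Set En) (y : ℝ) (a : Bool) : Prop :=
  Pc E w D ∧ ∀ k, On E w k → (k ∈ D ↔ w.pos (ep k) < y ∨ w.pos (ep k) = y ∧ a = true)

/-- the end `j` is a corner of a cell of the piece -/
def Nr (E : Finset Bar) (w : Bar) (D : Set En) (y : ℝ) (j : En) : Prop :=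
  On E w j ∧ w.pos (ep j) = y ∧ (Ce E w (w.sd j) D = cL E j ∨ Ce E w (w.sd j) D = cR E j)

theorem pcl (H : Sys R E) (hw : w ∈ E) (hj : On E w j) : Pc E w (Dlt E j) :=
  H.bar_eq hw hj ▸ H.pc_Dlt hj.1
theorem pcr (H : Sys R E) (hw : w ∈ E) (hj : On E w j) : Pc E w (Dle E j) :=
  H.bar_eq hw hj ▸ H.pc_Dle hj.1

theorem aft (hSEP : SEP) (H : Sys R E) (hD : At E w D y true) (hj : Nr E w D y j) :
    Ce E w (w.sd j) D = cR E j ∧ ∀ k, On E w k → w.sd k = w.sd j → k ∈ D → w.key k ≤ w.key j := by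
  have hw := hD.1.1
  have h1 : Ce E w (w.sd j) D = cR E j := hj.2.2.resolve_left fun e =>
    hSEP R E H w _ D j (pcl H hw hj.1) hD.1 hj.1 (not_mem_Dlt j) ((hD.2 j hj.1).2 (.inr ⟨hj.2.1, rfl⟩))
      (by rw [e, H.cL_eq hw hj.1])
  refine ⟨h1, fun k hk hs hm => by_contra fun hc => ?_⟩
  exact hSEP R E H w _ D k (pcr H hw hj.1) hD.1 hk (fun h => hc ((H.mem_Dle hw hj.1).1 h).2) hm
    (by rw [hs, h1, H.cR_eq hw hj.1])

theorem bef (hSEP : SEP) (H : Sys R E) (hD : At E w D y false) (hj : Nr E w D y j) :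
    Ce E w (w.sd j) D = cL E j ∧ ∀ k, On E w k → w.sd k = w.sd j → k ∉ D → w.key j ≤ w.key k := by
  have hw := hD.1.1
  have h1 : Ce E w (w.sd j) D = cL E j := hj.2.2.resolve_right fun e =>
    hSEP R E H w D _ j hD.1 (pcr H hw hj.1) hj.1 (by simp [hD.2 j hj.1, hj.2.1]) (H.mem_Dle_self hj.1.1)
      (by rw [e, H.cR_eq hw hj.1])
  refine ⟨h1, fun k hk hs hm => by_contra fun hc => ?_⟩
  exact hSEP R E H w D _ k hD.1 (pcl H hw hj.1) hk hm ((H.mem_Dlt hw hj.1).2 ⟨hk, not_le.1 hc⟩)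
    (by rw [hs, h1, H.cL_eq hw hj.1])

theorem nr_eq (hSEP : SEP) (H : Sys R E) (hD : At E w D y a) (hj : Nr E w D y j) (hk : Nr E w D y k)
    (hs : w.sd j = w.sd k) : j = k := by
  apply H.key_inj hD.1.1 hj.1 hk.1
  cases a
  · exact le_antisymm ((bef hSEP H hD hj).2 k hk.1 hs.symm (by simp [hD.2 k hk.1, hk.2.1]))
      ((bef hSEP H hD hk).2 j hj.1 hs (by simp [hD.2 j hj.1, hj.2.1]))
  · exact le_antisymm ((aft hSEP H hD hk).2 j hj.1 hs (by simp [hD.2 j hj.1, hj.2.1]))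
      ((aft hSEP H hD hj).2 k hk.1 hs.symm (by simp [hD.2 k hk.1, hk.2.1]))

/-- the cell on the other side -/
theorem opp (H : Sys R E) (hD : At E w D y a) (hj : On E w j) (hy : w.pos (ep j) = y)
    (h : w.sd j = a ∨ ∀ k, On E w k → w.pos (ep k) = y → w.sd k = w.sd j) :
    Ce E w (!w.sd j) D = cX E j := by
  rw [H.cX_eq_lt hD.1.1 hj]
  apply Ce_congr
  intro k hk hs
  rw [hD.2 k hk, H.mem_Dlt hD.1.1 hj, and_iff_right hk, Bar.key_lt, hy]
  refine or_congr_right (and_congr_right fun e => ?_)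
  rcases h with h | h
  · rw [hs, h]; cases a <;> simp
  · have := h k hk e
    rw [hs] at this
    simp at this

theorem moved (hCELL : CELL) (hSEP : SEP) (hUNIQ : UNIQ) (H : Sys R E) (hD : At E w D y a)
    (hj : Nr E w D y j) (hk : On E w k) (hy : w.pos (ep k) = y) (h1 : cX E j = cL E k ∨ cX E j = cR E k)
    (h2 : cX E k = cL E j ∨ cX E k = cR E j) (h3 : cX E k ≠ Ce E w (w.sd j) D) :
    w.sd j = a ∧ w.sd k = !w.sd j := by
  have hw := hD.1.1
  have hs : w.sd k = !w.sd j := by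
    have : (!w.sd k) = w.sd j := by
      rcases h2 with h2 | h2
      · rw [H.cX_eq_lt hw hk, H.cL_eq hw hj.1] at h2
        exact side_eq hCELL H (pcl H hw hk) (pcl H hw hj.1) h2
      · rw [H.cX_eq_lt hw hk, H.cR_eq hw hj.1] at h2
        exact side_eq hCELL H (pcl H hw hk) (pcr H hw hj.1) h2
    rw [← this, Bool.not_not]
  have hne : j ≠ k := fun e => by rw [e] at hs; simp at hs
  have pk : Pair E (cX E k) (cX E j) (bar E k) (Dlt E k) ∨ Pair E (cX E k) (cX E j) (bar E k) (Dle E k) := by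
    rcases h1 with h1 | h1
    · exact .inl (h1 ▸ (pair_LX k).symm)
    · exact .inr (h1 ▸ (H.pair_RX hk.1).symm)
  refine ⟨?_, hs⟩
  cases a
  · have h4 : cX E k = cR E j := h2.resolve_left fun e => h3 (e.trans (bef hSEP H hD hj).1.symm)
    have pj := H.pair_RX hj.1.1
    rw [← h4] at pj
    rcases pk with pk | pk
    · have e := (hUNIQ R E H _ _ _ _ _ _ (H.pc_Dle hj.1.1) (H.pc_Dlt hk.1) pj pk).2
      have := Bar.key_lt.1 ((H.mem_Dlt hw hk).1 (e ▸ H.mem_Dle_self hj.1.1)).2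
      rw [hj.2.1, hy, hs] at this
      cases h : w.sd j <;> simp [h] at this ⊢
    · exact absurd (H.Dle_inj hw hj.1 hk
        (hUNIQ R E H _ _ _ _ _ _ (H.pc_Dle hj.1.1) (H.pc_Dle hk.1) pj pk).2) hne
  · have h4 : cX E k = cL E j := h2.resolve_right fun e => h3 (e.trans (aft hSEP H hD hj).1.symm)
    have pj := pair_LX (E := E) j
    rw [← h4] at pj
    rcases pk with pk | pk
    · exact absurd (H.Dlt_inj hw hj.1 hk
        (hUNIQ R E H _ _ _ _ _ _ (H.pc_Dlt hj.1.1) (H.pc_Dlt hk.1) pj pk).2) hne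
    · have e := (hUNIQ R E H _ _ _ _ _ _ (H.pc_Dlt hj.1.1) (H.pc_Dle hk.1) pj pk).2
      have := Bar.key_lt.1 ((H.mem_Dlt hw hj.1).1 (e ▸ H.mem_Dle_self hk.1)).2
      rw [hj.2.1, hy, hs] at this
      cases h : w.sd j <;> simp [h] at this ⊢

theorem tie (hSEP : SEP) (H : Sys R E) (hD : At E w D y a) (hj : Nr E w D y j) (ha : w.sd j ≠ a)
    (hk : On E w k) (hy : w.pos (ep k) = y) (hs : w.sd k ≠ w.sd j) :
    ∃ i, On E w i ∧ w.pos (ep i) = y ∧ (cX E j = cL E i ∨ cX E j = cR E i) ∧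
      cX E i = Ce E w (w.sd j) D := by
  have hw := hD.1.1
  cases a
  · obtain ⟨h1, h2⟩ := bef hSEP H hD hj
    have sj : w.sd j = true := by simpa using ha
    have sk : w.sd k = false := by simpa [sj] using hs
    have hm : k ∈ Dlt E j := (H.mem_Dlt hw hj.1).2 ⟨hk, Bar.key_lt.2 (.inr ⟨hy.trans hj.2.1.symm, .inl ⟨sk, sj⟩⟩)⟩
    rcases H.lo (pcl H hw hj.1) with e | ⟨i, hi, hi', e⟩
    · simp [e] at hm
    · have a1 := ((H.mem_Dlt hw hj.1).1 hi).2
      have a2 := ((H.mem_Dle hw hi').1 (e ▸ hm)).2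
      have a3 : w.pos (ep i) = y :=
        le_antisymm (hj.2.1 ▸ Bar.pos_le_of_key a1.le) (hy ▸ Bar.pos_le_of_key a2)
      have si : w.sd i = false := by
        by_contra hc
        exact not_le.2 a1 (h2 i hi' (by simpa [sj] using hc) (by simp [hD.2 i hi', a3]))
      refine ⟨i, hi', a3, .inr ?_, ?_⟩
      · rw [H.cX_eq_lt hw hj.1, H.cR_eq hw hi', e, si, sj]; rfl
      · rw [h1, H.cX_eq_le hw hi', H.cL_eq hw hj.1, e, si, sj]; rfl
  · obtain ⟨h1, h2⟩ := aft hSEP H hD hj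
    have sj : w.sd j = false := by simpa using ha
    have sk : w.sd k = true := by simpa [sj] using hs
    have hlt : w.key j < w.key k := Bar.key_lt.2 (.inr ⟨hj.2.1.trans hy.symm, .inl ⟨sj, sk⟩⟩)
    have hm : k ∉ Dle E j := fun h => not_le.2 hlt ((H.mem_Dle hw hj.1).1 h).2
    rcases H.hi (pcr H hw hj.1) with e | ⟨i, hi, hi', e⟩
    · exact absurd (by rw [e, Dend_true]; exact hk) hm
    · have a1 : w.key j < w.key i := lt_of_not_ge fun h => hi ((H.mem_Dle hw hj.1).2 ⟨hi', h⟩)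
      have a2 : w.key i ≤ w.key k := le_of_not_gt fun h => hm (e ▸ (H.mem_Dlt hw hi').2 ⟨hk, h⟩)
      have a3 : w.pos (ep i) = y :=
        le_antisymm (hy ▸ Bar.pos_le_of_key a2) (hj.2.1 ▸ Bar.pos_le_of_key a1.le)
      have si : w.sd i = true := by
        by_contra hc
        exact not_le.2 a1 (h2 i hi' (by simpa [sj] using hc) (by simp [hD.2 i hi', a3]))
      refine ⟨i, hi', a3, .inl ?_, ?_⟩
      · rw [H.cX_eq_le hw hj.1, H.cL_eq hw hi', e, si, sj]; rfl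
      · rw [h1, H.cX_eq_lt hw hi', H.cR_eq hw hj.1, e, si, sj]; rfl

/-- a lower bound for the distances of the positions of the ends -/
theorem exists_eta (E : Finset Bar) : ∃ η : ℝ, 0 < η ∧ ∀ w ∈ E, ∀ j k, On E w j → On E w k →
    |w.pos (ep j) - w.pos (ep k)| < 2 * η → w.pos (ep j) = w.pos (ep k) := by
  have : ∀ᶠ η in 𝓝[>] (0 : ℝ), ∀ w ∈ E, ∀ j ∈ {j | On E w j}, ∀ k ∈ {k | On E w k},
      |w.pos (ep j) - w.pos (ep k)| < 2 * η → w.pos (ep j) = w.pos (ep k) := by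
    refine (eventually_all_finset E).2 fun w _ => (eventually_all_finite (finite_on E w)).2 fun j _ =>
      (eventually_all_finite (finite_on E w)).2 fun k _ => ?_
    by_cases h : w.pos (ep j) = w.pos (ep k)
    · exact Eventually.of_forall fun _ _ => h
    · filter_upwards [ev_lt (half_pos (abs_pos.2 (sub_ne_zero.2 h)))] with η h1 h2
      linarith
  obtain ⟨η, h1, h2⟩ := (this.and ev_pos).exists
  exact ⟨η, h2, fun w hw j k hj hk => h1 w hw j hj k hk⟩

/-- the piece of a point close to the position of an end -/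
theorem at_near {η x : ℝ} (hw : w ∈ E) (hη : ∀ j k, On E w j → On E w k →
    |w.pos (ep j) - w.pos (ep k)| < 2 * η → w.pos (ep j) = w.pos (ep k)) (hj : On E w j)
    (h1 : x ≠ w.pos (ep j)) (h2 : |x - w.pos (ep j)| < η) :
    At E w {k | On E w k ∧ w.pos (ep k) ≤ x} (w.pos (ep j)) (decide (w.pos (ep j) < x)) := by
  refine ⟨pc_le hw x, fun k hk => ?_⟩
  have h3 := hη k j hk hj
  rw [abs_lt] at h2 h3
  simp only [mem_ofPred_eq, hk, true_and, decide_eq_true_eq]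
  constructor
  · intro h
    rcases lt_trichotomy (w.pos (ep k)) (w.pos (ep j)) with h4 | h4 | h4
    · exact .inl h4
    · exact .inr ⟨h4, lt_of_le_of_ne (h4 ▸ h) h1.symm⟩
    · exact absurd (h3 ⟨by linarith, by linarith⟩) h4.ne'
  · rintro (h | h)
    · by_contra hc
      exact absurd (h3 ⟨by linarith, by linarith⟩) h.ne
    · linarith [h.1, h.2]

end Pool.Agent.P.MP_5f84aa_co.G.TLIGHT
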