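import Pool.Agent.P.MP_5f84aa_co.G.Map2
import Pool.Agent.P.MP_5f84aa_co.G.TCORNER
import Pool.Agent.P.MP_5f84aa_co.G.TSECT
import Pool.Agent.P.MP_5f84aa_co.G.TLIGHTA

/-! Top and bottom corners: counting facts. -/

namespace Pool.Agent.P.MP_5f84aa_co.G

open Filter Topology Set

/-- the counting facts hold for the map of a system -/
def CNT : Prop := ∀ R E, Sys R E → (mp R E).Cnt

namespace TCNT

variable {R : ℝ} {E : Finset Bar} {j k : En} {φ : Pt →ₗ[ℝ] ℝ}

/-- the cell whose highest or lowest point is at `j` -/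
noncomputable def own (E : Finset Bar) (φ : Pt →ₗ[ℝ] ℝ) (j : En) : Set Pt :=
  if φ (bar E j).d * φ (ed j) < 0 then cL E j else cR E j

theorem own_neg (j : En) : own E (-φ) j = own E φ j := by simp [own]

theorem own_cases (j : En) : own E φ j = cL E j ∨ own E φ j = cR E j := by
  unfold own; split_ifs <;> simp

theorem gen_neg (h : Gen E φ) : Gen E (-φ) := fun t ht => by simpa using h t ht

theorem gen_ed (h : Gen E φ) (hj : IsEnd E j) : φ (ed j) ≠ 0 := by
  rw [ed_eq, map_smul]; exact smul_ne_zero (sg_ne _) (h _ hj.1)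

theorem stem_cl (hCELL : CELL) (hSTEM : STEM) (H : Sys R E) (hj : IsEnd E j) {c : Set Pt}
    (hc : c = cL E j ∨ c = cR E j) : ∀ᶠ a in 𝓝[>] (0 : ℝ), ep j + a • ed j ∈ closure c := by
  obtain ⟨τ, rfl⟩ : ∃ τ, c = Ce E j.1 τ (Dend E j.1 j.2) := by
    obtain ⟨τ, h1, h2⟩ := pair_iff.1 (hSTEM R E H j hj)
    exact hc.elim (fun e => ⟨_, e.trans h1⟩) fun e => ⟨_, e.trans h2⟩
  obtain ⟨s, e⟩ := j
  have key := (hCELL R E H s _ (pc_Dend hj.1 e) τ).2.2.1
  cases e
  · filter_upwards [ev_no_end E s 0 1, ev_pos, ev_lt one_pos] with a h1 h2 h3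
    rw [ep_add_ed]
    refine (key a ⟨⟨h2, fun _ => h3⟩, fun k hk => ⟨by simp, fun _ => ?_⟩⟩).2
    linarith [(h1 k hk).1 hk.2.2.1]
  · filter_upwards [ev_no_end E s 1 (-1), ev_pos, ev_lt one_pos] with a h1 h2 h3
    rw [ep_add_ed]
    refine (key (1 - a) ⟨⟨by linarith, fun _ => by linarith⟩, fun k hk =>
      ⟨fun _ => ?_, fun h => absurd ⟨hk, rfl⟩ h⟩⟩).2
    linarith [(h1 k hk).2 (hk.2.2.2 (hj.2 rfl))]

theorem ep_cl (hCELL : CELL) (H : Sys R E) (hj : IsEnd E j) {c : Set Pt}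
    (hc : c = cL E j ∨ c = cR E j) : ep j ∈ closure c := by
  rw [Bar.In.eq_pt (H.bar_ne0 hj) (H.on_bar hj).2.1]
  rcases hc with rfl | rfl
  · exact ((hCELL R E H _ _ (H.pc_Dlt hj) _).2.2.1 _ (fit_Dlt H hj)).2
  · exact ((hCELL R E H _ _ (H.pc_Dle hj) _).2.2.1 _ (fit_Dle H hj)).2

theorem below (hCELL : CELL) (hSECT : SECT) (H : Sys R E) (hφ : Gen E φ) (hj : IsEnd E j)
    (hu : φ (ed j) < 0) {z : Pt} (hz : z ∈ closure (own E φ j)) : z = ep j ∨ φ z < φ (ep j) := by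
  have ht := H.bar_mem hj
  have ho := H.on_bar hj
  have h1 : 0 ≤ sg ((bar E j).sd j) * (bar E j).ht z := by
    rcases own_cases (E := E) (φ := φ) j with e | e <;> rw [e] at hz
    · exact closure_sign (hCELL R E H _ _ (H.pc_Dlt hj) _).2.2.2.2 hz
    · exact closure_sign (hCELL R E H _ _ (H.pc_Dle hj) _).2.2.2.2 hz
  have h2 : ((bar E j).pos z - (bar E j).pos (ep j) - (bar E j).sl j * |(bar E j).ht z|) *
      φ (bar E j).d ≤ 0 := by
    refine closure_minimal (t := {z | ((bar E j).pos z - (bar E j).pos (ep j) -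
      (bar E j).sl j * |(bar E j).ht z|) * φ (bar E j).d ≤ 0}) (fun y hy => ?_)
      (isClosed_le (by fun_prop) continuous_const) hz
    rcases (hφ _ ht).lt_or_gt with h | h
    · rw [own, if_neg (by nlinarith)] at hy
      exact mul_nonpos_of_nonneg_of_nonpos (by linarith [(hSECT R E H j hj y).2 hy]) h.le
    · rw [own, if_pos (by nlinarith)] at hy
      exact mul_nonpos_of_nonpos_of_nonneg (by linarith [(hSECT R E H j hj y).1 hy]) h.le
  have h3 := TSECT.dec H.toPre ht ho h1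
  generalize (bar E j).pos z - (bar E j).pos (ep j) - (bar E j).sl j * |(bar E j).ht z| = b at h2 h3
  have h4 : 0 ≤ |(bar E j).ht z| / |(bar E j).lh (ed j)| := by positivity
  generalize |(bar E j).ht z| / |(bar E j).lh (ed j)| = a at h3 h4
  have h5 : φ z = φ (ep j) + a * φ (ed j) + b * φ (bar E j).d := by rw [h3]; simp
  by_cases h6 : a = 0
  · by_cases h7 : b = 0
    · left; rw [h3, h6, h7]; simp
    · right
      have := lt_of_le_of_ne h2 (mul_ne_zero h7 (hφ _ ht))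
      rw [h5, h6]; linarith
  · right
    have := mul_neg_of_pos_of_neg (lt_of_le_of_ne h4 (Ne.symm h6)) hu
    linarith

theorem own_inj (hCELL : CELL) (hSECT : SECT) (hSEP : SEP) (H : Sys R E) (hφ : Gen E φ)
    (hj : IsEnd E j) (hk : IsEnd E k) (uj : φ (ed j) < 0) (uk : φ (ed k) < 0)
    (e : own E φ j = own E φ k) : j = k := by
  have e1 : ep j = ep k := by
    rcases below hCELL hSECT H hφ hj uj (e ▸ ep_cl hCELL H hk (own_cases k)) with h | h
    · exact h.symm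
    · exact (below hCELL hSECT H hφ hk uk (e ▸ ep_cl hCELL H hj (own_cases j))).resolve_right h.asymm
  have ht := H.bar_mem hj
  have oj := H.on_bar hj
  have ok : On E (bar E j) k := ⟨hk, e1 ▸ oj.2⟩
  have e2 := H.bar_eq ht ok
  have pj := H.pc_Dlt hj
  have qj := H.pc_Dle hj
  have pk := TLIGHT.pcl H ht ok
  have qk := TLIGHT.pcr H ht ok
  apply H.key_inj ht oj ok
  simp only [own, e2] at e
  rcases (hφ _ ht).lt_or_gt with h | h
  · rw [if_neg (by nlinarith), if_neg (by nlinarith), cR, H.cR_eq ht ok] at e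
    have s := TLIGHT.side_eq hCELL H qj qk e
    refine le_antisymm (le_of_not_gt fun h => hSEP R E H _ _ _ j qk qj oj (fun h' =>
      h.not_ge ((H.mem_Dle ht ok).1 h').2) (H.mem_Dle_self hj) (by rw [e, s]))
      (le_of_not_gt fun h => hSEP R E H _ _ _ k qj qk ok (fun h' => h.not_ge h'.2)
        (H.mem_Dle_self hk) (by rw [← e, s]))
  · rw [if_pos (by nlinarith), if_pos (by nlinarith), cL, H.cL_eq ht ok] at e
    have s := TLIGHT.side_eq hCELL H pj pk e
    refine le_antisymm (le_of_not_gt fun h => hSEP R E H _ _ _ k pk pj ok (not_mem_Dlt k) ⟨ok, h⟩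
      (by rw [← e, s])) (le_of_not_gt fun h => hSEP R E H _ _ _ j pj pk oj (not_mem_Dlt j)
        ((H.mem_Dlt ht ok).2 ⟨oj, h⟩) (by rw [e, s]))

open TCORNER in
theorem corner (hVIS : VIS) (hCELL : CELL) (hSTEM : STEM) (hCLIMB : CLIMB) (H : Sys R E) (hφ : Gen E φ)
    {K : Set (Set Pt)} (hne : K.Nonempty) (hK : ∀ c ∈ K, IsCell E c ∧ ∀ i, c ≠ hh R E i) :
    ∃ j, IsEnd E j ∧ φ (ed j) < 0 ∧ own E φ j ∈ K ∧ ¬ (cL E j ∈ K ∧ cR E j ∈ K) := by
  obtain ⟨c, hc⟩ := hne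
  obtain ⟨z, hz⟩ := ((hVIS R E H).2 c (hK c hc).1).2.2.1
  obtain ⟨j, ⟨j1, j2⟩, hm⟩ := exists_max_image {j | IsEnd E j ∧ (cL E j ∈ K ∨ cR E j ∈ K)}
    (fun j => φ (ep j)) ((finite_ends E).subset fun _ h => h.1) (by
      obtain ⟨j, h1, h2, -⟩ := hCLIMB R E H φ hφ c (hK c hc).1 (hK c hc).2 z hz
      exact ⟨j, h1, h2.imp (fun e => by rwa [← e]) fun e => by rwa [← e]⟩)
  have top : ∀ c ∈ K, ∀ x ∈ closure c, φ x ≤ φ (ep j) := fun c hc x hx =>
    closure_minimal (t := {x | φ x ≤ φ (ep j)}) (fun x hx => by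
      obtain ⟨k, h1, h2, h3⟩ := hCLIMB R E H φ hφ c (hK c hc).1 (hK c hc).2 x hx
      exact (h3.trans_le (hm k ⟨h1, h2.imp (fun e => by rwa [← e]) fun e => by rwa [← e]⟩)).le)
      (isClosed_le φ.continuous_of_finiteDimensional continuous_const) hx
  have ht := H.bar_mem j1
  have hj := H.on_bar j1
  have hd := H.ne _ ht
  have h0 : (∃ σ, Ce E (bar E j) σ (Dlt E j) ∈ K) ∨ ∃ σ, Ce E (bar E j) σ (Dle E j) ∈ K :=
    j2.imp (⟨_, ·⟩) (⟨_, ·⟩)
  generalize bar E j = t at ht hj hd h0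
  have A : ∀ D y, Pc E t D → (∃ σ, Ce E t σ D ∈ K) → Fit E t D y →
      (y - t.pos (ep j)) * φ t.d ≤ 0 := fun D y hD ⟨σ, h⟩ hy => by
    have h1 := top _ h _ ((hCELL R E H t D hD σ).2.2.1 y hy).2
    have h2 := Bar.fn_sub hd φ (p := t.pt y 0) (q := ep j) (by rw [Bar.ht_pt hd, hj.2.1])
    rw [Bar.pos_pt hd] at h2
    linarith
  have upper : ∀ k, On E t k → t.pos (ep k) = t.pos (ep j) → ∀ c ∈ K, c = cL E k ∨ c = cR E k →
      φ (ed k) < 0 := fun k hk e c hc h => by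
    have e' : φ (ep k) = φ (ep j) := by
      rw [← sub_eq_zero, Bar.fn_sub hd φ (hk.2.1.trans hj.2.1.symm), e, sub_self, zero_mul]
    obtain ⟨a, a1, a2⟩ := ((stem_cl hCELL hSTEM H hk.1 h).and ev_pos).exists
    have := top c hc _ a1
    rw [map_add, map_smul, smul_eq_mul, e'] at this
    refine lt_of_le_of_ne ?_ (gen_ed hφ hk.1)
    by_contra hn
    nlinarith [mul_pos a2 (not_le.1 hn)]
  rcases (hφ t ht).lt_or_gt with h | h
  · obtain ⟨k, k1, k2, ⟨σ, k3⟩, k4⟩ := down (P := fun D => ∃ σ, Ce E t σ D ∈ K) H ht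
      (fun D y h1 h2 h3 => by nlinarith [A D y h1 h2 h3]) hj rfl h0
    have hX : cX E k ∉ K := fun e => k4 ⟨_, H.cX_eq_lt ht k1 ▸ e⟩
    have hR : cR E k ∈ K := by
      rcases side σ (t.sd k) with rfl | rfl
      · rwa [H.cR_eq ht k1]
      · exact absurd (H.cX_eq_le ht k1 ▸ k3) hX
    have u := upper k k1 k2 _ hR (.inr rfl)
    refine ⟨k, k1.1, u, ?_, fun e => k4 ⟨_, H.cL_eq ht k1 ▸ e.1⟩⟩
    rwa [own, H.bar_eq ht k1, if_neg (by nlinarith)]
  · obtain ⟨k, k1, k2, ⟨σ, k3⟩, k4⟩ := up (P := fun D => ∃ σ, Ce E t σ D ∈ K) H ht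
      (fun D y h1 h2 h3 => by nlinarith [A D y h1 h2 h3]) hj rfl h0
    have hX : cX E k ∉ K := fun e => k4 ⟨_, H.cX_eq_le ht k1 ▸ e⟩
    have hL : cL E k ∈ K := by
      rcases side σ (t.sd k) with rfl | rfl
      · rwa [H.cL_eq ht k1]
      · exact absurd (H.cX_eq_lt ht k1 ▸ k3) hX
    have u := upper k k1 k2 _ hL (.inl rfl)
    refine ⟨k, k1.1, u, ?_, fun e => k4 ⟨_, H.cR_eq ht k1 ▸ e.2⟩⟩
    rwa [own, H.bar_eq ht k1, if_pos (by nlinarith)]

/-- a generic functional with prescribed signs at an end -/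
theorem exists_sign (H : Sys R E) (hj : IsEnd E j) (a : ℝ) (ha : a ≠ 0) :
    ∃ φ, Gen E φ ∧ 0 < a * (φ (bar E j).d * φ (ed j)) := by
  have h0 := H.bar_ne0 hj
  have h1 := H.lh_ne (H.bar_mem hj) (H.on_bar hj)
  generalize bar E j = t at h0 h1
  have h2 := finite_not_gen H.ne t.lp t.lh fun v a b => Bar.vec_ext h0 (by simpa using a) (by simpa using b)
  have h3 : {s : ℝ | 0 < a * (t.lp (ed j) + s * t.lh (ed j))}.Infinite := by
    refine infinite_of_injective_forall_mem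
      (f := fun n : ℕ => (a * (n + 1) - t.lp (ed j)) / t.lh (ed j)) (fun m n h => ?_) fun n => ?_
    · simp only at h
      field_simp at h
      exact_mod_cast (by simpa [ha] using h : (m : ℝ) = n)
    · simp only [mem_ofPred_eq]
      rw [div_mul_cancel₀ _ h1]
      have := mul_self_pos.2 ha
      nlinarith [(Nat.cast_nonneg n : (0 : ℝ) ≤ n)]
  obtain ⟨s, s1, s2⟩ := h3.exists_notMem_finite h2
  exact ⟨_, not_not.1 s2, by simpa [Bar.lp_d h0] using s1⟩

theorem out (hCELL : CELL) (hSTEM : STEM) (H : Sys R E) (hj : IsEnd E j) (i : Fin 3)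
    (h : hh R E i = cL E j ∨ hh R E i = cR E j) : j = (ry R i, false) := by
  have neg := (hCELL R E H _ _ (pc_empty (H.ry_mem i)) false).2.2.2.2
  obtain ⟨a, a1, a2, a3, a4⟩ := ((stem_cl hCELL hSTEM H hj h).and (ev_pos.and
    ((ev_lt one_pos).and (ev_lt H.pos)))).exists
  have h1 := closure_sign neg a1
  cases hr : j.1.ray
  · have := H.inner _ hj.1 hr _ (in_ep_add (H.ne _ hj.1) a2 a3) i
    simp at h1; linarith
  · obtain ⟨k, hk⟩ := H.rays _ hj.1 hr
    obtain ⟨s, e⟩ := j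
    obtain rfl : s = ry R k := hk
    obtain rfl : e = false := by
      cases e
      · rfl
      · simpa using hj.2 rfl
    obtain rfl : k = i := by
      have := H.pos
      fin_cases k <;> fin_cases i <;>
        simp [ry, Bar.ht, Bar.lh_apply] at h1 ⊢ <;> linarith
    rfl

end TCNT

open TCNT in
theorem t_CNT (hVIS : VIS) (hCELL : CELL) (hSTEM : STEM) (hSECT : SECT) (hSEP : SEP) (hFACE : FACE)
    (hCLIMB : CLIMB) (hCOUNT : COUNT) (hOK : OK) : CNT := by
  classical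
  intro R E H
  have f7 := (hFACE R E H).2.2.2.2.2.2
  have bd : ∀ K : Set (VV R E), (∀ v ∈ K, ¬ (mp R E).has (mp R E).inf v) →
      ∀ c ∈ Subtype.val '' K, IsCell E c ∧ ∀ i, c ≠ hh R E i := by
    rintro K hK _ ⟨v, hv, rfl⟩
    exact ⟨f7 v, fun i e => hK v hv ((has_inf v).2 ⟨i, e⟩)⟩
  have mem : ∀ (K : Set (VV R E)) (v : VV R E), v.1 ∈ Subtype.val '' K ↔ v ∈ K := fun K v =>
    Subtype.val_injective.mem_set_image
  have top : ∀ φ, Gen E φ → ∀ v : VV R E, ¬ (mp R E).has (mp R E).inf v →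
      ∃ j, IsEnd E j ∧ φ (ed j) < 0 ∧ own E φ j = v.1 := fun φ hφ v hv => by
    obtain ⟨j, h1, h2, h3, -⟩ := corner hVIS hCELL hSTEM hCLIMB H hφ (K := Subtype.val '' {v})
      (by simp) (bd _ (by simpa using hv))
    exact ⟨j, h1, h2, by simpa using h3⟩
  refine ⟨by have := hCOUNT R E H; have := (hOK R E H).2.1; omega, exists_has, fun K hne hK => ?_,
    fun K hne hK => ?_, fun v hv => ?_⟩
  · obtain ⟨s, -, -, g0⟩ := exists_gen H.ne
    obtain ⟨j, hj, -, h1, h2⟩ := corner hVIS hCELL hSTEM hCLIMB H g0 (hne.image _) (bd K hK)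
    obtain ⟨φ, hφ, h3⟩ : ∃ φ, Gen E φ ∧ own E φ j ∉ Subtype.val '' K := by
      by_cases h : cL E j ∈ Subtype.val '' K
      · obtain ⟨φ, hφ, h3⟩ := exists_sign H hj 1 one_ne_zero
        exact ⟨φ, hφ, by rw [own, if_neg (by linarith)]; exact fun h' => h2 ⟨h, h'⟩⟩
      · obtain ⟨φ, hφ, h3⟩ := exists_sign H hj (-1) (by norm_num)
        exact ⟨φ, hφ, by rwa [own, if_pos (by linarith)]⟩
    have : ∀ p : K × Bool, ∃ j, IsEnd E j ∧ sg p.2 * φ (ed j) < 0 ∧ own E φ j = p.1.1.1 := by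
      rintro ⟨v, _ | _⟩
      · simpa [own_neg] using top _ (gen_neg hφ) v.1 (hK _ v.2)
      · simpa using top _ hφ v.1 (hK _ v.2)
    choose g g1 g2 g3 using this
    have good : ∀ k (hk : IsEnd E k), (∃ ψ, own E ψ k ∈ Subtype.val '' K) →
        fc hk ∈ {j | (mp R E).L j ∈ K ∨ (mp R E).R j ∈ K} := fun k hk ⟨ψ, h⟩ => by
      rcases own_cases (E := E) (φ := ψ) k with e | e <;> rw [e] at h
      · exact .inl ((mem K _).1 h)
      · exact .inr ((mem K _).1 h)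
    have inj : Function.Injective fun p => fc (g1 p) := fun p q e => by
      have e := fc_inj.1 e
      refine Prod.ext (Subtype.ext (Subtype.ext (by rw [← g3, e, g3]))) (sg_eq (h := -φ (ed (g q))) ?_ ?_)
      · have := g2 p; rw [e] at this; linarith
      · linarith [g2 q]
    have sub : insert (fc hj) (range fun p => fc (g1 p)) ⊆ {j | (mp R E).L j ∈ K ∨ (mp R E).R j ∈ K} := by
      rintro _ (rfl | ⟨p, rfl⟩)
      · exact good j hj ⟨_, h1⟩
      · exact good _ _ ⟨φ, g3 p ▸ ⟨_, p.1.2, rfl⟩⟩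
    refine le_trans (le_of_eq ?_) (ncard_le_ncard sub)
    rw [ncard_insert_of_notMem, ← image_univ, ncard_image_of_injective _ inj, ncard_univ, Nat.card_prod]
    · simp [mul_comm]
    · rintro ⟨p, e⟩
      exact h3 (fc_inj.1 e ▸ g3 p ▸ ⟨_, p.1.2, rfl⟩)
  · obtain ⟨s, -, -, hφ⟩ := exists_gen H.ne
    generalize fn s 1 = φ at hφ
    have half : ∀ φ, Gen E φ → {f : JJ E | ((mp R E).L f ∈ K ∧ (mp R E).R f ∈ K) ∧
        φ (ed (f.1.getD default)) < 0}.ncard + 1 ≤ K.ncard := fun φ hφ => by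
      obtain ⟨j, hj, u, h1, h2⟩ := corner hVIS hCELL hSTEM hCLIMB H hφ (hne.image _) (bd K hK)
      rw [← ncard_insert_of_notMem (a := fc hj) (fun h => h2 ⟨(mem K _).2 h.1.1, (mem K _).2 h.1.2⟩),
        ← ncard_image_of_injective K Subtype.val_injective]
      have isfc : ∀ f ∈ insert (fc hj) {f : JJ E | ((mp R E).L f ∈ K ∧ (mp R E).R f ∈ K) ∧
          φ (ed (f.1.getD default)) < 0}, ∃ k, ∃ hk : IsEnd E k, f = fc hk ∧ φ (ed k) < 0 ∧
            own E φ k ∈ Subtype.val '' K := by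
        rintro f (rfl | hf)
        · exact ⟨j, hj, rfl, u, h1⟩
        · obtain ⟨k, hk, rfl⟩ := (JJ.cases R f).resolve_left fun e => hK _ hf.1.1 (e ▸ .inl rfl)
          refine ⟨k, hk, rfl, hf.2, ?_⟩
          rcases own_cases (E := E) (φ := φ) k with e | e <;> rw [e]
          · exact (mem K _).2 hf.1.1
          · exact (mem K _).2 hf.1.2
      refine ncard_le_ncard_of_injOn (fun f : JJ E => own E φ (f.1.getD default)) (fun f hf => ?_)
        (fun f hf g hg e => ?_) (toFinite K |>.image _)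
      · obtain ⟨k, hk, rfl, -, h⟩ := isfc f hf
        exact h
      · obtain ⟨k, hk, rfl, u1, -⟩ := isfc f hf
        obtain ⟨l, hl, rfl, u2, -⟩ := isfc g hg
        exact fc_inj.2 (own_inj hCELL hSECT hSEP H hφ hk hl u1 u2 e)
    have a1 := half φ hφ
    have a2 := half _ (gen_neg hφ)
    have a3 := ncard_union_le {f : JJ E | ((mp R E).L f ∈ K ∧ (mp R E).R f ∈ K) ∧
      φ (ed (f.1.getD default)) < 0} {f : JJ E | ((mp R E).L f ∈ K ∧ (mp R E).R f ∈ K) ∧
      (-φ) (ed (f.1.getD default)) < 0}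
    have a4 : {j | (mp R E).L j ∈ K ∧ (mp R E).R j ∈ K}.ncard ≤ _ := (ncard_le_ncard fun f hf => ?_).trans a3
    · omega
    · obtain ⟨k, hk, rfl⟩ := (JJ.cases R f).resolve_left fun e => hK _ hf.1 (e ▸ .inl rfl)
      rcases (gen_ed hφ hk).lt_or_gt with h | h
      · exact .inl ⟨hf, h⟩
      · exact .inr ⟨hf, by simpa using h⟩
  · obtain ⟨i, hi⟩ := (has_inf v).1 hv
    refine (ncard_le_one (toFinite _)).2 fun f hf g hg => ?_
    obtain ⟨k, hk, rfl⟩ := (JJ.cases R f).resolve_left hf.1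
    obtain ⟨l, hl, rfl⟩ := (JJ.cases R g).resolve_left hg.1
    exact fc_inj.2 ((out hCELL hSTEM H hk i (hi ▸ (cor_fc hk v).1 hf.2)).trans
      (out hCELL hSTEM H hl i (hi ▸ (cor_fc hl v).1 hg.2)).symm)

end Pool.Agent.P.MP_5f84aa_co.G
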