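import Pool.Agent.P.MP_5f84aa_co.G.Bas3

/-! Faces and pieces. -/

namespace Pool.Agent.P.MP_5f84aa_co.G

open Filter Topology Set

namespace TFACE

variable {R : ℝ} {E : Finset Bar}

theorem pair_ne (hCELL : CELL) (H : Sys R E) {t : Bar} {D : Set En} (h : Pc E t D) {u v : Set Pt}
    (hp : Pair E u v t D) : u ≠ v := by
  obtain ⟨σ, rfl, rfl⟩ := pair_iff.1 hp
  intro e
  obtain ⟨⟨x, hx, e1⟩, -, -, -, h1⟩ := hCELL R E H t D h σ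
  have h2 : x ∈ Ce E t σ D := e1 ▸ hx.vis
  have h3 := sg_eq (h1 x h2) ((hCELL R E H t D h (!σ)).2.2.2.2 x (e ▸ h2))
  simp at h3

theorem pair_cell (hCELL : CELL) (H : Sys R E) {t : Bar} {D : Set En} (h : Pc E t D) {u v : Set Pt}
    (hp : Pair E u v t D) : IsCell E u ∧ IsCell E v := by
  obtain ⟨σ, rfl, rfl⟩ := pair_iff.1 hp
  exact ⟨(hCELL R E H t D h _).1, (hCELL R E H t D h _).1⟩

theorem pair_left {t : Bar} {D : Set En} {u v a b : Set Pt} (h : Pair E u v t D)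
    (h' : Pair E a b t D) : u = a ∨ u = b := by
  rcases h with ⟨rfl, -⟩ | ⟨rfl, -⟩ <;> rcases h' with ⟨rfl, rfl⟩ | ⟨rfl, rfl⟩ <;> simp

theorem inc_pc (H : Sys R E) (f : JJ E) {t : Bar} {D : Set En} (h : Inc R E f.1 t D) :
    Pc E t D := by
  rcases JJ.cases R f with rfl | ⟨j, hj, rfl⟩
  · obtain ⟨i, rfl, rfl⟩ := h
    exact pc_Dend (H.ry_mem i) _
  · rcases h with ⟨rfl, rfl⟩ | ⟨rfl, rfl | rfl⟩
    exacts [pc_Dend hj.1 _, H.pc_Dlt hj, H.pc_Dle hj]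

/-- the three pieces of a face -/
theorem tri (hSTEM : STEM) (hOUT : OUT) (H : Sys R E) (f : JJ E) :
    ∃ t1 D1 t2 D2 t3 D3, Pair E (LL R E f.1) (RR R E f.1) t1 D1 ∧
      Pair E (LL R E f.1) (XX R E f.1) t2 D2 ∧ Pair E (RR R E f.1) (XX R E f.1) t3 D3 ∧
      ∀ t D, Inc R E f.1 t D ↔ (t = t1 ∧ D = D1) ∨ (t = t2 ∧ D = D2) ∨ (t = t3 ∧ D = D3) := by
  rcases JJ.cases R f with rfl | ⟨j, hj, rfl⟩
  · obtain ⟨h1, h2, -⟩ := hOUT R E H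
    have h : ∀ i, Pair E (hh R E i) (hh R E (i + 1)) (ry R i) (Dend E (ry R i) true) :=
      fun i => .inr ⟨(h1 i _).symm, (h2 i).symm⟩
    refine ⟨_, _, _, _, _, _, h 0, (h 2).symm, h 1, fun t D => ⟨?_, ?_⟩⟩
    · rintro ⟨i, rfl, rfl⟩
      fin_cases i
      exacts [.inl ⟨rfl, rfl⟩, .inr (.inr ⟨rfl, rfl⟩), .inr (.inl ⟨rfl, rfl⟩)]
    · rintro (⟨rfl, rfl⟩ | ⟨rfl, rfl⟩ | ⟨rfl, rfl⟩) <;> exact ⟨_, rfl, rfl⟩
  · refine ⟨_, _, _, _, _, _, hSTEM R E H j hj, pair_LX j, H.pair_RX hj, fun t D => ⟨?_, ?_⟩⟩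
    · rintro (⟨rfl, rfl⟩ | ⟨rfl, rfl | rfl⟩)
      exacts [.inl ⟨rfl, rfl⟩, .inr (.inl ⟨rfl, rfl⟩), .inr (.inr ⟨rfl, rfl⟩)]
    · rintro (⟨rfl, rfl⟩ | ⟨rfl, rfl⟩ | ⟨rfl, rfl⟩)
      exacts [.inl ⟨rfl, rfl⟩, .inr ⟨rfl, .inl rfl⟩, .inr ⟨rfl, .inr rfl⟩]

theorem has_iff (f : JJ E) (v : VV R E) :
    (mp R E).has f v ↔ v.1 = LL R E f.1 ∨ v.1 = RR R E f.1 ∨ v.1 = XX R E f.1 := by
  simp only [Map.has, Subtype.ext_iff, mp]

theorem inc_left (hSTEM : STEM) (hOUT : OUT) (H : Sys R E) (f : JJ E) {t : Bar} {D : Set En}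
    (h : Inc R E f.1 t D) {u v : Set Pt} (hp : Pair E u v t D) :
    u = LL R E f.1 ∨ u = RR R E f.1 ∨ u = XX R E f.1 := by
  obtain ⟨t1, D1, t2, D2, t3, D3, p1, p2, p3, h1⟩ := tri hSTEM hOUT H f
  rcases (h1 t D).1 h with ⟨rfl, rfl⟩ | ⟨rfl, rfl⟩ | ⟨rfl, rfl⟩
  · exact (pair_left hp p1).imp_right .inl
  · exact (pair_left hp p2).imp_right .inr
  · exact .inr (pair_left hp p3)

/-- the lower face of a piece -/
def Lo (E : Finset Bar) (t : Bar) (D : Set En) (f : Option En) : Prop :=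
  (f = some (t, false) ∧ D = ∅) ∨ ∃ k, f = some k ∧ On E t k ∧ D = Dle E k

/-- the upper face of a piece -/
def Hi (E : Finset Bar) (t : Bar) (D : Set En) (f : Option En) : Prop :=
  (f = (if t.ray then none else some (t, true)) ∧ D = Dend E t true) ∨
    ∃ k, f = some k ∧ On E t k ∧ D = Dlt E k

theorem inc_iff (H : Sys R E) {t : Bar} (ht : t ∈ E) (D : Set En) (f : JJ E) :
    Inc R E f.1 t D ↔ Lo E t D f.1 ∨ Hi E t D f.1 := by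
  constructor
  · intro h
    rcases JJ.cases R f with rfl | ⟨⟨s, e⟩, hj, rfl⟩
    · obtain ⟨i, rfl, h⟩ := h
      exact .inr (.inl ⟨by simp, h⟩)
    · rcases h with ⟨rfl, h⟩ | ⟨rfl, h | h⟩
      · cases e
        · exact .inl (.inl ⟨rfl, h.trans (Dend_false _)⟩)
        · have : t.ray = false := hj.2 rfl
          exact .inr (.inl ⟨by simp [this], h⟩)
      · exact .inr (.inr ⟨_, rfl, H.on_bar hj, h⟩)
      · exact .inl (.inr ⟨_, rfl, H.on_bar hj, h⟩)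
  · rintro ((⟨e, h⟩ | ⟨k, e, hk, h⟩) | ⟨e, h⟩ | ⟨k, e, hk, h⟩) <;> rw [e]
    · exact .inl ⟨rfl, h.trans (Dend_false _).symm⟩
    · exact .inr ⟨(H.bar_eq ht hk).symm, .inr h⟩
    · split_ifs with hr
      · obtain ⟨i, hi⟩ := H.rays t ht hr
        exact ⟨i, hi, h⟩
      · exact .inl ⟨rfl, h⟩
    · exact .inr ⟨(H.bar_eq ht hk).symm, .inl h⟩

theorem lo_uniq (H : Sys R E) {t : Bar} (ht : t ∈ E) {D : Set En} {f g : Option En}
    (hf : Lo E t D f) (hg : Lo E t D g) : f = g := by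
  rcases hf with ⟨rfl, h⟩ | ⟨k, rfl, hk, h⟩ <;> rcases hg with ⟨rfl, h'⟩ | ⟨k', rfl, hk', h'⟩
  · rfl
  · exact absurd (H.mem_Dle_self hk'.1) (by rw [← h', h]; simp)
  · exact absurd (H.mem_Dle_self hk.1) (by rw [← h, h']; simp)
  · rw [H.Dle_inj ht hk hk' (h.symm.trans h')]

theorem hi_uniq (H : Sys R E) {t : Bar} (ht : t ∈ E) {D : Set En} {f g : Option En}
    (hf : Hi E t D f) (hg : Hi E t D g) : f = g := by
  rcases hf with ⟨rfl, h⟩ | ⟨k, rfl, hk, h⟩ <;> rcases hg with ⟨rfl, h'⟩ | ⟨k', rfl, hk', h'⟩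
  · rfl
  · exact absurd (by rw [← h', h]; exact ⟨hk', rfl⟩) (not_mem_Dlt (E := E) k')
  · exact absurd (by rw [← h, h']; exact ⟨hk, rfl⟩) (not_mem_Dlt (E := E) k)
  · rw [H.Dlt_inj ht hk hk' (h.symm.trans h')]

theorem lo_hi (H : Sys R E) {t : Bar} (ht : t ∈ E) {D : Set En} {f : Option En}
    (hf : Lo E t D f) (hg : Hi E t D f) : False := by
  rcases hf with ⟨rfl, h⟩ | ⟨k, rfl, hk, h⟩ <;> rcases hg with ⟨e, h'⟩ | ⟨k', e, hk', h'⟩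
  · split_ifs at e <;> simp at e
  · obtain rfl := Option.some.inj e
    exact H.stem_ne hk'.1 (H.bar_eq ht hk').symm
  · split_ifs at e
    obtain rfl := Option.some.inj e
    exact H.stem_ne hk.1 (H.bar_eq ht hk).symm
  · obtain rfl := Option.some.inj e
    exact not_mem_Dlt (E := E) k (by rw [← h', h]; exact H.mem_Dle_self hk.1)

theorem two (H : Sys R E) {t : Bar} {D : Set En} (h : Pc E t D) :
    ∃ a b : JJ E, a ≠ b ∧ {f : JJ E | Inc R E f.1 t D} = {a, b} := by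
  obtain ⟨a, ha⟩ : ∃ a : JJ E, Lo E t D a.1 := by
    rcases H.lo h with e | ⟨k, -, hk, e⟩
    · exact ⟨fc (isEnd_false h.1), .inl ⟨rfl, e⟩⟩
    · exact ⟨fc hk.1, .inr ⟨k, rfl, hk, e⟩⟩
  obtain ⟨b, hb⟩ : ∃ b : JJ E, Hi E t D b.1 := by
    rcases H.hi h with e | ⟨k, -, hk, e⟩
    · cases hr : t.ray
      · exact ⟨fc (isEnd_true h.1 hr), .inl ⟨by simp [hr], e⟩⟩
      · exact ⟨(mp R E).inf, .inl ⟨by simp [hr], e⟩⟩
    · exact ⟨fc hk.1, .inr ⟨k, rfl, hk, e⟩⟩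
  refine ⟨a, b, fun e => lo_hi H h.1 ha (e ▸ hb), Set.ext fun f => ?_⟩
  rw [mem_ofPred_eq, inc_iff H h.1]
  constructor
  · exact Or.imp (fun hf => Subtype.ext (lo_uniq H h.1 hf ha))
      fun hf => Subtype.ext (hi_uniq H h.1 hf hb)
  · rintro (rfl | rfl)
    exacts [.inl ha, .inr hb]

theorem exists_inc (H : Sys R E) {t : Bar} {D : Set En} (h : Pc E t D) :
    ∃ f : JJ E, Inc R E f.1 t D := by
  obtain ⟨a, b, -, e⟩ := two H h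
  exact ⟨a, (e ▸ mem_insert a {b} : a ∈ {f : JJ E | Inc R E f.1 t D})⟩

end TFACE

open TFACE in
theorem t_FACE (hCELL : CELL) (hSTEM : STEM) (hSEP : SEP) (hUNIQ : UNIQ) (hOUT : OUT) : FACE := by
  have _ := hSEP
  intro R E H
  have h3 : ∀ (f : JJ E) (u v : VV R E), u ≠ v → ((mp R E).has f u ∧ (mp R E).has f v ↔
      ∃ t D, Inc R E f.1 t D ∧ Pair E u.1 v.1 t D) := fun f u v huv => by
    rw [has_iff, has_iff]
    refine ⟨?_, fun ⟨t, D, h, hp⟩ =>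
      ⟨inc_left hSTEM hOUT H f h hp, inc_left hSTEM hOUT H f h hp.symm⟩⟩
    obtain ⟨t1, D1, t2, D2, t3, D3, p1, p2, p3, h1⟩ := tri hSTEM hOUT H f
    have i1 := (h1 _ _).2 (.inl ⟨rfl, rfl⟩)
    have i2 := (h1 _ _).2 (.inr (.inl ⟨rfl, rfl⟩))
    have i3 := (h1 _ _).2 (.inr (.inr ⟨rfl, rfl⟩))
    rintro ⟨a | a | a, b | b | b⟩ <;> first
      | exact absurd (Subtype.ext (a.trans b.symm)) huv
      | rw [a, b]
    exacts [⟨_, _, i1, p1⟩, ⟨_, _, i2, p2⟩, ⟨_, _, i1, p1.symm⟩, ⟨_, _, i3, p3⟩,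
      ⟨_, _, i2, p2.symm⟩, ⟨_, _, i3, p3.symm⟩]
  have h5 : ∀ u v, (mp R E).Adj u v ↔ ∃ t D, Pc E t D ∧ Pair E u.1 v.1 t D := fun u v => by
    constructor
    · rintro ⟨huv, f, h⟩
      obtain ⟨t, D, h1, h2⟩ := (h3 f u v huv).1 h
      exact ⟨t, D, inc_pc H f h1, h2⟩
    · rintro ⟨t, D, h1, h2⟩
      obtain ⟨f, hf⟩ := exists_inc H h1
      have huv : u ≠ v := fun e => pair_ne hCELL H h1 h2 (congrArg _ e)
      exact ⟨huv, f, (h3 f u v huv).2 ⟨t, D, hf, h2⟩⟩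
  refine ⟨fun f => ?_, fun f t D => inc_pc H f, h3, fun t D h => ⟨?_, ?_⟩, h5,
    fun u v t D h hp => ?_, fun v => ?_⟩
  · obtain ⟨t1, D1, t2, D2, t3, D3, p1, p2, p3, h1⟩ := tri hSTEM hOUT H f
    exact ⟨fun e => pair_ne hCELL H (inc_pc H f ((h1 _ _).2 (.inl ⟨rfl, rfl⟩))) p1
        (congrArg Subtype.val e),
      fun e => pair_ne hCELL H (inc_pc H f ((h1 _ _).2 (.inr (.inl ⟨rfl, rfl⟩)))) p2
        (congrArg Subtype.val e),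
      fun e => pair_ne hCELL H (inc_pc H f ((h1 _ _).2 (.inr (.inr ⟨rfl, rfl⟩)))) p3
        (congrArg Subtype.val e)⟩
  · obtain ⟨a, b, hab, e⟩ := two H h
    rw [e, ncard_pair hab]
  · obtain ⟨f, hf⟩ := exists_inc H h
    have hp : Pair E (Ce E t true D) (Ce E t false D) t D := .inl ⟨rfl, rfl⟩
    exact ⟨⟨_, f, inc_left hSTEM hOUT H f hf hp⟩, ⟨_, f, inc_left hSTEM hOUT H f hf hp.symm⟩,
      (h5 _ _).2 ⟨t, D, h, hp⟩, rfl, rfl⟩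
  · obtain ⟨D', h1, h2⟩ := Classical.epsilon_spec
      (p := fun t => ∃ D, Pc E t D ∧ Pair E u.1 v.1 t D) ⟨t, D, h, hp⟩
    exact (hUNIQ R E H _ _ _ _ _ _ h1 h h2 hp).1
  · obtain ⟨c, f, h⟩ := v
    obtain ⟨t1, D1, t2, D2, t3, D3, p1, p2, -, h1⟩ := tri hSTEM hOUT H f
    have c1 := pair_cell hCELL H (inc_pc H f ((h1 _ _).2 (.inl ⟨rfl, rfl⟩))) p1
    have c2 := pair_cell hCELL H (inc_pc H f ((h1 _ _).2 (.inr (.inl ⟨rfl, rfl⟩)))) p2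
    rcases h with rfl | rfl | rfl
    exacts [c1.1, c1.2, c2.2]

end Pool.Agent.P.MP_5f84aa_co.G
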