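import Pool.Agent.P.MP_5f84aa_co.G.Bas3

/-! The geometric layer from its three parts. -/

namespace Pool.Agent.P.MP_5f84aa_co.G

theorem t_GLUE (hSYS : SYS) (hOK : OK) (hLIGHT : LIGHT) : S_GEO := by
  intro n a b h
  obtain ⟨R, E, H, hc, γ, hγ, hw⟩ := hSYS n a b h
  obtain ⟨h1, h2, h3⟩ := hOK R E H
  let i1 : Fintype (VV R E) := Fintype.ofFinite _
  let i2 : Fintype (JJ E) := Fintype.ofFinite _
  refine ⟨VV R E, JJ E, Bar, i1, i2, mp R E, h1, ?_, ?_, fun M F sh C => ?_⟩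
  · rw [← Nat.card_eq_fintype_card]; omega
  · rwa [← Nat.card_eq_fintype_card, ← Nat.card_eq_fintype_card]
  · obtain ⟨S, s1, s2, s3⟩ := hLIGHT R E H γ hγ M F sh C
    refine ⟨S, s1, fun x hx i hi => ?_, fun i q hq => ?_⟩
    · obtain ⟨w, hw1, hw2⟩ := hw i
      exact s2 x hx w hw1 ((hw2 x hi).isIn hγ).cl
    · obtain ⟨w, hw1, hw2⟩ := hw i
      obtain ⟨x, hx, hs⟩ := s3 w hw1 q (hw2 q hq)
      refine ⟨x, hx, fun j => Set.disjoint_left.2 fun z hz hz' => ?_⟩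
      obtain ⟨w', hw1', hw2'⟩ := hw j
      exact hs z hz w' hw1' (hw2' z hz')

end Pool.Agent.P.MP_5f84aa_co.G
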