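import Pool.Agent.P.MP_5f84aa_co.G.Bas3

namespace Pool.Agent.P.MP_5f84aa_co.G

open Set

theorem t_RUN : RUN := by
  intro R E H t D h σ
  constructor
  · rcases {j | On E t j ∧ t.sd j = σ ∧ j ∉ D}.eq_empty_or_nonempty with h0 | h0
    · have h1 : ∀ j, On E t j → t.sd j = σ → j ∈ D := fun j hj hs => by_contra fun hc =>
        (h0 ▸ (⟨hj, hs, hc⟩ : j ∈ {j | On E t j ∧ t.sd j = σ ∧ j ∉ D}) : j ∈ (∅ : Set En))
      exact .inr ⟨h1, Ce_congr fun j hj hs => iff_of_true (h1 j hj hs) ⟨hj, rfl⟩⟩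
    · obtain ⟨k, hk, hm⟩ := exists_min_image _ t.key ((finite_on E t).subset fun _ h => h.1) h0
      refine .inl ⟨k, hk.1, hk.2.1, hk.2.2, ?_⟩
      rw [H.cL_eq h.1 hk.1, hk.2.1]
      refine Ce_congr fun j hj hs => ?_
      rw [H.mem_Dlt h.1 hk.1]
      exact ⟨fun hi => ⟨hj, h.key_lt hi hk.1 hk.2.2⟩,
        fun hi => by_contra fun hc => not_le.2 hi.2 (hm j ⟨hj, hs, hc⟩)⟩
  · rcases {j | On E t j ∧ t.sd j = σ ∧ j ∈ D}.eq_empty_or_nonempty with h0 | h0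
    · have h1 : ∀ j, On E t j → t.sd j = σ → j ∉ D := fun j hj hs hc =>
        (h0 ▸ (⟨hj, hs, hc⟩ : j ∈ {j | On E t j ∧ t.sd j = σ ∧ j ∈ D}) : j ∈ (∅ : Set En))
      exact .inr ⟨h1, Ce_congr fun j hj hs => iff_of_false (h1 j hj hs) (by simp)⟩
    · obtain ⟨k, hk, hm⟩ := exists_max_image _ t.key ((finite_on E t).subset fun _ h => h.1) h0
      refine .inl ⟨k, hk.1, hk.2.1, hk.2.2, ?_⟩
      rw [H.cR_eq h.1 hk.1, hk.2.1]
      refine Ce_congr fun j hj hs => ?_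
      rw [H.mem_Dle h.1 hk.1]
      exact ⟨fun hi => ⟨hj, hm j ⟨hj, hs, hi⟩⟩, fun hi => h.2.2 k hk.2.2 j hj hi.2⟩

end Pool.Agent.P.MP_5f84aa_co.G
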